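import Pool.Agent.PP.Defs

open Set Metric Filter Topology MeasureTheory
open scoped ContDiff

set_option linter.unusedSectionVars false

noncomputable section

namespace PP

variable {n : ℕ}
variable {F : Type*} [NormedAddCommGroup F] [NormedSpace ℝ F] [CompleteSpace F]

theorem AVG1_haar : (volume : Measure (X n)).IsAddHaarMeasure :=
  inferInstanceAs ((volume : Measure (E n)).prod (volume : Measure ℝ)).IsAddHaarMeasure

attribute [local instance] AVG1_haar

section AVG1aux

variable {α : Type*} [MeasurableSpace α] {μ : Measure α}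

theorem AVG1_toReal {q : ℝ} (hq : 1 ≤ q) {g : α → F} (hg : AEStronglyMeasurable g μ) :
    ∫ z, ‖g z‖ ^ q ∂μ = (∫⁻ z, ‖g z‖ₑ ^ q ∂μ).toReal := by
  have h0 : (0 : ℝ) ≤ q := by linarith
  rw [← integral_toReal (hg.enorm.pow_const q)]
  · apply integral_congr_ae
    filter_upwards with z
    rw [← ENNReal.toReal_rpow, toReal_enorm]
  · filter_upwards with z
    exact ENNReal.rpow_lt_top_of_nonneg h0 enorm_ne_top

theorem AVG1_memLp_iff {q : ℝ} (hq : 1 ≤ q) {g : α → F} (hg : AEStronglyMeasurable g μ) :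
    MemLp g (ENNReal.ofReal q) μ ↔ ∫⁻ z, ‖g z‖ₑ ^ q ∂μ < ⊤ := by
  have h0 : (0 : ℝ) < q := by linarith
  have h1 : ENNReal.ofReal q ≠ 0 := by
    rw [Ne, ENNReal.ofReal_eq_zero]; linarith
  have h2 := eLpNorm_lt_top_iff_lintegral_rpow_enorm_lt_top (f := g) (μ := μ) h1
    ENNReal.ofReal_ne_top
  rw [ENNReal.toReal_ofReal h0.le] at h2
  rw [← h2]
  exact ⟨fun h => h.2, fun h => ⟨hg, h⟩⟩

/-- Jensen -/
theorem AVG1_jensen {q : ℝ} (hq : 1 ≤ q) [IsProbabilityMeasure μ] {g : α → F}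
    (hg : AEStronglyMeasurable g μ) :
    (∫⁻ z, ‖g z‖ₑ ∂μ) ^ q ≤ ∫⁻ z, ‖g z‖ₑ ^ q ∂μ := by
  have h0 : (0 : ℝ) < q := by linarith
  have h1 : ENNReal.ofReal q ≠ 0 := by
    rw [Ne, ENNReal.ofReal_eq_zero]; linarith
  have h2 : (1 : ENNReal) ≤ ENNReal.ofReal q := by
    rw [← ENNReal.ofReal_one]; exact ENNReal.ofReal_le_ofReal hq
  have h3 := eLpNorm_le_eLpNorm_of_exponent_le h2 hg
  rw [eLpNorm_one_eq_lintegral_enorm,
    eLpNorm_eq_lintegral_rpow_enorm_toReal h1 ENNReal.ofReal_ne_top,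
    ENNReal.toReal_ofReal h0.le] at h3
  have h4 := ENNReal.rpow_le_rpow h3 h0.le
  rw [← ENNReal.rpow_mul, one_div, inv_mul_cancel₀ h0.ne', ENNReal.rpow_one] at h4
  exact h4

end AVG1aux

theorem AVG1_key {q : ℝ} (hq : 1 ≤ q) {s : ℝ} (hs : s ≠ 0) {h : ℝ → X n → F}
    (hm : AEStronglyMeasurable (Function.uncurry h)
      ((volume.restrict (Set.uIoc 0 s)).prod (volume : Measure (X n)))) :
    ∫⁻ z, ‖s⁻¹ • ∫ r in (0 : ℝ)..s, h r z‖ₑ ^ q ≤
      ‖s⁻¹‖ₑ * ∫⁻ r in Set.uIoc 0 s, ∫⁻ z, ‖h r z‖ₑ ^ q := by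
  have h0 : (0 : ℝ) < q := by linarith
  set ν : Measure ℝ := ‖s⁻¹‖ₑ • volume.restrict (Set.uIoc 0 s) with hν
  have hvol : volume (Set.uIoc 0 s) = ‖s‖ₑ := by
    rw [Real.volume_uIoc, Real.enorm_eq_ofReal_abs, sub_zero]
  have hsn : ‖s⁻¹‖ₑ * ‖s‖ₑ = 1 := by
    rw [← enorm_mul, inv_mul_cancel₀ hs, enorm_one]
  have : IsProbabilityMeasure ν := by
    constructor
    rw [hν, Measure.smul_apply, Measure.restrict_apply_univ, hvol, smul_eq_mul, hsn]
  have hsw : AEStronglyMeasurable (fun p : X n × ℝ => h p.2 p.1)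
      ((volume : Measure (X n)).prod (volume.restrict (Set.uIoc 0 s))) := hm.prod_swap
  have h1 : ∀ᵐ z : X n, ‖s⁻¹ • ∫ r in (0 : ℝ)..s, h r z‖ₑ ^ q ≤
      ‖s⁻¹‖ₑ * ∫⁻ r in Set.uIoc 0 s, ‖h r z‖ₑ ^ q := by
    filter_upwards [hsw.prodMk_left] with z hz
    have h2 : ‖s⁻¹ • ∫ r in (0 : ℝ)..s, h r z‖ₑ ≤ ∫⁻ r, ‖h r z‖ₑ ∂ν := by
      rw [enorm_smul, hν, lintegral_smul_measure, smul_eq_mul]
      apply mul_le_mul_right
      rw [intervalIntegral.intervalIntegral_eq_integral_uIoc, enorm_smul]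
      have h3 : ‖(if (0 : ℝ) ≤ s then (1 : ℝ) else -1)‖ₑ = 1 := by
        split_ifs <;> simp
      rw [h3, one_mul]
      exact enorm_integral_le_lintegral_enorm _
    have hz' : AEStronglyMeasurable (fun r => h r z) ν :=
      hz.smul_measure _
    calc ‖s⁻¹ • ∫ r in (0 : ℝ)..s, h r z‖ₑ ^ q ≤ (∫⁻ r, ‖h r z‖ₑ ∂ν) ^ q :=
          ENNReal.rpow_le_rpow h2 h0.le
      _ ≤ ∫⁻ r, ‖h r z‖ₑ ^ q ∂ν := AVG1_jensen hq hz'
      _ = ‖s⁻¹‖ₑ * ∫⁻ r in Set.uIoc 0 s, ‖h r z‖ₑ ^ q := by
          rw [hν, lintegral_smul_measure, smul_eq_mul]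
  calc ∫⁻ z, ‖s⁻¹ • ∫ r in (0 : ℝ)..s, h r z‖ₑ ^ q
      ≤ ∫⁻ z, ‖s⁻¹‖ₑ * ∫⁻ r in Set.uIoc 0 s, ‖h r z‖ₑ ^ q := lintegral_mono_ae h1
    _ = ‖s⁻¹‖ₑ * ∫⁻ z, ∫⁻ r in Set.uIoc 0 s, ‖h r z‖ₑ ^ q :=
        lintegral_const_mul' _ _ enorm_ne_top
    _ = ‖s⁻¹‖ₑ * ∫⁻ r in Set.uIoc 0 s, ∫⁻ z, ‖h r z‖ₑ ^ q := by
        rw [lintegral_lintegral_swap]
        exact hsw.enorm.pow_const q

/-- joint measurability of the time shifts -/
theorem AVG1_meas {f : X n → F} (hf : AEStronglyMeasurable f volume) (ν : Measure ℝ)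
    [SFinite ν] : AEStronglyMeasurable (Function.uncurry fun (r : ℝ) (z : X n) => f (z.1, z.2 + r))
      (ν.prod (volume : Measure (X n))) := by
  have h1 : MeasurePreserving (fun p : ℝ × X n => (p.1, (p.2.1, p.2.2 + p.1)))
      (ν.prod (volume : Measure (X n))) (ν.prod (volume : Measure (X n))) := by
    refine (MeasurePreserving.id ν).skew_product (g := fun (r : ℝ) (z : X n) => (z.1, z.2 + r))
      ?_ ?_
    · exact (Continuous.measurable (by fun_prop))
    · filter_upwards with r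
      have h2 := (measurePreserving_add_right (volume : Measure (X n)) ((0 : E n), r)).map_eq
      have h3 : (fun x : X n => x + ((0 : E n), r)) = fun z : X n => (z.1, z.2 + r) := by
        funext z
        ext1
        · simp
        · simp
      rw [h3] at h2
      exact h2
  have h4 := Measure.quasiMeasurePreserving_snd (μ := ν) (ν := (volume : Measure (X n)))
  exact (hf.comp_quasiMeasurePreserving h4).comp_quasiMeasurePreserving h1.quasiMeasurePreserving

theorem AVG1_shift_lintegral {q : ℝ} (f : X n → F) (r : ℝ) :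
    ∫⁻ z : X n, ‖f (z.1, z.2 + r)‖ₑ ^ q = ∫⁻ z, ‖f z‖ₑ ^ q := by
  have := lintegral_add_right_eq_self (μ := (volume : Measure (X n)))
    (fun z => ‖f z‖ₑ ^ q) ((0 : E n), r)
  rw [← this]
  apply lintegral_congr
  intro z
  have h3 : z + ((0 : E n), r) = (z.1, z.2 + r) := by
    ext1
    · simp
    · simp
  rw [h3]

theorem AVG1_avg_const {s : ℝ} (hs : s ≠ 0) (c : ENNReal) :
    ‖s⁻¹‖ₑ * ∫⁻ _ in Set.uIoc 0 s, c = c := by
  have hsn : ‖s⁻¹‖ₑ * ‖s‖ₑ = 1 := by
    rw [← enorm_mul, inv_mul_cancel₀ hs, enorm_one]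
  rw [setLIntegral_const, Real.volume_uIoc, sub_zero, ← Real.enorm_eq_ofReal_abs, mul_comm c,
    ← mul_assoc, hsn, one_mul]

theorem shift_tendsto {q : ℝ} (hq : 1 ≤ q) {f : X n → F}
    (hf : MemLp f (ENNReal.ofReal q) volume) :
    Tendsto (fun y : X n => ∫ z, ‖f (z + y) - f z‖ ^ q) (𝓝 0) (𝓝 0) := by
  have h0 : (0 : ℝ) < q := by linarith
  have h1 : ENNReal.ofReal q ≠ 0 := by
    rw [Ne, ENNReal.ofReal_eq_zero]; linarith
  have : Fact (1 ≤ ENNReal.ofReal q) := ⟨by
    rw [← ENNReal.ofReal_one]; exact ENNReal.ofReal_le_ofReal hq⟩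
  let g : C(X n, C(X n, X n)) :=
    (ContinuousMap.mk (fun a : X n × X n => a.2 + a.1) (by fun_prop)).curry
  have hgm : ∀ y, MeasurePreserving (g y) (volume : Measure (X n)) volume := fun y =>
    measurePreserving_add_right (volume : Measure (X n)) y
  have h2 : Tendsto (fun y : X n => Lp.compMeasurePreserving (g y) (hgm y) (hf.toLp f)) (𝓝 0)
      (𝓝 (Lp.compMeasurePreserving (g 0) (hgm 0) (hf.toLp f))) :=
    Filter.Tendsto.compMeasurePreservingLp tendsto_const_nhds (g.continuous.tendsto 0) hgm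
      (hgm 0) ENNReal.ofReal_ne_top
  have h3 : Lp.compMeasurePreserving (g 0) (hgm 0) (hf.toLp f) = hf.toLp f := by
    apply Lp.ext
    refine (Lp.coeFn_compMeasurePreserving _ _).trans ?_
    filter_upwards with z
    have : (g 0) z = z := by
      change z + 0 = z
      simp
    simp [this]
  rw [h3] at h2
  have h4 : Tendsto (fun y : X n =>
      ‖Lp.compMeasurePreserving (g y) (hgm y) (hf.toLp f) - hf.toLp f‖ ^ q) (𝓝 0) (𝓝 0) := by
    have h5 := (tendsto_iff_norm_sub_tendsto_zero.1 h2).rpow_const (Or.inr h0.le) (p := q)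
    rwa [Real.zero_rpow h0.ne'] at h5
  refine h4.congr ?_
  intro y
  have h6 : MemLp (fun z => f (z + y)) (ENNReal.ofReal q) volume :=
    hf.comp_measurePreserving (hgm y)
  have h7 : Lp.compMeasurePreserving (g y) (hgm y) (hf.toLp f) - hf.toLp f =
      (h6.sub hf).toLp _ := by
    apply Lp.ext
    filter_upwards [Lp.coeFn_sub (Lp.compMeasurePreserving (g y) (hgm y) (hf.toLp f)) (hf.toLp f),
      Lp.coeFn_compMeasurePreserving (hf.toLp f) (hgm y), hf.coeFn_toLp,
      (hgm y).quasiMeasurePreserving.ae hf.coeFn_toLp, (h6.sub hf).coeFn_toLp] with z a1 a2 a3 a4 a5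
    rw [a1, a5, Pi.sub_apply, Pi.sub_apply, a2, a3, Function.comp_apply, a4]
    rfl
  rw [h7, Lp.norm_toLp]
  have h8 := (h6.sub hf).eLpNorm_eq_integral_rpow_norm h1 ENNReal.ofReal_ne_top
  rw [h8, ENNReal.toReal_ofReal h0.le, ENNReal.toReal_ofReal (by positivity),
    ← Real.rpow_mul (integral_nonneg fun z => by positivity), inv_mul_cancel₀ h0.ne',
    Real.rpow_one]
  rfl

theorem av_memLp {q : ℝ} (hq : 1 ≤ q) {f : X n → F} (hf : MemLp f (ENNReal.ofReal q) volume)
    {s : ℝ} (hs : s ≠ 0) : MemLp (av s f) (ENNReal.ofReal q) volume ∧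
      ∫ z, ‖av s f z‖ ^ q ≤ ∫ z, ‖f z‖ ^ q := by
  have hm := AVG1_meas hf.1 (volume.restrict (Set.uIoc 0 s))
  have h1 := AVG1_key hq hs hm
  have h2 : ∫⁻ z, ‖av s f z‖ₑ ^ q ≤ ∫⁻ z, ‖f z‖ₑ ^ q := by
    refine h1.trans (le_of_eq ?_)
    simp only [AVG1_shift_lintegral]
    exact AVG1_avg_const hs _
  have h3 : ∫⁻ z, ‖f z‖ₑ ^ q < ⊤ := (AVG1_memLp_iff hq hf.1).1 hf
  have h4 : AEStronglyMeasurable (av s f) volume := by
    unfold av
    apply AEStronglyMeasurable.const_smul
    simp only [intervalIntegral.intervalIntegral_eq_integral_uIoc]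
    apply AEStronglyMeasurable.const_smul
    exact AEStronglyMeasurable.integral_prod_right' (f := fun p : X n × ℝ => f (p.1.1, p.1.2 + p.2))
      hm.prod_swap
  refine ⟨(AVG1_memLp_iff hq h4).2 (h2.trans_lt h3), ?_⟩
  rw [AVG1_toReal hq h4, AVG1_toReal hq hf.1]
  exact ENNReal.toReal_mono h3.ne h2

theorem av_tendsto {q : ℝ} (hq : 1 ≤ q) {f : X n → F} (hf : MemLp f (ENNReal.ofReal q) volume) :
    Tendsto (fun s => ∫ z, ‖av s f z - f z‖ ^ q) (𝓝[≠] (0 : ℝ)) (𝓝 0) := by
  have h0 : (0 : ℝ) < q := by linarith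
  have hfin : ∫⁻ z, ‖f z‖ₑ ^ q < ⊤ := (AVG1_memLp_iff hq hf.1).1 hf
  rw [Metric.tendsto_nhdsWithin_nhds]
  intro ε hε
  obtain ⟨δ, hδ, h1⟩ := Metric.tendsto_nhds_nhds.1 (shift_tendsto hq hf) (ε / 2) (by positivity)
  refine ⟨δ, hδ, fun s hs hsd => ?_⟩
  have hs : s ≠ 0 := hs
  have hsd : |s| < δ := by rwa [Real.dist_eq, sub_zero] at hsd
  have hm := AVG1_meas hf.1 (volume.restrict (Set.uIoc 0 s))
  -- almost everywhere the slice is integrable
  have hint : ∀ᵐ z : X n, IntervalIntegrable (fun r => f (z.1, z.2 + r)) volume 0 s := by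
    have h2 : ∫⁻ z : X n, ∫⁻ r in Set.uIoc 0 s, ‖f (z.1, z.2 + r)‖ₑ ^ q < ⊤ := by
      rw [lintegral_lintegral_swap (hm.prod_swap.enorm.pow_const q)]
      simp only [AVG1_shift_lintegral]
      rw [setLIntegral_const, Real.volume_uIoc]
      exact ENNReal.mul_lt_top hfin ENNReal.ofReal_lt_top
    have h3 : AEMeasurable (fun z : X n => ∫⁻ r in Set.uIoc 0 s, ‖f (z.1, z.2 + r)‖ₑ ^ q)
        volume := (hm.prod_swap.enorm.pow_const q).lintegral_prod_right'
    filter_upwards [ae_lt_top' h3 h2.ne, hm.prod_swap.prodMk_left] with z hz hz2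
    rw [intervalIntegrable_iff]
    have h4 : MemLp (fun r => f (z.1, z.2 + r)) (ENNReal.ofReal q)
        (volume.restrict (Set.uIoc 0 s)) := (AVG1_memLp_iff hq hz2).2 hz
    have : IsFiniteMeasure (volume.restrict (Set.uIoc 0 s)) := by
      constructor
      rw [Measure.restrict_apply_univ, Real.volume_uIoc]
      exact ENNReal.ofReal_lt_top
    exact h4.integrable (by rw [← ENNReal.ofReal_one]; exact ENNReal.ofReal_le_ofReal hq)
  have hm2 : AEStronglyMeasurable (Function.uncurry fun (r : ℝ) (z : X n) =>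
      f (z.1, z.2 + r) - f z)
      ((volume.restrict (Set.uIoc 0 s)).prod (volume : Measure (X n))) :=
    hm.sub (hf.1.comp_quasiMeasurePreserving Measure.quasiMeasurePreserving_snd)
  have h5 := AVG1_key hq hs hm2
  have h6 : ∫⁻ z, ‖av s f z - f z‖ₑ ^ q ≤ ENNReal.ofReal (ε / 2) := by
    calc ∫⁻ z, ‖av s f z - f z‖ₑ ^ q
        = ∫⁻ z, ‖s⁻¹ • ∫ r in (0 : ℝ)..s, (f (z.1, z.2 + r) - f z)‖ₑ ^ q := by
          apply lintegral_congr_ae
          filter_upwards [hint] with z hz
          have h7 : s⁻¹ • ∫ r in (0 : ℝ)..s, (f (z.1, z.2 + r) - f z) = av s f z - f z := by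
            rw [intervalIntegral.integral_sub hz (by simp), intervalIntegral.integral_const,
              smul_sub, smul_smul, sub_zero, inv_mul_cancel₀ hs, one_smul]
            rfl
          simp only [h7]
      _ ≤ ‖s⁻¹‖ₑ * ∫⁻ r in Set.uIoc 0 s, ∫⁻ z : X n, ‖f (z.1, z.2 + r) - f z‖ₑ ^ q := h5
      _ ≤ ‖s⁻¹‖ₑ * ∫⁻ _ in Set.uIoc 0 s, ENNReal.ofReal (ε / 2) := by
          apply mul_le_mul_right
          apply setLIntegral_mono' measurableSet_uIoc
          intro r hr
          have h8 : |r| ≤ |s| := by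
            rcases Set.mem_uIoc.1 hr with ⟨a, b⟩ | ⟨a, b⟩
            · rw [abs_of_pos a, abs_of_pos (a.trans_le b)]; exact b
            · rw [abs_of_nonpos b, abs_of_neg (a.trans_le b)]; linarith
          have h9 : dist ((0 : E n), r) 0 < δ := by
            rw [dist_zero_right, Prod.norm_mk, norm_zero, Real.norm_eq_abs]
            rw [max_eq_right (abs_nonneg r)]
            exact h8.trans_lt hsd
          have h10 := h1 h9
          have h11 : AEStronglyMeasurable (fun z : X n => f (z.1, z.2 + r) - f z) volume := by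
            have := (measurePreserving_add_right (volume : Measure (X n))
              ((0 : E n), r)).quasiMeasurePreserving
            have h12 := hf.1.comp_quasiMeasurePreserving this
            refine AEStronglyMeasurable.sub ?_ hf.1
            refine h12.congr ?_
            filter_upwards with z
            simp only [Function.comp_apply]
            congr 1
            ext1
            · simp
            · simp
          have h13 : ∫ z : X n, ‖f (z.1, z.2 + r) - f z‖ ^ q =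
              ∫ z : X n, ‖f (z + ((0 : E n), r)) - f z‖ ^ q := by
            congr 1
            funext z
            have h3 : z + ((0 : E n), r) = (z.1, z.2 + r) := by
              ext1
              · simp
              · simp
            rw [h3]
          rw [dist_zero_right, Real.norm_eq_abs, abs_of_nonneg
            (integral_nonneg fun z => by positivity), ← h13, AVG1_toReal hq h11] at h10
          have h14 : ∫⁻ z : X n, ‖f (z.1, z.2 + r) - f z‖ₑ ^ q ≠ ⊤ := by
            have h15 : MemLp (fun z : X n => f (z.1, z.2 + r) - f z) (ENNReal.ofReal q) volume := by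
              refine MemLp.sub ?_ hf
              have h16 := hf.comp_measurePreserving
                (measurePreserving_add_right (volume : Measure (X n)) ((0 : E n), r))
              refine h16.ae_eq ?_
              filter_upwards with z
              simp only [Function.comp_apply]
              congr 1
              ext1
              · simp
              · simp
            exact ((AVG1_memLp_iff hq h11).1 h15).ne
          rw [ENNReal.le_ofReal_iff_toReal_le h14 (by positivity)]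
          exact h10.le
      _ = ENNReal.ofReal (ε / 2) := AVG1_avg_const hs _
  have h17 : AEStronglyMeasurable (fun z => av s f z - f z) volume :=
    (av_memLp hq hf hs).1.1.sub hf.1
  rw [dist_zero_right, Real.norm_eq_abs, abs_of_nonneg (integral_nonneg fun z => by positivity),
    AVG1_toReal hq h17]
  calc (∫⁻ z, ‖av s f z - f z‖ₑ ^ q).toReal ≤ (ENNReal.ofReal (ε / 2)).toReal :=
        ENNReal.toReal_mono ENNReal.ofReal_ne_top h6
    _ = ε / 2 := ENNReal.toReal_ofReal (by positivity)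
    _ < ε := by linarith

end PP
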