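import Pool.Agent.PP.Defs

open Set Metric Filter Topology MeasureTheory
open scoped ContDiff Manifold

noncomputable section

namespace PP

variable {n : ℕ}

theorem dx_eq {φ : X n → ℝ} (hφ : ContDiff ℝ ∞ φ) (z : X n) (v : E n) :
    inner ℝ (dx φ z) v = fderiv ℝ φ z (v, 0) := by
  unfold dx gradient
  rw [InnerProductSpace.toDual_symm_apply]
  have h1 : HasFDerivAt φ (fderiv ℝ φ z) (z.1, z.2) :=
    (hφ.differentiable (by simp)).differentiableAt.hasFDerivAt
  have h0 : HasFDerivAt (fun x : E n => (x, z.2)) (ContinuousLinearMap.inl ℝ (E n) ℝ) z.1 :=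
    hasFDerivAt_prodMk_left z.1 z.2
  have h2 : HasFDerivAt (fun x => φ (x, z.2)) ((fderiv ℝ φ z).comp
      (ContinuousLinearMap.inl ℝ (E n) ℝ)) z.1 :=
    HasFDerivAt.comp (g := φ) (f := fun x : E n => (x, z.2)) z.1 h1 h0
  have h3 : fderiv ℝ (fun x => φ (x, z.2)) z.1 = (fderiv ℝ φ z).comp
      (ContinuousLinearMap.inl ℝ (E n) ℝ) := h2.fderiv
  rw [h3]
  simp

theorem dt_eq {φ : X n → ℝ} (hφ : ContDiff ℝ ∞ φ) (z : X n) :
    dt φ z = fderiv ℝ φ z (0, 1) := by
  unfold dt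
  have h1 : HasFDerivAt φ (fderiv ℝ φ z) (z.1, z.2) :=
    (hφ.differentiable (by simp)).differentiableAt.hasFDerivAt
  have h0 : HasFDerivAt (fun t : ℝ => (z.1, t)) (ContinuousLinearMap.inr ℝ (E n) ℝ) z.2 :=
    hasFDerivAt_prodMk_right z.1 z.2
  have h2 : HasFDerivAt (fun t => φ (z.1, t)) ((fderiv ℝ φ z).comp
      (ContinuousLinearMap.inr ℝ (E n) ℝ)) z.2 :=
    HasFDerivAt.comp (g := φ) (f := fun t : ℝ => (z.1, t)) z.2 h1 h0
  have h3 := h2.hasDerivAt.deriv
  rw [h3]
  simp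

theorem contDiff_dt {φ : X n → ℝ} (hφ : ContDiff ℝ ∞ φ) : ContDiff ℝ ∞ (dt φ) := by
  have h : dt φ = fun z => fderiv ℝ φ z (0, 1) := funext fun z => dt_eq hφ z
  rw [h]
  exact (hφ.fderiv_right (m := ∞) (by simp)).clm_apply contDiff_const

theorem contDiff_dx {φ : X n → ℝ} (hφ : ContDiff ℝ ∞ φ) : ContDiff ℝ ∞ (dx φ) := by
  have h : dx φ = fun z => (InnerProductSpace.toDual ℝ (E n)).symm ((fderiv ℝ φ z).comp
      (ContinuousLinearMap.inl ℝ (E n) ℝ)) := by
    funext z
    refine ext_inner_right ℝ fun v => ?_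
    rw [dx_eq hφ, InnerProductSpace.toDual_symm_apply]
    simp
  rw [h]
  exact (InnerProductSpace.toDual ℝ (E n)).symm.contDiff.comp
    ((hφ.fderiv_right (m := ∞) (by simp)).clm_comp contDiff_const)

theorem dt_zero_of_notMem {φ : X n → ℝ} (z : X n) (hz : z ∉ tsupport φ) : dt φ z = 0 := by
  have h1 : φ =ᶠ[𝓝 z] 0 := notMem_tsupport_iff_eventuallyEq.mp hz
  have h2 : Tendsto (fun t : ℝ => (z.1, t)) (𝓝 z.2) (𝓝 z) := by
    have : Continuous (fun t : ℝ => (z.1, t)) := by fun_prop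
    exact this.tendsto z.2
  have h3 : (fun t => φ (z.1, t)) =ᶠ[𝓝 z.2] fun _ => 0 := h2.eventually h1
  unfold dt
  rw [h3.deriv_eq]
  simp

theorem dx_zero_of_notMem {φ : X n → ℝ} (z : X n) (hz : z ∉ tsupport φ) : dx φ z = 0 := by
  have h1 : φ =ᶠ[𝓝 z] 0 := notMem_tsupport_iff_eventuallyEq.mp hz
  have h2 : Tendsto (fun x : E n => (x, z.2)) (𝓝 z.1) (𝓝 z) := by
    have : Continuous (fun x : E n => (x, z.2)) := by fun_prop
    exact this.tendsto z.1
  have h3 : (fun x => φ (x, z.2)) =ᶠ[𝓝 z.1] fun _ => 0 := h2.eventually h1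
  unfold dx gradient
  rw [h3.fderiv_eq]
  simp

/-- Lebesgue measure on space time is a Haar measure. -/
theorem der_haar : (volume : Measure (X n)).IsAddHaarMeasure := by
  have : (volume : Measure (X n)) = (volume : Measure (E n)).prod (volume : Measure ℝ) := rfl
  rw [this]
  infer_instance

theorem der_vec {ι : Type*} [MeasurableSpace ι] {μ : Measure ι} {F G : ι → E n}
    (hF : Integrable F μ) (hG : Integrable G μ)
    (h : ∀ v : E n, ∫ z, inner ℝ (F z) v ∂μ = - ∫ z, inner ℝ (G z) v ∂μ) :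
    ∫ z, F z ∂μ = - ∫ z, G z ∂μ := by
  refine ext_inner_left ℝ fun v => ?_
  rw [inner_neg_right, ← integral_inner hF v, ← integral_inner hG v]
  have h1 := h v
  simp only [real_inner_comm] at h1
  rw [h1]

theorem der_tst_int {Ω : Set (X n)} {φ : X n → ℝ} (hφ : Tst Ω φ) :
    Continuous (dx φ) ∧ HasCompactSupport (dx φ) ∧ Continuous (dt φ) ∧ HasCompactSupport (dt φ) := by
  refine ⟨(contDiff_dx hφ.smooth).continuous, ?_, (contDiff_dt hφ.smooth).continuous, ?_⟩
  · exact HasCompactSupport.intro hφ.cpt fun z hz => dx_zero_of_notMem z hz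
  · exact HasCompactSupport.intro hφ.cpt fun z hz => dt_zero_of_notMem z hz

/-- integration by parts against a smooth function -/
theorem tst_W1 {p : ℝ} (hp : 1 < p) {Ω : Set (X n)} {φ : X n → ℝ} (hφ : Tst Ω φ) :
    W1 p (tsupport φ) φ (dt φ) (dx φ) := by
  obtain ⟨c1, s1, c2, s2⟩ := der_tst_int hφ
  have cφ := hφ.smooth.continuous
  have key : ∀ ψ : X n → ℝ, Tst univ ψ → ∀ v : X n,
      ∫ z, φ z * fderiv ℝ ψ z v = - ∫ z, fderiv ℝ φ z v * ψ z := by
    intro ψ hψ v
    have cψ := hψ.smooth.continuous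
    have dφ : Differentiable ℝ φ := hφ.smooth.differentiable (by simp)
    have dψ : Differentiable ℝ ψ := hψ.smooth.differentiable (by simp)
    have cfφ : Continuous (fun z => fderiv ℝ φ z v) :=
      ((hφ.smooth.continuous_fderiv (by simp)).clm_apply continuous_const)
    have cfψ : Continuous (fun z => fderiv ℝ ψ z v) :=
      ((hψ.smooth.continuous_fderiv (by simp)).clm_apply continuous_const)
    have := der_haar (n := n)
    refine integral_mul_fderiv_eq_neg_fderiv_mul_of_integrable ?_ ?_ ?_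
      (fun x _ => dφ x) (fun x _ => dψ x)
    · exact (cfφ.mul cψ).integrable_of_hasCompactSupport hψ.cpt.mul_left
    · exact (cφ.mul cfψ).integrable_of_hasCompactSupport hφ.cpt.mul_right
    · exact (cφ.mul cψ).integrable_of_hasCompactSupport hψ.cpt.mul_left
  refine ⟨⟨cφ.aestronglyMeasurable, ?_, ?_, c1.memLp_of_hasCompactSupport s1, ?_⟩,
    c2.memLp_of_hasCompactSupport s2, ?_⟩
  · obtain ⟨M, hM⟩ := hφ.cpt.exists_bound_of_continuous cφ
    exact ⟨M, Eventually.of_forall fun z => by simpa using hM z⟩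
  · exact Eventually.of_forall fun z hz => image_eq_zero_of_notMem_tsupport hz
  · intro ψ hψ
    obtain ⟨d1, t1, d2, t2⟩ := der_tst_int hψ
    refine der_vec ?_ ?_ fun v => ?_
    · exact (cφ.smul d1).integrable_of_hasCompactSupport hφ.cpt.smul_right
    · exact (hψ.smooth.continuous.smul c1).integrable_of_hasCompactSupport hψ.cpt.smul_right
    · have h1 := key ψ hψ (v, 0)
      simp only [real_inner_smul_left]
      simp only [dx_eq hψ.smooth, dx_eq hφ.smooth]
      rw [h1]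
      congr 1
      refine integral_congr_ae (Eventually.of_forall fun z => ?_)
      simp only
      ring
  · intro ψ hψ
    have h1 := key ψ hψ (0, 1)
    simp only [dt_eq hψ.smooth, dt_eq hφ.smooth]
    rw [h1]
    congr 1
    refine integral_congr_ae (Eventually.of_forall fun z => ?_)
    simp only
    ring

/-- cut off functions -/
theorem exists_cutoff {K U : Set (X n)} (hK : IsCompact K) (hU : IsOpen U) (hKU : K ⊆ U) :
    ∃ χ : X n → ℝ, Tst U χ ∧ (∀ z, 0 ≤ χ z ∧ χ z ≤ 1) ∧ ∀ᶠ z in 𝓝ˢ K, χ z = 1 := by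
  obtain ⟨L, hL, hKL, hLU⟩ := exists_compact_between hK hU hKU
  obtain ⟨f, h1, h2, h3⟩ := exists_contMDiffMap_one_nhds_of_subset_interior
    (n := ⊤) 𝓘(ℝ, X n) hK.isClosed hKL
  have hsupp : tsupport (f : X n → ℝ) ⊆ L := by
    apply closure_minimal _ hL.isClosed
    intro z hz
    by_contra hzL
    exact hz (h2 z hzL)
  refine ⟨f, ⟨f.contMDiff.contDiff, ?_, hsupp.trans hLU⟩, fun z => h3 z, h1⟩
  exact HasCompactSupport.intro hL fun z hz => h2 z hz

end PP
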