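import Pool.Agent.PP.AVG1
import Pool.Agent.PP.DER

open Set Metric Filter Topology MeasureTheory
open scoped ContDiff

set_option linter.unusedSectionVars false

noncomputable section

namespace PP

variable {n : ℕ}
variable {F : Type*} [NormedAddCommGroup F] [NormedSpace ℝ F] [CompleteSpace F]

attribute [local instance] AVG1_haar

/-! ### General averages in time -/

/-- average in time with respect to a measure -/
def AVG2_g {F : Type*} [NormedAddCommGroup F] [NormedSpace ℝ F] (ν : Measure ℝ) (c : ℝ)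
    (f : X n → F) (z : X n) : F := ∫ r, f (z.1, z.2 + c * r) ∂ν

theorem AVG2_mp (c : ℝ) (r : ℝ) :
    MeasurePreserving (fun z : X n => (z.1, z.2 + c * r)) volume volume := by
  have h2 := measurePreserving_add_right (volume : Measure (X n)) ((0 : E n), c * r)
  have h3 : (fun x : X n => x + ((0 : E n), c * r)) = fun z : X n => (z.1, z.2 + c * r) := by
    funext z
    ext1
    · simp
    · simp
  rw [h3] at h2
  exact h2

theorem AVG2_qmp (ν : Measure ℝ) [SFinite ν] (c : ℝ) :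
    Measure.QuasiMeasurePreserving (fun p : ℝ × X n => (p.2.1, p.2.2 + c * p.1))
      (ν.prod (volume : Measure (X n))) volume := by
  have h1 : MeasurePreserving (fun p : ℝ × X n => (p.1, (p.2.1, p.2.2 + c * p.1)))
      (ν.prod (volume : Measure (X n))) (ν.prod (volume : Measure (X n))) := by
    refine (MeasurePreserving.id ν).skew_product
      (g := fun (r : ℝ) (z : X n) => (z.1, z.2 + c * r)) ?_ ?_
    · exact (Continuous.measurable (by fun_prop))
    · filter_upwards with r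
      exact (AVG2_mp c r).map_eq
  have h4 := Measure.quasiMeasurePreserving_snd (μ := ν) (ν := (volume : Measure (X n)))
  exact h4.comp h1.quasiMeasurePreserving

/-- joint measurability of the time shifts -/
theorem AVG2_meas {f : X n → F} (hf : AEStronglyMeasurable f volume) (ν : Measure ℝ)
    [SFinite ν] (c : ℝ) :
    AEStronglyMeasurable (Function.uncurry fun (r : ℝ) (z : X n) => f (z.1, z.2 + c * r))
      (ν.prod (volume : Measure (X n))) :=
  hf.comp_quasiMeasurePreserving (AVG2_qmp ν c)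

theorem AVG2_shift {q : ℝ} (f : X n → F) (c r : ℝ) :
    ∫⁻ z : X n, ‖f (z.1, z.2 + c * r)‖ₑ ^ q = ∫⁻ z, ‖f z‖ₑ ^ q :=
  AVG1_shift_lintegral f (c * r)

theorem AVG2_trans (h : X n → F) (t : ℝ) : ∫ z : X n, h (z.1, z.2 + t) = ∫ z, h z := by
  have := integral_add_right_eq_self (μ := (volume : Measure (X n))) h ((0 : E n), t)
  rw [← this]
  congr 1
  funext z
  have h3 : z + ((0 : E n), t) = (z.1, z.2 + t) := by
    ext1
    · simp
    · simp
  rw [h3]

theorem AVG2_key {q : ℝ} (hq : 1 ≤ q) (ν : Measure ℝ) [IsProbabilityMeasure ν]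
    {h : ℝ → X n → F}
    (hm : AEStronglyMeasurable (Function.uncurry h) (ν.prod (volume : Measure (X n)))) :
    ∫⁻ z, ‖∫ r, h r z ∂ν‖ₑ ^ q ≤ ∫⁻ r, (∫⁻ z, ‖h r z‖ₑ ^ q) ∂ν := by
  have h0 : (0 : ℝ) < q := by linarith
  have hsw : AEStronglyMeasurable (fun p : X n × ℝ => h p.2 p.1)
      ((volume : Measure (X n)).prod ν) := hm.prod_swap
  have h1 : ∀ᵐ z : X n, ‖∫ r, h r z ∂ν‖ₑ ^ q ≤ ∫⁻ r, ‖h r z‖ₑ ^ q ∂ν := by
    filter_upwards [hsw.prodMk_left] with z hz
    calc ‖∫ r, h r z ∂ν‖ₑ ^ q ≤ (∫⁻ r, ‖h r z‖ₑ ∂ν) ^ q :=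
          ENNReal.rpow_le_rpow (enorm_integral_le_lintegral_enorm _) h0.le
      _ ≤ ∫⁻ r, ‖h r z‖ₑ ^ q ∂ν := AVG1_jensen hq hz
  calc ∫⁻ z, ‖∫ r, h r z ∂ν‖ₑ ^ q
      ≤ ∫⁻ z, ∫⁻ r, ‖h r z‖ₑ ^ q ∂ν := lintegral_mono_ae h1
    _ = ∫⁻ r, (∫⁻ z, ‖h r z‖ₑ ^ q) ∂ν := lintegral_lintegral_swap (hsw.enorm.pow_const q)

theorem AVG2_gmeas {f : X n → F} (hf : AEStronglyMeasurable f volume) (ν : Measure ℝ)
    [SFinite ν] (c : ℝ) : AEStronglyMeasurable (AVG2_g ν c f) volume :=
  AEStronglyMeasurable.integral_prod_right'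
    (f := fun p : X n × ℝ => f (p.1.1, p.1.2 + c * p.2)) (AVG2_meas hf ν c).prod_swap

theorem AVG2_bound {q : ℝ} (hq : 1 ≤ q) {f : X n → F} (hf : MemLp f (ENNReal.ofReal q) volume)
    (ν : Measure ℝ) [IsProbabilityMeasure ν] (c : ℝ) :
    MemLp (AVG2_g ν c f) (ENNReal.ofReal q) volume ∧
      ∫ z, ‖AVG2_g ν c f z‖ ^ q ≤ ∫ z, ‖f z‖ ^ q := by
  have h1 := AVG2_key hq ν (AVG2_meas hf.1 ν c)
  have h2 : ∫⁻ z, ‖AVG2_g ν c f z‖ₑ ^ q ≤ ∫⁻ z, ‖f z‖ₑ ^ q := by
    refine h1.trans (le_of_eq ?_)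
    simp only [AVG2_shift]
    rw [lintegral_const, measure_univ, mul_one]
  have h3 : ∫⁻ z, ‖f z‖ₑ ^ q < ⊤ := (AVG1_memLp_iff hq hf.1).1 hf
  have h4 := AVG2_gmeas hf.1 ν c
  refine ⟨(AVG1_memLp_iff hq h4).2 (h2.trans_lt h3), ?_⟩
  rw [AVG1_toReal hq h4, AVG1_toReal hq hf.1]
  exact ENNReal.toReal_mono h3.ne h2

theorem AVG2_slice {q : ℝ} (hq : 1 ≤ q) {f : X n → F} (hf : MemLp f (ENNReal.ofReal q) volume)
    (ν : Measure ℝ) [IsProbabilityMeasure ν] (c : ℝ) :
    ∀ᵐ z : X n, Integrable (fun r => f (z.1, z.2 + c * r)) ν := by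
  have hfin : ∫⁻ z, ‖f z‖ₑ ^ q < ⊤ := (AVG1_memLp_iff hq hf.1).1 hf
  have hm := (AVG2_meas hf.1 ν c).prod_swap
  have h2 : ∫⁻ z : X n, ∫⁻ r, ‖f (z.1, z.2 + c * r)‖ₑ ^ q ∂ν < ⊤ := by
    have h5 : AEMeasurable (Function.uncurry fun (z : X n) (r : ℝ) =>
        ‖f (z.1, z.2 + c * r)‖ₑ ^ q) ((volume : Measure (X n)).prod ν) :=
      hm.enorm.pow_const q
    rw [lintegral_lintegral_swap h5]
    simp only [AVG2_shift]
    rw [lintegral_const, measure_univ, mul_one]
    exact hfin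
  have h3 : AEMeasurable (fun z : X n => ∫⁻ r, ‖f (z.1, z.2 + c * r)‖ₑ ^ q ∂ν)
      volume := (hm.enorm.pow_const q).lintegral_prod_right'
  filter_upwards [ae_lt_top' h3 h2.ne, hm.prodMk_left] with z hz hz2
  have h4 : MemLp (fun r => f (z.1, z.2 + c * r)) (ENNReal.ofReal q) ν :=
    (AVG1_memLp_iff hq hz2).2 hz
  exact h4.integrable (by rw [← ENNReal.ofReal_one]; exact ENNReal.ofReal_le_ofReal hq)

theorem AVG2_conv {q : ℝ} (hq : 1 ≤ q) {f : X n → F} (hf : MemLp f (ENNReal.ofReal q) volume)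
    (ν : Measure ℝ) [IsProbabilityMeasure ν] :
    Tendsto (fun c => ∫ z, ‖AVG2_g ν c f z - f z‖ ^ q) (𝓝 (0 : ℝ)) (𝓝 0) := by
  have h0 : (0 : ℝ) < q := by linarith
  have hfin : ∫⁻ z, ‖f z‖ₑ ^ q < ⊤ := (AVG1_memLp_iff hq hf.1).1 hf
  have hmeas : ∀ c, AEStronglyMeasurable (Function.uncurry fun (r : ℝ) (z : X n) =>
      f (z.1, z.2 + c * r) - f z) (ν.prod (volume : Measure (X n))) := fun c =>
    (AVG2_meas hf.1 ν c).sub (hf.1.comp_quasiMeasurePreserving
      Measure.quasiMeasurePreserving_snd)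
  have hshm : ∀ c r, MemLp (fun z : X n => f (z.1, z.2 + c * r)) (ENNReal.ofReal q) volume :=
    fun c r => hf.comp_measurePreserving (AVG2_mp c r)
  set S : ℝ → ℝ := fun t => ∫ z : X n, ‖f (z.1, z.2 + t) - f z‖ ^ q with hS
  have hS0 : ∀ c r, S (c * r) = (∫⁻ z : X n, ‖f (z.1, z.2 + c * r) - f z‖ₑ ^ q).toReal :=
    fun c r => AVG1_toReal hq ((hshm c r).sub hf).1
  set B : ENNReal := 2 ^ (q - 1) * (2 * ∫⁻ z, ‖f z‖ₑ ^ q) with hB
  have hBt : B < ⊤ := by
    apply ENNReal.mul_lt_top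
    · exact ENNReal.rpow_lt_top_of_nonneg (by linarith) (by norm_num)
    · exact ENNReal.mul_lt_top (by norm_num) hfin
  have hSB : ∀ c r, ∫⁻ z : X n, ‖f (z.1, z.2 + c * r) - f z‖ₑ ^ q ≤ B := by
    intro c r
    calc ∫⁻ z : X n, ‖f (z.1, z.2 + c * r) - f z‖ₑ ^ q
        ≤ ∫⁻ z : X n, 2 ^ (q - 1) * (‖f (z.1, z.2 + c * r)‖ₑ ^ q + ‖f z‖ₑ ^ q) := by
          apply lintegral_mono
          intro z
          exact (ENNReal.rpow_le_rpow enorm_sub_le h0.le).trans
            (ENNReal.rpow_add_le_mul_rpow_add_rpow _ _ hq)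
      _ = 2 ^ (q - 1) * ∫⁻ z : X n, (‖f (z.1, z.2 + c * r)‖ₑ ^ q + ‖f z‖ₑ ^ q) :=
          lintegral_const_mul' _ _
            (ENNReal.rpow_lt_top_of_nonneg (by linarith) (by norm_num)).ne
      _ = B := by
          rw [hB, lintegral_add_left' ((hshm c r).1.enorm.pow_const q), AVG2_shift, two_mul]
  have hSt : Tendsto S (𝓝 0) (𝓝 0) := by
    have h1 := shift_tendsto hq hf
    have h2 : Tendsto (fun t : ℝ => ((0 : E n), t)) (𝓝 0) (𝓝 0) := by
      have : Continuous fun t : ℝ => ((0 : E n), t) := by fun_prop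
      exact this.tendsto 0
    refine (h1.comp h2).congr fun t => ?_
    simp only [Function.comp_apply, hS]
    congr 1
    funext z
    have h3 : z + ((0 : E n), t) = (z.1, z.2 + t) := by
      ext1
      · simp
      · simp
    rw [h3]
  have hle : ∀ c, ∫ z, ‖AVG2_g ν c f z - f z‖ ^ q ≤ ∫ r, S (c * r) ∂ν := by
    intro c
    have h1 := AVG2_key hq ν (hmeas c)
    have h2 : ∫⁻ z, ‖AVG2_g ν c f z - f z‖ₑ ^ q ≤
        ∫⁻ r, (∫⁻ z : X n, ‖f (z.1, z.2 + c * r) - f z‖ₑ ^ q) ∂ν := by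
      refine le_trans (le_of_eq ?_) h1
      apply lintegral_congr_ae
      filter_upwards [AVG2_slice hq hf ν c] with z hz
      have h7 : ∫ r, (f (z.1, z.2 + c * r) - f z) ∂ν = AVG2_g ν c f z - f z := by
        rw [integral_sub hz (integrable_const _), integral_const]
        simp [AVG2_g]
      simp only [h7]
    have h17 : AEStronglyMeasurable (fun z => AVG2_g ν c f z - f z) volume :=
      (AVG2_gmeas hf.1 ν c).sub hf.1
    have h18 : ∫⁻ r, (∫⁻ z : X n, ‖f (z.1, z.2 + c * r) - f z‖ₑ ^ q) ∂ν ≤ B := by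
      calc ∫⁻ r, (∫⁻ z : X n, ‖f (z.1, z.2 + c * r) - f z‖ₑ ^ q) ∂ν ≤ ∫⁻ _, B ∂ν :=
            lintegral_mono fun r => hSB c r
        _ = B := by rw [lintegral_const, measure_univ, mul_one]
    rw [AVG1_toReal hq h17]
    refine (ENNReal.toReal_mono (h18.trans_lt hBt).ne h2).trans (le_of_eq ?_)
    simp only [hS0]
    rw [integral_toReal]
    · exact ((hmeas c).enorm.pow_const q).lintegral_prod_right'
    · filter_upwards with r
      exact (hSB c r).trans_lt hBt
  have hlim : Tendsto (fun c => ∫ r, S (c * r) ∂ν) (𝓝 0) (𝓝 (∫ _, (0 : ℝ) ∂ν)) := by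
    apply tendsto_integral_filter_of_dominated_convergence (fun _ => B.toReal)
    · filter_upwards with c
      have h1 := ((hmeas c).enorm.pow_const q).lintegral_prod_right'
      have h2 : (fun r => S (c * r)) = fun r =>
          (∫⁻ z : X n, ‖f (z.1, z.2 + c * r) - f z‖ₑ ^ q).toReal := by
        funext r
        exact hS0 c r
      rw [h2]
      exact h1.ennreal_toReal.aestronglyMeasurable
    · filter_upwards with c
      filter_upwards with r
      rw [hS0, Real.norm_eq_abs, abs_of_nonneg ENNReal.toReal_nonneg]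
      exact ENNReal.toReal_mono hBt.ne (hSB c r)
    · exact integrable_const _
    · filter_upwards with r
      have h1 : Tendsto (fun c : ℝ => c * r) (𝓝 0) (𝓝 0) := by
        have : Continuous fun c : ℝ => c * r := by fun_prop
        simpa using this.tendsto 0
      exact hSt.comp h1
  rw [integral_zero] at hlim
  exact tendsto_of_tendsto_of_tendsto_of_le_of_le tendsto_const_nhds hlim
    (fun c => integral_nonneg fun z => by positivity) hle

/-! ### Duality -/

variable {G H : Type*} [NormedAddCommGroup G] [NormedSpace ℝ G] [CompleteSpace G]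
  [NormedAddCommGroup H] [NormedSpace ℝ H] [CompleteSpace H]

theorem AVG2_int (ν : Measure ℝ) [IsProbabilityMeasure ν] (c : ℝ) (L : F →L[ℝ] G →L[ℝ] H)
    {f : X n → F} {g : X n → G} {q q' : ENNReal} [ENNReal.HolderTriple q q' 1]
    (hf : MemLp f q volume) (hg : MemLp g q' volume) :
    Integrable (Function.uncurry fun (r : ℝ) (z : X n) => L (f (z.1, z.2 + c * r)) (g z))
      (ν.prod (volume : Measure (X n))) := by
  have hm : AEStronglyMeasurable (Function.uncurry fun (r : ℝ) (z : X n) =>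
      L (f (z.1, z.2 + c * r)) (g z)) (ν.prod (volume : Measure (X n))) :=
    L.aestronglyMeasurable_comp₂ (AVG2_meas hf.1 ν c)
      (hg.1.comp_quasiMeasurePreserving Measure.quasiMeasurePreserving_snd)
  refine ⟨hm, ?_⟩
  rw [hasFiniteIntegral_iff_enorm, lintegral_prod _ hm.enorm]
  have h1 : ∀ r, ∫⁻ z : X n, ‖L (f (z.1, z.2 + c * r)) (g z)‖ₑ ≤
      ‖L‖₊ * eLpNorm f q volume * eLpNorm g q' volume := by
    intro r
    have h2 := eLpNorm_le_eLpNorm_mul_eLpNorm_of_nnnorm (μ := (volume : Measure (X n)))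
      (p := q) (q := q') (r := 1)
      (hf.1.comp_measurePreserving (AVG2_mp c r)) hg.1 (fun a b => L a b) ‖L‖₊
      (Eventually.of_forall fun z => L.le_opNorm₂ _ _)
    rw [eLpNorm_one_eq_lintegral_enorm, eLpNorm_comp_measurePreserving hf.1 (AVG2_mp c r)] at h2
    exact h2
  calc ∫⁻ r, (∫⁻ z : X n, ‖L (f (z.1, z.2 + c * r)) (g z)‖ₑ) ∂ν
      ≤ ∫⁻ _, ‖L‖₊ * eLpNorm f q volume * eLpNorm g q' volume ∂ν := lintegral_mono h1
    _ = ‖L‖₊ * eLpNorm f q volume * eLpNorm g q' volume := by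
        rw [lintegral_const, measure_univ, mul_one]
    _ < ⊤ := ENNReal.mul_lt_top (ENNReal.mul_lt_top ENNReal.coe_lt_top hf.2) hg.2

theorem AVG2_fub (ν : Measure ℝ) [IsProbabilityMeasure ν] (c : ℝ) (L : F →L[ℝ] G →L[ℝ] H)
    {f : X n → F} {g : X n → G} {q q' : ENNReal} [ENNReal.HolderTriple q q' 1]
    (hf : MemLp f q volume) (hg : MemLp g q' volume)
    (hs : ∀ᵐ z : X n, Integrable (fun r => f (z.1, z.2 + c * r)) ν) :
    ∫ z, L (AVG2_g ν c f z) (g z) =
      ∫ r, (∫ z : X n, L (f (z.1, z.2 + c * r)) (g z)) ∂ν := by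
  rw [integral_integral_swap (AVG2_int ν c L hf hg)]
  apply integral_congr_ae
  filter_upwards [hs] with z hz
  exact ((L.flip (g z)).integral_comp_comm hz).symm

theorem AVG2_dual (ν : Measure ℝ) [IsProbabilityMeasure ν] (c : ℝ) (L : F →L[ℝ] G →L[ℝ] H)
    {f : X n → F} {g : X n → G} {q q' : ENNReal} [ENNReal.HolderTriple q q' 1]
    (hf : MemLp f q volume) (hg : MemLp g q' volume)
    (hs : ∀ᵐ z : X n, Integrable (fun r => f (z.1, z.2 + c * r)) ν)
    (hs' : ∀ᵐ z : X n, Integrable (fun r => g (z.1, z.2 + (-c) * r)) ν) :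
    ∫ z, L (AVG2_g ν c f z) (g z) = ∫ z, L (f z) (AVG2_g ν (-c) g z) := by
  have : ENNReal.HolderTriple q' q 1 := ENNReal.HolderTriple.symm
  have h1 := AVG2_fub ν c L hf hg hs
  have h2 := AVG2_fub ν (-c) L.flip hg hf hs'
  have h3 : ∫ z, L.flip (AVG2_g ν (-c) g z) (f z) = ∫ z, L (f z) (AVG2_g ν (-c) g z) := rfl
  rw [h1, ← h3, h2]
  congr 1
  funext r
  rw [← AVG2_trans (fun z : X n => L.flip (g (z.1, z.2 + -c * r)) (f z)) (c * r)]
  congr 1
  funext z
  have h4 : z.2 + c * r + -c * r = z.2 := by ring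
  simp only [h4]
  rfl

/-! ### The exponential average -/

/-- the exponential probability on the half line -/
def AVG2_nu : Measure ℝ :=
  (volume.restrict (Ioi (0 : ℝ))).withDensity (fun s => ENNReal.ofReal (Real.exp (-s)))

theorem AVG2_nu_prob : IsProbabilityMeasure AVG2_nu := by
  constructor
  have h1 : IntegrableOn (fun s : ℝ => Real.exp (-s)) (Ioi 0) := by
    simpa using exp_neg_integrableOn_Ioi (0 : ℝ) one_pos
  rw [AVG2_nu, withDensity_apply _ MeasurableSet.univ, Measure.restrict_univ,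
    ← ofReal_integral_eq_lintegral_ofReal h1
      (Eventually.of_forall fun s => (Real.exp_pos _).le), integral_exp_neg_Ioi_zero,
    ENNReal.ofReal_one]

attribute [local instance] AVG2_nu_prob

theorem AVG2_nu_int (g : ℝ → F) :
    ∫ r, g r ∂AVG2_nu = ∫ s in Ioi (0 : ℝ), Real.exp (-s) • g s := by
  rw [AVG2_nu, integral_withDensity_eq_integral_toReal_smul (by fun_prop)
    (Eventually.of_forall fun s => ENNReal.ofReal_lt_top)]
  congr 1
  funext s
  rw [ENNReal.toReal_ofReal (Real.exp_pos _).le]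

/-- the forward and backward exponential averages -/
theorem AVG2_ex {ε : ℝ} (hε : 0 < ε) (g : ℝ → F) :
    ∫ s in Ioi (0 : ℝ), (ε⁻¹ * Real.exp (-(s / ε))) • g s =
      ∫ r, g (ε * r) ∂AVG2_nu := by
  have h1 := integral_comp_mul_left_Ioi' (fun s => (ε⁻¹ * Real.exp (-(s / ε))) • g s) 0 hε
  rw [mul_zero] at h1
  rw [← h1, AVG2_nu_int, ← integral_smul]
  congr 1
  funext s
  rw [smul_smul, ← mul_assoc, mul_inv_cancel₀ hε.ne', one_mul, mul_div_cancel_left₀ _ hε.ne']

theorem AVG2_ex_eq {ε : ℝ} (hε : 0 < ε) (f : X n → F) : ex ε f = AVG2_g AVG2_nu ε f := by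
  funext z
  exact AVG2_ex hε fun s => f (z.1, z.2 + s)

theorem ex_memLp {q : ℝ} (hq : 1 ≤ q) {f : X n → F} (hf : MemLp f (ENNReal.ofReal q) volume)
    {ε : ℝ} (hε : 0 < ε) : MemLp (ex ε f) (ENNReal.ofReal q) volume ∧
      ∫ z, ‖ex ε f z‖ ^ q ≤ ∫ z, ‖f z‖ ^ q := by
  rw [AVG2_ex_eq hε]
  exact AVG2_bound hq hf AVG2_nu ε

theorem ex_tendsto {q : ℝ} (hq : 1 ≤ q) {f : X n → F}
    (hf : MemLp f (ENNReal.ofReal q) volume) :
    Tendsto (fun ε => ∫ z, ‖ex ε f z - f z‖ ^ q) (𝓝[>] (0 : ℝ)) (𝓝 0) := by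
  have h1 := (AVG2_conv hq hf AVG2_nu).mono_left (nhdsWithin_le_nhds (s := Ioi (0 : ℝ)))
  refine h1.congr' ?_
  filter_upwards [self_mem_nhdsWithin] with ε hε
  rw [AVG2_ex_eq hε]

/-- the kernel of the exponential average -/
def AVG2_w (ε : ℝ) (s : ℝ) : ℝ := (Ioi (0 : ℝ)).indicator (fun s => ε⁻¹ * Real.exp (-(s / ε))) s

theorem AVG2_w_int {ε : ℝ} (hε : 0 < ε) : Integrable (AVG2_w ε) := by
  unfold AVG2_w
  rw [integrable_indicator_iff measurableSet_Ioi]
  apply Integrable.const_mul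
  have := exp_neg_integrableOn_Ioi (0 : ℝ) (inv_pos.2 hε)
  refine this.congr_fun (fun s _ => ?_) measurableSet_Ioi
  simp only
  congr 1
  rw [div_eq_inv_mul]; ring

/-- a smooth compactly supported function is in every `L^q` -/
theorem AVG2_tst_memLp {g : X n → F} (hg : Continuous g) (hc : HasCompactSupport g)
    (q : ENNReal) : MemLp g q volume := hg.memLp_of_hasCompactSupport hc

/-- the real inner product as a continuous bilinear map -/
def AVG2_inner (n : ℕ) : E n →L[ℝ] E n →L[ℝ] ℝ :=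
  (isBoundedBilinearMap_inner (𝕜 := ℝ) (E := E n)).toContinuousLinearMap

theorem AVG2_inner_apply (x y : E n) : AVG2_inner n x y = inner ℝ x y := rfl

theorem AVG2_convF {ε : ℝ} (hε : 0 < ε) (g : ℝ → F) (t : ℝ) :
    ∫ r, g (t + -ε * r) ∂AVG2_nu = ∫ s, AVG2_w ε s • g (t - s) := by
  have h1 := AVG2_ex hε fun s => g (t - s)
  have h2 : (fun r => g (t + -ε * r)) = fun r => g (t - ε * r) := by
    funext r
    congr 1
    ring
  rw [h2, ← h1, ← integral_indicator measurableSet_Ioi]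
  congr 1
  funext s
  unfold AVG2_w
  by_cases hs : s ∈ Ioi (0 : ℝ)
  · rw [indicator_of_mem hs, indicator_of_mem hs]
  · rw [indicator_of_notMem hs, indicator_of_notMem hs, zero_smul]

theorem AVG2_gbound {f : X n → F} {B : ℝ} (hB : ∀ z, ‖f z‖ ≤ B) (ν : Measure ℝ)
    [IsProbabilityMeasure ν] (c : ℝ) (z : X n) : ‖AVG2_g ν c f z‖ ≤ B := by
  have := norm_integral_le_of_norm_le_const (μ := ν) (f := fun r => f (z.1, z.2 + c * r))
      (C := B) (Eventually.of_forall fun y => hB _)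
  rw [measureReal_def, measure_univ, ENNReal.toReal_one, mul_one] at this
  exact this

theorem AVG2_wint {ε : ℝ} (hε : 0 < ε) {g : X n → F} (hg : Continuous g) {B : ℝ}
    (hB : ∀ z, ‖g z‖ ≤ B) (z : X n) : Integrable (fun s => AVG2_w ε s • g (z.1, z.2 - s)) := by
  have h1 : AEStronglyMeasurable (fun s : ℝ => g (z.1, z.2 - s)) volume :=
    (hg.comp (by fun_prop : Continuous fun s : ℝ => (z.1, z.2 - s))).aestronglyMeasurable
  refine ((AVG2_w_int hε).norm.mul_const B).mono ((AVG2_w_int hε).1.smul h1)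
    (Eventually.of_forall fun s => ?_)
  rw [norm_smul, norm_mul, norm_norm]
  apply mul_le_mul_of_nonneg_left _ (norm_nonneg _)
  exact (hB _).trans (le_abs_self B)

/-- differentiation of the backward average -/
theorem AVG2_deriv {ε : ℝ} (hε : 0 < ε) {η : X n → ℝ} (hη : Tst univ η) :
    ContDiff ℝ ∞ (AVG2_g AVG2_nu (-ε) η) ∧
      (∀ z, dx (AVG2_g AVG2_nu (-ε) η) z = AVG2_g AVG2_nu (-ε) (dx η) z) ∧
      (∀ z, dt (AVG2_g AVG2_nu (-ε) η) z = AVG2_g AVG2_nu (-ε) (dt η) z) := by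
  let L : ℝ →L[ℝ] ℝ →L[ℝ] ℝ := ContinuousLinearMap.lsmul ℝ ℝ
  let k : Set ℝ := Prod.snd '' tsupport η
  have hk : IsCompact k := hη.cpt.isCompact.image continuous_snd
  have hgs : ∀ (p : E n) (x : ℝ), p ∈ (univ : Set (E n)) → x ∉ k → (fun t => η (p, t)) x = 0 := by
    intro p x _ hx
    apply image_eq_zero_of_notMem_tsupport
    intro h
    exact hx ⟨(p, x), h, rfl⟩
  have hg : ContDiffOn ℝ ∞ (Function.HasUncurry.uncurry fun (p : E n) (t : ℝ) => η (p, t))
      (univ ×ˢ univ) := hη.smooth.contDiffOn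
  have hf : LocallyIntegrable (AVG2_w ε) volume := (AVG2_w_int hε).locallyIntegrable
  have hconv : AVG2_g AVG2_nu (-ε) η = fun q : E n × ℝ =>
      (convolution (AVG2_w ε) (fun t => η (q.1, t)) L volume) q.2 := by
    funext z
    exact AVG2_convF hε (fun t => η (z.1, t)) z.2
  have hsm : ContDiff ℝ ∞ (AVG2_g AVG2_nu (-ε) η) := by
    rw [hconv, ← contDiffOn_univ, ← univ_prod_univ]
    exact contDiffOn_convolution_right_with_param (n := ⊤) L isOpen_univ hk hgs hf hg
  have hder : ∀ z v, fderiv ℝ (AVG2_g AVG2_nu (-ε) η) z v =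
      ∫ s, AVG2_w ε s • fderiv ℝ η (z.1, z.2 - s) v := by
    intro z v
    have h1 := hasFDerivAt_convolution_right_with_param L isOpen_univ hk hgs hf
      (hg.of_le (by simp)) z (mem_univ _)
    rw [← hconv] at h1
    rw [h1.fderiv]
    have h2 : Continuous (fderiv ℝ η) := hη.smooth.continuous_fderiv (by simp)
    have h3 : HasCompactSupport (fderiv ℝ η) := hη.cpt.fderiv ℝ
    obtain ⟨B, hB⟩ := h3.exists_bound_of_continuous h2
    have h4 : Integrable (fun s => AVG2_w ε s • fderiv ℝ η (z.1, z.2 - s)) :=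
      AVG2_wint hε h2 hB z
    have h5 := ContinuousLinearMap.integral_apply h4 v
    exact h5
  refine ⟨hsm, fun z => ?_, fun z => ?_⟩
  · refine ext_inner_right ℝ fun v => ?_
    rw [dx_eq hsm, hder]
    have h6 : AVG2_g AVG2_nu (-ε) (dx η) z = ∫ s, AVG2_w ε s • dx η (z.1, z.2 - s) :=
      AVG2_convF hε (fun t => dx η (z.1, t)) z.2
    have h7 : Continuous (dx η) := (contDiff_dx hη.smooth).continuous
    have h8 : HasCompactSupport (dx η) := by
      refine hη.cpt.mono' ?_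
      intro w hw
      by_contra h
      exact hw (dx_zero_of_notMem w h)
    obtain ⟨B, hB⟩ := h8.exists_bound_of_continuous h7
    have h4 : Integrable (fun s => AVG2_w ε s • dx η (z.1, z.2 - s)) :=
      AVG2_wint hε h7 hB z
    rw [h6, real_inner_comm, ← integral_inner h4]
    congr 1
    funext s
    rw [inner_smul_right, real_inner_comm, dx_eq hη.smooth, smul_eq_mul]
  · rw [dt_eq hsm, hder]
    have h6 : AVG2_g AVG2_nu (-ε) (dt η) z = ∫ s, AVG2_w ε s • dt η (z.1, z.2 - s) :=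
      AVG2_convF hε (fun t => dt η (z.1, t)) z.2
    rw [h6]
    congr 1
    funext s
    rw [dt_eq hη.smooth]

/-- the ordinary differential equation for the backward average -/
theorem AVG2_ode {ε : ℝ} (hε : 0 < ε) {η : X n → ℝ} (hη : Tst univ η) (z : X n) :
    AVG2_g AVG2_nu (-ε) η z + ε * AVG2_g AVG2_nu (-ε) (dt η) z = η z := by
  have hηc : Continuous η := hη.smooth.continuous
  have hηtc : Continuous (dt η) := (contDiff_dt hη.smooth).continuous
  have h8 : HasCompactSupport (dt η) := by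
    refine hη.cpt.mono' ?_
    intro w hw
    by_contra h
    exact hw (dt_zero_of_notMem w h)
  obtain ⟨B, hB⟩ := hη.cpt.exists_bound_of_continuous hηc
  obtain ⟨B', hB'⟩ := h8.exists_bound_of_continuous hηtc
  have e1 : AVG2_g AVG2_nu (-ε) η z = ∫ s, AVG2_w ε s • η (z.1, z.2 - s) :=
    AVG2_convF hε (fun t => η (z.1, t)) z.2
  have e2 : AVG2_g AVG2_nu (-ε) (dt η) z = ∫ s, AVG2_w ε s • dt η (z.1, z.2 - s) :=
    AVG2_convF hε (fun t => dt η (z.1, t)) z.2
  have i1 : Integrable (fun s => AVG2_w ε s • η (z.1, z.2 - s)) := AVG2_wint hε hηc hB z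
  have i2 : Integrable (fun s => AVG2_w ε s • dt η (z.1, z.2 - s)) := AVG2_wint hε hηtc hB' z
  have hder : ∀ s ∈ Ici (0 : ℝ), HasDerivAt (fun s => -(Real.exp (-(s / ε)) * η (z.1, z.2 - s)))
      (ε⁻¹ * Real.exp (-(s / ε)) * η (z.1, z.2 - s) +
        ε * (ε⁻¹ * Real.exp (-(s / ε)) * dt η (z.1, z.2 - s))) s := by
    intro s _
    have a1 : HasDerivAt (fun s : ℝ => Real.exp (-(s / ε))) (Real.exp (-(s / ε)) * (-(1 / ε))) s :=
      ((hasDerivAt_id s).div_const ε).neg.exp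
    have a2 : HasDerivAt (fun t => η (z.1, t)) (dt η (z.1, z.2 - s)) (z.2 - s) := by
      have a3 : DifferentiableAt ℝ (fun t => η (z.1, t)) (z.2 - s) := by
        have a4 : ContDiff ℝ ∞ fun t : ℝ => η (z.1, t) :=
          hη.smooth.comp (contDiff_const.prodMk contDiff_id)
        exact (a4.differentiable (by simp)).differentiableAt
      exact a3.hasDerivAt
    have a5 : HasDerivAt (fun s => η (z.1, z.2 - s)) (dt η (z.1, z.2 - s) * (-1)) s := by
      have a6 : HasDerivAt (fun s : ℝ => z.2 - s) (-1) s := (hasDerivAt_id s).const_sub z.2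
      exact HasDerivAt.comp s a2 a6
    refine ((a1.mul a5).neg).congr_deriv ?_
    field_simp
    ring
  have hint : IntegrableOn (fun s => ε⁻¹ * Real.exp (-(s / ε)) * η (z.1, z.2 - s) +
        ε * (ε⁻¹ * Real.exp (-(s / ε)) * dt η (z.1, z.2 - s))) (Ioi 0) := by
    have a1 := (i1.add (i2.const_mul ε)).integrableOn (s := Ioi (0 : ℝ))
    refine a1.congr_fun (fun s hs => ?_) measurableSet_Ioi
    simp only [Pi.add_apply, AVG2_w, indicator_of_mem hs, smul_eq_mul]
  have hlim : Tendsto (fun s => -(Real.exp (-(s / ε)) * η (z.1, z.2 - s))) atTop (𝓝 0) := by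
    have a1 : Tendsto (fun s : ℝ => Real.exp (-(s / ε)) * B) atTop (𝓝 0) := by
      have a2 : Tendsto (fun s : ℝ => Real.exp (-(s / ε))) atTop (𝓝 0) := by
        apply Real.tendsto_exp_neg_atTop_nhds_zero.comp
        exact tendsto_id.atTop_div_const hε
      simpa using a2.mul_const B
    refine squeeze_zero_norm (fun s => ?_) a1
    rw [norm_neg, norm_mul, Real.norm_eq_abs, abs_of_pos (Real.exp_pos _)]
    exact mul_le_mul_of_nonneg_left (hB _) (Real.exp_pos _).le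
  have hftc := integral_Ioi_of_hasDerivAt_of_tendsto' hder hint hlim
  have h0 : ∫ s in Ioi (0 : ℝ), (ε⁻¹ * Real.exp (-(s / ε)) * η (z.1, z.2 - s) +
        ε * (ε⁻¹ * Real.exp (-(s / ε)) * dt η (z.1, z.2 - s))) =
      AVG2_g AVG2_nu (-ε) η z + ε * AVG2_g AVG2_nu (-ε) (dt η) z := by
    rw [e1, e2, ← integral_const_mul, ← integral_add i1 (i2.const_mul ε),
      ← integral_indicator measurableSet_Ioi]
    congr 1
    funext s
    unfold AVG2_w
    by_cases hs : s ∈ Ioi (0 : ℝ)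
    · rw [indicator_of_mem hs, indicator_of_mem hs, smul_eq_mul, smul_eq_mul]
    · rw [indicator_of_notMem hs, indicator_of_notMem hs, zero_smul, zero_smul]
      simp
  rw [← h0, hftc]
  simp

/-- the adjoint average of a test function: `η* + ε ∂ₜ η* = η` and duality -/
theorem ex_adjoint {ε : ℝ} (hε : 0 < ε) {η : X n → ℝ} (hη : Tst univ η)
    (h0 : ∀ z, 0 ≤ η z) : ∃ ηs : X n → ℝ, ContDiff ℝ ∞ ηs ∧ (∀ z, 0 ≤ ηs z) ∧
      (∃ B : ℝ, ∀ z, ηs z ≤ B ∧ |dt ηs z| ≤ B ∧ ‖dx ηs z‖ ≤ B) ∧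
      (∀ z, ηs z + ε * dt ηs z = η z) ∧
      (∀ f : X n → ℝ, Integrable f volume →
        ∫ z, f z * ηs z = ∫ z, ex ε f z * η z) ∧
      (∀ (q : ℝ), 1 ≤ q → ∀ f : X n → E n, MemLp f (ENNReal.ofReal q) volume →
        ∫ z, inner ℝ (f z) (dx ηs z) = ∫ z, inner ℝ (ex ε f z) (dx η z)) := by
  have hηc : Continuous η := hη.smooth.continuous
  have hηtc : Continuous (dt η) := (contDiff_dt hη.smooth).continuous
  have hηxc : Continuous (dx η) := (contDiff_dx hη.smooth).continuous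
  have ht : HasCompactSupport (dt η) := by
    refine hη.cpt.mono' ?_
    intro w hw
    by_contra h
    exact hw (dt_zero_of_notMem w h)
  have hx : HasCompactSupport (dx η) := by
    refine hη.cpt.mono' ?_
    intro w hw
    by_contra h
    exact hw (dx_zero_of_notMem w h)
  obtain ⟨B1, hB1⟩ := hη.cpt.exists_bound_of_continuous hηc
  obtain ⟨B2, hB2⟩ := ht.exists_bound_of_continuous hηtc
  obtain ⟨B3, hB3⟩ := hx.exists_bound_of_continuous hηxc
  obtain ⟨h1, h2, h3⟩ := AVG2_deriv hε hη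
  refine ⟨AVG2_g AVG2_nu (-ε) η, h1, fun z => integral_nonneg fun r => h0 _,
    ⟨max B1 (max B2 B3), fun z => ⟨?_, ?_, ?_⟩⟩, fun z => ?_, fun f hf => ?_, fun q hq f hf => ?_⟩
  · exact (le_abs_self _).trans ((AVG2_gbound hB1 AVG2_nu (-ε) z).trans (le_max_left _ _))
  · rw [h3]
    exact (AVG2_gbound hB2 AVG2_nu (-ε) z).trans
      ((le_max_left _ _).trans (le_max_right _ _))
  · rw [h2]
    exact (AVG2_gbound hB3 AVG2_nu (-ε) z).trans
      ((le_max_right _ _).trans (le_max_right _ _))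
  · rw [h3]
    exact AVG2_ode hε hη z
  · have a1 : MemLp f (ENNReal.ofReal 1) volume := by
      rw [ENNReal.ofReal_one]; exact memLp_one_iff_integrable.2 hf
    have a2 := AVG2_dual AVG2_nu ε (ContinuousLinearMap.mul ℝ ℝ) (q := 1) (q' := ⊤)
      (f := f) (g := η) (memLp_one_iff_integrable.2 hf) (AVG2_tst_memLp hηc hη.cpt ⊤)
      (AVG2_slice le_rfl a1 AVG2_nu ε)
      (AVG2_slice le_rfl (AVG2_tst_memLp hηc hη.cpt _) AVG2_nu (-ε))
    rw [AVG2_ex_eq hε]
    exact a2.symm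
  · have h4 : (1 : ENNReal) ≤ ENNReal.ofReal q := by
      rw [← ENNReal.ofReal_one]; exact ENNReal.ofReal_le_ofReal hq
    have h5 : ENNReal.HolderConjugate (ENNReal.ofReal q) (ENNReal.ofReal q).conjExponent :=
      ENNReal.HolderConjugate.conjExponent h4
    have a2 := AVG2_dual AVG2_nu ε (AVG2_inner n) (q := ENNReal.ofReal q)
      (q' := (ENNReal.ofReal q).conjExponent)
      (f := f) (g := dx η) hf (AVG2_tst_memLp hηxc hx _)
      (AVG2_slice hq hf AVG2_nu ε)
      (AVG2_slice le_rfl (AVG2_tst_memLp hηxc hx _) AVG2_nu (-ε))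
    rw [AVG2_ex_eq hε]
    simp only [AVG2_inner_apply] at a2
    simp only [h2]
    exact a2.symm

end PP
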