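import Pool.Agent.PP.DER

/-! # Auxiliary facts for the calculus of weak derivatives -/

open Set Metric Filter Topology MeasureTheory
open scoped ContDiff

noncomputable section

namespace PP

variable {n : ℕ}

theorem cal0_dx {g : X n → ℝ} {z : X n} (hg : DifferentiableAt ℝ g z) (v : E n) :
    inner ℝ (dx g z) v = fderiv ℝ g z (v, 0) := by
  unfold dx gradient
  rw [InnerProductSpace.toDual_symm_apply]
  have h1 : HasFDerivAt g (fderiv ℝ g z) (z.1, z.2) := hg.hasFDerivAt
  have h0 : HasFDerivAt (fun x : E n => (x, z.2)) (ContinuousLinearMap.inl ℝ (E n) ℝ) z.1 :=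
    hasFDerivAt_prodMk_left z.1 z.2
  have h2 : HasFDerivAt (fun x => g (x, z.2)) ((fderiv ℝ g z).comp
      (ContinuousLinearMap.inl ℝ (E n) ℝ)) z.1 :=
    HasFDerivAt.comp (g := g) (f := fun x : E n => (x, z.2)) z.1 h1 h0
  have h3 : fderiv ℝ (fun x => g (x, z.2)) z.1 = (fderiv ℝ g z).comp
      (ContinuousLinearMap.inl ℝ (E n) ℝ) := h2.fderiv
  rw [h3]
  simp

theorem cal0_dt {g : X n → ℝ} {z : X n} (hg : DifferentiableAt ℝ g z) :
    dt g z = fderiv ℝ g z (0, 1) := by
  unfold dt
  have h1 : HasFDerivAt g (fderiv ℝ g z) (z.1, z.2) := hg.hasFDerivAt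
  have h0 : HasFDerivAt (fun t : ℝ => (z.1, t)) (ContinuousLinearMap.inr ℝ (E n) ℝ) z.2 :=
    hasFDerivAt_prodMk_right z.1 z.2
  have h2 : HasFDerivAt (fun t => g (z.1, t)) ((fderiv ℝ g z).comp
      (ContinuousLinearMap.inr ℝ (E n) ℝ)) z.2 :=
    HasFDerivAt.comp (g := g) (f := fun t : ℝ => (z.1, t)) z.2 h1 h0
  have h3 := h2.hasDerivAt.deriv
  rw [h3]
  simp

theorem cal0_cont_dx {g : X n → ℝ} (hg : ContDiff ℝ 1 g) : Continuous (dx g) := by
  have h : dx g = fun z => (InnerProductSpace.toDual ℝ (E n)).symm ((fderiv ℝ g z).comp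
      (ContinuousLinearMap.inl ℝ (E n) ℝ)) := by
    funext z
    refine ext_inner_right ℝ fun v => ?_
    rw [cal0_dx ((hg.differentiable (by simp)) z), InnerProductSpace.toDual_symm_apply]
    simp
  rw [h]
  exact (InnerProductSpace.toDual ℝ (E n)).symm.continuous.comp
    ((hg.continuous_fderiv (by simp)).clm_comp continuous_const)

theorem cal0_cont_dt {g : X n → ℝ} (hg : ContDiff ℝ 1 g) : Continuous (dt g) := by
  have h : dt g = fun z => fderiv ℝ g z (0, 1) :=
    funext fun z => cal0_dt ((hg.differentiable (by simp)) z)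
  rw [h]
  exact (hg.continuous_fderiv (by simp)).clm_apply continuous_const

theorem cal0_ibp {g : X n → ℝ} (hg : ContDiff ℝ 1 g) {ψ : X n → ℝ} (hψ : Tst univ ψ) (v : X n) :
    ∫ z, g z * fderiv ℝ ψ z v = - ∫ z, fderiv ℝ g z v * ψ z := by
  have cψ := hψ.smooth.continuous
  have cg := hg.continuous
  have dg : Differentiable ℝ g := hg.differentiable (by simp)
  have dψ : Differentiable ℝ ψ := hψ.smooth.differentiable (by simp)
  have cfg : Continuous (fun z => fderiv ℝ g z v) :=
    ((hg.continuous_fderiv (by simp)).clm_apply continuous_const)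
  have cfψ : Continuous (fun z => fderiv ℝ ψ z v) :=
    ((hψ.smooth.continuous_fderiv (by simp)).clm_apply continuous_const)
  have sψ : HasCompactSupport (fun z => fderiv ℝ ψ z v) := hψ.cpt.fderiv_apply (𝕜 := ℝ) v
  have := der_haar (n := n)
  refine integral_mul_fderiv_eq_neg_fderiv_mul_of_integrable ?_ ?_ ?_
    (fun x _ => dg x) (fun x _ => dψ x)
  · exact (cfg.mul cψ).integrable_of_hasCompactSupport hψ.cpt.mul_left
  · exact (cg.mul cfψ).integrable_of_hasCompactSupport sψ.mul_left
  · exact (cg.mul cψ).integrable_of_hasCompactSupport hψ.cpt.mul_left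

/-- functions of class `C^1` have weak derivatives -/
theorem cal0_WG {g : X n → ℝ} (hg : ContDiff ℝ 1 g) : WG univ g (dx g) := by
  intro ψ hψ
  obtain ⟨d1, t1, d2, t2⟩ := der_tst_int hψ
  refine der_vec ?_ ?_ fun v => ?_
  · exact (hg.continuous.smul d1).integrable_of_hasCompactSupport t1.smul_left
  · exact (hψ.smooth.continuous.smul (cal0_cont_dx hg)).integrable_of_hasCompactSupport
      hψ.cpt.smul_right
  · have h1 := cal0_ibp hg hψ (v, 0)
    simp only [real_inner_smul_left]
    simp only [dx_eq hψ.smooth, cal0_dx ((hg.differentiable (by simp)) _)]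
    rw [h1]
    congr 1
    refine integral_congr_ae (Eventually.of_forall fun z => ?_)
    simp only
    ring

theorem cal0_WT {g : X n → ℝ} (hg : ContDiff ℝ 1 g) : WT g (dt g) := by
  intro ψ hψ
  have h1 := cal0_ibp hg hψ (0, 1)
  simp only [dt_eq hψ.smooth, cal0_dt ((hg.differentiable (by simp)) _)]
  rw [h1]
  congr 1
  refine integral_congr_ae (Eventually.of_forall fun z => ?_)
  simp only
  ring

theorem cal0_chain {f : ℝ → ℝ} (hf : ContDiff ℝ 1 f) {g : X n → ℝ} (hg : ContDiff ℝ 1 g) :
    WG univ (fun z => f (g z)) (fun z => deriv f (g z) • dx g z) ∧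
      WT (fun z => f (g z)) (fun z => deriv f (g z) * dt g z) := by
  have hfg : ContDiff ℝ 1 (fun z => f (g z)) := hf.comp hg
  have hd : ∀ z, fderiv ℝ (fun z => f (g z)) z = deriv f (g z) • fderiv ℝ g z := by
    intro z
    have h1 : HasDerivAt f (deriv f (g z)) (g z) :=
      ((hf.differentiable (by simp)) (g z)).hasDerivAt
    exact (h1.comp_hasFDerivAt z ((hg.differentiable (by simp)) z).hasFDerivAt).fderiv
  have e1 : dx (fun z => f (g z)) = fun z => deriv f (g z) • dx g z := by
    funext z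
    refine ext_inner_right ℝ fun v => ?_
    rw [cal0_dx ((hfg.differentiable (by simp)) z), hd, real_inner_smul_left,
      cal0_dx ((hg.differentiable (by simp)) z)]
    simp
  have e2 : dt (fun z => f (g z)) = fun z => deriv f (g z) * dt g z := by
    funext z
    rw [cal0_dt ((hfg.differentiable (by simp)) z), hd, cal0_dt ((hg.differentiable (by simp)) z)]
    simp
  exact ⟨e1 ▸ cal0_WG hfg, e2 ▸ cal0_WT hfg⟩

/-- convergence in `L^p` implies local convergence in `L^1` -/
theorem cal0_L1 {F : Type*} [NormedAddCommGroup F] {p : ℝ} (hp : 1 ≤ p)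
    {h : ℕ → X n → F} (hm : ∀ k, MemLp (h k) (ENNReal.ofReal p) volume)
    (hT : Tendsto (fun k => ∫ z, ‖h k z‖ ^ p) atTop (𝓝 0)) {K : Set (X n)} (hK : IsCompact K) :
    Tendsto (fun k => ∫ z in K, ‖h k z‖) atTop (𝓝 0) := by
  have hp0 : 0 < p := by linarith
  have hne : ENNReal.ofReal p ≠ 0 := by simpa using hp0
  have hnt : ENNReal.ofReal p ≠ ⊤ := ENNReal.ofReal_ne_top
  have hint : ∀ k, Integrable (fun z => ‖h k z‖ ^ p) volume := by
    intro k
    have := (hm k).integrable_norm_rpow hne hnt
    rwa [ENNReal.toReal_ofReal hp0.le] at this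
  have hKf : volume K ≠ ⊤ := hK.measure_lt_top.ne
  have hintK : ∀ k, IntegrableOn (fun z => ‖h k z‖) K volume := by
    intro k
    have : IsFiniteMeasure (volume.restrict K) := ⟨by simpa using hK.measure_lt_top⟩
    exact (((hm k).restrict K).integrable (by simpa using hp)).norm
  have key : ∀ δ : ℝ, 0 < δ → ∀ t : ℝ, 0 ≤ t → t ≤ δ + δ ^ (1 - p) * t ^ p := by
    intro δ hδ t ht
    by_cases hle : t ≤ δ
    · have : 0 ≤ δ ^ (1 - p) * t ^ p := by positivity
      linarith
    · push Not at hle
      have ht0 : 0 < t := hδ.trans hle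
      have h1 : t ^ (1 - p) ≤ δ ^ (1 - p) :=
        Real.rpow_le_rpow_of_nonpos hδ hle.le (by linarith)
      have h2 : t = t ^ (1 - p) * t ^ p := by
        rw [← Real.rpow_add ht0]
        simp
      calc t = t ^ (1 - p) * t ^ p := h2
        _ ≤ δ ^ (1 - p) * t ^ p := by gcongr
        _ ≤ δ + δ ^ (1 - p) * t ^ p := by linarith
  rw [Metric.tendsto_atTop]
  intro ε hε
  set V : ℝ := volume.real K with hV
  have hV0 : 0 ≤ V := measureReal_nonneg
  set δ : ℝ := ε / (2 * (V + 1)) with hδdef
  have hδ : 0 < δ := by positivity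
  have h3 : Tendsto (fun k => δ ^ (1 - p) * ∫ z, ‖h k z‖ ^ p) atTop (𝓝 0) := by
    simpa using hT.const_mul (δ ^ (1 - p))
  obtain ⟨N, hN⟩ := (h3.eventually_lt_const (show (0 : ℝ) < ε / 2 by positivity)).exists_forall_of_atTop
  refine ⟨N, fun k hk => ?_⟩
  have h4 : ∫ z in K, ‖h k z‖ ≤ ∫ z in K, (δ + δ ^ (1 - p) * ‖h k z‖ ^ p) := by
    refine integral_mono (hintK k) ?_ fun z => key δ hδ _ (norm_nonneg _)
    exact (integrableOn_const hKf).add ((hint k).integrableOn.const_mul _)
  have hconst : IntegrableOn (fun _ : X n => δ) K volume := integrableOn_const hKf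
  have h5 : ∫ z in K, (δ + δ ^ (1 - p) * ‖h k z‖ ^ p) =
      δ * V + δ ^ (1 - p) * ∫ z in K, ‖h k z‖ ^ p := by
    rw [integral_add hconst ((hint k).integrableOn.const_mul _),
      integral_const_mul]
    simp [hV, mul_comm, Measure.real]
  have h6 : ∫ z in K, ‖h k z‖ ^ p ≤ ∫ z, ‖h k z‖ ^ p :=
    setIntegral_le_integral (hint k) (Eventually.of_forall fun z => by positivity)
  have h7 : δ * V ≤ ε / 2 := by
    rw [hδdef, div_mul_eq_mul_div, div_le_div_iff₀ (by positivity) (by norm_num)]
    nlinarith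
  have h8 := hN k hk
  have h9 : 0 ≤ ∫ z in K, ‖h k z‖ := integral_nonneg fun z => norm_nonneg _
  rw [Real.dist_eq, sub_zero, abs_of_nonneg h9]
  have h10 : δ ^ (1 - p) * ∫ z in K, ‖h k z‖ ^ p ≤ δ ^ (1 - p) * ∫ z, ‖h k z‖ ^ p := by
    gcongr
  linarith

/-- products of bounded a.e. convergent and `L^1` convergent sequences -/
theorem cal0_right {F : Type*} [NormedAddCommGroup F] [NormedSpace ℝ F] {a : ℕ → X n → ℝ}
    {a' : X n → ℝ} {G : ℕ → X n → F} {G' : X n → F} {B : ℝ} {K : Set (X n)}
    (ham : ∀ k, AEStronglyMeasurable (a k) volume) (ha : ∀ k, ∀ᵐ z, |a k z| ≤ B)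
    (ha'm : AEStronglyMeasurable a' volume)
    (hlim : ∀ᵐ z, Tendsto (fun k => a k z) atTop (𝓝 (a' z)))
    (hG : ∀ k, IntegrableOn (G k) K volume) (hG' : IntegrableOn G' K volume)
    (hT : Tendsto (fun k => ∫ z in K, ‖G k z - G' z‖) atTop (𝓝 0)) :
    Tendsto (fun k => ∫ z in K, ‖a k z • G k z - a' z • G' z‖) atTop (𝓝 0) := by
  have hall : ∀ᵐ z, ∀ k, |a k z| ≤ B := ae_all_iff.mpr ha
  have ha' : ∀ᵐ z, |a' z| ≤ B := by
    filter_upwards [hall, hlim] with z h1 h2
    exact le_of_tendsto h2.abs (Eventually.of_forall h1)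
  have h1 : Tendsto (fun k => ∫ z in K, |a k z - a' z| * ‖G' z‖) atTop (𝓝 0) := by
    have h0 : (0 : ℝ) = ∫ z in K, (0 : ℝ) := by simp
    rw [h0]
    refine tendsto_integral_of_dominated_convergence (fun z => 2 * B * ‖G' z‖) ?_ ?_ ?_ ?_
    · intro k
      exact (((ham k).restrict.sub ha'm.restrict).norm).mul hG'.aestronglyMeasurable.norm
    · exact hG'.norm.const_mul _
    · intro k
      refine ae_restrict_of_ae ?_
      filter_upwards [hall, ha'] with z h1 h2
      rw [norm_mul, Real.norm_eq_abs, abs_abs, norm_norm]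
      have h3 : |a k z - a' z| ≤ 2 * B := by
        have := abs_sub (a k z) (a' z)
        have := h1 k
        linarith
      exact mul_le_mul_of_nonneg_right h3 (norm_nonneg _)
    · refine ae_restrict_of_ae ?_
      filter_upwards [hlim] with z hz
      have h2 : Tendsto (fun k => a k z - a' z) atTop (𝓝 0) := by
        simpa using hz.sub_const (a' z)
      simpa using (h2.abs).mul_const ‖G' z‖
  have h2 : Tendsto (fun k => B * ∫ z in K, ‖G k z - G' z‖) atTop (𝓝 0) := by
    simpa using hT.const_mul B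
  have h3 := h2.add h1
  rw [add_zero] at h3
  refine squeeze_zero (fun k => integral_nonneg fun z => norm_nonneg _) (fun k => ?_) h3
  have hi1 : IntegrableOn (fun z => B * ‖G k z - G' z‖) K volume :=
    ((hG k).sub hG').norm.const_mul B
  have hi2 : IntegrableOn (fun z => |a k z - a' z| * ‖G' z‖) K volume := by
    refine Integrable.mono' (hG'.norm.const_mul (2 * B)) ?_ ?_
    · exact (((ham k).restrict.sub ha'm.restrict).norm).mul hG'.aestronglyMeasurable.norm
    · refine ae_restrict_of_ae ?_
      filter_upwards [hall, ha'] with z h1 h2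
      rw [norm_mul, Real.norm_eq_abs, abs_abs, norm_norm]
      have h3 : |a k z - a' z| ≤ 2 * B := by
        have := abs_sub (a k z) (a' z)
        have := h1 k
        linarith
      exact mul_le_mul_of_nonneg_right h3 (norm_nonneg _)
  rw [← integral_const_mul, ← integral_add hi1 hi2]
  refine integral_mono_of_nonneg (Eventually.of_forall fun z => norm_nonneg _) (hi1.add hi2) ?_
  refine ae_restrict_of_ae ?_
  filter_upwards [hall] with z h1
  have e1 : a k z • G k z - a' z • G' z = a k z • (G k z - G' z) + (a k z - a' z) • G' z := by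
    rw [smul_sub, sub_smul]
    abel
  rw [e1]
  refine (norm_add_le _ _).trans ?_
  rw [norm_smul, norm_smul, Real.norm_eq_abs, Real.norm_eq_abs]
  have := h1 k
  gcongr

/-- weak derivatives are closed under limits -/
theorem cal0_lim {F : Type*} [NormedAddCommGroup F] [NormedSpace ℝ F]
    {u : ℕ → X n → ℝ} {u' : X n → ℝ} {G : ℕ → X n → F} {G' : X n → F} {M : ℝ}
    (hum : ∀ k, AEStronglyMeasurable (u k) volume) (hu : ∀ k, ∀ᵐ z, |u k z| ≤ M)
    (hlim : ∀ᵐ z, Tendsto (fun k => u k z) atTop (𝓝 (u' z)))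
    (hG : ∀ K, IsCompact K → ∀ k, IntegrableOn (G k) K volume)
    (hG' : ∀ K, IsCompact K → IntegrableOn G' K volume)
    (hT : ∀ K, IsCompact K → Tendsto (fun k => ∫ z in K, ‖G k z - G' z‖) atTop (𝓝 0))
    {ψ : X n → ℝ} {D : X n → F} (hψ : Continuous ψ) (sψ : HasCompactSupport ψ)
    (hD : Continuous D) (sD : HasCompactSupport D)
    (h : ∀ k, ∫ z, u k z • D z = - ∫ z, ψ z • G k z) :
    ∫ z, u' z • D z = - ∫ z, ψ z • G' z := by
  have h1 : Tendsto (fun k => ∫ z, u k z • D z) atTop (𝓝 (∫ z, u' z • D z)) := by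
    refine tendsto_integral_of_dominated_convergence (fun z => M * ‖D z‖) ?_ ?_ ?_ ?_
    · intro k
      exact (hum k).smul hD.aestronglyMeasurable
    · exact ((hD.integrable_of_hasCompactSupport sD).norm).const_mul M
    · intro k
      filter_upwards [hu k] with z hz
      rw [norm_smul, Real.norm_eq_abs]
      gcongr
    · filter_upwards [hlim] with z hz
      exact hz.smul_const (D z)
  obtain ⟨B, hB⟩ := sψ.exists_bound_of_continuous hψ
  have hB0 : 0 ≤ B := (norm_nonneg _).trans (hB 0)
  set K := tsupport ψ with hK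
  have hKc : IsCompact K := sψ
  have hint : ∀ {H : X n → F}, IntegrableOn H K volume → Integrable (fun z => ψ z • H z) volume := by
    intro H hH
    have e : (fun z => ψ z • H z) = K.indicator (fun z => ψ z • H z) := by
      funext z
      by_cases hz : z ∈ K
      · rw [indicator_of_mem hz]
      · rw [indicator_of_notMem hz, image_eq_zero_of_notMem_tsupport hz, zero_smul]
    rw [e, integrable_indicator_iff (isClosed_tsupport ψ).measurableSet]
    refine Integrable.mono' (hH.norm.const_mul B)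
      (hψ.aestronglyMeasurable.restrict.smul hH.aestronglyMeasurable) ?_
    refine Eventually.of_forall fun z => ?_
    rw [norm_smul]
    gcongr
    exact hB z
  have h2 : Tendsto (fun k => - ∫ z, ψ z • G k z) atTop (𝓝 (- ∫ z, ψ z • G' z)) := by
    refine Tendsto.neg ?_
    rw [tendsto_iff_norm_sub_tendsto_zero]
    have h3 : Tendsto (fun k => B * ∫ z in K, ‖G k z - G' z‖) atTop (𝓝 0) := by
      simpa using (hT K hKc).const_mul B
    refine squeeze_zero (fun k => norm_nonneg _) (fun k => ?_) h3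
    rw [← integral_sub (hint (hG K hKc k)) (hint (hG' K hKc))]
    have e2 : (fun z => ψ z • G k z - ψ z • G' z) = fun z => ψ z • (G k z - G' z) := by
      funext z
      rw [smul_sub]
    rw [e2]
    refine (norm_integral_le_integral_norm _).trans ?_
    rw [← integral_const_mul]
    have e3 : (fun z => ‖ψ z • (G k z - G' z)‖) =
        K.indicator (fun z => ‖ψ z • (G k z - G' z)‖) := by
      funext z
      by_cases hz : z ∈ K
      · rw [indicator_of_mem hz]
      · rw [indicator_of_notMem hz, image_eq_zero_of_notMem_tsupport hz, zero_smul, norm_zero]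
    rw [e3, integral_indicator (isClosed_tsupport ψ).measurableSet]
    refine integral_mono_of_nonneg (Eventually.of_forall fun z => norm_nonneg _)
      ((((hG K hKc k).sub (hG' K hKc)).norm).const_mul B) (Eventually.of_forall fun z => ?_)
    simp only
    rw [norm_smul]
    gcongr
    exact hB z
  exact tendsto_nhds_unique h1 (by simpa only [h] using h2)

end PP
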