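import Pool.Agent.PP.DER

open Set Metric Filter Topology MeasureTheory
open scoped ContDiff

noncomputable section

namespace PP

variable {n : ℕ}
variable {p : ℝ} {C D : Set (X n)}

theorem cal1_one_le (hp : 1 < p) : (1 : ENNReal) ≤ ENNReal.ofReal p := by
  rw [← ENNReal.ofReal_one]
  exact ENNReal.ofReal_le_ofReal hp.le

theorem cal1_locInt {φ : X n → ℝ} (hm : AEStronglyMeasurable φ volume)
    (hb : ∃ M : ℝ, ∀ᵐ z, |φ z| ≤ M) : LocallyIntegrable φ volume := by
  have := der_haar (n := n)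
  obtain ⟨M, hM⟩ := hb
  have h1 : MemLp φ ⊤ volume := memLp_top_of_bound hm M (by simpa using hM)
  exact h1.locallyIntegrable le_top

theorem cal1_locInt' (hp : 1 < p) {Φ : X n → E n} (h : MemLp Φ (ENNReal.ofReal p) volume) :
    LocallyIntegrable Φ volume := by
  have := der_haar (n := n)
  exact h.locallyIntegrable (cal1_one_le hp)

theorem W0.congr {φ ψ : X n → ℝ} {Φ Ψ : X n → E n} (h : W0 p C φ Φ)
    (h1 : ∀ᵐ z, φ z = ψ z) (h2 : ∀ᵐ z, Φ z = Ψ z) : W0 p C ψ Ψ := by
  refine ⟨h.meas.congr h1, ?_, ?_, h.mem.ae_eq h2, ?_⟩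
  · obtain ⟨M, hM⟩ := h.bdd
    refine ⟨M, ?_⟩
    filter_upwards [hM, h1] with z hz h1z
    rwa [← h1z]
  · filter_upwards [h.zero, h1] with z hz h1z hzC
    rw [← h1z, hz hzC]
  · intro χ hχ
    have e1 : ∫ z, ψ z • dx χ z = ∫ z, φ z • dx χ z := by
      refine integral_congr_ae ?_
      filter_upwards [h1] with z hz
      rw [hz]
    have e2 : ∫ z, χ z • Ψ z = ∫ z, χ z • Φ z := by
      refine integral_congr_ae ?_
      filter_upwards [h2] with z hz
      rw [hz]
    rw [e1, e2]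
    exact h.wg χ hχ

theorem W1.congr {φ ψ φt ψt : X n → ℝ} {Φ Ψ : X n → E n} (h : W1 p C φ φt Φ)
    (h1 : ∀ᵐ z, φ z = ψ z) (h2 : ∀ᵐ z, φt z = ψt z) (h3 : ∀ᵐ z, Φ z = Ψ z) :
    W1 p C ψ ψt Ψ := by
  refine ⟨h.toW0.congr h1 h3, h.memt.ae_eq h2, ?_⟩
  intro χ hχ
  have e1 : ∫ z, ψ z * dt χ z = ∫ z, φ z * dt χ z := by
    refine integral_congr_ae ?_
    filter_upwards [h1] with z hz
    rw [hz]
  have e2 : ∫ z, χ z * ψt z = ∫ z, χ z * φt z := by
    refine integral_congr_ae ?_
    filter_upwards [h2] with z hz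
    rw [hz]
  rw [e1, e2]
  exact h.wt χ hχ

/-- change of the exceptional set: only the vanishing matters -/
theorem W0.of_zero {φ : X n → ℝ} {Φ : X n → E n} (h : W0 p C φ Φ)
    (hD : ∀ᵐ z, z ∉ D → φ z = 0) : W0 p D φ Φ := ⟨h.meas, h.bdd, hD, h.mem, h.wg⟩

theorem W1.of_zero {φ φt : X n → ℝ} {Φ : X n → E n} (h : W1 p C φ φt Φ)
    (hD : ∀ᵐ z, z ∉ D → φ z = 0) : W1 p D φ φt Φ := ⟨h.toW0.of_zero hD, h.memt, h.wt⟩

theorem W0.mono {φ : X n → ℝ} {Φ : X n → E n} (h : W0 p C φ Φ) (hCD : C ⊆ D) :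
    W0 p D φ Φ := by
  refine h.of_zero ?_
  filter_upwards [h.zero] with z hz hzD
  exact hz fun hC => hzD (hCD hC)

theorem W1.mono {φ φt : X n → ℝ} {Φ : X n → E n} (h : W1 p C φ φt Φ) (hCD : C ⊆ D) :
    W1 p D φ φt Φ := ⟨h.toW0.mono hCD, h.memt, h.wt⟩

theorem W0.zero_fn (hp : 1 < p) : W0 p C (fun _ : X n => (0 : ℝ)) (fun _ => (0 : E n)) := by
  refine ⟨aestronglyMeasurable_const, ⟨0, by simp⟩, by simp, MemLp.zero', ?_⟩
  intro χ hχ
  simp

theorem W1.zero_fn (hp : 1 < p) :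
    W1 p C (fun _ : X n => (0 : ℝ)) (fun _ => (0 : ℝ)) (fun _ => (0 : E n)) := by
  refine ⟨W0.zero_fn hp, MemLp.zero', ?_⟩
  intro χ hχ
  simp

theorem W0.memLp_fn (hC : Bornology.IsBounded C) {φ : X n → ℝ} {Φ : X n → E n}
    (h : W0 p C φ Φ) (q : ENNReal) : MemLp φ q volume := by
  have := der_haar (n := n)
  obtain ⟨R, hR⟩ := hC.subset_closedBall 0
  obtain ⟨M, hM⟩ := h.bdd
  have e : (closedBall (0 : X n) R).indicator φ =ᵐ[volume] φ := by
    filter_upwards [h.zero] with z hz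
    by_cases hzR : z ∈ closedBall (0 : X n) R
    · rw [indicator_of_mem hzR]
    · rw [indicator_of_notMem hzR, hz fun hC => hzR (hR hC)]
  refine MemLp.ae_eq e ?_
  rw [memLp_indicator_iff_restrict measurableSet_closedBall]
  have hfin : IsFiniteMeasure (volume.restrict (closedBall (0 : X n) R)) :=
    ⟨by rw [Measure.restrict_apply_univ]; exact measure_closedBall_lt_top⟩
  exact MemLp.of_bound h.meas.restrict M (ae_restrict_of_ae (by simpa using hM))

theorem W0.lin (hp : 1 < p) (hC : Bornology.IsBounded C) {φ ψ : X n → ℝ} {Φ Ψ : X n → E n}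
    (h : W0 p C φ Φ) (h' : W0 p C ψ Ψ) (a b : ℝ) :
    W0 p C (fun z => a * φ z + b * ψ z) (fun z => a • Φ z + b • Ψ z) := by
  refine ⟨(h.meas.const_mul a).add (h'.meas.const_mul b), ?_, ?_,
    (h.mem.const_smul a).add (h'.mem.const_smul b), ?_⟩
  · obtain ⟨M, hM⟩ := h.bdd
    obtain ⟨M', hM'⟩ := h'.bdd
    refine ⟨|a| * M + |b| * M', ?_⟩
    filter_upwards [hM, hM'] with z hz hz'
    refine (abs_add_le _ _).trans ?_
    rw [abs_mul, abs_mul]
    exact add_le_add (mul_le_mul_of_nonneg_left hz (abs_nonneg _))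
      (mul_le_mul_of_nonneg_left hz' (abs_nonneg _))
  · filter_upwards [h.zero, h'.zero] with z hz hz' hzC
    rw [hz hzC, hz' hzC]
    simp
  · intro χ hχ
    obtain ⟨c1, s1, c2, s2⟩ := der_tst_int hχ
    have i1 : Integrable (fun z => φ z • dx χ z) volume :=
      (cal1_locInt h.meas h.bdd).integrable_smul_right_of_hasCompactSupport c1 s1
    have i2 : Integrable (fun z => ψ z • dx χ z) volume :=
      (cal1_locInt h'.meas h'.bdd).integrable_smul_right_of_hasCompactSupport c1 s1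
    have i3 : Integrable (fun z => χ z • Φ z) volume :=
      (cal1_locInt' hp h.mem).integrable_smul_left_of_hasCompactSupport hχ.smooth.continuous hχ.cpt
    have i4 : Integrable (fun z => χ z • Ψ z) volume :=
      (cal1_locInt' hp h'.mem).integrable_smul_left_of_hasCompactSupport hχ.smooth.continuous hχ.cpt
    have e1 : ∀ z, (a * φ z + b * ψ z) • dx χ z = a • (φ z • dx χ z) + b • (ψ z • dx χ z) := by
      intro z
      rw [add_smul, mul_smul, mul_smul]
    have e2 : ∀ z, χ z • (a • Φ z + b • Ψ z) = a • (χ z • Φ z) + b • (χ z • Ψ z) := by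
      intro z
      rw [smul_add, smul_comm (χ z) a, smul_comm (χ z) b]
    simp only [e1, e2]
    have j1 : Integrable (fun z => a • φ z • dx χ z) volume := i1.smul a
    have j2 : Integrable (fun z => b • ψ z • dx χ z) volume := i2.smul b
    have j3 : Integrable (fun z => a • χ z • Φ z) volume := i3.smul a
    have j4 : Integrable (fun z => b • χ z • Ψ z) volume := i4.smul b
    rw [integral_add j1 j2, integral_add j3 j4,
      integral_smul, integral_smul, integral_smul, integral_smul, h.wg χ hχ, h'.wg χ hχ]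
    rw [smul_neg, smul_neg, neg_add]

theorem W1.lin (hp : 1 < p) (hC : Bornology.IsBounded C) {φ ψ φt ψt : X n → ℝ}
    {Φ Ψ : X n → E n} (h : W1 p C φ φt Φ) (h' : W1 p C ψ ψt Ψ) (a b : ℝ) :
    W1 p C (fun z => a * φ z + b * ψ z) (fun z => a * φt z + b * ψt z)
      (fun z => a • Φ z + b • Ψ z) := by
  have := der_haar (n := n)
  refine ⟨h.toW0.lin hp hC h'.toW0 a b, (h.memt.const_mul a).add (h'.memt.const_mul b), ?_⟩
  intro χ hχ
  obtain ⟨c1, s1, c2, s2⟩ := der_tst_int hχ
  have l1 : LocallyIntegrable φt volume := h.memt.locallyIntegrable (by norm_num)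
  have l2 : LocallyIntegrable ψt volume := h'.memt.locallyIntegrable (by norm_num)
  have i1 : Integrable (fun z => φ z * dt χ z) volume :=
    (cal1_locInt h.meas h.bdd).integrable_smul_right_of_hasCompactSupport c2 s2
  have i2 : Integrable (fun z => ψ z * dt χ z) volume :=
    (cal1_locInt h'.meas h'.bdd).integrable_smul_right_of_hasCompactSupport c2 s2
  have i3 : Integrable (fun z => χ z * φt z) volume :=
    l1.integrable_smul_left_of_hasCompactSupport hχ.smooth.continuous hχ.cpt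
  have i4 : Integrable (fun z => χ z * ψt z) volume :=
    l2.integrable_smul_left_of_hasCompactSupport hχ.smooth.continuous hχ.cpt
  have e1 : ∀ z, (a * φ z + b * ψ z) * dt χ z = a * (φ z * dt χ z) + b * (ψ z * dt χ z) := by
    intro z; ring
  have e2 : ∀ z, χ z * (a * φt z + b * ψt z) = a * (χ z * φt z) + b * (χ z * ψt z) := by
    intro z; ring
  simp only [e1, e2]
  rw [integral_add (i1.const_mul a) (i2.const_mul b), integral_add (i3.const_mul a) (i4.const_mul b),
    integral_const_mul, integral_const_mul, integral_const_mul, integral_const_mul,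
    h.wt χ hχ, h'.wt χ hχ]
  ring

/-- the time shift preserves the measure -/
theorem cal1_mp (s : ℝ) :
    MeasurePreserving (fun z : X n => (z.1, z.2 + s)) volume volume := by
  have := der_haar (n := n)
  have h := measurePreserving_add_right (volume : Measure (X n)) ((0, s) : X n)
  have e : (fun z : X n => z + (0, s)) = fun z : X n => (z.1, z.2 + s) := by
    funext z
    ext1 <;> simp
  rwa [e] at h

theorem cal1_emb (s : ℝ) : MeasurableEmbedding (fun z : X n => (z.1, z.2 + s)) := by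
  have e : (fun z : X n => (z.1, z.2 + s)) = fun z : X n => z + (0, s) := by
    funext z
    ext1 <;> simp
  rw [e]
  exact (Homeomorph.addRight ((0, s) : X n)).measurableEmbedding

theorem cal1_int {F : Type*} [NormedAddCommGroup F] [NormedSpace ℝ F] (s : ℝ) (f : X n → F) :
    ∫ z : X n, f (z.1, z.2 + s) = ∫ z, f z := (cal1_mp s).integral_comp (cal1_emb s) f

theorem cal1_sh_tst (s : ℝ) {χ : X n → ℝ} (h : Tst univ χ) : Tst univ (sh s χ) := by
  refine ⟨?_, ?_, subset_univ _⟩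
  · have h1 : ContDiff ℝ ∞ (fun z : X n => (z.1, z.2 + s)) := by fun_prop
    exact h.smooth.comp h1
  · have e : sh s χ = χ ∘ (Homeomorph.addRight ((0, s) : X n)) := by
      funext z
      simp [sh, Prod.add_def]
    rw [e]
    exact h.cpt.comp_homeomorph _

theorem cal1_sh_dx (s : ℝ) (χ : X n → ℝ) : dx (sh s χ) = sh s (dx χ) := rfl

theorem cal1_sh_dt (s : ℝ) (χ : X n → ℝ) : dt (sh s χ) = sh s (dt χ) := by
  funext z
  simp only [dt, sh]
  rw [deriv_comp_add_const (fun t => χ (z.1, t))]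

/-- time shifts -/
theorem W0.shift {φ : X n → ℝ} {Φ : X n → E n} (h : W0 p C φ Φ) (s : ℝ) :
    W0 p {z | (z.1, z.2 + s) ∈ C} (sh s φ) (sh s Φ) := by
  refine ⟨h.meas.comp_measurePreserving (cal1_mp s), ?_, ?_,
    h.mem.comp_measurePreserving (cal1_mp s), ?_⟩
  · obtain ⟨M, hM⟩ := h.bdd
    exact ⟨M, (cal1_mp s).quasiMeasurePreserving.ae hM⟩
  · exact (cal1_mp s).quasiMeasurePreserving.ae h.zero
  · intro χ hχ
    have h1 := h.wg (sh (-s) χ) (cal1_sh_tst (-s) hχ)
    rw [← cal1_int s, ← cal1_int s (fun z => sh (-s) χ z • Φ z), cal1_sh_dx] at h1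
    simpa [sh] using h1

theorem W1.shift {φ φt : X n → ℝ} {Φ : X n → E n} (h : W1 p C φ φt Φ) (s : ℝ) :
    W1 p {z | (z.1, z.2 + s) ∈ C} (sh s φ) (sh s φt) (sh s Φ) := by
  refine ⟨h.toW0.shift s, h.memt.comp_measurePreserving (cal1_mp s), ?_⟩
  intro χ hχ
  have h1 := h.wt (sh (-s) χ) (cal1_sh_tst (-s) hχ)
  rw [← cal1_int s, ← cal1_int s (fun z => sh (-s) χ z * φt z), cal1_sh_dt] at h1
  simpa [sh] using h1

end PP
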