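import Pool.Agent.PP.DER

open Set Metric Filter Topology MeasureTheory
open scoped ContDiff

noncomputable section

namespace PP

variable {n : ℕ}

theorem loc_int_smul {F : Type*} [NormedAddCommGroup F] [NormedSpace ℝ F] {Ω : Set (X n)}
    {G : X n → F}
    (hG : LocallyIntegrableOn G Ω volume) {φ : X n → ℝ} (hφ : Tst Ω φ) :
    Integrable (fun z => φ z • G z) volume := by
  obtain ⟨M, hM⟩ := hφ.cpt.exists_bound_of_continuous hφ.smooth.continuous
  have h1 : IntegrableOn G (tsupport φ) volume :=
    hG.integrableOn_compact_subset hφ.supp hφ.cpt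
  have h2 : IntegrableOn (fun z => φ z • G z) (tsupport φ) volume := by
    exact Integrable.bdd_smul h1 M
      hφ.smooth.continuous.aestronglyMeasurable (Eventually.of_forall fun z => hM z)
  refine (integrableOn_iff_integrable_of_support_subset ?_).1 h2
  intro z hz
  apply subset_tsupport
  intro h0
  apply hz
  simp only [h0, zero_smul]

/-- uniqueness of weak gradients -/
theorem wg_unique {Ω : Set (X n)} (hΩ : IsOpen Ω) {u : X n → ℝ} {G H : X n → E n}
    (hG : LocallyIntegrableOn G Ω volume) (hH : LocallyIntegrableOn H Ω volume)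
    (h1 : WG Ω u G) (h2 : WG Ω u H) : ∀ᵐ z ∂(volume.restrict Ω), G z = H z := by
  have key := IsOpen.ae_eq_zero_of_integral_contDiff_smul_eq_zero (μ := (volume : Measure (X n)))
    (f := fun z => G z - H z) hΩ (hG.sub hH) (fun g g1 g2 g3 => by
      have hg : Tst Ω g := ⟨g1, g2, g3⟩
      have e1 := h1 g hg
      have e2 := h2 g hg
      have e3 : ∫ z, g z • G z = ∫ z, g z • H z := by
        rw [e1] at e2
        exact neg_injective e2
      simp only [smul_sub]
      rw [integral_sub (loc_int_smul hG hg) (loc_int_smul hH hg), e3, sub_self])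
  rw [ae_restrict_iff' hΩ.measurableSet]
  filter_upwards [key] with z hz hzΩ
  exact sub_eq_zero.1 (hz hzΩ)

theorem wt_unique {u g h : X n → ℝ}
    (hg : LocallyIntegrable g volume) (hh : LocallyIntegrable h volume)
    (h1 : WT u g) (h2 : WT u h) : ∀ᵐ z, g z = h z := by
  have hg' := hg.locallyIntegrableOn univ
  have hh' := hh.locallyIntegrableOn univ
  have key := IsOpen.ae_eq_zero_of_integral_contDiff_smul_eq_zero (μ := (volume : Measure (X n)))
    (f := fun z => g z - h z) isOpen_univ (hg'.sub hh') (fun φ g1 g2 g3 => by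
      have hφ : Tst univ φ := ⟨g1, g2, g3⟩
      have e1 := h1 φ hφ
      have e2 := h2 φ hφ
      have e3 : ∫ z, φ z • g z = ∫ z, φ z • h z := by
        rw [e1] at e2
        exact neg_injective e2
      simp only [smul_sub]
      rw [integral_sub (loc_int_smul hg' hφ) (loc_int_smul hh' hφ), e3,
        sub_self])
  filter_upwards [key] with z hz
  exact sub_eq_zero.1 (hz (mem_univ z))

theorem loc_dx_mul {φ η : X n → ℝ} (hφ : ContDiff ℝ ∞ φ) (hη : ContDiff ℝ ∞ η) (z : X n) :
    dx (fun w => φ w * η w) z = φ z • dx η z + η z • dx φ z := by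
  refine ext_inner_right ℝ fun v => ?_
  rw [dx_eq (hφ.mul hη), inner_add_left, real_inner_smul_left, real_inner_smul_left,
    dx_eq hφ, dx_eq hη]
  have d1 : DifferentiableAt ℝ φ z := (hφ.differentiable (by simp)).differentiableAt
  have d2 : DifferentiableAt ℝ η z := (hη.differentiable (by simp)).differentiableAt
  rw [fderiv_fun_mul d1 d2]
  simp

theorem loc_tst_mul {Ω : Set (X n)} {φ η : X n → ℝ} (hφ : ContDiff ℝ ∞ φ) (hη : Tst Ω η) :
    Tst Ω (fun w => φ w * η w) := by
  refine ⟨hφ.mul hη.smooth, hη.cpt.mul_left, ?_⟩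
  exact (tsupport_mul_subset_right).trans hη.supp

/-- a bounded function times a continuous function with compact support in `Ω` -/
theorem loc_bdd {F : Type*} [NormedAddCommGroup F] [NormedSpace ℝ F] {Ω : Set (X n)}
    {u : X n → ℝ} (hu : AEStronglyMeasurable u (volume.restrict Ω))
    {M : ℝ} (hM : ∀ᵐ z ∂(volume.restrict Ω), |u z| ≤ M) {g : X n → F} (hg : Continuous g)
    {K : Set (X n)} (hK : IsCompact K) (hKΩ : K ⊆ Ω) (hgK : ∀ z, z ∉ K → g z = 0)
    (q : ENNReal) :
    MemLp (fun z => u z • g z) q volume := by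
  have hcs : HasCompactSupport g := HasCompactSupport.intro hK hgK
  obtain ⟨N, hN⟩ := hcs.exists_bound_of_continuous hg
  have hb : ∀ᵐ z ∂(volume.restrict Ω), ‖u z • g z‖ ≤ M * N := by
    filter_upwards [hM] with z hz
    rw [norm_smul, Real.norm_eq_abs]
    exact mul_le_mul hz (hN z) (norm_nonneg _) ((abs_nonneg _).trans hz)
  have hbK : ∀ᵐ z ∂(volume.restrict K), ‖u z • g z‖ ≤ M * N := ae_restrict_of_ae_restrict_of_subset hKΩ hb
  have hmK : AEStronglyMeasurable (fun z => u z • g z) (volume.restrict K) :=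
    (hu.mono_set hKΩ).smul hg.aestronglyMeasurable
  have hfin : IsFiniteMeasure ((volume : Measure (X n)).restrict K) :=
    ⟨by rw [Measure.restrict_apply_univ]; exact hK.measure_lt_top⟩
  have h1 : MemLp (fun z => u z • g z) q (volume.restrict K) := MemLp.of_bound hmK (M * N) hbK
  have h2 : (K.indicator fun z => u z • g z) = fun z => u z • g z := by
    apply indicator_eq_self.2
    intro z hz
    by_contra hzK
    apply hz
    simp only [hgK z hzK, smul_zero]
  rw [← h2, memLp_indicator_iff_restrict hK.measurableSet]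
  exact h1

/-- localisation -/
theorem wg_localize {p : ℝ} (hp : 1 < p) {Ω : Set (X n)} (hΩ : IsOpen Ω) {u : X n → ℝ}
    {G : X n → E n} (hu : AEStronglyMeasurable u (volume.restrict Ω))
    (hb : ∃ M : ℝ, ∀ᵐ z ∂(volume.restrict Ω), |u z| ≤ M)
    (hG : ∀ K, IsCompact K → K ⊆ Ω → MemLp G (ENNReal.ofReal p) (volume.restrict K))
    (hw : WG Ω u G) {η : X n → ℝ} (hη : Tst Ω η) :
    W0 p (tsupport η) (fun z => η z * u z) (fun z => η z • G z + u z • dx η z) := by
  obtain ⟨M, hM⟩ := hb
  obtain ⟨c1, s1, c2, s2⟩ := der_tst_int hη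
  have cη := hη.smooth.continuous
  have hK : IsCompact (tsupport η) := hη.cpt
  have m1 : MemLp (fun z => u z • η z) 1 volume :=
    loc_bdd hu hM cη hK hη.supp (fun z hz => image_eq_zero_of_notMem_tsupport hz) 1
  obtain ⟨N, hN⟩ := hη.cpt.exists_bound_of_continuous cη
  have hGint : LocallyIntegrableOn G Ω volume := by
    rw [locallyIntegrableOn_iff hΩ.isLocallyClosed]
    intro K hKΩ hKc
    have hfin : IsFiniteMeasure ((volume : Measure (X n)).restrict K) :=
      ⟨by rw [Measure.restrict_apply_univ]; exact hKc.measure_lt_top⟩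
    refine (hG K hKc hKΩ).integrable ?_
    rw [ENNReal.one_le_ofReal]
    exact hp.le
  refine ⟨?_, ?_, ?_, ?_, ?_⟩
  · refine m1.1.congr (Eventually.of_forall fun z => ?_)
    simp [mul_comm]
  · refine ⟨N * |M|, ?_⟩
    rw [ae_restrict_iff' hΩ.measurableSet] at hM
    have hN0 : 0 ≤ N := (norm_nonneg _).trans (hN 0)
    filter_upwards [hM] with z hz
    by_cases hzΩ : z ∈ Ω
    · rw [abs_mul]
      exact mul_le_mul (hN z) ((hz hzΩ).trans (le_abs_self M)) (abs_nonneg _) hN0
    · have : η z = 0 := image_eq_zero_of_notMem_tsupport (fun h => hzΩ (hη.supp h))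
      rw [this, zero_mul, abs_zero]
      positivity
  · refine Eventually.of_forall fun z hz => ?_
    simp only [image_eq_zero_of_notMem_tsupport hz, zero_mul]
  · refine MemLp.add ?_ (loc_bdd hu hM c1 hK hη.supp (fun z hz => dx_zero_of_notMem z hz) _)
    have h1 : MemLp (fun z => η z • G z) (ENNReal.ofReal p) (volume.restrict (tsupport η)) := by
      refine MemLp.of_le_mul (c := N) (hG _ hK hη.supp)
        (cη.aestronglyMeasurable.smul (hG _ hK hη.supp).1) (Eventually.of_forall fun z => ?_)
      rw [norm_smul]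
      exact mul_le_mul_of_nonneg_right (hN z) (norm_nonneg _)
    have h2 : ((tsupport η).indicator fun z => η z • G z) = fun z => η z • G z := by
      apply indicator_eq_self.2
      intro z hz
      by_contra hzK
      apply hz
      simp only [image_eq_zero_of_notMem_tsupport hzK, zero_smul]
    rw [← h2, memLp_indicator_iff_restrict hK.measurableSet]
    exact h1
  · intro φ hφ
    obtain ⟨d1, t1, d2, t2⟩ := der_tst_int hφ
    have cφ := hφ.smooth.continuous
    have e1 := hw _ (loc_tst_mul hφ.smooth hη)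
    simp only [loc_dx_mul hφ.smooth hη.smooth] at e1
    have i1 : Integrable (fun z => u z • (φ z • dx η z)) volume :=
      memLp_one_iff_integrable.1 (loc_bdd hu hM (cφ.smul c1) hK hη.supp (fun z hz => by
        show φ z • dx η z = 0
        rw [dx_zero_of_notMem z hz, smul_zero]) 1)
    have i2 : Integrable (fun z => u z • (η z • dx φ z)) volume :=
      memLp_one_iff_integrable.1 (loc_bdd hu hM (cη.smul d1) hK hη.supp (fun z hz => by
        show η z • dx φ z = 0
        rw [image_eq_zero_of_notMem_tsupport hz, zero_smul]) 1)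
    have i3 : Integrable (fun z => (φ z * η z) • G z) volume :=
      loc_int_smul hGint (loc_tst_mul hφ.smooth hη)
    simp only [smul_add] at e1 ⊢
    rw [integral_add i1 i2] at e1
    have e2 : ∫ z, (φ z • η z • G z + φ z • u z • dx η z) =
        (∫ z, (φ z * η z) • G z) + ∫ z, u z • (φ z • dx η z) := by
      rw [← integral_add i3 i1]
      refine integral_congr_ae (Eventually.of_forall fun z => ?_)
      simp only [mul_smul]
      rw [smul_comm (φ z) (u z)]
    have e3 : ∫ z, (η z * u z) • dx φ z = ∫ z, u z • (η z • dx φ z) := by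
      refine integral_congr_ae (Eventually.of_forall fun z => ?_)
      simp only [mul_smul]
      rw [smul_comm]
    rw [e3, e2, neg_add, ← e1]
    abel

theorem SupOn.di {p : ℝ} {Ω : Set (X n)} {u : X n → ℝ} {G : X n → E n} (h : SupOn p Ω u G) :
    DI Ω (fun z => - u z) (fun z => - A p (G z)) (fun _ => 0) := by
  intro φ hφ h0
  have h1 := h.ineq φ hφ h0
  have e1 : ∫ z, -u z * dt φ z = - ∫ z, u z * dt φ z := by
    rw [← integral_neg]
    simp only [neg_mul]
  have e2 : ∫ z, inner ℝ (-A p (G z)) (dx φ z) = - ∫ z, inner ℝ (A p (G z)) (dx φ z) := by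
    rw [← integral_neg]
    simp only [inner_neg_left]
  show (- ∫ z, -u z * dt φ z) + ∫ z, inner ℝ (-A p (G z)) (dx φ z) ≤ ∫ z, 0 * φ z
  rw [e1, e2]
  simp only [zero_mul, integral_zero]
  linarith

end PP
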