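import Pool.Agent.PP.MOL
import Pool.Agent.PP.CAL0
import Pool.Agent.PP.CAL1
import Pool.Agent.PP.LOC

open Set Metric Filter Topology MeasureTheory
open scoped ContDiff

noncomputable section

namespace PP

variable {n : ℕ}
variable {p : ℝ} {C D : Set (X n)}

theorem cal2_loc {F : Type*} [NormedAddCommGroup F] {q : ENNReal} (hq : 1 ≤ q) {G : X n → F}
    (hG : MemLp G q volume) {K : Set (X n)} (hK : IsCompact K) : IntegrableOn G K volume := by
  have : IsFiniteMeasure (volume.restrict K) := ⟨by simpa using hK.measure_lt_top⟩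
  exact (hG.restrict K).integrable hq

theorem cal2_one_le {p : ℝ} (hp : 1 < p) : (1 : ENNReal) ≤ ENNReal.ofReal p := by
  rw [← ENNReal.ofReal_one]
  exact ENNReal.ofReal_le_ofReal hp.le

/-- smooth approximation of `W0` functions -/
theorem cal2_mol0 (hp : 1 < p) (hC : Bornology.IsBounded C) {φ : X n → ℝ} {Φ : X n → E n}
    (h : W0 p C φ Φ) : ∃ (f : ℕ → X n → ℝ) (M : ℝ), (∀ k, Tst univ (f k)) ∧
      (∀ᵐ z, |φ z| ≤ M) ∧ (∀ k z, |f k z| ≤ M) ∧
      (∀ᵐ z, Tendsto (fun k => f k z) atTop (𝓝 (φ z))) ∧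
      ∀ K, IsCompact K → Tendsto (fun k => ∫ z in K, ‖dx (f k) z - Φ z‖) atTop (𝓝 0) := by
  obtain ⟨M, hM⟩ := h.bdd
  have hCc : IsCompact (closure C) := hC.isCompact_closure
  obtain ⟨f, h1, h2, _, h4, h5, _⟩ := mol_W0 hp hCc isOpen_univ (subset_univ _)
    (h.mono subset_closure) hM
  refine ⟨f, M, h1, hM, h2, h4, fun K hK => ?_⟩
  refine cal0_L1 hp.le (fun k => ?_) h5 hK
  have := (tst_W1 hp (h1 k)).mem
  exact this.sub h.mem

/-- smooth approximation of `W1` functions -/
theorem cal2_mol1 (hp : 1 < p) (hC : Bornology.IsBounded C) {φ φt : X n → ℝ} {Φ : X n → E n}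
    (h : W1 p C φ φt Φ) : ∃ (f : ℕ → X n → ℝ) (M : ℝ), (∀ k, Tst univ (f k)) ∧
      (∀ᵐ z, |φ z| ≤ M) ∧ (∀ k z, |f k z| ≤ M) ∧
      (∀ᵐ z, Tendsto (fun k => f k z) atTop (𝓝 (φ z))) ∧
      (∀ K, IsCompact K → Tendsto (fun k => ∫ z in K, ‖dt (f k) z - φt z‖) atTop (𝓝 0)) ∧
      ∀ K, IsCompact K → Tendsto (fun k => ∫ z in K, ‖dx (f k) z - Φ z‖) atTop (𝓝 0) := by
  obtain ⟨M, hM⟩ := h.bdd
  have hCc : IsCompact (closure C) := hC.isCompact_closure
  obtain ⟨f, h1, h2, _, h4, h5, h6, _⟩ := mol_W1 hp hCc isOpen_univ (subset_univ _)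
    (h.mono subset_closure) hM
  refine ⟨f, M, h1, hM, h2, h4, fun K hK => ?_, fun K hK => ?_⟩
  · refine cal0_L1 (p := 2) (by norm_num) (fun k => ?_) ?_ hK
    · have h7 := (tst_W1 hp (h1 k)).memt
      have h8 : MemLp (fun z => dt (f k) z - φt z) 2 volume := h7.sub h.memt
      simpa using h8
    · refine h5.congr fun k => ?_
      refine integral_congr_ae (Eventually.of_forall fun z => ?_)
      simp [Real.norm_eq_abs]
  · refine cal0_L1 hp.le (fun k => ?_) h6 hK
    have := (tst_W1 hp (h1 k)).mem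
    exact this.sub h.mem

theorem W0.comp (hp : 1 < p) (hC : Bornology.IsBounded C) {f : ℝ → ℝ} (hf : ContDiff ℝ 1 f)
    (hf0 : f 0 = 0) {φ : X n → ℝ} {Φ : X n → E n} (h : W0 p C φ Φ) :
    W0 p C (fun z => f (φ z)) (fun z => deriv f (φ z) • Φ z) := by
  obtain ⟨g, M, g1, hM, g2, g3, g4⟩ := cal2_mol0 hp hC h
  have hfc := hf.continuous
  have hfd : Continuous (deriv f) := hf.continuous_deriv (by simp)
  obtain ⟨B₀, hB₀⟩ := isCompact_Icc.exists_bound_of_continuousOn (s := Icc (-M) M) hfc.continuousOn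
  obtain ⟨B, hB⟩ := isCompact_Icc.exists_bound_of_continuousOn (s := Icc (-M) M) hfd.continuousOn
  have hmem : MemLp (fun z => deriv f (φ z) • Φ z) (ENNReal.ofReal p) volume := by
    refine h.mem.of_le_mul (c := B) ?_ ?_
    · exact (hfd.comp_aestronglyMeasurable h.meas).smul h.mem.aestronglyMeasurable
    · filter_upwards [hM] with z hz
      rw [norm_smul]
      have := hB (φ z) (abs_le.mp hz)
      gcongr
  refine ⟨hfc.comp_aestronglyMeasurable h.meas, ⟨B₀, ?_⟩, ?_, hmem, ?_⟩
  · filter_upwards [hM] with z hz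
    exact hB₀ (φ z) (abs_le.mp hz)
  · filter_upwards [h.zero] with z hz hzC
    rw [hz hzC, hf0]
  · intro ψ hψ
    obtain ⟨d1, t1, _, _⟩ := der_tst_int hψ
    have gc : ∀ k, Continuous (g k) := fun k => (g1 k).smooth.continuous
    have gd : ∀ k, Continuous (dx (g k)) := fun k => (contDiff_dx (g1 k).smooth).continuous
    refine cal0_lim (M := B₀) (u := fun k z => f (g k z))
      (G := fun k z => deriv f (g k z) • dx (g k) z) ?_ ?_ ?_ ?_ ?_ ?_ hψ.smooth.continuous hψ.cpt
      d1 t1 ?_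
    · intro k
      exact (hfc.comp (gc k)).aestronglyMeasurable
    · intro k
      exact Eventually.of_forall fun z => hB₀ _ (abs_le.mp (g2 k z))
    · filter_upwards [g3] with z hz
      exact (hfc.tendsto _).comp hz
    · intro K hK k
      exact ((hfd.comp (gc k)).smul (gd k)).continuousOn.integrableOn_compact hK
    · intro K hK
      exact cal2_loc (cal2_one_le hp) hmem hK
    · intro K hK
      refine cal0_right (B := B) ?_ ?_ ?_ ?_ ?_ ?_ (g4 K hK)
      · intro k
        exact (hfd.comp (gc k)).aestronglyMeasurable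
      · intro k
        exact Eventually.of_forall fun z => hB _ (abs_le.mp (g2 k z))
      · exact hfd.comp_aestronglyMeasurable h.meas
      · filter_upwards [g3] with z hz
        exact (hfd.tendsto _).comp hz
      · intro k
        exact (gd k).continuousOn.integrableOn_compact hK
      · exact cal2_loc (cal2_one_le hp) h.mem hK
    · intro k
      exact (cal0_chain hf ((g1 k).smooth.of_le (by simp))).1 ψ hψ

theorem W1.comp (hp : 1 < p) (hC : Bornology.IsBounded C) {f : ℝ → ℝ} (hf : ContDiff ℝ 1 f)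
    (hf0 : f 0 = 0) {φ φt : X n → ℝ} {Φ : X n → E n} (h : W1 p C φ φt Φ) :
    W1 p C (fun z => f (φ z)) (fun z => deriv f (φ z) * φt z)
      (fun z => deriv f (φ z) • Φ z) := by
  obtain ⟨g, M, g1, hM, g2, g3, g4, _⟩ := cal2_mol1 hp hC h
  have hfc := hf.continuous
  have hfd : Continuous (deriv f) := hf.continuous_deriv (by simp)
  obtain ⟨B₀, hB₀⟩ := isCompact_Icc.exists_bound_of_continuousOn (s := Icc (-M) M) hfc.continuousOn
  obtain ⟨B, hB⟩ := isCompact_Icc.exists_bound_of_continuousOn (s := Icc (-M) M) hfd.continuousOn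
  have hmem : MemLp (fun z => deriv f (φ z) * φt z) 2 volume := by
    refine h.memt.of_le_mul (c := B) ?_ ?_
    · exact (hfd.comp_aestronglyMeasurable h.meas).mul h.memt.aestronglyMeasurable
    · filter_upwards [hM] with z hz
      rw [norm_mul]
      have := hB (φ z) (abs_le.mp hz)
      gcongr
  refine ⟨h.toW0.comp hp hC hf hf0, hmem, ?_⟩
  intro ψ hψ
  obtain ⟨_, _, d1, t1⟩ := der_tst_int hψ
  have gc : ∀ k, Continuous (g k) := fun k => (g1 k).smooth.continuous
  have gd : ∀ k, Continuous (dt (g k)) := fun k => (contDiff_dt (g1 k).smooth).continuous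
  refine cal0_lim (M := B₀) (u := fun k z => f (g k z))
    (G := fun k z => deriv f (g k z) * dt (g k) z) ?_ ?_ ?_ ?_ ?_ ?_ hψ.smooth.continuous hψ.cpt
    d1 t1 ?_
  · intro k
    exact (hfc.comp (gc k)).aestronglyMeasurable
  · intro k
    exact Eventually.of_forall fun z => hB₀ _ (abs_le.mp (g2 k z))
  · filter_upwards [g3] with z hz
    exact (hfc.tendsto _).comp hz
  · intro K hK k
    exact ((hfd.comp (gc k)).mul (gd k)).continuousOn.integrableOn_compact hK
  · intro K hK
    exact cal2_loc (by norm_num) hmem hK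
  · intro K hK
    refine cal0_right (B := B) ?_ ?_ ?_ ?_ ?_ ?_ (g4 K hK)
    · intro k
      exact (hfd.comp (gc k)).aestronglyMeasurable
    · intro k
      exact Eventually.of_forall fun z => hB _ (abs_le.mp (g2 k z))
    · exact hfd.comp_aestronglyMeasurable h.meas
    · filter_upwards [g3] with z hz
      exact (hfd.tendsto _).comp hz
    · intro k
      exact (gd k).continuousOn.integrableOn_compact hK
    · exact cal2_loc (by norm_num) h.memt hK
  · intro k
    exact (cal0_chain hf ((g1 k).smooth.of_le (by simp))).2 ψ hψ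

/-! ### positive parts -/

theorem cal2_sq_hasDerivAt (x : ℝ) :
    HasDerivAt (fun x : ℝ => (max x 0) ^ 2) (2 * max x 0) x := by
  rcases lt_trichotomy x 0 with hx | hx | hx
  · have h1 : (fun x : ℝ => (max x 0) ^ 2) =ᶠ[𝓝 x] fun _ => 0 := by
      filter_upwards [eventually_lt_nhds hx] with y hy
      rw [max_eq_right hy.le]
      simp
    rw [max_eq_right hx.le, mul_zero]
    exact (hasDerivAt_const x (0 : ℝ)).congr_of_eventuallyEq h1
  · subst hx
    rw [max_self, mul_zero, hasDerivAt_iff_isLittleO_nhds_zero]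
    have h2 : (fun h : ℝ => h ^ 2) =o[𝓝 0] fun h => h := by
      simpa using Asymptotics.isLittleO_pow_id (𝕜 := ℝ) (show 1 < 2 by norm_num)
    refine (Asymptotics.IsBigO.of_bound 1 (Eventually.of_forall fun h => ?_)).trans_isLittleO h2
    simp only [zero_add, max_self, smul_zero, sub_zero, one_mul, norm_pow, Real.norm_eq_abs]
    norm_num
    rcases le_total h 0 with hh | hh
    · rw [max_eq_right hh]
      simp
      positivity
    · rw [max_eq_left hh]
  · have h1 : (fun x : ℝ => (max x 0) ^ 2) =ᶠ[𝓝 x] fun x => x ^ 2 := by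
      filter_upwards [eventually_gt_nhds hx] with y hy
      rw [max_eq_left hy.le]
    rw [max_eq_left hx.le]
    have h3 := (hasDerivAt_pow 2 x).congr_of_eventuallyEq h1
    simpa using h3

/-- smooth approximation of the positive part of `r - c` -/
def cal2_f (c ε r : ℝ) : ℝ := Real.sqrt ((max (r - c) 0) ^ 2 + ε ^ 2) - ε

theorem cal2_f_hasDerivAt {c ε : ℝ} (hε : 0 < ε) (r : ℝ) :
    HasDerivAt (cal2_f c ε) (max (r - c) 0 / Real.sqrt ((max (r - c) 0) ^ 2 + ε ^ 2)) r := by
  have h1 : HasDerivAt (fun r : ℝ => (max (r - c) 0) ^ 2 + ε ^ 2) (2 * max (r - c) 0) r := by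
    have h2 := (cal2_sq_hasDerivAt (r - c)).comp r ((hasDerivAt_id r).sub_const c)
    simpa using h2.add_const (ε ^ 2)
  have h3 : (max (r - c) 0) ^ 2 + ε ^ 2 ≠ 0 := by positivity
  have h4 := (h1.sqrt h3).sub_const ε
  refine h4.congr_deriv ?_
  have h5 : Real.sqrt ((max (r - c) 0) ^ 2 + ε ^ 2) ≠ 0 := by positivity
  field_simp

theorem cal2_f_deriv {c ε : ℝ} (hε : 0 < ε) (r : ℝ) : deriv (cal2_f c ε) r =
    max (r - c) 0 / Real.sqrt ((max (r - c) 0) ^ 2 + ε ^ 2) := (cal2_f_hasDerivAt hε r).deriv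

theorem cal2_f_contDiff {c ε : ℝ} (hε : 0 < ε) : ContDiff ℝ 1 (cal2_f c ε) := by
  rw [contDiff_one_iff_deriv]
  refine ⟨fun r => (cal2_f_hasDerivAt hε r).differentiableAt, ?_⟩
  have h1 : deriv (cal2_f c ε) = fun r =>
      max (r - c) 0 / Real.sqrt ((max (r - c) 0) ^ 2 + ε ^ 2) :=
    funext fun r => cal2_f_deriv hε r
  rw [h1]
  have h2 : Continuous fun r : ℝ => max (r - c) 0 := by fun_prop
  refine h2.div (by fun_prop) fun r => ?_
  positivity

theorem cal2_f_zero {c ε : ℝ} (hε : 0 < ε) (hc : 0 ≤ c) : cal2_f c ε 0 = 0 := by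
  unfold cal2_f
  rw [max_eq_right (by linarith)]
  rw [zero_pow (by norm_num), zero_add, Real.sqrt_sq hε.le, sub_self]

theorem cal2_deriv_le {c ε : ℝ} (hε : 0 < ε) (r : ℝ) : |deriv (cal2_f c ε) r| ≤ 1 := by
  rw [cal2_f_deriv hε]
  have h0 : 0 ≤ max (r - c) 0 := le_max_right _ _
  rw [abs_of_nonneg (by positivity), div_le_one (by positivity)]
  apply Real.le_sqrt_of_sq_le
  have : 0 ≤ ε ^ 2 := by positivity
  linarith

theorem cal2_f_tendsto (c r : ℝ) : Tendsto (fun j : ℕ => cal2_f c (1 / ((j : ℝ) + 1)) r) atTop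
    (𝓝 (max (r - c) 0)) := by
  have h1 := tendsto_one_div_add_atTop_nhds_zero_nat (𝕜 := ℝ)
  have h2 : Continuous fun ε : ℝ => cal2_f c ε r := by
    unfold cal2_f
    fun_prop
  have h3 := (h2.tendsto 0).comp h1
  have h4 : cal2_f c 0 r = max (r - c) 0 := by
    unfold cal2_f
    rw [zero_pow (by norm_num), add_zero, Real.sqrt_sq (le_max_right _ _), sub_zero]
  rw [h4] at h3
  exact h3

theorem cal2_deriv_tendsto (c r : ℝ) :
    Tendsto (fun j : ℕ => deriv (cal2_f c (1 / ((j : ℝ) + 1))) r) atTop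
      (𝓝 (if c < r then 1 else 0)) := by
  have h0 : ∀ j : ℕ, deriv (cal2_f c (1 / ((j : ℝ) + 1))) r =
      max (r - c) 0 / Real.sqrt ((max (r - c) 0) ^ 2 + (1 / ((j : ℝ) + 1)) ^ 2) :=
    fun j => cal2_f_deriv (by positivity) r
  simp only [h0]
  split_ifs with h
  · have h1 := tendsto_one_div_add_atTop_nhds_zero_nat (𝕜 := ℝ)
    have hs : 0 < max (r - c) 0 := by
      rw [max_eq_left (by linarith)]
      linarith
    have h2 : ContinuousAt (fun ε : ℝ => max (r - c) 0 /
        Real.sqrt ((max (r - c) 0) ^ 2 + ε ^ 2)) 0 := by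
      refine ContinuousAt.div continuousAt_const (by fun_prop) ?_
      positivity
    have h3 := h2.tendsto.comp h1
    have h4 : max (r - c) 0 / Real.sqrt ((max (r - c) 0) ^ 2 + (0 : ℝ) ^ 2) = 1 := by
      rw [zero_pow (by norm_num), add_zero, Real.sqrt_sq hs.le, div_self hs.ne']
    rw [h4] at h3
    exact h3
  · have : max (r - c) 0 = 0 := max_eq_right (by linarith)
    simp [this]

theorem cal2_one_div_pos (j : ℕ) : (0 : ℝ) < 1 / ((j : ℝ) + 1) := by positivity

theorem cal2_ind_meas {φ : X n → ℝ} (h : AEStronglyMeasurable φ volume) (c : ℝ) :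
    AEStronglyMeasurable (fun z => if c < φ z then (1 : ℝ) else 0) volume := by
  refine aestronglyMeasurable_of_tendsto_ae atTop
    (f := fun (j : ℕ) z => deriv (cal2_f c (1 / ((j : ℝ) + 1))) (φ z)) (fun j => ?_)
    (Eventually.of_forall fun z => cal2_deriv_tendsto c (φ z))
  exact ((cal2_f_contDiff (cal2_one_div_pos j)).continuous_deriv
    (by simp)).comp_aestronglyMeasurable h

theorem cal2_posc_lim {F : Type*} [NormedAddCommGroup F] [NormedSpace ℝ F] {φ : X n → ℝ}
    (hφ : AEStronglyMeasurable φ volume) {M : ℝ} (hM : ∀ᵐ z, |φ z| ≤ M) {c : ℝ}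
    {G : X n → F} {q : ENNReal} (hq : 1 ≤ q) (hG : MemLp G q volume)
    {ψ : X n → ℝ} {D : X n → F} (hψ : Continuous ψ) (sψ : HasCompactSupport ψ)
    (hD : Continuous D) (sD : HasCompactSupport D)
    (h : ∀ j : ℕ, ∫ z, cal2_f c (1 / ((j : ℝ) + 1)) (φ z) • D z =
      - ∫ z, ψ z • (deriv (cal2_f c (1 / ((j : ℝ) + 1))) (φ z) • G z)) :
    ∫ z, max (φ z - c) 0 • D z = - ∫ z, ψ z • (if c < φ z then G z else 0) := by
  have hcd : ∀ j : ℕ, ContDiff ℝ 1 (cal2_f c (1 / ((j : ℝ) + 1))) :=
    fun j => cal2_f_contDiff (cal2_one_div_pos j)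
  have hind : ∀ z, (if c < φ z then G z else 0) = (if c < φ z then (1 : ℝ) else 0) • G z := by
    intro z
    split_ifs <;> simp
  simp only [hind]
  have hmem : MemLp (fun z => (if c < φ z then (1 : ℝ) else 0) • G z) q volume := by
    refine hG.of_le_mul (c := 1) ((cal2_ind_meas hφ c).smul hG.aestronglyMeasurable) ?_
    refine Eventually.of_forall fun z => ?_
    rw [norm_smul]
    gcongr
    split_ifs <;> simp
  have hmem2 : ∀ j : ℕ, MemLp (fun z => deriv (cal2_f c (1 / ((j : ℝ) + 1))) (φ z) • G z) q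
      volume := by
    intro j
    refine hG.of_le_mul (c := 1) (((hcd j).continuous_deriv
      (by simp)).comp_aestronglyMeasurable hφ |>.smul hG.aestronglyMeasurable) ?_
    refine Eventually.of_forall fun z => ?_
    rw [norm_smul]
    gcongr
    exact cal2_deriv_le (cal2_one_div_pos j) _
  refine cal0_lim (M := M + |c|) (u := fun (j : ℕ) z => cal2_f c (1 / ((j : ℝ) + 1)) (φ z))
    (G := fun (j : ℕ) z => deriv (cal2_f c (1 / ((j : ℝ) + 1))) (φ z) • G z)
    ?_ ?_ ?_ ?_ ?_ ?_ hψ sψ hD sD h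
  · intro j
    exact (hcd j).continuous.comp_aestronglyMeasurable hφ
  · intro j
    filter_upwards [hM] with z hz
    have hs : 0 ≤ max (φ z - c) 0 := le_max_right _ _
    have hs2 : max (φ z - c) 0 ≤ M + |c| := by
      apply max_le
      · have := le_abs_self (φ z)
        have := neg_abs_le c
        linarith
      · have := abs_nonneg (φ z)
        have := abs_nonneg c
        linarith
    have hε := cal2_one_div_pos j
    set ε : ℝ := 1 / ((j : ℝ) + 1)
    have h1 : Real.sqrt ((max (φ z - c) 0) ^ 2 + ε ^ 2) ≤ max (φ z - c) 0 + ε := by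
      rw [Real.sqrt_le_left (by positivity)]
      nlinarith
    have h2 : ε ≤ Real.sqrt ((max (φ z - c) 0) ^ 2 + ε ^ 2) := by
      apply Real.le_sqrt_of_sq_le
      nlinarith
    unfold cal2_f
    rw [abs_le]
    constructor <;> linarith
  · exact Eventually.of_forall fun z => cal2_f_tendsto c (φ z)
  · intro K hK j
    exact cal2_loc hq (hmem2 j) hK
  · intro K hK
    exact cal2_loc hq hmem hK
  · intro K hK
    refine cal0_right (B := 1) (G := fun _ => G) ?_ ?_ (cal2_ind_meas hφ c) ?_ ?_ ?_ ?_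
    · intro j
      exact ((hcd j).continuous_deriv (by simp)).comp_aestronglyMeasurable hφ
    · intro j
      exact Eventually.of_forall fun z => cal2_deriv_le (cal2_one_div_pos j) _
    · exact Eventually.of_forall fun z => cal2_deriv_tendsto c (φ z)
    · intro j
      exact cal2_loc hq hG hK
    · exact cal2_loc hq hG hK
    · simp

theorem W0.posc (hp : 1 < p) (hC : Bornology.IsBounded C) {φ : X n → ℝ} {Φ : X n → E n}
    (h : W0 p C φ Φ) {c : ℝ} (hc : 0 ≤ c) :
    W0 p C (fun z => max (φ z - c) 0) (fun z => if c < φ z then Φ z else 0) := by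
  obtain ⟨M, hM⟩ := h.bdd
  have hind : (fun z => if c < φ z then Φ z else 0) =
      fun z => (if c < φ z then (1 : ℝ) else 0) • Φ z := by
    funext z
    split_ifs <;> simp
  refine ⟨?_, ⟨M + |c|, ?_⟩, ?_, ?_, ?_⟩
  · exact (h.meas.sub aestronglyMeasurable_const).sup aestronglyMeasurable_const
  · filter_upwards [hM] with z hz
    rw [abs_of_nonneg (le_max_right _ _)]
    apply max_le
    · have := le_abs_self (φ z)
      have := neg_abs_le c
      linarith
    · have := abs_nonneg (φ z)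
      have := abs_nonneg c
      linarith
  · filter_upwards [h.zero] with z hz hzC
    rw [hz hzC]
    exact max_eq_right (by linarith)
  · rw [hind]
    refine h.mem.of_le_mul (c := 1) ((cal2_ind_meas h.meas c).smul h.mem.aestronglyMeasurable) ?_
    refine Eventually.of_forall fun z => ?_
    rw [norm_smul]
    gcongr
    split_ifs <;> simp
  · intro ψ hψ
    obtain ⟨d1, t1, _, _⟩ := der_tst_int hψ
    refine cal2_posc_lim h.meas hM (cal2_one_le hp) h.mem hψ.smooth.continuous hψ.cpt d1 t1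
      fun j => ?_
    exact (h.comp hp hC (cal2_f_contDiff (cal2_one_div_pos j))
      (cal2_f_zero (cal2_one_div_pos j) hc)).wg ψ hψ

theorem W1.posc (hp : 1 < p) (hC : Bornology.IsBounded C) {φ φt : X n → ℝ} {Φ : X n → E n}
    (h : W1 p C φ φt Φ) {c : ℝ} (hc : 0 ≤ c) :
    W1 p C (fun z => max (φ z - c) 0) (fun z => if c < φ z then φt z else 0)
      (fun z => if c < φ z then Φ z else 0) := by
  obtain ⟨M, hM⟩ := h.bdd
  have hind : (fun z => if c < φ z then φt z else 0) =
      fun z => (if c < φ z then (1 : ℝ) else 0) • φt z := by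
    funext z
    split_ifs <;> simp
  refine ⟨h.toW0.posc hp hC hc, ?_, ?_⟩
  · rw [hind]
    refine h.memt.of_le_mul (c := 1) ((cal2_ind_meas h.meas c).smul h.memt.aestronglyMeasurable) ?_
    refine Eventually.of_forall fun z => ?_
    rw [norm_smul]
    gcongr
    split_ifs <;> simp
  · intro ψ hψ
    obtain ⟨_, _, d1, t1⟩ := der_tst_int hψ
    refine cal2_posc_lim h.meas hM (q := 2) (by norm_num) h.memt hψ.smooth.continuous hψ.cpt d1 t1
      fun j => ?_
    exact (h.comp hp hC (cal2_f_contDiff (cal2_one_div_pos j))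
      (cal2_f_zero (cal2_one_div_pos j) hc)).wt ψ hψ

theorem W0.pos (hp : 1 < p) (hC : Bornology.IsBounded C) {φ : X n → ℝ} {Φ : X n → E n}
    (h : W0 p C φ Φ) :
    W0 p C (fun z => max (φ z) 0) (fun z => if 0 < φ z then Φ z else 0) := by
  simpa using h.posc hp hC le_rfl

theorem W1.pos (hp : 1 < p) (hC : Bornology.IsBounded C) {φ φt : X n → ℝ} {Φ : X n → E n}
    (h : W1 p C φ φt Φ) :
    W1 p C (fun z => max (φ z) 0) (fun z => if 0 < φ z then φt z else 0)
      (fun z => if 0 < φ z then Φ z else 0) := by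
  simpa using h.posc hp hC le_rfl

theorem cal2_split (r : ℝ) : 1 * max r 0 + -1 * max (-1 * r + 0 * r) 0 = r := by
  rcases le_total r 0 with h | h
  · rw [max_eq_right h, max_eq_left (by linarith)]
    ring
  · rw [max_eq_left h, max_eq_right (by linarith)]
    ring

theorem W0.grad_zero (hp : 1 < p) (hC : Bornology.IsBounded C) {φ : X n → ℝ} {Φ : X n → E n}
    (h : W0 p C φ Φ) : ∀ᵐ z, φ z = 0 → Φ z = 0 := by
  have h1 := h.pos hp hC
  have h2 := (W0.lin hp hC h h (-1) 0).pos hp hC
  have h3 := W0.lin hp hC h1 h2 1 (-1)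
  have h4 := h3.wg
  simp only [cal2_split] at h4
  have := der_haar (n := n)
  have e1 : LocallyIntegrable Φ volume := h.mem.locallyIntegrable (cal2_one_le hp)
  have e2 := h3.mem.locallyIntegrable (cal2_one_le hp)
  have h5 := wg_unique isOpen_univ (e1.locallyIntegrableOn univ) (e2.locallyIntegrableOn univ)
    h.wg h4
  rw [Measure.restrict_univ] at h5
  filter_upwards [h5] with z hz h0
  rw [hz]
  simp [h0]

theorem W1.time_zero (hp : 1 < p) (hC : Bornology.IsBounded C) {φ φt : X n → ℝ} {Φ : X n → E n}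
    (h : W1 p C φ φt Φ) : ∀ᵐ z, φ z = 0 → φt z = 0 := by
  have h1 := h.pos hp hC
  have h2 := (W1.lin hp hC h h (-1) 0).pos hp hC
  have h3 := W1.lin hp hC h1 h2 1 (-1)
  have h4 := h3.wt
  simp only [cal2_split] at h4
  have := der_haar (n := n)
  have e1 : LocallyIntegrable φt volume := h.memt.locallyIntegrable (by norm_num)
  have e2 := h3.memt.locallyIntegrable (by norm_num)
  have h5 := wt_unique e1 e2 h.wt h4
  filter_upwards [h5] with z hz h0
  rw [hz]
  simp [h0]

theorem W0.grad_off (hp : 1 < p) (hC : Bornology.IsBounded C) {φ : X n → ℝ} {Φ : X n → E n}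
    (h : W0 p C φ Φ) : ∀ᵐ z, z ∉ C → Φ z = 0 := by
  filter_upwards [h.zero, h.grad_zero hp hC] with z h1 h2 hz
  exact h2 (h1 hz)

theorem W1.time_off (hp : 1 < p) (hC : Bornology.IsBounded C) {φ φt : X n → ℝ} {Φ : X n → E n}
    (h : W1 p C φ φt Φ) : ∀ᵐ z, z ∉ C → φt z = 0 := by
  filter_upwards [h.zero, h.time_zero hp hC] with z h1 h2 hz
  exact h2 (h1 hz)

end PP
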