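import Pool.Agent.PP.MOL
import Pool.Agent.PP.CAL0
import Pool.Agent.PP.CAL1
import Pool.Agent.PP.CAL2
import Pool.Agent.PP.LOC

open Set Metric Filter Topology MeasureTheory
open scoped ContDiff

noncomputable section

namespace PP

variable {n : ℕ}
variable {p : ℝ} {C D : Set (X n)}

theorem cal3_dt_mul {φ η : X n → ℝ} (hφ : ContDiff ℝ ∞ φ) (hη : ContDiff ℝ ∞ η) (z : X n) :
    dt (fun w => φ w * η w) z = φ z * dt η z + η z * dt φ z := by
  rw [dt_eq (hφ.mul hη), dt_eq hφ, dt_eq hη]
  have d1 : DifferentiableAt ℝ φ z := (hφ.differentiable (by simp)).differentiableAt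
  have d2 : DifferentiableAt ℝ η z := (hη.differentiable (by simp)).differentiableAt
  rw [fderiv_fun_mul d1 d2]
  simp

/-- Leibniz rule in integrated form -/
theorem cal3_leib {F : Type*} [NormedAddCommGroup F] [NormedSpace ℝ F] {u η χ : X n → ℝ}
    {G Dη Dχ : X n → F} {M : ℝ} (hum : AEStronglyMeasurable u volume) (hM : ∀ᵐ z, |u z| ≤ M)
    (cη : Continuous η) (cχ : Continuous χ) (sχ : HasCompactSupport χ) (cDη : Continuous Dη)
    (cDχ : Continuous Dχ) (sDχ : HasCompactSupport Dχ)
    (hG : ∀ K, IsCompact K → IntegrableOn G K volume)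
    (h : ∫ z, u z • (η z • Dχ z + χ z • Dη z) = -∫ z, (η z * χ z) • G z) :
    ∫ z, (η z * u z) • Dχ z = -∫ z, χ z • (η z • G z + u z • Dη z) := by
  have hum' : AEStronglyMeasurable u (volume.restrict univ) := by
    rwa [Measure.restrict_univ]
  have hM' : ∀ᵐ z ∂(volume.restrict univ), |u z| ≤ M := by
    rwa [Measure.restrict_univ]
  have i1 : Integrable (fun z => u z • (η z • Dχ z)) volume :=
    memLp_one_iff_integrable.1 (loc_bdd hum' hM' (cη.smul cDχ) sDχ (subset_univ _)
      (fun z hz => by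
        show η z • Dχ z = 0
        rw [image_eq_zero_of_notMem_tsupport hz, smul_zero]) 1)
  have i2 : Integrable (fun z => u z • (χ z • Dη z)) volume :=
    memLp_one_iff_integrable.1 (loc_bdd hum' hM' (cχ.smul cDη) sχ (subset_univ _)
      (fun z hz => by
        show χ z • Dη z = 0
        rw [image_eq_zero_of_notMem_tsupport hz, zero_smul]) 1)
  have i3 : Integrable (fun z => (η z * χ z) • G z) volume := by
    have cηχ : Continuous fun z => η z * χ z := cη.mul cχ
    have sηχ : HasCompactSupport fun z => η z * χ z := sχ.mul_left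
    obtain ⟨B, hB⟩ := sηχ.exists_bound_of_continuous cηχ
    set K := tsupport (fun z => η z * χ z) with hK
    have hKc : IsCompact K := sηχ
    have e : (fun z => (η z * χ z) • G z) = K.indicator (fun z => (η z * χ z) • G z) := by
      funext z
      by_cases hz : z ∈ K
      · rw [indicator_of_mem hz]
      · have : η z * χ z = 0 := image_eq_zero_of_notMem_tsupport (f := fun z => η z * χ z) hz
        rw [indicator_of_notMem hz, this, zero_smul]
    rw [e, integrable_indicator_iff (isClosed_tsupport _).measurableSet]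
    refine Integrable.mono' ((hG K hKc).norm.const_mul B)
      (cηχ.aestronglyMeasurable.restrict.smul (hG K hKc).aestronglyMeasurable) ?_
    refine Eventually.of_forall fun z => ?_
    rw [norm_smul]
    gcongr
    exact hB z
  simp only [smul_add] at h ⊢
  rw [integral_add i1 i2] at h
  have e2 : ∫ z, (χ z • η z • G z + χ z • u z • Dη z) =
      (∫ z, (η z * χ z) • G z) + ∫ z, u z • (χ z • Dη z) := by
    rw [← integral_add i3 i2]
    refine integral_congr_ae (Eventually.of_forall fun z => ?_)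
    simp only
    rw [smul_comm (χ z) (u z), mul_smul, smul_comm (χ z) (η z)]
  have e3 : ∫ z, (η z * u z) • Dχ z = ∫ z, u z • (η z • Dχ z) := by
    refine integral_congr_ae (Eventually.of_forall fun z => ?_)
    simp only [mul_smul]
    rw [smul_comm]
  rw [e3, e2, neg_add, ← h]
  abel

theorem cal3_wg {u η : X n → ℝ} {G : X n → E n} {M : ℝ} (hum : AEStronglyMeasurable u volume)
    (hM : ∀ᵐ z, |u z| ≤ M) (hG : ∀ K, IsCompact K → IntegrableOn G K volume)
    (hη : ContDiff ℝ ∞ η) (h : WG univ u G) :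
    WG univ (fun z => η z * u z) (fun z => η z • G z + u z • dx η z) := by
  intro χ hχ
  obtain ⟨d1, t1, _, _⟩ := der_tst_int hχ
  refine cal3_leib hum hM hη.continuous hχ.smooth.continuous hχ.cpt
    (contDiff_dx hη).continuous d1 t1 hG ?_
  have h1 := h _ (loc_tst_mul hη hχ)
  simp only [loc_dx_mul hη hχ.smooth] at h1
  exact h1

theorem cal3_wt {u η g : X n → ℝ} {M : ℝ} (hum : AEStronglyMeasurable u volume)
    (hM : ∀ᵐ z, |u z| ≤ M) (hg : ∀ K, IsCompact K → IntegrableOn g K volume)
    (hη : ContDiff ℝ ∞ η) (h : WT u g) :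
    WT (fun z => η z * u z) (fun z => η z * g z + u z * dt η z) := by
  intro χ hχ
  obtain ⟨_, _, d1, t1⟩ := der_tst_int hχ
  refine cal3_leib (F := ℝ) hum hM hη.continuous hχ.smooth.continuous hχ.cpt
    (contDiff_dt hη).continuous d1 t1 hg ?_
  have h1 := h _ (loc_tst_mul hη hχ)
  simp only [cal3_dt_mul hη hχ.smooth] at h1
  exact h1

theorem cal3_bound (hC : Bornology.IsBounded C) {F : Type*} [NormedAddCommGroup F]
    {g : X n → F} (hg : Continuous g) : ∃ B : ℝ, 0 ≤ B ∧ ∀ z ∈ C, ‖g z‖ ≤ B := by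
  obtain ⟨B, hB⟩ := hC.isCompact_closure.exists_bound_of_continuousOn hg.continuousOn
  exact ⟨max B 0, le_max_right _ _, fun z hz => (hB z (subset_closure hz)).trans (le_max_left _ _)⟩

theorem W0.smooth_mul (hp : 1 < p) (hC : Bornology.IsBounded C) {η : X n → ℝ}
    (hη : ContDiff ℝ ∞ η) {φ : X n → ℝ} {Φ : X n → E n} (h : W0 p C φ Φ) :
    W0 p C (fun z => η z * φ z) (fun z => η z • Φ z + φ z • dx η z) := by
  obtain ⟨M, hM⟩ := h.bdd
  obtain ⟨B, hB0, hB⟩ := cal3_bound hC hη.continuous
  obtain ⟨B', hB'0, hB'⟩ := cal3_bound hC (contDiff_dx hη).continuous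
  have hoff := h.grad_off hp hC
  refine ⟨hη.continuous.aestronglyMeasurable.mul h.meas, ⟨B * |M|, ?_⟩, ?_, ?_, ?_⟩
  · filter_upwards [hM, h.zero] with z h1 h2
    by_cases hz : z ∈ C
    · rw [abs_mul]
      exact mul_le_mul (hB z hz) (h1.trans (le_abs_self M)) (abs_nonneg _) hB0
    · rw [h2 hz, mul_zero, abs_zero]
      positivity
  · filter_upwards [h.zero] with z h2 hz
    rw [h2 hz, mul_zero]
  · refine MemLp.add ?_ ?_
    · refine h.mem.of_le_mul (c := B)
        (hη.continuous.aestronglyMeasurable.smul h.mem.aestronglyMeasurable) ?_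
      filter_upwards [hoff] with z h2
      by_cases hz : z ∈ C
      · rw [norm_smul]
        have := hB z hz
        gcongr
      · rw [h2 hz]
        simp
    · refine (h.memLp_fn hC (ENNReal.ofReal p)).of_le_mul (c := B')
        (h.meas.smul (contDiff_dx hη).continuous.aestronglyMeasurable) ?_
      filter_upwards [h.zero] with z h2
      by_cases hz : z ∈ C
      · rw [norm_smul, mul_comm]
        have := hB' z hz
        gcongr
      · rw [h2 hz]
        simp
  · exact cal3_wg h.meas hM (fun K hK => cal2_loc (cal2_one_le hp) h.mem hK) hη h.wg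

theorem W1.smooth_mul (hp : 1 < p) (hC : Bornology.IsBounded C) {η : X n → ℝ}
    (hη : ContDiff ℝ ∞ η) {φ φt : X n → ℝ} {Φ : X n → E n} (h : W1 p C φ φt Φ) :
    W1 p C (fun z => η z * φ z) (fun z => η z * φt z + φ z * dt η z)
      (fun z => η z • Φ z + φ z • dx η z) := by
  obtain ⟨M, hM⟩ := h.bdd
  obtain ⟨B, hB0, hB⟩ := cal3_bound hC hη.continuous
  obtain ⟨B', hB'0, hB'⟩ := cal3_bound hC (contDiff_dt hη).continuous
  have hoff := h.time_off hp hC
  refine ⟨h.toW0.smooth_mul hp hC hη, ?_, ?_⟩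
  · refine MemLp.add ?_ ?_
    · refine h.memt.of_le_mul (c := B)
        (hη.continuous.aestronglyMeasurable.mul h.memt.aestronglyMeasurable) ?_
      filter_upwards [hoff] with z h2
      by_cases hz : z ∈ C
      · rw [norm_mul]
        have := hB z hz
        gcongr
      · rw [h2 hz]
        simp
    · refine (h.memLp_fn hC 2).of_le_mul (c := B')
        (h.meas.mul (contDiff_dt hη).continuous.aestronglyMeasurable) ?_
      filter_upwards [h.zero] with z h2
      by_cases hz : z ∈ C
      · rw [norm_mul, mul_comm]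
        have := hB' z hz
        gcongr
      · rw [h2 hz]
        simp
  · exact cal3_wt h.meas hM (fun K hK => cal2_loc (by norm_num) h.memt hK) hη h.wt

theorem cal3_add {F : Type*} [NormedAddCommGroup F] {K : Set (X n)}
    {P Q : ℕ → X n → F} {P' Q' : X n → F} (hP : ∀ k, IntegrableOn (P k) K volume)
    (hP' : IntegrableOn P' K volume) (hQ : ∀ k, IntegrableOn (Q k) K volume)
    (hQ' : IntegrableOn Q' K volume)
    (h1 : Tendsto (fun k => ∫ z in K, ‖P k z - P' z‖) atTop (𝓝 0))
    (h2 : Tendsto (fun k => ∫ z in K, ‖Q k z - Q' z‖) atTop (𝓝 0)) :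
    Tendsto (fun k => ∫ z in K, ‖(P k z + Q k z) - (P' z + Q' z)‖) atTop (𝓝 0) := by
  have h3 := h1.add h2
  rw [add_zero] at h3
  refine squeeze_zero (fun k => integral_nonneg fun z => norm_nonneg _) (fun k => ?_) h3
  have i1 : Integrable (fun z => ‖P k z - P' z‖) (volume.restrict K) := ((hP k).sub hP').norm
  have i2 : Integrable (fun z => ‖Q k z - Q' z‖) (volume.restrict K) := ((hQ k).sub hQ').norm
  rw [← integral_add i1 i2]
  refine integral_mono_of_nonneg (Eventually.of_forall fun z => norm_nonneg _) (i1.add i2)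
    (Eventually.of_forall fun z => ?_)
  have e : (P k z + Q k z) - (P' z + Q' z) = (P k z - P' z) + (Q k z - Q' z) := by abel
  simp only
  rw [e]
  exact norm_add_le _ _

/-- the product rule, limit step -/
theorem cal3_lim {F : Type*} [NormedAddCommGroup F] [NormedSpace ℝ F] {q r : ENNReal}
    (hq : 1 ≤ q) (hr : 1 ≤ r) {f : ℕ → X n → ℝ} {φ ψ : X n → ℝ} {df : ℕ → X n → F}
    {dφ dψ : X n → F} {M M' : ℝ} (hfc : ∀ k, Continuous (f k)) (hdf : ∀ k, Continuous (df k))
    (hφ : AEStronglyMeasurable φ volume) (hM : ∀ᵐ z, |φ z| ≤ M) (hfM : ∀ k z, |f k z| ≤ M)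
    (hlim : ∀ᵐ z, Tendsto (fun k => f k z) atTop (𝓝 (φ z)))
    (hψ : AEStronglyMeasurable ψ volume) (hM' : ∀ᵐ z, |ψ z| ≤ M')
    (hdφ : MemLp dφ q volume) (hdψ : MemLp dψ r volume)
    (hT : ∀ K, IsCompact K → Tendsto (fun k => ∫ z in K, ‖df k z - dφ z‖) atTop (𝓝 0))
    {χ : X n → ℝ} {Dχ : X n → F} (cχ : Continuous χ) (sχ : HasCompactSupport χ)
    (cD : Continuous Dχ) (sD : HasCompactSupport Dχ)
    (h : ∀ k, ∫ z, (f k z * ψ z) • Dχ z = - ∫ z, χ z • (f k z • dψ z + ψ z • df k z)) :
    ∫ z, (φ z * ψ z) • Dχ z = - ∫ z, χ z • (φ z • dψ z + ψ z • dφ z) := by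
  have a1 : ∀ K, IsCompact K → ∀ k, IntegrableOn (fun z => f k z • dψ z) K volume := by
    intro K hK k
    refine cal2_loc hr (hdψ.of_le_mul (c := M)
      ((hfc k).aestronglyMeasurable.smul hdψ.aestronglyMeasurable) ?_) hK
    refine Eventually.of_forall fun z => ?_
    show ‖f k z • dψ z‖ ≤ M * ‖dψ z‖
    rw [norm_smul]
    exact mul_le_mul_of_nonneg_right (hfM k z) (norm_nonneg _)
  have a2 : ∀ K, IsCompact K → IntegrableOn (fun z => φ z • dψ z) K volume := by
    intro K hK
    refine cal2_loc hr (hdψ.of_le_mul (c := M) (hφ.smul hdψ.aestronglyMeasurable) ?_) hK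
    filter_upwards [hM] with z hz
    show ‖φ z • dψ z‖ ≤ M * ‖dψ z‖
    rw [norm_smul]
    gcongr
    exact hz
  have a3 : ∀ K, IsCompact K → ∀ k, IntegrableOn (fun z => ψ z • df k z) K volume := by
    intro K hK k
    have h1 : IntegrableOn (df k) K volume := (hdf k).continuousOn.integrableOn_compact hK
    refine Integrable.mono' (h1.norm.const_mul M') (hψ.restrict.smul h1.aestronglyMeasurable) ?_
    refine ae_restrict_of_ae ?_
    filter_upwards [hM'] with z hz
    rw [norm_smul]
    gcongr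
    exact hz
  have a4 : ∀ K, IsCompact K → IntegrableOn (fun z => ψ z • dφ z) K volume := by
    intro K hK
    refine cal2_loc hq (hdφ.of_le_mul (c := M') (hψ.smul hdφ.aestronglyMeasurable) ?_) hK
    filter_upwards [hM'] with z hz
    show ‖ψ z • dφ z‖ ≤ M' * ‖dφ z‖
    rw [norm_smul]
    gcongr
    exact hz
  refine cal0_lim (M := M * M') (u := fun k z => f k z * ψ z)
    (G := fun k z => f k z • dψ z + ψ z • df k z) ?_ ?_ ?_ ?_ ?_ ?_ cχ sχ cD sD h
  · intro k
    exact (hfc k).aestronglyMeasurable.mul hψ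
  · intro k
    filter_upwards [hM'] with z hz
    rw [abs_mul]
    exact mul_le_mul (hfM k z) hz (abs_nonneg _) ((abs_nonneg _).trans (hfM k z))
  · filter_upwards [hlim] with z hz
    exact hz.mul_const _
  · intro K hK k
    exact (a1 K hK k).add (a3 K hK k)
  · intro K hK
    exact (a2 K hK).add (a4 K hK)
  · intro K hK
    refine cal3_add (a1 K hK) (a2 K hK) (a3 K hK) (a4 K hK) ?_ ?_
    · refine cal0_right (B := M) (G := fun _ => dψ) (fun k => (hfc k).aestronglyMeasurable)
        (fun k => Eventually.of_forall (hfM k)) hφ hlim (fun k => cal2_loc hr hdψ hK)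
        (cal2_loc hr hdψ hK) ?_
      simp
    · refine cal0_right (B := M') (a := fun _ => ψ) (fun k => hψ) (fun k => hM') hψ
        (Eventually.of_forall fun z => tendsto_const_nhds)
        (fun k => (hdf k).continuousOn.integrableOn_compact hK) (cal2_loc hq hdφ hK) (hT K hK)

theorem W0.mul (hp : 1 < p) (hC : Bornology.IsBounded C) {φ ψ : X n → ℝ} {Φ Ψ : X n → E n}
    (h : W0 p C φ Φ) (h' : W0 p D ψ Ψ) :
    W0 p C (fun z => φ z * ψ z) (fun z => φ z • Ψ z + ψ z • Φ z) := by
  obtain ⟨f, M, f1, hM, f2, f3, f4⟩ := cal2_mol0 hp hC h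
  obtain ⟨M', hM'⟩ := h'.bdd
  refine ⟨h.meas.mul h'.meas, ⟨|M| * |M'|, ?_⟩, ?_, ?_, ?_⟩
  · filter_upwards [hM, hM'] with z h1 h2
    rw [abs_mul]
    exact mul_le_mul (h1.trans (le_abs_self M)) (h2.trans (le_abs_self M')) (abs_nonneg _)
      (abs_nonneg _)
  · filter_upwards [h.zero] with z h2 hz
    rw [h2 hz, zero_mul]
  · refine MemLp.add ?_ ?_
    · refine h'.mem.of_le_mul (c := M) (h.meas.smul h'.mem.aestronglyMeasurable) ?_
      filter_upwards [hM] with z hz
      rw [norm_smul]
      gcongr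
      exact hz
    · refine h.mem.of_le_mul (c := M') (h'.meas.smul h.mem.aestronglyMeasurable) ?_
      filter_upwards [hM'] with z hz
      rw [norm_smul]
      gcongr
      exact hz
  · intro χ hχ
    obtain ⟨d1, t1, _, _⟩ := der_tst_int hχ
    refine cal3_lim (cal2_one_le hp) (cal2_one_le hp) (fun k => (f1 k).smooth.continuous)
      (fun k => (contDiff_dx (f1 k).smooth).continuous) h.meas hM f2 f3 h'.meas hM' h.mem h'.mem
      f4 hχ.smooth.continuous hχ.cpt d1 t1 fun k => ?_
    exact cal3_wg h'.meas hM' (fun K hK => cal2_loc (cal2_one_le hp) h'.mem hK) (f1 k).smooth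
      h'.wg χ hχ

theorem W1.mul (hp : 1 < p) (hC : Bornology.IsBounded C) {φ ψ φt ψt : X n → ℝ}
    {Φ Ψ : X n → E n} (h : W1 p C φ φt Φ) (h' : W1 p D ψ ψt Ψ) :
    W1 p C (fun z => φ z * ψ z) (fun z => φ z * ψt z + ψ z * φt z)
      (fun z => φ z • Ψ z + ψ z • Φ z) := by
  obtain ⟨f, M, f1, hM, f2, f3, f4, _⟩ := cal2_mol1 hp hC h
  obtain ⟨M', hM'⟩ := h'.bdd
  refine ⟨h.toW0.mul hp hC h'.toW0, ?_, ?_⟩
  · refine MemLp.add ?_ ?_
    · refine h'.memt.of_le_mul (c := M) (h.meas.mul h'.memt.aestronglyMeasurable) ?_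
      filter_upwards [hM] with z hz
      rw [norm_mul]
      gcongr
      exact hz
    · refine h.memt.of_le_mul (c := M') (h'.meas.mul h.memt.aestronglyMeasurable) ?_
      filter_upwards [hM'] with z hz
      rw [norm_mul]
      gcongr
      exact hz
  · intro χ hχ
    obtain ⟨_, _, d1, t1⟩ := der_tst_int hχ
    refine cal3_lim (F := ℝ) (q := 2) (r := 2) (by norm_num) (by norm_num)
      (fun k => (f1 k).smooth.continuous)
      (fun k => (contDiff_dt (f1 k).smooth).continuous) h.meas hM f2 f3 h'.meas hM' h.memt h'.memt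
      f4 hχ.smooth.continuous hχ.cpt d1 t1 fun k => ?_
    exact cal3_wt h'.meas hM' (fun K hK => cal2_loc (by norm_num) h'.memt hK) (f1 k).smooth
      h'.wt χ hχ

end PP
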