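import Pool.Agent.PP.EXT2
import Pool.Agent.PP.CAL2
import Pool.Agent.PP.CAL3
import Pool.Agent.PP.LOC
import Pool.Agent.PP.AVG1

open Set Metric Filter Topology MeasureTheory
open scoped ContDiff

noncomputable section

namespace PP

variable {n : ℕ}
variable {p : ℝ}

theorem cmpl_g_deriv (x : ℝ) : HasDerivAt expNegInvGlue (x⁻¹ ^ 2 * expNegInvGlue x) x := by
  have h := expNegInvGlue.hasDerivAt_polynomial_eval_inv_mul 1 x
  simpa using h

theorem cmpl_g_le (x : ℝ) : expNegInvGlue x ≤ 1 := by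
  unfold expNegInvGlue
  split_ifs with h
  · exact zero_le_one
  · push Not at h
    rw [Real.exp_le_one_iff]
    have : 0 < x⁻¹ := inv_pos.2 h
    linarith

theorem cmpl_g_deriv_le (x : ℝ) : x⁻¹ ^ 2 * expNegInvGlue x ≤ 2 := by
  rcases le_or_gt x 0 with h | h
  · rw [expNegInvGlue.zero_of_nonpos h, mul_zero]
    norm_num
  · have h1 : expNegInvGlue x = Real.exp (-x⁻¹) := by
      unfold expNegInvGlue
      rw [if_neg (not_le.2 h)]
    have hy : 0 < x⁻¹ := inv_pos.2 h
    rw [h1, Real.exp_neg]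
    have h2 := Real.quadratic_le_exp_of_nonneg hy.le
    have h3 := Real.exp_pos x⁻¹
    rw [← div_eq_mul_inv, div_le_iff₀ h3]
    nlinarith

theorem cmpl_g_lip (x y : ℝ) : |expNegInvGlue x - expNegInvGlue y| ≤ 2 * |x - y| := by
  have h := Convex.norm_image_sub_le_of_norm_hasDerivWithin_le (f := expNegInvGlue)
    (f' := fun x => x⁻¹ ^ 2 * expNegInvGlue x) (C := 2) (s := univ) (x := y) (y := x)
    (fun x _ => (cmpl_g_deriv x).hasDerivWithinAt) (fun x _ => by
      rw [Real.norm_eq_abs, abs_of_nonneg (mul_nonneg (sq_nonneg _) (expNegInvGlue.nonneg x))]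
      exact cmpl_g_deriv_le x) convex_univ (mem_univ _) (mem_univ _)
  simpa [Real.norm_eq_abs] using h

theorem cmpl_dx_zero {φ : X n → ℝ} {z : X n} {c : ℝ} (h : ∀ᶠ y in 𝓝 z, φ y = c) : dx φ z = 0 := by
  have h2 : Tendsto (fun x : E n => (x, z.2)) (𝓝 z.1) (𝓝 z) := by
    have : Continuous (fun x : E n => (x, z.2)) := by fun_prop
    exact this.tendsto z.1
  have h3 : (fun x => φ (x, z.2)) =ᶠ[𝓝 z.1] fun _ => c := h2.eventually h
  unfold dx gradient
  rw [h3.fderiv_eq]
  simp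

/-- the weight in time -/
def cmplTh (n : ℕ) (a : ℝ) (z : X n) : ℝ := expNegInvGlue (a - z.2)

theorem cmpl_th_smooth (a : ℝ) : ContDiff ℝ ∞ (cmplTh n a) := by
  unfold cmplTh
  have h1 : ContDiff ℝ ∞ (fun z : X n => a - z.2) := contDiff_const.sub contDiff_snd
  exact (expNegInvGlue.contDiff (n := ⊤)).comp h1

theorem cmpl_th_dx (a : ℝ) (z : X n) : dx (cmplTh n a) z = 0 := by
  unfold dx cmplTh gradient
  simp

theorem cmpl_tau (hp : 1 < p) {Ω : Set (X n)} (hΩ : IsOpen Ω) {b : ℝ} {d : X n → ℝ}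
    {Gd Γ : X n → E n} (hm : AEStronglyMeasurable d (volume.restrict Ω))
    (hb : ∀ D, IsCompact D → D ⊆ Ω → ∃ M : ℝ, ∀ᵐ z ∂(volume.restrict D), |d z| ≤ M)
    (hG : ∀ D, IsCompact D → D ⊆ Ω → MemLp Gd (ENNReal.ofReal p) (volume.restrict D))
    (hwg : WG Ω d Gd)
    (hΓ : ∀ D, IsCompact D → D ⊆ Ω → MemLp Γ (ENNReal.ofReal (cj p)) (volume.restrict D))
    (hDI : DI Ω d Γ (fun _ => 0)) (hpos : ∀ᵐ z ∂(volume.restrict Ω), 0 ≤ inner ℝ (Γ z) (Gd z))
    {D₀ : Set (X n)} (hD₀ : IsCompact D₀) (hD₀Ω : D₀ ⊆ Ω)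
    (hc : ∀ᵐ z ∂(volume.restrict Ω), 0 < d z → z.2 < b → z ∈ D₀) :
    ∀ᵐ z ∂(volume.restrict Ω), z.2 < b → d z ≤ 0 := by
  -- an open set with compact closure
  obtain ⟨L, hL, hDL, hLΩ⟩ := exists_compact_between hD₀ hΩ hD₀Ω
  set O : Set (X n) := interior L with hO
  have hOo : IsOpen O := isOpen_interior
  have hOL : O ⊆ L := interior_subset
  have hOΩ : O ⊆ Ω := hOL.trans hLΩ
  obtain ⟨Md, hMd⟩ := hb L hL hLΩ
  have hmO : AEStronglyMeasurable d (volume.restrict O) :=
    hm.mono_measure (Measure.restrict_mono_set _ hOΩ)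
  have hbO : ∃ M : ℝ, ∀ᵐ z ∂(volume.restrict O), |d z| ≤ M :=
    ⟨Md, ae_mono (Measure.restrict_mono_set _ hOL) hMd⟩
  have hGO : ∀ K, IsCompact K → K ⊆ O → MemLp Gd (ENNReal.ofReal p) (volume.restrict K) :=
    fun K hK hKO => hG K hK (hKO.trans hOΩ)
  have hwgO : WG O d Gd := fun φ hφ => hwg φ ⟨hφ.smooth, hφ.cpt, hφ.supp.trans hOΩ⟩
  have hΓO : ∀ K, IsCompact K → K ⊆ O → MemLp Γ (ENNReal.ofReal (cj p)) (volume.restrict K) :=
    fun K hK hKO => hΓ K hK (hKO.trans hOΩ)
  have hDIO : DI O d Γ (fun _ => 0) := fun φ hφ h0 =>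
    hDI φ ⟨hφ.smooth, hφ.cpt, hφ.supp.trans hOΩ⟩ h0
  -- the cut off
  obtain ⟨χ, hχ, hχ01, hχ1⟩ := exists_cutoff hD₀ hOo hDL
  have hχ1' : ∀ z ∈ D₀, ∀ᶠ y in 𝓝 z, χ y = 1 := fun z hz =>
    (eventually_nhdsSet_iff_forall.1 hχ1) z hz
  have hχb : Bornology.IsBounded (tsupport χ) := hχ.cpt.isBounded
  set w : X n → ℝ := fun z => max (χ z * d z) 0 with hw
  set W : X n → E n := fun z => if 0 < χ z * d z then χ z • Gd z + d z • dx χ z else 0 with hW
  have hwW : W0 p (tsupport χ) w W :=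
    W0.pos hp hχb (wg_localize hp hOo hmO hbO hGO hwgO hχ)
  -- almost everywhere facts
  have ha : ∀ᵐ z, z ∈ Ω → 0 < d z → z.2 < b → z ∈ D₀ :=
    (ae_restrict_iff' hΩ.measurableSet).1 hc
  have hpos' : ∀ᵐ z, z ∈ Ω → 0 ≤ inner ℝ (Γ z) (Gd z) :=
    (ae_restrict_iff' hΩ.measurableSet).1 hpos
  have hχO : ∀ z, 0 < χ z → z ∈ O := by
    intro z hz
    exact hχ.supp (subset_tsupport _ (by simpa using hz.ne'))
  have hwD : ∀ᵐ z, z.2 < b → 0 < w z → z ∈ D₀ ∧ w z = d z ∧ W z = Gd z := by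
    filter_upwards [ha] with z hz hzb hwz
    have h1 : 0 < χ z * d z := by
      by_contra hcon
      push Not at hcon
      have : w z = 0 := max_eq_right hcon
      linarith
    have hχz : 0 < χ z := by
      rcases (hχ01 z).1.lt_or_eq with h | h
      · exact h
      · rw [← h, zero_mul] at h1; exact absurd h1 (lt_irrefl _)
    have hdz : 0 < d z := by
      by_contra hcon
      push Not at hcon
      have := mul_nonpos_of_nonneg_of_nonpos hχz.le hcon
      linarith
    have hzD := hz (hOΩ (hχO z hχz)) hdz hzb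
    have e1 : χ z = 1 := (hχ1' z hzD).self_of_nhds
    refine ⟨hzD, ?_, ?_⟩
    · have h2 : w z = χ z * d z := max_eq_left h1.le
      rw [h2, e1, one_mul]
    · have h3 : W z = χ z • Gd z + d z • dx χ z := if_pos h1
      rw [h3, e1, one_smul, cmpl_dx_zero (hχ1' z hzD), smul_zero, add_zero]
  -- `d ≤ w` before the time `b`
  have hdw : ∀ᵐ z, z ∈ O → z.2 < b → d z ≤ w z := by
    filter_upwards [ha] with z hz hzO hzb
    rcases le_or_gt (d z) 0 with h | h
    · exact h.trans (le_max_right _ _)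
    · have hzD := hz (hOΩ hzO) h hzb
      have e1 : χ z = 1 := (hχ1' z hzD).self_of_nhds
      have : χ z * d z = d z := by rw [e1, one_mul]
      calc d z = χ z * d z := this.symm
        _ ≤ w z := le_max_left _ _
  have hw0 : ∀ z, 0 ≤ w z := fun z => le_max_right _ _
  obtain ⟨Mw, hMw⟩ := hwW.bdd
  -- the test function
  set θ : X n → ℝ := cmplTh n b with hθ
  have hθ0 : ∀ z, 0 ≤ θ z := fun z => expNegInvGlue.nonneg _
  have hθ1 : ∀ z, θ z ≤ 1 := fun z => cmpl_g_le _
  have hθc : Continuous θ := (cmpl_th_smooth b).continuous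
  have hθz : ∀ z : X n, ¬ z.2 < b → θ z = 0 := fun z hz =>
    expNegInvGlue.zero_of_nonpos (by linarith [not_lt.1 hz])
  set φ : X n → ℝ := fun z => θ z * w z with hφ
  set Φ : X n → E n := fun z => θ z • W z + w z • dx θ z with hΦ
  have hφ1 : W0 p (tsupport χ) φ Φ := W0.smooth_mul hp hχb (cmpl_th_smooth b) hwW
  have hφ0 : ∀ z, 0 ≤ φ z := fun z => mul_nonneg (hθ0 z) (hw0 z)
  have hφD : ∀ᵐ z, z ∉ D₀ → φ z = 0 := by
    filter_upwards [hwD] with z hz hzD
    by_cases h1 : z.2 < b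
    · rcases (hw0 z).lt_or_eq with h2 | h2
      · exact absurd (hz h1 h2).1 hzD
      · show θ z * w z = 0
        rw [← h2, mul_zero]
    · show θ z * w z = 0
      rw [hθz z h1, zero_mul]
  have hφ2 : W0 p D₀ φ Φ := hφ1.of_zero hφD
  have hΦpos : ∀ᵐ z, 0 ≤ inner ℝ (Γ z) (Φ z) := by
    filter_upwards [hwD, hpos'] with z hz hz2
    show 0 ≤ inner ℝ (Γ z) (θ z • W z + w z • dx θ z)
    rw [cmpl_th_dx, smul_zero, add_zero, inner_smul_right]
    by_cases h1 : z.2 < b
    · rcases (hw0 z).lt_or_eq with h2 | h2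
      · obtain ⟨h3, _, h4⟩ := hz h1 h2
        rw [h4]
        exact mul_nonneg (hθ0 z) (hz2 (hD₀Ω h3))
      · have h5 : W z = 0 := by
          have h6 : ¬ 0 < χ z * d z := by
            intro hcon
            have : w z = χ z * d z := max_eq_left hcon.le
            linarith
          exact if_neg h6
        rw [h5, inner_zero_right, mul_zero]
    · rw [hθz z h1, zero_mul]
  -- the compact neighbourhood
  obtain ⟨δ, hδ, hδO⟩ := hD₀.exists_cthickening_subset_open hOo hDL
  set D₂ : Set (X n) := cthickening δ D₀ with hD₂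
  have hD₂c : IsCompact D₂ := hD₀.cthickening
  have hshift : ∀ s : ℝ, 0 ≤ s → s ≤ δ → ∀ z : X n, ∀ r ∈ Icc 0 s, (z.1, z.2 + r) ∈ D₀ → z ∈ D₂ := by
    intro s _ hsδ z r hr hz
    refine mem_cthickening_of_dist_le z (z.1, z.2 + r) δ D₀ hz ?_
    rw [Prod.dist_eq, dist_self, Real.dist_eq]
    have : |z.2 - (z.2 + r)| = r := by
      rw [show z.2 - (z.2 + r) = -r by ring, abs_neg, abs_of_nonneg hr.1]
    rw [this]
    exact max_le hδ.le (hr.2.trans hsδ)
  -- the main inequality for `s`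
  have hw2 : Integrable (fun z => w z ^ 2) volume := by
    have := (W0.memLp_fn hχb hwW 2).integrable_sq
    exact this
  have hmain : ∀ s : ℝ, 0 < s → s ≤ δ →
      ∫ z, ((θ z - sh s θ z) / s) * w z ^ 2 ≤ -(2 * ∫ z, inner ℝ (Γ z) (av s Φ z)) := by
    intro s hs hsδ
    have h1 := shf_ineq hp hOo hD₀ hD₂c hδO hs (hshift s hs.le hsδ) hmO hbO hΓO
      (fun K _ _ => integrableOn_zero) hDIO hφ2 (Eventually.of_forall hφ0)
    simp only [zero_mul, integral_zero, add_zero] at h1
    obtain ⟨i1, _, i3⟩ := ext2_int hD₂c hδO hs.le (hshift s hs.le hsδ) hmO hbO hφ2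
    have i4 : Integrable (fun z => φ z * (d z - sh (-s) d z)) volume := by
      refine (i1.sub i3).congr (Eventually.of_forall fun z => ?_)
      simp only [Pi.sub_apply]
      ring
    have hq := (ext2_shift_mp (n := n) (-s)).quasiMeasurePreserving
    have hqs := (ext2_shift_mp (n := n) (-s))
    have i5 : Integrable (fun z => θ z * w z ^ 2) volume := by
      refine hw2.bdd_mul (c := 1) hθc.aestronglyMeasurable (Eventually.of_forall fun z => ?_)
      rw [Real.norm_eq_abs, abs_of_nonneg (hθ0 z)]; exact hθ1 z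
    have i6 : Integrable (fun z => θ z * sh (-s) w z ^ 2) volume := by
      have h2 : Integrable (fun z => sh (-s) w z ^ 2) volume :=
        hqs.integrable_comp_of_integrable hw2
      refine h2.bdd_mul (c := 1) hθc.aestronglyMeasurable (Eventually.of_forall fun z => ?_)
      rw [Real.norm_eq_abs, abs_of_nonneg (hθ0 z)]; exact hθ1 z
    have i7 : Integrable (fun z => sh s θ z * w z ^ 2) volume := by
      have hc2 : Continuous (sh s θ) := by
        unfold sh
        exact hθc.comp (by fun_prop)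
      refine hw2.bdd_mul (c := 1) hc2.aestronglyMeasurable (Eventually.of_forall fun z => ?_)
      show ‖θ (z.1, z.2 + s)‖ ≤ 1
      rw [Real.norm_eq_abs, abs_of_nonneg (hθ0 _)]; exact hθ1 _
    have h2 : ∫ z, (θ z * w z ^ 2 - θ z * sh (-s) w z ^ 2) / 2 ≤
        ∫ z, φ z * (d z - sh (-s) d z) := by
      refine integral_mono_ae ((i5.sub i6).div_const 2) i4 ?_
      filter_upwards [hwD, hq.ae hdw] with z hz hz2
      show (θ z * w z ^ 2 - θ z * sh (-s) w z ^ 2) / 2 ≤ θ z * w z * (d z - sh (-s) d z)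
      by_cases h3 : z.2 < b
      · rcases (hw0 z).lt_or_eq with h4 | h4
        · obtain ⟨h5, h6, _⟩ := hz h3 h4
          have h7 : ((z.1, z.2 + -s) : X n) ∈ O := by
            apply hδO
            refine hshift s hs.le hsδ _ s ⟨hs.le, le_rfl⟩ ?_
            simpa using h5
          have h8 : sh (-s) d z ≤ sh (-s) w z := hz2 h7 (by show z.2 + -s < b; linarith)
          rw [← h6]
          have h9 : 0 ≤ sh (-s) w z := hw0 _
          have h10 := hθ0 z
          have h11 : w z * (w z - sh (-s) d z) ≥ (w z ^ 2 - sh (-s) w z ^ 2) / 2 := by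
            nlinarith [sq_nonneg (w z - sh (-s) w z), mul_le_mul_of_nonneg_left h8 h4.le]
          calc (θ z * w z ^ 2 - θ z * sh (-s) w z ^ 2) / 2
              = θ z * ((w z ^ 2 - sh (-s) w z ^ 2) / 2) := by ring
            _ ≤ θ z * (w z * (w z - sh (-s) d z)) := mul_le_mul_of_nonneg_left h11 h10
            _ = θ z * w z * (w z - sh (-s) d z) := by ring
        · rw [← h4]
          have := mul_nonneg (hθ0 z) (sq_nonneg (sh (-s) w z))
          simp only [ne_eq, OfNat.ofNat_ne_zero, not_false_eq_true, zero_pow, mul_zero, zero_sub,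
            zero_mul]
          linarith
      · rw [hθz z h3]
        simp
    have h3 : ∫ z, (θ z * w z ^ 2 - θ z * sh (-s) w z ^ 2) / 2 =
        (∫ z, (θ z - sh s θ z) * w z ^ 2) / 2 := by
      rw [integral_div, integral_sub i5 i6]
      congr 1
      have e1 : ∫ z, θ z * sh (-s) w z ^ 2 = ∫ z, sh s θ z * w z ^ 2 := by
        rw [← ext2_shift_integral (fun z : X n => θ z * sh (-s) w z ^ 2) s]
        congr 1
        funext z
        simp [sh]
      rw [e1, ← integral_sub i5 i7]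
      congr 1
      funext z
      ring
    have h4 : ∫ z, ((θ z - sh s θ z) / s) * w z ^ 2 = s⁻¹ * ∫ z, (θ z - sh s θ z) * w z ^ 2 := by
      rw [← integral_const_mul]
      congr 1
      funext z
      ring
    rw [h3] at h2
    have h5 := mul_le_mul_of_nonneg_left h2 (inv_nonneg.2 hs.le)
    rw [h4]
    linarith
  -- the sequence of steps
  set σ : ℕ → ℝ := fun k => δ / ((k : ℝ) + 1) with hσ
  have hσ0 : ∀ k, 0 < σ k := fun k => by positivity
  have hσδ : ∀ k, σ k ≤ δ := fun k => by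
    apply div_le_self hδ.le
    have : (0 : ℝ) ≤ k := Nat.cast_nonneg k
    linarith
  have hσt : Tendsto σ atTop (𝓝 0) := by
    have := tendsto_one_div_add_atTop_nhds_zero_nat (𝕜 := ℝ)
    have h2 := this.const_mul δ
    rw [mul_zero] at h2
    refine h2.congr fun k => ?_
    simp only [hσ]
    ring
  have hσt' : Tendsto σ atTop (𝓝[≠] 0) :=
    tendsto_nhdsWithin_iff.2 ⟨hσt, Eventually.of_forall fun k => (hσ0 k).ne'⟩
  -- right-hand side
  have hfin : IsFiniteMeasure (volume.restrict D₂) :=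
    ⟨by rw [Measure.restrict_apply_univ]; exact hD₂c.measure_lt_top⟩
  have hR : Tendsto (fun k => ∫ z, inner ℝ (Γ z) (av (σ k) Φ z)) atTop
      (𝓝 (∫ z, inner ℝ (Γ z) (Φ z))) := by
    have hWk : ∀ k, W1 p D₂ (av (σ k) φ) (fun z => (σ k)⁻¹ * (sh (σ k) φ z - φ z)) (av (σ k) Φ) := by
      intro k
      refine W0.avg hp hD₀.isBounded hφ2 (hσ0 k).ne' ?_
      intro z r hr
      rw [uIcc_of_le (hσ0 k).le] at hr
      exact hshift (σ k) (hσ0 k).le (hσδ k) z r hr
    have e1 : ∀ k, ∫ z, inner ℝ (Γ z) (av (σ k) Φ z) =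
        ∫ z in D₂, inner ℝ (Γ z) (av (σ k) Φ z) := by
      intro k
      refine (setIntegral_eq_integral_of_ae_compl_eq_zero ?_).symm
      filter_upwards [W0.grad_off hp hD₂c.isBounded (hWk k).toW0] with z hz hzD
      rw [hz hzD, inner_zero_right]
    have e2 : ∫ z, inner ℝ (Γ z) (Φ z) = ∫ z in D₂, inner ℝ (Γ z) (Φ z) := by
      refine (setIntegral_eq_integral_of_ae_compl_eq_zero ?_).symm
      filter_upwards [W0.grad_off hp hD₀.isBounded hφ2] with z hz hzD
      rw [hz fun h => hzD (self_subset_cthickening _ h), inner_zero_right]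
    simp only [e1, e2]
    refine ext1_space hp (hΓO D₂ hD₂c hδO) (fun k => (hWk k).mem.restrict D₂)
      (hφ2.mem.restrict D₂) ?_
    have h1 := (av_tendsto hp.le hφ2.mem).comp hσt'
    refine squeeze_zero (fun k => integral_nonneg fun z => by positivity) (fun k => ?_) h1
    refine setIntegral_le_integral ?_ (Eventually.of_forall fun z => by positivity)
    have h2 := ((hWk k).mem.sub hφ2.mem).integrable_norm_rpow (by
      rw [Ne, ENNReal.ofReal_eq_zero]; linarith) ENNReal.ofReal_ne_top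
    rw [ENNReal.toReal_ofReal (by linarith)] at h2
    simpa using h2
  -- left-hand side
  have hLim : Tendsto (fun k => ∫ z, ((θ z - sh (σ k) θ z) / σ k) * w z ^ 2) atTop
      (𝓝 (∫ z : X n, ((b - z.2)⁻¹ ^ 2 * expNegInvGlue (b - z.2)) * w z ^ 2)) := by
    refine tendsto_integral_of_dominated_convergence (fun z => 2 * w z ^ 2) ?_ ?_ ?_ ?_
    · intro k
      have hc2 : Continuous (sh (σ k) θ) := by
        unfold sh
        exact hθc.comp (by fun_prop)
      exact ((hθc.sub hc2).div_const _).aestronglyMeasurable.mul hw2.1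
    · exact hw2.const_mul 2
    · intro k
      refine Eventually.of_forall fun z => ?_
      rw [norm_mul, norm_div, Real.norm_eq_abs, Real.norm_eq_abs, Real.norm_eq_abs,
        abs_of_nonneg (sq_nonneg (w z))]
      refine mul_le_mul_of_nonneg_right ?_ (sq_nonneg _)
      rw [abs_of_pos (hσ0 k), div_le_iff₀ (hσ0 k)]
      have h1 := cmpl_g_lip (b - z.2) (b - (z.2 + σ k))
      have h2 : b - z.2 - (b - (z.2 + σ k)) = σ k := by ring
      rw [h2, abs_of_pos (hσ0 k)] at h1
      exact h1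
    · refine Eventually.of_forall fun z => ?_
      refine Tendsto.mul_const _ ?_
      have h1 := (cmpl_g_deriv (b - z.2)).tendsto_slope
      have h2 : Tendsto (fun k => b - z.2 - σ k) atTop (𝓝[≠] (b - z.2)) := by
        refine tendsto_nhdsWithin_iff.2 ⟨?_, Eventually.of_forall fun k => ?_⟩
        · have := hσt.const_sub (b - z.2)
          rwa [sub_zero] at this
        · have := hσ0 k
          simp only [mem_compl_iff, mem_singleton_iff]
          intro hcon
          linarith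
      refine (h1.comp h2).congr fun k => ?_
      simp only [Function.comp_apply, slope_def_field]
      have h3 : b - z.2 - σ k - (b - z.2) = - σ k := by ring
      have h4 : sh (σ k) θ z = expNegInvGlue (b - z.2 - σ k) := by
        show expNegInvGlue (b - (z.2 + σ k)) = _
        congr 1
        ring
      have h5 : θ z = expNegInvGlue (b - z.2) := rfl
      rw [h3, h4, h5]
      have := (hσ0 k).ne'
      field_simp
      ring
  have hfinal : ∫ z : X n, ((b - z.2)⁻¹ ^ 2 * expNegInvGlue (b - z.2)) * w z ^ 2 ≤ 0 := by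
    have h1 := le_of_tendsto_of_tendsto' hLim ((hR.const_mul 2).neg)
      (fun k => hmain (σ k) (hσ0 k) (hσδ k))
    have h2 : 0 ≤ ∫ z, inner ℝ (Γ z) (Φ z) := integral_nonneg_of_ae hΦpos
    linarith
  have hnn : ∀ z : X n, 0 ≤ ((b - z.2)⁻¹ ^ 2 * expNegInvGlue (b - z.2)) * w z ^ 2 := fun z =>
    mul_nonneg (mul_nonneg (sq_nonneg _) (expNegInvGlue.nonneg _)) (sq_nonneg _)
  have hint : Integrable (fun z : X n =>
      ((b - z.2)⁻¹ ^ 2 * expNegInvGlue (b - z.2)) * w z ^ 2) volume := by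
    refine hw2.bdd_mul (c := 2) ?_ (Eventually.of_forall fun z => ?_)
    · have hc1 : Continuous (fun x : ℝ => x⁻¹ ^ 2 * expNegInvGlue x) := by
        have := expNegInvGlue.continuous_polynomial_eval_inv_mul (Polynomial.X ^ 2)
        simpa using this
      exact (hc1.comp (by fun_prop : Continuous fun z : X n => b - z.2)).aestronglyMeasurable
    · rw [Real.norm_eq_abs, abs_of_nonneg (mul_nonneg (sq_nonneg _) (expNegInvGlue.nonneg _))]
      exact cmpl_g_deriv_le _
  have hzero : ∀ᵐ z : X n, ((b - z.2)⁻¹ ^ 2 * expNegInvGlue (b - z.2)) * w z ^ 2 = 0 := by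
    have h1 : ∫ z : X n, ((b - z.2)⁻¹ ^ 2 * expNegInvGlue (b - z.2)) * w z ^ 2 = 0 :=
      le_antisymm hfinal (integral_nonneg hnn)
    exact (integral_eq_zero_iff_of_nonneg hnn hint).1 h1
  rw [ae_restrict_iff' hΩ.measurableSet]
  filter_upwards [hzero, ha] with z hz hz2 hzΩ hzb
  by_contra hcon
  push Not at hcon
  have hzD := hz2 hzΩ hcon hzb
  have e1 : χ z = 1 := (hχ1' z hzD).self_of_nhds
  have e2 : w z = d z := by
    show max (χ z * d z) 0 = d z
    rw [e1, one_mul]
    exact max_eq_left hcon.le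
  rw [e2] at hz
  have h1 : 0 < b - z.2 := by linarith
  have h2 : 0 < ((b - z.2)⁻¹ ^ 2 * expNegInvGlue (b - z.2)) * d z ^ 2 := by
    have := expNegInvGlue.pos_of_pos h1
    positivity
  linarith

/-- comparison lemma -/
theorem cmpl (hp : 1 < p) {Ω : Set (X n)} (hΩ : IsOpen Ω) {b : ℝ} {d : X n → ℝ}
    {Gd Γ : X n → E n} (hm : AEStronglyMeasurable d (volume.restrict Ω))
    (hb : ∀ D, IsCompact D → D ⊆ Ω → ∃ M : ℝ, ∀ᵐ z ∂(volume.restrict D), |d z| ≤ M)
    (hG : ∀ D, IsCompact D → D ⊆ Ω → MemLp Gd (ENNReal.ofReal p) (volume.restrict D))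
    (hwg : WG Ω d Gd)
    (hΓ : ∀ D, IsCompact D → D ⊆ Ω → MemLp Γ (ENNReal.ofReal (cj p)) (volume.restrict D))
    (hDI : DI Ω d Γ (fun _ => 0)) (hpos : ∀ᵐ z ∂(volume.restrict Ω), 0 ≤ inner ℝ (Γ z) (Gd z))
    (hc : ∀ τ > 0, ∃ D, IsCompact D ∧ D ⊆ Ω ∧
      ∀ᵐ z ∂(volume.restrict Ω), 0 < d z → z.2 < b - τ → z ∈ D) :
    ∀ᵐ z ∂(volume.restrict Ω), z.2 < b → d z ≤ 0 := by
  have h1 : ∀ k : ℕ, ∀ᵐ z ∂(volume.restrict Ω), z.2 < b - 1 / ((k : ℝ) + 1) → d z ≤ 0 := by
    intro k
    obtain ⟨D, hD, hDΩ, hcD⟩ := hc (1 / ((k : ℝ) + 1)) (by positivity)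
    exact cmpl_tau hp hΩ hm hb hG hwg hΓ hDI hpos hD hDΩ hcD
  filter_upwards [ae_all_iff.2 h1] with z hz hzb
  obtain ⟨k, hk⟩ := exists_nat_one_div_lt (sub_pos.2 hzb)
  exact hz k (by linarith)

end PP
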