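import Pool.Agent.PP.PW2

open Set Metric Filter Topology MeasureTheory
open scoped ContDiff

noncomputable section

namespace PP

variable {n : ℕ}

theorem lps_cj_pos {p : ℝ} (hp : 1 < p) : 0 < cj p := by
  unfold cj
  exact div_pos (by linarith) (by linarith)

theorem lps_holder {p : ℝ} (hp : 1 < p) : (cj p).HolderConjugate p := by
  have := (Real.HolderConjugate.conjExponent hp).symm
  simpa [Real.conjExponent, cj] using this

theorem lps_norm_flux {p : ℝ} (hp : 1 < p) (a : E n) : ‖A p a‖ ^ cj p = ‖a‖ ^ p := by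
  rw [norm_A hp, ← Real.rpow_mul (norm_nonneg _)]
  congr 1
  unfold cj
  field_simp [show p - 1 ≠ 0 by linarith]

theorem lps_int_iff {p : ℝ} (hp : 0 < p) {F : Type*} [NormedAddCommGroup F] {μ : Measure (X n)}
    {G : X n → F} (hG : AEStronglyMeasurable G μ) :
    Integrable (fun z => ‖G z‖ ^ p) μ ↔ MemLp G (ENNReal.ofReal p) μ := by
  have h := integrable_norm_rpow_iff (p := ENNReal.ofReal p) hG (by simp [hp]) (by simp)
  rwa [ENNReal.toReal_ofReal hp.le] at h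

theorem memLp_flux {p : ℝ} (hp : 1 < p) {μ : Measure (X n)} {G : X n → E n}
    (hG : MemLp G (ENNReal.ofReal p) μ) :
    MemLp (fun z => A p (G z)) (ENNReal.ofReal (cj p)) μ := by
  have hm : AEStronglyMeasurable (fun z => A p (G z)) μ :=
    (continuous_A hp).comp_aestronglyMeasurable hG.1
  rw [← lps_int_iff (lps_cj_pos hp) hm]
  simp_rw [lps_norm_flux hp]
  exact (lps_int_iff (by linarith) hG.1).2 hG

theorem integral_flux {p : ℝ} (hp : 1 < p) {μ : Measure (X n)} {G : X n → E n} :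
    ∫ z, ‖A p (G z)‖ ^ cj p ∂μ = ∫ z, ‖G z‖ ^ p ∂μ := by
  simp_rw [lps_norm_flux hp]

/-- Hölder -/
theorem holder_inner {p : ℝ} (hp : 1 < p) {μ : Measure (X n)} {G H : X n → E n}
    (hG : MemLp G (ENNReal.ofReal (cj p)) μ) (hH : MemLp H (ENNReal.ofReal p) μ) :
    Integrable (fun z => inner ℝ (G z) (H z)) μ ∧
    |∫ z, inner ℝ (G z) (H z) ∂μ| ≤
      (∫ z, ‖G z‖ ^ cj p ∂μ) ^ (1 / cj p) * (∫ z, ‖H z‖ ^ p ∂μ) ^ (1 / p) := by
  have hpq := lps_holder hp
  haveI : (ENNReal.ofReal (cj p)).HolderConjugate (ENNReal.ofReal p) := hpq.ennrealOfReal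
  have hGn : MemLp (fun z => ‖G z‖) (ENNReal.ofReal (cj p)) μ := hG.norm
  have hHn : MemLp (fun z => ‖H z‖) (ENNReal.ofReal p) μ := hH.norm
  have hprod : Integrable (fun z => ‖G z‖ * ‖H z‖) μ := hGn.integrable_mul hHn
  have hint : Integrable (fun z => inner ℝ (G z) (H z)) μ := by
    apply hprod.mono' (hG.1.inner hH.1)
    filter_upwards with z
    exact norm_inner_le_norm _ _
  refine ⟨hint, ?_⟩
  calc |∫ z, inner ℝ (G z) (H z) ∂μ| ≤ ∫ z, |inner ℝ (G z) (H z)| ∂μ := abs_integral_le_integral_abs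
    _ ≤ ∫ z, ‖G z‖ * ‖H z‖ ∂μ := by
        apply integral_mono hint.abs hprod
        intro z
        exact abs_real_inner_le_norm _ _
    _ ≤ _ := by
        apply integral_mul_le_Lp_mul_Lq_of_nonneg hpq
        · filter_upwards with z
          exact norm_nonneg _
        · filter_upwards with z
          exact norm_nonneg _
        · exact hGn
        · exact hHn

theorem lps_split {μ : Measure (X n)} {f g h : X n → ℝ} (hf : Integrable f μ)
    (hg : Integrable g μ) (hh : Integrable h μ) (C δ : ℝ) :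
    ∫ z, (C * f z + δ * (g z + h z)) ∂μ = C * (∫ z, f z ∂μ) + δ * ((∫ z, g z ∂μ) + ∫ z, h z ∂μ) := by
  have h1 : Integrable (fun z => g z + h z) μ := hg.add hh
  rw [integral_add (hf.const_mul C) (h1.const_mul δ), integral_const_mul, integral_const_mul,
    integral_add hg hh]

theorem lps_split_int {μ : Measure (X n)} {f g h : X n → ℝ} (hf : Integrable f μ)
    (hg : Integrable g μ) (hh : Integrable h μ) (C δ : ℝ) :
    Integrable (fun z => C * f z + δ * (g z + h z)) μ := by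
  have h1 : Integrable (fun z => g z + h z) μ := hg.add hh
  exact (hf.const_mul C).add (h1.const_mul δ)

theorem lps {p : ℝ} (hp : 1 < p) (K δ : ℝ) (hδ : 0 < δ) : ∃ η > 0, ∀ (ζ : X n → ℝ) (G H : X n → E n),
    Measurable ζ → (∀ z, 0 ≤ ζ z) → (∀ z, ζ z ≤ 1) →
    MemLp G (ENNReal.ofReal p) volume → MemLp H (ENNReal.ofReal p) volume →
    ∫ z, ‖G z‖ ^ p ≤ K → ∫ z, ‖H z‖ ^ p ≤ K →
    ∫ z, ζ z * inner ℝ (A p (G z) - A p (H z)) (G z - H z) ≤ η →
    ∫ z, ζ z * ‖G z - H z‖ ^ p ≤ δ := by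
  have hp0 : 0 < p := by linarith
  set δ' : ℝ := δ / (2 * (2 * |K| + 1)) with hδ'
  have hK1 : 0 < 2 * |K| + 1 := by positivity
  have hδ'0 : 0 < δ' := by positivity
  obtain ⟨C, hC, hq⟩ := A_quant (n := n) hp δ' hδ'0
  refine ⟨δ / (2 * C), by positivity, ?_⟩
  intro ζ G H hζm hζ0 hζ1 hG hH hGK hHK hI
  have hiG : Integrable (fun z => ‖G z‖ ^ p) volume := (lps_int_iff hp0 hG.1).2 hG
  have hiH : Integrable (fun z => ‖H z‖ ^ p) volume := (lps_int_iff hp0 hH.1).2 hH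
  have hiD : Integrable (fun z => ‖G z - H z‖ ^ p) volume :=
    (lps_int_iff hp0 (hG.sub hH).1).2 (hG.sub hH)
  have hin : Integrable (fun z => inner ℝ (A p (G z) - A p (H z)) (G z - H z)) volume :=
    (holder_inner hp ((memLp_flux hp hG).sub (memLp_flux hp hH)) (hG.sub hH)).1
  have hmul : ∀ f : X n → ℝ, Integrable f volume → Integrable (fun z => ζ z * f z) volume := by
    intro f hf
    apply hf.bdd_mul hζm.aestronglyMeasurable (c := 1)
    filter_upwards with z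
    rw [Real.norm_of_nonneg (hζ0 z)]
    exact hζ1 z
  have h1 : ∫ z, ζ z * ‖G z - H z‖ ^ p ≤
      ∫ z, (C * (ζ z * inner ℝ (A p (G z) - A p (H z)) (G z - H z)) +
        δ' * (‖G z‖ ^ p + ‖H z‖ ^ p)) := by
    apply integral_mono (hmul _ hiD) (lps_split_int (hmul _ hin) hiG hiH C δ')
    intro z
    have h2 := mul_le_mul_of_nonneg_left (hq (G z) (H z)) (hζ0 z)
    have h3 : 0 ≤ ‖G z‖ ^ p + ‖H z‖ ^ p :=
      add_nonneg (Real.rpow_nonneg (norm_nonneg _) _) (Real.rpow_nonneg (norm_nonneg _) _)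
    have h4 : ζ z * (δ' * (‖G z‖ ^ p + ‖H z‖ ^ p)) ≤ δ' * (‖G z‖ ^ p + ‖H z‖ ^ p) := by
      have : 0 ≤ δ' * (‖G z‖ ^ p + ‖H z‖ ^ p) := by positivity
      exact mul_le_of_le_one_left this (hζ1 z)
    show ζ z * ‖G z - H z‖ ^ p ≤ C * (ζ z * inner ℝ (A p (G z) - A p (H z)) (G z - H z)) +
        δ' * (‖G z‖ ^ p + ‖H z‖ ^ p)
    calc ζ z * ‖G z - H z‖ ^ p ≤ _ := h2
      _ = C * (ζ z * inner ℝ (A p (G z) - A p (H z)) (G z - H z)) +
          ζ z * (δ' * (‖G z‖ ^ p + ‖H z‖ ^ p)) := by ring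
      _ ≤ _ := by linarith
  rw [lps_split (hmul _ hin) hiG hiH C δ'] at h1
  have h5 : C * ∫ z, ζ z * inner ℝ (A p (G z) - A p (H z)) (G z - H z) ≤ δ / 2 := by
    calc _ ≤ C * (δ / (2 * C)) := mul_le_mul_of_nonneg_left hI hC.le
      _ = δ / 2 := by field_simp
  have h6 : δ' * ((∫ z, ‖G z‖ ^ p) + ∫ z, ‖H z‖ ^ p) ≤ δ / 2 := by
    have h7 : (∫ z, ‖G z‖ ^ p) + ∫ z, ‖H z‖ ^ p ≤ 2 * |K| + 1 := by
      have := le_abs_self K
      linarith
    calc _ ≤ δ' * (2 * |K| + 1) := mul_le_mul_of_nonneg_left h7 hδ'0.le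
      _ = δ / 2 := by rw [hδ']; field_simp
  linarith

/-- Homogeneity and compactness, second form. -/
theorem lps_gen {p : ℝ} (hp : 1 < p) (F Q : E n × E n → ℝ) (hc : Continuous F)
    (hcQ : Continuous Q) (h0 : ∀ x, 0 ≤ F x) (hs : ∀ a b : E n, F (a, b) = 0 → Q (a, b) ≤ 0)
    (hh : ∀ (t : ℝ) (a b : E n), 0 < t → F (t • a, t • b) = t ^ p * F (a, b))
    (hhQ : ∀ (t : ℝ) (a b : E n), 0 < t → Q (t • a, t • b) = t ^ p * Q (a, b))
    (δ : ℝ) (hδ : 0 < δ) : ∃ C : ℝ, 0 < C ∧ ∀ a b : E n,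
    Q (a, b) ≤ C * F (a, b) + δ * (‖a‖ ^ p + ‖b‖ ^ p) := by
  have hp0 : 0 < p := by linarith
  set S : Set (E n × E n) := {x | ‖x.1‖ ^ p + ‖x.2‖ ^ p = 1 ∧ δ ≤ Q x} with hS
  have hcn : Continuous fun x : E n × E n => ‖x.1‖ ^ p :=
    (Real.continuous_rpow_const hp0.le).comp (continuous_norm.comp continuous_fst)
  have hcn2 : Continuous fun x : E n × E n => ‖x.2‖ ^ p :=
    (Real.continuous_rpow_const hp0.le).comp (continuous_norm.comp continuous_snd)
  have hle1 : ∀ y : ℝ, 0 ≤ y → y ^ p ≤ 1 → y ≤ 1 := by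
    intro y hy h
    by_contra hcon
    push Not at hcon
    have := Real.one_lt_rpow hcon hp0
    linarith
  have hSn : ∀ x ∈ S, ‖x.1‖ ≤ 1 ∧ ‖x.2‖ ≤ 1 := by
    intro x hx
    have h1 : 0 ≤ ‖x.1‖ ^ p := Real.rpow_nonneg (norm_nonneg _) _
    have h2 : 0 ≤ ‖x.2‖ ^ p := Real.rpow_nonneg (norm_nonneg _) _
    have h3 := hx.1
    exact ⟨hle1 _ (norm_nonneg _) (by linarith), hle1 _ (norm_nonneg _) (by linarith)⟩
  have hScl : IsClosed S :=
    (isClosed_eq (hcn.add hcn2) continuous_const).inter (isClosed_le continuous_const hcQ)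
  have hSc : IsCompact S := by
    apply Metric.isCompact_of_isClosed_isBounded hScl
    apply (Metric.isBounded_closedBall (x := (0 : E n × E n)) (r := 1)).subset
    intro x hx
    rw [mem_closedBall_zero_iff, Prod.norm_def]
    exact max_le (hSn x hx).1 (hSn x hx).2
  obtain ⟨c, hc0, hcS⟩ : ∃ c : ℝ, 0 < c ∧ ∀ x ∈ S, c ≤ F x := by
    rcases S.eq_empty_or_nonempty with he | hne
    · exact ⟨1, one_pos, fun x hx => by rw [he] at hx; exact absurd hx (Set.notMem_empty _)⟩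
    · obtain ⟨x, hx, hmin⟩ := hSc.exists_isMinOn hne hc.continuousOn
      refine ⟨F x, ?_, fun y hy => hmin hy⟩
      rcases eq_or_lt_of_le (h0 x) with h | h
      · exfalso
        have h1 : Q x ≤ 0 := hs x.1 x.2 (by simpa using h.symm)
        have h2 := hx.2
        linarith
      · exact h
  obtain ⟨M, hM0, hMS⟩ : ∃ M : ℝ, 0 < M ∧ ∀ x ∈ S, Q x ≤ M := by
    rcases S.eq_empty_or_nonempty with he | hne
    · exact ⟨1, one_pos, fun x hx => by rw [he] at hx; exact absurd hx (Set.notMem_empty _)⟩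
    · obtain ⟨x, hx, hmax⟩ := hSc.exists_isMaxOn hne hcQ.continuousOn
      exact ⟨Q x, lt_of_lt_of_le hδ hx.2, fun y hy => hmax hy⟩
  refine ⟨M / c, by positivity, ?_⟩
  intro a b
  have ha : 0 ≤ ‖a‖ ^ p := Real.rpow_nonneg (norm_nonneg _) _
  have hb : 0 ≤ ‖b‖ ^ p := Real.rpow_nonneg (norm_nonneg _) _
  have hCF : 0 ≤ M / c * F (a, b) := mul_nonneg (by positivity) (h0 _)
  rcases eq_or_lt_of_le (add_nonneg ha hb) with hN | hN
  · have ha0 : ‖a‖ ^ p = 0 := by linarith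
    have hb0 : ‖b‖ ^ p = 0 := by linarith
    have ha1 : a = 0 := norm_eq_zero.1 ((Real.rpow_eq_zero (norm_nonneg _) hp0.ne').1 ha0)
    have hb1 : b = 0 := norm_eq_zero.1 ((Real.rpow_eq_zero (norm_nonneg _) hp0.ne').1 hb0)
    have hQ0 : Q (a, b) ≤ 0 := by
      have h2 : (2 : ℝ) ^ p * Q (0, 0) = Q (0, 0) := by
        rw [← hhQ 2 0 0 two_pos]
        simp
      have h3 : (1 : ℝ) < 2 ^ p := Real.one_lt_rpow (by norm_num) hp0
      have h4 : ((2 : ℝ) ^ p - 1) * Q (0, 0) = 0 := by linarith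
      rcases mul_eq_zero.1 h4 with h5 | h5
      · linarith
      · rw [ha1, hb1, h5]
    rw [← hN, mul_zero, add_zero]
    linarith
  · set N := ‖a‖ ^ p + ‖b‖ ^ p with hNdef
    set t : ℝ := N ^ (-(1 / p)) with ht
    have htpos : 0 < t := Real.rpow_pos_of_pos hN _
    have htp : t ^ p = N⁻¹ := by
      rw [ht, ← Real.rpow_mul hN.le]
      have : -(1 / p) * p = -1 := by field_simp
      rw [this, Real.rpow_neg_one]
    have hsc : Q (a, b) = N * Q (t • a, t • b) := by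
      rw [hhQ t a b htpos, htp, ← mul_assoc, mul_inv_cancel₀ hN.ne', one_mul]
    have hone : ‖t • a‖ ^ p + ‖t • b‖ ^ p = 1 := by
      rw [pw2_norm_smul_rpow htpos, pw2_norm_smul_rpow htpos, htp, ← mul_add, ← hNdef,
        inv_mul_cancel₀ hN.ne']
    by_cases hd : δ ≤ Q (t • a, t • b)
    · have hmem : ((t • a, t • b) : E n × E n) ∈ S := ⟨hone, hd⟩
      have h1 := hcS _ hmem
      have h3 := hMS _ hmem
      rw [hh t a b htpos, htp] at h1
      have h4 : c * N ≤ F (a, b) := by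
        have := mul_le_mul_of_nonneg_left h1 hN.le
        rw [← mul_assoc, mul_inv_cancel₀ hN.ne', one_mul] at this
        linarith
      have h5 : N * M ≤ M / c * F (a, b) := by
        rw [div_mul_eq_mul_div, le_div_iff₀ hc0]
        nlinarith
      rw [hsc]
      have h6 : N * Q (t • a, t • b) ≤ N * M := mul_le_mul_of_nonneg_left h3 hN.le
      have h7 : 0 ≤ δ * N := by positivity
      linarith
    · push Not at hd
      rw [hsc]
      have h6 : N * Q (t • a, t • b) ≤ N * δ := mul_le_mul_of_nonneg_left hd.le hN.le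
      nlinarith

theorem lps_flux_quant {p : ℝ} (hp : 1 < p) (δ : ℝ) (hδ : 0 < δ) : ∃ C : ℝ, 0 < C ∧ ∀ a b : E n,
    ‖A p a - A p b‖ ^ cj p ≤ C * ‖a - b‖ ^ p + δ * (‖a‖ ^ p + ‖b‖ ^ p) := by
  have hp0 : 0 < p := by linarith
  have hc0 := lps_cj_pos hp
  refine lps_gen hp (fun x : E n × E n => ‖x.1 - x.2‖ ^ p)
    (fun x : E n × E n => ‖A p x.1 - A p x.2‖ ^ cj p) ?_ ?_ ?_ ?_ ?_ ?_ δ hδ
  · exact (Real.continuous_rpow_const hp0.le).comp
      (continuous_norm.comp (continuous_fst.sub continuous_snd))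
  · have h1 : Continuous fun x : E n × E n => A p x.1 := (continuous_A hp).comp continuous_fst
    have h2 : Continuous fun x : E n × E n => A p x.2 := (continuous_A hp).comp continuous_snd
    exact (Real.continuous_rpow_const hc0.le).comp (continuous_norm.comp (h1.sub h2))
  · intro x
    exact Real.rpow_nonneg (norm_nonneg _) _
  · intro a b h
    have h1 : ‖a - b‖ = 0 := (Real.rpow_eq_zero (norm_nonneg _) hp0.ne').1 h
    have h2 : a = b := sub_eq_zero.1 (norm_eq_zero.1 h1)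
    subst h2
    simp only [sub_self, norm_zero]
    rw [Real.zero_rpow hc0.ne']
  · intro t a b ht
    show ‖t • a - t • b‖ ^ p = t ^ p * ‖a - b‖ ^ p
    rw [← smul_sub, pw2_norm_smul_rpow ht]
  · intro t a b ht
    show ‖A p (t • a) - A p (t • b)‖ ^ cj p = t ^ p * ‖A p a - A p b‖ ^ cj p
    rw [pw2_A_smul ht, pw2_A_smul ht, ← smul_sub,
      pw2_norm_smul_rpow (Real.rpow_pos_of_pos ht _), ← Real.rpow_mul ht.le]
    congr 2
    unfold cj
    field_simp [show p - 1 ≠ 0 by linarith]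

theorem lps_add_rpow {p : ℝ} (hp : 1 < p) (a b : E n) :
    ‖a‖ ^ p ≤ 2 ^ p * (‖a - b‖ ^ p + ‖b‖ ^ p) := by
  have hp0 : 0 < p := by linarith
  have h1 : ‖a‖ ≤ 2 * max ‖a - b‖ ‖b‖ := by
    have h2 : ‖a‖ ≤ ‖a - b‖ + ‖b‖ := by
      have := norm_add_le (a - b) b
      simpa using this
    have h3 := le_max_left ‖a - b‖ ‖b‖
    have h4 := le_max_right ‖a - b‖ ‖b‖
    linarith
  have h5 : ‖a‖ ^ p ≤ (2 * max ‖a - b‖ ‖b‖) ^ p := Real.rpow_le_rpow (norm_nonneg _) h1 hp0.le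
  rw [Real.mul_rpow two_pos.le (le_max_of_le_left (norm_nonneg _))] at h5
  have h6 : (max ‖a - b‖ ‖b‖) ^ p ≤ ‖a - b‖ ^ p + ‖b‖ ^ p := by
    have ha := Real.rpow_nonneg (norm_nonneg (a - b)) p
    have hb := Real.rpow_nonneg (norm_nonneg b) p
    rcases max_choice ‖a - b‖ ‖b‖ with h | h
    · rw [h]; linarith
    · rw [h]; linarith
  have h7 : (0 : ℝ) < 2 ^ p := Real.rpow_pos_of_pos two_pos p
  calc ‖a‖ ^ p ≤ _ := h5
    _ ≤ _ := mul_le_mul_of_nonneg_left h6 h7.le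

/-- strong convergence in `L^p` implies strong convergence of the fluxes in the dual space -/
theorem flux_tendsto {p : ℝ} (hp : 1 < p) {S : Set (X n)} (hS : MeasurableSet S)
    {G : ℕ → X n → E n} {H : X n → E n}
    (hG : ∀ k, MemLp (G k) (ENNReal.ofReal p) (volume.restrict S))
    (hH : MemLp H (ENNReal.ofReal p) (volume.restrict S))
    (h : Tendsto (fun k => ∫ z in S, ‖G k z - H z‖ ^ p) atTop (𝓝 0)) :
    Tendsto (fun k => ∫ z in S, ‖A p (G k z) - A p (H z)‖ ^ cj p) atTop (𝓝 0) := by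
  have hp0 : 0 < p := by linarith
  have h2p : (0 : ℝ) < 2 ^ p := Real.rpow_pos_of_pos two_pos p
  set I : ℝ := ∫ z in S, ‖H z‖ ^ p with hI
  have hI0 : 0 ≤ I := integral_nonneg fun z => Real.rpow_nonneg (norm_nonneg _) _
  have hnn : ∀ k, 0 ≤ ∫ z in S, ‖A p (G k z) - A p (H z)‖ ^ cj p := fun k =>
    integral_nonneg fun z => Real.rpow_nonneg (norm_nonneg _) _
  have hiG : ∀ k, Integrable (fun z => ‖G k z‖ ^ p) (volume.restrict S) := fun k =>
    (lps_int_iff hp0 (hG k).1).2 (hG k)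
  have hiH : Integrable (fun z => ‖H z‖ ^ p) (volume.restrict S) := (lps_int_iff hp0 hH.1).2 hH
  have hiD : ∀ k, Integrable (fun z => ‖G k z - H z‖ ^ p) (volume.restrict S) := fun k =>
    (lps_int_iff hp0 ((hG k).sub hH).1).2 ((hG k).sub hH)
  have hiA : ∀ k, Integrable (fun z => ‖A p (G k z) - A p (H z)‖ ^ cj p) (volume.restrict S) :=
    fun k => (lps_int_iff (lps_cj_pos hp)
      ((memLp_flux hp (hG k)).sub (memLp_flux hp hH)).1).2
      ((memLp_flux hp (hG k)).sub (memLp_flux hp hH))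
  have hGk : ∀ k, ∫ z in S, ‖G k z‖ ^ p ≤ 2 ^ p * ((∫ z in S, ‖G k z - H z‖ ^ p) + I) := by
    intro k
    rw [hI, ← integral_add (hiD k) hiH, ← integral_const_mul]
    have h1 : Integrable (fun z => ‖G k z - H z‖ ^ p + ‖H z‖ ^ p) (volume.restrict S) :=
      (hiD k).add hiH
    apply integral_mono (hiG k) (h1.const_mul _)
    intro z
    exact lps_add_rpow hp _ _
  rw [Metric.tendsto_atTop]
  intro ε hε
  set δ : ℝ := ε / (2 * (2 ^ p * (1 + I) + I + 1)) with hδdef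
  have hden : 0 < 2 ^ p * (1 + I) + I + 1 := by positivity
  have hδ : 0 < δ := by positivity
  obtain ⟨C, hC, hq⟩ := lps_flux_quant (n := n) hp δ hδ
  have hev : ∀ᶠ k in atTop, ∫ z in S, ‖G k z - H z‖ ^ p < min 1 (ε / (2 * C)) := by
    apply h.eventually (gt_mem_nhds _)
    positivity
  obtain ⟨k0, hk0⟩ := eventually_atTop.1 hev
  refine ⟨k0, fun k hk => ?_⟩
  rw [Real.dist_eq, sub_zero, abs_of_nonneg (hnn k)]
  have h1 := hk0 k hk
  have h11 : ∫ z in S, ‖G k z - H z‖ ^ p < 1 := lt_of_lt_of_le h1 (min_le_left _ _)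
  have h12 : ∫ z in S, ‖G k z - H z‖ ^ p < ε / (2 * C) := lt_of_lt_of_le h1 (min_le_right _ _)
  have h2 : ∫ z in S, ‖A p (G k z) - A p (H z)‖ ^ cj p ≤
      ∫ z in S, (C * ‖G k z - H z‖ ^ p + δ * (‖G k z‖ ^ p + ‖H z‖ ^ p)) := by
    apply integral_mono (hiA k) (lps_split_int (hiD k) (hiG k) hiH C δ)
    intro z
    exact hq _ _
  rw [lps_split (hiD k) (hiG k) hiH C δ] at h2
  have h3 : C * ∫ z in S, ‖G k z - H z‖ ^ p < ε / 2 := by
    calc _ < C * (ε / (2 * C)) := mul_lt_mul_of_pos_left h12 hC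
      _ = ε / 2 := by field_simp
  have h4 : δ * ((∫ z in S, ‖G k z‖ ^ p) + ∫ z in S, ‖H z‖ ^ p) ≤ ε / 2 := by
    have h5 : (∫ z in S, ‖G k z‖ ^ p) + ∫ z in S, ‖H z‖ ^ p ≤ 2 ^ p * (1 + I) + I + 1 := by
      have h6 := hGk k
      have h7 : 2 ^ p * ((∫ z in S, ‖G k z - H z‖ ^ p) + I) ≤ 2 ^ p * (1 + I) :=
        mul_le_mul_of_nonneg_left (by linarith) h2p.le
      linarith
    calc _ ≤ δ * (2 ^ p * (1 + I) + I + 1) := mul_le_mul_of_nonneg_left h5 hδ.le
      _ = ε / 2 := by rw [hδdef]; field_simp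
  linarith

end PP
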