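import Pool.Agent.PP.Defs

open Set Metric Filter Topology MeasureTheory
open scoped ContDiff

noncomputable section

namespace PP

variable {n : ℕ}

theorem A_zero (p : ℝ) : A p (0 : E n) = 0 := by simp [A]

theorem A_neg (p : ℝ) (ξ : E n) : A p (-ξ) = - A p ξ := by simp [A]

theorem norm_A {p : ℝ} (hp : 1 < p) (ξ : E n) : ‖A p ξ‖ = ‖ξ‖ ^ (p - 1) := by
  unfold A
  rw [norm_smul, Real.norm_of_nonneg (Real.rpow_nonneg (norm_nonneg _) _)]
  rcases eq_or_ne ξ 0 with h | h
  · subst h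
    simp only [norm_zero, mul_zero]
    rw [Real.zero_rpow (by linarith)]
  · have h0 : 0 < ‖ξ‖ := norm_pos_iff.2 h
    rw [← Real.rpow_add_one h0.ne']
    congr 1
    ring

theorem continuous_A {p : ℝ} (hp : 1 < p) : Continuous (A p : E n → E n) := by
  rw [continuous_iff_continuousAt]
  intro x
  rcases eq_or_ne x 0 with h | h
  · subst h
    unfold ContinuousAt
    rw [A_zero]
    rw [tendsto_zero_iff_norm_tendsto_zero]
    simp_rw [norm_A hp]
    have h1 : ContinuousAt (fun y : E n => ‖y‖ ^ (p - 1)) 0 := by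
      apply ContinuousAt.rpow_const continuous_norm.continuousAt
      right
      linarith
    have h2 := h1.tendsto
    simp only [norm_zero] at h2
    rwa [Real.zero_rpow (by linarith)] at h2
  · have h1 : ContinuousAt (fun y : E n => ‖y‖ ^ (p - 2)) x := by
      apply ContinuousAt.rpow_const continuous_norm.continuousAt
      left
      exact (norm_pos_iff.2 h).ne'
    exact h1.smul continuousAt_id

theorem pw1_inner_self {p : ℝ} (hp : 1 < p) (a : E n) : inner ℝ (A p a) a = ‖a‖ ^ p := by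
  unfold A
  rw [real_inner_smul_left, real_inner_self_eq_norm_sq]
  rcases eq_or_ne a 0 with h | h
  · subst h
    simp only [norm_zero]
    rw [Real.zero_rpow (by linarith : p ≠ 0)]
    ring
  · have h0 : 0 < ‖a‖ := norm_pos_iff.2 h
    rw [← Real.rpow_natCast, ← Real.rpow_add h0]
    congr 1
    push_cast
    ring

theorem pw1_inner_le {p : ℝ} (hp : 1 < p) (a b : E n) :
    inner ℝ (A p a) b ≤ ‖a‖ ^ (p - 1) * ‖b‖ := by
  rw [← norm_A hp]
  exact real_inner_le_norm _ _

theorem pw1_rpow_split {p : ℝ} (hp : 1 < p) {x : ℝ} (hx : 0 ≤ x) : x ^ p = x ^ (p - 1) * x := by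
  rcases eq_or_lt_of_le hx with h | h
  · subst h
    rw [Real.zero_rpow (by linarith), Real.zero_rpow (by linarith)]
    ring
  · rw [← Real.rpow_add_one h.ne']
    congr 1
    ring

theorem pw1_mono_aux {p : ℝ} (hp : 1 < p) (a b : E n) :
    (‖a‖ ^ (p - 1) - ‖b‖ ^ (p - 1)) * (‖a‖ - ‖b‖) +
      (‖a‖ ^ (p - 1) * ‖b‖ - inner ℝ (A p a) b) + (‖b‖ ^ (p - 1) * ‖a‖ - inner ℝ (A p b) a)
      = inner ℝ (A p a - A p b) (a - b) := by
  rw [inner_sub_left, inner_sub_right, inner_sub_right, pw1_inner_self hp, pw1_inner_self hp,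
    pw1_rpow_split hp (norm_nonneg a), pw1_rpow_split hp (norm_nonneg b)]
  ring

theorem pw1_prod_nonneg {p : ℝ} (hp : 1 < p) {x y : ℝ} (hx : 0 ≤ x) (hy : 0 ≤ y) :
    0 ≤ (x ^ (p - 1) - y ^ (p - 1)) * (x - y) := by
  rcases le_total x y with h | h
  · have := Real.rpow_le_rpow hx h (by linarith : (0:ℝ) ≤ p - 1)
    nlinarith
  · have := Real.rpow_le_rpow hy h (by linarith : (0:ℝ) ≤ p - 1)
    nlinarith

theorem A_mono {p : ℝ} (hp : 1 < p) (a b : E n) : 0 ≤ inner ℝ (A p a - A p b) (a - b) := by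
  rw [← pw1_mono_aux hp]
  have h1 := pw1_prod_nonneg hp (norm_nonneg a) (norm_nonneg b)
  have h2 := pw1_inner_le hp a b
  have h3 := pw1_inner_le hp b a
  linarith

theorem A_strict {p : ℝ} (hp : 1 < p) (a b : E n) (h : inner ℝ (A p a - A p b) (a - b) = 0) :
    a = b := by
  rw [← pw1_mono_aux hp] at h
  have h1 := pw1_prod_nonneg hp (norm_nonneg a) (norm_nonneg b)
  have h2 := pw1_inner_le hp a b
  have h3 := pw1_inner_le hp b a
  have e1 : (‖a‖ ^ (p - 1) - ‖b‖ ^ (p - 1)) * (‖a‖ - ‖b‖) = 0 := by linarith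
  have e2 : inner ℝ (A p a) b = ‖a‖ ^ (p - 1) * ‖b‖ := by linarith
  have hn : ‖a‖ = ‖b‖ := by
    rcases mul_eq_zero.1 e1 with h4 | h4
    · by_contra hne
      rcases lt_or_gt_of_ne hne with h5 | h5
      · have := Real.rpow_lt_rpow (norm_nonneg a) h5 (by linarith : (0:ℝ) < p - 1)
        linarith
      · have := Real.rpow_lt_rpow (norm_nonneg b) h5 (by linarith : (0:ℝ) < p - 1)
        linarith
    · linarith
  rcases eq_or_ne a 0 with h0 | h0
  · subst h0
    rw [norm_zero] at hn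
    exact (norm_eq_zero.1 hn.symm).symm
  · have hpos : 0 < ‖a‖ := norm_pos_iff.2 h0
    have e3 : inner ℝ a b = ‖a‖ * ‖b‖ := by
      unfold A at e2
      rw [real_inner_smul_left] at e2
      have e4 : ‖a‖ ^ (p - 1) = ‖a‖ ^ (p - 2) * ‖a‖ := by
        rw [← Real.rpow_add_one hpos.ne']
        congr 1
        ring
      rw [e4, mul_assoc] at e2
      exact mul_left_cancel₀ (Real.rpow_pos_of_pos hpos _).ne' e2
    have e5 : ‖a - b‖ ^ 2 = 0 := by
      rw [norm_sub_sq_real, e3, ← hn]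
      ring
    have e6 : ‖a - b‖ = 0 := by
      exact pow_eq_zero_iff (two_ne_zero) |>.1 e5
    exact sub_eq_zero.1 (norm_eq_zero.1 e6)

theorem pw1_young {p : ℝ} (hp : 1 < p) {x y : ℝ} (hx : 0 ≤ x) (hy : 0 ≤ y) :
    x ^ (p - 1) * y ≤ y ^ p / p + (1 - 1 / p) * x ^ p := by
  have hpq : (p / (p - 1)).HolderConjugate p := by
    have := (Real.HolderConjugate.conjExponent hp).symm
    simpa [Real.conjExponent] using this
  have h := Real.young_inequality_of_nonneg (Real.rpow_nonneg hx (p - 1)) hy hpq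
  have e : (x ^ (p - 1)) ^ (p / (p - 1)) = x ^ p := by
    rw [← Real.rpow_mul hx]
    congr 1
    field_simp [show p - 1 ≠ 0 by linarith]
  rw [e] at h
  have e2 : x ^ p / (p / (p - 1)) = (1 - 1 / p) * x ^ p := by
    have h1 : p ≠ 0 := by linarith
    have h2 : p - 1 ≠ 0 := by linarith
    field_simp
  linarith

theorem conv_tangent {p : ℝ} (hp : 1 < p) (a b : E n) :
    ‖a‖ ^ p / p + inner ℝ (A p a) (b - a) ≤ ‖b‖ ^ p / p := by
  rw [inner_sub_right, pw1_inner_self hp]
  have h1 := pw1_inner_le hp a b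
  have h2 := pw1_young hp (norm_nonneg a) (norm_nonneg b)
  have e : ‖a‖ ^ p / p - ‖a‖ ^ p + (1 - 1 / p) * ‖a‖ ^ p = 0 := by ring
  linarith

theorem hasDerivAt_pow {p : ℝ} (hp : 1 < p) (a b : E n) (s : ℝ) :
    HasDerivAt (fun s : ℝ => ‖a + s • b‖ ^ p / p) (inner ℝ (A p (a + s • b)) b) s := by
  have h1 : HasDerivAt (fun s : ℝ => a + s • b) b s := by
    have := ((hasDerivAt_id s).smul_const b).const_add a
    simpa using this
  have h2 := (hasFDerivAt_norm_rpow (a + s • b) hp).comp_hasDerivAt s h1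
  have h3 := h2.div_const p
  have e : ((p * ‖a + s • b‖ ^ (p - 2)) • innerSL ℝ (a + s • b)) b / p
      = inner ℝ (A p (a + s • b)) b := by
    have h0 : p ≠ 0 := by linarith
    unfold A
    rw [real_inner_smul_left]
    simp only [smul_apply, innerSL_apply_apply, smul_eq_mul]
    field_simp
  rw [← e]
  exact h3

end PP
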