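import Pool.Agent.PP.DER
import Pool.Agent.PP.LOC
import Pool.Agent.PP.PW1

open Set Metric Filter Topology MeasureTheory
open scoped ContDiff

noncomputable section

namespace PP

variable {n : ℕ}
variable {p : ℝ}

theorem scl_int_fderiv {Ω : Set (X n)} {ψ : X n → ℝ} (h : Tst Ω ψ) (v : X n) :
    ∫ z, fderiv ℝ ψ z v = 0 := by
  have := der_haar (n := n)
  have cf : Continuous (fun z => fderiv ℝ ψ z v) :=
    ((h.smooth.continuous_fderiv (by simp)).clm_apply continuous_const)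
  have sf : HasCompactSupport (fun z => fderiv ℝ ψ z v) := by
    refine HasCompactSupport.intro h.cpt fun z hz => ?_
    have h1 : fderiv ℝ ψ z = 0 := by
      have h2 : ψ =ᶠ[𝓝 z] fun _ => 0 := notMem_tsupport_iff_eventuallyEq.mp hz
      rw [h2.fderiv_eq]
      simp
    rw [h1]
    rfl
  have dψ : Differentiable ℝ ψ := h.smooth.differentiable (by simp)
  have key := integral_mul_fderiv_eq_neg_fderiv_mul_of_integrable (μ := (volume : Measure (X n)))
    (f := fun _ : X n => (1 : ℝ)) (g := ψ) (v := v) (by simp)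
    (by simpa using cf.integrable_of_hasCompactSupport sf)
    (by simpa using h.smooth.continuous.integrable_of_hasCompactSupport h.cpt)
    (fun x _ => differentiableAt_const _) (fun x _ => dψ x)
  simpa using key

theorem scl_int_dt {Ω : Set (X n)} {ψ : X n → ℝ} (h : Tst Ω ψ) : ∫ z, dt ψ z = 0 := by
  simp only [dt_eq h.smooth]
  exact scl_int_fderiv h _

theorem scl_int_dx {Ω : Set (X n)} {ψ : X n → ℝ} (h : Tst Ω ψ) : ∫ z, dx ψ z = 0 := by
  obtain ⟨c1, s1, c2, s2⟩ := der_tst_int h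
  refine ext_inner_left ℝ fun v => ?_
  rw [inner_zero_right, ← integral_inner (c1.integrable_of_hasCompactSupport s1) v]
  have e : ∀ z, inner ℝ v (dx ψ z) = fderiv ℝ ψ z (v, 0) := fun z => by
    rw [real_inner_comm, dx_eq h.smooth]
  simp only [e]
  exact scl_int_fderiv h _

/-- the affine map -/
def sclL (x₀ : E n) (t₀ r s : ℝ) (z : X n) : X n := (x₀ + r • z.1, t₀ + s * z.2)

section

variable {x₀ : E n} {t₀ r s : ℝ}

theorem scl_map (hr : r ≠ 0) (hs : s ≠ 0) : ∃ K : ℝ, 0 < K ∧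
    Measure.map (sclL x₀ t₀ r s) volume = ENNReal.ofReal K • (volume : Measure (X n)) := by
  have := der_haar (n := n)
  let e : X n ≃ₗ[ℝ] X n := LinearEquiv.prodCongr (LinearEquiv.smulOfNeZero ℝ (E n) r hr)
    (LinearEquiv.smulOfNeZero ℝ ℝ s hs)
  have hdet : LinearMap.det (e : X n →ₗ[ℝ] X n) ≠ 0 := (LinearEquiv.isUnit_det' e).ne_zero
  refine ⟨|(LinearMap.det (e : X n →ₗ[ℝ] X n))⁻¹|, by positivity, ?_⟩
  have h1 := Measure.map_linearMap_addHaar_eq_smul_addHaar (volume : Measure (X n)) hdet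
  have h2 : sclL x₀ t₀ r s = (fun z => ((x₀, t₀) : X n) + z) ∘ (e : X n →ₗ[ℝ] X n) := by
    funext z
    rfl
  have hc : Continuous (e : X n →ₗ[ℝ] X n) := LinearMap.continuous_of_finiteDimensional _
  rw [h2, ← Measure.map_map (measurable_const_add _) hc.measurable, h1, Measure.map_smul,
    map_add_left_eq_self]

theorem scl_cont : Continuous (sclL x₀ t₀ r s) := by
  unfold sclL
  fun_prop

theorem scl_smooth : ContDiff ℝ ∞ (sclL x₀ t₀ r s) := by
  unfold sclL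
  fun_prop

theorem scl_inv (hr : r ≠ 0) (hs : s ≠ 0) (z : X n) :
    sclL x₀ t₀ r s (sclL (-(r⁻¹ • x₀)) (-(s⁻¹ * t₀)) r⁻¹ s⁻¹ z) = z := by
  unfold sclL
  ext1
  · simp only
    rw [smul_add, smul_neg, smul_smul, smul_smul, mul_inv_cancel₀ hr, one_smul, one_smul]
    abel
  · simp only
    field_simp
    ring

theorem scl_inv' (hr : r ≠ 0) (hs : s ≠ 0) (z : X n) :
    sclL (-(r⁻¹ • x₀)) (-(s⁻¹ * t₀)) r⁻¹ s⁻¹ (sclL x₀ t₀ r s z) = z := by
  unfold sclL
  ext1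
  · simp only
    rw [smul_add, smul_smul, inv_mul_cancel₀ hr, one_smul]
    abel
  · simp only
    field_simp
    ring

theorem scl_inj (hr : r ≠ 0) (hs : s ≠ 0) : Function.Injective (sclL x₀ t₀ r s) :=
  Function.LeftInverse.injective (scl_inv' hr hs)

theorem scl_emb (hr : r ≠ 0) (hs : s ≠ 0) : MeasurableEmbedding (sclL x₀ t₀ r s) :=
  scl_cont.measurableEmbedding (scl_inj hr hs)

theorem scl_int {F : Type*} [NormedAddCommGroup F] [NormedSpace ℝ F] (hr : r ≠ 0) (hs : s ≠ 0)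
    {K : ℝ} (hK : 0 < K)
    (h : Measure.map (sclL x₀ t₀ r s) volume = ENNReal.ofReal K • (volume : Measure (X n)))
    (f : X n → F) : ∫ z, f (sclL x₀ t₀ r s z) = K • ∫ z, f z := by
  rw [← (scl_emb hr hs).integral_map, h, integral_smul_measure, ENNReal.toReal_ofReal hK.le]

theorem scl_restrict (hr : r ≠ 0) (hs : s ≠ 0) {K : ℝ}
    (h : Measure.map (sclL x₀ t₀ r s) volume = ENNReal.ofReal K • (volume : Measure (X n)))
    (S : Set (X n)) : Measure.map (sclL x₀ t₀ r s) (volume.restrict (sclL x₀ t₀ r s ⁻¹' S)) =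
      ENNReal.ofReal K • ((volume : Measure (X n)).restrict S) := by
  rw [← (scl_emb hr hs).restrict_map, h, Measure.restrict_smul]

theorem scl_ac (hr : r ≠ 0) (hs : s ≠ 0) {K : ℝ}
    (h : Measure.map (sclL x₀ t₀ r s) volume = ENNReal.ofReal K • (volume : Measure (X n)))
    (S : Set (X n)) :
    Measure.QuasiMeasurePreserving (sclL x₀ t₀ r s) (volume.restrict (sclL x₀ t₀ r s ⁻¹' S))
      ((volume : Measure (X n)).restrict S) := by
  refine ⟨scl_cont.measurable, ?_⟩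
  rw [scl_restrict hr hs h]
  exact Measure.smul_absolutelyContinuous

theorem scl_dx (φ : X n → ℝ) (hφ : ContDiff ℝ ∞ φ) (z : X n) :
    dx (fun z => φ (sclL x₀ t₀ r s z)) z = r • dx φ (sclL x₀ t₀ r s z) := by
  have hs : ContDiff ℝ ∞ (fun z => φ (sclL x₀ t₀ r s z)) := hφ.comp scl_smooth
  refine ext_inner_right ℝ fun v => ?_
  rw [dx_eq hs, real_inner_smul_left, dx_eq hφ]
  have h1 : HasFDerivAt (fun x : E n => x₀ + r • x) (r • ContinuousLinearMap.id ℝ (E n)) z.1 :=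
    ((hasFDerivAt_id z.1).const_smul r).const_add x₀
  have h2 : HasFDerivAt (fun z => φ (sclL x₀ t₀ r s z))
      ((fderiv ℝ φ (sclL x₀ t₀ r s z)).comp (fderiv ℝ (sclL x₀ t₀ r s) z)) z :=
    HasFDerivAt.comp z ((hφ.differentiable (by simp)) _).hasFDerivAt
      ((scl_smooth.differentiable (by simp)) z).hasFDerivAt
  rw [h2.fderiv]
  have h3 : HasFDerivAt (sclL x₀ t₀ r s)
      ((r • ContinuousLinearMap.fst ℝ (E n) ℝ).prod (s • ContinuousLinearMap.snd ℝ (E n) ℝ)) z := by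
    refine HasFDerivAt.prodMk ?_ ?_
    · exact ((hasFDerivAt_fst).const_smul r).const_add x₀
    · exact ((hasFDerivAt_snd).const_mul s).const_add t₀
  rw [h3.fderiv]
  simp only [ContinuousLinearMap.comp_apply, ContinuousLinearMap.prod_apply,
    smul_apply, ContinuousLinearMap.coe_fst', ContinuousLinearMap.coe_snd',
    smul_zero]
  have h4 : ((r • v, 0) : X n) = r • (v, 0) := by simp
  rw [h4, map_smul, smul_eq_mul]

theorem scl_dt (φ : X n → ℝ) (hφ : ContDiff ℝ ∞ φ) (z : X n) :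
    dt (fun z => φ (sclL x₀ t₀ r s z)) z = s * dt φ (sclL x₀ t₀ r s z) := by
  have hs : ContDiff ℝ ∞ (fun z => φ (sclL x₀ t₀ r s z)) := hφ.comp scl_smooth
  rw [dt_eq hs, dt_eq hφ]
  have h2 : HasFDerivAt (fun z => φ (sclL x₀ t₀ r s z))
      ((fderiv ℝ φ (sclL x₀ t₀ r s z)).comp (fderiv ℝ (sclL x₀ t₀ r s) z)) z :=
    HasFDerivAt.comp z ((hφ.differentiable (by simp)) _).hasFDerivAt
      ((scl_smooth.differentiable (by simp)) z).hasFDerivAt
  rw [h2.fderiv]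
  have h3 : HasFDerivAt (sclL x₀ t₀ r s)
      ((r • ContinuousLinearMap.fst ℝ (E n) ℝ).prod (s • ContinuousLinearMap.snd ℝ (E n) ℝ)) z := by
    refine HasFDerivAt.prodMk ?_ ?_
    · exact ((hasFDerivAt_fst).const_smul r).const_add x₀
    · exact ((hasFDerivAt_snd).const_mul s).const_add t₀
  rw [h3.fderiv]
  simp only [ContinuousLinearMap.comp_apply, ContinuousLinearMap.prod_apply,
    smul_apply, ContinuousLinearMap.coe_fst', ContinuousLinearMap.coe_snd',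
    smul_zero]
  have h4 : ((0, s • 1) : X n) = s • (0, 1) := by simp
  rw [h4, map_smul, smul_eq_mul]

/-- transport of test functions -/
theorem scl_tst (hr : r ≠ 0) (hs : s ≠ 0) {Ω : Set (X n)} {φ : X n → ℝ}
    (hφ : Tst (sclL x₀ t₀ r s ⁻¹' Ω) φ) :
    ∃ ψ, Tst Ω ψ ∧ ∀ z, φ z = ψ (sclL x₀ t₀ r s z) := by
  let L' : X n → X n := sclL (-(r⁻¹ • x₀)) (-(s⁻¹ * t₀)) r⁻¹ s⁻¹
  have hL' : Continuous L' := scl_cont
  have e : ∀ z, φ z = φ (L' (sclL x₀ t₀ r s z)) := by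
    intro z
    exact (congrArg φ (scl_inv' hr hs z)).symm
  have hsub : tsupport (fun z => φ (L' z)) ⊆ sclL x₀ t₀ r s '' tsupport φ := by
    refine closure_minimal ?_ (hφ.cpt.image scl_cont).isClosed
    intro z hz
    refine ⟨L' z, subset_tsupport _ hz, scl_inv hr hs z⟩
  refine ⟨fun z => φ (L' z), ⟨hφ.smooth.comp scl_smooth, ?_, ?_⟩, e⟩
  · refine HasCompactSupport.intro
      (hφ.cpt.image (scl_cont (x₀ := x₀) (t₀ := t₀) (r := r) (s := s))) fun z hz => ?_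
    by_contra hc
    exact hz (hsub (subset_tsupport _ hc))
  · rintro z hz
    obtain ⟨y, hy, rfl⟩ := hsub hz
    exact hφ.supp hy

end

theorem scl_A (hp : 1 < p) {c : ℝ} (hc : 0 < c) (ξ : E n) : A p (c • ξ) = c ^ (p - 1) • A p ξ := by
  unfold A
  rw [norm_smul, Real.norm_eq_abs, abs_of_pos hc, Real.mul_rpow hc.le (norm_nonneg _), smul_smul,
    smul_smul]
  congr 1
  have : c ^ (p - 1) = c ^ (p - 2) * c := by
    rw [← Real.rpow_add_one hc.ne']
    congr 1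
    ring
  rw [this]
  ring

theorem scl_I1 {Ω : Set (X n)} {u : X n → ℝ} {G : X n → E n} (h : SupOn p Ω u G)
    {x₀ : E n} {t₀ r s a b K : ℝ} (hr : r ≠ 0) (hs : s ≠ 0) (hK : 0 < K)
    (hmap : Measure.map (sclL x₀ t₀ r s) volume = ENNReal.ofReal K • (volume : Measure (X n)))
    {ψ : X n → ℝ} (hψ : Tst Ω ψ) :
    ∫ z, (b * u (sclL x₀ t₀ r s z) + a) * dt (fun z => ψ (sclL x₀ t₀ r s z)) z =
      K * (s * b) * ∫ z, u z * dt ψ z := by
  obtain ⟨c1, s1, c2, s2⟩ := der_tst_int hψ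
  obtain ⟨M, hM⟩ := h.bdd
  have i1 : Integrable (fun z => u z * dt ψ z) volume :=
    memLp_one_iff_integrable.1 (loc_bdd h.meas hM c2 hψ.cpt hψ.supp
      (fun z hz => dt_zero_of_notMem z hz) 1)
  have i2 : Integrable (dt ψ) volume := c2.integrable_of_hasCompactSupport s2
  have e1 : ∀ z, (b * u (sclL x₀ t₀ r s z) + a) * dt (fun z => ψ (sclL x₀ t₀ r s z)) z =
      (fun z => s * b * (u z * dt ψ z) + a * s * dt ψ z) (sclL x₀ t₀ r s z) := by
    intro z
    rw [scl_dt ψ hψ.smooth]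
    ring
  simp only [e1]
  rw [scl_int hr hs hK hmap (fun z => s * b * (u z * dt ψ z) + a * s * dt ψ z),
    integral_add (i1.const_mul _) (i2.const_mul _), integral_const_mul, integral_const_mul,
    scl_int_dt hψ, smul_eq_mul]
  ring

theorem scl_I2 (hp : 1 < p) {G : X n → E n} {x₀ : E n} {t₀ r s b K : ℝ} (hr : 0 < r) (hs : s ≠ 0)
    (hb : 0 < b) (hK : 0 < K)
    (hmap : Measure.map (sclL x₀ t₀ r s) volume = ENNReal.ofReal K • (volume : Measure (X n)))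
    {Ω : Set (X n)} {ψ : X n → ℝ} (hψ : Tst Ω ψ) :
    ∫ z, inner ℝ (A p ((b * r) • G (sclL x₀ t₀ r s z))) (dx (fun z => ψ (sclL x₀ t₀ r s z)) z) =
      K * ((b * r) ^ (p - 1) * r) * ∫ z, inner ℝ (A p (G z)) (dx ψ z) := by
  have e1 : ∀ z, inner ℝ (A p ((b * r) • G (sclL x₀ t₀ r s z)))
      (dx (fun z => ψ (sclL x₀ t₀ r s z)) z) =
      (fun z => (b * r) ^ (p - 1) * r * inner ℝ (A p (G z)) (dx ψ z)) (sclL x₀ t₀ r s z) := by
    intro z
    simp only
    rw [scl_dx ψ hψ.smooth, scl_A hp (by positivity), real_inner_smul_left, real_inner_smul_right]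
    ring
  simp only [e1]
  rw [scl_int hr.ne' hs hK hmap (fun z => (b * r) ^ (p - 1) * r * inner ℝ (A p (G z)) (dx ψ z)),
    integral_const_mul, smul_eq_mul]
  ring

theorem scl_pow (hp : 1 < p) {b r : ℝ} (hb : 0 < b) (hr : 0 < r) :
    b ^ (p - 2) * r ^ p * b = (b * r) ^ (p - 1) * r := by
  have h1 : b ^ (p - 2) * b = b ^ (p - 1) := by
    rw [← Real.rpow_add_one hb.ne']
    congr 1
    ring
  have h2 : r ^ (p - 1) * r = r ^ p := by
    rw [← Real.rpow_add_one hr.ne']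
    congr 1
    ring
  rw [Real.mul_rpow hb.le hr.le, ← h1, ← h2]
  ring

theorem scl_sup (hp : 1 < p) {Ω : Set (X n)} {u : X n → ℝ} {G : X n → E n}
    (h : SupOn p Ω u G) {a b r : ℝ} (hb : 0 < b) (hr : 0 < r) (x₀ : E n) (t₀ : ℝ) :
    SupOn p (sclL x₀ t₀ r (b ^ (p - 2) * r ^ p) ⁻¹' Ω)
      (fun z => b * u (sclL x₀ t₀ r (b ^ (p - 2) * r ^ p) z) + a)
      (fun z => (b * r) • G (sclL x₀ t₀ r (b ^ (p - 2) * r ^ p) z)) := by
  have hpow := scl_pow hp hb hr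
  have hs0 : 0 < b ^ (p - 2) * r ^ p := by positivity
  set s := b ^ (p - 2) * r ^ p with hs
  obtain ⟨K, hK, hmap⟩ := scl_map (n := n) (x₀ := x₀) (t₀ := t₀) hr.ne' hs0.ne'
  have hqm := scl_ac hr.ne' hs0.ne' hmap Ω
  refine ⟨?_, ?_, ?_, ?_, ?_⟩
  · exact ((h.meas.comp_quasiMeasurePreserving hqm).const_mul b).add_const a
  · obtain ⟨M, hM⟩ := h.bdd
    refine ⟨b * M + |a|, ?_⟩
    filter_upwards [hqm.ae hM] with z hz
    refine (abs_add_le _ _).trans ?_
    rw [abs_mul, abs_of_pos hb]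
    have := mul_le_mul_of_nonneg_left hz hb.le
    linarith
  · intro D hD hDΩ
    have h1 := h.memG _ (hD.image scl_cont) (image_subset_iff.2 hDΩ)
    have h2 := h1.smul_measure (c := ENNReal.ofReal K) ENNReal.ofReal_ne_top
    rw [← scl_restrict hr.ne' hs0.ne' hmap, preimage_image_eq _ (scl_inj hr.ne' hs0.ne'),
      (scl_emb hr.ne' hs0.ne').memLp_map_measure_iff] at h2
    exact h2.const_smul (b * r)
  · intro φ hφ
    obtain ⟨ψ, hψ, e⟩ := scl_tst hr.ne' hs0.ne' hφ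
    have e' : φ = fun z => ψ (sclL x₀ t₀ r s z) := funext e
    subst e'
    obtain ⟨c1, s1, c2, s2⟩ := der_tst_int hψ
    obtain ⟨M, hM⟩ := h.bdd
    have i1 : Integrable (fun z => u z • dx ψ z) volume :=
      memLp_one_iff_integrable.1 (loc_bdd h.meas hM c1 hψ.cpt hψ.supp
        (fun z hz => dx_zero_of_notMem z hz) 1)
    have i2 : Integrable (dx ψ) volume := c1.integrable_of_hasCompactSupport s1
    have e1 : ∀ z, (b * u (sclL x₀ t₀ r s z) + a) • dx (fun z => ψ (sclL x₀ t₀ r s z)) z =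
        (fun z => (b * r) • (u z • dx ψ z) + (a * r) • dx ψ z) (sclL x₀ t₀ r s z) := by
      intro z
      simp only
      rw [scl_dx ψ hψ.smooth, smul_smul, smul_smul, ← add_smul]
      congr 1
      ring
    have e2 : ∀ z, ψ (sclL x₀ t₀ r s z) • (b * r) • G (sclL x₀ t₀ r s z) =
        (fun z => (b * r) • (ψ z • G z)) (sclL x₀ t₀ r s z) := by
      intro z
      simp only
      rw [smul_comm]
    have j1 : Integrable (fun z => (b * r) • (u z • dx ψ z)) volume := i1.smul (b * r)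
    have j2 : Integrable (fun z => (a * r) • dx ψ z) volume := i2.smul (a * r)
    simp only [e1, e2]
    rw [scl_int hr.ne' hs0.ne' hK hmap (fun z => (b * r) • (u z • dx ψ z) + (a * r) • dx ψ z),
      scl_int hr.ne' hs0.ne' hK hmap (fun z => (b * r) • (ψ z • G z)),
      integral_add j1 j2, integral_smul, integral_smul, integral_smul, scl_int_dx hψ, h.wg ψ hψ,
      smul_zero, add_zero, smul_neg, smul_neg]
  · intro φ hφ h0
    obtain ⟨ψ, hψ, e⟩ := scl_tst hr.ne' hs0.ne' hφ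
    have e' : φ = fun z => ψ (sclL x₀ t₀ r s z) := funext e
    subst e'
    have h0' : ∀ z, 0 ≤ ψ z := by
      intro z
      have := h0 (sclL (-(r⁻¹ • x₀)) (-(s⁻¹ * t₀)) r⁻¹ s⁻¹ z)
      simpa only [scl_inv hr.ne' hs0.ne'] using this
    rw [scl_I1 h hr.ne' hs0.ne' hK hmap hψ, scl_I2 hp hr hs0.ne' hb hK hmap hψ, hpow]
    exact mul_le_mul_of_nonneg_left (h.ineq ψ hψ h0') (by positivity)

theorem SupOn.scale (hp : 1 < p) {Ω : Set (X n)} (hΩ : IsOpen Ω) {u : X n → ℝ} {G : X n → E n}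
    (h : SupOn p Ω u G) {a b r : ℝ} (hb : 0 < b) (hr : 0 < r) (x₀ : E n) (t₀ : ℝ) :
    SupOn p {z | (x₀ + r • z.1, t₀ + b ^ (p - 2) * r ^ p * z.2) ∈ Ω}
      (fun z => b * u (x₀ + r • z.1, t₀ + b ^ (p - 2) * r ^ p * z.2) + a)
      (fun z => (b * r) • G (x₀ + r • z.1, t₀ + b ^ (p - 2) * r ^ p * z.2)) :=
  scl_sup hp h hb hr x₀ t₀

theorem SolOn.scale (hp : 1 < p) {Ω : Set (X n)} (hΩ : IsOpen Ω) {u : X n → ℝ} {G : X n → E n}
    (h : SolOn p Ω u G) {a b r : ℝ} (hb : 0 < b) (hr : 0 < r) (x₀ : E n) (t₀ : ℝ) :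
    SolOn p {z | (x₀ + r • z.1, t₀ + b ^ (p - 2) * r ^ p * z.2) ∈ Ω}
      (fun z => b * u (x₀ + r • z.1, t₀ + b ^ (p - 2) * r ^ p * z.2) + a)
      (fun z => (b * r) • G (x₀ + r • z.1, t₀ + b ^ (p - 2) * r ^ p * z.2)) := by
  refine ⟨scl_sup hp h.toSupOn hb hr x₀ t₀, ?_⟩
  have hpow := scl_pow hp hb hr
  have hs0 : 0 < b ^ (p - 2) * r ^ p := by positivity
  set s := b ^ (p - 2) * r ^ p with hs
  obtain ⟨K, hK, hmap⟩ := scl_map (n := n) (x₀ := x₀) (t₀ := t₀) hr.ne' hs0.ne'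
  intro φ hφ
  obtain ⟨ψ, hψ, e⟩ := scl_tst (x₀ := x₀) (t₀ := t₀) (Ω := Ω) hr.ne' hs0.ne' hφ
  have e' : φ = fun z => ψ (sclL x₀ t₀ r s z) := funext e
  subst e'
  have h1 := scl_I1 (a := a) (b := b) h.toSupOn hr.ne' hs0.ne' hK hmap hψ
  have h2 := scl_I2 (G := G) hp hr hs0.ne' hb hK hmap hψ
  have h3 := h.eq ψ hψ
  have h4 : (∫ z, inner ℝ (A p ((b * r) • G (sclL x₀ t₀ r s z)))
      (dx (fun z => ψ (sclL x₀ t₀ r s z)) z)) -
      ∫ z, (b * u (sclL x₀ t₀ r s z) + a) * dt (fun z => ψ (sclL x₀ t₀ r s z)) z = 0 := by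
    rw [h1, h2, hpow, ← mul_sub, h3, mul_zero]
  exact h4

theorem SolOn.neg {Ω : Set (X n)} {u : X n → ℝ} {G : X n → E n} (h : SolOn p Ω u G) :
    SolOn p Ω (fun z => - u z) (fun z => - G z) := by
  have hA : ∀ φ : X n → ℝ, ∫ z, inner ℝ (A p (-G z)) (dx φ z) =
      - ∫ z, inner ℝ (A p (G z)) (dx φ z) := by
    intro φ
    rw [← integral_neg]
    simp only [A_neg, inner_neg_left]
  have hu : ∀ φ : X n → ℝ, ∫ z, - u z * dt φ z = - ∫ z, u z * dt φ z := by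
    intro φ
    rw [← integral_neg]
    simp only [neg_mul]
  refine ⟨⟨h.meas.neg, ?_, fun K hK hKΩ => (h.memG K hK hKΩ).neg, ?_, ?_⟩, ?_⟩
  · obtain ⟨M, hM⟩ := h.bdd
    exact ⟨M, by simpa using hM⟩
  · intro φ hφ
    have h1 := h.wg φ hφ
    simp only [neg_smul, smul_neg, integral_neg, h1]
  · intro φ hφ h0
    have h1 := h.eq φ hφ
    rw [hu, hA]
    linarith
  · intro φ hφ
    have h1 := h.eq φ hφ
    rw [hu, hA]
    linarith

theorem SupOn.restrict {Ω Ω' : Set (X n)} (hΩ : IsOpen Ω) (hΩ' : IsOpen Ω') {u : X n → ℝ}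
    {G : X n → E n} (h : SupOn p Ω u G) (hs : Ω' ⊆ Ω) : SupOn p Ω' u G := by
  have ht : ∀ φ, Tst Ω' φ → Tst Ω φ := fun φ hφ => ⟨hφ.smooth, hφ.cpt, hφ.supp.trans hs⟩
  refine ⟨h.meas.mono_set hs, ?_, fun K hK hKΩ => h.memG K hK (hKΩ.trans hs),
    fun φ hφ => h.wg φ (ht φ hφ), fun φ hφ => h.ineq φ (ht φ hφ)⟩
  obtain ⟨M, hM⟩ := h.bdd
  exact ⟨M, ae_restrict_of_ae_restrict_of_subset hs hM⟩

theorem SolOn.restrict {Ω Ω' : Set (X n)} (hΩ : IsOpen Ω) (hΩ' : IsOpen Ω') {u : X n → ℝ}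
    {G : X n → E n} (h : SolOn p Ω u G) (hs : Ω' ⊆ Ω) : SolOn p Ω' u G :=
  ⟨h.toSupOn.restrict hΩ hΩ' hs, fun φ hφ => h.eq φ ⟨hφ.smooth, hφ.cpt, hφ.supp.trans hs⟩⟩

end PP
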