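import Pool.Agent.PP.CLS
import Pool.Agent.PP.CMPL
import Pool.Agent.PP.SCL
import Pool.Agent.PP.LPS

open Set Metric Filter Topology MeasureTheory
open scoped ContDiff

noncomputable section

namespace PP

variable {n : ℕ}
variable {p : ℝ}

/-- the elementary inequality behind the barrier -/
private theorem bar2_key {e q N : ℝ} (he : 0 ≤ e) (hq : 0 < q) (hN : 0 < N) :
    ∃ L : ℝ, 0 < L ∧ ∀ X : ℝ, 0 ≤ X → X < 1 →
      (1 - X) ^ q * (X - L * (1 - X)) ≤ X ^ e * (2 * X - N * (1 - X)) := by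
  -- condition (B): continuity at `w = 0`
  have hcont : ContinuousAt (fun w : ℝ => (1 - w) ^ e * (2 - (N + 2) * w)) 0 := by
    have h1 : ContinuousAt (fun w : ℝ => (1 - w) ^ e) 0 := by
      refine ContinuousAt.rpow_const (by fun_prop) (Or.inr he)
    exact h1.mul (by fun_prop)
  have hB : ∀ᶠ w in 𝓝 (0 : ℝ), 1 < (1 - w) ^ e * (2 - (N + 2) * w) := by
    have h0 : (1 : ℝ) < (fun w : ℝ => (1 - w) ^ e * (2 - (N + 2) * w)) 0 := by simp
    exact continuousAt_const.eventually_lt hcont h0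
  obtain ⟨δ, hδ, hball⟩ := Metric.eventually_nhds_iff.1 hB
  set κ : ℝ := (2 / (N + 2)) ^ q with hκ
  have hκ0 : 0 < κ := Real.rpow_pos_of_pos (by positivity) q
  -- choice of `w` and `L`
  set L1 : ℝ := (N * (N + 2) / κ + N) / 2 + 1 with hL1
  have hL10 : 0 < L1 := by positivity
  set w : ℝ := min (δ / 2) (1 / (1 + L1)) with hw
  have hw0 : 0 < w := lt_min (by positivity) (by positivity)
  have hwδ : w < δ := lt_of_le_of_lt (min_le_left _ _) (by linarith)
  have hw1 : w ≤ 1 / (1 + L1) := min_le_right _ _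
  have hw1' : w < 1 := lt_of_le_of_lt hw1 (by
    rw [div_lt_one (by positivity)]; linarith)
  have hBw := hball (y := w) (by rw [Real.dist_eq, sub_zero, abs_of_pos hw0]; exact hwδ)
  set L : ℝ := 1 / w - 1 with hL
  have hLL1 : L1 ≤ L := by
    rw [hL]
    have : 1 + L1 ≤ 1 / w := by
      rw [le_div_iff₀ hw0]
      calc (1 + L1) * w ≤ (1 + L1) * (1 / (1 + L1)) :=
            mul_le_mul_of_nonneg_left hw1 (by positivity)
        _ = 1 := by field_simp
    linarith
  have hL0 : 0 < L := lt_of_lt_of_le hL10 hLL1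
  have hLw : (1 + L) * w = 1 := by
    rw [hL]
    field_simp
    ring
  refine ⟨L, hL0, ?_⟩
  intro X hX0 hX1
  have hpos : 0 < 1 - X := by linarith
  have hpq0 : 0 < (1 - X) ^ q := Real.rpow_pos_of_pos hpos q
  have hpq1 : (1 - X) ^ q ≤ 1 := Real.rpow_le_one hpos.le (by linarith) hq.le
  have hXe0 : 0 ≤ X ^ e := Real.rpow_nonneg hX0 e
  have hXe1 : X ^ e ≤ 1 := Real.rpow_le_one hX0 hX1.le he
  rcases le_or_gt N (X * (N + 2)) with h | h
  · -- the right side is nonnegative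
    have hR : 0 ≤ 2 * X - N * (1 - X) := by nlinarith
    rcases le_or_gt (X - L * (1 - X)) 0 with h' | h'
    · have h1 : (1 - X) ^ q * (X - L * (1 - X)) ≤ 0 :=
        mul_nonpos_of_nonneg_of_nonpos hpq0.le h'
      have h2 : 0 ≤ X ^ e * (2 * X - N * (1 - X)) := mul_nonneg hXe0 hR
      linarith
    · -- `X` is close to one
      have hXw : 1 - w ≤ X := by
        have h3 : (1 + L) * (1 - X) ≤ (1 + L) * w := by
          rw [hLw]
          nlinarith
        have := le_of_mul_le_mul_left h3 (by linarith)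
        linarith
      have h4 : (1 - w) ^ e ≤ X ^ e := Real.rpow_le_rpow (by linarith) hXw he
      have h5 : 2 - (N + 2) * w ≤ 2 * X - N * (1 - X) := by nlinarith
      have h6 : (1 - w) ^ e * (2 - (N + 2) * w) ≤ X ^ e * (2 * X - N * (1 - X)) := by
        calc (1 - w) ^ e * (2 - (N + 2) * w) ≤ (1 - w) ^ e * (2 * X - N * (1 - X)) :=
              mul_le_mul_of_nonneg_left h5 (Real.rpow_nonneg (by linarith) e)
          _ ≤ X ^ e * (2 * X - N * (1 - X)) := mul_le_mul_of_nonneg_right h4 hR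
      have h7 : (1 - X) ^ q * (X - L * (1 - X)) ≤ 1 := by
        calc (1 - X) ^ q * (X - L * (1 - X)) ≤ 1 * (X - L * (1 - X)) :=
              mul_le_mul_of_nonneg_right hpq1 h'.le
          _ ≤ 1 := by nlinarith
      linarith
  · -- `X` is small
    have hX2 : 2 / (N + 2) ≤ 1 - X := by
      rw [div_le_iff₀ (by positivity)]
      nlinarith
    have h1 : κ ≤ (1 - X) ^ q := Real.rpow_le_rpow (by positivity) hX2 hq.le
    have h2 : X - L * (1 - X) ≤ (N - 2 * L) / (N + 2) := by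
      rw [le_div_iff₀ (by positivity)]
      nlinarith
    have hLN : N - 2 * L < 0 := by
      have : N * (N + 2) / κ > 0 := by positivity
      linarith
    have h3 : (N - 2 * L) / (N + 2) < 0 := div_neg_of_neg_of_pos hLN (by positivity)
    have h4 : (1 - X) ^ q * (X - L * (1 - X)) ≤ κ * ((N - 2 * L) / (N + 2)) := by
      calc (1 - X) ^ q * (X - L * (1 - X)) ≤ (1 - X) ^ q * ((N - 2 * L) / (N + 2)) :=
            mul_le_mul_of_nonneg_left h2 hpq0.le
        _ ≤ κ * ((N - 2 * L) / (N + 2)) := mul_le_mul_of_nonpos_right h1 h3.le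
    have h5 : κ * ((N - 2 * L) / (N + 2)) ≤ -N := by
      have h6 : N * (N + 2) / κ ≤ 2 * L - N := by
        have : N * (N + 2) / κ + N + 2 ≤ 2 * L := by
          rw [hL1] at hLL1
          linarith
        linarith
      rw [div_le_iff₀ hκ0] at h6
      rw [mul_div_assoc', div_le_iff₀ (by positivity)]
      nlinarith
    have h7 : -N ≤ X ^ e * (2 * X - N * (1 - X)) := by
      have h8 : -(N * (1 - X)) ≤ 2 * X - N * (1 - X) := by linarith
      have h9 : X ^ e * -(N * (1 - X)) ≤ X ^ e * (2 * X - N * (1 - X)) :=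
        mul_le_mul_of_nonneg_left h8 hXe0
      have h10 : X ^ e * (N * (1 - X)) ≤ 1 * N := by
        apply mul_le_mul hXe1 _ (by positivity) (by norm_num)
        nlinarith
      linarith
    linarith

/-- the pointwise differential inequality -/
private theorem bar2_pt {a b S m B e q N L Y : ℝ} (ha : 0 < a) (hb : 0 < b) (hm : 0 < m)
    (hS : 0 < S) (hK : m * a ^ q * S = B * (a / b) ^ e)
    (hkey : ∀ X : ℝ, 0 ≤ X → X < 1 →
      (1 - X) ^ q * (X - L * (1 - X)) ≤ X ^ e * (2 * X - N * (1 - X)))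
    (hY : 0 ≤ Y) (hψ : 0 < a - b * Y) :
    m * (a - b * Y) ^ q * (-(L * S * a) + (L + 1) * S * b * Y) ≤
      B * (2 * b * Y * Y ^ e - N * (a - b * Y) * Y ^ e) := by
  set X : ℝ := b * Y / a with hX
  have hX0 : 0 ≤ X := by positivity
  have hX1 : X < 1 := by rw [hX, div_lt_one ha]; linarith
  have e1 : a - b * Y = a * (1 - X) := by rw [hX]; field_simp
  have e2 : Y = a / b * X := by rw [hX]; field_simp
  have e3 : b * Y = a * X := by rw [hX]; field_simp
  have e4 : (a - b * Y) ^ q = a ^ q * (1 - X) ^ q := by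
    rw [e1, Real.mul_rpow ha.le (by linarith)]
  have e5 : Y ^ e = (a / b) ^ e * X ^ e := by
    rw [e2, Real.mul_rpow (by positivity) hX0]
  have hk := hkey X hX0 hX1
  have hKpos : 0 < m * a ^ q * S * a := by
    have := Real.rpow_pos_of_pos ha q
    positivity
  have lhs : m * (a - b * Y) ^ q * (-(L * S * a) + (L + 1) * S * b * Y) =
      m * a ^ q * S * a * ((1 - X) ^ q * (X - L * (1 - X))) := by
    rw [e4]
    have : (L + 1) * S * b * Y = (L + 1) * S * (a * X) := by rw [← e3]; ring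
    rw [this]
    ring
  have rhs : B * (2 * b * Y * Y ^ e - N * (a - b * Y) * Y ^ e) =
      m * a ^ q * S * a * (X ^ e * (2 * X - N * (1 - X))) := by
    rw [e5, e1]
    have : 2 * b * Y = 2 * (a * X) := by rw [← e3]; ring
    rw [this, hK]
    ring
  rw [lhs, rhs]
  exact mul_le_mul_of_nonneg_left hk hKpos.le

/-- the vector field `|y|^s y` -/
private def bar2_W (s : ℝ) (y : E n) : E n := ‖y‖ ^ s • y

/-- its derivative -/
private def bar2_DW (s : ℝ) (y : E n) : E n →L[ℝ] E n :=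
  ‖y‖ ^ s • ContinuousLinearMap.id ℝ (E n) +
    (s * ‖y‖ ^ (s - 2)) • (innerSL ℝ y).smulRight y

private theorem bar2_norm_hasFDeriv (s : ℝ) {y : E n} (hy : y ≠ 0) :
    HasFDerivAt (fun y : E n => ‖y‖ ^ s) ((s * ‖y‖ ^ (s - 2)) • innerSL ℝ y) y := by
  have h0 : 0 < ‖y‖ := norm_pos_iff.2 hy
  have h1 : HasFDerivAt (fun y : E n => ‖y‖ ^ 2) (2 • innerSL ℝ y) y := by
    have := (hasStrictFDerivAt_norm_sq y).hasFDerivAt
    simpa using this
  have h2 := h1.rpow_const (p := s / 2) (Or.inl (by positivity))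
  have e1 : (fun y : E n => (‖y‖ ^ 2) ^ (s / 2)) = fun y : E n => ‖y‖ ^ s := by
    funext x
    rw [← Real.rpow_natCast, ← Real.rpow_mul (norm_nonneg _)]
    congr 1
    push_cast
    ring
  rw [e1] at h2
  have e2 : (s / 2 * (‖y‖ ^ 2) ^ (s / 2 - 1)) • (2 • innerSL ℝ y) =
      (s * ‖y‖ ^ (s - 2)) • innerSL ℝ y := by
    have : (‖y‖ ^ 2) ^ (s / 2 - 1) = ‖y‖ ^ (s - 2) := by
      rw [← Real.rpow_natCast, ← Real.rpow_mul (norm_nonneg _)]
      congr 1
      push_cast
      ring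
    rw [this, two_smul, ← two_smul ℝ, smul_smul]
    congr 1
    ring
  rw [e2] at h2
  exact h2

private theorem bar2_W_hasFDeriv {s : ℝ} (hs : 0 ≤ s) (y : E n) :
    HasFDerivAt (bar2_W s) (bar2_DW s y) y := by
  by_cases hy : y = 0
  · subst hy
    rcases hs.eq_or_lt with h | h
    · subst h
      have e1 : (bar2_W 0 : E n → E n) = id := by
        funext x
        simp [bar2_W]
      have e2 : (bar2_DW 0 (0 : E n)) = ContinuousLinearMap.id ℝ (E n) := by
        unfold bar2_DW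
        simp
      rw [e1, e2]
      exact hasFDerivAt_id 0
    · have e2 : (bar2_DW s (0 : E n)) = 0 := by
        unfold bar2_DW
        ext v
        simp [Real.zero_rpow h.ne']
      rw [e2, hasFDerivAt_iff_isLittleO_nhds_zero]
      have h3 : (fun x : E n => bar2_W s (0 + x) - bar2_W s 0 - (0 : E n →L[ℝ] E n) x) =
          fun x => ‖x‖ ^ s • x := by
        funext x
        simp [bar2_W]
      rw [h3]
      have h4 : (fun x : E n => ‖x‖ ^ s) =o[𝓝 0] (fun _ : E n => (1 : ℝ)) := by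
        rw [Asymptotics.isLittleO_one_iff]
        have : ContinuousAt (fun x : E n => ‖x‖ ^ s) 0 :=
          (continuous_norm.continuousAt).rpow_const (Or.inr hs)
        simpa [ContinuousAt, Real.zero_rpow h.ne'] using this
      have h5 := h4.smul_isBigO (Asymptotics.isBigO_refl (fun x : E n => x) (𝓝 0))
      simpa using h5
  · have h1 := (bar2_norm_hasFDeriv s hy).smul (hasFDerivAt_id y)
    refine h1.congr_fderiv ?_
    unfold bar2_DW
    ext v
    simp
    ring

private theorem bar2_W_contDiff {s : ℝ} (hs : 0 ≤ s) :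
    ContDiff ℝ 1 (bar2_W s : E n → E n) := by
  rw [contDiff_one_iff_hasFDerivAt]
  refine ⟨bar2_DW s, ?_, bar2_W_hasFDeriv hs⟩
  unfold bar2_DW
  have h1 : Continuous (fun y : E n => ‖y‖ ^ s • ContinuousLinearMap.id ℝ (E n)) :=
    (continuous_norm.rpow_const fun _ => Or.inr hs).smul continuous_const
  refine h1.add ?_
  rw [continuous_iff_continuousAt]
  intro y
  by_cases hy : y = 0
  · subst hy
    rcases hs.eq_or_lt with h | h
    · subst h
      simp only [zero_mul, zero_smul]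
      exact continuousAt_const
    · unfold ContinuousAt
      have e0 : (s * ‖(0 : E n)‖ ^ (s - 2)) • (innerSL ℝ (0 : E n)).smulRight (0 : E n) = 0 := by
        simp
      change Tendsto _ _ (𝓝 ((s * ‖(0 : E n)‖ ^ (s - 2)) •
        (innerSL ℝ (0 : E n)).smulRight (0 : E n)))
      rw [e0]
      have hlim : Tendsto (fun y : E n => s * ‖y‖ ^ s) (𝓝 0) (𝓝 0) := by
        have : ContinuousAt (fun x : E n => s * ‖x‖ ^ s) 0 :=
          continuousAt_const.mul ((continuous_norm.continuousAt).rpow_const (Or.inr hs))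
        simpa [ContinuousAt, Real.zero_rpow h.ne'] using this
      refine squeeze_zero_norm (fun y => ?_) hlim
      rw [norm_smul, Real.norm_eq_abs, abs_of_nonneg (by positivity),
        ContinuousLinearMap.norm_smulRight_apply, innerSL_apply_norm, mul_assoc]
      by_cases hy : y = 0
      · subst hy
        simp [Real.zero_rpow h.ne']
      · have h0 : 0 < ‖y‖ := norm_pos_iff.2 hy
        refine mul_le_mul_of_nonneg_left (le_of_eq ?_) hs
        have : ‖y‖ ^ s = ‖y‖ ^ (s - 2) * ‖y‖ ^ (2 : ℝ) := by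
          rw [← Real.rpow_add h0]
          congr 1
          ring
        rw [this]
        congr 1
        rw [show (2 : ℝ) = ((2 : ℕ) : ℝ) by norm_num, Real.rpow_natCast]
        ring
  · have h0 : ‖y‖ ≠ 0 := norm_ne_zero_iff.2 hy
    have h2 : ContinuousAt (fun y : E n => s * ‖y‖ ^ (s - 2)) y :=
      continuousAt_const.mul ((continuous_norm.continuousAt).rpow_const (Or.inl h0))
    have h3 : Continuous (fun y : E n => (innerSL ℝ y).smulRight y) := by
      have : Continuous fun y : E n => (innerSL ℝ y : E n →L[ℝ] ℝ) := (innerSL ℝ).continuous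
      exact (ContinuousLinearMap.smulRightL ℝ (E n) (E n)).continuous₂.comp
        (this.prodMk continuous_id)
    exact h2.smul h3.continuousAt

private theorem bar2_sq {s : ℝ} (hs : 0 ≤ s) (y : E n) :
    s * ‖y‖ ^ (s - 2) * ‖y‖ ^ 2 = s * ‖y‖ ^ s := by
  by_cases hy : y = 0
  · subst hy
    rcases hs.eq_or_lt with h | h
    · rw [← h]
      simp
    · simp [Real.zero_rpow h.ne']
  · have h0 : 0 < ‖y‖ := norm_pos_iff.2 hy
    have : ‖y‖ ^ s = ‖y‖ ^ (s - 2) * ‖y‖ ^ (2 : ℝ) := by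
      rw [← Real.rpow_add h0]
      congr 1
      ring
    rw [this, show (2 : ℝ) = ((2 : ℕ) : ℝ) by norm_num, Real.rpow_natCast]
    ring

private theorem bar2_psi_hasFDeriv (x₁ x : E n) (α β : ℝ) :
    HasFDerivAt (fun x : E n => α - β * ‖x - x₁‖ ^ 2) (-((2 * β) • innerSL ℝ (x - x₁))) x := by
  have h1 : HasFDerivAt (fun y : E n => ‖y‖ ^ 2) (2 • innerSL ℝ (x - x₁)) (x - x₁) := by
    have := (hasStrictFDerivAt_norm_sq (x - x₁)).hasFDerivAt
    simpa using this
  have h2 : HasFDerivAt (fun x : E n => x - x₁) (ContinuousLinearMap.id ℝ (E n)) x :=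
    (hasFDerivAt_id x).sub_const x₁
  have h3 : HasFDerivAt (fun x : E n => ‖x - x₁‖ ^ 2) (2 • innerSL ℝ (x - x₁)) x := by
    have h := HasFDerivAt.comp (g := fun y : E n => ‖y‖ ^ 2) (f := fun x : E n => x - x₁) x h1 h2
    exact h.congr_fderiv (ContinuousLinearMap.comp_id _)
  have h4 := (h3.const_mul β).const_sub α
  refine h4.congr_fderiv ?_
  ext v
  simp
  ring

/-- the divergence of the flux of the barrier -/
private theorem bar2_div {s : ℝ} (hs : 0 ≤ s) (x₁ x : E n) (α β B : ℝ) :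
    ∑ i, (fderiv ℝ (fun x : E n => (-(B * (α - β * ‖x - x₁‖ ^ 2))) • bar2_W s (x - x₁)) x
      (EuclideanSpace.single i 1)) i =
      B * (2 * β * ‖x - x₁‖ ^ 2 * ‖x - x₁‖ ^ s -
        ((n : ℝ) + s) * (α - β * ‖x - x₁‖ ^ 2) * ‖x - x₁‖ ^ s) := by
  set y := x - x₁ with hy
  have h2 : HasFDerivAt (fun x : E n => x - x₁) (ContinuousLinearMap.id ℝ (E n)) x :=
    (hasFDerivAt_id x).sub_const x₁
  have h3 : HasFDerivAt (fun x : E n => bar2_W s (x - x₁)) (bar2_DW s y) x := by
    have h := HasFDerivAt.comp (g := bar2_W s) (f := fun x : E n => x - x₁) x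
      (bar2_W_hasFDeriv hs y) h2
    exact h.congr_fderiv (ContinuousLinearMap.comp_id _)
  have h4 := ((bar2_psi_hasFDeriv x₁ x α β).const_mul B).neg
  have h5 := h4.smul h3
  have h6 : HasFDerivAt (fun x : E n => (-(B * (α - β * ‖x - x₁‖ ^ 2))) • bar2_W s (x - x₁))
      ((-(B * (α - β * ‖x - x₁‖ ^ 2))) • bar2_DW s y +
        (-(B • -((2 * β) • innerSL ℝ (x - x₁)))).smulRight (bar2_W s (x - x₁))) x := h5
  rw [h6.fderiv]
  have e : ∀ i : Fin n, ((((-(B * (α - β * ‖x - x₁‖ ^ 2))) • bar2_DW s y +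
        (-(B • -((2 * β) • innerSL ℝ (x - x₁)))).smulRight (bar2_W s (x - x₁)))
          (EuclideanSpace.single i 1)) : E n) i =
      (-(B * (α - β * ‖y‖ ^ 2))) * ‖y‖ ^ s +
      (-(B * (α - β * ‖y‖ ^ 2)) * (s * ‖y‖ ^ (s - 2)) + 2 * β * B * ‖y‖ ^ s) * (y i * y i) := by
    intro i
    rw [← hy]
    unfold bar2_DW bar2_W
    simp [EuclideanSpace.inner_single_right]
    ring
  simp only [e]
  rw [Finset.sum_add_distrib, Finset.sum_const, Finset.card_univ, Fintype.card_fin, nsmul_eq_mul,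
    ← Finset.mul_sum]
  have hsum : ∑ i : Fin n, y i * y i = ‖y‖ ^ 2 := by
    rw [EuclideanSpace.norm_sq_eq]
    refine Finset.sum_congr rfl fun i _ => ?_
    rw [Real.norm_eq_abs, sq_abs]
    ring
  rw [hsum, add_mul]
  have h7 := bar2_sq hs y
  have h8 : -(B * (α - β * ‖y‖ ^ 2)) * (s * ‖y‖ ^ (s - 2)) * ‖y‖ ^ 2 =
      -(B * (α - β * ‖y‖ ^ 2)) * (s * ‖y‖ ^ s) := by
    rw [mul_assoc, h7]
  rw [h8]
  ring

/-- the gradient of the barrier -/
private theorem bar2_grad {m : ℝ} (x₁ x : E n) (α β : ℝ) (hψ : 0 < α - β * ‖x - x₁‖ ^ 2) :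
    gradient (fun x : E n => (α - β * ‖x - x₁‖ ^ 2) ^ m) x =
      (-(2 * m * β * (α - β * ‖x - x₁‖ ^ 2) ^ (m - 1))) • (x - x₁) := by
  have h1 := (bar2_psi_hasFDeriv x₁ x α β).rpow_const (p := m) (Or.inl hψ.ne')
  apply HasGradientAt.gradient
  rw [hasGradientAt_iff_hasFDerivAt]
  refine h1.congr_fderiv ?_
  ext v
  simp [InnerProductSpace.toDual_apply_apply]
  ring

/-- the flux of the barrier -/
private theorem bar2_flux {m q : ℝ} (hm : 0 < m) (hq : q * (p - 1) = 1)
    (y : E n) {β ψ : ℝ} (hβ : 0 < β) (hψ : 0 < ψ) :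
    A p ((-(2 * m * β * ψ ^ q)) • y) = (-((2 * m * β) ^ (p - 1) * ψ)) • bar2_W (p - 2) y := by
  unfold A bar2_W
  have hk : 0 < 2 * m * β * ψ ^ q := by
    have := Real.rpow_pos_of_pos hψ q
    positivity
  rw [norm_smul, norm_neg, Real.norm_eq_abs, abs_of_pos hk, Real.mul_rpow hk.le (norm_nonneg _),
    smul_smul, smul_smul]
  congr 1
  have e1 : (2 * m * β * ψ ^ q) ^ (p - 2) * (2 * m * β * ψ ^ q) = (2 * m * β) ^ (p - 1) * ψ := by
    rw [← Real.rpow_add_one hk.ne', Real.mul_rpow (by positivity) (Real.rpow_nonneg hψ.le q),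
      ← Real.rpow_mul hψ.le]
    have e2 : p - 2 + 1 = p - 1 := by ring
    rw [e2, hq, Real.rpow_one]
  calc (2 * m * β * ψ ^ q) ^ (p - 2) * ‖y‖ ^ (p - 2) * -(2 * m * β * ψ ^ q)
      = -((2 * m * β * ψ ^ q) ^ (p - 2) * (2 * m * β * ψ ^ q)) * ‖y‖ ^ (p - 2) := by ring
    _ = -((2 * m * β) ^ (p - 1) * ψ) * ‖y‖ ^ (p - 2) := by rw [e1]

/-- comparison of a classical subsolution with a weak supersolution -/
private theorem bar2_compare (hp : 1 < p) {Ω : Set (X n)} (hΩ : IsOpen Ω) {Φ : X n → ℝ}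
    {V : X n → E n} (hΦ : ContDiffOn ℝ 1 Φ Ω) (hV : ContDiffOn ℝ 1 V Ω)
    (hsub : ∀ z ∈ Ω, dt Φ z ≤ dv V z) (hfl : ∀ z ∈ Ω, V z = A p (dx Φ z)) {v : X n → ℝ}
    {G : X n → E n} (hv : SupOn p Ω v G) {b ε : ℝ}
    (hc : ∀ τ > 0, ∃ D, IsCompact D ∧ D ⊆ Ω ∧
      ∀ᵐ z ∂(volume.restrict Ω), 0 < Φ z - ε - v z → z.2 < b - τ → z ∈ D) :
    ∀ᵐ z ∂(volume.restrict Ω), z.2 < b → Φ z - ε - v z ≤ 0 := by
  have hfin : ∀ D : Set (X n), IsCompact D → IsFiniteMeasure ((volume : Measure (X n)).restrict D) :=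
    fun D hD => ⟨by rw [Measure.restrict_apply_univ]; exact hD.measure_lt_top⟩
  have cΦ := hΦ.continuousOn
  have cdx := cls_dx_cont hΩ hΦ
  have mem_cont : ∀ {F : Type} [NormedAddCommGroup F] [NormedSpace ℝ F] (q : ENNReal) (g : X n → F),
      AEStronglyMeasurable g (volume.restrict Ω) → ContinuousOn g Ω → ∀ D, IsCompact D → D ⊆ Ω →
      MemLp g q (volume.restrict D) := by
    intro F _ _ q g hgm hg D hD hDΩ
    have := hfin D hD
    obtain ⟨M, hM⟩ := hD.exists_bound_of_continuousOn (hg.mono hDΩ)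
    refine MemLp.of_bound (hgm.mono_set hDΩ) M ?_
    rw [ae_restrict_iff' hD.measurableSet]
    exact Eventually.of_forall hM
  have mΦ : AEStronglyMeasurable Φ (volume.restrict Ω) :=
    cΦ.aestronglyMeasurable hΩ.measurableSet
  have mdx : AEStronglyMeasurable (dx Φ) (volume.restrict Ω) :=
    cdx.aestronglyMeasurable hΩ.measurableSet
  refine cmpl hp hΩ (Gd := fun z => dx Φ z - G z) (Γ := fun z => A p (dx Φ z) - A p (G z))
    ?_ ?_ ?_ ?_ ?_ ?_ ?_ hc
  · exact (mΦ.sub aestronglyMeasurable_const).sub hv.meas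
  · intro D hD hDΩ
    obtain ⟨M, hM⟩ := hD.exists_bound_of_continuousOn (cΦ.mono hDΩ)
    obtain ⟨M', hM'⟩ := hv.bdd
    refine ⟨M + |ε| + M', ?_⟩
    filter_upwards [ae_restrict_of_ae_restrict_of_subset hDΩ hM',
      (ae_restrict_iff' hD.measurableSet).2 (Eventually.of_forall hM)] with z hz1 hz2
    rw [Real.norm_eq_abs] at hz2
    calc |Φ z - ε - v z| ≤ |Φ z - ε| + |v z| := abs_sub _ _
      _ ≤ |Φ z| + |ε| + |v z| := by
          have := abs_sub (Φ z) ε
          linarith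
      _ ≤ M + |ε| + M' := by linarith
  · intro D hD hDΩ
    exact (mem_cont _ _ mdx cdx D hD hDΩ).sub (hv.memG D hD hDΩ)
  · -- the weak gradient
    intro φ hφ
    have cφ := hφ.smooth.continuous
    have cdφ : Continuous (dx φ) := (contDiff_dx hφ.smooth).continuous
    have hK := hφ.cpt
    have hz0 : ∀ z, z ∉ tsupport φ → dx φ z = 0 := fun z hz => dx_zero_of_notMem z hz
    obtain ⟨M', hM'⟩ := hv.bdd
    have i2 : Integrable (fun z => v z • dx φ z) volume :=
      memLp_one_iff_integrable.1 (loc_bdd hv.meas hM' cdφ hK hφ.supp hz0 1)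
    have i3 : Integrable (fun z => ε • dx φ z) volume :=
      ((der_tst_int hφ).1.integrable_of_hasCompactSupport (der_tst_int hφ).2.1).smul ε
    have i1 : Integrable (fun z => Φ z • dx φ z) volume := by
      have hsub : tsupport (fun z => Φ z • dx φ z) ⊆ tsupport φ := by
        refine (tsupport_smul_subset_right Φ (dx φ)).trans ?_
        exact closure_minimal (fun z hz => by
          by_contra h
          exact hz (dx_zero_of_notMem z h)) (isClosed_tsupport φ)
      have hcc : Continuous (fun z => Φ z • dx φ z) := by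
        refine continuous_of_tsupport fun z hz => ?_
        have hz' : z ∈ Ω := hφ.supp (hsub hz)
        exact ((cΦ z hz').continuousAt (hΩ.mem_nhds hz')).smul cdφ.continuousAt
      exact hcc.integrable_of_hasCompactSupport
        (hφ.cpt.of_isClosed_subset (isClosed_tsupport _) hsub)
    have j1 : Integrable (fun z => φ z • dx Φ z) volume :=
      loc_int_smul (cdx.locallyIntegrableOn hΩ.measurableSet) hφ
    have j2 : Integrable (fun z => φ z • G z) volume := by
      obtain ⟨N, hN⟩ := hφ.cpt.exists_bound_of_continuous cφ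
      have := hfin _ hK
      have h1 : IntegrableOn G (tsupport φ) volume :=
        (hv.memG _ hK hφ.supp).integrable (by
          rw [← ENNReal.ofReal_one]
          exact ENNReal.ofReal_le_ofReal hp.le)
      have h2 : IntegrableOn (fun z => φ z • G z) (tsupport φ) volume :=
        Integrable.bdd_smul h1 N cφ.aestronglyMeasurable (Eventually.of_forall fun z => hN z)
      refine (integrableOn_iff_integrable_of_support_subset ?_).1 h2
      intro z hz
      apply subset_tsupport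
      intro h0
      apply hz
      simp only [h0, zero_smul]
    have e1 := cls_wg hΩ hΦ φ hφ
    have e2 := hv.wg φ hφ
    have e3 : ∫ z, ε • dx φ z = 0 := by
      rw [integral_smul, scl_int_dx hφ, smul_zero]
    have e4 : ∫ z, (Φ z - ε - v z) • dx φ z =
        (∫ z, Φ z • dx φ z) - (∫ z, ε • dx φ z) - ∫ z, v z • dx φ z := by
      have h13 : Integrable (fun z => Φ z • dx φ z - ε • dx φ z) volume := i1.sub i3
      rw [← integral_sub i1 i3, ← integral_sub h13 i2]
      refine integral_congr_ae (Eventually.of_forall fun z => ?_)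
      simp only [sub_smul]
    have e5 : ∫ z, φ z • (dx Φ z - G z) = (∫ z, φ z • dx Φ z) - ∫ z, φ z • G z := by
      rw [← integral_sub j1 j2]
      refine integral_congr_ae (Eventually.of_forall fun z => ?_)
      simp only [smul_sub]
    rw [e4, e5, e1, e2, e3]
    abel
  · intro D hD hDΩ
    exact (memLp_flux hp (mem_cont _ _ mdx cdx D hD hDΩ)).sub (memLp_flux hp (hv.memG D hD hDΩ))
  · -- the differential inequality
    intro φ hφ h0
    have h1 := cls hΩ hΦ hV hsub φ hφ h0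
    have h2 := hv.ineq φ hφ h0
    have cφ := hφ.smooth.continuous
    have cdφ : Continuous (dx φ) := (contDiff_dx hφ.smooth).continuous
    obtain ⟨c1, s1, c2, s2⟩ := der_tst_int hφ
    have hK := hφ.cpt
    have hz0 : ∀ z, z ∉ tsupport φ → dt φ z = 0 := fun z hz => dt_zero_of_notMem z hz
    obtain ⟨M', hM'⟩ := hv.bdd
    have i2 : Integrable (fun z => v z * dt φ z) volume := by
      have := memLp_one_iff_integrable.1 (loc_bdd hv.meas hM' c2 hK hφ.supp hz0 1)
      simpa only [smul_eq_mul] using this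
    have i3 : Integrable (fun z => ε * dt φ z) volume :=
      (c2.integrable_of_hasCompactSupport s2).const_mul ε
    have i1 : Integrable (fun z => Φ z * dt φ z) volume := by
      have hsub : tsupport (fun z => Φ z * dt φ z) ⊆ tsupport φ := by
        refine (tsupport_mul_subset_right).trans ?_
        exact closure_minimal (fun z hz => by
          by_contra h
          exact hz (dt_zero_of_notMem z h)) (isClosed_tsupport φ)
      have hcc : Continuous (fun z => Φ z * dt φ z) := by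
        refine continuous_of_tsupport fun z hz => ?_
        have hz' : z ∈ Ω := hφ.supp (hsub hz)
        exact ((cΦ z hz').continuousAt (hΩ.mem_nhds hz')).mul c2.continuousAt
      exact hcc.integrable_of_hasCompactSupport
        (hφ.cpt.of_isClosed_subset (isClosed_tsupport _) hsub)
    have inn : ∀ H : X n → E n, MemLp H (ENNReal.ofReal (cj p)) (volume.restrict (tsupport φ)) →
        Integrable (fun z => inner ℝ (H z) (dx φ z)) volume := by
      intro H hH
      have h3 := (holder_inner hp hH (μ := volume.restrict (tsupport φ))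
        ((c1.memLp_of_hasCompactSupport s1).restrict (tsupport φ))).1
      refine (integrableOn_iff_integrable_of_support_subset ?_).1 h3
      intro z hz
      by_contra hzs
      apply hz
      simp only [dx_zero_of_notMem z hzs, inner_zero_right]
    have k1 := inn _ (memLp_flux hp (mem_cont _ _ mdx cdx _ hK hφ.supp))
    have k2 := inn _ (memLp_flux hp (hv.memG _ hK hφ.supp))
    have e3 : ∫ z, ε * dt φ z = 0 := by
      rw [integral_const_mul, scl_int_dt hφ, mul_zero]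
    have e4 : ∫ z, (Φ z - ε - v z) * dt φ z =
        (∫ z, Φ z * dt φ z) - (∫ z, ε * dt φ z) - ∫ z, v z * dt φ z := by
      have h13 : Integrable (fun z => Φ z * dt φ z - ε * dt φ z) volume := i1.sub i3
      rw [← integral_sub i1 i3, ← integral_sub h13 i2]
      refine integral_congr_ae (Eventually.of_forall fun z => ?_)
      simp only [sub_mul]
    have e5 : ∫ z, inner ℝ (A p (dx Φ z) - A p (G z)) (dx φ z) =
        (∫ z, inner ℝ (A p (dx Φ z)) (dx φ z)) - ∫ z, inner ℝ (A p (G z)) (dx φ z) := by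
      rw [← integral_sub k1 k2]
      refine integral_congr_ae (Eventually.of_forall fun z => ?_)
      simp only [inner_sub_left]
    have e6 : ∫ z, inner ℝ (V z) (dx φ z) = ∫ z, inner ℝ (A p (dx Φ z)) (dx φ z) := by
      refine integral_congr_ae (Eventually.of_forall fun z => ?_)
      simp only
      by_cases hz : z ∈ tsupport φ
      · rw [hfl z (hφ.supp hz)]
      · rw [dx_zero_of_notMem z hz, inner_zero_right, inner_zero_right]
    change (-∫ z, (Φ z - ε - v z) * dt φ z) +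
      ∫ z, inner ℝ (A p (dx Φ z) - A p (G z)) (dx φ z) ≤ ∫ z, (fun _ => (0 : ℝ)) z * φ z
    rw [e4, e5, e3]
    rw [e6] at h1
    linarith
  · exact Eventually.of_forall fun z => A_mono hp _ _


/-- the barrier is a classical subsolution -/
private theorem bar2_sub (hp : 2 ≤ p) {Ω : Set (X n)} (x₁ : E n) {α β S : ℝ → ℝ}
    {J : Set ℝ} {L m q e : ℝ} (hm : m = 1 + q) (hq0 : 0 < q) (hq : q * (p - 1) = 1)
    (he : e = (p - 2) / 2)
    (hkey : ∀ X : ℝ, 0 ≤ X → X < 1 →
      (1 - X) ^ q * (X - L * (1 - X)) ≤ X ^ e * (2 * X - ((n : ℝ) + (p - 2)) * (1 - X)))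
    (cα : ContDiffOn ℝ 1 α J) (cβ : ContDiffOn ℝ 1 β J)
    (dα : ∀ t ∈ J, HasDerivAt α (-(L * S t * α t)) t)
    (dβ : ∀ t ∈ J, HasDerivAt β (-((L + 1) * S t * β t)) t)
    (pα : ∀ t ∈ J, 0 < α t) (pβ : ∀ t ∈ J, 0 < β t) (pS : ∀ t ∈ J, 0 < S t)
    (hK : ∀ t ∈ J, m * α t ^ q * S t = (2 * m * β t) ^ (p - 1) * (α t / β t) ^ e)
    (hJ : ∀ z ∈ Ω, z.2 ∈ J) (hψ : ∀ z ∈ Ω, 0 < α z.2 - β z.2 * ‖z.1 - x₁‖ ^ 2) :
    ContDiffOn ℝ 1 (fun z : X n => (α z.2 - β z.2 * ‖z.1 - x₁‖ ^ 2) ^ m) Ω ∧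
    ContDiffOn ℝ 1 (fun z : X n => (-((2 * m * β z.2) ^ (p - 1) *
      (α z.2 - β z.2 * ‖z.1 - x₁‖ ^ 2))) • bar2_W (p - 2) (z.1 - x₁)) Ω ∧
    (∀ z ∈ Ω, dt (fun z : X n => (α z.2 - β z.2 * ‖z.1 - x₁‖ ^ 2) ^ m) z ≤
      dv (fun z : X n => (-((2 * m * β z.2) ^ (p - 1) *
      (α z.2 - β z.2 * ‖z.1 - x₁‖ ^ 2))) • bar2_W (p - 2) (z.1 - x₁)) z) ∧
    (∀ z ∈ Ω, (-((2 * m * β z.2) ^ (p - 1) *
      (α z.2 - β z.2 * ‖z.1 - x₁‖ ^ 2))) • bar2_W (p - 2) (z.1 - x₁) =
      A p (dx (fun z : X n => (α z.2 - β z.2 * ‖z.1 - x₁‖ ^ 2) ^ m) z)) := by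
  have hm0 : 0 < m := by rw [hm]; linarith
  have cψ : ContDiffOn ℝ 1 (fun z : X n => α z.2 - β z.2 * ‖z.1 - x₁‖ ^ 2) Ω := by
    have h1 : ContDiffOn ℝ 1 (fun z : X n => α z.2) Ω :=
      cα.comp contDiff_snd.contDiffOn hJ
    have h2 : ContDiffOn ℝ 1 (fun z : X n => β z.2) Ω :=
      cβ.comp contDiff_snd.contDiffOn hJ
    have h3 : ContDiff ℝ 1 (fun z : X n => ‖z.1 - x₁‖ ^ 2) :=
      (contDiff_fst.sub contDiff_const).norm_sq ℝ
    exact h1.sub (h2.mul h3.contDiffOn)
  have cB : ContDiffOn ℝ 1 (fun z : X n => (2 * m * β z.2) ^ (p - 1)) Ω := by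
    have h2 : ContDiffOn ℝ 1 (fun z : X n => β z.2) Ω :=
      cβ.comp contDiff_snd.contDiffOn hJ
    refine (contDiffOn_const.mul h2).rpow_const_of_ne fun z hz => ?_
    have := pβ _ (hJ z hz)
    positivity
  refine ⟨cψ.rpow_const_of_ne fun z hz => (hψ z hz).ne', ?_, ?_, ?_⟩
  · refine (cB.mul cψ).neg.smul ?_
    exact ((bar2_W_contDiff (by linarith)).comp
      (contDiff_fst.sub contDiff_const)).contDiffOn
  · intro z hz
    have hzJ := hJ z hz
    have h1 : HasDerivAt (fun t => α t - β t * ‖z.1 - x₁‖ ^ 2)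
        (-(L * S z.2 * α z.2) - -((L + 1) * S z.2 * β z.2) * ‖z.1 - x₁‖ ^ 2) z.2 :=
      (dα _ hzJ).sub ((dβ _ hzJ).mul_const _)
    have h2 := h1.rpow_const (p := m) (Or.inl (hψ z hz).ne')
    have e1 : dt (fun z : X n => (α z.2 - β z.2 * ‖z.1 - x₁‖ ^ 2) ^ m) z =
        m * (α z.2 - β z.2 * ‖z.1 - x₁‖ ^ 2) ^ q *
          (-(L * S z.2 * α z.2) + (L + 1) * S z.2 * β z.2 * ‖z.1 - x₁‖ ^ 2) := by
      unfold dt
      refine h2.deriv.trans ?_
      have : m - 1 = q := by rw [hm]; ring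
      rw [this]
      ring
    have e2 : dv (fun z : X n => (-((2 * m * β z.2) ^ (p - 1) *
        (α z.2 - β z.2 * ‖z.1 - x₁‖ ^ 2))) • bar2_W (p - 2) (z.1 - x₁)) z =
        (2 * m * β z.2) ^ (p - 1) * (2 * β z.2 * ‖z.1 - x₁‖ ^ 2 * ‖z.1 - x₁‖ ^ (p - 2) -
        ((n : ℝ) + (p - 2)) * (α z.2 - β z.2 * ‖z.1 - x₁‖ ^ 2) * ‖z.1 - x₁‖ ^ (p - 2)) := by
      unfold dv
      exact bar2_div (s := p - 2) (by linarith) x₁ z.1 (α z.2) (β z.2)
        ((2 * m * β z.2) ^ (p - 1))
    have e3 : (‖z.1 - x₁‖ ^ 2) ^ e = ‖z.1 - x₁‖ ^ (p - 2) := by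
      rw [← Real.rpow_natCast, ← Real.rpow_mul (norm_nonneg _), he]
      congr 1
      push_cast
      ring
    have h3 := bar2_pt (L := L) (Y := ‖z.1 - x₁‖ ^ 2) (pα _ hzJ) (pβ _ hzJ) hm0 (pS _ hzJ)
      (hK _ hzJ) hkey (by positivity) (hψ z hz)
    rw [e3] at h3
    rw [e1, e2]
    exact h3
  · intro z hz
    have hzJ := hJ z hz
    have h1 := bar2_grad (m := m) x₁ z.1 (α z.2) (β z.2) (hψ z hz)
    have e1 : dx (fun z : X n => (α z.2 - β z.2 * ‖z.1 - x₁‖ ^ 2) ^ m) z =
        (-(2 * m * β z.2 * (α z.2 - β z.2 * ‖z.1 - x₁‖ ^ 2) ^ q)) • (z.1 - x₁) := by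
      unfold dx
      refine h1.trans ?_
      have : m - 1 = q := by rw [hm]; ring
      rw [this]
    rw [e1]
    exact (bar2_flux hm0 hq (z.1 - x₁) (pβ _ hzJ) (hψ z hz)).symm

/-- the time functions of the barrier -/
private theorem bar2_time (hp : 2 ≤ p) {L m q e a₀ ρ : ℝ} (hL : 0 < L) (hm : m = 1 + q)
    (hq0 : 0 < q) (hq : q * (p - 1) = 1) (he : e = (p - 2) / 2) (ha : 0 < a₀) (hρ : 0 < ρ) :
    ∃ (γ μ : ℝ) (s α β S : ℝ → ℝ), 0 < γ ∧ 0 < μ ∧ (∀ u, s u = μ * Real.log (1 + γ * u)) ∧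
      (∀ u, α u = a₀ * Real.exp (-(L * s u))) ∧
      (∀ u, 0 < β u ∧ α u = β u * (ρ * Real.exp (s u))) ∧
      (∀ u w, 0 ≤ u → u ≤ w → s u ≤ s w ∧ β w ≤ β u) ∧
      (ContDiffOn ℝ 1 α (Ioi 0)) ∧ (ContDiffOn ℝ 1 β (Ioi 0)) ∧
      (∀ u ∈ Ioi (0 : ℝ), HasDerivAt α (-(L * S u * α u)) u) ∧
      (∀ u ∈ Ioi (0 : ℝ), HasDerivAt β (-((L + 1) * S u * β u)) u) ∧
      (∀ u ∈ Ioi (0 : ℝ), 0 < S u) ∧
      (∀ u ∈ Ioi (0 : ℝ), m * α u ^ q * S u = (2 * m * β u) ^ (p - 1) * (α u / β u) ^ e) := by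
  have hm0 : 0 < m := by rw [hm]; linarith
  set b₀ : ℝ := a₀ / ρ with hb₀
  have hb : 0 < b₀ := by positivity
  have hq1 : q ≤ 1 := by nlinarith
  set μ : ℝ := 1 / (L * (p - 1 - q) + p / 2) with hμ
  have hden : 0 < L * (p - 1 - q) + p / 2 := by
    have : 0 ≤ L * (p - 1 - q) := mul_nonneg hL.le (by linarith)
    linarith
  have hμ0 : 0 < μ := by positivity
  set K : ℝ := (2 * m * b₀) ^ (p - 1) * (a₀ / b₀) ^ e / (m * a₀ ^ q) with hK
  have hK0 : 0 < K := by
    have h1 : 0 < (2 * m * b₀) ^ (p - 1) := Real.rpow_pos_of_pos (by positivity) _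
    have h2 : 0 < (a₀ / b₀) ^ e := Real.rpow_pos_of_pos (by positivity) _
    have h3 : 0 < a₀ ^ q := Real.rpow_pos_of_pos (by positivity) _
    positivity
  set γ : ℝ := K / μ with hγ
  have hγ0 : 0 < γ := by positivity
  have hμγ : μ * γ = K := by rw [hγ]; field_simp
  refine ⟨γ, μ, fun u => μ * Real.log (1 + γ * u),
    fun u => a₀ * Real.exp (-(L * (μ * Real.log (1 + γ * u)))),
    fun u => b₀ * Real.exp (-((L + 1) * (μ * Real.log (1 + γ * u)))),
    fun u => μ * γ / (1 + γ * u), hγ0, hμ0, fun u => rfl, fun u => rfl, ?_, ?_, ?_, ?_, ?_, ?_,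
    ?_, ?_⟩
  · intro u
    refine ⟨by positivity, ?_⟩
    have e1 : Real.exp (-((L + 1) * (μ * Real.log (1 + γ * u)))) *
        Real.exp (μ * Real.log (1 + γ * u)) = Real.exp (-(L * (μ * Real.log (1 + γ * u)))) := by
      rw [← Real.exp_add]
      congr 1
      ring
    simp only
    rw [← e1, hb₀]
    field_simp
  · intro u w hu huw
    have h1 : μ * Real.log (1 + γ * u) ≤ μ * Real.log (1 + γ * w) := by
      apply mul_le_mul_of_nonneg_left _ hμ0.le
      apply Real.log_le_log (by positivity)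
      have := mul_le_mul_of_nonneg_left huw hγ0.le
      linarith
    refine ⟨h1, ?_⟩
    simp only
    apply mul_le_mul_of_nonneg_left _ hb.le
    apply Real.exp_le_exp.2
    have := mul_le_mul_of_nonneg_left h1 (by linarith : (0 : ℝ) ≤ L + 1)
    linarith
  · have h1 : ContDiffOn ℝ 1 (fun u : ℝ => Real.log (1 + γ * u)) (Ioi 0) := by
      refine ContDiffOn.log (by fun_prop) fun u hu => ?_
      have : (0 : ℝ) < u := hu
      positivity
    exact contDiffOn_const.mul ((contDiffOn_const.mul (contDiffOn_const.mul h1)).neg.exp)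
  · have h1 : ContDiffOn ℝ 1 (fun u : ℝ => Real.log (1 + γ * u)) (Ioi 0) := by
      refine ContDiffOn.log (by fun_prop) fun u hu => ?_
      have : (0 : ℝ) < u := hu
      positivity
    exact contDiffOn_const.mul ((contDiffOn_const.mul (contDiffOn_const.mul h1)).neg.exp)
  · intro u hu
    have hu' : (0 : ℝ) < u := hu
    have h0 : (1 + γ * u) ≠ 0 := by positivity
    have h1 : HasDerivAt (fun u : ℝ => 1 + γ * u) γ u := by
      simpa using ((hasDerivAt_id u).const_mul γ).const_add 1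
    have h2 := (((h1.log h0).const_mul μ).const_mul L).neg.exp.const_mul a₀
    refine h2.congr_deriv ?_
    simp only [Pi.neg_apply]
    ring
  · intro u hu
    have hu' : (0 : ℝ) < u := hu
    have h0 : (1 + γ * u) ≠ 0 := by positivity
    have h1 : HasDerivAt (fun u : ℝ => 1 + γ * u) γ u := by
      simpa using ((hasDerivAt_id u).const_mul γ).const_add 1
    have h2 := (((h1.log h0).const_mul μ).const_mul (L + 1)).neg.exp.const_mul b₀
    refine h2.congr_deriv ?_
    simp only [Pi.neg_apply]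
    ring
  · intro u hu
    have hu' : (0 : ℝ) < u := hu
    positivity
  · intro u hu
    have hu' : (0 : ℝ) < u := hu
    have h0 : 0 < 1 + γ * u := by positivity
    simp only
    set s : ℝ := μ * Real.log (1 + γ * u) with hs
    have hsexp : 1 + γ * u = Real.exp (s / μ) := by
      rw [hs, mul_div_cancel_left₀ _ hμ0.ne', Real.exp_log h0]
    have e1 : (a₀ * Real.exp (-(L * s))) ^ q = a₀ ^ q * Real.exp (-(L * s) * q) := by
      rw [Real.mul_rpow ha.le (Real.exp_pos _).le, ← Real.exp_mul]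
    have e2 : (2 * m * (b₀ * Real.exp (-((L + 1) * s)))) ^ (p - 1) =
        (2 * m * b₀) ^ (p - 1) * Real.exp (-((L + 1) * s) * (p - 1)) := by
      rw [← mul_assoc, Real.mul_rpow (by positivity) (Real.exp_pos _).le, ← Real.exp_mul]
    have e3 : a₀ * Real.exp (-(L * s)) / (b₀ * Real.exp (-((L + 1) * s))) =
        a₀ / b₀ * Real.exp s := by
      rw [mul_div_mul_comm, ← Real.exp_sub]
      congr 2
      ring
    have e4 : (a₀ / b₀ * Real.exp s) ^ e = (a₀ / b₀) ^ e * Real.exp (s * e) := by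
      rw [Real.mul_rpow (by positivity) (Real.exp_pos _).le, ← Real.exp_mul]
    rw [e1, e2, e3, e4, hμγ, hsexp, hK]
    have h3 : 0 < a₀ ^ q := Real.rpow_pos_of_pos (by positivity) _
    have e5 : Real.exp (-(L * s) * q) / Real.exp (s / μ) =
        Real.exp (-((L + 1) * s) * (p - 1)) * Real.exp (s * e) := by
      rw [← Real.exp_sub, ← Real.exp_add]
      congr 1
      rw [hμ, he]
      rw [div_div_eq_mul_div, div_one]
      have : -(L * s) * q - s * (L * (p - 1 - q) + p / 2) =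
        -((L + 1) * s) * (p - 1) + s * ((p - 2) / 2) := by ring
      exact this
    calc m * (a₀ ^ q * Real.exp (-(L * s) * q)) *
          ((2 * m * b₀) ^ (p - 1) * (a₀ / b₀) ^ e / (m * a₀ ^ q) / Real.exp (s / μ)) =
          (2 * m * b₀) ^ (p - 1) * (a₀ / b₀) ^ e *
            (Real.exp (-(L * s) * q) / Real.exp (s / μ)) := by
            field_simp
      _ = _ := by
            rw [e5]
            ring


/-- long time expansion of positivity, `p ≥ 2` -/
theorem bar2 (hn : 0 < n) (hp : 2 ≤ p) {r c τ : ℝ} (hr : 0 < r) (hc : 0 < c) (hτ : 0 < τ) :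
    ∃ R T σ : ℝ, 4 ≤ R ∧ 0 < T ∧ 0 < σ ∧
    ∀ (x₁ : E n) (ta : ℝ) (v : X n → ℝ) (G : X n → E n),
      SupOn p (ball x₁ R ×ˢ Ioo ta (ta + T + 4)) v G →
      (∀ᵐ z ∂(volume.restrict (ball x₁ R ×ˢ Ioo ta (ta + T + 4))), 0 ≤ v z) →
      (∀ᵐ z ∂(volume.restrict (ball x₁ r ×ˢ Ioo ta (ta + τ))), c ≤ v z) →
      ∀ᵐ z ∂(volume.restrict (ball x₁ 3 ×ˢ Ioo (ta + T) (ta + T + 4))), σ ≤ v z := by
  have hp1 : 0 < p - 1 := by linarith
  have hq0 : 0 < 1 / (p - 1) := by positivity
  have hq : 1 / (p - 1) * (p - 1) = 1 := by field_simp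
  have hn' : (0 : ℝ) < n := by exact_mod_cast hn
  obtain ⟨L, hL, hkey⟩ := bar2_key (e := (p - 2) / 2) (q := 1 / (p - 1)) (N := n + (p - 2))
    (by linarith) hq0 (by linarith)
  set q : ℝ := 1 / (p - 1) with hqdef
  set m : ℝ := 1 + q with hm
  have hm0 : 0 < m := by rw [hm]; linarith
  have ha0 : 0 < c ^ (1 / m) := Real.rpow_pos_of_pos hc _
  have hρ : 0 < r ^ 2 / 4 := by positivity
  obtain ⟨γ, μ, s, α, β, S, hγ, hμ, hs, hα, hβ, hmono, cα, cβ, dα, dβ, pS, hK⟩ :=
    bar2_time hp (a₀ := c ^ (1 / m)) (ρ := r ^ 2 / 4) hL hm hq0 hq rfl ha0 hρ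
  have pα : ∀ u, 0 < α u := fun u => by rw [hα]; positivity
  have pβ : ∀ u, 0 < β u := fun u => (hβ u).1
  have hs0 : ∀ u, 0 ≤ u → 0 ≤ s u := by
    intro u hu
    rw [hs]
    have : 0 ≤ γ * u := by positivity
    have := Real.log_nonneg (by linarith : (1 : ℝ) ≤ 1 + γ * u)
    positivity
  -- the time `T`
  set T : ℝ := (64 / r ^ 2) ^ (1 / μ) / γ with hT
  have hT0 : 0 < T := by
    have : 0 < (64 / r ^ 2) ^ (1 / μ) := Real.rpow_pos_of_pos (by positivity) _
    positivity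
  have hsT : 16 ≤ r ^ 2 / 4 * Real.exp (s T) := by
    have h1 : Real.exp (s T) = (1 + γ * T) ^ μ := by
      rw [hs, Real.rpow_def_of_pos (by positivity), mul_comm]
    have h2 : γ * T = (64 / r ^ 2) ^ (1 / μ) := by
      rw [hT]
      field_simp
    have h3 : (64 / r ^ 2 : ℝ) ≤ (1 + γ * T) ^ μ := by
      calc (64 / r ^ 2 : ℝ) = ((64 / r ^ 2) ^ (1 / μ)) ^ μ := by
            rw [← Real.rpow_mul (by positivity), one_div, inv_mul_cancel₀ hμ.ne', Real.rpow_one]
        _ ≤ (1 + γ * T) ^ μ := by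
            refine Real.rpow_le_rpow (by positivity) ?_ hμ.le
            rw [h2]
            linarith
    rw [h1]
    calc (16 : ℝ) = r ^ 2 / 4 * (64 / r ^ 2) := by field_simp; norm_num
      _ ≤ _ := mul_le_mul_of_nonneg_left h3 hρ.le
  set Z : ℝ := r ^ 2 / 4 * Real.exp (s (T + 4)) with hZ
  have hZ0 : 0 < Z := by positivity
  set R : ℝ := max 4 (1 + Z) with hR
  have hR4 : 4 ≤ R := le_max_left _ _
  have hRZ : 1 + Z ≤ R := le_max_right _ _
  have hRZ2 : Z < R ^ 2 := by nlinarith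
  set σ : ℝ := (7 * β (T + 4)) ^ m with hσ
  have hσ0 : 0 < σ := Real.rpow_pos_of_pos (by have := pβ (T + 4); positivity) _
  refine ⟨R, T, σ, hR4, hT0, hσ0, ?_⟩
  intro x₁ ta v G hv hv0 hvc
  set Cyl : Set (X n) := ball x₁ R ×ˢ Ioo ta (ta + T + 4) with hCyl
  have hCylo : IsOpen Cyl := isOpen_ball.prod isOpen_Ioo
  set ψ : X n → ℝ := fun z => α (z.2 - ta) - β (z.2 - ta) * ‖z.1 - x₁‖ ^ 2 with hψ
  have cψ : ContinuousOn ψ {z : X n | ta < z.2} := by
    have h0 : MapsTo (fun z : X n => z.2 - ta) {z : X n | ta < z.2} (Ioi 0) := by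
      intro z hz
      have : ta < z.2 := hz
      exact sub_pos.2 this
    have h1 : ContinuousOn (fun z : X n => α (z.2 - ta)) {z : X n | ta < z.2} :=
      cα.continuousOn.comp (by fun_prop) h0
    have h2 : ContinuousOn (fun z : X n => β (z.2 - ta)) {z : X n | ta < z.2} :=
      cβ.continuousOn.comp (by fun_prop) h0
    exact h1.sub (h2.mul (by fun_prop))
  set Ω : Set (X n) := Cyl ∩ ψ ⁻¹' (Ioi 0) with hΩ
  have hCt : ∀ z ∈ Cyl, ta < z.2 := fun z hz => hz.2.1
  have hΩo : IsOpen Ω :=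
    (cψ.mono hCt).isOpen_inter_preimage hCylo isOpen_Ioi
  have hΩC : Ω ⊆ Cyl := inter_subset_left
  -- the shifted time functions
  have dα' : ∀ t ∈ Ioi ta, HasDerivAt (fun t => α (t - ta))
      (-(L * S (t - ta) * α (t - ta))) t := by
    intro t ht
    have ht' : ta < t := ht
    have := (dα (t - ta) (sub_pos.2 ht')).comp_sub_const t ta
    exact this
  have dβ' : ∀ t ∈ Ioi ta, HasDerivAt (fun t => β (t - ta))
      (-((L + 1) * S (t - ta) * β (t - ta))) t := by
    intro t ht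
    have ht' : ta < t := ht
    have := (dβ (t - ta) (sub_pos.2 ht')).comp_sub_const t ta
    exact this
  have hsh : MapsTo (fun t : ℝ => t - ta) (Ioi ta) (Ioi 0) := fun t ht => by
    have ht' : ta < t := ht
    exact sub_pos.2 ht'
  have cα' : ContDiffOn ℝ 1 (fun t => α (t - ta)) (Ioi ta) := cα.comp (by fun_prop) hsh
  have cβ' : ContDiffOn ℝ 1 (fun t => β (t - ta)) (Ioi ta) := cβ.comp (by fun_prop) hsh
  obtain ⟨hΦ1, hV1, hle, hfl⟩ := bar2_sub hp (Ω := Ω) x₁ (α := fun t => α (t - ta))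
    (β := fun t => β (t - ta)) (S := fun t => S (t - ta)) (J := Ioi ta) (L := L) hm hq0 hq rfl
    hkey cα' cβ' dα' dβ' (fun t _ => pα _) (fun t _ => pβ _) (fun t ht => pS _ (hsh ht))
    (fun t ht => hK _ (hsh ht)) (fun z hz => hCt z hz.1) (fun z hz => hz.2)
  -- the supersolution on the smaller set
  have hvΩ : SupOn p Ω v G := by
    obtain ⟨M, hM⟩ := hv.bdd
    exact ⟨hv.meas.mono_set hΩC, ⟨M, ae_restrict_of_ae_restrict_of_subset hΩC hM⟩,
      fun K hK hKΩ => hv.memG K hK (hKΩ.trans hΩC),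
      fun φ hφ => hv.wg φ ⟨hφ.smooth, hφ.cpt, hφ.supp.trans hΩC⟩,
      fun φ hφ h0 => hv.ineq φ ⟨hφ.smooth, hφ.cpt, hφ.supp.trans hΩC⟩ h0⟩
  -- the initial time
  set δ : ℝ := min (τ / 2) (1 / (μ * γ)) with hδ
  have hδ0 : 0 < δ := lt_min (by positivity) (by positivity)
  have hδτ : δ ≤ τ / 2 := min_le_left _ _
  have hδγ : δ ≤ 1 / (μ * γ) := min_le_right _ _
  have hsδ : ∀ u, 0 ≤ u → u ≤ δ → r ^ 2 / 4 * Real.exp (s u) ≤ r ^ 2 := by
    intro u hu huδ
    have h1 : s u ≤ 1 := by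
      rw [hs]
      have h2 : Real.log (1 + γ * u) ≤ γ * u := by
        have := Real.log_le_sub_one_of_pos (by positivity : (0 : ℝ) < 1 + γ * u)
        linarith
      calc μ * Real.log (1 + γ * u) ≤ μ * (γ * u) := mul_le_mul_of_nonneg_left h2 hμ.le
        _ = (μ * γ) * u := by ring
        _ ≤ (μ * γ) * (1 / (μ * γ)) :=
            mul_le_mul_of_nonneg_left (huδ.trans hδγ) (by positivity)
        _ = 1 := by field_simp
    have h3 : Real.exp (s u) ≤ 4 := by
      calc Real.exp (s u) ≤ Real.exp 1 := Real.exp_le_exp.2 h1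
        _ ≤ 4 := by
            have := Real.exp_one_lt_d9
            linarith
    nlinarith
  -- size of `ψ`
  have hψle : ∀ z : X n, ta < z.2 → 0 < ψ z →
      ‖z.1 - x₁‖ ^ 2 < r ^ 2 / 4 * Real.exp (s (z.2 - ta)) := by
    intro z hz hpos
    have h1 : α (z.2 - ta) = β (z.2 - ta) * (r ^ 2 / 4 * Real.exp (s (z.2 - ta))) :=
      (hβ _).2
    have h2 : 0 < β (z.2 - ta) *
        (r ^ 2 / 4 * Real.exp (s (z.2 - ta)) - ‖z.1 - x₁‖ ^ 2) := by
      have h3 : 0 < α (z.2 - ta) - β (z.2 - ta) * ‖z.1 - x₁‖ ^ 2 := hpos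
      rw [h1] at h3
      linarith
    have := (mul_pos_iff_of_pos_left (pβ (z.2 - ta))).1 h2
    linarith
  have hΦc : ∀ z : X n, ta < z.2 → 0 < ψ z → ψ z ^ m ≤ c := by
    intro z hz hpos
    have h1 : ψ z ≤ c ^ (1 / m) := by
      have h2 : 0 ≤ β (z.2 - ta) * ‖z.1 - x₁‖ ^ 2 := by
        have := pβ (z.2 - ta)
        positivity
      have h3 : α (z.2 - ta) ≤ c ^ (1 / m) := by
        rw [hα]
        have h4 : Real.exp (-(L * s (z.2 - ta))) ≤ 1 := by
          rw [Real.exp_le_one_iff]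
          have := hs0 (z.2 - ta) (by linarith)
          have := mul_nonneg hL.le this
          linarith
        calc c ^ (1 / m) * Real.exp (-(L * s (z.2 - ta))) ≤ c ^ (1 / m) * 1 :=
              mul_le_mul_of_nonneg_left h4 ha0.le
          _ = _ := mul_one _
      have h5 : ψ z = α (z.2 - ta) - β (z.2 - ta) * ‖z.1 - x₁‖ ^ 2 := rfl
      linarith
    calc ψ z ^ m ≤ (c ^ (1 / m)) ^ m := Real.rpow_le_rpow hpos.le h1 hm0.le
      _ = c := by
          rw [← Real.rpow_mul hc.le, one_div, inv_mul_cancel₀ hm0.ne', Real.rpow_one]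
  -- data of `v`
  have hv0' : ∀ᵐ z ∂(volume.restrict Ω), 0 ≤ v z := ae_restrict_of_ae_restrict_of_subset hΩC hv0
  have hvc' : ∀ᵐ z ∂(volume : Measure (X n)), z ∈ ball x₁ r ×ˢ Ioo ta (ta + τ) → c ≤ v z := by
    rw [ae_restrict_iff' (isOpen_ball.prod isOpen_Ioo).measurableSet] at hvc
    exact hvc
  -- comparison for every `ε`
  have hmain : ∀ ε : ℝ, 0 < ε → ∀ᵐ z ∂(volume.restrict Ω), ψ z ^ m - ε ≤ v z := by
    intro ε hε
    have hεm : 0 < ε ^ (1 / m) := Real.rpow_pos_of_pos hε _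
    have h := bar2_compare (by linarith : 1 < p) hΩo hΦ1 hV1 hle hfl hvΩ (b := ta + T + 4)
      (ε := ε) ?_
    · filter_upwards [h, ae_restrict_mem hΩo.measurableSet] with z hz hzΩ
      have h1 := hz (hΩC hzΩ).2.2
      change ψ z ^ m - ε - v z ≤ 0 at h1
      linarith
    · intro τ' hτ'
      refine ⟨(closedBall x₁ R ×ˢ Icc (ta + δ) (ta + T + 4 - τ')) ∩ ψ ⁻¹' (Ici (ε ^ (1 / m))),
        ?_, ?_, ?_⟩
      · have hKc : IsCompact (closedBall x₁ R ×ˢ Icc (ta + δ) (ta + T + 4 - τ')) :=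
          (isCompact_closedBall x₁ R).prod isCompact_Icc
        refine hKc.of_isClosed_subset ?_ inter_subset_left
        refine (cψ.mono ?_).preimage_isClosed_of_isClosed hKc.isClosed isClosed_Ici
        intro z hz
        have := hz.2.1
        change ta < z.2
        linarith
      · intro z hz
        have hz1 : ta + δ ≤ z.2 := hz.1.2.1
        have hz2 : z.2 ≤ ta + T + 4 - τ' := hz.1.2.2
        have hz3 : ε ^ (1 / m) ≤ ψ z := hz.2
        have hzpos : 0 < ψ z := hεm.trans_le hz3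
        have h1 := hψle z (by linarith) hzpos
        have h2 : Real.exp (s (z.2 - ta)) ≤ Real.exp (s (T + 4)) :=
          Real.exp_le_exp.2 (hmono _ _ (by linarith) (by linarith)).1
        have h3 : ‖z.1 - x₁‖ ^ 2 < R ^ 2 := by
          have := mul_le_mul_of_nonneg_left h2 hρ.le
          linarith
        have h4 : ‖z.1 - x₁‖ < R := lt_of_pow_lt_pow_left₀ 2 (by linarith) h3
        refine ⟨⟨?_, ?_, ?_⟩, hzpos⟩
        · rw [mem_ball_iff_norm]
          exact h4
        · linarith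
        · change z.2 < ta + T + 4
          linarith
      · filter_upwards [hv0', ae_restrict_of_ae hvc', ae_restrict_mem hΩo.measurableSet] with
          z h0 h1 hzΩ hpos hzt
        change 0 < ψ z ^ m - ε - v z at hpos
        have hzψ : 0 < ψ z := hzΩ.2
        have hzt' : ta < z.2 := (hΩC hzΩ).2.1
        have h2 : ε ^ (1 / m) ≤ ψ z := by
          have h3 : ε ≤ ψ z ^ m := by linarith
          calc ε ^ (1 / m) ≤ (ψ z ^ m) ^ (1 / m) :=
                Real.rpow_le_rpow hε.le h3 (by positivity)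
            _ = ψ z := by
                rw [← Real.rpow_mul hzψ.le, one_div, mul_inv_cancel₀ hm0.ne', Real.rpow_one]
        refine ⟨⟨?_, ?_, ?_⟩, h2⟩
        · exact ball_subset_closedBall (hΩC hzΩ).1
        · by_contra hlt
          have hlt' : z.2 < ta + δ := lt_of_not_ge hlt
          have h4 := hψle z hzt' hzψ
          have h5 := hsδ (z.2 - ta) (by linarith) (by linarith)
          have h6 : ‖z.1 - x₁‖ < r := lt_of_pow_lt_pow_left₀ 2 hr.le (by linarith)
          have h7 : c ≤ v z := by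
            refine h1 ⟨?_, hzt', ?_⟩
            · rw [mem_ball_iff_norm]
              exact h6
            · change z.2 < ta + τ
              linarith
          have h8 := hΦc z hzt' hzψ
          linarith
        · exact hzt.le
  -- the limit
  have hlim : ∀ᵐ z ∂(volume.restrict Ω), ψ z ^ m ≤ v z := by
    have h1 : ∀ᵐ z ∂(volume.restrict Ω), ∀ k : ℕ, ψ z ^ m - 1 / ((k : ℝ) + 1) ≤ v z := by
      rw [ae_all_iff]
      intro k
      exact hmain _ (by positivity)
    filter_upwards [h1] with z hz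
    have h2 : Tendsto (fun k : ℕ => ψ z ^ m - 1 / ((k : ℝ) + 1)) atTop (𝓝 (ψ z ^ m - 0)) :=
      tendsto_const_nhds.sub tendsto_one_div_add_atTop_nhds_zero_nat
    rw [sub_zero] at h2
    exact le_of_tendsto h2 (Eventually.of_forall hz)
  -- conclusion
  have hlim' : ∀ᵐ z ∂(volume : Measure (X n)), z ∈ Ω → ψ z ^ m ≤ v z := by
    rw [ae_restrict_iff' hΩo.measurableSet] at hlim
    exact hlim
  rw [ae_restrict_iff' (isOpen_ball.prod isOpen_Ioo).measurableSet]
  filter_upwards [hlim'] with z hz hzm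
  have hz1 : ‖z.1 - x₁‖ < 3 := mem_ball_iff_norm.1 hzm.1
  have hz2 : ta + T < z.2 := hzm.2.1
  have hz3 : z.2 < ta + T + 4 := hzm.2.2
  have h1 : 16 ≤ r ^ 2 / 4 * Real.exp (s (z.2 - ta)) := by
    have h2 : Real.exp (s T) ≤ Real.exp (s (z.2 - ta)) :=
      Real.exp_le_exp.2 (hmono _ _ hT0.le (by linarith)).1
    have := mul_le_mul_of_nonneg_left h2 hρ.le
    linarith
  have h3 : ‖z.1 - x₁‖ ^ 2 ≤ 9 := by
    have := norm_nonneg (z.1 - x₁)
    nlinarith
  have h4 : β (T + 4) ≤ β (z.2 - ta) := (hmono _ _ (by linarith) (by linarith)).2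
  have h5 : 7 * β (T + 4) ≤ ψ z := by
    have h6 : ψ z = β (z.2 - ta) *
        (r ^ 2 / 4 * Real.exp (s (z.2 - ta)) - ‖z.1 - x₁‖ ^ 2) := by
      have h7 : ψ z = α (z.2 - ta) - β (z.2 - ta) * ‖z.1 - x₁‖ ^ 2 := rfl
      rw [h7, (hβ _).2]
      ring
    rw [h6]
    have h8 := pβ (z.2 - ta)
    have h9 : 7 ≤ r ^ 2 / 4 * Real.exp (s (z.2 - ta)) - ‖z.1 - x₁‖ ^ 2 := by linarith
    calc 7 * β (T + 4) ≤ 7 * β (z.2 - ta) := by linarith
      _ = β (z.2 - ta) * 7 := by ring
      _ ≤ _ := mul_le_mul_of_nonneg_left h9 h8.le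
  have h10 : 0 < 7 * β (T + 4) := by
    have := pβ (T + 4)
    positivity
  have hzΩ : z ∈ Ω := by
    refine ⟨⟨?_, ?_, hz3⟩, ?_⟩
    · rw [mem_ball_iff_norm]
      linarith
    · linarith
    · change 0 < ψ z
      linarith
  calc σ = (7 * β (T + 4)) ^ m := rfl
    _ ≤ ψ z ^ m := Real.rpow_le_rpow h10.le h5 hm0.le
    _ ≤ v z := hz hzΩ

end PP
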