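import Pool.Agent.PP.EXT2
import Pool.Agent.PP.CAL3
import Pool.Agent.PP.LOC

open Set Metric Filter Topology MeasureTheory
open scoped ContDiff

noncomputable section

namespace PP

variable {n : ℕ}
variable {p : ℝ}

/-- a neighbourhood of the support, stable under small time shifts -/
theorem cacc_nbhd {Ω K : Set (X n)} (hΩ : IsOpen Ω) (hK : IsCompact K) (hKΩ : K ⊆ Ω) :
    ∃ D : Set (X n), IsCompact D ∧ D ⊆ Ω ∧ K ⊆ D ∧ ∃ s₀ > 0, ∀ r : ℝ, |r| ≤ s₀ → ∀ z ∈ K,
      ((z.1, z.2 + r) : X n) ∈ D := by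
  obtain ⟨D, hD, hKD, hDΩ⟩ := exists_compact_between hK hΩ hKΩ
  obtain ⟨δ, hδ, hd⟩ := hK.exists_cthickening_subset_open isOpen_interior hKD
  refine ⟨D, hD, hDΩ, hKD.trans interior_subset, δ, hδ, fun r hr z hz => ?_⟩
  apply interior_subset
  apply hd
  apply mem_cthickening_of_dist_le _ z δ K hz
  rw [Prod.dist_eq]
  refine max_le ?_ ?_
  · simp [hδ.le]
  · simp only [Real.dist_eq]
    rw [show z.2 + r - z.2 = r by ring]
    exact hr

theorem cacc_int {Ω : Set (X n)} {u : X n → ℝ}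
    (hu : AEStronglyMeasurable u (volume.restrict Ω))
    (hb : ∃ M : ℝ, ∀ᵐ z ∂(volume.restrict Ω), |u z| ≤ M) {F : Type*} [NormedAddCommGroup F]
    [NormedSpace ℝ F] {g : X n → F} (hg : Continuous g) {φ : X n → ℝ} (hφ : Tst Ω φ)
    (hgφ : ∀ z, z ∉ tsupport φ → g z = 0) : Integrable (fun z => u z • g z) volume := by
  obtain ⟨M, hM⟩ := hb
  exact memLp_one_iff_integrable.1 (loc_bdd hu hM hg hφ.cpt hφ.supp hgφ 1)

theorem cacc_flux_int (hp : 1 < p) {Ω : Set (X n)} {Γ : X n → E n}
    (hΓ : ∀ K, IsCompact K → K ⊆ Ω → MemLp Γ (ENNReal.ofReal (cj p)) (volume.restrict K))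
    {Φ : X n → E n} (hΦ : MemLp Φ (ENNReal.ofReal p) volume) {K : Set (X n)} (hK : IsCompact K)
    (hKΩ : K ⊆ Ω) (hz : ∀ z, z ∉ K → Φ z = 0) :
    Integrable (fun z => (inner ℝ (Γ z) (Φ z) : ℝ)) volume := by
  have h1 := (holder_inner hp (hΓ K hK hKΩ) (hΦ.restrict K)).1
  refine (integrableOn_iff_integrable_of_support_subset (s := K) ?_).1 h1
  intro z hz'
  by_contra hzK
  apply hz'
  simp only [hz z hzK, inner_zero_right]

theorem cacc (hp : 1 < p) {Ω : Set (X n)} (hΩ : IsOpen Ω) {u v : X n → ℝ} {Gu Gv : X n → E n}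
    (hu : SolOn p Ω u Gu) (hv : SolOn p Ω v Gv) {ζ : X n → ℝ} (hζ : Tst Ω ζ)
    (h0 : ∀ y, 0 ≤ ζ y) :
    ∫ y, ζ y * inner ℝ (A p (Gu y) - A p (Gv y)) (Gu y - Gv y) ≤
      (1 / 2) * (∫ y, dt ζ y * (u y - v y) ^ 2) -
        ∫ y, (u y - v y) * inner ℝ (A p (Gu y) - A p (Gv y)) (dx ζ y) := by
  have hp0 : 0 < p := by linarith
  have hcj : 0 < cj p := lps_cj_pos hp
  have haar := AVG1_haar (n := n)
  set d : X n → ℝ := fun y => u y - v y with hd
  set Gd : X n → E n := fun y => Gu y - Gv y with hGd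
  set Γ : X n → E n := fun y => A p (Gu y) - A p (Gv y) with hΓdef
  -- basic facts
  have dmeas : AEStronglyMeasurable d (volume.restrict Ω) := hu.meas.sub hv.meas
  have dbdd : ∃ M : ℝ, ∀ᵐ z ∂(volume.restrict Ω), |d z| ≤ M := by
    obtain ⟨M1, h1⟩ := hu.bdd
    obtain ⟨M2, h2⟩ := hv.bdd
    refine ⟨M1 + M2, ?_⟩
    filter_upwards [h1, h2] with z a b
    exact (abs_sub _ _).trans (add_le_add a b)
  have GdL : ∀ K, IsCompact K → K ⊆ Ω → MemLp Gd (ENNReal.ofReal p) (volume.restrict K) :=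
    fun K hK hKΩ => (hu.memG K hK hKΩ).sub (hv.memG K hK hKΩ)
  have hΓu : ∀ K, IsCompact K → K ⊆ Ω →
      MemLp (fun z => A p (Gu z)) (ENNReal.ofReal (cj p)) (volume.restrict K) :=
    fun K hK hKΩ => memLp_flux hp (hu.memG K hK hKΩ)
  have hΓv : ∀ K, IsCompact K → K ⊆ Ω →
      MemLp (fun z => A p (Gv z)) (ENNReal.ofReal (cj p)) (volume.restrict K) :=
    fun K hK hKΩ => memLp_flux hp (hv.memG K hK hKΩ)
  have ΓL : ∀ K, IsCompact K → K ⊆ Ω → MemLp Γ (ENNReal.ofReal (cj p)) (volume.restrict K) :=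
    fun K hK hKΩ => (hΓu K hK hKΩ).sub (hΓv K hK hKΩ)
  have locint : ∀ {G : X n → E n},
      (∀ K, IsCompact K → K ⊆ Ω → MemLp G (ENNReal.ofReal p) (volume.restrict K)) →
      LocallyIntegrableOn G Ω volume := by
    intro G hG
    rw [locallyIntegrableOn_iff hΩ.isLocallyClosed]
    intro K hKΩ hKc
    have hfin : IsFiniteMeasure ((volume : Measure (X n)).restrict K) :=
      ⟨by rw [Measure.restrict_apply_univ]; exact hKc.measure_lt_top⟩
    refine (hG K hKc hKΩ).integrable ?_
    rw [ENNReal.one_le_ofReal]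
    exact hp.le
  have dWG : WG Ω d Gd := by
    intro φ hφ
    obtain ⟨c1, s1, c2, s2⟩ := der_tst_int hφ
    have e1 := hu.wg φ hφ
    have e2 := hv.wg φ hφ
    have i1 := cacc_int hu.meas hu.bdd c1 hφ (fun z hz => dx_zero_of_notMem z hz)
    have i2 := cacc_int hv.meas hv.bdd c1 hφ (fun z hz => dx_zero_of_notMem z hz)
    have i3 := loc_int_smul (locint hu.memG) hφ
    have i4 := loc_int_smul (locint hv.memG) hφ
    simp only [hd, hGd, sub_smul, smul_sub]
    rw [integral_sub i1 i2, integral_sub i3 i4, e1, e2]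
    abel
  have deq : ∀ φ, Tst Ω φ → ∫ z, inner ℝ (Γ z) (dx φ z) = ∫ z, d z * dt φ z := by
    intro φ hφ
    obtain ⟨c1, s1, c2, s2⟩ := der_tst_int hφ
    have e1 := hu.eq φ hφ
    have e2 := hv.eq φ hφ
    have m1 : MemLp (dx φ) (ENNReal.ofReal p) volume := (tst_W1 hp hφ).mem
    have i1 := cacc_flux_int hp hΓu m1 hφ.cpt hφ.supp (fun z hz => dx_zero_of_notMem z hz)
    have i2 := cacc_flux_int hp hΓv m1 hφ.cpt hφ.supp (fun z hz => dx_zero_of_notMem z hz)
    have i3 : Integrable (fun z => u z * dt φ z) volume :=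
      cacc_int hu.meas hu.bdd c2 hφ (fun z hz => dt_zero_of_notMem z hz)
    have i4 : Integrable (fun z => v z * dt φ z) volume :=
      cacc_int hv.meas hv.bdd c2 hφ (fun z hz => dt_zero_of_notMem z hz)
    simp only [hd, hΓdef, inner_sub_left, sub_mul]
    rw [integral_sub i1 i2, integral_sub i3 i4]
    linarith
  -- the test function
  set K := tsupport ζ with hKdef
  obtain ⟨D, hDc, hDΩ, hKD, s₀, hs₀, hsh⟩ := cacc_nbhd hΩ hζ.cpt hζ.supp
  set Φ : X n → E n := fun z => ζ z • Gd z + d z • dx ζ z with hΦ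
  have hW : W0 p K (fun z => ζ z * d z) Φ := wg_localize hp hΩ dmeas dbdd GdL dWG hζ
  have hΦ0 : ∀ z, z ∉ K → Φ z = 0 := by
    intro z hz
    simp only [hΦ]
    rw [image_eq_zero_of_notMem_tsupport hz, dx_zero_of_notMem z hz, zero_smul, smul_zero,
      add_zero]
  have hζ0 : ∀ z, z ∉ K → ζ z = 0 := fun z hz => image_eq_zero_of_notMem_tsupport hz
  have hCD : ∀ s ≤ s₀, ∀ z : X n, ∀ r ∈ Icc 0 s, ((z.1, z.2 + r) : X n) ∈ K → z ∈ D := by
    intro s hs z r hr hz
    have h1 := hsh (-r) (by rw [abs_neg, abs_of_nonneg hr.1]; exact hr.2.trans hs) _ hz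
    simpa using h1
  have hshf : ∀ s, 0 < s → s ≤ s₀ → s⁻¹ * ∫ z, (ζ z * d z) * (d z - sh (-s) d z) =
      - ∫ z, inner ℝ (Γ z) (av s Φ z) := by
    intro s hs hs'
    exact shf_eq hp hΩ hζ.cpt hDc hDΩ hs (hCD s hs') dmeas dbdd ΓL deq hW
  -- truncated functions
  set dD : X n → ℝ := D.indicator d with hdD
  set ΓD : X n → E n := D.indicator Γ with hΓD
  have dDm : AEStronglyMeasurable dD volume :=
    (aestronglyMeasurable_indicator_iff hDc.measurableSet).2 (dmeas.mono_set hDΩ)
  obtain ⟨M, hM⟩ := dbdd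
  have dDb : ∀ᵐ z, |dD z| ≤ |M| := by
    rw [ae_restrict_iff' hΩ.measurableSet] at hM
    filter_upwards [hM] with z hz
    by_cases hzD : z ∈ D
    · rw [hdD, indicator_of_mem hzD]
      exact (hz (hDΩ hzD)).trans (le_abs_self M)
    · rw [hdD, indicator_of_notMem hzD, abs_zero]
      exact abs_nonneg M
  have dDsq : Integrable (fun z => dD z ^ 2) volume := by
    have hfin : IsFiniteMeasure ((volume : Measure (X n)).restrict D) :=
      ⟨by rw [Measure.restrict_apply_univ]; exact hDc.measure_lt_top⟩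
    have h1 : MemLp dD 2 volume := by
      rw [hdD, memLp_indicator_iff_restrict hDc.measurableSet]
      refine MemLp.of_bound (dmeas.mono_set hDΩ) M ?_
      exact ae_restrict_of_ae_restrict_of_subset hDΩ hM
    exact h1.integrable_sq
  have ΓDL : MemLp ΓD (ENNReal.ofReal (cj p)) volume :=
    (memLp_indicator_iff_restrict hDc.measurableSet).2 (ΓL D hDc hDΩ)
  -- left hand side
  have hleft : ∀ s, 0 < s → s ≤ s₀ →
      (1 / 2) * ∫ z, (s⁻¹ * (ζ z - ζ (z.1, z.2 + s))) * dD z ^ 2 ≤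
        s⁻¹ * ∫ z, (ζ z * d z) * (d z - sh (-s) d z) := by
    intro s hs hs'
    have hmp : MeasurePreserving (fun z : X n => ((z.1, z.2 + (-s)) : X n)) volume volume := by
      have h1 := measurePreserving_add_right (volume : Measure (X n)) ((0 : E n), -s)
      have h2 : (fun z : X n => z + ((0 : E n), -s)) = fun z : X n => ((z.1, z.2 + (-s)) : X n) := by
        funext z
        ext1
        · simp
        · simp
      rwa [h2] at h1
    have hdDsh : Integrable (fun z : X n => dD (z.1, z.2 + (-s)) ^ 2) volume :=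
      hmp.integrable_comp_of_integrable dDsq
    obtain ⟨N, hN⟩ := hζ.cpt.exists_bound_of_continuous hζ.smooth.continuous
    have ζm : AEStronglyMeasurable ζ volume := hζ.smooth.continuous.aestronglyMeasurable
    have i1 : Integrable (fun z => ζ z * dD z ^ 2) volume :=
      dDsq.bdd_mul ζm (Eventually.of_forall hN)
    have i2 : Integrable (fun z : X n => ζ z * dD (z.1, z.2 + (-s)) ^ 2) volume :=
      hdDsh.bdd_mul ζm (Eventually.of_forall hN)
    have i3 : Integrable (fun z : X n => ζ (z.1, z.2 + s) * dD z ^ 2) volume := by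
      refine dDsq.bdd_mul (c := N) ?_ (Eventually.of_forall fun z => hN _)
      exact (hζ.smooth.continuous.comp (by fun_prop : Continuous fun z : X n =>
        ((z.1, z.2 + s) : X n))).aestronglyMeasurable
    have hshift : ∫ z : X n, ζ z * dD (z.1, z.2 + (-s)) ^ 2 = ∫ z : X n, ζ (z.1, z.2 + s) * dD z ^ 2 := by
      have h1 := integral_add_right_eq_self (μ := (volume : Measure (X n)))
        (fun z : X n => ζ z * dD (z.1, z.2 + (-s)) ^ 2) ((0 : E n), s)
      rw [← h1]
      congr 1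
      funext z
      have h2 : z + ((0 : E n), s) = (z.1, z.2 + s) := by
        ext1
        · simp
        · simp
      rw [h2]
      simp
    have i4 : Integrable (fun z : X n => ζ z * (dD z * (dD z - dD (z.1, z.2 + (-s))))) volume := by
      have hm : AEStronglyMeasurable (fun z : X n => dD z * (dD z - dD (z.1, z.2 + (-s)))) volume := by
        refine dDm.mul (dDm.sub ?_)
        exact dDm.comp_quasiMeasurePreserving hmp.quasiMeasurePreserving
      have hb : Integrable (fun z : X n => dD z * (dD z - dD (z.1, z.2 + (-s)))) volume := by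
        refine (dDsq.add (dDsq.add hdDsh)).mono' hm (Eventually.of_forall fun z => ?_)
        rw [Real.norm_eq_abs, abs_le]
        simp only [Pi.add_apply]
        constructor
        · nlinarith [sq_nonneg (dD z + dD (z.1, z.2 + (-s))), sq_nonneg (dD z - dD (z.1, z.2 + (-s))),
            sq_nonneg (dD z), sq_nonneg (dD (z.1, z.2 + (-s)))]
        · nlinarith [sq_nonneg (dD z + dD (z.1, z.2 + (-s))), sq_nonneg (dD z - dD (z.1, z.2 + (-s))),
            sq_nonneg (dD z), sq_nonneg (dD (z.1, z.2 + (-s)))]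
      exact hb.bdd_mul ζm (Eventually.of_forall hN)
    have heq : ∫ z, (ζ z * d z) * (d z - sh (-s) d z) =
        ∫ z : X n, ζ z * (dD z * (dD z - dD (z.1, z.2 + (-s)))) := by
      congr 1
      funext z
      by_cases hzK : z ∈ K
      · have h1 : z ∈ D := hKD hzK
        have h2 : ((z.1, z.2 + (-s)) : X n) ∈ D := by
          refine hsh (-s) ?_ z hzK
          rw [abs_neg, abs_of_pos hs]
          exact hs'
        rw [hdD, indicator_of_mem h1, indicator_of_mem h2, sh]
        ring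
      · rw [hζ0 z hzK]
        ring
    have hge : ∫ z : X n, (1 / 2) * (ζ z * dD z ^ 2 - ζ z * dD (z.1, z.2 + (-s)) ^ 2) ≤
        ∫ z : X n, ζ z * (dD z * (dD z - dD (z.1, z.2 + (-s)))) := by
      apply integral_mono ((i1.sub i2).const_mul _) i4
      intro z
      have h1 := h0 z
      have h2 : (1 / 2) * (dD z ^ 2 - dD (z.1, z.2 + (-s)) ^ 2) ≤
          dD z * (dD z - dD (z.1, z.2 + (-s))) := by
        nlinarith [sq_nonneg (dD z - dD (z.1, z.2 + (-s)))]
      have h3 := mul_le_mul_of_nonneg_left h2 h1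
      simp only [Pi.sub_apply]
      linarith
    rw [integral_const_mul, integral_sub i1 i2, hshift] at hge
    rw [heq]
    have h5 : ∫ z : X n, (s⁻¹ * (ζ z - ζ (z.1, z.2 + s))) * dD z ^ 2 =
        s⁻¹ * ((∫ z, ζ z * dD z ^ 2) - ∫ z : X n, ζ (z.1, z.2 + s) * dD z ^ 2) := by
      rw [← integral_sub i1 i3, ← integral_const_mul]
      congr 1
      funext z
      ring
    rw [h5]
    have h6 : 0 < s⁻¹ := inv_pos.2 hs
    have h7 := mul_le_mul_of_nonneg_left hge h6.le
    linarith
  -- limits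
  have hlimL : Tendsto (fun s : ℝ => (1 / 2) * ∫ z : X n, (s⁻¹ * (ζ z - ζ (z.1, z.2 + s))) * dD z ^ 2)
      (𝓝[>] 0) (𝓝 ((1 / 2) * ∫ z, (- dt ζ z) * dD z ^ 2)) := by
    apply Tendsto.const_mul
    obtain ⟨c1, s1, c2, s2⟩ := der_tst_int hζ
    obtain ⟨B, hB⟩ := s2.exists_bound_of_continuous c2
    have hder : ∀ (z : X n) (t : ℝ), HasDerivAt (fun t => ζ (z.1, t)) (dt ζ (z.1, t)) t := by
      intro z t
      have h1 : DifferentiableAt ℝ (fun t => ζ (z.1, t)) t := by
        have : ContDiff ℝ ∞ (fun t => ζ (z.1, t)) := hζ.smooth.comp (by fun_prop)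
        exact (this.differentiable (by simp)).differentiableAt
      exact h1.hasDerivAt
    refine tendsto_integral_filter_of_dominated_convergence (fun z => B * dD z ^ 2) ?_ ?_ ?_ ?_
    · filter_upwards with s
      refine AEStronglyMeasurable.mul ?_ dDsq.1
      apply AEStronglyMeasurable.const_mul
      refine (hζ.smooth.continuous.sub ?_).aestronglyMeasurable
      exact hζ.smooth.continuous.comp (by fun_prop)
    · filter_upwards [self_mem_nhdsWithin] with s hs
      have hs : 0 < s := hs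
      refine Eventually.of_forall fun z => ?_
      rw [norm_mul]
      have h1 : ‖ζ (z.1, z.2 + s) - ζ (z.1, z.2)‖ ≤ B * ‖(z.2 + s) - z.2‖ := by
        apply Convex.norm_image_sub_le_of_norm_hasDerivWithin_le (s := univ) (f := fun t => ζ (z.1, t))
          (f' := fun t => dt ζ (z.1, t))
        · intro t _
          exact (hder z t).hasDerivWithinAt
        · intro t _
          exact hB _
        · exact convex_univ
        · exact mem_univ _
        · exact mem_univ _
      have h2 : ‖s⁻¹ * (ζ z - ζ (z.1, z.2 + s))‖ ≤ B := by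
        rw [norm_mul, norm_inv, norm_sub_rev]
        rw [show z.2 + s - z.2 = s by ring] at h1
        have h3 : 0 < ‖s‖ := by rw [Real.norm_eq_abs]; exact abs_pos.2 hs.ne'
        rw [inv_mul_le_iff₀ h3]
        linarith
      have h3 : ‖dD z ^ 2‖ = dD z ^ 2 := by
        rw [Real.norm_eq_abs, abs_of_nonneg (sq_nonneg _)]
      rw [h3]
      exact mul_le_mul_of_nonneg_right h2 (sq_nonneg _)
    · exact dDsq.const_mul B
    · refine Eventually.of_forall fun z => ?_
      apply Tendsto.mul_const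
      have h1 := (hder z z.2).tendsto_slope_zero_right
      have h2 := h1.neg
      refine h2.congr ?_
      intro s
      simp only [smul_eq_mul]
      ring
  have hav0 : ∀ s, 0 < s → s ≤ s₀ → ∀ z, z ∉ D → av s Φ z = 0 := by
    intro s hs hs' z hz
    have h1 : ∫ r in (0 : ℝ)..s, Φ (z.1, z.2 + r) = ∫ r in (0 : ℝ)..s, (0 : E n) := by
      apply intervalIntegral.integral_congr
      intro r hr
      rw [uIcc_of_le hs.le] at hr
      simp only
      apply hΦ0
      intro h2
      exact hz (hCD s hs' z r hr h2)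
    rw [av, h1]
    simp
  have hlimR : Tendsto (fun s : ℝ => - ∫ z, inner ℝ (Γ z) (av s Φ z)) (𝓝[>] 0)
      (𝓝 (- ∫ z, inner ℝ (ΓD z) (Φ z))) := by
    apply Tendsto.neg
    have hev : ∀ᶠ s : ℝ in 𝓝[>] 0, s ≤ s₀ := by
      have : ∀ᶠ s : ℝ in 𝓝 0, s ≤ s₀ := eventually_le_nhds hs₀
      exact this.filter_mono nhdsWithin_le_nhds
    have h1 : Tendsto (fun s : ℝ => ∫ z, inner ℝ (ΓD z) (av s Φ z)) (𝓝[>] 0)
        (𝓝 (∫ z, inner ℝ (ΓD z) (Φ z))) := by
      have h2 := (av_tendsto hp.le hW.mem).mono_left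
        (nhdsWithin_mono (0 : ℝ) (fun s (hs : s ∈ Ioi (0 : ℝ)) => (ne_of_gt hs : s ≠ 0)))
      have h3 := h2.rpow_const (p := 1 / p) (Or.inr (by positivity))
      rw [Real.zero_rpow (by positivity)] at h3
      have h4 := h3.const_mul ((∫ z, ‖ΓD z‖ ^ cj p) ^ (1 / cj p))
      rw [mul_zero] at h4
      rw [tendsto_iff_norm_sub_tendsto_zero]
      refine squeeze_zero' (Eventually.of_forall fun s => norm_nonneg _) ?_ h4
      filter_upwards [self_mem_nhdsWithin] with s hs
      have hs : 0 < s := hs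
      have m1 := (av_memLp hp.le hW.mem hs.ne').1
      have i1 := (holder_inner hp ΓDL m1).1
      have i2 := (holder_inner hp ΓDL hW.mem).1
      have i3 := (holder_inner hp ΓDL (m1.sub hW.mem)).2
      rw [← integral_sub i1 i2, Real.norm_eq_abs]
      simp only [← inner_sub_right]
      exact i3
    refine h1.congr' ?_
    filter_upwards [self_mem_nhdsWithin, hev] with s hs hs'
    have hs : 0 < s := hs
    congr 1
    funext z
    by_cases hzD : z ∈ D
    · rw [hΓD, indicator_of_mem hzD]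
    · rw [hav0 s hs hs' z hzD, inner_zero_right, inner_zero_right]
  have hfin : (1 / 2) * ∫ z, (- dt ζ z) * dD z ^ 2 ≤ - ∫ z, inner ℝ (ΓD z) (Φ z) := by
    have hev : ∀ᶠ s : ℝ in 𝓝[>] 0, s ≤ s₀ := by
      have : ∀ᶠ s : ℝ in 𝓝 0, s ≤ s₀ := eventually_le_nhds hs₀
      exact this.filter_mono nhdsWithin_le_nhds
    refine le_of_tendsto_of_tendsto hlimL hlimR ?_
    filter_upwards [self_mem_nhdsWithin, hev] with s hs hs'
    have hs : 0 < s := hs
    rw [← hshf s hs hs']
    exact hleft s hs hs'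
  -- rewriting the conclusion
  have e1 : ∫ z, (- dt ζ z) * dD z ^ 2 = - ∫ z, dt ζ z * d z ^ 2 := by
    rw [← integral_neg]
    congr 1
    funext z
    by_cases hzD : z ∈ D
    · rw [hdD, indicator_of_mem hzD]
      ring
    · rw [dt_zero_of_notMem z (fun h => hzD (hKD h))]
      ring
  have hmΦ1 : MemLp (fun z => ζ z • Gd z) (ENNReal.ofReal p) volume := by
    obtain ⟨N, hN⟩ := hζ.cpt.exists_bound_of_continuous hζ.smooth.continuous
    have h1 : MemLp (fun z => ζ z • Gd z) (ENNReal.ofReal p) (volume.restrict (tsupport ζ)) := by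
      refine MemLp.of_le_mul (c := N) (GdL _ hζ.cpt hζ.supp)
        (hζ.smooth.continuous.aestronglyMeasurable.smul (GdL _ hζ.cpt hζ.supp).1)
        (Eventually.of_forall fun z => ?_)
      rw [norm_smul]
      exact mul_le_mul_of_nonneg_right (hN z) (norm_nonneg _)
    have h2 : ((tsupport ζ).indicator fun z => ζ z • Gd z) = fun z => ζ z • Gd z := by
      apply indicator_eq_self.2
      intro z hz
      by_contra hzK
      apply hz
      simp only [image_eq_zero_of_notMem_tsupport hzK, zero_smul]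
    rw [← h2, memLp_indicator_iff_restrict hζ.cpt.measurableSet]
    exact h1
  have hmΦ2 : MemLp (fun z => d z • dx ζ z) (ENNReal.ofReal p) volume :=
    loc_bdd dmeas hM (der_tst_int hζ).1 hζ.cpt hζ.supp (fun z hz => dx_zero_of_notMem z hz) _
  have e2 : ∫ z, inner ℝ (ΓD z) (Φ z) =
      (∫ z, ζ z * inner ℝ (Γ z) (Gd z)) + ∫ z, d z * inner ℝ (Γ z) (dx ζ z) := by
    have i1 := cacc_flux_int hp ΓL hmΦ1 hζ.cpt hζ.supp (fun z hz => by
      rw [image_eq_zero_of_notMem_tsupport hz, zero_smul])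
    have i2 := cacc_flux_int hp ΓL hmΦ2 hζ.cpt hζ.supp (fun z hz => by
      rw [dx_zero_of_notMem z hz, smul_zero])
    simp only [real_inner_smul_right] at i1 i2
    rw [← integral_add i1 i2]
    congr 1
    funext z
    by_cases hzD : z ∈ D
    · rw [hΓD, indicator_of_mem hzD, hΦ, inner_add_right, real_inner_smul_right,
        real_inner_smul_right]
    · have hzK : z ∉ K := fun h => hzD (hKD h)
      rw [hΦ0 z hzK, inner_zero_right, hζ0 z hzK, dx_zero_of_notMem z hzK, inner_zero_right]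
      ring
  rw [e1, e2] at hfin
  have hgoal1 : ∫ y, ζ y * inner ℝ (A p (Gu y) - A p (Gv y)) (Gu y - Gv y) =
      ∫ z, ζ z * inner ℝ (Γ z) (Gd z) := rfl
  have hgoal2 : ∫ y, dt ζ y * (u y - v y) ^ 2 = ∫ z, dt ζ z * d z ^ 2 := rfl
  have hgoal3 : ∫ y, (u y - v y) * inner ℝ (A p (Gu y) - A p (Gv y)) (dx ζ y) =
      ∫ z, d z * inner ℝ (Γ z) (dx ζ z) := rfl
  rw [hgoal1, hgoal2, hgoal3]
  linarith

end PP
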