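import Pool.Agent.PP.AVG1
import Pool.Agent.PP.AVG2
import Pool.Agent.PP.CAL1

open Set Metric Filter Topology MeasureTheory
open scoped ContDiff

set_option linter.unusedSectionVars false

noncomputable section

namespace PP

variable {n : ℕ}
variable {p : ℝ} {C D : Set (X n)}

attribute [local instance] AVG1_haar

theorem CAL4_ae {P : X n → Prop} (h : ∀ᵐ z, P z) (ν : Measure ℝ) [SFinite ν] (c : ℝ) :
    ∀ᵐ z : X n, ∀ᵐ r ∂ν, P (z.1, z.2 + c * r) := by
  have h1 : ∀ᵐ q ∂(ν.prod (volume : Measure (X n))), P (q.2.1, q.2.2 + c * q.1) :=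
    (AVG2_qmp ν c).ae h
  have h2 : ∀ᵐ q ∂((volume : Measure (X n)).prod ν), P (q.1.1, q.1.2 + c * q.2) :=
    (Measure.measurePreserving_swap (μ := (volume : Measure (X n)))
      (ν := ν)).quasiMeasurePreserving.ae h1
  exact Measure.ae_ae_of_ae_prod h2

/-- Lebesgue measure on the unit interval -/
def CAL4_nu : Measure ℝ := volume.restrict (Ioc (0 : ℝ) 1)

theorem CAL4_nu_prob : IsProbabilityMeasure CAL4_nu := by
  constructor
  rw [CAL4_nu, Measure.restrict_apply_univ, Real.volume_Ioc]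
  simp

attribute [local instance] CAL4_nu_prob

theorem CAL4_av {F : Type*} [NormedAddCommGroup F] [NormedSpace ℝ F] {s : ℝ} (hs : s ≠ 0)
    (f : X n → F) : av s f = AVG2_g CAL4_nu s f := by
  funext z
  have h1 := intervalIntegral.integral_comp_mul_left (fun r => f (z.1, z.2 + r)) hs
    (a := 0) (b := 1)
  rw [mul_zero, mul_one] at h1
  unfold av
  rw [← h1, intervalIntegral.integral_of_le zero_le_one]
  rfl

theorem CAL4_ftc {ψ : X n → ℝ} (hψ : Tst univ ψ) {s : ℝ} (hs : s ≠ 0) (z : X n) :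
    AVG2_g CAL4_nu (-s) (dt ψ) z = s⁻¹ * (ψ z - ψ (z.1, z.2 + -s)) := by
  rw [← CAL4_av (neg_ne_zero.2 hs)]
  unfold av
  have h1 : ∀ r ∈ uIcc 0 (-s), HasDerivAt (fun r => ψ (z.1, z.2 + r)) (dt ψ (z.1, z.2 + r)) r := by
    intro r _
    have a3 : DifferentiableAt ℝ (fun t => ψ (z.1, t)) (z.2 + r) := by
      have a4 : ContDiff ℝ ∞ fun t : ℝ => ψ (z.1, t) :=
        hψ.smooth.comp (contDiff_const.prodMk contDiff_id)
      exact (a4.differentiable (by simp)).differentiableAt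
    have a2 : HasDerivAt (fun t => ψ (z.1, t)) (dt ψ (z.1, z.2 + r)) (z.2 + r) := a3.hasDerivAt
    exact a2.comp_const_add z.2 r
  have h2 : Continuous fun r : ℝ => dt ψ (z.1, z.2 + r) :=
    (contDiff_dt hψ.smooth).continuous.comp (by fun_prop)
  rw [intervalIntegral.integral_eq_sub_of_hasDerivAt h1 (h2.intervalIntegrable _ _), smul_eq_mul]
  simp only [add_zero]
  rw [inv_neg]
  ring

/-- the Steklov average has a weak time derivative -/
theorem W0.avg (hp : 1 < p) (hC : Bornology.IsBounded C) {φ : X n → ℝ} {Φ : X n → E n}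
    (h : W0 p C φ Φ) {s : ℝ} (hs : s ≠ 0) {D : Set (X n)}
    (hD : ∀ z : X n, ∀ r ∈ uIcc 0 s, (z.1, z.2 + r) ∈ C → z ∈ D) :
    W1 p D (av s φ) (fun z => s⁻¹ * (sh s φ z - φ z)) (av s Φ) := by
  rw [CAL4_av hs, CAL4_av hs]
  have hφ1 : MemLp φ (ENNReal.ofReal 1) volume := h.memLp_fn hC _
  have hφ1' : MemLp φ 1 volume := h.memLp_fn hC _
  have hsl : ∀ᵐ z : X n, Integrable (fun r => φ (z.1, z.2 + s * r)) CAL4_nu :=
    AVG2_slice le_rfl hφ1 CAL4_nu s
  have hcd : ∀ ψ : X n → ℝ, Tst univ ψ → HasCompactSupport (dt ψ) := by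
    intro ψ hψ
    refine hψ.cpt.mono' ?_
    intro w hw
    by_contra h
    exact hw (dt_zero_of_notMem w h)
  have hcx : ∀ ψ : X n → ℝ, Tst univ ψ → HasCompactSupport (dx ψ) := by
    intro ψ hψ
    refine hψ.cpt.mono' ?_
    intro w hw
    by_contra h
    exact hw (dx_zero_of_notMem w h)
  refine ⟨⟨AVG2_gmeas h.meas CAL4_nu s, ?_, ?_, (AVG2_bound hp.le h.mem CAL4_nu s).1, ?_⟩, ?_, ?_⟩
  · obtain ⟨M, hM⟩ := h.bdd
    refine ⟨M, ?_⟩
    filter_upwards [CAL4_ae hM CAL4_nu s] with z hz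
    have := norm_integral_le_of_norm_le_const (μ := CAL4_nu)
      (f := fun r => φ (z.1, z.2 + s * r)) (C := M) hz
    rw [measureReal_def, measure_univ, ENNReal.toReal_one, mul_one] at this
    exact this
  · filter_upwards [CAL4_ae h.zero CAL4_nu s] with z hz hzD
    have h1 : ∀ᵐ r ∂CAL4_nu, r ∈ Ioc (0 : ℝ) 1 := ae_restrict_mem measurableSet_Ioc
    apply integral_eq_zero_of_ae
    filter_upwards [hz, h1] with r hr hr1
    apply hr
    intro hmem
    refine hzD (hD z (s * r) ?_ hmem)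
    rw [mem_uIcc]
    rcases le_total 0 s with h0 | h0
    · left
      exact ⟨mul_nonneg h0 hr1.1.le, by nlinarith [hr1.2]⟩
    · right
      exact ⟨by nlinarith [hr1.2], mul_nonpos_of_nonpos_of_nonneg h0 hr1.1.le⟩
  · intro ψ hψ
    have hψc : Continuous (dx ψ) := (contDiff_dx hψ.smooth).continuous
    have h1 := AVG2_fub CAL4_nu s (ContinuousLinearMap.lsmul ℝ ℝ) (q := 1) (q' := ⊤)
      (f := φ) (g := dx ψ) hφ1' (AVG2_tst_memLp hψc (hcx ψ hψ) _) hsl
    have h4 : (1 : ENNReal) ≤ ENNReal.ofReal p := by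
      rw [← ENNReal.ofReal_one]; exact ENNReal.ofReal_le_ofReal hp.le
    have h5 : ENNReal.HolderConjugate (ENNReal.ofReal p) (ENNReal.ofReal p).conjExponent :=
      ENNReal.HolderConjugate.conjExponent h4
    have h2 := AVG2_fub CAL4_nu s (ContinuousLinearMap.lsmul ℝ ℝ).flip (q := ENNReal.ofReal p)
      (q' := (ENNReal.ofReal p).conjExponent)
      (f := Φ) (g := ψ) h.mem (AVG2_tst_memLp hψ.smooth.continuous hψ.cpt _)
      (AVG2_slice hp.le h.mem CAL4_nu s)
    have h3 : ∫ z, AVG2_g CAL4_nu s φ z • dx ψ z =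
        ∫ r, (∫ z : X n, φ (z.1, z.2 + s * r) • dx ψ z) ∂CAL4_nu := h1
    have h6 : ∫ z, ψ z • AVG2_g CAL4_nu s Φ z =
        ∫ r, (∫ z : X n, ψ z • Φ (z.1, z.2 + s * r)) ∂CAL4_nu := h2
    rw [h3, h6, ← integral_neg]
    congr 1
    funext r
    exact (h.shift (s * r)).wg ψ hψ
  · have h1 : MemLp φ 2 volume := h.memLp_fn hC _
    have h2 : MemLp (sh s φ) 2 volume := by
      have := h1.comp_measurePreserving (AVG2_mp (n := n) s 1)
      rw [mul_one] at this
      exact this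
    exact (h2.sub h1).const_mul s⁻¹
  · intro ψ hψ
    have hψc : Continuous (dt ψ) := (contDiff_dt hψ.smooth).continuous
    have h1 := AVG2_dual CAL4_nu s (ContinuousLinearMap.mul ℝ ℝ) (q := 1) (q' := ⊤)
      (f := φ) (g := dt ψ) hφ1' (AVG2_tst_memLp hψc (hcd ψ hψ) _) hsl
      (AVG2_slice le_rfl (AVG2_tst_memLp hψc (hcd ψ hψ) _) CAL4_nu (-s))
    have h2 : ∫ z, AVG2_g CAL4_nu s φ z * dt ψ z =
        ∫ z, φ z * AVG2_g CAL4_nu (-s) (dt ψ) z := h1
    rw [h2]
    simp only [CAL4_ftc hψ hs]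
    obtain ⟨B, hB⟩ := hψ.cpt.exists_bound_of_continuous hψ.smooth.continuous
    have hφi : Integrable φ := memLp_one_iff_integrable.1 hφ1'
    have i1 : Integrable fun z => ψ z * φ z :=
      hφi.bdd_mul hψ.smooth.continuous.aestronglyMeasurable
        (c := B) (Eventually.of_forall fun z => hB z)
    have i2 : Integrable fun z : X n => ψ (z.1, z.2 + -s) * φ z :=
      hφi.bdd_mul (hψ.smooth.continuous.comp (by fun_prop)).aestronglyMeasurable
        (c := B) (Eventually.of_forall fun z => hB _)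
    have i3 : Integrable fun z : X n => ψ z * φ (z.1, z.2 + s) := by
      have h3 : Integrable (sh s φ) := by
        have := hφ1'.comp_measurePreserving (AVG2_mp (n := n) s 1)
        rw [mul_one] at this
        exact memLp_one_iff_integrable.1 this
      exact h3.bdd_mul hψ.smooth.continuous.aestronglyMeasurable
        (c := B) (Eventually.of_forall fun z => hB z)
    have e1 : ∫ z : X n, ψ (z.1, z.2 + -s) * φ z = ∫ z : X n, ψ z * φ (z.1, z.2 + s) := by
      rw [← AVG2_trans (fun z : X n => ψ (z.1, z.2 + -s) * φ z) s]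
      congr 1
      funext z
      have h4 : z.2 + s + -s = z.2 := by ring
      simp only [h4]
    have e2 : ∀ z : X n, φ z * (s⁻¹ * (ψ z - ψ (z.1, z.2 + -s))) =
        s⁻¹ * (ψ z * φ z - ψ (z.1, z.2 + -s) * φ z) := fun z => by ring
    have e3 : ∀ z : X n, ψ z * (s⁻¹ * (sh s φ z - φ z)) =
        s⁻¹ * (ψ z * φ (z.1, z.2 + s) - ψ z * φ z) := by
      intro z
      unfold sh
      ring
    simp only [e2, e3]
    rw [integral_const_mul, integral_const_mul, integral_sub i1 i2, integral_sub i3 i1, e1]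
    ring

end PP
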