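import Pool.Agent.PP.DER

open Set Metric Filter Topology MeasureTheory
open scoped ContDiff

noncomputable section

namespace PP

variable {n : ℕ}
variable {p : ℝ}

/-- spatial divergence -/
def dv (V : X n → E n) (z : X n) : ℝ :=
  ∑ i, (fderiv ℝ (fun x => V (x, z.2)) z.1 (EuclideanSpace.single i 1)) i

theorem cls_fx {F : Type*} [NormedAddCommGroup F] [NormedSpace ℝ F] {V : X n → F} {z : X n}
    (hV : DifferentiableAt ℝ V z) (v : E n) :
    fderiv ℝ (fun x => V (x, z.2)) z.1 v = fderiv ℝ V z (v, 0) := by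
  have h1 : HasFDerivAt V (fderiv ℝ V z) (z.1, z.2) := hV.hasFDerivAt
  have h0 : HasFDerivAt (fun x : E n => (x, z.2)) (ContinuousLinearMap.inl ℝ (E n) ℝ) z.1 :=
    hasFDerivAt_prodMk_left z.1 z.2
  have h2 : HasFDerivAt (fun x => V (x, z.2)) ((fderiv ℝ V z).comp
      (ContinuousLinearMap.inl ℝ (E n) ℝ)) z.1 :=
    HasFDerivAt.comp (g := V) (f := fun x : E n => (x, z.2)) z.1 h1 h0
  rw [h2.fderiv]
  simp

theorem cls_ft {Φ : X n → ℝ} {z : X n} (hΦ : DifferentiableAt ℝ Φ z) :
    dt Φ z = fderiv ℝ Φ z (0, 1) := by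
  unfold dt
  have h1 : HasFDerivAt Φ (fderiv ℝ Φ z) (z.1, z.2) := hΦ.hasFDerivAt
  have h0 : HasFDerivAt (fun t : ℝ => (z.1, t)) (ContinuousLinearMap.inr ℝ (E n) ℝ) z.2 :=
    hasFDerivAt_prodMk_right z.1 z.2
  have h2 : HasFDerivAt (fun t => Φ (z.1, t)) ((fderiv ℝ Φ z).comp
      (ContinuousLinearMap.inr ℝ (E n) ℝ)) z.2 :=
    HasFDerivAt.comp (g := Φ) (f := fun t : ℝ => (z.1, t)) z.2 h1 h0
  have h3 := h2.hasDerivAt.deriv
  rw [h3]
  simp

theorem cls_dv {V : X n → E n} {z : X n} (hV : DifferentiableAt ℝ V z) :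
    dv V z = ∑ i, fderiv ℝ (fun y => V y i) z (EuclideanSpace.single i 1, 0) := by
  unfold dv
  refine Finset.sum_congr rfl fun i _ => ?_
  rw [cls_fx hV]
  have h1 : HasFDerivAt (fun y => V y i)
      ((EuclideanSpace.proj i : E n →L[ℝ] ℝ).comp (fderiv ℝ V z)) z :=
    HasFDerivAt.comp (g := (EuclideanSpace.proj i : E n →L[ℝ] ℝ)) z
      (EuclideanSpace.proj i : E n →L[ℝ] ℝ).hasFDerivAt hV.hasFDerivAt
  rw [h1.fderiv]
  rfl

/-- continuity and compact support of products with a test function -/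
private theorem cls_int {Ω : Set (X n)} {φ : X n → ℝ} (hφ : Tst Ω φ) {g ψ : X n → ℝ}
    (hg : ContinuousOn g Ω) (hΩ : IsOpen Ω) (hψ : Continuous ψ) (hs : tsupport ψ ⊆ tsupport φ) :
    Integrable (fun z => g z * ψ z) volume := by
  have hsub : tsupport (fun z => g z * ψ z) ⊆ tsupport φ := (tsupport_mul_subset_right).trans hs
  have hc : Continuous (fun z => g z * ψ z) := by
    refine continuous_of_tsupport fun z hz => ?_
    have hz' : z ∈ Ω := hφ.supp (hsub hz)
    exact ((hg z hz').continuousAt (hΩ.mem_nhds hz')).mul hψ.continuousAt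
  exact hc.integrable_of_hasCompactSupport (hφ.cpt.of_isClosed_subset (isClosed_tsupport _) hsub)

/-- integration by parts for a function that is only `C ^ 1` in `Ω` -/
theorem cls_ibp {Ω : Set (X n)} (hΩ : IsOpen Ω) {f : X n → ℝ}
    (hf : ContDiffOn ℝ 1 f Ω) {φ : X n → ℝ} (hφ : Tst Ω φ) (v : X n) :
    Integrable (fun z => f z * fderiv ℝ φ z v) volume ∧
    Integrable (fun z => fderiv ℝ f z v * φ z) volume ∧
    ∫ z, f z * fderiv ℝ φ z v = - ∫ z, fderiv ℝ f z v * φ z := by
  have cφ := hφ.smooth.continuous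
  have dφ : Differentiable ℝ φ := hφ.smooth.differentiable (by simp)
  have cfφ : Continuous (fun z => fderiv ℝ φ z v) :=
    ((hφ.smooth.continuous_fderiv (by simp)).clm_apply continuous_const)
  have cf' : ContinuousOn (fun z => fderiv ℝ f z v) Ω :=
    (hf.continuousOn_fderiv_of_isOpen hΩ le_rfl).clm_apply continuousOn_const
  have hs : tsupport (fun z => fderiv ℝ φ z v) ⊆ tsupport φ := tsupport_fderiv_apply_subset ℝ v
  have i1 := cls_int hφ hf.continuousOn hΩ cfφ hs
  have i2 := cls_int hφ cf' hΩ cφ subset_rfl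
  have i3 := cls_int hφ hf.continuousOn hΩ cφ subset_rfl
  have := der_haar (n := n)
  refine ⟨i1, i2, ?_⟩
  refine integral_mul_fderiv_eq_neg_fderiv_mul_of_integrable i2 i1 i3 (fun x hx => ?_)
    (fun x _ => dφ x)
  have hx' := hφ.supp hx
  exact ((hf x hx').contDiffAt (hΩ.mem_nhds hx')).differentiableAt (by simp)

/-- the spatial gradient of a function that is differentiable at `z` -/
theorem cls_dx {f : X n → ℝ} {z : X n} (hf : DifferentiableAt ℝ f z) :
    dx f z = (InnerProductSpace.toDual ℝ (E n)).symm ((fderiv ℝ f z).comp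
      (ContinuousLinearMap.inl ℝ (E n) ℝ)) := by
  refine ext_inner_right ℝ fun v => ?_
  unfold dx gradient
  rw [InnerProductSpace.toDual_symm_apply, InnerProductSpace.toDual_symm_apply, cls_fx hf]
  simp

theorem cls_dx_cont {Ω : Set (X n)} (hΩ : IsOpen Ω) {f : X n → ℝ} (hf : ContDiffOn ℝ 1 f Ω) :
    ContinuousOn (dx f) Ω := by
  have h1 : ContinuousOn (fun z => (InnerProductSpace.toDual ℝ (E n)).symm ((fderiv ℝ f z).comp
      (ContinuousLinearMap.inl ℝ (E n) ℝ))) Ω :=
    (InnerProductSpace.toDual ℝ (E n)).symm.continuous.comp_continuousOn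
      ((hf.continuousOn_fderiv_of_isOpen hΩ le_rfl).clm_comp continuousOn_const)
  refine h1.congr fun z hz => ?_
  exact cls_dx (((hf z hz).contDiffAt (hΩ.mem_nhds hz)).differentiableAt (by simp))

/-- the classical gradient is the weak gradient -/
theorem cls_wg {Ω : Set (X n)} (hΩ : IsOpen Ω) {f : X n → ℝ} (hf : ContDiffOn ℝ 1 f Ω) :
    WG Ω f (dx f) := by
  intro φ hφ
  have cφ := hφ.smooth.continuous
  have cdφ : Continuous (dx φ) := (contDiff_dx hφ.smooth).continuous
  refine der_vec ?_ ?_ fun v => ?_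
  · have hsub : tsupport (fun z => f z • dx φ z) ⊆ tsupport φ := by
      refine (tsupport_smul_subset_right f (dx φ)).trans ?_
      exact closure_minimal (fun z hz => by
        by_contra h
        exact hz (dx_zero_of_notMem z h)) (isClosed_tsupport φ)
    have hc : Continuous (fun z => f z • dx φ z) := by
      refine continuous_of_tsupport fun z hz => ?_
      have hz' : z ∈ Ω := hφ.supp (hsub hz)
      exact ((hf.continuousOn z hz').continuousAt (hΩ.mem_nhds hz')).smul cdφ.continuousAt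
    exact hc.integrable_of_hasCompactSupport (hφ.cpt.of_isClosed_subset (isClosed_tsupport _) hsub)
  · have hsub : tsupport (fun z => φ z • dx f z) ⊆ tsupport φ :=
      tsupport_smul_subset_left φ (dx f)
    have hc : Continuous (fun z => φ z • dx f z) := by
      refine continuous_of_tsupport fun z hz => ?_
      have hz' : z ∈ Ω := hφ.supp (hsub hz)
      exact cφ.continuousAt.smul ((cls_dx_cont hΩ hf z hz').continuousAt (hΩ.mem_nhds hz'))
    exact hc.integrable_of_hasCompactSupport (hφ.cpt.of_isClosed_subset (isClosed_tsupport _) hsub)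
  · have h1 := (cls_ibp hΩ hf hφ (v, 0)).2.2
    simp only [real_inner_smul_left]
    simp only [dx_eq hφ.smooth]
    rw [h1]
    congr 1
    refine integral_congr_ae (Eventually.of_forall fun z => ?_)
    simp only
    by_cases hz : z ∈ tsupport φ
    · have hz' := hφ.supp hz
      rw [cls_dx (((hf z hz').contDiffAt (hΩ.mem_nhds hz')).differentiableAt (by simp)),
        InnerProductSpace.toDual_symm_apply]
      simp [mul_comm]
    · rw [image_eq_zero_of_notMem_tsupport hz]
      simp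

/-- classical subsolutions -/
theorem cls {Ω : Set (X n)} (hΩ : IsOpen Ω) {Φ : X n → ℝ} {V : X n → E n}
    (hΦ : ContDiffOn ℝ 1 Φ Ω) (hV : ContDiffOn ℝ 1 V Ω) (h : ∀ z ∈ Ω, dt Φ z ≤ dv V z) :
    DI Ω Φ V (fun _ => 0) := by
  intro φ hφ hφ0
  have hVi : ∀ i, ContDiffOn ℝ 1 (fun z => V z i) Ω := fun i =>
    (EuclideanSpace.proj i : E n →L[ℝ] ℝ).contDiff.comp_contDiffOn hV
  obtain ⟨a1, a2, a3⟩ := cls_ibp hΩ hΦ hφ ((0 : E n), (1 : ℝ))
  have b := fun i => cls_ibp hΩ (hVi i) hφ (EuclideanSpace.single i (1 : ℝ), (0 : ℝ))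
  have e1 : ∫ z, Φ z * dt φ z = - ∫ z, fderiv ℝ Φ z (0, 1) * φ z := by
    rw [← a3]
    refine integral_congr_ae (Eventually.of_forall fun z => ?_)
    simp only
    rw [dt_eq hφ.smooth]
  have e2 : ∫ z, inner ℝ (V z) (dx φ z) =
      - ∫ z, ∑ i, fderiv ℝ (fun y => V y i) z (EuclideanSpace.single i 1, 0) * φ z := by
    rw [integral_finsetSum _ (fun i _ => (b i).2.1), ← Finset.sum_neg_distrib]
    simp only [← (b _).2.2]
    rw [← integral_finsetSum _ (fun i _ => (b i).1)]
    refine integral_congr_ae (Eventually.of_forall fun z => ?_)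
    simp only
    rw [PiLp.inner_apply]
    refine Finset.sum_congr rfl fun i _ => ?_
    rw [← dx_eq hφ.smooth z (EuclideanSpace.single i 1)]
    simp [EuclideanSpace.inner_single_right, mul_comm]
  rw [e1, e2, neg_neg, ← sub_eq_add_neg, ← integral_sub a2 (integrable_finsetSum _ fun i _ => (b i).2.1)]
  have e3 : ∫ z : X n, (fun _ => (0 : ℝ)) z * φ z = 0 := by simp
  rw [e3]
  apply integral_nonpos
  intro z
  simp only [Pi.zero_apply]
  by_cases hz : z ∈ tsupport φ
  · have hz' := hφ.supp hz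
    have dΦ : DifferentiableAt ℝ Φ z :=
      ((hΦ z hz').contDiffAt (hΩ.mem_nhds hz')).differentiableAt (by simp)
    have dV : DifferentiableAt ℝ V z :=
      ((hV z hz').contDiffAt (hΩ.mem_nhds hz')).differentiableAt (by simp)
    have h1 := h z hz'
    rw [cls_ft dΦ, cls_dv dV] at h1
    rw [← Finset.sum_mul, ← sub_mul]
    exact mul_nonpos_of_nonpos_of_nonneg (by linarith) (hφ0 z)
  · rw [image_eq_zero_of_notMem_tsupport hz]
    simp

end PP
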