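import Pool.Agent.PP.Defs

open Set Metric Filter Topology MeasureTheory
open scoped ContDiff

noncomputable section

namespace PP

variable {n : ℕ}
variable {p : ℝ}

/-- fast geometric convergence -/
theorem fast_geom {C b α : ℝ} (hC : 0 < C) (hb : 1 < b) (hα : 0 < α) : ∃ ν > 0,
    ∀ Y : ℕ → ℝ, (∀ j, 0 ≤ Y j) → (∀ j, Y (j + 1) ≤ C * b ^ j * Y j ^ (1 + α)) → Y 0 ≤ ν →
      Tendsto Y atTop (𝓝 0) := by
  have hb0 : 0 < b := by linarith
  obtain ⟨q, hq⟩ : ∃ q : ℝ, q = b ^ (-(1 / α)) := ⟨_, rfl⟩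
  have hq0 : 0 < q := by rw [hq]; positivity
  have hq1 : q < 1 := by
    rw [hq]
    exact Real.rpow_lt_one_of_one_lt_of_neg hb (by simp [hα])
  have hqa : q ^ α = b⁻¹ := by
    rw [hq, ← Real.rpow_mul hb0.le, show -(1 / α) * α = -1 by field_simp, Real.rpow_neg_one]
  obtain ⟨ν, hν⟩ : ∃ ν : ℝ, ν = (C⁻¹ * q) ^ (1 / α) := ⟨_, rfl⟩
  have hν0 : 0 < ν := by rw [hν]; positivity
  have hνa : C * ν ^ α = q := by
    rw [hν, ← Real.rpow_mul (by positivity), show 1 / α * α = 1 by field_simp, Real.rpow_one]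
    field_simp
  refine ⟨ν, hν0, fun Y hY hrec h0 => ?_⟩
  have key : ∀ j, Y j ≤ ν * q ^ j := by
    intro j
    induction j with
    | zero => simpa using h0
    | succ j ih =>
      refine (hrec j).trans ?_
      have h1 : Y j ^ (1 + α) ≤ (ν * q ^ j) ^ (1 + α) :=
        Real.rpow_le_rpow (hY j) ih (by linarith)
      have h2 : (ν * q ^ j) ^ (1 + α) = ν * q ^ j * (ν ^ α * (b⁻¹) ^ j) := by
        rw [Real.rpow_add (by positivity), Real.rpow_one,
          Real.mul_rpow hν0.le (by positivity), ← Real.rpow_natCast q j, ← Real.rpow_mul hq0.le,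
          mul_comm (j : ℝ) α, Real.rpow_mul hq0.le, hqa, Real.rpow_natCast, Real.rpow_natCast]
      calc C * b ^ j * Y j ^ (1 + α) ≤ C * b ^ j * (ν * q ^ j * (ν ^ α * (b⁻¹) ^ j)) := by
            rw [← h2]; gcongr
        _ = (C * ν ^ α) * (b ^ j * (b⁻¹) ^ j) * (ν * q ^ j) := by ring
        _ = ν * q ^ (j + 1) := by
            rw [hνa, ← mul_pow, mul_inv_cancel₀ hb0.ne', one_pow, pow_succ]; ring
  have hlim : Tendsto (fun j : ℕ => ν * q ^ j) atTop (𝓝 0) := by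
    simpa using (tendsto_pow_atTop_nhds_zero_of_lt_one hq0.le hq1).const_mul ν
  exact squeeze_zero hY key hlim

end PP
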