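import Pool.Agent.PP.AVG1
import Pool.Agent.PP.DER

open Set Metric Filter Topology MeasureTheory
open scoped ContDiff Convolution

noncomputable section

namespace PP

variable {n : ℕ}

/-- mollification -/
def molc {F : Type*} [NormedAddCommGroup F] [NormedSpace ℝ F] (ρ : ContDiffBump (0 : X n))
    (g : X n → F) : X n → F :=
  convolution (ρ.normed volume) g (ContinuousLinearMap.lsmul ℝ ℝ) volume

theorem molc_apply {F : Type*} [NormedAddCommGroup F] [NormedSpace ℝ F]
    (ρ : ContDiffBump (0 : X n)) (g : X n → F) (z : X n) :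
    molc ρ g z = ∫ t, ρ.normed volume t • g (z - t) := rfl

theorem mol_ae {P : X n → Prop} (h : ∀ᵐ y, P y) (z : X n) : ∀ᵐ t, P (z - t) := by
  have := der_haar (n := n)
  exact (quasiMeasurePreserving_sub_left volume z).ae h

theorem mol_int {F : Type*} [NormedAddCommGroup F] [NormedSpace ℝ F]
    (ρ : ContDiffBump (0 : X n)) {g : X n → F} (hg : LocallyIntegrable g volume) (z : X n) :
    Integrable (fun t => ρ.normed volume t • g (z - t)) volume := by
  have := der_haar (n := n)
  exact (ρ.hasCompactSupport_normed.convolutionExists_left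
    (ContinuousLinearMap.lsmul ℝ ℝ) ρ.continuous_normed hg z)

theorem mol_contDiff {F : Type*} [NormedAddCommGroup F] [NormedSpace ℝ F] [CompleteSpace F]
    (ρ : ContDiffBump (0 : X n)) {g : X n → F} (hg : LocallyIntegrable g volume) :
    ContDiff ℝ ∞ (molc ρ g) := by
  have := der_haar (n := n)
  exact ρ.hasCompactSupport_normed.contDiff_convolution_left _ ρ.contDiff_normed hg

/-- the derivative of a mollification -/
theorem mol_fderiv (ρ : ContDiffBump (0 : X n)) {φ h : X n → ℝ}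
    (hφ : LocallyIntegrable φ volume) (w : X n)
    (H : ∀ ψ, Tst univ ψ → ∫ y, φ y * fderiv ℝ ψ y w = - ∫ y, ψ y * h y) (z : X n) :
    fderiv ℝ (molc ρ φ) z w = molc ρ h z := by
  have := der_haar (n := n)
  have h1 : HasFDerivAt (molc ρ φ) _ z :=
    ρ.hasCompactSupport_normed.hasFDerivAt_convolution_left (ContinuousLinearMap.lsmul ℝ ℝ)
      (ρ.contDiff_normed (n := 1)) hφ z
  have hint := (ρ.hasCompactSupport_normed (μ := (volume : Measure (X n)))).fderiv (𝕜 := ℝ)
    |>.convolutionExists_left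
    ((ContinuousLinearMap.lsmul ℝ ℝ : ℝ →L[ℝ] ℝ →L[ℝ] ℝ).precompL (X n))
    ((ρ.contDiff_normed (n := 1)).continuous_fderiv (by simp)) hφ z
  rw [h1.fderiv, convolution_def, ContinuousLinearMap.integral_apply hint]
  have h2 : ∀ t : X n, (((ContinuousLinearMap.lsmul ℝ ℝ : ℝ →L[ℝ] ℝ →L[ℝ] ℝ).precompL (X n))
      (fderiv ℝ (ρ.normed volume) t)) (φ (z - t)) w =
      fderiv ℝ (ρ.normed volume) t w * φ (z - t) := fun t => rfl
  simp only [h2]
  have h3 : ∫ t, fderiv ℝ (ρ.normed volume) t w * φ (z - t) =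
      ∫ y, fderiv ℝ (ρ.normed volume) (z - y) w * φ y := by
    rw [← integral_sub_left_eq_self (fun t => fderiv ℝ (ρ.normed volume) t w * φ (z - t)) volume z]
    simp only [sub_sub_cancel]
  rw [h3]
  have hψ : Tst univ (fun y => ρ.normed volume (z - y)) := by
    refine ⟨ρ.contDiff_normed.comp (contDiff_const.sub contDiff_id), ?_, subset_univ _⟩
    exact ρ.hasCompactSupport_normed.comp_homeomorph (Homeomorph.subLeft z)
  have h4 := H _ hψ
  have h5 : ∀ y : X n, fderiv ℝ (fun y => ρ.normed volume (z - y)) y w =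
      - fderiv ℝ (ρ.normed volume) (z - y) w := by
    intro y
    have d1 : DifferentiableAt ℝ (ρ.normed volume) (z - y) :=
      ((ρ.contDiff_normed (n := 1)).differentiable (by simp)).differentiableAt
    have d2 : HasFDerivAt (fun y : X n => z - y) (-ContinuousLinearMap.id ℝ (X n)) y := by
      have d0 := (hasFDerivAt_const (𝕜 := ℝ) z y).sub (hasFDerivAt_id (𝕜 := ℝ) y)
      rw [zero_sub] at d0
      exact d0
    have d3 : HasFDerivAt (fun y : X n => ρ.normed volume (z - y)) _ y :=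
      HasFDerivAt.comp (g := ρ.normed volume) (f := fun y : X n => z - y) y d1.hasFDerivAt d2
    rw [d3.fderiv]
    simp
  simp only [h5, mul_neg, integral_neg, neg_inj] at h4
  rw [molc_apply, ← integral_sub_left_eq_self (fun t => ρ.normed volume t • h (z - t)) volume z]
  simp only [sub_sub_cancel, smul_eq_mul]
  rw [← h4]
  refine integral_congr_ae (Eventually.of_forall fun y => ?_)
  simp only
  ring

theorem mol_dt (ρ : ContDiffBump (0 : X n)) {φ φt : X n → ℝ}
    (hφ : LocallyIntegrable φ volume) (H : WT φ φt) (z : X n) :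
    dt (molc ρ φ) z = molc ρ φt z := by
  rw [dt_eq (mol_contDiff ρ hφ)]
  refine mol_fderiv ρ hφ _ (fun ψ hψ => ?_) z
  have := H ψ hψ
  simp only [dt_eq hψ.smooth] at this
  exact this

theorem mol_tst_smul {F : Type*} [NormedAddCommGroup F] [NormedSpace ℝ F]
    {G : X n → F} (hG : LocallyIntegrable G volume) {φ : X n → ℝ} (hφ : Tst univ φ) :
    Integrable (fun z => φ z • G z) volume :=
  hG.integrable_smul_left_of_hasCompactSupport hφ.smooth.continuous hφ.cpt

theorem mol_dx (ρ : ContDiffBump (0 : X n)) {φ : X n → ℝ} {Φ : X n → E n}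
    (hφ : LocallyIntegrable φ volume) (hΦ : LocallyIntegrable Φ volume) (H : WG univ φ Φ)
    (z : X n) : dx (molc ρ φ) z = molc ρ Φ z := by
  refine ext_inner_right ℝ fun v => ?_
  rw [dx_eq (mol_contDiff ρ hφ)]
  rw [mol_fderiv ρ hφ (h := fun y => inner ℝ (Φ y) v) (v, 0) (fun ψ hψ => ?_) z]
  · rw [molc_apply, molc_apply]
    have h1 := integral_inner (𝕜 := ℝ) (mol_int ρ hΦ z) v
    rw [real_inner_comm, ← h1]
    refine integral_congr_ae (Eventually.of_forall fun t => ?_)
    simp only [smul_eq_mul, real_inner_smul_right, real_inner_comm]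
  · have h1 := H ψ hψ
    obtain ⟨c1, s1, -, -⟩ := der_tst_int hψ
    have i1 : Integrable (fun y => φ y • dx ψ y) volume :=
      hφ.integrable_smul_right_of_hasCompactSupport c1 s1
    have i2 : Integrable (fun y => ψ y • Φ y) volume := mol_tst_smul hΦ hψ
    have h2 := congrArg (fun w => inner ℝ v w) h1
    simp only [inner_neg_right] at h2
    rw [← integral_inner (𝕜 := ℝ) i1, ← integral_inner (𝕜 := ℝ) i2] at h2
    simp only [real_inner_smul_right] at h2
    simp only [← dx_eq hψ.smooth, real_inner_comm v]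
    exact h2

theorem mol_lint {F : Type*} [NormedAddCommGroup F] {q : ℝ} (hq : 1 ≤ q) {f : X n → F}
    (hf : MemLp f (ENNReal.ofReal q) volume) :
    ∫⁻ z, ‖f z‖ₑ ^ q = ENNReal.ofReal (∫ z, ‖f z‖ ^ q) := by
  have hq0 : 0 < q := by linarith
  have hint : Integrable (fun z => ‖f z‖ ^ q) volume := by
    have h1 := hf.integrable_norm_rpow (by simp [hq0]) ENNReal.ofReal_ne_top
    rwa [ENNReal.toReal_ofReal hq0.le] at h1
  rw [ofReal_integral_eq_lintegral_ofReal hint
    (Eventually.of_forall fun z => Real.rpow_nonneg (norm_nonneg _) _)]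
  refine lintegral_congr fun z => ?_
  rw [← ofReal_norm, ENNReal.ofReal_rpow_of_nonneg (norm_nonneg _) hq0.le]

theorem mol_conv {F : Type*} [NormedAddCommGroup F] [NormedSpace ℝ F] [CompleteSpace F]
    (ρ : ContDiffBump (0 : X n)) {q : ℝ} (hq : 1 ≤ q) {g : X n → F}
    (hg : MemLp g (ENNReal.ofReal q) volume) {ε : ℝ} (hε : 0 ≤ ε)
    (h : ∀ y : X n, ‖y‖ < ρ.rOut → ∫ z, ‖g (z + y) - g z‖ ^ q ≤ ε) :
    ∫ z, ‖molc ρ g z - g z‖ ^ q ≤ ε := by
  have := der_haar (n := n)
  have hq0 : 0 < q := by linarith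
  have hgl : LocallyIntegrable g volume := hg.locallyIntegrable (by
    rw [ENNReal.one_le_ofReal]; exact hq)
  set w : X n → ENNReal := fun t => ENNReal.ofReal (ρ.normed volume t) with hw
  have hwm : Measurable w := (ρ.continuous_normed.measurable).ennreal_ofReal
  set P : Measure (X n) := volume.withDensity w with hP
  have hPp : IsProbabilityMeasure P := by
    constructor
    rw [hP, withDensity_apply _ MeasurableSet.univ, Measure.restrict_univ,
      ← ofReal_integral_eq_lintegral_ofReal ρ.integrable_normed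
        (Eventually.of_forall ρ.nonneg_normed), ρ.integral_normed, ENNReal.ofReal_one]
  have hPac : P ≪ volume := withDensity_absolutelyContinuous _ _
  have e1 : ∀ z, molc ρ g z - g z = ∫ t, (g (z - t) - g z) ∂P := by
    intro z
    rw [hP, integral_withDensity_eq_integral_toReal_smul hwm
      (Eventually.of_forall fun t => ENNReal.ofReal_lt_top)]
    have hwt : ∀ t, (w t).toReal = ρ.normed volume t :=
      fun t => ENNReal.toReal_ofReal (ρ.nonneg_normed t)
    simp only [hwt, smul_sub]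
    rw [integral_sub (mol_int ρ hgl z) (ρ.integrable_normed.smul_const (g z)),
      ρ.integral_normed_smul, molc_apply]
  have m1 : AEStronglyMeasurable (fun p : X n × X n => g (p.1 - p.2) - g p.1)
      ((volume : Measure (X n)).prod P) :=
    (hg.1.comp_quasiMeasurePreserving
      (quasiMeasurePreserving_sub_of_right_invariant volume P)).sub hg.1.comp_fst
  have e2 : ∀ z, ‖molc ρ g z - g z‖ₑ ^ q ≤ ∫⁻ t, ‖g (z - t) - g z‖ₑ ^ q ∂P := by
    intro z
    have m2 : AEStronglyMeasurable (fun t => g (z - t) - g z) P :=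
      ((hg.1.comp_quasiMeasurePreserving
        (quasiMeasurePreserving_sub_left volume z)).mono_ac hPac).sub
        aestronglyMeasurable_const
    rw [e1]
    have a1 : ‖∫ t, (g (z - t) - g z) ∂P‖ₑ ≤ eLpNorm (fun t => g (z - t) - g z) 1 P := by
      rw [eLpNorm_one_eq_lintegral_enorm]
      exact enorm_integral_le_lintegral_enorm _
    have a2 := eLpNorm_le_eLpNorm_of_exponent_le (p := 1) (q := ENNReal.ofReal q) (μ := P)
      (by rw [ENNReal.one_le_ofReal]; exact hq) m2
    have a3 : eLpNorm (fun t => g (z - t) - g z) (ENNReal.ofReal q) P =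
        (∫⁻ t, ‖g (z - t) - g z‖ₑ ^ q ∂P) ^ (1 / q) := by
      rw [eLpNorm_eq_lintegral_rpow_enorm_toReal (by simp [hq0]) ENNReal.ofReal_ne_top,
        ENNReal.toReal_ofReal hq0.le]
    calc _ ≤ ((∫⁻ t, ‖g (z - t) - g z‖ₑ ^ q ∂P) ^ (1 / q)) ^ q :=
          ENNReal.rpow_le_rpow ((a1.trans a2).trans a3.le) hq0.le
      _ = _ := by rw [← ENNReal.rpow_mul, one_div, inv_mul_cancel₀ hq0.ne', ENNReal.rpow_one]
  have e3 : ∫⁻ z, ‖molc ρ g z - g z‖ₑ ^ q ≤ ENNReal.ofReal ε := by
    calc _ ≤ ∫⁻ z, ∫⁻ t, ‖g (z - t) - g z‖ₑ ^ q ∂P := lintegral_mono e2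
      _ = ∫⁻ t, ∫⁻ z, ‖g (z - t) - g z‖ₑ ^ q ∂volume ∂P :=
          lintegral_lintegral_swap (m1.enorm.pow_const q)
      _ ≤ ∫⁻ t, ENNReal.ofReal ε ∂P := by
          refine lintegral_mono_ae ?_
          rw [hP, ae_withDensity_iff hwm]
          refine Eventually.of_forall fun t ht => ?_
          have ht1 : t ∈ Function.support (ρ.normed (volume : Measure (X n))) := by
            intro h0
            apply ht
            rw [hw]
            simp only [h0, ENNReal.ofReal_zero]
          rw [ρ.support_normed_eq, mem_ball_zero_iff] at ht1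
          have b1 := h (-t) (by rwa [norm_neg])
          have b2 : MemLp (fun z => g (z + -t) - g z) (ENNReal.ofReal q) volume :=
            (hg.comp_measurePreserving (measurePreserving_add_right volume (-t))).sub hg
          have b3 := mol_lint hq b2
          simp only [← sub_eq_add_neg] at b1 b3
          rw [b3]
          exact ENNReal.ofReal_le_ofReal b1
      _ = ENNReal.ofReal ε := by simp
  have hm : AEStronglyMeasurable (fun z => ‖molc ρ g z - g z‖ ^ q) volume :=
    ((((mol_contDiff ρ hgl).continuous.aestronglyMeasurable.sub hg.1).norm.aemeasurable).pow_const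
      q).aestronglyMeasurable
  rw [integral_eq_lintegral_of_nonneg_ae
    (Eventually.of_forall fun z => Real.rpow_nonneg (norm_nonneg _) _) hm]
  refine ENNReal.toReal_le_of_le_ofReal hε (le_trans (le_of_eq ?_) e3)
  refine lintegral_congr fun z => ?_
  rw [← ofReal_norm, ENNReal.ofReal_rpow_of_nonneg (norm_nonneg _) hq0.le]

/-- the bump functions -/
def mol_bump (δ : ℝ) (hδ : 0 < δ) (k : ℕ) : ContDiffBump (0 : X n) where
  rIn := δ / (k + 1) / 2
  rOut := δ / (k + 1)
  rIn_pos := by positivity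
  rIn_lt_rOut := half_lt_self (by positivity)

theorem mol_bump_tendsto (δ : ℝ) (hδ : 0 < δ) :
    Tendsto (fun k => (mol_bump (n := n) δ hδ k).rOut) atTop (𝓝 0) := by
  have h1 := (tendsto_one_div_add_atTop_nhds_zero_nat (𝕜 := ℝ)).const_mul δ
  rw [mul_zero] at h1
  refine h1.congr fun k => ?_
  simp only [mol_bump]
  ring

theorem mol_conv_tendsto {F : Type*} [NormedAddCommGroup F] [NormedSpace ℝ F] [CompleteSpace F]
    (δ : ℝ) (hδ : 0 < δ) {q : ℝ} (hq : 1 ≤ q) {g : X n → F}
    (hg : MemLp g (ENNReal.ofReal q) volume) :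
    Tendsto (fun k => ∫ z, ‖molc (mol_bump δ hδ k) g z - g z‖ ^ q) atTop (𝓝 0) := by
  rw [Metric.tendsto_nhds]
  intro ε hε
  have h1 := (shift_tendsto hq hg).eventually (gt_mem_nhds (half_pos hε))
  obtain ⟨r, hr, hr2⟩ := Metric.eventually_nhds_iff.1 h1
  filter_upwards [(mol_bump_tendsto (n := n) δ hδ).eventually (gt_mem_nhds hr)] with k hk
  have h2 : ∫ z, ‖molc (mol_bump δ hδ k) g z - g z‖ ^ q ≤ ε / 2 :=
    mol_conv (mol_bump δ hδ k) hq hg (half_pos hε).le (fun y hy => (hr2 (by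
      rw [dist_zero_right]; exact hy.trans hk)).le)
  have h3 : 0 ≤ ∫ z, ‖molc (mol_bump δ hδ k) g z - g z‖ ^ q :=
    integral_nonneg fun z => Real.rpow_nonneg (norm_nonneg _) _
  rw [Real.dist_eq, sub_zero, abs_of_nonneg h3]
  linarith

theorem mol_core {p : ℝ} (hp : 1 < p) {C U : Set (X n)} (hC : IsCompact C) (hU : IsOpen U)
    (hCU : C ⊆ U) {φ : X n → ℝ} {Φ : X n → E n} (h : W0 p C φ Φ) {M : ℝ}
    (hM : ∀ᵐ z, |φ z| ≤ M) :
    ∃ (δ : ℝ) (hδ : 0 < δ), (∀ k, Tst U (molc (mol_bump δ hδ k) φ)) ∧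
      (∀ k z, |molc (mol_bump δ hδ k) φ z| ≤ M) ∧
      ((∀ᵐ z, 0 ≤ φ z) → ∀ k z, 0 ≤ molc (mol_bump δ hδ k) φ z) ∧
      (∀ᵐ z, Tendsto (fun k => molc (mol_bump δ hδ k) φ z) atTop (𝓝 (φ z))) ∧
      Tendsto (fun k => ∫ z, ‖dx (molc (mol_bump δ hδ k) φ) z - Φ z‖ ^ p) atTop (𝓝 0) ∧
      (∃ K, IsCompact K ∧ K ⊆ U ∧ ∀ k z, z ∉ K → molc (mol_bump δ hδ k) φ z = 0) := by
  have := der_haar (n := n)
  have hφ : LocallyIntegrable φ volume :=
    (memLp_top_of_bound h.meas M hM).locallyIntegrable le_top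
  have hΦ : LocallyIntegrable Φ volume :=
    h.mem.locallyIntegrable (by rw [ENNReal.one_le_ofReal]; exact hp.le)
  obtain ⟨δ, hδ, hδU⟩ := hC.exists_cthickening_subset_open hU hCU
  have hK : IsCompact (cthickening δ C) := hC.cthickening
  have hzero : ∀ k z, z ∉ cthickening δ C → molc (mol_bump δ hδ k) φ z = 0 := by
    intro k z hz
    rw [molc_apply]
    refine integral_eq_zero_of_ae ?_
    filter_upwards [mol_ae h.zero z] with t ht
    by_cases h0 : t ∈ Function.support ((mol_bump δ hδ k).normed (volume : Measure (X n)))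
    · rw [ContDiffBump.support_normed_eq, mem_ball_zero_iff] at h0
      have h1 : z - t ∉ C := by
        intro hmem
        apply hz
        refine mem_cthickening_of_dist_le z (z - t) δ C hmem ?_
        rw [dist_eq_norm, sub_sub_cancel]
        refine h0.le.trans ?_
        show δ / (k + 1) ≤ δ
        rw [div_le_iff₀ (by positivity)]
        nlinarith [Nat.cast_nonneg (α := ℝ) k]
      rw [ht h1, smul_zero]
      rfl
    · rw [Function.notMem_support.1 h0, zero_smul]
      rfl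
  refine ⟨δ, hδ, ?_, ?_, ?_, ?_, ?_, ⟨_, hK, hδU, hzero⟩⟩
  · intro k
    refine ⟨mol_contDiff _ hφ, HasCompactSupport.intro hK (hzero k), ?_⟩
    refine (closure_minimal ?_ hK.isClosed).trans hδU
    intro z hz
    by_contra hz2
    exact hz (hzero k z hz2)
  · intro k z
    rw [molc_apply]
    have h1 : ∫ t, (mol_bump δ hδ k).normed (volume : Measure (X n)) t * M = M := by
      rw [integral_mul_const, ContDiffBump.integral_normed, one_mul]
    rw [← Real.norm_eq_abs, ← h1]
    refine norm_integral_le_of_norm_le ((ContDiffBump.integrable_normed _).mul_const M) ?_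
    filter_upwards [mol_ae hM z] with t ht
    rw [norm_smul, Real.norm_eq_abs, Real.norm_eq_abs,
      abs_of_nonneg (ContDiffBump.nonneg_normed _ t)]
    exact mul_le_mul_of_nonneg_left ht (ContDiffBump.nonneg_normed _ t)
  · intro hpos k z
    rw [molc_apply]
    refine integral_nonneg_of_ae ?_
    filter_upwards [mol_ae hpos z] with t ht
    exact mul_nonneg (ContDiffBump.nonneg_normed _ t) ht
  · exact ContDiffBump.ae_convolution_tendsto_right_of_locallyIntegrable (K := 2)
      (mol_bump_tendsto δ hδ) (Eventually.of_forall fun k => by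
        show δ / (k + 1) ≤ 2 * (δ / (k + 1) / 2)
        linarith) hφ
  · have h1 := mol_conv_tendsto δ hδ hp.le h.mem
    refine h1.congr fun k => ?_
    refine integral_congr_ae (Eventually.of_forall fun z => ?_)
    simp only [mol_dx _ hφ hΦ h.wg]

/-- simultaneous smooth approximation of `W1` functions -/
theorem mol_W1 {p : ℝ} (hp : 1 < p) {C U : Set (X n)} (hC : IsCompact C) (hU : IsOpen U)
    (hCU : C ⊆ U) {φ φt : X n → ℝ} {Φ : X n → E n} (h : W1 p C φ φt Φ) {M : ℝ}
    (hM : ∀ᵐ z, |φ z| ≤ M) :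
    ∃ f : ℕ → X n → ℝ, (∀ k, Tst U (f k)) ∧ (∀ k z, |f k z| ≤ M) ∧
      ((∀ᵐ z, 0 ≤ φ z) → ∀ k z, 0 ≤ f k z) ∧
      (∀ᵐ z, Tendsto (fun k => f k z) atTop (𝓝 (φ z))) ∧
      Tendsto (fun k => ∫ z, (dt (f k) z - φt z) ^ 2) atTop (𝓝 0) ∧
      Tendsto (fun k => ∫ z, ‖dx (f k) z - Φ z‖ ^ p) atTop (𝓝 0) ∧
      (∃ K, IsCompact K ∧ K ⊆ U ∧ ∀ k z, z ∉ K → f k z = 0) := by
  obtain ⟨δ, hδ, h1, h2, h3, h4, h5, h6⟩ := mol_core hp hC hU hCU h.toW0 hM
  refine ⟨fun k => molc (mol_bump δ hδ k) φ, h1, h2, h3, h4, ?_, h5, h6⟩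
  have hφ : LocallyIntegrable φ volume :=
    (memLp_top_of_bound h.meas M hM).locallyIntegrable le_top
  have hm : MemLp φt (ENNReal.ofReal 2) volume := by
    have h8 : ENNReal.ofReal 2 = 2 := ENNReal.ofReal_ofNat 2
    rw [h8]
    exact h.memt
  have h7 := mol_conv_tendsto δ hδ (by norm_num) hm
  refine h7.congr fun k => ?_
  refine integral_congr_ae (Eventually.of_forall fun z => ?_)
  simp only [mol_dt _ hφ h.wt, Real.norm_eq_abs, Real.rpow_two, sq_abs]

theorem mol_W0 {p : ℝ} (hp : 1 < p) {C U : Set (X n)} (hC : IsCompact C) (hU : IsOpen U)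
    (hCU : C ⊆ U) {φ : X n → ℝ} {Φ : X n → E n} (h : W0 p C φ Φ) {M : ℝ}
    (hM : ∀ᵐ z, |φ z| ≤ M) :
    ∃ f : ℕ → X n → ℝ, (∀ k, Tst U (f k)) ∧ (∀ k z, |f k z| ≤ M) ∧
      ((∀ᵐ z, 0 ≤ φ z) → ∀ k z, 0 ≤ f k z) ∧
      (∀ᵐ z, Tendsto (fun k => f k z) atTop (𝓝 (φ z))) ∧
      Tendsto (fun k => ∫ z, ‖dx (f k) z - Φ z‖ ^ p) atTop (𝓝 0) ∧
      (∃ K, IsCompact K ∧ K ⊆ U ∧ ∀ k z, z ∉ K → f k z = 0) := by
  obtain ⟨δ, hδ, h1, h2, h3, h4, h5, h6⟩ := mol_core hp hC hU hCU h hM
  exact ⟨fun k => molc (mol_bump δ hδ k) φ, h1, h2, h3, h4, h5, h6⟩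

end PP
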