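import Pool.Agent.PP.FK
import Pool.Agent.PP.MOL
import Pool.Agent.PP.CAL2

open Set Metric Filter Topology MeasureTheory
open scoped ContDiff

noncomputable section

namespace PP

variable {n : ℕ}
variable {p : ℝ}

private theorem fks_subseq {F : ℕ → ℝ → ℝ} (hF : ∀ k, Integrable (F k))
    (hT : Tendsto (fun k => ∫ t, ‖F k t‖) atTop (𝓝 0)) :
    ∃ σ : ℕ → ℕ, StrictMono σ ∧ ∀ᵐ t, Tendsto (fun k => F (σ k) t) atTop (𝓝 0) := by
  have h1 : Tendsto (fun k => eLpNorm (F k - (0 : ℝ → ℝ)) 1 volume) atTop (𝓝 0) := by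
    have h2 : ∀ k, eLpNorm (F k - (0 : ℝ → ℝ)) 1 volume = ENNReal.ofReal (∫ t, ‖F k t‖) := by
      intro k
      rw [sub_zero, eLpNorm_one_eq_lintegral_enorm, ofReal_integral_norm_eq_lintegral_enorm (hF k)]
    simp only [h2]
    have := ENNReal.tendsto_ofReal hT
    rwa [ENNReal.ofReal_zero] at this
  exact (tendstoInMeasure_of_tendsto_eLpNorm one_ne_zero
    (fun k => (hF k).aestronglyMeasurable) aestronglyMeasurable_const h1).exists_seq_tendsto_ae

private theorem fks_swap {P : X n → Prop} (h : ∀ᵐ z : X n, P z) :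
    ∀ᵐ t : ℝ, ∀ᵐ x : E n, P (x, t) := by
  have h0 : ∀ᵐ z ∂((volume : Measure (E n)).prod (volume : Measure ℝ)), P z := h
  have h1 : ∀ᵐ w ∂((volume : Measure ℝ).prod (volume : Measure (E n))), P w.swap :=
    (Measure.measurePreserving_swap).quasiMeasurePreserving.ae h0
  exact Measure.ae_ae_of_ae_prod h1

private theorem fks_slice {F : Type*} [NormedAddCommGroup F] {f : X n → F} (h : Integrable f) :
    ∀ᵐ t : ℝ, Integrable fun x : E n => f (x, t) := by
  have h0 : Integrable f ((volume : Measure (E n)).prod (volume : Measure ℝ)) := h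
  exact h0.prod_left_ae

theorem fk_slice (hn : 0 < n) : ∃ Cn : ℝ, 0 < Cn ∧ ∀ (p : ℝ), 1 < p → ∀ {C : Set (X n)},
    Bornology.IsBounded C → ∀ {φ : X n → ℝ} {Φ : X n → E n}, W0 p C φ Φ → ∀ᵐ t : ℝ,
      ∫ x, |φ (x, t)| ≤ Cn * (volume {x | φ (x, t) ≠ 0}).toReal ^ (1 / (n : ℝ)) *
        ∫ x, ‖Φ (x, t)‖ := by
  obtain ⟨Cn, hCn, hfk⟩ := fk hn
  refine ⟨Cn, hCn, fun p hp C hC φ Φ h => ?_⟩
  obtain ⟨M, hM⟩ := h.bdd
  have hCc : IsCompact (closure C) := hC.isCompact_closure
  obtain ⟨f, h1, h2, -, h4, h5, K, hK, -, h6⟩ := mol_W0 hp hCc isOpen_univ (subset_univ _)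
    (h.mono subset_closure) hM
  set K' : Set (X n) := K ∪ closure C with hK'
  have hK'c : IsCompact K' := hK.union hCc
  have hf0 : ∀ k z, z ∉ K' → f k z = 0 := fun k z hz => h6 k z fun hzK => hz (Or.inl hzK)
  have hdx0 : ∀ k z, z ∉ K' → dx (f k) z = 0 := by
    intro k z hz
    refine dx_zero_of_notMem z fun hzt => hz (Or.inl ?_)
    have : tsupport (f k) ⊆ K := closure_minimal (fun y hy => by
      by_contra hcon
      exact hy (h6 k y hcon)) hK.isClosed
    exact this hzt
  have hφ0 : ∀ᵐ z, z ∉ K' → φ z = 0 := by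
    filter_upwards [h.zero] with z hz hzK
    exact hz fun hzC => hzK (Or.inr (subset_closure hzC))
  have hΦ0 : ∀ᵐ z, z ∉ K' → Φ z = 0 := by
    filter_upwards [h.grad_off hp hC] with z hz hzK
    exact hz fun hzC => hzK (Or.inr (subset_closure hzC))
  have hfinK : IsFiniteMeasure (volume.restrict K') := ⟨by simpa using hK'c.measure_lt_top⟩
  have hΦi : Integrable Φ :=
    (cal2_loc (cal2_one_le hp) h.mem hK'c).integrable_of_ae_notMem_eq_zero hΦ0
  have hφi : Integrable φ := by
    refine IntegrableOn.integrable_of_ae_notMem_eq_zero (s := K') ?_ hφ0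
    refine Measure.integrableOn_of_bounded hK'c.measure_lt_top.ne h.meas (M := M) ?_
    exact ae_restrict_of_ae hM
  have hfi : ∀ k, Integrable (f k) := fun k =>
    (h1 k).smooth.continuous.integrable_of_hasCompactSupport (h1 k).cpt
  have hdi : ∀ k, Integrable (dx (f k)) := fun k => by
    obtain ⟨c1, s1, -, -⟩ := der_tst_int (h1 k)
    exact c1.integrable_of_hasCompactSupport s1
  set Dk : ℕ → X n → ℝ := fun k z => ‖dx (f k) z - Φ z‖ + |f k z - φ z| with hDk
  have hDi1 : ∀ k, Integrable fun z => ‖dx (f k) z - Φ z‖ := fun k => ((hdi k).sub hΦi).norm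
  have hDi2 : ∀ k, Integrable fun z => |f k z - φ z| := fun k => ((hfi k).sub hφi).abs
  have hDi : ∀ k, Integrable (Dk k) := fun k => (hDi1 k).add (hDi2 k)
  -- convergence in `L^1`
  have hT1 : Tendsto (fun k => ∫ z, ‖dx (f k) z - Φ z‖) atTop (𝓝 0) := by
    have h7 : Tendsto (fun k => ∫ z in K', ‖dx (f k) z - Φ z‖) atTop (𝓝 0) :=
      cal0_L1 (h := fun k z => dx (f k) z - Φ z) hp.le
        (fun k => ((tst_W1 hp (h1 k)).mem.sub h.mem)) h5 hK'c
    refine h7.congr fun k => ?_
    refine setIntegral_eq_integral_of_ae_compl_eq_zero ?_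
    filter_upwards [hΦ0] with z hz hzK
    rw [hdx0 k z hzK, hz hzK, sub_zero, norm_zero]
  have hT2 : Tendsto (fun k => ∫ z, |f k z - φ z|) atTop (𝓝 0) := by
    have h7 : Tendsto (fun k => ∫ z in K', |f k z - φ z|) atTop (𝓝 (∫ _z in K', (0 : ℝ))) := by
      refine tendsto_integral_of_dominated_convergence (fun _ => M + M) (fun k => ?_) ?_
        (fun k => ?_) ?_
      · exact (hDi2 k).aestronglyMeasurable.restrict
      · exact integrable_const _
      · refine ae_restrict_of_ae ?_
        filter_upwards [hM] with z hz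
        rw [Real.norm_eq_abs, abs_abs]
        exact (abs_sub _ _).trans (add_le_add (h2 k z) hz)
      · refine ae_restrict_of_ae ?_
        filter_upwards [h4] with z hz
        have := (hz.sub_const (φ z)).abs
        rwa [sub_self, abs_zero] at this
    rw [integral_zero] at h7
    refine h7.congr fun k => ?_
    refine setIntegral_eq_integral_of_ae_compl_eq_zero ?_
    filter_upwards [hφ0] with z hz hzK
    rw [hf0 k z hzK, hz hzK, sub_zero, abs_zero]
  set F : ℕ → ℝ → ℝ := fun k t => ∫ x : E n, Dk k (x, t) with hF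
  have hFi : ∀ k, Integrable (F k) := fun k => by
    have h0 : Integrable (Dk k) ((volume : Measure (E n)).prod (volume : Measure ℝ)) := hDi k
    exact h0.integral_prod_right
  have hDnn : ∀ k z, 0 ≤ Dk k z := fun k z => add_nonneg (norm_nonneg _) (abs_nonneg _)
  have hFnn : ∀ k t, 0 ≤ F k t := fun k t => integral_nonneg fun x => hDnn k (x, t)
  have hFint : ∀ k, ∫ t, ‖F k t‖ = (∫ z, ‖dx (f k) z - Φ z‖) + ∫ z, |f k z - φ z| := by
    intro k
    have h0 : Integrable (Dk k) ((volume : Measure (E n)).prod (volume : Measure ℝ)) := hDi k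
    calc ∫ t, ‖F k t‖ = ∫ t, F k t := by
          refine integral_congr_ae (Eventually.of_forall fun t => ?_)
          beta_reduce
          rw [Real.norm_eq_abs, abs_of_nonneg (hFnn k t)]
      _ = ∫ z, Dk k z := (integral_prod_symm _ h0).symm
      _ = _ := integral_add (hDi1 k) (hDi2 k)
  have hFT : Tendsto (fun k => ∫ t, ‖F k t‖) atTop (𝓝 0) := by
    simp only [hFint]
    have := hT1.add hT2
    rwa [add_zero] at this
  obtain ⟨σ, -, hσ⟩ := fks_subseq hFi hFT
  have hDs : ∀ᵐ t : ℝ, ∀ k, Integrable fun x : E n => Dk k (x, t) :=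
    ae_all_iff.mpr fun k => fks_slice (hDi k)
  filter_upwards [hσ, hDs, fks_slice hΦi, fks_slice hφi, fks_swap h.zero] with t ht hDt hΦt hφt hzt
  -- the slice
  set S : Set (E n) := toMeasurable volume {x | φ (x, t) ≠ 0} with hS
  have hSm : MeasurableSet S := measurableSet_toMeasurable _ _
  have hSv : volume S = volume {x | φ (x, t) ≠ 0} := measure_toMeasurable _
  have hSsub : {x | φ (x, t) ≠ 0} ⊆ S := subset_toMeasurable _ _
  have hSfin : volume S ≠ ⊤ := by
    rw [hSv]
    have h7 : volume {x | φ (x, t) ≠ 0} ≤ volume (Prod.fst '' closure C) := by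
      refine measure_mono_ae ?_
      filter_upwards [hzt] with x hx hxne
      by_contra hcon
      exact hxne (hx fun hxC => hcon ⟨(x, t), subset_closure hxC, rfl⟩)
    exact (h7.trans_lt (hCc.image continuous_fst).measure_lt_top).ne
  have hbound : ∀ k, ∫ x, |φ (x, t)| ≤ Cn * (volume S).toReal ^ (1 / (n : ℝ)) *
      ((∫ x, ‖Φ (x, t)‖) + F k t) + F k t := by
    intro k
    have c1 : ContDiff ℝ 1 (fun x : E n => f k (x, t)) :=
      ((h1 k).smooth.of_le (by simp)).comp (contDiff_id.prodMk contDiff_const)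
    have c2 : HasCompactSupport (fun x : E n => f k (x, t)) := by
      refine HasCompactSupport.intro (hK.image continuous_fst) fun x hx => ?_
      exact h6 k _ fun hxK => hx ⟨(x, t), hxK, rfl⟩
    have h8 := hfk _ c1 c2 S hSm hSfin
    have h9 : ∀ x : E n, ‖fderiv ℝ (fun x : E n => f k (x, t)) x‖ = ‖dx (f k) (x, t)‖ := by
      intro x
      unfold dx gradient
      rw [LinearIsometryEquiv.norm_map]
    simp only [h9] at h8
    have hfit : Integrable fun x : E n => f k (x, t) :=
      c1.continuous.integrable_of_hasCompactSupport c2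
    have h10 : ∫ x, |φ (x, t)| ≤ (∫ x in S, |f k (x, t)|) + F k t := by
      have e1 : ∫ x, |φ (x, t)| = ∫ x in S, |φ (x, t)| := by
        refine (setIntegral_eq_integral_of_forall_compl_eq_zero fun x hx => ?_).symm
        by_contra hcon
        exact hx (hSsub fun h0 => hcon (by rw [h0, abs_zero]))
      rw [e1]
      calc ∫ x in S, |φ (x, t)| ≤ ∫ x in S, (|f k (x, t)| + Dk k (x, t)) := by
            refine setIntegral_mono hφt.abs.integrableOn
              (hfit.abs.integrableOn.add (hDt k).integrableOn) fun x => ?_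
            have e2 : |φ (x, t)| ≤ |f k (x, t)| + |f k (x, t) - φ (x, t)| := by
              have := abs_sub_abs_le_abs_sub (φ (x, t)) (f k (x, t))
              rw [abs_sub_comm] at this
              linarith
            have e3 : |f k (x, t) - φ (x, t)| ≤ Dk k (x, t) :=
              le_add_of_nonneg_left (norm_nonneg _)
            beta_reduce
            linarith
        _ = (∫ x in S, |f k (x, t)|) + ∫ x in S, Dk k (x, t) :=
            integral_add hfit.abs.integrableOn (hDt k).integrableOn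
        _ ≤ (∫ x in S, |f k (x, t)|) + F k t := by
            have := setIntegral_le_integral (s := S) (hDt k)
              (Eventually.of_forall fun x => hDnn k (x, t))
            linarith
    have h11 : ∫ x, ‖dx (f k) (x, t)‖ ≤ (∫ x, ‖Φ (x, t)‖) + F k t := by
      have e1 : ∫ x, ‖dx (f k) (x, t)‖ ≤ ∫ x, (‖Φ (x, t)‖ + Dk k (x, t)) := by
        have hdxc : Continuous fun x : E n => dx (f k) (x, t) :=
          (der_tst_int (h1 k)).1.comp (continuous_id.prodMk continuous_const)
        have hdxs : HasCompactSupport fun x : E n => dx (f k) (x, t) := by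
          refine HasCompactSupport.intro (hK'c.image continuous_fst) fun x hx => ?_
          exact hdx0 k _ fun hxK => hx ⟨(x, t), hxK, rfl⟩
        refine integral_mono (hdxc.integrable_of_hasCompactSupport hdxs).norm
          (hΦt.norm.add (hDt k)) fun x => ?_
        have e2 : ‖dx (f k) (x, t)‖ ≤ ‖Φ (x, t)‖ + ‖dx (f k) (x, t) - Φ (x, t)‖ := by
          have := norm_add_le (Φ (x, t)) (dx (f k) (x, t) - Φ (x, t))
          rwa [add_sub_cancel] at this
        have e3 : ‖dx (f k) (x, t) - Φ (x, t)‖ ≤ Dk k (x, t) :=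
          le_add_of_nonneg_right (abs_nonneg _)
        beta_reduce
        linarith
      refine e1.trans_eq ?_
      exact integral_add hΦt.norm (hDt k)
    have h12 : 0 ≤ Cn * (volume S).toReal ^ (1 / (n : ℝ)) := by positivity
    have h13 := mul_le_mul_of_nonneg_left h11 h12
    linarith
  have hlim : Tendsto (fun k => Cn * (volume S).toReal ^ (1 / (n : ℝ)) *
      ((∫ x, ‖Φ (x, t)‖) + F (σ k) t) + F (σ k) t) atTop
      (𝓝 (Cn * (volume S).toReal ^ (1 / (n : ℝ)) * ((∫ x, ‖Φ (x, t)‖) + 0) + 0)) :=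
    ((tendsto_const_nhds.add ht).const_mul _).add ht
  have hfinal := ge_of_tendsto' hlim fun k => hbound (σ k)
  rwa [add_zero, add_zero, hSv] at hfinal

end PP
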