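import Pool.Agent.PP.ENT
import Pool.Agent.PP.FKS
import Pool.Agent.PP.FG

open Set Metric Filter Topology MeasureTheory
open scoped ContDiff

noncomputable section

namespace PP

variable {n : ℕ}
variable {p : ℝ}

/-! ### cut off functions -/

private theorem dg_psi_smooth : ContDiff ℝ ∞ Real.smoothTransition :=
  Real.smoothTransition.contDiff

private theorem dg_lip : ∃ L : ℝ, 0 < L ∧ ∀ s t : ℝ,
    |Real.smoothTransition s - Real.smoothTransition t| ≤ L * |s - t| := by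
  have hd : Differentiable ℝ Real.smoothTransition := dg_psi_smooth.differentiable (by simp)
  have hc : Continuous (deriv Real.smoothTransition) :=
    dg_psi_smooth.continuous_deriv (by exact_mod_cast le_top)
  obtain ⟨L, hL⟩ := isCompact_Icc.exists_bound_of_continuousOn
    (hc.continuousOn (s := Icc (0 : ℝ) 1))
  refine ⟨max L 1, by positivity, fun s t => ?_⟩
  have hb : ∀ x : ℝ, ‖deriv Real.smoothTransition x‖ ≤ max L 1 := by
    intro x
    rcases lt_or_ge x 0 with hx | hx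
    · have : Real.smoothTransition =ᶠ[𝓝 x] fun _ => 0 := by
        filter_upwards [gt_mem_nhds hx] with y hy
        exact Real.smoothTransition.zero_of_nonpos (le_of_lt hy)
      rw [this.deriv_eq, deriv_const, norm_zero]
      positivity
    · rcases lt_or_ge 1 x with hx1 | hx1
      · have : Real.smoothTransition =ᶠ[𝓝 x] fun _ => 1 := by
          filter_upwards [lt_mem_nhds hx1] with y hy
          exact Real.smoothTransition.one_of_one_le (le_of_lt hy)
        rw [this.deriv_eq, deriv_const, norm_zero]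
        positivity
      · exact (hL x ⟨hx, hx1⟩).trans (le_max_left _ _)
  have := Convex.norm_image_sub_le_of_norm_deriv_le (s := univ) (fun x _ => hd x)
    (fun x _ => hb x) convex_univ (mem_univ t) (mem_univ s)
  rwa [Real.norm_eq_abs, Real.norm_eq_abs] at this

private theorem dg_cut (n : ℕ) : ∃ c : ℝ, 0 < c ∧ ∀ r R T' : ℝ, 1 / 2 ≤ r → r < R → R ≤ 1 →
    T' < 1 → ∃ η : X n → ℝ, Tst (ball (0 : E n) R ×ˢ Ioo (-R) 1) η ∧
      (∀ z, 0 ≤ η z ∧ η z ≤ 1) ∧
      (∀ z : X n, z.1 ∈ ball (0 : E n) r → -r ≤ z.2 → z.2 ≤ T' → η z = 1) ∧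
      (∀ z, z.2 < T' → |dt η z| ≤ c / (R - r)) ∧ (∀ z, ‖dx η z‖ ≤ c / (R - r)) := by
  obtain ⟨L, hL0, hL⟩ := dg_lip
  refine ⟨6 * L, by positivity, fun r R T' hr hrR hR hT' => ?_⟩
  set R' : ℝ := (R + r) / 2 with hR'
  set T1 : ℝ := (1 + T') / 2 with hT1
  have h1 : 0 < R' - r := by rw [hR']; linarith
  have h2 : 0 < R' ^ 2 - r ^ 2 := by nlinarith
  have h3 : 0 < T1 - T' := by rw [hT1]; linarith
  have h4 : (R - r) / 2 ≤ R' ^ 2 - r ^ 2 := by nlinarith
  have h5 : R' < R := by rw [hR']; linarith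
  have h6 : 0 < R - r := by linarith
  have h7 : R' < 1 := by linarith
  have h8 : 0 < R' := by linarith
  set a : E n → ℝ := fun x => Real.smoothTransition ((R' ^ 2 - ‖x‖ ^ 2) / (R' ^ 2 - r ^ 2)) with ha
  set b : ℝ → ℝ := fun t => Real.smoothTransition ((t + R') / (R' - r)) with hb
  set d : ℝ → ℝ := fun t => Real.smoothTransition ((T1 - t) / (T1 - T')) with hd
  have ha0 : ∀ x, 0 ≤ a x := fun x => Real.smoothTransition.nonneg _
  have ha1 : ∀ x, a x ≤ 1 := fun x => Real.smoothTransition.le_one _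
  have hb0 : ∀ x, 0 ≤ b x := fun x => Real.smoothTransition.nonneg _
  have hb1 : ∀ x, b x ≤ 1 := fun x => Real.smoothTransition.le_one _
  have hd0 : ∀ x, 0 ≤ d x := fun x => Real.smoothTransition.nonneg _
  have hd1 : ∀ x, d x ≤ 1 := fun x => Real.smoothTransition.le_one _
  have haz : ∀ x, R' ≤ ‖x‖ → a x = 0 := fun x hx => by
    refine Real.smoothTransition.zero_of_nonpos (div_nonpos_of_nonpos_of_nonneg ?_ h2.le)
    nlinarith
  have hbz : ∀ t, t ≤ -R' → b t = 0 := fun t ht => by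
    refine Real.smoothTransition.zero_of_nonpos (div_nonpos_of_nonpos_of_nonneg ?_ h1.le)
    linarith
  have hdz : ∀ t, T1 ≤ t → d t = 0 := fun t ht => by
    refine Real.smoothTransition.zero_of_nonpos (div_nonpos_of_nonpos_of_nonneg ?_ h3.le)
    linarith
  have hao : ∀ x, ‖x‖ ≤ r → a x = 1 := fun x hx => by
    refine Real.smoothTransition.one_of_one_le ?_
    rw [le_div_iff₀ h2, one_mul]
    nlinarith [norm_nonneg x]
  have hbo : ∀ t, -r ≤ t → b t = 1 := fun t ht => by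
    refine Real.smoothTransition.one_of_one_le ?_
    rw [le_div_iff₀ h1, one_mul]
    linarith
  have hdo : ∀ t, t ≤ T' → d t = 1 := fun t ht => by
    refine Real.smoothTransition.one_of_one_le ?_
    rw [le_div_iff₀ h3, one_mul]
    linarith
  have hK : IsCompact (closedBall (0 : E n) R' ×ˢ Icc (-R') T1) :=
    (isCompact_closedBall _ _).prod isCompact_Icc
  set η : X n → ℝ := fun z => a z.1 * (b z.2 * d z.2) with hη
  have hz : ∀ z, z ∉ closedBall (0 : E n) R' ×ˢ Icc (-R') T1 → η z = 0 := by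
    intro z hz
    simp only [hη]
    by_cases e1 : R' ≤ ‖z.1‖
    · rw [haz _ e1, zero_mul]
    · by_cases e2 : z.2 ≤ -R'
      · rw [hbz _ e2, zero_mul, mul_zero]
      · by_cases e3 : T1 ≤ z.2
        · rw [hdz _ e3, mul_zero, mul_zero]
        · refine absurd ⟨?_, ?_, ?_⟩ hz
          · rw [mem_closedBall_zero_iff]
            linarith
          · linarith
          · linarith
  have hts : tsupport η ⊆ closedBall (0 : E n) R' ×ˢ Icc (-R') T1 := by
    refine closure_minimal (fun z hz' => ?_) hK.isClosed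
    by_contra hcon
    exact hz' (hz z hcon)
  refine ⟨η, ⟨?_, ?_, ?_⟩, ?_, ?_, ?_, ?_⟩
  · have e1 : ContDiff ℝ ∞ (fun z : X n => a z.1) :=
      dg_psi_smooth.comp ((contDiff_const.sub (contDiff_fst.norm_sq ℝ)).div_const _)
    have e2 : ContDiff ℝ ∞ (fun z : X n => b z.2) :=
      dg_psi_smooth.comp ((contDiff_snd.add contDiff_const).div_const _)
    have e3 : ContDiff ℝ ∞ (fun z : X n => d z.2) :=
      dg_psi_smooth.comp ((contDiff_const.sub contDiff_snd).div_const _)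
    exact e1.mul (e2.mul e3)
  · exact HasCompactSupport.intro hK hz
  · refine hts.trans (Set.prod_mono ?_ ?_)
    · exact closedBall_subset_ball h5
    · intro t ht
      exact ⟨by linarith [ht.1], by linarith [ht.2]⟩
  · intro z
    exact ⟨mul_nonneg (ha0 _) (mul_nonneg (hb0 _) (hd0 _)),
      mul_le_one₀ (ha1 _) (mul_nonneg (hb0 _) (hd0 _))
        (mul_le_one₀ (hb1 _) (hd0 _) (hd1 _))⟩
  · intro z e1 e2 e3
    simp only [hη]
    rw [hao _ (mem_ball_zero_iff.1 e1).le, hbo _ e2, hdo _ e3]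
    norm_num
  · intro z hzT
    show ‖deriv (fun t => η (z.1, t)) z.2‖ ≤ 6 * L / (R - r)
    refine norm_deriv_le_of_lip' (by positivity) ?_
    filter_upwards [gt_mem_nhds hzT] with t ht
    simp only [hη]
    rw [hdo _ (le_of_lt ht), hdo _ hzT.le, mul_one, mul_one, ← mul_sub, norm_mul,
      Real.norm_eq_abs, abs_of_nonneg (ha0 _)]
    have e1 : ‖b t - b z.2‖ ≤ L * |(t + R') / (R' - r) - (z.2 + R') / (R' - r)| := hL _ _
    have e2 : (t + R') / (R' - r) - (z.2 + R') / (R' - r) = (t - z.2) / (R' - r) := by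
      rw [← sub_div]
      congr 1
      ring
    rw [e2, abs_div, abs_of_pos h1] at e1
    calc a z.1 * ‖b t - b z.2‖ ≤ 1 * (L * (|t - z.2| / (R' - r))) :=
          mul_le_mul (ha1 _) e1 (norm_nonneg _) zero_le_one
      _ = 2 * L / (R - r) * ‖t - z.2‖ := by
          rw [hR', Real.norm_eq_abs]
          have : (R + r) / 2 - r = (R - r) / 2 := by ring
          rw [this]
          field_simp
      _ ≤ 6 * L / (R - r) * ‖t - z.2‖ := by
          refine mul_le_mul_of_nonneg_right ?_ (norm_nonneg _)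
          refine div_le_div_of_nonneg_right ?_ h6.le
          linarith
  · intro z
    have e0 : ‖dx η z‖ = ‖fderiv ℝ (fun x => η (x, z.2)) z.1‖ := by
      unfold dx gradient
      rw [LinearIsometryEquiv.norm_map]
    rw [e0]
    refine norm_fderiv_le_of_lip' ℝ (by positivity) ?_
    have e3 : ∀ x, η (x, z.2) - η (z.1, z.2) = (a x - a z.1) * (b z.2 * d z.2) := fun x => by
      simp only [hη]
      ring
    have e4 : 0 ≤ b z.2 * d z.2 := mul_nonneg (hb0 _) (hd0 _)
    have e5 : b z.2 * d z.2 ≤ 1 := mul_le_one₀ (hb1 _) (hd0 _) (hd1 _)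
    rcases lt_or_ge 1 ‖z.1‖ with h | h
    · have : ∀ᶠ x in 𝓝 z.1, 1 < ‖x‖ := continuous_norm.continuousAt.eventually (lt_mem_nhds h)
      filter_upwards [this] with x hx
      show ‖η (x, z.2) - η (z.1, z.2)‖ ≤ _
      rw [e3, haz _ (by linarith), haz _ (by linarith), sub_zero, zero_mul, norm_zero]
      positivity
    · have : ∀ᶠ x in 𝓝 z.1, ‖x‖ < 2 := continuous_norm.continuousAt.eventually
        (gt_mem_nhds (by linarith))
      filter_upwards [this] with x hx
      show ‖η (x, z.2) - η (z.1, z.2)‖ ≤ _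
      rw [e3, norm_mul, Real.norm_of_nonneg e4]
      have e6 : ‖a x - a z.1‖ ≤ L * |(R' ^ 2 - ‖x‖ ^ 2) / (R' ^ 2 - r ^ 2) -
        (R' ^ 2 - ‖z.1‖ ^ 2) / (R' ^ 2 - r ^ 2)| := hL _ _
      have e7 : (R' ^ 2 - ‖x‖ ^ 2) / (R' ^ 2 - r ^ 2) - (R' ^ 2 - ‖z.1‖ ^ 2) / (R' ^ 2 - r ^ 2) =
          (‖z.1‖ - ‖x‖) * (‖z.1‖ + ‖x‖) / (R' ^ 2 - r ^ 2) := by
        rw [← sub_div]
        congr 1
        ring
      have e8 : |(‖z.1‖ - ‖x‖) * (‖z.1‖ + ‖x‖) / (R' ^ 2 - r ^ 2)| ≤
          ‖x - z.1‖ * 3 / ((R - r) / 2) := by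
        rw [abs_div, abs_mul, abs_of_pos h2, abs_of_nonneg (by positivity : 0 ≤ ‖z.1‖ + ‖x‖)]
        have e9 : |‖z.1‖ - ‖x‖| ≤ ‖x - z.1‖ := by
          rw [abs_sub_comm]
          exact abs_norm_sub_norm_le _ _
        gcongr
        linarith
      calc ‖a x - a z.1‖ * (b z.2 * d z.2) ≤ ‖a x - a z.1‖ * 1 :=
            mul_le_mul_of_nonneg_left e5 (norm_nonneg _)
        _ ≤ L * (‖x - z.1‖ * 3 / ((R - r) / 2)) := by
            rw [mul_one]
            rw [e7] at e6
            exact e6.trans (mul_le_mul_of_nonneg_left e8 hL0.le)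
        _ = 6 * L / (R - r) * ‖x - z.1‖ := by
            field_simp
            ring

/-! ### sublevel sets -/

private def DA (v : X n → ℝ) (R κ : ℝ) : Set (X n) :=
  {z | z ∈ ball (0 : E n) R ×ˢ Ioo (-R) 1 ∧ v z < κ}

private theorem dg_meas {v : X n → ℝ} (hv : Measurable v) (R κ : ℝ) :
    MeasurableSet (DA v R κ) :=
  (measurableSet_ball.prod measurableSet_Ioo).inter (measurableSet_lt hv measurable_const)

private theorem dg_box_bdd (R : ℝ) :
    Bornology.IsBounded (ball (0 : E n) R ×ˢ Ioo (-R) 1) :=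
  isBounded_ball.prod (isBounded_Ioo _ _)

private theorem dg_fin (v : X n → ℝ) (R κ : ℝ) : volume (DA v R κ) ≠ ⊤ :=
  (((dg_box_bdd R).subset (fun _ h => h.1)).measure_lt_top).ne

private theorem dg_mono (v : X n → ℝ) {r R κ' κ : ℝ} (h1 : r ≤ R) (h2 : κ' ≤ κ) :
    DA v r κ' ⊆ DA v R κ := by
  rintro z ⟨⟨a, b, c⟩, d⟩
  exact ⟨⟨ball_subset_ball h1 a, by linarith, c⟩, by linarith⟩

private theorem dg_bound {A S : Set (X n)} (hA : MeasurableSet A) (hAf : volume A ≠ ⊤)
    {f : X n → ℝ} {B : ℝ} (hB : 0 ≤ B) (h0 : ∀ z, 0 ≤ f z)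
    (h : ∀ᵐ z, z ∈ S → f z ≤ A.indicator (fun _ => B) z) (hS : MeasurableSet S) :
    ∫ z in S, f z ≤ B * (volume A).toReal := by
  have hi : Integrable (A.indicator fun _ : X n => B) volume := by
    rw [integrable_indicator_iff hA]
    exact integrableOn_const hAf
  have h1 : ∫ z in S, f z ≤ ∫ z in S, A.indicator (fun _ => B) z :=
    integral_mono_of_nonneg (Eventually.of_forall h0) hi.integrableOn
      ((ae_restrict_iff' hS).2 h)
  have h2 : ∫ z in S, A.indicator (fun _ => B) z ≤ ∫ z, A.indicator (fun _ => B) z :=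
    setIntegral_le_integral hi (Eventually.of_forall fun z => indicator_nonneg (fun _ _ => hB) z)
  have h3 : ∫ z, A.indicator (fun _ => B) z = B * (volume A).toReal := by
    rw [integral_indicator_const _ hA, smul_eq_mul, mul_comm]
    rfl
  linarith

/-! ### the energy estimate -/

private theorem dg_en (hp : 1 < p) : ∃ c Cp : ℝ, 0 < c ∧ 0 < Cp ∧
    ∀ (v : X n → ℝ) (G : X n → E n), Measurable v →
    SupOn p (ball (0 : E n) 1 ×ˢ Ioo (-1 : ℝ) 1) v G →
    (∀ᵐ z ∂(volume.restrict (ball (0 : E n) 1 ×ˢ Ioo (-1 : ℝ) 1)), 0 ≤ v z) →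
    ∀ r R κ T' : ℝ, 1 / 2 ≤ r → r < R → R ≤ 1 → 0 ≤ κ → T' < 1 →
    ∃ g : X n → ℝ, Integrable g volume ∧ (∀ z, 0 ≤ g z) ∧
      (∀ z, z ∈ DA v r κ → z.2 ≤ T' → ‖G z‖ ^ p ≤ g z) ∧
      ∀ᵐ T : ℝ, T < T' →
        (∀ κ' < κ, (κ - κ') ^ 2 * (volume {x : E n | (x, T) ∈ DA v r κ'}).toReal ≤
          Cp * (c / (R - r) * κ ^ 2 + (κ * (c / (R - r))) ^ p) * (volume (DA v R κ)).toReal) ∧
        ∫ z in {z : X n | z.2 < T}, g z ≤
          Cp * (c / (R - r) * κ ^ 2 + (κ * (c / (R - r))) ^ p) * (volume (DA v R κ)).toReal := by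
  obtain ⟨c, hc, hcut⟩ := dg_cut n
  obtain ⟨Cp, hCp, hen⟩ := en_time (n := n) hp
  refine ⟨c, Cp, hc, hCp, fun v G hv hsup hnn r R κ T' hr hrR hR hκ hT' => ?_⟩
  obtain ⟨η, hη, hη01, hη1, hηt, hηx⟩ := hcut r R T' hr hrR hR hT'
  have hp0 : 0 < p := by linarith
  have hΩo : IsOpen (ball (0 : E n) 1 ×ˢ Ioo (-1 : ℝ) 1) := isOpen_ball.prod isOpen_Ioo
  have hsub : ball (0 : E n) R ×ˢ Ioo (-R) 1 ⊆ ball (0 : E n) 1 ×ˢ Ioo (-1 : ℝ) 1 :=
    prod_mono (ball_subset_ball hR) (Ioo_subset_Ioo (by linarith) le_rfl)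
  have hηΩ : Tst (ball (0 : E n) 1 ×ˢ Ioo (-1 : ℝ) 1) η :=
    ⟨hη.smooth, hη.cpt, hη.supp.trans hsub⟩
  have hen' := hen hΩo hsup hnn hκ hηΩ hη01
  have hK : IsCompact (tsupport η) := hη.cpt
  have hηc : Continuous η := hη.smooth.continuous
  have hRr : 0 < R - r := by linarith
  have hcR : 0 < c / (R - r) := by positivity
  have hm0 : mp p ≠ 0 := by unfold mp; omega
  have hoff : ∀ z, z ∉ tsupport η → η z = 0 := fun z hz => image_eq_zero_of_notMem_tsupport hz
  have hnn' : ∀ᵐ z : X n, z ∈ ball (0 : E n) 1 ×ˢ Ioo (-1 : ℝ) 1 → 0 ≤ v z :=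
    (ae_restrict_iff' hΩo.measurableSet).1 hnn
  have hlt : MeasurableSet {z : X n | v z < κ} := measurableSet_lt hv measurable_const
  -- the energy density
  set g : X n → ℝ := fun z => η z ^ mp p * (if v z < κ then ‖G z‖ ^ p else 0) with hg
  have hgi : Integrable g volume := by
    have e1 : IntegrableOn (fun z => ‖G z‖ ^ p) (tsupport η) volume := by
      have := (hsup.memG _ hK hηΩ.supp).integrable_norm_rpow (by simpa using hp0)
        ENNReal.ofReal_ne_top
      rwa [ENNReal.toReal_ofReal hp0.le] at this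
    have e2 : IntegrableOn (fun z => if v z < κ then ‖G z‖ ^ p else 0) (tsupport η) volume := by
      have := e1.indicator hlt
      refine this.congr (Eventually.of_forall fun z => ?_)
      simp only [indicator, mem_ofPred_eq]
    have e3 : IntegrableOn g (tsupport η) volume := by
      refine Integrable.bdd_mul (c := 1) e2 (hηc.pow _).aestronglyMeasurable
        (Eventually.of_forall fun z => ?_)
      rw [Real.norm_of_nonneg (by have := (hη01 z).1; positivity)]
      exact pow_le_one₀ (hη01 z).1 (hη01 z).2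
    refine e3.integrable_of_forall_notMem_eq_zero fun z hz => ?_
    simp only [hg]
    rw [hoff z hz, zero_pow hm0, zero_mul]
  have hg0 : ∀ z, 0 ≤ g z := fun z => by
    simp only [hg]
    have := (hη01 z).1
    split_ifs <;> positivity
  set f : X n → ℝ := fun z => η z ^ mp p * (max (κ - v z) 0) ^ 2 with hf
  have hf0 : ∀ z, 0 ≤ f z := fun z => by
    simp only [hf]
    have := (hη01 z).1
    positivity
  have hfi : Integrable f volume := by
    have e1 : AEStronglyMeasurable f volume :=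
      ((hηc.pow _).measurable.mul (((measurable_const.sub hv).max
        measurable_const).pow_const 2)).aestronglyMeasurable
    have e2 : IntegrableOn f (tsupport η) volume := by
      refine IntegrableOn.of_bound hK.measure_lt_top e1.restrict (κ ^ 2) ?_
      rw [ae_restrict_iff' (isClosed_tsupport η).measurableSet]
      filter_upwards [hnn'] with z hz hzK
      have hvz := hz (hηΩ.supp hzK)
      rw [Real.norm_of_nonneg (hf0 z)]
      simp only [hf]
      calc η z ^ mp p * (max (κ - v z) 0) ^ 2 ≤ 1 * κ ^ 2 := by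
            refine mul_le_mul (pow_le_one₀ (hη01 z).1 (hη01 z).2) ?_ (by positivity) zero_le_one
            refine pow_le_pow_left₀ (le_max_right _ _) ?_ 2
            exact max_le (by linarith) hκ
        _ = κ ^ 2 := one_mul _
    refine e2.integrable_of_forall_notMem_eq_zero fun z hz => ?_
    simp only [hf]
    rw [hoff z hz, zero_pow hm0, zero_mul]
  have hfs : ∀ᵐ T : ℝ, Integrable (fun x : E n => f (x, T)) volume := by
    have : Integrable f ((volume : Measure (E n)).prod (volume : Measure ℝ)) := by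
      rw [← Measure.volume_eq_prod]
      exact hfi
    exact this.prod_left_ae
  refine ⟨g, hgi, hg0, ?_, ?_⟩
  · rintro z ⟨⟨z1, z2, z3⟩, z4⟩ z5
    simp only [hg]
    rw [hη1 z z1 z2.le z5, one_pow, one_mul, if_pos z4]
  · filter_upwards [hen', hfs] with T h1 h2 hTT
    have hSm : MeasurableSet {z : X n | z.2 < T} := measurableSet_lt measurable_snd measurable_const
    have i1 : ∫ z in {z : X n | z.2 < T}, |dt η z| * (max (κ - v z) 0) ^ 2 ≤
        c / (R - r) * κ ^ 2 * (volume (DA v R κ)).toReal := by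
      refine dg_bound (dg_meas hv R κ) (dg_fin v R κ) (by positivity) (fun z => by positivity)
        ?_ hSm
      filter_upwards [hnn'] with z hz hzT
      by_cases hzA : z ∈ DA v R κ
      · rw [indicator_of_mem hzA]
        have hvz := hz (hsub hzA.1)
        refine mul_le_mul (hηt z (lt_trans hzT hTT)) ?_ (by positivity) hcR.le
        exact pow_le_pow_left₀ (le_max_right _ _) (max_le (by linarith) hκ) 2
      · rw [indicator_of_notMem hzA]
        by_cases hzb : z ∈ ball (0 : E n) R ×ˢ Ioo (-R) 1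
        · have : κ ≤ v z := not_lt.1 fun hlt => hzA ⟨hzb, hlt⟩
          rw [max_eq_right (by linarith)]
          simp
        · rw [dt_zero_of_notMem z fun hh => hzb (hη.supp hh)]
          simp
    have i2 : ∫ z in {z : X n | z.2 < T}, (max (κ - v z) 0) ^ p * ‖dx η z‖ ^ p ≤
        (κ * (c / (R - r))) ^ p * (volume (DA v R κ)).toReal := by
      refine dg_bound (dg_meas hv R κ) (dg_fin v R κ) (by positivity) (fun z => by positivity)
        ?_ hSm
      filter_upwards [hnn'] with z hz hzT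
      by_cases hzA : z ∈ DA v R κ
      · rw [indicator_of_mem hzA]
        have hvz := hz (hsub hzA.1)
        rw [← Real.mul_rpow (le_max_right _ _) (norm_nonneg _)]
        refine Real.rpow_le_rpow (by positivity) ?_ hp0.le
        exact mul_le_mul (max_le (by linarith) hκ) (hηx z) (norm_nonneg _) hκ
      · rw [indicator_of_notMem hzA]
        by_cases hzb : z ∈ ball (0 : E n) R ×ˢ Ioo (-R) 1
        · have : κ ≤ v z := not_lt.1 fun hlt => hzA ⟨hzb, hlt⟩
          rw [max_eq_right (by linarith), Real.zero_rpow hp0.ne', zero_mul]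
        · rw [dx_zero_of_notMem z fun hh => hzb (hη.supp hh), norm_zero, Real.zero_rpow hp0.ne',
            mul_zero]
    have i3 : Cp * ((∫ z in {z : X n | z.2 < T}, |dt η z| * (max (κ - v z) 0) ^ 2) +
        ∫ z in {z : X n | z.2 < T}, (max (κ - v z) 0) ^ p * ‖dx η z‖ ^ p) ≤
        Cp * (c / (R - r) * κ ^ 2 + (κ * (c / (R - r))) ^ p) * (volume (DA v R κ)).toReal := by
      rw [mul_assoc]
      refine mul_le_mul_of_nonneg_left ?_ hCp.le
      rw [add_mul]
      exact add_le_add i1 i2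
    have i4 : 0 ≤ ∫ x, f (x, T) := integral_nonneg fun x => hf0 _
    have i5 : 0 ≤ ∫ z in {z : X n | z.2 < T}, g z := integral_nonneg hg0
    have i6 : (∫ x, f (x, T)) + ∫ z in {z : X n | z.2 < T}, g z ≤
      Cp * (c / (R - r) * κ ^ 2 + (κ * (c / (R - r))) ^ p) * (volume (DA v R κ)).toReal :=
      h1.trans i3
    refine ⟨fun κ' hκ' => ?_, by linarith⟩
    have hS : MeasurableSet {x : E n | (x, T) ∈ DA v r κ'} :=
      (measurable_id.prodMk measurable_const) (dg_meas hv r κ')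
    have hSf : volume {x : E n | (x, T) ∈ DA v r κ'} ≠ ⊤ := by
      refine ((isBounded_ball (x := (0 : E n)) (r := r)).subset ?_).measure_lt_top.ne
      intro x hx
      exact hx.1.1
    have i7 : ∫ x, {x : E n | (x, T) ∈ DA v r κ'}.indicator (fun _ => (κ - κ') ^ 2) x ≤
        ∫ x, f (x, T) := by
      refine integral_mono ?_ h2 fun x => ?_
      · rw [integrable_indicator_iff hS]
        exact integrableOn_const hSf
      · by_cases hx : (x, T) ∈ DA v r κ'
        · rw [indicator_of_mem (by exact hx)]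
          simp only [hf]
          rw [hη1 (x, T) hx.1.1 hx.1.2.1.le hTT.le, one_pow, one_mul]
          refine pow_le_pow_left₀ (by linarith) (le_max_of_le_left ?_) 2
          have := hx.2
          linarith
        · rw [indicator_of_notMem (by exact hx)]
          exact hf0 _
    rw [integral_indicator_const _ hS, smul_eq_mul, mul_comm] at i7
    have i8 : (volume : Measure (E n)).real {x : E n | (x, T) ∈ DA v r κ'} =
      (volume {x : E n | (x, T) ∈ DA v r κ'}).toReal := rfl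
    rw [i8] at i7
    linarith

/-! ### one step of the iteration -/

private theorem dg_fubini {F : X n → ℝ} (hF : Integrable F volume) (T : ℝ) :
    ∫ z in {z : X n | z.2 < T}, F z = ∫ t in Iio T, ∫ x : E n, F (x, t) := by
  have h1 : {z : X n | z.2 < T} = (univ : Set (E n)) ×ˢ Iio T := by
    ext z
    simp
  have h2 : (volume : Measure (X n)).restrict ((univ : Set (E n)) ×ˢ Iio T) =
      (volume : Measure (E n)).prod ((volume : Measure ℝ).restrict (Iio T)) := by
    rw [Measure.volume_eq_prod, ← Measure.prod_restrict, Measure.restrict_univ]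
  rw [h1, h2]
  refine integral_prod_symm _ ?_
  rw [← h2]
  exact hF.restrict

private theorem dg_fk (hn : 0 < n) (hp : 1 < p) : ∃ c Cn : ℝ, 0 < c ∧ 0 < Cn ∧
    ∀ (v : X n → ℝ) (G : X n → E n), Measurable v →
    SupOn p (ball (0 : E n) 1 ×ˢ Ioo (-1 : ℝ) 1) v G →
    (∀ᵐ z ∂(volume.restrict (ball (0 : E n) 1 ×ˢ Ioo (-1 : ℝ) 1)), 0 ≤ v z) →
    ∀ r R κ' κ κ0 T T' D M I : ℝ, 1 / 2 ≤ r → r < R → R ≤ 1 → 0 ≤ κ → κ' < κ → κ < κ0 → T < T' →
    T' < 1 → 0 ≤ M →
    ∀ g : X n → ℝ, Integrable g volume → (∀ z, 0 ≤ g z) →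
      (∀ z, z ∈ DA v R κ0 → z.2 ≤ T' → ‖G z‖ ^ p ≤ g z) →
      (∀ᵐ t : ℝ, t < T' → (volume {x : E n | (x, t) ∈ DA v R κ}).toReal ≤ M) →
      ∫ z in {z : X n | z.2 < T}, g z ≤ I →
      (volume (DA v R κ)).toReal ≤ D →
      (κ - κ') * (volume (DA v r κ' ∩ {z | z.2 < T})).toReal ≤
        Cn * M ^ (1 / (n : ℝ)) * ((κ * (c / (R - r)) + 1) * D + I) := by
  obtain ⟨c, hc, hcut⟩ := dg_cut n
  obtain ⟨Cn, hCn, hfk⟩ := fk_slice (n := n) hn
  refine ⟨c, Cn, hc, hCn, fun v G hv hsup hnn r R κ' κ κ0 T T' D M I hr hrR hR hκ hκ' hκ0 hTT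
    hT' hM g hgi hg0 hG hsl hI hD => ?_⟩
  obtain ⟨η, hη, hη01, hη1, hηt, hηx⟩ := hcut r R T' hr hrR hR hT'
  have hp0 : 0 < p := by linarith
  have hΩo : IsOpen (ball (0 : E n) 1 ×ˢ Ioo (-1 : ℝ) 1) := isOpen_ball.prod isOpen_Ioo
  have hsub : ball (0 : E n) R ×ˢ Ioo (-R) 1 ⊆ ball (0 : E n) 1 ×ˢ Ioo (-1 : ℝ) 1 :=
    prod_mono (ball_subset_ball hR) (Ioo_subset_Ioo (by linarith) le_rfl)
  have hηΩ : Tst (ball (0 : E n) 1 ×ˢ Ioo (-1 : ℝ) 1) η :=
    ⟨hη.smooth, hη.cpt, hη.supp.trans hsub⟩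
  have hK : IsCompact (tsupport η) := hη.cpt
  have hRr : 0 < R - r := by linarith
  have hoff : ∀ z, z ∉ tsupport η → η z = 0 := fun z hz => image_eq_zero_of_notMem_tsupport hz
  have hnn' : ∀ᵐ z : X n, z ∈ ball (0 : E n) 1 ×ˢ Ioo (-1 : ℝ) 1 → 0 ≤ v z :=
    (ae_restrict_iff' hΩo.measurableSet).1 hnn
  have hw := wg_localize hp hΩo hsup.meas hsup.bdd hsup.memG hsup.wg hηΩ
  have hw2 := (W0.lin hp hK.isBounded (tst_W1 hp hη).toW0 hw κ (-1)).pos hp hK.isBounded
  set φ : X n → ℝ := fun z => max (κ * η z + -1 * (η z * v z)) 0 with hφ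
  set Φ : X n → E n := fun z => if 0 < κ * η z + -1 * (η z * v z) then
    κ • dx η z + (-1 : ℝ) • (η z • G z + v z • dx η z) else 0 with hΦ
  -- the positivity set
  have hpos : ∀ z, 0 < κ * η z + -1 * (η z * v z) → z ∈ DA v R κ := by
    intro z hz
    have e1 : 0 < η z * (κ - v z) := by linarith [hz]
    have e2 : η z ≠ 0 := fun h => by rw [h, zero_mul] at e1; exact lt_irrefl _ e1
    have e3 : 0 < η z := lt_of_le_of_ne (hη01 z).1 (Ne.symm e2)
    have e4 : 0 < κ - v z := (mul_pos_iff_of_pos_left e3).1 e1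
    refine ⟨hη.supp ?_, by linarith⟩
    by_contra hcon
    exact e2 (hoff z hcon)
  have hφ0 : ∀ z, 0 ≤ φ z := fun z => le_max_right _ _
  have hφi : Integrable φ volume :=
    memLp_one_iff_integrable.1 (hw2.memLp_fn hK.isBounded 1)
  have hΦi : Integrable Φ volume := by
    have hp1 : (1 : ENNReal) ≤ ENNReal.ofReal p := by
      rw [← ENNReal.ofReal_one]
      exact ENNReal.ofReal_le_ofReal hp.le
    have : IsFiniteMeasure ((volume : Measure (X n)).restrict (tsupport η)) :=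
      ⟨by rw [Measure.restrict_apply_univ]; exact hK.measure_lt_top⟩
    have e1 : IntegrableOn Φ (tsupport η) volume := (hw2.mem.restrict _).integrable hp1
    exact e1.integrable_of_ae_notMem_eq_zero (hw2.grad_off hp hK.isBounded)
  -- upper bound of the gradient
  have hup : ∫ z in {z : X n | z.2 < T}, ‖Φ z‖ ≤ (κ * (c / (R - r)) + 1) * D + I := by
    have hAm := dg_meas hv R κ
    have hi : Integrable ((DA v R κ).indicator fun _ : X n => κ * (c / (R - r)) + 1) volume := by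
      rw [integrable_indicator_iff hAm]
      exact integrableOn_const (dg_fin v R κ)
    have hSm : MeasurableSet {z : X n | z.2 < T} := measurableSet_lt measurable_snd measurable_const
    have e1 : ∫ z in {z : X n | z.2 < T}, ‖Φ z‖ ≤ ∫ z in {z : X n | z.2 < T},
        ((DA v R κ).indicator (fun _ : X n => κ * (c / (R - r)) + 1) z + g z) := by
      refine integral_mono_of_nonneg (Eventually.of_forall fun z => norm_nonneg _)
        (hi.integrableOn.add hgi.integrableOn) ((ae_restrict_iff' hSm).2 ?_)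
      filter_upwards [hnn'] with z hz hzT
      simp only [hΦ]
      split_ifs with h
      · have hzA := hpos z h
        rw [indicator_of_mem hzA]
        have hvz := hz (hsub hzA.1)
        have e2 := hG z (dg_mono v le_rfl hκ0.le hzA) (le_of_lt (lt_trans hzT hTT))
        have e3 : κ • dx η z + (-1 : ℝ) • (η z • G z + v z • dx η z) =
            (κ - v z) • dx η z - η z • G z := by module
        have e4 : 0 ≤ κ - v z := by linarith [hzA.2]
        have e5 : ‖G z‖ ≤ 1 + ‖G z‖ ^ p := by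
          rcases le_or_gt ‖G z‖ 1 with h1 | h1
          · have : 0 ≤ ‖G z‖ ^ p := by positivity
            linarith
          · have : ‖G z‖ ^ (1 : ℝ) ≤ ‖G z‖ ^ p := Real.rpow_le_rpow_of_exponent_le h1.le hp.le
            rw [Real.rpow_one] at this
            linarith
        rw [e3]
        calc ‖(κ - v z) • dx η z - η z • G z‖ ≤ ‖(κ - v z) • dx η z‖ + ‖η z • G z‖ :=
              norm_sub_le _ _
          _ ≤ κ * (c / (R - r)) + ‖G z‖ := by
              rw [norm_smul, norm_smul, Real.norm_of_nonneg e4, Real.norm_of_nonneg (hη01 z).1]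
              refine add_le_add ?_ ?_
              · exact mul_le_mul (by linarith) (hηx z) (norm_nonneg _) hκ
              · exact mul_le_of_le_one_left (norm_nonneg _) (hη01 z).2
          _ ≤ κ * (c / (R - r)) + 1 + g z := by linarith
      · rw [norm_zero]
        refine add_nonneg (indicator_nonneg (fun _ _ => by positivity) z) (hg0 z)
    have e2 : ∫ z in {z : X n | z.2 < T},
        ((DA v R κ).indicator (fun _ : X n => κ * (c / (R - r)) + 1) z + g z) =
        (∫ z in {z : X n | z.2 < T}, (DA v R κ).indicator (fun _ : X n => κ * (c / (R - r)) + 1) z) +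
        ∫ z in {z : X n | z.2 < T}, g z :=
      integral_add hi.integrableOn hgi.integrableOn
    have e3 : ∫ z in {z : X n | z.2 < T}, (DA v R κ).indicator
        (fun _ : X n => κ * (c / (R - r)) + 1) z ≤ (κ * (c / (R - r)) + 1) *
          (volume (DA v R κ)).toReal :=
      dg_bound hAm (dg_fin v R κ) (by positivity)
        (fun z => indicator_nonneg (fun _ _ => by positivity) z)
        (Eventually.of_forall fun z _ => le_rfl) hSm
    have e4 : (κ * (c / (R - r)) + 1) * (volume (DA v R κ)).toReal ≤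
        (κ * (c / (R - r)) + 1) * D := mul_le_mul_of_nonneg_left hD (by positivity)
    linarith
  -- lower bound
  have hlow : (κ - κ') * (volume (DA v r κ' ∩ {z | z.2 < T})).toReal ≤
      ∫ z in {z : X n | z.2 < T}, φ z := by
    have hSm : MeasurableSet {z : X n | z.2 < T} := measurableSet_lt measurable_snd measurable_const
    have hAm := dg_meas hv r κ'
    have e1 : ∫ z in {z : X n | z.2 < T}, (DA v r κ').indicator (fun _ => κ - κ') z ≤
        ∫ z in {z : X n | z.2 < T}, φ z := by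
      refine integral_mono_of_nonneg (Eventually.of_forall fun z =>
        indicator_nonneg (fun _ _ => by linarith) z) hφi.integrableOn
        ((ae_restrict_iff' hSm).2 (Eventually.of_forall fun z hzT => ?_))
      by_cases hz : z ∈ DA v r κ'
      · rw [indicator_of_mem hz]
        simp only [hφ]
        rw [hη1 z hz.1.1 hz.1.2.1.le (le_of_lt (lt_trans hzT hTT))]
        refine le_max_of_le_left ?_
        linarith [hz.2]
      · rw [indicator_of_notMem hz]
        exact hφ0 z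
    rw [integral_indicator_const _ hAm, smul_eq_mul, mul_comm] at e1
    have e2 : (volume.restrict {z : X n | z.2 < T}).real (DA v r κ') =
        (volume (DA v r κ' ∩ {z | z.2 < T})).toReal := by
      rw [Measure.real, Measure.restrict_apply hAm]
    rwa [e2] at e1
  -- the slices
  have hsl2 : ∀ᵐ t : ℝ, t < T → ∫ x : E n, φ (x, t) ≤ Cn * M ^ (1 / (n : ℝ)) *
      ∫ x : E n, ‖Φ (x, t)‖ := by
    filter_upwards [hfk p hp hK.isBounded hw2, hsl] with t h1 h2 ht
    have h3 : ∫ x : E n, |φ (x, t)| = ∫ x : E n, φ (x, t) :=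
      integral_congr_ae (Eventually.of_forall fun x => abs_of_nonneg (hφ0 _))
    rw [← h3]
    refine h1.trans ?_
    refine mul_le_mul_of_nonneg_right ?_ (integral_nonneg fun x => norm_nonneg _)
    refine mul_le_mul_of_nonneg_left ?_ hCn.le
    refine Real.rpow_le_rpow ENNReal.toReal_nonneg ?_ (by positivity)
    refine le_trans ?_ (h2 (by linarith))
    refine ENNReal.toReal_mono ?_ (measure_mono fun x hx => ?_)
    · refine ((isBounded_ball (x := (0 : E n)) (r := R)).subset ?_).measure_lt_top.ne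
      intro x hx
      exact hx.1.1
    · have hx' : φ (x, t) ≠ 0 := hx
      refine hpos _ ?_
      by_contra hcon
      exact hx' (max_eq_right (not_lt.1 hcon))
  have hmain : ∫ z in {z : X n | z.2 < T}, φ z ≤ Cn * M ^ (1 / (n : ℝ)) *
      ∫ z in {z : X n | z.2 < T}, ‖Φ z‖ := by
    rw [dg_fubini hφi, dg_fubini hΦi.norm, ← integral_const_mul]
    refine integral_mono_of_nonneg (Eventually.of_forall fun t => integral_nonneg fun x => hφ0 _)
      ?_ ((ae_restrict_iff' measurableSet_Iio).2 hsl2)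
    have : Integrable (fun z => ‖Φ z‖) ((volume : Measure (E n)).prod (volume : Measure ℝ)) := by
      rw [← Measure.volume_eq_prod]
      exact hΦi.norm
    exact (this.integral_prod_right.const_mul _).integrableOn
  exact hlow.trans (hmain.trans (mul_le_mul_of_nonneg_left hup (by positivity)))

private theorem dg_one (hn : 0 < n) (hp : 1 < p) : ∃ c1 Cp c Cn : ℝ, 0 < c1 ∧ 0 < Cp ∧ 0 < c ∧
    0 < Cn ∧ ∀ (v : X n → ℝ) (G : X n → E n), Measurable v →
    SupOn p (ball (0 : E n) 1 ×ˢ Ioo (-1 : ℝ) 1) v G →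
    (∀ᵐ z ∂(volume.restrict (ball (0 : E n) 1 ×ˢ Ioo (-1 : ℝ) 1)), 0 ≤ v z) →
    ∀ R2 R1 R0 κ2 κ1 κ0 E : ℝ, 1 / 2 ≤ R2 → R2 < R1 → R1 < R0 → R0 ≤ 1 → 0 ≤ κ2 → κ2 < κ1 →
      κ1 < κ0 →
      E = Cp * (c1 / (R0 - R1) * κ0 ^ 2 + (κ0 * (c1 / (R0 - R1))) ^ p) *
        (volume (DA v R0 κ0)).toReal →
      (κ1 - κ2) * (volume (DA v R2 κ2)).toReal ≤ Cn * (E / (κ0 - κ1) ^ 2) ^ (1 / (n : ℝ)) *
        ((κ1 * (c / (R1 - R2)) + 1) * (volume (DA v R0 κ0)).toReal + E) := by
  obtain ⟨c1, Cp, hc1, hCp, hen⟩ := dg_en (n := n) hp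
  obtain ⟨c, Cn, hc, hCn, hfk⟩ := dg_fk (n := n) hn hp
  refine ⟨c1, Cp, c, Cn, hc1, hCp, hc, hCn, ?_⟩
  intro v G hv hsup hnn R2 R1 R0 κ2 κ1 κ0 E h1 h2 h3 h4 h5 h6 h7 hE
  have hκ0 : 0 ≤ κ0 := by linarith
  have hR : 0 < R0 - R1 := by linarith
  have hE0 : 0 ≤ E := by
    rw [hE]
    positivity
  have hd : 0 < (κ0 - κ1) ^ 2 := by
    have : 0 < κ0 - κ1 := by linarith
    positivity
  set Bd : ℝ := Cn * (E / (κ0 - κ1) ^ 2) ^ (1 / (n : ℝ)) *
        ((κ1 * (c / (R1 - R2)) + 1) * (volume (DA v R0 κ0)).toReal + E) with hBd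
  -- the bound up to time `S`
  have key : ∀ S : ℝ, S < 1 →
      (κ1 - κ2) * (volume (DA v R2 κ2 ∩ {z | z.2 < S})).toReal ≤ Bd := by
    intro S hS
    set T' : ℝ := (1 + S) / 2 with hT'
    have hST' : S < T' := by rw [hT']; linarith
    have hT'1 : T' < 1 := by rw [hT']; linarith
    obtain ⟨g, hgi, hg0, hG, hae⟩ := hen v G hv hsup hnn R1 R0 κ0 T' (by linarith) h3 h4 hκ0 hT'1
    obtain ⟨T, hT, hT1, hT2⟩ := (Measure.dense_of_ae hae).exists_between hST'
    obtain ⟨-, hI⟩ := hT hT2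
    rw [← hE] at hI
    have e1 := hfk v G hv hsup hnn R2 R1 κ2 κ1 κ0 T T' (volume (DA v R0 κ0)).toReal
      (E / (κ0 - κ1) ^ 2) E h1 h2 (by linarith) (by linarith) h6 h7 hT2 hT'1 (by positivity)
      g hgi hg0 hG ?_ hI (ENNReal.toReal_mono (dg_fin v R0 κ0)
        (measure_mono (dg_mono v h3.le h7.le)))
    · refine le_trans ?_ e1
      refine mul_le_mul_of_nonneg_left ?_ (by linarith)
      refine ENNReal.toReal_mono ?_ (measure_mono ?_)
      · exact ((measure_mono inter_subset_left).trans_lt (dg_fin v R2 κ2).lt_top).ne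
      · rintro z ⟨a, b⟩
        exact ⟨a, lt_trans b hT1⟩
    · filter_upwards [hae] with t ht htT
      rw [le_div_iff₀ hd, mul_comm, hE]
      exact (ht htT).1 κ1 h7
  -- limit
  have hmono : Monotone (fun i : ℕ => DA v R2 κ2 ∩ {z : X n | z.2 < 1 - 1 / ((i : ℝ) + 1)}) := by
    intro i j hij z hz
    have hz2 : z.2 < 1 - 1 / ((i : ℝ) + 1) := hz.2
    have : 1 / ((j : ℝ) + 1) ≤ 1 / ((i : ℝ) + 1) := by
      refine one_div_le_one_div_of_le (by positivity) ?_
      have : (i : ℝ) ≤ j := by exact_mod_cast hij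
      linarith
    refine ⟨hz.1, ?_⟩
    show z.2 < 1 - 1 / ((j : ℝ) + 1)
    linarith
  have hUn : (⋃ i : ℕ, DA v R2 κ2 ∩ {z : X n | z.2 < 1 - 1 / ((i : ℝ) + 1)}) = DA v R2 κ2 := by
    refine Subset.antisymm (iUnion_subset fun i => inter_subset_left) fun z hz => ?_
    have hz1 : 0 < 1 - z.2 := by linarith [hz.1.2.2]
    obtain ⟨i, hi⟩ := exists_nat_one_div_lt hz1
    refine mem_iUnion.2 ⟨i, hz, ?_⟩
    show z.2 < 1 - 1 / ((i : ℝ) + 1)
    linarith
  have hlim := tendsto_measure_iUnion_atTop (μ := (volume : Measure (X n))) hmono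
  rw [hUn] at hlim
  have hlim2 := ((ENNReal.tendsto_toReal (dg_fin v R2 κ2)).comp hlim).const_mul (κ1 - κ2)
  refine le_of_tendsto' hlim2 fun i => key _ ?_
  have : (0 : ℝ) < 1 / ((i : ℝ) + 1) := by positivity
  linarith

private theorem dg_rec (hn : 0 < n) (hp : 1 < p) {k : ℝ} (hk : 0 < k) :
    ∃ C b : ℝ, 0 < C ∧ 1 < b ∧
    ∀ (v : X n → ℝ) (G : X n → E n), Measurable v →
    SupOn p (ball (0 : E n) 1 ×ˢ Ioo (-1 : ℝ) 1) v G →
    (∀ᵐ z ∂(volume.restrict (ball (0 : E n) 1 ×ˢ Ioo (-1 : ℝ) 1)), 0 ≤ v z) →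
    ∀ j : ℕ, (volume (DA v (1 / 2 + 1 / (2 * 2 ^ (j + 2))) (k / 2 + k / (2 * 2 ^ (j + 2))))).toReal ≤
      C * b ^ j * (volume (DA v (1 / 2 + 1 / (2 * 2 ^ j))
        (k / 2 + k / (2 * 2 ^ j)))).toReal ^ (1 + 1 / (n : ℝ)) := by
  obtain ⟨c1, Cp, c, Cn, hc1, hCp, hc, hCn, hone⟩ := dg_one (n := n) hn hp
  have hp0 : 0 < p := by linarith
  set B : ℝ := (2 : ℝ) ^ p with hB
  have hB2 : 2 ≤ B := by
    have : (2 : ℝ) ^ (1 : ℝ) ≤ 2 ^ p := Real.rpow_le_rpow_of_exponent_le (by norm_num) hp.le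
    rwa [Real.rpow_one] at this
  have hn1 : 1 / (n : ℝ) ≤ 1 := by
    rw [div_le_one (by exact_mod_cast hn)]
    exact_mod_cast hn
  have hn0 : 0 ≤ 1 / (n : ℝ) := by positivity
  set C1 : ℝ := Cp * (4 * c1 * k ^ 2 + (4 * c1 * k) ^ p) with hC1
  have hC10 : 0 < C1 := by positivity
  set C3 : ℝ := (16 * C1 / k ^ 2) ^ (1 / (n : ℝ)) with hC3
  have hC30 : 0 < C3 := by positivity
  set C4 : ℝ := 8 * k * c + 1 + C1 with hC4
  have hC40 : 0 < C4 := by positivity
  refine ⟨8 / k * Cn * C3 * C4, 8 * B ^ 2, by positivity, by nlinarith, ?_⟩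
  intro v G hv hsup hnn j
  have h2j : (1 : ℝ) ≤ 2 ^ j := one_le_pow₀ (by norm_num)
  have hBj : (1 : ℝ) ≤ B ^ j := one_le_pow₀ (by linarith)
  have h2B : (2 : ℝ) ^ j ≤ B ^ j := pow_le_pow_left₀ (by norm_num) hB2 j
  set s : ℝ := 2 ^ j with hs
  have hs0 : 0 < s := by positivity
  have hs1 : (2 : ℝ) ^ (j + 1) = 2 * s := by rw [pow_succ, hs]; ring
  have hs2 : (2 : ℝ) ^ (j + 2) = 4 * s := by rw [pow_add, hs]; ring
  have hBs : s ^ p = B ^ j := by
    rw [hs, hB, ← Real.rpow_natCast, ← Real.rpow_natCast, ← Real.rpow_mul (by norm_num),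
      ← Real.rpow_mul (by norm_num), mul_comm]
  set R0 : ℝ := 1 / 2 + 1 / (2 * s) with hR0
  set R1 : ℝ := 1 / 2 + 1 / (2 * (2 * s)) with hR1
  set R2 : ℝ := 1 / 2 + 1 / (2 * (4 * s)) with hR2
  set κ0 : ℝ := k / 2 + k / (2 * s) with hκ0
  set κ1 : ℝ := k / 2 + k / (2 * (2 * s)) with hκ1
  set κ2 : ℝ := k / 2 + k / (2 * (4 * s)) with hκ2
  have d1 : R0 - R1 = 1 / (4 * s) := by rw [hR0, hR1]; field_simp; ring
  have d2 : R1 - R2 = 1 / (8 * s) := by rw [hR1, hR2]; field_simp; ring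
  have d3 : κ0 - κ1 = k / (4 * s) := by rw [hκ0, hκ1]; field_simp; ring
  have d4 : κ1 - κ2 = k / (8 * s) := by rw [hκ1, hκ2]; field_simp; ring
  have p1 : 0 < 1 / (4 * s) := by positivity
  have p2 : 0 < 1 / (8 * s) := by positivity
  have p3 : 0 < k / (4 * s) := by positivity
  have p4 : 0 < k / (8 * s) := by positivity
  have hR0le : R0 ≤ 1 := by
    have : 1 / (2 * s) ≤ 1 / 2 := one_div_le_one_div_of_le (by norm_num) (by linarith)
    rw [hR0]
    linarith
  have hκ0le : κ0 ≤ k := by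
    have : k / (2 * s) ≤ k / 2 := div_le_div_of_nonneg_left hk.le (by norm_num) (by linarith)
    rw [hκ0]
    linarith
  have hκ00 : 0 < κ0 := by rw [hκ0]; positivity
  have hκ20 : 0 < κ2 := by rw [hκ2]; positivity
  set Y : ℝ := (volume (DA v R0 κ0)).toReal with hY
  have hY0 : 0 ≤ Y := ENNReal.toReal_nonneg
  obtain ⟨E, hE⟩ : ∃ E : ℝ, E = Cp * (c1 / (R0 - R1) * κ0 ^ 2 + (κ0 * (c1 / (R0 - R1))) ^ p) *
    Y := ⟨_, rfl⟩
  have h := hone v G hv hsup hnn R2 R1 R0 κ2 κ1 κ0 E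
    (by rw [hR2]; have : 0 < 1 / (2 * (4 * s)) := by positivity
        linarith) (by linarith) (by linarith) hR0le hκ20.le (by linarith) (by linarith) hE
  have hEb : E ≤ C1 * B ^ j * Y := by
    rw [hE]
    refine mul_le_mul_of_nonneg_right ?_ hY0
    have e1 : c1 / (R0 - R1) = 4 * c1 * s := by rw [d1]; field_simp
    rw [e1]
    have e2 : 4 * c1 * s * κ0 ^ 2 ≤ 4 * c1 * k ^ 2 * B ^ j := by
      calc 4 * c1 * s * κ0 ^ 2 ≤ 4 * c1 * B ^ j * k ^ 2 := by gcongr
        _ = 4 * c1 * k ^ 2 * B ^ j := by ring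
    have e3 : (κ0 * (4 * c1 * s)) ^ p ≤ (4 * c1 * k) ^ p * B ^ j := by
      calc (κ0 * (4 * c1 * s)) ^ p ≤ (k * (4 * c1 * s)) ^ p := by gcongr
        _ = (4 * c1 * k * s) ^ p := by
            congr 1
            ring
        _ = (4 * c1 * k) ^ p * B ^ j := by rw [Real.mul_rpow (by positivity) hs0.le, hBs]
    calc Cp * (4 * c1 * s * κ0 ^ 2 + (κ0 * (4 * c1 * s)) ^ p)
        ≤ Cp * (4 * c1 * k ^ 2 * B ^ j + (4 * c1 * k) ^ p * B ^ j) :=
          mul_le_mul_of_nonneg_left (add_le_add e2 e3) hCp.le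
      _ = C1 * B ^ j := by rw [hC1]; ring
  have hE0 : 0 ≤ E := by
    rw [hE, d1]
    positivity
  have f1 : (E / (κ0 - κ1) ^ 2) ^ (1 / (n : ℝ)) ≤ C3 * (4 * B) ^ j * Y ^ (1 / (n : ℝ)) := by
    have e1 : E / (κ0 - κ1) ^ 2 ≤ 16 * C1 / k ^ 2 * (4 * B) ^ j * Y := by
      rw [d3]
      calc E / (k / (4 * s)) ^ 2 = 16 / k ^ 2 * s ^ 2 * E := by field_simp; ring
        _ ≤ 16 / k ^ 2 * s ^ 2 * (C1 * B ^ j * Y) := by gcongr
        _ = 16 * C1 / k ^ 2 * (4 * B) ^ j * Y := by
            rw [mul_pow, show (4 : ℝ) ^ j = s ^ 2 by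
              rw [hs, ← pow_mul, mul_comm, pow_mul]; norm_num]
            ring
    refine (Real.rpow_le_rpow (by positivity) e1 hn0).trans ?_
    rw [Real.mul_rpow (by positivity) hY0, Real.mul_rpow (by positivity) (by positivity)]
    refine mul_le_mul_of_nonneg_right ?_ (by positivity)
    refine mul_le_mul_of_nonneg_left ?_ (by positivity)
    have e2 : (1 : ℝ) ≤ (4 * B) ^ j := one_le_pow₀ (by linarith)
    have e3 := Real.rpow_le_rpow_of_exponent_le e2 hn1
    rwa [Real.rpow_one] at e3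
  have f2 : (κ1 * (c / (R1 - R2)) + 1) * Y + E ≤ C4 * B ^ j * Y := by
    have e1 : c / (R1 - R2) = 8 * c * s := by rw [d2]; field_simp
    rw [e1]
    have e2 : κ1 * (8 * c * s) ≤ 8 * k * c * B ^ j := by
      calc κ1 * (8 * c * s) ≤ k * (8 * c * B ^ j) := by
            have : κ1 ≤ k := by linarith
            gcongr
        _ = _ := by ring
    calc (κ1 * (8 * c * s) + 1) * Y + E ≤ (8 * k * c * B ^ j + B ^ j) * Y + C1 * B ^ j * Y := by
          gcongr
      _ = C4 * B ^ j * Y := by rw [hC4]; ring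
  have f3 : (κ1 - κ2) * (volume (DA v R2 κ2)).toReal ≤
      Cn * (C3 * (4 * B) ^ j * Y ^ (1 / (n : ℝ))) * (C4 * B ^ j * Y) := by
    refine h.trans ?_
    have g1 : 0 ≤ (E / (κ0 - κ1) ^ 2) ^ (1 / (n : ℝ)) := by positivity
    have g2 : 0 ≤ C4 * B ^ j * Y := by positivity
    refine mul_le_mul (mul_le_mul_of_nonneg_left f1 hCn.le) f2 ?_ (by positivity)
    have : 0 ≤ κ1 := by linarith
    have : 0 ≤ c / (R1 - R2) := by rw [d2]; positivity
    positivity
  rw [d4] at f3
  rw [hs2]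
  have f4 : (volume (DA v R2 κ2)).toReal = 8 * s / k * (k / (8 * s) *
    (volume (DA v R2 κ2)).toReal) := by field_simp
  rw [f4]
  calc 8 * s / k * (k / (8 * s) * (volume (DA v R2 κ2)).toReal)
      ≤ 8 * s / k * (Cn * (C3 * (4 * B) ^ j * Y ^ (1 / (n : ℝ))) * (C4 * B ^ j * Y)) := by gcongr
    _ = 8 / k * Cn * C3 * C4 * (8 * B ^ 2) ^ j * Y ^ (1 + 1 / (n : ℝ)) := by
        rw [Real.rpow_one_add' hY0 (by positivity), mul_pow, mul_pow, ← pow_mul, mul_comm 2 j,
          pow_mul, show (8 : ℝ) ^ j = s * 4 ^ j by rw [hs, ← mul_pow]; norm_num]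
        ring

theorem dg (hn : 0 < n) (hp : 1 < p) {k : ℝ} (hk : 0 < k) : ∃ ν : ℝ, 0 < ν ∧
    ∀ (v : X n → ℝ) (G : X n → E n), SupOn p (ball (0 : E n) 1 ×ˢ Ioo (-1 : ℝ) 1) v G →
      (∀ᵐ z ∂(volume.restrict (ball (0 : E n) 1 ×ˢ Ioo (-1 : ℝ) 1)), 0 ≤ v z) →
      (volume {z | z ∈ ball (0 : E n) 1 ×ˢ Ioo (-1 : ℝ) 1 ∧ v z < k}).toReal ≤ ν →
      ∀ᵐ z ∂(volume.restrict (ball (0 : E n) (1 / 2) ×ˢ Ioo (-(1 / 2) : ℝ) 1)), k / 2 ≤ v z := by
  obtain ⟨C, b, hC, hb, hrec⟩ := dg_rec (n := n) hn hp hk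
  have hα : 0 < 1 / (n : ℝ) := by
    have : (0 : ℝ) < n := by exact_mod_cast hn
    positivity
  obtain ⟨ν, hν, hfg⟩ := fast_geom (C := C) (b := b ^ 2) (α := 1 / (n : ℝ)) hC
    (by nlinarith) hα
  refine ⟨ν, hν, fun v0 G hsup0 hnn0 hvol0 => ?_⟩
  have hΩo : IsOpen (ball (0 : E n) 1 ×ˢ Ioo (-1 : ℝ) 1) := isOpen_ball.prod isOpen_Ioo
  have hΩm := hΩo.measurableSet
  -- a measurable representative
  obtain ⟨v, hvs, hv0⟩ := hsup0.meas
  have hv : Measurable v := hvs.measurable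
  have hv1 : ∀ᵐ z : X n, z ∈ ball (0 : E n) 1 ×ˢ Ioo (-1 : ℝ) 1 → v0 z = v z :=
    (ae_restrict_iff' hΩm).1 hv0
  have hsup : SupOn p (ball (0 : E n) 1 ×ˢ Ioo (-1 : ℝ) 1) v G := by
    refine ⟨hv.aestronglyMeasurable, ?_, hsup0.memG, ?_, ?_⟩
    · obtain ⟨M, hM⟩ := hsup0.bdd
      refine ⟨M, ?_⟩
      filter_upwards [hM, hv0] with z a b
      rwa [← b]
    · intro φ hφ
      rw [← hsup0.wg φ hφ]
      refine integral_congr_ae ?_
      filter_upwards [hv1] with z hz
      by_cases hzΩ : z ∈ ball (0 : E n) 1 ×ˢ Ioo (-1 : ℝ) 1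
      · rw [hz hzΩ]
      · rw [dx_zero_of_notMem z fun hh => hzΩ (hφ.supp hh), smul_zero, smul_zero]
    · intro φ hφ hφ0
      refine le_trans (le_of_eq ?_) (hsup0.ineq φ hφ hφ0)
      refine integral_congr_ae ?_
      filter_upwards [hv1] with z hz
      by_cases hzΩ : z ∈ ball (0 : E n) 1 ×ˢ Ioo (-1 : ℝ) 1
      · rw [hz hzΩ]
      · rw [dt_zero_of_notMem z fun hh => hzΩ (hφ.supp hh), mul_zero, mul_zero]
  have hnn : ∀ᵐ z ∂(volume.restrict (ball (0 : E n) 1 ×ˢ Ioo (-1 : ℝ) 1)), 0 ≤ v z := by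
    filter_upwards [hnn0, hv0] with z a b
    rwa [← b]
  have hvol : (volume (DA v 1 k)).toReal ≤ ν := by
    have : volume (DA v 1 k) =
        volume {z : X n | z ∈ ball (0 : E n) 1 ×ˢ Ioo (-1 : ℝ) 1 ∧ v0 z < k} := by
      refine measure_congr ?_
      filter_upwards [hv1] with z hz
      refine propext ⟨fun h => ⟨h.1, ?_⟩, fun h => ⟨h.1, ?_⟩⟩
      · rw [hz h.1]
        exact h.2
      · rw [← hz h.1]
        exact h.2
    rw [this]
    exact hvol0
  set Y : ℕ → ℝ := fun j => (volume (DA v (1 / 2 + 1 / (2 * 2 ^ j))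
    (k / 2 + k / (2 * 2 ^ j)))).toReal with hY
  have hY0 : (fun i => Y (2 * i)) 0 ≤ ν := by
    have e1 : (1 : ℝ) / 2 + 1 / (2 * 2 ^ (2 * 0)) = 1 := by norm_num
    have e2 : k / 2 + k / (2 * 2 ^ (2 * 0)) = k := by
      rw [mul_zero, pow_zero, mul_one]
      ring
    simp only [hY]
    rw [e1, e2]
    exact hvol
  have hlim := hfg (fun i => Y (2 * i)) (fun i => ENNReal.toReal_nonneg) (fun i => by
    have := hrec v G hv hsup hnn (2 * i)
    rw [pow_mul] at this
    exact this) hY0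
  have hzero : (volume (DA v (1 / 2) (k / 2))).toReal ≤ 0 := by
    refine ge_of_tendsto' hlim fun i => ?_
    refine ENNReal.toReal_mono (dg_fin v _ _) (measure_mono (dg_mono v ?_ ?_))
    · have : 0 < 1 / (2 * (2 : ℝ) ^ (2 * i)) := by positivity
      linarith
    · have : 0 < k / (2 * (2 : ℝ) ^ (2 * i)) := by positivity
      linarith
  have hzero2 : volume (DA v (1 / 2) (k / 2)) = 0 := by
    have h1 : (volume (DA v (1 / 2) (k / 2))).toReal = 0 :=
      le_antisymm hzero ENNReal.toReal_nonneg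
    rcases (ENNReal.toReal_eq_zero_iff _).1 h1 with h2 | h2
    · exact h2
    · exact absurd h2 (dg_fin v _ _)
  rw [ae_restrict_iff' (isOpen_ball.prod isOpen_Ioo).measurableSet]
  have hsub : ball (0 : E n) (1 / 2) ×ˢ Ioo (-(1 / 2) : ℝ) 1 ⊆
      ball (0 : E n) 1 ×ˢ Ioo (-1 : ℝ) 1 :=
    prod_mono (ball_subset_ball (by norm_num)) (Ioo_subset_Ioo (by norm_num) le_rfl)
  have hnot : ∀ᵐ z : X n, z ∉ DA v (1 / 2) (k / 2) := measure_eq_zero_iff_ae_notMem.1 hzero2
  filter_upwards [hnot, hv1] with z h1 h2 h3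
  rw [h2 (hsub h3)]
  by_contra hcon
  exact h1 ⟨h3, not_le.1 hcon⟩

end PP
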