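import Pool.Agent.PP.DER

open Set Metric Filter Topology MeasureTheory
open scoped ContDiff Convolution

noncomputable section

namespace PP

variable {n : ℕ}
variable {p : ℝ}

/-- the bump functions -/
def cz_bump (n k : ℕ) : ContDiffBump (0 : X n) :=
  ⟨1 / (2 * ((k : ℝ) + 1)), 1 / ((k : ℝ) + 1), by positivity, by
    apply one_div_lt_one_div_of_lt
    · positivity
    · have : (0 : ℝ) ≤ k := Nat.cast_nonneg k
      linarith⟩

theorem cz_tst (Q : Set (X n)) (ρ : ContDiffBump (0 : X n)) (z : X n)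
    (hz : closedBall z ρ.rOut ⊆ Q) : Tst Q (fun y => ρ.normed volume (z - y)) := by
  have := der_haar (n := n)
  have hsub : Function.support (fun y => ρ.normed volume (z - y)) ⊆ closedBall z ρ.rOut := by
    intro y hy
    have h1 : z - y ∈ Function.support (ρ.normed volume) := hy
    rw [ρ.support_normed_eq, mem_ball_zero_iff] at h1
    rw [mem_closedBall, dist_comm, dist_eq_norm]
    exact h1.le
  have hts : tsupport (fun y => ρ.normed volume (z - y)) ⊆ closedBall z ρ.rOut :=
    closure_minimal hsub isClosed_closedBall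
  refine ⟨?_, ?_, hts.trans hz⟩
  · exact (ρ.contDiff_normed (n := ⊤)).comp (contDiff_const.sub contDiff_id)
  · exact HasCompactSupport.intro (isCompact_closedBall z ρ.rOut) fun y hy => by
      by_contra hne
      exact hy (hsub hne)

theorem cz_fderiv {Q : Set (X n)} {u v : X n → ℝ}
    (hv : Integrable v volume) (huv : ∀ z ∈ Q, v z = u z)
    (h1 : ∀ φ, Tst Q φ → ∫ z, u z • dx φ z = 0)
    (h2 : ∀ φ, Tst Q φ → ∫ z, u z * dt φ z = 0)
    (ρ : ContDiffBump (0 : X n)) (z : X n) (hz : closedBall z ρ.rOut ⊆ Q) :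
    HasFDerivAt (ρ.normed volume ⋆[(ContinuousLinearMap.lsmul ℝ ℝ : ℝ →L[ℝ] ℝ →L[ℝ] ℝ), volume] v)
      (0 : X n →L[ℝ] ℝ) z := by
  have := der_haar (n := n)
  have hT := cz_tst Q ρ z hz
  set f : X n → ℝ := ρ.normed volume with hf
  set φ : X n → ℝ := fun y => f (z - y) with hφ
  have hfs : ContDiff ℝ ∞ f := ρ.contDiff_normed
  have hfc : HasCompactSupport f := ρ.hasCompactSupport_normed
  have hd := hfc.hasFDerivAt_convolution_left (ContinuousLinearMap.lsmul ℝ ℝ : ℝ →L[ℝ] ℝ →L[ℝ] ℝ)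
    (μ := (volume : Measure (X n))) (hfs.of_le (by simp)) hv.locallyIntegrable z
  have hdf : ∀ y w, fderiv ℝ φ y w = - fderiv ℝ f (z - y) w := by
    intro y w
    have hA : HasFDerivAt f (fderiv ℝ f (z - y)) (z - y) :=
      (hfs.differentiable (by simp)).differentiableAt.hasFDerivAt
    have hB : HasFDerivAt (fun y : X n => z - y) (-(ContinuousLinearMap.id ℝ (X n))) y :=
      (hasFDerivAt_id y).const_sub z
    have hC : HasFDerivAt φ ((fderiv ℝ f (z - y)).comp (-(ContinuousLinearMap.id ℝ (X n)))) y :=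
      HasFDerivAt.comp (g := f) (f := fun y : X n => z - y) y hA hB
    rw [hC.fderiv]
    simp
  obtain ⟨c1, s1, c2, s2⟩ := der_tst_int hT
  have hI1 : ∫ y, v y • dx φ y = 0 := by
    rw [← h1 φ hT]
    apply integral_congr_ae
    filter_upwards with y
    by_cases hy : y ∈ tsupport φ
    · rw [huv y (hT.supp hy)]
    · rw [dx_zero_of_notMem y hy, smul_zero, smul_zero]
  have hI2 : ∫ y, v y * dt φ y = 0 := by
    rw [← h2 φ hT]
    apply integral_congr_ae
    filter_upwards with y
    by_cases hy : y ∈ tsupport φ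
    · rw [huv y (hT.supp hy)]
    · rw [dt_zero_of_notMem y hy, mul_zero, mul_zero]
  obtain ⟨M1, hM1⟩ := s1.exists_bound_of_continuous c1
  obtain ⟨M2, hM2⟩ := s2.exists_bound_of_continuous c2
  have hi1 : Integrable (fun y => v y • dx φ y) volume := by
    apply (hv.norm.mul_const M1).mono' (hv.1.smul c1.aestronglyMeasurable)
    filter_upwards with y
    rw [Pi.smul_apply', norm_smul]
    exact mul_le_mul_of_nonneg_left (hM1 y) (norm_nonneg _)
  have hi2 : Integrable (fun y => v y * dt φ y) volume := by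
    apply hv.mul_bdd (c := M2) c2.aestronglyMeasurable
    filter_upwards with y
    exact hM2 y
  have hzero : (fderiv ℝ f ⋆[(ContinuousLinearMap.lsmul ℝ ℝ : ℝ →L[ℝ] ℝ →L[ℝ] ℝ).precompL (X n),
      volume] v) z = 0 := by
    refine ContinuousLinearMap.ext fun w => ?_
    have hint : Integrable (fun t => ((ContinuousLinearMap.lsmul ℝ ℝ : ℝ →L[ℝ] ℝ →L[ℝ] ℝ).precompL
        (X n)) (fderiv ℝ f t) (v (z - t))) volume :=
      (HasCompactSupport.convolutionExists_left _ (hfc.fderiv (𝕜 := ℝ))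
        (hfs.continuous_fderiv (by simp)) hv.locallyIntegrable z)
    show (∫ t, ((ContinuousLinearMap.lsmul ℝ ℝ : ℝ →L[ℝ] ℝ →L[ℝ] ℝ).precompL
        (X n)) (fderiv ℝ f t) (v (z - t))) w = 0
    rw [ContinuousLinearMap.integral_apply hint w]
    have e1 : ∀ t, (((ContinuousLinearMap.lsmul ℝ ℝ : ℝ →L[ℝ] ℝ →L[ℝ] ℝ).precompL
        (X n)) (fderiv ℝ f t) (v (z - t))) w = (fun y => fderiv ℝ f (z - y) w * v y) (z - t) := by
      intro t
      simp
    simp_rw [e1]
    rw [integral_sub_left_eq_self (fun y => fderiv ℝ f (z - y) w * v y) volume z]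
    have e2 : ∀ y, fderiv ℝ f (z - y) w * v y =
        -(inner ℝ w.1 (v y • dx φ y) + w.2 * (v y * dt φ y)) := by
      intro y
      have e3 := hdf y w
      have e4 : fderiv ℝ φ y w = inner ℝ (dx φ y) w.1 + w.2 * dt φ y := by
        rw [dx_eq hT.smooth, dt_eq hT.smooth]
        have e5 : w = (w.1, (0 : ℝ)) + w.2 • ((0 : E n), (1 : ℝ)) := by
          ext <;> simp
        conv_lhs => rw [e5]
        rw [map_add, map_smul, smul_eq_mul]
      rw [real_inner_smul_right, real_inner_comm]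
      have e6 : fderiv ℝ f (z - y) w = -(inner ℝ (dx φ y) w.1 + w.2 * dt φ y) := by
        rw [← e4, e3, neg_neg]
      rw [e6]
      ring
    simp_rw [e2]
    rw [integral_neg, integral_add (hi1.const_inner w.1) (hi2.const_mul w.2),
      integral_inner hi1, integral_const_mul, hI1, hI2]
    simp
  rw [hzero] at hd
  exact hd

/-- functions with zero weak derivatives are constant -/
theorem const_of_zero {r a b : ℝ} (x₀ : E n) {u : X n → ℝ}
    (hm : AEStronglyMeasurable u (volume.restrict (ball x₀ r ×ˢ Ioo a b)))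
    (hb : ∃ M : ℝ, ∀ᵐ z ∂(volume.restrict (ball x₀ r ×ˢ Ioo a b)), |u z| ≤ M)
    (h1 : ∀ φ, Tst (ball x₀ r ×ˢ Ioo a b) φ → ∫ z, u z • dx φ z = 0)
    (h2 : ∀ φ, Tst (ball x₀ r ×ˢ Ioo a b) φ → ∫ z, u z * dt φ z = 0) :
    ∃ c : ℝ, ∀ᵐ z ∂(volume.restrict (ball x₀ r ×ˢ Ioo a b)), u z = c := by
  have := der_haar (n := n)
  set Q : Set (X n) := ball x₀ r ×ˢ Ioo a b with hQ
  have hQo : IsOpen Q := isOpen_ball.prod isOpen_Ioo
  have hQc : Convex ℝ Q := (convex_ball x₀ r).prod (convex_Ioo a b)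
  have hQb : Bornology.IsBounded Q := isBounded_ball.prod (isBounded_Ioo a b)
  rcases Q.eq_empty_or_nonempty with he | hne
  · refine ⟨0, ?_⟩
    rw [he]
    simp
  set v : X n → ℝ := Q.indicator u with hvdef
  have hvQ : ∀ z ∈ Q, v z = u z := fun z hz => Set.indicator_of_mem hz u
  obtain ⟨M, hM⟩ := hb
  have hv : Integrable v volume := by
    rw [hvdef, integrable_indicator_iff hQo.measurableSet]
    have : IsFiniteMeasure (volume.restrict Q) := ⟨by
      rw [Measure.restrict_apply_univ]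
      exact hQb.measure_lt_top⟩
    exact Integrable.of_bound hm M (by simpa only [Real.norm_eq_abs] using hM)
  have hrt : Tendsto (fun k : ℕ => (cz_bump n k).rOut) atTop (𝓝 0) :=
    tendsto_one_div_add_atTop_nhds_zero_nat
  have hconv := ContDiffBump.ae_convolution_tendsto_right_of_locallyIntegrable
    (μ := (volume : Measure (X n))) (φ := cz_bump n) (K := 2) hrt (by
      filter_upwards with k
      show 1 / ((k : ℝ) + 1) ≤ 2 * (1 / (2 * ((k : ℝ) + 1)))
      apply le_of_eq
      field_simp) hv.locallyIntegrable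
  have hkey : ∀ z ∈ Q, ∀ z' ∈ Q, ∀ᶠ k in atTop,
      ((cz_bump n k).normed volume ⋆[(ContinuousLinearMap.lsmul ℝ ℝ : ℝ →L[ℝ] ℝ →L[ℝ] ℝ),
        volume] v) z =
      ((cz_bump n k).normed volume ⋆[(ContinuousLinearMap.lsmul ℝ ℝ : ℝ →L[ℝ] ℝ →L[ℝ] ℝ),
        volume] v) z' := by
    intro z hz z' hz'
    have hsub : segment ℝ z z' ⊆ Q := hQc.segment_subset hz hz'
    have hcpt : IsCompact (segment ℝ z z') := by
      rw [segment_eq_image_lineMap]
      exact isCompact_Icc.image AffineMap.lineMap_continuous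
    obtain ⟨δ, hδ, hth⟩ := hcpt.exists_cthickening_subset_open hQo hsub
    have hev : ∀ᶠ k : ℕ in atTop, (cz_bump n k).rOut < δ := hrt.eventually (gt_mem_nhds hδ)
    filter_upwards [hev] with k hk
    have hcb : ∀ y ∈ segment ℝ z z', closedBall y (cz_bump n k).rOut ⊆ Q := by
      intro y hy
      exact (closedBall_subset_closedBall hk.le).trans
        ((closedBall_subset_cthickening hy δ).trans hth)
    have := (convex_segment z z').norm_image_sub_le_of_norm_hasFDerivWithin_le (C := 0)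
      (f := ((cz_bump n k).normed volume ⋆[(ContinuousLinearMap.lsmul ℝ ℝ : ℝ →L[ℝ] ℝ →L[ℝ] ℝ),
        volume] v))
      (f' := fun _ => (0 : X n →L[ℝ] ℝ))
      (fun y hy => (cz_fderiv hv hvQ h1 h2 (cz_bump n k) y (hcb y hy)).hasFDerivWithinAt)
      (fun y _ => by simp) (right_mem_segment ℝ z z') (left_mem_segment ℝ z z')
    rw [zero_mul] at this
    exact sub_eq_zero.1 (norm_le_zero_iff.1 this)
  have hpos : volume.restrict Q ≠ 0 := by
    rw [Ne, Measure.restrict_eq_zero]
    exact (hQo.measure_pos volume hne).ne'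
  have : NeBot (ae (volume.restrict Q)) := ae_neBot.2 hpos
  have hmem : ∀ᵐ z ∂(volume.restrict Q), z ∈ Q := ae_restrict_mem hQo.measurableSet
  have hc' : ∀ᵐ z ∂(volume.restrict Q), Tendsto (fun k =>
      ((cz_bump n k).normed volume ⋆[(ContinuousLinearMap.lsmul ℝ ℝ : ℝ →L[ℝ] ℝ →L[ℝ] ℝ),
        volume] v) z) atTop
      (𝓝 (v z)) := ae_restrict_of_ae hconv
  obtain ⟨z0, hz0Q, hz0⟩ := (hmem.and hc').exists
  refine ⟨u z0, ?_⟩
  filter_upwards [hmem, hc'] with z hzQ hz
  have h3 := hkey z hzQ z0 hz0Q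
  have h4 := hz.congr' h3
  have h5 := tendsto_nhds_unique h4 hz0
  rw [hvQ z hzQ, hvQ z0 hz0Q] at h5
  exact h5

end PP
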