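import Pool.Agent.PP.SCPT
import Pool.Agent.PP.CZ
import Pool.Agent.PP.SCL

open Set Metric Filter Topology MeasureTheory
open scoped ContDiff

noncomputable section

namespace PP

variable {n : ℕ}
variable {p : ℝ}

private theorem nco_pow {a b : ℝ} (ha : 0 ≤ a) (hb : 0 ≤ b) (hp : 0 ≤ p) :
    (a + b) ^ p ≤ 2 ^ p * (a ^ p + b ^ p) := by
  have h1 : a + b ≤ 2 * max a b := by
    have := le_max_left a b
    have := le_max_right a b
    linarith
  have h2 : (max a b) ^ p ≤ a ^ p + b ^ p := by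
    rcases max_choice a b with h | h <;> rw [h]
    · have := Real.rpow_nonneg hb p
      linarith
    · have := Real.rpow_nonneg ha p
      linarith
  calc (a + b) ^ p ≤ (2 * max a b) ^ p := Real.rpow_le_rpow (add_nonneg ha hb) h1 hp
    _ = 2 ^ p * (max a b) ^ p := Real.mul_rpow (by norm_num) (le_max_of_le_left ha)
    _ ≤ 2 ^ p * (a ^ p + b ^ p) := mul_le_mul_of_nonneg_left h2 (by positivity)

private theorem nco_int {S : Set (X n)} {G : X n → E n} (hp : 1 < p)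
    (h : MemLp G (ENNReal.ofReal p) (volume.restrict S)) :
    IntegrableOn (fun z => ‖G z‖ ^ p) S := by
  have h1 := h.integrable_norm_rpow (by simpa using (by linarith : 0 < p)) (by simp)
  rwa [ENNReal.toReal_ofReal (by linarith)] at h1

/-- solutions with small energy are nearly constant -/
theorem near_const (hp : 1 < p) (M : ℝ) {ε : ℝ} (hε : 0 < ε) : ∃ κ > 0,
    ∀ (u : X n → ℝ) (G : X n → E n), SolOn p (ball (0 : E n) 2 ×ˢ Ioo (-2 : ℝ) 2) u G →
      (∀ᵐ z ∂(volume.restrict (ball (0 : E n) 2 ×ˢ Ioo (-2 : ℝ) 2)), |u z| ≤ M) →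
      ∫ z in ball (0 : E n) 1 ×ˢ Ioo (-1 : ℝ) 1, ‖G z‖ ^ p ≤ κ →
      ∃ c : ℝ, ∫ z in ball (0 : E n) 1 ×ˢ Ioo (-1 : ℝ) 1, |u z - c| ≤ ε := by
  by_contra hcon
  push Not at hcon
  have hp0 : (0 : ℝ) ≤ p := by linarith
  set Ω : Set (X n) := ball (0 : E n) 2 ×ˢ Ioo (-2 : ℝ) 2 with hΩd
  set Q : Set (X n) := ball (0 : E n) 1 ×ˢ Ioo (-1 : ℝ) 1 with hQd
  set D : Set (X n) := closedBall (0 : E n) 1 ×ˢ Icc (-1 : ℝ) 1 with hDd
  have hΩ : IsOpen Ω := isOpen_ball.prod isOpen_Ioo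
  have hQo : IsOpen Q := isOpen_ball.prod isOpen_Ioo
  have hQm : MeasurableSet Q := hQo.measurableSet
  have hΩb : Bornology.IsBounded Ω := isBounded_ball.prod (isBounded_Ioo _ _)
  have hDc : IsCompact D := (isCompact_closedBall _ _).prod isCompact_Icc
  have hDΩ : D ⊆ Ω := by
    refine prod_mono (closedBall_subset_ball (by norm_num)) ?_
    intro t ht
    exact ⟨by linarith [ht.1], by linarith [ht.2]⟩
  have hQD : Q ⊆ D := prod_mono ball_subset_closedBall Ioo_subset_Icc_self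
  have hQΩ : Q ⊆ Ω := hQD.trans hDΩ
  have hQf : volume Q ≠ ⊤ := ((measure_mono hQD).trans_lt hDc.measure_lt_top).ne
  have h1 : ∀ j : ℕ, ∃ (u : X n → ℝ) (G : X n → E n), SolOn p Ω u G ∧
      (∀ᵐ z ∂(volume.restrict Ω), |u z| ≤ M) ∧
      ∫ z in Q, ‖G z‖ ^ p ≤ 1 / ((j : ℝ) + 1) ∧ ∀ c : ℝ, ε < ∫ z in Q, |u z - c| := by
    intro j
    obtain ⟨u, G, h1, h2, h3, h4⟩ := hcon (1 / ((j : ℝ) + 1)) (by positivity)
    exact ⟨u, G, h1, h2, h3, h4⟩
  choose u G hsol hM hsm hbig using h1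
  obtain ⟨κ, v, H, hκ, hv, hconv, hlim⟩ := sol_cpt hp hΩ hΩb hsol hM
  have hl := hlim D hDc hDΩ
  have hHi : IntegrableOn (fun z => ‖H z‖ ^ p) D := nco_int hp (hv.memG D hDc hDΩ)
  have hGi : ∀ j, IntegrableOn (fun z => ‖G j z‖ ^ p) D := fun j =>
    nco_int hp ((hsol j).memG D hDc hDΩ)
  have hGHi : ∀ j, IntegrableOn (fun z => ‖G j z - H z‖ ^ p) D := fun j =>
    nco_int hp (((hsol j).memG D hDc hDΩ).sub (hv.memG D hDc hDΩ))
  -- the limit has zero gradient
  have hup : ∀ k, ∫ z in Q, ‖H z‖ ^ p ≤ 2 ^ p * (∫ z in D, ‖G (κ k) z - H z‖ ^ p) +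
      2 ^ p * (1 / ((κ k : ℝ) + 1)) := by
    intro k
    have e1 : ∫ z in Q, ‖H z‖ ^ p ≤
        ∫ z in Q, (2 ^ p * ‖G (κ k) z - H z‖ ^ p + 2 ^ p * ‖G (κ k) z‖ ^ p) := by
      refine setIntegral_mono (hHi.mono_set hQD)
        ((((hGHi _).mono_set hQD).const_mul _).add (((hGi _).mono_set hQD).const_mul _))
        fun z => ?_
      have e2 : ‖H z‖ ≤ ‖G (κ k) z - H z‖ + ‖G (κ k) z‖ := by
        have := norm_sub_le (G (κ k) z) (G (κ k) z - H z)
        rw [sub_sub_cancel] at this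
        linarith
      calc ‖H z‖ ^ p ≤ (‖G (κ k) z - H z‖ + ‖G (κ k) z‖) ^ p :=
            Real.rpow_le_rpow (norm_nonneg _) e2 hp0
        _ ≤ 2 ^ p * (‖G (κ k) z - H z‖ ^ p + ‖G (κ k) z‖ ^ p) :=
            nco_pow (norm_nonneg _) (norm_nonneg _) hp0
        _ = 2 ^ p * ‖G (κ k) z - H z‖ ^ p + 2 ^ p * ‖G (κ k) z‖ ^ p := by ring
    have e3 : ∫ z in Q, (2 ^ p * ‖G (κ k) z - H z‖ ^ p + 2 ^ p * ‖G (κ k) z‖ ^ p) =
        2 ^ p * (∫ z in Q, ‖G (κ k) z - H z‖ ^ p) + 2 ^ p * ∫ z in Q, ‖G (κ k) z‖ ^ p := by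
      rw [integral_add (((hGHi _).mono_set hQD).const_mul _)
        (((hGi _).mono_set hQD).const_mul _), integral_const_mul, integral_const_mul]
    have e4 : ∫ z in Q, ‖G (κ k) z - H z‖ ^ p ≤ ∫ z in D, ‖G (κ k) z - H z‖ ^ p :=
      setIntegral_mono_set (hGHi _) (Eventually.of_forall fun z => by positivity)
        (Eventually.of_forall hQD)
    have e5 := mul_le_mul_of_nonneg_left e4 (by positivity : (0 : ℝ) ≤ 2 ^ p)
    have e6 := mul_le_mul_of_nonneg_left (hsm (κ k)) (by positivity : (0 : ℝ) ≤ 2 ^ p)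
    rw [e3] at e1
    linarith
  have hlimit : Tendsto (fun k => 2 ^ p * (∫ z in D, ‖G (κ k) z - H z‖ ^ p) +
      2 ^ p * (1 / ((κ k : ℝ) + 1))) atTop (𝓝 (2 ^ p * 0 + 2 ^ p * 0)) :=
    (hl.const_mul _).add
      ((tendsto_one_div_add_atTop_nhds_zero_nat.comp hκ.tendsto_atTop).const_mul _)
  have hH0 : ∫ z in Q, ‖H z‖ ^ p ≤ 0 := by
    have := ge_of_tendsto' hlimit hup
    simpa using this
  have hHae : ∀ᵐ z ∂(volume.restrict Q), H z = 0 := by
    have e1 : ∫ z in Q, ‖H z‖ ^ p = 0 := le_antisymm hH0 (integral_nonneg fun z => by positivity)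
    have e2 := (integral_eq_zero_iff_of_nonneg (fun z => by positivity)
      (hHi.mono_set hQD)).mp e1
    filter_upwards [e2] with z hz
    have e3 : ‖H z‖ ^ p = 0 := hz
    rw [Real.rpow_eq_zero (norm_nonneg _) (by linarith)] at e3
    exact norm_eq_zero.mp e3
  have hHae' : ∀ᵐ z : X n, z ∈ Q → H z = 0 := (ae_restrict_iff' hQm).mp hHae
  have hT : ∀ φ : X n → ℝ, Tst Q φ → Tst Ω φ := fun φ hφ =>
    ⟨hφ.smooth, hφ.cpt, hφ.supp.trans hQΩ⟩
  have hA0 : A p (0 : E n) = 0 := by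
    unfold A
    rw [smul_zero]
  obtain ⟨M', hM'⟩ := hv.bdd
  obtain ⟨c, hc⟩ := const_of_zero (n := n) (r := 1) (a := -1) (b := 1) (0 : E n) (u := v)
    (hv.meas.mono_measure (Measure.restrict_mono hQΩ le_rfl))
    ⟨M', ae_restrict_of_ae_restrict_of_subset hQΩ hM'⟩
    (fun φ hφ => by
      rw [hv.wg φ (hT φ hφ), neg_eq_zero]
      refine integral_eq_zero_of_ae ?_
      filter_upwards [hHae'] with z hz
      by_cases hzQ : z ∈ Q
      · rw [hz hzQ, smul_zero]
        rfl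
      · rw [image_eq_zero_of_notMem_tsupport fun h => hzQ (hφ.supp h), zero_smul]
        rfl)
    (fun φ hφ => by
      have e1 := hv.eq φ (hT φ hφ)
      have e2 : ∫ z, inner ℝ (A p (H z)) (dx φ z) = 0 := by
        refine integral_eq_zero_of_ae ?_
        filter_upwards [hHae'] with z hz
        by_cases hzQ : z ∈ Q
        · rw [hz hzQ, hA0, inner_zero_left]
          rfl
        · rw [dx_zero_of_notMem z fun h => hzQ (hφ.supp h), inner_zero_right]
          rfl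
      rw [e2] at e1
      linarith)
  -- the functions converge to the constant
  have hdc : Tendsto (fun k => ∫ z in Q, |u (κ k) z - c|) atTop (𝓝 (∫ _z in Q, (0 : ℝ))) := by
    refine tendsto_integral_of_dominated_convergence (fun _ => M + |c|) (fun k => ?_) ?_
      (fun k => ?_) ?_
    · exact (((hsol (κ k)).meas.mono_measure (Measure.restrict_mono hQΩ le_rfl)).sub
        aestronglyMeasurable_const).norm
    · exact integrableOn_const hQf
    · filter_upwards [ae_restrict_of_ae_restrict_of_subset hQΩ (hM (κ k))] with z hz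
      rw [Real.norm_eq_abs, abs_abs]
      exact (abs_sub _ _).trans (by linarith)
    · filter_upwards [ae_restrict_of_ae_restrict_of_subset hQΩ hconv, hc] with z hz hzc
      have e1 : Tendsto (fun k => |u (κ k) z - c|) atTop (𝓝 |v z - c|) :=
        (hz.sub_const c).abs
      rwa [hzc, sub_self, abs_zero] at e1
  have hfin := ge_of_tendsto' hdc fun k => (hbig (κ k) c).le
  simp at hfin
  linarith

end PP
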