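import Pool.Agent.PP.UI
import Pool.Agent.PP.NCO
import Pool.Agent.PP.DG
import Pool.Agent.PP.SCL

open Set Metric Filter Topology MeasureTheory
open scoped ContDiff

noncomputable section

namespace PP

variable {n : ℕ}
variable {p : ℝ}

theorem clu_swap {g : X n → ENNReal} (hg : Measurable g) (R s : ℝ) :
    ∫⁻ x in ball (0 : E n) 1, ∫⁻ z in ball x R ×ˢ Ioo (-s) s, g z =
      ∫⁻ z in {z : X n | z.2 ∈ Ioo (-s) s}, g z * volume (ball z.1 R ∩ ball (0 : E n) 1) := by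
  have hI : MeasurableSet {z : X n | z.2 ∈ Ioo (-s) s} := measurable_snd measurableSet_Ioo
  have h1 : ∀ x : E n, ∫⁻ z in ball x R ×ˢ Ioo (-s) s, g z =
      ∫⁻ z, (ball x R ×ˢ Ioo (-s) s).indicator g z := by
    intro x
    rw [lintegral_indicator (measurableSet_ball.prod measurableSet_Ioo)]
  simp only [h1]
  rw [lintegral_lintegral_swap, ← lintegral_indicator hI]
  · apply lintegral_congr
    intro z
    by_cases hz : z.2 ∈ Ioo (-s) s
    · rw [indicator_of_mem (by exact hz)]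
      have h2 : ∀ x : E n, (ball x R ×ˢ Ioo (-s) s).indicator g z =
          (ball z.1 R).indicator (fun _ => g z) x := by
        intro x
        by_cases hx : x ∈ ball z.1 R
        · rw [indicator_of_mem hx, indicator_of_mem]
          exact ⟨mem_ball_comm.1 hx, hz⟩
        · rw [indicator_of_notMem hx, indicator_of_notMem]
          exact fun h => hx (mem_ball_comm.1 h.1)
      simp only [h2]
      rw [lintegral_indicator_const measurableSet_ball, Measure.restrict_apply measurableSet_ball]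
    · rw [indicator_of_notMem (by exact hz)]
      have h2 : ∀ x : E n, (ball x R ×ˢ Ioo (-s) s).indicator g z = 0 := by
        intro x
        rw [indicator_of_notMem]
        exact fun h => hz h.2
      simp only [h2, lintegral_zero]
  · apply Measurable.aemeasurable
    have hS : MeasurableSet {q : E n × X n | q.2.1 ∈ ball q.1 R ∧ q.2.2 ∈ Ioo (-s) s} := by
      apply MeasurableSet.inter
      · have : {q : E n × X n | q.2.1 ∈ ball q.1 R} = {q : E n × X n | dist q.2.1 q.1 < R} := rfl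
        apply IsOpen.measurableSet
        exact isOpen_lt (by fun_prop) continuous_const
      · exact (measurable_snd.comp measurable_snd) measurableSet_Ioo
    have e : (Function.uncurry fun (x : E n) (z : X n) => (ball x R ×ˢ Ioo (-s) s).indicator g z) =
        {q : E n × X n | q.2.1 ∈ ball q.1 R ∧ q.2.2 ∈ Ioo (-s) s}.indicator (fun q => g q.2) := by
      funext q
      obtain ⟨x, z⟩ := q
      rfl
    rw [e]
    exact (hg.comp measurable_snd).indicator hS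

theorem clu_upper {g : X n → ENNReal} (hg : Measurable g) {R s : ℝ} (hR : R ≤ 1) :
    ∫⁻ x in ball (0 : E n) 1, ∫⁻ z in ball x R ×ˢ Ioo (-s) s, g z ≤
      volume (ball (0 : E n) R) * ∫⁻ z in ball (0 : E n) 2 ×ˢ Ioo (-s) s, g z := by
  have hI : MeasurableSet {z : X n | z.2 ∈ Ioo (-s) s} := measurable_snd measurableSet_Ioo
  rw [clu_swap hg, ← lintegral_const_mul _ hg, ← lintegral_indicator hI,
    ← lintegral_indicator (measurableSet_ball.prod measurableSet_Ioo)]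
  apply lintegral_mono
  intro z
  by_cases hz : z.2 ∈ Ioo (-s) s
  · rw [indicator_of_mem (by exact hz)]
    by_cases hz1 : z.1 ∈ ball (0 : E n) 2
    · have : z ∈ ball (0 : E n) 2 ×ˢ Ioo (-s) s := ⟨hz1, hz⟩
      rw [indicator_of_mem this, mul_comm]
      apply mul_le_mul_left
      calc volume (ball z.1 R ∩ ball (0 : E n) 1) ≤ volume (ball z.1 R) :=
            measure_mono inter_subset_left
        _ = volume (ball (0 : E n) R) := by rw [Measure.addHaar_ball_center]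
    · have h0 : ball z.1 R ∩ ball (0 : E n) 1 = ∅ := by
        rw [eq_empty_iff_forall_notMem]
        rintro y ⟨h1, h2⟩
        apply hz1
        rw [mem_ball] at *
        calc dist z.1 0 ≤ dist z.1 y + dist y 0 := dist_triangle _ _ _
          _ < 2 := by rw [dist_comm z.1 y]; linarith
      rw [h0, measure_empty, mul_zero]
      exact zero_le
  · rw [indicator_of_notMem (by exact hz)]
    exact zero_le

theorem clu_geom {R : ℝ} (hR : 0 < R) (hR1 : R ≤ 1) {y : E n} (hy : y ∈ ball (0 : E n) 1) :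
    volume (ball (0 : E n) (R / 2)) ≤ volume (ball y R ∩ ball (0 : E n) 1) := by
  rw [← Measure.addHaar_ball_center volume ((1 - R / 2) • y)]
  apply measure_mono
  intro w hw
  rw [mem_ball, dist_zero_right] at hy
  rw [mem_ball, dist_eq_norm] at hw
  constructor
  · rw [mem_ball, dist_eq_norm]
    have e : w - y = (w - (1 - R / 2) • y) - (R / 2) • y := by
      rw [sub_smul, one_smul]; abel
    calc ‖w - y‖ = ‖(w - (1 - R / 2) • y) - (R / 2) • y‖ := by rw [← e]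
      _ ≤ ‖w - (1 - R / 2) • y‖ + ‖(R / 2) • y‖ := norm_sub_le _ _
      _ = ‖w - (1 - R / 2) • y‖ + (R / 2) * ‖y‖ := by
          rw [norm_smul, Real.norm_of_nonneg (by linarith)]
      _ < R := by nlinarith [norm_nonneg y]
  · rw [mem_ball, dist_zero_right]
    have e : w = (w - (1 - R / 2) • y) + (1 - R / 2) • y := by abel
    calc ‖w‖ = ‖(w - (1 - R / 2) • y) + (1 - R / 2) • y‖ := by rw [← e]
      _ ≤ ‖w - (1 - R / 2) • y‖ + ‖(1 - R / 2) • y‖ := norm_add_le _ _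
      _ = ‖w - (1 - R / 2) • y‖ + (1 - R / 2) * ‖y‖ := by
          rw [norm_smul, Real.norm_of_nonneg (by linarith)]
      _ < 1 := by nlinarith [norm_nonneg y]

theorem clu_lower {g : X n → ENNReal} (hg : Measurable g) {R s : ℝ} (hR : 0 < R) (hR1 : R ≤ 1) :
    volume (ball (0 : E n) (R / 2)) * ∫⁻ z in ball (0 : E n) 1 ×ˢ Ioo (-s) s, g z ≤
      ∫⁻ x in ball (0 : E n) 1, ∫⁻ z in ball x R ×ˢ Ioo (-s) s, g z := by
  have hI : MeasurableSet {z : X n | z.2 ∈ Ioo (-s) s} := measurable_snd measurableSet_Ioo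
  rw [clu_swap hg, ← lintegral_const_mul _ hg, ← lintegral_indicator hI,
    ← lintegral_indicator (measurableSet_ball.prod measurableSet_Ioo)]
  apply lintegral_mono
  intro z
  by_cases hz : z ∈ ball (0 : E n) 1 ×ˢ Ioo (-s) s
  · have hz2 : z ∈ {z : X n | z.2 ∈ Ioo (-s) s} := hz.2
    rw [indicator_of_mem hz, indicator_of_mem hz2, mul_comm]
    apply mul_le_mul_right
    exact clu_geom hR hR1 hz.1
  · rw [indicator_of_notMem hz]
    exact zero_le

theorem clu_vol_pos : 0 < (volume (ball (0 : E n) 1)).toReal :=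
  ENNReal.toReal_pos (measure_ball_pos volume _ one_pos).ne' measure_ball_lt_top.ne

theorem clu_vol {R : ℝ} (hR : 0 < R) (x : E n) :
    volume (ball x R) = ENNReal.ofReal (R ^ n * (volume (ball (0 : E n) 1)).toReal) := by
  rw [Measure.addHaar_ball_of_pos volume x hR, finrank_euclideanSpace_fin,
    ENNReal.ofReal_mul (by positivity), ENNReal.ofReal_toReal measure_ball_lt_top.ne]

theorem clu_pick {gA gF : X n → ENNReal} (hA : Measurable gA) (hF : Measurable gF)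
    {R s μ η W : ℝ} (hR : 0 < R) (hR1 : R ≤ 1) (hs : 0 < s) (hμ : 0 < μ) (hη : 0 ≤ η)
    (hW : W = (volume (ball (0 : E n) 1)).toReal) (hμη : μ * η < W / 2 ^ (n + 1))
    (h1 : ENNReal.ofReal (W * s) ≤ ∫⁻ z in ball (0 : E n) 1 ×ˢ Ioo (-s) s, gA z)
    (h2 : ∫⁻ z in ball (0 : E n) 2 ×ˢ Ioo (-s) s, gF z ≤ ENNReal.ofReal η) :
    ∃ x ∈ ball (0 : E n) 1, ENNReal.ofReal (W / 2 ^ (n + 1) * R ^ n * s) +
      ENNReal.ofReal (s * μ) * ∫⁻ z in ball x R ×ˢ Ioo (-s) s, gF z ≤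
        ∫⁻ z in ball x R ×ˢ Ioo (-s) s, gA z := by
  by_contra hcon
  push Not at hcon
  have hW0 : 0 < W := hW ▸ clu_vol_pos
  have e1 : volume (ball (0 : E n) (R / 2)) = ENNReal.ofReal ((R / 2) ^ n * W) := by
    rw [clu_vol (by positivity), hW]
  have e2 : volume (ball (0 : E n) R) = ENNReal.ofReal (R ^ n * W) := by
    rw [clu_vol (by positivity), hW]
  have e3 : volume (ball (0 : E n) 1) = ENNReal.ofReal W := by
    rw [hW, ENNReal.ofReal_toReal measure_ball_lt_top.ne]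
  have k1 : ENNReal.ofReal ((R / 2) ^ n * W * (W * s)) ≤
      ∫⁻ x in ball (0 : E n) 1, ∫⁻ z in ball x R ×ˢ Ioo (-s) s, gA z := by
    refine le_trans ?_ (clu_lower hA hR hR1)
    rw [e1, ENNReal.ofReal_mul (p := (R / 2) ^ n * W) (by positivity)]
    exact mul_le_mul_right h1 _
  have k2 : ∫⁻ x in ball (0 : E n) 1, ∫⁻ z in ball x R ×ˢ Ioo (-s) s, gA z ≤
      ∫⁻ x in ball (0 : E n) 1, (ENNReal.ofReal (W / 2 ^ (n + 1) * R ^ n * s) +
        ENNReal.ofReal (s * μ) * ∫⁻ z in ball x R ×ˢ Ioo (-s) s, gF z) := by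
    apply lintegral_mono_ae
    rw [ae_restrict_iff' measurableSet_ball]
    filter_upwards with x hx
    exact (hcon x hx).le
  rw [lintegral_add_left measurable_const, lintegral_const, Measure.restrict_apply_univ, e3,
    lintegral_const_mul' _ _ ENNReal.ofReal_ne_top] at k2
  have k3 : ∫⁻ x in ball (0 : E n) 1, ∫⁻ z in ball x R ×ˢ Ioo (-s) s, gF z ≤
      ENNReal.ofReal (R ^ n * W * η) := by
    refine (clu_upper hF hR1).trans ?_
    rw [e2, ENNReal.ofReal_mul (p := R ^ n * W) (by positivity)]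
    exact mul_le_mul_right h2 _
  have k4 : ENNReal.ofReal ((R / 2) ^ n * W * (W * s)) ≤
      ENNReal.ofReal (W / 2 ^ (n + 1) * R ^ n * s * W + s * μ * (R ^ n * W * η)) := by
    refine k1.trans (k2.trans ?_)
    rw [ENNReal.ofReal_add (by positivity) (by positivity),
      ENNReal.ofReal_mul (p := W / 2 ^ (n + 1) * R ^ n * s) (by positivity),
      ENNReal.ofReal_mul (p := s * μ) (by positivity)]
    exact add_le_add le_rfl (mul_le_mul_right k3 _)
  rw [ENNReal.ofReal_le_ofReal_iff (by positivity)] at k4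
  have hp : 0 < R ^ n * W * s := by positivity
  have k5 : (R / 2) ^ n * W * (W * s) = (R ^ n * W * s) * (2 * (W / 2 ^ (n + 1))) := by
    rw [div_pow, pow_succ]; field_simp
  have k6 : W / 2 ^ (n + 1) * R ^ n * s * W + s * μ * (R ^ n * W * η) =
      (R ^ n * W * s) * (W / 2 ^ (n + 1) + μ * η) := by ring
  rw [k5, k6] at k4
  have := le_of_mul_le_mul_left k4 hp
  linarith

/-- the scaling homeomorphism -/
def cluT (x₁ : E n) {R s : ℝ} (hR : R ≠ 0) (hs : s ≠ 0) : X n ≃ₜ X n :=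
  ((Homeomorph.smulOfNeZero R hR).trans (Homeomorph.addLeft x₁)).prodCongr
    (Homeomorph.mulLeft₀ s hs)

theorem cluT_apply (x₁ : E n) {R s : ℝ} (hR : R ≠ 0) (hs : s ≠ 0) (z : X n) :
    cluT x₁ hR hs z = (x₁ + R • z.1, s * z.2) := rfl

theorem cluT_map (x₁ : E n) {R s : ℝ} (hR : 0 < R) (hs : 0 < s) :
    Measure.map (cluT x₁ hR.ne' hs.ne') (volume : Measure (X n)) =
      ENNReal.ofReal ((R ^ n * s)⁻¹) • volume := by
  have h1 : Measure.map (fun y : E n => x₁ + R • y) volume =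
      ENNReal.ofReal ((R ^ n)⁻¹) • (volume : Measure (E n)) := by
    have e : (fun y : E n => x₁ + R • y) = (fun y => x₁ + y) ∘ (fun y => R • y) := rfl
    rw [e, ← Measure.map_map (measurable_const_add x₁) (measurable_const_smul R),
      Measure.map_addHaar_smul volume hR.ne', Measure.map_smul, map_add_left_eq_self]
    rw [finrank_euclideanSpace_fin, abs_of_pos (by positivity)]
  have h2 : Measure.map (fun t : ℝ => s * t) volume =
      ENNReal.ofReal (s⁻¹) • (volume : Measure ℝ) := by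
    rw [Real.map_volume_mul_left hs.ne', abs_of_pos (by positivity)]
  have h3 : (cluT x₁ hR.ne' hs.ne' : X n → X n) =
      Prod.map (fun y : E n => x₁ + R • y) (fun t : ℝ => s * t) := rfl
  rw [h3]
  have h4 : (volume : Measure (X n)) = (volume : Measure (E n)).prod (volume : Measure ℝ) := rfl
  rw [h4, ← Measure.map_prod_map _ _ (by fun_prop) (by fun_prop), h1, h2]
  rw [Measure.prod_smul_left, Measure.prod_smul_right, smul_smul, ← ENNReal.ofReal_mul (by positivity)]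
  congr 2
  rw [mul_inv]


theorem clu_near {w : X n → ℝ} {Q : Set (X n)} (hQ : MeasurableSet Q) (hfin : volume Q ≠ ⊤)
    (hw : AEStronglyMeasurable w (volume.restrict Q))
    (hb : ∀ᵐ z ∂(volume.restrict Q), |w z| ≤ 1) {ε m ν c : ℝ} (hε : ε < m / 16)
    (hεν : ε ≤ 3 * ν / 16)
    (hmass : ENNReal.ofReal m ≤ volume {z | z ∈ Q ∧ 1 / 2 ≤ w z})
    (hc : ∫ z in Q, |w z - c| ≤ ε) : (volume {z | z ∈ Q ∧ w z < 1 / 4}).toReal ≤ ν := by
  have hfm : IsFiniteMeasure (volume.restrict Q) := ⟨by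
    rw [Measure.restrict_apply_univ]; exact lt_of_le_of_ne le_top hfin⟩
  have hi : Integrable (fun z => |w z - c|) (volume.restrict Q) := by
    refine Integrable.of_bound (C := 1 + |c|) ?_ ?_
    · exact (hw.sub aestronglyMeasurable_const).norm
    · filter_upwards [hb] with z hz
      rw [Real.norm_eq_abs, abs_abs]
      calc |w z - c| ≤ |w z| + |c| := abs_sub _ _
        _ ≤ 1 + |c| := by linarith
  have hch : ∀ a : ℝ, a * (volume {z | a ≤ |w z - c| ∧ z ∈ Q}).toReal ≤ ε := by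
    intro a
    have h := mul_meas_ge_le_integral_of_nonneg (μ := volume.restrict Q)
      (f := fun z => |w z - c|) (ae_of_all _ fun z => abs_nonneg _) hi a
    rw [measureReal_def, Measure.restrict_apply' hQ] at h
    exact h.trans hc
  have hfin2 : ∀ S : Set (X n), S ⊆ Q → volume S ≠ ⊤ := fun S hS =>
    ne_top_of_le_ne_top hfin (measure_mono hS)
  by_cases h7 : c < 7 / 16
  · exfalso
    have h1 : m ≤ (volume {z | (1 / 16 : ℝ) ≤ |w z - c| ∧ z ∈ Q}).toReal := by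
      rw [← ENNReal.ofReal_le_iff_le_toReal (hfin2 _ fun z hz => hz.2)]
      refine hmass.trans (measure_mono ?_)
      rintro z ⟨hz, h2⟩
      refine ⟨?_, hz⟩
      rw [abs_of_pos (by linarith)]
      linarith
    have h2 := hch (1 / 16)
    linarith
  · push Not at h7
    have h1 : (volume {z | z ∈ Q ∧ w z < 1 / 4}).toReal ≤
        (volume {z | (3 / 16 : ℝ) ≤ |w z - c| ∧ z ∈ Q}).toReal := by
      apply ENNReal.toReal_mono (hfin2 _ fun z hz => hz.2)
      apply measure_mono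
      rintro z ⟨hz, h2⟩
      refine ⟨?_, hz⟩
      rw [abs_of_neg (by linarith)]
      linarith
    have h2 := hch (3 / 16)
    linarith

theorem cluT_ae (x₁ : E n) {R s : ℝ} (hR : 0 < R) (hs : 0 < s) {Q : X n → Prop} :
    (∀ᵐ z : X n, Q (cluT x₁ hR.ne' hs.ne' z)) ↔ ∀ᵐ z : X n, Q z := by
  have hc : ENNReal.ofReal ((R ^ n * s)⁻¹) ≠ 0 := by
    rw [Ne, ENNReal.ofReal_eq_zero, not_le]; positivity
  have h1 := (cluT x₁ hR.ne' hs.ne').measurableEmbedding.ae_map_iff (p := Q) (μ := volume)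
  rw [cluT_map x₁ hR hs] at h1
  rw [← h1]
  exact Measure.ae_ennreal_smul_measure_iff hc

theorem cluT_vol (x₁ : E n) {R s : ℝ} (hR : 0 < R) (hs : 0 < s) (N : Set (X n)) :
    volume ((cluT x₁ hR.ne' hs.ne') ⁻¹' N) = ENNReal.ofReal ((R ^ n * s)⁻¹) * volume N := by
  have h1 := (cluT x₁ hR.ne' hs.ne').measurableEmbedding.map_apply volume N
  rw [cluT_map x₁ hR hs] at h1
  rw [← h1]
  rfl

theorem cluT_lint (x₁ : E n) {R s : ℝ} (hR : 0 < R) (hs : 0 < s) (S : Set (X n))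
    (g : X n → ENNReal) :
    ∫⁻ z in (cluT x₁ hR.ne' hs.ne') ⁻¹' S, g (cluT x₁ hR.ne' hs.ne' z) =
      ENNReal.ofReal ((R ^ n * s)⁻¹) * ∫⁻ z in S, g z := by
  rw [← (cluT x₁ hR.ne' hs.ne').measurableEmbedding.lintegral_map,
    ← (cluT x₁ hR.ne' hs.ne').measurableEmbedding.restrict_map, cluT_map x₁ hR hs,
    Measure.restrict_smul, lintegral_smul_measure]
  rfl

theorem cluT_pre (x₁ : E n) {R s : ℝ} (hR : 0 < R) (hs : 0 < s) (a b c : ℝ) :
    (cluT x₁ hR.ne' hs.ne') ⁻¹' (ball x₁ (R * a) ×ˢ Ioo (s * b) (s * c)) =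
      ball (0 : E n) a ×ˢ Ioo b c := by
  ext z
  rw [mem_preimage, cluT_apply, mem_prod, mem_prod, mem_ball, mem_ball, dist_eq_norm,
    add_sub_cancel_left, norm_smul, Real.norm_of_nonneg hR.le, dist_zero_right, mem_Ioo, mem_Ioo]
  constructor
  · rintro ⟨h1, h2, h3⟩
    exact ⟨lt_of_mul_lt_mul_left h1 hR.le, lt_of_mul_lt_mul_left h2 hs.le,
      lt_of_mul_lt_mul_left h3 hs.le⟩
  · rintro ⟨h1, h2, h3⟩
    exact ⟨mul_lt_mul_of_pos_left h1 hR, mul_lt_mul_of_pos_left h2 hs,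
      mul_lt_mul_of_pos_left h3 hs⟩

theorem clu_scale (hp : 1 < p) {v : X n → ℝ} {G : X n → E n}
    (h : SolOn p (ball (0 : E n) 4 ×ˢ Ioo (-4 : ℝ) 4) v G) {R s : ℝ} (hR : 0 < R) (hR1 : R ≤ 1)
    (hs0 : 0 < s) (hs1 : s ≤ 1) (hs : R ^ p = s) {x₁ : E n} (hx : x₁ ∈ ball (0 : E n) 1) :
    SolOn p (ball (0 : E n) 2 ×ˢ Ioo (-2 : ℝ) 2) (fun z => v (cluT x₁ hR.ne' hs0.ne' z))
      (fun z => R • G (cluT x₁ hR.ne' hs0.ne' z)) := by
  have hO : IsOpen (ball (0 : E n) 4 ×ˢ Ioo (-4 : ℝ) 4) := isOpen_ball.prod isOpen_Ioo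
  have h1 := h.scale hp hO (a := 0) (b := 1) one_pos hR x₁ 0
  simp only [Real.one_rpow, one_mul, hs, zero_add, add_zero] at h1
  have h2 := h1.restrict (Ω' := ball (0 : E n) 2 ×ˢ Ioo (-2 : ℝ) 2) ?_
    (isOpen_ball.prod isOpen_Ioo) ?_
  · exact h2
  · exact hO.preimage (f := fun z : X n => (x₁ + R • z.1, s * z.2)) (by fun_prop)
  · rintro z ⟨h3, h4⟩
    rw [mem_ball, dist_zero_right] at h3 hx
    rw [mem_Ioo] at h4
    constructor
    · rw [mem_ball, dist_zero_right]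
      calc ‖x₁ + R • z.1‖ ≤ ‖x₁‖ + ‖R • z.1‖ := norm_add_le _ _
        _ = ‖x₁‖ + R * ‖z.1‖ := by rw [norm_smul, Real.norm_of_nonneg hR.le]
        _ < 4 := by nlinarith [norm_nonneg z.1]
    · rw [mem_Ioo]
      constructor <;> nlinarith [h4.1, h4.2]

theorem clu (hn : 0 < n) (hp : 1 < p) : ∃ r s : ℝ, 0 < r ∧ r ≤ 1 ∧ 0 < s ∧ s ≤ 1 ∧
    ∀ (v : X n → ℝ) (G : X n → E n), SolOn p (ball (0 : E n) 4 ×ˢ Ioo (-4 : ℝ) 4) v G →
      (∀ᵐ z ∂(volume.restrict (ball (0 : E n) 4 ×ˢ Ioo (-4 : ℝ) 4)), 0 ≤ v z ∧ v z ≤ 1) →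
      (1 / 2) * (volume (ball (0 : E n) 1 ×ˢ Ioo (-s) s)).toReal ≤
        (volume {z | z ∈ ball (0 : E n) 1 ×ˢ Ioo (-s) s ∧ 1 / 2 ≤ v z}).toReal →
      ∃ x₁ ∈ ball (0 : E n) 1,
        ∀ᵐ z ∂(volume.restrict (ball x₁ r ×ˢ Ioo (-s / 2) s)), 1 / 8 ≤ v z := by
  obtain ⟨ν, hν, hdg⟩ := dg (n := n) (p := p) hn hp (k := 1 / 4) (by norm_num)
  obtain ⟨W, hW⟩ : ∃ W, W = (volume (ball (0 : E n) 1)).toReal := ⟨_, rfl⟩
  have hW0 : 0 < W := hW ▸ clu_vol_pos
  obtain ⟨m, hm⟩ : ∃ m, m = W / 2 ^ (n + 1) := ⟨_, rfl⟩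
  have hm0 : 0 < m := by rw [hm]; positivity
  obtain ⟨ε, hε⟩ : ∃ ε, ε = min (m / 32) (3 * ν / 16) := ⟨_, rfl⟩
  have hε0 : 0 < ε := by rw [hε]; exact lt_min (by positivity) (by positivity)
  have hε1 : ε < m / 16 := by
    have : ε ≤ m / 32 := hε ▸ min_le_left _ _
    linarith
  have hε2 : ε ≤ 3 * ν / 16 := hε ▸ min_le_right _ _
  obtain ⟨κ, hκ, hnc⟩ := near_const (n := n) (p := p) hp 1 hε0
  obtain ⟨μ, hμ⟩ : ∃ μ, μ = 2 * W / κ := ⟨_, rfl⟩
  have hμ0 : 0 < μ := by rw [hμ]; positivity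
  obtain ⟨η, hη⟩ : ∃ η, η = m / (2 * μ) := ⟨_, rfl⟩
  have hη0 : 0 < η := by rw [hη]; positivity
  have hμη : μ * η < W / 2 ^ (n + 1) := by
    rw [← hm, hη]
    have : μ * (m / (2 * μ)) = m / 2 := by field_simp
    rw [this]; linarith
  obtain ⟨D, hDdef⟩ : ∃ D : Set (X n), D = closedBall (0 : E n) 3 ×ˢ Icc (-2 : ℝ) 2 := ⟨_, rfl⟩
  have hD : IsCompact D := by
    rw [hDdef]; exact (isCompact_closedBall _ _).prod isCompact_Icc
  have hDΩ : D ⊆ ball (0 : E n) 4 ×ˢ Ioo (-4 : ℝ) 4 := by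
    rw [hDdef]
    apply Set.prod_mono
    · exact closedBall_subset_ball (by norm_num)
    · exact Icc_subset_Ioo (by norm_num) (by norm_num)
  obtain ⟨s0, hs0, hui⟩ := unif_int (n := n) hp
    (Ω := ball (0 : E n) 4 ×ˢ Ioo (-4 : ℝ) 4) (isOpen_ball.prod isOpen_Ioo)
    (isBounded_ball.prod (isBounded_Ioo _ _)) 1 hD hDΩ 0 hη0
  obtain ⟨s, hsdef⟩ : ∃ s, s = min s0 1 := ⟨_, rfl⟩
  have hs : 0 < s := by rw [hsdef]; exact lt_min hs0 one_pos
  have hs1 : s ≤ 1 := hsdef ▸ min_le_right _ _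
  have hss0 : s ≤ s0 := hsdef ▸ min_le_left _ _
  obtain ⟨R, hRdef⟩ : ∃ R, R = s ^ (1 / p) := ⟨_, rfl⟩
  have hR : 0 < R := by rw [hRdef]; positivity
  have hR1 : R ≤ 1 := by rw [hRdef]; exact Real.rpow_le_one hs.le hs1 (by positivity)
  have hRp : R ^ p = s := by
    rw [hRdef, ← Real.rpow_mul hs.le, one_div_mul_cancel (by linarith), Real.rpow_one]
  refine ⟨R / 2, s, by positivity, by linarith, hs, hs1, ?_⟩
  intro v G hsol hv hmass
  -- measurable representatives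
  have hΩm : MeasurableSet (ball (0 : E n) 4 ×ˢ Ioo (-4 : ℝ) 4) :=
    measurableSet_ball.prod measurableSet_Ioo
  have hvm : AEMeasurable v (volume.restrict (ball (0 : E n) 4 ×ˢ Ioo (-4 : ℝ) 4)) :=
    hsol.meas.aemeasurable
  have hGD : MemLp G (ENNReal.ofReal p) (volume.restrict D) := hsol.memG D hD hDΩ
  have hgF0 : AEMeasurable (fun z => ENNReal.ofReal (‖G z‖ ^ p)) (volume.restrict D) :=
    (hGD.1.norm.aemeasurable.pow_const p).ennreal_ofReal
  obtain ⟨gF, hgFm, hgF⟩ := hgF0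
  have hgFS : ∀ S : Set (X n), S ⊆ D →
      ∫⁻ z in S, gF z = ∫⁻ z in S, ENNReal.ofReal (‖G z‖ ^ p) := by
    intro S hS
    apply lintegral_congr_ae
    filter_upwards [ae_mono (Measure.restrict_mono hS le_rfl) hgF] with z hz
    exact hz.symm
  obtain ⟨v', hv'm, hv'⟩ := hvm
  have hAm : MeasurableSet {z | 1 / 2 ≤ v' z} := measurableSet_le measurable_const hv'm
  have hgAm : Measurable ({z | 1 / 2 ≤ v' z}.indicator (fun _ => (1 : ENNReal)) : X n → ENNReal) :=
    measurable_const.indicator hAm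
  have hgAS : ∀ S : Set (X n), MeasurableSet S → S ⊆ ball (0 : E n) 4 ×ˢ Ioo (-4 : ℝ) 4 →
      ∫⁻ z in S, {z | 1 / 2 ≤ v' z}.indicator (fun _ => (1 : ENNReal)) z =
        volume {z | z ∈ S ∧ 1 / 2 ≤ v z} := by
    intro S hSm hS
    rw [lintegral_indicator_const hAm, one_mul, Measure.restrict_apply' hSm]
    apply measure_congr
    rw [Filter.EventuallyEq, ae_restrict_iff' hΩm] at hv'
    filter_upwards [hv'] with z hz
    apply propext
    constructor
    · rintro ⟨h1, h2⟩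
      refine ⟨h2, ?_⟩
      rw [hz (hS h2)]
      exact h1
    · rintro ⟨h1, h2⟩
      refine ⟨?_, h1⟩
      rw [hz (hS h1)] at h2
      exact h2
  have hsub1 : ball (0 : E n) 1 ×ˢ Ioo (-s) s ⊆ ball (0 : E n) 4 ×ˢ Ioo (-4 : ℝ) 4 :=
    Set.prod_mono (ball_subset_ball (by norm_num)) (Ioo_subset_Ioo (by linarith) (by linarith))
  have hsub2 : ball (0 : E n) 2 ×ˢ Ioo (-s) s ⊆ D := by
    rw [hDdef]
    exact Set.prod_mono ((ball_subset_closedBall).trans (closedBall_subset_closedBall (by norm_num)))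
      (Ioo_subset_Icc_self.trans (Icc_subset_Icc (by linarith) (by linarith)))
  have hv1 : ∀ᵐ z ∂(volume.restrict (ball (0 : E n) 4 ×ˢ Ioo (-4 : ℝ) 4)), |v z| ≤ 1 := by
    filter_upwards [hv] with z hz
    rw [abs_le]; constructor <;> linarith [hz.1, hz.2]
  have hcyl : ∀ (x : E n) (r : ℝ), 0 < r →
      volume (ball x r ×ˢ Ioo (-s) s) = ENNReal.ofReal (r ^ n * W * (2 * s)) := by
    intro x r hr
    have h4 : (volume : Measure (X n)) = (volume : Measure (E n)).prod (volume : Measure ℝ) := rfl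
    rw [h4, Measure.prod_prod, clu_vol hr, Real.volume_Ioo, ← hW,
      ENNReal.ofReal_mul (p := r ^ n * W) (by positivity)]
    congr 2
    ring
  -- the good point
  obtain ⟨x₁, hx₁, hpick⟩ := clu_pick hgAm hgFm hR hR1 hs hμ0 hη0.le hW hμη
    (by
      rw [hgAS _ (measurableSet_ball.prod measurableSet_Ioo) hsub1]
      apply ENNReal.ofReal_le_of_le_toReal
      refine le_trans (le_of_eq ?_) hmass
      rw [hcyl 0 1 one_pos, ENNReal.toReal_ofReal (by positivity)]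
      ring)
    (by
      rw [hgFS _ hsub2]
      have h1 := hui v G hsol hv1
      have hint : IntegrableOn (fun z => ‖G z‖ ^ p) D := by
        have := hGD.integrable_norm_rpow (by
          rw [Ne, ENNReal.ofReal_eq_zero, not_le]; linarith) ENNReal.ofReal_ne_top
        rw [ENNReal.toReal_ofReal (by linarith)] at this
        exact this
      have hsub3 : {z : X n | z ∈ D ∧ |z.2 - 0| ≤ s0} ⊆ D := fun z hz => hz.1
      have h2 : ∫⁻ z in {z : X n | z ∈ D ∧ |z.2 - 0| ≤ s0}, ENNReal.ofReal (‖G z‖ ^ p) ≤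
          ENNReal.ofReal η := by
        rw [← ofReal_integral_eq_lintegral_ofReal (hint.mono_set hsub3)
          (ae_of_all _ fun z => by positivity)]
        exact ENNReal.ofReal_le_ofReal h1
      refine le_trans (lintegral_mono_set ?_) h2
      rintro z hz
      refine ⟨hsub2 hz, ?_⟩
      rw [sub_zero, abs_le]
      constructor <;> linarith [hz.2.1, hz.2.2])
  have hx₁' : ‖x₁‖ < 1 := by rwa [mem_ball, dist_zero_right] at hx₁
  have hsub4 : ball x₁ R ×ˢ Ioo (-s) s ⊆ D := by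
    refine Subset.trans (Set.prod_mono ?_ le_rfl) hsub2
    intro y hy
    rw [mem_ball, dist_eq_norm] at hy
    rw [mem_ball, dist_zero_right]
    calc ‖y‖ = ‖(y - x₁) + x₁‖ := by rw [sub_add_cancel]
      _ ≤ ‖y - x₁‖ + ‖x₁‖ := norm_add_le _ _
      _ < 2 := by linarith
  have hmS : MeasurableSet (ball x₁ R ×ˢ Ioo (-s) s) := measurableSet_ball.prod measurableSet_Ioo
  rw [hgAS _ hmS (hsub4.trans hDΩ), hgFS _ hsub4, ← hm] at hpick
  have hpre : (cluT x₁ hR.ne' hs.ne') ⁻¹' (ball x₁ R ×ˢ Ioo (-s) s) =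
      ball (0 : E n) 1 ×ˢ Ioo (-1 : ℝ) 1 := by
    rw [← cluT_pre x₁ hR hs 1 (-1) 1]
    congr 2
    · rw [mul_one]
    · congr 1 <;> ring
  have hsc := clu_scale hp hsol hR hR1 hs hs1 hRp hx₁
  -- energy
  have hF1 : ENNReal.ofReal (s * μ) * ∫⁻ z in ball x₁ R ×ˢ Ioo (-s) s, ENNReal.ofReal (‖G z‖ ^ p) ≤
      ENNReal.ofReal (R ^ n * W * (2 * s)) := by
    rw [← hcyl x₁ R hR]
    exact (le_add_self.trans hpick).trans (measure_mono fun z hz => hz.1)
  obtain ⟨F, hFdef⟩ : ∃ F, F = ∫⁻ z in ball x₁ R ×ˢ Ioo (-s) s, ENNReal.ofReal (‖G z‖ ^ p) :=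
    ⟨_, rfl⟩
  rw [← hFdef] at hF1 hpick
  have hFtop : F ≠ ⊤ := by
    intro h
    rw [h, ENNReal.mul_top (by
      rw [Ne, ENNReal.ofReal_eq_zero, not_le]; positivity), top_le_iff] at hF1
    exact ENNReal.ofReal_ne_top hF1
  have hF2 : s * μ * F.toReal ≤ R ^ n * W * (2 * s) := by
    rw [← ENNReal.ofReal_toReal hFtop, ← ENNReal.ofReal_mul (by positivity),
      ENNReal.ofReal_le_ofReal_iff (by positivity)] at hF1
    exact hF1
  have hQsub : ball (0 : E n) 1 ×ˢ Ioo (-1 : ℝ) 1 ⊆ ball (0 : E n) 2 ×ˢ Ioo (-2 : ℝ) 2 :=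
    Set.prod_mono (ball_subset_ball (by norm_num)) (Ioo_subset_Ioo (by norm_num) (by norm_num))
  have hen : ∫ z in ball (0 : E n) 1 ×ˢ Ioo (-1 : ℝ) 1,
      ‖R • G (cluT x₁ hR.ne' hs.ne' z)‖ ^ p ≤ κ := by
    have hK : IsCompact (closedBall (0 : E n) 1 ×ˢ Icc (-1 : ℝ) 1) :=
      (isCompact_closedBall _ _).prod isCompact_Icc
    have hint : IntegrableOn (fun z => ‖R • G (cluT x₁ hR.ne' hs.ne' z)‖ ^ p)
        (ball (0 : E n) 1 ×ˢ Ioo (-1 : ℝ) 1) := by
      have h1 := (hsc.memG _ hK (Set.prod_mono (closedBall_subset_ball (by norm_num))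
        (Icc_subset_Ioo (by norm_num) (by norm_num)))).integrable_norm_rpow (by
          rw [Ne, ENNReal.ofReal_eq_zero, not_le]; linarith) ENNReal.ofReal_ne_top
      rw [ENNReal.toReal_ofReal (by linarith)] at h1
      have h2 : IntegrableOn (fun z => ‖R • G (cluT x₁ hR.ne' hs.ne' z)‖ ^ p)
        (closedBall (0 : E n) 1 ×ˢ Icc (-1 : ℝ) 1) := h1
      exact h2.mono_set (Set.prod_mono ball_subset_closedBall Ioo_subset_Icc_self)
    have h3 : ENNReal.ofReal (∫ z in ball (0 : E n) 1 ×ˢ Ioo (-1 : ℝ) 1,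
        ‖R • G (cluT x₁ hR.ne' hs.ne' z)‖ ^ p) =
        ENNReal.ofReal s * (ENNReal.ofReal ((R ^ n * s)⁻¹) * F) := by
      rw [ofReal_integral_eq_lintegral_ofReal hint (ae_of_all _ fun z => by positivity), hFdef,
        ← cluT_lint x₁ hR hs, hpre, ← lintegral_const_mul' _ _ ENNReal.ofReal_ne_top]
      apply lintegral_congr
      intro z
      rw [← ENNReal.ofReal_mul hs.le, norm_smul, Real.norm_of_nonneg hR.le,
        Real.mul_rpow hR.le (norm_nonneg _), hRp]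
    rw [← ENNReal.ofReal_toReal hFtop, ← ENNReal.ofReal_mul (by positivity),
      ← ENNReal.ofReal_mul (by positivity)] at h3
    have h5 : s * ((R ^ n * s)⁻¹ * F.toReal) ≤ κ := by
      have h6 : s * μ * F.toReal ≤ κ * (R ^ n * (s * μ)) := by
        refine hF2.trans (le_of_eq ?_)
        rw [hμ]; field_simp
      have h7 : s * ((R ^ n * s)⁻¹ * F.toReal) = (s * μ * F.toReal) / (R ^ n * (s * μ)) := by
        field_simp
      rw [h7, div_le_iff₀ (by positivity)]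
      exact h6
    have h8 : 0 ≤ ∫ z in ball (0 : E n) 1 ×ˢ Ioo (-1 : ℝ) 1,
        ‖R • G (cluT x₁ hR.ne' hs.ne' z)‖ ^ p := integral_nonneg fun z => by positivity
    have h9 : ∫ z in ball (0 : E n) 1 ×ˢ Ioo (-1 : ℝ) 1,
        ‖R • G (cluT x₁ hR.ne' hs.ne' z)‖ ^ p = s * ((R ^ n * s)⁻¹ * F.toReal) := by
      have := congrArg ENNReal.toReal h3
      rwa [ENNReal.toReal_ofReal h8, ENNReal.toReal_ofReal (by positivity)] at this
    rw [h9]
    exact h5
  -- bounds of the scaled function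
  have hw : ∀ᵐ z ∂(volume.restrict (ball (0 : E n) 2 ×ˢ Ioo (-2 : ℝ) 2)),
      0 ≤ v (cluT x₁ hR.ne' hs.ne' z) ∧ v (cluT x₁ hR.ne' hs.ne' z) ≤ 1 := by
    rw [ae_restrict_iff' hΩm] at hv
    rw [ae_restrict_iff' (measurableSet_ball.prod measurableSet_Ioo)]
    filter_upwards [(cluT_ae x₁ hR hs).2 hv] with z hz hz2
    apply hz
    rw [cluT_apply]
    obtain ⟨h3, h4⟩ := hz2
    rw [mem_ball, dist_zero_right] at h3
    rw [mem_Ioo] at h4
    constructor
    · rw [mem_ball, dist_zero_right]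
      calc ‖x₁ + R • z.1‖ ≤ ‖x₁‖ + ‖R • z.1‖ := norm_add_le _ _
        _ = ‖x₁‖ + R * ‖z.1‖ := by rw [norm_smul, Real.norm_of_nonneg hR.le]
        _ < 4 := by nlinarith [norm_nonneg z.1]
    · rw [mem_Ioo]
      constructor <;> nlinarith [h4.1, h4.2]
  have hw1 : ∀ᵐ z ∂(volume.restrict (ball (0 : E n) 2 ×ˢ Ioo (-2 : ℝ) 2)),
      |v (cluT x₁ hR.ne' hs.ne' z)| ≤ 1 := by
    filter_upwards [hw] with z hz
    rw [abs_le]; constructor <;> linarith [hz.1, hz.2]
  obtain ⟨c, hc⟩ := hnc _ _ hsc hw1 hen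
  have hQm : MeasurableSet (ball (0 : E n) 1 ×ˢ Ioo (-1 : ℝ) 1) :=
    measurableSet_ball.prod measurableSet_Ioo
  have hQfin : volume (ball (0 : E n) 1 ×ˢ Ioo (-1 : ℝ) 1) ≠ ⊤ :=
    ((isBounded_ball.prod (isBounded_Ioo _ _)).measure_lt_top).ne
  have hmass2 : ENNReal.ofReal m ≤ volume {z | z ∈ ball (0 : E n) 1 ×ˢ Ioo (-1 : ℝ) 1 ∧
      1 / 2 ≤ v (cluT x₁ hR.ne' hs.ne' z)} := by
    have e : {z | z ∈ ball (0 : E n) 1 ×ˢ Ioo (-1 : ℝ) 1 ∧
        1 / 2 ≤ v (cluT x₁ hR.ne' hs.ne' z)} =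
        (cluT x₁ hR.ne' hs.ne') ⁻¹' {z | z ∈ ball x₁ R ×ˢ Ioo (-s) s ∧ 1 / 2 ≤ v z} := by
      rw [← hpre]; rfl
    rw [e, cluT_vol x₁ hR hs]
    have h1 : ENNReal.ofReal (m * R ^ n * s) ≤
        volume {z | z ∈ ball x₁ R ×ˢ Ioo (-s) s ∧ 1 / 2 ≤ v z} := le_self_add.trans hpick
    refine le_trans (le_of_eq ?_) (mul_le_mul_right h1 _)
    rw [← ENNReal.ofReal_mul (by positivity)]
    congr 1
    field_simp
  have hnear := clu_near hQm hQfin (hsc.meas.mono_measure (Measure.restrict_mono hQsub le_rfl))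
    (ae_mono (Measure.restrict_mono hQsub le_rfl) hw1) hε1 hε2 hmass2 hc
  have hfin := hdg _ _ (hsc.toSupOn.restrict (isOpen_ball.prod isOpen_Ioo)
    (isOpen_ball.prod isOpen_Ioo) hQsub) (by
      filter_upwards [ae_mono (Measure.restrict_mono hQsub le_rfl) hw] with z hz
      exact hz.1) hnear
  refine ⟨x₁, hx₁, ?_⟩
  rw [ae_restrict_iff' (measurableSet_ball.prod measurableSet_Ioo)] at hfin ⊢
  rw [← cluT_ae x₁ hR hs]
  filter_upwards [hfin] with z hz hz2
  have h1 : z ∈ ball (0 : E n) (1 / 2) ×ˢ Ioo (-(1 / 2) : ℝ) 1 := by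
    rw [← cluT_pre x₁ hR hs (1 / 2) (-(1 / 2)) 1, mem_preimage]
    refine ⟨?_, ?_⟩
    · have := hz2.1
      rwa [div_eq_mul_one_div] at this
    · have h2 := hz2.2
      rw [mem_Ioo] at h2 ⊢
      constructor <;> linarith [h2.1, h2.2]
  have := hz h1
  linarith

end PP
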