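import Pool.Agent.PP.MOL
import Pool.Agent.PP.CAL2
import Pool.Agent.PP.CAL3

open Set Metric Filter Topology MeasureTheory
open scoped ContDiff

noncomputable section

namespace PP

variable {n : ℕ}
variable {p : ℝ}

theorem poi_cut {C : Set (X n)} (hC : Bornology.IsBounded C) :
    ∃ χ : X n → ℝ, Tst univ χ ∧ (∀ z ∈ C, χ z = 1) ∧ (∀ z ∈ C, dx χ z = 0) ∧
      ∀ z ∈ C, dt χ z = 0 := by
  obtain ⟨R, hR⟩ := hC.subset_closedBall (0 : X n)
  obtain ⟨χ, h1, h2, h3⟩ := exists_cutoff (isCompact_closedBall (0 : X n) R) isOpen_univ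
    (subset_univ _)
  have h4 : ∀ z ∈ C, χ =ᶠ[𝓝 z] fun _ => 1 := by
    intro z hz
    exact (eventually_nhdsSet_iff_forall.1 h3) z (hR hz)
  have h5 : ∀ z ∈ C, fderiv ℝ χ z = 0 := by
    intro z hz
    rw [(h4 z hz).fderiv_eq]
    simp
  refine ⟨χ, h1, fun z hz => (h4 z hz).self_of_nhds, fun z hz => ?_, fun z hz => ?_⟩
  · refine ext_inner_right ℝ fun v => ?_
    rw [dx_eq h1.smooth, h5 z hz]
    simp
  · rw [dt_eq h1.smooth, h5 z hz]
    simp

/-- the integral of the weak gradient vanishes -/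
theorem poi_grad (hp : 1 < p) {C : Set (X n)} (hC : Bornology.IsBounded C)
    {φ : X n → ℝ} {Φ : X n → E n} (h : W0 p C φ Φ) : ∫ z, Φ z = 0 := by
  obtain ⟨χ, h1, h2, h3, -⟩ := poi_cut hC
  have h4 := h.wg χ h1
  have h5 : ∫ z, φ z • dx χ z = 0 := by
    have : (fun z => φ z • dx χ z) =ᵐ[volume] fun _ => (0 : E n) := by
      filter_upwards [h.zero] with z hz
      by_cases hzC : z ∈ C
      · rw [h3 z hzC, smul_zero]
      · rw [hz hzC, zero_smul]
    rw [integral_congr_ae this]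
    simp
  have h6 : ∫ z, χ z • Φ z = ∫ z, Φ z := by
    apply integral_congr_ae
    filter_upwards [h.grad_off hp hC] with z hz
    by_cases hzC : z ∈ C
    · rw [h2 z hzC, one_smul]
    · rw [hz hzC, smul_zero]
  rw [h5, h6] at h4
  exact (neg_eq_zero.1 h4.symm)

/-- the integral of the weak time derivative vanishes -/
theorem poi_time (hp : 1 < p) {C : Set (X n)} (hC : Bornology.IsBounded C)
    {φ φt : X n → ℝ} {Φ : X n → E n} (h : W1 p C φ φt Φ) : ∫ z, φt z = 0 := by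
  obtain ⟨χ, h1, h2, -, h3⟩ := poi_cut hC
  have h4 := h.wt χ h1
  have h5 : ∫ z, φ z * dt χ z = 0 := by
    have : (fun z => φ z * dt χ z) =ᵐ[volume] fun _ => (0 : ℝ) := by
      filter_upwards [h.zero] with z hz
      by_cases hzC : z ∈ C
      · rw [h3 z hzC, mul_zero]
      · rw [hz hzC, zero_mul]
    rw [integral_congr_ae this]
    simp
  have h6 : ∫ z, χ z * φt z = ∫ z, φt z := by
    apply integral_congr_ae
    filter_upwards [h.time_off hp hC] with z hz
    by_cases hzC : z ∈ C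
    · rw [h2 z hzC, one_mul]
    · rw [hz hzC, mul_zero]
  rw [h5, h6] at h4
  exact (neg_eq_zero.1 h4.symm)

/-- integration by parts in time -/
theorem int_time (hp : 1 < p) {C : Set (X n)} (hC : Bornology.IsBounded C)
    {φ φt ψ ψt : X n → ℝ} {Φ Ψ : X n → E n}
    (h : W1 p C φ φt Φ) (h' : W1 p C ψ ψt Ψ) :
    ∫ z, φ z * ψt z = - ∫ z, φt z * ψ z := by
  have h1 := poi_time hp hC (h.mul hp hC h')
  have i1 : Integrable (fun z => φ z * ψt z) volume :=
    (h.toW0.memLp_fn hC 2).integrable_mul h'.memt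
  have i2 : Integrable (fun z => ψ z * φt z) volume :=
    (h'.toW0.memLp_fn hC 2).integrable_mul h.memt
  rw [integral_add i1 i2] at h1
  have h2 : ∫ z, φt z * ψ z = ∫ z, ψ z * φt z := by
    congr 1
    funext z
    ring
  rw [h2]
  linarith

theorem poincare_t (hp : 1 < p) {C : Set (X n)} (hC : Bornology.IsBounded C) {T : ℝ}
    (hT : ∀ z ∈ C, |z.2| ≤ T) {φ φt : X n → ℝ} {Φ : X n → E n} (h : W1 p C φ φt Φ) :
    ∫ z, φ z ^ 2 ≤ 4 * T ^ 2 * ∫ z, φt z ^ 2 := by
  have hη : ContDiff ℝ ∞ (fun z : X n => z.2) := contDiff_snd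
  have hψ := h.smooth_mul hp hC hη
  have hdt : ∀ z : X n, dt (fun z : X n => z.2) z = 1 := by
    intro z
    simp [dt]
  simp only [hdt, mul_one] at hψ
  have h1 := int_time hp hC h hψ
  have m1 := h.toW0.memLp_fn hC 2
  have m2 := hψ.toW0.memLp_fn hC 2
  have i1 : Integrable (fun z => φ z ^ 2) volume := m1.integrable_sq
  have i2 : Integrable (fun z => φt z ^ 2) volume := h.memt.integrable_sq
  have i3 : Integrable (fun z => φt z * (z.2 * φ z)) volume := h.memt.integrable_mul m2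
  have h2 : ∫ z, φ z * (z.2 * φt z + φ z) = (∫ z, φt z * (z.2 * φ z)) + ∫ z, φ z ^ 2 := by
    rw [← integral_add i3 i1]
    congr 1
    funext z
    ring
  rw [h2] at h1
  have h3 : ∫ z, -2 * (φt z * (z.2 * φ z)) ≤ ∫ z, ((1 / 2) * φ z ^ 2 + 2 * T ^ 2 * φt z ^ 2) := by
    apply integral_mono_ae (i3.const_mul _) ((i1.const_mul _).add (i2.const_mul _))
    filter_upwards [h.zero] with z hz
    by_cases hzC : z ∈ C
    · have h4 := hT z hzC
      have h5 : z.2 ^ 2 ≤ T ^ 2 := sq_le_sq.2 (h4.trans (le_abs_self T))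
      simp only [Pi.add_apply]
      nlinarith [sq_nonneg (φ z + 2 * z.2 * φt z), sq_nonneg (φt z),
        mul_le_mul_of_nonneg_right h5 (sq_nonneg (φt z))]
    · simp only [Pi.add_apply]
      rw [hz hzC]
      have : 0 ≤ 2 * T ^ 2 * φt z ^ 2 := by positivity
      simpa using this
  rw [integral_const_mul, integral_add (i1.const_mul _) (i2.const_mul _), integral_const_mul,
    integral_const_mul] at h3
  linarith

theorem zero_of_time (hp : 1 < p) {C : Set (X n)} (hC : Bornology.IsBounded C)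
    {φ φt : X n → ℝ} {Φ : X n → E n} (h : W1 p C φ φt Φ) (h0 : ∀ᵐ z, φt z = 0) :
    ∀ᵐ z, φ z = 0 := by
  obtain ⟨R, hR⟩ := hC.subset_closedBall (0 : X n)
  have hT : ∀ z ∈ C, |z.2| ≤ R := by
    intro z hz
    have h1 := hR hz
    rw [mem_closedBall, dist_zero_right, Prod.norm_def] at h1
    exact (le_max_right _ _).trans h1
  have h1 := poincare_t hp hC hT h
  have h2 : ∫ z, φt z ^ 2 = 0 := by
    have : (fun z => φt z ^ 2) =ᵐ[volume] fun _ => (0 : ℝ) := by
      filter_upwards [h0] with z hz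
      rw [hz]; norm_num
    rw [integral_congr_ae this]
    simp
  rw [h2, mul_zero] at h1
  have i1 : Integrable (fun z => φ z ^ 2) volume := (h.toW0.memLp_fn hC 2).integrable_sq
  have h3 := (integral_eq_zero_iff_of_nonneg (fun z => sq_nonneg (φ z)) i1).1
    (le_antisymm h1 (integral_nonneg fun z => sq_nonneg (φ z)))
  filter_upwards [h3] with z hz
  simpa using hz

theorem zero_of_grad (hn : 0 < n) (hp : 1 < p) {C : Set (X n)} (hC : Bornology.IsBounded C)
    {φ : X n → ℝ} {Φ : X n → E n} (h : W0 p C φ Φ) (h0 : ∀ᵐ z, Φ z = 0) :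
    ∀ᵐ z, φ z = 0 := by
  let L : X n →L[ℝ] ℝ := (EuclideanSpace.proj (⟨0, hn⟩ : Fin n)).comp
    (ContinuousLinearMap.fst ℝ (E n) ℝ)
  have hL : ContDiff ℝ ∞ (fun z : X n => L z) := L.contDiff
  have hdx : ∀ z : X n, dx (fun z : X n => L z) z = dx (fun z : X n => L z) 0 := by
    intro z
    refine ext_inner_right ℝ fun v => ?_
    rw [dx_eq hL, dx_eq hL, L.fderiv, L.fderiv]
  have hne : dx (fun z : X n => L z) 0 ≠ 0 := by
    intro h1
    have h2 := dx_eq hL 0 (EuclideanSpace.single (⟨0, hn⟩ : Fin n) (1 : ℝ))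
    rw [h1, inner_zero_left, L.fderiv] at h2
    have h3 : L (EuclideanSpace.single (⟨0, hn⟩ : Fin n) (1 : ℝ), 0) = 1 := by
      simp [L]
    rw [h3] at h2
    exact zero_ne_one h2
  set e := dx (fun z : X n => L z) 0 with he
  have hψ := h.smooth_mul hp hC hL
  have h1 := poi_grad hp hC (h.mul hp hC hψ)
  have h2 : ∫ z, φ z • ((fun z => L z) z • Φ z + φ z • dx (fun z => L z) z) +
      ((fun z => L z) z * φ z) • Φ z = ∫ z, (φ z ^ 2) • e := by
    apply integral_congr_ae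
    filter_upwards [h0] with z hz
    rw [hz, hdx z]
    simp only [smul_zero, zero_add, add_zero]
    rw [smul_smul, sq]
  rw [h2, integral_smul_const] at h1
  have h3 : ∫ z, φ z ^ 2 = 0 := (smul_eq_zero.1 h1).resolve_right hne
  have i1 : Integrable (fun z => φ z ^ 2) volume := (h.memLp_fn hC 2).integrable_sq
  have h4 := (integral_eq_zero_iff_of_nonneg (fun z => sq_nonneg (φ z)) i1).1 h3
  filter_upwards [h4] with z hz
  simpa using hz

theorem poi_shift (y : E n) (g : X n → ENNReal) :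
    ∫⁻ z : X n, g (z.1 + y, z.2) = ∫⁻ z, g z := by
  have := AVG1_haar (n := n)
  have h1 := lintegral_add_right_eq_self (μ := (volume : Measure (X n))) g (y, (0 : ℝ))
  rw [← h1]
  apply lintegral_congr
  intro z
  have h3 : z + (y, (0 : ℝ)) = (z.1 + y, z.2) := by
    ext1
    · simp
    · simp
  rw [h3]

/-- translation estimate for smooth functions -/
theorem poi_smooth (hp : 1 < p) {f : X n → ℝ} (hf : ContDiff ℝ ∞ f) (y : E n) :
    ∫⁻ z : X n, ‖f (z.1 + y, z.2) - f z‖ₑ ^ p ≤ ‖y‖ₑ ^ p * ∫⁻ z, ‖dx f z‖ₑ ^ p := by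
  have hp0 : 0 ≤ p := by linarith
  have hdxc : Continuous (dx f) := (contDiff_dx hf).continuous
  have hprob : IsProbabilityMeasure (volume.restrict (Ioc (0 : ℝ) 1)) := by
    constructor
    rw [Measure.restrict_apply_univ, Real.volume_Ioc]
    simp
  have hFTC : ∀ z : X n, f (z.1 + y, z.2) - f z =
      ∫ s in (0 : ℝ)..1, inner ℝ (dx f (z.1 + s • y, z.2)) y := by
    intro z
    have hd : ∀ s ∈ uIcc (0 : ℝ) 1, HasDerivAt (fun s : ℝ => f (z.1 + s • y, z.2))
        (inner ℝ (dx f (z.1 + s • y, z.2)) y) s := by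
      intro s _
      rw [dx_eq hf]
      have h1 : HasFDerivAt f (fderiv ℝ f (z.1 + s • y, z.2)) (z.1 + s • y, z.2) :=
        (hf.differentiable (by simp)).differentiableAt.hasFDerivAt
      have h2 : HasDerivAt (fun s : ℝ => ((z.1 + s • y, z.2) : X n)) (y, 0) s := by
        have h3 : HasDerivAt (fun s : ℝ => z.1 + s • y) y s := by
          simpa using ((hasDerivAt_id s).smul_const y).const_add z.1
        exact h3.prodMk (hasDerivAt_const s z.2)
      exact h1.comp_hasDerivAt s h2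
    have hint : IntervalIntegrable (fun s : ℝ => inner ℝ (dx f (z.1 + s • y, z.2)) y) volume 0 1 := by
      apply Continuous.intervalIntegrable
      exact (hdxc.comp (by fun_prop)).inner continuous_const
    rw [intervalIntegral.integral_eq_sub_of_hasDerivAt hd hint]
    simp
  have hcont2 : Continuous (fun q : X n × ℝ => dx f (q.1.1 + q.2 • y, q.1.2)) :=
    hdxc.comp (by fun_prop)
  have hpt : ∀ z : X n, ‖f (z.1 + y, z.2) - f z‖ₑ ^ p ≤
      ∫⁻ s in Ioc (0 : ℝ) 1, ‖y‖ₑ ^ p * ‖dx f (z.1 + s • y, z.2)‖ₑ ^ p := by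
    intro z
    have hc : Continuous (fun s : ℝ => inner ℝ (dx f (z.1 + s • y, z.2)) y) :=
      (hdxc.comp (by fun_prop)).inner continuous_const
    have h1 : ‖f (z.1 + y, z.2) - f z‖ₑ ≤
        ∫⁻ s in Ioc (0 : ℝ) 1, ‖(inner ℝ (dx f (z.1 + s • y, z.2)) y : ℝ)‖ₑ := by
      rw [hFTC z, intervalIntegral.integral_of_le zero_le_one]
      exact enorm_integral_le_lintegral_enorm _
    calc ‖f (z.1 + y, z.2) - f z‖ₑ ^ p
        ≤ (∫⁻ s in Ioc (0 : ℝ) 1, ‖(inner ℝ (dx f (z.1 + s • y, z.2)) y : ℝ)‖ₑ) ^ p :=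
          ENNReal.rpow_le_rpow h1 hp0
      _ ≤ ∫⁻ s in Ioc (0 : ℝ) 1, ‖(inner ℝ (dx f (z.1 + s • y, z.2)) y : ℝ)‖ₑ ^ p :=
          AVG1_jensen hp.le hc.aestronglyMeasurable
      _ ≤ ∫⁻ s in Ioc (0 : ℝ) 1, ‖y‖ₑ ^ p * ‖dx f (z.1 + s • y, z.2)‖ₑ ^ p := by
          apply lintegral_mono
          intro s
          simp only
          rw [← ENNReal.mul_rpow_of_nonneg _ _ hp0]
          apply ENNReal.rpow_le_rpow _ hp0
          rw [← ofReal_norm, ← ofReal_norm, ← ofReal_norm,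
            ← ENNReal.ofReal_mul (norm_nonneg _)]
          apply ENNReal.ofReal_le_ofReal
          rw [mul_comm]
          exact norm_inner_le_norm _ _
  calc ∫⁻ z : X n, ‖f (z.1 + y, z.2) - f z‖ₑ ^ p
      ≤ ∫⁻ z : X n, ∫⁻ s in Ioc (0 : ℝ) 1, ‖y‖ₑ ^ p * ‖dx f (z.1 + s • y, z.2)‖ₑ ^ p :=
        lintegral_mono hpt
    _ = ∫⁻ s in Ioc (0 : ℝ) 1, ∫⁻ z : X n, ‖y‖ₑ ^ p * ‖dx f (z.1 + s • y, z.2)‖ₑ ^ p := by
        apply lintegral_lintegral_swap
        apply AEMeasurable.const_mul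
        exact (hcont2.enorm.measurable.pow_const p).aemeasurable
    _ = ∫⁻ s in Ioc (0 : ℝ) 1, ‖y‖ₑ ^ p * ∫⁻ z : X n, ‖dx f z‖ₑ ^ p := by
        apply lintegral_congr
        intro s
        rw [lintegral_const_mul' _ _ (by finiteness)]
        rw [poi_shift (s • y) (fun z => ‖dx f z‖ₑ ^ p)]
    _ = ‖y‖ₑ ^ p * ∫⁻ z, ‖dx f z‖ₑ ^ p := by
        rw [setLIntegral_const, Real.volume_Ioc]
        simp

/-- translation estimate in space -/
theorem trx (hp : 1 < p) {C : Set (X n)} (hC : Bornology.IsBounded C)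
    {φ : X n → ℝ} {Φ : X n → E n} (h : W0 p C φ Φ) (y : E n) :
    ∫ z, |φ (z.1 + y, z.2) - φ z| ^ p ≤ ‖y‖ ^ p * ∫ z, ‖Φ z‖ ^ p := by
  have hp0 : 0 < p := by linarith
  have := AVG1_haar (n := n)
  obtain ⟨R, hR⟩ := hC.subset_closedBall (0 : X n)
  obtain ⟨M, hM⟩ := h.bdd
  obtain ⟨f, f1, -, -, f4, f5, -⟩ := mol_W0 hp (isCompact_closedBall (0 : X n) R) isOpen_univ
    (subset_univ _) (h.mono hR) hM
  set q := ENNReal.ofReal p with hq
  have hq0 : q ≠ 0 := by
    rw [hq, Ne, ENNReal.ofReal_eq_zero]; linarith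
  have hqt : q ≠ ⊤ := ENNReal.ofReal_ne_top
  have hq1 : 1 ≤ q := by
    rw [hq, ← ENNReal.ofReal_one]; exact ENNReal.ofReal_le_ofReal hp.le
  have hqr : q.toReal = p := ENNReal.toReal_ofReal hp0.le
  have hpow : ∀ g : X n → E n, eLpNorm g q volume ^ p = ∫⁻ z, ‖g z‖ₑ ^ p := by
    intro g
    rw [eLpNorm_eq_lintegral_rpow_enorm_toReal hq0 hqt, hqr, ← ENNReal.rpow_mul, one_div,
      inv_mul_cancel₀ hp0.ne', ENNReal.rpow_one]
  have mdx : ∀ k, MemLp (dx (f k)) q volume := fun k => (tst_W1 hp (f1 k)).mem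
  -- convergence in L^p
  have hconv : Tendsto (fun k => eLpNorm (fun z => dx (f k) z - Φ z) q volume) atTop (𝓝 0) := by
    have h1 : ∀ k, eLpNorm (fun z => dx (f k) z - Φ z) q volume =
        ENNReal.ofReal ((∫ z, ‖dx (f k) z - Φ z‖ ^ p) ^ p⁻¹) := by
      intro k
      have := ((mdx k).sub h.mem).eLpNorm_eq_integral_rpow_norm hq0 hqt
      rw [hqr] at this
      exact this
    simp only [h1]
    rw [← ENNReal.ofReal_zero]
    apply ENNReal.tendsto_ofReal
    have h2 := f5.rpow_const (p := p⁻¹) (Or.inr (by positivity))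
    rwa [Real.zero_rpow (by positivity)] at h2
  -- measurability of the shifted function
  have hqmp : MeasurePreserving (fun z : X n => z + (y, (0 : ℝ))) volume volume :=
    measurePreserving_add_right (volume : Measure (X n)) (y, (0 : ℝ))
  have hsh : ∀ z : X n, z + (y, (0 : ℝ)) = (z.1 + y, z.2) := by
    intro z
    ext1
    · simp
    · simp
  simp only [hsh] at hqmp
  have f4' : ∀ᵐ z : X n, Tendsto (fun k => f k (z.1 + y, z.2)) atTop (𝓝 (φ (z.1 + y, z.2))) :=
    hqmp.quasiMeasurePreserving.ae f4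
  have hfatou : ∫⁻ z : X n, ‖φ (z.1 + y, z.2) - φ z‖ₑ ^ p ≤
      liminf (fun k => ∫⁻ z : X n, ‖f k (z.1 + y, z.2) - f k z‖ₑ ^ p) atTop := by
    calc ∫⁻ z : X n, ‖φ (z.1 + y, z.2) - φ z‖ₑ ^ p
        = ∫⁻ z : X n, liminf (fun k => ‖f k (z.1 + y, z.2) - f k z‖ₑ ^ p) atTop := by
          apply lintegral_congr_ae
          filter_upwards [f4, f4'] with z h1 h2
          have h3 : Tendsto (fun k => ‖f k (z.1 + y, z.2) - f k z‖ₑ ^ p) atTop
              (𝓝 (‖φ (z.1 + y, z.2) - φ z‖ₑ ^ p)) := by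
            have h4 := (h2.sub h1).enorm
            exact ((ENNReal.continuous_rpow_const (y := p)).tendsto _).comp h4
          exact h3.liminf_eq.symm
      _ ≤ liminf (fun k => ∫⁻ z : X n, ‖f k (z.1 + y, z.2) - f k z‖ₑ ^ p) atTop := by
          apply lintegral_liminf_le'
          intro k
          have hc : Continuous (fun z : X n => f k (z.1 + y, z.2) - f k z) :=
            ((f1 k).smooth.continuous.comp (by fun_prop)).sub (f1 k).smooth.continuous
          exact (hc.enorm.measurable.pow_const p).aemeasurable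
  have hupper : ∀ k, ∫⁻ z : X n, ‖f k (z.1 + y, z.2) - f k z‖ₑ ^ p ≤
      ‖y‖ₑ ^ p * (eLpNorm (fun z => dx (f k) z - Φ z) q volume + eLpNorm Φ q volume) ^ p := by
    intro k
    refine (poi_smooth hp (f1 k).smooth y).trans ?_
    rw [← hpow]
    gcongr
    have h1 : dx (f k) = (fun z => dx (f k) z - Φ z) + Φ := by
      funext z
      simp
    calc eLpNorm (dx (f k)) q volume = eLpNorm ((fun z => dx (f k) z - Φ z) + Φ) q volume := by
          rw [← h1]
      _ ≤ _ := eLpNorm_add_le ((mdx k).sub h.mem).1 h.mem.1 hq1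
  have hlim : Tendsto (fun k => ‖y‖ₑ ^ p * (eLpNorm (fun z => dx (f k) z - Φ z) q volume +
      eLpNorm Φ q volume) ^ p) atTop (𝓝 (‖y‖ₑ ^ p * (eLpNorm Φ q volume) ^ p)) := by
    apply ENNReal.Tendsto.const_mul _ (Or.inr (by finiteness))
    have h1 := hconv.add (tendsto_const_nhds (x := eLpNorm Φ q volume))
    rw [zero_add] at h1
    exact ((ENNReal.continuous_rpow_const (y := p)).tendsto _).comp h1
  have hmain : ∫⁻ z : X n, ‖φ (z.1 + y, z.2) - φ z‖ₑ ^ p ≤
      ‖y‖ₑ ^ p * ∫⁻ z, ‖Φ z‖ₑ ^ p := by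
    rw [← hpow]
    refine hfatou.trans ?_
    rw [← hlim.liminf_eq]
    exact liminf_le_liminf (Eventually.of_forall hupper)
  -- back to real numbers
  have hm1 : AEStronglyMeasurable (fun z : X n => φ (z.1 + y, z.2) - φ z) volume :=
    (h.meas.comp_quasiMeasurePreserving hqmp.quasiMeasurePreserving).sub h.meas
  have h1 := AVG1_toReal hp.le hm1
  have h2 := AVG1_toReal hp.le h.mem.1
  have h3 : ∫⁻ z, ‖Φ z‖ₑ ^ p < ⊤ := (AVG1_memLp_iff hp.le h.mem.1).1 h.mem
  simp only [Real.norm_eq_abs] at h1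
  rw [h1, h2]
  have h4 : ‖y‖ ^ p = (‖y‖ₑ ^ p).toReal := by
    rw [← ENNReal.toReal_rpow, toReal_enorm]
  rw [h4, ← ENNReal.toReal_mul]
  exact ENNReal.toReal_mono (by finiteness) hmain

end PP
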