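import Pool.Agent.PP.CAL2
import Pool.Agent.PP.POI
import Pool.Agent.PP.LPS

open Set Metric Filter Topology MeasureTheory
open scoped ContDiff

noncomputable section

namespace PP

variable {n : ℕ}
variable {p : ℝ}

theorem cmp_int (hp : 1 < p) {C : Set (X n)} (hC : Bornology.IsBounded C) (ε : ℝ) {F : X n → ℝ}
    (hF : Tst univ F) {z zt φ φt : X n → ℝ} {G Φ : X n → E n} (h : W1 p C z zt G)
    (h' : W1 p C φ φt Φ) :
    Integrable (fun y => ε * ((dt F y + zt y) * φt y) + (dt F y + zt y) * φ y +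
      inner ℝ (A p (dx F y + G y)) (Φ y)) := by
  have hFW := tst_W1 hp hF
  have h1 : MemLp (fun y => dt F y + zt y) 2 volume := hFW.memt.add h.memt
  have h2 : MemLp φ 2 volume := h'.toW0.memLp_fn hC 2
  have h3 : MemLp (fun y => dx F y + G y) (ENNReal.ofReal p) volume := hFW.mem.add h.mem
  have h4 := (holder_inner hp (memLp_flux hp h3) h'.mem).1
  exact (((h1.integrable_mul h'.memt).const_mul ε).add (h1.integrable_mul h2)).add h4

theorem cmp_fin (hp : 1 < p) {C : Set (X n)} (hC : Bornology.IsBounded C) {ε : ℝ} (hε : 0 < ε)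
    {φ φt : X n → ℝ} {Φ : X n → E n} (h : W1 p C φ φt Φ) {a b : X n → ℝ}
    (ha : Integrable a) (hb : Integrable b) (ha0 : 0 ≤ ∫ y, a y) (hb0 : 0 ≤ ∫ y, b y)
    (hab : ∀ᵐ y, a y + b y ≤ - (ε * φt y ^ 2) - φt y * φ y) :
    ∀ᵐ y, φ y = 0 := by
  have hφ : MemLp φ 2 volume := h.toW0.memLp_fn hC 2
  have i1 : Integrable (fun y => φt y ^ 2) := h.memt.integrable_sq
  have i2 : Integrable (fun y => φt y * φ y) := h.memt.integrable_mul hφ
  have e1 : ∫ y, φt y * φ y = 0 := by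
    have := int_time hp hC h h
    have e : ∫ z, φ z * φt z = ∫ z, φt z * φ z := by
      congr 1; funext z; ring
    rw [e] at this
    linarith
  have e2 : 0 ≤ ∫ y, (- (ε * φt y ^ 2) - φt y * φ y) := by
    calc (0 : ℝ) ≤ (∫ y, a y) + ∫ y, b y := by linarith
      _ = ∫ y, (a y + b y) := (integral_add ha hb).symm
      _ ≤ _ := integral_mono_ae (ha.add hb) ((i1.const_mul ε).neg.sub i2) hab
  have i3 : Integrable (fun y => - (ε * φt y ^ 2)) := (i1.const_mul ε).neg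
  rw [integral_sub i3 i2, e1, integral_neg, integral_const_mul] at e2
  have e3 : ∫ y, φt y ^ 2 = 0 := by
    have h0 : 0 ≤ ∫ y, φt y ^ 2 := integral_nonneg fun y => sq_nonneg _
    nlinarith
  rw [integral_eq_zero_iff_of_nonneg (fun y => sq_nonneg _) i1] at e3
  refine zero_of_time hp hC h ?_
  filter_upwards [e3] with y hy
  exact pow_eq_zero_iff (two_ne_zero) |>.1 hy

theorem cmp_obs (hp : 1 < p) {C : Set (X n)} (hC : IsCompact C) {ε : ℝ} (hε : 0 < ε)
    {obs₁ obs₂ F : X n → ℝ} (hF : Tst univ F) (h12 : ∀ y, obs₁ y ≤ obs₂ y)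
    {z₁ zt₁ z₂ zt₂ : X n → ℝ} {G₁ G₂ : X n → E n}
    (h₁ : RegSol p ε C obs₁ F z₁ zt₁ G₁) (h₂ : RegSol p ε C obs₂ F z₂ zt₂ G₂) :
    ∀ᵐ y, z₂ y ≤ z₁ y := by
  have hb := hC.isBounded
  have hW := (h₂.w.lin hp hb h₁.w 1 (-1)).pos hp hb
  have hW' := hW.lin hp hb hW (-1) 0
  have v1 := h₁.vi _ _ _ hW ⟨1, one_pos, by
    filter_upwards [h₁.ob] with y hy
    have : 0 ≤ max (1 * z₂ y + -1 * z₁ y) 0 := le_max_right _ _
    linarith⟩
  have v2 := h₂.vi _ _ _ hW' ⟨1, one_pos, by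
    filter_upwards [h₁.ob, h₂.ob] with y hy1 hy2
    have h3 := h12 y
    rcases le_total (1 * z₂ y + -1 * z₁ y) 0 with h | h
    · rw [max_eq_right h]; linarith
    · rw [max_eq_left h]; linarith⟩
  have key := cmp_fin hp hb hε hW (cmp_int hp hb ε hF h₁.w hW) (cmp_int hp hb ε hF h₂.w hW') v1 v2
    (by
      refine Eventually.of_forall fun y => ?_
      by_cases hy : 0 < 1 * z₂ y + -1 * z₁ y
      · simp only [hy, if_true]
        rw [max_eq_left hy.le]
        have h3 := A_mono hp (dx F y + G₂ y) (dx F y + G₁ y)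
        have e3 : dx F y + G₂ y - (dx F y + G₁ y) = (1 : ℝ) • G₂ y + (-1 : ℝ) • G₁ y := by
          rw [one_smul, neg_one_smul]; abel
        rw [e3, inner_sub_left] at h3
        have e4 : ((-1 : ℝ) • ((1 : ℝ) • G₂ y + (-1 : ℝ) • G₁ y) +
            (0 : ℝ) • ((1 : ℝ) • G₂ y + (-1 : ℝ) • G₁ y)) = - ((1 : ℝ) • G₂ y + (-1 : ℝ) • G₁ y) := by
          rw [zero_smul, add_zero, neg_one_smul]
        rw [e4, inner_neg_right]
        nlinarith
      · simp only [hy, if_false]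
        rw [max_eq_right (not_lt.1 hy)]
        simp)
  filter_upwards [key] with y hy
  have h3 : 1 * z₂ y + -1 * z₁ y ≤ max (1 * z₂ y + -1 * z₁ y) 0 := le_max_left _ _
  rw [hy] at h3
  linarith

theorem cmp_dt_neg (F : X n → ℝ) (y : X n) : dt (fun y => - F y) y = - dt F y := by
  unfold dt
  exact deriv.fun_neg

theorem cmp_dx_neg (F : X n → ℝ) (y : X n) : dx (fun y => - F y) y = - dx F y := by
  unfold dx gradient
  rw [show (fun x => - F (x, y.2)) = - (fun x => F (x, y.2)) from rfl, fderiv_neg, map_neg]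

theorem cmp_tst_neg {Ω : Set (X n)} {F : X n → ℝ} (hF : Tst Ω F) : Tst Ω (fun y => - F y) := by
  refine ⟨hF.smooth.neg, hF.cpt.neg, ?_⟩
  have : tsupport (fun y => - F y) = tsupport F := tsupport_neg F
  rw [this]; exact hF.supp

theorem cmp_neg (hp : 1 < p) {C : Set (X n)} (hC : IsCompact C) {ε : ℝ} (hε : 0 < ε)
    {obs₁ obs₂ F : X n → ℝ} (hF : Tst univ F)
    {z₁ zt₁ z₂ zt₂ : X n → ℝ} {G₁ G₂ : X n → E n}
    (h₁ : RegSol p ε C obs₁ F z₁ zt₁ G₁) (h₂ : RegSol p ε C obs₂ (fun y => - F y) z₂ zt₂ G₂) :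
    ∀ᵐ y, 0 ≤ z₁ y + z₂ y := by
  have hb := hC.isBounded
  have hF' := cmp_tst_neg hF
  have hW := (h₁.w.lin hp hb h₂.w (-1) (-1)).pos hp hb
  have v1 := h₁.vi _ _ _ hW ⟨1, one_pos, by
    filter_upwards [h₁.ob] with y hy
    have : 0 ≤ max (-1 * z₁ y + -1 * z₂ y) 0 := le_max_right _ _
    linarith⟩
  have v2 := h₂.vi _ _ _ hW ⟨1, one_pos, by
    filter_upwards [h₂.ob] with y hy
    have : 0 ≤ max (-1 * z₁ y + -1 * z₂ y) 0 := le_max_right _ _
    linarith⟩
  have key := cmp_fin hp hb hε hW (cmp_int hp hb ε hF h₁.w hW) (cmp_int hp hb ε hF' h₂.w hW) v1 v2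
    (by
      refine Eventually.of_forall fun y => ?_
      by_cases hy : 0 < -1 * z₁ y + -1 * z₂ y
      · simp only [hy, if_true, cmp_dt_neg, cmp_dx_neg]
        rw [max_eq_left hy.le]
        have h3 := A_mono hp (dx F y + G₁ y) (dx F y - G₂ y)
        have e3 : dx F y + G₁ y - (dx F y - G₂ y) = - ((-1 : ℝ) • G₁ y + (-1 : ℝ) • G₂ y) := by
          rw [neg_one_smul, neg_one_smul]; abel
        have e5 : - dx F y + G₂ y = - (dx F y - G₂ y) := by abel
        rw [e3, inner_sub_left, inner_neg_right, inner_neg_right] at h3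
        rw [e5, A_neg, inner_neg_left]
        nlinarith
      · simp only [hy, if_false]
        rw [max_eq_right (not_lt.1 hy)]
        simp)
  filter_upwards [key] with y hy
  have h3 : -1 * z₁ y + -1 * z₂ y ≤ max (-1 * z₁ y + -1 * z₂ y) 0 := le_max_left _ _
  rw [hy] at h3
  linarith

end PP
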