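import Pool.Agent.PP.CAL2
import Pool.Agent.PP.POI
import Pool.Agent.PP.LPS

open Set Metric Filter Topology MeasureTheory
open scoped ContDiff

noncomputable section

namespace PP

variable {n : ℕ}
variable {p : ℝ}

theorem ene_young (hp : 1 < p) (a b : ℝ) (ha : 0 ≤ a) (hb : 0 ≤ b) :
    a ^ (p - 1) * b ≤ (1 - 1 / p) * a ^ p + 1 / p * b ^ p := by
  have hp0 : 0 < p := by linarith
  have hq : (p / (p - 1)).HolderConjugate p := by
    refine (Real.HolderConjugate.symm ?_)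
    exact Real.HolderConjugate.conjExponent hp
  have h1 := Real.young_inequality_of_nonneg (Real.rpow_nonneg ha (p - 1)) hb hq
  have hp1 : 0 < p - 1 := by linarith
  have e1 : (a ^ (p - 1)) ^ (p / (p - 1)) = a ^ p := by
    rw [← Real.rpow_mul ha]
    congr 1
    field_simp
  rw [e1] at h1
  calc a ^ (p - 1) * b ≤ a ^ p / (p / (p - 1)) + b ^ p / p := h1
    _ = _ := by field_simp

theorem ene_pow_add (hp : 1 < p) (a b : ℝ) (ha : 0 ≤ a) (hb : 0 ≤ b) :
    (a + b) ^ p ≤ 2 ^ (p - 1) * (a ^ p + b ^ p) := by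
  have h := NNReal.rpow_add_le_mul_rpow_add_rpow ⟨a, ha⟩ ⟨b, hb⟩ hp.le
  exact_mod_cast h

theorem ene_pt (hp : 1 < p) (a g : E n) :
    2 ^ (1 - p) / p * ‖g‖ ^ p - 2 / p * ‖a‖ ^ p ≤ inner ℝ (A p (a + g)) g := by
  have hp0 : 0 < p := by linarith
  have e1 : inner ℝ (A p (a + g)) g = ‖a + g‖ ^ p - inner ℝ (A p (a + g)) a := by
    have := pw1_inner_self hp (a + g)
    rw [inner_add_right] at this
    linarith
  have h2 := pw1_inner_le hp (a + g) a
  have h3 := ene_young hp ‖a + g‖ ‖a‖ (norm_nonneg _) (norm_nonneg _)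
  have h4 : ‖g‖ ≤ ‖a + g‖ + ‖a‖ := by
    calc ‖g‖ = ‖(a + g) - a‖ := by congr 1; abel
      _ ≤ _ := norm_sub_le _ _
  have h5 : ‖g‖ ^ p ≤ 2 ^ (p - 1) * (‖a + g‖ ^ p + ‖a‖ ^ p) :=
    (Real.rpow_le_rpow (norm_nonneg _) h4 hp0.le).trans
      (ene_pow_add hp _ _ (norm_nonneg _) (norm_nonneg _))
  have h6 : (2:ℝ) ^ (1 - p) * 2 ^ (p - 1) = 1 := by
    rw [← Real.rpow_add (by norm_num : (0:ℝ) < 2)]
    norm_num
  have h7 : (2:ℝ) ^ (1 - p) * ‖g‖ ^ p ≤ ‖a + g‖ ^ p + ‖a‖ ^ p := by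
    calc (2:ℝ) ^ (1 - p) * ‖g‖ ^ p ≤ 2 ^ (1 - p) * (2 ^ (p - 1) * (‖a + g‖ ^ p + ‖a‖ ^ p)) :=
          mul_le_mul_of_nonneg_left h5 (by positivity)
      _ = _ := by rw [← mul_assoc, h6, one_mul]
  have h8 : 1 / p * ((2:ℝ) ^ (1 - p) * ‖g‖ ^ p) ≤ 1 / p * (‖a + g‖ ^ p + ‖a‖ ^ p) :=
    mul_le_mul_of_nonneg_left h7 (by positivity)
  have e2 : (2:ℝ) ^ (1 - p) / p * ‖g‖ ^ p - 2 / p * ‖a‖ ^ p =
      1 / p * ((2:ℝ) ^ (1 - p) * ‖g‖ ^ p) - 1 / p * ‖a‖ ^ p - 1 / p * ‖a‖ ^ p := by ring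
  rw [e1, e2]
  nlinarith

theorem ene (hp : 1 < p) {Θ : Set (X n)} (hb : Bornology.IsBounded Θ) {F : X n → ℝ}
    (hF : Tst univ F) (M : ℝ) :
    ∃ K : ℝ, ∀ (ε : ℝ) (C : Set (X n)) (obs z zt : X n → ℝ) (G : X n → E n), 0 < ε → ε ≤ 1 →
      IsCompact C → C ⊆ Θ → (∀ y, 0 ≤ obs y) → RegSol p ε C obs F z zt G → (∀ᵐ y, |z y| ≤ M) →
      ε * (∫ y, zt y ^ 2) + ∫ y, ‖G y‖ ^ p ≤ K := by
  have hp0 : 0 < p := by linarith
  have hFW := tst_W1 hp hF
  obtain ⟨c1, s1, c2, s2⟩ := der_tst_int hF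
  have iF2 : Integrable (fun y => dt F y ^ 2) := hFW.memt.integrable_sq
  have iF1 : Integrable (fun y => dt F y) := c2.integrable_of_hasCompactSupport s2
  have iFx : Integrable (fun y => ‖dx F y‖ ^ p) := by
    have := hFW.mem.integrable_norm_rpow (by simpa using hp0) (by simp)
    rwa [ENNReal.toReal_ofReal hp0.le] at this
  set c : ℝ := 2 ^ (1 - p) / p with hc
  have hc0 : 0 < c := by positivity
  set K₀ : ℝ := (∫ y, dt F y ^ 2) / 2 + |M| * (∫ y, |dt F y|) + 2 / p * ∫ y, ‖dx F y‖ ^ p with hK₀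
  have hK₀0 : 0 ≤ K₀ := by
    have h1 : 0 ≤ ∫ y, dt F y ^ 2 := integral_nonneg fun y => sq_nonneg _
    have h2 : 0 ≤ ∫ y, |dt F y| := integral_nonneg fun y => abs_nonneg _
    have h3 : 0 ≤ ∫ y, ‖dx F y‖ ^ p := integral_nonneg fun y => by positivity
    positivity
  refine ⟨2 * K₀ + K₀ / c, ?_⟩
  intro ε C obs z zt G hε hε1 hC hCΘ hobs h hM
  have hbC := hC.isBounded
  have hz2 : MemLp z 2 volume := h.w.toW0.memLp_fn hbC 2
  have hz1 : MemLp z 1 volume := h.w.toW0.memLp_fn hbC 1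
  have hW := h.w.lin hp hbC h.w (-1) 0
  have v1 := h.vi _ _ _ hW ⟨1, one_pos, by
    filter_upwards with y
    have := hobs y
    linarith⟩
  have iG : Integrable (fun y => ‖G y‖ ^ p) := by
    have := h.w.mem.integrable_norm_rpow (by simpa using hp0) (by simp)
    rwa [ENNReal.toReal_ofReal hp0.le] at this
  have izt2 : Integrable (fun y => zt y ^ 2) := h.w.memt.integrable_sq
  have iztz : Integrable (fun y => zt y * z y) := h.w.memt.integrable_mul hz2
  have iFzt : Integrable (fun y => dt F y * zt y) := hFW.memt.integrable_mul h.w.memt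
  have iFz : Integrable (fun y => dt F y * z y) := hFW.memt.integrable_mul hz2
  have h3 : MemLp (fun y => dx F y + G y) (ENNReal.ofReal p) volume := hFW.mem.add h.w.mem
  have iA : Integrable (fun y => inner ℝ (A p (dx F y + G y)) (G y)) :=
    (holder_inner hp (memLp_flux hp h3) h.w.mem).1
  have e1 : ∫ y, zt y * z y = 0 := by
    have := int_time hp hbC h.w h.w
    have e : ∫ y, z y * zt y = ∫ y, zt y * z y := by
      congr 1; funext y; ring
    rw [e] at this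
    linarith
  -- pointwise bound of the integrand
  have hpt : ∀ᵐ y, ε * ((dt F y + zt y) * (-1 * zt y + 0 * zt y)) +
      (dt F y + zt y) * (-1 * z y + 0 * z y) +
      inner ℝ (A p (dx F y + G y)) ((-1 : ℝ) • G y + (0 : ℝ) • G y) ≤
      dt F y ^ 2 / 2 - ε / 2 * zt y ^ 2 + |M| * |dt F y| - zt y * z y -
        c * ‖G y‖ ^ p + 2 / p * ‖dx F y‖ ^ p := by
    filter_upwards [hM] with y hy
    have e2 : ((-1 : ℝ) • G y + (0 : ℝ) • G y) = - G y := by
      rw [zero_smul, add_zero, neg_one_smul]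
    rw [e2, inner_neg_right]
    have h4 := ene_pt hp (dx F y) (G y)
    rw [← hc] at h4
    have h5 : - (dt F y * z y) ≤ |M| * |dt F y| := by
      calc - (dt F y * z y) ≤ |dt F y * z y| := neg_le_abs _
        _ = |z y| * |dt F y| := by rw [abs_mul, mul_comm]
        _ ≤ |M| * |dt F y| := mul_le_mul_of_nonneg_right (hy.trans (le_abs_self _)) (abs_nonneg _)
    have h6 : - (ε * (dt F y * zt y)) ≤ dt F y ^ 2 / 2 + ε / 2 * zt y ^ 2 := by
      have h7 : 0 ≤ (dt F y + zt y) ^ 2 := sq_nonneg _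
      have h8 : 0 ≤ dt F y ^ 2 := sq_nonneg _
      nlinarith
    nlinarith
  have iR : Integrable (fun y => dt F y ^ 2 / 2 - ε / 2 * zt y ^ 2 + |M| * |dt F y| - zt y * z y -
        c * ‖G y‖ ^ p + 2 / p * ‖dx F y‖ ^ p) :=
    (((((iF2.div_const 2).sub (izt2.const_mul (ε / 2))).add (iF1.abs.const_mul |M|)).sub iztz).sub
      (iG.const_mul c)).add (iFx.const_mul (2 / p))
  have iL : Integrable (fun y => ε * ((dt F y + zt y) * (-1 * zt y + 0 * zt y)) +
      (dt F y + zt y) * (-1 * z y + 0 * z y) +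
      inner ℝ (A p (dx F y + G y)) ((-1 : ℝ) • G y + (0 : ℝ) • G y)) := by
    have h1 : MemLp (fun y => dt F y + zt y) 2 volume := hFW.memt.add h.w.memt
    have h2 : MemLp (fun y => -1 * z y + 0 * z y) 2 volume := hW.toW0.memLp_fn hbC 2
    have h4 := (holder_inner hp (memLp_flux hp h3) hW.mem).1
    exact (((h1.integrable_mul hW.memt).const_mul ε).add (h1.integrable_mul h2)).add h4
  have e3 := v1.trans (integral_mono_ae iL iR hpt)
  have e4 : ∫ y, (dt F y ^ 2 / 2 - ε / 2 * zt y ^ 2 + |M| * |dt F y| - zt y * z y -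
        c * ‖G y‖ ^ p + 2 / p * ‖dx F y‖ ^ p) =
      K₀ - ε / 2 * (∫ y, zt y ^ 2) - c * ∫ y, ‖G y‖ ^ p := by
    have j1 : Integrable (fun y => dt F y ^ 2 / 2) := iF2.div_const 2
    have j2 : Integrable (fun y => ε / 2 * zt y ^ 2) := izt2.const_mul _
    have j3 : Integrable (fun y => |M| * |dt F y|) := iF1.abs.const_mul _
    have j4 : Integrable (fun y => c * ‖G y‖ ^ p) := iG.const_mul _
    have j5 : Integrable (fun y => 2 / p * ‖dx F y‖ ^ p) := iFx.const_mul _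
    have k1 : Integrable (fun y => dt F y ^ 2 / 2 - ε / 2 * zt y ^ 2) := j1.sub j2
    have k2 : Integrable (fun y => dt F y ^ 2 / 2 - ε / 2 * zt y ^ 2 + |M| * |dt F y|) := k1.add j3
    have k3 : Integrable (fun y => dt F y ^ 2 / 2 - ε / 2 * zt y ^ 2 + |M| * |dt F y| -
      zt y * z y) := k2.sub iztz
    have k4 : Integrable (fun y => dt F y ^ 2 / 2 - ε / 2 * zt y ^ 2 + |M| * |dt F y| -
      zt y * z y - c * ‖G y‖ ^ p) := k3.sub j4
    rw [integral_add k4 j5, integral_sub k3 j4, integral_sub k2 iztz, integral_add k1 j3,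
      integral_sub j1 j2, e1, integral_div, integral_const_mul, integral_const_mul,
      integral_const_mul, integral_const_mul, hK₀]
    ring
  rw [e4] at e3
  have hz0 : 0 ≤ ∫ y, zt y ^ 2 := integral_nonneg fun y => sq_nonneg _
  have hG0 : 0 ≤ ∫ y, ‖G y‖ ^ p := integral_nonneg fun y => by positivity
  have f1 : ε * (∫ y, zt y ^ 2) ≤ 2 * K₀ := by nlinarith
  have f2 : (∫ y, ‖G y‖ ^ p) ≤ K₀ / c := by
    rw [le_div_iff₀ hc0]
    nlinarith
  linarith

end PP
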