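import Pool.Agent.PP.AVG1

open Set Metric Filter Topology MeasureTheory
open scoped ContDiff

set_option linter.unusedSectionVars false

noncomputable section

namespace PP

variable {n : ℕ}

attribute [local instance] AVG1_haar

/-- local equicontinuity of translations in `L¹` -/
def EquiL (Θ : Set (X n)) (f : ℕ → X n → ℝ) : Prop :=
  ∀ K, IsCompact K → K ⊆ Θ → ∀ δ > 0, ∃ r > 0, ∀ᶠ k in atTop, ∀ y : X n, ‖y‖ < r →
    ∫ z in K, |f k (z + y) - f k z| ≤ δ

/-- Diagonal extraction for equi-Lipschitz families. -/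
theorem CPT_diag {Y : Type*} [PseudoMetricSpace Y] [TopologicalSpace.SeparableSpace Y]
    [Nonempty Y] (T : ℕ → ℕ → Y → ℝ) (L : ℝ)
    (hL : ∀ i k y y', |T i k y - T i k y'| ≤ L * dist y y') (b : Y → ℝ)
    (hb : ∀ i k y, |T i k y| ≤ b y) :
    ∃ κ : ℕ → ℕ, StrictMono κ ∧ ∀ i y, ∃ l, Tendsto (fun k => T i (κ k) y) atTop (𝓝 l) := by
  let d := TopologicalSpace.denseSeq Y
  let S : ℕ → (ℕ × ℕ → ℝ) := fun k p => T p.1 k (d p.2)
  have hS : IsCompact (Set.pi univ fun p : ℕ × ℕ => Icc (-b (d p.2)) (b (d p.2))) :=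
    isCompact_univ_pi fun p => isCompact_Icc
  have hSm : ∀ k, S k ∈ Set.pi univ fun p : ℕ × ℕ => Icc (-b (d p.2)) (b (d p.2)) := by
    intro k p _
    exact abs_le.1 (hb p.1 k (d p.2))
  obtain ⟨a, -, κ, hκ, ha⟩ := hS.tendsto_subseq hSm
  refine ⟨κ, hκ, fun i y => ?_⟩
  apply cauchySeq_tendsto_of_complete
  rw [Metric.cauchySeq_iff']
  intro ε hε
  -- choose `d j` close to `y`
  have hL' : 0 ≤ |L| := abs_nonneg L
  obtain ⟨j, hj⟩ : ∃ j, dist y (d j) < ε / (4 * (|L| + 1)) :=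
    (TopologicalSpace.denseRange_denseSeq Y).exists_dist_lt y (by positivity)
  have hj2 : L * dist y (d j) ≤ ε / 4 := by
    calc L * dist y (d j) ≤ (|L| + 1) * dist y (d j) := by
          apply mul_le_mul_of_nonneg_right _ dist_nonneg
          linarith [le_abs_self L]
      _ ≤ (|L| + 1) * (ε / (4 * (|L| + 1))) := by
          apply mul_le_mul_of_nonneg_left hj.le; positivity
      _ = ε / 4 := by field_simp
  have h1 : Tendsto (fun k => T i (κ k) (d j)) atTop (𝓝 (a (i, j))) := by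
    have := (tendsto_pi_nhds.1 ha) (i, j)
    exact this
  obtain ⟨N, hN⟩ := (Metric.cauchySeq_iff'.1 h1.cauchySeq) (ε / 4) (by positivity)
  refine ⟨N, fun k hk => ?_⟩
  have h2 := hN k hk
  rw [Real.dist_eq] at h2 ⊢
  have h3 := hL i (κ k) y (d j)
  have h4 := hL i (κ N) y (d j)
  have h5 : T i (κ k) y - T i (κ N) y = (T i (κ k) y - T i (κ k) (d j)) +
      (T i (κ k) (d j) - T i (κ N) (d j)) - (T i (κ N) y - T i (κ N) (d j)) := by ring
  rw [h5]
  have h6 := abs_add_le (T i (κ k) y - T i (κ k) (d j)) (T i (κ k) (d j) - T i (κ N) (d j))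
  have h7 := abs_sub (T i (κ k) y - T i (κ k) (d j) +
      (T i (κ k) (d j) - T i (κ N) (d j))) (T i (κ N) y - T i (κ N) (d j))
  linarith

/-- Weak convergence of a subsequence: countably many bounded sequences. -/
theorem CPT_weak {M : ℝ} {f : ℕ → ℕ → X n → ℝ} (hm : ∀ i k, Measurable (f i k))
    (hM : ∀ i k z, |f i k z| ≤ M) :
    ∃ κ : ℕ → ℕ, StrictMono κ ∧ ∀ i (φ : X n → ℝ), Integrable φ →
      ∃ l, Tendsto (fun k => ∫ z, f i (κ k) z * φ z) atTop (𝓝 l) := by
  have hint : ∀ i k (φ : X n → ℝ), Integrable φ → Integrable fun z => f i k z * φ z := by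
    intro i k φ hφ
    exact hφ.bdd_mul (hm i k).aestronglyMeasurable (c := M)
      (Eventually.of_forall fun z => hM i k z)
  have hest : ∀ i k (φ : X n → ℝ), Integrable φ →
      |∫ z, f i k z * φ z| ≤ M * ∫ z, |φ z| := by
    intro i k φ hφ
    rw [← integral_const_mul]
    refine (abs_integral_le_integral_abs).trans ?_
    refine integral_mono (hint i k φ hφ).abs (hφ.abs.const_mul M) ?_
    intro z
    simp only [abs_mul]
    exact mul_le_mul_of_nonneg_right (hM i k z) (abs_nonneg _)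
  have hfact : Fact ((1 : ENNReal) ≤ 1) := ⟨le_refl _⟩
  have hfact2 : Fact ((1 : ENNReal) ≠ ⊤) := ⟨ENNReal.one_ne_top⟩
  obtain ⟨κ, hκ, h1⟩ := CPT_diag (Y := Lp ℝ 1 (volume : Measure (X n)))
    (fun i k φ => ∫ z, f i k z * φ z) M (by
      intro i k φ ψ
      have h2 : Integrable (φ : X n → ℝ) := L1.integrable_coeFn φ
      have h3 : Integrable (ψ : X n → ℝ) := L1.integrable_coeFn ψ
      rw [← integral_sub (hint i k _ h2) (hint i k _ h3)]
      have h4 : ∀ z, f i k z * φ z - f i k z * ψ z = f i k z * (φ z - ψ z) := fun z => by ring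
      simp only [h4]
      refine (hest i k _ (h2.sub h3)).trans (le_of_eq ?_)
      congr 1
      rw [dist_eq_norm, L1.norm_eq_integral_norm]
      apply integral_congr_ae
      filter_upwards [Lp.coeFn_sub φ ψ] with z hz
      rw [hz]
      rfl) (fun φ => M * ∫ z, |φ z|) (by
      intro i k φ
      exact hest i k _ (L1.integrable_coeFn φ))
  refine ⟨κ, hκ, fun i φ hφ => ?_⟩
  obtain ⟨l, hl⟩ := h1 i (hφ.toL1 φ)
  refine ⟨l, hl.congr fun k => ?_⟩
  apply integral_congr_ae
  filter_upwards [hφ.coeFn_toL1] with z hz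
  rw [hz]

/-- The uniform probability on a ball. -/
def CPT_nu (n : ℕ) (r : ℝ) : Measure (X n) :=
  (volume (ball (0 : X n) r))⁻¹ • volume.restrict (ball (0 : X n) r)

theorem CPT_nu_prob {r : ℝ} (hr : 0 < r) : IsProbabilityMeasure (CPT_nu n r) := by
  constructor
  rw [CPT_nu, Measure.smul_apply, Measure.restrict_apply_univ, smul_eq_mul]
  apply ENNReal.inv_mul_cancel
  · exact (measure_ball_pos _ _ hr).ne'
  · exact measure_ball_lt_top.ne

/-- The ball averages converge at every point. -/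
theorem CPT_avg {f : ℕ → X n → ℝ} {κ : ℕ → ℕ} {r : ℝ}
    (h : ∀ φ : X n → ℝ, Integrable φ →
      ∃ l, Tendsto (fun k => ∫ z, f (κ k) z * φ z) atTop (𝓝 l)) (z : X n) :
    ∃ l, Tendsto (fun k => ∫ y, f (κ k) (z + y) ∂(CPT_nu n r)) atTop (𝓝 l) := by
  have h1 : Integrable ((ball z r).indicator fun _ => (1 : ℝ)) := by
    rw [integrable_indicator_iff measurableSet_ball]
    exact integrableOn_const measure_ball_lt_top.ne
  obtain ⟨l, hl⟩ := h _ h1
  refine ⟨(volume (ball (0 : X n) r))⁻¹.toReal • l, ?_⟩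
  refine (hl.const_smul _).congr fun k => ?_
  rw [CPT_nu, integral_smul_measure]
  congr 1
  rw [← integral_indicator measurableSet_ball, ← integral_add_left_eq_self
    (μ := (volume : Measure (X n))) _ z]
  congr 1
  funext y
  by_cases hy : y ∈ ball (0 : X n) r
  · have h2 : z + y ∈ ball z r := by
      rw [mem_ball, dist_eq_norm] at hy ⊢
      simpa using hy
    rw [indicator_of_mem hy, indicator_of_mem h2, mul_one]
  · have h2 : z + y ∉ ball z r := by
      rw [mem_ball, dist_eq_norm] at hy ⊢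
      simpa using hy
    rw [indicator_of_notMem hy, indicator_of_notMem h2, mul_zero]

theorem CPT_conv {M : ℝ} {f : X n → ℝ} (hm : Measurable f) (hM : ∀ z, |f z| ≤ M) {r δ : ℝ}
    (hr : 0 < r) {K : Set (X n)} (hK : IsCompact K)
    (hE : ∀ y : X n, ‖y‖ < r → ∫ z in K, |f (z + y) - f z| ≤ δ) :
    ∫⁻ z in K, ‖f z - ∫ y, f (z + y) ∂(CPT_nu n r)‖ₑ ≤ ENNReal.ofReal δ := by
  have hp := CPT_nu_prob (n := n) hr
  have hKm := hK.measurableSet
  have hKf : volume K ≠ ⊤ := hK.measure_lt_top.ne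
  have hfin : IsFiniteMeasure ((volume : Measure (X n)).restrict K) :=
    ⟨by rw [Measure.restrict_apply_univ]; exact hK.measure_lt_top⟩
  have hmz : ∀ z, Measurable fun y : X n => f (z + y) := fun z =>
    hm.comp (measurable_const_add z)
  have hmj : Measurable fun p : X n × X n => f (p.1 + p.2) := hm.comp measurable_add
  have h1 : ∀ z, ‖f z - ∫ y, f (z + y) ∂(CPT_nu n r)‖ₑ ≤
      ∫⁻ y, ‖f (z + y) - f z‖ₑ ∂(CPT_nu n r) := by
    intro z
    have h2 : Integrable (fun y : X n => f (z + y)) (CPT_nu n r) :=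
      Integrable.of_bound (hmz z).aestronglyMeasurable M (Eventually.of_forall fun y => hM _)
    have h3 : f z - ∫ y, f (z + y) ∂(CPT_nu n r) = - ∫ y, (f (z + y) - f z) ∂(CPT_nu n r) := by
      rw [integral_sub h2 (integrable_const _), integral_const]
      simp
    rw [h3, enorm_neg]
    exact enorm_integral_le_lintegral_enorm _
  calc ∫⁻ z in K, ‖f z - ∫ y, f (z + y) ∂(CPT_nu n r)‖ₑ
      ≤ ∫⁻ z in K, ∫⁻ y, ‖f (z + y) - f z‖ₑ ∂(CPT_nu n r) := lintegral_mono h1
    _ = ∫⁻ y, (∫⁻ z in K, ‖f (z + y) - f z‖ₑ) ∂(CPT_nu n r) := by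
        have h8 : AEMeasurable (Function.uncurry fun (z y : X n) => ‖f (z + y) - f z‖ₑ)
            ((volume.restrict K).prod (CPT_nu n r)) :=
          ((hmj.sub (hm.comp measurable_fst)).enorm).aemeasurable
        exact lintegral_lintegral_swap h8
    _ ≤ ∫⁻ _, ENNReal.ofReal δ ∂(CPT_nu n r) := by
        apply lintegral_mono_ae
        have h4 : ∀ᵐ y ∂(CPT_nu n r), y ∈ ball (0 : X n) r := by
          rw [CPT_nu]
          apply Measure.ae_smul_measure
          exact ae_restrict_mem measurableSet_ball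
        filter_upwards [h4] with y hy
        have h5 := hE y (by simpa using hy)
        have h6 : Integrable (fun z : X n => f (z + y) - f z) (volume.restrict K) := by
          refine Integrable.of_bound ?_ (M + M) (Eventually.of_forall fun z => ?_)
          · exact ((hm.comp (measurable_add_const y)).sub hm).aestronglyMeasurable
          · exact (abs_sub _ _).trans (add_le_add (hM _) (hM _))
        have h7 : ∫⁻ z in K, ‖f (z + y) - f z‖ₑ =
            ENNReal.ofReal (∫ z in K, |f (z + y) - f z|) := by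
          rw [ofReal_integral_eq_lintegral_ofReal h6.abs
            (Eventually.of_forall fun z => abs_nonneg _)]
          apply lintegral_congr
          intro z
          rw [Real.enorm_eq_ofReal_abs]
        rw [h7]
        exact ENNReal.ofReal_le_ofReal h5
    _ = ENNReal.ofReal δ := by
        rw [lintegral_const, measure_univ, mul_one]

/-- Cauchy in `L¹(K)` -/
theorem CPT_cauchy {Θ : Set (X n)} {M : ℝ} {f : ℕ → X n → ℝ} (hm : ∀ k, Measurable (f k))
    (hM : ∀ k z, |f k z| ≤ M) (hE : EquiL Θ f) {κ : ℕ → ℕ} (hκ : StrictMono κ)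
    (h : ∀ φ : X n → ℝ, Integrable φ →
      ∃ l, Tendsto (fun k => ∫ z, f (κ k) z * φ z) atTop (𝓝 l)) {K : Set (X n)}
    (hK : IsCompact K) (hKΘ : K ⊆ Θ) {ε : ℝ} (hε : 0 < ε) :
    ∃ N, ∀ k ≥ N, ∀ m ≥ N, ∫⁻ z in K, ‖f (κ k) z - f (κ m) z‖ₑ ≤ ENNReal.ofReal ε := by
  have hfin : IsFiniteMeasure ((volume : Measure (X n)).restrict K) :=
    ⟨by rw [Measure.restrict_apply_univ]; exact hK.measure_lt_top⟩
  obtain ⟨r, hr, h1⟩ := hE K hK hKΘ (ε / 4) (by positivity)
  have hp := CPT_nu_prob (n := n) hr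
  have h2 : ∀ᶠ k in atTop, ∀ y : X n, ‖y‖ < r →
      ∫ z in K, |f (κ k) (z + y) - f (κ k) z| ≤ ε / 4 := hκ.tendsto_atTop.eventually h1
  -- the averages
  set Av : ℕ → X n → ℝ := fun k z => ∫ y, f (κ k) (z + y) ∂(CPT_nu n r) with hAv
  choose a ha using CPT_avg (r := r) h
  have hAm : ∀ k, AEStronglyMeasurable (Av k) (volume.restrict K) := by
    intro k
    have hmj : Measurable fun p : X n × X n => f (κ k) (p.1 + p.2) := (hm _).comp measurable_add
    exact hmj.aestronglyMeasurable.integral_prod_right' (μ := volume.restrict K)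
      (ν := CPT_nu n r)
  have hAb : ∀ k z, ‖Av k z‖ ≤ M := by
    intro k z
    have := norm_integral_le_of_norm_le_const (μ := CPT_nu n r) (f := fun y => f (κ k) (z + y))
      (C := M) (Eventually.of_forall fun y => hM _ _)
    simpa using this
  have h3 : Tendsto (fun k => ∫⁻ z in K, ENNReal.ofReal ‖Av k z - a z‖) atTop (𝓝 0) := by
    apply tendsto_lintegral_norm_of_dominated_convergence (bound := fun _ => M) hAm
    · exact (integrable_const M).2
    · intro k
      exact Eventually.of_forall fun z => hAb k z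
    · exact Eventually.of_forall fun z => ha z
  have h3' : ∀ᶠ k in atTop, ∫⁻ z in K, ‖Av k z - a z‖ₑ ≤ ENNReal.ofReal (ε / 4) := by
    have h4 : ∀ k, ∫⁻ z in K, ENNReal.ofReal ‖Av k z - a z‖ = ∫⁻ z in K, ‖Av k z - a z‖ₑ := by
      intro k
      apply lintegral_congr
      intro z
      rw [ofReal_norm]
    simp only [h4] at h3
    exact h3.eventually_le_const (by rw [ENNReal.ofReal_pos]; positivity)
  have haM : AEStronglyMeasurable a (volume.restrict K) :=
    aestronglyMeasurable_of_tendsto_ae atTop hAm (Eventually.of_forall fun z => ha z)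
  obtain ⟨N, hN⟩ := eventually_atTop.1 (h2.and h3')
  have key : ∀ k ≥ N, ∫⁻ z in K, ‖f (κ k) z - a z‖ₑ ≤ ENNReal.ofReal (ε / 2) := by
    intro k hk
    obtain ⟨h5, h6⟩ := hN k hk
    have h7 := CPT_conv (hm (κ k)) (hM (κ k)) hr hK h5
    calc ∫⁻ z in K, ‖f (κ k) z - a z‖ₑ
        ≤ ∫⁻ z in K, (‖f (κ k) z - Av k z‖ₑ + ‖Av k z - a z‖ₑ) := by
          refine lintegral_mono fun z => ?_
          change ‖f (κ k) z - a z‖ₑ ≤ ‖f (κ k) z - Av k z‖ₑ + ‖Av k z - a z‖ₑ
          have : f (κ k) z - a z = (f (κ k) z - Av k z) + (Av k z - a z) := by ring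
          rw [this]
          exact enorm_add_le _ _
      _ = (∫⁻ z in K, ‖f (κ k) z - Av k z‖ₑ) + ∫⁻ z in K, ‖Av k z - a z‖ₑ := by
          have h8 : AEMeasurable (fun z => ‖f (κ k) z - Av k z‖ₑ) (volume.restrict K) :=
            ((hm (κ k)).aestronglyMeasurable.sub (hAm k)).enorm
          exact lintegral_add_left' h8 _
      _ ≤ ENNReal.ofReal (ε / 4) + ENNReal.ofReal (ε / 4) := add_le_add h7 h6
      _ = ENNReal.ofReal (ε / 2) := by
          rw [← ENNReal.ofReal_add (by positivity) (by positivity)]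
          congr 1; ring
  refine ⟨N, fun k hk m hm' => ?_⟩
  calc ∫⁻ z in K, ‖f (κ k) z - f (κ m) z‖ₑ
      ≤ ∫⁻ z in K, (‖f (κ k) z - a z‖ₑ + ‖f (κ m) z - a z‖ₑ) := by
        refine lintegral_mono fun z => ?_
        change ‖f (κ k) z - f (κ m) z‖ₑ ≤ ‖f (κ k) z - a z‖ₑ + ‖f (κ m) z - a z‖ₑ
        have : f (κ k) z - f (κ m) z = (f (κ k) z - a z) - (f (κ m) z - a z) := by ring
        rw [this]
        exact enorm_sub_le
    _ = (∫⁻ z in K, ‖f (κ k) z - a z‖ₑ) + ∫⁻ z in K, ‖f (κ m) z - a z‖ₑ := by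
        have h8 : AEMeasurable (fun z => ‖f (κ k) z - a z‖ₑ) (volume.restrict K) :=
          ((hm (κ k)).aestronglyMeasurable.sub haM).enorm
        exact lintegral_add_left' h8 _
    _ ≤ ENNReal.ofReal (ε / 2) + ENNReal.ofReal (ε / 2) := add_le_add (key k hk) (key m hm')
    _ = ENNReal.ofReal ε := by
        rw [← ENNReal.ofReal_add (by positivity) (by positivity)]
        congr 1; ring

/-- compact exhaustion -/
theorem CPT_exh {Θ : Set (X n)} (hΘ : IsOpen Θ) :
    ∃ K : ℕ → Set (X n), (∀ l, IsCompact (K l)) ∧ (∀ l, K l ⊆ Θ) ∧ ⋃ l, K l = Θ := by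
  obtain ⟨F, h1, h2, h3, h4⟩ := hΘ.exists_iUnion_isClosed
  refine ⟨fun l => F l ∩ closedBall 0 l, fun l => ?_, fun l => inter_subset_left.trans (h2 l), ?_⟩
  · exact (isCompact_closedBall _ _).inter_left (h1 l)
  · apply subset_antisymm
    · exact iUnion_subset fun l => inter_subset_left.trans (h2 l)
    · intro z hz
      rw [← h3] at hz
      obtain ⟨a, ha⟩ := mem_iUnion.1 hz
      obtain ⟨b, hb⟩ := exists_nat_ge ‖z‖
      refine mem_iUnion.2 ⟨max a b, h4 (le_max_left a b) ha, ?_⟩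
      rw [mem_closedBall, dist_zero_right]
      exact hb.trans (by exact_mod_cast le_max_right a b)

theorem CPT_core {Θ : Set (X n)} (hΘ : IsOpen Θ) {M : ℝ} {f : ℕ → ℕ → X n → ℝ}
    (hm : ∀ i k, Measurable (f i k)) (hM : ∀ i k z, |f i k z| ≤ M)
    (hE : ∀ i, EquiL Θ (f i)) :
    ∃ κ : ℕ → ℕ, StrictMono κ ∧ ∃ g : ℕ → X n → ℝ, ∀ i, ∀ᵐ z ∂(volume.restrict Θ),
      Tendsto (fun k => f i (κ k) z) atTop (𝓝 (g i z)) := by
  obtain ⟨κ, hκ, hw⟩ := CPT_weak hm hM
  obtain ⟨K, hK1, hK2, hK3⟩ := CPT_exh hΘ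
  have h1 : ∀ j : ℕ, ∀ᶠ N in atTop, ∀ i ∈ Finset.range j, ∀ l ∈ Finset.range j,
      ∀ k ≥ N, ∀ m ≥ N, ∫⁻ z in K l, ‖f i (κ k) z - f i (κ m) z‖ₑ ≤
        ENNReal.ofReal ((1 / 2) ^ j) := by
    intro j
    rw [Filter.eventually_all_finset]
    intro i _
    rw [Filter.eventually_all_finset]
    intro l _
    obtain ⟨N, hN⟩ := CPT_cauchy (hm i) (hM i) (hE i) hκ (hw i) (hK1 l) (hK2 l)
      (ε := (1 / 2) ^ j) (by positivity)
    filter_upwards [eventually_ge_atTop N] with N' hN' k hk m hm'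
    exact hN k (hN'.trans hk) m (hN'.trans hm')
  obtain ⟨ν, hν, h2⟩ := extraction_forall_of_eventually h1
  refine ⟨κ ∘ ν, hκ.comp hν, fun i z => limUnder atTop fun k => f i ((κ ∘ ν) k) z, fun i => ?_⟩
  rw [← hK3, ae_restrict_iUnion_iff]
  intro l
  -- summability of the differences
  set j₀ := max i l + 1 with hj₀
  have h3 : ∀ j ≥ j₀, ∫⁻ z in K l, ‖f i (κ (ν j)) z - f i (κ (ν (j + 1))) z‖ₑ ≤
      ENNReal.ofReal ((1 / 2) ^ j) := by
    intro j hj
    have hi : i ∈ Finset.range j := by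
      rw [Finset.mem_range]; have := le_max_left i l; omega
    have hl : l ∈ Finset.range j := by
      rw [Finset.mem_range]; have := le_max_right i l; omega
    exact h2 j i hi l hl _ le_rfl _ (hν.monotone (Nat.le_succ j))
  have h4 : ∫⁻ z in K l, ∑' j, ‖f i (κ (ν (j + j₀))) z - f i (κ (ν (j + j₀ + 1))) z‖ₑ < ⊤ := by
    have h9 : ∀ j, AEMeasurable (fun z => ‖f i (κ (ν (j + j₀))) z -
        f i (κ (ν (j + j₀ + 1))) z‖ₑ) (volume.restrict (K l)) := fun j =>
      (((hm i _).sub (hm i _)).enorm).aemeasurable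
    rw [lintegral_tsum h9]
    calc ∑' j, ∫⁻ z in K l, ‖f i (κ (ν (j + j₀))) z - f i (κ (ν (j + j₀ + 1))) z‖ₑ
        ≤ ∑' j : ℕ, ENNReal.ofReal ((1 / 2) ^ j) := by
          apply ENNReal.tsum_le_tsum
          intro j
          refine (h3 (j + j₀) (by omega)).trans (ENNReal.ofReal_le_ofReal ?_)
          exact pow_le_pow_of_le_one (by norm_num) (by norm_num) (by omega)
      _ = ENNReal.ofReal (∑' j : ℕ, (1 / 2) ^ j) := by
          rw [ENNReal.ofReal_tsum_of_nonneg (fun j => by positivity) summable_geometric_two]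
      _ < ⊤ := ENNReal.ofReal_lt_top
  have h5 := ae_lt_top (μ := volume.restrict (K l)) (Measurable.ennreal_tsum fun j => by
    exact ((hm i (κ (ν (j + j₀)))).sub (hm i (κ (ν (j + j₀ + 1))))).enorm) h4.ne
  filter_upwards [h5] with z hz
  have h6 : CauchySeq fun j => f i (κ (ν (j + j₀))) z := by
    refine cauchySeq_of_edist_le_of_tsum_ne_top
      (fun j => ‖f i (κ (ν (j + j₀))) z - f i (κ (ν (j + j₀ + 1))) z‖ₑ) ?_ hz.ne
    intro j
    rw [edist_eq_enorm_sub]
    have : j.succ + j₀ = j + j₀ + 1 := by omega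
    rw [this]
  have h7 : CauchySeq fun j => f i ((κ ∘ ν) j) z := by
    obtain ⟨l', hl'⟩ := cauchySeq_tendsto_of_complete h6
    have := (tendsto_add_atTop_iff_nat (f := fun j => f i ((κ ∘ ν) j) z) j₀).1 hl'
    exact this.cauchySeq
  exact h7.tendsto_limUnder

theorem cpt {Θ : Set (X n)} (hΘ : IsOpen Θ) {M : ℝ} {f : ℕ → ℕ → X n → ℝ}
    (hm : ∀ i k, AEStronglyMeasurable (f i k) volume) (hM : ∀ i k, ∀ᵐ z, |f i k z| ≤ M)
    (hE : ∀ i, EquiL Θ (f i)) :
    ∃ κ : ℕ → ℕ, StrictMono κ ∧ ∃ g : ℕ → X n → ℝ, ∀ i, ∀ᵐ z ∂(volume.restrict Θ),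
      Tendsto (fun k => f i (κ k) z) atTop (𝓝 (g i z)) := by
  let f' : ℕ → ℕ → X n → ℝ := fun i k z => max (-|M|) (min |M| ((hm i k).mk (f i k) z))
  have hf' : ∀ i k, f i k =ᵐ[volume] f' i k := by
    intro i k
    filter_upwards [(hm i k).ae_eq_mk, hM i k] with z h1 h2
    have h3 := abs_le.1 (h2.trans (le_abs_self M))
    simp only [f']
    rw [← h1, min_eq_right h3.2, max_eq_right h3.1]
  have hm' : ∀ i k, Measurable (f' i k) := fun i k =>
    measurable_const.max (measurable_const.min (hm i k).stronglyMeasurable_mk.measurable)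
  have hM' : ∀ i k z, |f' i k z| ≤ |M| := by
    intro i k z
    rw [abs_le]
    refine ⟨le_max_left _ _, max_le ?_ (min_le_left _ _)⟩
    linarith [abs_nonneg M]
  have hE' : ∀ i, EquiL Θ (f' i) := by
    intro i K hK hKΘ δ hδ
    obtain ⟨r, hr, h1⟩ := hE i K hK hKΘ δ hδ
    refine ⟨r, hr, ?_⟩
    filter_upwards [h1] with k hk y hy
    refine le_trans (le_of_eq ?_) (hk y hy)
    apply integral_congr_ae
    apply ae_restrict_of_ae
    have h2 : ∀ᵐ z, f i k (z + y) = f' i k (z + y) :=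
      (measurePreserving_add_right (volume : Measure (X n)) y).quasiMeasurePreserving.ae (hf' i k)
    filter_upwards [h2, hf' i k] with z h3 h4
    rw [h3, h4]
  obtain ⟨κ, hκ, g, hg⟩ := CPT_core hΘ hm' hM' hE'
  refine ⟨κ, hκ, g, fun i => ?_⟩
  have h1 : ∀ᵐ z ∂(volume.restrict Θ), ∀ k, f i k z = f' i k z := by
    rw [ae_all_iff]
    intro k
    exact ae_restrict_of_ae (hf' i k)
  filter_upwards [hg i, h1] with z h2 h3
  refine h2.congr fun k => ?_
  rw [h3]

end PP
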