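import Pool.Agent.PP.TT
import Pool.Agent.PP.CPT

open Set Metric Filter Topology MeasureTheory
open scoped ContDiff

noncomputable section

namespace PP

variable {n : ℕ}
variable {p : ℝ}

attribute [local instance] AVG1_haar

theorem equ_young (hp : 1 < p) {l : ℝ} (hl : 0 < l) {a : ℝ} (ha : 0 ≤ a) :
    a ≤ l + l ^ (1 - p) * a ^ p := by
  rcases le_or_gt a l with h | h
  · have : 0 ≤ l ^ (1 - p) * a ^ p := by positivity
    linarith
  · have ha0 : 0 < a := hl.trans h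
    have h1 : l ^ (1 - p) * a ^ p = a * (a / l) ^ (p - 1) := by
      rw [Real.div_rpow ha hl.le, show (1 : ℝ) - p = -(p - 1) by ring, Real.rpow_neg hl.le,
        Real.rpow_sub_one ha0.ne']
      field_simp
    have h2 : 1 ≤ (a / l) ^ (p - 1) :=
      Real.one_le_rpow (by rw [le_div_iff₀ hl]; linarith) (by linarith)
    rw [h1]
    nlinarith

theorem equ_young2 {l : ℝ} (hl : 0 < l) {a : ℝ} (ha : 0 ≤ a) : a ≤ l + l⁻¹ * a ^ 2 := by
  rcases le_or_gt a l with h | h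
  · have : 0 ≤ l⁻¹ * a ^ 2 := by positivity
    linarith
  · have h1 : l⁻¹ * a ^ 2 = a * (a / l) := by
      field_simp
    have h2 : 1 ≤ a / l := by
      rw [le_div_iff₀ hl]
      linarith
    rw [h1]
    nlinarith

/-- a compact set stays in the region where the cut off is one after small translations -/
theorem equ_cut {K : Set (X n)} (hK : IsCompact K) {χ : X n → ℝ}
    (h : ∀ᶠ z in 𝓝ˢ K, χ z = 1) : ∃ ρ > 0, ∀ w ∈ K, ∀ y : X n, ‖y‖ < ρ → χ (w + y) = 1 := by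
  obtain ⟨U, hU, hKU, hU1⟩ := mem_nhdsSet_iff_exists.1 h
  obtain ⟨ρ, hρ, hth⟩ := hK.exists_thickening_subset_open hU hKU
  refine ⟨ρ, hρ, fun w hw y hy => hU1 (hth ?_)⟩
  rw [mem_thickening_iff]
  exact ⟨w, hw, by rwa [dist_eq_norm, add_sub_cancel_left]⟩

theorem equ_set_le {K : Set (X n)} (hK : IsCompact K) {g ξ : X n → ℝ}
    (hg : Integrable (fun w => ξ w * g w) volume) (h0 : ∀ w, 0 ≤ g w) (hξ0 : ∀ w, 0 ≤ ξ w)
    (h1 : ∀ w ∈ K, ξ w = 1) : ∫ w in K, g w ≤ ∫ w, ξ w * g w := by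
  have e : ∫ w in K, g w = ∫ w in K, ξ w * g w := by
    refine setIntegral_congr_fun hK.measurableSet fun w hw => ?_
    show g w = ξ w * g w
    rw [h1 w hw, one_mul]
  rw [e]
  exact setIntegral_le_integral hg (Eventually.of_forall fun w => mul_nonneg (hξ0 w) (h0 w))

theorem equ_memLp {f : X n → ℝ} {q : ENNReal} (hf : MemLp f q volume) (y : X n) :
    MemLp (fun w => f (w + y)) q volume :=
  hf.comp_measurePreserving (measurePreserving_add_right volume y)

theorem equ_int_sq {f g : X n → ℝ} {ξ : X n → ℝ} {B : ℝ} (hξ : Continuous ξ)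
    (hB : ∀ w, |ξ w| ≤ B) (hf : MemLp f 2 volume) (hg : MemLp g 2 volume) :
    Integrable (fun w => ξ w * (f w - g w) ^ 2) volume := by
  have h1 : Integrable (fun w => (f w - g w) ^ 2) volume := (hf.sub hg).integrable_sq
  exact h1.bdd_mul hξ.aestronglyMeasurable (c := B) (Eventually.of_forall fun w => hB w)

theorem equ_time (_hp : 1 < p) {C : Set (X n)} (hC : Bornology.IsBounded C) {f : X n → ℝ}
    {G : X n → E n} (h : W0 p C f G) {K : Set (X n)} (hK : IsCompact K) {ζ : X n → ℝ}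
    (hζ : Tst univ ζ) (hζ0 : ∀ y, 0 ≤ ζ y) {ρ : ℝ}
    (hρ1 : ∀ w ∈ K, ∀ y : X n, ‖y‖ < ρ → ζ (w + y) = 1) {s0 K' : ℝ}
    (ht : ∀ s ∈ Icc 0 s0, ∫ y, ζ y * (sh s f y - f y) ^ 2 ≤ K' * s) {s : ℝ} (hs : |s| < ρ)
    (hs0 : |s| ≤ s0) :
    ∫ w in K, (f (w + (0, s)) - f w) ^ 2 ≤ |K'| * |s| := by
  have hf2 : MemLp f 2 volume := h.memLp_fn hC 2
  obtain ⟨B, hB⟩ : ∃ B : ℝ, ∀ w, |ζ w| ≤ B := by
    obtain ⟨B, hB⟩ := hζ.cpt.exists_bound_of_continuous hζ.smooth.continuous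
    exact ⟨B, hB⟩
  have hζc : Continuous ζ := hζ.smooth.continuous
  have hfs : ∀ y : X n, MemLp (fun w => f (w + y)) 2 volume := fun y => equ_memLp hf2 y
  have hn : ∀ t : ℝ, ‖((0, t) : X n)‖ = |t| := by
    intro t
    rw [Prod.norm_def, norm_zero, Real.norm_eq_abs]
    exact max_eq_right (abs_nonneg t)
  have e : ∀ t : ℝ, (fun w : X n => f (w + (0, t))) = sh t f := by
    intro t
    funext w
    show f (w + (0, t)) = f (w.1, w.2 + t)
    congr 1
    ext1
    · simp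
    · simp
  rcases le_or_gt 0 s with h0 | h0
  · have h1 := equ_set_le (g := fun w => (f (w + (0, s)) - f w) ^ 2) (ξ := ζ) hK
      (equ_int_sq hζc hB (hfs _) hf2) (fun w => sq_nonneg _) hζ0 (fun w hw => by
        have := hρ1 w hw 0 (by rw [norm_zero]; exact (abs_nonneg s).trans_lt hs)
        rwa [add_zero] at this)
    refine h1.trans ?_
    have h2 := ht s ⟨h0, by rwa [abs_of_nonneg h0] at hs0⟩
    have h3 : ∫ w, ζ w * (f (w + (0, s)) - f w) ^ 2 = ∫ w, ζ w * (sh s f w - f w) ^ 2 := by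
      refine integral_congr_ae (Eventually.of_forall fun w => ?_)
      have := congrFun (e s) w
      simp only at this ⊢
      rw [this]
    rw [h3]
    refine h2.trans ?_
    rw [abs_of_nonneg h0]
    exact mul_le_mul_of_nonneg_right (le_abs_self _) h0
  · have hζs : Continuous fun w : X n => ζ (w + (0, s)) := by fun_prop
    have h1 := equ_set_le (g := fun w => (f (w + (0, s)) - f w) ^ 2)
      (ξ := fun w => ζ (w + (0, s))) hK
      (equ_int_sq hζs (fun w => hB _) (hfs _) hf2) (fun w => sq_nonneg _) (fun w => hζ0 _)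
      (fun w hw => hρ1 w hw (0, s) (by rw [hn]; exact hs))
    refine h1.trans ?_
    have h2 := ht (-s) ⟨by linarith, by rwa [abs_of_neg h0] at hs0⟩
    have h3 : ∫ w, ζ (w + (0, s)) * (f (w + (0, s)) - f w) ^ 2 =
        ∫ w, ζ w * (sh (-s) f w - f w) ^ 2 := by
      rw [← integral_add_right_eq_self (fun w => ζ w * (sh (-s) f w - f w) ^ 2) ((0, s) : X n)]
      refine integral_congr_ae (Eventually.of_forall fun w => ?_)
      have h4 := congrFun (e (-s)) (w + (0, s))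
      simp only at h4 ⊢
      rw [← h4]
      have h5 : w + (0, s) + (0, -s) = w := by
        ext1
        · simp
        · simp
      rw [h5]
      ring
    rw [h3]
    refine h2.trans ?_
    rw [abs_of_neg h0]
    exact mul_le_mul_of_nonneg_right (le_abs_self _) (by linarith)

theorem equ_step (hp : 1 < p) {C : Set (X n)} (hC : Bornology.IsBounded C) {f : X n → ℝ}
    {G : X n → E n} (h : W0 p C f G) {K : Set (X n)} (hK : IsCompact K) {ζ : X n → ℝ}
    (hζ : Tst univ ζ) (hζ0 : ∀ y, 0 ≤ ζ y) {ρ : ℝ}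
    (hρ1 : ∀ w ∈ K, ∀ y : X n, ‖y‖ < ρ → ζ (w + y) = 1)
    {s0 K' K0 : ℝ} (hG : ∫ y, ‖G y‖ ^ p ≤ K0)
    (ht : ∀ s ∈ Icc 0 s0, ∫ y, ζ y * (sh s f y - f y) ^ 2 ≤ K' * s) (l : ℝ) (hl : 0 < l)
    {y : X n} (hy : ‖y‖ < ρ) (hy0 : ‖y‖ ≤ s0) :
    ∫ z in K, |f (z + y) - f z| ≤ 2 * l * (volume K).toReal +
      l ^ (1 - p) * (‖y‖ ^ p * K0) + l⁻¹ * (|K'| * ‖y‖) := by
  obtain ⟨y', s⟩ := y
  have hp0 : 0 < p := by linarith
  have hs : |s| ≤ ‖((y', s) : X n)‖ := by
    rw [Prod.norm_def]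
    exact le_max_right _ _
  have hy' : ‖y'‖ ≤ ‖((y', s) : X n)‖ := by
    rw [Prod.norm_def]
    exact le_max_left _ _
  set N := ‖((y', s) : X n)‖ with hN
  have hN0 : 0 ≤ N := norm_nonneg _
  have hK0 : 0 ≤ K0 := (integral_nonneg fun _ => by positivity).trans hG
  have hfp : MemLp f (ENNReal.ofReal p) volume := h.memLp_fn hC _
  have hf2 : MemLp f 2 volume := h.memLp_fn hC 2
  set h1 : X n → ℝ := fun w => f (w + (y', s)) - f (w + (0, s)) with hh1
  set h2 : X n → ℝ := fun w => f (w + (0, s)) - f w with hh2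
  have m1 : MemLp h1 (ENNReal.ofReal p) volume := (equ_memLp hfp _).sub (equ_memLp hfp _)
  have m2 : MemLp h2 2 volume := (equ_memLp hf2 _).sub hf2
  have i1 : Integrable (fun w => ‖h1 w‖ ^ p) volume :=
    (lps_int_iff hp0 m1.aestronglyMeasurable).2 m1
  have i2 : Integrable (fun w => h2 w ^ 2) volume := m2.integrable_sq
  have hKf : volume K ≠ ⊤ := hK.measure_lt_top.ne
  have a1 : ∫ w in K, ‖h1 w‖ ^ p ≤ N ^ p * K0 := by
    have b1 : ∫ w in K, ‖h1 w‖ ^ p ≤ ∫ w, ‖h1 w‖ ^ p :=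
      setIntegral_le_integral i1 (Eventually.of_forall fun w => by positivity)
    have b2 : ∫ w, ‖h1 w‖ ^ p = ∫ w : X n, |f (w.1 + y', w.2) - f w| ^ p := by
      rw [← integral_add_right_eq_self (fun w : X n => |f (w.1 + y', w.2) - f w| ^ p)
        ((0, s) : X n)]
      refine integral_congr_ae (Eventually.of_forall fun w => ?_)
      simp only [hh1, Real.norm_eq_abs]
      congr 4
      ext1
      · simp
      · simp
    have b3 := trx hp hC h y'
    rw [b2] at b1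
    refine b1.trans (b3.trans ?_)
    have b4 : ‖y'‖ ^ p ≤ N ^ p := Real.rpow_le_rpow (norm_nonneg _) hy' hp0.le
    exact mul_le_mul b4 hG (integral_nonneg fun _ => by positivity) (by positivity)
  have a2 : ∫ w in K, h2 w ^ 2 ≤ |K'| * N := by
    refine (equ_time hp hC h hK hζ hζ0 hρ1 ht (hs.trans_lt hy) (hs.trans hy0)).trans ?_
    exact mul_le_mul_of_nonneg_left hs (abs_nonneg _)
  have j1 : IntegrableOn (fun w => ‖h1 w‖ ^ p) K volume := i1.integrableOn
  have j2 : IntegrableOn (fun w => h2 w ^ 2) K volume := i2.integrableOn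
  have j0 : IntegrableOn (fun _ : X n => 2 * l) K volume := integrableOn_const hKf
  have j12 : IntegrableOn (fun w => l ^ (1 - p) * ‖h1 w‖ ^ p + l⁻¹ * h2 w ^ 2) K volume :=
    (j1.const_mul _).add (j2.const_mul _)
  have hsum : ∫ w in K, (2 * l + (l ^ (1 - p) * ‖h1 w‖ ^ p + l⁻¹ * h2 w ^ 2)) =
      2 * l * (volume K).toReal + (l ^ (1 - p) * (∫ w in K, ‖h1 w‖ ^ p) +
        l⁻¹ * ∫ w in K, h2 w ^ 2) := by
    rw [integral_add j0 j12,
      integral_add (j1.const_mul _) (j2.const_mul _), integral_const_mul (l ^ (1 - p)), integral_const_mul l⁻¹,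
      setIntegral_const, smul_eq_mul, show volume.real K = (volume K).toReal from rfl]
    ring
  have hle : ∫ w in K, |f (w + (y', s)) - f w| ≤
      ∫ w in K, (2 * l + (l ^ (1 - p) * ‖h1 w‖ ^ p + l⁻¹ * h2 w ^ 2)) := by
    refine integral_mono_of_nonneg (Eventually.of_forall fun w => abs_nonneg _)
      (j0.add j12) (Eventually.of_forall fun w => ?_)
    have c1 : |f (w + (y', s)) - f w| ≤ |h1 w| + |h2 w| := by
      have : f (w + (y', s)) - f w = h1 w + h2 w := by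
        simp only [hh1, hh2]
        ring
      rw [this]
      exact abs_add_le _ _
    have c2 := equ_young hp hl (abs_nonneg (h1 w))
    have c3 := equ_young2 hl (abs_nonneg (h2 w))
    rw [sq_abs] at c3
    simp only [Real.norm_eq_abs]
    linarith
  rw [hsum] at hle
  have d1 := mul_le_mul_of_nonneg_left a1 (show 0 ≤ l ^ (1 - p) by positivity)
  have d2 := mul_le_mul_of_nonneg_left a2 (show 0 ≤ l⁻¹ by positivity)
  linarith

theorem equi_regSol (hp : 1 < p) {Θ : Set (X n)} (hΘ : IsOpen Θ) (hb : Bornology.IsBounded Θ)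
    {F : X n → ℝ} (hF : Tst univ F) {M K : ℝ} {ε : ℕ → ℝ} (hε : ∀ k, 0 < ε k ∧ ε k ≤ 1)
    {obs : X n → ℝ} (hobs : ∀ y, 0 ≤ obs y) {z zt : ℕ → X n → ℝ} {G : ℕ → X n → E n}
    (h : ∀ k, RegSol p (ε k) (Cx Θ k) obs F (z k) (zt k) (G k))
    (hM : ∀ k, ∀ᵐ y, |z k y| ≤ M) (hK : ∀ k, ε k * (∫ y, zt k y ^ 2) + ∫ y, ‖G k y‖ ^ p ≤ K) :
    EquiL Θ z := by
  intro K1 hK1 hK1Θ δ hδ
  obtain ⟨ζ, hζ, hζ01, hζ1⟩ := exists_cutoff hK1 hΘ hK1Θ
  obtain ⟨ρ, hρ, hρ1⟩ := equ_cut hK1 hζ1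
  obtain ⟨K', s0, hs0, hev⟩ := tt_time hp hΘ hb hF hε hobs h hM hK hζ fun y => (hζ01 y).1
  have hGK : ∀ k, ∫ y, ‖G k y‖ ^ p ≤ K := by
    intro k
    have h1 : 0 ≤ ε k * (∫ y, zt k y ^ 2) :=
      mul_nonneg (hε k).1.le (integral_nonneg fun _ => sq_nonneg _)
    linarith [hK k]
  set V := (volume K1).toReal with hV
  have hV0 : 0 ≤ V := ENNReal.toReal_nonneg
  set l := δ / (4 * (V + 1)) with hl
  have hl0 : 0 < l := by positivity
  have hlV : 2 * l * V ≤ δ / 2 := by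
    rw [hl]
    have : 2 * (δ / (4 * (V + 1))) * V = δ / 2 * (V / (V + 1)) := by
      field_simp
      ring
    rw [this]
    have h2 : V / (V + 1) ≤ 1 := by
      rw [div_le_one (by positivity)]
      linarith
    nlinarith
  have hcont : Tendsto (fun r : ℝ => l ^ (1 - p) * (r ^ p * K) + l⁻¹ * (|K'| * r)) (𝓝 0)
      (𝓝 (l ^ (1 - p) * (0 ^ p * K) + l⁻¹ * (|K'| * 0))) := by
    have hc : Continuous fun r : ℝ => l ^ (1 - p) * (r ^ p * K) + l⁻¹ * (|K'| * r) := by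
      have h1 : Continuous fun r : ℝ => r ^ p := Real.continuous_rpow_const (by linarith)
      fun_prop
    exact hc.tendsto 0
  have hval : l ^ (1 - p) * ((0 : ℝ) ^ p * K) + l⁻¹ * (|K'| * 0) = 0 := by
    rw [Real.zero_rpow (by linarith)]
    ring
  rw [hval] at hcont
  obtain ⟨r1, hr1, hr2⟩ := Metric.eventually_nhds_iff.1
    (hcont.eventually (gt_mem_nhds (show (0 : ℝ) < δ / 2 by positivity)))
  refine ⟨min r1 (min ρ s0), lt_min hr1 (lt_min hρ hs0), ?_⟩
  filter_upwards [hev] with k hk y hy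
  have hy1 : ‖y‖ < r1 := hy.trans_le (min_le_left _ _)
  have hy2 : ‖y‖ < ρ := hy.trans_le ((min_le_right _ _).trans (min_le_left _ _))
  have hy3 : ‖y‖ < s0 := hy.trans_le ((min_le_right _ _).trans (min_le_right _ _))
  have hCb : Bornology.IsBounded (Cx Θ k) := hb.subset (Cx_sub Θ k)
  have hζu : Tst univ ζ := ⟨hζ.smooth, hζ.cpt, subset_univ _⟩
  have h1 := equ_step hp hCb (h k).w.toW0 hK1 hζu (fun y => (hζ01 y).1) hρ1 (hGK k) hk l hl0 hy2
    hy3.le
  have h2 := hr2 (y := ‖y‖) (by rw [dist_zero_right, norm_norm]; exact hy1)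
  linarith

end PP
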