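import Pool.Agent.PP.DER

open Set Metric Filter Topology MeasureTheory
open scoped ContDiff

noncomputable section

namespace PP

variable {n : ℕ}

theorem exh_pos (k : ℕ) : (0 : ℝ) < 1 / ((k : ℝ) + 1) := by positivity

theorem exh_eq (Θ : Set (X n)) (k : ℕ) :
    Cx Θ k = {z | 1 / ((k : ℝ) + 1) ≤ infDist z Θᶜ} := by
  ext z
  constructor
  · intro h
    exact h.2
  · intro h
    refine ⟨?_, h⟩
    by_contra hz
    have h1 : infDist z Θᶜ = 0 := infDist_zero_of_mem hz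
    have h2 : 1 / ((k : ℝ) + 1) ≤ infDist z Θᶜ := h
    have h3 := exh_pos k
    linarith

theorem Cx_compact {Θ : Set (X n)} (hΘ : IsOpen Θ) (hb : Bornology.IsBounded Θ) (k : ℕ) :
    IsCompact (Cx Θ k) := by
  apply Metric.isCompact_of_isClosed_isBounded
  · rw [exh_eq]
    exact isClosed_le continuous_const (continuous_infDist_pt _)
  · exact hb.subset fun z hz => hz.1

theorem Cx_sub (Θ : Set (X n)) (k : ℕ) : Cx Θ k ⊆ Θ := fun _ hz => hz.1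

theorem Cx_mono (Θ : Set (X n)) : Monotone (Cx Θ) := by
  intro i j hij z hz
  refine ⟨hz.1, le_trans ?_ hz.2⟩
  have h1 : (i : ℝ) ≤ j := by exact_mod_cast hij
  apply one_div_le_one_div_of_le
  · positivity
  · linarith

theorem Cx_exh {Θ : Set (X n)} (hΘ : IsOpen Θ) (hb : Bornology.IsBounded Θ) {K : Set (X n)}
    (hK : IsCompact K) (hKΘ : K ⊆ Θ) : ∃ k₀, ∀ k ≥ k₀, K ⊆ interior (Cx Θ k) := by
  have hne : (Θᶜ : Set (X n)).Nonempty := by
    by_contra h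
    rw [Set.not_nonempty_iff_eq_empty, Set.compl_empty_iff] at h
    rw [h] at hb
    exact NormedSpace.unbounded_univ ℝ (X n) hb
  rcases K.eq_empty_or_nonempty with h0 | h0
  · exact ⟨0, fun k _ => by rw [h0]; exact Set.empty_subset _⟩
  obtain ⟨z0, hz0, hmin⟩ := hK.exists_isMinOn h0 (continuous_infDist_pt (Θᶜ : Set (X n))).continuousOn
  have hpos : 0 < infDist z0 Θᶜ := by
    rw [← hΘ.isClosed_compl.notMem_iff_infDist_pos hne]
    intro h
    exact h (hKΘ hz0)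
  obtain ⟨k0, hk0⟩ := exists_nat_one_div_lt hpos
  refine ⟨k0, fun k hk => ?_⟩
  have hsub : {z : X n | 1 / ((k0 : ℝ) + 1) < infDist z Θᶜ} ⊆ Cx Θ k := by
    intro z hz
    apply Cx_mono Θ hk
    rw [exh_eq]
    have h1 : 1 / ((k0 : ℝ) + 1) < infDist z Θᶜ := hz
    exact h1.le
  have hop : IsOpen {z : X n | 1 / ((k0 : ℝ) + 1) < infDist z Θᶜ} :=
    isOpen_lt continuous_const (continuous_infDist_pt _)
  intro z hz
  apply interior_maximal hsub hop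
  exact lt_of_lt_of_le hk0 (hmin hz)

theorem exists_chi {Θ : Set (X n)} (hΘ : IsOpen Θ) (hb : Bornology.IsBounded Θ) :
    ∃ χ : ℕ → X n → ℝ, (∀ i, Tst Θ (χ i)) ∧ (∀ i z, 0 ≤ χ i z ∧ χ i z ≤ 1) ∧
      (∀ i z, χ i z ≤ χ (i + 1) z) ∧ (∀ i, ∀ z ∈ Cx Θ i, χ i z = 1) := by
  have step : ∀ (K : Set (X n)), IsCompact K → K ⊆ Θ →
      ∃ χ : X n → ℝ, (Tst Θ χ ∧ (∀ z, 0 ≤ χ z ∧ χ z ≤ 1)) ∧ ∀ z ∈ K, χ z = 1 := by
    intro K hK hKΘ
    obtain ⟨χ, h1, h2, h3⟩ := exists_cutoff hK hΘ hKΘ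
    exact ⟨χ, ⟨h1, h2⟩, fun z hz => h3.self_of_nhdsSet z hz⟩
  let T := {χ : X n → ℝ // Tst Θ χ ∧ (∀ z, 0 ≤ χ z ∧ χ z ≤ 1)}
  have hstart : ∃ s : T, ∀ z ∈ Cx Θ 0, s.1 z = 1 := by
    obtain ⟨χ, h1, h2⟩ := step (Cx Θ 0) (Cx_compact hΘ hb 0) (Cx_sub Θ 0)
    exact ⟨⟨χ, h1⟩, h2⟩
  have hnext : ∀ (i : ℕ) (s : T), ∃ s' : T, (∀ z ∈ tsupport s.1 ∪ Cx Θ (i + 1), s'.1 z = 1) := by
    intro i s
    obtain ⟨χ, h1, h2⟩ := step (tsupport s.1 ∪ Cx Θ (i + 1))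
      (s.2.1.cpt.isCompact.union (Cx_compact hΘ hb (i + 1)))
      (Set.union_subset s.2.1.supp (Cx_sub Θ (i + 1)))
    exact ⟨⟨χ, h1⟩, h2⟩
  choose nx hnx using hnext
  obtain ⟨s0, hs0⟩ := hstart
  let seq : ℕ → T := fun i => Nat.rec s0 (fun i s => nx i s) i
  have hseq : ∀ i, seq (i + 1) = nx i (seq i) := fun i => rfl
  refine ⟨fun i => (seq i).1, fun i => (seq i).2.1, fun i z => (seq i).2.2 z, ?_, ?_⟩
  · intro i z
    by_cases hz : z ∈ tsupport (seq i).1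
    · have h1 : (seq (i + 1)).1 z = 1 := by
        rw [hseq]
        exact hnx i (seq i) z (Or.inl hz)
      show (seq i).1 z ≤ (seq (i + 1)).1 z
      rw [h1]
      exact ((seq i).2.2 z).2
    · have h1 : (seq i).1 z = 0 := image_eq_zero_of_notMem_tsupport hz
      show (seq i).1 z ≤ (seq (i + 1)).1 z
      rw [h1]
      exact ((seq (i + 1)).2.2 z).1
  · intro i
    cases i with
    | zero => exact hs0
    | succ i =>
      intro z hz
      show (seq (i + 1)).1 z = 1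
      rw [hseq]
      exact hnx i (seq i) z (Or.inr hz)

end PP
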