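import Pool.Agent.PP.MAZ
import Pool.Agent.PP.LPS
import Pool.Agent.PP.LOC
import Pool.Agent.PP.CAL1

open Set Metric Filter Topology MeasureTheory
open scoped ContDiff

noncomputable section

namespace PP

variable {n : ℕ}
variable {p : ℝ}

/-- weak convergence in `L^p` -/
def WkTo (p : ℝ) (G : ℕ → X n → E n) (Gl : X n → E n) : Prop :=
  ∀ H : X n → E n, MemLp H (ENNReal.ofReal (cj p)) volume →
    Tendsto (fun k => ∫ y, inner ℝ (H y) (G k y)) atTop (𝓝 (∫ y, inner ℝ (H y) (Gl y)))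

/-- tail convex combinations of a convergent sequence -/
theorem wlim_comb {a : ℕ → ℝ} {l : ℝ} (ha : Tendsto a atTop (𝓝 l)) {w : ℕ → ℕ → ℝ} {N : ℕ → ℕ}
    (h0 : ∀ j k, 0 ≤ w j k) (h1 : ∀ j, ∑ k ∈ Finset.range (N j), w j k = 1)
    (h2 : ∀ j k, k < j → w j k = 0) :
    Tendsto (fun j => ∑ k ∈ Finset.range (N j), w j k * a k) atTop (𝓝 l) := by
  rw [Metric.tendsto_atTop] at ha ⊢
  intro ε hε
  obtain ⟨J, hJ⟩ := ha (ε / 2) (by positivity)
  refine ⟨J, fun j hj => ?_⟩
  have e1 : ∑ k ∈ Finset.range (N j), w j k * a k - l =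
      ∑ k ∈ Finset.range (N j), w j k * (a k - l) := by
    simp_rw [mul_sub]
    rw [Finset.sum_sub_distrib, ← Finset.sum_mul, h1 j, one_mul]
  rw [Real.dist_eq, e1]
  refine lt_of_le_of_lt (Finset.abs_sum_le_sum_abs _ _) ?_
  have e2 : ∑ k ∈ Finset.range (N j), |w j k * (a k - l)| ≤
      ∑ k ∈ Finset.range (N j), w j k * (ε / 2) := by
    refine Finset.sum_le_sum fun k _ => ?_
    rw [abs_mul, abs_of_nonneg (h0 j k)]
    rcases lt_or_ge k j with hk | hk
    · rw [h2 j k hk, zero_mul, zero_mul]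
    · have := hJ k (hj.trans hk)
      rw [Real.dist_eq] at this
      exact mul_le_mul_of_nonneg_left this.le (h0 j k)
  refine lt_of_le_of_lt e2 ?_
  rw [← Finset.sum_mul, h1 j, one_mul]
  linarith

/-- convergence of the integrals of the functions -/
theorem wlim_dct {z : ℕ → X n → ℝ} {M : ℝ} (hz : ∀ k, AEStronglyMeasurable (z k) volume)
    (hM : ∀ k, ∀ᵐ y, |z k y| ≤ M) {zl : X n → ℝ}
    (hl : ∀ᵐ y, Tendsto (fun k => z k y) atTop (𝓝 (zl y))) {φ : X n → ℝ} (hφ : Tst univ φ)
    (v : E n) :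
    Tendsto (fun k => ∫ y, inner ℝ (z k y • dx φ y) v) atTop
      (𝓝 (∫ y, inner ℝ (zl y • dx φ y) v)) := by
  obtain ⟨c1, s1, -, -⟩ := der_tst_int hφ
  have hint : Integrable (fun y => ‖dx φ y‖ * ‖v‖) volume :=
    ((c1.integrable_of_hasCompactSupport s1).norm).mul_const _
  refine tendsto_integral_of_dominated_convergence (fun y => |M| * (‖dx φ y‖ * ‖v‖)) ?_
    (hint.const_mul _) ?_ ?_
  · intro k
    exact ((hz k).smul c1.aestronglyMeasurable).inner aestronglyMeasurable_const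
  · intro k
    filter_upwards [hM k] with y hy
    refine (norm_inner_le_norm _ _).trans ?_
    rw [norm_smul, Real.norm_eq_abs, mul_assoc]
    exact mul_le_mul_of_nonneg_right (hy.trans (le_abs_self M)) (by positivity)
  · filter_upwards [hl] with y hy
    exact (hy.smul_const (dx φ y)).inner tendsto_const_nhds

theorem wlim_aux (hp : 1 < p) {D : Set (X n)} {z : ℕ → X n → ℝ}
    {G : ℕ → X n → E n} {K M : ℝ} (h : ∀ k, W0 p D (z k) (G k)) (hM : ∀ k, ∀ᵐ y, |z k y| ≤ M)
    (hK : ∀ k, ∫ y, ‖G k y‖ ^ p ≤ K) {zl : X n → ℝ}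
    (hl : ∀ᵐ y, Tendsto (fun k => z k y) atTop (𝓝 (zl y))) :
    ∃ (w : ℕ → ℕ → ℝ) (N : ℕ → ℕ) (g : X n → E n), (∀ j k, 0 ≤ w j k) ∧
      (∀ j, ∑ k ∈ Finset.range (N j), w j k = 1) ∧ W0 p D zl g ∧ ∫ y, ‖g y‖ ^ p ≤ K ∧
      ∀ H : X n → E n, MemLp H (ENNReal.ofReal (cj p)) volume →
        Tendsto (fun j => ∑ k ∈ Finset.range (N j), w j k * ∫ y, inner ℝ (H y) (G k y)) atTop
          (𝓝 (∫ y, inner ℝ (H y) (g y))) := by
  have hp0 : 0 < p := by linarith
  obtain ⟨w, N, g, h0, h1, h2, hg, hgK, hlim⟩ := mazur hp K G (fun k => (h k).mem) hK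
  have hwk : ∀ H : X n → E n, MemLp H (ENNReal.ofReal (cj p)) volume →
        Tendsto (fun j => ∑ k ∈ Finset.range (N j), w j k * ∫ y, inner ℝ (H y) (G k y)) atTop
          (𝓝 (∫ y, inner ℝ (H y) (g y))) := by
    intro H hH
    have hS : ∀ j, MemLp (fun y => ∑ k ∈ Finset.range (N j), w j k • G k y)
        (ENNReal.ofReal p) volume := by
      intro j
      exact memLp_finsetSum _ fun k _ => ((h k).mem).const_smul (w j k)
    have e1 : ∀ j, (∑ k ∈ Finset.range (N j), w j k * ∫ y, inner ℝ (H y) (G k y)) -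
        ∫ y, inner ℝ (H y) (g y) =
        ∫ y, inner ℝ (H y) ((∑ k ∈ Finset.range (N j), w j k • G k y) - g y) := by
      intro j
      have i1 : ∀ k, Integrable (fun y => w j k * inner ℝ (H y) (G k y)) volume := fun k =>
        ((holder_inner hp hH (h k).mem).1).const_mul _
      have i2 := (holder_inner hp hH hg).1
      simp_rw [inner_sub_right, inner_sum, real_inner_smul_right]
      rw [integral_sub (integrable_finsetSum _ fun k _ => i1 k) i2,
        integral_finsetSum _ fun k _ => i1 k]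
      congr 1
      exact Finset.sum_congr rfl fun k _ => (integral_const_mul _ _).symm
    have e2 : ∀ j, |(∑ k ∈ Finset.range (N j), w j k * ∫ y, inner ℝ (H y) (G k y)) -
        ∫ y, inner ℝ (H y) (g y)| ≤ (∫ z, ‖H z‖ ^ cj p) ^ (1 / cj p) *
          (∫ y, ‖(∑ k ∈ Finset.range (N j), w j k • G k y) - g y‖ ^ p) ^ (1 / p) := by
      intro j
      rw [e1 j]
      exact (holder_inner hp hH ((hS j).sub hg)).2
    have e3 : Tendsto (fun j => (∫ z, ‖H z‖ ^ cj p) ^ (1 / cj p) *
          (∫ y, ‖(∑ k ∈ Finset.range (N j), w j k • G k y) - g y‖ ^ p) ^ (1 / p)) atTop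
            (𝓝 0) := by
      have := (hlim.rpow_const (p := 1 / p) (Or.inr (by positivity))).const_mul
        ((∫ z, ‖H z‖ ^ cj p) ^ (1 / cj p))
      rwa [Real.zero_rpow (by positivity), mul_zero] at this
    rw [tendsto_iff_norm_sub_tendsto_zero]
    exact squeeze_zero (fun _ => norm_nonneg _) e2 e3
  have hmeas : AEStronglyMeasurable zl volume :=
    aestronglyMeasurable_of_tendsto_ae atTop (fun k => (h k).meas) hl
  have hMl : ∀ᵐ y, |zl y| ≤ M := by
    filter_upwards [hl, ae_all_iff.2 hM] with y hy hy2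
    exact le_of_tendsto hy.abs (Eventually.of_forall hy2)
  refine ⟨w, N, g, h0, h1, ⟨hmeas, ⟨M, hMl⟩, ?_, hg, ?_⟩, hgK, hwk⟩
  · filter_upwards [hl, ae_all_iff.2 fun k => (h k).zero] with y hy hy2 hyD
    have : Tendsto (fun k => z k y) atTop (𝓝 0) := by
      simp_rw [fun k => hy2 k hyD]
      exact tendsto_const_nhds
    exact tendsto_nhds_unique hy this
  · intro φ hφ
    obtain ⟨c1, s1, -, -⟩ := der_tst_int hφ
    have cφ := hφ.smooth.continuous
    have hlp : (1 : ENNReal) ≤ ENNReal.ofReal p := by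
      rw [← ENNReal.ofReal_one]
      exact ENNReal.ofReal_le_ofReal hp.le
    have hgl : LocallyIntegrableOn g univ volume :=
      (hg.locallyIntegrable hlp).locallyIntegrableOn univ
    have i1 : Integrable (fun y => φ y • g y) volume := loc_int_smul hgl hφ
    have i2 : Integrable (fun y => zl y • dx φ y) volume := by
      refine Integrable.mono' (((c1.integrable_of_hasCompactSupport s1).norm).const_mul M)
        (hmeas.smul c1.aestronglyMeasurable) ?_
      filter_upwards [hMl] with y hy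
      rw [norm_smul, Real.norm_eq_abs]
      exact mul_le_mul_of_nonneg_right hy (norm_nonneg _)
    refine der_vec i2 i1 fun v => ?_
    have hH : MemLp (fun y => φ y • v) (ENNReal.ofReal (cj p)) volume := by
      have : Continuous fun y => φ y • v := cφ.smul continuous_const
      exact this.memLp_of_hasCompactSupport (hφ.cpt.smul_right)
    have t1 := hwk _ hH
    have e1 : ∀ k, ∫ y, inner ℝ (φ y • v) (G k y) = -∫ y, inner ℝ (z k y • dx φ y) v := by
      intro k
      have hGk : LocallyIntegrableOn (G k) univ volume :=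
        ((h k).mem.locallyIntegrable hlp).locallyIntegrableOn univ
      have j1 : Integrable (fun y => φ y • G k y) volume := loc_int_smul hGk hφ
      have j2 : Integrable (fun y => z k y • dx φ y) volume := by
        refine Integrable.mono' (((c1.integrable_of_hasCompactSupport s1).norm).const_mul M)
          ((h k).meas.smul c1.aestronglyMeasurable) ?_
        filter_upwards [hM k] with y hy
        rw [norm_smul, Real.norm_eq_abs]
        exact mul_le_mul_of_nonneg_right hy (norm_nonneg _)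
      have e2 := (h k).wg φ hφ
      have e3 : ∫ y, inner ℝ (φ y • v) (G k y) = ∫ y, inner ℝ v (φ y • G k y) := by
        congr 1
        funext y
        rw [real_inner_smul_left, real_inner_smul_right]
      have e4 : ∫ y, inner ℝ (z k y • dx φ y) v = ∫ y, inner ℝ v (z k y • dx φ y) := by
        congr 1
        funext y
        exact real_inner_comm _ _
      rw [e3, e4, integral_inner j1 v, integral_inner j2 v, e2, inner_neg_right, neg_neg]
    have t2 : Tendsto (fun k => ∫ y, inner ℝ (φ y • v) (G k y)) atTop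
        (𝓝 (-∫ y, inner ℝ (zl y • dx φ y) v)) := by
      simp_rw [e1]
      exact (wlim_dct (fun k => (h k).meas) hM hl hφ v).neg
    have t3 := wlim_comb t2 h0 h1 h2
    have e5 := tendsto_nhds_unique t1 t3
    have e6 : ∫ y, inner ℝ (φ y • g y) v = ∫ y, inner ℝ (φ y • v) (g y) := by
      congr 1
      funext y
      rw [real_inner_smul_left, real_inner_smul_left, real_inner_comm]
    rw [e6, e5, neg_neg]

theorem wlim (hp : 1 < p) {D : Set (X n)} (hD : Bornology.IsBounded D) {z : ℕ → X n → ℝ}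
    {G : ℕ → X n → E n} {K M : ℝ} (h : ∀ k, W0 p D (z k) (G k)) (hM : ∀ k, ∀ᵐ y, |z k y| ≤ M)
    (hK : ∀ k, ∫ y, ‖G k y‖ ^ p ≤ K) {zl : X n → ℝ}
    (hl : ∀ᵐ y, Tendsto (fun k => z k y) atTop (𝓝 (zl y))) :
    ∃ Gl, W0 p D zl Gl ∧ ∫ y, ‖Gl y‖ ^ p ≤ K ∧ WkTo p G Gl := by
  obtain ⟨w, N, g, h0, h1, hW, hgK, hwk⟩ := wlim_aux hp h hM hK hl
  have hlp : (1 : ENNReal) ≤ ENNReal.ofReal p := by
    rw [← ENNReal.ofReal_one]
    exact ENNReal.ofReal_le_ofReal hp.le
  have key : ∀ H : X n → E n, MemLp H (ENNReal.ofReal (cj p)) volume → ∀ ε > 0,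
      ∀ᶠ k in atTop, ∫ y, inner ℝ (H y) (G k y) < (∫ y, inner ℝ (H y) (g y)) + ε := by
    intro H hH ε hε
    by_contra hcon
    rw [Filter.not_eventually] at hcon
    simp only [not_lt] at hcon
    obtain ⟨σ, hσ, hσ2⟩ := Filter.extraction_of_frequently_atTop hcon
    obtain ⟨w', N', g', h0', h1', hW', -, hwk'⟩ := wlim_aux hp (fun k => h (σ k))
      (fun k => hM (σ k)) (fun k => hK (σ k))
      (hl.mono fun y hy => hy.comp hσ.tendsto_atTop)
    have hgg : ∀ᵐ y ∂(volume.restrict univ), g' y = g y :=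
      wg_unique isOpen_univ ((hW'.mem.locallyIntegrable hlp).locallyIntegrableOn univ)
        ((hW.mem.locallyIntegrable hlp).locallyIntegrableOn univ) hW'.wg hW.wg
    rw [Measure.restrict_univ] at hgg
    have e1 : ∫ y, inner ℝ (H y) (g' y) = ∫ y, inner ℝ (H y) (g y) := by
      refine integral_congr_ae (hgg.mono fun y hy => ?_)
      simp only [hy]
    have t := hwk' H hH
    have hle : (∫ y, inner ℝ (H y) (g y)) + ε ≤ ∫ y, inner ℝ (H y) (g' y) := by
      refine ge_of_tendsto t (Eventually.of_forall fun j => ?_)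
      calc (∫ y, inner ℝ (H y) (g y)) + ε =
          ∑ k ∈ Finset.range (N' j), w' j k * ((∫ y, inner ℝ (H y) (g y)) + ε) := by
            rw [← Finset.sum_mul, h1' j, one_mul]
        _ ≤ _ := Finset.sum_le_sum fun k _ => mul_le_mul_of_nonneg_left (hσ2 k) (h0' j k)
    rw [e1] at hle
    linarith
  refine ⟨g, hW, hgK, fun H hH => ?_⟩
  rw [Metric.tendsto_atTop]
  intro ε hε
  have k1 := key H hH ε hε
  have k2 := key (fun y => -H y) hH.neg ε hε
  obtain ⟨J, hJ⟩ := eventually_atTop.1 (k1.and k2)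
  refine ⟨J, fun k hk => ?_⟩
  obtain ⟨a1, a2⟩ := hJ k hk
  simp only [inner_neg_left, integral_neg] at a2
  rw [Real.dist_eq, abs_lt]
  constructor <;> linarith

/-- weak lower semicontinuity -/
theorem wlsc (hp : 1 < p) {G : ℕ → X n → E n} {Gl H : X n → E n} {ζ : X n → ℝ} {δ : ℝ}
    (hζ : Measurable ζ) (hζ0 : ∀ z, 0 ≤ ζ z) (hζ1 : ∀ z, ζ z ≤ 1)
    (hG : ∀ k, MemLp (G k) (ENNReal.ofReal p) volume) (hGl : MemLp Gl (ENNReal.ofReal p) volume)
    (hH : MemLp H (ENNReal.ofReal p) volume) (hw : WkTo p G Gl)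
    (h : ∀ᶠ k in atTop, ∫ z, ζ z * ‖G k z - H z‖ ^ p ≤ δ) :
    ∫ z, ζ z * ‖Gl z - H z‖ ^ p ≤ δ := by
  have hp0 : 0 < p := by linarith
  have hd : MemLp (fun z => Gl z - H z) (ENNReal.ofReal p) volume := hGl.sub hH
  have hA : MemLp (fun z => A p (Gl z - H z)) (ENNReal.ofReal (cj p)) volume := memLp_flux hp hd
  have hζA : MemLp (fun z => ζ z • A p (Gl z - H z)) (ENNReal.ofReal (cj p)) volume := by
    refine hA.mono (hζ.aestronglyMeasurable.smul hA.1) (Eventually.of_forall fun z => ?_)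
    rw [norm_smul, Real.norm_of_nonneg (hζ0 z)]
    exact mul_le_of_le_one_left (norm_nonneg _) (hζ1 z)
  have hwt := hw _ hζA
  have hint : ∀ F : X n → E n, MemLp F (ENNReal.ofReal p) volume →
      Integrable (fun z => ζ z * ‖F z‖ ^ p) volume := by
    intro F hF
    have h1 : Integrable (fun z => ‖F z‖ ^ p) volume := (lps_int_iff hp0 hF.1).2 hF
    refine h1.mono' (hζ.aestronglyMeasurable.mul h1.1) (Eventually.of_forall fun z => ?_)
    have h2 : 0 ≤ ‖F z‖ ^ p := Real.rpow_nonneg (norm_nonneg _) _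
    rw [Real.norm_of_nonneg (mul_nonneg (hζ0 z) h2)]
    exact mul_le_of_le_one_left h2 (hζ1 z)
  have i0 := hint _ hd
  have hkey : ∀ k, ∫ z, ζ z * ‖Gl z - H z‖ ^ p ≤ (∫ z, ζ z * ‖G k z - H z‖ ^ p) -
      p * ((∫ z, inner ℝ (ζ z • A p (Gl z - H z)) (G k z)) -
        ∫ z, inner ℝ (ζ z • A p (Gl z - H z)) (Gl z)) := by
    intro k
    have i1 : Integrable (fun z => ζ z * ‖G k z - H z‖ ^ p) volume := hint _ ((hG k).sub hH)
    have i2 := (holder_inner hp hζA (hG k)).1
    have i3 := (holder_inner hp hζA hGl).1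
    have i4 : Integrable (fun z => p * (inner ℝ (ζ z • A p (Gl z - H z)) (G k z) -
        inner ℝ (ζ z • A p (Gl z - H z)) (Gl z))) volume := (i2.sub i3).const_mul p
    rw [← integral_sub i2 i3, ← integral_const_mul, ← integral_sub i1 i4]
    refine integral_mono i0 (i1.sub i4) fun z => ?_
    have hc := conv_tangent hp (Gl z - H z) (G k z - H z)
    have e1 : G k z - H z - (Gl z - H z) = G k z - Gl z := by abel
    rw [e1] at hc
    simp only [real_inner_smul_left]
    rw [← mul_sub, ← inner_sub_right]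
    have h2 : ‖Gl z - H z‖ ^ p + p * inner ℝ (A p (Gl z - H z)) (G k z - Gl z) ≤
        ‖G k z - H z‖ ^ p := by
      have := mul_le_mul_of_nonneg_left hc hp0.le
      rw [mul_add, mul_div_cancel₀ _ hp0.ne', mul_div_cancel₀ _ hp0.ne'] at this
      linarith
    have h3 := mul_le_mul_of_nonneg_left h2 (hζ0 z)
    nlinarith
  have t1 : Tendsto (fun k => δ - p * ((∫ z, inner ℝ (ζ z • A p (Gl z - H z)) (G k z)) -
        ∫ z, inner ℝ (ζ z • A p (Gl z - H z)) (Gl z))) atTop (𝓝 δ) := by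
    have := ((hwt.sub_const (∫ z, inner ℝ (ζ z • A p (Gl z - H z)) (Gl z))).const_mul p).const_sub δ
    rwa [sub_self, mul_zero, sub_zero] at this
  refine ge_of_tendsto t1 (h.mono fun k hk => ?_)
  have := hkey k
  linarith

end PP
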