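import Pool.Agent.PP.CACC
import Pool.Agent.PP.WLIM
import Pool.Agent.PP.EXH

open Set Metric Filter Topology MeasureTheory
open scoped ContDiff

noncomputable section

namespace PP

variable {n : ℕ}
variable {p : ℝ}

private lemma lsol_restrict {Ω Ω' : Set (X n)} (h : Ω' ⊆ Ω) {u : X n → ℝ} {G : X n → E n}
    (hs : SolOn p Ω u G) : SolOn p Ω' u G := by
  have hT : ∀ {φ : X n → ℝ}, Tst Ω' φ → Tst Ω φ := fun hφ => ⟨hφ.smooth, hφ.cpt, hφ.supp.trans h⟩
  obtain ⟨M, hM⟩ := hs.bdd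
  exact
    { meas := hs.meas.mono_measure (Measure.restrict_mono h le_rfl)
      bdd := ⟨M, ae_restrict_of_ae_restrict_of_subset h hM⟩
      memG := fun K hK hKs => hs.memG K hK (hKs.trans h)
      wg := fun φ hφ => hs.wg φ (hT hφ)
      ineq := fun φ hφ h0 => hs.ineq φ (hT hφ) h0
      eq := fun φ hφ => hs.eq φ (hT hφ) }

private lemma lsol_dt_cpt {Ω : Set (X n)} {φ : X n → ℝ} (hφ : Tst Ω φ) : HasCompactSupport (dt φ) :=
  HasCompactSupport.intro hφ.cpt fun z hz => dt_zero_of_notMem z hz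

private lemma lsol_dx_cpt {Ω : Set (X n)} {φ : X n → ℝ} (hφ : Tst Ω φ) : HasCompactSupport (dx φ) :=
  HasCompactSupport.intro hφ.cpt fun z hz => dx_zero_of_notMem z hz

private lemma lsol_rpow_add (hp : 1 < p) (a b : E n) :
    ‖a + b‖ ^ p ≤ 2 ^ (p - 1) * (‖a‖ ^ p + ‖b‖ ^ p) := by
  have h1 : ‖a + b‖ ^ p ≤ (‖a‖ + ‖b‖) ^ p :=
    Real.rpow_le_rpow (norm_nonneg _) (norm_add_le a b) (by linarith)
  have h2 := NNReal.rpow_add_le_mul_rpow_add_rpow ‖a‖₊ ‖b‖₊ hp.le
  have h3 : (‖a‖ + ‖b‖) ^ p ≤ 2 ^ (p - 1) * (‖a‖ ^ p + ‖b‖ ^ p) := by exact_mod_cast h2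
  exact h1.trans h3

private lemma lsol_int (hp : 1 < p) {μ : Measure (X n)} {H : X n → E n}
    (h : MemLp H (ENNReal.ofReal p) μ) : Integrable (fun y => ‖H y‖ ^ p) μ := by
  have h0 : ENNReal.ofReal p ≠ 0 := by
    rw [Ne, ENNReal.ofReal_eq_zero]; linarith
  have := h.integrable_norm_rpow h0 ENNReal.ofReal_ne_top
  rwa [ENNReal.toReal_ofReal (by linarith)] at this

private lemma lsol_strong (hp : 1 < p) {Θ : Set (X n)} (hΘ : IsOpen Θ)
    {F : X n → ℝ} (hF : Tst univ F) {M K : ℝ} {Ω : ℕ → Set (X n)}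
    (hΩ : ∀ i, IsOpen (Ω i) ∧ Ω i ⊆ Θ)
    (hΩe : ∀ D, IsCompact D → D ⊆ Θ → ∀ᶠ i in atTop, D ⊆ Ω i) {z : ℕ → X n → ℝ}
    {G : ℕ → X n → E n} (hW : ∀ i, W0 p Θ (z i) (G i)) (hM : ∀ i, ∀ᵐ y, |z i y| ≤ M)
    (hK : ∀ i, ∫ y, ‖G i y‖ ^ p ≤ K)
    (hs : ∀ i, SolOn p (Ω i) (fun y => F y + z i y) (fun y => dx F y + G i y))
    {zl : X n → ℝ} {Gl : X n → E n} (hl : ∀ᵐ y, Tendsto (fun i => z i y) atTop (𝓝 (zl y)))
    (hlW : W0 p Θ zl Gl) (hw : WkTo p G Gl) {S : Set (X n)} (hS : IsCompact S) (hSΘ : S ⊆ Θ) :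
    Tendsto (fun i => ∫ y in S, ‖(dx F y + G i y) - (dx F y + Gl y)‖ ^ p) atTop (𝓝 0) := by
  have hp0 : 0 < p := by linarith
  have hcj : 0 < cj p := by unfold cj; exact div_pos hp0 (by linarith)
  have hFW := tst_W1 hp hF
  have memH : ∀ i, MemLp (fun y => dx F y + G i y) (ENNReal.ofReal p) volume := fun i =>
    hFW.mem.add (hW i).mem
  set K2 : ℝ := 2 ^ (p - 1) * ((∫ y, ‖dx F y‖ ^ p) + K) with hK2
  have hK2b : ∀ i, ∫ y, ‖dx F y + G i y‖ ^ p ≤ K2 := by
    intro i
    have h1 : ∫ y, ‖dx F y + G i y‖ ^ p ≤ ∫ y, 2 ^ (p - 1) * (‖dx F y‖ ^ p + ‖G i y‖ ^ p) := by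
      apply integral_mono (lsol_int hp (memH i))
      · exact ((lsol_int hp hFW.mem).add (lsol_int hp (hW i).mem)).const_mul _
      · intro y
        exact lsol_rpow_add hp (dx F y) (G i y)
    rw [integral_const_mul, integral_add (lsol_int hp hFW.mem) (lsol_int hp (hW i).mem)] at h1
    refine h1.trans ?_
    rw [hK2]
    have := hK i
    have h2 : (0 : ℝ) ≤ 2 ^ (p - 1) := by positivity
    exact mul_le_mul_of_nonneg_left (by linarith) h2
  have hK20 : 0 ≤ K2 := le_trans (integral_nonneg fun y => by positivity) (hK2b 0)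
  obtain ⟨ζ, hζ, hζb, hζ1⟩ := exists_cutoff hS hΘ hSΘ
  have hζc : Continuous ζ := hζ.smooth.continuous
  have hζm : Measurable ζ := hζc.measurable
  have hζ1' : ∀ y ∈ S, ζ y = 1 := fun y hy => hζ1.self_of_nhdsSet y hy
  have cdt : Continuous (dt ζ) := (contDiff_dt hζ.smooth).continuous
  have cdx : Continuous (dx ζ) := (contDiff_dx hζ.smooth).continuous
  have idt : Integrable (dt ζ) := cdt.integrable_of_hasCompactSupport (lsol_dt_cpt hζ)
  have hζu : Tst univ ζ := ⟨hζ.smooth, hζ.cpt, subset_univ _⟩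
  have mdx : MemLp (dx ζ) (ENNReal.ofReal p) volume := (tst_W1 hp hζu).mem
  have hMall : ∀ᵐ y, ∀ i, |z i y| ≤ M := ae_all_iff.2 hM
  -- the error term
  have T1 : Tendsto (fun ij : ℕ × ℕ => ∫ y, dt ζ y * (z ij.1 y - z ij.2 y) ^ 2)
      (atTop ×ˢ atTop) (𝓝 0) := by
    have h0 : (0 : ℝ) = ∫ _ : X n, (0 : ℝ) := by simp
    rw [h0]
    apply tendsto_integral_filter_of_dominated_convergence (fun y => ‖dt ζ y‖ * (2 * M) ^ 2)
    · filter_upwards with ij
      exact cdt.aestronglyMeasurable.mul (((hW ij.1).meas.sub (hW ij.2).meas).pow 2)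
    · filter_upwards with ij
      filter_upwards [hMall] with y hy
      rw [norm_mul]
      have h1 := abs_le.1 (hy ij.1)
      have h2 := abs_le.1 (hy ij.2)
      have h3 : ‖(z ij.1 y - z ij.2 y) ^ 2‖ ≤ (2 * M) ^ 2 := by
        rw [Real.norm_eq_abs, abs_of_nonneg (sq_nonneg _)]
        apply sq_le_sq'
        · linarith
        · linarith
      exact mul_le_mul_of_nonneg_left h3 (norm_nonneg _)
    · exact idt.norm.mul_const _
    · filter_upwards [hl] with y hy
      have h1 : Tendsto (fun ij : ℕ × ℕ => dt ζ y * (z ij.1 y - z ij.2 y) ^ 2) (atTop ×ˢ atTop)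
          (𝓝 (dt ζ y * (zl y - zl y) ^ 2)) :=
        (((hy.comp tendsto_fst).sub (hy.comp tendsto_snd)).pow 2).const_mul _
      simpa using h1
  have mz : ∀ i j, MemLp (fun y => (z i y - z j y) • dx ζ y) (ENNReal.ofReal p) volume := by
    intro i j
    apply MemLp.of_le_mul (c := 2 * M) mdx
    · exact ((hW i).meas.sub (hW j).meas).smul cdx.aestronglyMeasurable
    · filter_upwards [hMall] with y hy
      rw [norm_smul]
      have h1 := abs_le.1 (hy i)
      have h2 := abs_le.1 (hy j)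
      have h3 : ‖z i y - z j y‖ ≤ 2 * M := by
        rw [Real.norm_eq_abs, abs_le]; constructor <;> linarith
      exact mul_le_mul_of_nonneg_right h3 (norm_nonneg _)
  have T2 : Tendsto (fun ij : ℕ × ℕ => ∫ y, ‖(z ij.1 y - z ij.2 y) • dx ζ y‖ ^ p)
      (atTop ×ˢ atTop) (𝓝 0) := by
    have h0 : (0 : ℝ) = ∫ _ : X n, (0 : ℝ) := by simp
    rw [h0]
    apply tendsto_integral_filter_of_dominated_convergence (fun y => (2 * M) ^ p * ‖dx ζ y‖ ^ p)
    · filter_upwards with ij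
      exact (lsol_int hp (mz ij.1 ij.2)).aestronglyMeasurable
    · filter_upwards with ij
      filter_upwards [hMall] with y hy
      have h1 := abs_le.1 (hy ij.1)
      have h2 := abs_le.1 (hy ij.2)
      have h3 : ‖z ij.1 y - z ij.2 y‖ ≤ 2 * M := by
        rw [Real.norm_eq_abs, abs_le]; constructor <;> linarith
      rw [Real.norm_eq_abs, abs_of_nonneg (by positivity), norm_smul,
        Real.mul_rpow (norm_nonneg _) (norm_nonneg _)]
      exact mul_le_mul_of_nonneg_right (Real.rpow_le_rpow (norm_nonneg _) h3 hp0.le)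
        (by positivity)
    · exact (lsol_int hp mdx).const_mul _
    · filter_upwards [hl] with y hy
      have h1 : Tendsto (fun ij : ℕ × ℕ => ‖(z ij.1 y - z ij.2 y) • dx ζ y‖ ^ p) (atTop ×ˢ atTop)
          (𝓝 (‖(zl y - zl y) • dx ζ y‖ ^ p)) :=
        (((hy.comp tendsto_fst).sub (hy.comp tendsto_snd)).smul_const _).norm.rpow_const
          (Or.inr hp0.le)
      simpa [Real.zero_rpow hp0.ne'] using h1
  have T3 : Tendsto (fun ij : ℕ × ℕ => (1 / 2) * (∫ y, dt ζ y * (z ij.1 y - z ij.2 y) ^ 2) +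
      2 * (K2 ^ (1 / cj p) * (∫ y, ‖(z ij.1 y - z ij.2 y) • dx ζ y‖ ^ p) ^ (1 / p)))
      (atTop ×ˢ atTop) (𝓝 0) := by
    have h1 := T2.rpow_const (p := 1 / p) (Or.inr (by positivity))
    rw [Real.zero_rpow (by positivity)] at h1
    have h2 := (T1.const_mul (1 / 2)).add ((h1.const_mul (K2 ^ (1 / cj p))).const_mul 2)
    simpa using h2
  -- the Caccioppoli estimate
  have hcac : ∀ i j, tsupport ζ ⊆ Ω i → tsupport ζ ⊆ Ω j →
      ∫ y, ζ y * inner ℝ (A p (dx F y + G i y) - A p (dx F y + G j y))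
        ((dx F y + G i y) - (dx F y + G j y)) ≤
      (1 / 2) * (∫ y, dt ζ y * (z i y - z j y) ^ 2) +
      2 * (K2 ^ (1 / cj p) * (∫ y, ‖(z i y - z j y) • dx ζ y‖ ^ p) ^ (1 / p)) := by
    intro i j hi hj
    have h1 := cacc hp ((hΩ i).1.inter (hΩ j).1) (lsol_restrict inter_subset_left (hs i))
      (lsol_restrict inter_subset_right (hs j)) (ζ := ζ) ⟨hζ.smooth, hζ.cpt, subset_inter hi hj⟩
      (fun y => (hζb y).1)
    refine h1.trans ?_
    simp only [add_sub_add_left_eq_sub]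
    have hH : ∀ k, Integrable (fun y => inner ℝ (A p (dx F y + G k y)) ((z i y - z j y) • dx ζ y)) ∧
        |∫ y, inner ℝ (A p (dx F y + G k y)) ((z i y - z j y) • dx ζ y)| ≤
        K2 ^ (1 / cj p) * (∫ y, ‖(z i y - z j y) • dx ζ y‖ ^ p) ^ (1 / p) := by
      intro k
      obtain ⟨a1, a2⟩ := holder_inner hp (memLp_flux hp (memH k)) (mz i j)
      refine ⟨a1, a2.trans ?_⟩
      rw [integral_flux hp]
      apply mul_le_mul_of_nonneg_right _ (Real.rpow_nonneg (integral_nonneg fun y => by positivity) _)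
      exact Real.rpow_le_rpow (integral_nonneg fun y => by positivity) (hK2b k) (by positivity)
    have h2 : ∫ y, (z i y - z j y) * inner ℝ (A p (dx F y + G i y) - A p (dx F y + G j y)) (dx ζ y) =
        (∫ y, inner ℝ (A p (dx F y + G i y)) ((z i y - z j y) • dx ζ y)) -
        ∫ y, inner ℝ (A p (dx F y + G j y)) ((z i y - z j y) • dx ζ y) := by
      rw [← integral_sub (hH i).1 (hH j).1]
      apply integral_congr_ae
      filter_upwards with y
      rw [inner_smul_right, inner_smul_right, inner_sub_left]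
      ring
    rw [h2]
    have h3 := abs_le.1 (hH i).2
    have h4 := abs_le.1 (hH j).2
    linarith
  have ev : ∀ δ > 0, ∃ N, ∀ i ≥ N, ∀ j ≥ N,
      ∫ y, ζ y * ‖G j y - G i y‖ ^ p ≤ δ := by
    intro δ hδ
    obtain ⟨η, hη, hlps⟩ := lps (n := n) hp K2 δ hδ
    have e1 : ∀ᶠ ij : ℕ × ℕ in atTop ×ˢ atTop,
        (1 / 2) * (∫ y, dt ζ y * (z ij.1 y - z ij.2 y) ^ 2) +
        2 * (K2 ^ (1 / cj p) * (∫ y, ‖(z ij.1 y - z ij.2 y) • dx ζ y‖ ^ p) ^ (1 / p)) < η :=
      T3.eventually_lt_const hη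
    rw [prod_atTop_atTop_eq] at e1
    obtain ⟨N1, hN1⟩ := eventually_atTop_prod_self'.1 e1
    obtain ⟨N2, hN2⟩ := eventually_atTop.1 (hΩe (tsupport ζ) hζ.cpt hζ.supp)
    refine ⟨max N1 N2, fun i hi j hj => ?_⟩
    have hi1 : N1 ≤ i := (le_max_left _ _).trans hi
    have hi2 : N2 ≤ i := (le_max_right _ _).trans hi
    have hj1 : N1 ≤ j := (le_max_left _ _).trans hj
    have hj2 : N2 ≤ j := (le_max_right _ _).trans hj
    have h1 := hcac j i (hN2 j hj2) (hN2 i hi2)
    have h2 := hN1 j hj1 i hi1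
    have h3 := hlps ζ (fun y => dx F y + G j y) (fun y => dx F y + G i y) hζm (fun y => (hζb y).1)
      (fun y => (hζb y).2) (memH j) (memH i) (hK2b j) (hK2b i) (h1.trans h2.le)
    simpa only [add_sub_add_left_eq_sub] using h3
  have iζ : ∀ i, Integrable (fun y => ζ y * ‖Gl y - G i y‖ ^ p) := by
    intro i
    have h1 : Integrable (fun y => ‖Gl y - G i y‖ ^ p) := lsol_int hp (hlW.mem.sub (hW i).mem)
    apply h1.bdd_mul (c := 1) hζm.aestronglyMeasurable
    filter_upwards with y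
    rw [Real.norm_eq_abs, abs_of_nonneg (hζb y).1]
    exact (hζb y).2
  have main : ∀ δ > 0, ∃ N, ∀ i ≥ N, ∫ y in S, ‖(dx F y + G i y) - (dx F y + Gl y)‖ ^ p ≤ δ := by
    intro δ hδ
    obtain ⟨N, hN⟩ := ev δ hδ
    refine ⟨N, fun i hi => ?_⟩
    have h1 := wlsc hp hζm (fun y => (hζb y).1) (fun y => (hζb y).2) (fun k => (hW k).mem) hlW.mem
      (hW i).mem hw (δ := δ) (by
        filter_upwards [eventually_ge_atTop N] with j hj using hN i hi j hj)
    have h2 : ∫ y in S, ‖(dx F y + G i y) - (dx F y + Gl y)‖ ^ p =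
        ∫ y in S, ζ y * ‖Gl y - G i y‖ ^ p := by
      apply setIntegral_congr_fun hS.measurableSet
      intro y hy
      simp only [add_sub_add_left_eq_sub]
      rw [hζ1' y hy, one_mul, norm_sub_rev]
    rw [h2]
    refine (setIntegral_le_integral (iζ i) ?_).trans h1
    filter_upwards with y
    exact mul_nonneg (hζb y).1 (by positivity)
  rw [Metric.tendsto_atTop]
  intro δ hδ
  obtain ⟨N, hN⟩ := main (δ / 2) (by linarith)
  refine ⟨N, fun i hi => ?_⟩
  rw [Real.dist_eq, sub_zero, abs_of_nonneg (integral_nonneg fun y => by positivity)]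
  have := hN i hi
  linarith

theorem lim_sol (hp : 1 < p) {Θ : Set (X n)} (hΘ : IsOpen Θ) (hb : Bornology.IsBounded Θ)
    {F : X n → ℝ} (hF : Tst univ F) {M K : ℝ} {Ω : ℕ → Set (X n)}
    (hΩ : ∀ i, IsOpen (Ω i) ∧ Ω i ⊆ Θ)
    (hΩe : ∀ D, IsCompact D → D ⊆ Θ → ∀ᶠ i in atTop, D ⊆ Ω i) {z : ℕ → X n → ℝ}
    {G : ℕ → X n → E n} (hW : ∀ i, W0 p Θ (z i) (G i)) (hM : ∀ i, ∀ᵐ y, |z i y| ≤ M)
    (hK : ∀ i, ∫ y, ‖G i y‖ ^ p ≤ K)
    (hs : ∀ i, SolOn p (Ω i) (fun y => F y + z i y) (fun y => dx F y + G i y))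
    {zl : X n → ℝ} {Gl : X n → E n} (hl : ∀ᵐ y, Tendsto (fun i => z i y) atTop (𝓝 (zl y)))
    (hlW : W0 p Θ zl Gl) (hw : WkTo p G Gl) :
    SolOn p Θ (fun y => F y + zl y) (fun y => dx F y + Gl y) := by
  have hp0 : 0 < p := by linarith
  have hcj : 0 < cj p := by unfold cj; exact div_pos hp0 (by linarith)
  have hFW := tst_W1 hp hF
  have hD : Bornology.IsBounded (tsupport F ∪ Θ) := hF.cpt.isCompact.isBounded.union hb
  have hW' : W0 p (tsupport F ∪ Θ) (fun y => F y + zl y) (fun y => dx F y + Gl y) := by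
    have h1 := W0.lin hp hD (hFW.toW0.mono subset_union_left) (hlW.mono subset_union_right) 1 1
    simpa only [one_mul, one_smul] using h1
  have hMall : ∀ᵐ y, ∀ i, |z i y| ≤ M := ae_all_iff.2 hM
  have hTu : ∀ {φ : X n → ℝ}, Tst Θ φ → Tst univ φ := fun hφ => ⟨hφ.smooth, hφ.cpt, subset_univ _⟩
  have heq : WEq p Θ (fun y => F y + zl y) (fun y => dx F y + Gl y) := by
    intro φ hφ
    have hS : IsCompact (tsupport φ) := hφ.cpt
    have cdt : Continuous (dt φ) := (contDiff_dt hφ.smooth).continuous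
    have idt : Integrable (dt φ) := cdt.integrable_of_hasCompactSupport (lsol_dt_cpt hφ)
    obtain ⟨cF, hcF⟩ := hF.cpt.exists_bound_of_continuous hF.smooth.continuous
    have L1 : Tendsto (fun i => ∫ y, (F y + z i y) * dt φ y) atTop
        (𝓝 (∫ y, (F y + zl y) * dt φ y)) := by
      apply tendsto_integral_of_dominated_convergence (fun y => (cF + M) * ‖dt φ y‖)
      · intro i
        exact (hF.smooth.continuous.aestronglyMeasurable.add (hW i).meas).mul
          cdt.aestronglyMeasurable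
      · exact idt.norm.const_mul _
      · intro i
        filter_upwards [hMall] with y hy
        rw [norm_mul]
        have h1 : ‖F y + z i y‖ ≤ cF + M := (norm_add_le _ _).trans (add_le_add (hcF y) (hy i))
        exact mul_le_mul_of_nonneg_right h1 (norm_nonneg _)
      · filter_upwards [hl] with y hy
        exact (hy.const_add (F y)).mul_const _
    have strong := lsol_strong hp hΘ hF hΩ hΩe hW hM hK hs hl hlW hw hS hφ.supp
    have memH : ∀ i, MemLp (fun y => dx F y + G i y) (ENNReal.ofReal p)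
        (volume.restrict (tsupport φ)) := fun i => (hFW.mem.add (hW i).mem).restrict _
    have memHl : MemLp (fun y => dx F y + Gl y) (ENNReal.ofReal p)
        (volume.restrict (tsupport φ)) := (hFW.mem.add hlW.mem).restrict _
    have fl := flux_tendsto hp hS.measurableSet memH memHl strong
    have mφ : MemLp (dx φ) (ENNReal.ofReal p) (volume.restrict (tsupport φ)) :=
      (tst_W1 hp (hTu hφ)).mem.restrict _
    have hfull : ∀ H : X n → E n, ∫ y in tsupport φ, inner ℝ (H y) (dx φ y) =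
        ∫ y, inner ℝ (H y) (dx φ y) := by
      intro H
      apply setIntegral_eq_integral_of_forall_compl_eq_zero
      intro y hy
      rw [dx_zero_of_notMem y hy, inner_zero_right]
    have L2 : Tendsto (fun i => ∫ y, inner ℝ (A p (dx F y + G i y)) (dx φ y)) atTop
        (𝓝 (∫ y, inner ℝ (A p (dx F y + Gl y)) (dx φ y))) := by
      rw [tendsto_iff_dist_tendsto_zero]
      have lim : Tendsto (fun i => (∫ y in tsupport φ,
          ‖A p (dx F y + G i y) - A p (dx F y + Gl y)‖ ^ cj p) ^ (1 / cj p) *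
          (∫ y in tsupport φ, ‖dx φ y‖ ^ p) ^ (1 / p)) atTop (𝓝 0) := by
        have h1 := fl.rpow_const (p := 1 / cj p) (Or.inr (by positivity))
        rw [Real.zero_rpow (by positivity)] at h1
        simpa using h1.mul_const ((∫ y in tsupport φ, ‖dx φ y‖ ^ p) ^ (1 / p))
      apply squeeze_zero (fun _ => dist_nonneg) _ lim
      intro i
      rw [Real.dist_eq, ← hfull, ← hfull]
      have i1 := (holder_inner hp (memLp_flux hp (memH i)) mφ).1
      have i2 := (holder_inner hp (memLp_flux hp memHl) mφ).1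
      rw [← integral_sub i1 i2]
      have h3 := (holder_inner hp ((memLp_flux hp (memH i)).sub (memLp_flux hp memHl)) mφ).2
      simp only [Pi.sub_apply, inner_sub_left] at h3
      exact h3
    have L3 := L2.sub L1
    have ev : ∀ᶠ i in atTop, (∫ y, inner ℝ (A p (dx F y + G i y)) (dx φ y)) -
        ∫ y, (F y + z i y) * dt φ y = 0 := by
      filter_upwards [hΩe (tsupport φ) hS hφ.supp] with i hi
      exact (hs i).eq φ ⟨hφ.smooth, hφ.cpt, hi⟩
    have L4 : Tendsto (fun i => (∫ y, inner ℝ (A p (dx F y + G i y)) (dx φ y)) -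
        ∫ y, (F y + z i y) * dt φ y) atTop (𝓝 0) :=
      tendsto_const_nhds.congr' (by filter_upwards [ev] with i hi using hi.symm)
    exact tendsto_nhds_unique L3 L4
  obtain ⟨M', hM'⟩ := hW'.bdd
  exact
    { meas := hW'.meas.restrict
      bdd := ⟨M', ae_restrict_of_ae hM'⟩
      memG := fun K _ _ => hW'.mem.restrict K
      wg := fun φ hφ => hW'.wg φ (hTu hφ)
      ineq := fun φ hφ _ => by
        have := heq φ hφ
        linarith
      eq := heq }

end PP
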