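import Pool.Agent.PP.WLIM
import Pool.Agent.PP.AVG1
import Pool.Agent.PP.CAL2
import Pool.Agent.PP.CAL3
import Pool.Agent.PP.CAL4
import Pool.Agent.PP.POI
import Pool.Agent.PP.LPS
import Pool.Agent.PP.EXH

open Set Metric Filter Topology MeasureTheory
open scoped ContDiff

noncomputable section

namespace PP

variable {n : ℕ}
variable {p : ℝ}

theorem mty_bound {H : Type*} [NormedAddCommGroup H] {φ : X n → H} (hφ : Continuous φ)
    (hc : HasCompactSupport φ) : ∃ B : ℝ, 0 ≤ B ∧ ∀ y, ‖φ y‖ ≤ B := by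
  obtain ⟨B, hB⟩ := hc.exists_bound_of_continuous hφ
  exact ⟨|B|, abs_nonneg _, fun y => (hB y).trans (le_abs_self _)⟩

theorem mty_memLp {H : Type*} [NormedAddCommGroup H] {S : Set (X n)}
    (hS : Bornology.IsBounded S) {f : X n → H} (hf : AEStronglyMeasurable f volume) {B : ℝ}
    (hB : ∀ᵐ y, ‖f y‖ ≤ B) (h0 : ∀ᵐ y, y ∉ S → f y = 0) (q : ENNReal) : MemLp f q volume := by
  obtain ⟨R, hR⟩ := hS.subset_closedBall 0
  have hT : MeasurableSet (closedBall (0 : X n) R) := isClosed_closedBall.measurableSet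
  have h1 : MemLp f q (volume.restrict (closedBall (0 : X n) R)) := by
    have : IsFiniteMeasure (volume.restrict (closedBall (0 : X n) R)) :=
      ⟨by
        rw [Measure.restrict_apply_univ]
        exact (isCompact_closedBall (0 : X n) R).measure_lt_top⟩
    exact MemLp.of_bound hf.restrict B (ae_restrict_of_ae hB)
  have h2 : MemLp ((closedBall (0 : X n) R).indicator f) q volume :=
    (memLp_indicator_iff_restrict hT).2 h1
  refine h2.ae_eq ?_
  filter_upwards [h0] with y hy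
  by_cases hyR : y ∈ closedBall (0 : X n) R
  · rw [indicator_of_mem hyR]
  · rw [indicator_of_notMem hyR]
    exact (hy (fun h => hyR (hR h))).symm

theorem mty_cpt_dt {φ : X n → ℝ} (hc : HasCompactSupport φ) : HasCompactSupport (dt φ) :=
  HasCompactSupport.intro hc fun y hy => dt_zero_of_notMem y hy

theorem mty_cpt_dx {φ : X n → ℝ} (hc : HasCompactSupport φ) : HasCompactSupport (dx φ) :=
  HasCompactSupport.intro hc fun y hy => dx_zero_of_notMem y hy

/-- dominated convergence on a compact set -/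
theorem mty_dct {S : Set (X n)} (hS : IsCompact S) {f : ℕ → X n → ℝ} {g : X n → ℝ} {B : ℝ}
    (hf : ∀ k, AEStronglyMeasurable (f k) volume) (hB : ∀ k, ∀ᵐ y, |f k y| ≤ B)
    (h0 : ∀ k, ∀ᵐ y, y ∉ S → f k y = 0) (hl : ∀ᵐ y, Tendsto (fun k => f k y) atTop (𝓝 (g y))) :
    Tendsto (fun k => ∫ y, f k y) atTop (𝓝 (∫ y, g y)) := by
  have hSm : MeasurableSet S := hS.isClosed.measurableSet
  refine tendsto_integral_of_dominated_convergence (S.indicator fun _ => |B|) hf ?_ ?_ hl
  · rw [integrable_indicator_iff hSm]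
    exact integrableOn_const (hs := hS.measure_lt_top.ne)
  · intro k
    filter_upwards [hB k, h0 k] with y h1 h2
    by_cases hy : y ∈ S
    · rw [indicator_of_mem hy]
      exact h1.trans (le_abs_self _)
    · rw [indicator_of_notMem hy, h2 hy]
      simp

theorem mty_pow (hp : 1 < p) {a b : ℝ} (ha : 0 ≤ a) (hb : 0 ≤ b) :
    (a + b) ^ p ≤ 2 ^ p * (a ^ p + b ^ p) := by
  have hp0 : 0 ≤ p := by linarith
  rcases le_total a b with h | h
  · calc (a + b) ^ p ≤ (2 * b) ^ p := Real.rpow_le_rpow (by positivity) (by linarith) hp0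
      _ = 2 ^ p * b ^ p := Real.mul_rpow (by norm_num) hb
      _ ≤ _ := by
        have := Real.rpow_nonneg ha p
        have h2 : (0:ℝ) ≤ 2 ^ p := Real.rpow_nonneg (by norm_num) p
        nlinarith
  · calc (a + b) ^ p ≤ (2 * a) ^ p := Real.rpow_le_rpow (by positivity) (by linarith) hp0
      _ = 2 ^ p * a ^ p := Real.mul_rpow (by norm_num) ha
      _ ≤ _ := by
        have := Real.rpow_nonneg hb p
        have h2 : (0:ℝ) ≤ 2 ^ p := Real.rpow_nonneg (by norm_num) p
        nlinarith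

theorem mty_intpow (hp : 1 < p) {μ : Measure (X n)} {G : X n → E n}
    (hG : MemLp G (ENNReal.ofReal p) μ) : Integrable (fun y => ‖G y‖ ^ p) μ := by
  have hp0 : 0 < p := by linarith
  have := hG.integrable_norm_rpow (by simp [hp0]) ENNReal.ofReal_ne_top
  simpa [ENNReal.toReal_ofReal hp0.le] using this

theorem mty_intpow1 (hp : 1 < p) {μ : Measure (X n)} {G : X n → ℝ}
    (hG : MemLp G (ENNReal.ofReal p) μ) : Integrable (fun y => ‖G y‖ ^ p) μ := by
  have hp0 : 0 < p := by linarith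
  have := hG.integrable_norm_rpow (by simp [hp0]) ENNReal.ofReal_ne_top
  simpa [ENNReal.toReal_ofReal hp0.le] using this

/-- the test function `ζ (v0 + c - z)` -/
theorem mty_test (hp : 1 < p) {P : Set (X n)} (hP : Bornology.IsBounded P)
    {ζ : X n → ℝ} (hζ : Tst univ ζ) (hζP : tsupport ζ ⊆ P) {v0 vt : X n → ℝ} {V : X n → E n}
    (hv : W1 p P v0 vt V) (c : ℝ) {z zt : X n → ℝ} {G : X n → E n} (hz : W1 p P z zt G) :
    W1 p P (fun y => ζ y * (v0 y + c - z y))
      (fun y => ζ y * (vt y - zt y) + (v0 y + c - z y) * dt ζ y)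
      (fun y => ζ y • (V y - G y) + (v0 y + c - z y) • dx ζ y) := by
  have h1 := hv.smooth_mul hp hP hζ.smooth
  have h2 : W1 p P ζ (dt ζ) (dx ζ) := (tst_W1 hp hζ).mono hζP
  have h3 := hz.smooth_mul hp hP hζ.smooth
  have h4 := (h1.lin hp hP h2 1 c).lin hp hP h3 1 (-1)
  refine h4.congr (Eventually.of_forall fun y => ?_) (Eventually.of_forall fun y => ?_)
    (Eventually.of_forall fun y => ?_)
  · ring
  · ring
  · simp only [one_smul, smul_sub, neg_smul, sub_smul, add_smul]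
    abel

theorem mty_test0 (hp : 1 < p) {P : Set (X n)} (hP : Bornology.IsBounded P)
    {ζ : X n → ℝ} (hζ : Tst univ ζ) (hζP : tsupport ζ ⊆ P) {v0 vt : X n → ℝ} {V : X n → E n}
    (hv : W1 p P v0 vt V) (c : ℝ) :
    W1 p P (fun y => ζ y * (v0 y + c))
      (fun y => ζ y * vt y + (v0 y + c) * dt ζ y)
      (fun y => ζ y • V y + (v0 y + c) • dx ζ y) := by
  have h1 := mty_test hp hP hζ hζP hv c (W1.zero_fn (p := p) (C := P) (n := n) hp)
  refine h1.congr (Eventually.of_forall fun y => ?_) (Eventually.of_forall fun y => ?_)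
    (Eventually.of_forall fun y => ?_)
  · simp
  · simp
  · simp

theorem mty_int2 {f g : X n → ℝ} (hf : MemLp f 2 volume) (hg : MemLp g 2 volume) :
    Integrable (fun y => f y * g y) volume := hf.integrable_mul hg

theorem mty_T2 (hp : 1 < p) {P : Set (X n)} (hP : Bornology.IsBounded P) {F : X n → ℝ}
    (hF : Tst univ F)
    {ζ : X n → ℝ} (hζ : Tst univ ζ) (hζP : tsupport ζ ⊆ P) {v0 vt : X n → ℝ} {V : X n → E n}
    (hv : W1 p P v0 vt V) (c : ℝ) {z zt : X n → ℝ} {G : X n → E n} (hz : W1 p P z zt G) :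
    ∫ y, (dt F y + zt y) * (ζ y * (v0 y + c - z y)) =
      (∫ y, dt F y * (ζ y * (v0 y + c - z y))) -
      (∫ y, z y * (ζ y * vt y + (v0 y + c) * dt ζ y)) +
      1 / 2 * ∫ y, dt ζ y * z y ^ 2 := by
  have hFt : MemLp (dt F) 2 volume := (tst_W1 hp hF).memt
  have hφ := mty_test hp hP hζ hζP hv c hz
  have hψ := mty_test0 hp hP hζ hζP hv c
  have hζz := hz.smooth_mul hp hP hζ.smooth
  have e1 := int_time hp hP hz hψ
  have e2 := int_time hp hP hz hζz
  have a1 : Integrable (fun y => dt F y * (ζ y * (v0 y + c - z y))) volume :=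
    mty_int2 hFt (hφ.toW0.memLp_fn hP 2)
  have a2 : Integrable (fun y => zt y * (ζ y * (v0 y + c))) volume :=
    mty_int2 hz.memt (hψ.toW0.memLp_fn hP 2)
  have a3 : Integrable (fun y => zt y * (ζ y * z y)) volume :=
    mty_int2 hz.memt (hζz.toW0.memLp_fn hP 2)
  have hzz : MemLp (fun y => z y * dt ζ y) 2 volume := by
    obtain ⟨B, hB0, hB⟩ := mty_bound (contDiff_dt hζ.smooth).continuous (mty_cpt_dt hζ.cpt)
    obtain ⟨M, hM⟩ := hz.bdd
    refine mty_memLp (f := fun y => z y * dt ζ y) hP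
      (hz.meas.mul (contDiff_dt hζ.smooth).continuous.aestronglyMeasurable)
      (B := M * B) ?_ ?_ 2
    · filter_upwards [hM] with y hy
      rw [norm_mul]
      exact mul_le_mul hy (hB y) (norm_nonneg _) ((abs_nonneg _).trans hy)
    · filter_upwards [hz.zero] with y hy hyP
      rw [hy hyP, zero_mul]
  have a4 : Integrable (fun y => z y * (z y * dt ζ y)) volume :=
    mty_int2 (hz.toW0.memLp_fn hP 2) hzz
  have e3 : ∫ y, z y * (ζ y * zt y + z y * dt ζ y) =
      (∫ y, zt y * (ζ y * z y)) + ∫ y, z y * (z y * dt ζ y) := by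
    rw [← integral_add a3 a4]
    congr 1
    funext y
    ring
  have e4 : ∫ y, dt ζ y * z y ^ 2 = ∫ y, z y * (z y * dt ζ y) := by
    congr 1
    funext y
    ring
  have e5 : ∫ y, (dt F y + zt y) * (ζ y * (v0 y + c - z y)) =
      (∫ y, dt F y * (ζ y * (v0 y + c - z y))) + ((∫ y, zt y * (ζ y * (v0 y + c))) -
        ∫ y, zt y * (ζ y * z y)) := by
    have a5 : Integrable (fun y => zt y * (ζ y * (v0 y + c)) - zt y * (ζ y * z y)) volume :=
      a2.sub a3
    rw [← integral_sub a2 a3, ← integral_add a1 a5]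
    congr 1
    funext y
    ring
  rw [e5, e4]
  rw [e1]
  rw [e3] at e2
  linarith

theorem mty_T1 {S : Set (X n)} (hS : IsCompact S) {ε : ℝ} (hε : 0 < ε) {ft zt g ζ φt : X n → ℝ}
    {Q : ℝ} (hQ : 0 ≤ Q) {b1 b2 : ℝ} (hb1 : 0 ≤ b1) (hb2 : 0 ≤ b2) (hbQ : (b1 + b2) ^ 2 ≤ Q)
    (hft : ∀ᵐ y, |ft y| ≤ b1) (hg : ∀ᵐ y, |g y| ≤ b2) (hζ : ∀ᵐ y, 0 ≤ ζ y ∧ ζ y ≤ 1)
    (hg0 : ∀ᵐ y, y ∉ S → g y = 0) (hζ0 : ∀ᵐ y, y ∉ S → ζ y = 0)
    (hφt : ∀ᵐ y, φt y = g y - ζ y * zt y) (hzt : MemLp zt 2 volume)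
    (hi : Integrable (fun y => ε * ((ft y + zt y) * φt y)) volume) :
    ∫ y, ε * ((ft y + zt y) * φt y) ≤
      ε * (Q * volume.real S) + √ε / 2 * (ε * (∫ y, zt y ^ 2) + Q * volume.real S) := by
  have hSm : MeasurableSet S := hS.isClosed.measurableSet
  have hI : Integrable (S.indicator fun _ : X n => Q) volume := by
    rw [integrable_indicator_iff hSm]
    exact integrableOn_const (hs := hS.measure_lt_top.ne)
  have hIe : ∫ y, S.indicator (fun _ : X n => Q) y = Q * volume.real S := by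
    rw [integral_indicator hSm, setIntegral_const, smul_eq_mul, mul_comm]
  have hz2 : Integrable (fun y => zt y ^ 2) volume := hzt.integrable_sq
  have hR : ∫ y, (ε * S.indicator (fun _ : X n => Q) y + √ε / 2 * (ε * zt y ^ 2 +
      S.indicator (fun _ : X n => Q) y)) =
      ε * (Q * volume.real S) + √ε / 2 * (ε * (∫ y, zt y ^ 2) + Q * volume.real S) := by
    have j1 : Integrable (fun y => ε * zt y ^ 2 + S.indicator (fun _ : X n => Q) y) volume :=
      (hz2.const_mul ε).add hI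
    rw [integral_add (hI.const_mul ε) (j1.const_mul _),
      integral_const_mul, integral_const_mul, integral_add (hz2.const_mul ε) hI,
      integral_const_mul, hIe]
  rw [← hR]
  refine integral_mono_ae hi ((hI.const_mul ε).add (((hz2.const_mul ε).add hI).const_mul _)) ?_
  filter_upwards [hft, hg, hζ, hg0, hζ0, hφt] with y h1 h2 h3 h4 h5 h6
  by_cases hy : y ∈ S
  · rw [indicator_of_mem hy, h6]
    have hs : √ε * √ε = ε := Real.mul_self_sqrt hε.le
    have hs0 : 0 < √ε := Real.sqrt_pos.2 hε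
    set r := √ε with hr
    -- bound by absolute values
    have e1 : (ft y + zt y) * (g y - ζ y * zt y) ≤ b1 * b2 + |zt y| * (b1 + b2) := by
      have k1 : ft y * g y ≤ b1 * b2 := by
        calc ft y * g y ≤ |ft y * g y| := le_abs_self _
          _ = |ft y| * |g y| := abs_mul _ _
          _ ≤ b1 * b2 := mul_le_mul h1 h2 (abs_nonneg _) hb1
      have k2 : zt y * g y ≤ |zt y| * b2 := by
        calc zt y * g y ≤ |zt y * g y| := le_abs_self _
          _ = |zt y| * |g y| := abs_mul _ _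
          _ ≤ |zt y| * b2 := mul_le_mul_of_nonneg_left h2 (abs_nonneg _)
      have k3 : - (ft y * (ζ y * zt y)) ≤ |zt y| * b1 := by
        calc - (ft y * (ζ y * zt y)) ≤ |ft y * (ζ y * zt y)| := neg_le_abs _
          _ = |ft y| * (|ζ y| * |zt y|) := by rw [abs_mul, abs_mul]
          _ ≤ b1 * (1 * |zt y|) := by
            refine mul_le_mul h1 ?_ (by positivity) hb1
            refine mul_le_mul_of_nonneg_right ?_ (abs_nonneg _)
            rw [abs_of_nonneg h3.1]
            exact h3.2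
          _ = |zt y| * b1 := by ring
      have k4 : 0 ≤ ζ y * zt y ^ 2 := mul_nonneg h3.1 (sq_nonneg _)
      nlinarith
    have e2 : b1 * b2 ≤ Q := by nlinarith
    have e3 : ε * (|zt y| * (b1 + b2)) ≤ r / 2 * (ε * zt y ^ 2 + Q) := by
      have k1 : 0 ≤ (r * |zt y| - (b1 + b2)) ^ 2 := sq_nonneg _
      have k2 : r * |zt y| * (b1 + b2) * 2 ≤ ε * zt y ^ 2 + Q := by
        have : |zt y| ^ 2 = zt y ^ 2 := sq_abs _
        nlinarith
      calc ε * (|zt y| * (b1 + b2)) = r / 2 * (r * |zt y| * (b1 + b2) * 2) := by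
            rw [← hs]; ring
        _ ≤ _ := mul_le_mul_of_nonneg_left k2 (by positivity)
    calc ε * ((ft y + zt y) * (g y - ζ y * zt y)) ≤ ε * (b1 * b2 + |zt y| * (b1 + b2)) :=
          mul_le_mul_of_nonneg_left e1 hε.le
      _ = ε * (b1 * b2) + ε * (|zt y| * (b1 + b2)) := by ring
      _ ≤ ε * Q + r / 2 * (ε * zt y ^ 2 + Q) :=
          add_le_add (mul_le_mul_of_nonneg_left e2 hε.le) e3
  · rw [indicator_of_notMem hy, h6, h4 hy, h5 hy]
    have : 0 ≤ √ε / 2 * (ε * zt y ^ 2 + 0) := by positivity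
    simpa using this

theorem mty_neg_of_ae {P : Prop} {Q : X n → Prop} (h : ∀ᵐ y, Q y) (h1 : ∀ y, Q y → P) : P := by
  obtain ⟨y, hy⟩ := h.exists
  exact h1 y hy

/-- the variational inequality tested with `ζ (v0 + c - z)` -/
theorem mty_vi (hp : 1 < p) {Θ : Set (X n)} (hb : Bornology.IsBounded Θ)
    {F : X n → ℝ} (hF : Tst univ F) {ε : ℝ} {C : Set (X n)} (hC : C ⊆ Θ) {obs : X n → ℝ}
    {z zt : X n → ℝ} {G : X n → E n} (h : RegSol p ε C obs F z zt G)
    {ζ : X n → ℝ} (hζ : Tst univ ζ) (hζC : tsupport ζ ⊆ C) (hζ01 : ∀ y, 0 ≤ ζ y ∧ ζ y ≤ 1)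
    {D : Set (X n)} (hD : Bornology.IsBounded D) {v0 vt : X n → ℝ} {V : X n → E n}
    (hv : W1 p D v0 vt V) {c : ℝ} (hvo : ∀ᵐ y, - obs y ≤ v0 y + c) :
    Integrable (fun y => ε * ((dt F y + zt y) * (ζ y * (vt y - zt y) +
      (v0 y + c - z y) * dt ζ y))) volume ∧
    ∫ y, ζ y * inner ℝ (A p (dx F y + G y)) (G y - V y) ≤
      (∫ y, ε * ((dt F y + zt y) * (ζ y * (vt y - zt y) + (v0 y + c - z y) * dt ζ y))) +
      (∫ y, (dt F y + zt y) * (ζ y * (v0 y + c - z y))) +
      ∫ y, inner ℝ (A p (dx F y + G y)) ((v0 y + c - z y) • dx ζ y) := by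
  have hP : Bornology.IsBounded (Θ ∪ D) := hb.union hD
  have hφ := mty_test hp hP hζ (hζC.trans (hC.trans subset_union_left))
    (hv.mono subset_union_right) c (h.w.mono (hC.trans subset_union_left))
  have hφC : W1 p C _ _ _ := hφ.of_zero (D := C) (Eventually.of_forall fun y hy => by
    rw [image_eq_zero_of_notMem_tsupport (fun hh => hy (hζC hh)), zero_mul])
  have hvi := h.vi _ _ _ hφC ⟨1, one_pos, by
    filter_upwards [h.ob, hvo] with y h1 h2
    obtain ⟨h3, h4⟩ := hζ01 y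
    nlinarith⟩
  have hFt : MemLp (dt F) 2 volume := (tst_W1 hp hF).memt
  have hFx : MemLp (dx F) (ENNReal.ofReal p) volume := (tst_W1 hp hF).mem
  have i1 : Integrable (fun y => ε * ((dt F y + zt y) * (ζ y * (vt y - zt y) +
      (v0 y + c - z y) * dt ζ y))) volume :=
    (mty_int2 (hFt.add h.w.memt) hφ.memt).const_mul ε
  have i2 : Integrable (fun y => (dt F y + zt y) * (ζ y * (v0 y + c - z y))) volume :=
    mty_int2 (hFt.add h.w.memt) (hφ.toW0.memLp_fn hP 2)
  have hA : MemLp (fun y => A p (dx F y + G y)) (ENNReal.ofReal (cj p)) volume :=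
    memLp_flux hp (hFx.add h.w.mem)
  have i3 : Integrable (fun y => inner ℝ (A p (dx F y + G y))
      (ζ y • (V y - G y) + (v0 y + c - z y) • dx ζ y)) volume := (holder_inner hp hA hφ.mem).1
  obtain ⟨B, hB0, hB⟩ := mty_bound hζ.smooth.continuous hζ.cpt
  have hVG : MemLp (fun y => ζ y • (V y - G y)) (ENNReal.ofReal p) volume := by
    refine MemLp.of_le_mul (c := B) (hv.mem.sub h.w.mem)
      (hζ.smooth.continuous.aestronglyMeasurable.smul (hv.mem.sub h.w.mem).1)
      (Eventually.of_forall fun y => ?_)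
    rw [norm_smul]
    exact mul_le_mul_of_nonneg_right (hB y) (norm_nonneg _)
  have i4 : Integrable (fun y => inner ℝ (A p (dx F y + G y)) (ζ y • (V y - G y))) volume :=
    (holder_inner hp hA hVG).1
  have i5 : Integrable (fun y => inner ℝ (A p (dx F y + G y))
      ((v0 y + c - z y) • dx ζ y)) volume := by
    refine (i3.sub i4).congr (Eventually.of_forall fun y => ?_)
    simp only [Pi.sub_apply, inner_add_right]
    ring
  refine ⟨i1, ?_⟩
  have e1 : ∫ y, (ε * ((dt F y + zt y) * (ζ y * (vt y - zt y) + (v0 y + c - z y) * dt ζ y)) +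
      (dt F y + zt y) * (ζ y * (v0 y + c - z y)) + inner ℝ (A p (dx F y + G y))
      (ζ y • (V y - G y) + (v0 y + c - z y) • dx ζ y)) =
      (∫ y, ε * ((dt F y + zt y) * (ζ y * (vt y - zt y) + (v0 y + c - z y) * dt ζ y))) +
      (∫ y, (dt F y + zt y) * (ζ y * (v0 y + c - z y))) +
      ∫ y, inner ℝ (A p (dx F y + G y)) (ζ y • (V y - G y) + (v0 y + c - z y) • dx ζ y) := by
    have i12 : Integrable (fun y => ε * ((dt F y + zt y) * (ζ y * (vt y - zt y) +
      (v0 y + c - z y) * dt ζ y)) + (dt F y + zt y) * (ζ y * (v0 y + c - z y))) volume :=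
      i1.add i2
    rw [integral_add i12 i3, integral_add i1 i2]
  have e2 : ∫ y, inner ℝ (A p (dx F y + G y))
      (ζ y • (V y - G y) + (v0 y + c - z y) • dx ζ y) =
      - (∫ y, ζ y * inner ℝ (A p (dx F y + G y)) (G y - V y)) +
      ∫ y, inner ℝ (A p (dx F y + G y)) ((v0 y + c - z y) • dx ζ y) := by
    have : ∀ y, ζ y * inner ℝ (A p (dx F y + G y)) (G y - V y) =
        - inner ℝ (A p (dx F y + G y)) (ζ y • (V y - G y)) := by
      intro y
      rw [real_inner_smul_right, inner_sub_right, inner_sub_right]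
      ring
    simp_rw [this]
    rw [integral_neg, neg_neg, ← integral_add i4 i5]
    congr 1
    funext y
    rw [inner_add_right]
  rw [e1, e2] at hvi
  linarith

theorem mty_step (hp : 1 < p) {Θ : Set (X n)} (hb : Bornology.IsBounded Θ)
    {F : X n → ℝ} (hF : Tst univ F) {M K : ℝ} {ε : ℕ → ℝ} (hε : ∀ k, 0 < ε k)
    (hε0 : Tendsto ε atTop (𝓝 0)) {C : ℕ → Set (X n)} (hC : ∀ k, C k ⊆ Θ)
    (hCe : ∀ D, IsCompact D → D ⊆ Θ → ∀ᶠ k in atTop, D ⊆ C k) {obs : X n → ℝ}
    {z zt : ℕ → X n → ℝ} {G : ℕ → X n → E n}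
    (h : ∀ k, RegSol p (ε k) (C k) obs F (z k) (zt k) (G k))
    (hM0 : 0 ≤ M) (hM : ∀ k, ∀ᵐ y, |z k y| ≤ M) (hK : ∀ k, ε k * (∫ y, zt k y ^ 2) ≤ K)
    {zl : X n → ℝ} (hl : ∀ᵐ y, Tendsto (fun k => z k y) atTop (𝓝 (zl y)))
    {ζ : X n → ℝ} (hζ : Tst Θ ζ) (hζ01 : ∀ y, 0 ≤ ζ y ∧ ζ y ≤ 1)
    {D : Set (X n)} (hD : Bornology.IsBounded D) {v0 vt : X n → ℝ} {V : X n → E n}
    (hv : W1 p D v0 vt V) {c B : ℝ} (hB0 : 0 ≤ B) (hvB : ∀ᵐ y, |v0 y + c| ≤ B)
    (hvtB : ∀ᵐ y, |vt y| ≤ B) (hvo : ∀ᵐ y, - obs y ≤ v0 y + c) {K1 : ℝ}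
    (hK1 : ∀ k, (∫ y, ‖A p (dx F y + G k y)‖ ^ cj p) ^ (1 / cj p) ≤ K1) {η : ℝ} (hη : 0 < η) :
    ∀ᶠ k in atTop, ∫ y, ζ y * inner ℝ (A p (dx F y + G k y)) (G k y - V y) ≤
      (∫ y, dt F y * (ζ y * (v0 y + c - zl y))) -
      (∫ y, zl y * (ζ y * vt y + (v0 y + c) * dt ζ y)) + 1 / 2 * (∫ y, dt ζ y * zl y ^ 2) +
      K1 * (∫ y, ‖(v0 y + c - zl y) • dx ζ y‖ ^ p) ^ (1 / p) + η := by
  have hp0 : 0 < p := by linarith
  have hζu : Tst univ ζ := ⟨hζ.smooth, hζ.cpt, subset_univ _⟩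
  have hS : IsCompact (tsupport ζ) := hζ.cpt
  obtain ⟨BF, hBF0, hBF⟩ := mty_bound (contDiff_dt hF.smooth).continuous (mty_cpt_dt hF.cpt)
  obtain ⟨Bt, hBt0, hBt⟩ := mty_bound (contDiff_dt hζ.smooth).continuous (mty_cpt_dt hζ.cpt)
  obtain ⟨Bx, hBx0, hBx⟩ := mty_bound (contDiff_dx hζ.smooth).continuous (mty_cpt_dx hζ.cpt)
  have mF : AEStronglyMeasurable (dt F) volume :=
    (contDiff_dt hF.smooth).continuous.aestronglyMeasurable
  have mζ : AEStronglyMeasurable ζ volume := hζ.smooth.continuous.aestronglyMeasurable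
  have mt : AEStronglyMeasurable (dt ζ) volume :=
    (contDiff_dt hζ.smooth).continuous.aestronglyMeasurable
  have mx : AEStronglyMeasurable (dx ζ) volume :=
    (contDiff_dx hζ.smooth).continuous.aestronglyMeasurable
  have mv : AEStronglyMeasurable (fun y => v0 y + c) volume := hv.meas.add_const c
  have z0 : ∀ y, y ∉ tsupport ζ → ζ y = 0 := fun y hy => image_eq_zero_of_notMem_tsupport hy
  have zt0 : ∀ y, y ∉ tsupport ζ → dt ζ y = 0 := fun y hy => dt_zero_of_notMem y hy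
  have zx0 : ∀ y, y ∉ tsupport ζ → dx ζ y = 0 := fun y hy => dx_zero_of_notMem y hy
  set m := volume.real (tsupport ζ) with hm
  set b2 := B + (B + M) * Bt with hb2
  have hb20 : 0 ≤ b2 := by positivity
  set Q := (BF + b2) ^ 2 with hQ
  -- limits
  have l1 : Tendsto (fun k => ε k * (Q * m) + √(ε k) / 2 * (K + Q * m)) atTop (𝓝 0) := by
    have k1 : Tendsto (fun k => ε k * (Q * m)) atTop (𝓝 (0 * (Q * m))) := hε0.mul_const _
    have k2 : Tendsto (fun k => √(ε k) / 2 * (K + Q * m)) atTop (𝓝 (√0 / 2 * (K + Q * m))) :=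
      (((Real.continuous_sqrt.tendsto 0).comp hε0).div_const 2).mul_const _
    simpa using k1.add k2
  have l2 : Tendsto (fun k => ∫ y, dt F y * (ζ y * (v0 y + c - z k y))) atTop
      (𝓝 (∫ y, dt F y * (ζ y * (v0 y + c - zl y)))) := by
    refine mty_dct hS (B := BF * (1 * (B + M)))
      (fun k => mF.mul (mζ.mul (mv.sub (h k).w.meas))) (fun k => ?_) (fun k => ?_) ?_
    · filter_upwards [hvB, hM k] with y h1 h2
      rw [abs_mul, abs_mul]
      refine mul_le_mul (hBF y) ?_ (by positivity) hBF0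
      refine mul_le_mul ?_ ?_ (abs_nonneg _) zero_le_one
      · rw [abs_of_nonneg (hζ01 y).1]
        exact (hζ01 y).2
      · exact (abs_sub _ _).trans (add_le_add h1 h2)
    · exact Eventually.of_forall fun y hy => by rw [z0 y hy]; ring
    · filter_upwards [hl] with y hy
      exact ((hy.const_sub _).const_mul _).const_mul _
  have l3 : Tendsto (fun k => ∫ y, z k y * (ζ y * vt y + (v0 y + c) * dt ζ y)) atTop
      (𝓝 (∫ y, zl y * (ζ y * vt y + (v0 y + c) * dt ζ y))) := by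
    refine mty_dct hS (B := M * (1 * B + B * Bt))
      (fun k => (h k).w.meas.mul ((mζ.mul hv.memt.1).add (mv.mul mt))) (fun k => ?_)
      (fun k => ?_) ?_
    · filter_upwards [hvB, hM k, hvtB] with y h1 h2 h3
      rw [abs_mul]
      refine mul_le_mul h2 ?_ (abs_nonneg _) hM0
      refine (abs_add_le _ _).trans (add_le_add ?_ ?_)
      · rw [abs_mul]
        refine mul_le_mul ?_ h3 (abs_nonneg _) zero_le_one
        rw [abs_of_nonneg (hζ01 y).1]
        exact (hζ01 y).2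
      · rw [abs_mul]
        exact mul_le_mul h1 (hBt y) (abs_nonneg _) hB0
    · exact Eventually.of_forall fun y hy => by rw [z0 y hy, zt0 y hy]; ring
    · filter_upwards [hl] with y hy
      exact hy.mul_const _
  have l4 : Tendsto (fun k => ∫ y, dt ζ y * z k y ^ 2) atTop (𝓝 (∫ y, dt ζ y * zl y ^ 2)) := by
    refine mty_dct hS (B := Bt * M ^ 2)
      (fun k => mt.mul ((h k).w.meas.pow 2)) (fun k => ?_) (fun k => ?_) ?_
    · filter_upwards [hM k] with y h1
      rw [abs_mul, abs_pow]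
      exact mul_le_mul (hBt y) (pow_le_pow_left₀ (abs_nonneg _) h1 2) (by positivity) hBt0
    · exact Eventually.of_forall fun y hy => by rw [zt0 y hy]; ring
    · filter_upwards [hl] with y hy
      exact (hy.pow 2).const_mul _
  have l5 : Tendsto (fun k => ∫ y, ‖(v0 y + c - z k y) • dx ζ y‖ ^ p) atTop
      (𝓝 (∫ y, ‖(v0 y + c - zl y) • dx ζ y‖ ^ p)) := by
    refine mty_dct hS (B := ((B + M) * Bx) ^ p)
      (fun k => ((((mv.sub (h k).w.meas).smul mx).norm.aemeasurable).pow_const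
        p).aestronglyMeasurable) (fun k => ?_) (fun k => ?_) ?_
    · filter_upwards [hvB, hM k] with y h1 h2
      rw [abs_of_nonneg (Real.rpow_nonneg (norm_nonneg _) p)]
      refine Real.rpow_le_rpow (norm_nonneg _) ?_ hp0.le
      rw [norm_smul]
      refine mul_le_mul ?_ (hBx y) (norm_nonneg _) (by positivity)
      exact (abs_sub _ _).trans (add_le_add h1 h2)
    · exact Eventually.of_forall fun y hy => by
        rw [zx0 y hy, smul_zero, norm_zero, Real.zero_rpow hp0.ne']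
    · filter_upwards [hl] with y hy
      exact ((hy.const_sub _).smul_const _).norm.rpow_const (Or.inr hp0.le)
  have l6 : Tendsto (fun k => (ε k * (Q * m) + √(ε k) / 2 * (K + Q * m)) +
      ((∫ y, dt F y * (ζ y * (v0 y + c - z k y))) -
      (∫ y, z k y * (ζ y * vt y + (v0 y + c) * dt ζ y)) + 1 / 2 * (∫ y, dt ζ y * z k y ^ 2)) +
      K1 * (∫ y, ‖(v0 y + c - z k y) • dx ζ y‖ ^ p) ^ (1 / p)) atTop
      (𝓝 (0 + ((∫ y, dt F y * (ζ y * (v0 y + c - zl y))) -
      (∫ y, zl y * (ζ y * vt y + (v0 y + c) * dt ζ y)) + 1 / 2 * (∫ y, dt ζ y * zl y ^ 2)) +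
      K1 * (∫ y, ‖(v0 y + c - zl y) • dx ζ y‖ ^ p) ^ (1 / p))) :=
    (l1.add ((l2.sub l3).add (l4.const_mul _))).add
      ((l5.rpow_const (Or.inr (by positivity))).const_mul _)
  have l7 := l6.eventually (gt_mem_nhds (lt_add_of_pos_right _ hη))
  filter_upwards [l7, hCe _ hS hζ.supp] with k h7 hCk
  obtain ⟨i1, hvi⟩ := mty_vi hp hb hF (hC k) (h k) hζu hCk hζ01 hD hv hvo
  have hP : Bornology.IsBounded (Θ ∪ D) := hb.union hD
  have t2 := mty_T2 hp hP hF hζu (hζ.supp.trans subset_union_left) (hv.mono subset_union_right) c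
    ((h k).w.mono ((hC k).trans subset_union_left))
  have t1 := mty_T1 hS (hε k) (ft := dt F) (zt := zt k)
    (g := fun y => ζ y * vt y + (v0 y + c - z k y) * dt ζ y) (ζ := ζ)
    (φt := fun y => ζ y * (vt y - zt k y) + (v0 y + c - z k y) * dt ζ y) (Q := Q)
    (by positivity) hBF0 hb20 le_rfl (Eventually.of_forall hBF) (by
      filter_upwards [hvB, hM k, hvtB] with y h1 h2 h3
      refine (abs_add_le _ _).trans (add_le_add ?_ ?_)
      · rw [abs_mul]
        calc |ζ y| * |vt y| ≤ 1 * B := by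
              refine mul_le_mul ?_ h3 (abs_nonneg _) zero_le_one
              rw [abs_of_nonneg (hζ01 y).1]
              exact (hζ01 y).2
          _ = B := one_mul _
      · rw [abs_mul]
        exact mul_le_mul ((abs_sub _ _).trans (add_le_add h1 h2)) (hBt y) (abs_nonneg _)
          (by positivity)) (Eventually.of_forall hζ01)
    (Eventually.of_forall fun y hy => by simp only [z0 y hy, zt0 y hy]; ring)
    (Eventually.of_forall z0) (Eventually.of_forall fun y => by ring) (h k).w.memt i1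
  have hFx : MemLp (dx F) (ENNReal.ofReal p) volume := (tst_W1 hp hF).mem
  have hA : MemLp (fun y => A p (dx F y + G k y)) (ENNReal.ofReal (cj p)) volume :=
    memLp_flux hp (hFx.add (h k).w.mem)
  have hH : MemLp (fun y => (v0 y + c - z k y) • dx ζ y) (ENNReal.ofReal p) volume := by
    refine mty_memLp (f := fun y => (v0 y + c - z k y) • dx ζ y) hS.isBounded
      ((mv.sub (h k).w.meas).smul mx) (B := (B + M) * Bx) ?_ ?_ _
    · filter_upwards [hvB, hM k] with y h1 h2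
      rw [norm_smul]
      refine mul_le_mul ?_ (hBx y) (norm_nonneg _) (by positivity)
      exact (abs_sub _ _).trans (add_le_add h1 h2)
    · exact Eventually.of_forall fun y hy => by rw [zx0 y hy, smul_zero]
  have t3 := (holder_inner hp hA hH).2
  have t3' : ∫ y, inner ℝ (A p (dx F y + G k y)) ((v0 y + c - z k y) • dx ζ y) ≤
      K1 * (∫ y, ‖(v0 y + c - z k y) • dx ζ y‖ ^ p) ^ (1 / p) := by
    refine (le_abs_self _).trans (t3.trans ?_)
    refine mul_le_mul_of_nonneg_right (hK1 k) (Real.rpow_nonneg ?_ _)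
    exact integral_nonneg fun y => Real.rpow_nonneg (norm_nonneg _) p
  have t1' : √(ε k) / 2 * (ε k * (∫ y, zt k y ^ 2) + Q * m) ≤ √(ε k) / 2 * (K + Q * m) := by
    refine mul_le_mul_of_nonneg_left ?_ (by positivity)
    have := hK k
    linarith
  rw [t2] at hvi
  linarith

theorem mty_hasDeriv {φ : X n → ℝ} (hφ : ContDiff ℝ ∞ φ) (x : E n) (t : ℝ) :
    HasDerivAt (fun s => φ (x, s)) (dt φ (x, t)) t := by
  have h1 : Differentiable ℝ (fun s : ℝ => φ (x, s)) :=
    (hφ.comp (contDiff_const.prodMk contDiff_id)).differentiable (by simp)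
  exact (h1 t).hasDerivAt

theorem mty_lip {φ : X n → ℝ} (hφ : ContDiff ℝ ∞ φ) {B : ℝ} (hB : ∀ y, ‖dt φ y‖ ≤ B) (x : E n)
    (s t : ℝ) : |φ (x, s) - φ (x, t)| ≤ B * |s - t| := by
  have := Convex.norm_image_sub_le_of_norm_hasDerivWithin_le (f := fun s => φ (x, s))
    (f' := fun s => dt φ (x, s)) (s := univ) (x := t) (y := s) (C := B)
    (fun r _ => (mty_hasDeriv hφ x r).hasDerivWithinAt) (fun r _ => hB _) convex_univ
    (mem_univ _) (mem_univ _)
  simpa [Real.norm_eq_abs] using this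

theorem mty_shift_mp (s : ℝ) : MeasurePreserving (fun y : X n => (y.1, y.2 + s)) := by
  have h1 := (MeasurePreserving.id (volume : Measure (E n))).prod
    (measurePreserving_add_right (volume : Measure ℝ) s)
  rw [← Measure.volume_eq_prod] at h1
  exact h1

theorem mty_shift_emb (s : ℝ) : MeasurableEmbedding (fun y : X n => (y.1, y.2 + s)) := by
  have hc1 : Measurable (fun y : X n => (y.1, y.2 + s)) := by fun_prop
  have hc2 : Measurable (fun y : X n => (y.1, y.2 + -s)) := by fun_prop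
  exact (MeasurableEquiv.mk ⟨fun y : X n => (y.1, y.2 + s), fun y => (y.1, y.2 + -s),
    fun y => by simp, fun y => by simp⟩ hc1 hc2).measurableEmbedding

theorem mty_shift_ae {Q : X n → Prop} (h : ∀ᵐ y, Q y) (s : ℝ) : ∀ᵐ y : X n, Q (y.1, y.2 + s) := by
  exact (mty_shift_mp s).quasiMeasurePreserving.ae h

theorem mty_slice_ae {Q : X n → Prop} (h : ∀ᵐ y, Q y) :
    ∀ᵐ y : X n, ∀ᵐ r : ℝ, Q (y.1, y.2 + r) := by
  have h1 : ∀ᵐ x : E n, ∀ᵐ t : ℝ, Q (x, t) := by
    have h2 : ∀ᵐ y ∂((volume : Measure (E n)).prod (volume : Measure ℝ)), Q y := by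
      rw [← Measure.volume_eq_prod]
      exact h
    exact Measure.ae_ae_of_ae_prod h2
  have h3 : ∀ᵐ y : X n, ∀ᵐ t : ℝ, Q (y.1, t) := by
    have h4 := (Measure.quasiMeasurePreserving_fst (μ := (volume : Measure (E n)))
      (ν := (volume : Measure ℝ))).ae h1
    rw [← Measure.volume_eq_prod] at h4
    exact h4
  filter_upwards [h3] with y hy
  have h5 := (measurePreserving_add_left (volume : Measure ℝ) y.2).quasiMeasurePreserving.ae hy
  exact h5

theorem mty_av_abs {f : X n → ℝ} {M h : ℝ} (hh : 0 < h) (hf : ∀ᵐ y, |f y| ≤ M) :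
    ∀ᵐ y, |av (-h) f y| ≤ M := by
  filter_upwards [mty_slice_ae hf] with y hy
  unfold av
  have h1 : ‖∫ s in (0 : ℝ)..(-h), f (y.1, y.2 + s)‖ ≤ M * |(-h) - 0| :=
    intervalIntegral.norm_integral_le_of_norm_le_const_ae (by
      filter_upwards [hy] with r hr _
      exact hr)
  rw [smul_eq_mul, abs_mul, abs_inv, abs_neg, abs_of_pos hh]
  rw [sub_zero, abs_neg, abs_of_pos hh, Real.norm_eq_abs] at h1
  calc h⁻¹ * |∫ s in (0 : ℝ)..(-h), f (y.1, y.2 + s)| ≤ h⁻¹ * (M * h) :=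
        mul_le_mul_of_nonneg_left h1 (by positivity)
    _ = M := by field_simp

theorem mty_av_obs {f obs : X n → ℝ} {L h : ℝ} (hh : 0 < h) (hobs0 : ∀ y, 0 ≤ obs y) (hL0 : 0 ≤ L)
    (hL : ∀ (x : E n) (s t : ℝ), |obs (x, s) - obs (x, t)| ≤ L * |s - t|)
    (hf : ∀ᵐ y, - obs y ≤ f y) :
    ∀ᵐ y, - obs y ≤ av (-h) f y + L * h := by
  filter_upwards [mty_slice_ae hf] with y hy
  have e1 : av (-h) f y = h⁻¹ * ∫ s in (-h)..(0 : ℝ), f (y.1, y.2 + s) := by
    unfold av
    rw [intervalIntegral.integral_symm, smul_eq_mul, inv_neg]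
    ring
  by_cases hi : IntervalIntegrable (fun s => f (y.1, y.2 + s)) volume (-h) 0
  · have h1 : ∫ s in (-h)..(0 : ℝ), (- obs y - L * h) ≤
        ∫ s in (-h)..(0 : ℝ), f (y.1, y.2 + s) := by
      refine intervalIntegral.integral_mono_ae_restrict (by linarith) (by simp) hi ?_
      rw [EventuallyLE, ae_restrict_iff' measurableSet_Icc]
      filter_upwards [hy] with r hr hrI
      have h2 := hL y.1 (y.2 + r) y.2
      have h3 : |y.2 + r - y.2| ≤ h := by
        rw [add_sub_cancel_left, abs_le]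
        exact ⟨hrI.1, hrI.2.trans hh.le⟩
      have h4 : obs (y.1, y.2 + r) - obs y ≤ L * h :=
        (le_abs_self _).trans (h2.trans (mul_le_mul_of_nonneg_left h3 hL0))
      linarith
    rw [intervalIntegral.integral_const, smul_eq_mul] at h1
    rw [e1]
    have h2 : h⁻¹ * ((0 - -h) * (- obs y - L * h)) ≤
        h⁻¹ * ∫ s in (-h)..(0 : ℝ), f (y.1, y.2 + s) :=
      mul_le_mul_of_nonneg_left h1 (by positivity)
    have h3 : h⁻¹ * ((0 - -h) * (- obs y - L * h)) = - obs y - L * h := by field_simp; ring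
    linarith
  · rw [e1, intervalIntegral.integral_undef hi]
    have := hobs0 y
    have h5 : 0 ≤ L * h := by positivity
    linarith

theorem mty_shift_int (f : X n → ℝ) (s : ℝ) :
    ∫ y : X n, f (y.1, y.2 + s) = ∫ y : X n, f y :=
  (mty_shift_mp s).integral_comp (mty_shift_emb s) f

theorem mty_dq {ζ : X n → ℝ} (hζ : Tst univ ζ) {w : X n → ℝ}
    (hw : Integrable (fun y => w y ^ 2) volume) (hwm : AEStronglyMeasurable w volume) :
    Tendsto (fun h : ℝ => ∫ y, h⁻¹ * (ζ (y.1, y.2 + h) - ζ y) * w y ^ 2) (𝓝[>] 0)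
      (𝓝 (∫ y, dt ζ y * w y ^ 2)) := by
  obtain ⟨B, hB0, hB⟩ := mty_bound (contDiff_dt hζ.smooth).continuous (mty_cpt_dt hζ.cpt)
  refine tendsto_integral_filter_of_dominated_convergence (fun y => B * w y ^ 2) ?_ ?_
    (hw.const_mul B) ?_
  · refine Eventually.of_forall fun h => ?_
    have hc : Continuous fun y : X n => h⁻¹ * (ζ (y.1, y.2 + h) - ζ y) :=
      continuous_const.mul ((hζ.smooth.continuous.comp (by fun_prop)).sub hζ.smooth.continuous)
    exact hc.aestronglyMeasurable.mul (hwm.pow 2)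
  · filter_upwards [self_mem_nhdsWithin] with h hh
    refine Eventually.of_forall fun y => ?_
    have hh' : 0 < h := hh
    rw [norm_mul, norm_mul, norm_inv, Real.norm_eq_abs, Real.norm_eq_abs, Real.norm_eq_abs,
      abs_of_nonneg (sq_nonneg (w y)), abs_of_pos hh']
    refine mul_le_mul_of_nonneg_right ?_ (sq_nonneg _)
    have h1 := mty_lip hζ.smooth hB y.1 (y.2 + h) y.2
    rw [add_sub_cancel_left, abs_of_pos hh'] at h1
    calc h⁻¹ * |ζ (y.1, y.2 + h) - ζ y| ≤ h⁻¹ * (B * h) :=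
          mul_le_mul_of_nonneg_left h1 (by positivity)
      _ = B := by field_simp
  · refine Eventually.of_forall fun y => ?_
    have h1 := (hasDerivAt_iff_tendsto_slope_zero.1 (mty_hasDeriv hζ.smooth y.1 y.2))
    have h2 : Tendsto (fun t : ℝ => t⁻¹ • (ζ (y.1, y.2 + t) - ζ (y.1, y.2))) (𝓝[>] 0)
        (𝓝 (dt ζ (y.1, y.2))) := h1.mono_left (nhdsWithin_mono _ (fun x hx => ne_of_gt hx))
    exact h2.mul_const (w y ^ 2)

theorem mty_integ {S : Set (X n)} (hS : Bornology.IsBounded S) {f : X n → ℝ}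
    (hf : AEStronglyMeasurable f volume) {B : ℝ} (hB : ∀ᵐ y, |f y| ≤ B)
    (h0 : ∀ᵐ y, y ∉ S → f y = 0) : Integrable f volume :=
  memLp_one_iff_integrable.1 (mty_memLp hS hf hB h0 1)

theorem mty_int_le {f g : X n → ℝ} (hg : Integrable g volume) (hfg : ∀ᵐ y, |f y| ≤ g y) :
    |∫ y, f y| ≤ ∫ y, g y :=
  (abs_integral_le_integral_abs).trans
    (integral_mono_of_nonneg (Eventually.of_forall fun y => abs_nonneg _) hg hfg)

theorem mty_limit (hp : 1 < p) {Θ : Set (X n)} (hb : Bornology.IsBounded Θ)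
    {F : X n → ℝ} (hF : Tst univ F) {M : ℝ} (hM0 : 0 ≤ M) {zl : X n → ℝ} {Gl : X n → E n}
    (hlW : W0 p Θ zl Gl) (hzM : ∀ᵐ y, |zl y| ≤ M) {ζ : X n → ℝ} (hζ : Tst univ ζ)
    (hζ01 : ∀ y, 0 ≤ ζ y ∧ ζ y ≤ 1) {L : ℝ} (hL : 0 ≤ L) {K1 : ℝ} (hK1 : 0 ≤ K1)
    {η : ℝ} (hη : 0 < η) :
    ∃ h : ℝ, 0 < h ∧ h ≤ 1 ∧
      (∫ y, dt F y * (ζ y * (av (-h) zl y + L * h - zl y))) -
      (∫ y, zl y * (ζ y * ((-h)⁻¹ * (sh (-h) zl y - zl y)) + (av (-h) zl y + L * h) * dt ζ y)) +
      1 / 2 * (∫ y, dt ζ y * zl y ^ 2) +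
      K1 * (∫ y, ‖(av (-h) zl y + L * h - zl y) • dx ζ y‖ ^ p) ^ (1 / p) +
      K1 * (∫ y, ‖av (-h) Gl y - Gl y‖ ^ p) ^ (1 / p) ≤ η := by
  have hp0 : 0 < p := by linarith
  have hS : IsCompact (tsupport ζ) := hζ.cpt
  have hSm : MeasurableSet (tsupport ζ) := (isClosed_tsupport ζ).measurableSet
  obtain ⟨BF, hBF0, hBF⟩ := mty_bound (contDiff_dt hF.smooth).continuous (mty_cpt_dt hF.cpt)
  obtain ⟨Bt, hBt0, hBt⟩ := mty_bound (contDiff_dt hζ.smooth).continuous (mty_cpt_dt hζ.cpt)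
  obtain ⟨Bx, hBx0, hBx⟩ := mty_bound (contDiff_dx hζ.smooth).continuous (mty_cpt_dx hζ.cpt)
  have mζ : AEStronglyMeasurable ζ volume := hζ.smooth.continuous.aestronglyMeasurable
  have mt : AEStronglyMeasurable (dt ζ) volume :=
    (contDiff_dt hζ.smooth).continuous.aestronglyMeasurable
  have z0 : ∀ y, y ∉ tsupport ζ → ζ y = 0 := fun y hy => image_eq_zero_of_notMem_tsupport hy
  have zt0 : ∀ y, y ∉ tsupport ζ → dt ζ y = 0 := fun y hy => dt_zero_of_notMem y hy
  have zx0 : ∀ y, y ∉ tsupport ζ → dx ζ y = 0 := fun y hy => dx_zero_of_notMem y hy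
  set m := volume.real (tsupport ζ) with hm
  have hI : Integrable ((tsupport ζ).indicator fun _ : X n => (1 : ℝ)) volume := by
    rw [integrable_indicator_iff hSm]
    exact integrableOn_const (hs := hS.measure_lt_top.ne)
  have hIe : ∫ y, (tsupport ζ).indicator (fun _ : X n => (1 : ℝ)) y = m := by
    rw [integral_indicator hSm, setIntegral_const, smul_eq_mul, mul_one]
  have hz1 : MemLp zl (ENNReal.ofReal 1) volume := hlW.memLp_fn hb _
  have hzp : MemLp zl (ENNReal.ofReal p) volume := hlW.memLp_fn hb _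
  have hz2 : MemLp zl 2 volume := hlW.memLp_fn hb _
  have hneg : Tendsto (fun h : ℝ => -h) (𝓝[>] 0) (𝓝[≠] 0) := by
    refine tendsto_nhdsWithin_iff.2 ⟨?_, ?_⟩
    · have : Tendsto (fun h : ℝ => -h) (𝓝 0) (𝓝 (-0)) := (continuous_neg.tendsto 0)
      rw [neg_zero] at this
      exact this.mono_left nhdsWithin_le_nhds
    · filter_upwards [self_mem_nhdsWithin] with h hh
      exact neg_ne_zero.2 (ne_of_gt hh)
  have a1 : Tendsto (fun h : ℝ => ∫ y, ‖av (-h) zl y - zl y‖ ^ (1 : ℝ)) (𝓝[>] 0) (𝓝 0) :=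
    (av_tendsto le_rfl hz1).comp hneg
  have ap : Tendsto (fun h : ℝ => ∫ y, ‖av (-h) zl y - zl y‖ ^ p) (𝓝[>] 0) (𝓝 0) :=
    (av_tendsto hp.le hzp).comp hneg
  have ag : Tendsto (fun h : ℝ => ∫ y, ‖av (-h) Gl y - Gl y‖ ^ p) (𝓝[>] 0) (𝓝 0) :=
    (av_tendsto hp.le hlW.mem).comp hneg
  have ae := mty_dq hζ (w := zl) hz2.integrable_sq hlW.meas
  set E0 := ∫ y, dt ζ y * zl y ^ 2 with hE0
  have hh0 : Tendsto (fun h : ℝ => h) (𝓝[>] 0) (𝓝 0) := tendsto_id.mono_left nhdsWithin_le_nhds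
  have hLh : Tendsto (fun h : ℝ => L * h) (𝓝[>] 0) (𝓝 0) := by
    simpa using hh0.const_mul L
  have b1 : Tendsto (fun h : ℝ => (∫ y, ‖av (-h) zl y - zl y‖ ^ (1 : ℝ)) + L * h * m)
      (𝓝[>] 0) (𝓝 0) := by
    simpa using a1.add (hLh.mul_const m)
  have b2 : Tendsto (fun h : ℝ => (2 ^ p * Bx ^ p * ((∫ y, ‖av (-h) zl y - zl y‖ ^ p) +
      (L * h) ^ p * m)) ^ (1 / p)) (𝓝[>] 0) (𝓝 0) := by
    have c1 : Tendsto (fun h : ℝ => (L * h) ^ p) (𝓝[>] 0) (𝓝 0) := by
      have := hLh.rpow_const (p := p) (Or.inr hp0.le)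
      rwa [Real.zero_rpow hp0.ne'] at this
    have c2 := ((ap.add (c1.mul_const m)).const_mul (2 ^ p * Bx ^ p)).rpow_const (p := 1 / p)
      (Or.inr (by positivity))
    have c3 : (2 ^ p * Bx ^ p * (0 + 0 * m)) ^ (1 / p) = (0 : ℝ) := by
      rw [zero_mul, add_zero, mul_zero, Real.zero_rpow (by positivity)]
    rwa [c3] at c2
  have b3 : Tendsto (fun h : ℝ => (∫ y, ‖av (-h) Gl y - Gl y‖ ^ p) ^ (1 / p))
      (𝓝[>] 0) (𝓝 0) := by
    have c2 := ag.rpow_const (p := 1 / p) (Or.inr (by positivity))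
    rwa [Real.zero_rpow (by positivity)] at c2
  have b4 : Tendsto (fun h : ℝ => BF * ((∫ y, ‖av (-h) zl y - zl y‖ ^ (1 : ℝ)) + L * h * m) +
      (1 / 2 * (∫ y, h⁻¹ * (ζ (y.1, y.2 + h) - ζ y) * zl y ^ 2) - E0 +
        M * Bt * ((∫ y, ‖av (-h) zl y - zl y‖ ^ (1 : ℝ)) + L * h * m)) + 1 / 2 * E0 +
      K1 * (2 ^ p * Bx ^ p * ((∫ y, ‖av (-h) zl y - zl y‖ ^ p) + (L * h) ^ p * m)) ^ (1 / p) +
      K1 * (∫ y, ‖av (-h) Gl y - Gl y‖ ^ p) ^ (1 / p)) (𝓝[>] 0)
      (𝓝 (BF * 0 + (1 / 2 * E0 - E0 + M * Bt * 0) + 1 / 2 * E0 + K1 * 0 + K1 * 0)) :=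
    ((((b1.const_mul BF).add (((ae.const_mul (1 / 2)).sub_const E0).add
      (b1.const_mul (M * Bt)))).add_const (1 / 2 * E0)).add (b2.const_mul K1)).add
      (b3.const_mul K1)
  have b5 : BF * 0 + (1 / 2 * E0 - E0 + M * Bt * 0) + 1 / 2 * E0 + K1 * 0 + K1 * 0 = 0 := by ring
  rw [b5] at b4
  have b6 := (b4.eventually (gt_mem_nhds hη)).and
    (Ioc_mem_nhdsGT (zero_lt_one : (0 : ℝ) < 1))
  obtain ⟨h, hlt, hh, hh1⟩ := b6.exists
  refine ⟨h, hh, hh1, le_trans ?_ hlt.le⟩
  -- the averages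
  set D : Set (X n) := {y | ∃ r : ℝ, |r| ≤ 1 ∧ (y.1, y.2 + r) ∈ Θ} with hDdef
  have hDb : Bornology.IsBounded D := by
    obtain ⟨R, hR⟩ := hb.subset_closedBall 0
    refine (isBounded_iff_subset_closedBall 0).2 ⟨R + 1, ?_⟩
    rintro y ⟨r, hr, hy⟩
    have h1 := hR hy
    rw [mem_closedBall_zero_iff, Prod.norm_def, max_le_iff] at h1 ⊢
    refine ⟨h1.1.trans (by linarith), ?_⟩
    have h2 : ‖y.2‖ ≤ ‖y.2 + r‖ + ‖r‖ := by
      have := norm_sub_le (y.2 + r) r
      rwa [add_sub_cancel_right] at this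
    exact h2.trans (add_le_add h1.2 hr)
  have hav : W1 p D (av (-h) zl) (fun y => (-h)⁻¹ * (sh (-h) zl y - zl y)) (av (-h) Gl) := by
    refine hlW.avg hp hb (neg_ne_zero.2 hh.ne') (fun y r hr hy => ⟨r, ?_, hy⟩)
    rw [uIcc_of_ge (by linarith)] at hr
    rw [abs_le]
    exact ⟨by linarith [hr.1], by linarith [hr.2]⟩
  have avM : ∀ᵐ y, |av (-h) zl y| ≤ M := mty_av_abs hh hzM
  have shM : ∀ᵐ y, |sh (-h) zl y| ≤ M := mty_shift_ae hzM (-h)
  have shm : AEStronglyMeasurable (sh (-h) zl) volume := (hlW.shift (-h)).meas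
  have hU : Bornology.IsBounded (D ∪ Θ) := hDb.union hb
  have davm : AEStronglyMeasurable (fun y => av (-h) zl y - zl y) volume := hav.meas.sub hlW.meas
  have davM : ∀ᵐ y, |av (-h) zl y - zl y| ≤ M + M := by
    filter_upwards [avM, hzM] with y h1 h2
    exact (abs_sub _ _).trans (add_le_add h1 h2)
  have dav0 : ∀ᵐ y, y ∉ D ∪ Θ → av (-h) zl y - zl y = 0 := by
    filter_upwards [hav.zero, hlW.zero] with y h1 h2 h3
    rw [h1 (fun hh => h3 (Or.inl hh)), h2 (fun hh => h3 (Or.inr hh)), sub_zero]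
  have dav : ∀ q : ENNReal, MemLp (fun y => av (-h) zl y - zl y) q volume :=
    fun q => mty_memLp hU davm davM dav0 q
  have J1 : Integrable (fun y => ‖av (-h) zl y - zl y‖ ^ (1 : ℝ)) volume := by
    simp only [Real.rpow_one]
    exact (memLp_one_iff_integrable.1 (dav 1)).norm
  have Jp : Integrable (fun y => ‖av (-h) zl y - zl y‖ ^ p) volume := mty_intpow1 hp (dav _)
  have hLh0 : 0 ≤ L * h := by positivity
  -- pointwise bound of d on the support
  have T1 : (∫ y, dt F y * (ζ y * (av (-h) zl y + L * h - zl y))) ≤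
      BF * ((∫ y, ‖av (-h) zl y - zl y‖ ^ (1 : ℝ)) + L * h * m) := by
    have e1 : BF * ((∫ y, ‖av (-h) zl y - zl y‖ ^ (1 : ℝ)) + L * h * m) =
        ∫ y, BF * (‖av (-h) zl y - zl y‖ ^ (1 : ℝ) +
          L * h * (tsupport ζ).indicator (fun _ : X n => (1 : ℝ)) y) := by
      rw [integral_const_mul, integral_add J1 (hI.const_mul _), integral_const_mul, hIe]
    rw [e1]
    refine (le_abs_self _).trans (mty_int_le ((J1.add (hI.const_mul _)).const_mul _)
      (Eventually.of_forall fun y => ?_))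
    by_cases hy : y ∈ tsupport ζ
    · rw [indicator_of_mem hy, abs_mul, abs_mul, Real.rpow_one, mul_one]
      refine mul_le_mul (hBF y) ?_ (by positivity) hBF0
      calc |ζ y| * |av (-h) zl y + L * h - zl y| ≤ 1 * |av (-h) zl y + L * h - zl y| := by
            refine mul_le_mul_of_nonneg_right ?_ (abs_nonneg _)
            rw [abs_of_nonneg (hζ01 y).1]
            exact (hζ01 y).2
        _ = |(av (-h) zl y - zl y) + L * h| := by rw [one_mul]; congr 1; ring
        _ ≤ _ := (abs_add_le _ _).trans (by rw [abs_of_nonneg hLh0, Real.norm_eq_abs])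
    · rw [z0 y hy, indicator_of_notMem hy]
      simp only [zero_mul, mul_zero, abs_zero, add_zero]
      positivity
  have T2 : (∫ y, zl y * (ζ y * ((-h)⁻¹ * (sh (-h) zl y - zl y)) +
      (av (-h) zl y + L * h) * dt ζ y)) ≥
      - (1 / 2 * (∫ y, h⁻¹ * (ζ (y.1, y.2 + h) - ζ y) * zl y ^ 2)) + E0 -
        M * Bt * ((∫ y, ‖av (-h) zl y - zl y‖ ^ (1 : ℝ)) + L * h * m) := by
    have i1 : Integrable (fun y => zl y * (ζ y * ((-h)⁻¹ * (sh (-h) zl y - zl y)))) volume := by
      refine mty_integ hS.isBounded (hlW.meas.mul (mζ.mul ((shm.sub hlW.meas).const_mul _)))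
        (B := M * (1 * (h⁻¹ * (M + M)))) ?_ ?_
      · filter_upwards [hzM, shM] with y h1 h2
        rw [abs_mul, abs_mul, abs_mul, abs_inv, abs_neg, abs_of_pos hh]
        refine mul_le_mul h1 ?_ (by positivity) hM0
        refine mul_le_mul ?_ ?_ (by positivity) zero_le_one
        · rw [abs_of_nonneg (hζ01 y).1]
          exact (hζ01 y).2
        · refine mul_le_mul_of_nonneg_left ?_ (by positivity)
          exact (abs_sub _ _).trans (add_le_add h2 h1)
      · exact Eventually.of_forall fun y hy => by rw [z0 y hy]; ring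
    have i2 : Integrable (fun y => zl y * ((av (-h) zl y - zl y + L * h) * dt ζ y)) volume := by
      refine mty_integ hS.isBounded (hlW.meas.mul ((davm.add_const _).mul mt))
        (B := M * ((M + M + L * h) * Bt)) ?_ ?_
      · filter_upwards [hzM, davM] with y h1 h2
        rw [abs_mul, abs_mul]
        refine mul_le_mul h1 ?_ (by positivity) hM0
        refine mul_le_mul ?_ (hBt y) (abs_nonneg _) (by positivity)
        exact (abs_add_le _ _).trans (add_le_add h2 (abs_of_nonneg hLh0).le)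
      · exact Eventually.of_forall fun y hy => by rw [zt0 y hy]; ring
    have i3 : Integrable (fun y => dt ζ y * zl y ^ 2) volume := by
      refine mty_integ hS.isBounded (mt.mul (hlW.meas.pow 2)) (B := Bt * M ^ 2) ?_ ?_
      · filter_upwards [hzM] with y h1
        rw [abs_mul, abs_pow]
        exact mul_le_mul (hBt y) (pow_le_pow_left₀ (abs_nonneg _) h1 2) (by positivity) hBt0
      · exact Eventually.of_forall fun y hy => by rw [zt0 y hy]; ring
    have i4 : Integrable (fun y => ζ y * zl y ^ 2) volume := by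
      refine mty_integ hS.isBounded (mζ.mul (hlW.meas.pow 2)) (B := 1 * M ^ 2) ?_ ?_
      · filter_upwards [hzM] with y h1
        rw [abs_mul, abs_pow]
        refine mul_le_mul ?_ (pow_le_pow_left₀ (abs_nonneg _) h1 2) (by positivity) zero_le_one
        rw [abs_of_nonneg (hζ01 y).1]
        exact (hζ01 y).2
      · exact Eventually.of_forall fun y hy => by rw [z0 y hy]; ring
    have i5 : Integrable (fun y => ζ y * sh (-h) zl y ^ 2) volume := by
      refine mty_integ hS.isBounded (mζ.mul (shm.pow 2)) (B := 1 * M ^ 2) ?_ ?_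
      · filter_upwards [shM] with y h1
        rw [abs_mul, abs_pow]
        refine mul_le_mul ?_ (pow_le_pow_left₀ (abs_nonneg _) h1 2) (by positivity) zero_le_one
        rw [abs_of_nonneg (hζ01 y).1]
        exact (hζ01 y).2
      · exact Eventually.of_forall fun y hy => by rw [z0 y hy]; ring
    have i6 : Integrable (fun y : X n => ζ (y.1, y.2 + h) * zl y ^ 2) volume := by
      have hc : Continuous fun y : X n => ζ (y.1, y.2 + h) :=
        hζ.smooth.continuous.comp (by fun_prop)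
      refine Integrable.mono' (g := fun y => 1 * zl y ^ 2) (hz2.integrable_sq.const_mul 1)
        (hc.aestronglyMeasurable.mul (hlW.meas.pow 2)) (Eventually.of_forall fun y => ?_)
      rw [Real.norm_eq_abs, abs_mul, abs_of_nonneg (sq_nonneg (zl y)),
        abs_of_nonneg (hζ01 _).1]
      exact mul_le_mul_of_nonneg_right (hζ01 _).2 (sq_nonneg _)
    have e5 : ∫ y, ζ y * sh (-h) zl y ^ 2 = ∫ y : X n, ζ (y.1, y.2 + h) * zl y ^ 2 := by
      rw [← mty_shift_int (fun y => ζ y * sh (-h) zl y ^ 2) h]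
      congr 1
      funext y
      simp [sh]
    have e6 : ∫ y : X n, h⁻¹ * (ζ (y.1, y.2 + h) - ζ y) * zl y ^ 2 =
        h⁻¹ * ((∫ y : X n, ζ (y.1, y.2 + h) * zl y ^ 2) - ∫ y, ζ y * zl y ^ 2) := by
      rw [← integral_sub i6 i4, ← integral_const_mul]
      congr 1
      funext y
      ring
    have e7 : - (1 / 2 * (∫ y : X n, h⁻¹ * (ζ (y.1, y.2 + h) - ζ y) * zl y ^ 2)) ≤
        ∫ y, zl y * (ζ y * ((-h)⁻¹ * (sh (-h) zl y - zl y))) := by
      rw [e6, ← e5]
      have e8 : - (1 / 2 * (h⁻¹ * ((∫ y : X n, ζ y * sh (-h) zl y ^ 2) -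
          ∫ y, ζ y * zl y ^ 2))) =
          ∫ y : X n, - (1 / 2 * (h⁻¹ * (ζ y * sh (-h) zl y ^ 2 - ζ y * zl y ^ 2))) := by
        rw [integral_neg, integral_const_mul, integral_const_mul, integral_sub i5 i4]
      rw [e8]
      refine integral_mono (((i5.sub i4).const_mul _).const_mul _).neg i1 (fun y => ?_)
      have hi : (0 : ℝ) < h⁻¹ := inv_pos.2 hh
      have k1 : 0 ≤ h⁻¹ * (ζ y * (zl y - sh (-h) zl y) ^ 2) :=
        mul_nonneg hi.le (mul_nonneg (hζ01 y).1 (sq_nonneg _))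
      simp only [inv_neg]
      nlinarith
    have e9 : ∫ y, zl y * (ζ y * ((-h)⁻¹ * (sh (-h) zl y - zl y)) +
        (av (-h) zl y + L * h) * dt ζ y) =
        (∫ y, zl y * (ζ y * ((-h)⁻¹ * (sh (-h) zl y - zl y)))) +
        ((∫ y, dt ζ y * zl y ^ 2) +
          ∫ y, zl y * ((av (-h) zl y - zl y + L * h) * dt ζ y)) := by
      have i7 : Integrable (fun y => dt ζ y * zl y ^ 2 +
          zl y * ((av (-h) zl y - zl y + L * h) * dt ζ y)) volume := i3.add i2
      rw [← integral_add i3 i2, ← integral_add i1 i7]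
      congr 1
      funext y
      ring
    have e10 : |∫ y, zl y * ((av (-h) zl y - zl y + L * h) * dt ζ y)| ≤
        M * Bt * ((∫ y, ‖av (-h) zl y - zl y‖ ^ (1 : ℝ)) + L * h * m) := by
      have e1 : M * Bt * ((∫ y, ‖av (-h) zl y - zl y‖ ^ (1 : ℝ)) + L * h * m) =
          ∫ y, M * Bt * (‖av (-h) zl y - zl y‖ ^ (1 : ℝ) +
            L * h * (tsupport ζ).indicator (fun _ : X n => (1 : ℝ)) y) := by
        rw [integral_const_mul, integral_add J1 (hI.const_mul _), integral_const_mul, hIe]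
      rw [e1]
      refine mty_int_le ((J1.add (hI.const_mul _)).const_mul _) ?_
      filter_upwards [hzM] with y hy1
      by_cases hy : y ∈ tsupport ζ
      · rw [indicator_of_mem hy, abs_mul, abs_mul, Real.rpow_one, mul_one]
        calc |zl y| * (|av (-h) zl y - zl y + L * h| * |dt ζ y|) ≤
            M * ((|av (-h) zl y - zl y| + L * h) * Bt) := by
              refine mul_le_mul hy1 ?_ (by positivity) hM0
              refine mul_le_mul ?_ (hBt y) (abs_nonneg _) (by positivity)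
              exact (abs_add_le _ _).trans (by rw [abs_of_nonneg hLh0])
          _ = M * Bt * (‖av (-h) zl y - zl y‖ + L * h) := by rw [Real.norm_eq_abs]; ring
      · rw [zt0 y hy, indicator_of_notMem hy]
        simp only [mul_zero, abs_zero, add_zero]
        positivity
    have e11 := (abs_le.1 e10).1
    rw [e9]
    linarith
  have T3 : K1 * (∫ y, ‖(av (-h) zl y + L * h - zl y) • dx ζ y‖ ^ p) ^ (1 / p) ≤
      K1 * (2 ^ p * Bx ^ p * ((∫ y, ‖av (-h) zl y - zl y‖ ^ p) + (L * h) ^ p * m)) ^ (1 / p) := by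
    refine mul_le_mul_of_nonneg_left ?_ hK1
    refine Real.rpow_le_rpow (integral_nonneg fun y => Real.rpow_nonneg (norm_nonneg _) p) ?_
      (by positivity)
    have e1 : 2 ^ p * Bx ^ p * ((∫ y, ‖av (-h) zl y - zl y‖ ^ p) + (L * h) ^ p * m) =
        ∫ y, 2 ^ p * Bx ^ p * (‖av (-h) zl y - zl y‖ ^ p +
          (L * h) ^ p * (tsupport ζ).indicator (fun _ : X n => (1 : ℝ)) y) := by
      rw [integral_const_mul, integral_add Jp (hI.const_mul _), integral_const_mul, hIe]
    rw [e1]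
    refine integral_mono_of_nonneg (Eventually.of_forall fun y =>
      Real.rpow_nonneg (norm_nonneg _) p) ((Jp.add (hI.const_mul _)).const_mul _)
      (Eventually.of_forall fun y => ?_)
    simp only []
    by_cases hy : y ∈ tsupport ζ
    · rw [indicator_of_mem hy, norm_smul, mul_one]
      calc (‖av (-h) zl y + L * h - zl y‖ * ‖dx ζ y‖) ^ p ≤
          ((‖av (-h) zl y - zl y‖ + L * h) * Bx) ^ p := by
            refine Real.rpow_le_rpow (by positivity) ?_ hp0.le
            refine mul_le_mul ?_ (hBx y) (norm_nonneg _) (by positivity)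
            have : av (-h) zl y + L * h - zl y = (av (-h) zl y - zl y) + L * h := by ring
            rw [this]
            exact (norm_add_le _ _).trans (by rw [Real.norm_of_nonneg hLh0])
        _ = (‖av (-h) zl y - zl y‖ + L * h) ^ p * Bx ^ p :=
            Real.mul_rpow (by positivity) hBx0
        _ ≤ (2 ^ p * (‖av (-h) zl y - zl y‖ ^ p + (L * h) ^ p)) * Bx ^ p :=
            mul_le_mul_of_nonneg_right (mty_pow hp (norm_nonneg _) hLh0)
              (Real.rpow_nonneg hBx0 _)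
        _ = _ := by ring
    · rw [zx0 y hy, smul_zero, norm_zero, Real.zero_rpow hp0.ne', indicator_of_notMem hy]
      have : 0 ≤ ‖av (-h) zl y - zl y‖ ^ p := Real.rpow_nonneg (norm_nonneg _) p
      positivity
  linarith

theorem mty (hp : 1 < p) {Θ : Set (X n)} (hΘ : IsOpen Θ) (hb : Bornology.IsBounded Θ)
    {F : X n → ℝ} (hF : Tst univ F) {M K : ℝ} {ε : ℕ → ℝ} (hε : ∀ k, 0 < ε k)
    (hε0 : Tendsto ε atTop (𝓝 0)) {C : ℕ → Set (X n)} (hC : ∀ k, IsCompact (C k) ∧ C k ⊆ Θ)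
    (hCe : ∀ D, IsCompact D → D ⊆ Θ → ∀ᶠ k in atTop, D ⊆ C k) {obs : X n → ℝ}
    (hobs : Tst univ obs) (hobs0 : ∀ y, 0 ≤ obs y) {z zt : ℕ → X n → ℝ} {G : ℕ → X n → E n}
    (h : ∀ k, RegSol p (ε k) (C k) obs F (z k) (zt k) (G k))
    (hM : ∀ k, ∀ᵐ y, |z k y| ≤ M) (hK : ∀ k, ε k * (∫ y, zt k y ^ 2) + ∫ y, ‖G k y‖ ^ p ≤ K)
    {zl : X n → ℝ} {Gl : X n → E n} (hl : ∀ᵐ y, Tendsto (fun k => z k y) atTop (𝓝 (zl y)))
    (hlW : W0 p Θ zl Gl) (hw : WkTo p G Gl) {ζ : X n → ℝ} (hζ : Tst Θ ζ)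
    (hζ01 : ∀ y, 0 ≤ ζ y ∧ ζ y ≤ 1) :
    Tendsto (fun k => ∫ y, ζ y * ‖G k y - Gl y‖ ^ p) atTop (𝓝 0) := by
  have hp0 : 0 < p := by linarith
  have hcj : 0 < cj p := div_pos hp0 (by linarith)
  have hζu : Tst univ ζ := ⟨hζ.smooth, hζ.cpt, subset_univ _⟩
  have hM0 : 0 ≤ M := mty_neg_of_ae (hM 0) fun y hy => (abs_nonneg _).trans hy
  have hzM : ∀ᵐ y, |zl y| ≤ M := by
    filter_upwards [hl, ae_all_iff.2 hM] with y h1 h2
    exact le_of_tendsto h1.abs (Eventually.of_forall h2)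
  have hzo : ∀ᵐ y, - obs y ≤ zl y := by
    filter_upwards [hl, ae_all_iff.2 fun k => (h k).ob] with y h1 h2
    exact ge_of_tendsto h1 (Eventually.of_forall h2)
  have hzt0 : ∀ k, 0 ≤ ∫ y, zt k y ^ 2 := fun k => integral_nonneg fun y => sq_nonneg _
  have hG0 : ∀ k, 0 ≤ ∫ y, ‖G k y‖ ^ p := fun k =>
    integral_nonneg fun y => Real.rpow_nonneg (norm_nonneg _) p
  have hKt : ∀ k, ε k * (∫ y, zt k y ^ 2) ≤ K := fun k => by
    have := hK k
    have := hG0 k
    linarith
  have hKG : ∀ k, ∫ y, ‖G k y‖ ^ p ≤ K := fun k => by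
    have h1 := hK k
    have h2 : 0 ≤ ε k * (∫ y, zt k y ^ 2) := mul_nonneg (hε k).le (hzt0 k)
    linarith
  have hGm : ∀ k, MemLp (G k) (ENNReal.ofReal p) volume := fun k => (h k).w.mem
  have hKl : ∫ y, ‖Gl y‖ ^ p ≤ K := by
    have h1 := wlsc hp (ζ := fun _ => 1) (H := fun _ => 0) (δ := K) measurable_const
      (fun _ => zero_le_one) (fun _ => le_rfl) hGm hlW.mem (MemLp.zero' ) hw
      (Eventually.of_forall fun k => by simpa using hKG k)
    simpa using h1
  have hFx : MemLp (dx F) (ENNReal.ofReal p) volume := (tst_W1 hp hF).mem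
  set K2 := 2 ^ p * ((∫ y, ‖dx F y‖ ^ p) + K) with hK2
  have hadd : ∀ H : X n → E n, MemLp H (ENNReal.ofReal p) volume → ∫ y, ‖H y‖ ^ p ≤ K →
      ∫ y, ‖dx F y + H y‖ ^ p ≤ K2 := by
    intro H hH hHK
    have e1 : ∫ y, ‖dx F y + H y‖ ^ p ≤ ∫ y, 2 ^ p * (‖dx F y‖ ^ p + ‖H y‖ ^ p) := by
      refine integral_mono (mty_intpow hp (hFx.add hH))
        (((mty_intpow hp hFx).add (mty_intpow hp hH)).const_mul _) (fun y => ?_)
      exact (Real.rpow_le_rpow (norm_nonneg _) (norm_add_le _ _) hp0.le).trans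
        (mty_pow hp (norm_nonneg _) (norm_nonneg _))
    rw [integral_const_mul, integral_add (mty_intpow hp hFx) (mty_intpow hp hH)] at e1
    refine e1.trans (mul_le_mul_of_nonneg_left (by linarith) (by positivity))
  have hK20 : 0 ≤ K2 := (integral_nonneg fun y => Real.rpow_nonneg (norm_nonneg _) p).trans
    (hadd (G 0) (hGm 0) (hKG 0))
  set K1 := K2 ^ (1 / cj p) with hK1d
  have hK10 : 0 ≤ K1 := Real.rpow_nonneg hK20 _
  have hK1 : ∀ k, (∫ y, ‖A p (dx F y + G k y)‖ ^ cj p) ^ (1 / cj p) ≤ K1 := fun k => by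
    rw [integral_flux hp (G := fun y => dx F y + G k y)]
    exact Real.rpow_le_rpow (integral_nonneg fun y => Real.rpow_nonneg (norm_nonneg _) p)
      (hadd (G k) (hGm k) (hKG k)) (by positivity)
  obtain ⟨L, hL0, hLb⟩ := mty_bound (contDiff_dt hobs.smooth).continuous (mty_cpt_dt hobs.cpt)
  have hL : ∀ (x : E n) (s t : ℝ), |obs (x, s) - obs (x, t)| ≤ L * |s - t| :=
    fun x s t => mty_lip hobs.smooth hLb x s t
  have mζ : Measurable ζ := hζ.smooth.continuous.measurable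
  have hA : ∀ k, MemLp (fun y => A p (dx F y + G k y)) (ENNReal.ofReal (cj p)) volume :=
    fun k => memLp_flux hp (hFx.add (hGm k))
  have hAl : MemLp (fun y => A p (dx F y + Gl y)) (ENNReal.ofReal (cj p)) volume :=
    memLp_flux hp (hFx.add hlW.mem)
  have hsm : ∀ (q : ENNReal) (H : X n → E n), MemLp H q volume →
      MemLp (fun y => ζ y • H y) q volume := by
    intro q H hH
    refine MemLp.of_le_mul (c := 1) hH (mζ.aestronglyMeasurable.smul hH.1)
      (Eventually.of_forall fun y => ?_)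
    rw [norm_smul, Real.norm_of_nonneg (hζ01 y).1]
    exact mul_le_mul_of_nonneg_right (hζ01 y).2 (norm_nonneg _)
  -- the main estimate
  have main : ∀ η : ℝ, 0 < η → ∀ᶠ k in atTop, ∫ y, ζ y * inner ℝ
      (A p (dx F y + G k y) - A p (dx F y + Gl y)) ((dx F y + G k y) - (dx F y + Gl y)) ≤ η := by
    intro η hη
    obtain ⟨s, hs, hs1, hR⟩ := mty_limit hp hb hF hM0 hlW hzM hζu hζ01 hL0 hK10
      (η := η / 3) (by linarith)
    set D : Set (X n) := {y | ∃ r : ℝ, |r| ≤ 1 ∧ (y.1, y.2 + r) ∈ Θ} with hDdef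
    have hDb : Bornology.IsBounded D := by
      obtain ⟨R, hR⟩ := hb.subset_closedBall 0
      refine (isBounded_iff_subset_closedBall 0).2 ⟨R + 1, ?_⟩
      rintro y ⟨r, hr, hy⟩
      have h1 := hR hy
      rw [mem_closedBall_zero_iff, Prod.norm_def, max_le_iff] at h1 ⊢
      refine ⟨h1.1.trans (by linarith), ?_⟩
      have h2 : ‖y.2‖ ≤ ‖y.2 + r‖ + ‖r‖ := by
        have := norm_sub_le (y.2 + r) r
        rwa [add_sub_cancel_right] at this
      exact h2.trans (add_le_add h1.2 hr)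
    have hav : W1 p D (av (-s) zl) (fun y => (-s)⁻¹ * (sh (-s) zl y - zl y)) (av (-s) Gl) := by
      refine hlW.avg hp hb (neg_ne_zero.2 hs.ne') (fun y r hr hy => ⟨r, ?_, hy⟩)
      rw [uIcc_of_ge (by linarith)] at hr
      rw [abs_le]
      exact ⟨by linarith [hr.1], by linarith [hr.2]⟩
    have avM : ∀ᵐ y, |av (-s) zl y| ≤ M := mty_av_abs hs hzM
    have shM : ∀ᵐ y, |sh (-s) zl y| ≤ M := mty_shift_ae hzM (-s)
    have hLs : 0 ≤ L * s := by positivity
    have hB1 : M + L * s ≤ M + L * s + s⁻¹ * (M + M) := by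
      have : 0 ≤ s⁻¹ * (M + M) := by positivity
      linarith
    have hB2 : s⁻¹ * (M + M) ≤ M + L * s + s⁻¹ * (M + M) := by linarith
    have st := mty_step hp hb hF hε hε0 (fun k => (hC k).2) hCe h hM0 hM hKt hl hζ hζ01 hDb hav
      (c := L * s) (B := M + L * s + s⁻¹ * (M + M)) (by positivity)
      (by
        filter_upwards [avM] with y h1
        refine ((abs_add_le _ _).trans (add_le_add h1 (abs_of_nonneg hLs).le)).trans hB1)
      (by
        filter_upwards [shM, hzM] with y h1 h2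
        refine le_trans ?_ hB2
        rw [abs_mul, abs_inv, abs_neg, abs_of_pos hs]
        exact mul_le_mul_of_nonneg_left ((abs_sub _ _).trans (add_le_add h1 h2))
          (by positivity)) (mty_av_obs hs hobs0 hL0 hL hzo) hK1 (η := η / 3) (by linarith)
    have hwk := hw _ (hsm _ _ hAl)
    have hwk2 := hwk.eventually (lt_mem_nhds (show (∫ y, inner ℝ (ζ y • A p (dx F y + Gl y))
      (Gl y)) - η / 3 < ∫ y, inner ℝ (ζ y • A p (dx F y + Gl y)) (Gl y) by linarith))
    filter_upwards [st, hwk2] with k h1 h2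
    have hVG : MemLp (fun y => av (-s) Gl y - Gl y) (ENNReal.ofReal p) volume :=
      hav.mem.sub hlW.mem
    have j1 : Integrable (fun y => ζ y * inner ℝ (A p (dx F y + G k y))
        (G k y - av (-s) Gl y)) volume := by
      refine (holder_inner hp (hA k) (hsm _ _ ((hGm k).sub hav.mem))).1.congr
        (Eventually.of_forall fun y => ?_)
      simp only [real_inner_smul_right, Pi.sub_apply]
    have j2 := holder_inner hp (hA k) (hsm _ _ hVG)
    have j3 : Integrable (fun y => inner ℝ (ζ y • A p (dx F y + Gl y)) (G k y)) volume :=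
      (holder_inner hp (hsm _ _ hAl) (hGm k)).1
    have j4 : Integrable (fun y => inner ℝ (ζ y • A p (dx F y + Gl y)) (Gl y)) volume :=
      (holder_inner hp (hsm _ _ hAl) hlW.mem).1
    have e1 : ∫ y, ζ y * inner ℝ (A p (dx F y + G k y) - A p (dx F y + Gl y))
        ((dx F y + G k y) - (dx F y + Gl y)) =
        (∫ y, ζ y * inner ℝ (A p (dx F y + G k y)) (G k y - av (-s) Gl y)) +
        (∫ y, inner ℝ (A p (dx F y + G k y)) (ζ y • (av (-s) Gl y - Gl y))) -
        ((∫ y, inner ℝ (ζ y • A p (dx F y + Gl y)) (G k y)) -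
          ∫ y, inner ℝ (ζ y • A p (dx F y + Gl y)) (Gl y)) := by
      have j12 : Integrable (fun y => ζ y * inner ℝ (A p (dx F y + G k y))
        (G k y - av (-s) Gl y) + inner ℝ (A p (dx F y + G k y))
        (ζ y • (av (-s) Gl y - Gl y))) volume := j1.add j2.1
      have j34 : Integrable (fun y => inner ℝ (ζ y • A p (dx F y + Gl y)) (G k y) -
        inner ℝ (ζ y • A p (dx F y + Gl y)) (Gl y)) volume := j3.sub j4
      rw [← integral_sub j3 j4, ← integral_add j1 j2.1, ← integral_sub j12 j34]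
      congr 1
      funext y
      rw [add_sub_add_left_eq_sub]
      simp only [inner_sub_left, inner_sub_right, real_inner_smul_left, real_inner_smul_right]
      ring
    have e2 : ∫ y, inner ℝ (A p (dx F y + G k y)) (ζ y • (av (-s) Gl y - Gl y)) ≤
        K1 * (∫ y, ‖av (-s) Gl y - Gl y‖ ^ p) ^ (1 / p) := by
      refine (le_abs_self _).trans (j2.2.trans ?_)
      have e3 : ∫ y, ‖ζ y • (av (-s) Gl y - Gl y)‖ ^ p ≤ ∫ y, ‖av (-s) Gl y - Gl y‖ ^ p := by
        refine integral_mono_of_nonneg (Eventually.of_forall fun y =>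
          Real.rpow_nonneg (norm_nonneg _) p) (mty_intpow hp hVG)
          (Eventually.of_forall fun y => ?_)
        refine Real.rpow_le_rpow (norm_nonneg _) ?_ hp0.le
        rw [norm_smul, Real.norm_of_nonneg (hζ01 y).1]
        calc ζ y * ‖av (-s) Gl y - Gl y‖ ≤ 1 * ‖av (-s) Gl y - Gl y‖ :=
              mul_le_mul_of_nonneg_right (hζ01 y).2 (norm_nonneg _)
          _ = _ := one_mul _
      refine mul_le_mul (hK1 k) (Real.rpow_le_rpow (integral_nonneg fun y =>
        Real.rpow_nonneg (norm_nonneg _) p) e3 (by positivity)) (Real.rpow_nonneg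
        (integral_nonneg fun y => Real.rpow_nonneg (norm_nonneg _) p) _) hK10
    rw [e1]
    linarith
  -- conclusion
  rw [Metric.tendsto_atTop]
  intro δ hδ
  obtain ⟨η, hη, hlps⟩ := lps (n := n) hp K2 (δ / 2) (by linarith)
  obtain ⟨N, hN⟩ := eventually_atTop.1 (main η hη)
  refine ⟨N, fun k hk => ?_⟩
  have h1 := hlps ζ (fun y => dx F y + G k y) (fun y => dx F y + Gl y) mζ
    (fun y => (hζ01 y).1) (fun y => (hζ01 y).2) (hFx.add (hGm k)) (hFx.add hlW.mem)
    (hadd _ (hGm k) (hKG k)) (hadd _ hlW.mem hKl) (hN k hk)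
  have h2 : ∫ y, ζ y * ‖(dx F y + G k y) - (dx F y + Gl y)‖ ^ p =
      ∫ y, ζ y * ‖G k y - Gl y‖ ^ p := by
    congr 1
    funext y
    rw [add_sub_add_left_eq_sub]
  rw [h2] at h1
  have h3 : 0 ≤ ∫ y, ζ y * ‖G k y - Gl y‖ ^ p := integral_nonneg fun y =>
    mul_nonneg (hζ01 y).1 (Real.rpow_nonneg (norm_nonneg _) p)
  rw [Real.dist_eq, sub_zero, abs_of_nonneg h3]
  linarith

end PP
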