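import Pool.Agent.PP.WLIM
import Pool.Agent.PP.CAL2
import Pool.Agent.PP.CAL3
import Pool.Agent.PP.POI
import Pool.Agent.PP.LPS
import Pool.Agent.PP.EXH

open Set Metric Filter Topology MeasureTheory
open scoped ContDiff

noncomputable section

namespace PP

variable {n : ℕ}
variable {p : ℝ}

theorem vil_bound {H : Type*} [NormedAddCommGroup H] {φ : X n → H} (hφ : Continuous φ)
    (hc : HasCompactSupport φ) : ∃ B : ℝ, 0 ≤ B ∧ ∀ y, ‖φ y‖ ≤ B := by
  obtain ⟨B, hB⟩ := hc.exists_bound_of_continuous hφ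
  exact ⟨|B|, abs_nonneg _, fun y => (hB y).trans (le_abs_self _)⟩

theorem vil_cpt_dt {φ : X n → ℝ} (hc : HasCompactSupport φ) : HasCompactSupport (dt φ) :=
  HasCompactSupport.intro hc fun y hy => dt_zero_of_notMem y hy

theorem vil_neg_dt (φ : X n → ℝ) (y : X n) : dt (fun z => - φ z) y = - dt φ y := by
  unfold dt
  exact deriv.fun_neg

theorem vil_neg_dx (φ : X n → ℝ) (y : X n) : dx (fun z => - φ z) y = - dx φ y := by
  unfold dx gradient
  rw [fderiv_fun_neg, map_neg]

theorem vil_neg_tst {Ω : Set (X n)} {φ : X n → ℝ} (h : Tst Ω φ) : Tst Ω (fun z => - φ z) := by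
  have h1 : tsupport (fun z => - φ z) = tsupport φ := by
    unfold tsupport
    congr 1
    ext z
    simp
  exact ⟨h.smooth.neg, by
    unfold HasCompactSupport
    rw [h1]
    exact h.cpt, by rw [h1]; exact h.supp⟩

/-- limit of the variational inequality for a fixed test function -/
theorem vil_lim (hp : 1 < p) {Θ : Set (X n)} (hΘ : IsOpen Θ) (hb : Bornology.IsBounded Θ)
    {F : X n → ℝ} (hF : Tst univ F) {M K : ℝ} {ε : ℕ → ℝ} (hε : ∀ k, 0 < ε k)
    (hε0 : Tendsto ε atTop (𝓝 0)) {C : ℕ → Set (X n)} (hC : ∀ k, IsCompact (C k) ∧ C k ⊆ Θ)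
    (hCe : ∀ D, IsCompact D → D ⊆ Θ → ∀ᶠ k in atTop, D ⊆ C k) {obs : X n → ℝ}
    {z zt : ℕ → X n → ℝ} {G : ℕ → X n → E n}
    (h : ∀ k, RegSol p (ε k) (C k) obs F (z k) (zt k) (G k))
    (hM : ∀ k, ∀ᵐ y, |z k y| ≤ M) (hK : ∀ k, ε k * (∫ y, zt k y ^ 2) ≤ K)
    {zl : X n → ℝ} {Gl : X n → E n} (hl : ∀ᵐ y, Tendsto (fun k => z k y) atTop (𝓝 (zl y)))
    (hlW : W0 p Θ zl Gl)
    (hs : ∀ ζ : X n → ℝ, Tst Θ ζ → (∀ y, 0 ≤ ζ y ∧ ζ y ≤ 1) →
      Tendsto (fun k => ∫ y, ζ y * ‖G k y - Gl y‖ ^ p) atTop (𝓝 0))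
    {φ : X n → ℝ} (hφ : Tst Θ φ) (had : ∃ s > 0, ∀ k, ∀ᵐ y, - obs y ≤ z k y + s * φ y) :
    ∫ y, (F y + zl y) * dt φ y ≤ ∫ y, inner ℝ (A p (dx F y + Gl y)) (dx φ y) := by
  have hp0 : 0 < p := by linarith
  have hcj : 0 < cj p := div_pos hp0 (by linarith)
  have hφu : Tst univ φ := ⟨hφ.smooth, hφ.cpt, subset_univ _⟩
  have hS : IsCompact (tsupport φ) := hφ.cpt
  have hSm : MeasurableSet (tsupport φ) := (isClosed_tsupport φ).measurableSet
  have hFt : MemLp (dt F) 2 volume := (tst_W1 hp hF).memt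
  have hFx : MemLp (dx F) (ENNReal.ofReal p) volume := (tst_W1 hp hF).mem
  have hφt : MemLp (dt φ) 2 volume := (tst_W1 hp hφ).memt
  have hφx : MemLp (dx φ) (ENNReal.ofReal p) volume := (tst_W1 hp hφ).mem
  have hφW : W1 p Θ φ (dt φ) (dx φ) := (tst_W1 hp hφ).mono hφ.supp
  have hφ2 : MemLp φ 2 volume := hφW.toW0.memLp_fn hb 2
  have hA : ∀ k, MemLp (fun y => A p (dx F y + G k y)) (ENNReal.ofReal (cj p)) volume :=
    fun k => memLp_flux hp (hFx.add (h k).w.mem)
  have hAl : MemLp (fun y => A p (dx F y + Gl y)) (ENNReal.ofReal (cj p)) volume :=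
    memLp_flux hp (hFx.add hlW.mem)
  -- strong convergence of the fluxes on the support
  obtain ⟨ζ, hζ, hζ01, hζ1⟩ := exists_cutoff hS hΘ hφ.supp
  have hζS : ∀ y ∈ tsupport φ, ζ y = 1 := fun y hy =>
    (hζ1.filter_mono (nhds_le_nhdsSet hy)).self_of_nhds
  have g1 : Tendsto (fun k => ∫ y in tsupport φ, ‖(dx F y + G k y) - (dx F y + Gl y)‖ ^ p) atTop
      (𝓝 0) := by
    refine squeeze_zero (fun k => integral_nonneg fun y => Real.rpow_nonneg (norm_nonneg _) p)
      (fun k => ?_) (hs ζ hζ hζ01)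
    have i1 : Integrable (fun y => ‖G k y - Gl y‖ ^ p) volume := by
      have := ((h k).w.mem.sub hlW.mem).integrable_norm_rpow (by simp [hp0]) ENNReal.ofReal_ne_top
      simpa [ENNReal.toReal_ofReal hp0.le] using this
    have i2 : Integrable (fun y => ζ y * ‖G k y - Gl y‖ ^ p) volume := by
      refine Integrable.mono' i1 (hζ.smooth.continuous.aestronglyMeasurable.mul i1.1)
        (Eventually.of_forall fun y => ?_)
      rw [Real.norm_eq_abs, abs_mul, abs_of_nonneg (hζ01 y).1,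
        abs_of_nonneg (Real.rpow_nonneg (norm_nonneg _) p)]
      calc ζ y * ‖G k y - Gl y‖ ^ p ≤ 1 * ‖G k y - Gl y‖ ^ p :=
            mul_le_mul_of_nonneg_right (hζ01 y).2 (Real.rpow_nonneg (norm_nonneg _) p)
        _ = _ := one_mul _
    calc ∫ y in tsupport φ, ‖(dx F y + G k y) - (dx F y + Gl y)‖ ^ p =
        ∫ y in tsupport φ, ζ y * ‖G k y - Gl y‖ ^ p := by
          refine setIntegral_congr_fun hSm (fun y hy => ?_)
          simp only [add_sub_add_left_eq_sub, hζS y hy, one_mul]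
      _ ≤ ∫ y, ζ y * ‖G k y - Gl y‖ ^ p :=
          setIntegral_le_integral i2 (Eventually.of_forall fun y =>
            mul_nonneg (hζ01 y).1 (Real.rpow_nonneg (norm_nonneg _) p))
  have g2 := flux_tendsto hp hSm (G := fun k y => dx F y + G k y) (H := fun y => dx F y + Gl y)
    (fun k => (hFx.add (h k).w.mem).restrict _) ((hFx.add hlW.mem).restrict _) g1
  have g3 : Tendsto (fun k => ∫ y, inner ℝ (A p (dx F y + G k y)) (dx φ y)) atTop
      (𝓝 (∫ y, inner ℝ (A p (dx F y + Gl y)) (dx φ y))) := by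
    rw [tendsto_iff_norm_sub_tendsto_zero]
    have e1 : ∀ k, ‖(∫ y, inner ℝ (A p (dx F y + G k y)) (dx φ y)) -
        ∫ y, inner ℝ (A p (dx F y + Gl y)) (dx φ y)‖ ≤
        (∫ y in tsupport φ, ‖A p (dx F y + G k y) - A p (dx F y + Gl y)‖ ^ cj p) ^ (1 / cj p) *
        (∫ y in tsupport φ, ‖dx φ y‖ ^ p) ^ (1 / p) := by
      intro k
      rw [← integral_sub (holder_inner hp (hA k) hφx).1 (holder_inner hp hAl hφx).1]
      have e2 : ∫ y, (inner ℝ (A p (dx F y + G k y)) (dx φ y) -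
          inner ℝ (A p (dx F y + Gl y)) (dx φ y)) =
          ∫ y in tsupport φ, inner ℝ (A p (dx F y + G k y) - A p (dx F y + Gl y)) (dx φ y) := by
        rw [← integral_indicator hSm]
        congr 1
        funext y
        by_cases hy : y ∈ tsupport φ
        · rw [indicator_of_mem hy, inner_sub_left]
        · rw [indicator_of_notMem hy, dx_zero_of_notMem y hy, inner_zero_right, inner_zero_right,
            sub_zero]
      rw [e2]
      exact (holder_inner hp (((hA k).sub hAl).restrict _) (hφx.restrict _)).2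
    refine squeeze_zero (fun k => norm_nonneg _) e1 ?_
    have e3 := (g2.rpow_const (p := 1 / cj p) (Or.inr (by positivity))).mul_const
      ((∫ y in tsupport φ, ‖dx φ y‖ ^ p) ^ (1 / p))
    rw [Real.zero_rpow (by positivity), zero_mul] at e3
    exact e3
  -- the other terms
  have g4 : Tendsto (fun k => ∫ y, z k y * dt φ y) atTop (𝓝 (∫ y, zl y * dt φ y)) := by
    obtain ⟨B, hB0, hB⟩ := vil_bound (contDiff_dt hφ.smooth).continuous (vil_cpt_dt hφ.cpt)
    refine tendsto_integral_of_dominated_convergence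
      ((tsupport φ).indicator fun _ => M * B) (fun k => (h k).w.meas.mul hφt.1) ?_
      (fun k => ?_) ?_
    · rw [integrable_indicator_iff hSm]
      exact integrableOn_const (hs := hS.measure_lt_top.ne)
    · filter_upwards [hM k] with y hy
      by_cases hy1 : y ∈ tsupport φ
      · rw [indicator_of_mem hy1, norm_mul]
        exact mul_le_mul hy (hB y) (norm_nonneg _) ((abs_nonneg _).trans hy)
      · rw [indicator_of_notMem hy1, dt_zero_of_notMem y hy1, mul_zero, norm_zero]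
    · filter_upwards [hl] with y hy
      exact hy.mul_const _
  have l1 : Tendsto (fun k => ε k * (∫ y, dt F y * dt φ y) +
      √(ε k) / 2 * (K + ∫ y, dt φ y ^ 2)) atTop (𝓝 0) := by
    have k1 : Tendsto (fun k => ε k * (∫ y, dt F y * dt φ y)) atTop
      (𝓝 (0 * (∫ y, dt F y * dt φ y))) := hε0.mul_const _
    have k2 : Tendsto (fun k => √(ε k) / 2 * (K + ∫ y, dt φ y ^ 2)) atTop
        (𝓝 (√0 / 2 * (K + ∫ y, dt φ y ^ 2))) :=
      (((Real.continuous_sqrt.tendsto 0).comp hε0).div_const 2).mul_const _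
    simpa using k1.add k2
  have l2 : Tendsto (fun k => (ε k * (∫ y, dt F y * dt φ y) +
      √(ε k) / 2 * (K + ∫ y, dt φ y ^ 2)) + ((∫ y, dt F y * φ y) - ∫ y, z k y * dt φ y) +
      ∫ y, inner ℝ (A p (dx F y + G k y)) (dx φ y)) atTop
      (𝓝 (0 + ((∫ y, dt F y * φ y) - ∫ y, zl y * dt φ y) +
        ∫ y, inner ℝ (A p (dx F y + Gl y)) (dx φ y))) :=
    (l1.add (g4.const_sub _)).add g3
  have key : ∀ᶠ k in atTop, 0 ≤ (ε k * (∫ y, dt F y * dt φ y) +
      √(ε k) / 2 * (K + ∫ y, dt φ y ^ 2)) + ((∫ y, dt F y * φ y) - ∫ y, z k y * dt φ y) +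
      ∫ y, inner ℝ (A p (dx F y + G k y)) (dx φ y) := by
    filter_upwards [hCe _ hS hφ.supp] with k hCk
    obtain ⟨s, hs0, had⟩ := had
    have hvi := (h k).vi φ (dt φ) (dx φ) ((tst_W1 hp hφ).mono hCk) ⟨s, hs0, had k⟩
    have hzt := (h k).w.memt
    have i1 : Integrable (fun y => dt F y * dt φ y) volume := hFt.integrable_mul hφt
    have i2 : Integrable (fun y => zt k y * dt φ y) volume := hzt.integrable_mul hφt
    have i3 : Integrable (fun y => dt F y * φ y) volume := hFt.integrable_mul hφ2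
    have i4 : Integrable (fun y => zt k y * φ y) volume := hzt.integrable_mul hφ2
    have i5 := (holder_inner hp (hA k) hφx).1
    have i6 : Integrable (fun y => ε k * (dt F y * dt φ y + zt k y * dt φ y)) volume :=
      (i1.add i2).const_mul _
    have i7 : Integrable (fun y => dt F y * φ y + zt k y * φ y) volume := i3.add i4
    have i8 : Integrable (fun y => ε k * (dt F y * dt φ y + zt k y * dt φ y) +
      (dt F y * φ y + zt k y * φ y)) volume := i6.add i7
    have e1 : ∫ y, (ε k * ((dt F y + zt k y) * dt φ y) + (dt F y + zt k y) * φ y +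
        inner ℝ (A p (dx F y + G k y)) (dx φ y)) =
        ε k * ((∫ y, dt F y * dt φ y) + ∫ y, zt k y * dt φ y) +
        ((∫ y, dt F y * φ y) + ∫ y, zt k y * φ y) +
        ∫ y, inner ℝ (A p (dx F y + G k y)) (dx φ y) := by
      rw [← integral_add i1 i2, ← integral_const_mul, ← integral_add i3 i4,
        ← integral_add i6 i7, ← integral_add i8 i5]
      congr 1
      funext y
      ring
    have e2 := int_time hp hb ((h k).w.mono (hC k).2) hφW
    have e3 : ε k * (∫ y, zt k y * dt φ y) ≤ √(ε k) / 2 * (K + ∫ y, dt φ y ^ 2) := by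
      have j1 : ε k * (∫ y, zt k y * dt φ y) ≤
          √(ε k) / 2 * (ε k * (∫ y, zt k y ^ 2) + ∫ y, dt φ y ^ 2) := by
        have j2 : √(ε k) / 2 * (ε k * (∫ y, zt k y ^ 2) + ∫ y, dt φ y ^ 2) =
            ∫ y, √(ε k) / 2 * (ε k * zt k y ^ 2 + dt φ y ^ 2) := by
          rw [integral_const_mul, integral_add (hzt.integrable_sq.const_mul _)
            hφt.integrable_sq, integral_const_mul]
        rw [j2, ← integral_const_mul]
        refine integral_mono (i2.const_mul _) (((hzt.integrable_sq.const_mul _).add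
          hφt.integrable_sq).const_mul _) (fun y => ?_)
        have hs1 : √(ε k) * √(ε k) = ε k := Real.mul_self_sqrt (hε k).le
        have hs2 : 0 ≤ √(ε k) := Real.sqrt_nonneg _
        have j3 : 0 ≤ √(ε k) * (√(ε k) * zt k y - dt φ y) ^ 2 := mul_nonneg hs2 (sq_nonneg _)
        simp only []
        have j4 : √(ε k) / 2 * (ε k * zt k y ^ 2 + dt φ y ^ 2) - ε k * (zt k y * dt φ y) =
            √(ε k) * (√(ε k) * zt k y - dt φ y) ^ 2 / 2 := by
          obtain ⟨r, hr⟩ : ∃ r, r = √(ε k) := ⟨_, rfl⟩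
          rw [← hr] at hs1 ⊢
          rw [← hs1]
          ring
        linarith
      refine j1.trans (mul_le_mul_of_nonneg_left ?_ (by positivity))
      have := hK k
      linarith
    rw [e1] at hvi
    linarith
  have l3 := ge_of_tendsto l2 key
  have hFW : W1 p (tsupport F) F (dt F) (dx F) := tst_W1 hp hF
  have hU : Bornology.IsBounded (tsupport F ∪ Θ) := hF.cpt.isBounded.union hb
  have e4 := int_time hp hU (hFW.mono subset_union_left) (hφW.mono subset_union_right)
  have i9 : Integrable (fun y => F y * dt φ y) volume :=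
    (hFW.toW0.memLp_fn hF.cpt.isBounded 2).integrable_mul hφt
  have i10 : Integrable (fun y => zl y * dt φ y) volume := (hlW.memLp_fn hb 2).integrable_mul hφt
  have e5 : ∫ y, (F y + zl y) * dt φ y = (∫ y, F y * dt φ y) + ∫ y, zl y * dt φ y := by
    rw [← integral_add i9 i10]
    congr 1
    funext y
    ring
  rw [e5, e4]
  linarith

theorem vil (hp : 1 < p) {Θ : Set (X n)} (hΘ : IsOpen Θ) (hb : Bornology.IsBounded Θ)
    {F : X n → ℝ} (hF : Tst univ F) {M K : ℝ} {ε : ℕ → ℝ} (hε : ∀ k, 0 < ε k)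
    (hε0 : Tendsto ε atTop (𝓝 0)) {C : ℕ → Set (X n)} (hC : ∀ k, IsCompact (C k) ∧ C k ⊆ Θ)
    (hCe : ∀ D, IsCompact D → D ⊆ Θ → ∀ᶠ k in atTop, D ⊆ C k) {obs : X n → ℝ}
    (hobs : Tst univ obs) (hobs0 : ∀ y, 0 ≤ obs y) {z zt : ℕ → X n → ℝ} {G : ℕ → X n → E n}
    (h : ∀ k, RegSol p (ε k) (C k) obs F (z k) (zt k) (G k))
    (hM : ∀ k, ∀ᵐ y, |z k y| ≤ M) (hK : ∀ k, ε k * (∫ y, zt k y ^ 2) + ∫ y, ‖G k y‖ ^ p ≤ K)
    {zl : X n → ℝ} {Gl : X n → E n} (hl : ∀ᵐ y, Tendsto (fun k => z k y) atTop (𝓝 (zl y)))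
    (hlW : W0 p Θ zl Gl)
    (hs : ∀ ζ : X n → ℝ, Tst Θ ζ → (∀ y, 0 ≤ ζ y ∧ ζ y ≤ 1) →
      Tendsto (fun k => ∫ y, ζ y * ‖G k y - Gl y‖ ^ p) atTop (𝓝 0)) :
    SupOn p Θ (fun y => F y + zl y) (fun y => dx F y + Gl y) ∧
      SolOn p {y | y ∈ Θ ∧ M < obs y} (fun y => F y + zl y) (fun y => dx F y + Gl y) := by
  have hKt : ∀ k, ε k * (∫ y, zt k y ^ 2) ≤ K := fun k => by
    have h1 := hK k
    have h2 : 0 ≤ ∫ y, ‖G k y‖ ^ p :=
      integral_nonneg fun y => Real.rpow_nonneg (norm_nonneg _) p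
    linarith
  have hzM : ∀ᵐ y, |zl y| ≤ M := by
    filter_upwards [hl, ae_all_iff.2 hM] with y h1 h2
    exact le_of_tendsto h1.abs (Eventually.of_forall h2)
  obtain ⟨BF, hBF0, hBF⟩ := vil_bound hF.smooth.continuous hF.cpt
  have hFx : MemLp (dx F) (ENNReal.ofReal p) volume := (tst_W1 hp hF).mem
  have hmeas : AEStronglyMeasurable (fun y => F y + zl y) volume :=
    hF.smooth.continuous.aestronglyMeasurable.add hlW.meas
  have hbdd : ∀ᵐ y, |F y + zl y| ≤ BF + M := by
    filter_upwards [hzM] with y hy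
    exact (abs_add_le _ _).trans (add_le_add (hBF y) hy)
  have hmem : MemLp (fun y => dx F y + Gl y) (ENNReal.ofReal p) volume := hFx.add hlW.mem
  have hU : Bornology.IsBounded (tsupport F ∪ Θ) := hF.cpt.isBounded.union hb
  have hWsum := W0.lin hp hU ((tst_W1 hp hF).toW0.mono subset_union_left)
    (hlW.mono subset_union_right) 1 1
  have hwg : WG univ (fun y => F y + zl y) (fun y => dx F y + Gl y) := by
    have := hWsum.wg
    simpa only [one_mul, one_smul] using this
  have hsup : SupOn p Θ (fun y => F y + zl y) (fun y => dx F y + Gl y) :=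
    { meas := hmeas.restrict
      bdd := ⟨BF + M, ae_restrict_of_ae hbdd⟩
      memG := fun L _ _ => hmem.restrict _
      wg := fun φ hφ => hwg φ ⟨hφ.smooth, hφ.cpt, subset_univ _⟩
      ineq := fun φ hφ hφ0 => vil_lim hp hΘ hb hF hε hε0 hC hCe h hM hKt hl hlW hs hφ
        ⟨1, one_pos, fun k => by
          filter_upwards [(h k).ob] with y hy
          have := hφ0 y
          linarith⟩ }
  refine ⟨hsup, ?_⟩
  have hsubset : {y | y ∈ Θ ∧ M < obs y} ⊆ Θ := fun y hy => hy.1
  have hadm : ∀ φ, Tst {y | y ∈ Θ ∧ M < obs y} φ →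
      ∃ s > 0, ∀ k, ∀ᵐ y, - obs y ≤ z k y + s * φ y := by
    intro φ hφ
    obtain ⟨B, hB0, hB⟩ := vil_bound hφ.smooth.continuous hφ.cpt
    have hcon : ContinuousOn (fun y => obs y - M) (tsupport φ) :=
      (hobs.smooth.continuous.sub continuous_const).continuousOn
    by_cases hne : (tsupport φ).Nonempty
    · obtain ⟨y0, hy0, hmin⟩ := (show IsCompact (tsupport φ) from hφ.cpt).exists_isMinOn hne hcon
      have hm0 : 0 < obs y0 - M := sub_pos.2 (hφ.supp hy0).2
      refine ⟨(obs y0 - M) / (B + 1), by positivity, fun k => ?_⟩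
      filter_upwards [(h k).ob, hM k] with y h1 h2
      by_cases hy : y ∈ tsupport φ
      · have h3 : obs y0 - M ≤ obs y - M := hmin hy
        have h4 : |(obs y0 - M) / (B + 1) * φ y| ≤ obs y0 - M := by
          rw [abs_mul, abs_of_pos (by positivity : 0 < (obs y0 - M) / (B + 1))]
          have h5 : |φ y| ≤ B := hB y
          calc (obs y0 - M) / (B + 1) * |φ y| ≤ (obs y0 - M) / (B + 1) * (B + 1) :=
                mul_le_mul_of_nonneg_left (by linarith) (by positivity)
            _ = obs y0 - M := by field_simp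
        have h6 := (abs_le.1 h4).1
        have h7 := (abs_le.1 h2).1
        linarith
      · rw [image_eq_zero_of_notMem_tsupport hy, mul_zero, add_zero]
        exact h1
    · refine ⟨1, one_pos, fun k => ?_⟩
      filter_upwards [(h k).ob] with y h1
      have hy : y ∉ tsupport φ := fun hy => hne ⟨y, hy⟩
      rw [image_eq_zero_of_notMem_tsupport hy, mul_zero, add_zero]
      exact h1
  have hineq : ∀ φ, Tst {y | y ∈ Θ ∧ M < obs y} φ →
      ∫ y, (F y + zl y) * dt φ y ≤ ∫ y, inner ℝ (A p (dx F y + Gl y)) (dx φ y) := fun φ hφ =>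
    vil_lim hp hΘ hb hF hε hε0 hC hCe h hM hKt hl hlW hs
      ⟨hφ.smooth, hφ.cpt, hφ.supp.trans hsubset⟩ (hadm φ hφ)
  exact
    { meas := hmeas.restrict
      bdd := ⟨BF + M, ae_restrict_of_ae hbdd⟩
      memG := fun L _ _ => hmem.restrict _
      wg := fun φ hφ => hwg φ ⟨hφ.smooth, hφ.cpt, subset_univ _⟩
      ineq := fun φ hφ _ => hineq φ hφ
      eq := fun φ hφ => by
        have h1 := hineq φ hφ
        have h2 := hineq _ (vil_neg_tst hφ)
        simp only [vil_neg_dt, vil_neg_dx, mul_neg, inner_neg_right, integral_neg] at h2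
        linarith }

end PP
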