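import Pool.Agent.PP.MIN
import Pool.Agent.PP.CMP
import Pool.Agent.PP.ENE
import Pool.Agent.PP.EXH
import Pool.Agent.PP.EQU
import Pool.Agent.PP.MTY
import Pool.Agent.PP.VIL
import Pool.Agent.PP.LSOL

open Set Metric Filter Topology MeasureTheory
open scoped ContDiff

noncomputable section

namespace PP

variable {n : ℕ}
variable {p : ℝ}

theorem dx_neg (F : X n → ℝ) (z : X n) : dx (fun z => - F z) z = - dx F z := by
  simp only [dx, gradient]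
  rw [← map_neg]
  congr 1
  exact fderiv_fun_neg

theorem dt_neg (F : X n → ℝ) (z : X n) : dt (fun z => - F z) z = - dt F z := by
  simp only [dt]
  exact deriv.fun_neg

theorem Tst.neg {Ω : Set (X n)} {F : X n → ℝ} (h : Tst Ω F) : Tst Ω (fun z => - F z) where
  smooth := h.smooth.neg
  cpt := by
    have := h.cpt.neg
    exact this
  supp := by
    have h1 : tsupport (fun z => - F z) = tsupport F := by
      have : (fun z => - F z) = - F := rfl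
      rw [this, tsupport, tsupport, Function.support_neg]
    rw [h1]; exact h.supp

/-- the double family of regularised solutions -/
theorem core_family (hp : 1 < p) {Θ : Set (X n)} (hΘ : IsOpen Θ) (hb : Bornology.IsBounded Θ)
    {F : X n → ℝ} (hF : Tst univ F) {M : ℝ} (hM : ∀ z, |F z| ≤ M) {obs : ℕ → X n → ℝ}
    (hobs : ∀ i y, 0 ≤ obs i y) :
    ∃ (K : ℝ) (z zt : ℕ → ℕ → X n → ℝ) (G : ℕ → ℕ → X n → E n),
      (∀ i k : ℕ, RegSol p (1 / ((k : ℝ) + 1)) (Cx Θ k) (obs i) F (z i k) (zt i k) (G i k)) ∧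
      (∀ i k, ∀ᵐ y, |z i k y| ≤ 2 * M) ∧
      (∀ i k : ℕ, 1 / ((k : ℝ) + 1) * (∫ y, zt i k y ^ 2) + ∫ y, ‖G i k y‖ ^ p ≤ K) ∧
      (∀ i, EquiL Θ (z i)) := by
  obtain ⟨K, hK⟩ := ene hp hb hF (2 * M)
  have hε : ∀ k : ℕ, 0 < 1 / ((k : ℝ) + 1) ∧ 1 / ((k : ℝ) + 1) ≤ 1 := by
    intro k
    have h0 : (0 : ℝ) ≤ k := Nat.cast_nonneg k
    refine ⟨by positivity, ?_⟩
    rw [div_le_one (by linarith)]; linarith
  have h1 : ∀ i k : ℕ, ∃ z zt G, RegSol p (1 / ((k : ℝ) + 1)) (Cx Θ k) (obs i) F z zt G ∧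
      ∀ᵐ y, |F y + z y| ≤ M := fun i k =>
    exists_regSol hp (Cx_compact hΘ hb k) (hε k).1 (hobs i) hF hM
  choose z zt G h2 h3 using h1
  have h4 : ∀ i k, ∀ᵐ y, |z i k y| ≤ 2 * M := by
    intro i k
    filter_upwards [h3 i k] with y hy
    have h5 := hM y
    have : z i k y = (F y + z i k y) - F y := by ring
    rw [this]
    calc |F y + z i k y - F y| ≤ |F y + z i k y| + |F y| := abs_sub _ _
      _ ≤ 2 * M := by linarith
  have h5 : ∀ i k : ℕ, 1 / ((k : ℝ) + 1) * (∫ y, zt i k y ^ 2) + ∫ y, ‖G i k y‖ ^ p ≤ K := fun i k =>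
    hK _ _ _ _ _ _ (hε k).1 (hε k).2 (Cx_compact hΘ hb k) (Cx_sub Θ k) (hobs i) (h2 i k) (h4 i k)
  refine ⟨K, z, zt, G, h2, h4, h5, fun i => ?_⟩
  exact equi_regSol hp hΘ hb hF hε (hobs i) (h2 i) (h4 i) (h5 i)

/-- limits of the double family -/
theorem core_limits (hp : 1 < p) {Θ : Set (X n)} (hΘ : IsOpen Θ) (hb : Bornology.IsBounded Θ)
    {F : X n → ℝ} (hF : Tst univ F) {M K : ℝ} {obs : ℕ → X n → ℝ}
    (hobs0 : ∀ i y, 0 ≤ obs i y) (hobs : ∀ i, Tst univ (obs i))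
    (hobsm : ∀ i y, obs i y ≤ obs (i + 1) y) (hobsC : ∀ i, ∀ y ∈ Cx Θ i, 2 * M < obs i y)
    {z zt : ℕ → ℕ → X n → ℝ} {G : ℕ → ℕ → X n → E n}
    (h1 : ∀ i k : ℕ, RegSol p (1 / ((k : ℝ) + 1)) (Cx Θ k) (obs i) F (z i k) (zt i k) (G i k))
    (h2 : ∀ i k, ∀ᵐ y, |z i k y| ≤ 2 * M)
    (h3 : ∀ i k : ℕ, 1 / ((k : ℝ) + 1) * (∫ y, zt i k y ^ 2) + ∫ y, ‖G i k y‖ ^ p ≤ K)
    {κ : ℕ → ℕ} (hκ : StrictMono κ) {g : ℕ → X n → ℝ}
    (hg : ∀ i, ∀ᵐ y ∂(volume.restrict Θ), Tendsto (fun k => z i (κ k) y) atTop (𝓝 (g i y))) :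
    ∃ (zl : ℕ → X n → ℝ) (Gl : ℕ → X n → E n) (zo : X n → ℝ) (Go : X n → E n),
      (∀ i, ∀ᵐ y, Tendsto (fun k => z i (κ k) y) atTop (𝓝 (zl i y))) ∧
      (∀ i, W0 p Θ (zl i) (Gl i)) ∧
      (∀ i, SupOn p Θ (fun y => F y + zl i y) (fun y => dx F y + Gl i y)) ∧
      (∀ i, SolOn p {y | y ∈ Θ ∧ 2 * M < obs i y} (fun y => F y + zl i y)
        (fun y => dx F y + Gl i y)) ∧
      (∀ i, ∀ᵐ y, - obs i y ≤ zl i y ∧ |zl i y| ≤ 2 * M) ∧
      (∀ᵐ y, Tendsto (fun i => zl i y) atTop (𝓝 (zo y))) ∧ W0 p Θ zo Go ∧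
      SolOn p Θ (fun y => F y + zo y) (fun y => dx F y + Go y) := by
  have hε : ∀ k : ℕ, 0 < 1 / ((k : ℝ) + 1) := fun k => by positivity
  have hGK : ∀ i k, ∫ y, ‖G i k y‖ ^ p ≤ K := by
    intro i k
    have h4 : 0 ≤ 1 / ((k : ℝ) + 1) * (∫ y, zt i k y ^ 2) :=
      mul_nonneg (hε k).le (integral_nonneg fun y => sq_nonneg _)
    linarith [h3 i k]
  have hW : ∀ i k, W0 p Θ (z i k) (G i k) := fun i k => (h1 i k).w.toW0.mono (Cx_sub Θ k)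
  have hMΘ : MeasurableSet Θ := hΘ.measurableSet
  -- pointwise limits on the whole space
  let zl : ℕ → X n → ℝ := fun i => Θ.indicator (g i)
  have hzl : ∀ i, ∀ᵐ y, Tendsto (fun k => z i (κ k) y) atTop (𝓝 (zl i y)) := by
    intro i
    have h5 := (ae_restrict_iff' hMΘ).1 (hg i)
    have h6 : ∀ᵐ y, ∀ k, y ∉ Θ → z i (κ k) y = 0 := ae_all_iff.2 fun k => (hW i (κ k)).zero
    filter_upwards [h5, h6] with y h5 h6
    by_cases hy : y ∈ Θ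
    · simp only [zl, indicator_of_mem hy]; exact h5 hy
    · simp only [zl, indicator_of_notMem hy]
      have : (fun k => z i (κ k) y) = fun _ => (0 : ℝ) := funext fun k => h6 k hy
      rw [this]; exact tendsto_const_nhds
  have hlim : ∀ i, ∃ Gl, W0 p Θ (zl i) Gl ∧ ∫ y, ‖Gl y‖ ^ p ≤ K ∧ WkTo p (fun k => G i (κ k)) Gl :=
    fun i => wlim hp hb (fun k => hW i (κ k)) (fun k => h2 i (κ k)) (fun k => hGK i (κ k)) (hzl i)
  choose Gl hGl1 hGl2 hGl3 using hlim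
  have hκε : Tendsto (fun k => 1 / ((κ k : ℝ) + 1)) atTop (𝓝 0) :=
    tendsto_one_div_add_atTop_nhds_zero_nat.comp hκ.tendsto_atTop
  have hCe : ∀ D, IsCompact D → D ⊆ Θ → ∀ᶠ k in atTop, D ⊆ Cx Θ (κ k) := by
    intro D hD hDΘ
    obtain ⟨k₀, hk₀⟩ := Cx_exh hΘ hb hD hDΘ
    filter_upwards [hκ.tendsto_atTop.eventually (eventually_ge_atTop k₀)] with k hk
    exact (hk₀ _ hk).trans interior_subset
  have hC : ∀ k, IsCompact (Cx Θ (κ k)) ∧ Cx Θ (κ k) ⊆ Θ := fun k =>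
    ⟨Cx_compact hΘ hb _, Cx_sub Θ _⟩
  have hvil : ∀ i, SupOn p Θ (fun y => F y + zl i y) (fun y => dx F y + Gl i y) ∧
      SolOn p {y | y ∈ Θ ∧ 2 * M < obs i y} (fun y => F y + zl i y)
        (fun y => dx F y + Gl i y) := by
    intro i
    refine vil hp hΘ hb hF (fun k => hε (κ k)) hκε hC hCe (hobs i) (hobs0 i)
      (fun k => h1 i (κ k)) (fun k => h2 i (κ k)) (fun k => h3 i (κ k)) (hzl i) (hGl1 i) ?_
    intro ζ hζ hζ01
    exact mty hp hΘ hb hF (fun k => hε (κ k)) hκε hC hCe (hobs i) (hobs0 i)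
      (fun k => h1 i (κ k)) (fun k => h2 i (κ k)) (fun k => h3 i (κ k)) (hzl i) (hGl1 i)
      (hGl3 i) hζ hζ01
  -- monotonicity and bounds
  have hmono : ∀ᵐ y, ∀ i, zl (i + 1) y ≤ zl i y := by
    rw [ae_all_iff]; intro i
    have h7 : ∀ᵐ y, ∀ k, z (i + 1) (κ k) y ≤ z i (κ k) y := ae_all_iff.2 fun k =>
      cmp_obs hp (hC k).1 (hε (κ k)) hF (hobsm i) (h1 i (κ k)) (h1 (i + 1) (κ k))
    filter_upwards [h7, hzl i, hzl (i + 1)] with y h7 h8 h9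
    exact le_of_tendsto_of_tendsto' h9 h8 h7
  have hbd : ∀ i, ∀ᵐ y, - obs i y ≤ zl i y ∧ |zl i y| ≤ 2 * M := by
    intro i
    have h7 : ∀ᵐ y, ∀ k, - obs i y ≤ z i (κ k) y := ae_all_iff.2 fun k => (h1 i (κ k)).ob
    have h8 : ∀ᵐ y, ∀ k, |z i (κ k) y| ≤ 2 * M := ae_all_iff.2 fun k => h2 i (κ k)
    filter_upwards [h7, h8, hzl i] with y h7 h8 h9
    exact ⟨ge_of_tendsto' h9 h7, le_of_tendsto' (h9.abs) h8⟩
  let zo : X n → ℝ := fun y => ⨅ i, zl i y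
  have hzo : ∀ᵐ y, Tendsto (fun i => zl i y) atTop (𝓝 (zo y)) := by
    have h7 : ∀ᵐ y, ∀ i, - obs i y ≤ zl i y ∧ |zl i y| ≤ 2 * M := ae_all_iff.2 hbd
    filter_upwards [hmono, h7] with y h8 h9
    apply tendsto_atTop_ciInf (antitone_nat_of_succ_le h8)
    refine ⟨-(2 * M), ?_⟩
    rintro _ ⟨i, rfl⟩
    exact (abs_le.1 (h9 i).2).1
  obtain ⟨Go, hGo1, hGo2, hGo3⟩ := wlim hp hb hGl1 (fun i => (hbd i).mono fun y hy => hy.2)
    hGl2 hzo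
  refine ⟨zl, Gl, zo, Go, hzl, hGl1, fun i => (hvil i).1, fun i => (hvil i).2, hbd, hzo, hGo1, ?_⟩
  refine lim_sol hp hΘ hb hF (Ω := fun i => {y | y ∈ Θ ∧ 2 * M < obs i y}) ?_ ?_ hGl1
    (fun i => (hbd i).mono fun y hy => hy.2) hGl2 (fun i => (hvil i).2) hzo hGo1 hGo3
  · intro i
    refine ⟨hΘ.inter (isOpen_lt continuous_const (hobs i).smooth.continuous), fun y hy => hy.1⟩
  · intro D hD hDΘ
    obtain ⟨k₀, hk₀⟩ := Cx_exh hΘ hb hD hDΘ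
    filter_upwards [eventually_ge_atTop k₀] with i hi y hy
    exact ⟨hDΘ hy, hobsC i y (interior_subset (hk₀ i hi hy))⟩

end PP
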