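import Pool.Agent.PP.WLIM
import Pool.Agent.PP.CAL1

open Set Metric Filter Topology MeasureTheory
open scoped ContDiff

noncomputable section

namespace PP

variable {n : ℕ}
variable {p : ℝ}

/-- `s` is a limit of compactly supported subsolutions `∂ₜ sⱼ ≤ div Γⱼ + eⱼ` -/
def Dom (p : ℝ) (Θ : Set (X n)) (s : X n → ℝ) (S : X n → E n) (e : X n → ℝ) : Prop :=
  ∃ (sj : ℕ → X n → ℝ) (Sj Γj : ℕ → X n → E n) (ej : ℕ → X n → ℝ) (C : ℕ → Set (X n)) (K : ℝ),
    (∀ j, IsCompact (C j) ∧ C j ⊆ Θ) ∧ (∀ j, W0 p (C j) (sj j) (Sj j)) ∧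
    (∀ j, ∀ᵐ y, 0 ≤ sj j y ∧ sj j y ≤ K) ∧
    (∀ j, MemLp (Γj j) (ENNReal.ofReal (cj p)) volume) ∧ (∀ j, ∫ y, ‖Γj j y‖ ^ cj p ≤ K) ∧
    (∀ j, Integrable (ej j) volume) ∧ (∀ j, DI univ (sj j) (Γj j) (ej j)) ∧
    (∀ᵐ y, Tendsto (fun j => sj j y) atTop (𝓝 (s y))) ∧
    Tendsto (fun j => ∫ y, ‖Sj j y - S y‖ ^ p) atTop (𝓝 0) ∧
    Tendsto (fun j => ∫ y, |ej j y - e y|) atTop (𝓝 0)

/-- convex combinations in `L^q` -/
theorem seqs_conv {q K : ℝ} (hq : 1 < q) {F : ℕ → X n → E n}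
    (hF : ∀ k, MemLp (F k) (ENNReal.ofReal q) volume) (hK : ∀ k, ∫ y, ‖F k y‖ ^ q ≤ K)
    {w : ℕ → ℝ} {N : ℕ} (h0 : ∀ k, 0 ≤ w k) (h1 : ∑ k ∈ Finset.range N, w k = 1) :
    MemLp (fun y => ∑ k ∈ Finset.range N, w k • F k y) (ENNReal.ofReal q) volume ∧
      ∫ y, ‖∑ k ∈ Finset.range N, w k • F k y‖ ^ q ≤ K := by
  have hq0 : 0 < q := by linarith
  have hm : MemLp (fun y => ∑ k ∈ Finset.range N, w k • F k y) (ENNReal.ofReal q) volume :=
    memLp_finsetSum _ fun k _ => (hF k).const_smul (w k)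
  refine ⟨hm, ?_⟩
  have i1 : ∀ k, Integrable (fun y => w k * ‖F k y‖ ^ q) volume := fun k =>
    ((lps_int_iff hq0 (hF k).1).2 (hF k)).const_mul _
  have i2 : Integrable (fun y => ‖∑ k ∈ Finset.range N, w k • F k y‖ ^ q) volume :=
    (lps_int_iff hq0 hm.1).2 hm
  calc ∫ y, ‖∑ k ∈ Finset.range N, w k • F k y‖ ^ q ≤
      ∫ y, ∑ k ∈ Finset.range N, w k * ‖F k y‖ ^ q := by
        refine integral_mono i2 (integrable_finsetSum _ fun k _ => i1 k) fun y => ?_
        have e1 : ‖∑ k ∈ Finset.range N, w k • F k y‖ ≤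
            ∑ k ∈ Finset.range N, w k * ‖F k y‖ := by
          refine (norm_sum_le _ _).trans (Finset.sum_le_sum fun k _ => ?_)
          rw [norm_smul, Real.norm_of_nonneg (h0 k)]
        exact (Real.rpow_le_rpow (norm_nonneg _) e1 hq0.le).trans
          (Real.rpow_arith_mean_le_arith_mean_rpow _ _ _ (fun k _ => h0 k) h1
            (fun k _ => norm_nonneg _) hq.le)
    _ = ∑ k ∈ Finset.range N, w k * ∫ y, ‖F k y‖ ^ q := by
        rw [integral_finsetSum _ fun k _ => i1 k]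
        exact Finset.sum_congr rfl fun k _ => integral_const_mul _ _
    _ ≤ ∑ k ∈ Finset.range N, w k * K :=
        Finset.sum_le_sum fun k _ => mul_le_mul_of_nonneg_left (hK k) (h0 k)
    _ = K := by rw [← Finset.sum_mul, h1, one_mul]

/-- linear combinations in `W0` -/
theorem seqs_W0 (hp : 1 < p) {D : Set (X n)} (hD : Bornology.IsBounded D) {a : ℕ → X n → ℝ}
    {G : ℕ → X n → E n} (w : ℕ → ℝ) (N : ℕ) (h : ∀ k < N, W0 p D (a k) (G k)) :
    W0 p D (fun y => ∑ k ∈ Finset.range N, w k * a k y)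
      (fun y => ∑ k ∈ Finset.range N, w k • G k y) := by
  induction N with
  | zero => simpa using W0.zero_fn (C := D) hp
  | succ N ih =>
    have h1 := (ih fun k hk => h k (by omega)).lin hp hD (h N (by omega)) 1 (w N)
    simpa [Finset.sum_range_succ] using h1

/-- nonnegative combinations of differential inequalities -/
theorem seqs_DI (hp : 1 < p) {C : ℕ → Set (X n)} {a : ℕ → X n → ℝ} {G Γ : ℕ → X n → E n}
    {e : ℕ → X n → ℝ} (w : ℕ → ℝ) (N : ℕ) (hW : ∀ k, W0 p (C k) (a k) (G k))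
    (hΓ : ∀ k, MemLp (Γ k) (ENNReal.ofReal (cj p)) volume) (he : ∀ k, Integrable (e k) volume)
    (hD : ∀ k, DI univ (a k) (Γ k) (e k)) (h0 : ∀ k, 0 ≤ w k) :
    DI univ (fun y => ∑ k ∈ Finset.range N, w k * a k y)
      (fun y => ∑ k ∈ Finset.range N, w k • Γ k y)
      (fun y => ∑ k ∈ Finset.range N, w k * e k y) := by
  have := der_haar (n := n)
  intro φ hφ hφ0
  obtain ⟨c1, s1, c2, s2⟩ := der_tst_int hφ
  have i1 : ∀ k, Integrable (fun z => w k * (a k z * dt φ z)) volume := fun k =>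
    ((cal1_locInt (hW k).meas (hW k).bdd).integrable_smul_right_of_hasCompactSupport
      c2 s2).const_mul _
  have i2 : ∀ k, Integrable (fun z => w k * inner ℝ (Γ k z) (dx φ z)) volume := fun k =>
    ((holder_inner hp (hΓ k) (c1.memLp_of_hasCompactSupport s1)).1).const_mul _
  have i3 : ∀ k, Integrable (fun z => w k * (e k z * φ z)) volume := fun k =>
    ((he k).locallyIntegrable.integrable_smul_right_of_hasCompactSupport
      hφ.smooth.continuous hφ.cpt).const_mul _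
  have e1 : ∫ z, (∑ k ∈ Finset.range N, w k * a k z) * dt φ z =
      ∑ k ∈ Finset.range N, w k * ∫ z, a k z * dt φ z := by
    simp_rw [Finset.sum_mul, mul_assoc]
    rw [integral_finsetSum _ fun k _ => i1 k]
    exact Finset.sum_congr rfl fun k _ => integral_const_mul _ _
  have e2 : ∫ z, inner ℝ (∑ k ∈ Finset.range N, w k • Γ k z) (dx φ z) =
      ∑ k ∈ Finset.range N, w k * ∫ z, inner ℝ (Γ k z) (dx φ z) := by
    simp_rw [sum_inner, real_inner_smul_left]
    rw [integral_finsetSum _ fun k _ => i2 k]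
    exact Finset.sum_congr rfl fun k _ => integral_const_mul _ _
  have e3 : ∫ z, (∑ k ∈ Finset.range N, w k * e k z) * φ z =
      ∑ k ∈ Finset.range N, w k * ∫ z, e k z * φ z := by
    simp_rw [Finset.sum_mul, mul_assoc]
    rw [integral_finsetSum _ fun k _ => i3 k]
    exact Finset.sum_congr rfl fun k _ => integral_const_mul _ _
  rw [e1, e2, e3, ← Finset.sum_neg_distrib, ← Finset.sum_add_distrib]
  refine Finset.sum_le_sum fun k _ => ?_
  have := mul_le_mul_of_nonneg_left (hD k φ hφ hφ0) (h0 k)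
  linarith

/-- bounded convergence -/
theorem seqs_l1 {Θ : Set (X n)} (hΘ : IsOpen Θ) (hb : Bornology.IsBounded Θ) {K : ℝ}
    {a : ℕ → X n → ℝ} {b : X n → ℝ} (hm : ∀ k, AEStronglyMeasurable (a k) volume)
    (ha : ∀ k, ∀ᵐ y, 0 ≤ a k y ∧ a k y ≤ K) (hz : ∀ k, ∀ᵐ y, y ∉ Θ → a k y = 0)
    (hl : ∀ᵐ y, Tendsto (fun k => a k y) atTop (𝓝 (b y))) :
    Tendsto (fun k => ∫ y, |a k y - b y|) atTop (𝓝 0) ∧ AEStronglyMeasurable b volume ∧
      (∀ᵐ y, 0 ≤ b y ∧ b y ≤ K) ∧ (∀ᵐ y, y ∉ Θ → b y = 0) ∧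
      ∀ k, Integrable (fun y => a k y - b y) volume := by
  have := der_haar (n := n)
  have hbm : AEStronglyMeasurable b volume := aestronglyMeasurable_of_tendsto_ae atTop hm hl
  have hb0 : ∀ᵐ y, 0 ≤ b y ∧ b y ≤ K := by
    filter_upwards [hl, ae_all_iff.2 ha] with y hy hy2
    exact ⟨ge_of_tendsto hy (Eventually.of_forall fun k => (hy2 k).1),
      le_of_tendsto hy (Eventually.of_forall fun k => (hy2 k).2)⟩
  have hbz : ∀ᵐ y, y ∉ Θ → b y = 0 := by
    filter_upwards [hl, ae_all_iff.2 hz] with y hy hy2 hyD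
    have h1 : Tendsto (fun k => a k y) atTop (𝓝 0) := by
      simp_rw [fun k => hy2 k hyD]
      exact tendsto_const_nhds
    exact tendsto_nhds_unique hy h1
  have hbound : Integrable (Θ.indicator fun _ : X n => 2 * |K|) volume := by
    rw [integrable_indicator_iff hΘ.measurableSet]
    exact integrableOn_const hb.measure_lt_top.ne
  have hle : ∀ k, ∀ᵐ y, ‖a k y - b y‖ ≤ Θ.indicator (fun _ : X n => 2 * |K|) y := by
    intro k
    filter_upwards [ha k, hb0, hz k, hbz] with y h1 h2 h3 h4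
    by_cases hy : y ∈ Θ
    · rw [indicator_of_mem hy, Real.norm_eq_abs, abs_le]
      have := le_abs_self K
      constructor <;> linarith [h1.1, h1.2, h2.1, h2.2]
    · rw [indicator_of_notMem hy, h3 hy, h4 hy]
      simp
  refine ⟨?_, hbm, hb0, hbz, fun k => hbound.mono' ((hm k).sub hbm) (hle k)⟩
  have h0 : Tendsto (fun k => ∫ y, |a k y - b y|) atTop (𝓝 (∫ _ : X n, (0 : ℝ))) := by
    refine tendsto_integral_of_dominated_convergence _ (fun k => ((hm k).sub hbm).norm) hbound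
      ?_ ?_
    · intro k
      filter_upwards [hle k] with y hy
      simpa using hy
    · filter_upwards [hl] with y hy
      have := (hy.sub_const (b y)).abs
      simpa using this
  simpa using h0

theorem seqs (hp : 1 < p) {Θ : Set (X n)} (hΘ : IsOpen Θ) (hb : Bornology.IsBounded Θ) {K : ℝ}
    {a : ℕ → ℕ → X n → ℝ} {S' Γ : ℕ → ℕ → X n → E n} {e' : ℕ → ℕ → X n → ℝ}
    {C : ℕ → ℕ → Set (X n)} {b : ℕ → X n → ℝ} {s e : X n → ℝ}
    (hC : ∀ i k, IsCompact (C i k) ∧ C i k ⊆ Θ) (hW : ∀ i k, W0 p (C i k) (a i k) (S' i k))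
    (ha : ∀ i k, ∀ᵐ y, 0 ≤ a i k y ∧ a i k y ≤ K) (hS : ∀ i k, ∫ y, ‖S' i k y‖ ^ p ≤ K)
    (hΓ : ∀ i k, MemLp (Γ i k) (ENNReal.ofReal (cj p)) volume)
    (hΓK : ∀ i k, ∫ y, ‖Γ i k y‖ ^ cj p ≤ K) (he' : ∀ i k, Integrable (e' i k) volume)
    (he : Integrable e volume) (hD : ∀ i k, DI univ (a i k) (Γ i k) (e' i k))
    (hb' : ∀ i, ∀ᵐ y, Tendsto (fun k => a i k y) atTop (𝓝 (b i y)))
    (hs : ∀ᵐ y, Tendsto (fun i => b i y) atTop (𝓝 (s y)))
    (hee : ∀ i, Tendsto (fun k => ∫ y, |e' i k y - e y|) atTop (𝓝 0)) :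
    ∃ S, W0 p Θ s S ∧ Dom p Θ s S e := by
  have hp0 : 0 < p := by linarith
  have hq : 1 < cj p := by
    rw [cj, lt_div_iff₀ (by linarith)]
    linarith
  have hz : ∀ i k, ∀ᵐ y, y ∉ Θ → a i k y = 0 := fun i k => by
    filter_upwards [(hW i k).zero] with y hy hyΘ
    exact hy fun h => hyΘ ((hC i k).2 h)
  have hB := fun i => seqs_l1 hΘ hb (fun k => (hW i k).meas) (ha i) (hz i) (hb' i)
  obtain ⟨hs1, hsm, hsb, hsz, hsi⟩ := seqs_l1 hΘ hb (fun i => (hB i).2.1) (fun i => (hB i).2.2.1)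
    (fun i => (hB i).2.2.2.1) hs
  have hch : ∀ i : ℕ, ∃ k, ∫ y, |a i k y - b i y| < 1 / ((i : ℝ) + 1) ∧
      ∫ y, |e' i k y - e y| < 1 / ((i : ℝ) + 1) := by
    intro i
    have hi : (0 : ℝ) < 1 / ((i : ℝ) + 1) := by positivity
    exact (((hB i).1.eventually (gt_mem_nhds hi)).and ((hee i).eventually (gt_mem_nhds hi))).exists
  choose κ hκ1 hκ2 using hch
  have hl1 : Tendsto (fun i => ∫ y, |a i (κ i) y - s y|) atTop (𝓝 0) := by
    have h1 : Tendsto (fun i : ℕ => 1 / ((i : ℝ) + 1) + ∫ y, |b i y - s y|) atTop (𝓝 0) := by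
      simpa using tendsto_one_div_add_atTop_nhds_zero_nat.add hs1
    refine squeeze_zero (fun i => integral_nonneg fun y => abs_nonneg _) (fun i => ?_) h1
    have j1 := ((hB i).2.2.2.2 (κ i)).abs
    have j2 := (hsi i).abs
    have h2 : ∫ y, |a i (κ i) y - s y| ≤ ∫ y, (|a i (κ i) y - b i y| + |b i y - s y|) := by
      refine integral_mono_of_nonneg (Eventually.of_forall fun y => abs_nonneg _) (j1.add j2)
        (Eventually.of_forall fun y => ?_)
      exact abs_sub_le _ _ _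
    rw [integral_add j1 j2] at h2
    linarith [hκ1 i]
  have hTM : TendstoInMeasure volume (fun i => a i (κ i)) atTop s := by
    refine tendstoInMeasure_of_tendsto_eLpNorm (p := 1) one_ne_zero
      (fun i => (hW i (κ i)).meas) hsm ?_
    have h1 : ∀ i, eLpNorm (a i (κ i) - s) 1 volume =
        ENNReal.ofReal (∫ y, |a i (κ i) y - s y|) := by
      intro i
      have j1 : Integrable (fun y => a i (κ i) y - s y) volume := by
        have := ((hB i).2.2.2.2 (κ i)).add (hsi i)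
        refine this.congr (Eventually.of_forall fun y => ?_)
        simp
      rw [eLpNorm_one_eq_lintegral_enorm]
      exact (ofReal_integral_norm_eq_lintegral_enorm j1).symm
    simp_rw [h1]
    have h2 := (ENNReal.continuous_ofReal.tendsto 0).comp hl1
    rw [ENNReal.ofReal_zero] at h2
    exact h2
  obtain ⟨σ, hσ, hσl⟩ := hTM.exists_seq_tendsto_ae
  obtain ⟨w, N, g, h0, h1, h2, hg, hgK, hlim⟩ := mazur hp K (fun j => S' (σ j) (κ (σ j)))
    (fun j => (hW _ _).mem) (fun j => hS _ _)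
  have hcb : ∀ j, IsCompact (⋃ k ∈ Finset.range (N j), C (σ k) (κ (σ k))) ∧
      (⋃ k ∈ Finset.range (N j), C (σ k) (κ (σ k))) ⊆ Θ := fun j =>
    ⟨Finset.isCompact_biUnion _ fun k _ => (hC _ _).1, iUnion₂_subset fun k _ => (hC _ _).2⟩
  have hW0 : ∀ j, W0 p (⋃ k ∈ Finset.range (N j), C (σ k) (κ (σ k)))
      (fun y => ∑ k ∈ Finset.range (N j), w j k * a (σ k) (κ (σ k)) y)
      (fun y => ∑ k ∈ Finset.range (N j), w j k • S' (σ k) (κ (σ k)) y) := by
    intro j
    refine seqs_W0 hp (hb.subset (hcb j).2) (w j) (N j) fun k hk => ?_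
    refine (hW (σ k) (κ (σ k))).mono ?_
    exact subset_biUnion_of_mem (u := fun k => C (σ k) (κ (σ k))) (Finset.mem_range.2 hk)
  have hbd : ∀ j, ∀ᵐ y, 0 ≤ ∑ k ∈ Finset.range (N j), w j k * a (σ k) (κ (σ k)) y ∧
      ∑ k ∈ Finset.range (N j), w j k * a (σ k) (κ (σ k)) y ≤ K := by
    intro j
    filter_upwards [ae_all_iff.2 fun k => ha (σ k) (κ (σ k))] with y hy
    refine ⟨Finset.sum_nonneg fun k _ => mul_nonneg (h0 j k) (hy k).1, ?_⟩
    calc ∑ k ∈ Finset.range (N j), w j k * a (σ k) (κ (σ k)) y ≤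
        ∑ k ∈ Finset.range (N j), w j k * K :=
          Finset.sum_le_sum fun k _ => mul_le_mul_of_nonneg_left (hy k).2 (h0 j k)
      _ = K := by rw [← Finset.sum_mul, h1, one_mul]
  have hlc : ∀ᵐ y, Tendsto (fun j => ∑ k ∈ Finset.range (N j), w j k * a (σ k) (κ (σ k)) y) atTop
      (𝓝 (s y)) := by
    filter_upwards [hσl] with y hy
    exact wlim_comb hy h0 h1 h2
  have hSc := fun j => seqs_conv hp (F := fun k => S' (σ k) (κ (σ k))) (fun k => (hW _ _).mem)
    (fun k => hS _ _) (h0 j) (h1 j)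
  have hΓc := fun j => seqs_conv hq (F := fun k => Γ (σ k) (κ (σ k))) (fun k => hΓ _ _)
    (fun k => hΓK _ _) (h0 j) (h1 j)
  obtain ⟨S, hSW, hSK, hwk⟩ := wlim hp hb (D := Θ) (M := K) (fun j => (hW0 j).mono (hcb j).2)
    (fun j => (hbd j).mono fun y hy => by rw [abs_of_nonneg hy.1]; exact hy.2)
    (fun j => (hSc j).2) hlc
  have hSg : ∀ᵐ y, S y = g y := by
    have hd : MemLp (fun y => S y - g y) (ENNReal.ofReal p) volume := hSW.mem.sub hg
    have h3 : ∀ δ > 0, ∫ y, ‖S y - g y‖ ^ p ≤ δ := by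
      intro δ hδ
      have := wlsc hp (ζ := fun _ => 1) (δ := δ) measurable_const (fun _ => zero_le_one)
        (fun _ => le_rfl) (fun j => (hSc j).1) hSW.mem hg hwk ?_
      · simpa using this
      · simp only [one_mul]
        exact (hlim.eventually (gt_mem_nhds hδ)).mono fun j hj => hj.le
    have h4 : ∫ y, ‖S y - g y‖ ^ p = 0 :=
      le_antisymm (le_of_forall_pos_le_add fun δ hδ => by simpa using h3 δ hδ)
        (integral_nonneg fun y => Real.rpow_nonneg (norm_nonneg _) _)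
    rw [integral_eq_zero_iff_of_nonneg (fun y => Real.rpow_nonneg (norm_nonneg _) _)
      ((lps_int_iff hp0 hd.1).2 hd)] at h4
    filter_upwards [h4] with y hy
    simp only [Pi.zero_apply] at hy
    rw [Real.rpow_eq_zero (norm_nonneg _) hp0.ne', norm_eq_zero, sub_eq_zero] at hy
    exact hy
  refine ⟨S, hSW, _, _, fun j y => ∑ k ∈ Finset.range (N j), w j k • Γ (σ k) (κ (σ k)) y,
    fun j y => ∑ k ∈ Finset.range (N j), w j k * e' (σ k) (κ (σ k)) y, _, K, hcb, hW0, hbd,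
    fun j => (hΓc j).1, fun j => (hΓc j).2, fun j => ?_, fun j => ?_, hlc, ?_, ?_⟩
  · exact integrable_finsetSum _ fun k _ => (he' _ _).const_mul _
  · exact seqs_DI hp (w j) (N j) (fun k => hW (σ k) (κ (σ k))) (fun k => hΓ (σ k) (κ (σ k)))
      (fun k => he' (σ k) (κ (σ k))) (fun k => hD (σ k) (κ (σ k))) (h0 j)
  · refine hlim.congr fun j => integral_congr_ae ?_
    filter_upwards [hSg] with y hy
    rw [hy]
  · have j1 : ∀ k, Integrable (fun y => e' (σ k) (κ (σ k)) y - e y) volume := fun k =>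
      (he' _ _).sub he
    have t1 : Tendsto (fun k => ∫ y, |e' (σ k) (κ (σ k)) y - e y|) atTop (𝓝 0) := by
      have t2 : Tendsto (fun i => ∫ y, |e' i (κ i) y - e y|) atTop (𝓝 0) :=
        squeeze_zero (fun i => integral_nonneg fun y => abs_nonneg _) (fun i => (hκ2 i).le)
          tendsto_one_div_add_atTop_nhds_zero_nat
      exact t2.comp hσ.tendsto_atTop
    have t3 := wlim_comb t1 h0 h1 h2
    refine squeeze_zero (fun j => integral_nonneg fun y => abs_nonneg _) (fun j => ?_) t3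
    have j2 : ∀ k, Integrable (fun y => w j k * |e' (σ k) (κ (σ k)) y - e y|) volume := fun k =>
      ((j1 k).abs).const_mul _
    calc ∫ y, |(∑ k ∈ Finset.range (N j), w j k * e' (σ k) (κ (σ k)) y) - e y| ≤
        ∫ y, ∑ k ∈ Finset.range (N j), w j k * |e' (σ k) (κ (σ k)) y - e y| := by
          refine integral_mono_of_nonneg (Eventually.of_forall fun y => abs_nonneg _)
            (integrable_finsetSum _ fun k _ => j2 k) (Eventually.of_forall fun y => ?_)
          have e1 : (∑ k ∈ Finset.range (N j), w j k * e' (σ k) (κ (σ k)) y) - e y =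
              ∑ k ∈ Finset.range (N j), w j k * (e' (σ k) (κ (σ k)) y - e y) := by
            simp_rw [mul_sub]
            rw [Finset.sum_sub_distrib, ← Finset.sum_mul, h1 j, one_mul]
          simp only [e1]
          refine (Finset.abs_sum_le_sum_abs _ _).trans (Finset.sum_le_sum fun k _ => ?_)
          rw [abs_mul, abs_of_nonneg (h0 j k)]
      _ = ∑ k ∈ Finset.range (N j), w j k * ∫ y, |e' (σ k) (κ (σ k)) y - e y| := by
          rw [integral_finsetSum _ fun k _ => j2 k]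
          exact Finset.sum_congr rfl fun k _ => integral_const_mul _ _


end PP
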