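import Pool.Agent.PP.DOMJ
import Pool.Agent.PP.SEQS

open Set Metric Filter Topology MeasureTheory
open scoped ContDiff

noncomputable section

namespace PP

variable {n : ℕ}
variable {p : ℝ}

/-- dominated convergence in `L^q` -/
theorem doml_dct {F : Type*} [NormedAddCommGroup F] {q : ℝ} (hq : 1 ≤ q)
    {f : ℕ → X n → F} {g : X n → ℝ} (hf : ∀ k, AEStronglyMeasurable (f k) volume)
    (hg : MemLp g (ENNReal.ofReal q) volume) (hb : ∀ k, ∀ᵐ z, ‖f k z‖ ≤ g z)
    (hl : ∀ᵐ z, Tendsto (fun k => f k z) atTop (𝓝 0)) :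
    Tendsto (fun k => eLpNorm (f k) (ENNReal.ofReal q) volume) atTop (𝓝 0) := by
  have h0 : (0 : ℝ) < q := by linarith
  have hm : ∀ k, MemLp (f k) (ENNReal.ofReal q) volume := fun k => hg.mono' (hf k) (hb k)
  have h1 : Tendsto (fun k => ∫ z, ‖f k z‖ ^ q) atTop (𝓝 0) := by
    have h2 : Tendsto (fun k => ∫ z, ‖f k z‖ ^ q) atTop (𝓝 (∫ _z : X n, (0 : ℝ))) := by
      refine tendsto_integral_of_dominated_convergence (fun z => ‖g z‖ ^ q)
        (fun k => ((lps_int_iff h0 (hf k)).2 (hm k)).1) ((lps_int_iff h0 hg.1).2 hg)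
        (fun k => ?_) ?_
      · filter_upwards [hb k] with z hz
        rw [Real.norm_of_nonneg (by positivity)]
        exact Real.rpow_le_rpow (norm_nonneg _) (hz.trans (Real.le_norm_self _)) h0.le
      · filter_upwards [hl] with z hz
        have h3 := hz.norm.rpow_const (p := q) (Or.inr h0.le)
        rwa [norm_zero, Real.zero_rpow h0.ne'] at h3
    rwa [integral_zero] at h2
  have h4 : Tendsto (fun k => eLpNorm (fun z => ‖f k z‖) (ENNReal.ofReal q) volume) atTop
      (𝓝 0) := by
    refine (domh_iff hq (f := fun k z => ‖f k z‖) (fun k => (hm k).norm)).1 ?_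
    simpa using h1
  simpa using h4

theorem doml_two {F G : Type*} [NormedAddCommGroup F] [NormedAddCommGroup G] {q : ℝ}
    (hq : 1 ≤ q) {a : ℕ → X n → F} {c : ℕ → X n → G} {r : ℕ → X n → ℝ} {B : ℝ} (hB : 0 ≤ B)
    (ha : ∀ k, AEStronglyMeasurable (a k) volume) (hr : ∀ k, AEStronglyMeasurable (r k) volume)
    (h : ∀ k, ∀ᵐ z, ‖c k z‖ ≤ B * ‖a k z‖ + r k z)
    (h1 : Tendsto (fun k => eLpNorm (a k) (ENNReal.ofReal q) volume) atTop (𝓝 0))
    (h2 : Tendsto (fun k => eLpNorm (r k) (ENNReal.ofReal q) volume) atTop (𝓝 0)) :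
    Tendsto (fun k => eLpNorm (c k) (ENNReal.ofReal q) volume) atTop (𝓝 0) := by
  have h3 : Tendsto (fun k => eLpNorm (fun z => B * ‖a k z‖) (ENNReal.ofReal q) volume) atTop
      (𝓝 0) := domj_mul_lim (B := B) (fun k z => by
    rw [norm_mul, norm_norm, Real.norm_of_nonneg hB]) h1
  have h4 := h3.add h2
  rw [add_zero] at h4
  refine tendsto_of_tendsto_of_tendsto_of_le_of_le tendsto_const_nhds h4 (fun _ => zero_le)
    fun k => ?_
  refine (eLpNorm_mono_ae_real (h k)).trans ?_
  exact eLpNorm_add_le ((ha k).norm.const_mul B) (hr k) (domh_one hq)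

/-- the test function with its gradient -/
theorem doml_phi (hp : 1 < p) {C : Set (X n)} (hb : Bornology.IsBounded C) {m : X n → ℝ}
    {M : X n → E n} (hm : W0 p C m M) {δ : ℝ} (hδ : 0 < δ) {ψ : X n → ℝ} (hψ : Tst univ ψ) :
    W0 p C (fun y => ψ y * Hd δ (m y))
      (fun y => ψ y • (Hp δ (m y) • M y) + Hd δ (m y) • dx ψ y) := by
  obtain ⟨hH0, hH1, -, hHd, -⟩ := Hd_facts hδ
  have h1 : W0 p C (fun y => Hd δ (m y)) (fun y => Hp δ (m y) • M y) := by
    refine (hm.comp hp hb hH1 hH0).congr (Eventually.of_forall fun z => rfl)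
      (Eventually.of_forall fun z => ?_)
    rw [(hHd _).deriv]
  exact h1.smooth_mul hp hb hψ.smooth

/-- the indicator of `χ < w` -/
theorem doml_ind {w χ : X n → ℝ} (hw : AEStronglyMeasurable w volume)
    (hχ : AEStronglyMeasurable χ volume) :
    AEStronglyMeasurable (fun z => if χ z < w z then (1 : ℝ) else 0) volume := by
  have h := cal2_ind_meas (hw.sub hχ) 0
  refine h.congr (Eventually.of_forall fun z => ?_)
  simp only [Pi.sub_apply, sub_pos]

/-- the entropy inequality for the limit -/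
theorem doml_delta (hp : 1 < p) {Θ : Set (X n)} (hΘ : IsOpen Θ) (hb : Bornology.IsBounded Θ)
    {w s e : X n → ℝ} {W Γ S : X n → E n} (hw : W0 p Θ w W) (hw0 : ∀ᵐ y, 0 ≤ w y)
    (hΓ : MemLp Γ (ENNReal.ofReal (cj p)) volume)
    (heq : ∀ φ, Tst Θ φ → ∫ y, inner ℝ (Γ y) (dx φ y) = ∫ y, w y * dt φ y)
    (hs : W0 p Θ s S) (he : Integrable e volume) (hS : Dom p Θ s S e)
    (hws : ∀ᵐ y, w y ≤ s y) {δ : ℝ} (hδ : 0 < δ) {ψ : X n → ℝ} (hψ : Tst univ ψ)
    (hψ0 : ∀ y, 0 ≤ ψ y) :
    (- ∫ y, dt ψ y * Psi δ (w y) (s y)) +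
      ∫ y, inner ℝ (Γ y) (ψ y • (Hp δ (w y) • W y) + Hd δ (w y) • dx ψ y) ≤ 0 := by
  have := der_haar (n := n)
  obtain ⟨sj, Sj, Γj, ej, C, K, hC, hW, hj0, hΓj, hΓK, hej, hDI, hlim, hSlim, helim⟩ := hS
  obtain ⟨hH0, hH1, hHp1, hHd, hHpd, hH01, hHp0, hHpb, hHppb, -, -⟩ := Hd_facts hδ
  have hHc := hH1.continuous
  have hHpc := hHp1.continuous
  obtain ⟨c1, s1, c2, s2⟩ := der_tst_int hψ
  obtain ⟨Bψ, hBψ⟩ := hψ.smooth.continuous.bounded_above_of_compact_support hψ.cpt
  obtain ⟨Bd, hBd⟩ := c1.bounded_above_of_compact_support s1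
  obtain ⟨Bt, hBt⟩ := c2.bounded_above_of_compact_support s2
  obtain ⟨M, hM⟩ := hw.bdd
  have hBψ0 : 0 ≤ Bψ := (norm_nonneg _).trans (hBψ 0)
  have hBd0 : 0 ≤ Bd := (norm_nonneg _).trans (hBd 0)
  have hδ3 : 0 ≤ 3 / δ := by positivity
  have hδ6 : 0 ≤ 6 / δ ^ 2 := by positivity
  have iw1 : Integrable w volume := memLp_one_iff_integrable.1 (hw.memLp_fn hb 1)
  have iwp : MemLp w (ENNReal.ofReal p) volume := hw.memLp_fn hb _
  -- gradients agree where `w = s`
  have hgz : ∀ᵐ z, w z = s z → W z = S z := by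
    filter_upwards [(hw.lin hp hb hs 1 (-1)).grad_zero hp hb] with z hz h1
    have h2 := hz (by rw [h1]; ring)
    rw [one_smul, neg_one_smul, ← sub_eq_add_neg, sub_eq_zero] at h2
    exact h2
  -- the indicator part tends to zero
  have hind : ∀ᵐ z, Tendsto (fun j => (if sj j z < w z then (1 : ℝ) else 0) * ‖W z - S z‖) atTop
      (𝓝 0) := by
    filter_upwards [hgz, hws, hlim] with z h1 h2 h3
    rcases h2.lt_or_eq with h4 | h4
    · refine tendsto_const_nhds.congr' ?_
      filter_upwards [h3.eventually (lt_mem_nhds h4)] with j hj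
      rw [if_neg (not_lt.2 hj.le), zero_mul]
    · rw [h1 h4, sub_self, norm_zero]
      simp
  have hpos : ∀ᵐ z, Tendsto (fun j => max (w z - sj j z) 0) atTop (𝓝 0) := by
    filter_upwards [hws, hlim] with z h2 h3
    have h4 : Tendsto (fun j => max (w z - sj j z) 0) atTop (𝓝 (max (w z - s z) 0)) :=
      (tendsto_const_nhds.sub h3).max tendsto_const_nhds
    rwa [max_eq_right (by linarith)] at h4
  have hSm : ∀ j, MemLp (fun z => Sj j z - S z) (ENNReal.ofReal p) volume := fun j =>
    (hW j).mem.sub hs.mem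
  have hSn : Tendsto (fun j => eLpNorm (fun z => Sj j z - S z) (ENNReal.ofReal p) volume) atTop
      (𝓝 0) := (domh_iff hp.le hSm).1 hSlim
  have hindm : ∀ j, AEStronglyMeasurable (fun z => if sj j z < w z then (1 : ℝ) else 0) volume :=
    fun j => doml_ind hw.meas (hW j).meas
  have hWSm : AEStronglyMeasurable (fun z => ‖W z - S z‖) volume := (hw.mem.1.sub hs.mem.1).norm
  have hposm : ∀ j, AEStronglyMeasurable (fun z => max (w z - sj j z) 0) volume := fun j =>
    (hw.meas.sub (hW j).meas).sup aestronglyMeasurable_const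
  have hle : ∀ j, ∀ᵐ z, max (w z - sj j z) 0 ≤ w z := fun j => by
    filter_upwards [hw0, hj0 j] with z h1 h2
    exact max_le (by linarith [h2.1]) h1
  -- left hand side, first term
  have L1 : Tendsto (fun j => ∫ y, dt ψ y * Psi δ (w y) (sj j y)) atTop
      (𝓝 (∫ y, dt ψ y * Psi δ (w y) (s y))) := by
    refine tendsto_integral_of_dominated_convergence (fun y => Bt * w y) (fun j => ?_)
      (iw1.const_mul _) (fun j => ?_) ?_
    · have h1 := domj_Pm hδ hw.meas (hW j).meas
      exact c2.aestronglyMeasurable.mul h1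
    · filter_upwards [hw0, hj0 j] with z h1 h2
      obtain ⟨h3, h4⟩ := Psi_bound hδ h1 h2.1
      rw [norm_mul, Real.norm_of_nonneg h3]
      exact mul_le_mul (hBt z) h4 h3 ((norm_nonneg _).trans (hBt z))
    · filter_upwards [hlim] with z hz
      have h1 : Tendsto (fun j => (w z, sj j z)) atTop (𝓝 (w z, s z)) :=
        tendsto_const_nhds.prodMk_nhds hz
      have h2 := ((Psi_cont hδ).tendsto (w z, s z)).comp h1
      exact h2.const_mul _
  -- left hand side, second term
  have hH := doml_phi hp hb hw hδ hψ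
  have hmj : ∀ j, W0 p (C j) (fun z => min (w z) (sj j z))
      (fun z => if w z ≤ sj j z then W z else Sj j z) := fun j =>
    (domj_min hp hb (hC j).2 hw hw0 (hW j)).2
  have hGj : ∀ j, _ := fun j => doml_phi hp (hb.subset (hC j).2) (hmj j) hδ hψ
  have L2 : Tendsto (fun j => ∫ y, inner ℝ (Γ y)
      (ψ y • (Hp δ (min (w y) (sj j y)) • (if w y ≤ sj j y then W y else Sj j y)) +
        Hd δ (min (w y) (sj j y)) • dx ψ y)) atTop
      (𝓝 (∫ y, inner ℝ (Γ y) (ψ y • (Hp δ (w y) • W y) + Hd δ (w y) • dx ψ y))) := by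
    refine domh_dual hp hΓ (fun j => (hGj j).mem) hH.mem ?_
    refine doml_two hp.le (a := fun j z => Sj j z - S z) (B := Bψ * (3 / δ))
      (r := fun j z => Bψ * (3 / δ) * ((if sj j z < w z then (1 : ℝ) else 0) * ‖W z - S z‖) +
        (Bψ * |Hp δ (min (w z) (sj j z)) - Hp δ (w z)| * ‖W z‖ +
          |Hd δ (min (w z) (sj j z)) - Hd δ (w z)| * ‖dx ψ z‖)) (by positivity)
      (fun j => (hSm j).1) (fun j => ?_) (fun j => ?_) hSn ?_
    · have m1 : AEStronglyMeasurable (fun z => Hp δ (min (w z) (sj j z)) - Hp δ (w z)) volume :=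
        (hHpc.comp_aestronglyMeasurable (hmj j).meas).sub (hHpc.comp_aestronglyMeasurable hw.meas)
      have m2 : AEStronglyMeasurable (fun z => Hd δ (min (w z) (sj j z)) - Hd δ (w z)) volume :=
        (hHc.comp_aestronglyMeasurable (hmj j).meas).sub (hHc.comp_aestronglyMeasurable hw.meas)
      exact (((hindm j).mul hWSm).const_mul _).add
        (((m1.norm.const_mul Bψ).mul hw.mem.1.norm).add
          (m2.norm.mul c1.norm.aestronglyMeasurable))
    · filter_upwards [hw0, hj0 j] with z h1 h2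
      have h3 : 0 ≤ min (w z) (sj j z) := le_min h1 h2.1
      have h4 := hHp0 (min (w z) (sj j z))
      have h5 := hHpb _ h3
      have e : (ψ z • (Hp δ (min (w z) (sj j z)) • (if w z ≤ sj j z then W z else Sj j z)) +
          Hd δ (min (w z) (sj j z)) • dx ψ z) -
          (ψ z • (Hp δ (w z) • W z) + Hd δ (w z) • dx ψ z) =
          (ψ z * Hp δ (min (w z) (sj j z))) • ((if w z ≤ sj j z then W z else Sj j z) - W z) +
          ((ψ z * (Hp δ (min (w z) (sj j z)) - Hp δ (w z))) • W z +
            (Hd δ (min (w z) (sj j z)) - Hd δ (w z)) • dx ψ z) := by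
        module
      have e2 : ‖(if w z ≤ sj j z then W z else Sj j z) - W z‖ ≤
          ‖Sj j z - S z‖ + (if sj j z < w z then (1 : ℝ) else 0) * ‖W z - S z‖ := by
        rcases le_or_gt (w z) (sj j z) with h | h
        · rw [if_pos h, if_neg (not_lt.2 h), sub_self, norm_zero]
          positivity
        · rw [if_neg (not_le.2 h), if_pos h, one_mul]
          have : Sj j z - W z = (Sj j z - S z) - (W z - S z) := by abel
          rw [this]
          exact norm_sub_le _ _
      rw [e]
      refine (norm_add_le _ _).trans ?_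
      have h6 : ‖(ψ z * Hp δ (min (w z) (sj j z))) •
          ((if w z ≤ sj j z then W z else Sj j z) - W z)‖ ≤ Bψ * (3 / δ) * ‖Sj j z - S z‖ +
          Bψ * (3 / δ) * ((if sj j z < w z then (1 : ℝ) else 0) * ‖W z - S z‖) := by
        rw [norm_smul, norm_mul, Real.norm_of_nonneg h4, ← mul_add]
        exact mul_le_mul (mul_le_mul (hBψ z) h5 h4 hBψ0) e2 (norm_nonneg _) (by positivity)
      have h7 : ‖(ψ z * (Hp δ (min (w z) (sj j z)) - Hp δ (w z))) • W z +
            (Hd δ (min (w z) (sj j z)) - Hd δ (w z)) • dx ψ z‖ ≤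
          Bψ * |Hp δ (min (w z) (sj j z)) - Hp δ (w z)| * ‖W z‖ +
          |Hd δ (min (w z) (sj j z)) - Hd δ (w z)| * ‖dx ψ z‖ := by
        refine (norm_add_le _ _).trans (add_le_add ?_ ?_)
        · rw [norm_smul, norm_mul]
          exact mul_le_mul_of_nonneg_right (mul_le_mul_of_nonneg_right (hBψ z) (norm_nonneg _))
            (norm_nonneg _)
        · rw [norm_smul]; rfl
      linarith
    · have m1 : ∀ j, AEStronglyMeasurable (fun z => Hp δ (min (w z) (sj j z)) - Hp δ (w z))
          volume := fun j =>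
        (hHpc.comp_aestronglyMeasurable (hmj j).meas).sub (hHpc.comp_aestronglyMeasurable hw.meas)
      have m2 : ∀ j, AEStronglyMeasurable (fun z => Hd δ (min (w z) (sj j z)) - Hd δ (w z))
          volume := fun j =>
        (hHc.comp_aestronglyMeasurable (hmj j).meas).sub (hHc.comp_aestronglyMeasurable hw.meas)
      refine doml_dct hp.le (g := fun z => Bψ * (3 / δ) * ‖W z - S z‖ +
        (Bψ * (3 / δ) * ‖W z‖ + ‖dx ψ z‖)) (fun j => ?_) ?_ (fun j => ?_) ?_
      · exact (((hindm j).mul hWSm).const_mul _).add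
          ((((m1 j).norm.const_mul Bψ).mul hw.mem.1.norm).add
            ((m2 j).norm.mul c1.norm.aestronglyMeasurable))
      · have h1 : MemLp (dx ψ) (ENNReal.ofReal p) volume := c1.memLp_of_hasCompactSupport s1
        exact ((hw.mem.sub hs.mem).norm.const_mul _).add ((hw.mem.norm.const_mul _).add h1.norm)
      · filter_upwards [hw0, hj0 j] with z h1 h2
        have h3 : 0 ≤ min (w z) (sj j z) := le_min h1 h2.1
        have h4 := hHp0 (min (w z) (sj j z))
        have h5 := hHpb _ h3
        have h6 := hHp0 (w z)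
        have h7 := hHpb _ h1
        obtain ⟨h8, h9⟩ := hH01 _ h3
        obtain ⟨h10, h11⟩ := hH01 _ h1
        have a1 : |Hp δ (min (w z) (sj j z)) - Hp δ (w z)| ≤ 3 / δ := by
          rw [abs_le]; constructor <;> linarith
        have a2 : |Hd δ (min (w z) (sj j z)) - Hd δ (w z)| ≤ 1 := by
          rw [abs_le]; constructor <;> linarith
        have a3 : (0 : ℝ) ≤ (if sj j z < w z then (1 : ℝ) else 0) := by split_ifs <;> norm_num
        have a4 : (if sj j z < w z then (1 : ℝ) else 0) ≤ 1 := by split_ifs <;> norm_num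
        rw [Real.norm_of_nonneg (by positivity)]
        refine add_le_add ?_ (add_le_add ?_ ?_)
        · refine mul_le_mul_of_nonneg_left ?_ (by positivity)
          exact mul_le_of_le_one_left (norm_nonneg _) a4
        · exact mul_le_mul_of_nonneg_right (mul_le_mul_of_nonneg_left a1 hBψ0) (norm_nonneg _)
        · exact mul_le_of_le_one_left (norm_nonneg _) a2
      · filter_upwards [hind, hlim, hws] with z h1 h2 h3
        have h4 : Tendsto (fun j => min (w z) (sj j z)) atTop (𝓝 (w z)) := by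
          have := (tendsto_const_nhds (x := w z)).min h2
          rwa [min_eq_left h3] at this
        have h5 := (((hHpc.tendsto _).comp h4).sub_const (Hp δ (w z))).norm
        have h6 := (((hHc.tendsto _).comp h4).sub_const (Hd δ (w z))).norm
        rw [sub_self, norm_zero] at h5 h6
        have h7 := (h1.const_mul (Bψ * (3 / δ))).add
          (((h5.const_mul Bψ).mul_const ‖W z‖).add (h6.mul_const ‖dx ψ z‖))
        simp only [mul_zero, zero_mul, add_zero] at h7
        exact h7
  -- right hand side, first term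
  have hZj : ∀ j, _ := fun j =>
    (domj_Z hp hb (hC j).2 hw hw0 (hW j) hδ).smooth_mul hp hb hψ.smooth
  have R1 : Tendsto (fun j => ∫ y, inner ℝ (Γj j y)
        (ψ y • ((Hpp δ (sj j y) * max (w y - sj j y) 0) • Sj j y +
          Hp δ (sj j y) • (if sj j y < w y then W y - Sj j y else 0)) +
        (Hp δ (sj j y) * max (w y - sj j y) 0) • dx ψ y)) atTop (𝓝 0) := by
    have key : Tendsto (fun j => eLpNorm (fun y =>
        ψ y • ((Hpp δ (sj j y) * max (w y - sj j y) 0) • Sj j y +
          Hp δ (sj j y) • (if sj j y < w y then W y - Sj j y else 0)) +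
        (Hp δ (sj j y) * max (w y - sj j y) 0) • dx ψ y) (ENNReal.ofReal p) volume) atTop
        (𝓝 0) := by
      refine doml_two hp.le (a := fun j z => Sj j z - S z)
        (B := Bψ * (6 / δ ^ 2) * |M| + Bψ * (3 / δ))
        (r := fun j z => Bψ * (6 / δ ^ 2) * (max (w z - sj j z) 0 * ‖S z‖) +
          (Bψ * (3 / δ) * ((if sj j z < w z then (1 : ℝ) else 0) * ‖W z - S z‖) +
          (3 / δ) * Bd * max (w z - sj j z) 0)) (by positivity)
        (fun j => (hSm j).1) (fun j => ?_) (fun j => ?_) hSn ?_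
      · exact (((hposm j).mul hs.mem.1.norm).const_mul _).add
          ((((hindm j).mul hWSm).const_mul _).add ((hposm j).const_mul _))
      · filter_upwards [hw0, hj0 j, hM, hle j] with z h1 h2 h3 h4
        have b1 := hHppb _ h2.1
        have b2 := hHp0 (sj j z)
        have b3 := hHpb _ h2.1
        have b4 : (0 : ℝ) ≤ max (w z - sj j z) 0 := le_max_right _ _
        have b5 : max (w z - sj j z) 0 ≤ |M| :=
          h4.trans ((le_abs_self _).trans (h3.trans (le_abs_self _)))
        have e2 : ‖(if sj j z < w z then W z - Sj j z else 0 : E n)‖ ≤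
            ‖Sj j z - S z‖ + (if sj j z < w z then (1 : ℝ) else 0) * ‖W z - S z‖ := by
          split_ifs
          · rw [one_mul]
            have : W z - Sj j z = -(Sj j z - S z) + (W z - S z) := by abel
            rw [this]
            refine (norm_add_le _ _).trans ?_
            rw [norm_neg]
          · rw [norm_zero]; positivity
        have e3 : ‖Sj j z‖ ≤ ‖Sj j z - S z‖ + ‖S z‖ := by
          have : Sj j z = (Sj j z - S z) + S z := by abel
          calc ‖Sj j z‖ = ‖(Sj j z - S z) + S z‖ := by rw [← this]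
            _ ≤ _ := norm_add_le _ _
        have t1 : ‖(Hpp δ (sj j z) * max (w z - sj j z) 0) • Sj j z‖ ≤
            (6 / δ ^ 2) * |M| * ‖Sj j z - S z‖ +
            (6 / δ ^ 2) * (max (w z - sj j z) 0 * ‖S z‖) := by
          rw [norm_smul, norm_mul, Real.norm_of_nonneg b4]
          calc ‖Hpp δ (sj j z)‖ * max (w z - sj j z) 0 * ‖Sj j z‖
              ≤ (6 / δ ^ 2) * max (w z - sj j z) 0 * (‖Sj j z - S z‖ + ‖S z‖) :=
                mul_le_mul (mul_le_mul_of_nonneg_right b1 b4) e3 (norm_nonneg _) (by positivity)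
            _ = (6 / δ ^ 2) * (max (w z - sj j z) 0) * ‖Sj j z - S z‖ +
                (6 / δ ^ 2) * (max (w z - sj j z) 0 * ‖S z‖) := by ring
            _ ≤ _ := by
                refine add_le_add (mul_le_mul_of_nonneg_right
                  (mul_le_mul_of_nonneg_left b5 hδ6) (norm_nonneg _)) le_rfl
        have t2 : ‖Hp δ (sj j z) • (if sj j z < w z then W z - Sj j z else 0 : E n)‖ ≤
            (3 / δ) * ‖Sj j z - S z‖ +
            (3 / δ) * ((if sj j z < w z then (1 : ℝ) else 0) * ‖W z - S z‖) := by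
          rw [norm_smul, Real.norm_of_nonneg b2, ← mul_add]
          exact mul_le_mul b3 e2 (norm_nonneg _) hδ3
        have t3 : ‖(Hp δ (sj j z) * max (w z - sj j z) 0) • dx ψ z‖ ≤
            (3 / δ) * Bd * max (w z - sj j z) 0 := by
          rw [norm_smul, norm_mul, Real.norm_of_nonneg b2, Real.norm_of_nonneg b4]
          calc Hp δ (sj j z) * max (w z - sj j z) 0 * ‖dx ψ z‖
              ≤ (3 / δ) * max (w z - sj j z) 0 * Bd :=
                mul_le_mul (mul_le_mul_of_nonneg_right b3 b4) (hBd z) (norm_nonneg _)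
                  (by positivity)
            _ = _ := by ring
        have t4 : ‖ψ z • ((Hpp δ (sj j z) * max (w z - sj j z) 0) • Sj j z +
            Hp δ (sj j z) • (if sj j z < w z then W z - Sj j z else 0))‖ ≤
            Bψ * (((6 / δ ^ 2) * |M| * ‖Sj j z - S z‖ +
            (6 / δ ^ 2) * (max (w z - sj j z) 0 * ‖S z‖)) + ((3 / δ) * ‖Sj j z - S z‖ +
            (3 / δ) * ((if sj j z < w z then (1 : ℝ) else 0) * ‖W z - S z‖))) := by
          rw [norm_smul]
          exact mul_le_mul (hBψ z) ((norm_add_le _ _).trans (add_le_add t1 t2)) (norm_nonneg _)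
            hBψ0
        refine (norm_add_le _ _).trans ((add_le_add t4 t3).trans (le_of_eq ?_))
        ring
      · refine doml_dct hp.le (g := fun z => Bψ * (6 / δ ^ 2) * (|M| * ‖S z‖) +
          (Bψ * (3 / δ) * ‖W z - S z‖ + (3 / δ) * Bd * w z)) (fun j => ?_) ?_ (fun j => ?_) ?_
        · exact (((hposm j).mul hs.mem.1.norm).const_mul _).add
            ((((hindm j).mul hWSm).const_mul _).add ((hposm j).const_mul _))
        · exact ((hs.mem.norm.const_mul _).const_mul _).add
            (((hw.mem.sub hs.mem).norm.const_mul _).add (iwp.const_mul _))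
        · filter_upwards [hw0, hj0 j, hM, hle j] with z h1 h2 h3 h4
          have b4 : (0 : ℝ) ≤ max (w z - sj j z) 0 := le_max_right _ _
          have b5 : max (w z - sj j z) 0 ≤ |M| :=
            h4.trans ((le_abs_self _).trans (h3.trans (le_abs_self _)))
          have a3 : (0 : ℝ) ≤ (if sj j z < w z then (1 : ℝ) else 0) := by split_ifs <;> norm_num
          have a4 : (if sj j z < w z then (1 : ℝ) else 0) ≤ 1 := by split_ifs <;> norm_num
          rw [Real.norm_of_nonneg (by positivity)]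
          refine add_le_add ?_ (add_le_add ?_ ?_)
          · exact mul_le_mul_of_nonneg_left (mul_le_mul_of_nonneg_right b5 (norm_nonneg _))
              (by positivity)
          · refine mul_le_mul_of_nonneg_left ?_ (by positivity)
            exact mul_le_of_le_one_left (norm_nonneg _) a4
          · exact mul_le_mul_of_nonneg_left h4 (by positivity)
        · filter_upwards [hind, hpos] with z h1 h2
          have h7 := ((h2.mul_const ‖S z‖).const_mul (Bψ * (6 / δ ^ 2))).add
            ((h1.const_mul (Bψ * (3 / δ))).add (h2.const_mul ((3 / δ) * Bd)))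
          simp only [mul_zero, zero_mul, add_zero] at h7
          exact h7
    have key2 := (domh_iff hp.le (fun j => (hZj j).mem)).2 key
    have h2 : Tendsto (fun j => |K| ^ (1 / cj p) * (∫ y, ‖
        ψ y • ((Hpp δ (sj j y) * max (w y - sj j y) 0) • Sj j y +
          Hp δ (sj j y) • (if sj j y < w y then W y - Sj j y else 0)) +
        (Hp δ (sj j y) * max (w y - sj j y) 0) • dx ψ y‖ ^ p) ^ (1 / p)) atTop (𝓝 0) := by
      have h3 := (key2.rpow_const (p := 1 / p) (Or.inr (by positivity))).const_mul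
        (|K| ^ (1 / cj p))
      rwa [Real.zero_rpow (by positivity), mul_zero] at h3
    refine squeeze_zero_norm (fun j => ?_) h2
    have h4 := (holder_inner hp (hΓj j) (hZj j).mem).2
    rw [Real.norm_eq_abs]
    refine h4.trans (mul_le_mul_of_nonneg_right ?_ (Real.rpow_nonneg
      (integral_nonneg fun z => Real.rpow_nonneg (norm_nonneg _) _) _))
    have hcj : 0 < cj p := lps_cj_pos hp
    exact Real.rpow_le_rpow (integral_nonneg fun z => Real.rpow_nonneg (norm_nonneg _) _)
      ((hΓK j).trans (le_abs_self _)) (by positivity)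
  -- right hand side, second term
  have hZb : ∀ j, ∀ᵐ z, ‖ψ z * (Hp δ (sj j z) * max (w z - sj j z) 0)‖ ≤
      Bψ * ((3 / δ) * |M|) := fun j => by
    filter_upwards [hj0 j, hM, hle j] with z h2 h3 h4
    have b4 : (0 : ℝ) ≤ max (w z - sj j z) 0 := le_max_right _ _
    have b5 : max (w z - sj j z) 0 ≤ |M| :=
      h4.trans ((le_abs_self _).trans (h3.trans (le_abs_self _)))
    rw [norm_mul, norm_mul, Real.norm_of_nonneg (hHp0 _), Real.norm_of_nonneg b4]
    exact mul_le_mul (hBψ z) (mul_le_mul (hHpb _ h2.1) b5 b4 hδ3)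
      (mul_nonneg (hHp0 _) b4) hBψ0
  have R2 : Tendsto (fun j => ∫ y, ej j y * (ψ y * (Hp δ (sj j y) * max (w y - sj j y) 0)))
      atTop (𝓝 0) := by
    have q1 : Tendsto (fun j => ∫ y, e y * (ψ y * (Hp δ (sj j y) * max (w y - sj j y) 0)))
        atTop (𝓝 0) := by
      have q2 : Tendsto (fun j => ∫ y, e y * (ψ y * (Hp δ (sj j y) * max (w y - sj j y) 0)))
          atTop (𝓝 (∫ _y : X n, (0 : ℝ))) := by
        refine tendsto_integral_of_dominated_convergence
          (fun y => ‖e y‖ * (Bψ * ((3 / δ) * |M|))) (fun j => he.1.mul (hZj j).meas)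
          (he.norm.mul_const _) (fun j => ?_) ?_
        · filter_upwards [hZb j] with z hz
          rw [norm_mul]
          exact mul_le_mul_of_nonneg_left hz (norm_nonneg _)
        · filter_upwards [hpos, hlim] with z h1 h2
          have h3 := ((((hHpc.tendsto _).comp h2).mul h1).const_mul (ψ z)).const_mul (e z)
          simp only [mul_zero] at h3
          exact h3
      rwa [integral_zero] at q2
    have q3 : Tendsto (fun j => ∫ y, (ej j y - e y) *
        (ψ y * (Hp δ (sj j y) * max (w y - sj j y) 0))) atTop (𝓝 0) := by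
      have q4 := helim.mul_const (Bψ * ((3 / δ) * |M|))
      rw [zero_mul] at q4
      refine squeeze_zero_norm (fun j => ?_) q4
      rw [← integral_mul_const]
      refine norm_integral_le_of_norm_le (((hej j).sub he).norm.mul_const _) ?_
      filter_upwards [hZb j] with z hz
      rw [norm_mul]
      exact mul_le_mul_of_nonneg_left hz (norm_nonneg _)
    have q5 := q3.add q1
    rw [add_zero] at q5
    refine q5.congr fun j => ?_
    have i1 : Integrable (fun y => (ej j y - e y) *
        (ψ y * (Hp δ (sj j y) * max (w y - sj j y) 0))) volume :=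
      ((hej j).sub he).mul_bdd (hZj j).meas (hZb j)
    have i2 : Integrable (fun y => e y *
        (ψ y * (Hp δ (sj j y) * max (w y - sj j y) 0))) volume :=
      he.mul_bdd (hZj j).meas (hZb j)
    rw [← integral_add i1 i2]
    refine integral_congr_ae (Eventually.of_forall fun z => ?_)
    show (ej j z - e z) * _ + e z * _ = _
    ring
  have fin := le_of_tendsto_of_tendsto' (L1.neg.add L2) (R1.neg.add R2) (fun j =>
    dom_j hp hΘ hb hw hw0 hΓ heq (hC j).1 (hC j).2 (hW j) ((hj0 j).mono fun _ h => h.1)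
      (hΓj j) (hej j) (hDI j) hδ hψ hψ0)
  rwa [neg_zero, add_zero] at fin

theorem dom (hp : 1 < p) {Θ : Set (X n)} (hΘ : IsOpen Θ) (hb : Bornology.IsBounded Θ)
    {w s e : X n → ℝ} {W Γ S : X n → E n} (hw : W0 p Θ w W) (hw0 : ∀ᵐ y, 0 ≤ w y)
    (hΓ : MemLp Γ (ENNReal.ofReal (cj p)) volume) (hΓ0 : ∀ᵐ y, w y = 0 → Γ y = 0)
    (hpos : ∀ᵐ y, 0 ≤ inner ℝ (Γ y) (W y))
    (heq : ∀ φ, Tst Θ φ → ∫ y, inner ℝ (Γ y) (dx φ y) = ∫ y, w y * dt φ y)
    (hs : W0 p Θ s S) (he : Integrable e volume) (hS : Dom p Θ s S e)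
    (hws : ∀ᵐ y, w y ≤ s y) :
    DI univ w Γ (fun _ => 0) := by
  have := der_haar (n := n)
  intro ψ hψ hψ0
  obtain ⟨c1, s1, c2, s2⟩ := der_tst_int hψ
  obtain ⟨Bt, hBt⟩ := c2.bounded_above_of_compact_support s2
  have iw1 : Integrable w volume := memLp_one_iff_integrable.1 (hw.memLp_fn hb 1)
  have id1 : MemLp (dx ψ) (ENNReal.ofReal p) volume := c1.memLp_of_hasCompactSupport s1
  have iΓ := (holder_inner hp hΓ id1).1
  have step : ∀ δ : ℝ, 0 < δ → (- ∫ y, dt ψ y * Psi δ (w y) (s y)) +
      ∫ y, Hd δ (w y) * inner ℝ (Γ y) (dx ψ y) ≤ 0 := by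
    intro δ hδ
    obtain ⟨-, hH1, hHp1, -, -, hH01, hHp0, hHpb, -, -, -⟩ := Hd_facts hδ
    have h1 := doml_delta hp hΘ hb hw hw0 hΓ heq hs he hS hws hδ hψ hψ0
    have h2 := doml_phi hp hb hw hδ hψ
    have i1 := (holder_inner hp hΓ h2.mem).1
    have i2 : Integrable (fun y => Hd δ (w y) * inner ℝ (Γ y) (dx ψ y)) volume := by
      refine iΓ.mono ((hH1.continuous.comp_aestronglyMeasurable hw.meas).mul iΓ.1) ?_
      filter_upwards [hw0] with z hz
      obtain ⟨h3, h4⟩ := hH01 _ hz
      rw [norm_mul, Real.norm_of_nonneg h3]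
      exact mul_le_of_le_one_left (norm_nonneg _) h4
    have h5 : ∫ y, Hd δ (w y) * inner ℝ (Γ y) (dx ψ y) ≤
        ∫ y, inner ℝ (Γ y) (ψ y • (Hp δ (w y) • W y) + Hd δ (w y) • dx ψ y) := by
      refine integral_mono_ae i2 i1 ?_
      filter_upwards [hpos] with z hz
      show Hd δ (w z) * inner ℝ (Γ z) (dx ψ z) ≤
        inner ℝ (Γ z) (ψ z • (Hp δ (w z) • W z) + Hd δ (w z) • dx ψ z)
      rw [inner_add_right, inner_smul_right, inner_smul_right, inner_smul_right]
      have := mul_nonneg (hψ0 z) (mul_nonneg (hHp0 (w z)) hz)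
      linarith
    linarith
  have hd : ∀ k : ℕ, (0 : ℝ) < 1 / ((k : ℝ) + 1) := fun k => by positivity
  have hd' : Tendsto (fun k : ℕ => 1 / ((k : ℝ) + 1)) atTop (𝓝[>] (0 : ℝ)) :=
    tendsto_nhdsWithin_iff.2 ⟨tendsto_one_div_add_atTop_nhds_zero_nat,
      Eventually.of_forall hd⟩
  have L1 : Tendsto (fun k : ℕ => ∫ y, dt ψ y * Psi (1 / ((k : ℝ) + 1)) (w y) (s y)) atTop
      (𝓝 (∫ y, dt ψ y * w y)) := by
    refine tendsto_integral_of_dominated_convergence (fun y => Bt * w y) (fun k => ?_)
      (iw1.const_mul _) (fun k => ?_) ?_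
    · have h1 := domj_Pm (hd k) hw.meas hs.meas
      exact c2.aestronglyMeasurable.mul h1
    · filter_upwards [hw0, hws] with z h1 h2
      obtain ⟨h3, h4⟩ := Psi_bound (hd k) h1 (h1.trans h2)
      rw [norm_mul, Real.norm_of_nonneg h3]
      exact mul_le_mul (hBt z) h4 h3 ((norm_nonneg _).trans (hBt z))
    · filter_upwards [hw0, hws] with z h1 h2
      exact ((Psi_lim h1 h2).comp hd').const_mul _
  have L2 : Tendsto (fun k : ℕ => ∫ y, Hd (1 / ((k : ℝ) + 1)) (w y) *
      inner ℝ (Γ y) (dx ψ y)) atTop (𝓝 (∫ y, inner ℝ (Γ y) (dx ψ y))) := by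
    refine tendsto_integral_of_dominated_convergence (fun y => ‖inner ℝ (Γ y) (dx ψ y)‖)
      (fun k => ?_) iΓ.norm (fun k => ?_) ?_
    · exact ((Hd_facts (hd k)).2.1.continuous.comp_aestronglyMeasurable hw.meas).mul iΓ.1
    · filter_upwards [hw0] with z hz
      obtain ⟨h3, h4⟩ := (Hd_facts (hd k)).2.2.2.2.2.1 _ hz
      rw [norm_mul, Real.norm_of_nonneg h3]
      exact mul_le_of_le_one_left (norm_nonneg _) h4
    · filter_upwards [hw0, hΓ0] with z h1 h2
      have h3 := ((Hd_lim h1).comp hd').mul_const (inner ℝ (Γ z) (dx ψ z))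
      rcases h1.lt_or_eq with h4 | h4
      · rw [if_pos h4, one_mul] at h3
        exact h3
      · rw [h2 h4.symm, inner_zero_left] at h3 ⊢
        rw [mul_zero] at h3
        exact h3
  have fin := le_of_tendsto' (L1.neg.add L2) (fun k => step _ (hd k))
  have e1 : ∫ z, w z * dt ψ z = ∫ y, dt ψ y * w y :=
    integral_congr_ae (Eventually.of_forall fun z => mul_comm _ _)
  rw [e1]
  simpa using fin

end PP
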