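import Pool.Agent.PP.GSA
import Pool.Agent.PP.AVG2
import Pool.Agent.PP.POI

open Set Metric Filter Topology MeasureTheory
open scoped ContDiff

noncomputable section

namespace PP

variable {n : ℕ}
variable {p : ℝ}

theorem gsb_one_le_cj (hp : 1 < p) : 1 ≤ cj p := by
  unfold cj
  rw [le_div_iff₀ (by linarith)]
  linarith

theorem gsb (hp : 1 < p) {Θ C : Set (X n)} (hC : IsCompact C) (hCΘ : C ⊆ Θ) {F e : X n → ℝ}
    (hF : Nice p Θ F e) {ε : ℝ} (hε : 0 < ε) (hε1 : ε ≤ 1) {obs : X n → ℝ}
    (hobs : ∀ y, 0 ≤ obs y) {z zt : X n → ℝ} {G : X n → E n} (h : RegSol p ε C obs F z zt G) :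
    DI univ (fun y => max (z y) 0) (ex ε (flx p F z G)) (ex ε e) := by
  intro η hη hη0
  obtain ⟨ηs, hs, hs0, ⟨B, hB⟩, hode, hdual, hdualv⟩ := ex_adjoint hε hη hη0
  have hgsa := gsa hp hC hCΘ hF hε hε1 hobs h hs hs0 ⟨B, fun y => (hB y).1⟩
  obtain ⟨K', hK'⟩ := flx_bound hp hF.tst (∫ y, ‖G y‖ ^ p)
  have hflx := (hK' z G h.w.meas h.w.mem le_rfl).1
  have hpos := h.w.pos hp hC.isBounded
  set ut : X n → ℝ := fun y => if 0 < z y then zt y else 0 with hut
  have hoff : ∀ᵐ y, y ∉ C → ut y = 0 := hpos.time_off hp hC.isBounded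
  have hint : Integrable ut volume := by
    have hfin : IsFiniteMeasure (volume.restrict C) := ⟨by
      rw [Measure.restrict_apply_univ]
      exact hC.measure_lt_top⟩
    have h1 : IntegrableOn ut C volume :=
      (hpos.memt.restrict C).integrable (by norm_num)
    have h2 : Integrable (C.indicator ut) volume :=
      (integrable_indicator_iff hC.isClosed.measurableSet).2 h1
    apply h2.congr
    filter_upwards [hoff] with y hy
    by_cases hyC : y ∈ C
    · rw [Set.indicator_of_mem hyC]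
    · rw [Set.indicator_of_notMem hyC, hy hyC]
  have hB0 : 0 ≤ B := le_trans (hs0 0) (hB 0).1
  have hi1 : Integrable (fun y => ut y * dt ηs y) volume := by
    apply hint.mul_bdd (c := B) (contDiff_dt hs).continuous.aestronglyMeasurable
    filter_upwards with y
    rw [Real.norm_eq_abs]
    exact (hB y).2.1
  have hi2 : Integrable (fun y => ut y * ηs y) volume := by
    apply hint.mul_bdd (c := B) hs.continuous.aestronglyMeasurable
    filter_upwards with y
    rw [Real.norm_eq_abs, abs_of_nonneg (hs0 y)]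
    exact (hB y).1
  have e1 : ε * (∫ y, ut y * dt ηs y) + (∫ y, ut y * ηs y) = ∫ y, η y * ut y := by
    rw [← integral_const_mul, ← integral_add (hi1.const_mul ε) hi2]
    apply integral_congr_ae
    filter_upwards with y
    rw [← hode y]
    ring
  have e2 : ∫ y, max (z y) 0 * dt η y = - ∫ y, η y * ut y := hpos.wt η hη
  have e3 := hdualv (cj p) (gsb_one_le_cj hp) (flx p F z G) hflx
  have e4 := hdual e hF.int
  have hfin : ε * (∫ y, ut y * dt ηs y) + (∫ y, ut y * ηs y) +
      ∫ y, inner ℝ (flx p F z G y) (dx ηs y) ≤ ∫ y, e y * ηs y := hgsa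
  rw [e1, e3, e4] at hfin
  show - (∫ y, max (z y) 0 * dt η y) + ∫ y, inner ℝ (ex ε (flx p F z G) y) (dx η y) ≤
    ∫ y, ex ε e y * η y
  rw [e2, neg_neg]
  exact hfin

end PP
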