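import Pool.Agent.PP.EXT2
import Pool.Agent.PP.AVG1
import Pool.Agent.PP.LPS

open Set Metric Filter Topology MeasureTheory
open scoped ContDiff

noncomputable section

namespace PP

variable {n : ℕ}
variable {p : ℝ}

private theorem UNQ_shift_eq (s : ℝ) (f : X n → ℝ) (z : X n) :
    sh s f z = f (z + ((0 : E n), s)) := by
  obtain ⟨x, t⟩ := z
  simp only [sh, Prod.mk_add_mk, add_zero]

private theorem UNQ_integral_shift (s : ℝ) (f : X n → ℝ) :
    ∫ z, sh s f z = ∫ z, f z := by
  haveI : (volume : Measure (X n)).IsAddHaarMeasure := AVG1_haar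
  simp only [UNQ_shift_eq]
  exact integral_add_right_eq_self f _

private theorem UNQ_compact {C : Set (X n)} (hC : IsCompact C) (s : ℝ) :
    ∃ D : Set (X n), IsCompact D ∧ ∀ z : X n, ∀ r ∈ Icc 0 s, (z.1, z.2 + r) ∈ C → z ∈ D := by
  refine ⟨(fun q : X n × ℝ => ((q.1.1, q.1.2 - q.2) : X n)) '' (C ×ˢ Icc 0 s),
    (hC.prod isCompact_Icc).image (by fun_prop), ?_⟩
  rintro ⟨x, t⟩ r hr h
  refine ⟨((x, t + r), r), ⟨h, hr⟩, ?_⟩
  simp

theorem unq (hp : 1 < p) {Θ : Set (X n)} (hb : Bornology.IsBounded Θ) {w : X n → ℝ}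
    {W Γ : X n → E n} (hw : W0 p Θ w W) (hw0 : ∀ᵐ y, 0 ≤ w y)
    (hΓ : MemLp Γ (ENNReal.ofReal (cj p)) volume) (h : DI univ w Γ (fun _ => 0)) :
    ∫ y, inner ℝ (Γ y) (W y) ≤ 0 := by
  haveI : (volume : Measure (X n)).IsAddHaarMeasure := AVG1_haar
  have hC : IsCompact (closure Θ) := hb.isCompact_closure
  have hwC : W0 p (closure Θ) w W := hw.mono subset_closure
  obtain ⟨M, hM⟩ := hw.bdd
  have hw2 : Integrable (fun z => w z ^ 2) volume := (hw.memLp_fn hb 2).integrable_sq
  -- the difference quotient inequality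
  have key : ∀ s : ℝ, 0 < s → ∫ z, inner ℝ (Γ z) (av s W z) ≤ 0 := by
    intro s hs
    obtain ⟨D, hD, hDC⟩ := UNQ_compact hC s
    have h1 := shf_ineq (p := p) hp isOpen_univ hC hD (subset_univ _) hs hDC
      (u := w) (e := fun _ => 0) (Γ := Γ)
      (by rw [Measure.restrict_univ]; exact hw.meas)
      ⟨M, by rw [Measure.restrict_univ]; exact hM⟩
      (fun K _ _ => hΓ.restrict K) (fun K _ _ => integrableOn_zero) h hwC hw0
    have h2 : ∫ z, (fun _ : X n => (0 : ℝ)) z * av s w z = 0 := by simp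
    rw [h2, add_zero] at h1
    have h3 : 0 ≤ ∫ z, w z * (w z - sh (-s) w z) := by
      have hsh : Integrable (fun z => (sh (-s) w z) ^ 2) volume := by
        have : (fun z => (sh (-s) w z) ^ 2) = fun z => (fun y => w y ^ 2) (z + ((0 : E n), -s)) := by
          ext z; simp only [UNQ_shift_eq]
        rw [this]
        exact hw2.comp_add_right _
      have hshW : W0 p {z | (z.1, z.2 + (-s)) ∈ Θ} (sh (-s) w) (sh (-s) W) := hw.shift (-s)
      have hshi : Integrable (fun z => w z * sh (-s) w z) volume := by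
        refine Integrable.mono' (hw2.add hsh) (hw.meas.mul hshW.meas)
          (Eventually.of_forall fun z => ?_)
        simp only [Pi.add_apply, Real.norm_eq_abs]
        rw [abs_le]; constructor <;> nlinarith [sq_nonneg (w z - sh (-s) w z),
          sq_nonneg (w z + sh (-s) w z), sq_nonneg (w z), sq_nonneg (sh (-s) w z)]
      have e1 : ∫ z, (sh (-s) w z) ^ 2 = ∫ z, w z ^ 2 := by
        have := UNQ_integral_shift (-s) (fun y : X n => w y ^ 2)
        rw [← this]; rfl
      have e2 : ∫ z, ((w z ^ 2 - (sh (-s) w z) ^ 2) / 2) = 0 := by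
        rw [integral_div, integral_sub hw2 hsh, e1, sub_self, zero_div]
      rw [← e2]
      refine integral_mono ((hw2.sub hsh).div_const 2) ?_ fun z => ?_
      · have : (fun z => w z * (w z - sh (-s) w z)) = fun z => w z ^ 2 - w z * sh (-s) w z := by
          ext z; ring
        rw [this]; exact hw2.sub hshi
      · simp only
        nlinarith [sq_nonneg (w z - sh (-s) w z)]
    have h4 : 0 ≤ s⁻¹ * ∫ z, w z * (w z - sh (-s) w z) := mul_nonneg (inv_nonneg.2 hs.le) h3
    linarith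
  -- passage to the limit
  have hcj : 1 < cj p := by
    unfold cj; rw [lt_div_iff₀ (by linarith)]; linarith
  have hlim : Tendsto (fun s => ∫ z, inner ℝ (Γ z) (av s W z)) (𝓝[>] (0 : ℝ))
      (𝓝 (∫ z, inner ℝ (Γ z) (W z))) := by
    have h1 : Tendsto (fun s => ∫ z, ‖av s W z - W z‖ ^ p) (𝓝[>] (0 : ℝ)) (𝓝 0) :=
      (av_tendsto hp.le hw.mem).mono_left (nhdsWithin_mono _ fun x hx => ne_of_gt hx)
    have h2 : Tendsto (fun s => (∫ z, ‖Γ z‖ ^ cj p) ^ (1 / cj p) *
        (∫ z, ‖av s W z - W z‖ ^ p) ^ (1 / p)) (𝓝[>] (0 : ℝ)) (𝓝 0) := by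
      have h3 := h1.rpow_const (p := 1 / p) (Or.inr (by positivity))
      rw [Real.zero_rpow (by positivity)] at h3
      simpa using h3.const_mul ((∫ z, ‖Γ z‖ ^ cj p) ^ (1 / cj p))
    rw [tendsto_iff_norm_sub_tendsto_zero]
    refine squeeze_zero_norm' ?_ h2
    filter_upwards [self_mem_nhdsWithin] with s hs
    have hs' : s ≠ 0 := ne_of_gt hs
    have hav := (av_memLp hp.le hw.mem hs').1
    have i1 := (holder_inner hp hΓ hav).1
    have i2 := (holder_inner hp hΓ hw.mem).1
    have i3 := holder_inner hp hΓ (hav.sub hw.mem)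
    rw [norm_norm, Real.norm_eq_abs, ← integral_sub i1 i2]
    have e1 : ∫ z, (inner ℝ (Γ z) (av s W z) - inner ℝ (Γ z) (W z)) =
        ∫ z, inner ℝ (Γ z) ((av s W - W) z) := by
      congr 1; ext z; rw [Pi.sub_apply, inner_sub_right]
    rw [e1]
    exact i3.2
  refine le_of_tendsto hlim ?_
  filter_upwards [self_mem_nhdsWithin] with s hs
  exact key s hs

end PP
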