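import Pool.Agent.PP.CORA
import Pool.Agent.PP.GSB
import Pool.Agent.PP.DOML
import Pool.Agent.PP.UNQ
import Pool.Agent.PP.CAL1
import Pool.Agent.PP.CAL2
import Pool.Agent.PP.PW1

open Set Metric Filter Topology MeasureTheory
open scoped ContDiff

noncomputable section

namespace PP

variable {n : ℕ}
variable {p : ℝ}

theorem Tst.hcs_dt {Ω : Set (X n)} {φ : X n → ℝ} (h : Tst Ω φ) : HasCompactSupport (dt φ) :=
  HasCompactSupport.intro h.cpt (fun z hz => dt_zero_of_notMem z hz)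

theorem Tst.hcs_dx {Ω : Set (X n)} {φ : X n → ℝ} (h : Tst Ω φ) : HasCompactSupport (dx φ) :=
  HasCompactSupport.intro h.cpt (fun z hz => dx_zero_of_notMem z hz)

theorem Tst.bound {Ω : Set (X n)} {φ : X n → ℝ} (h : Tst Ω φ) : ∃ M : ℝ, ∀ z, |φ z| ≤ M := by
  obtain ⟨M, hM⟩ := h.cpt.exists_bound_of_continuous h.smooth.continuous
  exact ⟨M, hM⟩

theorem Tst.memLp_dx {Ω : Set (X n)} {φ : X n → ℝ} (h : Tst Ω φ) (q : ENNReal) :
    MemLp (dx φ) q volume :=
  (contDiff_dx h.smooth).continuous.memLp_of_hasCompactSupport h.hcs_dx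

theorem W0.integrable_mul {C : Set (X n)} (hC : Bornology.IsBounded C) {u : X n → ℝ}
    {U : X n → E n} (h : W0 p C u U) {g : X n → ℝ} (hg : Continuous g)
    (hgc : HasCompactSupport g) : Integrable (fun z => u z * g z) volume := by
  obtain ⟨M, hM⟩ := h.bdd
  exact (hg.integrable_of_hasCompactSupport hgc).bdd_mul h.meas hM

theorem one_lt_cj (hp : 1 < p) : 1 < cj p := by
  unfold cj
  rw [lt_div_iff₀ (by linarith)]; linarith

theorem inner_integrable (hp : 1 < p) {Γ : X n → E n}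
    (hΓ : MemLp Γ (ENNReal.ofReal (cj p)) volume) {Ω : Set (X n)} {φ : X n → ℝ}
    (h : Tst Ω φ) : Integrable (fun z => inner ℝ (Γ z) (dx φ z)) volume :=
  (holder_inner hp hΓ (h.memLp_dx _)).1

theorem DI.add (hp : 1 < p) {C D : Set (X n)} (hC : Bornology.IsBounded C)
    (hD : Bornology.IsBounded D) {u v e e' : X n → ℝ} {U V Γ Γ' : X n → E n}
    (hu : W0 p C u U) (hv : W0 p D v V) (hΓ : MemLp Γ (ENNReal.ofReal (cj p)) volume)
    (hΓ' : MemLp Γ' (ENNReal.ofReal (cj p)) volume) (he : Integrable e volume)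
    (he' : Integrable e' volume) (h : DI univ u Γ e) (h' : DI univ v Γ' e') :
    DI univ (fun z => u z + v z) (fun z => Γ z + Γ' z) (fun z => e z + e' z) := by
  intro φ hφ h0
  have h1 := h φ hφ h0
  have h2 := h' φ hφ h0
  have c1 := (contDiff_dt hφ.smooth).continuous
  have i1 := hu.integrable_mul hC c1 hφ.hcs_dt
  have i2 := hv.integrable_mul hD c1 hφ.hcs_dt
  have i3 := inner_integrable hp hΓ hφ
  have i4 := inner_integrable hp hΓ' hφ
  obtain ⟨B, hB⟩ := hφ.bound
  have i5 : Integrable (fun z => e z * φ z) volume := by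
    have := he.bdd_mul (f := φ) hφ.smooth.continuous.aestronglyMeasurable
      (Filter.Eventually.of_forall hB)
    simpa only [mul_comm] using this
  have i6 : Integrable (fun z => e' z * φ z) volume := by
    have := he'.bdd_mul (f := φ) hφ.smooth.continuous.aestronglyMeasurable
      (Filter.Eventually.of_forall hB)
    simpa only [mul_comm] using this
  have e1 : ∫ z, (u z + v z) * dt φ z = (∫ z, u z * dt φ z) + ∫ z, v z * dt φ z := by
    rw [← integral_add i1 i2]; congr 1; ext z; ring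
  have e2 : ∫ z, inner ℝ (Γ z + Γ' z) (dx φ z) =
      (∫ z, inner ℝ (Γ z) (dx φ z)) + ∫ z, inner ℝ (Γ' z) (dx φ z) := by
    rw [← integral_add i3 i4]; congr 1; ext z; rw [inner_add_left]
  have e3 : ∫ z, (e z + e' z) * φ z = (∫ z, e z * φ z) + ∫ z, e' z * φ z := by
    rw [← integral_add i5 i6]; congr 1; ext z; ring
  rw [e1, e2, e3]; linarith

theorem memLp_A_add (hp : 1 < p) {F : X n → ℝ} (hF : Tst univ F) {G : X n → E n}
    (hG : MemLp G (ENNReal.ofReal p) volume) :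
    MemLp (fun y => A p (dx F y + G y)) (ENNReal.ofReal (cj p)) volume :=
  memLp_flux hp ((hF.memLp_dx _).add hG)

theorem norm_add_rpow_le {E' : Type*} [SeminormedAddCommGroup E'] {q : ℝ} (hq : 1 ≤ q) (a b : E') :
    ‖a + b‖ ^ q ≤ 2 ^ (q - 1) * (‖a‖ ^ q + ‖b‖ ^ q) := by
  have h1 : ‖a + b‖ ^ q ≤ (‖a‖ + ‖b‖) ^ q :=
    Real.rpow_le_rpow (norm_nonneg _) (norm_add_le _ _) (by linarith)
  have h2 := NNReal.rpow_add_le_mul_rpow_add_rpow ‖a‖₊ ‖b‖₊ hq
  have h3 : (‖a‖ + ‖b‖) ^ q ≤ 2 ^ (q - 1) * (‖a‖ ^ q + ‖b‖ ^ q) := by exact_mod_cast h2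
  exact h1.trans h3

theorem integral_add_rpow_le {q : ℝ} (hq : 1 ≤ q) {U V : X n → E n}
    (hU : MemLp U (ENNReal.ofReal q) volume) (hV : MemLp V (ENNReal.ofReal q) volume) {K L : ℝ}
    (hK : ∫ x, ‖U x‖ ^ q ≤ K) (hL : ∫ x, ‖V x‖ ^ q ≤ L) :
    ∫ x, ‖U x + V x‖ ^ q ≤ 2 ^ (q - 1) * (K + L) := by
  have hq0 : 0 < q := by linarith
  have e1 : ENNReal.ofReal q ≠ 0 := by simpa using hq0
  have i1 : Integrable (fun x => ‖U x‖ ^ q) volume := by
    have := hU.integrable_norm_rpow e1 ENNReal.ofReal_ne_top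
    simpa only [ENNReal.toReal_ofReal hq0.le] using this
  have i2 : Integrable (fun x => ‖V x‖ ^ q) volume := by
    have := hV.integrable_norm_rpow e1 ENNReal.ofReal_ne_top
    simpa only [ENNReal.toReal_ofReal hq0.le] using this
  have i3 : Integrable (fun x => ‖U x + V x‖ ^ q) volume := by
    have := (hU.add hV).integrable_norm_rpow e1 ENNReal.ofReal_ne_top
    simpa only [ENNReal.toReal_ofReal hq0.le, Pi.add_apply] using this
  calc ∫ x, ‖U x + V x‖ ^ q ≤ ∫ x, 2 ^ (q - 1) * (‖U x‖ ^ q + ‖V x‖ ^ q) :=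
        integral_mono i3 ((i1.add i2).const_mul _) fun x => norm_add_rpow_le hq _ _
    _ = 2 ^ (q - 1) * ((∫ x, ‖U x‖ ^ q) + ∫ x, ‖V x‖ ^ q) := by
        rw [integral_const_mul, integral_add i1 i2]
    _ ≤ _ := mul_le_mul_of_nonneg_left (add_le_add hK hL) (by positivity)

/-- existence of the two families and uniqueness of the limit -/
theorem core (hn : 0 < n) (hp : 1 < p) {Θ : Set (X n)} (hΘ : IsOpen Θ)
    (hb : Bornology.IsBounded Θ) {F e : X n → ℝ} (hF : Nice p Θ F e) :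
    ∃ (U U' : ℕ → X n → ℝ) (GU GU' : ℕ → X n → E n) (h : X n → ℝ) (M : ℝ)
      (Ω : ℕ → Set (X n)),
      (∀ i, SupOn p Θ (U i) (GU i)) ∧ (∀ i, SupOn p Θ (U' i) (GU' i)) ∧
      (∀ i, IsOpen (Ω i) ∧ Ω i ⊆ Θ) ∧
      (∀ D, IsCompact D → D ⊆ Θ → ∀ᶠ i in atTop, D ⊆ Ω i) ∧
      (∀ i, SolOn p (Ω i) (U i) (GU i)) ∧ (∀ i, SolOn p (Ω i) (U' i) (GU' i)) ∧
      (∀ i, ∀ᵐ y, |U i y| ≤ M ∧ |U' i y| ≤ M) ∧
      (∀ i, ∃ D, IsCompact D ∧ D ⊆ Θ ∧ ∀ᵐ y, y ∉ D → F y ≤ U i y ∧ - F y ≤ U' i y) ∧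
      (∀ᵐ y, Tendsto (fun i => U i y) atTop (𝓝 (h y))) ∧
      (∀ᵐ y, Tendsto (fun i => U' i y) atTop (𝓝 (- h y))) := by
  obtain ⟨M, hM⟩ := hF.tst.bound
  have hM0 : 0 ≤ M := (abs_nonneg _).trans (hM 0)
  have hF' : Nice p Θ (fun z => - F z) e := nice_neg hF
  have hM' : ∀ z, |(fun z => - F z) z| ≤ M := fun z => by simpa using hM z
  obtain ⟨χ, hχ1, hχ2, hχ3, hχ4⟩ := exists_chi hΘ hb
  let obs : ℕ → X n → ℝ := fun i y => (2 * M + 1) * χ i y
  have hobs0 : ∀ i y, 0 ≤ obs i y := fun i y => mul_nonneg (by linarith) (hχ2 i y).1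
  have hobsT : ∀ i, Tst univ (obs i) := fun i =>
    { smooth := contDiff_const.mul (hχ1 i).smooth
      cpt := (hχ1 i).cpt.mul_left
      supp := subset_univ _ }
  have hobsm : ∀ i y, obs i y ≤ obs (i + 1) y := fun i y =>
    mul_le_mul_of_nonneg_left (hχ3 i y) (by linarith)
  have hobsC : ∀ i, ∀ y ∈ Cx Θ i, 2 * M < obs i y := by
    intro i y hy
    simp only [obs, hχ4 i y hy]; linarith
  obtain ⟨K₁, z, zt, G, hz1, hz2, hz3, hz4⟩ :=
    core_family (p := p) hp hΘ hb hF.tst hM hobs0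
  obtain ⟨K₂, y, yt, H, hy1, hy2, hy3, hy4⟩ :=
    core_family (p := p) hp hΘ hb hF'.tst hM' hobs0
  -- common subsequence
  let f : ℕ → ℕ → X n → ℝ := fun i => if Even i then z (i / 2) else y (i / 2)
  have hf0 : ∀ i, f (2 * i) = z i := by
    intro i
    simp only [f, if_pos (even_two_mul i)]
    congr 1; omega
  have hf1 : ∀ i, f (2 * i + 1) = y i := by
    intro i
    have : ¬ Even (2 * i + 1) := by rw [Nat.not_even_iff_odd]; exact odd_two_mul_add_one i
    simp only [f, if_neg this]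
    congr 1; omega
  have hfcases : ∀ i, (∃ j, f i = z j) ∨ ∃ j, f i = y j := by
    intro i
    by_cases hi : Even i
    · left; exact ⟨i / 2, by simp only [f, if_pos hi]⟩
    · right; exact ⟨i / 2, by simp only [f, if_neg hi]⟩
  obtain ⟨κ, hκ, g, hg⟩ := cpt (Θ := Θ) hΘ (M := 2 * M) (f := f)
    (by intro i k
        rcases hfcases i with ⟨j, hj⟩ | ⟨j, hj⟩
        · rw [hj]; exact (hz1 j k).w.meas
        · rw [hj]; exact (hy1 j k).w.meas)
    (by intro i k
        rcases hfcases i with ⟨j, hj⟩ | ⟨j, hj⟩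
        · rw [hj]; exact hz2 j k
        · rw [hj]; exact hy2 j k)
    (by intro i
        rcases hfcases i with ⟨j, hj⟩ | ⟨j, hj⟩
        · rw [hj]; exact hz4 j
        · rw [hj]; exact hy4 j)
  have hgz : ∀ i, ∀ᵐ x ∂(volume.restrict Θ),
      Tendsto (fun k => z i (κ k) x) atTop (𝓝 (g (2 * i) x)) := by
    intro i; have := hg (2 * i); rw [hf0] at this; exact this
  have hgy : ∀ i, ∀ᵐ x ∂(volume.restrict Θ),
      Tendsto (fun k => y i (κ k) x) atTop (𝓝 (g (2 * i + 1) x)) := by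
    intro i; have := hg (2 * i + 1); rw [hf1] at this; exact this
  obtain ⟨zl, Gl, zo, Go, a1, a2, a3, a4, a5, a6, a7, a8⟩ := core_limits hp hΘ hb hF.tst
    hobs0 hobsT hobsm hobsC hz1 hz2 hz3 hκ hgz
  obtain ⟨yl, Hl, yo, Ho, b1, b2, b3, b4, b5, b6, b7, b8⟩ := core_limits hp hΘ hb hF'.tst
    hobs0 hobsT hobsm hobsC hy1 hy2 hy3 hκ hgy
  have hε : ∀ k : ℕ, 0 < 1 / ((k : ℝ) + 1) ∧ 1 / ((k : ℝ) + 1) ≤ 1 := by
    intro k
    have h0 : (0 : ℝ) ≤ k := Nat.cast_nonneg k
    refine ⟨by positivity, ?_⟩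
    rw [div_le_one (by linarith)]; linarith
  have hcj : 1 ≤ cj p := (one_lt_cj hp).le
  -- the sum of the two limits is nonnegative
  have hw0 : ∀ᵐ x, 0 ≤ zo x + yo x := by
    have h1 : ∀ᵐ x, ∀ i k, 0 ≤ z i (κ k) x + y i (κ k) x := by
      rw [ae_all_iff]; intro i; rw [ae_all_iff]; intro k
      exact cmp_neg hp (Cx_compact hΘ hb _) (hε (κ k)).1 hF.tst (hz1 i (κ k)) (hy1 i (κ k))
    have h2 : ∀ᵐ x, ∀ i, Tendsto (fun k => z i (κ k) x) atTop (𝓝 (zl i x)) := ae_all_iff.2 a1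
    have h3 : ∀ᵐ x, ∀ i, Tendsto (fun k => y i (κ k) x) atTop (𝓝 (yl i x)) := ae_all_iff.2 b1
    filter_upwards [h1, h2, h3, a6, b6] with x h1 h2 h3 h4 h5
    have h6 : ∀ i, 0 ≤ zl i x + yl i x := fun i =>
      ge_of_tendsto' ((h2 i).add (h3 i)) (h1 i)
    exact ge_of_tendsto' (h4.add h5) h6
  have hDF : ∀ x, dx (fun z => - F z) x = - dx F x := dx_neg F
  -- the function w and its flux
  let w : X n → ℝ := fun x => 1 * zo x + 1 * yo x
  let W : X n → E n := fun x => (1 : ℝ) • Go x + (1 : ℝ) • Ho x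
  have hwW : W0 p Θ w W := W0.lin hp hb a7 b7 1 1
  let Γ : X n → E n := fun x => A p (dx F x + Go x) + A p (dx (fun z => - F z) x + Ho x)
  have hΓ : MemLp Γ (ENNReal.ofReal (cj p)) volume :=
    (memLp_A_add hp hF.tst a7.mem).add (memLp_A_add hp hF'.tst b7.mem)
  have hΓeq : ∀ x, Γ x = A p (dx F x + Go x) - A p (dx F x - Ho x) := by
    intro x
    simp only [Γ, hDF]
    have : - dx F x + Ho x = - (dx F x - Ho x) := by abel
    rw [this, A_neg]; abel
  have hWeq : ∀ x, W x = (dx F x + Go x) - (dx F x - Ho x) := by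
    intro x; simp only [W, one_smul]; abel
  have hpos : ∀ x, 0 ≤ inner ℝ (Γ x) (W x) := by
    intro x; rw [hΓeq, hWeq]; exact A_mono hp _ _
  have hΓ0 : ∀ᵐ x, w x = 0 → Γ x = 0 := by
    filter_upwards [hwW.grad_zero hp hb] with x hx h0
    have h1 := hx h0
    rw [hWeq] at h1
    rw [hΓeq, sub_eq_zero.1 h1, sub_self]
  have heq : ∀ φ, Tst Θ φ → ∫ x, inner ℝ (Γ x) (dx φ x) = ∫ x, w x * dt φ x := by
    intro φ hφ
    have h1 := a8.eq φ hφ
    have h2 := b8.eq φ hφ
    have c1 := (contDiff_dt hφ.smooth).continuous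
    have i1 := inner_integrable hp (memLp_A_add hp hF.tst a7.mem) hφ
    have i2 := inner_integrable hp (memLp_A_add hp hF'.tst b7.mem) hφ
    have i3 := a7.integrable_mul hb c1 hφ.hcs_dt
    have i4 := b7.integrable_mul hb c1 hφ.hcs_dt
    have i5 : Integrable (fun x => F x * dt φ x) volume :=
      (hF.tst.smooth.continuous.mul c1).integrable_of_hasCompactSupport hφ.hcs_dt.mul_left
    have e1 : ∫ x, inner ℝ (Γ x) (dx φ x) = (∫ x, inner ℝ (A p (dx F x + Go x)) (dx φ x)) +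
        ∫ x, inner ℝ (A p (dx (fun z => - F z) x + Ho x)) (dx φ x) := by
      rw [← integral_add i1 i2]; congr 1; ext x; simp only [Γ]; rw [inner_add_left]
    have e2 : ∫ x, (F x + zo x) * dt φ x = (∫ x, F x * dt φ x) + ∫ x, zo x * dt φ x := by
      rw [← integral_add i5 i3]; congr 1; ext x; ring
    have e3 : ∫ x, ((fun z => - F z) x + yo x) * dt φ x =
        - (∫ x, F x * dt φ x) + ∫ x, yo x * dt φ x := by
      have i6 : Integrable (fun x => - (F x * dt φ x)) volume := i5.neg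
      rw [← integral_neg, ← integral_add i6 i4]; congr 1; ext x; ring
    have e4 : ∫ x, w x * dt φ x = (∫ x, zo x * dt φ x) + ∫ x, yo x * dt φ x := by
      rw [← integral_add i3 i4]; congr 1; ext x; simp only [w]; ring
    rw [e1, e4]
    rw [e2] at h1
    rw [e3] at h2
    linarith
  -- the dominating function
  obtain ⟨K₃, hK₃⟩ := flx_bound (n := n) hp hF.tst K₁
  obtain ⟨K₄, hK₄⟩ := flx_bound (n := n) hp hF'.tst K₂
  have hGK : ∀ i k, ∫ x, ‖G i k x‖ ^ p ≤ K₁ := by
    intro i k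
    have h4 : 0 ≤ 1 / ((k : ℝ) + 1) * (∫ x, zt i k x ^ 2) :=
      mul_nonneg (hε k).1.le (integral_nonneg fun y => sq_nonneg _)
    linarith [hz3 i k]
  have hHK : ∀ i k, ∫ x, ‖H i k x‖ ^ p ≤ K₂ := by
    intro i k
    have h4 : 0 ≤ 1 / ((k : ℝ) + 1) * (∫ x, yt i k x ^ 2) :=
      mul_nonneg (hε k).1.le (integral_nonneg fun y => sq_nonneg _)
    linarith [hy3 i k]
  let Zp : ℕ → ℕ → X n → ℝ := fun i k x => max (z i (κ k) x) 0
  let Yp : ℕ → ℕ → X n → ℝ := fun i k x => max (y i (κ k) x) 0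
  let GZ : ℕ → ℕ → X n → E n := fun i k x => if 0 < z i (κ k) x then G i (κ k) x else 0
  let GY : ℕ → ℕ → X n → E n := fun i k x => if 0 < y i (κ k) x then H i (κ k) x else 0
  have hCb : ∀ k, Bornology.IsBounded (Cx Θ k) := fun k => (Cx_compact hΘ hb k).isBounded
  have hZW : ∀ i k, W0 p (Cx Θ (κ k)) (Zp i k) (GZ i k) := fun i k =>
    (hz1 i (κ k)).w.toW0.pos hp (hCb _)
  have hYW : ∀ i k, W0 p (Cx Θ (κ k)) (Yp i k) (GY i k) := fun i k =>
    (hy1 i (κ k)).w.toW0.pos hp (hCb _)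
  let ek : ℕ → ℝ := fun k => 1 / ((κ k : ℝ) + 1)
  have hek : ∀ k, 0 < ek k ∧ ek k ≤ 1 := fun k => hε (κ k)
  let ΓZ : ℕ → ℕ → X n → E n := fun i k => ex (ek k) (flx p F (z i (κ k)) (G i (κ k)))
  let ΓY : ℕ → ℕ → X n → E n := fun i k =>
    ex (ek k) (flx p (fun z => - F z) (y i (κ k)) (H i (κ k)))
  have hΓZ : ∀ i k, MemLp (ΓZ i k) (ENNReal.ofReal (cj p)) volume ∧
      ∫ x, ‖ΓZ i k x‖ ^ cj p ≤ K₃ := by
    intro i k
    have h1 := hK₃ (z i (κ k)) (G i (κ k)) (hz1 i (κ k)).w.meas (hz1 i (κ k)).w.mem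
      (hGK i (κ k))
    have h2 := ex_memLp hcj h1.1 (hek k).1
    exact ⟨h2.1, h2.2.trans h1.2⟩
  have hΓY : ∀ i k, MemLp (ΓY i k) (ENNReal.ofReal (cj p)) volume ∧
      ∫ x, ‖ΓY i k x‖ ^ cj p ≤ K₄ := by
    intro i k
    have h1 := hK₄ (y i (κ k)) (H i (κ k)) (hy1 i (κ k)).w.meas (hy1 i (κ k)).w.mem
      (hHK i (κ k))
    have h2 := ex_memLp hcj h1.1 (hek k).1
    exact ⟨h2.1, h2.2.trans h1.2⟩
  have heL : MemLp e (ENNReal.ofReal 1) volume := by
    rw [ENNReal.ofReal_one]; exact memLp_one_iff_integrable.2 hF.int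
  have hei : ∀ k, Integrable (ex (ek k) e) volume := by
    intro k
    have := (ex_memLp (le_refl 1) heL (hek k).1).1
    rw [ENNReal.ofReal_one] at this
    exact memLp_one_iff_integrable.1 this
  have hDZ : ∀ i k, DI univ (Zp i k) (ΓZ i k) (ex (ek k) e) := fun i k =>
    gsb hp (Cx_compact hΘ hb _) (Cx_sub Θ _) hF (hek k).1 (hek k).2 (hobs0 i) (hz1 i (κ k))
  have hDY : ∀ i k, DI univ (Yp i k) (ΓY i k) (ex (ek k) e) := fun i k =>
    gsb hp (Cx_compact hΘ hb _) (Cx_sub Θ _) hF' (hek k).1 (hek k).2 (hobs0 i) (hy1 i (κ k))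
  have hekto : Tendsto ek atTop (𝓝[>] (0 : ℝ)) := by
    rw [tendsto_nhdsWithin_iff]
    refine ⟨tendsto_one_div_add_atTop_nhds_zero_nat.comp hκ.tendsto_atTop, ?_⟩
    exact Eventually.of_forall fun k => (hek k).1
  have hext : Tendsto (fun k => ∫ x, |ex (ek k) e x - e x|) atTop (𝓝 0) := by
    have h1 := (ex_tendsto (le_refl 1) heL).comp hekto
    refine h1.congr fun k => ?_
    simp only [Function.comp, Real.rpow_one, Real.norm_eq_abs]
  let s : X n → ℝ := fun x => max (zo x) 0 + max (yo x) 0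
  obtain ⟨S, hS1, hS2⟩ := seqs (p := p) hp hΘ hb
    (K := max (4 * M) (max (2 ^ (p - 1) * (K₁ + K₂)) (2 ^ (cj p - 1) * (K₃ + K₄))))
    (a := fun i k x => 1 * Zp i k x + 1 * Yp i k x)
    (S' := fun i k x => (1 : ℝ) • GZ i k x + (1 : ℝ) • GY i k x)
    (Γ := fun i k x => ΓZ i k x + ΓY i k x) (e' := fun i k x => ex (ek k) e x + ex (ek k) e x)
    (C := fun i k => Cx Θ (κ k)) (b := fun i x => max (zl i x) 0 + max (yl i x) 0)
    (s := s) (e := fun x => e x + e x)
    (fun i k => ⟨Cx_compact hΘ hb _, Cx_sub Θ _⟩)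
    (fun i k => W0.lin hp (hCb _) (hZW i k) (hYW i k) 1 1)
    (by
      intro i k
      filter_upwards [hz2 i (κ k), hy2 i (κ k)] with x h1 h2
      have h3 := abs_le.1 h1
      have h4 := abs_le.1 h2
      simp only [Zp, Yp, one_mul]
      refine ⟨add_nonneg (le_max_right _ _) (le_max_right _ _), ?_⟩
      refine le_trans ?_ (le_max_left _ _)
      have h5 : max (z i (κ k) x) 0 ≤ 2 * M := max_le h3.2 (by linarith)
      have h6 : max (y i (κ k) x) 0 ≤ 2 * M := max_le h4.2 (by linarith)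
      linarith)
    (by
      intro i k
      simp only [one_smul]
      refine le_trans (integral_add_rpow_le hp.le (hZW i k).mem (hYW i k).mem
        (K := K₁) (L := K₂) ?_ ?_) ((le_max_left _ _).trans (le_max_right _ _))
      · refine le_trans (integral_mono_of_nonneg (Eventually.of_forall fun x => by positivity) ?_
          (Eventually.of_forall fun x => ?_)) (hGK i (κ k))
        · have := (hz1 i (κ k)).w.mem.integrable_norm_rpow
            (by simpa using (by linarith : 0 < p)) ENNReal.ofReal_ne_top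
          simpa only [ENNReal.toReal_ofReal (by linarith : 0 ≤ p)] using this
        · simp only [GZ]
          split_ifs
          · exact le_refl _
          · rw [norm_zero, Real.zero_rpow (by linarith)]; positivity
      · refine le_trans (integral_mono_of_nonneg (Eventually.of_forall fun x => by positivity) ?_
          (Eventually.of_forall fun x => ?_)) (hHK i (κ k))
        · have := (hy1 i (κ k)).w.mem.integrable_norm_rpow
            (by simpa using (by linarith : 0 < p)) ENNReal.ofReal_ne_top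
          simpa only [ENNReal.toReal_ofReal (by linarith : 0 ≤ p)] using this
        · simp only [GY]
          split_ifs
          · exact le_refl _
          · rw [norm_zero, Real.zero_rpow (by linarith)]; positivity)
    (fun i k => (hΓZ i k).1.add (hΓY i k).1)
    (fun i k => (integral_add_rpow_le hcj (hΓZ i k).1 (hΓY i k).1 (hΓZ i k).2
      (hΓY i k).2).trans ((le_max_right _ _).trans (le_max_right _ _)))
    (fun i k => (hei k).add (hei k))
    (hF.int.add hF.int)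
    (by
      intro i k
      have := DI.add hp (hCb _) (hCb _) (hZW i k) (hYW i k) (hΓZ i k).1 (hΓY i k).1 (hei k)
        (hei k) (hDZ i k) (hDY i k)
      simpa only [one_mul] using this)
    (by
      intro i
      filter_upwards [a1 i, b1 i] with x h1 h2
      simp only [Zp, Yp, one_mul]
      exact (h1.max tendsto_const_nhds).add (h2.max tendsto_const_nhds))
    (by
      filter_upwards [a6, b6] with x h1 h2
      exact (h1.max tendsto_const_nhds).add (h2.max tendsto_const_nhds))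
    (by
      intro i
      have h1 : Tendsto (fun k => 2 * ∫ x, |ex (ek k) e x - e x|) atTop (𝓝 0) := by
        simpa using hext.const_mul 2
      refine h1.congr fun k => ?_
      rw [← integral_const_mul]
      congr 1; ext x
      have : ex (ek k) e x + ex (ek k) e x - (e x + e x) = 2 * (ex (ek k) e x - e x) := by ring
      rw [this, abs_mul, abs_two])
  have hwpos : ∀ᵐ x, 0 ≤ w x := by
    filter_upwards [hw0] with x hx
    simp only [w, one_mul]; exact hx
  have hDIw : DI univ w Γ (fun _ => 0) :=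
    dom hp hΘ hb hwW hwpos hΓ hΓ0 (Eventually.of_forall hpos) heq hS1 (hF.int.add hF.int) hS2
      (Eventually.of_forall fun x => by
        simp only [w, s, one_mul]
        exact add_le_add (le_max_left _ _) (le_max_left _ _))
  have hle : ∫ x, inner ℝ (Γ x) (W x) ≤ 0 := unq hp hb hwW hwpos hΓ hDIw
  have hint : Integrable (fun x => inner ℝ (Γ x) (W x)) volume := (holder_inner hp hΓ hwW.mem).1
  have hzero : ∀ᵐ x, inner ℝ (Γ x) (W x) = 0 := by
    have h1 : ∫ x, inner ℝ (Γ x) (W x) = 0 :=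
      le_antisymm hle (integral_nonneg hpos)
    have h2 := (integral_eq_zero_iff_of_nonneg hpos hint).1 h1
    filter_upwards [h2] with x hx
    simpa using hx
  have hW0 : ∀ᵐ x, W x = 0 := by
    filter_upwards [hzero] with x hx
    rw [hΓeq, hWeq] at hx
    rw [hWeq, A_strict hp _ _ hx, sub_self]
  have hwz : ∀ᵐ x, w x = 0 := zero_of_grad hn hp hb hwW hW0
  -- conclusion
  refine ⟨fun i x => F x + zl i x, fun i x => - F x + yl i x,
    fun i x => dx F x + Gl i x, fun i x => dx (fun z => - F z) x + Hl i x,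
    fun x => F x + zo x, 3 * M, fun i => {y | y ∈ Θ ∧ 2 * M < obs i y},
    a3, b3, ?_, ?_, a4, b4, ?_, ?_, ?_, ?_⟩
  · intro i
    exact ⟨hΘ.inter (isOpen_lt continuous_const (hobsT i).smooth.continuous), fun y hy => hy.1⟩
  · intro D hD hDΘ
    obtain ⟨k₀, hk₀⟩ := Cx_exh hΘ hb hD hDΘ
    filter_upwards [eventually_ge_atTop k₀] with i hi x hx
    exact ⟨hDΘ hx, hobsC i x (interior_subset (hk₀ i hi hx))⟩
  · intro i
    filter_upwards [a5 i, b5 i] with x h1 h2
    have h3 := hM x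
    constructor
    · calc |F x + zl i x| ≤ |F x| + |zl i x| := abs_add_le _ _
        _ ≤ 3 * M := by linarith [h1.2]
    · calc |-F x + yl i x| ≤ |-F x| + |yl i x| := abs_add_le _ _
        _ ≤ 3 * M := by rw [abs_neg]; linarith [h2.2]
  · intro i
    refine ⟨tsupport (χ i), (hχ1 i).cpt, (hχ1 i).supp, ?_⟩
    filter_upwards [a5 i, b5 i] with x h1 h2 hx
    have h3 : χ i x = 0 := image_eq_zero_of_notMem_tsupport hx
    have h4 : obs i x = 0 := by simp only [obs, h3, mul_zero]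
    rw [h4] at h1 h2
    constructor <;> linarith [h1.1, h2.1]
  · filter_upwards [a6] with x hx
    exact hx.const_add _
  · filter_upwards [b6, hwz] with x hx h1
    have h2 : yo x = - zo x := by
      simp only [w, one_mul] at h1; linarith
    rw [h2] at hx
    have := hx.const_add (- F x)
    rwa [show - F x + - zo x = - (F x + zo x) by ring] at this

end PP
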