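import Pool.Agent.PP.CLS
import Pool.Agent.PP.CMPL
import Pool.Agent.PP.SCL
import Pool.Agent.PP.LPS
import Pool.Agent.PP.LOC

open Set Metric Filter Topology MeasureTheory
open scoped ContDiff

noncomputable section

namespace PP

variable {n : ℕ}
variable {p : ℝ}

private theorem dbl_int {F : Type*} [NormedAddCommGroup F] [NormedSpace ℝ F] {Ω : Set (X n)}
    {φ : X n → ℝ} (hφ : Tst Ω φ) {g : X n → F} {ψ : X n → ℝ}
    (hg : ContinuousOn g Ω) (hΩ : IsOpen Ω) (hψ : Continuous ψ) (hs : tsupport ψ ⊆ tsupport φ) :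
    Integrable (fun z => ψ z • g z) volume := by
  have hsub : tsupport (fun z => ψ z • g z) ⊆ tsupport φ :=
    (closure_mono (Function.support_smul_subset_left ψ g)).trans hs
  have hc : Continuous (fun z => ψ z • g z) := by
    refine continuous_of_tsupport fun z hz => ?_
    have hz' : z ∈ Ω := hφ.supp (hsub hz)
    exact hψ.continuousAt.smul ((hg z hz').continuousAt (hΩ.mem_nhds hz'))
  exact hc.integrable_of_hasCompactSupport (hφ.cpt.of_isClosed_subset (isClosed_tsupport _) hsub)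

/-- integration by parts for a function that is only `C ^ 1` in `Ω` -/
private theorem dbl_ibp {Ω : Set (X n)} (hΩ : IsOpen Ω) {f : X n → ℝ}
    (hf : ContDiffOn ℝ 1 f Ω) {φ : X n → ℝ} (hφ : Tst Ω φ) (v : X n) :
    Integrable (fun z => f z * fderiv ℝ φ z v) volume ∧
    Integrable (fun z => fderiv ℝ f z v * φ z) volume ∧
    ∫ z, f z * fderiv ℝ φ z v = - ∫ z, fderiv ℝ f z v * φ z := by
  have cφ := hφ.smooth.continuous
  have dφ : Differentiable ℝ φ := hφ.smooth.differentiable (by simp)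
  have cfφ : Continuous (fun z => fderiv ℝ φ z v) :=
    ((hφ.smooth.continuous_fderiv (by simp)).clm_apply continuous_const)
  have cf' : ContinuousOn (fun z => fderiv ℝ f z v) Ω :=
    (hf.continuousOn_fderiv_of_isOpen hΩ le_rfl).clm_apply continuousOn_const
  have hs : tsupport (fun z => fderiv ℝ φ z v) ⊆ tsupport φ := tsupport_fderiv_apply_subset ℝ v
  have i1 : Integrable (fun z => f z * fderiv ℝ φ z v) volume := by
    have := dbl_int hφ hf.continuousOn hΩ cfφ hs
    refine this.congr (Eventually.of_forall fun z => ?_)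
    simp only [smul_eq_mul]
    ring
  have i2 : Integrable (fun z => fderiv ℝ f z v * φ z) volume := by
    have := dbl_int hφ cf' hΩ cφ subset_rfl
    refine this.congr (Eventually.of_forall fun z => ?_)
    simp only [smul_eq_mul]
    ring
  have i3 : Integrable (fun z => f z * φ z) volume := by
    have := dbl_int hφ hf.continuousOn hΩ cφ subset_rfl
    refine this.congr (Eventually.of_forall fun z => ?_)
    simp only [smul_eq_mul]
    ring
  have := der_haar (n := n)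
  refine ⟨i1, i2, ?_⟩
  refine integral_mul_fderiv_eq_neg_fderiv_mul_of_integrable i2 i1 i3 (fun x hx => ?_)
    (fun x _ => dφ x)
  have hx' := hφ.supp hx
  exact ((hf x hx').contDiffAt (hΩ.mem_nhds hx')).differentiableAt (by simp)

/-- a function that is continuously differentiable has its gradient as weak gradient -/
private theorem dbl_wg {Ω : Set (X n)} (hΩ : IsOpen Ω) {Φ : X n → ℝ} {GΦ : X n → E n}
    (hΦ : ContDiffOn ℝ 1 Φ Ω) (hGc : ContinuousOn GΦ Ω)
    (hG : ∀ z ∈ Ω, ∀ v : E n, inner ℝ (GΦ z) v = fderiv ℝ Φ z (v, 0)) : WG Ω Φ GΦ := by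
  intro φ hφ
  have hc := (contDiff_dx hφ.smooth).continuous
  have i1 : Integrable (fun z => Φ z • dx φ z) volume := by
    have h0 : ∀ z, z ∉ tsupport φ → dx φ z = 0 := fun z hz => dx_zero_of_notMem z hz
    have hs : tsupport (fun z => Φ z • dx φ z) ⊆ tsupport φ := by
      apply closure_minimal _ (isClosed_tsupport φ)
      intro z hz
      by_contra hcon
      apply hz
      simp [h0 z hcon]
    have hcc : Continuous (fun z => Φ z • dx φ z) := by
      refine continuous_of_tsupport fun z hz => ?_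
      have hz' : z ∈ Ω := hφ.supp (hs hz)
      exact ((hΦ.continuousOn z hz').continuousAt (hΩ.mem_nhds hz')).smul hc.continuousAt
    exact hcc.integrable_of_hasCompactSupport (hφ.cpt.of_isClosed_subset (isClosed_tsupport _) hs)
  have i2 : Integrable (fun z => φ z • GΦ z) volume :=
    dbl_int hφ hGc hΩ hφ.smooth.continuous subset_rfl
  apply der_vec i1 i2
  intro v
  obtain ⟨-, -, h3⟩ := dbl_ibp hΩ hΦ hφ (v, (0 : ℝ))
  have e1 : ∫ z, inner ℝ (Φ z • dx φ z) v = ∫ z, Φ z * fderiv ℝ φ z (v, 0) := by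
    apply integral_congr_ae
    filter_upwards with z
    rw [real_inner_smul_left, dx_eq hφ.smooth]
  have e2 : ∫ z, inner ℝ (φ z • GΦ z) v = ∫ z, fderiv ℝ Φ z (v, 0) * φ z := by
    apply integral_congr_ae
    filter_upwards with z
    rw [real_inner_smul_left]
    by_cases hz : z ∈ tsupport φ
    · rw [hG z (hφ.supp hz)]
      ring
    · rw [image_eq_zero_of_notMem_tsupport hz]
      ring
  rw [e1, e2, h3]

private theorem dbl_memLp {F : Type*} [NormedAddCommGroup F] {D : Set (X n)} (hD : IsCompact D)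
    {g : X n → F} (hg : ContinuousOn g D) (q : ENNReal) : MemLp g q (volume.restrict D) := by
  obtain ⟨C, hC⟩ := hD.exists_bound_of_continuousOn hg
  have : IsFiniteMeasure (volume.restrict D : Measure (X n)) :=
    ⟨by rw [Measure.restrict_apply_univ]; exact hD.measure_lt_top⟩
  apply MemLp.of_bound (hg.aestronglyMeasurable hD.measurableSet) C
  filter_upwards [ae_restrict_mem hD.measurableSet] with z hz using hC z hz

/-- comparison of a weak supersolution with a classical subsolution -/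
theorem dbl_cmp (hp : 1 < p) {Ω : Set (X n)} (hΩ : IsOpen Ω) {Φ : X n → ℝ} {GΦ : X n → E n}
    (hΦ : ContDiffOn ℝ 1 Φ Ω) (hGc : ContinuousOn GΦ Ω)
    (hGr : ∀ z ∈ Ω, ∀ v : E n, inner ℝ (GΦ z) v = fderiv ℝ Φ z (v, 0))
    (hV : ContDiffOn ℝ 1 (fun z => A p (GΦ z)) Ω)
    (hsub : ∀ z ∈ Ω, dt Φ z ≤ dv (fun z => A p (GΦ z)) z) {v : X n → ℝ} {G : X n → E n}
    (hv : SupOn p Ω v G) {b : ℝ}
    (hc : ∀ τ > 0, ∃ D, IsCompact D ∧ D ⊆ Ω ∧
      ∀ᵐ z ∂(volume.restrict Ω), v z < Φ z → z.2 < b - τ → z ∈ D) :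
    ∀ᵐ z ∂(volume.restrict Ω), z.2 < b → Φ z ≤ v z := by
  have hVc : ContinuousOn (fun z => A p (GΦ z)) Ω := hV.continuousOn
  obtain ⟨M, hM⟩ := hv.bdd
  have hvs : ∀ {D : Set (X n)}, D ⊆ Ω → volume.restrict D ≤ volume.restrict Ω := fun h =>
    Measure.restrict_mono h le_rfl
  have key := cmpl (b := b) hp hΩ (d := fun z => Φ z - v z) (Gd := fun z => GΦ z - G z)
    (Γ := fun z => A p (GΦ z) - A p (G z)) ?_ ?_ ?_ ?_ ?_ ?_ ?_ ?_
  · filter_upwards [key] with z hz hzb
    have := hz hzb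
    linarith
  · exact (hΦ.continuousOn.aestronglyMeasurable hΩ.measurableSet).sub hv.meas
  · intro D hD hDΩ
    obtain ⟨C, hC⟩ := hD.exists_bound_of_continuousOn (hΦ.continuousOn.mono hDΩ)
    refine ⟨C + M, ?_⟩
    filter_upwards [ae_restrict_mem hD.measurableSet, ae_mono (hvs hDΩ) hM] with z hz hMz
    have h1 := hC z hz
    rw [Real.norm_eq_abs] at h1
    exact (abs_sub _ _).trans (add_le_add h1 hMz)
  · intro D hD hDΩ
    exact (dbl_memLp hD (hGc.mono hDΩ) _).sub (hv.memG D hD hDΩ)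
  · intro φ hφ
    have h1 := dbl_wg hΩ hΦ hGc hGr φ hφ
    have h2 := hv.wg φ hφ
    have hcd := (contDiff_dx hφ.smooth).continuous
    have hcs : HasCompactSupport (dx φ) := (der_tst_int hφ).2.1
    have i1 : Integrable (fun z => Φ z • dx φ z) volume := by
      have h0 : ∀ z, z ∉ tsupport φ → dx φ z = 0 := fun z hz => dx_zero_of_notMem z hz
      have hs : tsupport (fun z => Φ z • dx φ z) ⊆ tsupport φ := by
        apply closure_minimal _ (isClosed_tsupport φ)
        intro z hz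
        by_contra hcon
        apply hz
        simp [h0 z hcon]
      have hcc : Continuous (fun z => Φ z • dx φ z) := by
        refine continuous_of_tsupport fun z hz => ?_
        have hz' : z ∈ Ω := hφ.supp (hs hz)
        exact ((hΦ.continuousOn z hz').continuousAt (hΩ.mem_nhds hz')).smul hcd.continuousAt
      exact hcc.integrable_of_hasCompactSupport
        (hφ.cpt.of_isClosed_subset (isClosed_tsupport _) hs)
    have i2 : Integrable (fun z => v z • dx φ z) volume := by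
      rw [← memLp_one_iff_integrable]
      exact loc_bdd hv.meas hM hcd hφ.cpt hφ.supp (fun z hz => dx_zero_of_notMem z hz) 1
    have i3 : Integrable (fun z => φ z • GΦ z) volume :=
      dbl_int hφ hGc hΩ hφ.smooth.continuous subset_rfl
    have i4 : Integrable (fun z => φ z • G z) volume := by
      apply loc_int_smul _ hφ
      rw [locallyIntegrableOn_iff hΩ.isLocallyClosed]
      intro K hKΩ hK
      have h3 := hv.memG K hK hKΩ
      have : IsFiniteMeasure (volume.restrict K : Measure (X n)) :=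
        ⟨by rw [Measure.restrict_apply_univ]; exact hK.measure_lt_top⟩
      exact h3.integrable (by
        rw [← ENNReal.ofReal_one]
        exact ENNReal.ofReal_le_ofReal hp.le)
    have e1 : ∫ z, (Φ z - v z) • dx φ z = (∫ z, Φ z • dx φ z) - ∫ z, v z • dx φ z := by
      rw [← integral_sub i1 i2]
      apply integral_congr_ae
      filter_upwards with z
      rw [sub_smul]
    have e2 : ∫ z, φ z • (GΦ z - G z) = (∫ z, φ z • GΦ z) - ∫ z, φ z • G z := by
      rw [← integral_sub i3 i4]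
      apply integral_congr_ae
      filter_upwards with z
      rw [smul_sub]
    rw [e1, e2, h1, h2]
    abel
  · intro D hD hDΩ
    exact (dbl_memLp hD (hVc.mono hDΩ) _).sub (memLp_flux hp (hv.memG D hD hDΩ))
  · have h1 := cls hΩ hΦ hV hsub
    have h2 := hv.di
    intro φ hφ hφ0
    have a1 := h1 φ hφ hφ0
    have a2 := h2 φ hφ hφ0
    have hcd := (contDiff_dx hφ.smooth).continuous
    have hct := (contDiff_dt hφ.smooth).continuous
    have i1 : Integrable (fun z => Φ z * dt φ z) volume := by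
      obtain ⟨i, -, -⟩ := dbl_ibp hΩ hΦ hφ ((0 : E n), (1 : ℝ))
      refine i.congr (Eventually.of_forall fun z => ?_)
      simp only
      rw [dt_eq hφ.smooth]
    have i2 : Integrable (fun z => v z * dt φ z) volume := by
      have := loc_bdd hv.meas hM hct hφ.cpt hφ.supp (fun z hz => dt_zero_of_notMem z hz) 1
      rw [memLp_one_iff_integrable] at this
      exact this
    have i3 : Integrable (fun z => inner ℝ (A p (GΦ z)) (dx φ z)) volume := by
      have h0 : ∀ z, z ∉ tsupport φ → dx φ z = 0 := fun z hz => dx_zero_of_notMem z hz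
      have hs : tsupport (fun z => inner ℝ (A p (GΦ z)) (dx φ z)) ⊆ tsupport φ := by
        apply closure_minimal _ (isClosed_tsupport φ)
        intro z hz
        by_contra hcon
        apply hz
        simp [h0 z hcon]
      have hcc : Continuous (fun z => inner ℝ (A p (GΦ z)) (dx φ z)) := by
        refine continuous_of_tsupport fun z hz => ?_
        have hz' : z ∈ Ω := hφ.supp (hs hz)
        exact ((hVc z hz').continuousAt (hΩ.mem_nhds hz')).inner hcd.continuousAt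
      exact hcc.integrable_of_hasCompactSupport
        (hφ.cpt.of_isClosed_subset (isClosed_tsupport _) hs)
    have i4 : Integrable (fun z => inner ℝ (A p (G z)) (dx φ z)) volume := by
      have hK : IsCompact (tsupport φ) := hφ.cpt
      have h3 := memLp_flux hp (hv.memG _ hK hφ.supp)
      have h4 : MemLp (dx φ) (ENNReal.ofReal p) (volume.restrict (tsupport φ)) :=
        dbl_memLp hK hcd.continuousOn _
      have h5 := (holder_inner hp h3 h4).1
      refine (integrableOn_iff_integrable_of_support_subset ?_).1 h5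
      intro z hz
      by_contra hcon
      apply hz
      show inner ℝ (A p (G z)) (dx φ z) = 0
      rw [dx_zero_of_notMem z hcon, inner_zero_right]
    have e1 : ∫ z, (Φ z - v z) * dt φ z = (∫ z, Φ z * dt φ z) - ∫ z, v z * dt φ z := by
      rw [← integral_sub i1 i2]
      apply integral_congr_ae
      filter_upwards with z
      ring
    have e2 : ∫ z, inner ℝ (A p (GΦ z) - A p (G z)) (dx φ z) =
        (∫ z, inner ℝ (A p (GΦ z)) (dx φ z)) - ∫ z, inner ℝ (A p (G z)) (dx φ z) := by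
      rw [← integral_sub i3 i4]
      apply integral_congr_ae
      filter_upwards with z
      rw [inner_sub_left]
    have e3 : ∫ z, (-v z) * dt φ z = - ∫ z, v z * dt φ z := by
      rw [← integral_neg]
      apply integral_congr_ae
      filter_upwards with z
      ring
    have e4 : ∫ z, inner ℝ (-A p (G z)) (dx φ z) = - ∫ z, inner ℝ (A p (G z)) (dx φ z) := by
      rw [← integral_neg]
      apply integral_congr_ae
      filter_upwards with z
      rw [inner_neg_left]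
    have e5 : ∫ z : X n, (0 : ℝ) * φ z = 0 := by simp
    rw [e5] at a1 a2 ⊢
    rw [e3, e4] at a2
    rw [e1, e2]
    linarith
  · filter_upwards with z using A_mono hp _ _
  · intro τ hτ
    obtain ⟨D, hD, hDΩ, hz⟩ := hc τ hτ
    refine ⟨D, hD, hDΩ, ?_⟩
    filter_upwards [hz] with z hz h1 h2
    exact hz (by linarith) h2


/-- the square of the distance to `x₁` -/
private def dblS (x₁ : E n) (x : E n) : ℝ := ‖x - x₁‖ ^ 2

private theorem dblS_hasFDerivAt (x₁ x : E n) :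
    HasFDerivAt (dblS x₁) ((2 : ℝ) • innerSL ℝ (x - x₁)) x := by
  have h1 : HasFDerivAt (fun x : E n => x - x₁) (ContinuousLinearMap.id ℝ (E n)) x :=
    (hasFDerivAt_id x).sub_const x₁
  have h2 := (hasStrictFDerivAt_norm_sq (x - x₁)).hasFDerivAt.comp x h1
  refine h2.congr_fderiv ?_
  ext v
  simp

private theorem dblS_pow (x₁ : E n) {x : E n} (hx : x ≠ x₁) (e : ℝ) :
    HasFDerivAt (fun x => dblS x₁ x ^ e)
      ((e * dblS x₁ x ^ (e - 1)) • ((2 : ℝ) • innerSL ℝ (x - x₁))) x := by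
  have h0 : dblS x₁ x ≠ 0 := by
    unfold dblS
    have : x - x₁ ≠ 0 := sub_ne_zero.2 hx
    positivity
  exact (Real.hasDerivAt_rpow_const (Or.inl h0)).comp_hasFDerivAt x (dblS_hasFDerivAt x₁ x)

private theorem dblS_pos (x₁ : E n) {x : E n} (hx : x ≠ x₁) : 0 < dblS x₁ x := by
  unfold dblS
  have : x - x₁ ≠ 0 := sub_ne_zero.2 hx
  positivity

private theorem dblS_contDiffOn (x₁ : E n) (e : ℝ) {Ω : Set (X n)} (hΩ : ∀ z ∈ Ω, z.1 ≠ x₁) :
    ContDiffOn ℝ 1 (fun z : X n => dblS x₁ z.1 ^ e) Ω := by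
  apply ContDiffOn.rpow_const_of_ne
  · unfold dblS
    apply ContDiff.contDiffOn
    exact (contDiff_fst.sub contDiff_const).norm_sq ℝ
  · intro z hz
    exact (dblS_pos x₁ (hΩ z hz)).ne'

/-- divergence of the explicit field -/
private theorem dbl_dv (x₁ : E n) (k g : ℝ) {z : X n} (hz : z.1 ≠ x₁) :
    dv (fun z : X n => (k * dblS x₁ z.1 ^ (-g)) • (z.1 - x₁)) z =
      k * ((n : ℝ) - 2 * g) * dblS x₁ z.1 ^ (-g) := by
  have h1 := (dblS_pow x₁ hz (-g)).const_mul k
  have h2 : HasFDerivAt (fun x : E n => x - x₁) (ContinuousLinearMap.id ℝ (E n)) z.1 :=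
    (hasFDerivAt_id z.1).sub_const x₁
  have h3 := h1.smul h2
  unfold dv
  have h4 : fderiv ℝ (fun x : E n => (k * dblS x₁ x ^ (-g)) • (x - x₁)) z.1 = _ := h3.fderiv
  have h5 : ∀ i : Fin n, (fderiv ℝ (fun x : E n => (k * dblS x₁ (x, z.2).1 ^ (-g)) •
      ((x, z.2).1 - x₁)) z.1 (EuclideanSpace.single i 1)) i =
      k * dblS x₁ z.1 ^ (-g) - k * (g * dblS x₁ z.1 ^ (-g - 1) * (2 * (z.1 - x₁) i)) *
        (z.1 - x₁) i := by
    intro i
    rw [h4]
    simp [EuclideanSpace.inner_single_right]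
    ring
  rw [Finset.sum_congr rfl fun i _ => h5 i, Finset.sum_sub_distrib, Finset.sum_const,
    Finset.card_univ, Fintype.card_fin, nsmul_eq_mul]
  have h6 : ∑ i : Fin n, k * (g * dblS x₁ z.1 ^ (-g - 1) * (2 * (z.1 - x₁) i)) * (z.1 - x₁) i =
      2 * g * k * (dblS x₁ z.1 ^ (-g - 1) * dblS x₁ z.1) := by
    have h7 : dblS x₁ z.1 = ∑ i : Fin n, (z.1 - x₁) i ^ 2 := by
      unfold dblS
      exact EuclideanSpace.real_norm_sq_eq _
    rw [mul_comm (dblS x₁ z.1 ^ (-g - 1)), ← mul_assoc]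
    conv_rhs => rw [h7, Finset.mul_sum, Finset.sum_mul]
    apply Finset.sum_congr rfl
    intro i _
    rw [← h7]
    ring
  have h8 : dblS x₁ z.1 ^ (-g - 1) * dblS x₁ z.1 = dblS x₁ z.1 ^ (-g) := by
    have h9 := Real.rpow_add (dblS_pos x₁ hz) (-g - 1) 1
    rw [Real.rpow_one, sub_add_cancel] at h9
    exact h9.symm
  rw [h6, h8]
  ring

/-- the flux of the barrier -/
private theorem dbl_flux (hp : 1 < p) (x₁ : E n) {k : ℝ} (hk : 0 < k) {x : E n}
    (hx : x ≠ x₁) :
    A p ((-(k * dblS x₁ x ^ (-((n + 1 : ℝ) / (2 * (p - 1))) - 1))) • (x - x₁)) =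
      (-(k ^ (p - 1)) * dblS x₁ x ^ (-((n + p + 1 : ℝ) / 2))) • (x - x₁) := by
  set a : ℝ := (n + 1 : ℝ) / (2 * (p - 1)) with ha
  have hS := dblS_pos x₁ hx
  set s := dblS x₁ x with hs
  have hnx : ‖x - x₁‖ = s ^ (1 / 2 : ℝ) := by
    rw [hs, dblS, ← Real.sqrt_eq_rpow, Real.sqrt_sq (norm_nonneg _)]
  have hnorm : ‖(-(k * s ^ (-a - 1))) • (x - x₁)‖ = k * s ^ (-a - 1 / 2) := by
    rw [norm_smul, norm_neg, Real.norm_eq_abs, abs_of_pos (by positivity), hnx, mul_assoc,
      ← Real.rpow_add hS]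
    congr 2
    ring
  unfold A
  rw [hnorm, smul_smul]
  congr 1
  rw [Real.mul_rpow hk.le (by positivity), ← Real.rpow_mul hS.le]
  have e1 : k ^ (p - 2) * k = k ^ (p - 1) := by
    have h9 := Real.rpow_add hk (p - 2) 1
    rw [Real.rpow_one] at h9
    rw [← h9]
    congr 1
    ring
  have e2 : s ^ ((-a - 1 / 2) * (p - 2)) * s ^ (-a - 1) = s ^ (-((n + p + 1 : ℝ) / 2)) := by
    rw [← Real.rpow_add hS]
    congr 1
    rw [ha]
    have : p - 1 ≠ 0 := by linarith
    field_simp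
    ring
  rw [← e1, ← e2]
  ring


/-- one final time -/
private theorem dbl_one (hp : 1 < p) {ρ : ℝ} (hρ : 0 < ρ) {a N κ c₀ : ℝ}
    (ha : a = (n + 1 : ℝ) / (2 * (p - 1)))
    (hN : N = ((ρ / 2) ^ 2) ^ (-a) - ((4 * ρ) ^ 2) ^ (-a))
    (hκ : κ = (((2 * ρ) ^ 2) ^ (-a) - ((4 * ρ) ^ 2) ^ (-a)) / (2 * N))
    (hc₀ : c₀ = (2 * a / N) ^ (p - 1) * (p + 1) * ((4 * ρ) ^ 2) ^ (-((n + p + 1 : ℝ) / 2)))
    {x₁ : E n} {ta tb c δ T ts : ℝ} {v : X n → ℝ} {G : X n → E n} (hδ : 0 < δ) (hδc : δ ≤ c)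
    (hT : c₀⁻¹ * δ ^ (2 - p) ≤ T)
    (hv : SupOn p (ball x₁ (4 * ρ) ×ˢ Ioo ta tb) v G)
    (h0 : ∀ᵐ z ∂(volume.restrict (ball x₁ (4 * ρ) ×ˢ Ioo ta tb)), 0 ≤ v z)
    (h1 : ∀ᵐ z ∂(volume.restrict (ball x₁ ρ ×ˢ Ioo ta tb)), c ≤ v z)
    (hts : ts ∈ Ioo (ta + T) tb) :
    ∀ᵐ z : X n, z ∈ ball x₁ (2 * ρ) ×ˢ Ioo (ts - κ * T) ts → κ * δ ≤ v z := by
  have hp1 : 0 < p - 1 := by linarith
  have ha0 : 0 < a := by rw [ha]; positivity
  have hmono : ∀ r1 r2 : ℝ, 0 < r1 → r1 < r2 → (r2 ^ 2) ^ (-a) < (r1 ^ 2) ^ (-a) := by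
    intro r1 r2 h1 h2
    exact Real.rpow_lt_rpow_of_neg (by positivity) (by nlinarith) (by linarith)
  have hN0 : 0 < N := by
    rw [hN]
    have := hmono (ρ / 2) (4 * ρ) (by positivity) (by linarith)
    linarith
  have hκ0 : 0 < κ := by
    rw [hκ]
    have := hmono (2 * ρ) (4 * ρ) (by positivity) (by linarith)
    apply div_pos (by linarith) (by positivity)
  have hκ1 : κ ≤ 1 / 2 := by
    rw [hκ, div_le_div_iff₀ (by positivity) (by norm_num)]
    have := hmono (ρ / 2) (2 * ρ) (by positivity) (by linarith)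
    rw [hN]
    linarith
  have hc₀0 : 0 < c₀ := by rw [hc₀]; positivity
  have hδp : 0 < δ ^ (2 - p) := Real.rpow_pos_of_pos hδ _
  have hT0 : 0 < T := lt_of_lt_of_le (by positivity) hT
  -- the domain
  set Ω : Set (X n) := (ball x₁ (4 * ρ) \ closedBall x₁ (ρ / 2)) ×ˢ Ioo (ts - T) ts with hΩdef
  have hΩ : IsOpen Ω := (isOpen_ball.sdiff isClosed_closedBall).prod isOpen_Ioo
  have hΩsub : Ω ⊆ ball x₁ (4 * ρ) ×ˢ Ioo ta tb := by
    rintro z ⟨hz1, hz2⟩
    refine ⟨hz1.1, ?_, ?_⟩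
    · have := hz2.1; have := hts.1; linarith
    · have := hz2.2; have := hts.2; linarith
  have hΩne : ∀ z ∈ Ω, z.1 ≠ x₁ := by
    rintro z ⟨hz1, -⟩ h
    apply hz1.2
    rw [h]
    exact mem_closedBall_self (by positivity)
  have hvΩ : SupOn p Ω v G := hv.restrict (isOpen_ball.prod isOpen_Ioo) hΩ hΩsub
  -- the barrier
  set Ψ : X n → ℝ := fun z => δ * ((dblS x₁ z.1 ^ (-a) - ((4 * ρ) ^ 2) ^ (-a)) / N - 1 +
    (z.2 - ts + T) / T) with hΨ
  set k : ℝ := δ * (2 * a / N) with hk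
  have hk0 : 0 < k := by rw [hk]; positivity
  set GΨ : X n → E n := fun z => (-(k * dblS x₁ z.1 ^ (-a - 1))) • (z.1 - x₁) with hGΨ
  have hcd : ∀ Ω' : Set (X n), (∀ z ∈ Ω', z.1 ≠ x₁) → ContDiffOn ℝ 1 Ψ Ω' := by
    intro Ω' hne
    have h2 := dblS_contDiffOn x₁ (-a) hne
    have h3 : ContDiffOn ℝ 1 (fun z : X n => (z.2 - ts + T) / T) Ω' :=
      (((contDiff_snd.sub contDiff_const).add contDiff_const).div_const T).contDiffOn
    exact contDiffOn_const.mul ((((h2.sub contDiffOn_const).div_const N).sub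
      contDiffOn_const).add h3)
  have hΨd : ∀ z : X n, z.1 ≠ x₁ → HasFDerivAt Ψ (fderiv ℝ Ψ z) z := by
    intro z hz
    have h2 : ContDiffOn ℝ 1 Ψ {z : X n | z.1 ≠ x₁} := hcd _ (fun z hz => hz)
    have h3 : IsOpen {z : X n | z.1 ≠ x₁} := isOpen_ne.preimage continuous_fst
    exact (((h2 z hz).contDiffAt (h3.mem_nhds hz)).differentiableAt (by simp)).hasFDerivAt
  have hgrad : ∀ z : X n, z.1 ≠ x₁ → ∀ w : E n, inner ℝ (GΨ z) w = fderiv ℝ Ψ z (w, 0) := by
    intro z hz w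
    have h2 : HasFDerivAt (fun x : E n => Ψ (x, z.2)) ((fderiv ℝ Ψ z).comp
        (ContinuousLinearMap.inl ℝ (E n) ℝ)) z.1 :=
      HasFDerivAt.comp (g := Ψ) (f := fun x : E n => (x, z.2)) z.1 (hΨd z hz)
        (hasFDerivAt_prodMk_left z.1 z.2)
    have h3 : HasFDerivAt (fun x : E n => Ψ (x, z.2)) (δ • (N⁻¹ • ((-a * dblS x₁ z.1 ^ (-a - 1)) •
        ((2 : ℝ) • innerSL ℝ (z.1 - x₁))))) z.1 := by
      have h4 := (((((dblS_pow x₁ hz (-a)).sub_const (((4 * ρ) ^ 2) ^ (-a))).const_mul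
        N⁻¹).sub_const 1).add_const ((z.2 - ts + T) / T)).const_mul δ
      refine h4.congr_of_eventuallyEq (Eventually.of_forall fun x => ?_)
      simp only [hΨ]
      rw [div_eq_inv_mul]
    have h5 := h2.unique h3
    have h6 : fderiv ℝ Ψ z (w, 0) = ((fderiv ℝ Ψ z).comp (ContinuousLinearMap.inl ℝ (E n) ℝ)) w := by
      simp
    rw [h6, h5]
    simp only [hGΨ, real_inner_smul_left, smul_apply, smul_eq_mul,
      innerSL_apply_apply, hk]
    field_simp
  have hdt : ∀ z : X n, dt Ψ z = δ / T := by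
    intro z
    unfold dt
    have h2 : HasDerivAt (fun t : ℝ => Ψ (z.1, t)) (δ * (1 / T)) z.2 := by
      have h3 : HasDerivAt (fun t : ℝ => (t - ts + T) / T) (1 / T) z.2 :=
        (((hasDerivAt_id z.2).sub_const ts).add_const T).div_const T
      have h4 := (h3.const_add ((dblS x₁ z.1 ^ (-a) - ((4 * ρ) ^ 2) ^ (-a)) / N - 1)).const_mul δ
      exact h4
    rw [h2.deriv]
    ring
  have hflux : ∀ z : X n, z.1 ≠ x₁ → A p (GΨ z) =
      (-(k ^ (p - 1)) * dblS x₁ z.1 ^ (-((n + p + 1 : ℝ) / 2))) • (z.1 - x₁) := by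
    intro z hz
    have h2 := dbl_flux hp x₁ hk0 hz
    rw [← ha] at h2
    exact h2
  have hdv : ∀ z : X n, z.1 ≠ x₁ → dv (fun z => A p (GΨ z)) z =
      k ^ (p - 1) * (p + 1) * dblS x₁ z.1 ^ (-((n + p + 1 : ℝ) / 2)) := by
    intro z hz
    have h2 := dbl_dv x₁ (-(k ^ (p - 1))) ((n + p + 1 : ℝ) / 2) hz
    have h3 : dv (fun z => A p (GΨ z)) z =
        dv (fun z : X n => (-(k ^ (p - 1)) * dblS x₁ z.1 ^ (-((n + p + 1 : ℝ) / 2))) •
          (z.1 - x₁)) z := by
      unfold dv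
      apply Finset.sum_congr rfl
      intro i _
      have h4 : (fun x : E n => A p (GΨ (x, z.2))) =ᶠ[𝓝 z.1] fun x : E n =>
          (-(k ^ (p - 1)) * dblS x₁ (x, z.2).1 ^ (-((n + p + 1 : ℝ) / 2))) • ((x, z.2).1 - x₁) := by
        filter_upwards [isOpen_ne.mem_nhds hz] with x hx
        exact hflux (x, z.2) hx
      rw [h4.fderiv_eq]
    rw [h3, h2]
    ring
  -- properties of the domain
  have hmem : ∀ z ∈ Ω, ρ / 2 < ‖z.1 - x₁‖ ∧ ‖z.1 - x₁‖ < 4 * ρ ∧ ts - T < z.2 ∧ z.2 < ts := by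
    rintro z ⟨hz1, hz2⟩
    have h2 := hz1.1
    have h3 := hz1.2
    rw [mem_ball, dist_eq_norm] at h2
    rw [mem_closedBall, dist_eq_norm, not_le] at h3
    exact ⟨h3, h2, hz2.1, hz2.2⟩
  have hVcd : ContDiffOn ℝ 1 (fun z => A p (GΨ z)) Ω := by
    have h2 : ContDiffOn ℝ 1 (fun z : X n => (-(k ^ (p - 1)) *
        dblS x₁ z.1 ^ (-((n + p + 1 : ℝ) / 2))) • (z.1 - x₁)) Ω :=
      (contDiffOn_const.mul (dblS_contDiffOn x₁ _ hΩne)).smul
        ((contDiff_fst.sub contDiff_const).contDiffOn)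
    exact h2.congr fun z hz => hflux z (hΩne z hz)
  have hGc : ContinuousOn GΨ Ω := by
    have h2 : ContDiffOn ℝ 1 GΨ Ω :=
      ((contDiffOn_const.mul (dblS_contDiffOn x₁ _ hΩne)).neg).smul
        ((contDiff_fst.sub contDiff_const).contDiffOn)
    exact h2.continuousOn
  have hsub : ∀ z ∈ Ω, δ / T ≤ dv (fun z => A p (GΨ z)) z := by
    intro z hz
    rw [hdv z (hΩne z hz)]
    have h2 := hmem z hz
    have h3 : ((4 * ρ) ^ 2) ^ (-((n + p + 1 : ℝ) / 2)) ≤
        dblS x₁ z.1 ^ (-((n + p + 1 : ℝ) / 2)) := by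
      apply Real.rpow_le_rpow_of_nonpos (dblS_pos x₁ (hΩne z hz))
      · unfold dblS
        nlinarith [h2.1, h2.2.1]
      · have : (0 : ℝ) < (n + p + 1 : ℝ) / 2 := by positivity
        linarith
    have h4 : k ^ (p - 1) = δ ^ (p - 1) * (2 * a / N) ^ (p - 1) := by
      rw [hk, Real.mul_rpow hδ.le (by positivity)]
    have h5 : δ / T ≤ δ ^ (p - 1) * c₀ := by
      rw [div_le_iff₀ hT0]
      have h6 : δ = δ ^ (p - 1) * δ ^ (2 - p) := by
        rw [← Real.rpow_add hδ]
        conv_lhs => rw [← Real.rpow_one δ]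
        congr 1
        ring
      have h7 : δ ^ (2 - p) ≤ c₀ * T := by
        rw [inv_mul_le_iff₀ hc₀0] at hT
        exact hT
      calc δ = δ ^ (p - 1) * δ ^ (2 - p) := h6
        _ ≤ δ ^ (p - 1) * (c₀ * T) := by
          apply mul_le_mul_of_nonneg_left h7 (by positivity)
        _ = δ ^ (p - 1) * c₀ * T := by ring
    refine h5.trans ?_
    rw [hc₀, h4]
    have h8 : 0 < δ ^ (p - 1) * ((2 * a / N) ^ (p - 1) * (p + 1)) := by positivity
    calc δ ^ (p - 1) * ((2 * a / N) ^ (p - 1) * (p + 1) * ((4 * ρ) ^ 2) ^ (-((n + p + 1 : ℝ) / 2)))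
        = δ ^ (p - 1) * ((2 * a / N) ^ (p - 1) * (p + 1)) *
          ((4 * ρ) ^ 2) ^ (-((n + p + 1 : ℝ) / 2)) := by ring
      _ ≤ δ ^ (p - 1) * ((2 * a / N) ^ (p - 1) * (p + 1)) *
          dblS x₁ z.1 ^ (-((n + p + 1 : ℝ) / 2)) := mul_le_mul_of_nonneg_left h3 h8.le
      _ = _ := by ring
  -- the values of the barrier
  have hval : ∀ z : X n, ρ / 2 ≤ ‖z.1 - x₁‖ → Ψ z ≤ δ * ((z.2 - ts + T) / T) := by
    intro z hz
    simp only [hΨ]
    apply mul_le_mul_of_nonneg_left _ hδ.le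
    have h2 : dblS x₁ z.1 ^ (-a) ≤ ((ρ / 2) ^ 2) ^ (-a) := by
      apply Real.rpow_le_rpow_of_nonpos (by positivity) _ (by linarith)
      unfold dblS
      nlinarith [norm_nonneg (z.1 - x₁)]
    have h3 : (dblS x₁ z.1 ^ (-a) - ((4 * ρ) ^ 2) ^ (-a)) / N ≤ 1 := by
      rw [div_le_one hN0, hN]
      linarith
    linarith
  -- the comparison for each ε
  have hcmp : ∀ ε : ℝ, 0 < ε → ∀ᵐ z ∂(volume.restrict Ω), z.2 < ts → Ψ z - ε ≤ v z := by
    intro ε hε
    have hfd : ∀ z, fderiv ℝ (fun z => Ψ z - ε) z = fderiv ℝ Ψ z := fun z => fderiv_sub_const ε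
    apply dbl_cmp hp hΩ (Φ := fun z => Ψ z - ε) (GΦ := GΨ) ((hcd Ω hΩne).sub contDiffOn_const) hGc
      _ hVcd _ hvΩ
    · -- compactness
      intro τ hτ
      set K₀ : Set (X n) := (closedBall x₁ (4 * ρ) ∩ {x | ρ ≤ ‖x - x₁‖}) ×ˢ Icc (ts - T) (ts - τ)
        with hK₀
      have hcl : IsClosed {x : E n | ρ ≤ ‖x - x₁‖} :=
        isClosed_le continuous_const (continuous_id.sub continuous_const).norm
      have hK₀c : IsCompact K₀ :=
        ((isCompact_closedBall x₁ (4 * ρ)).inter_right hcl).prod isCompact_Icc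
      have hK₀ne : ∀ z ∈ K₀, z.1 ≠ x₁ := by
        rintro z ⟨hz1, -⟩ h
        have h2 : ρ ≤ ‖z.1 - x₁‖ := hz1.2
        rw [h, sub_self, norm_zero] at h2
        linarith
      have hcont : ContinuousOn (fun z => Ψ z - ε) K₀ :=
        (hcd K₀ hK₀ne).continuousOn.sub continuousOn_const
      have hDcl := hcont.preimage_isClosed_of_isClosed hK₀c.isClosed (isClosed_Ici (a := (0 : ℝ)))
      refine ⟨K₀ ∩ (fun z => Ψ z - ε) ⁻¹' Ici 0,
        hK₀c.of_isClosed_subset hDcl inter_subset_left, ?_, ?_⟩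
      · rintro z ⟨⟨⟨hz1, hz2⟩, hz3⟩, hz4⟩
        have hz2' : ρ ≤ ‖z.1 - x₁‖ := hz2
        have hz4' : 0 ≤ Ψ z - ε := hz4
        rw [mem_closedBall, dist_eq_norm] at hz1
        have h2 := hval z (by linarith)
        refine ⟨⟨?_, ?_⟩, ?_, ?_⟩
        · rw [mem_ball, dist_eq_norm]
          rcases lt_or_eq_of_le hz1 with h3 | h3
          · exact h3
          · exfalso
            have h4 : Ψ z = δ * (0 - 1 + (z.2 - ts + T) / T) := by
              simp only [hΨ, dblS]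
              rw [h3, sub_self, zero_div]
            have h5 : (z.2 - ts + T) / T ≤ 1 := by
              rw [div_le_one hT0]
              have := hz3.2
              linarith
            have h6 : Ψ z ≤ 0 := by
              rw [h4]
              apply mul_nonpos_of_nonneg_of_nonpos hδ.le
              linarith
            linarith
        · rw [mem_closedBall, dist_eq_norm, not_le]
          linarith
        · rcases lt_or_eq_of_le hz3.1 with h3 | h3
          · exact h3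
          · exfalso
            rw [← h3] at h2
            have h4 : (ts - T - ts + T) / T = 0 := by
              rw [div_eq_zero_iff]
              left
              ring
            rw [h4, mul_zero] at h2
            linarith
        · have := hz3.2
          linarith
      · have hm1 : MeasurableSet (ball x₁ ρ ×ˢ Ioo ta tb) :=
          (isOpen_ball.prod isOpen_Ioo).measurableSet
        have h1' := (ae_restrict_iff' hm1).1 h1
        have h0' : ∀ᵐ z ∂(volume.restrict Ω), 0 ≤ v z := ae_mono (Measure.restrict_mono hΩsub le_rfl) h0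
        filter_upwards [h0', ae_restrict_of_ae h1', ae_restrict_mem hΩ.measurableSet] with z hz0 hz1 hzΩ hlt hτz
        have hmz := hmem z hzΩ
        have hρz : ρ ≤ ‖z.1 - x₁‖ := by
          by_contra hcon
          push Not at hcon
          have h2 : z ∈ ball x₁ ρ ×ˢ Ioo ta tb := by
            refine ⟨?_, (hΩsub hzΩ).2⟩
            rw [mem_ball, dist_eq_norm]
            exact hcon
          have h3 := hz1 h2
          have h4 := hval z hmz.1.le
          have h5 : (z.2 - ts + T) / T ≤ 1 := by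
            rw [div_le_one hT0]
            linarith [hmz.2.2.2]
          have h6 : δ * ((z.2 - ts + T) / T) ≤ δ * 1 := mul_le_mul_of_nonneg_left h5 hδ.le
          linarith
        refine ⟨⟨⟨?_, hρz⟩, ?_, hτz.le⟩, ?_⟩
        · rw [mem_closedBall, dist_eq_norm]
          exact hmz.2.1.le
        · exact hmz.2.2.1.le
        · show 0 ≤ Ψ z - ε
          linarith
    · intro z hz w
      rw [hfd]
      exact hgrad z (hΩne z hz) w
    · intro z hz
      have h2 : dt (fun z => Ψ z - ε) z = dt Ψ z := by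
        unfold dt
        exact deriv_sub_const _
      rw [h2, hdt]
      exact hsub z hz
  have hall : ∀ᵐ z ∂(volume.restrict Ω), ∀ m : ℕ, z.2 < ts → Ψ z - 1 / ((m : ℝ) + 1) ≤ v z :=
    ae_all_iff.2 fun m => hcmp _ (by positivity)
  have hm1 : MeasurableSet (ball x₁ ρ ×ˢ Ioo ta tb) := (isOpen_ball.prod isOpen_Ioo).measurableSet
  filter_upwards [(ae_restrict_iff' hm1).1 h1, (ae_restrict_iff' hΩ.measurableSet).1 hall]
    with z hz1 hz2 hz
  obtain ⟨hzb, hzt⟩ := hz
  rw [mem_ball, dist_eq_norm] at hzb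
  have hts1 := hts.1
  have hts2 := hts.2
  have hz3 := hzt.1
  have hz4 := hzt.2
  have hκT : κ * T ≤ T / 2 := by nlinarith
  by_cases hzρ : ‖z.1 - x₁‖ < ρ
  · have h2 := hz1 ⟨by rw [mem_ball, dist_eq_norm]; exact hzρ, by constructor <;> linarith⟩
    nlinarith
  · push Not at hzρ
    have hzΩ : z ∈ Ω := by
      refine ⟨⟨?_, ?_⟩, ?_, hz4⟩
      · rw [mem_ball, dist_eq_norm]; linarith
      · rw [mem_closedBall, dist_eq_norm, not_le]; linarith
      · linarith
    have h2 : Ψ z ≤ v z := by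
      have h3 := fun m : ℕ => hz2 hzΩ m hz4
      have h4 : Tendsto (fun m : ℕ => Ψ z - 1 / ((m : ℝ) + 1)) atTop (𝓝 (Ψ z - 0)) :=
        tendsto_const_nhds.sub tendsto_one_div_add_atTop_nhds_zero_nat
      rw [sub_zero] at h4
      exact le_of_tendsto' h4 h3
    refine le_trans ?_ h2
    simp only [hΨ]
    rw [mul_comm κ δ]
    apply mul_le_mul_of_nonneg_left _ hδ.le
    have h5 : ((2 * ρ) ^ 2) ^ (-a) ≤ dblS x₁ z.1 ^ (-a) := by
      apply Real.rpow_le_rpow_of_nonpos (dblS_pos x₁ (hΩne z hzΩ)) _ (by linarith)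
      unfold dblS
      nlinarith [norm_nonneg (z.1 - x₁)]
    have h6 : 2 * κ ≤ (dblS x₁ z.1 ^ (-a) - ((4 * ρ) ^ 2) ^ (-a)) / N := by
      rw [hκ, le_div_iff₀ hN0]
      have h7 : 2 * ((((2 * ρ) ^ 2) ^ (-a) - ((4 * ρ) ^ 2) ^ (-a)) / (2 * N)) * N =
          ((2 * ρ) ^ 2) ^ (-a) - ((4 * ρ) ^ 2) ^ (-a) := by
        field_simp
      rw [h7]
      linarith
    have h8 : 1 - κ ≤ (z.2 - ts + T) / T := by
      rw [le_div_iff₀ hT0]
      nlinarith
    linarith

/-- doubling of the radius of positivity -/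
theorem dbl (hn : 0 < n) (hp : 1 < p) {ρ : ℝ} (hρ : 0 < ρ) : ∃ κ C : ℝ, 0 < κ ∧ 0 < C ∧
    ∀ (x₁ : E n) (ta tb c δ T : ℝ) (v : X n → ℝ) (G : X n → E n), 0 < δ → δ ≤ c →
      C * δ ^ (2 - p) ≤ T →
      SupOn p (ball x₁ (4 * ρ) ×ˢ Ioo ta tb) v G →
      (∀ᵐ z ∂(volume.restrict (ball x₁ (4 * ρ) ×ˢ Ioo ta tb)), 0 ≤ v z) →
      (∀ᵐ z ∂(volume.restrict (ball x₁ ρ ×ˢ Ioo ta tb)), c ≤ v z) →
      ∀ᵐ z ∂(volume.restrict (ball x₁ (2 * ρ) ×ˢ Ioo (ta + T) tb)), κ * δ ≤ v z := by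
  have hp1 : 0 < p - 1 := by linarith
  set a : ℝ := (n + 1 : ℝ) / (2 * (p - 1)) with ha
  have ha0 : 0 < a := by rw [ha]; positivity
  set N : ℝ := ((ρ / 2) ^ 2) ^ (-a) - ((4 * ρ) ^ 2) ^ (-a) with hN
  set κ : ℝ := (((2 * ρ) ^ 2) ^ (-a) - ((4 * ρ) ^ 2) ^ (-a)) / (2 * N) with hκ
  set c₀ : ℝ := (2 * a / N) ^ (p - 1) * (p + 1) * ((4 * ρ) ^ 2) ^ (-((n + p + 1 : ℝ) / 2)) with hc₀
  have hmono : ∀ r1 r2 : ℝ, 0 < r1 → r1 < r2 → (r2 ^ 2) ^ (-a) < (r1 ^ 2) ^ (-a) := by
    intro r1 r2 h1 h2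
    exact Real.rpow_lt_rpow_of_neg (by positivity) (by nlinarith) (by linarith)
  have hN0 : 0 < N := by
    rw [hN]
    have := hmono (ρ / 2) (4 * ρ) (by positivity) (by linarith)
    linarith
  have hκ0 : 0 < κ := by
    rw [hκ]
    have := hmono (2 * ρ) (4 * ρ) (by positivity) (by linarith)
    apply div_pos (by linarith) (by positivity)
  have hc₀0 : 0 < c₀ := by rw [hc₀]; positivity
  refine ⟨κ, c₀⁻¹, hκ0, inv_pos.2 hc₀0, ?_⟩
  intro x₁ ta tb c δ T v G hδ hδc hT hv h0 h1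
  have hδp : 0 < δ ^ (2 - p) := Real.rpow_pos_of_pos hδ _
  have hT0 : 0 < T := lt_of_lt_of_le (by positivity) hT
  have hq : ∀ᵐ z : X n, ∀ q : ℚ, (q : ℝ) ∈ Ioo (ta + T) tb →
      z ∈ ball x₁ (2 * ρ) ×ˢ Ioo ((q : ℝ) - κ * T) q → κ * δ ≤ v z := by
    rw [ae_all_iff]
    intro q
    by_cases hqm : (q : ℝ) ∈ Ioo (ta + T) tb
    · filter_upwards [dbl_one hp hρ ha hN hκ hc₀ hδ hδc hT hv h0 h1 hqm] with z hz _ using hz
    · exact Eventually.of_forall fun z h => absurd h hqm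
  rw [ae_restrict_iff' (isOpen_ball.prod isOpen_Ioo).measurableSet]
  filter_upwards [hq] with z hz hzm
  obtain ⟨hz1, hz2⟩ := hzm
  obtain ⟨q, hq1, hq2⟩ := exists_rat_btwn (show z.2 < min tb (z.2 + κ * T) from
    lt_min hz2.2 (by have := mul_pos hκ0 hT0; linarith))
  refine hz q ⟨by linarith [hz2.1], lt_of_lt_of_le hq2 (min_le_left _ _)⟩ ⟨hz1, ?_, hq1⟩
  have := lt_of_lt_of_le hq2 (min_le_right _ _)
  linarith

end PP
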