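import Pool.Agent.PP.CAL1
import Pool.Agent.PP.AVG1
import Pool.Agent.PP.LPS

/-!
Auxiliary facts on `L^q` convergence, shifts and averages used in `DOMJ` and `DOML`.
-/

open Set Metric Filter Topology MeasureTheory
open scoped ContDiff

noncomputable section

set_option linter.unusedSectionVars false

namespace PP

variable {n : ℕ}
variable {F : Type*} [NormedAddCommGroup F] [NormedSpace ℝ F]

theorem domh_ne {q : ℝ} (hq : 1 ≤ q) : ENNReal.ofReal q ≠ 0 := by
  rw [Ne, ENNReal.ofReal_eq_zero]; linarith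

theorem domh_one {q : ℝ} (hq : 1 ≤ q) : (1 : ENNReal) ≤ ENNReal.ofReal q := by
  rw [← ENNReal.ofReal_one]; exact ENNReal.ofReal_le_ofReal hq

theorem domh_int {q : ℝ} (hq : 1 ≤ q) {f : X n → F} (hf : MemLp f (ENNReal.ofReal q) volume) :
    eLpNorm f (ENNReal.ofReal q) volume = ENNReal.ofReal ((∫ z, ‖f z‖ ^ q) ^ (q⁻¹)) := by
  have h := hf.eLpNorm_eq_integral_rpow_norm (domh_ne hq) ENNReal.ofReal_ne_top
  rwa [ENNReal.toReal_ofReal (by linarith)] at h

theorem domh_int' {q : ℝ} (hq : 1 ≤ q) {f : X n → F} (hf : MemLp f (ENNReal.ofReal q) volume) :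
    ∫ z, ‖f z‖ ^ q = (eLpNorm f (ENNReal.ofReal q) volume).toReal ^ q := by
  have h0 : (0 : ℝ) < q := by linarith
  have h1 : 0 ≤ ∫ z, ‖f z‖ ^ q := integral_nonneg fun z => by positivity
  rw [domh_int hq hf, ENNReal.toReal_ofReal (by positivity), ← Real.rpow_mul h1,
    inv_mul_cancel₀ h0.ne', Real.rpow_one]

/-- integral and norm forms of `L^q` convergence -/
theorem domh_iff {q : ℝ} (hq : 1 ≤ q) {ι : Type*} {l : Filter ι} {f : ι → X n → F}
    (hf : ∀ k, MemLp (f k) (ENNReal.ofReal q) volume) :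
    Tendsto (fun k => ∫ z, ‖f k z‖ ^ q) l (𝓝 0) ↔
      Tendsto (fun k => eLpNorm (f k) (ENNReal.ofReal q) volume) l (𝓝 0) := by
  have h0 : (0 : ℝ) < q := by linarith
  constructor
  · intro h
    have h1 := (ENNReal.continuous_ofReal.tendsto _).comp (h.rpow_const (p := q⁻¹)
      (Or.inr (by positivity)))
    rw [Real.zero_rpow (by positivity), ENNReal.ofReal_zero] at h1
    refine h1.congr fun k => ?_
    rw [domh_int hq (hf k)]
    rfl
  · intro h
    have h1 := ((ENNReal.tendsto_toReal ENNReal.zero_ne_top).comp h).rpow_const (p := q)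
      (Or.inr h0.le)
    rw [ENNReal.toReal_zero, Real.zero_rpow h0.ne'] at h1
    refine h1.congr fun k => ?_
    rw [domh_int' hq (hf k)]
    rfl

/-- almost every point of almost every vertical line -/
theorem domh_ae_shift {P : X n → Prop} (h : ∀ᵐ z, P z) :
    ∀ᵐ z : X n, ∀ᵐ r : ℝ, P (z.1, z.2 + r) := by
  have := der_haar (n := n)
  set N := toMeasurable volume {z : X n | ¬ P z} with hN
  have hN0 : volume N = 0 := by
    rw [hN, measure_toMeasurable]
    exact h
  have hsub : ∀ z, z ∉ N → P z := by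
    intro z hz
    by_contra hP
    exact hz (subset_toMeasurable _ _ hP)
  have h1 : ∀ r : ℝ, ∀ᵐ z : X n, (z.1, z.2 + r) ∉ N := fun r =>
    (cal1_mp r).quasiMeasurePreserving.ae (measure_eq_zero_iff_ae_notMem.1 hN0)
  have hm : MeasurableSet {x : X n × ℝ | (x.1.1, x.1.2 + x.2) ∉ N} := by
    have hc : Measurable (fun x : X n × ℝ => (x.1.1, x.1.2 + x.2)) :=
      Continuous.measurable (by fun_prop)
    exact hc (measurableSet_toMeasurable _ _).compl
  have h2 := (Measure.ae_ae_comm (μ := (volume : Measure (X n))) (ν := (volume : Measure ℝ))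
    (p := fun z r => (z.1, z.2 + r) ∉ N) hm).2 (Eventually.of_forall h1)
  filter_upwards [h2] with z hz
  filter_upwards [hz] with r hr
  exact hsub _ hr

theorem domh_av_congr {f g : X n → F} (h : ∀ᵐ z, f z = g z) (s : ℝ) :
    ∀ᵐ z, av s f z = av s g z := by
  filter_upwards [domh_ae_shift h] with z hz
  unfold av
  congr 1
  exact intervalIntegral.integral_congr_ae (hz.mono fun r hr _ => hr)

theorem domh_av_bdd {f : X n → ℝ} {M : ℝ} (h : ∀ᵐ z, |f z| ≤ M) {s : ℝ} (hs : s ≠ 0) :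
    ∀ᵐ z, |av s f z| ≤ M := by
  filter_upwards [domh_ae_shift h] with z hz
  unfold av
  have h1 : ‖∫ r in (0 : ℝ)..s, f (z.1, z.2 + r)‖ ≤ M * |s - 0| :=
    intervalIntegral.norm_integral_le_of_norm_le_const_ae (hz.mono fun r hr _ => by
      simpa using hr)
  rw [smul_eq_mul, abs_mul, abs_inv]
  rw [sub_zero, Real.norm_eq_abs] at h1
  have h2 : 0 < |s| := abs_pos.2 hs
  calc |s|⁻¹ * |∫ r in (0 : ℝ)..s, f (z.1, z.2 + r)| ≤ |s|⁻¹ * (M * |s|) :=
        mul_le_mul_of_nonneg_left h1 (by positivity)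
    _ = M := by field_simp

variable [CompleteSpace F]

/-- almost every vertical slice is integrable -/
theorem domh_slice {q : ℝ} (hq : 1 ≤ q) {f : X n → F}
    (hf : MemLp f (ENNReal.ofReal q) volume) (s : ℝ) :
    ∀ᵐ z : X n, IntervalIntegrable (fun r => f (z.1, z.2 + r)) volume 0 s := by
  have hfin : ∫⁻ z, ‖f z‖ₑ ^ q < ⊤ := (AVG1_memLp_iff hq hf.1).1 hf
  have hm := AVG1_meas hf.1 (volume.restrict (Set.uIoc 0 s))
  have h2 : ∫⁻ z : X n, ∫⁻ r in Set.uIoc 0 s, ‖f (z.1, z.2 + r)‖ₑ ^ q < ⊤ := by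
    rw [lintegral_lintegral_swap (hm.prod_swap.enorm.pow_const q)]
    simp only [AVG1_shift_lintegral]
    rw [setLIntegral_const, Real.volume_uIoc]
    exact ENNReal.mul_lt_top hfin ENNReal.ofReal_lt_top
  have h3 : AEMeasurable (fun z : X n => ∫⁻ r in Set.uIoc 0 s, ‖f (z.1, z.2 + r)‖ₑ ^ q)
      volume := (hm.prod_swap.enorm.pow_const q).lintegral_prod_right'
  filter_upwards [ae_lt_top' h3 h2.ne, hm.prod_swap.prodMk_left] with z hz hz2
  rw [intervalIntegrable_iff]
  have h4 : MemLp (fun r => f (z.1, z.2 + r)) (ENNReal.ofReal q)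
      (volume.restrict (Set.uIoc 0 s)) := (AVG1_memLp_iff hq hz2).2 hz
  have : IsFiniteMeasure (volume.restrict (Set.uIoc 0 s)) := by
    constructor
    rw [Measure.restrict_apply_univ, Real.volume_uIoc]
    exact ENNReal.ofReal_lt_top
  exact h4.integrable (domh_one hq)

theorem domh_av_sub {q : ℝ} (hq : 1 ≤ q) {f g : X n → F}
    (hf : MemLp f (ENNReal.ofReal q) volume) (hg : MemLp g (ENNReal.ofReal q) volume) (s : ℝ) :
    ∀ᵐ z, av s (fun y => f y - g y) z = av s f z - av s g z := by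
  filter_upwards [domh_slice hq hf s, domh_slice hq hg s] with z h1 h2
  unfold av
  rw [intervalIntegral.integral_sub h1 h2, smul_sub]

theorem domh_av_norm {q : ℝ} (hq : 1 ≤ q) {f : X n → F}
    (hf : MemLp f (ENNReal.ofReal q) volume) {s : ℝ} (hs : s ≠ 0) :
    eLpNorm (av s f) (ENNReal.ofReal q) volume ≤ eLpNorm f (ENNReal.ofReal q) volume := by
  obtain ⟨h1, h2⟩ := av_memLp hq hf hs
  rw [domh_int hq h1, domh_int hq hf]
  apply ENNReal.ofReal_le_ofReal
  apply Real.rpow_le_rpow (integral_nonneg fun z => by positivity) h2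
  rw [inv_nonneg]; linarith

/-- averages of a convergent sequence over shrinking intervals -/
theorem domh_av_lim {q : ℝ} (hq : 1 ≤ q) {f : ℕ → X n → F} {g : X n → F}
    (hf : ∀ k, MemLp (f k) (ENNReal.ofReal q) volume) (hg : MemLp g (ENNReal.ofReal q) volume)
    (h : Tendsto (fun k => eLpNorm (fun z => f k z - g z) (ENNReal.ofReal q) volume) atTop (𝓝 0))
    {s : ℕ → ℝ} (hs0 : ∀ k, s k ≠ 0) (hs : Tendsto s atTop (𝓝 0)) :
    Tendsto (fun k => eLpNorm (fun z => av (s k) (f k) z - g z) (ENNReal.ofReal q) volume)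
      atTop (𝓝 0) := by
  have hs' : Tendsto s atTop (𝓝[≠] 0) :=
    tendsto_nhdsWithin_iff.2 ⟨hs, Eventually.of_forall hs0⟩
  have h1 : Tendsto (fun k => ∫ z, ‖av (s k) g z - g z‖ ^ q) atTop (𝓝 0) :=
    (av_tendsto hq hg).comp hs'
  have h2 := (domh_iff hq (f := fun k z => av (s k) g z - g z)
    (fun k => ((av_memLp hq hg (hs0 k)).1.sub hg))).1 h1
  have h3 := h.add h2
  rw [add_zero] at h3
  refine tendsto_of_tendsto_of_tendsto_of_le_of_le tendsto_const_nhds h3 (fun _ => zero_le) ?_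
  intro k
  have hfg : MemLp (fun z => f k z - g z) (ENNReal.ofReal q) volume := (hf k).sub hg
  have e : (fun z => av (s k) (f k) z - g z) =ᵐ[volume]
      (fun z => av (s k) (fun y => f k y - g y) z + (av (s k) g z - g z)) := by
    filter_upwards [domh_av_sub hq (hf k) hg (s k)] with z hz
    rw [hz]; abel
  show eLpNorm (fun z => av (s k) (f k) z - g z) (ENNReal.ofReal q) volume ≤
    eLpNorm (fun z => f k z - g z) (ENNReal.ofReal q) volume +
      eLpNorm (fun z => av (s k) g z - g z) (ENNReal.ofReal q) volume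
  rw [eLpNorm_congr_ae e]
  exact (eLpNorm_add_le (av_memLp hq hfg (hs0 k)).1.1
    ((av_memLp hq hg (hs0 k)).1.sub hg).1 (domh_one hq)).trans
    (add_le_add (domh_av_norm hq hfg (hs0 k)) le_rfl)

/-- time shifts converge -/
theorem domh_sh_lim {q : ℝ} (hq : 1 ≤ q) {f : X n → F} (hf : MemLp f (ENNReal.ofReal q) volume)
    {s : ℕ → ℝ} (hs : Tendsto s atTop (𝓝 0)) :
    Tendsto (fun k => eLpNorm (fun z => sh (s k) f z - f z) (ENNReal.ofReal q) volume)
      atTop (𝓝 0) := by
  have h1 : Tendsto (fun k => ((0, s k) : X n)) atTop (𝓝 0) := by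
    have : Tendsto (fun k => ((0, s k) : X n)) atTop (𝓝 ((0 : E n), (0 : ℝ))) :=
      tendsto_const_nhds.prodMk_nhds hs
    exact this
  have h2 := (shift_tendsto hq hf).comp h1
  refine (domh_iff hq (f := fun k z => sh (s k) f z - f z) (fun k => ?_)).1 ?_
  · exact (hf.comp_measurePreserving (cal1_mp (s k))).sub hf
  · refine h2.congr fun k => ?_
    simp only [Function.comp_apply, sh]
    refine integral_congr_ae (Eventually.of_forall fun z => ?_)
    have : z + ((0, s k) : X n) = (z.1, z.2 + s k) := by ext1 <;> simp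
    simp only [this]

/-- Hölder: `L^p` convergence against a fixed field in the dual space -/
theorem domh_dual {p : ℝ} (hp : 1 < p) {Γ : X n → E n}
    (hΓ : MemLp Γ (ENNReal.ofReal (cj p)) volume) {G : ℕ → X n → E n} {H : X n → E n}
    (hG : ∀ k, MemLp (G k) (ENNReal.ofReal p) volume) (hH : MemLp H (ENNReal.ofReal p) volume)
    (h : Tendsto (fun k => eLpNorm (fun z => G k z - H z) (ENNReal.ofReal p) volume)
      atTop (𝓝 0)) :
    Tendsto (fun k => ∫ z, inner ℝ (Γ z) (G k z)) atTop (𝓝 (∫ z, inner ℝ (Γ z) (H z))) := by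
  have h1 := (domh_iff hp.le (f := fun k z => G k z - H z) (fun k => (hG k).sub hH)).2 h
  have h2 : Tendsto (fun k => (∫ z, ‖Γ z‖ ^ cj p) ^ (1 / cj p) *
      (∫ z, ‖G k z - H z‖ ^ p) ^ (1 / p)) atTop (𝓝 0) := by
    have h3 := (h1.rpow_const (p := 1 / p) (Or.inr (by positivity))).const_mul
      ((∫ z, ‖Γ z‖ ^ cj p) ^ (1 / cj p))
    rwa [Real.zero_rpow (by positivity), mul_zero] at h3
  rw [tendsto_iff_norm_sub_tendsto_zero]
  refine squeeze_zero (fun _ => norm_nonneg _) (fun k => ?_) h2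
  have h4 := holder_inner hp hΓ (hG k)
  have h5 := holder_inner hp hΓ hH
  have h6 := holder_inner hp hΓ ((hG k).sub hH)
  rw [← integral_sub h4.1 h5.1, Real.norm_eq_abs]
  refine le_trans (le_of_eq ?_) h6.2
  congr 1
  refine integral_congr_ae (Eventually.of_forall fun z => ?_)
  simp only [Pi.sub_apply, inner_sub_right]

end PP
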