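import Pool.Agent.PP.EXT1
import Pool.Agent.PP.CAL4

open Set Metric Filter Topology MeasureTheory
open scoped ContDiff

noncomputable section

namespace PP

variable {n : ℕ}
variable {p : ℝ}

theorem ext2_haar : (volume : Measure (X n)).IsAddHaarMeasure :=
  inferInstanceAs ((volume : Measure (E n)).prod (volume : Measure ℝ)).IsAddHaarMeasure

attribute [local instance] ext2_haar

theorem ext2_shift_mp (s : ℝ) :
    MeasurePreserving (fun z : X n => (z.1, z.2 + s)) (volume : Measure (X n)) volume := by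
  have h2 := measurePreserving_add_right (volume : Measure (X n)) ((0 : E n), s)
  have h3 : (fun x : X n => x + ((0 : E n), s)) = fun z : X n => (z.1, z.2 + s) := by
    funext z
    ext1
    · simp
    · simp
  rwa [h3] at h2

theorem ext2_av_nonneg {φ : X n → ℝ} (h0 : ∀ᵐ z, 0 ≤ φ z) {s : ℝ} (hs : 0 < s) :
    ∀ᵐ z, 0 ≤ av s φ z := by
  have h1 : MeasurePreserving (fun q : ℝ × X n => (q.1, (q.2.1, q.2.2 + q.1)))
      ((volume.restrict (uIoc 0 s)).prod (volume : Measure (X n)))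
      ((volume.restrict (uIoc 0 s)).prod (volume : Measure (X n))) := by
    refine (MeasurePreserving.id _).skew_product (g := fun (r : ℝ) (z : X n) => (z.1, z.2 + r))
      ?_ ?_
    · exact (Continuous.measurable (by fun_prop))
    · filter_upwards with r
      exact (ext2_shift_mp r).map_eq
  have h2 : ∀ᵐ q ∂((volume.restrict (uIoc 0 s)).prod (volume : Measure (X n))), 0 ≤ φ q.2 :=
    Measure.quasiMeasurePreserving_snd.ae h0
  have h3 : ∀ᵐ q ∂((volume.restrict (uIoc 0 s)).prod (volume : Measure (X n))),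
      0 ≤ φ (q.2.1, q.2.2 + q.1) := h1.quasiMeasurePreserving.ae h2
  have h4 : ∀ᵐ q ∂((volume : Measure (X n)).prod (volume.restrict (uIoc 0 s))),
      0 ≤ φ (q.1.1, q.1.2 + q.2) := by
    have := (Measure.measurePreserving_swap (μ := (volume : Measure (X n)))
      (ν := volume.restrict (uIoc 0 s))).quasiMeasurePreserving.ae h3
    exact this
  filter_upwards [Measure.ae_ae_of_ae_prod h4] with z hz
  unfold av
  rw [intervalIntegral.integral_of_le hs.le, ← uIoc_of_le hs.le, smul_eq_mul]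
  exact mul_nonneg (inv_nonneg.2 hs.le) (integral_nonneg_of_ae hz)

/-- integrability of the products with shifts -/
theorem ext2_int {Ω C D : Set (X n)} (hD : IsCompact D) (hDΩ : D ⊆ Ω) {s : ℝ}
    (hs : 0 ≤ s)
    (hCD : ∀ z : X n, ∀ r ∈ Icc 0 s, (z.1, z.2 + r) ∈ C → z ∈ D)
    {u : X n → ℝ} (hum : AEStronglyMeasurable u (volume.restrict Ω))
    (hu : ∃ M : ℝ, ∀ᵐ z ∂(volume.restrict Ω), |u z| ≤ M)
    {φ : X n → ℝ} {Φ : X n → E n} (hφ : W0 p C φ Φ) :
    Integrable (fun z => φ z * u z) volume ∧ Integrable (fun z => sh s φ z * u z) volume ∧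
      Integrable (fun z => φ z * sh (-s) u z) volume := by
  obtain ⟨Mu, hMu⟩ := hu
  obtain ⟨M, hM⟩ := hφ.bdd
  have hDm : MeasurableSet D := hD.isClosed.measurableSet
  have hfin : IsFiniteMeasure (volume.restrict D) :=
    ⟨by rw [Measure.restrict_apply_univ]; exact hD.measure_lt_top⟩
  have huD : AEStronglyMeasurable u (volume.restrict D) :=
    hum.mono_measure (Measure.restrict_mono_set _ hDΩ)
  have hMuD : ∀ᵐ z ∂(volume.restrict D), |u z| ≤ Mu :=
    ae_mono (Measure.restrict_mono_set _ hDΩ) hMu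
  -- products with bounded functions vanishing off `D`
  have key : ∀ g : X n → ℝ, AEStronglyMeasurable g volume → (∀ᵐ z, |g z| ≤ M) →
      (∀ᵐ z, z ∉ D → g z = 0) → Integrable (fun z => g z * u z) volume := by
    intro g hg hgM hg0
    have h1 : IntegrableOn (fun z => g z * u z) D volume := by
      refine Integrable.of_bound (C := M * Mu) (hg.restrict.mul huD) ?_
      filter_upwards [ae_restrict_of_ae hgM, hMuD] with z h1 h2
      rw [norm_mul, Real.norm_eq_abs, Real.norm_eq_abs]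
      exact mul_le_mul h1 h2 (abs_nonneg _) ((abs_nonneg _).trans h1)
    have h2 : Integrable (D.indicator fun z => g z * u z) volume := (integrable_indicator_iff hDm).2 h1
    refine h2.congr ?_
    filter_upwards [hg0] with z hz
    by_cases hzD : z ∈ D
    · rw [indicator_of_mem hzD]
    · rw [indicator_of_notMem hzD, hz hzD, zero_mul]
  have c0 : ∀ z, z ∈ C → z ∈ D := fun z hz => hCD z 0 ⟨le_rfl, hs⟩ (by simpa using hz)
  have cs : ∀ z : X n, (z.1, z.2 + s) ∈ C → z ∈ D := fun z hz => hCD z s ⟨hs, le_rfl⟩ hz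
  have i1 : Integrable (fun z => φ z * u z) volume := key φ hφ.meas hM (by
    filter_upwards [hφ.zero] with z hz hzD
    exact hz fun h => hzD (c0 z h))
  have hq := (ext2_shift_mp (n := n) s).quasiMeasurePreserving
  have i2 : Integrable (fun z => sh s φ z * u z) volume := by
    refine key (sh s φ) (hφ.meas.comp_quasiMeasurePreserving hq) (hq.ae hM) ?_
    filter_upwards [hq.ae hφ.zero] with z hz hzD
    exact hz fun h => hzD (cs z h)
  -- translation
  have e1 : (fun z : X n => φ z * sh (-s) u z) =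
      (fun z => sh s φ z * u z) ∘ fun z : X n => (z.1, z.2 + (-s)) := by
    funext z
    simp only [sh, Function.comp_apply]
    congr 2
    ext1
    · simp
    · simp
  refine ⟨i1, i2, ?_⟩
  rw [e1]
  exact (ext2_shift_mp (n := n) (-s)).integrable_comp_of_integrable i2

/-- translation of integrals -/
theorem ext2_shift_integral (g : X n → ℝ) (s : ℝ) :
    ∫ z : X n, g (z.1, z.2 + s) = ∫ z, g z := by
  have hmp := ext2_shift_mp (n := n) s
  have h5 : MeasurableEmbedding (fun z : X n => (z.1, z.2 + s)) := by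
    have h6 : (fun z : X n => (z.1, z.2 + s)) = fun x : X n => x + ((0 : E n), s) := by
      funext z
      ext1
      · simp
      · simp
    rw [h6]
    exact measurableEmbedding_addRight _
  exact hmp.integral_comp h5 g

/-- the duality of the difference quotients -/
theorem ext2_dual {Ω C D : Set (X n)} (hD : IsCompact D) (hDΩ : D ⊆ Ω) {s : ℝ}
    (hs : 0 ≤ s)
    (hCD : ∀ z : X n, ∀ r ∈ Icc 0 s, (z.1, z.2 + r) ∈ C → z ∈ D)
    {u : X n → ℝ} (hum : AEStronglyMeasurable u (volume.restrict Ω))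
    (hu : ∃ M : ℝ, ∀ᵐ z ∂(volume.restrict Ω), |u z| ≤ M)
    {φ : X n → ℝ} {Φ : X n → E n} (hφ : W0 p C φ Φ) :
    s⁻¹ * ∫ z, φ z * (u z - sh (-s) u z) = - ∫ z, u z * (s⁻¹ * (sh s φ z - φ z)) := by
  obtain ⟨i1, i2, i3⟩ := ext2_int hD hDΩ hs hCD hum hu hφ
  have e2 : ∫ z, φ z * sh (-s) u z = ∫ z, sh s φ z * u z := by
    rw [← ext2_shift_integral (fun z : X n => φ z * sh (-s) u z) s]
    congr 1
    funext z
    simp [sh]
  have e3 : ∫ z, φ z * (u z - sh (-s) u z) = (∫ z, φ z * u z) - ∫ z, sh s φ z * u z := by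
    rw [← e2, ← integral_sub i1 i3]
    congr 1
    funext z
    ring
  have e4 : ∫ z, u z * (s⁻¹ * (sh s φ z - φ z)) =
      s⁻¹ * ((∫ z, sh s φ z * u z) - ∫ z, φ z * u z) := by
    rw [← integral_sub i2 i1, ← integral_const_mul]
    congr 1
    funext z
    ring
  rw [e3, e4]
  ring

/-- backward difference quotient form of a differential inequality -/
theorem shf_ineq (hp : 1 < p) {Ω C D : Set (X n)} (hΩ : IsOpen Ω) (hC : IsCompact C)
    (hD : IsCompact D) (hDΩ : D ⊆ Ω) {s : ℝ} (hs : 0 < s)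
    (hCD : ∀ z : X n, ∀ r ∈ Icc 0 s, (z.1, z.2 + r) ∈ C → z ∈ D)
    {u e : X n → ℝ} {Γ : X n → E n} (hum : AEStronglyMeasurable u (volume.restrict Ω))
    (hu : ∃ M : ℝ, ∀ᵐ z ∂(volume.restrict Ω), |u z| ≤ M)
    (hΓ : ∀ K, IsCompact K → K ⊆ Ω → MemLp Γ (ENNReal.ofReal (cj p)) (volume.restrict K))
    (he : ∀ K, IsCompact K → K ⊆ Ω → IntegrableOn e K volume) (h : DI Ω u Γ e)
    {φ : X n → ℝ} {Φ : X n → E n} (hφ : W0 p C φ Φ) (h0 : ∀ᵐ z, 0 ≤ φ z) :
    s⁻¹ * ∫ z, φ z * (u z - sh (-s) u z) ≤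
      (- ∫ z, inner ℝ (Γ z) (av s Φ z)) + ∫ z, e z * av s φ z := by
  have hW := W0.avg hp hC.isBounded hφ hs.ne' (D := D) (by
    intro z r hr
    rw [uIcc_of_le hs.le] at hr
    exact hCD z r hr)
  have h1 := ext_ineq hp hΩ hD hDΩ hum hu hΓ he h hW (ext2_av_nonneg h0 hs)
  rw [ext2_dual hD hDΩ hs.le hCD hum hu hφ]
  linarith

/-- backward difference quotient form of an equation -/
theorem shf_eq (hp : 1 < p) {Ω C D : Set (X n)} (hΩ : IsOpen Ω) (hC : IsCompact C)
    (hD : IsCompact D) (hDΩ : D ⊆ Ω) {s : ℝ} (hs : 0 < s)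
    (hCD : ∀ z : X n, ∀ r ∈ Icc 0 s, (z.1, z.2 + r) ∈ C → z ∈ D)
    {u : X n → ℝ} {Γ : X n → E n} (hum : AEStronglyMeasurable u (volume.restrict Ω))
    (hu : ∃ M : ℝ, ∀ᵐ z ∂(volume.restrict Ω), |u z| ≤ M)
    (hΓ : ∀ K, IsCompact K → K ⊆ Ω → MemLp Γ (ENNReal.ofReal (cj p)) (volume.restrict K))
    (h : ∀ φ, Tst Ω φ → ∫ z, inner ℝ (Γ z) (dx φ z) = ∫ z, u z * dt φ z)
    {φ : X n → ℝ} {Φ : X n → E n} (hφ : W0 p C φ Φ) :
    s⁻¹ * ∫ z, φ z * (u z - sh (-s) u z) = - ∫ z, inner ℝ (Γ z) (av s Φ z) := by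
  have hW := W0.avg hp hC.isBounded hφ hs.ne' (D := D) (by
    intro z r hr
    rw [uIcc_of_le hs.le] at hr
    exact hCD z r hr)
  have h1 := ext_eq hp hΩ hD hDΩ hum hu hΓ h hW
  rw [ext2_dual hD hDΩ hs.le hCD hum hu hφ, h1]

end PP
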