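import Pool.Agent.PP.DOMP
import Pool.Agent.PP.EXT2
import Pool.Agent.PP.CAL2
import Pool.Agent.PP.CAL3
import Pool.Agent.PP.LOC
import Pool.Agent.PP.AVG1
import Pool.Agent.PP.DOMH

open Set Metric Filter Topology MeasureTheory
open scoped ContDiff

noncomputable section

namespace PP

variable {n : ℕ}
variable {p : ℝ}

/-- the truncation `min w χ` -/
theorem domj_min (hp : 1 < p) {Θ C : Set (X n)} (hb : Bornology.IsBounded Θ) (hCΘ : C ⊆ Θ)
    {w χ : X n → ℝ} {W X' : X n → E n} (hw : W0 p Θ w W) (hw0 : ∀ᵐ y, 0 ≤ w y)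
    (hχ : W0 p C χ X') :
    W0 p Θ (fun z => max (w z - χ z) 0) (fun z => if χ z < w z then W z - X' z else 0) ∧
    W0 p C (fun z => min (w z) (χ z)) (fun z => if w z ≤ χ z then W z else X' z) := by
  have hd := hw.lin hp hb (hχ.mono hCΘ) 1 (-1)
  have h1 : W0 p Θ (fun z => max (w z - χ z) 0) (fun z => if χ z < w z then W z - X' z else 0) := by
    refine (hd.pos hp hb).congr (Eventually.of_forall fun z => ?_)
      (Eventually.of_forall fun z => ?_)
    · have : (1 : ℝ) * w z + (-1) * χ z = w z - χ z := by ring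
      simp only [this]
    · have : (1 : ℝ) * w z + (-1) * χ z = w z - χ z := by ring
      simp only [this, sub_pos]
      split_ifs
      · rw [one_smul, neg_one_smul, sub_eq_add_neg]
      · rfl
  refine ⟨h1, ?_⟩
  have h2 := hw.lin hp hb h1 1 (-1)
  have h3 : W0 p Θ (fun z => min (w z) (χ z)) (fun z => if w z ≤ χ z then W z else X' z) := by
    refine h2.congr (Eventually.of_forall fun z => ?_) (Eventually.of_forall fun z => ?_)
    · show (1 : ℝ) * w z + (-1) * max (w z - χ z) 0 = min (w z) (χ z)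
      rcases le_total (w z) (χ z) with h | h
      · rw [max_eq_right (by linarith), min_eq_left h]; ring
      · rw [max_eq_left (by linarith), min_eq_right h]; ring
    · show (1 : ℝ) • W z + (-1 : ℝ) • (if χ z < w z then W z - X' z else 0) =
        if w z ≤ χ z then W z else X' z
      rcases le_or_gt (w z) (χ z) with h | h
      · rw [if_neg (not_lt.2 h), if_pos h, smul_zero, add_zero, one_smul]
      · rw [if_pos h, if_neg (not_le.2 h), one_smul, neg_one_smul]; abel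
  refine h3.of_zero ?_
  filter_upwards [hχ.zero, hw0] with z hz hz0 hzC
  rw [hz hzC, min_eq_right hz0]

/-- the product `Hp δ χ * (w - χ)⁺` -/
theorem domj_Z (hp : 1 < p) {Θ C : Set (X n)} (hb : Bornology.IsBounded Θ) (hCΘ : C ⊆ Θ)
    {w χ : X n → ℝ} {W X' : X n → E n} (hw : W0 p Θ w W) (hw0 : ∀ᵐ y, 0 ≤ w y)
    (hχ : W0 p C χ X') {δ : ℝ} (hδ : 0 < δ) :
    W0 p Θ (fun y => Hp δ (χ y) * max (w y - χ y) 0)
      (fun y => (Hpp δ (χ y) * max (w y - χ y) 0) • X' y +
          Hp δ (χ y) • (if χ y < w y then W y - X' y else 0)) := by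
  obtain ⟨h1, -⟩ := domj_min hp hb hCΘ hw hw0 hχ
  obtain ⟨-, -, hH1, -, hH2, -⟩ := Hd_facts hδ
  have hCb : Bornology.IsBounded C := hb.subset hCΘ
  have hf : ContDiff ℝ 1 (fun r => Hp δ r - Hp δ 0) := hH1.sub contDiff_const
  have h2 := (hχ.comp hp hCb hf (by simp)).mono hCΘ
  have h3 := h1.mul hp hb h2
  have h4 := h3.lin hp hb h1 1 (Hp δ 0)
  refine h4.congr (Eventually.of_forall fun z => ?_) (Eventually.of_forall fun z => ?_)
  · ring
  · have e : deriv (fun r => Hp δ r - Hp δ 0) (χ z) = Hpp δ (χ z) := by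
      rw [deriv_sub_const]; exact (hH2 _).deriv
    simp only [e]
    module

theorem domj_dt {ψ : X n → ℝ} (hψ : Tst univ ψ) : ∃ B : ℝ, 0 ≤ B ∧
    (∀ (h : ℝ), 0 < h → ∀ z, |h⁻¹ * (sh h ψ z - ψ z)| ≤ B) ∧
    ∀ z, Tendsto (fun h => h⁻¹ * (sh h ψ z - ψ z)) (𝓝[≠] 0) (𝓝 (dt ψ z)) := by
  obtain ⟨c1, s1, c2, s2⟩ := der_tst_int hψ
  obtain ⟨B, hB⟩ := c2.bounded_above_of_compact_support s2
  have hd : ∀ (z : X n) (t : ℝ), DifferentiableAt ℝ (fun t => ψ (z.1, t)) t := by
    intro z t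
    have a4 : ContDiff ℝ ∞ fun t : ℝ => ψ (z.1, t) :=
      hψ.smooth.comp (contDiff_const.prodMk contDiff_id)
    exact (a4.differentiable (by simp)).differentiableAt
  refine ⟨B, (norm_nonneg _).trans (hB 0), fun h hh z => ?_, fun z => ?_⟩
  · have h1 := Convex.norm_image_sub_le_of_norm_deriv_le (f := fun t => ψ (z.1, t)) (C := B)
      (s := univ) (x := z.2) (y := z.2 + h) (fun t _ => hd z t) (fun t _ => hB (z.1, t))
      convex_univ (mem_univ _) (mem_univ _)
    rw [abs_mul, abs_inv, abs_of_pos hh]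
    rw [add_sub_cancel_left, Real.norm_of_nonneg hh.le, Real.norm_eq_abs] at h1
    calc h⁻¹ * |sh h ψ z - ψ z| ≤ h⁻¹ * (B * h) :=
          mul_le_mul_of_nonneg_left h1 (by positivity)
      _ = B := by field_simp
  · exact (hd z z.2).hasDerivAt.tendsto_slope_zero

theorem domj_Pm {δ : ℝ} (hδ : 0 < δ) {w χ : X n → ℝ} (hw : AEStronglyMeasurable w volume)
    (hχ : AEStronglyMeasurable χ volume) :
    AEStronglyMeasurable (fun z => Psi δ (w z) (χ z)) volume := by
  have h1 := hw.prodMk hχ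
  have h2 := (Psi_cont hδ).comp_aestronglyMeasurable h1
  exact h2

/-- the inequality for a fixed step -/
theorem domj_step (hp : 1 < p) {Θ : Set (X n)} (hΘ : IsOpen Θ) (hb : Bornology.IsBounded Θ)
    {w : X n → ℝ} {W Γ : X n → E n} (hw : W0 p Θ w W) (hw0 : ∀ᵐ y, 0 ≤ w y)
    (hΓ : MemLp Γ (ENNReal.ofReal (cj p)) volume)
    (heq : ∀ φ, Tst Θ φ → ∫ y, inner ℝ (Γ y) (dx φ y) = ∫ y, w y * dt φ y)
    {C : Set (X n)} (hC : IsCompact C) (hCΘ : C ⊆ Θ) {χ ej : X n → ℝ} {X' Γj : X n → E n}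
    (hχ : W0 p C χ X') (hχ0 : ∀ᵐ y, 0 ≤ χ y)
    (hΓj : MemLp Γj (ENNReal.ofReal (cj p)) volume) (hej : Integrable ej volume)
    (hDI : DI univ χ Γj ej) {δ : ℝ} (hδ : 0 < δ) {ψ : X n → ℝ} (hψ : Tst univ ψ)
    (hψ0 : ∀ y, 0 ≤ ψ y) {h : ℝ} (hh : 0 < h) {D : Set (X n)} (hD : IsCompact D) (hDΘ : D ⊆ Θ)
    (hCD : ∀ z : X n, ∀ r ∈ Icc 0 h, (z.1, z.2 + r) ∈ C → z ∈ D)
    {Z : X n → ℝ} {Φ ZG : X n → E n}
    (hφ : W0 p C (fun y => ψ y * Hd δ (min (w y) (χ y))) Φ)
    (hZe : ∀ y, Z y = Hp δ (χ y) * max (w y - χ y) 0) (hZ : W0 p Θ Z ZG) :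
    (- ∫ y, (h⁻¹ * (sh h ψ y - ψ y)) * Psi δ (w y) (χ y)) ≤
      (- ∫ y, inner ℝ (Γ y) (av h Φ y)) +
      ((- ∫ y, inner ℝ (Γj y)
        (av h (fun y => ψ y • sh (-h) ZG y + sh (-h) Z y • dx ψ y) y)) +
      ∫ y, ej y * av h (fun y => ψ y * sh (-h) Z y) y) := by
  have := der_haar (n := n)
  obtain ⟨-, -, -, -, -, -, hHp0, -⟩ := Hd_facts hδ
  have hCb : Bornology.IsBounded C := hb.subset hCΘ
  have hm : Tendsto (fun z : X n => (z.1, z.2 + -h)) (ae volume) (ae volume) :=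
    (cal1_mp (-h)).quasiMeasurePreserving.tendsto_ae
  -- the equation
  have e1 := shf_eq hp hΘ hC hD hDΘ hh hCD (hw.meas.restrict)
    (hw.bdd.imp fun M hM => ae_restrict_of_ae hM) (fun K _ _ => hΓ.restrict K) heq hφ
  -- the inequality
  obtain ⟨R, hR⟩ := hb.subset_closedBall 0
  have hsub : {z : X n | (z.1, z.2 + -h) ∈ Θ} ⊆ closedBall 0 (R + h) := by
    intro z hz
    have h1 := hR hz
    rw [mem_closedBall] at h1 ⊢
    have h2 : dist z (z.1, z.2 + -h) = h := by
      rw [Prod.dist_eq]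
      simp [abs_of_pos hh, hh.le]
    linarith [dist_triangle z (z.1, z.2 + -h) 0]
  have hZs := (hZ.shift (-h)).mono hsub
  have hφh := hZs.smooth_mul hp (isBounded_closedBall) hψ.smooth
  have hφh0 : ∀ᵐ y, 0 ≤ ψ y * sh (-h) Z y := by
    refine Eventually.of_forall fun y => mul_nonneg (hψ0 y) ?_
    show 0 ≤ Z _
    rw [hZe]
    exact mul_nonneg (hHp0 _) (le_max_right _ _)
  have e2 := shf_ineq hp isOpen_univ (isCompact_closedBall (0 : X n) (R + h))
    (isCompact_closedBall (0 : X n) (R + h + h)) (subset_univ _) hh (fun z r hr hz => by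
      rw [mem_closedBall] at hz ⊢
      have h2 : dist z (z.1, z.2 + r) ≤ h := by
        rw [Prod.dist_eq]
        simp [abs_of_nonneg hr.1, hr.2, hh.le]
      linarith [dist_triangle z (z.1, z.2 + r) 0]) (hχ.meas.restrict)
    (hχ.bdd.imp fun M hM => ae_restrict_of_ae hM) (fun K _ _ => hΓj.restrict K)
    (fun K _ _ => hej.integrableOn) hDI hφh hφh0
  -- integrability
  have sq : ∀ {f : X n → ℝ}, MemLp f 2 volume → MemLp (sh (-h) f) 2 volume := fun hf =>
    hf.comp_measurePreserving (cal1_mp (-h))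
  have iw : MemLp w 2 volume := hw.memLp_fn hb 2
  have iχ : MemLp χ 2 volume := hχ.memLp_fn hCb 2
  have iφ := hφ.memLp_fn hCb 2
  have iφh := hφh.memLp_fn isBounded_closedBall 2
  have j1 : Integrable (fun z => (ψ z * Hd δ (min (w z) (χ z))) * (w z - sh (-h) w z)) volume :=
    iφ.integrable_mul (iw.sub (sq iw))
  have j2 : Integrable (fun z => (ψ z * sh (-h) Z z) * (χ z - sh (-h) χ z)) volume :=
    iφh.integrable_mul (iχ.sub (sq iχ))
  have hPm := domj_Pm hδ hw.meas hχ.meas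
  have iP : MemLp (fun z => Psi δ (w z) (χ z)) 2 volume := by
    refine iw.mono hPm ?_
    filter_upwards [hw0, hχ0] with z h1 h2
    obtain ⟨h3, h4⟩ := Psi_bound hδ h1 h2
    rw [Real.norm_of_nonneg h3, Real.norm_of_nonneg h1]
    exact h4
  have iψ : MemLp ψ 2 volume := hψ.smooth.continuous.memLp_of_hasCompactSupport hψ.cpt
  have j3 : Integrable (fun z => ψ z * Psi δ (w z) (χ z)) volume := iψ.integrable_mul iP
  have j4 : Integrable (fun z => ψ z * sh (-h) (fun y => Psi δ (w y) (χ y)) z) volume :=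
    iψ.integrable_mul (sq iP)
  have j5 : Integrable (fun z => sh h ψ z * Psi δ (w z) (χ z)) volume :=
    (iψ.comp_measurePreserving (cal1_mp h)).integrable_mul iP
  -- pointwise inequality
  have key : ∀ᵐ z, ψ z * Psi δ (w z) (χ z) - ψ z * sh (-h) (fun y => Psi δ (w y) (χ y)) z ≤
      (ψ z * Hd δ (min (w z) (χ z))) * (w z - sh (-h) w z) +
        (ψ z * sh (-h) Z z) * (χ z - sh (-h) χ z) := by
    filter_upwards [hw0, hχ0, hm.eventually hw0, hm.eventually hχ0] with z h1 h2 h3 h4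
    have h5 := Psi_ineq hδ h1 h3 h2 h4
    have h6 := mul_le_mul_of_nonneg_left h5 (hψ0 z)
    have h7 : sh (-h) Z z = Hp δ (sh (-h) χ z) * max (sh (-h) w z - sh (-h) χ z) 0 := hZe _
    rw [h7]
    simp only [sh]
    linarith
  have k1 := integral_mono_ae (j3.sub j4) (j1.add j2) key
  rw [integral_sub' j3 j4, integral_add' j1 j2] at k1
  have k2 : ∫ z, ψ z * sh (-h) (fun y => Psi δ (w y) (χ y)) z =
      ∫ z, sh h ψ z * Psi δ (w z) (χ z) := by
    rw [← cal1_int h]
    refine integral_congr_ae (Eventually.of_forall fun z => ?_)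
    simp only [sh, add_neg_cancel_right]
  have k3 : ∫ y, (h⁻¹ * (sh h ψ y - ψ y)) * Psi δ (w y) (χ y) =
      h⁻¹ * ((∫ z, sh h ψ z * Psi δ (w z) (χ z)) - ∫ z, ψ z * Psi δ (w z) (χ z)) := by
    rw [← integral_sub j5 j3, ← integral_const_mul]
    refine integral_congr_ae (Eventually.of_forall fun z => ?_)
    show (h⁻¹ * (sh h ψ z - ψ z)) * Psi δ (w z) (χ z) = _
    ring
  rw [k2] at k1
  rw [k3]
  have h8 : 0 ≤ h⁻¹ := by positivity
  have k4 := mul_le_mul_of_nonneg_left k1 h8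
  rw [mul_add] at k4
  linarith

theorem domj_mul_lim {q : ENNReal} {F G : Type*} [NormedAddCommGroup F] [NormedAddCommGroup G]
    {f : ℕ → X n → F} {g : ℕ → X n → G} {B : ℝ} (hB : ∀ k z, ‖g k z‖ ≤ B * ‖f k z‖)
    (h : Tendsto (fun k => eLpNorm (f k) q volume) atTop (𝓝 0)) :
    Tendsto (fun k => eLpNorm (g k) q volume) atTop (𝓝 0) := by
  have h1 : Tendsto (fun k => ENNReal.ofReal B * eLpNorm (f k) q volume) atTop (𝓝 0) := by
    have := ENNReal.Tendsto.const_mul (a := ENNReal.ofReal B) h (Or.inr ENNReal.ofReal_ne_top)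
    rwa [mul_zero] at this
  refine tendsto_of_tendsto_of_tendsto_of_le_of_le tendsto_const_nhds h1 (fun _ => zero_le)
    fun k => ?_
  exact eLpNorm_le_mul_eLpNorm_of_ae_le_mul (Eventually.of_forall (hB k)) q

theorem domj_sub {Θ : Set (X n)} {R : ℝ} (hR : Θ ⊆ closedBall 0 R) {h : ℝ} (hh : 0 < h) :
    {z : X n | (z.1, z.2 + -h) ∈ Θ} ⊆ closedBall 0 (R + h) := by
  intro z hz
  have h1 := hR hz
  rw [mem_closedBall] at h1 ⊢
  have h2 : dist z (z.1, z.2 + -h) = h := by
    rw [Prod.dist_eq]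
    simp [abs_of_pos hh, hh.le]
  linarith [dist_triangle z (z.1, z.2 + -h) 0]

/-- the entropy inequality for one approximating subsolution `χ` -/
theorem dom_j (hp : 1 < p) {Θ : Set (X n)} (hΘ : IsOpen Θ) (hb : Bornology.IsBounded Θ)
    {w : X n → ℝ} {W Γ : X n → E n} (hw : W0 p Θ w W) (hw0 : ∀ᵐ y, 0 ≤ w y)
    (hΓ : MemLp Γ (ENNReal.ofReal (cj p)) volume)
    (heq : ∀ φ, Tst Θ φ → ∫ y, inner ℝ (Γ y) (dx φ y) = ∫ y, w y * dt φ y)
    {C : Set (X n)} (hC : IsCompact C) (hCΘ : C ⊆ Θ) {χ ej : X n → ℝ} {X' Γj : X n → E n}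
    (hχ : W0 p C χ X') (hχ0 : ∀ᵐ y, 0 ≤ χ y)
    (hΓj : MemLp Γj (ENNReal.ofReal (cj p)) volume) (hej : Integrable ej volume)
    (hDI : DI univ χ Γj ej) {δ : ℝ} (hδ : 0 < δ) {ψ : X n → ℝ} (hψ : Tst univ ψ)
    (hψ0 : ∀ y, 0 ≤ ψ y) :
    (- ∫ y, dt ψ y * Psi δ (w y) (χ y)) +
      ∫ y, inner ℝ (Γ y) (ψ y • (Hp δ (min (w y) (χ y)) • (if w y ≤ χ y then W y else X' y)) +
        Hd δ (min (w y) (χ y)) • dx ψ y) ≤
    (- ∫ y, inner ℝ (Γj y)
        (ψ y • ((Hpp δ (χ y) * max (w y - χ y) 0) • X' y +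
          Hp δ (χ y) • (if χ y < w y then W y - X' y else 0)) +
        (Hp δ (χ y) * max (w y - χ y) 0) • dx ψ y)) +
      ∫ y, ej y * (ψ y * (Hp δ (χ y) * max (w y - χ y) 0)) := by
  have := der_haar (n := n)
  obtain ⟨hH0, hH1, -, hHd, -, -, -, -, -, -, -⟩ := Hd_facts hδ
  have hCb : Bornology.IsBounded C := hb.subset hCΘ
  obtain ⟨-, hm⟩ := domj_min hp hb hCΘ hw hw0 hχ
  have hZ := domj_Z hp hb hCΘ hw hw0 hχ hδ
  have hPm := domj_Pm hδ hw.meas hχ.meas
  obtain ⟨Z, hZe⟩ : ∃ Z : X n → ℝ, ∀ y, Z y = Hp δ (χ y) * max (w y - χ y) 0 := ⟨_, fun _ => rfl⟩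
  obtain ⟨ZG, hZGe⟩ : ∃ ZG : X n → E n, ∀ y, ZG y = (Hpp δ (χ y) * max (w y - χ y) 0) • X' y +
          Hp δ (χ y) • (if χ y < w y then W y - X' y else 0) := ⟨_, fun _ => rfl⟩
  obtain ⟨P, hPe⟩ : ∃ P : X n → ℝ, ∀ y, P y = Psi δ (w y) (χ y) := ⟨_, fun _ => rfl⟩
  have hP1 : (fun z => Psi δ (w z) (χ z)) = P := funext fun z => (hPe z).symm
  rw [hP1] at hPm
  have hφ0 : W0 p C (fun y => Hd δ (min (w y) (χ y)))
      (fun y => Hp δ (min (w y) (χ y)) • (if w y ≤ χ y then W y else X' y)) := by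
    refine (hm.comp hp hCb hH1 hH0).congr (Eventually.of_forall fun z => rfl)
      (Eventually.of_forall fun z => ?_)
    rw [(hHd _).deriv]
  have hφ := hφ0.smooth_mul hp hCb hψ.smooth
  obtain ⟨Φ, hΦe⟩ : ∃ Φ : X n → E n, ∀ y, Φ y =
      ψ y • (Hp δ (min (w y) (χ y)) • (if w y ≤ χ y then W y else X' y)) +
        Hd δ (min (w y) (χ y)) • dx ψ y := ⟨_, fun _ => rfl⟩
  replace hφ := hφ.congr (Eventually.of_forall fun z => rfl)
    (Eventually.of_forall fun z => (hΦe z).symm)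
  replace hZ := hZ.congr (Eventually.of_forall fun z => (hZe z).symm)
    (Eventually.of_forall fun z => (hZGe z).symm)
  have goal' : (- ∫ y, dt ψ y * P y) + ∫ y, inner ℝ (Γ y) (Φ y) ≤
      (- ∫ y, inner ℝ (Γj y) (ψ y • ZG y + Z y • dx ψ y)) + ∫ y, ej y * (ψ y * Z y) := by
    -- the steps
    obtain ⟨h0, hh0, hsub⟩ := hC.exists_cthickening_subset_open hΘ hCΘ
    obtain ⟨R, hR⟩ := hb.subset_closedBall 0
    obtain ⟨h, hhe⟩ : ∃ h : ℕ → ℝ, ∀ k : ℕ, h k = h0 * (1 / ((k : ℝ) + 1)) := ⟨_, fun _ => rfl⟩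
    have hpos : ∀ k, 0 < h k := fun k => by rw [hhe]; positivity
    have hle : ∀ k, h k ≤ h0 := fun k => by
      rw [hhe]
      have h1 : 1 / ((k : ℝ) + 1) ≤ 1 := by
        rw [div_le_one (by positivity)]
        have : (0 : ℝ) ≤ k := Nat.cast_nonneg k
        linarith
      nlinarith
    have hlim : Tendsto h atTop (𝓝 0) := by
      have h1 := (tendsto_one_div_add_atTop_nhds_zero_nat (𝕜 := ℝ)).const_mul h0
      rw [mul_zero] at h1
      exact h1.congr fun k => (hhe k).symm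
    have hlim' : Tendsto h atTop (𝓝[≠] 0) :=
      tendsto_nhdsWithin_iff.2 ⟨hlim, Eventually.of_forall fun k => (hpos k).ne'⟩
    have hneg : Tendsto (fun k => - h k) atTop (𝓝 0) := by
      have := hlim.neg
      rwa [neg_zero] at this
    have step : ∀ k, _ := fun k => domj_step hp hΘ hb hw hw0 hΓ heq hC hCΘ hχ hχ0 hΓj hej hDI hδ
      hψ hψ0 (hpos k) hC.cthickening hsub (fun z r hr hz => by
        refine mem_cthickening_of_dist_le z (z.1, z.2 + r) h0 C hz ?_
        rw [Prod.dist_eq]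
        have := hr.2.trans (hle k)
        simp [abs_of_nonneg hr.1, this, hh0.le]) hφ hZe hZ
    -- bounds
    obtain ⟨c1, s1, c2, s2⟩ := der_tst_int hψ
    obtain ⟨Bψ, hBψ⟩ := hψ.smooth.continuous.bounded_above_of_compact_support hψ.cpt
    obtain ⟨Bd, hBd⟩ := c1.bounded_above_of_compact_support s1
    obtain ⟨Bt, hBt0, hBt, hdt⟩ := domj_dt hψ
    obtain ⟨BZ, hBZ⟩ := hZ.bdd
    have hW : ∀ k, W0 p (closedBall 0 (R + h k)) (fun z => ψ z * sh (-h k) Z z)
        (fun z => ψ z • sh (-h k) ZG z + sh (-h k) Z z • dx ψ z) := fun k =>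
      (((hZ.shift (-h k)).mono (domj_sub hR (hpos k)))).smooth_mul hp isBounded_closedBall
        hψ.smooth
    have hG := hZ.smooth_mul hp hb hψ.smooth
    -- the time derivative term
    have L1 : Tendsto (fun k => ∫ y, ((h k)⁻¹ * (sh (h k) ψ y - ψ y)) * P y) atTop
        (𝓝 (∫ y, dt ψ y * P y)) := by
      have iP : Integrable P volume := by
        have iw : Integrable w volume := memLp_one_iff_integrable.1 (hw.memLp_fn hb 1)
        refine iw.mono hPm ?_
        filter_upwards [hw0, hχ0] with z h1 h2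
        obtain ⟨h3, h4⟩ := Psi_bound hδ h1 h2
        rw [← hPe] at h3 h4
        rw [Real.norm_of_nonneg h3, Real.norm_of_nonneg h1]
        exact h4
      refine tendsto_integral_of_dominated_convergence (fun y => Bt * ‖P y‖) (fun k => ?_)
        (iP.norm.const_mul Bt) (fun k => Eventually.of_forall fun z => ?_)
        (Eventually.of_forall fun z => ((hdt z).comp hlim').mul_const _)
      · have h1 : Continuous (fun y => (h k)⁻¹ * (sh (h k) ψ y - ψ y)) := by
          have h2 : Continuous (sh (h k) ψ) := (cal1_sh_tst (h k) hψ).smooth.continuous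
          have h3 := hψ.smooth.continuous
          fun_prop
        exact h1.aestronglyMeasurable.mul hPm
      · rw [norm_mul]
        exact mul_le_mul_of_nonneg_right (hBt (h k) (hpos k) z) (norm_nonneg _)
    -- the equation term
    have L2 : Tendsto (fun k => ∫ y, inner ℝ (Γ y) (av (h k) Φ y)) atTop
        (𝓝 (∫ y, inner ℝ (Γ y) (Φ y))) := by
      refine domh_dual hp hΓ (fun k => (av_memLp hp.le hφ.mem (hpos k).ne').1) hφ.mem ?_
      refine domh_av_lim hp.le (fun _ => hφ.mem) hφ.mem ?_ (fun k => (hpos k).ne') hlim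
      simp
    -- shifts
    have l1 := domh_sh_lim hp.le hZ.mem hneg
    have l2 := domh_sh_lim hp.le (hZ.memLp_fn hb (ENNReal.ofReal p)) hneg
    have mZ : ∀ k, MemLp (sh (-h k) Z) (ENNReal.ofReal p) volume := fun k =>
      (hZ.memLp_fn hb (ENNReal.ofReal p)).comp_measurePreserving (cal1_mp (-h k))
    have mZG : ∀ k, MemLp (sh (-h k) ZG) (ENNReal.ofReal p) volume := fun k =>
      hZ.mem.comp_measurePreserving (cal1_mp (-h k))
    have l3 : Tendsto (fun k => eLpNorm (fun z => ψ z • (sh (-h k) ZG z - ZG z))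
        (ENNReal.ofReal p) volume) atTop (𝓝 0) := by
      refine domj_mul_lim (B := Bψ) (fun k z => ?_) l1
      rw [norm_smul]
      exact mul_le_mul_of_nonneg_right (hBψ z) (norm_nonneg _)
    have l4 : Tendsto (fun k => eLpNorm (fun z => (sh (-h k) Z z - Z z) • dx ψ z)
        (ENNReal.ofReal p) volume) atTop (𝓝 0) := by
      refine domj_mul_lim (B := Bd) (fun k z => ?_) l2
      rw [norm_smul, mul_comm]
      exact mul_le_mul_of_nonneg_right (hBd z) (norm_nonneg _)
    have l5 : Tendsto (fun k => eLpNorm (fun z => ψ z * sh (-h k) Z z - ψ z * Z z)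
        (ENNReal.ofReal p) volume) atTop (𝓝 0) := by
      refine domj_mul_lim (B := Bψ) (fun k z => ?_) l2
      rw [← mul_sub, norm_mul]
      exact mul_le_mul_of_nonneg_right (hBψ z) (norm_nonneg _)
    have l6 : Tendsto (fun k => eLpNorm (fun z =>
        (ψ z • sh (-h k) ZG z + sh (-h k) Z z • dx ψ z) - (ψ z • ZG z + Z z • dx ψ z))
        (ENNReal.ofReal p) volume) atTop (𝓝 0) := by
      have h1 := l3.add l4
      rw [add_zero] at h1
      refine tendsto_of_tendsto_of_tendsto_of_le_of_le tendsto_const_nhds h1 (fun _ => zero_le)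
        fun k => ?_
      have e : (fun z => (ψ z • sh (-h k) ZG z + sh (-h k) Z z • dx ψ z) -
          (ψ z • ZG z + Z z • dx ψ z)) =
          (fun z => ψ z • (sh (-h k) ZG z - ZG z)) +
            fun z => (sh (-h k) Z z - Z z) • dx ψ z := by
        funext z
        simp only [Pi.add_apply, smul_sub, sub_smul]
        abel
      rw [e]
      refine eLpNorm_add_le ?_ ?_ (cal1_one_le hp)
      · exact hψ.smooth.continuous.aestronglyMeasurable.smul ((mZG k).1.sub hZ.mem.1)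
      · exact ((mZ k).1.sub hZ.meas).smul c1.aestronglyMeasurable
    -- the subsolution term
    have L3 : Tendsto (fun k => ∫ y, inner ℝ (Γj y)
        (av (h k) (fun y => ψ y • sh (-h k) ZG y + sh (-h k) Z y • dx ψ y) y)) atTop
        (𝓝 (∫ y, inner ℝ (Γj y) (ψ y • ZG y + Z y • dx ψ y))) := by
      refine domh_dual hp hΓj (fun k => (av_memLp hp.le (hW k).mem (hpos k).ne').1) hG.mem ?_
      exact domh_av_lim hp.le (fun k => (hW k).mem) hG.mem l6 (fun k => (hpos k).ne') hlim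
    -- the source term, along a subsequence
    have fW : ∀ k, MemLp (fun z => ψ z * sh (-h k) Z z) (ENNReal.ofReal p) volume := fun k =>
      (hW k).memLp_fn isBounded_closedBall _
    have fG : MemLp (fun z => ψ z * Z z) (ENNReal.ofReal p) volume := hG.memLp_fn hb _
    have l7 := domh_av_lim hp.le fW fG l5 (fun k => (hpos k).ne') hlim
    have aW : ∀ k, AEStronglyMeasurable (av (h k) (fun z => ψ z * sh (-h k) Z z)) volume :=
      fun k => (av_memLp hp.le (fW k) (hpos k).ne').1.1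
    obtain ⟨ns, hns, hae⟩ := (tendstoInMeasure_of_tendsto_eLpNorm (domh_ne hp.le) aW fG.1
      l7).exists_seq_tendsto_ae
    have L4 : Tendsto (fun i => ∫ y, ej y *
        av (h (ns i)) (fun z => ψ z * sh (-h (ns i)) Z z) y) atTop
        (𝓝 (∫ y, ej y * (ψ y * Z y))) := by
      refine tendsto_integral_of_dominated_convergence (fun y => ‖ej y‖ * (Bψ * BZ))
        (fun i => hej.1.mul (aW (ns i))) (hej.norm.mul_const _) (fun i => ?_) ?_
      · have h1 : ∀ᵐ z, |ψ z * sh (-h (ns i)) Z z| ≤ Bψ * BZ := by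
          filter_upwards [(cal1_mp (-h (ns i))).quasiMeasurePreserving.ae hBZ] with z hz
          rw [abs_mul]
          exact mul_le_mul (hBψ z) hz (abs_nonneg _) ((norm_nonneg _).trans (hBψ z))
        filter_upwards [domh_av_bdd h1 (hpos (ns i)).ne'] with z hz
        rw [norm_mul]
        exact mul_le_mul_of_nonneg_left hz (norm_nonneg _)
      · filter_upwards [hae] with z hz
        exact hz.const_mul _
    -- conclusion
    have t := hns.tendsto_atTop
    have fin := le_of_tendsto_of_tendsto' (L1.comp t).neg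
      ((L2.comp t).neg.add ((L3.comp t).neg.add L4)) (fun i => by
        have h1 := step (ns i)
        simp only [← hPe] at h1
        exact h1)
    linarith
  simp only [hPe, hΦe, hZe, hZGe] at goal'
  exact goal'

end PP
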