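import Pool.Agent.PP.Defs

open Set Metric Filter Topology MeasureTheory
open scoped ContDiff

noncomputable section

namespace PP

/-- concave `C²` approximation of the indicator of `r > 0` -/
def Hd (δ r : ℝ) : ℝ := 1 - (max (1 - r / δ) 0) ^ 3

/-- derivative of `Hd` -/
def Hp (δ r : ℝ) : ℝ := 3 / δ * (max (1 - r / δ) 0) ^ 2

/-- second derivative of `Hd` -/
def Hpp (δ r : ℝ) : ℝ := - (6 / δ ^ 2) * max (1 - r / δ) 0

/-- the entropy -/
def Psi (δ a c : ℝ) : ℝ := ∫ r in (0 : ℝ)..a, Hd δ (min r c)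

private theorem DOMP_pow (k : ℕ) (hk : 1 ≤ k) (u : ℝ) :
    HasDerivAt (fun u : ℝ => (max u 0) ^ (k + 1)) ((k + 1) * (max u 0) ^ k) u := by
  rcases lt_trichotomy u 0 with h | h | h
  · have h1 : (fun u : ℝ => (max u 0) ^ (k + 1)) =ᶠ[𝓝 u] fun _ => 0 := by
      filter_upwards [gt_mem_nhds h] with v hv
      rw [max_eq_right hv.le, zero_pow (by omega)]
    rw [max_eq_right h.le, zero_pow (by omega), mul_zero]
    exact (hasDerivAt_const u (0 : ℝ)).congr_of_eventuallyEq h1
  · subst h
    rw [max_self, zero_pow (by omega), mul_zero]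
    rw [hasDerivAt_iff_isLittleO_nhds_zero]
    simp only [zero_add, max_self, smul_zero, sub_zero]
    rw [zero_pow (by omega)]
    have h1 : (fun h : ℝ => (max h 0) ^ (k + 1) - 0) =O[𝓝 0] fun h => h ^ (k + 1) := by
      refine Asymptotics.IsBigO.of_bound 1 (Eventually.of_forall fun v => ?_)
      rw [sub_zero, one_mul, norm_pow, norm_pow]
      refine pow_le_pow_left₀ (norm_nonneg _) ?_ _
      rw [Real.norm_eq_abs, Real.norm_eq_abs]
      rcases le_total v 0 with hv | hv
      · rw [max_eq_right hv]; simp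
      · rw [max_eq_left hv]
    have h2 : (fun h : ℝ => h ^ (k + 1)) =o[𝓝 0] fun h => h ^ 1 :=
      Asymptotics.isLittleO_pow_pow (by omega)
    simpa using h1.trans_isLittleO h2
  · have h1 : (fun u : ℝ => (max u 0) ^ (k + 1)) =ᶠ[𝓝 u] fun u => u ^ (k + 1) := by
      filter_upwards [lt_mem_nhds h] with v hv
      rw [max_eq_left hv.le]
    rw [max_eq_left h.le]
    have := hasDerivAt_pow (k + 1) u
    simp only [Nat.cast_add, Nat.cast_one, Nat.add_sub_cancel] at this
    exact this.congr_of_eventuallyEq h1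

private theorem DOMP_lin (δ r : ℝ) : HasDerivAt (fun r : ℝ => 1 - r / δ) (-(1 / δ)) r := by
  have := ((hasDerivAt_id r).div_const δ).const_sub 1
  simpa using this

private theorem DOMP_hd {δ : ℝ} (r : ℝ) : HasDerivAt (Hd δ) (Hp δ r) r := by
  have h1 := ((DOMP_pow 2 (by norm_num) (1 - r / δ)).comp r (DOMP_lin δ r)).const_sub 1
  have h2 : -(((2 : ℕ) + 1 : ℝ) * (max (1 - r / δ) 0) ^ 2 * -(1 / δ)) = Hp δ r := by
    simp only [Hp]; push_cast; ring
  rw [h2] at h1
  exact h1

private theorem DOMP_hp {δ : ℝ} (r : ℝ) : HasDerivAt (Hp δ) (Hpp δ r) r := by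
  have h1 := ((DOMP_pow 1 (by norm_num) (1 - r / δ)).comp r (DOMP_lin δ r)).const_mul (3 / δ)
  have h2 : 3 / δ * (((1 : ℕ) + 1 : ℝ) * (max (1 - r / δ) 0) ^ 1 * -(1 / δ)) = Hpp δ r := by
    simp only [Hpp]; push_cast; ring
  rw [h2] at h1
  exact h1

private theorem DOMP_cm (δ : ℝ) : Continuous fun r : ℝ => max (1 - r / δ) 0 := by
  fun_prop

theorem Hd_facts {δ : ℝ} (hδ : 0 < δ) : Hd δ 0 = 0 ∧ ContDiff ℝ 1 (Hd δ) ∧ ContDiff ℝ 1 (Hp δ) ∧
    (∀ r, HasDerivAt (Hd δ) (Hp δ r) r) ∧ (∀ r, HasDerivAt (Hp δ) (Hpp δ r) r) ∧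
    (∀ r, 0 ≤ r → 0 ≤ Hd δ r ∧ Hd δ r ≤ 1) ∧ (∀ r, 0 ≤ Hp δ r) ∧
    (∀ r, 0 ≤ r → Hp δ r ≤ 3 / δ) ∧ (∀ r, 0 ≤ r → |Hpp δ r| ≤ 6 / δ ^ 2) ∧
    Monotone (Hd δ) ∧ Antitone (Hp δ) := by
  have hm : ∀ r, 0 ≤ max (1 - r / δ) 0 := fun r => le_max_right _ _
  have hm1 : ∀ r, 0 ≤ r → max (1 - r / δ) 0 ≤ 1 := fun r hr =>
    max_le (by have := div_nonneg hr hδ.le; linarith) zero_le_one
  have hanti : Antitone fun r : ℝ => max (1 - r / δ) 0 := by
    intro a b hab
    have : a / δ ≤ b / δ := div_le_div_of_nonneg_right hab hδ.le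
    exact max_le_max (by linarith) le_rfl
  refine ⟨?_, ?_, ?_, DOMP_hd, DOMP_hp, ?_, ?_, ?_, ?_, ?_, ?_⟩
  · simp [Hd]
  · rw [contDiff_one_iff_deriv]
    refine ⟨fun r => (DOMP_hd r).differentiableAt, ?_⟩
    have : deriv (Hd δ) = Hp δ := funext fun r => (DOMP_hd r).deriv
    rw [this]
    exact continuous_const.mul ((DOMP_cm δ).pow 2)
  · rw [contDiff_one_iff_deriv]
    refine ⟨fun r => (DOMP_hp r).differentiableAt, ?_⟩
    have : deriv (Hp δ) = Hpp δ := funext fun r => (DOMP_hp r).deriv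
    rw [this]
    exact continuous_const.mul (DOMP_cm δ)
  · intro r hr
    have h1 : (max (1 - r / δ) 0) ^ 3 ≤ 1 := pow_le_one₀ (hm r) (hm1 r hr)
    have h2 : 0 ≤ (max (1 - r / δ) 0) ^ 3 := pow_nonneg (hm r) 3
    simp only [Hd]; constructor <;> linarith
  · intro r; simp only [Hp]; positivity
  · intro r hr
    have h1 : (max (1 - r / δ) 0) ^ 2 ≤ 1 := pow_le_one₀ (hm r) (hm1 r hr)
    simp only [Hp]
    have h3 : 0 < 3 / δ := by positivity
    nlinarith
  · intro r hr
    simp only [Hpp]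
    rw [abs_mul, abs_neg, abs_of_nonneg (by positivity : 0 ≤ 6 / δ ^ 2), abs_of_nonneg (hm r)]
    have h3 : 0 < 6 / δ ^ 2 := by positivity
    nlinarith [hm1 r hr]
  · intro a b hab
    have := pow_le_pow_left₀ (hm b) (hanti hab) 3
    simp only [Hd]; simp only at this; linarith
  · intro a b hab
    have := pow_le_pow_left₀ (hm b) (hanti hab) 2
    simp only [Hp]; simp only at this
    exact mul_le_mul_of_nonneg_left this (by positivity)

theorem Hd_lim {r : ℝ} (hr : 0 ≤ r) :
    Tendsto (fun δ => Hd δ r) (𝓝[>] (0 : ℝ)) (𝓝 (if 0 < r then 1 else 0)) := by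
  by_cases h : 0 < r
  · rw [if_pos h]
    refine tendsto_const_nhds.congr' ?_
    filter_upwards [Ioo_mem_nhdsGT h] with δ hδ
    have h1 : 1 - r / δ ≤ 0 := by
      have : 1 ≤ r / δ := by rw [le_div_iff₀ hδ.1]; linarith [hδ.2]
      linarith
    simp only [Hd, max_eq_right h1]; norm_num
  · rw [if_neg h]
    have hr0 : r = 0 := le_antisymm (not_lt.1 h) hr
    refine tendsto_const_nhds.congr' ?_
    filter_upwards with δ
    simp [Hd, hr0]

private theorem DOMP_conc {δ : ℝ} (hδ : 0 < δ) (c d : ℝ) :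
    Hd δ c ≤ Hd δ d + Hp δ d * (c - d) := by
  simp only [Hd, Hp]
  set u := max (1 - c / δ) 0 with hu
  set v := max (1 - d / δ) 0 with hv
  have hu0 : 0 ≤ u := le_max_right _ _
  have hv0 : 0 ≤ v := le_max_right _ _
  have hu1 : 1 - c / δ ≤ u := le_max_left _ _
  have e1 : 3 / δ * v ^ 2 * (c - d) = 3 * v ^ 2 * ((c - d) / δ) := by ring
  rw [e1]
  rcases le_or_gt (1 - d / δ) 0 with h | h
  · have hv1 : v = 0 := max_eq_right h
    rw [hv1]; have := pow_nonneg hu0 3; nlinarith
  · have hv1 : v = 1 - d / δ := max_eq_left h.le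
    have h2 : v - u ≤ (c - d) / δ := by
      have : (c - d) / δ = c / δ - d / δ := by ring
      rw [this, hv1]; linarith
    have h3 : 3 * v ^ 2 * (v - u) ≤ 3 * v ^ 2 * ((c - d) / δ) :=
      mul_le_mul_of_nonneg_left h2 (by positivity)
    have h4 : 0 ≤ (v - u) ^ 2 * (2 * v + u) := by positivity
    nlinarith

private theorem DOMP_int {δ : ℝ} (hδ : 0 < δ) (c a b : ℝ) :
    IntervalIntegrable (fun r => Hd δ (min r c)) volume a b := by
  refine Continuous.intervalIntegrable ?_ _ _
  have : Continuous (Hd δ) := (Hd_facts hδ).2.1.continuous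
  exact this.comp (continuous_id.min continuous_const)

theorem Psi_ineq {δ a b c d : ℝ} (hδ : 0 < δ) (ha : 0 ≤ a) (hb : 0 ≤ b) (hc : 0 ≤ c)
    (hd : 0 ≤ d) : Psi δ a c - Psi δ b d ≤
      Hd δ (min a c) * (a - b) + Hp δ d * max (b - d) 0 * (c - d) := by
  have hmono : Monotone (Hd δ) := (Hd_facts hδ).2.2.2.2.2.2.2.2.2.1
  -- part A
  have hA : Psi δ a c - Psi δ b c ≤ Hd δ (min a c) * (a - b) := by
    simp only [Psi]
    rw [intervalIntegral.integral_interval_sub_left (DOMP_int hδ c 0 a) (DOMP_int hδ c 0 b)]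
    rcases le_total b a with h | h
    · have h1 : ∫ r in b..a, Hd δ (min r c) ≤ ∫ r in b..a, Hd δ (min a c) :=
        intervalIntegral.integral_mono_on h (DOMP_int hδ c b a) (by simp) fun r hr =>
          hmono (min_le_min hr.2 le_rfl)
      rw [intervalIntegral.integral_const, smul_eq_mul] at h1
      linarith
    · have h1 : ∫ r in a..b, Hd δ (min a c) ≤ ∫ r in a..b, Hd δ (min r c) :=
        intervalIntegral.integral_mono_on h (by simp) (DOMP_int hδ c a b) fun r hr =>
          hmono (min_le_min hr.1 le_rfl)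
      rw [intervalIntegral.integral_const, smul_eq_mul] at h1
      rw [intervalIntegral.integral_symm]
      linarith
  -- part B
  have hB : Psi δ b c - Psi δ b d ≤ Hp δ d * max (b - d) 0 * (c - d) := by
    simp only [Psi]
    rw [← intervalIntegral.integral_sub (DOMP_int hδ c 0 b) (DOMP_int hδ d 0 b)]
    have hpt : ∀ r, Hd δ (min r c) - Hd δ (min r d) ≤ if d < r then Hp δ d * (c - d) else 0 := by
      intro r
      split_ifs with h
      · rw [min_eq_right h.le]
        rcases le_total d c with h1 | h1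
        · have := DOMP_conc hδ c d
          have h2 := hmono (min_le_right r c)
          linarith
        · have h2 : min r c = c := min_eq_right (h1.trans h.le)
          rw [h2]; have := DOMP_conc hδ c d; linarith
      · rw [min_eq_left (not_lt.1 h)]
        have h2 := hmono (min_le_left r c)
        linarith
    have hint : IntervalIntegrable (fun r => if d < r then Hp δ d * (c - d) else (0 : ℝ))
        volume 0 b := by
      rw [intervalIntegrable_iff]
      have h1 : (fun r => if d < r then Hp δ d * (c - d) else (0 : ℝ)) =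
          (Ioi d).indicator fun _ => Hp δ d * (c - d) := by
        ext r; simp [indicator_apply]
      rw [h1]
      exact (integrableOn_const (by simp)).indicator measurableSet_Ioi
    have h3 : ∫ r in (0 : ℝ)..b, (if d < r then Hp δ d * (c - d) else (0 : ℝ)) =
        Hp δ d * max (b - d) 0 * (c - d) := by
      rcases le_total b d with h | h
      · rw [max_eq_right (by linarith), mul_zero, zero_mul]
        rw [intervalIntegral.integral_congr (g := fun _ => (0 : ℝ))]
        · simp
        · intro r hr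
          rw [uIcc_of_le hb] at hr
          simp only
          rw [if_neg (not_lt.2 (hr.2.trans h))]
      · rw [max_eq_left (by linarith)]
        rw [intervalIntegral.integral_of_le hb]
        have h1 : (fun r => if d < r then Hp δ d * (c - d) else (0 : ℝ)) =
          (Ioi d).indicator fun _ => Hp δ d * (c - d) := by
          ext r; simp [indicator_apply]
        rw [h1, integral_indicator measurableSet_Ioi, Measure.restrict_restrict measurableSet_Ioi]
        have h2 : Ioi d ∩ Ioc 0 b = Ioc d b := by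
          ext r; simp only [mem_inter_iff, mem_Ioi, mem_Ioc]
          constructor
          · rintro ⟨h3, h4, h5⟩; exact ⟨h3, h5⟩
          · rintro ⟨h3, h4⟩; exact ⟨h3, by linarith, h4⟩
        rw [h2, setIntegral_const, smul_eq_mul]
        simp only [Measure.real, Real.volume_Ioc]
        rw [ENNReal.toReal_ofReal (by linarith)]
        ring
    rw [← h3]
    refine intervalIntegral.integral_mono_on hb ((DOMP_int hδ c 0 b).sub (DOMP_int hδ d 0 b))
      hint fun r _ => hpt r
  linarith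

theorem Psi_bound {δ a c : ℝ} (hδ : 0 < δ) (ha : 0 ≤ a) (hc : 0 ≤ c) :
    0 ≤ Psi δ a c ∧ Psi δ a c ≤ a := by
  have h01 := (Hd_facts hδ).2.2.2.2.2.1
  constructor
  · simp only [Psi]
    exact intervalIntegral.integral_nonneg ha fun r hr => (h01 _ (le_min hr.1 hc)).1
  · have h1 : Psi δ a c ≤ ∫ r in (0 : ℝ)..a, (1 : ℝ) :=
      intervalIntegral.integral_mono_on ha (DOMP_int hδ c 0 a) (by simp) fun r hr =>
        (h01 _ (le_min hr.1 hc)).2
    simpa using h1

theorem Psi_cont {δ : ℝ} (hδ : 0 < δ) : Continuous (fun q : ℝ × ℝ => Psi δ q.1 q.2) := by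
  have h1 : Continuous (Hd δ) := (Hd_facts hδ).2.1.continuous
  have h2 : Continuous (Function.uncurry fun (q : ℝ × ℝ) (r : ℝ) => Hd δ (min r q.2)) := by
    refine h1.comp ?_
    exact continuous_snd.min (continuous_snd.comp continuous_fst)
  exact intervalIntegral.continuous_parametric_intervalIntegral_of_continuous h2 continuous_fst

theorem Psi_lim {a c : ℝ} (ha : 0 ≤ a) (hac : a ≤ c) :
    Tendsto (fun δ => Psi δ a c) (𝓝[>] (0 : ℝ)) (𝓝 a) := by
  have hc : 0 ≤ c := ha.trans hac
  have h1 : Tendsto (fun δ : ℝ => a - δ) (𝓝[>] (0 : ℝ)) (𝓝 a) := by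
    have : Tendsto (fun δ : ℝ => a - δ) (𝓝 0) (𝓝 (a - 0)) := by
      exact tendsto_const_nhds.sub tendsto_id
    rw [sub_zero] at this
    exact this.mono_left nhdsWithin_le_nhds
  refine tendsto_of_tendsto_of_tendsto_of_le_of_le' h1 tendsto_const_nhds ?_ ?_
  · filter_upwards [self_mem_nhdsWithin] with δ hδ
    have hδ0 : (0 : ℝ) < δ := hδ
    rcases le_total a δ with h | h
    · have := (Psi_bound hδ0 ha hc).1; linarith
    · simp only [Psi]
      rw [← intervalIntegral.integral_add_adjacent_intervals (DOMP_int hδ0 c 0 δ)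
        (DOMP_int hδ0 c δ a)]
      have h3 : 0 ≤ ∫ r in (0 : ℝ)..δ, Hd δ (min r c) :=
        intervalIntegral.integral_nonneg hδ0.le fun r hr =>
          ((Hd_facts hδ0).2.2.2.2.2.1 _ (le_min hr.1 hc)).1
      have h4 : ∫ r in δ..a, Hd δ (min r c) = ∫ r in δ..a, (1 : ℝ) := by
        refine intervalIntegral.integral_congr fun r hr => ?_
        rw [uIcc_of_le h] at hr
        rw [min_eq_left (hr.2.trans hac)]
        have h5 : 1 - r / δ ≤ 0 := by
          have : 1 ≤ r / δ := by rw [le_div_iff₀ hδ0]; linarith [hr.1]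
          linarith
        simp only [Hd, max_eq_right h5]; norm_num
      rw [h4]
      simp only [intervalIntegral.integral_const, smul_eq_mul, mul_one]
      linarith
  · filter_upwards [self_mem_nhdsWithin] with δ hδ
    exact (Psi_bound hδ ha hc).2

end PP
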