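import Mathlib

/-!
# Resolutivity for the p-parabolic equation (MP_67effe_an): definitions
-/

open Set Metric Filter Topology MeasureTheory
open scoped ContDiff

noncomputable section

namespace PP

/-- Euclidean space. -/
abbrev E (n : ℕ) := EuclideanSpace ℝ (Fin n)

/-- Space time, with points `(x, t)`. -/
abbrev X (n : ℕ) := EuclideanSpace ℝ (Fin n) × ℝ

variable {n : ℕ}

/-- The flux `|ξ|^(p-2) ξ` of the `p`-Laplacian. -/
def A (p : ℝ) (ξ : E n) : E n := ‖ξ‖ ^ (p - 2) • ξ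

/-- Spatial gradient. -/
def dx (φ : X n → ℝ) (z : X n) : E n := gradient (fun x => φ (x, z.2)) z.1

/-- Time derivative. -/
def dt (φ : X n → ℝ) (z : X n) : ℝ := deriv (fun t => φ (z.1, t)) z.2

/-- `φ` is a test function in `Ω`: smooth with compact support contained in `Ω`. -/
structure Tst (Ω : Set (X n)) (φ : X n → ℝ) : Prop where
  smooth : ContDiff ℝ ∞ φ
  cpt : HasCompactSupport φ
  supp : tsupport φ ⊆ Ω

/-- `G` is the weak spatial gradient of `u` in `Ω`. -/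
def WG (Ω : Set (X n)) (u : X n → ℝ) (G : X n → E n) : Prop :=
  ∀ φ, Tst Ω φ → ∫ z, u z • dx φ z = - ∫ z, φ z • G z

/-- The weak equation `∂ₜ u = div A(G)` in `Ω`. -/
def WEq (p : ℝ) (Ω : Set (X n)) (u : X n → ℝ) (G : X n → E n) : Prop :=
  ∀ φ, Tst Ω φ → (∫ z, inner ℝ (A p (G z)) (dx φ z)) - ∫ z, u z * dt φ z = 0

/-- `p`-parabolic functions: continuous weak solutions. For every open cylinder
`U × (t₁, t₂)` compactly contained in `Θ`, `u` is continuous in time with values in `L²(U)`,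
has a weak spatial gradient in `L^p(U × (t₁, t₂))`, and satisfies the weak equation. -/
structure PParabolic (p : ℝ) (Θ : Set (X n)) (u : X n → ℝ) : Prop where
  cont : ContinuousOn u Θ
  sol : ∀ (U : Set (E n)) (t₁ t₂ : ℝ), IsOpen U → t₁ < t₂ →
    IsCompact (closure (U ×ˢ Ioo t₁ t₂)) → closure (U ×ˢ Ioo t₁ t₂) ⊆ Θ →
    (∀ s ∈ Ioo t₁ t₂, Tendsto (fun t => eLpNorm (fun x => u (x, t) - u (x, s)) 2
      (volume.restrict U)) (𝓝[Ioo t₁ t₂] s) (𝓝 0)) ∧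
    ∃ G : X n → E n, MemLp G (ENNReal.ofReal p) (volume.restrict (U ×ˢ Ioo t₁ t₂)) ∧
      WG (U ×ˢ Ioo t₁ t₂) u G ∧ WEq p (U ×ˢ Ioo t₁ t₂) u G

/-- The open box `∏ (aᵢ, bᵢ)`. -/
def Qx (a b : Fin n → ℝ) : Set (E n) := {x | ∀ i, a i < x i ∧ x i < b i}

/-- The space time box `Q × (t₁, t₂)`. -/
def box (a b : Fin n → ℝ) (t₁ t₂ : ℝ) : Set (X n) := Qx a b ×ˢ Ioo t₁ t₂

/-- The parabolic boundary of a box. -/
def pbd (a b : Fin n → ℝ) (t₁ t₂ : ℝ) : Set (X n) :=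
  (closure (Qx a b) ×ˢ {t₁}) ∪ (frontier (Qx a b) ×ˢ Ioc t₁ t₂)

/-- `p`-superparabolic functions `u : Θ → (-∞, ∞]`. -/
structure SuperPar (p : ℝ) (Θ : Set (X n)) (u : X n → EReal) : Prop where
  ne_bot : ∀ z ∈ Θ, u z ≠ ⊥
  lsc : LowerSemicontinuousOn u Θ
  dense : Θ ⊆ closure {z | z ∈ Θ ∧ u z ≠ ⊤}
  comp : ∀ (a b : Fin n → ℝ) (t₁ t₂ : ℝ), (∀ i, a i < b i) → t₁ < t₂ →
    closure (box a b t₁ t₂) ⊆ Θ → ∀ h : X n → ℝ, ContinuousOn h (closure (box a b t₁ t₂)) →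
    PParabolic p (box a b t₁ t₂) h → (∀ z ∈ pbd a b t₁ t₂, (h z : EReal) ≤ u z) →
    ∀ z ∈ box a b t₁ t₂, (h z : EReal) ≤ u z

/-- `p`-subparabolic functions. -/
def SubPar (p : ℝ) (Θ : Set (X n)) (v : X n → EReal) : Prop := SuperPar p Θ (fun z => - v z)

/-- The upper class of boundary data `f`. -/
def UpperClass (p : ℝ) (Θ : Set (X n)) (f : X n → ℝ) : Set (X n → EReal) :=
  {u | SuperPar p Θ u ∧ (∃ m : ℝ, ∀ z ∈ Θ, (m : EReal) ≤ u z) ∧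
    ∀ ξ ∈ frontier Θ, (f ξ : EReal) ≤ liminf u (𝓝[Θ] ξ)}

/-- The lower class of boundary data `f`. -/
def LowerClass (p : ℝ) (Θ : Set (X n)) (f : X n → ℝ) : Set (X n → EReal) :=
  {v | SubPar p Θ v ∧ (∃ m : ℝ, ∀ z ∈ Θ, v z ≤ (m : EReal)) ∧
    ∀ ξ ∈ frontier Θ, limsup v (𝓝[Θ] ξ) ≤ (f ξ : EReal)}

/-- The upper Perron solution. -/
def upperH (p : ℝ) (Θ : Set (X n)) (f : X n → ℝ) (z : X n) : EReal :=
  ⨅ u ∈ UpperClass p Θ f, u z

/-- The lower Perron solution. -/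
def lowerH (p : ℝ) (Θ : Set (X n)) (f : X n → ℝ) (z : X n) : EReal :=
  ⨆ v ∈ LowerClass p Θ f, v z

/-! ## Internal notions -/

/-- The conjugate exponent. -/
def cj (p : ℝ) : ℝ := p / (p - 1)

/-- `g` is the weak time derivative of `u` in the whole space. -/
def WT (u g : X n → ℝ) : Prop :=
  ∀ φ, Tst univ φ → ∫ z, u z * dt φ z = - ∫ z, φ z * g z

/-- Bounded functions vanishing outside `C` with weak spatial gradient `Φ` in `L^p`. -/
structure W0 (p : ℝ) (C : Set (X n)) (φ : X n → ℝ) (Φ : X n → E n) : Prop where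
  meas : AEStronglyMeasurable φ volume
  bdd : ∃ M : ℝ, ∀ᵐ z, |φ z| ≤ M
  zero : ∀ᵐ z, z ∉ C → φ z = 0
  mem : MemLp Φ (ENNReal.ofReal p) volume
  wg : WG univ φ Φ

/-- As `W0`, with a weak time derivative in `L²`. -/
structure W1 (p : ℝ) (C : Set (X n)) (φ φt : X n → ℝ) (Φ : X n → E n) : Prop
    extends W0 p C φ Φ where
  memt : MemLp φt 2 volume
  wt : WT φ φt

/-- The differential inequality `∂ₜ u ≤ div Γ + e` in `Ω`. -/
def DI (Ω : Set (X n)) (u : X n → ℝ) (Γ : X n → E n) (e : X n → ℝ) : Prop :=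
  ∀ φ, Tst Ω φ → (∀ z, 0 ≤ φ z) →
    (- ∫ z, u z * dt φ z) + ∫ z, inner ℝ (Γ z) (dx φ z) ≤ ∫ z, e z * φ z

/-- Time shift. -/
def sh {F : Type*} (s : ℝ) (φ : X n → F) (z : X n) : F := φ (z.1, z.2 + s)

/-- Steklov average over `[t, t + h]` (also for `h < 0`). -/
def av {F : Type*} [NormedAddCommGroup F] [NormedSpace ℝ F] (h : ℝ) (φ : X n → F) (z : X n) : F :=
  h⁻¹ • ∫ s in (0 : ℝ)..h, φ (z.1, z.2 + s)

/-- Exponential forward average. -/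
def ex {F : Type*} [NormedAddCommGroup F] [NormedSpace ℝ F] (ε : ℝ) (φ : X n → F) (z : X n) : F :=
  ∫ s in Ioi (0 : ℝ), (ε⁻¹ * Real.exp (-(s / ε))) • φ (z.1, z.2 + s)

/-- Bounded weak supersolutions `∂ₜ u - div A(G) ≥ 0` in an open set `Ω`, `G = ∇ u`. -/
structure SupOn (p : ℝ) (Ω : Set (X n)) (u : X n → ℝ) (G : X n → E n) : Prop where
  meas : AEStronglyMeasurable u (volume.restrict Ω)
  bdd : ∃ M : ℝ, ∀ᵐ z ∂(volume.restrict Ω), |u z| ≤ M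
  memG : ∀ K, IsCompact K → K ⊆ Ω → MemLp G (ENNReal.ofReal p) (volume.restrict K)
  wg : WG Ω u G
  ineq : ∀ φ, Tst Ω φ → (∀ z, 0 ≤ φ z) →
    ∫ z, u z * dt φ z ≤ ∫ z, inner ℝ (A p (G z)) (dx φ z)

/-- Bounded weak solutions. -/
structure SolOn (p : ℝ) (Ω : Set (X n)) (u : X n → ℝ) (G : X n → E n) : Prop
    extends SupOn p Ω u G where
  eq : WEq p Ω u G

/-- Solutions of the regularised obstacle problem
`-ε ∂ₜₜ U + ∂ₜ U - Δ_p U ≥ 0`, `U = F + z`, `z = 0` outside `C`, `z ≥ - obs`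
(variational inequality). -/
structure RegSol (p ε : ℝ) (C : Set (X n)) (obs F : X n → ℝ) (z zt : X n → ℝ)
    (G : X n → E n) : Prop where
  w : W1 p C z zt G
  ob : ∀ᵐ y, - obs y ≤ z y
  vi : ∀ φ φt Φ, W1 p C φ φt Φ → (∃ s > 0, ∀ᵐ y, - obs y ≤ z y + s * φ y) →
    0 ≤ ∫ y, (ε * ((dt F y + zt y) * φt y) + (dt F y + zt y) * φ y +
      inner ℝ (A p (dx F y + G y)) (Φ y))

/-- Good boundary data: the error term `e` bounds `-ε F_tt + F_t - Δ_p F`. -/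
structure Nice (p : ℝ) (Θ : Set (X n)) (F e : X n → ℝ) : Prop where
  tst : Tst univ F
  int : Integrable e volume
  nonneg : ∀ z, 0 ≤ e z
  bound : ∀ (ε : ℝ), 0 ≤ ε → ε ≤ 1 → ∀ C, IsCompact C → C ⊆ Θ → ∀ φ φt Φ, W1 p C φ φt Φ →
    (∀ᵐ z, 0 ≤ φ z) →
    |∫ y, (ε * (dt F y * φt y) + dt F y * φ y + inner ℝ (A p (dx F y)) (Φ y))| ≤ ∫ y, e y * φ y

/-- Compact exhaustion of `Θ`. -/
def Cx (Θ : Set (X n)) (k : ℕ) : Set (X n) := {z | z ∈ Θ ∧ 1 / ((k : ℝ) + 1) ≤ infDist z Θᶜ}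

/-- Lower semicontinuous representative (essential lower limit) of a bounded function. -/
def lsr (u : X n → ℝ) (z : X n) : ℝ :=
  sSup {a : ℝ | ∃ r > 0, ∀ᵐ y ∂(volume.restrict (ball z r)), a ≤ u y}

end PP
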