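import Pool.Agent.PP.MOL
import Pool.Agent.PP.CAL2
import Pool.Agent.PP.LPS

open Set Metric Filter Topology MeasureTheory
open scoped ContDiff

noncomputable section

namespace PP

variable {n : ℕ}
variable {p : ℝ}

/-- Cauchy-Schwarz for the limit in time -/
theorem ext1_time {μ : Measure (X n)} {u : X n → ℝ} {g : ℕ → X n → ℝ} {h : X n → ℝ}
    (hu : MemLp u 2 μ) (hg : ∀ k, MemLp (g k) 2 μ) (hh : MemLp h 2 μ)
    (hlim : Tendsto (fun k => ∫ z, (g k z - h z) ^ 2 ∂μ) atTop (𝓝 0)) :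
    Tendsto (fun k => ∫ z, u z * g k z ∂μ) atTop (𝓝 (∫ z, u z * h z ∂μ)) := by
  rw [tendsto_iff_norm_sub_tendsto_zero]
  have h22 : Real.HolderConjugate 2 2 := by
    rw [Real.holderConjugate_iff]; norm_num
  have hb : ∀ k, ‖(∫ z, u z * g k z ∂μ) - ∫ z, u z * h z ∂μ‖ ≤
      (∫ z, ‖u z‖ ^ (2 : ℝ) ∂μ) ^ (1 / 2 : ℝ) * (∫ z, (g k z - h z) ^ 2 ∂μ) ^ (1 / 2 : ℝ) := by
    intro k
    have i1 : Integrable (fun z => u z * g k z) μ := hu.integrable_mul (hg k)
    have i2 : Integrable (fun z => u z * h z) μ := hu.integrable_mul hh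
    rw [← integral_sub i1 i2]
    have e1 : ∀ z, u z * g k z - u z * h z = u z * (g k z - h z) := fun z => by ring
    simp only [e1]
    refine (norm_integral_le_integral_norm _).trans ?_
    simp only [norm_mul]
    have hu' : MemLp u (ENNReal.ofReal 2) μ := by simpa using hu
    have h2 : ENNReal.ofReal 2 = 2 := by simp
    have hd' : MemLp (fun z => g k z - h z) (ENNReal.ofReal 2) μ := by
      rw [h2]; exact (hg k).sub hh
    have := integral_mul_norm_le_Lp_mul_Lq h22 hu' hd'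
    refine this.trans (le_of_eq ?_)
    congr 3
    funext z
    rw [Real.rpow_two, Real.norm_eq_abs, sq_abs]
  refine squeeze_zero (fun k => norm_nonneg _) hb ?_
  have h3 := (hlim.rpow_const (p := (1 / 2 : ℝ)) (Or.inr (by norm_num))).const_mul
    ((∫ z, ‖u z‖ ^ (2 : ℝ) ∂μ) ^ (1 / 2 : ℝ))
  rw [Real.zero_rpow (by norm_num), mul_zero] at h3
  exact h3

/-- Hoelder for the limit in space -/
theorem ext1_space (hp : 1 < p) {μ : Measure (X n)} {Γ : X n → E n} {g : ℕ → X n → E n}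
    {h : X n → E n}
    (hΓ : MemLp Γ (ENNReal.ofReal (cj p)) μ) (hg : ∀ k, MemLp (g k) (ENNReal.ofReal p) μ)
    (hh : MemLp h (ENNReal.ofReal p) μ)
    (hlim : Tendsto (fun k => ∫ z, ‖g k z - h z‖ ^ p ∂μ) atTop (𝓝 0)) :
    Tendsto (fun k => ∫ z, inner ℝ (Γ z) (g k z) ∂μ) atTop (𝓝 (∫ z, inner ℝ (Γ z) (h z) ∂μ)) := by
  rw [tendsto_iff_norm_sub_tendsto_zero]
  have hb : ∀ k, ‖(∫ z, inner ℝ (Γ z) (g k z) ∂μ) - ∫ z, inner ℝ (Γ z) (h z) ∂μ‖ ≤
      (∫ z, ‖Γ z‖ ^ cj p ∂μ) ^ (1 / cj p) * (∫ z, ‖g k z - h z‖ ^ p ∂μ) ^ (1 / p) := by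
    intro k
    have i1 := (holder_inner hp hΓ (hg k)).1
    have i2 := (holder_inner hp hΓ hh).1
    rw [← integral_sub i1 i2]
    have e1 : ∀ z, (inner ℝ (Γ z) (g k z) : ℝ) - inner ℝ (Γ z) (h z) =
        inner ℝ (Γ z) (g k z - h z) := fun z => (inner_sub_right _ _ _).symm
    simp only [e1]
    exact (holder_inner hp hΓ ((hg k).sub hh)).2
  refine squeeze_zero (fun k => norm_nonneg _) hb ?_
  have hp0 : 0 < 1 / p := by positivity
  have h3 := (hlim.rpow_const (p := (1 / p)) (Or.inr hp0.le)).const_mul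
    ((∫ z, ‖Γ z‖ ^ cj p ∂μ) ^ (1 / cj p))
  rw [Real.zero_rpow hp0.ne', mul_zero] at h3
  exact h3

/-- the limit procedure -/
theorem ext1_lim (hp : 1 < p) {Ω C : Set (X n)} (hΩ : IsOpen Ω) (hC : IsCompact C) (hCΩ : C ⊆ Ω)
    {u : X n → ℝ} {Γ : X n → E n} (hum : AEStronglyMeasurable u (volume.restrict Ω))
    (hu : ∃ M : ℝ, ∀ᵐ z ∂(volume.restrict Ω), |u z| ≤ M)
    (hΓ : ∀ K, IsCompact K → K ⊆ Ω → MemLp Γ (ENNReal.ofReal (cj p)) (volume.restrict K))
    {φ φt : X n → ℝ} {Φ : X n → E n} (hφ : W1 p C φ φt Φ) :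
    ∃ f : ℕ → X n → ℝ, (∀ k, Tst Ω (f k)) ∧ ((∀ᵐ z, 0 ≤ φ z) → ∀ k z, 0 ≤ f k z) ∧
      Tendsto (fun k => ∫ z, u z * dt (f k) z) atTop (𝓝 (∫ z, u z * φt z)) ∧
      Tendsto (fun k => ∫ z, inner ℝ (Γ z) (dx (f k) z)) atTop (𝓝 (∫ z, inner ℝ (Γ z) (Φ z))) ∧
      ∀ e : X n → ℝ, (∀ K, IsCompact K → K ⊆ Ω → IntegrableOn e K volume) →
        Tendsto (fun k => ∫ z, e z * f k z) atTop (𝓝 (∫ z, e z * φ z)) := by
  obtain ⟨M, hM⟩ := hφ.bdd
  obtain ⟨f, f1, f2, f3, f4, f5, f6, K, hK, hKΩ, f7⟩ := mol_W1 hp hC hΩ hCΩ hφ hM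
  obtain ⟨Mu, hMu⟩ := hu
  set L : Set (X n) := K ∪ C with hL
  have hLc : IsCompact L := hK.union hC
  have hLΩ : L ⊆ Ω := union_subset hKΩ hCΩ
  have hLm : MeasurableSet L := hLc.isClosed.measurableSet
  have hCb : Bornology.IsBounded C := hC.isBounded
  have hfin : IsFiniteMeasure (volume.restrict L) :=
    ⟨by rw [Measure.restrict_apply_univ]; exact hLc.measure_lt_top⟩
  -- vanishing outside of L
  have z1 : ∀ k z, z ∉ L → f k z = 0 := fun k z hz => f7 k z fun h => hz (Or.inl h)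
  have hts : ∀ k, tsupport (f k) ⊆ K := by
    intro k
    apply closure_minimal _ hK.isClosed
    intro z hz
    by_contra hzL
    exact hz (f7 k z hzL)
  have z2 : ∀ k z, z ∉ L → dt (f k) z = 0 := fun k z hz =>
    dt_zero_of_notMem z fun h => hz (Or.inl (hts k h))
  have z3 : ∀ k z, z ∉ L → dx (f k) z = 0 := fun k z hz =>
    dx_zero_of_notMem z fun h => hz (Or.inl (hts k h))
  have z4 : ∀ᵐ z, z ∉ L → φ z = 0 := by
    filter_upwards [hφ.zero] with z hz hzL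
    exact hz fun h => hzL (Or.inr h)
  have z5 : ∀ᵐ z, z ∉ L → φt z = 0 := by
    filter_upwards [W1.time_off hp hCb hφ] with z hz hzL
    exact hz fun h => hzL (Or.inr h)
  have z6 : ∀ᵐ z, z ∉ L → Φ z = 0 := by
    filter_upwards [W0.grad_off hp hCb hφ.toW0] with z hz hzL
    exact hz fun h => hzL (Or.inr h)
  -- restriction to L
  have hres : ∀ g : X n → ℝ, (∀ᵐ z, z ∉ L → g z = 0) → ∫ z, g z = ∫ z in L, g z := by
    intro g hg
    exact (setIntegral_eq_integral_of_ae_compl_eq_zero hg).symm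
  have huL : MemLp u 2 (volume.restrict L) := by
    refine MemLp.of_bound (hum.mono_measure (Measure.restrict_mono_set _ hLΩ)) Mu ?_
    exact ae_mono (Measure.restrict_mono_set _ hLΩ) hMu
  have hW : ∀ k, W1 p (tsupport (f k)) (f k) (dt (f k)) (dx (f k)) := fun k => tst_W1 hp (f1 k)
  refine ⟨f, f1, f3, ?_, ?_, ?_⟩
  · have e1 : ∀ k, ∫ z, u z * dt (f k) z = ∫ z in L, u z * dt (f k) z := fun k =>
      hres _ (Eventually.of_forall fun z hz => by rw [z2 k z hz, mul_zero])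
    have e2 : ∫ z, u z * φt z = ∫ z in L, u z * φt z := hres _ (by
      filter_upwards [z5] with z hz hzL
      rw [hz hzL, mul_zero])
    simp only [e1, e2]
    refine ext1_time huL (fun k => (hW k).memt.restrict L) (hφ.memt.restrict L) ?_
    refine squeeze_zero (fun k => integral_nonneg fun z => sq_nonneg _) (fun k => ?_) f5
    refine setIntegral_le_integral ?_ (Eventually.of_forall fun z => sq_nonneg _)
    have := ((hW k).memt.sub hφ.memt).integrable_sq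
    simpa using this
  · have e1 : ∀ k, ∫ z, inner ℝ (Γ z) (dx (f k) z) = ∫ z in L, inner ℝ (Γ z) (dx (f k) z) :=
      fun k => hres _ (Eventually.of_forall fun z hz => by rw [z3 k z hz, inner_zero_right])
    have e2 : ∫ z, inner ℝ (Γ z) (Φ z) = ∫ z in L, inner ℝ (Γ z) (Φ z) := hres _ (by
      filter_upwards [z6] with z hz hzL
      rw [hz hzL, inner_zero_right])
    simp only [e1, e2]
    refine ext1_space hp (hΓ L hLc hLΩ) (fun k => (hW k).mem.restrict L) (hφ.mem.restrict L) ?_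
    refine squeeze_zero (fun k => integral_nonneg fun z => by positivity) (fun k => ?_) f6
    refine setIntegral_le_integral ?_ (Eventually.of_forall fun z => by positivity)
    have h1 := ((hW k).mem.sub hφ.mem).integrable_norm_rpow (by
      rw [Ne, ENNReal.ofReal_eq_zero]; linarith) ENNReal.ofReal_ne_top
    rw [ENNReal.toReal_ofReal (by linarith)] at h1
    simpa using h1
  · intro e he
    have e1 : ∀ k, ∫ z, e z * f k z = ∫ z in L, e z * f k z := fun k =>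
      hres _ (Eventually.of_forall fun z hz => by rw [z1 k z hz, mul_zero])
    have e2 : ∫ z, e z * φ z = ∫ z in L, e z * φ z := hres _ (by
      filter_upwards [z4] with z hz hzL
      rw [hz hzL, mul_zero])
    simp only [e1, e2]
    have heL : Integrable e (volume.restrict L) := he L hLc hLΩ
    refine tendsto_integral_of_dominated_convergence (fun z => |e z| * M) ?_ ?_ ?_ ?_
    · intro k
      exact heL.1.mul (f1 k).smooth.continuous.aestronglyMeasurable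
    · exact heL.abs.mul_const M
    · intro k
      refine Eventually.of_forall fun z => ?_
      rw [norm_mul, Real.norm_eq_abs, Real.norm_eq_abs]
      exact mul_le_mul_of_nonneg_left (f2 k z) (abs_nonneg _)
    · filter_upwards [ae_restrict_of_ae f4] with z hz
      exact hz.const_mul (e z)

/-- test a differential inequality with nonnegative `W1` functions -/
theorem ext_ineq (hp : 1 < p) {Ω C : Set (X n)} (hΩ : IsOpen Ω) (hC : IsCompact C) (hCΩ : C ⊆ Ω)
    {u e : X n → ℝ} {Γ : X n → E n} (hum : AEStronglyMeasurable u (volume.restrict Ω))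
    (hu : ∃ M : ℝ, ∀ᵐ z ∂(volume.restrict Ω), |u z| ≤ M)
    (hΓ : ∀ K, IsCompact K → K ⊆ Ω → MemLp Γ (ENNReal.ofReal (cj p)) (volume.restrict K))
    (he : ∀ K, IsCompact K → K ⊆ Ω → IntegrableOn e K volume) (h : DI Ω u Γ e)
    {φ φt : X n → ℝ} {Φ : X n → E n} (hφ : W1 p C φ φt Φ) (h0 : ∀ᵐ z, 0 ≤ φ z) :
    (- ∫ z, u z * φt z) + ∫ z, inner ℝ (Γ z) (Φ z) ≤ ∫ z, e z * φ z := by
  obtain ⟨f, f1, f2, f3, f4, f5⟩ := ext1_lim hp hΩ hC hCΩ hum hu hΓ hφ
  exact le_of_tendsto_of_tendsto' (f3.neg.add f4) (f5 e he) fun k => h (f k) (f1 k) (f2 h0 k)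

/-- test an equation with `W1` functions -/
theorem ext_eq (hp : 1 < p) {Ω C : Set (X n)} (hΩ : IsOpen Ω) (hC : IsCompact C) (hCΩ : C ⊆ Ω)
    {u : X n → ℝ} {Γ : X n → E n} (hum : AEStronglyMeasurable u (volume.restrict Ω))
    (hu : ∃ M : ℝ, ∀ᵐ z ∂(volume.restrict Ω), |u z| ≤ M)
    (hΓ : ∀ K, IsCompact K → K ⊆ Ω → MemLp Γ (ENNReal.ofReal (cj p)) (volume.restrict K))
    (h : ∀ φ, Tst Ω φ → ∫ z, inner ℝ (Γ z) (dx φ z) = ∫ z, u z * dt φ z)
    {φ φt : X n → ℝ} {Φ : X n → E n} (hφ : W1 p C φ φt Φ) :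
    ∫ z, inner ℝ (Γ z) (Φ z) = ∫ z, u z * φt z := by
  obtain ⟨f, f1, _, f3, f4, _⟩ := ext1_lim hp hΩ hC hCΩ hum hu hΓ hφ
  refine tendsto_nhds_unique f4 ?_
  simp only [fun k => h (f k) (f1 k)]
  exact f3

end PP
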