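import Pool.Agent.PP.TIM
import Pool.Agent.PP.EXT1
import Pool.Agent.PP.EXT2
import Pool.Agent.PP.CAL2
import Pool.Agent.PP.CAL3
import Pool.Agent.PP.LOC

open Set Metric Filter Topology MeasureTheory
open scoped ContDiff

noncomputable section

namespace PP

variable {n : ℕ}
variable {p : ℝ}

/-- exponent for cut off functions -/
def mp (p : ℝ) : ℕ := ⌈p⌉₊ + 1

theorem ent_dx_zero {φ : X n → ℝ} {z : X n} {c : ℝ} (h : ∀ᶠ y in 𝓝 z, φ y = c) : dx φ z = 0 := by
  have h2 : Tendsto (fun x : E n => (x, z.2)) (𝓝 z.1) (𝓝 z) := by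
    have : Continuous (fun x : E n => (x, z.2)) := by fun_prop
    exact this.tendsto z.1
  have h3 : (fun x => φ (x, z.2)) =ᶠ[𝓝 z.1] fun _ => c := h2.eventually h
  unfold dx gradient
  rw [h3.fderiv_eq]
  simp

theorem ent_hasDerivAt {ζ : X n → ℝ} (hζ : ContDiff ℝ ∞ ζ) (z : X n) :
    HasDerivAt (fun t : ℝ => ζ (z.1, t)) (dt ζ z) z.2 := by
  have h1 : HasFDerivAt ζ (fderiv ℝ ζ z) (z.1, z.2) :=
    (hζ.differentiable (by simp)).differentiableAt.hasFDerivAt
  have h0 : HasFDerivAt (fun t : ℝ => (z.1, t)) (ContinuousLinearMap.inr ℝ (E n) ℝ) z.2 :=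
    hasFDerivAt_prodMk_right z.1 z.2
  have h2 : HasFDerivAt (fun t => ζ (z.1, t)) ((fderiv ℝ ζ z).comp
      (ContinuousLinearMap.inr ℝ (E n) ℝ)) z.2 :=
    HasFDerivAt.comp (g := ζ) (f := fun t : ℝ => (z.1, t)) z.2 h1 h0
  have h3 := h2.hasDerivAt
  rw [dt_eq hζ]
  simpa using h3

/-- Lipschitz bound in time -/
theorem ent_lip {Ω : Set (X n)} {ζ : X n → ℝ} (hζ : Tst Ω ζ) :
    ∃ L : ℝ, 0 ≤ L ∧ ∀ (z : X n) (s : ℝ), 0 ≤ s → |ζ z - sh s ζ z| ≤ L * s := by
  obtain ⟨_, _, c2, s2⟩ := der_tst_int hζ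
  obtain ⟨L, hL⟩ := s2.exists_bound_of_continuous c2
  refine ⟨L, (norm_nonneg _).trans (hL 0), fun z s hs => ?_⟩
  have h := Convex.norm_image_sub_le_of_norm_hasDerivWithin_le (f := fun t : ℝ => ζ (z.1, t))
    (f' := fun t => dt ζ (z.1, t)) (C := L) (s := univ) (x := z.2 + s) (y := z.2)
    (fun t _ => (ent_hasDerivAt hζ.smooth (z.1, t)).hasDerivWithinAt)
    (fun t _ => hL (z.1, t)) convex_univ (mem_univ _) (mem_univ _)
  have h2 : z.2 - (z.2 + s) = -s := by ring
  rw [h2, norm_neg, Real.norm_eq_abs, Real.norm_eq_abs, abs_of_nonneg hs] at h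
  exact h

/-- local representation of the positive part -/
theorem ent_loc (hp : 1 < p) {Ω : Set (X n)} (hΩ : IsOpen Ω) {u : X n → ℝ} {Gu : X n → E n}
    (hum : AEStronglyMeasurable u (volume.restrict Ω))
    (hu : ∃ M : ℝ, ∀ᵐ z ∂(volume.restrict Ω), |u z| ≤ M)
    (hG : ∀ K, IsCompact K → K ⊆ Ω → MemLp Gu (ENNReal.ofReal p) (volume.restrict K))
    (hwg : WG Ω u Gu) {S : Set (X n)} (hS : IsCompact S) (hSΩ : S ⊆ Ω) :
    ∃ (C : Set (X n)) (w : X n → ℝ) (W : X n → E n), IsCompact C ∧ C ⊆ Ω ∧ W0 p C w W ∧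
      (∀ z, 0 ≤ w z) ∧
      ∀ z ∈ S, w z = max (u z) 0 ∧ W z = if 0 < u z then Gu z else 0 := by
  obtain ⟨χ, hχ, hχ01, hχ1⟩ := exists_cutoff hS hΩ hSΩ
  have hχ1' : ∀ z ∈ S, ∀ᶠ y in 𝓝 z, χ y = 1 := fun z hz =>
    (eventually_nhdsSet_iff_forall.1 hχ1) z hz
  refine ⟨tsupport χ, fun z => max (χ z * u z) 0,
    fun z => if 0 < χ z * u z then χ z • Gu z + u z • dx χ z else 0, hχ.cpt, hχ.supp,
    W0.pos hp hχ.cpt.isBounded (wg_localize hp hΩ hum hu hG hwg hχ), fun z => le_max_right _ _,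
    fun z hz => ?_⟩
  have e1 : χ z = 1 := (hχ1' z hz).self_of_nhds
  refine ⟨?_, ?_⟩
  · show max (χ z * u z) 0 = max (u z) 0
    rw [e1, one_mul]
  · show (if 0 < χ z * u z then χ z • Gu z + u z • dx χ z else 0) = _
    rw [e1, one_mul, one_smul, ent_dx_zero (hχ1' z hz), smul_zero, add_zero]

/-- the differential inequality for the square of the positive part -/
theorem ent_conv (hp : 1 < p) {Ω : Set (X n)} (hΩ : IsOpen Ω) {u : X n → ℝ} {Gu Γ : X n → E n}
    (hum : AEStronglyMeasurable u (volume.restrict Ω))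
    (hu : ∃ M : ℝ, ∀ᵐ z ∂(volume.restrict Ω), |u z| ≤ M)
    (hG : ∀ K, IsCompact K → K ⊆ Ω → MemLp Gu (ENNReal.ofReal p) (volume.restrict K))
    (hwg : WG Ω u Gu)
    (hΓ : ∀ K, IsCompact K → K ⊆ Ω → MemLp Γ (ENNReal.ofReal (cj p)) (volume.restrict K))
    (hDI : DI Ω u Γ (fun _ => 0)) {ζ : X n → ℝ} (hζ : Tst Ω ζ) (h0 : ∀ z, 0 ≤ ζ z) :
    -((1 / 2) * ∫ z, dt ζ z * (max (u z) 0) ^ 2) ≤
      - ∫ z, inner ℝ (Γ z) (ζ z • (if 0 < u z then Gu z else 0) + max (u z) 0 • dx ζ z) := by
  set S : Set (X n) := tsupport ζ with hS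
  have hSc : IsCompact S := hζ.cpt
  obtain ⟨δ, hδ, hδΩ⟩ := hSc.exists_cthickening_subset_open hΩ hζ.supp
  set D₂ : Set (X n) := cthickening δ S with hD₂
  have hD₂c : IsCompact D₂ := hSc.cthickening
  obtain ⟨C, w, W, hC, hCΩ, hw, hw0, hwW⟩ := ent_loc hp hΩ hum hu hG hwg hD₂c hδΩ
  have hζS : ∀ z, z ∉ S → ζ z = 0 := fun z hz => image_eq_zero_of_notMem_tsupport hz
  have hSD : S ⊆ D₂ := self_subset_cthickening _
  have hshift : ∀ s : ℝ, 0 ≤ s → s ≤ δ → ∀ z : X n, ∀ r ∈ Icc 0 s, (z.1, z.2 + r) ∈ S → z ∈ D₂ := by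
    intro s _ hsδ z r hr hz
    refine mem_cthickening_of_dist_le z (z.1, z.2 + r) δ S hz ?_
    rw [Prod.dist_eq, dist_self, Real.dist_eq]
    have : |z.2 - (z.2 + r)| = r := by
      rw [show z.2 - (z.2 + r) = -r by ring, abs_neg, abs_of_nonneg hr.1]
    rw [this]
    exact max_le hδ.le (hr.2.trans hsδ)
  set φ : X n → ℝ := fun z => ζ z * w z with hφ
  set Φ : X n → E n := fun z => ζ z • W z + w z • dx ζ z with hΦ
  have hφ1 : W0 p C φ Φ := W0.smooth_mul hp hC.isBounded hζ.smooth hw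
  have hφ2 : W0 p S φ Φ := hφ1.of_zero (Eventually.of_forall fun z hz => by
    show ζ z * w z = 0
    rw [hζS z hz, zero_mul])
  have hφ0 : ∀ z, 0 ≤ φ z := fun z => mul_nonneg (h0 z) (hw0 z)
  have hζc : Continuous ζ := hζ.smooth.continuous
  obtain ⟨B, hB⟩ := hζ.cpt.exists_bound_of_continuous hζc
  obtain ⟨Lz, hLz0, hLz⟩ := ent_lip hζ
  have hw2 : Integrable (fun z => w z ^ 2) volume :=
    (W0.memLp_fn hC.isBounded hw 2).integrable_sq
  have hmain : ∀ s : ℝ, 0 < s → s ≤ δ →
      ∫ z, ((ζ z - sh s ζ z) / s) * w z ^ 2 ≤ -(2 * ∫ z, inner ℝ (Γ z) (av s Φ z)) := by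
    intro s hs hsδ
    have h1 := shf_ineq hp hΩ hSc hD₂c hδΩ hs (hshift s hs.le hsδ) hum hu hΓ
      (fun K _ _ => integrableOn_zero) hDI hφ2 (Eventually.of_forall hφ0)
    simp only [zero_mul, integral_zero, add_zero] at h1
    obtain ⟨i1, _, i3⟩ := ext2_int hD₂c hδΩ hs.le (hshift s hs.le hsδ) hum hu hφ2
    have i4 : Integrable (fun z => φ z * (u z - sh (-s) u z)) volume := by
      refine (i1.sub i3).congr (Eventually.of_forall fun z => ?_)
      simp only [Pi.sub_apply]
      ring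
    have hqs := (ext2_shift_mp (n := n) (-s))
    have i5 : Integrable (fun z => ζ z * w z ^ 2) volume :=
      hw2.bdd_mul (c := B) hζc.aestronglyMeasurable (Eventually.of_forall hB)
    have i6 : Integrable (fun z => ζ z * sh (-s) w z ^ 2) volume := by
      have h2 : Integrable (fun z => sh (-s) w z ^ 2) volume :=
        hqs.integrable_comp_of_integrable hw2
      exact h2.bdd_mul (c := B) hζc.aestronglyMeasurable (Eventually.of_forall hB)
    have i7 : Integrable (fun z => sh s ζ z * w z ^ 2) volume := by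
      have hc2 : Continuous (sh s ζ) := by
        unfold sh
        exact hζc.comp (by fun_prop)
      refine hw2.bdd_mul (c := B) hc2.aestronglyMeasurable (Eventually.of_forall fun z => ?_)
      exact hB (z.1, z.2 + s)
    have h2 : ∫ z, (ζ z * w z ^ 2 - ζ z * sh (-s) w z ^ 2) / 2 ≤
        ∫ z, φ z * (u z - sh (-s) u z) := by
      refine integral_mono ((i5.sub i6).div_const 2) i4 fun z => ?_
      show (ζ z * w z ^ 2 - ζ z * sh (-s) w z ^ 2) / 2 ≤ ζ z * w z * (u z - sh (-s) u z)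
      by_cases hzS : z ∈ S
      · have e1 := (hwW z (hSD hzS)).1
        have hz2 : ((z.1, z.2 + -s) : X n) ∈ D₂ := by
          refine hshift s hs.le hsδ _ s ⟨hs.le, le_rfl⟩ ?_
          simpa using hzS
        have e2 : sh (-s) w z = max (sh (-s) u z) 0 := (hwW _ hz2).1
        have h8 : sh (-s) u z ≤ sh (-s) w z := by rw [e2]; exact le_max_left _ _
        have h9 : 0 ≤ sh (-s) w z := by rw [e2]; exact le_max_right _ _
        have h10 := h0 z
        have h11 : w z * (u z - sh (-s) u z) ≥ (w z ^ 2 - sh (-s) w z ^ 2) / 2 := by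
          rcases le_or_gt (u z) 0 with h | h
          · have : w z = 0 := by rw [e1]; exact max_eq_right h
            rw [this]
            nlinarith [sq_nonneg (sh (-s) w z)]
          · have h3 : w z = u z := by rw [e1]; exact max_eq_left h.le
            rw [← h3]
            rw [← h3] at h
            nlinarith [sq_nonneg (w z - sh (-s) w z), mul_le_mul_of_nonneg_left h8 h.le]
        calc (ζ z * w z ^ 2 - ζ z * sh (-s) w z ^ 2) / 2
            = ζ z * ((w z ^ 2 - sh (-s) w z ^ 2) / 2) := by ring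
          _ ≤ ζ z * (w z * (u z - sh (-s) u z)) := mul_le_mul_of_nonneg_left h11 h10
          _ = ζ z * w z * (u z - sh (-s) u z) := by ring
      · rw [hζS z hzS]
        simp
    have h3 : ∫ z, (ζ z * w z ^ 2 - ζ z * sh (-s) w z ^ 2) / 2 =
        (∫ z, (ζ z - sh s ζ z) * w z ^ 2) / 2 := by
      rw [integral_div, integral_sub i5 i6]
      congr 1
      have e1 : ∫ z, ζ z * sh (-s) w z ^ 2 = ∫ z, sh s ζ z * w z ^ 2 := by
        rw [← ext2_shift_integral (fun z : X n => ζ z * sh (-s) w z ^ 2) s]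
        congr 1
        funext z
        simp [sh]
      rw [e1, ← integral_sub i5 i7]
      congr 1
      funext z
      ring
    have h4 : ∫ z, ((ζ z - sh s ζ z) / s) * w z ^ 2 = s⁻¹ * ∫ z, (ζ z - sh s ζ z) * w z ^ 2 := by
      rw [← integral_const_mul]
      congr 1
      funext z
      ring
    rw [h3] at h2
    have h5 := mul_le_mul_of_nonneg_left h2 (inv_nonneg.2 hs.le)
    rw [h4]
    linarith
  -- the sequence of steps
  set σ : ℕ → ℝ := fun k => δ / ((k : ℝ) + 1) with hσ
  have hσ0 : ∀ k, 0 < σ k := fun k => by positivity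
  have hσδ : ∀ k, σ k ≤ δ := fun k => by
    apply div_le_self hδ.le
    have : (0 : ℝ) ≤ k := Nat.cast_nonneg k
    linarith
  have hσt : Tendsto σ atTop (𝓝 0) := by
    have := tendsto_one_div_add_atTop_nhds_zero_nat (𝕜 := ℝ)
    have h2 := this.const_mul δ
    rw [mul_zero] at h2
    refine h2.congr fun k => ?_
    simp only [hσ]
    ring
  have hσt' : Tendsto σ atTop (𝓝[≠] 0) :=
    tendsto_nhdsWithin_iff.2 ⟨hσt, Eventually.of_forall fun k => (hσ0 k).ne'⟩
  have hR : Tendsto (fun k => ∫ z, inner ℝ (Γ z) (av (σ k) Φ z)) atTop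
      (𝓝 (∫ z, inner ℝ (Γ z) (Φ z))) := by
    have hWk : ∀ k, W1 p D₂ (av (σ k) φ) (fun z => (σ k)⁻¹ * (sh (σ k) φ z - φ z)) (av (σ k) Φ) := by
      intro k
      refine W0.avg hp hSc.isBounded hφ2 (hσ0 k).ne' ?_
      intro z r hr
      rw [uIcc_of_le (hσ0 k).le] at hr
      exact hshift (σ k) (hσ0 k).le (hσδ k) z r hr
    have e1 : ∀ k, ∫ z, inner ℝ (Γ z) (av (σ k) Φ z) =
        ∫ z in D₂, inner ℝ (Γ z) (av (σ k) Φ z) := by
      intro k
      refine (setIntegral_eq_integral_of_ae_compl_eq_zero ?_).symm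
      filter_upwards [W0.grad_off hp hD₂c.isBounded (hWk k).toW0] with z hz hzD
      rw [hz hzD, inner_zero_right]
    have e2 : ∫ z, inner ℝ (Γ z) (Φ z) = ∫ z in D₂, inner ℝ (Γ z) (Φ z) := by
      refine (setIntegral_eq_integral_of_ae_compl_eq_zero ?_).symm
      filter_upwards [W0.grad_off hp hSc.isBounded hφ2] with z hz hzD
      rw [hz fun h => hzD (hSD h), inner_zero_right]
    simp only [e1, e2]
    refine ext1_space hp (hΓ D₂ hD₂c hδΩ) (fun k => (hWk k).mem.restrict D₂)
      (hφ2.mem.restrict D₂) ?_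
    have h1 := (av_tendsto hp.le hφ2.mem).comp hσt'
    refine squeeze_zero (fun k => integral_nonneg fun z => by positivity) (fun k => ?_) h1
    refine setIntegral_le_integral ?_ (Eventually.of_forall fun z => by positivity)
    have h2 := ((hWk k).mem.sub hφ2.mem).integrable_norm_rpow (by
      rw [Ne, ENNReal.ofReal_eq_zero]; linarith) ENNReal.ofReal_ne_top
    rw [ENNReal.toReal_ofReal (by linarith)] at h2
    simpa using h2
  have hLim : Tendsto (fun k => ∫ z, ((ζ z - sh (σ k) ζ z) / σ k) * w z ^ 2) atTop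
      (𝓝 (∫ z : X n, (- dt ζ z) * w z ^ 2)) := by
    refine tendsto_integral_of_dominated_convergence (fun z => Lz * w z ^ 2) ?_ ?_ ?_ ?_
    · intro k
      have hc2 : Continuous (sh (σ k) ζ) := by
        unfold sh
        exact hζc.comp (by fun_prop)
      exact ((hζc.sub hc2).div_const _).aestronglyMeasurable.mul hw2.1
    · exact hw2.const_mul Lz
    · intro k
      refine Eventually.of_forall fun z => ?_
      rw [norm_mul, norm_div, Real.norm_eq_abs, Real.norm_eq_abs, Real.norm_eq_abs,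
        abs_of_nonneg (sq_nonneg (w z))]
      refine mul_le_mul_of_nonneg_right ?_ (sq_nonneg _)
      rw [abs_of_pos (hσ0 k), div_le_iff₀ (hσ0 k)]
      exact hLz z (σ k) (hσ0 k).le
    · refine Eventually.of_forall fun z => ?_
      refine Tendsto.mul_const _ ?_
      have h1 := (ent_hasDerivAt hζ.smooth z).tendsto_slope
      have h2 : Tendsto (fun k => z.2 + σ k) atTop (𝓝[≠] z.2) := by
        refine tendsto_nhdsWithin_iff.2 ⟨?_, Eventually.of_forall fun k => ?_⟩
        · have := hσt.const_add z.2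
          rwa [add_zero] at this
        · have := hσ0 k
          simp only [mem_compl_iff, mem_singleton_iff]
          intro hcon
          linarith
      refine (h1.comp h2).neg.congr fun k => ?_
      simp only [Function.comp_apply, slope_def_field]
      have h3 : z.2 + σ k - z.2 = σ k := by ring
      rw [h3]
      show -((ζ (z.1, z.2 + σ k) - ζ (z.1, z.2)) / σ k) = (ζ z - ζ (z.1, z.2 + σ k)) / σ k
      rw [← neg_div]
      congr 1
      ring
  have hfinal := le_of_tendsto_of_tendsto' hLim ((hR.const_mul 2).neg)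
    (fun k => hmain (σ k) (hσ0 k) (hσδ k))
  -- back to `u`
  have e1 : ∫ z : X n, (- dt ζ z) * w z ^ 2 = - ∫ z, dt ζ z * (max (u z) 0) ^ 2 := by
    rw [← integral_neg]
    congr 1
    funext z
    by_cases hzS : z ∈ S
    · rw [(hwW z (hSD hzS)).1]
      ring
    · rw [dt_zero_of_notMem z hzS]
      ring
  have e2 : ∫ z, inner ℝ (Γ z) (Φ z) =
      ∫ z, inner ℝ (Γ z) (ζ z • (if 0 < u z then Gu z else 0) + max (u z) 0 • dx ζ z) := by
    congr 1
    funext z
    by_cases hzS : z ∈ S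
    · obtain ⟨a1, a2⟩ := hwW z (hSD hzS)
      show inner ℝ (Γ z) (ζ z • W z + w z • dx ζ z) = _
      rw [a1, a2]
    · show inner ℝ (Γ z) (ζ z • W z + w z • dx ζ z) = _
      rw [dx_zero_of_notMem z hzS, hζS z hzS]
      simp
  rw [e1, e2] at hfinal
  linarith

/-- Young's inequality for the cut off functions -/
theorem ent_young (hp : 1 < p) {m : ℕ} (hm : p ≤ m) {η g b : ℝ} (h0 : 0 ≤ η) (h1 : η ≤ 1)
    (hg : 0 ≤ g) (hb : 0 ≤ b) :
    m * η ^ (m - 1) * g ^ (p - 1) * b ≤
      (1 / 2) * (η ^ m * g ^ p) + m * (2 * m) ^ (p - 1) * b ^ p := by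
  have hm1 : 1 < (m : ℝ) := hp.trans_le hm
  have hm1' : 1 < m := by exact_mod_cast hm1
  have hp1 : 0 < p - 1 := by linarith
  have hnn1 : 0 ≤ (1 / 2) * (η ^ m * g ^ p) := by positivity
  have hnn2 : 0 ≤ m * (2 * m) ^ (p - 1) * b ^ p := by positivity
  rcases h0.eq_or_lt with h | hη
  · rw [← h, zero_pow (by omega)]
    simp only [mul_zero, zero_mul]
    have : (0 : ℝ) ^ m * g ^ p = 0 := by rw [zero_pow (by omega), zero_mul]
    linarith
  rcases hg.eq_or_lt with h | hg'
  · rw [← h, Real.zero_rpow hp1.ne']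
    simp only [mul_zero, zero_mul]
    have : η ^ m * (0 : ℝ) ^ p = 0 := by rw [Real.zero_rpow (by linarith), mul_zero]
    rw [h.symm] at hnn1
    linarith
  by_cases hcase : 2 * m * b ≤ η * g
  · -- absorbed
    have e1 : η ^ m * g ^ p = (η ^ (m - 1) * g ^ (p - 1)) * (η * g) := by
      have a1 : η ^ m = η ^ (m - 1) * η := by
        rw [← pow_succ]; congr 1; omega
      rw [a1, pw1_rpow_split hp hg]
      ring
    have h2 : 0 ≤ η ^ (m - 1) * g ^ (p - 1) := by positivity
    have h3 := mul_le_mul_of_nonneg_left hcase h2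
    rw [e1]
    have e2 : m * η ^ (m - 1) * g ^ (p - 1) * b =
        (1 / 2) * ((η ^ (m - 1) * g ^ (p - 1)) * (2 * m * b)) := by ring
    rw [e2]
    linarith
  · push Not at hcase
    have e1 : η ^ (m - 1) * g ^ (p - 1) ≤ (η * g) ^ (p - 1) := by
      rw [Real.mul_rpow hη.le hg]
      refine mul_le_mul_of_nonneg_right ?_ (by positivity)
      have a1 : η ^ (m - 1) = η ^ (((m - 1 : ℕ) : ℝ)) := (Real.rpow_natCast _ _).symm
      rw [a1]
      refine Real.rpow_le_rpow_of_exponent_ge hη h1 ?_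
      rw [Nat.cast_sub hm1'.le]
      push_cast
      linarith
    have e2 : (η * g) ^ (p - 1) ≤ (2 * m * b) ^ (p - 1) :=
      Real.rpow_le_rpow (by positivity) hcase.le hp1.le
    have e3 : (2 * m * b) ^ (p - 1) = (2 * m) ^ (p - 1) * b ^ (p - 1) := by
      rw [Real.mul_rpow (by positivity) hb]
    have e4 : m * η ^ (m - 1) * g ^ (p - 1) * b = (η ^ (m - 1) * g ^ (p - 1)) * (m * b) := by ring
    have e5 : m * (2 * m) ^ (p - 1) * b ^ p = ((2 * m) ^ (p - 1) * b ^ (p - 1)) * (m * b) := by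
      rw [pw1_rpow_split hp hb]
      ring
    rw [e4, e5, ← e3]
    have h5 : 0 ≤ (m : ℝ) * b := by positivity
    have h6 := mul_le_mul_of_nonneg_right (e1.trans e2) h5
    linarith

/-- integrals of derivatives of test functions vanish -/
theorem ent_int_zero (hp : 1 < p) {Ω : Set (X n)} {φ : X n → ℝ} (hφ : Tst Ω φ) :
    ∫ z, dt φ z = 0 ∧ ∫ z, dx φ z = 0 := by
  obtain ⟨ψ, hψ, _, hψ1⟩ := exists_cutoff hφ.cpt isOpen_univ (subset_univ (tsupport φ))
  have hψ1' : ∀ z ∈ tsupport φ, ∀ᶠ y in 𝓝 z, ψ y = 1 := fun z hz =>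
    (eventually_nhdsSet_iff_forall.1 hψ1) z hz
  have hW := tst_W1 hp hφ
  have h1 := hW.wt ψ hψ
  have h2 := hW.wg ψ hψ
  have e1 : ∀ z, φ z * dt ψ z = 0 := by
    intro z
    by_cases hz : z ∈ tsupport φ
    · have h3 : (fun t => ψ (z.1, t)) =ᶠ[𝓝 z.2] fun _ => (1 : ℝ) := by
        have h4 : Tendsto (fun t : ℝ => (z.1, t)) (𝓝 z.2) (𝓝 z) := by
          have : Continuous (fun t : ℝ => (z.1, t)) := by fun_prop
          exact this.tendsto z.2
        exact h4.eventually (hψ1' z hz)
      have h5 : dt ψ z = 0 := by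
        unfold dt
        rw [h3.deriv_eq]
        simp
      rw [h5, mul_zero]
    · rw [image_eq_zero_of_notMem_tsupport hz, zero_mul]
  have e2 : ∀ z, φ z • dx ψ z = 0 := by
    intro z
    by_cases hz : z ∈ tsupport φ
    · rw [ent_dx_zero (hψ1' z hz), smul_zero]
    · rw [image_eq_zero_of_notMem_tsupport hz, zero_smul]
  have e3 : ∀ z, ψ z * dt φ z = dt φ z := by
    intro z
    by_cases hz : z ∈ tsupport φ
    · rw [(hψ1' z hz).self_of_nhds, one_mul]
    · rw [dt_zero_of_notMem z hz, mul_zero]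
  have e4 : ∀ z, ψ z • dx φ z = dx φ z := by
    intro z
    by_cases hz : z ∈ tsupport φ
    · rw [(hψ1' z hz).self_of_nhds, one_smul]
    · rw [dx_zero_of_notMem z hz, smul_zero]
  simp only [e1, e3, integral_zero] at h1
  simp only [e2, e4, integral_zero] at h2
  exact ⟨by linarith, by simpa using h2.symm⟩

/-- Fubini for the time slices -/
theorem ent_fubini {F : X n → ℝ} (hF : Integrable F volume) :
    Integrable (fun t : ℝ => ∫ x : E n, F (x, t)) volume ∧
    (∀ h : ℝ → ℝ, Integrable (fun z : X n => F z * h z.2) volume →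
      ∫ t : ℝ, (∫ x : E n, F (x, t)) * h t = ∫ z : X n, F z * h z.2) ∧
    ∀ T : ℝ, ∫ t in Iio T, (∫ x : E n, F (x, t)) = ∫ z in {z : X n | z.2 < T}, F z := by
  refine ⟨hF.integral_prod_right, ?_, ?_⟩
  · intro h hh
    have h1 := integral_prod_symm (μ := (volume : Measure (E n))) (ν := (volume : Measure ℝ))
      (fun z : X n => F z * h z.2) hh
    have h2 : ∫ z : X n, F z * h z.2 = ∫ t : ℝ, ∫ x : E n, F (x, t) * h t := h1
    rw [h2]
    congr 1
    funext t
    rw [integral_mul_const]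
  · intro T
    have hm : MeasurableSet {z : X n | z.2 < T} := measurableSet_lt measurable_snd measurable_const
    have hi : Integrable ({z : X n | z.2 < T}.indicator F) volume := hF.indicator hm
    rw [← integral_indicator hm, ← integral_indicator measurableSet_Iio]
    have h1 := integral_prod_symm (μ := (volume : Measure (E n))) (ν := (volume : Measure ℝ))
      ({z : X n | z.2 < T}.indicator F) hi
    have h2 : ∫ z : X n, {z : X n | z.2 < T}.indicator F z =
        ∫ t : ℝ, ∫ x : E n, {z : X n | z.2 < T}.indicator F (x, t) := h1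
    rw [h2]
    congr 1
    funext t
    by_cases ht : t < T
    · rw [indicator_of_mem (by exact ht)]
      congr 1
      funext x
      rw [indicator_of_mem (by exact ht)]
    · rw [indicator_of_notMem (by exact ht)]
      symm
      apply integral_eq_zero_of_ae
      refine Eventually.of_forall fun x => ?_
      exact indicator_of_notMem (by exact ht) _

/-- the cut off functions -/
theorem ent_zeta {Ω : Set (X n)} {η : X n → ℝ} (hη : Tst Ω η) {m : ℕ} (hm : 1 ≤ m) {θ : ℝ → ℝ}
    (hθ : ContDiff ℝ ∞ θ) :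
    Tst Ω (fun z => θ z.2 * η z ^ m) ∧
    (∀ z, dt (fun z : X n => θ z.2 * η z ^ m) z =
      deriv θ z.2 * η z ^ m + θ z.2 * (m * η z ^ (m - 1) * dt η z)) ∧
    ∀ z, dx (fun z : X n => θ z.2 * η z ^ m) z = (θ z.2 * (m * η z ^ (m - 1))) • dx η z := by
  have hθ2 : ContDiff ℝ ∞ (fun z : X n => θ z.2) := hθ.comp contDiff_snd
  have hT : Tst Ω (fun z => θ z.2 * η z ^ m) := by
    have h1 := loc_tst_mul (φ := fun z : X n => θ z.2 * η z ^ (m - 1))
      (hθ2.mul (hη.smooth.pow (m - 1))) hη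
    have h2 : (fun z : X n => θ z.2 * η z ^ m) = fun w => (θ w.2 * η w ^ (m - 1)) * η w := by
      funext z
      rw [mul_assoc, ← pow_succ]
      congr 2
      omega
    rw [h2]
    exact h1
  refine ⟨hT, fun z => ?_, fun z => ?_⟩
  · have h1 : HasDerivAt θ (deriv θ z.2) z.2 :=
      ((hθ.differentiable (by simp)) z.2).hasDerivAt
    have h2 := h1.mul ((ent_hasDerivAt hη.smooth z).pow m)
    have h3 := h2.deriv
    unfold dt at h3 ⊢
    refine h3.trans ?_
    rw [Pi.pow_apply]
  · refine ext_inner_right ℝ fun v => ?_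
    rw [dx_eq hT.smooth, inner_smul_left, dx_eq hη.smooth]
    have d1 : HasFDerivAt (fun z : X n => θ z.2)
        ((deriv θ z.2) • (ContinuousLinearMap.snd ℝ (E n) ℝ)) z := by
      have h1 : HasDerivAt θ (deriv θ z.2) z.2 :=
        ((hθ.differentiable (by simp)) z.2).hasDerivAt
      exact h1.comp_hasFDerivAt z hasFDerivAt_snd
    have d2 : HasFDerivAt η (fderiv ℝ η z) z :=
      (hη.smooth.differentiable (by simp)).differentiableAt.hasFDerivAt
    have d3 := d1.mul (d2.pow m)
    have d4 : fderiv ℝ (fun z : X n => θ z.2 * η z ^ m) z = _ := d3.fderiv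
    rw [d4]
    simp
    ring

/-- energy inequality on time slices -/
theorem en_time (hp : 1 < p) : ∃ Cp : ℝ, 0 < Cp ∧ ∀ {Ω : Set (X n)}, IsOpen Ω →
    ∀ {v : X n → ℝ} {G : X n → E n}, SupOn p Ω v G →
    (∀ᵐ z ∂(volume.restrict Ω), 0 ≤ v z) → ∀ {k : ℝ}, 0 ≤ k → ∀ {η : X n → ℝ}, Tst Ω η →
    (∀ z, 0 ≤ η z ∧ η z ≤ 1) → ∀ᵐ T : ℝ,
      (∫ x, η (x, T) ^ mp p * (max (k - v (x, T)) 0) ^ 2) +
        ∫ z in {z : X n | z.2 < T}, η z ^ mp p * (if v z < k then ‖G z‖ ^ p else 0) ≤
      Cp * ((∫ z in {z : X n | z.2 < T}, |dt η z| * (max (k - v z) 0) ^ 2) +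
        ∫ z in {z : X n | z.2 < T}, (max (k - v z) 0) ^ p * ‖dx η z‖ ^ p) := by
  have hm : p ≤ (mp p : ℝ) := by
    unfold mp
    push_cast
    have := Nat.le_ceil p
    linarith
  set m : ℕ := mp p with hmdef
  have hm1r : 1 < (m : ℝ) := hp.trans_le hm
  have hm1 : 1 < m := by exact_mod_cast hm1r
  set Cy : ℝ := m * (2 * m) ^ (p - 1) with hCy
  have hCy0 : 0 ≤ Cy := by positivity
  have hp0 : 0 < p := by linarith
  refine ⟨m + 2 * Cy, by positivity, ?_⟩
  intro Ω hΩ v G hv _ k _ η hη hη01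
  -- the subsolution
  obtain ⟨Mv, hMv⟩ := hv.bdd
  set u : X n → ℝ := fun z => k - v z with hu
  set Gu : X n → E n := fun z => - G z with hGu
  set Γ : X n → E n := fun z => - A p (G z) with hΓdef
  have hum : AEStronglyMeasurable u (volume.restrict Ω) := aestronglyMeasurable_const.sub hv.meas
  have hub : ∃ M : ℝ, ∀ᵐ z ∂(volume.restrict Ω), |u z| ≤ M := by
    refine ⟨|k| + Mv, ?_⟩
    filter_upwards [hMv] with z hz
    calc |k - v z| ≤ |k| + |v z| := abs_sub _ _
      _ ≤ |k| + Mv := by linarith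
  have hG : ∀ K, IsCompact K → K ⊆ Ω → MemLp Gu (ENNReal.ofReal p) (volume.restrict K) :=
    fun K hK hKΩ => (hv.memG K hK hKΩ).neg
  have hΓ : ∀ K, IsCompact K → K ⊆ Ω → MemLp Γ (ENNReal.ofReal (cj p)) (volume.restrict K) :=
    fun K hK hKΩ => (memLp_flux hp (hv.memG K hK hKΩ)).neg
  have hwg : WG Ω u Gu := by
    intro φ hφ
    obtain ⟨c1, s1, _, _⟩ := der_tst_int hφ
    have h1 := hv.wg φ hφ
    have i1 : Integrable (fun z => v z • dx φ z) volume := memLp_one_iff_integrable.1
      (loc_bdd hv.meas hMv c1 hφ.cpt hφ.supp (fun z hz => dx_zero_of_notMem z hz) 1)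
    have i2 : Integrable (fun z => k • dx φ z) volume :=
      (c1.integrable_of_hasCompactSupport s1).smul k
    have e1 : ∀ z, u z • dx φ z = k • dx φ z - v z • dx φ z := fun z => sub_smul _ _ _
    have e2 : ∀ z, φ z • Gu z = -(φ z • G z) := fun z => smul_neg _ _
    simp only [e1, e2]
    rw [integral_sub i2 i1, integral_smul, (ent_int_zero hp hφ).2, smul_zero, h1, integral_neg]
    simp
  have hDI : DI Ω u Γ (fun _ => 0) := by
    intro φ hφ h0
    obtain ⟨_, _, c2, s2⟩ := der_tst_int hφ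
    have h1 := hv.di φ hφ h0
    have i1 : Integrable (fun z => v z * dt φ z) volume := memLp_one_iff_integrable.1
      (loc_bdd hv.meas hMv c2 hφ.cpt hφ.supp (fun z hz => dt_zero_of_notMem z hz) 1)
    have i2 : Integrable (fun z => k * dt φ z) volume :=
      (c2.integrable_of_hasCompactSupport s2).const_mul k
    have e1 : ∀ z, u z * dt φ z = k * dt φ z - v z * dt φ z := fun z => sub_mul _ _ _
    have e3 : ∫ z, u z * dt φ z = - ∫ z, v z * dt φ z := by
      simp only [e1]
      rw [integral_sub i2 i1, integral_const_mul, (ent_int_zero hp hφ).1, mul_zero, zero_sub]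
    have e4 : ∫ z, -v z * dt φ z = - ∫ z, v z * dt φ z := by
      rw [← integral_neg]
      congr 1
      funext z
      ring
    rw [e4] at h1
    rw [e3]
    exact h1
  -- the local representation
  set S : Set (X n) := tsupport η with hS
  obtain ⟨C, w, W, hC, hCΩ, hw, hw0, hwW⟩ := ent_loc hp hΩ hum hub hG hwg hη.cpt hη.supp
  have hηS : ∀ z, z ∉ S → η z = 0 := fun z hz => image_eq_zero_of_notMem_tsupport hz
  obtain ⟨c1, s1, c2, s2⟩ := der_tst_int hη
  have hηc := hη.smooth.continuous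
  set F1 : X n → ℝ := fun z => η z ^ m * w z ^ 2 with hF1
  set F2 : X n → ℝ := fun z => |dt η z| * w z ^ 2 with hF2
  set F3 : X n → ℝ := fun z => w z ^ p * ‖dx η z‖ ^ p with hF3
  set F4 : X n → ℝ := fun z => η z ^ m * ‖W z‖ ^ p with hF4
  -- the values
  have v1 : ∀ z, F1 z = η z ^ m * (max (k - v z) 0) ^ 2 := by
    intro z
    by_cases hz : z ∈ S
    · show η z ^ m * w z ^ 2 = _
      rw [(hwW z hz).1]
    · show η z ^ m * w z ^ 2 = _
      rw [hηS z hz, zero_pow (by omega), zero_mul, zero_mul]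
  have v2 : ∀ z, F2 z = |dt η z| * (max (k - v z) 0) ^ 2 := by
    intro z
    by_cases hz : z ∈ S
    · show |dt η z| * w z ^ 2 = _
      rw [(hwW z hz).1]
    · show |dt η z| * w z ^ 2 = _
      rw [dt_zero_of_notMem z hz, abs_zero, zero_mul, zero_mul]
  have v3 : ∀ z, F3 z = (max (k - v z) 0) ^ p * ‖dx η z‖ ^ p := by
    intro z
    by_cases hz : z ∈ S
    · show w z ^ p * ‖dx η z‖ ^ p = _
      rw [(hwW z hz).1]
    · show w z ^ p * ‖dx η z‖ ^ p = _
      rw [dx_zero_of_notMem z hz, norm_zero, Real.zero_rpow hp0.ne', mul_zero, mul_zero]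
  have v4 : ∀ z, F4 z = η z ^ m * (if v z < k then ‖G z‖ ^ p else 0) := by
    intro z
    by_cases hz : z ∈ S
    · show η z ^ m * ‖W z‖ ^ p = _
      rw [(hwW z hz).2]
      by_cases h1 : v z < k
      · rw [if_pos h1, if_pos (show 0 < u z from sub_pos.2 h1)]
        show η z ^ m * ‖-G z‖ ^ p = _
        rw [norm_neg]
      · rw [if_neg h1, if_neg (fun h => h1 (sub_pos.1 h)), norm_zero, Real.zero_rpow hp0.ne']
    · show η z ^ m * ‖W z‖ ^ p = _
      rw [hηS z hz, zero_pow (by omega), zero_mul, zero_mul]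
  -- integrability
  have hw2 : Integrable (fun z => w z ^ 2) volume :=
    (W0.memLp_fn hC.isBounded hw 2).integrable_sq
  have hwp : Integrable (fun z => w z ^ p) volume := by
    have h1 := (W0.memLp_fn hC.isBounded hw (ENNReal.ofReal p)).integrable_norm_rpow (by
      rw [Ne, ENNReal.ofReal_eq_zero]; linarith) ENNReal.ofReal_ne_top
    rw [ENNReal.toReal_ofReal hp0.le] at h1
    refine h1.congr (Eventually.of_forall fun z => ?_)
    show ‖w z‖ ^ p = w z ^ p
    rw [Real.norm_of_nonneg (hw0 z)]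
  have hWp : Integrable (fun z => ‖W z‖ ^ p) volume := by
    have h1 := hw.mem.integrable_norm_rpow (by
      rw [Ne, ENNReal.ofReal_eq_zero]; linarith) ENNReal.ofReal_ne_top
    rwa [ENNReal.toReal_ofReal hp0.le] at h1
  have hηm : ∀ (j : ℕ) z, ‖η z ^ j‖ ≤ 1 := by
    intro j z
    rw [norm_pow, Real.norm_of_nonneg (hη01 z).1]
    exact pow_le_one₀ (hη01 z).1 (hη01 z).2
  have iF1 : Integrable F1 volume :=
    hw2.bdd_mul (c := 1) (hηc.pow m).aestronglyMeasurable (Eventually.of_forall (hηm m))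
  have iF4 : Integrable F4 volume :=
    hWp.bdd_mul (c := 1) (hηc.pow m).aestronglyMeasurable (Eventually.of_forall (hηm m))
  obtain ⟨B2, hB2⟩ := s2.exists_bound_of_continuous c2
  have iF2 : Integrable F2 volume :=
    hw2.bdd_mul (c := B2) c2.abs.aestronglyMeasurable (Eventually.of_forall fun z => by
      rw [Real.norm_eq_abs, abs_abs]
      exact hB2 z)
  obtain ⟨B3, hB3⟩ := s1.exists_bound_of_continuous c1
  have iF3 : Integrable F3 volume := by
    have h1 : Integrable (fun z => ‖dx η z‖ ^ p * w z ^ p) volume :=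
      hwp.bdd_mul (c := B3 ^ p) (c1.norm.rpow_const fun _ => Or.inr hp0.le).aestronglyMeasurable
        (Eventually.of_forall fun z => by
          rw [Real.norm_of_nonneg (by positivity)]
          exact Real.rpow_le_rpow (norm_nonneg _) (hB3 z) hp0.le)
    refine h1.congr (Eventually.of_forall fun z => ?_)
    show ‖dx η z‖ ^ p * w z ^ p = w z ^ p * ‖dx η z‖ ^ p
    ring
  have n1 : ∀ z, 0 ≤ F1 z := fun z => mul_nonneg (pow_nonneg (hη01 z).1 _) (sq_nonneg _)
  have n2 : ∀ z, 0 ≤ F2 z := fun z => mul_nonneg (abs_nonneg _) (sq_nonneg _)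
  have n3 : ∀ z, 0 ≤ F3 z := fun z =>
    mul_nonneg (Real.rpow_nonneg (hw0 z) _) (Real.rpow_nonneg (norm_nonneg _) _)
  have n4 : ∀ z, 0 ≤ F4 z := fun z =>
    mul_nonneg (pow_nonneg (hη01 z).1 _) (Real.rpow_nonneg (norm_nonneg _) _)
  set F0 : X n → ℝ := fun z => (m / 2 : ℝ) * F2 z + Cy * F3 z - (1 / 2) * F4 z with hF0
  have iF0 : Integrable F0 volume :=
    ((iF2.const_mul _).add (iF3.const_mul _)).sub (iF4.const_mul _)
  -- the inequality for a function of time
  have key : ∀ θ : ℝ → ℝ, ContDiff ℝ ∞ θ → HasCompactSupport θ → (∀ t, 0 ≤ θ t) →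
      -∫ z : X n, (1 / 2 * F1 z) * deriv θ z.2 ≤ ∫ z : X n, F0 z * θ z.2 := by
    intro θ hθ hθc hθ0
    obtain ⟨hζ, hdt, hdx⟩ := ent_zeta hη hm1.le hθ
    have hζ0 : ∀ z : X n, 0 ≤ θ z.2 * η z ^ m := fun z =>
      mul_nonneg (hθ0 _) (pow_nonneg (hη01 z).1 _)
    have h1 := ent_conv hp hΩ hum hub hG hwg hΓ hDI hζ hζ0
    obtain ⟨Bθ, hBθ⟩ := hθc.exists_bound_of_continuous hθ.continuous
    have hθ'c : Continuous (deriv θ) := (hθ.continuous_deriv (by simp))
    obtain ⟨Bd, hBd⟩ := hθc.deriv.exists_bound_of_continuous hθ'c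
    have hBθ0 : 0 ≤ Bθ := (norm_nonneg _).trans (hBθ 0)
    have hBd0 : 0 ≤ Bd := (norm_nonneg _).trans (hBd 0)
    -- left-hand side
    have j1 : Integrable (fun z : X n => F1 z * deriv θ z.2) volume := by
      have h2 : Integrable (fun z : X n => deriv θ z.2 * F1 z) volume :=
        iF1.bdd_mul (c := Bd) (hθ'c.comp continuous_snd).aestronglyMeasurable
          (Eventually.of_forall fun z => hBd z.2)
      refine h2.congr (Eventually.of_forall fun z => ?_)
      show deriv θ z.2 * F1 z = F1 z * deriv θ z.2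
      ring
    set P : X n → ℝ := fun z => θ z.2 * (m * η z ^ (m - 1) * dt η z) * w z ^ 2 with hP
    have jP : Integrable P volume := by
      refine hw2.bdd_mul (c := Bθ * (m * 1 * B2)) ?_ (Eventually.of_forall fun z => ?_)
      · exact ((hθ.continuous.comp continuous_snd).mul
          ((continuous_const.mul (hηc.pow (m - 1))).mul c2)).aestronglyMeasurable
      · rw [norm_mul, norm_mul, norm_mul, Real.norm_of_nonneg (Nat.cast_nonneg m)]
        have h3 := hηm (m - 1) z
        have h4 := hB2 z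
        have h5 := hBθ z.2
        gcongr
    have l1 : ∫ z, dt (fun z : X n => θ z.2 * η z ^ m) z * (max (u z) 0) ^ 2 =
        (∫ z : X n, F1 z * deriv θ z.2) + ∫ z, P z := by
      rw [← integral_add j1 jP]
      congr 1
      funext z
      rw [hdt z]
      by_cases hz : z ∈ S
      · rw [← (hwW z hz).1]
        show _ = η z ^ m * w z ^ 2 * deriv θ z.2 + θ z.2 * (m * η z ^ (m - 1) * dt η z) * w z ^ 2
        ring
      · show _ = η z ^ m * w z ^ 2 * deriv θ z.2 + θ z.2 * (m * η z ^ (m - 1) * dt η z) * w z ^ 2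
        rw [hηS z hz, dt_zero_of_notMem z hz, zero_pow (by omega)]
        ring
    -- right-hand side
    set R : X n → ℝ := fun z => inner ℝ (Γ z)
      ((θ z.2 * η z ^ m) • W z + w z • dx (fun z : X n => θ z.2 * η z ^ m) z) with hR
    have r1 : ∫ z, inner ℝ (Γ z) ((θ z.2 * η z ^ m) • (if 0 < u z then Gu z else 0) +
        max (u z) 0 • dx (fun z : X n => θ z.2 * η z ^ m) z) = ∫ z, R z := by
      congr 1
      funext z
      by_cases hz : z ∈ S
      · show _ = inner ℝ (Γ z)
          ((θ z.2 * η z ^ m) • W z + w z • dx (fun z : X n => θ z.2 * η z ^ m) z)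
        rw [(hwW z hz).1, (hwW z hz).2]
      · show _ = inner ℝ (Γ z)
          ((θ z.2 * η z ^ m) • W z + w z • dx (fun z : X n => θ z.2 * η z ^ m) z)
        rw [hdx z, hηS z hz, dx_zero_of_notMem z hz, zero_pow (by omega)]
        simp
    have hΦ := W0.smooth_mul hp hC.isBounded hζ.smooth hw
    have jR : Integrable R volume := by
      have h2 : IntegrableOn R S volume :=
        (holder_inner hp (hΓ S hη.cpt hη.supp) (hΦ.mem.restrict S)).1
      refine h2.integrable_of_forall_notMem_eq_zero fun z hz => ?_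
      show inner ℝ (Γ z)
          ((θ z.2 * η z ^ m) • W z + w z • dx (fun z : X n => θ z.2 * η z ^ m) z) = 0
      rw [hdx z, hηS z hz, dx_zero_of_notMem z hz, zero_pow (by omega)]
      simp
    have r2 : ∀ z, - R z ≤ θ z.2 * (Cy * F3 z - (1 / 2) * F4 z) := by
      intro z
      by_cases hz : z ∈ S
      · obtain ⟨a1, a2⟩ := hwW z hz
        by_cases h2 : 0 < u z
        · rw [if_pos h2] at a2
          have e1 : R z = (θ z.2 * η z ^ m) * ‖G z‖ ^ p -
              (θ z.2 * (m * η z ^ (m - 1))) * (w z * inner ℝ (A p (G z)) (dx η z)) := by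
            show inner ℝ (- A p (G z))
              ((θ z.2 * η z ^ m) • W z + w z • dx (fun z : X n => θ z.2 * η z ^ m) z) = _
            rw [a2, hdx z]
            show inner ℝ (- A p (G z)) ((θ z.2 * η z ^ m) • (- G z) +
              w z • (θ z.2 * (m * η z ^ (m - 1))) • dx η z) = _
            rw [inner_add_right, inner_smul_right, inner_smul_right, inner_smul_right,
              inner_neg_left, inner_neg_left, inner_neg_right, neg_neg, pw1_inner_self hp]
            ring
          have e2 : F4 z = η z ^ m * ‖G z‖ ^ p := by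
            show η z ^ m * ‖W z‖ ^ p = _
            rw [a2]
            show η z ^ m * ‖-G z‖ ^ p = _
            rw [norm_neg]
          have e3 : F3 z = (w z * ‖dx η z‖) ^ p := by
            show w z ^ p * ‖dx η z‖ ^ p = _
            rw [Real.mul_rpow (hw0 z) (norm_nonneg _)]
          have h3 := ent_young hp hm (hη01 z).1 (hη01 z).2 (norm_nonneg (G z))
            (mul_nonneg (hw0 z) (norm_nonneg (dx η z)))
          have h4 := pw1_inner_le hp (G z) (dx η z)
          have h5 : 0 ≤ (m : ℝ) * η z ^ (m - 1) * w z :=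
            mul_nonneg (mul_nonneg (Nat.cast_nonneg m) (pow_nonneg (hη01 z).1 _)) (hw0 z)
          have h6 := mul_le_mul_of_nonneg_left h4 h5
          have h7 : (m : ℝ) * η z ^ (m - 1) * w z * inner ℝ (A p (G z)) (dx η z) ≤
              (1 / 2) * (η z ^ m * ‖G z‖ ^ p) + Cy * (w z * ‖dx η z‖) ^ p := by
            refine h6.trans (le_trans (le_of_eq ?_) h3)
            ring
          have h8 := mul_le_mul_of_nonneg_left h7 (hθ0 z.2)
          rw [e1, e2, e3]
          have e4 : -((θ z.2 * η z ^ m) * ‖G z‖ ^ p -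
              (θ z.2 * (m * η z ^ (m - 1))) * (w z * inner ℝ (A p (G z)) (dx η z))) =
              θ z.2 * ((m : ℝ) * η z ^ (m - 1) * w z * inner ℝ (A p (G z)) (dx η z)) -
                θ z.2 * (η z ^ m * ‖G z‖ ^ p) := by ring
          rw [e4]
          have e5 : θ z.2 * (Cy * (w z * ‖dx η z‖) ^ p - (1 / 2) * (η z ^ m * ‖G z‖ ^ p)) =
              θ z.2 * ((1 / 2) * (η z ^ m * ‖G z‖ ^ p) + Cy * (w z * ‖dx η z‖) ^ p) -
                θ z.2 * (η z ^ m * ‖G z‖ ^ p) := by ring
          rw [e5]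
          linarith
        · rw [if_neg h2] at a2
          have a3 : w z = 0 := by rw [a1]; exact max_eq_right (not_lt.1 h2)
          have e1 : R z = 0 := by
            show inner ℝ (Γ z)
              ((θ z.2 * η z ^ m) • W z + w z • dx (fun z : X n => θ z.2 * η z ^ m) z) = 0
            rw [a2, a3]
            simp
          have e2 : F4 z = 0 := by
            show η z ^ m * ‖W z‖ ^ p = 0
            rw [a2, norm_zero, Real.zero_rpow hp0.ne', mul_zero]
          rw [e1, e2, mul_zero, sub_zero, neg_zero]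
          exact mul_nonneg (hθ0 _) (mul_nonneg hCy0 (n3 z))
      · have e1 : R z = 0 := by
          show inner ℝ (Γ z)
            ((θ z.2 * η z ^ m) • W z + w z • dx (fun z : X n => θ z.2 * η z ^ m) z) = 0
          rw [hdx z, hηS z hz, dx_zero_of_notMem z hz, zero_pow (by omega)]
          simp
        have e2 : F4 z = 0 := by
          show η z ^ m * ‖W z‖ ^ p = 0
          rw [hηS z hz, zero_pow (by omega), zero_mul]
        rw [e1, e2, mul_zero, sub_zero, neg_zero]
        exact mul_nonneg (hθ0 _) (mul_nonneg hCy0 (n3 z))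
    have jQ : Integrable (fun z : X n => θ z.2 * (Cy * F3 z - (1 / 2) * F4 z)) volume :=
      ((iF3.const_mul Cy).sub (iF4.const_mul (1 / 2))).bdd_mul (c := Bθ)
        (hθ.continuous.comp continuous_snd).aestronglyMeasurable
        (Eventually.of_forall fun z => hBθ z.2)
    have h2 : - ∫ z, R z ≤ ∫ z : X n, θ z.2 * (Cy * F3 z - (1 / 2) * F4 z) := by
      rw [← integral_neg]
      exact integral_mono jR.neg jQ r2
    have jT : Integrable (fun z : X n => θ z.2 * ((m / 2 : ℝ) * F2 z)) volume :=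
      (iF2.const_mul _).bdd_mul (c := Bθ)
        (hθ.continuous.comp continuous_snd).aestronglyMeasurable
        (Eventually.of_forall fun z => hBθ z.2)
    have h3 : (1 / 2) * ∫ z, P z ≤ ∫ z : X n, θ z.2 * ((m / 2 : ℝ) * F2 z) := by
      rw [← integral_const_mul]
      refine integral_mono (jP.const_mul _) jT fun z => ?_
      show 1 / 2 * (θ z.2 * (m * η z ^ (m - 1) * dt η z) * w z ^ 2) ≤
        θ z.2 * ((m / 2 : ℝ) * (|dt η z| * w z ^ 2))
      have a1 : η z ^ (m - 1) * dt η z ≤ |dt η z| := by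
        have b1 : η z ^ (m - 1) ≤ 1 := pow_le_one₀ (hη01 z).1 (hη01 z).2
        have b2 : 0 ≤ η z ^ (m - 1) := pow_nonneg (hη01 z).1 _
        calc η z ^ (m - 1) * dt η z ≤ η z ^ (m - 1) * |dt η z| :=
              mul_le_mul_of_nonneg_left (le_abs_self _) b2
          _ ≤ 1 * |dt η z| := mul_le_mul_of_nonneg_right b1 (abs_nonneg _)
          _ = |dt η z| := one_mul _
      have a2 : 0 ≤ θ z.2 * (m / 2 : ℝ) * w z ^ 2 :=
        mul_nonneg (mul_nonneg (hθ0 _) (by positivity)) (sq_nonneg _)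
      have a3 := mul_le_mul_of_nonneg_left a1 a2
      calc 1 / 2 * (θ z.2 * (m * η z ^ (m - 1) * dt η z) * w z ^ 2)
          = θ z.2 * (m / 2 : ℝ) * w z ^ 2 * (η z ^ (m - 1) * dt η z) := by ring
        _ ≤ θ z.2 * (m / 2 : ℝ) * w z ^ 2 * |dt η z| := a3
        _ = θ z.2 * ((m / 2 : ℝ) * (|dt η z| * w z ^ 2)) := by ring
    have h4 : ∫ z : X n, F0 z * θ z.2 = (∫ z : X n, θ z.2 * ((m / 2 : ℝ) * F2 z)) +
        ∫ z : X n, θ z.2 * (Cy * F3 z - (1 / 2) * F4 z) := by
      rw [← integral_add jT jQ]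
      congr 1
      funext z
      show ((m / 2 : ℝ) * F2 z + Cy * F3 z - (1 / 2) * F4 z) * θ z.2 = _
      ring
    have h5 : ∫ z : X n, (1 / 2 * F1 z) * deriv θ z.2 = (1 / 2) * ∫ z : X n, F1 z * deriv θ z.2 := by
      rw [← integral_const_mul]
      congr 1
      funext z
      ring
    rw [l1, r1] at h1
    rw [h4, h5]
    linarith
  -- the one dimensional lemma
  have iF1' : Integrable (fun z => 1 / 2 * F1 z) volume := iF1.const_mul _
  obtain ⟨g1, g2, _⟩ := ent_fubini iF1'
  obtain ⟨f1, f2, f3⟩ := ent_fubini iF0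
  have htim := tim g1 f1 (by
    intro θ hθ hθc hθ0
    obtain ⟨Bθ, hBθ⟩ := hθc.exists_bound_of_continuous hθ.continuous
    have hθ'c : Continuous (deriv θ) := (hθ.continuous_deriv (by simp))
    obtain ⟨Bd, hBd⟩ := hθc.deriv.exists_bound_of_continuous hθ'c
    have j1 : Integrable (fun z : X n => (1 / 2 * F1 z) * deriv θ z.2) volume := by
      have h2 : Integrable (fun z : X n => deriv θ z.2 * (1 / 2 * F1 z)) volume :=
        iF1'.bdd_mul (c := Bd) (hθ'c.comp continuous_snd).aestronglyMeasurable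
          (Eventually.of_forall fun z => hBd z.2)
      refine h2.congr (Eventually.of_forall fun z => ?_)
      show deriv θ z.2 * (1 / 2 * F1 z) = (1 / 2 * F1 z) * deriv θ z.2
      ring
    have j2 : Integrable (fun z : X n => F0 z * θ z.2) volume := by
      have h2 : Integrable (fun z : X n => θ z.2 * F0 z) volume :=
        iF0.bdd_mul (c := Bθ) (hθ.continuous.comp continuous_snd).aestronglyMeasurable
          (Eventually.of_forall fun z => hBθ z.2)
      refine h2.congr (Eventually.of_forall fun z => ?_)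
      show θ z.2 * F0 z = F0 z * θ z.2
      ring
    rw [g2 (deriv θ) j1, f2 θ j2]
    exact key θ hθ hθc hθ0) (by
    obtain ⟨Rb, hRb⟩ := hη.cpt.isBounded.exists_norm_le
    refine ⟨-Rb, Eventually.of_forall fun t ht => ?_⟩
    apply integral_eq_zero_of_ae
    refine Eventually.of_forall fun x => ?_
    have h1 : ((x, t) : X n) ∉ tsupport η := by
      intro hcon
      have h2 := hRb _ hcon
      have h3 : |t| ≤ ‖((x, t) : X n)‖ := norm_snd_le (x, t)
      have h4 := neg_abs_le t
      linarith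
    show 1 / 2 * (η (x, t) ^ m * w (x, t) ^ 2) = 0
    rw [hηS _ h1, zero_pow (by omega)]
    ring)
  filter_upwards [htim] with T hT
  rw [f3 T] at hT
  have hmT : MeasurableSet {z : X n | z.2 < T} := measurableSet_lt measurable_snd measurable_const
  have e0 : ∫ z in {z : X n | z.2 < T}, F0 z =
      (m / 2 : ℝ) * (∫ z in {z : X n | z.2 < T}, F2 z) +
        Cy * (∫ z in {z : X n | z.2 < T}, F3 z) -
        (1 / 2) * ∫ z in {z : X n | z.2 < T}, F4 z := by
    show ∫ z in {z : X n | z.2 < T}, ((m / 2 : ℝ) * F2 z + Cy * F3 z - (1 / 2) * F4 z) = _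
    rw [integral_sub, integral_add, integral_const_mul, integral_const_mul, integral_const_mul]
    · exact (iF2.const_mul _).restrict
    · exact (iF3.const_mul _).restrict
    · exact ((iF2.const_mul _).add (iF3.const_mul _)).restrict
    · exact (iF4.const_mul _).restrict
  have e1 : ∫ x : E n, 1 / 2 * F1 (x, T) = (1 / 2) * ∫ x : E n, F1 (x, T) := integral_const_mul _ _
  rw [e0, e1] at hT
  have p2 : 0 ≤ ∫ z in {z : X n | z.2 < T}, F2 z := integral_nonneg n2
  have p3 : 0 ≤ ∫ z in {z : X n | z.2 < T}, F3 z := integral_nonneg n3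
  simp only [v1, v2, v3, v4] at hT p2 p3
  have q1 : 0 ≤ Cy * (∫ z in {z : X n | z.2 < T}, |dt η z| * (max (k - v z) 0) ^ 2) :=
    mul_nonneg hCy0 p2
  have q2 : 0 ≤ (m : ℝ) * (∫ z in {z : X n | z.2 < T}, (max (k - v z) 0) ^ p * ‖dx η z‖ ^ p) :=
    mul_nonneg (Nat.cast_nonneg m) p3
  nlinarith [hT, q1, q2]

end PP
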