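import Pool.Agent.PP.Defs
import Pool.Agent.PP.DER

open Set Metric Filter Topology MeasureTheory
open scoped ContDiff

noncomputable section

namespace PP

variable {n : ℕ}
variable {p : ℝ}

private theorem red_fd {Ω : Set (X n)} {φ : X n → ℝ} (hφ : Tst Ω φ) (v : X n) :
    ∫ z, fderiv ℝ φ z v = 0 := by
  have cφ := hφ.smooth.continuous
  have dφ : Differentiable ℝ φ := hφ.smooth.differentiable (by simp)
  have cfφ : Continuous (fun z => fderiv ℝ φ z v) :=
    ((hφ.smooth.continuous_fderiv (by simp)).clm_apply continuous_const)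
  have hcs : HasCompactSupport (fun z => fderiv ℝ φ z v) := by
    refine HasCompactSupport.intro hφ.cpt fun z hz => ?_
    have h1 : φ =ᶠ[𝓝 z] 0 := notMem_tsupport_iff_eventuallyEq.mp hz
    rw [h1.fderiv_eq]
    simp
  have := der_haar (n := n)
  have key := integral_mul_fderiv_eq_neg_fderiv_mul_of_integrable
    (μ := (volume : Measure (X n))) (f := fun _ : X n => (1 : ℝ)) (g := φ) (v := v)
    (by simp) (by simpa using cfφ.integrable_of_hasCompactSupport hcs)
    (by simpa using cφ.integrable_of_hasCompactSupport hφ.cpt)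
    (fun x _ => differentiableAt_const _) (fun x _ => dφ x)
  simpa using key

private theorem red_dt {Ω : Set (X n)} {φ : X n → ℝ} (hφ : Tst Ω φ) : ∫ z, dt φ z = 0 := by
  simp only [dt_eq hφ.smooth]
  exact red_fd hφ _

private theorem red_dx {Ω : Set (X n)} {φ : X n → ℝ} (hφ : Tst Ω φ) : ∫ z, dx φ z = 0 := by
  obtain ⟨c1, s1, -, -⟩ := der_tst_int hφ
  have hi : Integrable (dx φ) := c1.integrable_of_hasCompactSupport s1
  refine ext_inner_left ℝ fun v => ?_
  rw [inner_zero_right, ← integral_inner hi v]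
  have h1 : ∀ z, inner ℝ v (dx φ z) = fderiv ℝ φ z (v, 0) := fun z => by
    rw [real_inner_comm, dx_eq hφ.smooth]
  simp only [h1]
  exact red_fd hφ _

private theorem red_sub {F : Type*} [NormedAddCommGroup F] [NormedSpace ℝ F] (f g : X n → F)
    (hg : Integrable g) (h0 : ∫ z, g z = 0) : ∫ z, (f z - g z) = ∫ z, f z := by
  by_cases hf : Integrable f
  · rw [integral_sub hf hg, h0, sub_zero]
  · rw [integral_undef hf, integral_undef]
    intro h
    apply hf
    have h1 : f = fun z => (f z - g z) + g z := by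
      funext z
      rw [sub_add_cancel]
    rw [h1]
    exact h.add hg

private theorem red_par {Θ : Set (X n)} {h : X n → ℝ} (hp : PParabolic p Θ h) (c : ℝ) :
    PParabolic p Θ (fun z => h z - c) := by
  refine ⟨hp.cont.sub continuousOn_const, fun U t₁ t₂ hU ht hc hs => ?_⟩
  obtain ⟨h1, G, hG, hwg, hweq⟩ := hp.sol U t₁ t₂ hU ht hc hs
  refine ⟨fun s hs => ?_, G, hG, fun φ hφ => ?_, fun φ hφ => ?_⟩
  · have h2 : ∀ t, (fun x => (h (x, t) - c) - (h (x, s) - c)) =
        fun x => h (x, t) - h (x, s) := fun t => by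
      funext x
      ring
    simp only [h2]
    exact h1 s hs
  · obtain ⟨c1, s1, -, -⟩ := der_tst_int hφ
    have hi : Integrable (fun z => c • dx φ z) :=
      (c1.integrable_of_hasCompactSupport s1).smul c
    have h0 : ∫ z, c • dx φ z = 0 := by
      rw [integral_smul, red_dx hφ, smul_zero]
    rw [← hwg φ hφ, ← red_sub (fun z => h z • dx φ z) _ hi h0]
    simp only [sub_smul]
  · obtain ⟨-, -, c2, s2⟩ := der_tst_int hφ
    have hi : Integrable (fun z => c * dt φ z) :=
      (c2.integrable_of_hasCompactSupport s2).const_mul c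
    have h0 : ∫ z, c * dt φ z = 0 := by
      rw [integral_const_mul, red_dt hφ, mul_zero]
    have h3 := hweq φ hφ
    rw [← red_sub (fun z => h z * dt φ z) _ hi h0] at h3
    simp only [sub_mul]
    exact h3

private theorem red_le (x y : EReal) (c : ℝ) : x ≤ y + (c : EReal) ↔ x - (c : EReal) ≤ y :=
  (EReal.sub_le_iff_le_add (Or.inl (EReal.coe_ne_bot c)) (Or.inl (EReal.coe_ne_top c))).symm

private theorem red_cont (c : ℝ) : Continuous fun x : EReal => x + (c : EReal) := by
  refine continuous_iff_continuousAt.mpr fun x => ?_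
  have h1 : ContinuousAt (fun q : EReal × EReal => q.1 + q.2) (x, (c : EReal)) :=
    EReal.continuousAt_add (Or.inr (EReal.coe_ne_bot c)) (Or.inr (EReal.coe_ne_top c))
  have h2 : ContinuousAt (fun x : EReal => (x, (c : EReal))) x := by fun_prop
  exact ContinuousAt.comp (f := fun x : EReal => (x, (c : EReal))) h1 h2

theorem superPar_add {Θ : Set (X n)} {u : X n → EReal} (c : ℝ) (h : SuperPar p Θ u) :
    SuperPar p Θ (fun z => u z + (c : EReal)) := by
  refine ⟨fun z hz => ?_, ?_, ?_, fun a b t₁ t₂ hab ht hcl f hf hpar hle z hz => ?_⟩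
  · rw [Ne, EReal.add_eq_bot_iff, not_or]
    exact ⟨h.ne_bot z hz, EReal.coe_ne_bot c⟩
  · exact (red_cont c).comp_lowerSemicontinuousOn h.lsc fun x y hxy => add_le_add_left hxy _
  · refine h.dense.trans (closure_mono fun z hz => ⟨hz.1, ?_⟩)
    exact EReal.add_ne_top hz.2 (EReal.coe_ne_top c)
  · have h1 := h.comp a b t₁ t₂ hab ht hcl (fun z => f z - c) (hf.sub continuousOn_const)
      (red_par hpar c) (fun z hz => by
        rw [EReal.coe_sub, ← red_le]
        exact hle z hz) z hz
    rw [EReal.coe_sub, ← red_le] at h1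
    exact h1

theorem upperH_le_add {Θ : Set (X n)} {f g : X n → ℝ} {δ : ℝ}
    (h : ∀ ξ ∈ frontier Θ, f ξ ≤ g ξ + δ) (z : X n) :
    upperH p Θ f z ≤ upperH p Θ g z + (δ : EReal) := by
  rw [red_le]
  unfold upperH
  refine le_iInf₂ fun u hu => ?_
  rw [← red_le]
  obtain ⟨h1, ⟨m, hm⟩, h3⟩ := hu
  have hmem : (fun z => u z + (δ : EReal)) ∈ UpperClass p Θ f := by
    refine ⟨superPar_add δ h1, ⟨m + δ, fun z hz => ?_⟩, fun ξ hξ => ?_⟩
    · rw [EReal.coe_add]
      exact add_le_add (hm z hz) le_rfl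
    · have hne : (𝓝[Θ] ξ).NeBot := mem_closure_iff_nhdsWithin_neBot.mp (frontier_subset_closure hξ)
      calc (f ξ : EReal) ≤ ((g ξ + δ : ℝ) : EReal) := EReal.coe_le_coe_iff.mpr (h ξ hξ)
        _ = (g ξ : EReal) + (δ : EReal) := EReal.coe_add _ _
        _ ≤ liminf u (𝓝[Θ] ξ) + liminf (fun _ => (δ : EReal)) (𝓝[Θ] ξ) := by
            refine add_le_add (h3 ξ hξ) ?_
            rw [liminf_const]
        _ ≤ liminf (u + fun _ => (δ : EReal)) (𝓝[Θ] ξ) := EReal.le_liminf_add
  exact iInf₂_le (f := fun (u : X n → EReal) (_ : u ∈ UpperClass p Θ f) => u z) _ hmem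

theorem lowerH_le_add {Θ : Set (X n)} {f g : X n → ℝ} {δ : ℝ}
    (h : ∀ ξ ∈ frontier Θ, f ξ ≤ g ξ + δ) (z : X n) :
    lowerH p Θ f z ≤ lowerH p Θ g z + (δ : EReal) := by
  unfold lowerH
  refine iSup₂_le fun v hv => ?_
  rw [red_le]
  obtain ⟨h1, ⟨m, hm⟩, h3⟩ := hv
  have hmem : (fun z => v z - (δ : EReal)) ∈ LowerClass p Θ g := by
    refine ⟨?_, ⟨m - δ, fun z hz => ?_⟩, fun ξ hξ => ?_⟩
    · have h4 := superPar_add δ h1
      have h5 : (fun z => -(v z - (δ : EReal))) = fun z => -v z + (δ : EReal) := by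
        funext z
        rw [sub_eq_add_neg, EReal.neg_add (Or.inr (by
          rw [← EReal.coe_neg]; exact EReal.coe_ne_top _)) (Or.inr (by
          rw [← EReal.coe_neg]; exact EReal.coe_ne_bot _)), sub_eq_add_neg, neg_neg]
      show SuperPar p Θ _
      rw [h5]
      exact h4
    · rw [EReal.coe_sub]
      exact EReal.sub_le_sub (hm z hz) le_rfl
    · have hne : (𝓝[Θ] ξ).NeBot := mem_closure_iff_nhdsWithin_neBot.mp (frontier_subset_closure hξ)
      have h4 : limsup (fun z => v z - (δ : EReal)) (𝓝[Θ] ξ) ≤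
          limsup v (𝓝[Θ] ξ) + limsup (fun _ => -(δ : EReal)) (𝓝[Θ] ξ) := by
        refine EReal.limsup_add_le (Or.inr ?_) (Or.inr ?_)
        · rw [limsup_const, ← EReal.coe_neg]
          exact EReal.coe_ne_top _
        · rw [limsup_const, ← EReal.coe_neg]
          exact EReal.coe_ne_bot _
      refine h4.trans ?_
      rw [limsup_const]
      calc limsup v (𝓝[Θ] ξ) + -(δ : EReal) ≤ (f ξ : EReal) + -(δ : EReal) :=
            add_le_add (h3 ξ hξ) le_rfl
        _ = ((f ξ - δ : ℝ) : EReal) := by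
            rw [sub_eq_add_neg, EReal.coe_add, EReal.coe_neg]
        _ ≤ (g ξ : EReal) := by
            refine EReal.coe_le_coe_iff.mpr ?_
            have := h ξ hξ
            linarith
  exact le_iSup₂ (f := fun (v : X n → EReal) (_ : v ∈ LowerClass p Θ g) => v z) _ hmem

end PP
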