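import Pool.Agent.PP.SUP

open Set Metric Filter Topology MeasureTheory
open scoped ContDiff

noncomputable section

namespace PP

variable {n : ℕ}
variable {p : ℝ}

/-- the set whose supremum is `lsr u z` -/
private def upcS (u : X n → ℝ) (z : X n) : Set ℝ :=
  {a : ℝ | ∃ r > 0, ∀ᵐ y ∂(volume.restrict (ball z r)), a ≤ u y}

private theorem upc_mem {Θ : Set (X n)} (hΘ : IsOpen Θ) {u : X n → ℝ} {M : ℝ}
    (hM : ∀ᵐ z ∂(volume.restrict Θ), |u z| ≤ M) {z : X n} (hz : z ∈ Θ) : -M ∈ upcS u z := by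
  obtain ⟨r, hr, hb⟩ := Metric.isOpen_iff.mp hΘ z hz
  refine ⟨r, hr, ?_⟩
  filter_upwards [ae_restrict_of_ae_restrict_of_subset hb hM] with y hy
  exact (abs_le.mp hy).1

private theorem upc_bdd {Θ : Set (X n)} (hΘ : IsOpen Θ) {u : X n → ℝ} {M : ℝ}
    (hM : ∀ᵐ z ∂(volume.restrict Θ), |u z| ≤ M) {z : X n} (hz : z ∈ Θ) :
    BddAbove (upcS u z) := by
  obtain ⟨r, hr, hb⟩ := Metric.isOpen_iff.mp hΘ z hz
  refine ⟨M, ?_⟩
  rintro a ⟨s, hs, ha⟩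
  have h1 : ball z (min r s) ⊆ Θ := (ball_subset_ball (min_le_left _ _)).trans hb
  have h2 : ball z (min r s) ⊆ ball z s := ball_subset_ball (min_le_right _ _)
  have h3 := ae_restrict_of_ae_restrict_of_subset h1 hM
  have h4 := ae_restrict_of_ae_restrict_of_subset h2 ha
  have hne : (ae (volume.restrict (ball z (min r s)))).NeBot := by
    rw [ae_restrict_neBot]
    exact (measure_ball_pos _ _ (lt_min hr hs)).ne'
  obtain ⟨y, hy1, hy2⟩ := (h3.and h4).exists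
  exact hy2.trans (le_of_abs_le hy1)

private theorem upc_le {Θ : Set (X n)} (hΘ : IsOpen Θ) {u : X n → ℝ}
    (hb : ∃ M : ℝ, ∀ᵐ z ∂(volume.restrict Θ), |u z| ≤ M) {z : X n} (hz : z ∈ Θ) {a : ℝ}
    (ha : a ∈ upcS u z) : a ≤ lsr u z := by
  obtain ⟨M, hM⟩ := hb
  exact le_csSup (upc_bdd hΘ hM hz) ha

private theorem upc_liminf {Θ : Set (X n)} (hΘ : IsOpen Θ) {u : X n → ℝ}
    (hb : ∃ M : ℝ, ∀ᵐ z ∂(volume.restrict Θ), |u z| ≤ M) {F : X n → ℝ} (hF : Continuous F)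
    {D : Set (X n)} (hD : IsCompact D) (hDΘ : D ⊆ Θ)
    (hFu : ∀ᵐ z ∂(volume.restrict Θ), z ∉ D → F z ≤ u z) {ξ : X n} (hξ : ξ ∈ frontier Θ) :
    (F ξ : EReal) ≤ liminf (fun z => (lsr u z : EReal)) (𝓝[Θ] ξ) := by
  have hξΘ : ξ ∉ Θ := by
    rw [hΘ.frontier_eq] at hξ
    exact hξ.2
  have hξD : ξ ∈ Dᶜ := fun h => hξΘ (hDΘ h)
  have hDo : IsOpen Dᶜ := hD.isClosed.isOpen_compl
  refine le_of_forall_lt_imp_le_of_dense fun a ha => ?_
  induction a with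
  | bot => exact bot_le
  | top => exact absurd ha (not_lt.mpr le_top)
  | coe a =>
    have ha' : a < F ξ := EReal.coe_lt_coe_iff.mp ha
    have h1 : ∀ᶠ y in 𝓝 ξ, a < F y ∧ y ∈ Dᶜ :=
      (hF.continuousAt.eventually (lt_mem_nhds ha')).and (hDo.mem_nhds hξD)
    have h2 : ∀ᶠ z in 𝓝 ξ, ∀ᶠ y in 𝓝 z, a < F y ∧ y ∈ Dᶜ := eventually_eventually_nhds.mpr h1
    refine le_liminf_of_le ?_ ?_
    · isBoundedDefault
    · filter_upwards [mem_nhdsWithin_of_mem_nhds h2, self_mem_nhdsWithin] with z hz hzΘ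
      have h3 : ∀ᶠ y in 𝓝 z, (a < F y ∧ y ∈ Dᶜ) ∧ y ∈ Θ :=
        (hz : ∀ᶠ y in 𝓝 z, a < F y ∧ y ∈ Dᶜ).and (hΘ.mem_nhds hzΘ)
      obtain ⟨r, hr, hball⟩ := Metric.eventually_nhds_iff_ball.mp h3
      refine EReal.coe_le_coe_iff.mpr (upc_le hΘ hb hzΘ ⟨r, hr, ?_⟩)
      have hsub : ball z r ⊆ Θ := fun y hy => (hball y hy).2
      filter_upwards [ae_restrict_of_ae_restrict_of_subset hsub hFu,
        ae_restrict_mem measurableSet_ball] with y hy hyb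
      obtain ⟨⟨h4, h5⟩, -⟩ := hball y hyb
      exact h4.le.trans (hy h5)

theorem lsr_upper (hp : 1 < p) {Θ : Set (X n)} (hΘ : IsOpen Θ) {u : X n → ℝ} {G : X n → E n}
    (h : SupOn p Θ u G) {F : X n → ℝ} (hF : Continuous F) {D : Set (X n)} (hD : IsCompact D)
    (hDΘ : D ⊆ Θ) (hFu : ∀ᵐ z ∂(volume.restrict Θ), z ∉ D → F z ≤ u z) :
    (fun z => (lsr u z : EReal)) ∈ UpperClass p Θ F := by
  refine ⟨lsr_superPar hp hΘ h, ?_, fun ξ hξ => upc_liminf hΘ h.bdd hF hD hDΘ hFu hξ⟩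
  obtain ⟨M, hM⟩ := h.bdd
  exact ⟨-M, fun z hz => EReal.coe_le_coe_iff.mpr (upc_le hΘ ⟨M, hM⟩ hz (upc_mem hΘ hM hz))⟩

theorem lsr_lower (hp : 1 < p) {Θ : Set (X n)} (hΘ : IsOpen Θ) {u : X n → ℝ} {G : X n → E n}
    (h : SupOn p Θ u G) {F : X n → ℝ} (hF : Continuous F) {D : Set (X n)} (hD : IsCompact D)
    (hDΘ : D ⊆ Θ) (hFu : ∀ᵐ z ∂(volume.restrict Θ), z ∉ D → - F z ≤ u z) :
    (fun z => ((- lsr u z : ℝ) : EReal)) ∈ LowerClass p Θ F := by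
  obtain ⟨M, hM⟩ := h.bdd
  refine ⟨?_, ⟨M, fun z hz => ?_⟩, fun ξ hξ => ?_⟩
  · show SuperPar p Θ _
    have e1 : (fun z => -((- lsr u z : ℝ) : EReal)) = fun z => (lsr u z : EReal) := by
      funext z
      rw [EReal.coe_neg, neg_neg]
    rw [e1]
    exact lsr_superPar hp hΘ h
  · refine EReal.coe_le_coe_iff.mpr ?_
    have := upc_le hΘ ⟨M, hM⟩ hz (upc_mem hΘ hM hz)
    linarith
  · have h1 := upc_liminf hΘ ⟨M, hM⟩ hF.neg hD hDΘ hFu hξ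
    have e1 : (fun z => ((- lsr u z : ℝ) : EReal)) = -fun z => (lsr u z : EReal) := by
      funext z
      rw [EReal.coe_neg]
      rfl
    rw [e1, EReal.limsup_neg]
    have h2 := EReal.neg_le_neg_iff.mpr h1
    rw [← EReal.coe_neg] at h2
    have e2 : -(-F) ξ = F ξ := by
      rw [Pi.neg_apply, neg_neg]
    rwa [e2] at h2

theorem lsr_le {Θ : Set (X n)} (hΘ : IsOpen Θ) {u : X n → ℝ}
    (hm : AEStronglyMeasurable u (volume.restrict Θ))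
    (hb : ∃ M : ℝ, ∀ᵐ z ∂(volume.restrict Θ), |u z| ≤ M) :
    ∀ᵐ z ∂(volume.restrict Θ), lsr u z ≤ u z := by
  obtain ⟨M, hM⟩ := hb
  set N : ℚ → Set (X n) := fun q =>
    {z | u z < q ∧ ∃ r > 0, ∀ᵐ y ∂(volume.restrict (ball z r)), (q : ℝ) ≤ u y} with hN
  have hnull : ∀ q, volume (N q) = 0 := by
    intro q
    refine measure_null_of_locally_null _ fun z hz => ?_
    obtain ⟨-, r, hr, hq⟩ := hz
    refine ⟨N q ∩ ball z r, inter_mem_nhdsWithin _ (ball_mem_nhds z hr), ?_⟩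
    have h1 := (ae_restrict_iff' measurableSet_ball).mp hq
    refine measure_mono_null (fun y hy => ?_) h1
    intro hcon
    exact absurd (hcon hy.2) (not_le.mpr hy.1.1)
  have hall : ∀ᵐ z : X n, ∀ q, z ∉ N q := ae_all_iff.mpr fun q => by
    rw [ae_iff]
    simpa using hnull q
  filter_upwards [ae_restrict_of_ae hall, ae_restrict_mem hΘ.measurableSet] with z hz hzΘ
  by_contra hcon
  push Not at hcon
  obtain ⟨q, hq1, hq2⟩ := exists_rat_btwn hcon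
  refine hz q ⟨hq1, ?_⟩
  obtain ⟨a, ⟨r, hr, ha⟩, hqa⟩ := exists_lt_of_lt_csSup (s := upcS u z)
    ⟨-M, upc_mem hΘ hM hzΘ⟩ hq2
  exact ⟨r, hr, by filter_upwards [ha] with y hy using hqa.le.trans hy⟩

end PP
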