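import Pool.Agent.PP.CORE
import Pool.Agent.PP.UPC
import Pool.Agent.PP.RED

open Set Metric Filter Topology MeasureTheory
open scoped ContDiff

noncomputable section

namespace PP

variable {n : ℕ}
variable {p : ℝ}

theorem upperH_le_of_mem {Θ : Set (X n)} {f : X n → ℝ} {u : X n → EReal}
    (h : u ∈ UpperClass p Θ f) (z : X n) : upperH p Θ f z ≤ u z :=
  iInf₂_le u h

theorem le_lowerH_of_mem {Θ : Set (X n)} {f : X n → ℝ} {u : X n → EReal}
    (h : u ∈ LowerClass p Θ f) (z : X n) : u z ≤ lowerH p Θ f z :=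
  le_iSup₂ (f := fun u (_ : u ∈ LowerClass p Θ f) => u z) u h

/-- resolutivity of good data, almost everywhere -/
theorem final_ae_nice (hn : 0 < n) (hp : 1 < p) {Θ : Set (X n)} (hΘ : IsOpen Θ)
    (hb : Bornology.IsBounded Θ) {F e : X n → ℝ} (hF : Nice p Θ F e) :
    ∀ᵐ z ∂(volume.restrict Θ), upperH p Θ F z ≤ lowerH p Θ F z := by
  obtain ⟨U, U', GU, GU', h, M, Ω, a1, a2, a3, a4, a5, a6, a7, a8, a9, a10⟩ :=
    core hn hp hΘ hb hF
  have hc := hF.tst.smooth.continuous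
  have b1 : ∀ i, ∀ᵐ z ∂(volume.restrict Θ), upperH p Θ F z ≤ (U i z : EReal) ∧
      ((- U' i z : ℝ) : EReal) ≤ lowerH p Θ F z := by
    intro i
    obtain ⟨D, hD, hDΘ, hDu⟩ := a8 i
    have c1 := lsr_upper hp hΘ (a1 i) hc hD hDΘ
      (ae_restrict_of_ae (hDu.mono fun y hy hyD => (hy hyD).1))
    have c2 := lsr_lower hp hΘ (a2 i) hc hD hDΘ
      (ae_restrict_of_ae (hDu.mono fun y hy hyD => (hy hyD).2))
    have c3 := lsr_le hΘ (a1 i).meas (a1 i).bdd
    have c4 := lsr_le hΘ (a2 i).meas (a2 i).bdd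
    filter_upwards [c3, c4] with z d1 d2
    constructor
    · exact (upperH_le_of_mem c1 z).trans (EReal.coe_le_coe_iff.2 d1)
    · exact le_trans (EReal.coe_le_coe_iff.2 (neg_le_neg d2)) (le_lowerH_of_mem c2 z)
  have b2 := ae_all_iff.2 b1
  filter_upwards [b2, ae_restrict_of_ae a9, ae_restrict_of_ae a10] with z d1 d2 d3
  have e1 : Tendsto (fun i => (U i z : EReal)) atTop (𝓝 (h z : EReal)) :=
    (continuous_coe_real_ereal.tendsto _).comp d2
  have e2 : Tendsto (fun i => ((- U' i z : ℝ) : EReal)) atTop (𝓝 (h z : EReal)) := by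
    have := (continuous_coe_real_ereal.tendsto _).comp d3.neg
    rwa [neg_neg] at this
  exact (ge_of_tendsto' e1 fun i => (d1 i).1).trans (le_of_tendsto' e2 fun i => (d1 i).2)

theorem ereal_le_of_forall {a b : EReal} (h : ∀ δ : ℝ, 0 < δ → a ≤ b + (δ : EReal)) :
    a ≤ b := by
  induction b using EReal.rec with
  | bot =>
    have := h 1 one_pos
    simpa using this
  | top => exact le_top
  | coe b =>
    induction a using EReal.rec with
    | bot => exact bot_le
    | top =>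
      have := h 1 one_pos
      rw [← EReal.coe_add] at this
      exact absurd (top_le_iff.1 this) (EReal.coe_ne_top _)
    | coe a =>
      rw [EReal.coe_le_coe_iff]
      refine le_of_forall_pos_le_add fun δ hδ => ?_
      have := h δ hδ
      rw [← EReal.coe_add, EReal.coe_le_coe_iff] at this
      exact this

theorem transfer {Θ : Set (X n)} {f : X n → ℝ} {z : X n}
    (h : ∀ δ > 0, ∃ F : X n → ℝ, (∀ ξ ∈ frontier Θ, |F ξ - f ξ| ≤ δ) ∧
      upperH p Θ F z ≤ lowerH p Θ F z) : upperH p Θ f z ≤ lowerH p Θ f z := by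
  refine ereal_le_of_forall fun δ hδ => ?_
  obtain ⟨F, hF, hFz⟩ := h (δ / 2) (half_pos hδ)
  have h1 : upperH p Θ f z ≤ upperH p Θ F z + ((δ / 2 : ℝ) : EReal) :=
    upperH_le_add (fun ξ hξ => by have := abs_le.1 (hF ξ hξ); linarith [this.1]) z
  have h2 : lowerH p Θ F z ≤ lowerH p Θ f z + ((δ / 2 : ℝ) : EReal) :=
    lowerH_le_add (fun ξ hξ => by have := abs_le.1 (hF ξ hξ); linarith [this.2]) z
  calc upperH p Θ f z ≤ upperH p Θ F z + ((δ / 2 : ℝ) : EReal) := h1
    _ ≤ lowerH p Θ F z + ((δ / 2 : ℝ) : EReal) := by gcongr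
    _ ≤ (lowerH p Θ f z + ((δ / 2 : ℝ) : EReal)) + ((δ / 2 : ℝ) : EReal) := by gcongr
    _ = lowerH p Θ f z + (δ : EReal) := by
        rw [add_assoc, ← EReal.coe_add, add_halves]

/-- resolutivity of continuous data, almost everywhere -/
theorem final_ae (hn : 0 < n) (hp : 1 < p) {Θ : Set (X n)} (hΘ : IsOpen Θ)
    (hb : Bornology.IsBounded Θ) {f : X n → ℝ} (hf : ContinuousOn f (frontier Θ)) :
    ∀ᵐ z ∂(volume.restrict Θ), upperH p Θ f z ≤ lowerH p Θ f z := by
  have h1 : ∀ m : ℕ, ∃ F e, Nice p Θ F e ∧ ∀ ξ ∈ frontier Θ, |F ξ - f ξ| ≤ 1 / ((m : ℝ) + 1) :=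
    fun m => exists_nice hn hp hΘ hb hf (by positivity)
  choose F e hF hFf using h1
  have h2 := ae_all_iff.2 fun m => final_ae_nice hn hp hΘ hb (hF m)
  filter_upwards [h2] with z hz
  refine transfer fun δ hδ => ?_
  obtain ⟨m, hm⟩ := exists_nat_one_div_lt hδ
  exact ⟨F m, fun ξ hξ => (hFf m ξ hξ).trans hm.le, hz m⟩

end PP
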