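import Pool.Agent.PP.UNIT
import Pool.Agent.PP.SCL

open Set Metric Filter Topology MeasureTheory
open scoped ContDiff

noncomputable section

namespace PP

variable {n : ℕ}
variable {p : ℝ}

/-- one step of the reduction of oscillation -/
theorem reg_step (hn : 0 < n) (hp : 1 < p) : ∃ σ : ℝ, 0 < σ ∧ σ < 1 ∧ ∀ (W ρ : ℝ), 0 < W →
    0 < ρ → ∃ ρ' : ℝ, 0 < ρ' ∧ ρ' ≤ ρ ∧ ∀ (u : X n → ℝ) (G : X n → E n) (x₀ : E n) (t₀ m : ℝ),
      SolOn p (ball x₀ ρ ×ˢ Ioo (t₀ - ρ) (t₀ + ρ)) u G →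
      (∀ᵐ z ∂(volume.restrict (ball x₀ ρ ×ˢ Ioo (t₀ - ρ) (t₀ + ρ))), m ≤ u z ∧ u z ≤ m + W) →
      ∃ m' : ℝ, ∀ᵐ z ∂(volume.restrict (ball x₀ ρ' ×ˢ Ioo (t₀ - ρ') (t₀ + ρ'))),
        m' ≤ u z ∧ u z ≤ m' + (1 - σ) * W := by
  obtain ⟨R, T, σ, s, hR, hT, hσ, hσ1, hs, H⟩ := unit_osc (n := n) hn hp
  refine ⟨σ, hσ, hσ1, fun W ρ hw hρ => ?_⟩
  have hp0 : p ≠ 0 := by linarith
  -- the spatial scale
  obtain ⟨r, hr, hrR, hrT⟩ : ∃ r : ℝ, 0 < r ∧ r * R ≤ ρ ∧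
      (1 / W) ^ (p - 2) * r ^ p * T ≤ ρ := by
    set K : ℝ := (1 / W) ^ (p - 2) * T with hK
    have hK0 : 0 < K := by positivity
    refine ⟨min (ρ / R) ((ρ / K) ^ (1 / p)), lt_min (by positivity) (by positivity), ?_, ?_⟩
    · calc min (ρ / R) ((ρ / K) ^ (1 / p)) * R ≤ ρ / R * R := by
            gcongr
            exact min_le_left _ _
        _ = ρ := by field_simp
    · have h1 : (min (ρ / R) ((ρ / K) ^ (1 / p))) ^ p ≤ ρ / K := by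
        calc (min (ρ / R) ((ρ / K) ^ (1 / p))) ^ p ≤ ((ρ / K) ^ (1 / p)) ^ p := by
              apply Real.rpow_le_rpow _ (min_le_right _ _) (by linarith)
              exact (lt_min (by positivity) (by positivity)).le
          _ = ρ / K := by
              rw [← Real.rpow_mul (by positivity), one_div, inv_mul_cancel₀ hp0, Real.rpow_one]
      calc (1 / W) ^ (p - 2) * (min (ρ / R) ((ρ / K) ^ (1 / p))) ^ p * T
          = K * (min (ρ / R) ((ρ / K) ^ (1 / p))) ^ p := by rw [hK]; ring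
        _ ≤ K * (ρ / K) := by gcongr
        _ = ρ := by field_simp
  set b : ℝ := 1 / W with hb
  have hb0 : 0 < b := by positivity
  obtain ⟨S, hS⟩ : ∃ S : ℝ, S = b ^ (p - 2) * r ^ p := ⟨_, rfl⟩
  have hS0 : 0 < S := by rw [hS]; positivity
  rw [← hS] at hrT
  refine ⟨min ρ (min r (S * s)), lt_min hρ (lt_min hr (by positivity)), min_le_left _ _,
    fun u G x₀ t₀ m h1 h2 => ?_⟩
  set ρ' : ℝ := min ρ (min r (S * s)) with hρ'
  have hρ'1 : ρ' ≤ ρ := min_le_left _ _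
  have hρ'2 : ρ' ≤ r := (min_le_right _ _).trans (min_le_left _ _)
  have hρ'3 : ρ' ≤ S * s := (min_le_right _ _).trans (min_le_right _ _)
  have h3 := h1.scale hp (unit_open _ _ _ _) (a := - (b * m)) (b := b) (r := r) hb0 hr x₀ t₀
  simp only [← hS] at h3
  have hopen : IsOpen {z : X n | (x₀ + r • z.1, t₀ + S * z.2) ∈
      ball x₀ ρ ×ˢ Ioo (t₀ - ρ) (t₀ + ρ)} :=
    (unit_open _ _ _ _).preimage (by fun_prop)
  have hmem : ∀ z ∈ (ball (0 : E n) R ×ˢ Ioo (-T) T : Set (X n)),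
      unitAff r S x₀ t₀ z ∈ (ball x₀ ρ ×ˢ Ioo (t₀ - ρ) (t₀ + ρ) : Set (X n)) := by
    rintro ⟨x, t⟩ ⟨hx, ht⟩
    have hx' : ‖x‖ < R := by simpa using hx
    have ht' : |t| < T := abs_lt.2 ht
    refine ⟨?_, ?_⟩
    · show x₀ + r • x ∈ ball x₀ ρ
      rw [mem_ball, dist_eq_norm, add_sub_cancel_left, norm_smul, Real.norm_of_nonneg hr.le]
      calc r * ‖x‖ < r * R := by gcongr
        _ ≤ ρ := hrR
    · show t₀ + S * t ∈ Ioo (t₀ - ρ) (t₀ + ρ)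
      have h4 : |S * t| < ρ := by
        rw [abs_mul, abs_of_pos hS0]
        calc S * |t| < S * T := by gcongr
          _ ≤ ρ := hrT
      have h5 := abs_lt.1 h4
      exact ⟨by linarith [h5.1], by linarith [h5.2]⟩
  have hsub : (ball (0 : E n) R ×ˢ Ioo (-T) T : Set (X n)) ⊆
      {z : X n | (x₀ + r • z.1, t₀ + S * z.2) ∈ ball x₀ ρ ×ˢ Ioo (t₀ - ρ) (t₀ + ρ)} :=
    fun z hz => hmem z hz
  have h3' := h3.restrict hopen (unit_open _ _ _ _) hsub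
  have h2' : ∀ᵐ z ∂(volume.restrict (ball (0 : E n) R ×ˢ Ioo (-T) T)),
      0 ≤ b * u (x₀ + r • z.1, t₀ + S * z.2) + - (b * m) ∧
      b * u (x₀ + r • z.1, t₀ + S * z.2) + - (b * m) ≤ 1 := by
    have h4 := unitAff_ae hr.ne' hS0.ne' x₀ t₀
      (S := (ball x₀ ρ ×ˢ Ioo (t₀ - ρ) (t₀ + ρ) : Set (X n)))
      (T := (ball (0 : E n) R ×ˢ Ioo (-T) T : Set (X n)))
      (unit_meas _ _ _ _) (unit_meas _ _ _ _) hmem (P := fun z => m ≤ u z ∧ u z ≤ m + W) h2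
    filter_upwards [h4] with z hz
    have hz1 : m ≤ u (x₀ + r • z.1, t₀ + S * z.2) := hz.1
    have hz2 : u (x₀ + r • z.1, t₀ + S * z.2) ≤ m + W := hz.2
    have hbw : b * W = 1 := by rw [hb]; field_simp
    constructor
    · nlinarith
    · nlinarith
  -- back
  have hback : ∀ z ∈ (ball x₀ ρ' ×ˢ Ioo (t₀ - ρ') (t₀ + ρ') : Set (X n)),
      unitAff r⁻¹ S⁻¹ (-(r⁻¹ • x₀)) (-(S⁻¹ * t₀)) z ∈ (ball (0 : E n) 1 ×ˢ Ioo (-s) s : Set (X n)) := by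
    rintro ⟨x, t⟩ ⟨hx, ht⟩
    have hx' : ‖x - x₀‖ < ρ' := by rwa [mem_ball, dist_eq_norm] at hx
    have ht' : |t - t₀| < ρ' := abs_lt.2 ⟨by linarith [ht.1], by linarith [ht.2]⟩
    refine ⟨?_, ?_⟩
    · show -(r⁻¹ • x₀) + r⁻¹ • x ∈ ball (0 : E n) 1
      rw [mem_ball_zero_iff]
      have e : -(r⁻¹ • x₀) + r⁻¹ • x = r⁻¹ • (x - x₀) := by
        rw [smul_sub]
        abel
      rw [e, norm_smul, Real.norm_of_nonneg (inv_nonneg.2 hr.le)]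
      calc r⁻¹ * ‖x - x₀‖ < r⁻¹ * r := by
            have : ‖x - x₀‖ < r := hx'.trans_le hρ'2
            gcongr
        _ = 1 := inv_mul_cancel₀ hr.ne'
    · show -(S⁻¹ * t₀) + S⁻¹ * t ∈ Ioo (-s) s
      have e : -(S⁻¹ * t₀) + S⁻¹ * t = S⁻¹ * (t - t₀) := by ring
      rw [e]
      apply abs_lt.1
      rw [abs_mul, abs_of_pos (inv_pos.2 hS0)]
      calc S⁻¹ * |t - t₀| < S⁻¹ * (S * s) := by
            have : |t - t₀| < S * s := ht'.trans_le hρ'3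
            gcongr
        _ = s := by field_simp
  have hsubρ : (ball x₀ ρ' ×ˢ Ioo (t₀ - ρ') (t₀ + ρ') : Set (X n)) ⊆
      ball x₀ ρ ×ˢ Ioo (t₀ - ρ) (t₀ + ρ) := by
    apply unit_mono
    · rw [dist_self, zero_add]
      exact hρ'1
    · linarith
    · linarith
  have h2'' := unit_ae_mono hsubρ h2
  have hbw : b * W = 1 := by rw [hb]; field_simp
  rcases H _ _ h3' h2' with h5 | h5
  · refine ⟨m + σ * W, ?_⟩
    have h6 := unitAff_ae' hr.ne' hS0.ne' x₀ t₀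
      (S := (ball x₀ ρ' ×ˢ Ioo (t₀ - ρ') (t₀ + ρ') : Set (X n))) (unit_meas _ _ _ _)
      (unit_meas (0 : E n) 1 (-s) s) hback (P := fun z => σ ≤ b * u z + - (b * m)) h5
    filter_upwards [h6, h2''] with z hz hz2
    have h7 : σ * W ≤ u z - m := by
      have h8 : σ * W ≤ (b * u z + - (b * m)) * W := by gcongr
      have h9 : (b * u z + - (b * m)) * W = (b * W) * (u z - m) := by ring
      rw [h9, hbw, one_mul] at h8
      exact h8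
    constructor
    · linarith
    · have : m + σ * W + (1 - σ) * W = m + W := by ring
      rw [this]
      exact hz2.2
  · refine ⟨m, ?_⟩
    have h6 := unitAff_ae' hr.ne' hS0.ne' x₀ t₀
      (S := (ball x₀ ρ' ×ˢ Ioo (t₀ - ρ') (t₀ + ρ') : Set (X n))) (unit_meas _ _ _ _)
      (unit_meas (0 : E n) 1 (-s) s) hback (P := fun z => b * u z + - (b * m) ≤ 1 - σ) h5
    filter_upwards [h6, h2''] with z hz hz2
    have h7 : u z - m ≤ (1 - σ) * W := by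
      have h8 : (b * u z + - (b * m)) * W ≤ (1 - σ) * W := by gcongr
      have h9 : (b * u z + - (b * m)) * W = (b * W) * (u z - m) := by ring
      rw [h9, hbw, one_mul] at h8
      exact h8
    exact ⟨hz2.1, by linarith⟩

/-- iterated reduction of oscillation -/
theorem reg_iter (hn : 0 < n) (hp : 1 < p) : ∃ σ : ℝ, 0 < σ ∧ σ < 1 ∧ ∀ (W : ℝ) (j : ℕ) (ρ : ℝ),
    0 < W → 0 < ρ → ∃ ρ' : ℝ, 0 < ρ' ∧ ρ' ≤ ρ ∧
      ∀ (u : X n → ℝ) (G : X n → E n) (x₀ : E n) (t₀ m : ℝ),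
      SolOn p (ball x₀ ρ ×ˢ Ioo (t₀ - ρ) (t₀ + ρ)) u G →
      (∀ᵐ z ∂(volume.restrict (ball x₀ ρ ×ˢ Ioo (t₀ - ρ) (t₀ + ρ))), m ≤ u z ∧ u z ≤ m + W) →
      ∃ m' : ℝ, ∀ᵐ z ∂(volume.restrict (ball x₀ ρ' ×ˢ Ioo (t₀ - ρ') (t₀ + ρ'))),
        m' ≤ u z ∧ u z ≤ m' + (1 - σ) ^ j * W := by
  obtain ⟨σ, hσ, hσ1, H⟩ := reg_step (n := n) hn hp
  refine ⟨σ, hσ, hσ1, fun W j => ?_⟩
  have h1σ : 0 < 1 - σ := by linarith
  induction j with
  | zero =>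
    intro ρ hw hρ
    exact ⟨ρ, hρ, le_rfl, fun u G x₀ t₀ m _ h2 => ⟨m, by simpa using h2⟩⟩
  | succ j ih =>
    intro ρ hw hρ
    obtain ⟨ρ₁, hρ₁, hρ₁ρ, K⟩ := ih ρ hw hρ
    obtain ⟨ρ₂, hρ₂, hρ₂ρ, K'⟩ := H ((1 - σ) ^ j * W) ρ₁ (by positivity) hρ₁
    refine ⟨ρ₂, hρ₂, hρ₂ρ.trans hρ₁ρ, fun u G x₀ t₀ m h1 h2 => ?_⟩
    obtain ⟨m₁, h3⟩ := K u G x₀ t₀ m h1 h2
    have hsub : (ball x₀ ρ₁ ×ˢ Ioo (t₀ - ρ₁) (t₀ + ρ₁) : Set (X n)) ⊆
        ball x₀ ρ ×ˢ Ioo (t₀ - ρ) (t₀ + ρ) := by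
      apply unit_mono
      · rw [dist_self, zero_add]
        exact hρ₁ρ
      · linarith
      · linarith
    obtain ⟨m₂, h4⟩ := K' u G x₀ t₀ m₁
      (h1.restrict (unit_open _ _ _ _) (unit_open _ _ _ _) hsub) h3
    refine ⟨m₂, ?_⟩
    have e : (1 - σ) ^ (j + 1) * W = (1 - σ) * ((1 - σ) ^ j * W) := by ring
    rw [e]
    exact h4

/-- interior continuity with a uniform modulus -/
theorem reg (hn : 0 < n) (hp : 1 < p) {M R δ : ℝ} (hR : 0 < R) (hδ : 0 < δ) :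
    ∃ r : ℝ, 0 < r ∧ r ≤ R ∧ ∀ (u : X n → ℝ) (G : X n → E n) (x₀ : E n) (t₀ : ℝ),
      SolOn p (ball x₀ R ×ˢ Ioo (t₀ - R) (t₀ + R)) u G →
      (∀ᵐ z ∂(volume.restrict (ball x₀ R ×ˢ Ioo (t₀ - R) (t₀ + R))), |u z| ≤ M) →
      ∃ c : ℝ, ∀ᵐ z ∂(volume.restrict (ball x₀ r ×ˢ Ioo (t₀ - r) (t₀ + r))), |u z - c| ≤ δ := by
  obtain ⟨σ, hσ, hσ1, H⟩ := reg_iter (n := n) hn hp
  set W : ℝ := 2 * (|M| + 1) with hw
  have hw0 : 0 < W := by positivity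
  obtain ⟨j, hj⟩ := exists_pow_lt_of_lt_one (show 0 < δ / W by positivity)
    (show 1 - σ < 1 by linarith)
  obtain ⟨r, hr, hrR, K⟩ := H W j R hw0 hR
  refine ⟨r, hr, hrR, fun u G x₀ t₀ h1 h2 => ?_⟩
  obtain ⟨m, hm⟩ := K u G x₀ t₀ (-(|M| + 1)) h1 (by
    filter_upwards [h2] with z hz
    have h3 := abs_le.1 (hz.trans (le_abs_self M))
    constructor
    · linarith [h3.1]
    · rw [hw]
      linarith [h3.2])
  refine ⟨m, ?_⟩
  filter_upwards [hm] with z hz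
  rw [lt_div_iff₀ hw0] at hj
  rw [abs_le]
  constructor
  · linarith [hz.1]
  · linarith [hz.2]

end PP
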