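import Pool.Agent.PP.FINA
import Pool.Agent.PP.REG
import Pool.Agent.PP.SCL

open Set Metric Filter Topology MeasureTheory
open scoped ContDiff

noncomputable section

namespace PP

variable {n : ℕ}
variable {p : ℝ}

theorem lsr_le_of_ae {u : X n → ℝ} {z : X n} {r M b : ℝ} (hr : 0 < r)
    (hM : ∀ᵐ y ∂(volume.restrict (ball z r)), -M ≤ u y)
    (hb : ∀ᵐ y ∂(volume.restrict (ball z r)), u y ≤ b) : lsr u z ≤ b := by
  refine csSup_le ⟨-M, r, hr, hM⟩ ?_
  rintro a ⟨ρ, hρ, ha⟩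
  have h1 : ∀ᵐ y ∂(volume.restrict (ball z (min r ρ))), a ≤ b := by
    have h2 := ae_restrict_of_ae_restrict_of_subset (ball_subset_ball (min_le_left r ρ)) hb
    have h3 := ae_restrict_of_ae_restrict_of_subset (ball_subset_ball (min_le_right r ρ)) ha
    filter_upwards [h2, h3] with y h2 h3
    exact h3.trans h2
  have h4 : (volume.restrict (ball z (min r ρ))) ≠ 0 := by
    rw [Ne, Measure.restrict_eq_zero]
    exact (measure_ball_pos volume z (lt_min hr hρ)).ne'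
  haveI : NeBot (ae (volume.restrict (ball z (min r ρ)))) := ae_neBot.2 h4
  exact h1.exists.choose_spec

theorem ball_prod_eq (x : E n) (t r : ℝ) :
    ball ((x, t) : X n) r = ball x r ×ˢ Ioo (t - r) (t + r) := by
  rw [← ball_prod_same, Real.ball_eq_Ioo]

/-- resolutivity of good data at every point -/
theorem final_nice (hn : 0 < n) (hp : 1 < p) {Θ : Set (X n)} (hΘ : IsOpen Θ)
    (hb : Bornology.IsBounded Θ) {F e : X n → ℝ} (hF : Nice p Θ F e) {z : X n} (hz : z ∈ Θ) :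
    upperH p Θ F z ≤ lowerH p Θ F z := by
  obtain ⟨U, U', GU, GU', h, M, Ω, a1, a2, a3, a4, a5, a6, a7, a8, a9, a10⟩ :=
    core hn hp hΘ hb hF
  have hc := hF.tst.smooth.continuous
  obtain ⟨x₀, t₀⟩ := z
  refine ereal_le_of_forall fun δ' hδ' => ?_
  set δ := δ' / 5 with hδdef
  have hδ : 0 < δ := by positivity
  obtain ⟨R, hR, hRΘ⟩ := nhds_basis_closedBall.mem_iff.1 (hΘ.mem_nhds hz)
  obtain ⟨r, hr, hrR, hreg⟩ := reg (n := n) (p := p) hn hp (M := M) hR hδ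
  have hcyl : ball x₀ R ×ˢ Ioo (t₀ - R) (t₀ + R) = ball ((x₀, t₀) : X n) R :=
    (ball_prod_eq x₀ t₀ R).symm
  have hcylr : ball x₀ r ×ˢ Ioo (t₀ - r) (t₀ + r) = ball ((x₀, t₀) : X n) r :=
    (ball_prod_eq x₀ t₀ r).symm
  have hev := a4 (closedBall ((x₀, t₀) : X n) R) (isCompact_closedBall _ _) hRΘ
  -- the limit at one good point
  have hgood : ∃ y ∈ ball ((x₀, t₀) : X n) r, Tendsto (fun i => U i y) atTop (𝓝 (h y)) ∧
      Tendsto (fun i => U' i y) atTop (𝓝 (- h y)) ∧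
      ∀ i, closedBall ((x₀, t₀) : X n) R ⊆ Ω i → ∃ c c' : ℝ,
        (∀ᵐ w ∂(volume.restrict (ball ((x₀, t₀) : X n) r)), |U i w - c| ≤ δ) ∧
        (∀ᵐ w ∂(volume.restrict (ball ((x₀, t₀) : X n) r)), |U' i w - c'| ≤ δ) ∧
        |U i y - c| ≤ δ ∧ |U' i y - c'| ≤ δ := by
    have h1 : ∀ i, closedBall ((x₀, t₀) : X n) R ⊆ Ω i → ∃ c c' : ℝ,
        (∀ᵐ w ∂(volume.restrict (ball ((x₀, t₀) : X n) r)), |U i w - c| ≤ δ) ∧
        (∀ᵐ w ∂(volume.restrict (ball ((x₀, t₀) : X n) r)), |U' i w - c'| ≤ δ) := by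
      intro i hi
      have hsub : ball x₀ R ×ˢ Ioo (t₀ - R) (t₀ + R) ⊆ Ω i := by
        rw [hcyl]; exact ball_subset_closedBall.trans hi
      have hop : IsOpen (ball x₀ R ×ˢ Ioo (t₀ - R) (t₀ + R)) := isOpen_ball.prod isOpen_Ioo
      obtain ⟨c, hc⟩ := hreg (U i) (GU i) x₀ t₀ ((a5 i).restrict (a3 i).1 hop hsub)
        (ae_restrict_of_ae ((a7 i).mono fun y hy => hy.1))
      obtain ⟨c', hc'⟩ := hreg (U' i) (GU' i) x₀ t₀ ((a6 i).restrict (a3 i).1 hop hsub)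
        (ae_restrict_of_ae ((a7 i).mono fun y hy => hy.2))
      rw [hcylr] at hc hc'
      exact ⟨c, c', hc, hc'⟩
    choose! c c' hc1 hc2 using h1
    have h2 : ∀ᵐ w ∂(volume.restrict (ball ((x₀, t₀) : X n) r)), ∀ i,
        closedBall ((x₀, t₀) : X n) R ⊆ Ω i → |U i w - c i| ≤ δ ∧ |U' i w - c' i| ≤ δ := by
      rw [ae_all_iff]; intro i
      by_cases hi : closedBall ((x₀, t₀) : X n) R ⊆ Ω i
      · filter_upwards [hc1 i hi, hc2 i hi] with w h3 h4 _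
        exact ⟨h3, h4⟩
      · exact Eventually.of_forall fun w h5 => absurd h5 hi
    have h4 : (volume.restrict (ball ((x₀, t₀) : X n) r)) ≠ 0 := by
      rw [Ne, Measure.restrict_eq_zero]
      exact (measure_ball_pos volume _ hr).ne'
    haveI : NeBot (ae (volume.restrict (ball ((x₀, t₀) : X n) r))) := ae_neBot.2 h4
    have h5 := (((ae_restrict_mem measurableSet_ball).and h2).and
      ((ae_restrict_of_ae a9).and (ae_restrict_of_ae a10))).exists
    obtain ⟨y, ⟨hy1, hy2⟩, hy3, hy4⟩ := h5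
    exact ⟨y, hy1, hy3, hy4, fun i hi => ⟨c i, c' i, hc1 i hi, hc2 i hi, hy2 i hi⟩⟩
  obtain ⟨y, hy, hyU, hyU', hyc⟩ := hgood
  have hsum : Tendsto (fun i => U i y + U' i y) atTop (𝓝 0) := by
    have := hyU.add hyU'
    rwa [add_neg_cancel] at this
  obtain ⟨i, hi1, hi2⟩ := (hev.and (hsum.eventually (gt_mem_nhds hδ))).exists
  obtain ⟨c, c', h1, h2, h3, h4⟩ := hyc i hi1
  obtain ⟨D, hD, hDΘ, hDu⟩ := a8 i
  have c1 := lsr_upper hp hΘ (a1 i) hc hD hDΘ
    (ae_restrict_of_ae (hDu.mono fun y hy hyD => (hy hyD).1))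
  have c2 := lsr_lower hp hΘ (a2 i) hc hD hDΘ
    (ae_restrict_of_ae (hDu.mono fun y hy hyD => (hy hyD).2))
  have d1 : lsr (U i) (x₀, t₀) ≤ c + δ :=
    lsr_le_of_ae hr (M := M)
      (ae_restrict_of_ae ((a7 i).mono fun w hw => (abs_le.1 hw.1).1))
      (h1.mono fun w hw => by have := abs_le.1 hw; linarith [this.2])
  have d2 : lsr (U' i) (x₀, t₀) ≤ c' + δ :=
    lsr_le_of_ae hr (M := M)
      (ae_restrict_of_ae ((a7 i).mono fun w hw => (abs_le.1 hw.2).1))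
      (h2.mono fun w hw => by have := abs_le.1 hw; linarith [this.2])
  have e1 := abs_le.1 h3
  have e2 := abs_le.1 h4
  have e3 : c + δ ≤ - (c' + δ) + δ' := by
    have : δ' = 5 * δ := by rw [hδdef]; ring
    rw [this]; linarith [e1.1, e2.1]
  calc upperH p Θ F (x₀, t₀) ≤ (lsr (U i) (x₀, t₀) : EReal) := upperH_le_of_mem c1 _
    _ ≤ ((- lsr (U' i) (x₀, t₀) + δ' : ℝ) : EReal) := by
        rw [EReal.coe_le_coe_iff]; linarith
    _ = ((- lsr (U' i) (x₀, t₀) : ℝ) : EReal) + (δ' : EReal) := EReal.coe_add _ _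
    _ ≤ lowerH p Θ F (x₀, t₀) + (δ' : EReal) := by
        gcongr; exact le_lowerH_of_mem c2 _

/-- MAIN THEOREM: continuous boundary data are resolutive -/
theorem final (hn : 0 < n) (hp : 1 < p) {Θ : Set (X n)} (hΘ : IsOpen Θ)
    (hb : Bornology.IsBounded Θ) {f : X n → ℝ} (hf : ContinuousOn f (frontier Θ)) {z : X n}
    (hz : z ∈ Θ) : upperH p Θ f z ≤ lowerH p Θ f z := by
  refine transfer fun δ hδ => ?_
  obtain ⟨F, e, hF, hFf⟩ := exists_nice hn hp hΘ hb hf hδ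
  exact ⟨F, hFf, final_nice hn hp hΘ hb hF hz⟩

end PP
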