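import Pool.Agent.PP.Defs

open Set Metric Filter Topology MeasureTheory
open scoped ContDiff NNReal ENNReal

noncomputable section

namespace PP

variable {n : ℕ}
variable {p : ℝ}

private lemma fk_one (f : E 1 → ℝ) (hf : ContDiff ℝ 1 f) (hc : HasCompactSupport f) (x : E 1) :
    |f x| ≤ ∫ y, ‖fderiv ℝ f y‖ := by
  obtain ⟨L, hL⟩ : ∃ L : ℝ ≃ₗᵢ[ℝ] E 1, L = (OrthonormalBasis.singleton (Fin 1) ℝ).repr :=
    ⟨_, rfl⟩
  have hmp : MeasurePreserving L volume volume := L.measurePreserving
  have hcont : ContDiff ℝ 1 (fun s : ℝ => f (L s)) := hf.comp L.contDiff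
  have hcs : HasCompactSupport (fun s : ℝ => f (L s)) :=
    hc.comp_homeomorph L.toHomeomorph
  have hfd : Continuous (fderiv ℝ f) := hf.continuous_fderiv one_ne_zero
  have hint : Integrable (fun y => ‖fderiv ℝ f y‖) (volume : Measure (E 1)) :=
    hfd.norm.integrable_of_hasCompactSupport (hc.fderiv (𝕜 := ℝ)).norm
  have hd : ∀ s : ℝ, deriv (fun s : ℝ => f (L s)) s = fderiv ℝ f (L s) (L 1) := by
    intro s
    have h1 : HasFDerivAt f (fderiv ℝ f (L s)) (L s) :=
      ((hf.differentiable one_ne_zero) (L s)).hasFDerivAt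
    have h2 : HasDerivAt (fun s : ℝ => L s) (L 1) s := by
      have := L.toContinuousLinearEquiv.toContinuousLinearMap.hasFDerivAt (x := s)
      simpa using this.hasDerivAt
    exact (h1.comp_hasDerivAt s h2).deriv
  have hle : ∀ s : ℝ, |deriv (fun s : ℝ => f (L s)) s| ≤ ‖fderiv ℝ f (L s)‖ := by
    intro s
    rw [hd]
    have := (fderiv ℝ f (L s)).le_opNorm (L 1)
    rw [L.norm_map, norm_one, mul_one] at this
    exact this
  have hi1 : Integrable (fun s : ℝ => ‖fderiv ℝ f (L s)‖) volume :=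
    hmp.integrable_comp_of_integrable hint
  have hi2 : Integrable (fun s : ℝ => |deriv (fun s : ℝ => f (L s)) s|) volume :=
    ((hcont.continuous_deriv le_rfl).integrable_of_hasCompactSupport hcs.deriv).abs
  have key : ∀ b : ℝ, |f (L b)| ≤ ∫ y, ‖fderiv ℝ f y‖ := by
    intro b
    have h1 := HasCompactSupport.integral_Iic_deriv_eq hcont hcs b
    have h2 : |f (L b)| ≤ ∫ s in Iic b, |deriv (fun s : ℝ => f (L s)) s| := by
      rw [← h1]
      exact abs_integral_le_integral_abs
    have h3 : ∫ s in Iic b, |deriv (fun s : ℝ => f (L s)) s| ≤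
        ∫ s, |deriv (fun s : ℝ => f (L s)) s| :=
      setIntegral_le_integral hi2 (Eventually.of_forall fun _ => abs_nonneg _)
    have h4 : ∫ s, |deriv (fun s : ℝ => f (L s)) s| ≤ ∫ s : ℝ, ‖fderiv ℝ f (L s)‖ :=
      integral_mono hi2 hi1 hle
    have h5 : ∫ s : ℝ, ‖fderiv ℝ f (L s)‖ = ∫ y, ‖fderiv ℝ f y‖ :=
      hmp.integral_comp L.toHomeomorph.measurableEmbedding (fun y => ‖fderiv ℝ f y‖)
    linarith
  have := key (L.symm x)
  simpa using this

/-- Faber-Krahn type inequality -/
theorem fk (hn : 0 < n) : ∃ Cn : ℝ, 0 < Cn ∧ ∀ f : E n → ℝ, ContDiff ℝ 1 f →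
    HasCompactSupport f → ∀ S : Set (E n), MeasurableSet S → volume S ≠ ⊤ → 
    ∫ x in S, |f x| ≤ Cn * (volume S).toReal ^ (1 / (n : ℝ)) * ∫ x, ‖fderiv ℝ f x‖ := by
  rcases Nat.lt_or_ge 1 n with h1 | h1
  · -- dimension at least two
    have hn1 : (1 : ℝ) < n := by exact_mod_cast h1
    obtain ⟨q, hq⟩ : ∃ q : ℝ≥0, (q : ℝ) = (n : ℝ) / (n - 1) :=
      ⟨⟨(n : ℝ) / (n - 1), div_nonneg (by positivity) (by linarith)⟩, rfl⟩
    have hq0 : (0 : ℝ) < q := by rw [hq]; exact div_pos (by linarith) (by linarith)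
    have hconj : NNReal.HolderConjugate (Module.finrank ℝ (E n) : ℝ≥0) q := by
      rw [finrank_euclideanSpace_fin]
      rw [← NNReal.holderConjugate_coe_iff, Real.holderConjugate_iff]
      refine ⟨by simpa using hn1, ?_⟩
      rw [hq]
      have : (n : ℝ) ≠ 0 := by positivity
      have : (n : ℝ) - 1 ≠ 0 := by linarith
      push_cast
      field_simp
      ring
    refine ⟨(eLpNormLESNormFDerivOneConst (volume : Measure (E n)) q : ℝ) + 1, by positivity, ?_⟩
    intro f hf hc S hS hfin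
    have hsob := eLpNorm_le_eLpNorm_fderiv_one (volume : Measure (E n)) hf hc hconj
    have hfm : AEStronglyMeasurable f (volume.restrict S) := hf.continuous.aestronglyMeasurable
    have hfi : Integrable f volume := hf.continuous.integrable_of_hasCompactSupport hc
    have hfd : Continuous (fderiv ℝ f) := hf.continuous_fderiv one_ne_zero
    have hdi : Integrable (fderiv ℝ f) volume :=
      hfd.integrable_of_hasCompactSupport (hc.fderiv (𝕜 := ℝ))
    have hq1 : (1 : ℝ≥0∞) ≤ (q : ℝ≥0∞) := by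
      have : (1 : ℝ) ≤ q := by
        rw [hq, le_div_iff₀ (by linarith)]; linarith
      exact_mod_cast this
    have h2 : eLpNorm f 1 (volume.restrict S) ≤
        eLpNorm f q (volume.restrict S) * (volume.restrict S) univ ^
          (1 / (1 : ℝ≥0∞).toReal - 1 / (q : ℝ≥0∞).toReal) :=
      eLpNorm_le_eLpNorm_mul_rpow_measure_univ hq1 hfm
    have h3 : eLpNorm f q (volume.restrict S) ≤ eLpNorm f q volume :=
      eLpNorm_mono_measure f Measure.restrict_le_self
    have hexp : 1 / (1 : ℝ≥0∞).toReal - 1 / (q : ℝ≥0∞).toReal = 1 / (n : ℝ) := by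
      rw [ENNReal.toReal_one, ENNReal.coe_toReal, hq]
      have : (n : ℝ) ≠ 0 := by positivity
      have : (n : ℝ) - 1 ≠ 0 := by linarith
      field_simp
      ring
    rw [hexp, Measure.restrict_apply_univ] at h2
    have h4 : eLpNorm f 1 (volume.restrict S) ≤
        (eLpNormLESNormFDerivOneConst (volume : Measure (E n)) q : ℝ≥0∞) *
          eLpNorm (fderiv ℝ f) 1 volume * volume S ^ (1 / (n : ℝ)) :=
      h2.trans (mul_le_mul_left (h3.trans hsob) _)
    have e1 : ∫ x in S, |f x| = (eLpNorm f 1 (volume.restrict S)).toReal := by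
      rw [eLpNorm_one_eq_lintegral_enorm, ← integral_norm_eq_lintegral_enorm hfm]
      rfl
    have e2 : ∫ x, ‖fderiv ℝ f x‖ = (eLpNorm (fderiv ℝ f) 1 volume).toReal := by
      rw [eLpNorm_one_eq_lintegral_enorm,
        ← integral_norm_eq_lintegral_enorm hdi.aestronglyMeasurable]
    have hnetop : (eLpNormLESNormFDerivOneConst (volume : Measure (E n)) q : ℝ≥0∞) *
          eLpNorm (fderiv ℝ f) 1 volume * volume S ^ (1 / (n : ℝ)) ≠ ⊤ := by
      refine ENNReal.mul_ne_top (ENNReal.mul_ne_top ENNReal.coe_ne_top ?_) ?_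
      · exact (memLp_one_iff_integrable.2 hdi).eLpNorm_ne_top
      · exact ENNReal.rpow_ne_top_of_nonneg (by positivity) hfin
    have h5 := ENNReal.toReal_mono hnetop h4
    rw [← e1, ENNReal.toReal_mul, ENNReal.toReal_mul, ← e2, ENNReal.coe_toReal,
      ← ENNReal.toReal_rpow] at h5
    refine h5.trans ?_
    have p1 : 0 ≤ ∫ x, ‖fderiv ℝ f x‖ := integral_nonneg fun _ => norm_nonneg _
    have p2 : 0 ≤ (volume S).toReal ^ (1 / (n : ℝ)) := by positivity
    nlinarith [mul_nonneg p1 p2]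
  · -- dimension one
    obtain rfl : n = 1 := by omega
    refine ⟨1, one_pos, ?_⟩
    intro f hf hc S hS hfin
    have h1 := fk_one f hf hc
    have h2 : ∫ x in S, |f x| ≤ ∫ x in S, (∫ y, ‖fderiv ℝ f y‖ : ℝ) := by
      refine integral_mono ?_ ?_ fun x => h1 x
      · exact ((hf.continuous.integrable_of_hasCompactSupport hc).abs).integrableOn
      · exact integrableOn_const hfin
    refine h2.trans_eq ?_
    rw [setIntegral_const, smul_eq_mul]
    simp [Measure.real]

end PP
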