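import Pool.Agent.PP.CAL2
import Pool.Agent.PP.CAL3
import Pool.Agent.PP.LPS

open Set Metric Filter Topology MeasureTheory
open scoped ContDiff

noncomputable section

namespace PP

variable {n : ℕ}
variable {p : ℝ}

/-- the flux in the global differential inequality for `z⁺` -/
def flx (p : ℝ) (F z : X n → ℝ) (G : X n → E n) (y : X n) : E n :=
  if 0 < z y then A p (dx F y + G y) - A p (dx F y) else 0

theorem gsa_nms {z : X n → ℝ} (hz : AEStronglyMeasurable z volume) :
    NullMeasurableSet {y | 0 < z y} (volume : Measure (X n)) :=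
  nullMeasurableSet_lt aemeasurable_const hz.aemeasurable

theorem gsa_flx_eq (F z : X n → ℝ) (G : X n → E n) :
    flx p F z G = indicator {y | 0 < z y} (fun y => A p (dx F y + G y) - A p (dx F y)) := by
  classical
  funext y
  unfold flx indicator
  simp only [mem_ofPred_eq]

theorem gsa_dF (hp : 1 < p) {F : X n → ℝ} (hF : Tst univ F) :
    MemLp (dx F) (ENNReal.ofReal p) volume := by
  have := der_haar (n := n)
  obtain ⟨c1, s1, -, -⟩ := der_tst_int hF
  exact c1.memLp_of_hasCompactSupport s1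

theorem gsa_flx_mem (hp : 1 < p) {F : X n → ℝ} (hF : Tst univ F) {z : X n → ℝ} {G : X n → E n}
    (hz : AEStronglyMeasurable z volume) (hG : MemLp G (ENNReal.ofReal p) volume) :
    MemLp (flx p F z G) (ENNReal.ofReal (cj p)) volume := by
  have h1 : MemLp (fun y => A p (dx F y + G y) - A p (dx F y)) (ENNReal.ofReal (cj p)) volume :=
    (memLp_flux hp ((gsa_dF hp hF).add hG)).sub (memLp_flux hp (gsa_dF hp hF))
  rw [gsa_flx_eq]
  refine MemLp.of_le h1 (h1.1.indicator₀ (gsa_nms hz)) (Eventually.of_forall fun y => ?_)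
  exact norm_indicator_le_norm_self _ _

theorem gsa_pow {q a b : ℝ} (hq : 0 < q) (ha : 0 ≤ a) (hb : 0 ≤ b) :
    (a + b) ^ q ≤ 2 ^ q * (a ^ q + b ^ q) := by
  have h1 : a + b ≤ 2 * max a b := by
    linarith [le_max_left a b, le_max_right a b]
  have h2 : (a + b) ^ q ≤ (2 * max a b) ^ q :=
    Real.rpow_le_rpow (by positivity) h1 hq.le
  rw [Real.mul_rpow (by norm_num) (le_max_of_le_left ha)] at h2
  refine h2.trans (mul_le_mul_of_nonneg_left ?_ (by positivity))
  rcases le_total a b with h | h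
  · rw [max_eq_right h]
    linarith [Real.rpow_nonneg ha q]
  · rw [max_eq_left h]
    linarith [Real.rpow_nonneg hb q]

theorem flx_bound (hp : 1 < p) {F : X n → ℝ} (hF : Tst univ F) (K : ℝ) : ∃ K' : ℝ,
    ∀ (z : X n → ℝ) (G : X n → E n), AEStronglyMeasurable z volume →
      MemLp G (ENNReal.ofReal p) volume → ∫ y, ‖G y‖ ^ p ≤ K →
      MemLp (flx p F z G) (ENNReal.ofReal (cj p)) volume ∧
        ∫ y, ‖flx p F z G y‖ ^ cj p ≤ K' := by
  have hp0 : 0 < p := by linarith
  have hc0 := lps_cj_pos hp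
  refine ⟨2 ^ cj p * (2 ^ p * ((∫ y, ‖dx F y‖ ^ p) + K) + ∫ y, ‖dx F y‖ ^ p), ?_⟩
  intro z G hz hG hK
  have hm := gsa_flx_mem hp hF hz hG
  refine ⟨hm, ?_⟩
  have i1 : Integrable (fun y => ‖dx F y‖ ^ p) volume :=
    (lps_int_iff hp0 (gsa_dF hp hF).1).2 (gsa_dF hp hF)
  have i2 : Integrable (fun y => ‖G y‖ ^ p) volume := (lps_int_iff hp0 hG.1).2 hG
  have i3 : Integrable (fun y => ‖flx p F z G y‖ ^ cj p) volume := (lps_int_iff hc0 hm.1).2 hm
  have i4 : Integrable (fun y => 2 ^ cj p * (2 ^ p * (‖dx F y‖ ^ p + ‖G y‖ ^ p) + ‖dx F y‖ ^ p))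
      volume := (((i1.add i2).const_mul _).add i1).const_mul _
  have h1 : ∫ y, ‖flx p F z G y‖ ^ cj p ≤
      ∫ y, 2 ^ cj p * (2 ^ p * (‖dx F y‖ ^ p + ‖G y‖ ^ p) + ‖dx F y‖ ^ p) := by
    refine integral_mono i3 i4 fun y => ?_
    simp only
    have h2 : ‖flx p F z G y‖ ≤ ‖A p (dx F y + G y)‖ + ‖A p (dx F y)‖ := by
      unfold flx
      split_ifs
      · exact norm_sub_le _ _
      · rw [norm_zero]
        positivity
    have h3 := Real.rpow_le_rpow (norm_nonneg _) h2 hc0.le
    have h4 := gsa_pow hc0 (norm_nonneg (A p (dx F y + G y))) (norm_nonneg (A p (dx F y)))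
    rw [lps_norm_flux hp, lps_norm_flux hp] at h4
    refine (h3.trans h4).trans (mul_le_mul_of_nonneg_left ?_ (by positivity))
    have h5 : ‖dx F y + G y‖ ^ p ≤ 2 ^ p * (‖dx F y‖ ^ p + ‖G y‖ ^ p) :=
      (Real.rpow_le_rpow (norm_nonneg _) (norm_add_le _ _) hp0.le).trans
        (gsa_pow hp0 (norm_nonneg _) (norm_nonneg _))
    linarith
  refine h1.trans ?_
  have i5 : Integrable (fun y => 2 ^ p * (‖dx F y‖ ^ p + ‖G y‖ ^ p)) volume :=
    (i1.add i2).const_mul _
  rw [integral_const_mul, integral_add i5 i1, integral_const_mul, integral_add i1 i2]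
  gcongr

/-- smooth version of the Heaviside function -/
def gsaH (d r : ℝ) : ℝ := r / √(r ^ 2 + d ^ 2)

theorem gsaH_sq_pos {d : ℝ} (hd : 0 < d) (r : ℝ) : 0 < r ^ 2 + d ^ 2 := by positivity

theorem gsaH_hasDeriv {d : ℝ} (hd : 0 < d) (r : ℝ) :
    HasDerivAt (gsaH d) (d ^ 2 / ((r ^ 2 + d ^ 2) * √(r ^ 2 + d ^ 2))) r := by
  have h0 := gsaH_sq_pos hd r
  have h1 : HasDerivAt (fun r : ℝ => r ^ 2 + d ^ 2) (2 * r) r := by
    simpa using (_root_.hasDerivAt_pow 2 r).add_const (d ^ 2)
  have h2 := h1.sqrt h0.ne'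
  have h3 := (hasDerivAt_id r).div h2 (Real.sqrt_pos.2 h0).ne'
  have h4 : gsaH d = (id / fun y => √(y ^ 2 + d ^ 2)) := rfl
  rw [h4]
  refine h3.congr_deriv ?_
  have h5 : √(r ^ 2 + d ^ 2) ≠ 0 := (Real.sqrt_pos.2 h0).ne'
  have h6 : √(r ^ 2 + d ^ 2) ^ 2 = r ^ 2 + d ^ 2 := Real.sq_sqrt h0.le
  simp only [id]
  field_simp
  rw [h6]
  ring

theorem gsaH_deriv_nonneg {d : ℝ} (hd : 0 < d) (r : ℝ) : 0 ≤ deriv (gsaH d) r := by
  rw [(gsaH_hasDeriv hd r).deriv]
  have h0 := gsaH_sq_pos hd r
  positivity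

theorem gsaH_contDiff {d : ℝ} (hd : 0 < d) : ContDiff ℝ 1 (gsaH d) := by
  unfold gsaH
  refine contDiff_id.div (ContDiff.sqrt ((contDiff_id.pow 2).add contDiff_const) ?_) ?_
  · intro r
    exact (gsaH_sq_pos hd r).ne'
  · intro r
    exact (Real.sqrt_pos.2 (gsaH_sq_pos hd r)).ne'

theorem gsaH_zero (d : ℝ) : gsaH d 0 = 0 := by simp [gsaH]

theorem gsaH_nonneg {d r : ℝ} (hr : 0 ≤ r) : 0 ≤ gsaH d r := by
  unfold gsaH
  positivity

theorem gsaH_le_one {d r : ℝ} (hd : 0 < d) (hr : 0 ≤ r) : gsaH d r ≤ 1 := by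
  unfold gsaH
  have h0 := gsaH_sq_pos hd r
  rw [div_le_one (Real.sqrt_pos.2 h0)]
  exact Real.le_sqrt_of_sq_le (by nlinarith [sq_nonneg d])

theorem gsaH_le {d r : ℝ} (hd : 0 < d) (hr : 0 ≤ r) : gsaH d r ≤ r / d := by
  unfold gsaH
  have h0 := gsaH_sq_pos hd r
  refine div_le_div_of_nonneg_left hr hd ?_
  exact Real.le_sqrt_of_sq_le (by nlinarith [sq_nonneg r])

theorem gsaH_tendsto {r : ℝ} (hr : 0 ≤ r) :
    Tendsto (fun k : ℕ => gsaH (1 / ((k : ℝ) + 1)) r) atTop (𝓝 (if 0 < r then 1 else 0)) := by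
  split_ifs with h
  · have h1 : Tendsto (fun k : ℕ => r / √(r ^ 2 + (1 / ((k : ℝ) + 1)) ^ 2)) atTop
        (𝓝 (r / √(r ^ 2 + 0 ^ 2))) := by
      refine Tendsto.div tendsto_const_nhds ?_ ?_
      · exact (Real.continuous_sqrt.tendsto _).comp
          (tendsto_const_nhds.add ((tendsto_one_div_add_atTop_nhds_zero_nat (𝕜 := ℝ)).pow 2))
      · have : 0 < √(r ^ 2 + 0 ^ 2) := Real.sqrt_pos.2 (by positivity)
        exact this.ne'
    have h2 : r / √(r ^ 2 + 0 ^ 2) = 1 := by
      rw [zero_pow (by norm_num), add_zero, Real.sqrt_sq hr, div_self h.ne']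
    rw [h2] at h1
    exact h1
  · have h1 : r = 0 := le_antisymm (not_lt.1 h) hr
    subst h1
    simp only [gsaH_zero]
    exact tendsto_const_nhds

/-- the inequality for compactly supported `η` -/
theorem gsa_tst (hp : 1 < p) {Θ C : Set (X n)} (hC : IsCompact C) (hCΘ : C ⊆ Θ) {F e : X n → ℝ}
    (hF : Nice p Θ F e) {ε : ℝ} (hε : 0 < ε) (hε1 : ε ≤ 1) {obs : X n → ℝ}
    (hobs : ∀ y, 0 ≤ obs y) {z zt : X n → ℝ} {G : X n → E n} (h : RegSol p ε C obs F z zt G)
    {η : X n → ℝ} (hη : Tst univ η) (h0 : ∀ y, 0 ≤ η y) :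
    ε * (∫ y, (if 0 < z y then zt y else 0) * dt η y) +
      (∫ y, (if 0 < z y then zt y else 0) * η y) +
      ∫ y, inner ℝ (flx p F z G y) (dx η y) ≤ ∫ y, e y * η y := by
  have := der_haar (n := n)
  have hCb : Bornology.IsBounded C := hC.isBounded
  obtain ⟨c1, s1, c2, s2⟩ := der_tst_int hη
  obtain ⟨c1F, s1F, c2F, s2F⟩ := der_tst_int hF.tst
  have cη := hη.smooth.continuous
  obtain ⟨B, hB⟩ := hη.cpt.exists_bound_of_continuous cη
  have hB0 : 0 ≤ B := (norm_nonneg _).trans (hB 0)
  have hpos := h.w.pos hp hCb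
  have mη : MemLp η 2 volume := cη.memLp_of_hasCompactSupport hη.cpt
  have mdt : MemLp (dt η) 2 volume := c2.memLp_of_hasCompactSupport s2
  have mdx : MemLp (dx η) (ENNReal.ofReal p) volume := c1.memLp_of_hasCompactSupport s1
  have mF : MemLp (dt F) 2 volume := c2F.memLp_of_hasCompactSupport s2F
  have mA1 : MemLp (fun y => A p (dx F y + G y)) (ENNReal.ofReal (cj p)) volume :=
    memLp_flux hp ((gsa_dF hp hF.tst).add h.w.mem)
  have mA2 : MemLp (fun y => A p (dx F y)) (ENNReal.ofReal (cj p)) volume :=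
    memLp_flux hp (gsa_dF hp hF.tst)
  have mA : MemLp (fun y => A p (dx F y + G y) - A p (dx F y)) (ENNReal.ofReal (cj p)) volume :=
    mA1.sub mA2
  have mzt := h.w.memt
  -- the main function
  set k : X n → ℝ := fun y => ε * (zt y * dt η y) + zt y * η y +
    inner ℝ (A p (dx F y + G y) - A p (dx F y)) (dx η y) with hk
  have ik : Integrable k volume :=
    (((mzt.integrable_mul mdt).const_mul ε).add (mzt.integrable_mul mη)).add
      (holder_inner hp mA mdx).1
  have main : ∀ d : ℝ, 0 < d → ∫ y, gsaH d (max (z y) 0) * k y ≤ ∫ y, e y * η y := by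
    intro d hd
    have hcomp := hpos.comp hp hCb (gsaH_contDiff hd) (gsaH_zero d)
    have hphi := hcomp.smooth_mul hp hCb hη.smooth
    set φ : X n → ℝ := fun y => η y * gsaH d (max (z y) 0) with hφ
    set φt : X n → ℝ := fun y => η y * (deriv (gsaH d) (max (z y) 0) *
      (if 0 < z y then zt y else 0)) + gsaH d (max (z y) 0) * dt η y with hφt
    set Φ : X n → E n := fun y => η y • (deriv (gsaH d) (max (z y) 0) •
      (if 0 < z y then G y else 0)) + gsaH d (max (z y) 0) • dx η y with hΦ
    have m1 : MemLp φ 2 volume := hphi.toW0.memLp_fn hCb 2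
    have m2 : MemLp φt 2 volume := hphi.memt
    have m3 : MemLp Φ (ENNReal.ofReal p) volume := hphi.mem
    have i1 : Integrable (fun y => ε * ((dt F y + zt y) * φt y) + (dt F y + zt y) * φ y +
        inner ℝ (A p (dx F y + G y)) (Φ y)) volume :=
      ((((mF.add mzt).integrable_mul m2).const_mul ε).add ((mF.add mzt).integrable_mul m1)).add
        (holder_inner hp mA1 m3).1
    have i2 : Integrable (fun y => ε * (dt F y * φt y) + dt F y * φ y +
        inner ℝ (A p (dx F y)) (Φ y)) volume :=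
      (((mF.integrable_mul m2).const_mul ε).add (mF.integrable_mul m1)).add
        (holder_inner hp mA2 m3).1
    -- the variational inequality
    have v1 : ∫ y, (ε * ((dt F y + zt y) * φt y) + (dt F y + zt y) * φ y +
        inner ℝ (A p (dx F y + G y)) (Φ y)) ≤ 0 := by
      have w1 := hphi.lin hp hCb hphi (-1) 0
      have w2 : W1 p C (fun y => - φ y) (fun y => - φt y) (fun y => - Φ y) := by
        refine w1.congr (Eventually.of_forall fun y => ?_) (Eventually.of_forall fun y => ?_)
          (Eventually.of_forall fun y => ?_)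
        · show (-1) * φ y + 0 * φ y = - φ y
          ring
        · show (-1) * φt y + 0 * φt y = - φt y
          ring
        · show (-1 : ℝ) • Φ y + (0 : ℝ) • Φ y = - Φ y
          simp only [zero_smul, add_zero, neg_smul, one_smul]
      have w3 := h.vi _ _ _ w2 ⟨d / (B + 1), by positivity, by
        filter_upwards [h.ob] with y hy
        rcases lt_or_ge 0 (z y) with hz | hz
        · have b1 : gsaH d (max (z y) 0) ≤ z y / d := by
            have := gsaH_le hd (le_max_right (z y) 0)
            rwa [max_eq_left hz.le] at this ⊢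
          have b2 : η y ≤ B + 1 := by
            have := (le_abs_self _).trans (hB y)
            linarith
          have b3 : φ y ≤ (B + 1) * (z y / d) :=
            mul_le_mul b2 b1 (gsaH_nonneg (le_max_right _ _)) (by positivity)
          have b4 : d / (B + 1) * φ y ≤ z y := by
            calc d / (B + 1) * φ y ≤ d / (B + 1) * ((B + 1) * (z y / d)) :=
                  mul_le_mul_of_nonneg_left b3 (by positivity)
              _ = z y := by field_simp
          have b5 := hobs y
          linarith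
        · have b1 : φ y = 0 := by
            rw [hφ]
            simp only [max_eq_right hz, gsaH_zero, mul_zero]
          rw [b1]
          linarith⟩
      have w4 : (∫ y, (ε * ((dt F y + zt y) * (- φt y)) + (dt F y + zt y) * (- φ y) +
          inner ℝ (A p (dx F y + G y)) (- Φ y))) =
          - ∫ y, (ε * ((dt F y + zt y) * φt y) + (dt F y + zt y) * φ y +
            inner ℝ (A p (dx F y + G y)) (Φ y)) := by
        rw [← integral_neg]
        refine integral_congr_ae (Eventually.of_forall fun y => ?_)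
        simp only [inner_neg_right]
        ring
      rw [w4] at w3
      linarith
    have v2 : - ∫ y, (ε * (dt F y * φt y) + dt F y * φ y +
        inner ℝ (A p (dx F y)) (Φ y)) ≤ ∫ y, e y * φ y := by
      have w1 := hF.bound ε hε.le hε1 C hC hCΘ φ φt Φ hphi
        (Eventually.of_forall fun y => mul_nonneg (h0 y) (gsaH_nonneg (le_max_right _ _)))
      exact (neg_le_abs _).trans w1
    have v3 : ∫ y, e y * φ y ≤ ∫ y, e y * η y := by
      have i3 : Integrable (fun y => e y * η y) volume := by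
        exact hF.int.mul_bdd (c := B) cη.aestronglyMeasurable (Eventually.of_forall fun y => hB y)
      have i4 : Integrable (fun y => e y * φ y) volume := by
        refine hF.int.mul_bdd (c := B) m1.1 (Eventually.of_forall fun y => ?_)
        rw [hφ, norm_mul, Real.norm_eq_abs (gsaH _ _),
          abs_of_nonneg (gsaH_nonneg (le_max_right _ _))]
        exact (mul_le_mul (hB y) (gsaH_le_one hd (le_max_right _ _))
          (gsaH_nonneg (le_max_right _ _)) hB0).trans (mul_one B).le
      refine integral_mono i4 i3 fun y => ?_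
      refine mul_le_mul_of_nonneg_left ?_ (hF.nonneg y)
      exact mul_le_of_le_one_right (h0 y) (gsaH_le_one hd (le_max_right _ _))
    have v4 : ∫ y, gsaH d (max (z y) 0) * k y ≤
        (∫ y, (ε * ((dt F y + zt y) * φt y) + (dt F y + zt y) * φ y +
          inner ℝ (A p (dx F y + G y)) (Φ y))) - ∫ y, (ε * (dt F y * φt y) + dt F y * φ y +
          inner ℝ (A p (dx F y)) (Φ y)) := by
      rw [← integral_sub i1 i2]
      refine integral_mono ?_ (i1.sub i2) fun y => ?_
      · refine ik.bdd_mul (c := 1) ((gsaH_contDiff hd).continuous.comp_aestronglyMeasurable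
          hpos.meas) (Eventually.of_forall fun y => ?_)
        rw [Real.norm_eq_abs, abs_of_nonneg (gsaH_nonneg (le_max_right _ _))]
        exact gsaH_le_one hd (le_max_right _ _)
      · simp only [hk, hφ, hφt, hΦ]
        rcases lt_or_ge 0 (z y) with hz | hz
        · simp only [if_pos hz, inner_add_right, real_inner_smul_right, inner_sub_left]
          have a1 := A_mono hp (dx F y + G y) (dx F y)
          rw [add_sub_cancel_left, inner_sub_left] at a1
          have a2 := gsaH_deriv_nonneg hd (max (z y) 0)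
          have a3 := mul_nonneg (mul_nonneg (h0 y) a2) a1
          have a4 := mul_nonneg (mul_nonneg (mul_nonneg hε.le (h0 y)) a2) (mul_self_nonneg (zt y))
          nlinarith [a3, a4]
        · simp only [if_neg (not_lt.2 hz), max_eq_right hz, gsaH_zero]
          simp
    linarith
  -- the limit
  have lim : Tendsto (fun j : ℕ => ∫ y, gsaH (1 / ((j : ℝ) + 1)) (max (z y) 0) * k y) atTop
      (𝓝 (∫ y, (if 0 < z y then 1 else 0) * k y)) := by
    refine tendsto_integral_of_dominated_convergence (fun y => ‖k y‖) ?_ ik.norm ?_ ?_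
    · intro j
      exact ((gsaH_contDiff (by positivity)).continuous.comp_aestronglyMeasurable
          hpos.meas).mul ik.1
    · intro j
      refine Eventually.of_forall fun y => ?_
      rw [norm_mul, Real.norm_eq_abs (gsaH _ _), abs_of_nonneg (gsaH_nonneg (le_max_right _ _))]
      exact mul_le_of_le_one_left (norm_nonneg _)
        (gsaH_le_one (by positivity) (le_max_right _ _))
    · refine Eventually.of_forall fun y => ?_
      refine Tendsto.mul_const _ ?_
      have l1 := gsaH_tendsto (le_max_right (z y) 0)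
      by_cases hz : 0 < z y
      · rw [if_pos (lt_max_of_lt_left hz)] at l1
        rw [if_pos hz]
        exact l1
      · rw [if_neg (by rw [max_eq_right (not_lt.1 hz)]; exact lt_irrefl _)] at l1
        rw [if_neg hz]
        exact l1
  have fin := le_of_tendsto' lim (fun j => main _ (by positivity))
  refine le_trans (le_of_eq ?_) fin
  have mpt : MemLp (fun y => if 0 < z y then zt y else 0) 2 volume := hpos.memt
  have mfl := gsa_flx_mem hp hF.tst h.w.meas h.w.mem
  have j1 : Integrable (fun y => (if 0 < z y then zt y else 0) * dt η y) volume :=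
    mpt.integrable_mul mdt
  have j2 : Integrable (fun y => (if 0 < z y then zt y else 0) * η y) volume :=
    mpt.integrable_mul mη
  have j3 := (holder_inner hp mfl mdx).1
  have j4 : Integrable (fun y => ε * ((if 0 < z y then zt y else 0) * dt η y) +
      (if 0 < z y then zt y else 0) * η y) volume := (j1.const_mul ε).add j2
  rw [← integral_const_mul, ← integral_add (j1.const_mul ε) j2, ← integral_add j4 j3]
  refine integral_congr_ae (Eventually.of_forall fun y => ?_)
  simp only [hk, flx]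
  split_ifs
  · ring
  · simp

theorem gsa (hp : 1 < p) {Θ C : Set (X n)} (hC : IsCompact C) (hCΘ : C ⊆ Θ) {F e : X n → ℝ}
    (hF : Nice p Θ F e) {ε : ℝ} (hε : 0 < ε) (hε1 : ε ≤ 1) {obs : X n → ℝ}
    (hobs : ∀ y, 0 ≤ obs y) {z zt : X n → ℝ} {G : X n → E n} (h : RegSol p ε C obs F z zt G)
    {η : X n → ℝ} (hη : ContDiff ℝ ∞ η) (h0 : ∀ y, 0 ≤ η y) (hB : ∃ B : ℝ, ∀ y, η y ≤ B) :
    ε * (∫ y, (if 0 < z y then zt y else 0) * dt η y) +
      (∫ y, (if 0 < z y then zt y else 0) * η y) +
      ∫ y, inner ℝ (flx p F z G y) (dx η y) ≤ ∫ y, e y * η y := by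
  obtain ⟨χ, hχ, hχ1, hχC⟩ := exists_cutoff hC isOpen_univ (subset_univ C)
  obtain ⟨B, hB⟩ := hB
  have hsm : ContDiff ℝ ∞ (fun y => χ y * η y) := hχ.smooth.mul hη
  have hT : Tst univ (fun y => χ y * η y) := ⟨hsm, hχ.cpt.mul_right, subset_univ _⟩
  have h1 := gsa_tst hp hC hCΘ hF hε hε1 hobs h hT (fun y => mul_nonneg (hχ1 y).1 (h0 y))
  have key : ∀ᵐ y, 0 < z y → χ y * η y = η y ∧ dt (fun y => χ y * η y) y = dt η y ∧
      dx (fun y => χ y * η y) y = dx η y := by
    filter_upwards [h.w.zero] with y hy hz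
    have hyC : y ∈ C := by
      by_contra hc
      rw [hy hc] at hz
      exact lt_irrefl _ hz
    have e1 : ∀ᶠ w in 𝓝 y, χ w = 1 := eventually_nhdsSet_iff_forall.1 hχC y hyC
    have e2 : (fun y => χ y * η y) =ᶠ[𝓝 y] η := by
      filter_upwards [e1] with w hw
      rw [hw, one_mul]
    refine ⟨e2.self_of_nhds, ?_, ?_⟩
    · rw [dt_eq hsm, dt_eq hη, e2.fderiv_eq]
    · refine ext_inner_right ℝ fun v => ?_
      rw [dx_eq hsm, dx_eq hη, e2.fderiv_eq]
  have e1 : ∫ y, (if 0 < z y then zt y else 0) * dt (fun y => χ y * η y) y =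
      ∫ y, (if 0 < z y then zt y else 0) * dt η y := by
    refine integral_congr_ae ?_
    filter_upwards [key] with y hy
    split_ifs with hz
    · rw [(hy hz).2.1]
    · simp only [zero_mul]
  have e2 : ∫ y, (if 0 < z y then zt y else 0) * (χ y * η y) =
      ∫ y, (if 0 < z y then zt y else 0) * η y := by
    refine integral_congr_ae ?_
    filter_upwards [key] with y hy
    split_ifs with hz
    · rw [(hy hz).1]
    · simp only [zero_mul]
  have e3 : ∫ y, inner ℝ (flx p F z G y) (dx (fun y => χ y * η y) y) =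
      ∫ y, inner ℝ (flx p F z G y) (dx η y) := by
    refine integral_congr_ae ?_
    filter_upwards [key] with y hy
    by_cases hz : 0 < z y
    · rw [(hy hz).2.2]
    · unfold flx
      rw [if_neg hz, inner_zero_left, inner_zero_left]
  rw [e1, e2, e3] at h1
  refine h1.trans ?_
  have i3 : Integrable (fun y => e y * η y) volume := by
    refine hF.int.mul_bdd (c := B) hη.continuous.aestronglyMeasurable
      (Eventually.of_forall fun y => ?_)
    rw [Real.norm_eq_abs, abs_of_nonneg (h0 y)]
    exact hB y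
  have i4 : Integrable (fun y => e y * (χ y * η y)) volume := by
    refine hF.int.mul_bdd (c := B) hsm.continuous.aestronglyMeasurable
      (Eventually.of_forall fun y => ?_)
    rw [Real.norm_eq_abs, abs_of_nonneg (mul_nonneg (hχ1 y).1 (h0 y))]
    exact (mul_le_of_le_one_left (h0 y) (hχ1 y).2).trans (hB y)
  refine integral_mono i4 i3 fun y => ?_
  refine mul_le_mul_of_nonneg_left ?_ (hF.nonneg y)
  exact mul_le_of_le_one_left (h0 y) (hχ1 y).2

end PP
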