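import Pool.Agent.PP.EXT2
import Pool.Agent.PP.CAL2
import Pool.Agent.PP.CAL3
import Pool.Agent.PP.LOC
import Pool.Agent.PP.PW1

open Set Metric Filter Topology MeasureTheory
open scoped ContDiff

noncomputable section

namespace PP

variable {n : ℕ}
variable {p : ℝ}

theorem len_young (hp : 1 < p) {x b : ℝ} (hx : 0 ≤ x) (hb : 0 ≤ b) :
    x ^ (p - 1) * b ≤ 1 / 2 * x ^ p + (2 * b) ^ p := by
  have h2 : ∀ t : ℝ, 0 ≤ t → t ^ p = t ^ (p - 1) * t := fun t ht => pw1_rpow_split hp ht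
  rcases le_or_gt x (2 * b) with h | h
  · have h1 : x ^ (p - 1) ≤ (2 * b) ^ (p - 1) := Real.rpow_le_rpow hx h (by linarith)
    have h3 : x ^ (p - 1) * b ≤ (2 * b) ^ (p - 1) * (2 * b) :=
      mul_le_mul h1 (by linarith) hb (by positivity)
    rw [h2 (2 * b) (by positivity)]
    have : 0 ≤ 1 / 2 * x ^ p := by positivity
    linarith
  · rw [h2 x hx]
    have h3 : x ^ (p - 1) * b ≤ x ^ (p - 1) * (x / 2) :=
      mul_le_mul_of_nonneg_left (by linarith) (by positivity)
    have : 0 ≤ (2 * b) ^ p := by positivity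
    linarith

theorem len_pow_tst {Ω : Set (X n)} {ζ : X n → ℝ} (hζ : Tst Ω ζ) {m : ℕ} (hm : m ≠ 0) :
    Tst Ω (fun z => ζ z ^ m) := by
  have hsub : Function.support (fun z => ζ z ^ m) ⊆ Function.support ζ := by
    intro z hz h
    exact hz (by simp only [h]; exact zero_pow hm)
  refine ⟨hζ.smooth.pow m, ?_, ?_⟩
  · exact hζ.cpt.mono hsub
  · exact (closure_mono hsub).trans hζ.supp

theorem len_pow_dx {ζ : X n → ℝ} (hζ : ContDiff ℝ ∞ ζ) (m : ℕ) (z : X n) :
    dx (fun z => ζ z ^ m) z = ((m : ℝ) * ζ z ^ (m - 1)) • dx ζ z := by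
  refine ext_inner_right ℝ fun v => ?_
  rw [dx_eq (hζ.pow m), inner_smul_left, dx_eq hζ]
  have hd : DifferentiableAt ℝ ζ z := hζ.differentiable (by simp) z
  have h1 : HasFDerivAt (fun z => ζ z ^ m) (((m : ℝ) * ζ z ^ (m - 1)) • fderiv ℝ ζ z) z := by
    have := hd.hasFDerivAt.pow m
    simpa [nsmul_eq_mul] using this
  rw [h1.fderiv]
  simp

/-- the pointwise inequality -/
theorem len_pt (hp : 1 < p) {m : ℕ} (hm : p ≤ m) {M0 S z0 w : ℝ} (hM0 : 0 ≤ M0) (hS : 0 ≤ S)
    (h0 : 0 ≤ z0) (h1 : z0 ≤ 1) (hw : |w| ≤ 2 * M0) {g d : E n} (hd : ‖d‖ ≤ S) :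
    inner ℝ (A p g) (w • (((m : ℝ) * z0 ^ (m - 1)) • d) - (z0 ^ m) • g) ≤
      (4 * M0 * m * S) ^ p - 1 / 2 * (z0 ^ m * ‖g‖ ^ p) := by
  have hp0 : 0 < p := by linarith
  have hm1 : 1 ≤ m := by
    have : (1 : ℝ) < m := lt_of_lt_of_le hp hm
    exact_mod_cast this.le
  have hm0 : (0 : ℝ) < m := by exact_mod_cast hm1
  set x : ℝ := z0 ^ ((m : ℝ) / p) * ‖g‖ with hx
  have hx0 : 0 ≤ x := by positivity
  have hxp : x ^ p = z0 ^ m * ‖g‖ ^ p := by
    rw [hx, Real.mul_rpow (by positivity) (norm_nonneg _), ← Real.rpow_mul h0,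
      div_mul_cancel₀ _ hp0.ne', Real.rpow_natCast]
  have hxp1 : z0 ^ (m - 1) * ‖g‖ ^ (p - 1) ≤ x ^ (p - 1) := by
    rw [hx, Real.mul_rpow (by positivity) (norm_nonneg _), ← Real.rpow_mul h0]
    refine mul_le_mul_of_nonneg_right ?_ (by positivity)
    rcases eq_or_lt_of_le h0 with h | h
    · rw [← h]
      have hm2 : m - 1 ≠ 0 := by
        have : (1 : ℝ) < m := lt_of_lt_of_le hp hm
        have h3 : 1 < m := by exact_mod_cast this
        omega
      rw [zero_pow hm2]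
      positivity
    · rw [← Real.rpow_natCast z0 (m - 1)]
      refine Real.rpow_le_rpow_of_exponent_ge h h1 ?_
      rw [Nat.cast_sub hm1, Nat.cast_one, div_mul_eq_mul_div, div_le_iff₀ hp0]
      nlinarith
  have hin : inner ℝ (A p g) d ≤ ‖g‖ ^ (p - 1) * S ∧ -(‖g‖ ^ (p - 1) * S) ≤ inner ℝ (A p g) d := by
    have h3 := pw1_inner_le hp g d
    have h4 := pw1_inner_le hp g (-d)
    rw [inner_neg_right, norm_neg] at h4
    have h5 : ‖g‖ ^ (p - 1) * ‖d‖ ≤ ‖g‖ ^ (p - 1) * S :=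
      mul_le_mul_of_nonneg_left hd (by positivity)
    exact ⟨h3.trans h5, by linarith⟩
  have hwin : w * inner ℝ (A p g) d ≤ 2 * M0 * (‖g‖ ^ (p - 1) * S) := by
    have h3 : |w * inner ℝ (A p g) d| ≤ 2 * M0 * (‖g‖ ^ (p - 1) * S) := by
      rw [abs_mul]
      exact mul_le_mul hw (abs_le.2 ⟨hin.2, hin.1⟩) (abs_nonneg _) (by positivity)
    exact (le_abs_self _).trans h3
  rw [inner_sub_right, inner_smul_right, inner_smul_right, inner_smul_right, pw1_inner_self hp]
  have hy := len_young hp hx0 (show 0 ≤ 2 * M0 * m * S by positivity)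
  rw [hxp, show 2 * (2 * M0 * m * S) = 4 * M0 * m * S by ring] at hy
  have h6 : w * ((m : ℝ) * z0 ^ (m - 1) * inner ℝ (A p g) d) ≤ x ^ (p - 1) * (2 * M0 * m * S) := by
    have e1 : w * ((m : ℝ) * z0 ^ (m - 1) * inner ℝ (A p g) d) =
        ((m : ℝ) * z0 ^ (m - 1)) * (w * inner ℝ (A p g) d) := by ring
    rw [e1]
    have h7 := mul_le_mul_of_nonneg_left hwin (show 0 ≤ (m : ℝ) * z0 ^ (m - 1) by positivity)
    refine h7.trans ?_
    have h8 := mul_le_mul_of_nonneg_right hxp1 (show 0 ≤ 2 * M0 * m * S by positivity)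
    refine le_trans (le_of_eq ?_) h8
    ring
  linarith

theorem len_int {g h : X n → ℝ} (hg : Continuous g) (hgc : HasCompactSupport g)
    (hh : AEStronglyMeasurable h volume) {B : ℝ} (hb : ∀ᵐ z, |h z| ≤ B) :
    Integrable (fun z => g z * h z) volume := by
  have := der_haar (n := n)
  have h1 : Integrable g volume := hg.integrable_of_hasCompactSupport hgc
  have h2 := h1.bdd_mul hh (c := B) hb
  simpa only [mul_comm] using h2

/-- the time part -/
theorem len_lhs {η : X n → ℝ} (hη : Tst univ η) (h0 : ∀ z, 0 ≤ η z) {L : ℝ}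
    (hL : ∀ z, |dt η z| ≤ L) {D : Set (X n)} (hD : IsCompact D) {s : ℝ} (hs : 0 < s)
    (hCD : ∀ z : X n, ∀ r ∈ Icc 0 s, (z.1, z.2 + r) ∈ tsupport η → z ∈ D)
    {w : X n → ℝ} (hw : AEStronglyMeasurable w volume) {W : ℝ} (hW : ∀ᵐ z, |w z| ≤ W) :
    -(1 / 2 * (L * s * W ^ 2 * (volume D).toReal)) ≤
      ∫ z, η z * (w z * (w z - sh (-s) w z)) := by
  have hL0 : 0 ≤ L := (abs_nonneg _).trans (hL 0)
  have hηc : Continuous η := hη.smooth.continuous
  have hDf : volume D ≠ ⊤ := hD.measure_lt_top.ne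
  have hws : AEStronglyMeasurable (sh (-s) w) volume :=
    hw.comp_measurePreserving (cal1_mp (-s))
  have hWs : ∀ᵐ z, |sh (-s) w z| ≤ W := (cal1_mp (-s)).quasiMeasurePreserving.ae hW
  have hW2 : ∀ᵐ z, |w z ^ 2| ≤ W ^ 2 := by
    filter_upwards [hW] with z hz
    rw [abs_of_nonneg (sq_nonneg _), ← sq_abs]
    exact pow_le_pow_left₀ (abs_nonneg _) hz 2
  have hWs2 : ∀ᵐ z, |sh (-s) w z ^ 2| ≤ W ^ 2 := by
    filter_upwards [hWs] with z hz
    rw [abs_of_nonneg (sq_nonneg _), ← sq_abs]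
    exact pow_le_pow_left₀ (abs_nonneg _) hz 2
  have i1 : Integrable (fun z => η z * w z ^ 2) volume :=
    len_int hηc hη.cpt (hw.pow 2) hW2
  have i2 : Integrable (fun z => η z * sh (-s) w z ^ 2) volume :=
    len_int hηc hη.cpt (hws.pow 2) hWs2
  have i3 : Integrable (fun z => η z * (w z * (w z - sh (-s) w z))) volume := by
    refine len_int hηc hη.cpt (hw.mul (hw.sub hws)) (B := W * (W + W)) ?_
    filter_upwards [hW, hWs] with z h1 h2
    rw [abs_mul]
    have h3 : |w z - sh (-s) w z| ≤ W + W := (abs_sub _ _).trans (by linarith)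
    exact mul_le_mul h1 h3 (abs_nonneg _) ((abs_nonneg _).trans h1)
  have hst : Tst univ (sh s η) := cal1_sh_tst s hη
  have i4 : Integrable (fun z => sh s η z * w z ^ 2) volume :=
    len_int hst.smooth.continuous hst.cpt (hw.pow 2) hW2
  have e1 : ∫ z, η z * sh (-s) w z ^ 2 = ∫ z, sh s η z * w z ^ 2 := by
    rw [← cal1_int s (fun z => η z * sh (-s) w z ^ 2)]
    refine integral_congr_ae (Eventually.of_forall fun z => ?_)
    simp only [sh]
    rw [add_neg_cancel_right]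
  have h1 : 1 / 2 * ((∫ z, η z * w z ^ 2) - ∫ z, η z * sh (-s) w z ^ 2) ≤
      ∫ z, η z * (w z * (w z - sh (-s) w z)) := by
    rw [← integral_sub i1 i2, ← integral_const_mul]
    refine integral_mono ((i1.sub i2).const_mul _) i3 fun z => ?_
    have := mul_nonneg (h0 z) (sq_nonneg (w z - sh (-s) w z))
    simp only
    nlinarith
  refine le_trans ?_ h1
  rw [e1, ← integral_sub i1 i4]
  have h2 : ∫ z, (η z * w z ^ 2 - sh s η z * w z ^ 2) =
      ∫ z in D, (η z * w z ^ 2 - sh s η z * w z ^ 2) := by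
    rw [← integral_indicator hD.measurableSet]
    refine integral_congr_ae (Eventually.of_forall fun z => ?_)
    by_cases hz : z ∈ D
    · simp only [indicator_of_mem hz]
    · simp only [indicator_of_notMem hz]
      have a1 : η z = 0 := by
        by_contra h
        apply hz
        refine hCD z 0 ⟨le_rfl, hs.le⟩ ?_
        rw [add_zero]
        exact subset_tsupport _ h
      have a2 : sh s η z = 0 := by
        by_contra h
        exact hz (hCD z s ⟨hs.le, le_rfl⟩ (subset_tsupport _ h))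
      rw [a1, a2]
      ring
  rw [h2]
  have h3 : ∫ z in D, (-(L * s * W ^ 2)) ≤ ∫ z in D, (η z * w z ^ 2 - sh s η z * w z ^ 2) := by
    refine integral_mono_ae (integrableOn_const hDf) (i1.sub i4).integrableOn ?_
    filter_upwards [ae_restrict_of_ae hW2] with z hz
    have hd : Differentiable ℝ (fun t : ℝ => η (z.1, t)) := by
      have h4 := hη.smooth.differentiable (by simp)
      exact h4.comp (by fun_prop)
    have h5 : |η (z.1, z.2 + s) - η (z.1, z.2)| ≤ L * |z.2 + s - z.2| := by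
      have h6 := Convex.norm_image_sub_le_of_norm_deriv_le (f := fun t : ℝ => η (z.1, t))
        (s := univ) (C := L) (x := z.2) (y := z.2 + s) (fun t _ => hd t)
        (fun t _ => by rw [Real.norm_eq_abs]; exact hL (z.1, t)) convex_univ (mem_univ _)
        (mem_univ _)
      simpa using h6
    rw [add_sub_cancel_left, abs_of_pos hs] at h5
    have h7 := (abs_le.1 h5).2
    have h8 : w z ^ 2 ≤ W ^ 2 := (le_abs_self _).trans hz
    have h9 := mul_nonneg hL0 hs.le
    simp only [sh]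
    have e : η z = η (z.1, z.2) := rfl
    rw [e]
    have h10 : (η (z.1, z.2 + s) - η (z.1, z.2)) * w z ^ 2 ≤ L * s * W ^ 2 :=
      (mul_le_mul_of_nonneg_right h7 (sq_nonneg _)).trans (mul_le_mul_of_nonneg_left h8 h9)
    linarith
  rw [setIntegral_const, smul_eq_mul, show volume.real D = (volume D).toReal from rfl] at h3
  linarith

theorem len_conv (hp : 1 < p) {Γ Φ : X n → E n} (hΓ : MemLp Γ (ENNReal.ofReal (cj p)) volume)
    (hΦ : MemLp Φ (ENNReal.ofReal p) volume) :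
    Tendsto (fun s => ∫ z, inner ℝ (Γ z) (av s Φ z)) (𝓝[>] (0 : ℝ))
      (𝓝 (∫ z, inner ℝ (Γ z) (Φ z))) := by
  have h1 := av_tendsto hp.le hΦ
  have hle : (𝓝[>] (0 : ℝ)) ≤ 𝓝[≠] (0 : ℝ) :=
    nhdsWithin_mono _ fun x hx => (ne_of_gt hx)
  have h2 := h1.mono_left hle
  set N := (∫ z, ‖Γ z‖ ^ cj p) ^ (1 / cj p) with hN
  have h3 : Tendsto (fun s => N * (∫ z, ‖av s Φ z - Φ z‖ ^ p) ^ (1 / p)) (𝓝[>] (0 : ℝ))
      (𝓝 (N * 0 ^ (1 / p))) :=
    (h2.rpow_const (Or.inr (by positivity))).const_mul N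
  rw [Real.zero_rpow (by positivity), mul_zero] at h3
  rw [tendsto_iff_dist_tendsto_zero]
  refine squeeze_zero' (Eventually.of_forall fun s => dist_nonneg) ?_ h3
  filter_upwards [self_mem_nhdsWithin] with s hs
  have hs0 : s ≠ 0 := ne_of_gt hs
  have hm := (av_memLp hp.le hΦ hs0).1
  have i1 := (holder_inner hp hΓ hm).1
  have i2 := (holder_inner hp hΓ hΦ).1
  have h4 := (holder_inner hp hΓ (hm.sub hΦ)).2
  rw [Real.dist_eq, ← integral_sub i1 i2]
  have e : ∀ z, inner ℝ (Γ z) (av s Φ z) - inner ℝ (Γ z) (Φ z) =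
      inner ℝ (Γ z) ((av s Φ - Φ) z) := by
    intro z
    rw [Pi.sub_apply, inner_sub_right]
  simp only [e]
  exact h4

/-- local energy estimate -/
theorem len (hp : 1 < p) {Ω : Set (X n)} (hΩ : IsOpen Ω) (M : ℝ) {D : Set (X n)}
    (hD : IsCompact D) (hDΩ : D ⊆ Ω) : ∃ K : ℝ, ∀ (u : X n → ℝ) (G : X n → E n),
      SupOn p Ω u G → (∀ᵐ z ∂(volume.restrict Ω), |u z| ≤ M) → ∫ z in D, ‖G z‖ ^ p ≤ K := by
  have hp0 : 0 < p := by linarith
  obtain ⟨ζ, hζ, hζ01, hζ1⟩ := exists_cutoff hD hΩ hDΩ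
  obtain ⟨m, hm⟩ := exists_nat_ge p
  have hm0 : m ≠ 0 := by
    rintro rfl
    rw [Nat.cast_zero] at hm
    linarith
  set η : X n → ℝ := fun z => ζ z ^ m with hηdef
  have hη : Tst Ω η := len_pow_tst hζ hm0
  have hηu : Tst univ η := ⟨hη.smooth, hη.cpt, subset_univ _⟩
  have hη0 : ∀ z, 0 ≤ η z := fun z => pow_nonneg (hζ01 z).1 m
  have hη1 : ∀ z, η z ≤ 1 := fun z => pow_le_one₀ (hζ01 z).1 (hζ01 z).2
  set C := tsupport η with hCdef
  have hC : IsCompact C := hη.cpt
  obtain ⟨δ, hδ, hδΩ⟩ := hC.exists_cthickening_subset_open hΩ hη.supp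
  set D1 := cthickening δ C with hD1def
  have hD1 : IsCompact D1 := hC.cthickening
  have hCD1 : C ⊆ D1 := self_subset_cthickening C
  have hCD : ∀ s, s ≤ δ → ∀ z : X n, ∀ r ∈ Icc 0 s, (z.1, z.2 + r) ∈ C → z ∈ D1 := by
    intro s hs z r hr hz
    refine mem_cthickening_of_dist_le z (z.1, z.2 + r) δ C hz ?_
    rw [Prod.dist_eq, dist_self, Real.dist_eq]
    simp only
    rw [show z.2 - (z.2 + r) = -r by ring, abs_neg, abs_of_nonneg hr.1]
    exact max_le hδ.le (hr.2.trans hs)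
  obtain ⟨ζ2, hζ2, hζ201, hζ21⟩ := exists_cutoff hD1 hΩ hδΩ
  obtain ⟨cdx, sdx, -, -⟩ := der_tst_int hζ
  obtain ⟨-, -, cdt, sdt⟩ := der_tst_int hηu
  obtain ⟨S, hS⟩ := sdx.exists_bound_of_continuous cdx
  obtain ⟨L, hL⟩ := sdt.exists_bound_of_continuous cdt
  have hS0 : 0 ≤ S := (norm_nonneg _).trans (hS 0)
  set M0 := |M| with hM0
  have hM00 : 0 ≤ M0 := abs_nonneg _
  set V := (volume D1).toReal with hV
  set B := (4 * M0 * m * S) ^ p with hB
  have hD1f : volume D1 ≠ ⊤ := hD1.measure_lt_top.ne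
  refine ⟨2 * (1 / 2 * (L * (2 * M0) ^ 2 * V) + B * V), fun u G hu hM => ?_⟩
  -- the test function
  have hWη := tst_W1 hp hηu
  have hWl := wg_localize hp hΩ hu.meas hu.bdd hu.memG hu.wg hη
  have hCb : Bornology.IsBounded C := hC.isBounded
  set φ : X n → ℝ := fun z => M0 * η z + (-1) * (η z * u z) with hφ
  set Φ : X n → E n := fun z => M0 • dx η z + (-1 : ℝ) • (η z • G z + u z • dx η z) with hΦ
  have hW0 : W0 p C φ Φ := W0.lin hp hCb hWη.toW0 hWl M0 (-1)
  have hC0 : ∀ᵐ z, 0 ≤ φ z := by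
    have h1 : ∀ᵐ z, z ∈ Ω → |u z| ≤ M := (ae_restrict_iff' hΩ.measurableSet).1 hM
    filter_upwards [h1] with z hz
    by_cases hzC : η z = 0
    · simp only [hφ, hzC]
      simp
    · have h2 : z ∈ Ω := hη.supp (subset_tsupport _ hzC)
      have h3 := (abs_le.1 (hz h2)).2
      have h4 : u z ≤ M0 := h3.trans (le_abs_self _)
      have h5 := mul_nonneg (hη0 z) (sub_nonneg.2 h4)
      simp only [hφ]
      linarith
  have hΓc : ∀ K, IsCompact K → K ⊆ Ω →
      MemLp (fun z => - A p (G z)) (ENNReal.ofReal (cj p)) (volume.restrict K) :=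
    fun K hK hKΩ => (memLp_flux hp (hu.memG K hK hKΩ)).neg
  set Γ : X n → E n := D1.indicator (fun z => A p (G z)) with hΓ
  have hΓm : MemLp Γ (ENNReal.ofReal (cj p)) volume := by
    rw [hΓ, memLp_indicator_iff_restrict hD1.measurableSet]
    exact memLp_flux hp (hu.memG D1 hD1 hδΩ)
  have hum : AEStronglyMeasurable (fun z => - u z) (volume.restrict Ω) := hu.meas.neg
  have hub : ∃ M : ℝ, ∀ᵐ z ∂(volume.restrict Ω), |(- u z)| ≤ M := by
    obtain ⟨M', hM'⟩ := hu.bdd
    exact ⟨M', by simpa only [abs_neg] using hM'⟩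
  -- the localised function
  set w : X n → ℝ := fun z => ζ2 z * (M0 - u z) with hw
  have hζ2c : Continuous ζ2 := hζ2.smooth.continuous
  have hζ2z : ∀ z, z ∉ tsupport ζ2 → ζ2 z = 0 := fun z hz => image_eq_zero_of_notMem_tsupport hz
  have hwm : AEStronglyMeasurable w volume := by
    have h1 := loc_bdd (Ω := Ω) (u := fun z => M0 - u z)
      (aestronglyMeasurable_const.sub hu.meas) (M := M0 + M) (by
        filter_upwards [hM] with z hz
        refine (abs_sub _ _).trans ?_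
        rw [abs_of_nonneg hM00]
        linarith) hζ2c hζ2.cpt hζ2.supp hζ2z 2
    have h2 := h1.aestronglyMeasurable
    refine h2.congr (Eventually.of_forall fun z => ?_)
    simp only [hw, smul_eq_mul]
    ring
  have hwb : ∀ᵐ z, |w z| ≤ 2 * M0 := by
    have h1 : ∀ᵐ z, z ∈ Ω → |u z| ≤ M := (ae_restrict_iff' hΩ.measurableSet).1 hM
    filter_upwards [h1] with z hz
    by_cases hzΩ : z ∈ Ω
    · have h3 := hz hzΩ
      have h4 : M ≤ M0 := le_abs_self _
      simp only [hw]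
      rw [abs_mul, abs_of_nonneg (hζ201 z).1]
      have h5 : |M0 - u z| ≤ 2 * M0 := by
        refine (abs_sub _ _).trans ?_
        rw [abs_of_nonneg hM00]
        linarith
      calc ζ2 z * |M0 - u z| ≤ 1 * (2 * M0) :=
            mul_le_mul (hζ201 z).2 h5 (abs_nonneg _) zero_le_one
        _ = 2 * M0 := one_mul _
    · have h6 : ζ2 z = 0 := hζ2z z fun h => hzΩ (hζ2.supp h)
      simp only [hw, h6, zero_mul, abs_zero]
      positivity
  have hwD : ∀ z ∈ D1, w z = M0 - u z := by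
    intro z hz
    have h1 : ζ2 z = 1 := hζ21.self_of_nhdsSet z hz
    simp only [hw, h1, one_mul]
  -- the inequality for the averages
  have key : ∀ s ∈ Ioc 0 δ, -(1 / 2 * (L * (2 * M0) ^ 2 * V)) ≤
      ∫ z, inner ℝ (Γ z) (av s Φ z) := by
    intro s hs
    have hs0 : 0 < s := hs.1
    have h1 := shf_ineq hp hΩ hC hD1 hδΩ hs0 (hCD s hs.2) hum hub hΓc
      (fun K _ _ => integrableOn_zero) hu.di hW0 hC0
    have h2 := len_lhs hηu hη0 (L := L) (fun z => by simpa using hL z) hD1 hs0 (hCD s hs.2)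
      hwm hwb
    have e1 : ∫ z, φ z * (-u z - sh (-s) (fun z => - u z) z) =
        ∫ z, η z * (w z * (w z - sh (-s) w z)) := by
      refine integral_congr_ae (Eventually.of_forall fun z => ?_)
      simp only
      by_cases hz : η z = 0
      · simp only [hφ, hz]
        ring
      · have hzC : z ∈ C := subset_tsupport _ hz
        have hz1 : z ∈ D1 := hCD1 hzC
        have hz2 : ((z.1, z.2 + -s) : X n) ∈ D1 := by
          refine hCD s hs.2 _ s ⟨hs0.le, le_rfl⟩ ?_
          simpa using hzC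
        have h3 := hwD z hz1
        have h4 := hwD _ hz2
        simp only [sh] at h4 ⊢
        rw [h3, h4]
        simp only [hφ]
        ring
    have e2 : ∫ z, inner ℝ (- A p (G z)) (av s Φ z) = - ∫ z, inner ℝ (Γ z) (av s Φ z) := by
      rw [← integral_neg]
      have hav := W0.avg hp hCb hW0 hs0.ne' (D := D1) (by
        intro z r hr hz
        rw [uIcc_of_le hs0.le] at hr
        exact hCD s hs.2 z r hr hz)
      refine integral_congr_ae ?_
      filter_upwards [hav.toW0.grad_off hp hD1.isBounded] with z hz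
      by_cases hzD : z ∈ D1
      · simp only [hΓ, indicator_of_mem hzD, inner_neg_left]
      · rw [hz hzD]
        simp
    have e3 : ∫ z, (fun _ : X n => (0 : ℝ)) z * av s φ z = 0 := by simp
    rw [e3, add_zero, e2, neg_neg] at h1
    rw [e1] at h1
    have h3 := mul_le_mul_of_nonneg_left h2 (inv_pos.2 hs0).le
    have h4 : s⁻¹ * -(1 / 2 * (L * s * (2 * M0) ^ 2 * (volume D1).toReal)) =
        -(1 / 2 * (L * (2 * M0) ^ 2 * V)) := by
      rw [← hV]
      field_simp
    rw [h4] at h3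
    exact h3.trans h1
  have hlim : -(1 / 2 * (L * (2 * M0) ^ 2 * V)) ≤ ∫ z, inner ℝ (Γ z) (Φ z) := by
    refine ge_of_tendsto (len_conv hp hΓm hW0.mem) ?_
    filter_upwards [Ioc_mem_nhdsGT hδ] with s hs
    exact key s hs
  -- the pointwise bound
  have hGD : MemLp G (ENNReal.ofReal p) (volume.restrict D1) := hu.memG D1 hD1 hδΩ
  have iG : IntegrableOn (fun z => ‖G z‖ ^ p) D1 volume :=
    (lps_int_iff hp0 hGD.aestronglyMeasurable).2 hGD
  have iηG : IntegrableOn (fun z => η z * ‖G z‖ ^ p) D1 volume := by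
    refine iG.bdd_mul hηu.smooth.continuous.aestronglyMeasurable (c := 1)
      (Eventually.of_forall fun z => ?_)
    rw [Real.norm_eq_abs, abs_of_nonneg (hη0 z)]
    exact hη1 z
  have iB : IntegrableOn (fun _ : X n => B) D1 volume := integrableOn_const hD1f
  have hup : ∫ z, inner ℝ (Γ z) (Φ z) ≤ ∫ z in D1, (B - 1 / 2 * (η z * ‖G z‖ ^ p)) := by
    have e1 : ∫ z, inner ℝ (Γ z) (Φ z) = ∫ z in D1, inner ℝ (A p (G z)) (Φ z) := by
      rw [← integral_indicator hD1.measurableSet]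
      refine integral_congr_ae (Eventually.of_forall fun z => ?_)
      by_cases hzD : z ∈ D1
      · simp only [hΓ, indicator_of_mem hzD]
      · simp only [hΓ, indicator_of_notMem hzD, inner_zero_left]
    rw [e1]
    have i1 : IntegrableOn (fun z => inner ℝ (A p (G z)) (Φ z)) D1 volume :=
      (holder_inner hp (memLp_flux hp hGD) (hW0.mem.restrict D1)).1
    refine integral_mono_ae i1 (iB.sub (iηG.const_mul _)) ?_
    have h1 : ∀ᵐ z ∂(volume.restrict D1), |u z| ≤ M := ae_restrict_of_ae_restrict_of_subset hδΩ hM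
    filter_upwards [h1] with z hz
    have h2 : |M0 - u z| ≤ 2 * M0 := by
      refine (abs_sub _ _).trans ?_
      rw [abs_of_nonneg hM00]
      have := le_abs_self M
      linarith
    have h3 := len_pt hp hm hM00 hS0 (hζ01 z).1 (hζ01 z).2 h2 (g := G z) (hS z)
    have e2 : Φ z = (M0 - u z) • (((m : ℝ) * ζ z ^ (m - 1)) • dx ζ z) - (ζ z ^ m) • G z := by
      rw [← len_pow_dx hζ.smooth m z]
      simp only [hΦ, hηdef]
      module
    rw [e2]
    exact h3
  have e4 : ∫ z in D1, (B - 1 / 2 * (η z * ‖G z‖ ^ p)) =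
      B * V - 1 / 2 * ∫ z in D1, η z * ‖G z‖ ^ p := by
    rw [integral_sub iB (iηG.const_mul _), integral_const_mul,
      setIntegral_const, smul_eq_mul, show volume.real D1 = V from rfl]
    ring
  rw [e4] at hup
  have hDζ : ∀ z ∈ D, ζ z = 1 := fun z hz => hζ1.self_of_nhdsSet z hz
  have hDD1 : D ⊆ D1 := by
    intro z hz
    refine hCD1 (subset_tsupport _ ?_)
    simp [hηdef, hDζ z hz]
  have hfin : ∫ z in D, ‖G z‖ ^ p ≤ ∫ z in D1, η z * ‖G z‖ ^ p := by
    have e5 : ∫ z in D, ‖G z‖ ^ p = ∫ z in D, η z * ‖G z‖ ^ p := by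
      refine setIntegral_congr_fun hD.measurableSet fun z hz => ?_
      simp [hηdef, hDζ z hz]
    rw [e5]
    refine setIntegral_mono_set iηG (Eventually.of_forall fun z => ?_) hDD1.eventuallyLE
    exact mul_nonneg (hη0 z) (by positivity)
  linarith

end PP
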