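import Pool.Agent.PP.PW2

open Set Metric Filter Topology MeasureTheory
open scoped ContDiff ENNReal

noncomputable section

namespace PP

variable {n : ℕ}

private lemma maz_norm {p : ℝ} (hp : 1 < p) {h : X n → E n}
    (hf : MemLp h (ENNReal.ofReal p) volume) :
    ∫ z, ‖h z‖ ^ p = ‖hf.toLp h‖ ^ p := by
  have hp0 : 0 < p := by linarith
  have hne : ENNReal.ofReal p ≠ 0 := by simpa using hp0
  rw [Lp.norm_toLp, hf.eLpNorm_eq_integral_rpow_norm hne ENNReal.ofReal_ne_top,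
    ENNReal.toReal_ofReal hp0.le, ENNReal.toReal_ofReal (by positivity), ← Real.rpow_mul
    (integral_nonneg fun z => by positivity), inv_mul_cancel₀ hp0.ne', Real.rpow_one]

/-- admissible weights -/
private def MazW (j : ℕ) (w : ℕ → ℝ) (N : ℕ) : Prop :=
  (∀ k, 0 ≤ w k) ∧ ∑ k ∈ Finset.range N, w k = 1 ∧ (∀ k, k < j → w k = 0) ∧
    ∀ k, N ≤ k → w k = 0

private lemma maz_extend {N N' : ℕ} (h : N ≤ N') {w : ℕ → ℝ} (hw : ∀ k, N ≤ k → w k = 0)
    {F : Type*} [AddCommMonoid F] [Module ℝ F] (v : ℕ → F) :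
    ∑ k ∈ Finset.range N', w k • v k = ∑ k ∈ Finset.range N, w k • v k := by
  symm
  refine Finset.sum_subset (Finset.range_mono h) fun k _ hk => ?_
  rw [hw k (by simpa using hk), zero_smul]

theorem mazur {p : ℝ} (hp : 1 < p) (K : ℝ) (f : ℕ → X n → E n)
    (hf : ∀ k, MemLp (f k) (ENNReal.ofReal p) volume) (hK : ∀ k, ∫ z, ‖f k z‖ ^ p ≤ K) :
    ∃ (w : ℕ → ℕ → ℝ) (N : ℕ → ℕ) (g : X n → E n), (∀ j k, 0 ≤ w j k) ∧
      (∀ j, ∑ k ∈ Finset.range (N j), w j k = 1) ∧ (∀ j k, k < j → w j k = 0) ∧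
      MemLp g (ENNReal.ofReal p) volume ∧ ∫ z, ‖g z‖ ^ p ≤ K ∧
      Tendsto (fun j => ∫ z, ‖∑ k ∈ Finset.range (N j), w j k • f k z - g z‖ ^ p) atTop (𝓝 0) := by
  have hp0 : 0 < p := by linarith
  have hne : ENNReal.ofReal p ≠ 0 := by simpa using hp0
  have hne' : ENNReal.ofReal p ≠ ⊤ := ENNReal.ofReal_ne_top
  have : Fact (1 ≤ ENNReal.ofReal p) := ⟨by rw [ENNReal.one_le_ofReal]; exact hp.le⟩
  have hint : ∀ {h : X n → E n}, MemLp h (ENNReal.ofReal p) volume →
      Integrable (fun z => ‖h z‖ ^ p) volume := by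
    intro h hh
    have := hh.integrable_norm_rpow hne hne'
    rwa [ENNReal.toReal_ofReal hp0.le] at this
  -- combinations
  obtain ⟨c, hc⟩ : ∃ c : (ℕ → ℝ) → ℕ → X n → E n,
      ∀ w N z, c w N z = ∑ k ∈ Finset.range N, w k • f k z := ⟨_, fun _ _ _ => rfl⟩
  have hcm : ∀ w N, MemLp (c w N) (ENNReal.ofReal p) volume := by
    intro w N
    have : c w N = fun z => ∑ k ∈ Finset.range N, w k • f k z := funext (hc w N)
    rw [this]
    exact memLp_finsetSum _ fun k _ => (hf k).const_smul (w k)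
  let S : ℕ → Set ℝ := fun j => {r | ∃ w N, MazW j w N ∧ r = ∫ z, ‖c w N z‖ ^ p}
  let m : ℕ → ℝ := fun j => sInf (S j)
  have hSb : ∀ j, BddBelow (S j) := fun j => ⟨0, by
    rintro r ⟨w, N, -, rfl⟩
    exact integral_nonneg fun z => by positivity⟩
  have hSK : ∀ j, ∃ r ∈ S j, r ≤ K := by
    intro j
    refine ⟨_, ⟨fun k => if k = j then 1 else 0, j + 1, ⟨?_, ?_, ?_, ?_⟩, rfl⟩, ?_⟩
    · intro k; beta_reduce; split_ifs <;> norm_num
    · rw [Finset.sum_ite_eq']; simp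
    · intro k hk; beta_reduce; rw [if_neg (by omega)]
    · intro k hk; beta_reduce; rw [if_neg (by omega)]
    · refine le_trans (le_of_eq ?_) (hK j)
      refine integral_congr_ae (Eventually.of_forall fun z => ?_)
      simp only [hc]
      congr 2
      rw [Finset.sum_eq_single j]
      · simp
      · intro k _ hk; simp [hk]
      · intro hk; simp at hk
  have hSn : ∀ j, (S j).Nonempty := fun j => by
    obtain ⟨r, hr, -⟩ := hSK j; exact ⟨r, hr⟩
  have hmK : ∀ j, m j ≤ K := fun j => by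
    obtain ⟨r, hr, hrK⟩ := hSK j
    exact (csInf_le (hSb j) hr).trans hrK
  have hmm : Monotone m := by
    intro i j hij
    refine csInf_le_csInf (hSb i) (hSn j) ?_
    rintro r ⟨w, N, ⟨h1, h2, h3, h4⟩, rfl⟩
    exact ⟨w, N, ⟨h1, h2, fun k hk => h3 k (by omega), h4⟩, rfl⟩
  have hex : ∀ j : ℕ, ∃ w N, MazW j w N ∧ ∫ z, ‖c w N z‖ ^ p < m j + 1 / ((j : ℝ) + 1) := by
    intro j
    obtain ⟨r, ⟨w, N, hW, rfl⟩, hr⟩ := exists_lt_of_csInf_lt (hSn j)
      (show sInf (S j) < m j + 1 / ((j : ℝ) + 1) from lt_add_of_pos_right _ (by positivity))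
    exact ⟨w, N, hW, hr⟩
  choose w N hW hI using hex
  -- quantitative estimate
  have hquant : ∀ δ > 0, ∃ C : ℝ, 0 < C ∧ ∀ j l, j ≤ l →
      ∫ z, ‖c (w j) (N j) z - c (w l) (N l) z‖ ^ p ≤
        C * ((m l - m j) / 2 + 1 / ((j : ℝ) + 1)) + δ * (2 * (K + 1)) := by
    intro δ hδ
    obtain ⟨C, hC, hC2⟩ := conv_quant (n := n) hp δ hδ
    refine ⟨C, hC, fun j l hjl => ?_⟩
    set a := c (w j) (N j)
    set b := c (w l) (N l)
    have ha : MemLp a (ENNReal.ofReal p) volume := hcm _ _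
    have hb : MemLp b (ENNReal.ofReal p) volume := hcm _ _
    have hab : MemLp (fun z => (1 / 2 : ℝ) • (a z + b z)) (ENNReal.ofReal p) volume :=
      (ha.add hb).const_smul (1 / 2 : ℝ)
    have hIa := hint ha
    have hIb := hint hb
    have hIab := hint hab
    have hmid : m j ≤ ∫ z, ‖(1 / 2 : ℝ) • (a z + b z)‖ ^ p := by
      refine csInf_le (hSb j) ⟨fun k => 1 / 2 * (w j k + w l k), max (N j) (N l), ⟨?_, ?_, ?_, ?_⟩, ?_⟩
      · intro k
        have := (hW j).1 k
        have := (hW l).1 k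
        positivity
      · have e1 := maz_extend (le_max_left (N j) (N l)) (hW j).2.2.2 (fun _ => (1 : ℝ))
        have e2 := maz_extend (le_max_right (N j) (N l)) (hW l).2.2.2 (fun _ => (1 : ℝ))
        simp only [smul_eq_mul, mul_one] at e1 e2
        rw [← Finset.mul_sum, Finset.sum_add_distrib, e1, e2, (hW j).2.1, (hW l).2.1]
        norm_num
      · intro k hk
        have h1 := (hW j).2.2.1 k hk
        have h2 := (hW l).2.2.1 k (by omega)
        simp only [h1, h2]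
        norm_num
      · intro k hk
        have h1 := (hW j).2.2.2 k (le_trans (le_max_left _ _) hk)
        have h2 := (hW l).2.2.2 k (le_trans (le_max_right _ _) hk)
        simp only [h1, h2]
        norm_num
      · refine integral_congr_ae (Eventually.of_forall fun z => ?_)
        have e1 := maz_extend (le_max_left (N j) (N l)) (hW j).2.2.2 (fun k => f k z)
        have e2 := maz_extend (le_max_right (N j) (N l)) (hW l).2.2.2 (fun k => f k z)
        have : c (fun k => 1 / 2 * (w j k + w l k)) (max (N j) (N l)) z =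
            (1 / 2 : ℝ) • (a z + b z) := by
          change _ = (1 / 2 : ℝ) • (c (w j) (N j) z + c (w l) (N l) z)
          rw [hc, hc, hc, ← e1, ← e2, ← Finset.sum_add_distrib, Finset.smul_sum]
          refine Finset.sum_congr rfl fun k _ => ?_
          rw [mul_smul, add_smul]
        simp only [this]
    have hpt : ∀ z, ‖a z - b z‖ ^ p ≤
        C * (‖a z‖ ^ p / 2 + ‖b z‖ ^ p / 2 - ‖(1 / 2 : ℝ) • (a z + b z)‖ ^ p) +
          δ * (‖a z‖ ^ p + ‖b z‖ ^ p) := fun z => hC2 _ _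
    have hR : Integrable (fun z =>
        C * (‖a z‖ ^ p / 2 + ‖b z‖ ^ p / 2 - ‖(1 / 2 : ℝ) • (a z + b z)‖ ^ p) +
          δ * (‖a z‖ ^ p + ‖b z‖ ^ p)) volume :=
      ((((hIa.div_const 2).add (hIb.div_const 2)).sub hIab).const_mul C).add
        ((hIa.add hIb).const_mul δ)
    have h1 := integral_mono (hint (ha.sub hb)) hR hpt
    refine h1.trans ?_
    have hsum : ∫ z, (C * (‖a z‖ ^ p / 2 + ‖b z‖ ^ p / 2 - ‖(1 / 2 : ℝ) • (a z + b z)‖ ^ p) +
          δ * (‖a z‖ ^ p + ‖b z‖ ^ p)) =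
        C * ((∫ z, ‖a z‖ ^ p) / 2 + (∫ z, ‖b z‖ ^ p) / 2 -
          ∫ z, ‖(1 / 2 : ℝ) • (a z + b z)‖ ^ p) +
          δ * ((∫ z, ‖a z‖ ^ p) + ∫ z, ‖b z‖ ^ p) := by
      rw [integral_add, integral_const_mul, integral_const_mul, integral_sub, integral_add,
        integral_add, integral_div, integral_div]
      · exact hIa
      · exact hIb
      · exact hIa.div_const 2
      · exact hIb.div_const 2
      · exact (hIa.div_const 2).add (hIb.div_const 2)
      · exact hIab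
      · exact (((hIa.div_const 2).add (hIb.div_const 2)).sub hIab).const_mul C
      · exact (hIa.add hIb).const_mul δ
    rw [hsum]
    have ia := (hI j).le
    have ib := (hI l).le
    have hjl' : 1 / ((l : ℝ) + 1) ≤ 1 / ((j : ℝ) + 1) := by
      apply one_div_le_one_div_of_le (by positivity)
      have : (j : ℝ) ≤ l := by exact_mod_cast hjl
      linarith
    have hj1 : 1 / ((j : ℝ) + 1) ≤ 1 := by
      rw [div_le_one (by positivity)]
      linarith [(Nat.cast_nonneg j : (0 : ℝ) ≤ j)]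
    have e1 : (∫ z, ‖a z‖ ^ p) / 2 + (∫ z, ‖b z‖ ^ p) / 2 -
        (∫ z, ‖(1 / 2 : ℝ) • (a z + b z)‖ ^ p) ≤ (m l - m j) / 2 + 1 / ((j : ℝ) + 1) := by
      linarith
    have e2 : (∫ z, ‖a z‖ ^ p) + (∫ z, ‖b z‖ ^ p) ≤ 2 * (K + 1) := by
      have := hmK j
      have := hmK l
      linarith
    gcongr
  -- Cauchy sequence
  set u : ℕ → Lp (E n) (ENNReal.ofReal p) (volume : Measure (X n)) :=
    fun j => (hcm (w j) (N j)).toLp (c (w j) (N j)) with hu
  have hunorm : ∀ j, ‖u j‖ ^ p = ∫ z, ‖c (w j) (N j) z‖ ^ p := fun j => (maz_norm hp _).symm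
  have hudist : ∀ j l, ‖u j - u l‖ ^ p = ∫ z, ‖c (w j) (N j) z - c (w l) (N l) z‖ ^ p := by
    intro j l
    rw [hu]
    simp only
    rw [← MemLp.toLp_sub]
    exact (maz_norm hp ((hcm (w j) (N j)).sub (hcm (w l) (N l)))).symm
  have hK0 : 0 ≤ K := (integral_nonneg fun z => by positivity).trans (hK 0)
  have hcauchy : CauchySeq u := by
    rw [Metric.cauchySeq_iff']
    intro ε hε
    have hεp : 0 < ε ^ p := by positivity
    obtain ⟨C, hC, hC2⟩ := hquant (ε ^ p / (4 * (2 * (K + 1)))) (by positivity)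
    -- m converges
    have hmc : Tendsto m atTop (𝓝 (⨆ j, m j)) :=
      tendsto_atTop_ciSup hmm ⟨K, by rintro _ ⟨j, rfl⟩; exact hmK j⟩
    have hbm : BddAbove (range m) := ⟨K, by rintro _ ⟨j, rfl⟩; exact hmK j⟩
    have h1 : ∀ᶠ j in atTop, (⨆ j, m j) - ε ^ p / (4 * C) < m j :=
      hmc.eventually_const_lt (by linarith [show 0 < ε ^ p / (4 * C) by positivity])
    have h2 : ∀ᶠ j : ℕ in atTop, 1 / ((j : ℝ) + 1) < ε ^ p / (4 * C) :=
      (tendsto_one_div_add_atTop_nhds_zero_nat).eventually_lt_const (by positivity)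
    obtain ⟨j, hj1, hj2⟩ := (h1.and h2).exists
    refine ⟨j, fun l hl => ?_⟩
    have h3 := hC2 j l hl
    have h4 : m l ≤ ⨆ j, m j := le_ciSup hbm l
    have h5 : ∫ z, ‖c (w j) (N j) z - c (w l) (N l) z‖ ^ p < ε ^ p := by
      refine h3.trans_lt ?_
      have e1 : (m l - m j) / 2 + 1 / ((j : ℝ) + 1) < ε ^ p / (2 * C) := by
        have : ε ^ p / (2 * C) = 2 * (ε ^ p / (4 * C)) := by field_simp; ring
        rw [this]
        have : 0 < ε ^ p / (4 * C) := by positivity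
        linarith
      have e2 : C * ((m l - m j) / 2 + 1 / ((j : ℝ) + 1)) < ε ^ p / 2 := by
        calc C * ((m l - m j) / 2 + 1 / ((j : ℝ) + 1)) < C * (ε ^ p / (2 * C)) := by gcongr
          _ = ε ^ p / 2 := by field_simp
      have e3 : ε ^ p / (4 * (2 * (K + 1))) * (2 * (K + 1)) = ε ^ p / 4 := by
        have : (2 * (K + 1)) ≠ 0 := by positivity
        field_simp
      rw [e3]
      linarith
    rw [dist_comm, dist_eq_norm]
    rw [← hudist] at h5
    exact (Real.rpow_lt_rpow_iff (norm_nonneg _) hε.le hp0).1 h5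
  obtain ⟨G, hG⟩ := cauchySeq_tendsto_of_complete hcauchy
  refine ⟨w, N, G, fun j k => (hW j).1 k, fun j => (hW j).2.1, fun j k hk => (hW j).2.2.1 k hk,
    Lp.memLp G, ?_, ?_⟩
  · have e1 : ∫ z, ‖G z‖ ^ p = ‖G‖ ^ p := by
      rw [maz_norm hp (Lp.memLp G), Lp.toLp_coeFn]
    rw [e1]
    have h1 : Tendsto (fun j => ‖u j‖ ^ p) atTop (𝓝 (‖G‖ ^ p)) :=
      (hG.norm).rpow_const (Or.inr hp0.le)
    have h2 : Tendsto (fun j : ℕ => K + 1 / ((j : ℝ) + 1)) atTop (𝓝 (K + 0)) :=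
      tendsto_one_div_add_atTop_nhds_zero_nat.const_add K
    rw [add_zero] at h2
    refine le_of_tendsto_of_tendsto' h1 h2 fun j => ?_
    rw [hunorm]
    have := hmK j
    exact (hI j).le.trans (by linarith)
  · have h1 : Tendsto (fun j => ‖u j - G‖ ^ p) atTop (𝓝 0) := by
      have h0 : Tendsto (fun j => ‖u j - G‖) atTop (𝓝 0) := tendsto_iff_norm_sub_tendsto_zero.1 hG
      have := h0.rpow_const (p := p) (Or.inr hp0.le)
      rwa [Real.zero_rpow hp0.ne'] at this
    refine h1.congr fun j => ?_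
    have h2 : u j - G = ((hcm (w j) (N j)).sub (Lp.memLp G)).toLp (c (w j) (N j) - ⇑G) := by
      rw [MemLp.toLp_sub (hcm (w j) (N j)) (Lp.memLp G), Lp.toLp_coeFn]
    rw [h2, ← maz_norm hp]
    refine integral_congr_ae (Eventually.of_forall fun z => ?_)
    simp only [Pi.sub_apply, hc]

end PP
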