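import Pool.Agent.PP.MIN1
import Pool.Agent.PP.CAL3

open Set Metric Filter Topology MeasureTheory
open scoped ContDiff

noncomputable section

namespace PP

variable {n : ℕ}
variable {p : ℝ}

private theorem min3_pow (hp : 1 < p) {g : X n → E n} (hg : MemLp g (ENNReal.ofReal p) volume) :
    Integrable (fun y => ‖g y‖ ^ p) := by
  have h1 : ENNReal.ofReal p ≠ 0 := by
    rw [Ne, ENNReal.ofReal_eq_zero, not_le]
    linarith
  have h := hg.integrable_norm_rpow h1 ENNReal.ofReal_ne_top
  rw [ENNReal.toReal_ofReal (by linarith)] at h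
  exact h

private theorem min3_core (hp : 1 < p) {ε : ℝ} (hε : 0 < ε) {B : ℝ} {W : X n → ℝ}
    (hWm : Measurable W) (hW0 : ∀ y, 0 ≤ W y) (hWB : ∀ y, W y ≤ B)
    {a b : X n → ℝ} {c d : X n → E n} (ha : MemLp a 2 volume) (hb : MemLp b 2 volume)
    (hc : MemLp c (ENNReal.ofReal p) volume) (hd : MemLp d (ENNReal.ofReal p) volume)
    {τ0 : ℝ} (hτ0 : 0 < τ0)
    (hmin : ∀ τ, 0 < τ → τ ≤ τ0 → ∫ y, W y * (ε / 2 * (a y) ^ 2 + ‖c y‖ ^ p / p) ≤
      ∫ y, W y * (ε / 2 * (a y + τ * b y) ^ 2 + ‖c y + τ • d y‖ ^ p / p)) :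
    0 ≤ ∫ y, W y * (ε * (a y * b y) + inner ℝ (A p (c y)) (d y)) := by
  have hmul : ∀ h : X n → ℝ, Integrable h → Integrable (fun y => W y * h y) := by
    intro h hh
    refine (hh.norm.const_mul B).mono' (hWm.aestronglyMeasurable.mul hh.aestronglyMeasurable) ?_
    refine Filter.Eventually.of_forall (fun y => ?_)
    rw [norm_mul, Real.norm_of_nonneg (hW0 y)]
    exact mul_le_mul_of_nonneg_right (hWB y) (norm_nonneg _)
  have haa : Integrable (fun y => a y ^ 2) := ha.integrable_sq
  have hbb : Integrable (fun y => b y ^ 2) := hb.integrable_sq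
  have hab : Integrable (fun y => a y * b y) := by
    have h1 : Integrable (fun y => (a y + b y) ^ 2) := (ha.add hb).integrable_sq
    have h2 := ((h1.sub haa).sub hbb).const_mul (1 / 2)
    refine h2.congr (Filter.Eventually.of_forall (fun y => ?_))
    simp only [Pi.sub_apply]
    ring
  have hcd : ∀ τ : ℝ, MemLp (fun y => c y + τ • d y) (ENNReal.ofReal p) volume := fun τ =>
    hc.add (hd.const_smul τ)
  have hin : ∀ τ : ℝ, Integrable (fun y => inner ℝ (A p (c y + τ • d y)) (d y)) := fun τ =>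
    (holder_inner hp (memLp_flux hp (hcd τ)) hd).1
  set I : ℝ → X n → ℝ := fun τ y => W y * (ε * (a y * b y) + ε * τ / 2 * (b y) ^ 2 +
    inner ℝ (A p (c y + τ • d y)) (d y)) with hI
  have hIint : ∀ τ, Integrable (I τ) := fun τ =>
    hmul _ (((hab.const_mul ε).add (hbb.const_mul (ε * τ / 2))).add (hin τ))
  have hI0 : ∀ τ, 0 < τ → τ ≤ τ0 → 0 ≤ ∫ y, I τ y := by
    intro τ hτ hττ
    have h1 := hmin τ hτ hττ
    have hint0 : Integrable (fun y => W y * (ε / 2 * (a y) ^ 2 + ‖c y‖ ^ p / p)) :=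
      hmul _ ((haa.const_mul (ε / 2)).add ((min3_pow hp hc).div_const p))
    have hint1 : Integrable (fun y => W y * (ε / 2 * (a y + τ * b y) ^ 2 +
        ‖c y + τ • d y‖ ^ p / p)) := by
      have h2 : Integrable (fun y => (a y + τ * b y) ^ 2) := (ha.add (hb.const_mul τ)).integrable_sq
      exact hmul _ ((h2.const_mul (ε / 2)).add ((min3_pow hp (hcd τ)).div_const p))
    have h3 : ∫ y, (W y * (ε / 2 * (a y + τ * b y) ^ 2 + ‖c y + τ • d y‖ ^ p / p) -
        W y * (ε / 2 * (a y) ^ 2 + ‖c y‖ ^ p / p)) ≤ ∫ y, τ * I τ y := by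
      apply integral_mono (hint1.sub hint0) ((hIint τ).const_mul τ)
      intro y
      have h4 := conv_tangent hp (c y + τ • d y) (c y)
      have h5 : c y - (c y + τ • d y) = -(τ • d y) := by abel
      rw [h5, inner_neg_right, real_inner_smul_right] at h4
      show W y * (ε / 2 * (a y + τ * b y) ^ 2 + ‖c y + τ • d y‖ ^ p / p) -
        W y * (ε / 2 * (a y) ^ 2 + ‖c y‖ ^ p / p) ≤
        τ * (W y * (ε * (a y * b y) + ε * τ / 2 * (b y) ^ 2 +
          inner ℝ (A p (c y + τ • d y)) (d y)))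
      have h6 : (ε / 2 * (a y + τ * b y) ^ 2 + ‖c y + τ • d y‖ ^ p / p) -
          (ε / 2 * (a y) ^ 2 + ‖c y‖ ^ p / p) ≤
          τ * (ε * (a y * b y) + ε * τ / 2 * (b y) ^ 2 +
            inner ℝ (A p (c y + τ • d y)) (d y)) := by
        have h7 : ε / 2 * (a y + τ * b y) ^ 2 - ε / 2 * (a y) ^ 2 =
            τ * (ε * (a y * b y) + ε * τ / 2 * (b y) ^ 2) := by ring
        linarith
      have h8 := mul_le_mul_of_nonneg_left h6 (hW0 y)
      linarith
    rw [integral_sub hint1 hint0, integral_const_mul] at h3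
    have h9 : 0 ≤ τ * ∫ y, I τ y := by linarith
    exact nonneg_of_mul_nonneg_right h9 hτ
  -- limit along a sequence
  set t : ℕ → ℝ := fun k => min τ0 (1 / ((k : ℝ) + 1)) with ht
  have ht0 : ∀ k, 0 < t k := fun k => lt_min hτ0 (by positivity)
  have ht1 : ∀ k, t k ≤ τ0 := fun k => min_le_left _ _
  have ht2 : ∀ k, t k ≤ 1 := fun k => (min_le_right _ _).trans (by
    rw [div_le_one (by positivity)]
    have : (0 : ℝ) ≤ k := Nat.cast_nonneg k
    linarith)
  have htlim : Tendsto t atTop (𝓝 0) :=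
    squeeze_zero (fun k => (ht0 k).le) (fun k => min_le_right _ _)
      tendsto_one_div_add_atTop_nhds_zero_nat
  have hlim : Tendsto (fun k => ∫ y, I (t k) y) atTop (𝓝 (∫ y, I 0 y)) := by
    apply tendsto_integral_of_dominated_convergence
      (fun y => B * (ε * |a y * b y| + ε / 2 * b y ^ 2 + (‖c y‖ + ‖d y‖) ^ p))
    · intro k
      exact (hIint (t k)).aestronglyMeasurable
    · apply Integrable.const_mul
      refine ((hab.abs.const_mul ε).add (hbb.const_mul (ε / 2))).add ?_
      have h1 : MemLp (fun y => ‖c y‖ + ‖d y‖) (ENNReal.ofReal p) volume := hc.norm.add hd.norm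
      have h2 : ENNReal.ofReal p ≠ 0 := by
        rw [Ne, ENNReal.ofReal_eq_zero, not_le]
        linarith
      have h3 := h1.integrable_norm_rpow h2 ENNReal.ofReal_ne_top
      rw [ENNReal.toReal_ofReal (by linarith)] at h3
      refine h3.congr (Filter.Eventually.of_forall (fun y => ?_))
      show ‖‖c y‖ + ‖d y‖‖ ^ p = (‖c y‖ + ‖d y‖) ^ p
      rw [Real.norm_of_nonneg (by positivity)]
    · intro k
      refine Filter.Eventually.of_forall (fun y => ?_)
      show ‖W y * (ε * (a y * b y) + ε * t k / 2 * (b y) ^ 2 +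
        inner ℝ (A p (c y + t k • d y)) (d y))‖ ≤ _
      rw [norm_mul, Real.norm_of_nonneg (hW0 y)]
      have hB0 : 0 ≤ B := (hW0 y).trans (hWB y)
      apply mul_le_mul (hWB y) _ (norm_nonneg _) hB0
      have h1 : ‖inner ℝ (A p (c y + t k • d y)) (d y)‖ ≤ (‖c y‖ + ‖d y‖) ^ p := by
        refine (norm_inner_le_norm _ _).trans ?_
        rw [norm_A hp]
        have h2 : ‖c y + t k • d y‖ ≤ ‖c y‖ + ‖d y‖ := by
          refine (norm_add_le _ _).trans ?_
          rw [norm_smul, Real.norm_of_nonneg (ht0 k).le]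
          have := mul_le_mul_of_nonneg_right (ht2 k) (norm_nonneg (d y))
          linarith
        have h3 : ‖c y + t k • d y‖ ^ (p - 1) ≤ (‖c y‖ + ‖d y‖) ^ (p - 1) :=
          Real.rpow_le_rpow (norm_nonneg _) h2 (by linarith)
        have h4 : (‖c y‖ + ‖d y‖) ^ p = (‖c y‖ + ‖d y‖) ^ (p - 1) * (‖c y‖ + ‖d y‖) := by
          rw [← Real.rpow_add_one' (by positivity) (by linarith)]
          congr 1
          ring
        rw [h4]
        apply mul_le_mul h3 _ (norm_nonneg _) (by positivity)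
        have := norm_nonneg (c y)
        linarith
      have h5 : ‖ε * (a y * b y)‖ = ε * |a y * b y| := by
        rw [norm_mul, Real.norm_of_nonneg hε.le, Real.norm_eq_abs]
      have h6 : ‖ε * t k / 2 * (b y) ^ 2‖ ≤ ε / 2 * b y ^ 2 := by
        rw [Real.norm_of_nonneg (mul_nonneg (by have := (ht0 k).le; positivity) (sq_nonneg _))]
        apply mul_le_mul_of_nonneg_right _ (sq_nonneg _)
        have := mul_le_mul_of_nonneg_left (ht2 k) hε.le
        linarith
      calc ‖ε * (a y * b y) + ε * t k / 2 * (b y) ^ 2 + inner ℝ (A p (c y + t k • d y)) (d y)‖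
          ≤ ‖ε * (a y * b y)‖ + ‖ε * t k / 2 * (b y) ^ 2‖ +
            ‖inner ℝ (A p (c y + t k • d y)) (d y)‖ := norm_add₃_le
        _ ≤ _ := by linarith
    · refine Filter.Eventually.of_forall (fun y => ?_)
      have hcont : Continuous (fun τ : ℝ => I τ y) := by
        show Continuous (fun τ : ℝ => W y * (ε * (a y * b y) + ε * τ / 2 * (b y) ^ 2 +
          inner ℝ (A p (c y + τ • d y)) (d y)))
        have h1 : Continuous (fun τ : ℝ => A p (c y + τ • d y)) :=
          (continuous_A hp).comp (by fun_prop)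
        fun_prop
      exact (hcont.tendsto 0).comp htlim
  have hge : 0 ≤ ∫ y, I 0 y := ge_of_tendsto' hlim (fun k => hI0 (t k) (ht0 k) (ht1 k))
  have heq : ∫ y, I 0 y = ∫ y, W y * (ε * (a y * b y) + inner ℝ (A p (c y)) (d y)) := by
    apply integral_congr_ae
    refine Filter.Eventually.of_forall (fun y => ?_)
    show W y * (ε * (a y * b y) + ε * 0 / 2 * (b y) ^ 2 +
      inner ℝ (A p (c y + (0 : ℝ) • d y)) (d y)) = _
    rw [zero_smul, add_zero]
    ring
  rw [← heq]
  exact hge

/-- the variational inequality -/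
theorem min_vi (hp : 1 < p) {C : Set (X n)} (hC : IsCompact C) {ε : ℝ} (hε : 0 < ε)
    {obs F : X n → ℝ} (hF : Tst univ F) {z zt : X n → ℝ} {G : X n → E n} (hz : W1 p C z zt G)
    (ho : ∀ᵐ y, - obs y ≤ z y)
    (hmin : ∀ w wt W, W1 p C w wt W → (∀ᵐ y, - obs y ≤ w y) → Jf p ε F zt G ≤ Jf p ε F wt W) :
    RegSol p ε C obs F z zt G := by
  refine ⟨hz, ho, fun φ φt Φ hφ hadm => ?_⟩
  obtain ⟨s, hs, hsφ⟩ := hadm
  have hCb := hC.isBounded
  -- the exponential weight
  set η : X n → ℝ := fun y => Real.exp (y.2 / ε) with hη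
  have hηs : ContDiff ℝ ∞ η := Real.contDiff_exp.comp (contDiff_snd.div_const ε)
  have hηpos : ∀ y, 0 < η y := fun y => Real.exp_pos _
  have hdtη : ∀ y, dt η y = η y / ε := by
    intro y
    show deriv (fun t => Real.exp (t / ε)) y.2 = Real.exp (y.2 / ε) / ε
    have h1 : HasDerivAt (fun t : ℝ => Real.exp (t / ε)) (Real.exp (y.2 / ε) * (1 / ε)) y.2 :=
      ((hasDerivAt_id y.2).div_const ε).exp
    rw [h1.deriv]
    ring
  have hdxη : ∀ y, dx η y = 0 := by
    intro y
    show gradient (fun _ : E n => Real.exp (y.2 / ε)) y.1 = 0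
    unfold gradient
    simp
  have hφ' := hφ.smooth_mul hp hCb hηs
  -- the compact set which carries everything
  set K : Set (X n) := C ∪ tsupport F with hK
  have hKc : IsCompact K := hC.union hF.cpt
  have hKm : MeasurableSet K := hKc.isClosed.measurableSet
  obtain ⟨B1, hB1⟩ := hKc.exists_bound_of_continuousOn (f := η) hηs.continuous.continuousOn
  obtain ⟨B2, hB2⟩ := hKc.exists_bound_of_continuousOn
    (f := fun y : X n => Real.exp (-(y.2 / ε))) (by fun_prop)
  set B : ℝ := max (max B1 B2) 1 with hB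
  have hB0 : 0 < B := lt_of_lt_of_le one_pos (le_max_right _ _)
  have hηB : ∀ y ∈ K, η y ≤ B := by
    intro y hy
    have h1 := hB1 y hy
    rw [Real.norm_of_nonneg (hηpos y).le] at h1
    exact h1.trans ((le_max_left _ _).trans (le_max_left _ _))
  set W : X n → ℝ := K.indicator (fun y => Real.exp (-(y.2 / ε))) with hW
  have hWm : Measurable W := by
    apply Measurable.indicator _ hKm
    fun_prop
  have hW0 : ∀ y, 0 ≤ W y := fun y => indicator_nonneg (fun y _ => (Real.exp_pos _).le) y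
  have hWB : ∀ y, W y ≤ B := by
    intro y
    by_cases hy : y ∈ K
    · rw [hW, indicator_of_mem hy]
      have h1 := hB2 y hy
      rw [Real.norm_of_nonneg (Real.exp_pos _).le] at h1
      exact h1.trans ((le_max_right _ _).trans (le_max_left _ _))
    · rw [hW, indicator_of_notMem hy]
      exact hB0.le
  -- smooth data
  obtain ⟨cdx, sdx, cdt, sdt⟩ := der_tst_int hF
  have hdtF : MemLp (dt F) 2 volume := cdt.memLp_of_hasCompactSupport sdt
  have hdxF : MemLp (dx F) (ENNReal.ofReal p) volume := cdx.memLp_of_hasCompactSupport sdx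
  have ha : MemLp (fun y => dt F y + zt y) 2 volume := hdtF.add hz.memt
  have hc : MemLp (fun y => dx F y + G y) (ENNReal.ofReal p) volume := hdxF.add hz.mem
  have hb := hφ'.memt
  have hd := hφ'.mem
  -- vanishing off `K`
  have hzt0 := hz.time_off hp hCb
  have hG0 := hz.toW0.grad_off hp hCb
  have hφt0 := hφ.time_off hp hCb
  have hΦ0 := hφ.toW0.grad_off hp hCb
  have hφ0 := hφ.zero
  have hJ : ∀ (τ : ℝ), Jf p ε F (fun y => 1 * zt y + τ * (η y * φt y + φ y * dt η y))
      (fun y => (1 : ℝ) • G y + τ • (η y • Φ y + φ y • dx η y)) =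
      ∫ y, W y * (ε / 2 * ((dt F y + zt y) + τ * (η y * φt y + φ y * dt η y)) ^ 2 +
        ‖(dx F y + G y) + τ • (η y • Φ y + φ y • dx η y)‖ ^ p / p) := by
    intro τ
    unfold Jf
    apply integral_congr_ae
    filter_upwards [hzt0, hG0, hφt0, hΦ0, hφ0] with y h1 h2 h3 h4 h5
    have e1 : dt F y + (1 * zt y + τ * (η y * φt y + φ y * dt η y)) =
        (dt F y + zt y) + τ * (η y * φt y + φ y * dt η y) := by ring
    have e2 : dx F y + ((1 : ℝ) • G y + τ • (η y • Φ y + φ y • dx η y)) =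
        (dx F y + G y) + τ • (η y • Φ y + φ y • dx η y) := by rw [one_smul, add_assoc]
    rw [e1, e2]
    by_cases hy : y ∈ K
    · rw [hW, indicator_of_mem hy]
    · rw [hW, indicator_of_notMem hy]
      have hyC : y ∉ C := fun h => hy (Or.inl h)
      have hyF : y ∉ tsupport F := fun h => hy (Or.inr h)
      rw [dt_zero_of_notMem y hyF, dx_zero_of_notMem y hyF, h1 hyC, h2 hyC, h3 hyC, h4 hyC, h5 hyC]
      simp [Real.zero_rpow (by linarith : p ≠ 0)]
  have hJ0 : Jf p ε F zt G = ∫ y, W y * (ε / 2 * (dt F y + zt y) ^ 2 +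
      ‖dx F y + G y‖ ^ p / p) := by
    have h1 := hJ 0
    simp only [one_mul, zero_mul, add_zero, one_smul, zero_smul] at h1
    exact h1
  -- minimality
  have hτ0 : 0 < min 1 (s / B) := lt_min one_pos (div_pos hs hB0)
  have key := min3_core (W := W) hp hε hWm hW0 hWB ha hb hc hd hτ0 (by
    intro τ hτ hττ
    rw [← hJ0, ← hJ τ]
    apply hmin _ _ _ (hz.lin hp hCb hφ' 1 τ)
    filter_upwards [ho, hsφ, hφ0] with y h1 h2 h3
    by_cases hy : y ∈ C
    · have h4 : τ * η y ≤ s := by
        have h5 : τ ≤ s / B := hττ.trans (min_le_right _ _)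
        have h6 := hηB y (Or.inl hy)
        calc τ * η y ≤ (s / B) * B := mul_le_mul h5 h6 (hηpos y).le (by positivity)
          _ = s := by field_simp
      have h5 : 0 ≤ τ * η y := mul_nonneg hτ.le (hηpos y).le
      -- convex combination
      have h6 : (s - τ * η y) * (- obs y) ≤ (s - τ * η y) * z y :=
        mul_le_mul_of_nonneg_left h1 (by linarith)
      have h7 : (τ * η y) * (- obs y) ≤ (τ * η y) * (z y + s * φ y) :=
        mul_le_mul_of_nonneg_left h2 h5
      have h8 : s * (- obs y) ≤ s * (1 * z y + τ * (η y * φ y)) := by nlinarith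
      exact le_of_mul_le_mul_left h8 hs
    · rw [h3 hy]
      simpa using h1)
  refine key.trans (le_of_eq ?_)
  apply integral_congr_ae
  filter_upwards [hφt0, hΦ0, hφ0] with y h3 h4 h5
  rw [hdtη, hdxη, smul_zero, add_zero]
  by_cases hy : y ∈ K
  · rw [hW, indicator_of_mem hy, real_inner_smul_right]
    have h6 : Real.exp (-(y.2 / ε)) * η y = 1 := by
      rw [hη, ← Real.exp_add, neg_add_cancel, Real.exp_zero]
    have h7 : ε * ((dt F y + zt y) * (η y * φt y + φ y * (η y / ε))) =
        η y * (ε * ((dt F y + zt y) * φt y) + (dt F y + zt y) * φ y) := by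
      field_simp
    rw [h7]
    linear_combination (ε * ((dt F y + zt y) * φt y) + (dt F y + zt y) * φ y +
      inner ℝ (A p (dx F y + G y)) (Φ y)) * h6
  · rw [hW, indicator_of_notMem hy]
    have hyC : y ∉ C := fun h => hy (Or.inl h)
    rw [h3 hyC, h4 hyC, h5 hyC]
    simp

end PP
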