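import Pool.Agent.PP.DER

open Set Metric Filter Topology MeasureTheory
open scoped ContDiff Manifold

noncomputable section

namespace PP

variable {n : ℕ}
variable {p : ℝ}

theorem exists_smooth_approx {Θ : Set (X n)} (hb : Bornology.IsBounded Θ) {f : X n → ℝ}
    (hf : ContinuousOn f (frontier Θ)) {δ : ℝ} (hδ : 0 < δ) :
    ∃ F, Tst univ F ∧ ∀ ξ ∈ frontier Θ, |F ξ - f ξ| ≤ δ := by
  obtain ⟨g, hg⟩ := ContinuousMap.exists_restrict_eq (isClosed_frontier (s := Θ))
    (⟨_, hf.restrict⟩ : C(frontier Θ, ℝ))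
  have hgf : ∀ ξ ∈ frontier Θ, g ξ = f ξ := by
    intro ξ hξ
    have := DFunLike.congr_fun hg ⟨ξ, hξ⟩
    simpa using this
  obtain ⟨G, hG⟩ := exists_contMDiffMap_forall_mem_convex_of_local_const (n := ⊤) 𝓘(ℝ, X n)
    (t := fun x => ball (g x) δ) (fun x => convex_ball _ _) (by
      intro x
      refine ⟨g x, ?_⟩
      have h1 : ∀ᶠ y in 𝓝 x, dist (g y) (g x) < δ :=
        (g.continuous.tendsto x).eventually (ball_mem_nhds _ hδ)
      filter_upwards [h1] with y hy
      rw [mem_ball, dist_comm]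
      exact hy)
  have hcpt : IsCompact (frontier Θ) := by
    apply Metric.isCompact_of_isClosed_isBounded isClosed_frontier
    exact hb.closure.subset frontier_subset_closure
  obtain ⟨χ, h1, h2, h3⟩ := exists_cutoff hcpt isOpen_univ (Set.subset_univ _)
  refine ⟨fun z => χ z * G z, ⟨?_, ?_, Set.subset_univ _⟩, ?_⟩
  · exact h1.smooth.mul G.contMDiff.contDiff
  · exact h1.cpt.mul_right
  · intro ξ hξ
    have h4 : χ ξ = 1 := h3.self_of_nhdsSet ξ hξ
    have h5 := hG ξ
    show |χ ξ * G ξ - f ξ| ≤ δ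
    rw [h4, one_mul, ← hgf ξ hξ, ← Real.dist_eq]
    exact (mem_ball.1 h5).le

end PP
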