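import Pool.Agent.PP.DER
import Pool.Agent.PP.CAL2
import Pool.Agent.PP.POI
import Pool.Agent.PP.LPS

open Set Metric Filter Topology MeasureTheory
open scoped ContDiff

noncomputable section

namespace PP

variable {n : ℕ}
variable {p : ℝ}

theorem nic2_dt_neg (F : X n → ℝ) (z : X n) : dt (fun z => - F z) z = - dt F z := by
  unfold dt
  exact deriv.fun_neg

theorem nic2_dx_neg (F : X n → ℝ) (z : X n) : dx (fun z => - F z) z = - dx F z := by
  unfold dx gradient
  rw [fderiv_fun_neg, map_neg]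

theorem nic2_A_neg (p : ℝ) (ξ : E n) : A p (-ξ) = - A p ξ := by
  unfold A
  rw [norm_neg, smul_neg]

theorem nice_neg {Θ : Set (X n)} {F e : X n → ℝ} (h : Nice p Θ F e) :
    Nice p Θ (fun z => - F z) e := by
  refine ⟨⟨h.tst.smooth.neg, h.tst.cpt.neg, subset_univ _⟩, h.int, h.nonneg, ?_⟩
  intro ε h0 h1 C hC hCΘ φ φt Φ hφ hpos
  have hb := h.bound ε h0 h1 C hC hCΘ φ φt Φ hφ hpos
  rw [← abs_neg, ← integral_neg] at hb
  refine le_trans (le_of_eq ?_) hb
  congr 1
  refine integral_congr_ae (Eventually.of_forall fun y => ?_)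
  simp only [nic2_dt_neg, nic2_dx_neg, nic2_A_neg, inner_neg_left]
  ring

/-- the regularised weight -/
def nic2G (p δ : ℝ) (F : X n → ℝ) (z : X n) : ℝ := (‖dx F z‖ ^ 2 + δ) ^ ((p - 2) / 2)

theorem nic2_base_pos {δ : ℝ} (hδ : 0 < δ) (F : X n → ℝ) (z : X n) : 0 < ‖dx F z‖ ^ 2 + δ := by
  positivity

theorem nic2_comp_contDiff {F : X n → ℝ} (hF : Tst univ F) {δ : ℝ} (hδ : 0 < δ) (v : E n) :
    ContDiff ℝ ∞ (fun z => nic2G p δ F z * inner ℝ (dx F z) v) := by
  have h1 := contDiff_dx hF.smooth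
  unfold nic2G
  refine ContDiff.mul ?_ (h1.inner ℝ contDiff_const)
  refine ContDiff.rpow_const_of_ne ?_ ?_
  · exact (h1.norm_sq ℝ).add contDiff_const
  · exact fun z => (nic2_base_pos hδ F z).ne'

theorem nic2_comp_tst {F : X n → ℝ} (hF : Tst univ F) {δ : ℝ} (hδ : 0 < δ) (v : E n) :
    Tst univ (fun z => nic2G p δ F z * inner ℝ (dx F z) v) := by
  refine ⟨nic2_comp_contDiff hF hδ v, ?_, subset_univ _⟩
  refine HasCompactSupport.intro hF.cpt fun z hz => ?_
  rw [dx_zero_of_notMem z hz, inner_zero_left, mul_zero]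

/-- derivative bound -/
theorem nic2_deriv_bound {F : X n → ℝ} (hF : Tst univ F) {δ : ℝ} (hδ : 0 < δ) (v : E n)
    (hv : ‖v‖ ≤ 1) (w : X n) (hw : ‖w‖ ≤ 1) (z : X n) :
    |fderiv ℝ (fun z => nic2G p δ F z * inner ℝ (dx F z) v) z w| ≤
      (1 + |p - 2|) * nic2G p δ F z * ‖fderiv ℝ (dx F) z‖ := by
  set ξ := dx F z with hξ
  have hd : HasFDerivAt (dx F) (fderiv ℝ (dx F) z) z :=
    ((contDiff_dx hF.smooth).differentiable (by simp)).differentiableAt.hasFDerivAt
  have hb := nic2_base_pos hδ F z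
  have h1 : HasFDerivAt (fun y => ‖dx F y‖ ^ 2) (2 • (innerSL ℝ (dx F z)).comp (fderiv ℝ (dx F) z)) z :=
    hd.norm_sq
  have h2 := (h1.add_const δ).rpow_const (p := (p - 2) / 2) (Or.inl hb.ne')
  have h3 : HasFDerivAt (fun y => inner ℝ (dx F y) v)
      ((innerSL ℝ v).comp (fderiv ℝ (dx F) z)) z := by
    have := ((innerSL ℝ v).hasFDerivAt (x := dx F z)).comp z hd
    refine this.congr_of_eventuallyEq (Eventually.of_forall fun y => ?_)
    simp only [Function.comp, innerSL_apply_apply]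
    exact real_inner_comm _ _
  have h4 := h2.mul h3
  have h5 : fderiv ℝ (fun z => nic2G p δ F z * inner ℝ (dx F z) v) z = _ := h4.fderiv
  rw [h5]
  set η := fderiv ℝ (dx F) z w with hη
  have hηn : ‖η‖ ≤ ‖fderiv ℝ (dx F) z‖ := by
    refine (ContinuousLinearMap.le_opNorm _ _).trans ?_
    exact mul_le_of_le_one_right (norm_nonneg _) hw
  have hval : ((((‖dx F z‖ ^ 2 + δ) ^ ((p - 2) / 2)) • (innerSL ℝ v).comp (fderiv ℝ (dx F) z) +
      (inner ℝ (dx F z) v) • (((p - 2) / 2 * (‖dx F z‖ ^ 2 + δ) ^ ((p - 2) / 2 - 1)) •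
        (2 • (innerSL ℝ (dx F z)).comp (fderiv ℝ (dx F) z)))) : X n →L[ℝ] ℝ) w =
      (‖ξ‖ ^ 2 + δ) ^ ((p - 2) / 2) * inner ℝ v η +
      inner ℝ ξ v * ((p - 2) / 2 * (‖ξ‖ ^ 2 + δ) ^ ((p - 2) / 2 - 1) * (2 * inner ℝ ξ η)) := by
    simp [hη, hξ]
  rw [hval]
  have hbξ : 0 < ‖ξ‖ ^ 2 + δ := hb
  have hg : nic2G p δ F z = (‖ξ‖ ^ 2 + δ) ^ ((p - 2) / 2) := rfl
  rw [hg]
  have hG0 : 0 ≤ (‖ξ‖ ^ 2 + δ) ^ ((p - 2) / 2) := Real.rpow_nonneg hbξ.le _
  have hG1 : 0 ≤ (‖ξ‖ ^ 2 + δ) ^ ((p - 2) / 2 - 1) := Real.rpow_nonneg hbξ.le _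
  have e1 : |inner ℝ v η| ≤ ‖η‖ := (abs_real_inner_le_norm v η).trans
    (mul_le_of_le_one_left (norm_nonneg _) hv)
  have e2 : |inner ℝ ξ v| ≤ ‖ξ‖ := (abs_real_inner_le_norm ξ v).trans
    (mul_le_of_le_one_right (norm_nonneg _) hv)
  have e3 : |inner ℝ ξ η| ≤ ‖ξ‖ * ‖η‖ := abs_real_inner_le_norm ξ η
  have e4 : (‖ξ‖ ^ 2 + δ) ^ ((p - 2) / 2 - 1) * ‖ξ‖ ^ 2 ≤ (‖ξ‖ ^ 2 + δ) ^ ((p - 2) / 2) := by
    calc (‖ξ‖ ^ 2 + δ) ^ ((p - 2) / 2 - 1) * ‖ξ‖ ^ 2
        ≤ (‖ξ‖ ^ 2 + δ) ^ ((p - 2) / 2 - 1) * (‖ξ‖ ^ 2 + δ) :=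
          mul_le_mul_of_nonneg_left (by linarith) hG1
      _ = (‖ξ‖ ^ 2 + δ) ^ ((p - 2) / 2) := by
          rw [Real.rpow_sub_one hbξ.ne']
          field_simp
  have t1 : |(‖ξ‖ ^ 2 + δ) ^ ((p - 2) / 2) * inner ℝ v η| ≤
      (‖ξ‖ ^ 2 + δ) ^ ((p - 2) / 2) * ‖η‖ := by
    rw [abs_mul, abs_of_nonneg hG0]
    exact mul_le_mul_of_nonneg_left e1 hG0
  have t2 : |inner ℝ ξ v * ((p - 2) / 2 * (‖ξ‖ ^ 2 + δ) ^ ((p - 2) / 2 - 1) * (2 * inner ℝ ξ η))| ≤
      |p - 2| * (‖ξ‖ ^ 2 + δ) ^ ((p - 2) / 2) * ‖η‖ := by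
    have : inner ℝ ξ v * ((p - 2) / 2 * (‖ξ‖ ^ 2 + δ) ^ ((p - 2) / 2 - 1) * (2 * inner ℝ ξ η)) =
        (p - 2) * ((‖ξ‖ ^ 2 + δ) ^ ((p - 2) / 2 - 1) * (inner ℝ ξ v * inner ℝ ξ η)) := by ring
    rw [this, abs_mul, abs_mul, abs_of_nonneg hG1, abs_mul, mul_assoc]
    refine mul_le_mul_of_nonneg_left ?_ (abs_nonneg _)
    calc (‖ξ‖ ^ 2 + δ) ^ ((p - 2) / 2 - 1) * (|inner ℝ ξ v| * |inner ℝ ξ η|)
        ≤ (‖ξ‖ ^ 2 + δ) ^ ((p - 2) / 2 - 1) * (‖ξ‖ * (‖ξ‖ * ‖η‖)) := by
          refine mul_le_mul_of_nonneg_left ?_ hG1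
          exact mul_le_mul e2 e3 (abs_nonneg _) (norm_nonneg _)
      _ = ((‖ξ‖ ^ 2 + δ) ^ ((p - 2) / 2 - 1) * ‖ξ‖ ^ 2) * ‖η‖ := by ring
      _ ≤ (‖ξ‖ ^ 2 + δ) ^ ((p - 2) / 2) * ‖η‖ :=
          mul_le_mul_of_nonneg_right e4 (norm_nonneg _)
  calc _ ≤ _ := abs_add_le _ _
    _ ≤ (‖ξ‖ ^ 2 + δ) ^ ((p - 2) / 2) * ‖η‖ + |p - 2| * (‖ξ‖ ^ 2 + δ) ^ ((p - 2) / 2) * ‖η‖ :=
        add_le_add t1 t2
    _ = (1 + |p - 2|) * (‖ξ‖ ^ 2 + δ) ^ ((p - 2) / 2) * ‖η‖ := by ring
    _ ≤ _ := by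
        refine mul_le_mul_of_nonneg_left hηn ?_
        positivity

/-- compactly supported continuous scalar times an `L^q` function is integrable -/
theorem nic2_int_smul {g : X n → ℝ} (hg : Continuous g) (hs : HasCompactSupport g)
    {Φ : X n → E n} {q : ENNReal} (hq : 1 ≤ q) (hΦ : MemLp Φ q volume) :
    Integrable (fun z => g z • Φ z) volume := by
  have h1 : LocallyIntegrable Φ volume := hΦ.locallyIntegrable hq
  exact h1.integrable_smul_left_of_hasCompactSupport hg hs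

theorem nic2_one_le (hp : 1 < p) : (1 : ENNReal) ≤ ENNReal.ofReal p := by
  rw [← ENNReal.ofReal_one]
  exact ENNReal.ofReal_le_ofReal hp.le

/-- the bound for one regularised flux -/
theorem nic2_flux_bound (hp : 1 < p) {F : X n → ℝ} (hF : Tst univ F) {L : ℝ}
    (hL : ∀ z, ‖fderiv ℝ (dx F) z‖ ≤ L) {δ : ℝ} (hδ : 0 < δ) {C : Set (X n)}
    {φ : X n → ℝ} {Φ : X n → E n} (h : W0 p C φ Φ) (hpos : ∀ᵐ z, 0 ≤ φ z)
    {B : X n → ℝ} (hB : ∀ᵐ z, φ z * nic2G p δ F z ≤ φ z * B z)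
    (hBi : Integrable (fun z => φ z * B z) volume) :
    |∫ z, nic2G p δ F z * inner ℝ (dx F z) (Φ z)| ≤
      ∫ z, ((n : ℝ) * ((1 + |p - 2|) * L)) * (φ z * B z) := by
  have hL0 : 0 ≤ L := (norm_nonneg _).trans (hL 0)
  set b := EuclideanSpace.basisFun (Fin n) ℝ with hb
  -- components
  have hcomp : ∀ z, nic2G p δ F z * inner ℝ (dx F z) (Φ z) =
      ∑ i, inner ℝ (b i) ((nic2G p δ F z * inner ℝ (dx F z) (b i)) • Φ z) := by
    intro z
    rw [← b.sum_inner_mul_inner (dx F z) (Φ z), Finset.mul_sum]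
    refine Finset.sum_congr rfl fun i _ => ?_
    rw [real_inner_smul_right]
    ring
  have hint : ∀ i, Integrable (fun z => (nic2G p δ F z * inner ℝ (dx F z) (b i)) • Φ z) volume :=
    fun i => nic2_int_smul (nic2_comp_contDiff hF hδ (b i)).continuous
      (nic2_comp_tst hF hδ (b i)).cpt (nic2_one_le hp) h.mem
  simp_rw [hcomp]
  rw [integral_finsetSum _ (fun i _ => (hint i).const_inner (b i))]
  have hi : ∀ i, |∫ z, inner ℝ (b i) ((nic2G p δ F z * inner ℝ (dx F z) (b i)) • Φ z)| ≤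
      ∫ z, ((1 + |p - 2|) * L) * (φ z * B z) := by
    intro i
    rw [integral_inner (hint i)]
    have hw := h.wg _ (nic2_comp_tst (p := p) hF hδ (b i))
    have hw' : ∫ z, (nic2G p δ F z * inner ℝ (dx F z) (b i)) • Φ z =
        - ∫ z, φ z • dx (fun z => nic2G p δ F z * inner ℝ (dx F z) (b i)) z := by
      rw [hw, neg_neg]
    rw [hw', inner_neg_right, abs_neg]
    have hsm := nic2_comp_contDiff (p := p) hF hδ (b i)
    have hdc : Continuous (dx (fun z => nic2G p δ F z * inner ℝ (dx F z) (b i))) :=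
      (contDiff_dx hsm).continuous
    by_cases hI : Integrable (fun z => φ z •
        dx (fun z => nic2G p δ F z * inner ℝ (dx F z) (b i)) z) volume
    · rw [← integral_inner hI, ← Real.norm_eq_abs]
      refine (norm_integral_le_integral_norm _).trans ?_
      refine integral_mono_ae (hI.const_inner (b i)).norm (hBi.const_mul _) ?_
      filter_upwards [hpos, hB] with z h0 h1
      rw [real_inner_smul_right, real_inner_comm, dx_eq hsm, Real.norm_eq_abs, abs_mul,
        abs_of_nonneg h0]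
      have h2 := nic2_deriv_bound (p := p) hF hδ (b i) (by simp [hb]) ((b i : E n), (0 : ℝ))
        (by simp [hb, Prod.norm_def]) z
      have hG0 : 0 ≤ nic2G p δ F z := Real.rpow_nonneg (nic2_base_pos hδ F z).le _
      calc φ z * |fderiv ℝ (fun z => nic2G p δ F z * inner ℝ (dx F z) (b i)) z ((b i : E n), (0 : ℝ))|
          ≤ φ z * ((1 + |p - 2|) * nic2G p δ F z * L) := by
            refine mul_le_mul_of_nonneg_left (h2.trans ?_) h0
            exact mul_le_mul_of_nonneg_left (hL z) (by positivity)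
        _ = ((1 + |p - 2|) * L) * (φ z * nic2G p δ F z) := by ring
        _ ≤ ((1 + |p - 2|) * L) * (φ z * B z) :=
            mul_le_mul_of_nonneg_left h1 (by positivity)
    · rw [integral_undef hI, inner_zero_right, abs_zero]
      refine integral_nonneg_of_ae ?_
      filter_upwards [hpos, hB] with z h0 h1
      have hG0 : 0 ≤ nic2G p δ F z := Real.rpow_nonneg (nic2_base_pos hδ F z).le _
      have h2 : 0 ≤ φ z * B z := (mul_nonneg h0 hG0).trans h1
      have h3 : 0 ≤ (1 + |p - 2|) * L := by positivity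
      exact mul_nonneg h3 h2
  refine (Finset.abs_sum_le_sum_abs _ _).trans ?_
  refine (Finset.sum_le_sum fun i _ => hi i).trans ?_
  rw [Finset.sum_const, Finset.card_univ, Fintype.card_fin, nsmul_eq_mul,
    ← integral_const_mul]
  refine le_of_eq (integral_congr_ae (Eventually.of_forall fun z => ?_))
  simp only
  ring

/-- convergence of the regularised fluxes -/
theorem nic2_flux_tendsto (hp : 1 < p) {F : X n → ℝ} (hF : Tst univ F)
    {Φ : X n → E n} (hΦ : MemLp Φ (ENNReal.ofReal p) volume) :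
    Tendsto (fun k : ℕ => ∫ z, nic2G p (1 / ((k : ℝ) + 1)) F z * inner ℝ (dx F z) (Φ z)) atTop
      (𝓝 (∫ z, inner ℝ (A p (dx F z)) (Φ z))) := by
  have hdx := contDiff_dx hF.smooth
  have hcs : HasCompactSupport (dx F) :=
    HasCompactSupport.intro hF.cpt fun z hz => dx_zero_of_notMem z hz
  obtain ⟨L, hL⟩ := hcs.exists_bound_of_continuous hdx.continuous
  obtain ⟨χ, hχ, hχ01, hχ1⟩ := exists_cutoff hF.cpt isOpen_univ (subset_univ (tsupport F))
  have hχK : ∀ z ∈ tsupport F, χ z = 1 := fun z hz => hχ1.self_of_nhdsSet z hz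
  set c : ℝ := (L ^ 2 + 1) ^ ((p - 1) / 2) with hc
  have hc0 : 0 ≤ c := Real.rpow_nonneg (by positivity) _
  refine tendsto_integral_of_dominated_convergence (fun z => c * ‖χ z • Φ z‖) ?_ ?_ ?_ ?_
  · intro k
    have h1 : Continuous (fun z => nic2G p (1 / ((k : ℝ) + 1)) F z) := by
      unfold nic2G
      refine Continuous.rpow_const (by fun_prop) fun z => Or.inl ?_
      exact (nic2_base_pos (by positivity) F z).ne'
    exact h1.aestronglyMeasurable.mul
      (hdx.continuous.aestronglyMeasurable.inner hΦ.aestronglyMeasurable)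
  · exact (nic2_int_smul hχ.smooth.continuous hχ.cpt (nic2_one_le hp) hΦ).norm.const_mul c
  · intro k
    refine Eventually.of_forall fun z => ?_
    set δ : ℝ := 1 / ((k : ℝ) + 1) with hδd
    have hδ : 0 < δ := by positivity
    have hδ1 : δ ≤ 1 := by
      rw [hδd, div_le_one (by positivity)]
      linarith [(Nat.cast_nonneg k : (0 : ℝ) ≤ k)]
    by_cases hz : z ∈ tsupport F
    · rw [hχK z hz, one_smul, norm_mul, Real.norm_eq_abs, Real.norm_eq_abs]
      have hb := nic2_base_pos hδ F z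
      have hG0 : 0 ≤ nic2G p δ F z := Real.rpow_nonneg hb.le _
      rw [abs_of_nonneg hG0]
      have h1 : |inner ℝ (dx F z) (Φ z)| ≤ ‖dx F z‖ * ‖Φ z‖ := abs_real_inner_le_norm _ _
      have h2 : ‖dx F z‖ ≤ (‖dx F z‖ ^ 2 + δ) ^ ((1 : ℝ) / 2) := by
        rw [← Real.sqrt_eq_rpow]
        refine Real.le_sqrt_of_sq_le ?_
        linarith
      have h3 : nic2G p δ F z * (‖dx F z‖ ^ 2 + δ) ^ ((1 : ℝ) / 2) =
          (‖dx F z‖ ^ 2 + δ) ^ ((p - 1) / 2) := by
        unfold nic2G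
        rw [← Real.rpow_add hb]
        congr 1
        ring
      have h4 : (‖dx F z‖ ^ 2 + δ) ^ ((p - 1) / 2) ≤ c := by
        refine Real.rpow_le_rpow hb.le ?_ (by linarith)
        have := hL z
        have h0 := norm_nonneg (dx F z)
        nlinarith
      calc nic2G p δ F z * |inner ℝ (dx F z) (Φ z)|
          ≤ nic2G p δ F z * (‖dx F z‖ * ‖Φ z‖) := mul_le_mul_of_nonneg_left h1 hG0
        _ = (nic2G p δ F z * ‖dx F z‖) * ‖Φ z‖ := by ring
        _ ≤ (nic2G p δ F z * (‖dx F z‖ ^ 2 + δ) ^ ((1 : ℝ) / 2)) * ‖Φ z‖ :=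
            mul_le_mul_of_nonneg_right (mul_le_mul_of_nonneg_left h2 hG0) (norm_nonneg _)
        _ ≤ c * ‖Φ z‖ := by
            rw [h3]
            exact mul_le_mul_of_nonneg_right h4 (norm_nonneg _)
    · rw [dx_zero_of_notMem z hz, inner_zero_left, mul_zero, norm_zero]
      positivity
  · refine Eventually.of_forall fun z => ?_
    by_cases hz : dx F z = 0
    · simp [hz, A]
    · have hpos : 0 < ‖dx F z‖ := norm_pos_iff.mpr hz
      have e1 : inner ℝ (A p (dx F z)) (Φ z) = (‖dx F z‖ ^ 2 + 0) ^ ((p - 2) / 2) *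
          inner ℝ (dx F z) (Φ z) := by
        unfold A
        rw [real_inner_smul_left, add_zero, ← Real.rpow_natCast, ← Real.rpow_mul hpos.le]
        congr 2
        push_cast
        ring
      rw [e1]
      refine Tendsto.mul_const _ ?_
      unfold nic2G
      have h1 : Tendsto (fun k : ℕ => ‖dx F z‖ ^ 2 + 1 / ((k : ℝ) + 1)) atTop
          (𝓝 (‖dx F z‖ ^ 2 + 0)) :=
        tendsto_const_nhds.add tendsto_one_div_add_atTop_nhds_zero_nat
      exact h1.rpow_const (Or.inl (by positivity))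


/-- the core statement: a bound for the regularised weights gives a good error term -/
theorem nic2_core (hp : 1 < p) {Θ : Set (X n)} (hΘ : IsOpen Θ) (hb : Bornology.IsBounded Θ)
    {F : X n → ℝ} (hF : Tst univ F) {B : X n → ℝ} (hB0 : ∀ z, 0 ≤ B z)
    (hBi : IntegrableOn B Θ volume)
    (hB : ∀ δ : ℝ, 0 < δ → δ ≤ 1 → ∀ᵐ z ∂(volume.restrict Θ), nic2G p δ F z ≤ B z) :
    ∃ e, Nice p Θ F e := by
  have hdx := contDiff_dx hF.smooth
  have hdt := contDiff_dt hF.smooth
  have hcs : HasCompactSupport (dx F) :=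
    HasCompactSupport.intro hF.cpt fun z hz => dx_zero_of_notMem z hz
  have hcst : HasCompactSupport (dt F) :=
    HasCompactSupport.intro hF.cpt fun z hz => dt_zero_of_notMem z hz
  have hFt : Tst univ (dt F) := ⟨hdt, hcst, subset_univ _⟩
  have hdtt := contDiff_dt hdt
  have hcstt : HasCompactSupport (dt (dt F)) :=
    HasCompactSupport.intro hcst fun z hz => dt_zero_of_notMem z hz
  obtain ⟨L, hL⟩ := (hcs.fderiv (𝕜 := ℝ)).exists_bound_of_continuous
    (hdx.continuous_fderiv (by simp))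
  have hL0 : 0 ≤ L := (norm_nonneg _).trans (hL 0)
  set c : ℝ := (n : ℝ) * ((1 + |p - 2|) * L) with hc
  have hc0 : 0 ≤ c := by positivity
  set e : X n → ℝ := Θ.indicator (fun z => |dt (dt F) z| + |dt F z| + c * B z) with he
  have hΘm : MeasurableSet Θ := hΘ.measurableSet
  have i1 : Integrable (fun z => |dt (dt F) z|) volume :=
    (hdtt.continuous.integrable_of_hasCompactSupport hcstt).abs
  have i2 : Integrable (fun z => |dt F z|) volume :=
    (hdt.continuous.integrable_of_hasCompactSupport hcst).abs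
  have hei : Integrable e volume := by
    rw [he, integrable_indicator_iff hΘm]
    exact (i1.integrableOn.add i2.integrableOn).add (hBi.const_mul c)
  have hBi' : Integrable (Θ.indicator B) volume := (integrable_indicator_iff hΘm).mpr hBi
  refine ⟨e, hF, hei, ?_, ?_⟩
  · intro z
    refine indicator_nonneg (fun z _ => ?_) z
    have := hB0 z
    positivity
  intro ε h0 h1 C hC hCΘ φ φt Φ hφ hpos
  obtain ⟨M, hM⟩ := hφ.bdd
  have hzero := hφ.zero
  -- integrability against φ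
  have mulφ : ∀ {g : X n → ℝ}, Integrable g volume → Integrable (fun z => φ z * g z) volume := by
    intro g hg
    exact hg.bdd_mul hφ.meas (hM.mono fun z hz => by simpa using hz)
  have iB : Integrable (fun z => φ z * Θ.indicator B z) volume := mulφ hBi'
  have j1 := mulφ i1
  have j2 := mulφ i2
  -- first term
  have hT1 : |∫ y, dt F y * φt y| ≤ ∫ y, φ y * |dt (dt F) y| := by
    have := hφ.wt (dt F) hFt
    have h2 : ∫ z, dt F z * φt z = - ∫ z, φ z * dt (dt F) z := by rw [this, neg_neg]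
    rw [h2, abs_neg, ← Real.norm_eq_abs]
    refine (norm_integral_le_integral_norm _).trans (le_of_eq ?_)
    refine integral_congr_ae ?_
    filter_upwards [hpos] with z hz
    rw [norm_mul, Real.norm_eq_abs, Real.norm_eq_abs, abs_of_nonneg hz]
  have hT2 : |∫ y, dt F y * φ y| ≤ ∫ y, φ y * |dt F y| := by
    rw [← Real.norm_eq_abs]
    refine (norm_integral_le_integral_norm _).trans (le_of_eq ?_)
    refine integral_congr_ae ?_
    filter_upwards [hpos] with z hz
    rw [norm_mul, Real.norm_eq_abs, Real.norm_eq_abs, abs_of_nonneg hz, mul_comm]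
  have hT3 : |∫ y, inner ℝ (A p (dx F y)) (Φ y)| ≤ ∫ y, c * (φ y * Θ.indicator B y) := by
    have ht := (nic2_flux_tendsto hp hF hφ.mem).abs
    refine le_of_tendsto ht (Eventually.of_forall fun k => ?_)
    have hk : (0 : ℝ) < 1 / ((k : ℝ) + 1) := by positivity
    have hk1 : 1 / ((k : ℝ) + 1) ≤ 1 := by
      rw [div_le_one (by positivity)]
      linarith [(Nat.cast_nonneg k : (0 : ℝ) ≤ k)]
    refine nic2_flux_bound hp hF hL hk hφ.toW0 hpos ?_ iB
    have h3 := hB _ hk hk1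
    rw [ae_restrict_iff' hΘm] at h3
    filter_upwards [h3, hzero, hpos] with z h4 h5 h6
    by_cases hz : z ∈ Θ
    · rw [indicator_of_mem hz]
      exact mul_le_mul_of_nonneg_left (h4 hz) h6
    · rw [h5 (fun hzC => hz (hCΘ hzC))]
      simp
  -- integrability of the three terms
  have k1 : Integrable (fun y => ε * (dt F y * φt y)) volume := by
    refine Integrable.const_mul ?_ ε
    exact MemLp.integrable_mul (p := 2) (q := 2)
      (hdt.continuous.memLp_of_hasCompactSupport hcst) hφ.memt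
  have k2 : Integrable (fun y => dt F y * φ y) volume := by
    refine (mulφ (hdt.continuous.integrable_of_hasCompactSupport hcst)).congr ?_
    exact Eventually.of_forall fun z => mul_comm _ _
  have k3 : Integrable (fun y => inner ℝ (A p (dx F y)) (Φ y)) volume :=
    (holder_inner hp (memLp_flux hp (hdx.continuous.memLp_of_hasCompactSupport hcs)) hφ.mem).1
  have hsplit : ∫ y, (ε * (dt F y * φt y) + dt F y * φ y + inner ℝ (A p (dx F y)) (Φ y)) =
      ε * (∫ y, dt F y * φt y) + (∫ y, dt F y * φ y) + ∫ y, inner ℝ (A p (dx F y)) (Φ y) := by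
    have k12 : Integrable (fun y => ε * (dt F y * φt y) + dt F y * φ y) volume := k1.add k2
    rw [integral_add k12 k3, integral_add k1 k2, integral_const_mul]
  rw [hsplit]
  have hfin : ∫ y, e y * φ y = (∫ y, φ y * |dt (dt F) y|) + (∫ y, φ y * |dt F y|) +
      ∫ y, c * (φ y * Θ.indicator B y) := by
    have j12 : Integrable (fun z => φ z * |dt (dt F) z| + φ z * |dt F z|) volume := j1.add j2
    rw [← integral_add j1 j2, ← integral_add j12 (iB.const_mul c)]
    refine integral_congr_ae ?_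
    filter_upwards [hzero] with z h5
    by_cases hz : z ∈ Θ
    · rw [he, indicator_of_mem hz, indicator_of_mem hz]
      ring
    · rw [h5 (fun hzC => hz (hCΘ hzC))]
      simp
  rw [hfin]
  have hε : |ε * ∫ y, dt F y * φt y| ≤ ∫ y, φ y * |dt (dt F) y| := by
    rw [abs_mul, abs_of_nonneg h0]
    exact (mul_le_of_le_one_left (abs_nonneg _) h1).trans hT1
  calc _ ≤ |ε * (∫ y, dt F y * φt y) + (∫ y, dt F y * φ y)| +
        |∫ y, inner ℝ (A p (dx F y)) (Φ y)| := abs_add_le _ _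
    _ ≤ (|ε * (∫ y, dt F y * φt y)| + |∫ y, dt F y * φ y|) +
        |∫ y, inner ℝ (A p (dx F y)) (Φ y)| := by
        gcongr
        exact abs_add_le _ _
    _ ≤ _ := add_le_add (add_le_add hε hT2) hT3

theorem nice_of_int (hp : 1 < p) {Θ : Set (X n)} (hΘ : IsOpen Θ) (hb : Bornology.IsBounded Θ)
    {F : X n → ℝ} (hF : Tst univ F)
    (h : 2 ≤ p ∨ (IntegrableOn (fun z => ‖dx F z‖ ^ (p - 2)) Θ volume ∧
      ∀ᵐ z ∂(volume.restrict Θ), dx F z ≠ 0)) : ∃ e, Nice p Θ F e := by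
  by_cases h2 : 2 ≤ p
  · have hdx := contDiff_dx hF.smooth
    have hcs : HasCompactSupport (dx F) :=
      HasCompactSupport.intro hF.cpt fun z hz => dx_zero_of_notMem z hz
    obtain ⟨L, hL⟩ := hcs.exists_bound_of_continuous hdx.continuous
    refine nic2_core hp hΘ hb hF (B := fun _ => (L ^ 2 + 1) ^ ((p - 2) / 2)) ?_ ?_ ?_
    · intro z
      exact Real.rpow_nonneg (by positivity) _
    · exact integrableOn_const (hb.measure_lt_top).ne
    · intro δ h3 h4
      refine Eventually.of_forall fun z => ?_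
      refine Real.rpow_le_rpow (nic2_base_pos h3 F z).le ?_ (by linarith)
      have := hL z
      have h0 := norm_nonneg (dx F z)
      nlinarith
  · rcases h with h | ⟨hi, hne⟩
    · exact absurd h h2
    have hp2 : p < 2 := not_le.mp h2
    refine nic2_core hp hΘ hb hF (B := fun z => ‖dx F z‖ ^ (p - 2)) ?_ hi ?_
    · intro z
      exact Real.rpow_nonneg (norm_nonneg _) _
    · intro δ h3 h4
      filter_upwards [hne] with z hz
      have hpos : 0 < ‖dx F z‖ := norm_pos_iff.mpr hz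
      have e1 : ‖dx F z‖ ^ (p - 2) = (‖dx F z‖ ^ 2) ^ ((p - 2) / 2) := by
        rw [← Real.rpow_natCast, ← Real.rpow_mul hpos.le]
        congr 1
        push_cast
        ring
      rw [e1]
      exact Real.rpow_le_rpow_of_nonpos (by positivity) (by linarith) (by linarith)

end PP
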