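import Pool.Agent.PP.DER

open Set Metric Filter Topology MeasureTheory
open scoped ContDiff

noncomputable section

namespace PP

variable {n : ℕ}
variable {p : ℝ}

theorem nic3_pow {u a : ℝ} (hu : u ≠ 0) : (ENNReal.ofReal |u|) ^ a = ‖|u| ^ a‖ₑ := by
  have h1 : 0 < |u| := abs_pos.2 hu
  rw [ENNReal.ofReal_rpow_of_pos h1, Real.enorm_eq_ofReal (Real.rpow_nonneg h1.le _)]

theorem nic3_fin {a : ℝ} (ha : -1 < a) (R : ℝ) :
    ∫⁻ u, (ball (0 : ℝ) R).indicator (fun u => (ENNReal.ofReal |u|) ^ a) u ≠ ⊤ := by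
  rw [lintegral_indicator measurableSet_ball]
  have h1 : ∀ᵐ u ∂(volume.restrict (ball (0 : ℝ) R)), (ENNReal.ofReal |u|) ^ a = ‖|u| ^ a‖ₑ := by
    apply ae_restrict_of_ae
    have h0 : ∀ᵐ u : ℝ, u ≠ 0 := by
      rw [ae_iff]
      simp
    filter_upwards [h0] with u hu using nic3_pow hu
  rw [lintegral_congr_ae h1]
  have h2 : IntegrableOn (fun u : ℝ => |u| ^ a) (ball (0 : ℝ) R) volume := by
    refine integrableOn_ball_of_norm_le_rpow (C := 1) (α := -a) ?_ ?_ ?_ ?_
    · simp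
    · simp; linarith
    · refine Eventually.of_forall fun u => ?_
      rw [neg_neg, one_mul, Real.norm_eq_abs, Real.norm_eq_abs,
        abs_of_nonneg (Real.rpow_nonneg (abs_nonneg u) a)]
    · exact (measurable_id.abs.pow_const a).aestronglyMeasurable
  exact h2.2.ne

theorem nic3_gen {α : Type*} [MeasurableSpace α] (μ : Measure α) [IsFiniteMeasure μ] (g : α → ℝ)
    (hg : Measurable g) (B : ℝ) (hB : ∀ z, |g z| ≤ B) {a : ℝ} (ha : -1 < a) (ha0 : a < 0) {δ : ℝ}
    (hδ : 0 < δ) : ∃ c : ℝ, 0 < c ∧ c < δ ∧ Integrable (fun z => |g z + c| ^ a) μ ∧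
      ∀ᵐ z ∂μ, g z + c ≠ 0 := by
  set R : ℝ := B + δ + 1 with hR
  set k : ℝ → ENNReal := (ball (0 : ℝ) R).indicator (fun u => (ENNReal.ofReal |u|) ^ a) with hk
  have hkm : Measurable k := by
    rw [hk]
    exact ((measurable_id.abs.ennreal_ofReal).pow_const a).indicator measurableSet_ball
  have hkf : ∫⁻ u, k u ≠ ⊤ := nic3_fin ha R
  have hjm : Measurable (fun q : ℝ × α => k (g q.2 + q.1)) :=
    hkm.comp ((hg.comp measurable_snd).add measurable_fst)
  have hΦ : ∫⁻ c : ℝ, ∫⁻ z, k (g z + c) ∂μ ≠ ⊤ := by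
    rw [lintegral_lintegral_swap (f := fun (c : ℝ) (z : α) => k (g z + c)) hjm.aemeasurable]
    have h1 : ∀ z, ∫⁻ c : ℝ, k (g z + c) = ∫⁻ u, k u := fun z =>
      lintegral_add_left_eq_self k (g z)
    simp only [h1]
    rw [lintegral_const]
    exact ENNReal.mul_ne_top hkf (measure_ne_top μ _)
  have hΦm : Measurable (fun c : ℝ => ∫⁻ z, k (g z + c) ∂μ) := hjm.lintegral_prod_right'
  have hae := ae_lt_top hΦm hΦ
  obtain ⟨c, hc, hcf⟩ : ∃ c ∈ Ioo (0 : ℝ) δ, ∫⁻ z, k (g z + c) ∂μ < ⊤ := by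
    by_contra hcon
    push Not at hcon
    have h1 : Ioo (0 : ℝ) δ ⊆ {c | ¬ (∫⁻ z, k (g z + c) ∂μ < ⊤)} := fun c hc => by
      simpa using hcon c hc
    have h2 : volume (Ioo (0 : ℝ) δ) = 0 := measure_mono_null h1 hae
    rw [Real.volume_Ioo, sub_zero] at h2
    simp at h2
    linarith
  have hmem : ∀ z, g z + c ∈ ball (0 : ℝ) R := by
    intro z
    rw [mem_ball_zero_iff, Real.norm_eq_abs]
    have h1 := hB z
    have h2 : |g z + c| ≤ |g z| + |c| := abs_add_le _ _
    have h3 : |c| < δ := by rw [abs_of_pos hc.1]; exact hc.2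
    linarith
  have hkz : ∀ z, k (g z + c) = (ENNReal.ofReal |g z + c|) ^ a := fun z => by
    rw [hk, indicator_of_mem (hmem z)]
  have hne : ∀ᵐ z ∂μ, g z + c ≠ 0 := by
    have h1 := ae_lt_top (hkm.comp (hg.add_const c)) hcf.ne
    filter_upwards [h1] with z hz h0
    have h2 : k (g z + c) = ⊤ := by
      rw [hkz, h0, abs_zero, ENNReal.ofReal_zero, ENNReal.zero_rpow_of_neg ha0]
    simp only [Function.comp] at hz
    rw [h2] at hz
    exact lt_irrefl _ hz
  refine ⟨c, hc.1, hc.2, ⟨?_, ?_⟩, hne⟩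
  · exact (((hg.add_const c).abs).pow_const a).aestronglyMeasurable
  · have h1 : ∫⁻ z, ‖|g z + c| ^ a‖ₑ ∂μ = ∫⁻ z, k (g z + c) ∂μ := by
      refine lintegral_congr_ae ?_
      filter_upwards [hne] with z hz
      rw [hkz, nic3_pow hz]
    rw [HasFiniteIntegral, h1]
    exact hcf

theorem exists_perturb (hn : 0 < n) (hp : 1 < p) (hp2 : p < 2) {Θ : Set (X n)}
    (hΘ : IsOpen Θ) (hb : Bornology.IsBounded Θ) {F₀ : X n → ℝ} (hF₀ : Tst univ F₀) {δ : ℝ}
    (hδ : 0 < δ) : ∃ F, Tst univ F ∧ (∀ z ∈ closure Θ, |F z - F₀ z| ≤ δ) ∧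
      IntegrableOn (fun z => ‖dx F z‖ ^ (p - 2)) Θ volume ∧
      ∀ᵐ z ∂(volume.restrict Θ), dx F z ≠ 0 := by
  have hK : IsCompact (closure Θ) := hb.isCompact_closure
  obtain ⟨χ, hχ, -, hχ1⟩ := exists_cutoff hK isOpen_univ (subset_univ _)
  set e : E n := EuclideanSpace.single (⟨0, hn⟩ : Fin n) (1 : ℝ) with he
  have hen : ‖e‖ = 1 := by rw [he]; simp
  set L : X n → ℝ := fun z => inner ℝ z.1 e with hL
  have hLs : ContDiff ℝ ∞ L := contDiff_fst.inner ℝ contDiff_const
  -- bound for L on the closure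
  obtain ⟨M, hM⟩ := hK.exists_bound_of_continuousOn (f := L) hLs.continuous.continuousOn
  set g : X n → ℝ := fun z => inner ℝ (dx F₀ z) e with hg
  have hdxc := der_tst_int hF₀
  have hgc : Continuous g := hdxc.1.inner continuous_const
  obtain ⟨B, hB⟩ := hdxc.1.bounded_above_of_compact_support hdxc.2.1
  have hgB : ∀ z, |g z| ≤ B := fun z => by
    have h1 := abs_real_inner_le_norm (dx F₀ z) e
    rw [hen, mul_one] at h1
    exact h1.trans (hB z)
  have hfin : IsFiniteMeasure (volume.restrict Θ : Measure (X n)) :=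
    ⟨by rw [Measure.restrict_apply_univ]; exact hb.measure_lt_top⟩
  have hM0 : 0 < |M| + 1 := by positivity
  obtain ⟨c, hc0, hcδ, hint, hne⟩ := nic3_gen (volume.restrict Θ) g hgc.measurable B hgB
    (a := p - 2) (by linarith) (by linarith) (δ := δ / (|M| + 1)) (div_pos hδ hM0)
  set F : X n → ℝ := fun z => F₀ z + c * (L z * χ z) with hF
  have hFs : ContDiff ℝ ∞ F := hF₀.smooth.add (contDiff_const.mul (hLs.mul hχ.smooth))
  have hχone : ∀ z ∈ closure Θ, χ z = 1 := fun z hz => by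
    have := hχ1.self_of_nhdsSet
    exact this z hz
  have hev : ∀ z ∈ Θ, F =ᶠ[𝓝 z] fun y => F₀ y + c * L y := by
    intro z hz
    have h1 : Θ ∈ 𝓝 z := hΘ.mem_nhds hz
    filter_upwards [h1] with y hy
    simp only [hF]
    rw [hχone y (subset_closure hy), mul_one]
  have hdx : ∀ z ∈ Θ, inner ℝ (dx F z) e = g z + c := by
    intro z hz
    rw [dx_eq hFs, (hev z hz).fderiv_eq]
    have hd1 : DifferentiableAt ℝ F₀ z := (hF₀.smooth.differentiable (by simp)).differentiableAt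
    have hd2 : DifferentiableAt ℝ L z := (hLs.differentiable (by simp)).differentiableAt
    have h2 : HasFDerivAt (fun y => F₀ y + c * L y) (fderiv ℝ F₀ z + c • fderiv ℝ L z) z :=
      hd1.hasFDerivAt.add (hd2.hasFDerivAt.const_mul c)
    rw [h2.fderiv]
    have h3 : fderiv ℝ L z (e, 0) = 1 := by
      have h4 : HasFDerivAt L ((innerSL ℝ e).comp (ContinuousLinearMap.fst ℝ (E n) ℝ)) z := by
        have h5 : L = fun y => ((innerSL ℝ e).comp (ContinuousLinearMap.fst ℝ (E n) ℝ)) y := by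
          funext y
          simp only [hL]
          rw [real_inner_comm]
          simp
        rw [h5]
        exact ((innerSL ℝ e).comp (ContinuousLinearMap.fst ℝ (E n) ℝ)).hasFDerivAt
      rw [h4.fderiv]
      simp [hen]
    simp only [ContinuousLinearMap.add_apply, ContinuousLinearMap.smul_apply, smul_eq_mul]
    rw [h3, ← dx_eq hF₀.smooth]
    simp only [hg]
    ring
  have hlow : ∀ z ∈ Θ, |g z + c| ≤ ‖dx F z‖ := by
    intro z hz
    rw [← hdx z hz]
    have h1 := abs_real_inner_le_norm (dx F z) e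
    rwa [hen, mul_one] at h1
  refine ⟨F, ⟨hFs, ?_, subset_univ _⟩, ?_, ?_, ?_⟩
  · refine hF₀.cpt.add ?_
    exact (hχ.cpt.mul_left (f := L)).mul_left (f := fun _ => c)
  · intro z hz
    have h1 : F z - F₀ z = c * L z := by
      simp only [hF]
      rw [hχone z hz]; ring
    rw [h1, abs_mul, abs_of_pos hc0]
    have h2 := hM z hz
    rw [Real.norm_eq_abs] at h2
    have h3 : |L z| ≤ |M| + 1 := by
      have := le_abs_self M
      linarith
    calc c * |L z| ≤ (δ / (|M| + 1)) * (|M| + 1) :=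
          mul_le_mul hcδ.le h3 (abs_nonneg _) (div_pos hδ hM0).le
      _ = δ := by field_simp
  · refine Integrable.mono' hint ?_ ?_
    · exact ((((contDiff_dx hFs).continuous.norm).measurable).pow_const _).aestronglyMeasurable
    · have h1 : ∀ᵐ z ∂(volume.restrict Θ), z ∈ Θ := ae_restrict_mem hΘ.measurableSet
      filter_upwards [h1, hne] with z hz hz0
      rw [Real.norm_eq_abs, abs_of_nonneg (Real.rpow_nonneg (norm_nonneg _) _)]
      exact Real.rpow_le_rpow_of_nonpos (abs_pos.2 hz0) (hlow z hz) (by linarith)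
  · have h1 : ∀ᵐ z ∂(volume.restrict Θ), z ∈ Θ := ae_restrict_mem hΘ.measurableSet
    filter_upwards [h1, hne] with z hz hz0 h0
    have h2 := hlow z hz
    rw [h0, norm_zero] at h2
    exact hz0 (abs_nonpos_iff.1 h2)

end PP
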