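import Pool.Agent.PP.MIN2
import Pool.Agent.PP.MIN3
import Pool.Agent.PP.NIC1
import Pool.Agent.PP.NIC2
import Pool.Agent.PP.NIC3

open Set Metric Filter Topology MeasureTheory
open scoped ContDiff

noncomputable section

namespace PP

variable {n : ℕ}
variable {p : ℝ}

theorem exists_regSol (hp : 1 < p) {C : Set (X n)} (hC : IsCompact C) {ε M : ℝ} (hε : 0 < ε)
    {obs F : X n → ℝ} (hobs : ∀ z, 0 ≤ obs z) (hF : Tst univ F) (hM : ∀ z, |F z| ≤ M) :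
    ∃ z zt G, RegSol p ε C obs F z zt G ∧ ∀ᵐ y, |F y + z y| ≤ M := by
  obtain ⟨z, zt, G, h1, h2, h3, h4⟩ := exists_min hp hC hε hobs hF hM
  refine ⟨z, zt, G, min_vi hp hC hε hF h1 h2 ?_, h3⟩
  intro w wt W hw ho
  obtain ⟨v, vt, V, g1, g2, g3, g4⟩ := jf_trunc hp hC hε hobs hF hM hw ho
  exact (h4 v vt V g1 g2 g3).trans g4

theorem exists_nice (hn : 0 < n) (hp : 1 < p) {Θ : Set (X n)} (hΘ : IsOpen Θ)
    (hb : Bornology.IsBounded Θ) {f : X n → ℝ} (hf : ContinuousOn f (frontier Θ)) {δ : ℝ}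
    (hδ : 0 < δ) : ∃ F e, Nice p Θ F e ∧ ∀ ξ ∈ frontier Θ, |F ξ - f ξ| ≤ δ := by
  obtain ⟨F₀, hF₀, h0⟩ := exists_smooth_approx hb hf (half_pos hδ)
  rcases le_or_gt 2 p with h2 | h2
  · obtain ⟨e, he⟩ := nice_of_int hp hΘ hb hF₀ (Or.inl h2)
    exact ⟨F₀, e, he, fun ξ hξ => (h0 ξ hξ).trans (by linarith)⟩
  · obtain ⟨F, hF, h3, h4, h5⟩ := exists_perturb hn hp h2 hΘ hb hF₀ (half_pos hδ)
    obtain ⟨e, he⟩ := nice_of_int hp hΘ hb hF (Or.inr ⟨h4, h5⟩)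
    refine ⟨F, e, he, fun ξ hξ => ?_⟩
    have h6 := h3 ξ (frontier_subset_closure hξ)
    have h7 := h0 ξ hξ
    calc |F ξ - f ξ| = |(F ξ - F₀ ξ) + (F₀ ξ - f ξ)| := by ring_nf
      _ ≤ |F ξ - F₀ ξ| + |F₀ ξ - f ξ| := abs_add_le _ _
      _ ≤ δ := by linarith

end PP
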