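import Pool.Agent.PP.CAL2
import Pool.Agent.PP.POI
import Pool.Agent.PP.LPS

open Set Metric Filter Topology MeasureTheory
open scoped ContDiff

noncomputable section

namespace PP

variable {n : ℕ}
variable {p : ℝ}

/-- the regularised functional -/
def Jf (p ε : ℝ) (F : X n → ℝ) (zt : X n → ℝ) (G : X n → E n) : ℝ :=
  ∫ y, Real.exp (-(y.2 / ε)) * (ε / 2 * (dt F y + zt y) ^ 2 + ‖dx F y + G y‖ ^ p / p)

/-- the density of the functional is integrable -/
theorem min1_int (hp : 1 < p) {D : Set (X n)} (hD : Bornology.IsBounded D) {ε : ℝ} (hε : 0 < ε)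
    {U Ut : X n → ℝ} {UG : X n → E n} (h : W1 p D U Ut UG) :
    Integrable (fun y : X n => Real.exp (-(y.2 / ε)) * (ε / 2 * Ut y ^ 2 + ‖UG y‖ ^ p / p))
      volume := by
  have hp0 : 0 < p := by linarith
  have i1 : Integrable (fun y => Ut y ^ 2) volume := h.memt.integrable_sq
  have i2 : Integrable (fun y => ‖UG y‖ ^ p) volume := by
    have := h.mem.integrable_norm_rpow (by simpa using hp0) ENNReal.ofReal_ne_top
    simpa only [ENNReal.toReal_ofReal hp0.le] using this
  have i3 : Integrable (fun y => ε / 2 * Ut y ^ 2 + ‖UG y‖ ^ p / p) volume :=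
    (i1.const_mul _).add (i2.div_const p)
  obtain ⟨R, hR⟩ := hD.subset_closedBall 0
  have hc : Continuous (fun y : X n => Real.exp (-(y.2 / ε))) := by fun_prop
  refine Integrable.mono' (i3.const_mul (Real.exp (R / ε)))
    (hc.aestronglyMeasurable.mul i3.aestronglyMeasurable) ?_
  filter_upwards [h.toW0.grad_off hp hD, h.time_off hp hD] with y h1 h2
  have hnn : 0 ≤ ε / 2 * Ut y ^ 2 + ‖UG y‖ ^ p / p := by positivity
  rw [Real.norm_eq_abs, abs_mul, abs_of_nonneg (Real.exp_nonneg _), abs_of_nonneg hnn]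
  by_cases hy : y ∈ D
  · refine mul_le_mul_of_nonneg_right ?_ hnn
    apply Real.exp_le_exp.2
    have h3 : ‖y‖ ≤ R := by simpa using hR hy
    have h4 : |y.2| ≤ R := (norm_snd_le y).trans h3
    have h5 := (abs_le.1 h4).1
    rw [← neg_div]
    exact div_le_div_of_nonneg_right (by linarith) hε.le
  · rw [h1 hy, h2 hy]
    simp [Real.zero_rpow hp0.ne']

/-- truncation to `|F + z| ≤ M` lowers the functional -/
theorem jf_trunc (hp : 1 < p) {C : Set (X n)} (hC : IsCompact C) {ε M : ℝ} (hε : 0 < ε)
    {obs F : X n → ℝ} (hobs : ∀ z, 0 ≤ obs z) (hF : Tst univ F) (hM : ∀ z, |F z| ≤ M)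
    {w wt : X n → ℝ} {W : X n → E n} (hw : W1 p C w wt W) (ho : ∀ᵐ y, - obs y ≤ w y) :
    ∃ v vt V, W1 p C v vt V ∧ (∀ᵐ y, - obs y ≤ v y) ∧ (∀ᵐ y, |F y + v y| ≤ M) ∧
      Jf p ε F vt V ≤ Jf p ε F wt W := by
  have hp0 : 0 < p := by linarith
  have hM0 : 0 ≤ M := (abs_nonneg _).trans (hM 0)
  set D : Set (X n) := C ∪ tsupport F with hDdef
  have hD : Bornology.IsBounded D := (hC.union hF.cpt).isBounded
  have hF1 : W1 p D F (dt F) (dx F) := (tst_W1 hp hF).mono subset_union_right
  have hw1 : W1 p D w wt W := hw.mono subset_union_left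
  have hU : W1 p D (fun z => F z + w z) (fun z => dt F z + wt z) (fun z => dx F z + W z) := by
    refine (hF1.lin hp hD hw1 1 1).congr ?_ ?_ ?_ <;>
      exact Eventually.of_forall fun z => by simp
  have hU' : W1 p D (fun z => -(F z + w z)) (fun z => -(dt F z + wt z))
      (fun z => -(dx F z + W z)) := by
    refine (hU.lin hp hD hU (-1) 0).congr ?_ ?_ ?_
    · exact Eventually.of_forall fun z => by simp
    · exact Eventually.of_forall fun z => by simp
    · exact Eventually.of_forall fun z => by rw [neg_one_smul, zero_smul, add_zero]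
  have hP := hU.posc hp hD hM0
  have hN := hU'.posc hp hD hM0
  have hv1 := (hw1.lin hp hD hP 1 (-1)).lin hp hD hN 1 1
  have hv2 := hv1.of_zero (D := C) (by
    filter_upwards [hw.zero] with z hz hzC
    have h1 := abs_le.1 (hM z)
    simp only [hz hzC, add_zero, mul_zero]
    rw [max_eq_right (by linarith), max_eq_right (by linarith)]
    simp)
  refine ⟨_, _, _, hv2, ?_, ?_, ?_⟩
  · filter_upwards [ho] with y hy
    have h1 := abs_le.1 (hM y)
    have h2 := hobs y
    rcases max_cases (F y + w y - M) 0 with ⟨e1, e2⟩ | ⟨e1, e2⟩ <;>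
    rcases max_cases (-(F y + w y) - M) 0 with ⟨e3, e4⟩ | ⟨e3, e4⟩ <;>
    · rw [e1, e3]
      linarith
  · refine Eventually.of_forall fun y => ?_
    rw [abs_le]
    rcases max_cases (F y + w y - M) 0 with ⟨e1, e2⟩ | ⟨e1, e2⟩ <;>
    rcases max_cases (-(F y + w y) - M) 0 with ⟨e3, e4⟩ | ⟨e3, e4⟩ <;>
    · rw [e1, e3]
      constructor <;> linarith
  · unfold Jf
    refine integral_mono_of_nonneg (Eventually.of_forall fun y => ?_) (min1_int hp hD hε hU)
      (Eventually.of_forall fun y => ?_)
    · simp only [Pi.zero_apply]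
      positivity
    · simp only
      refine mul_le_mul_of_nonneg_left ?_ (Real.exp_nonneg _)
      by_cases c1 : M < F y + w y
      · have c2 : ¬ M < -(F y + w y) := by
          intro h
          linarith
        rw [if_pos c1, if_neg c2, if_pos c1, if_neg c2]
        have e1 : dt F y + (1 * (1 * wt y + -1 * (dt F y + wt y)) + 1 * 0) = 0 := by ring
        have e2 : dx F y + ((1 : ℝ) • ((1 : ℝ) • W y + (-1 : ℝ) • (dx F y + W y)) +
            (1 : ℝ) • (0 : E n)) = 0 := by
          simp only [one_smul, neg_smul, add_zero, smul_zero]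
          abel
        rw [e1, e2, norm_zero, Real.zero_rpow hp0.ne']
        simp only [ne_eq, OfNat.ofNat_ne_zero, not_false_eq_true, zero_pow, mul_zero, zero_div,
          add_zero]
        positivity
      · by_cases c2 : M < -(F y + w y)
        · rw [if_neg c1, if_pos c2, if_neg c1, if_pos c2]
          have e1 : dt F y + (1 * (1 * wt y + -1 * 0) + 1 * (-(dt F y + wt y))) = 0 := by ring
          have e2 : dx F y + ((1 : ℝ) • ((1 : ℝ) • W y + (-1 : ℝ) • (0 : E n)) +
              (1 : ℝ) • (-(dx F y + W y))) = 0 := by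
            simp only [one_smul, neg_smul, add_zero, smul_zero, neg_zero]
            abel
          rw [e1, e2, norm_zero, Real.zero_rpow hp0.ne']
          simp only [ne_eq, OfNat.ofNat_ne_zero, not_false_eq_true, zero_pow, mul_zero, zero_div,
            add_zero]
          positivity
        · rw [if_neg c1, if_neg c2, if_neg c1, if_neg c2]
          simp

end PP
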