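import Pool.Agent.PP.MIN1

open Set Metric Filter Topology MeasureTheory
open scoped ContDiff

noncomputable section

namespace PP

variable {n : ℕ}
variable {p : ℝ}

/-! ### completeness of `L^q` -/

private theorem m2_eLpNorm {F : Type*} [NormedAddCommGroup F] {q : ℝ} (hq : 1 ≤ q)
    {f : X n → F} (hf : MemLp f (ENNReal.ofReal q) volume) :
    eLpNorm f (ENNReal.ofReal q) volume = ENNReal.ofReal ((∫ z, ‖f z‖ ^ q) ^ q⁻¹) := by
  have hq0 : 0 < q := by linarith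
  rw [hf.eLpNorm_eq_integral_rpow_norm (by simpa using hq0) ENNReal.ofReal_ne_top,
    ENNReal.toReal_ofReal hq0.le]

private theorem m2_complete {F : Type*} [NormedAddCommGroup F] [CompleteSpace F] {q : ℝ}
    (hq : 1 ≤ q) (f : ℕ → X n → F) (hf : ∀ k, MemLp (f k) (ENNReal.ofReal q) volume)
    (hc : ∀ δ > 0, ∃ N, ∀ k ≥ N, ∀ l ≥ N, ∫ z, ‖f k z - f l z‖ ^ q ≤ δ) :
    ∃ g : X n → F, MemLp g (ENNReal.ofReal q) volume ∧
      Tendsto (fun k => eLpNorm (f k - g) (ENNReal.ofReal q) volume) atTop (𝓝 0) := by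
  have hq0 : 0 < q := by linarith
  have hfact : Fact ((1 : ENNReal) ≤ ENNReal.ofReal q) := ⟨by
    rw [← ENNReal.ofReal_one]
    exact ENNReal.ofReal_le_ofReal hq⟩
  have hcau : CauchySeq (fun k => (hf k).toLp (f k)) := by
    rw [Metric.cauchySeq_iff]
    intro ε hε
    obtain ⟨N, hN⟩ := hc ((ε / 2) ^ q) (by positivity)
    refine ⟨N, fun k hk l hl => ?_⟩
    rw [dist_edist, Lp.edist_toLp_toLp, m2_eLpNorm hq ((hf k).sub (hf l)),
      ENNReal.toReal_ofReal (by positivity)]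
    have h1 : (∫ z, ‖(f k - f l) z‖ ^ q) ^ q⁻¹ ≤ ((ε / 2) ^ q) ^ q⁻¹ :=
      Real.rpow_le_rpow (integral_nonneg fun z => by positivity) (hN k hk l hl) (by positivity)
    rw [Real.rpow_rpow_inv (by positivity) hq0.ne'] at h1
    linarith
  obtain ⟨g, hg⟩ := cauchySeq_tendsto_of_complete hcau
  refine ⟨g, Lp.memLp g, ?_⟩
  have h2 : Tendsto (fun k => (hf k).toLp (f k)) atTop (𝓝 ((Lp.memLp g).toLp g)) := by
    rw [Lp.toLp_coeFn]
    exact hg
  exact (Lp.tendsto_Lp_iff_tendsto_eLpNorm'' f hf g (Lp.memLp g)).1 h2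

private theorem m2_subseq {F : Type*} [NormedAddCommGroup F] {q : ℝ} (hq : 1 ≤ q)
    {f : ℕ → X n → F} {g : X n → F} (hf : ∀ k, MemLp (f k) (ENNReal.ofReal q) volume)
    (hg : MemLp g (ENNReal.ofReal q) volume)
    (h : Tendsto (fun k => eLpNorm (f k - g) (ENNReal.ofReal q) volume) atTop (𝓝 0)) :
    ∃ ns : ℕ → ℕ, StrictMono ns ∧ ∀ᵐ z, Tendsto (fun k => f (ns k) z) atTop (𝓝 (g z)) := by
  have hq0 : 0 < q := by linarith
  exact (tendstoInMeasure_of_tendsto_eLpNorm (by simpa using hq0)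
    (fun k => (hf k).aestronglyMeasurable) hg.aestronglyMeasurable h).exists_seq_tendsto_ae

/-- convergence of integrals which are local in `L^q` -/
private theorem m2_int_tendsto {F H : Type*} [NormedAddCommGroup F] [NormedAddCommGroup H]
    [NormedSpace ℝ H] {q : ℝ} (hq : 1 ≤ q) {f : ℕ → X n → F} {g : X n → F}
    (hf : ∀ k, MemLp (f k) (ENNReal.ofReal q) volume)
    (hg : MemLp g (ENNReal.ofReal q) volume)
    (h : Tendsto (fun k => eLpNorm (f k - g) (ENNReal.ofReal q) volume) atTop (𝓝 0))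
    {K : Set (X n)} (hK : IsCompact K) {B : ℝ} (hB : 0 ≤ B) {ψ : ℕ → X n → H} {ψl : X n → H}
    (h1 : ∀ k, Integrable (ψ k) volume) (h2 : Integrable ψl volume)
    (h3 : ∀ k z, ‖ψ k z - ψl z‖ ≤ B * ‖f k z - g z‖) (h4 : ∀ k z, z ∉ K → ψ k z = ψl z) :
    Tendsto (fun k => ∫ z, ψ k z) atTop (𝓝 (∫ z, ψl z)) := by
  have hq0 : 0 < q := by linarith
  refine tendsto_integral_of_L1 ψl h2.aestronglyMeasurable (Eventually.of_forall h1) ?_
  have hKm := hK.measurableSet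
  have hKf : (volume K) ≠ ⊤ := hK.measure_lt_top.ne
  have hb : ∀ k, ∫⁻ z, ‖ψ k z - ψl z‖ₑ ≤ ENNReal.ofReal B *
      (eLpNorm (f k - g) (ENNReal.ofReal q) volume * (volume K) ^ (1 / (1 : ENNReal).toReal -
        1 / (ENNReal.ofReal q).toReal)) := by
    intro k
    have e1 : ∫⁻ z, ‖ψ k z - ψl z‖ₑ = ∫⁻ z in K, ‖ψ k z - ψl z‖ₑ := by
      rw [← lintegral_indicator hKm]
      refine lintegral_congr fun z => ?_
      by_cases hz : z ∈ K
      · rw [indicator_of_mem hz]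
      · rw [indicator_of_notMem hz, h4 k z hz, sub_self, enorm_zero]
    have e2 : ∫⁻ z in K, ‖ψ k z - ψl z‖ₑ ≤ ∫⁻ z in K, ENNReal.ofReal B * ‖(f k - g) z‖ₑ := by
      refine lintegral_mono fun z => ?_
      rw [← ofReal_norm, ← ofReal_norm, ← ENNReal.ofReal_mul hB]
      exact ENNReal.ofReal_le_ofReal (h3 k z)
    have e3 : ∫⁻ z in K, ENNReal.ofReal B * ‖(f k - g) z‖ₑ =
        ENNReal.ofReal B * eLpNorm (f k - g) 1 (volume.restrict K) := by
      rw [lintegral_const_mul' _ _ ENNReal.ofReal_ne_top, eLpNorm_one_eq_lintegral_enorm]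
    have e4 := eLpNorm_le_eLpNorm_mul_rpow_measure_univ (μ := volume.restrict K)
      (f := f k - g) (p := 1) (q := ENNReal.ofReal q)
      (by rw [← ENNReal.ofReal_one]; exact ENNReal.ofReal_le_ofReal hq)
      (((hf k).sub hg).aestronglyMeasurable.restrict)
    rw [Measure.restrict_apply_univ] at e4
    rw [e1]
    refine e2.trans (e3.le.trans ?_)
    gcongr
    refine e4.trans ?_
    gcongr
    exact Measure.restrict_le_self
  have hcst : (volume K) ^ (1 / (1 : ENNReal).toReal - 1 / (ENNReal.ofReal q).toReal) ≠ ⊤ := by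
    refine ENNReal.rpow_ne_top_of_nonneg ?_ hKf
    rw [ENNReal.toReal_one, ENNReal.toReal_ofReal hq0.le, one_div_one, sub_nonneg,
      div_le_one hq0]
    exact hq
  have hlim : Tendsto (fun k => ENNReal.ofReal B *
      (eLpNorm (f k - g) (ENNReal.ofReal q) volume * (volume K) ^ (1 / (1 : ENNReal).toReal -
        1 / (ENNReal.ofReal q).toReal))) atTop (𝓝 0) := by
    have e1 := ENNReal.Tendsto.mul_const (b := (volume K) ^ (1 / (1 : ENNReal).toReal -
        1 / (ENNReal.ofReal q).toReal)) h (Or.inr hcst)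
    rw [zero_mul] at e1
    have e2 := ENNReal.Tendsto.const_mul (a := ENNReal.ofReal B) e1 (Or.inr ENNReal.ofReal_ne_top)
    rwa [mul_zero] at e2
  exact tendsto_of_tendsto_of_tendsto_of_le_of_le tendsto_const_nhds hlim
    (fun _ => bot_le) hb

/-! ### the weight -/

private theorem m2_weight {D : Set (X n)} {T ε : ℝ} (hε : 0 < ε) (hT : ∀ y ∈ D, |y.2| ≤ T)
    {g : X n → ℝ} (hg : Integrable g volume) (h0 : ∀ᵐ y, y ∉ D → g y = 0) :
    Integrable (fun y : X n => Real.exp (-(y.2 / ε)) * g y) volume ∧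
      ((∀ᵐ y, 0 ≤ g y) → ∫ y, g y ≤ Real.exp (T / ε) * ∫ y, Real.exp (-(y.2 / ε)) * g y) := by
  have hint : Integrable (fun y : X n => Real.exp (-(y.2 / ε)) * g y) volume := by
    refine (hg.norm.const_mul (Real.exp (T / ε))).mono' ?_ ?_
    · refine AEStronglyMeasurable.mul ?_ hg.aestronglyMeasurable
      exact (Real.continuous_exp.comp ((continuous_snd.div_const ε).neg)).aestronglyMeasurable
    · filter_upwards [h0] with y hy
      by_cases hyD : y ∈ D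
      · rw [norm_mul, Real.norm_eq_abs, abs_of_pos (Real.exp_pos _)]
        refine mul_le_mul_of_nonneg_right (Real.exp_le_exp.2 ?_) (norm_nonneg _)
        rw [← neg_div]
        exact div_le_div_of_nonneg_right ((neg_le_abs _).trans (hT y hyD)) hε.le
      · rw [hy hyD, mul_zero, norm_zero]
        simp
  refine ⟨hint, fun hg0 => ?_⟩
  rw [← integral_const_mul]
  refine integral_mono_ae hg (hint.const_mul _) ?_
  filter_upwards [h0, hg0] with y hy hy0
  by_cases hyD : y ∈ D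
  · have h1 : 1 ≤ Real.exp (T / ε) * Real.exp (-(y.2 / ε)) := by
      rw [← Real.exp_add]
      refine Real.one_le_exp ?_
      rw [← sub_eq_add_neg, ← sub_div]
      exact div_nonneg (by linarith [le_abs_self y.2, hT y hyD]) hε.le
    calc g y = 1 * g y := (one_mul _).symm
      _ ≤ (Real.exp (T / ε) * Real.exp (-(y.2 / ε))) * g y := mul_le_mul_of_nonneg_right h1 hy0
      _ = _ := mul_assoc _ _ _
  · show g y ≤ Real.exp (T / ε) * (Real.exp (-(y.2 / ε)) * g y)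
    rw [hy hyD, mul_zero, mul_zero]

/-- the competitors -/
private def M2K (p M : ℝ) (C : Set (X n)) (obs F z zt : X n → ℝ) (G : X n → E n) : Prop :=
  W1 p C z zt G ∧ (∀ᵐ y, - obs y ≤ z y) ∧ (∀ᵐ y, |F y + z y| ≤ M)

private theorem m2_mem (hp : 1 < p) {C : Set (X n)} {F z zt : X n → ℝ} {G : X n → E n}
    (hF : Tst univ F) (h : W1 p C z zt G) :
    MemLp (fun y => dt F y + zt y) 2 volume ∧
      MemLp (fun y => dx F y + G y) (ENNReal.ofReal p) volume :=
  ⟨(tst_W1 hp hF).memt.add h.memt, (tst_W1 hp hF).mem.add h.mem⟩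

private theorem m2_off (hp : 1 < p) {C : Set (X n)} (hC : IsCompact C) {F z zt : X n → ℝ}
    {G : X n → E n} (h : W1 p C z zt G) :
    ∀ᵐ y, y ∉ C ∪ tsupport F → zt y = 0 ∧ G y = 0 ∧ dt F y = 0 ∧ dx F y = 0 := by
  filter_upwards [h.time_off hp hC.isBounded, h.toW0.grad_off hp hC.isBounded] with y h1 h2 hy
  rw [Set.mem_union, not_or] at hy
  exact ⟨h1 hy.1, h2 hy.1, dt_zero_of_notMem y hy.2, dx_zero_of_notMem y hy.2⟩

private theorem m2_int_sq (hp : 1 < p) {C : Set (X n)} {F z zt : X n → ℝ} {G : X n → E n}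
    (hF : Tst univ F) (h : W1 p C z zt G) :
    Integrable (fun y => (dt F y + zt y) ^ 2) volume :=
  (m2_mem hp hF h).1.integrable_sq

private theorem m2_int_pow (hp : 1 < p) {C : Set (X n)} {F z zt : X n → ℝ} {G : X n → E n}
    (hF : Tst univ F) (h : W1 p C z zt G) :
    Integrable (fun y => ‖dx F y + G y‖ ^ p) volume := by
  have h1 := (m2_mem hp hF h).2.integrable_norm_rpow (by simpa using (by linarith : 0 < p))
    ENNReal.ofReal_ne_top
  rwa [ENNReal.toReal_ofReal (by linarith)] at h1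

private theorem m2_int_J (hp : 1 < p) {C : Set (X n)} (hC : IsCompact C) {ε T : ℝ} (hε : 0 < ε)
    {F z zt : X n → ℝ} {G : X n → E n} (hT : ∀ y ∈ C ∪ tsupport F, |y.2| ≤ T)
    (hF : Tst univ F) (h : W1 p C z zt G) :
    Integrable (fun y : X n => Real.exp (-(y.2 / ε)) *
      (ε / 2 * (dt F y + zt y) ^ 2 + ‖dx F y + G y‖ ^ p / p)) volume := by
  refine (m2_weight hε hT (((m2_int_sq hp hF h).const_mul _).add
    ((m2_int_pow hp hF h).div_const _)) ?_).1
  filter_upwards [m2_off (F := F) hp hC h] with y h1 hy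
  obtain ⟨a, b, c, d⟩ := h1 hy
  show ε / 2 * (dt F y + zt y) ^ 2 + ‖dx F y + G y‖ ^ p / p = 0
  rw [a, b, c, d, add_zero, add_zero, norm_zero, Real.zero_rpow (by linarith)]
  simp

private theorem m2_gap_nonneg (hp : 1 < p) (a b : E n) :
    0 ≤ ‖a‖ ^ p / 2 + ‖b‖ ^ p / 2 - ‖(1 / 2 : ℝ) • (a + b)‖ ^ p := by
  have h1 := conv_tangent hp ((1 / 2 : ℝ) • (a + b)) a
  have h2 := conv_tangent hp ((1 / 2 : ℝ) • (a + b)) b
  have h3 : inner ℝ (A p ((1 / 2 : ℝ) • (a + b))) (a - (1 / 2 : ℝ) • (a + b)) +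
      inner ℝ (A p ((1 / 2 : ℝ) • (a + b))) (b - (1 / 2 : ℝ) • (a + b)) = 0 := by
    rw [← inner_add_right]
    have h4 : a - (1 / 2 : ℝ) • (a + b) + (b - (1 / 2 : ℝ) • (a + b)) = 0 := by module
    rw [h4, inner_zero_right]
  have hp0 : 0 < p := by linarith
  have h5 : ‖(1 / 2 : ℝ) • (a + b)‖ ^ p / p + ‖(1 / 2 : ℝ) • (a + b)‖ ^ p / p ≤
      ‖a‖ ^ p / p + ‖b‖ ^ p / p := by linarith
  rw [← add_div, ← add_div, div_le_div_iff_of_pos_right hp0] at h5
  linarith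

private theorem m2_mid (hp : 1 < p) {M : ℝ} {C : Set (X n)} (hC : IsCompact C)
    {obs F z1 zt1 z2 zt2 : X n → ℝ} {G1 G2 : X n → E n}
    (h1 : M2K p M C obs F z1 zt1 G1) (h2 : M2K p M C obs F z2 zt2 G2) :
    M2K p M C obs F (fun y => 1 / 2 * z1 y + 1 / 2 * z2 y)
      (fun y => 1 / 2 * zt1 y + 1 / 2 * zt2 y)
      (fun y => (1 / 2 : ℝ) • G1 y + (1 / 2 : ℝ) • G2 y) := by
  refine ⟨W1.lin hp hC.isBounded h1.1 h2.1 _ _, ?_, ?_⟩
  · filter_upwards [h1.2.1, h2.2.1] with y a b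
    linarith
  · filter_upwards [h1.2.2, h2.2.2] with y a b
    rw [abs_le] at a b ⊢
    constructor <;> linarith [a.1, a.2, b.1, b.2]

private theorem m2_lin (α q : ℝ) {a b c u v : X n → ℝ} (ha : Integrable a volume)
    (hb : Integrable b volume) (hc : Integrable c volume) (hu : Integrable u volume)
    (hv : Integrable v volume) (h : ∀ y, α * u y + v y / q = a y / 2 + b y / 2 - c y) :
    α * (∫ y, u y) + (∫ y, v y) / q = (∫ y, a y) / 2 + (∫ y, b y) / 2 - ∫ y, c y := by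
  have e1 : ∫ y, (α * u y + v y / q) = α * (∫ y, u y) + (∫ y, v y) / q := by
    rw [integral_add (hu.const_mul α) (hv.div_const q), integral_const_mul, integral_div]
  have e2 : ∫ y, (a y / 2 + b y / 2 - c y) =
      (∫ y, a y) / 2 + (∫ y, b y) / 2 - ∫ y, c y := by
    have e3 : Integrable (fun y => a y / 2 + b y / 2) volume :=
      (ha.div_const 2).add (hb.div_const 2)
    rw [integral_sub e3 hc, integral_add (ha.div_const 2) (hb.div_const 2), integral_div,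
      integral_div]
  rw [← e1, ← e2]
  exact integral_congr_ae (Eventually.of_forall h)

private theorem m2_split (hp : 1 < p) {M : ℝ} {C : Set (X n)} (hC : IsCompact C) {ε T : ℝ}
    (hε : 0 < ε) {obs F z1 zt1 z2 zt2 : X n → ℝ} {G1 G2 : X n → E n}
    (hT : ∀ y ∈ C ∪ tsupport F, |y.2| ≤ T) (hF : Tst univ F)
    (h1 : M2K p M C obs F z1 zt1 G1) (h2 : M2K p M C obs F z2 zt2 G2) :
    ∃ I1 I2 : ℝ, 0 ≤ I1 ∧ 0 ≤ I2 ∧
      ∫ y, (zt1 y - zt2 y) ^ 2 ≤ Real.exp (T / ε) * I1 ∧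
      ∫ y, (‖dx F y + G1 y‖ ^ p / 2 + ‖dx F y + G2 y‖ ^ p / 2 -
        ‖(1 / 2 : ℝ) • ((dx F y + G1 y) + (dx F y + G2 y))‖ ^ p) ≤ Real.exp (T / ε) * I2 ∧
      ε / 8 * I1 + I2 / p = Jf p ε F zt1 G1 / 2 + Jf p ε F zt2 G2 / 2 -
        Jf p ε F (fun y => 1 / 2 * zt1 y + 1 / 2 * zt2 y)
          (fun y => (1 / 2 : ℝ) • G1 y + (1 / 2 : ℝ) • G2 y) := by
  have hp0 : 0 < p := by linarith
  have hm := m2_mid hp hC h1 h2
  set gap : X n → ℝ := fun y => ‖dx F y + G1 y‖ ^ p / 2 + ‖dx F y + G2 y‖ ^ p / 2 -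
        ‖(1 / 2 : ℝ) • ((dx F y + G1 y) + (dx F y + G2 y))‖ ^ p with hgap
  have hmid : ∀ y, (1 / 2 : ℝ) • ((dx F y + G1 y) + (dx F y + G2 y)) =
      dx F y + ((1 / 2 : ℝ) • G1 y + (1 / 2 : ℝ) • G2 y) := fun y => by module
  have hgi : Integrable gap volume := by
    have e3 := m2_int_pow hp hF hm.1
    refine (((m2_int_pow hp hF h1.1).div_const 2).add
      ((m2_int_pow hp hF h2.1).div_const 2)).sub (e3.congr ?_)
    exact Eventually.of_forall fun y => by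
      show ‖dx F y + ((1 / 2 : ℝ) • G1 y + (1 / 2 : ℝ) • G2 y)‖ ^ p =
        ‖(1 / 2 : ℝ) • ((dx F y + G1 y) + (dx F y + G2 y))‖ ^ p
      rw [hmid]
  have hgo : ∀ᵐ y, y ∉ C ∪ tsupport F → gap y = 0 := by
    filter_upwards [m2_off (F := F) hp hC h1.1, m2_off (F := F) hp hC h2.1] with y a b hy
    obtain ⟨-, a2, -, a4⟩ := a hy
    obtain ⟨-, b2, -, -⟩ := b hy
    simp only [hgap]
    rw [a2, b2, a4]
    simp [Real.zero_rpow hp0.ne']
  have hsi : Integrable (fun y => (zt1 y - zt2 y) ^ 2) volume :=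
    (h1.1.memt.sub h2.1.memt).integrable_sq
  have hso : ∀ᵐ y, y ∉ C ∪ tsupport F → (zt1 y - zt2 y) ^ 2 = 0 := by
    filter_upwards [m2_off (F := F) hp hC h1.1, m2_off (F := F) hp hC h2.1] with y a b hy
    rw [(a hy).1, (b hy).1]
    simp
  obtain ⟨w1, w2⟩ := m2_weight hε hT hsi hso
  obtain ⟨w3, w4⟩ := m2_weight hε hT hgi hgo
  refine ⟨∫ y, Real.exp (-(y.2 / ε)) * (zt1 y - zt2 y) ^ 2,
    ∫ y, Real.exp (-(y.2 / ε)) * gap y, ?_, ?_, ?_, ?_, ?_⟩
  · exact integral_nonneg fun y => mul_nonneg (Real.exp_pos _).le (sq_nonneg _)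
  · exact integral_nonneg fun y => mul_nonneg (Real.exp_pos _).le (m2_gap_nonneg hp _ _)
  · exact w2 (Eventually.of_forall fun y => sq_nonneg _)
  · exact w4 (Eventually.of_forall fun y => m2_gap_nonneg hp _ _)
  · have j1 := m2_int_J hp hC hε hT hF h1.1
    have j2 := m2_int_J hp hC hε hT hF h2.1
    have j3 := m2_int_J hp hC hε hT hF hm.1
    unfold Jf
    refine m2_lin (ε / 8) p j1 j2 j3 w1 w3 fun y => ?_
    simp only [hgap]
    rw [hmid]
    field_simp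
    ring

private theorem m2_J_nonneg (hp : 1 < p) {ε : ℝ} (hε : 0 < ε) (F zt : X n → ℝ) (G : X n → E n) :
    0 ≤ Jf p ε F zt G := by
  refine integral_nonneg fun y => mul_nonneg (Real.exp_pos _).le (add_nonneg ?_ ?_)
  · positivity
  · exact div_nonneg (by positivity) (by linarith)

private theorem m2_pow_le (hp : 1 < p) {C : Set (X n)} (hC : IsCompact C) {ε T : ℝ} (hε : 0 < ε)
    {F z zt : X n → ℝ} {G : X n → E n} (hT : ∀ y ∈ C ∪ tsupport F, |y.2| ≤ T)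
    (hF : Tst univ F) (h : W1 p C z zt G) :
    ∫ y, ‖dx F y + G y‖ ^ p ≤ Real.exp (T / ε) * (p * Jf p ε F zt G) := by
  have hp0 : 0 < p := by linarith
  have ho : ∀ᵐ y, y ∉ C ∪ tsupport F → ‖dx F y + G y‖ ^ p = 0 := by
    filter_upwards [m2_off (F := F) hp hC h] with y a hy
    obtain ⟨-, a2, -, a4⟩ := a hy
    rw [a2, a4, add_zero, norm_zero, Real.zero_rpow hp0.ne']
  obtain ⟨w1, w2⟩ := m2_weight hε hT (m2_int_pow hp hF h) ho
  refine (w2 (Eventually.of_forall fun y => by positivity)).trans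
    (mul_le_mul_of_nonneg_left ?_ (Real.exp_pos _).le)
  unfold Jf
  rw [← integral_const_mul]
  refine integral_mono w1 ((m2_int_J hp hC hε hT hF h).const_mul p) fun y => ?_
  show Real.exp (-(y.2 / ε)) * ‖dx F y + G y‖ ^ p ≤
    p * (Real.exp (-(y.2 / ε)) * (ε / 2 * (dt F y + zt y) ^ 2 + ‖dx F y + G y‖ ^ p / p))
  have e1 : p * (Real.exp (-(y.2 / ε)) * (ε / 2 * (dt F y + zt y) ^ 2 + ‖dx F y + G y‖ ^ p / p)) =
      Real.exp (-(y.2 / ε)) * ‖dx F y + G y‖ ^ p +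
        p * (Real.exp (-(y.2 / ε)) * (ε / 2 * (dt F y + zt y) ^ 2)) := by
    field_simp
    ring
  rw [e1]
  have : 0 ≤ p * (Real.exp (-(y.2 / ε)) * (ε / 2 * (dt F y + zt y) ^ 2)) := by positivity
  linarith

/-- passing to the limit in the weak derivatives -/
private theorem m2_limit (hp : 1 < p) {C : Set (X n)} (hC : IsCompact C) {z zt : ℕ → X n → ℝ}
    {G : ℕ → X n → E n} (h : ∀ k, W1 p C (z k) (zt k) (G k)) {zl ztl : X n → ℝ} {Gl : X n → E n}
    (hz : MemLp zl (ENNReal.ofReal 2) volume) (hzt : MemLp ztl (ENNReal.ofReal 2) volume)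
    (hG : MemLp Gl (ENNReal.ofReal p) volume)
    (cz : Tendsto (fun k => eLpNorm (z k - zl) (ENNReal.ofReal 2) volume) atTop (𝓝 0))
    (czt : Tendsto (fun k => eLpNorm (zt k - ztl) (ENNReal.ofReal 2) volume) atTop (𝓝 0))
    (cG : Tendsto (fun k => eLpNorm (G k - Gl) (ENNReal.ofReal p) volume) atTop (𝓝 0)) :
    WG univ zl Gl ∧ WT zl ztl := by
  have h2 : (2 : ENNReal) = ENNReal.ofReal 2 := by simp
  have hp1 : (1 : ENNReal) ≤ ENNReal.ofReal p := by
    rw [← ENNReal.ofReal_one]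
    exact ENNReal.ofReal_le_ofReal hp.le
  have hz' : ∀ k, MemLp (z k) 2 volume := fun k => (h k).toW0.memLp_fn hC.isBounded 2
  have hz'' : ∀ k, MemLp (z k) (ENNReal.ofReal 2) volume := fun k => h2 ▸ hz' k
  have hzt'' : ∀ k, MemLp (zt k) (ENNReal.ofReal 2) volume := fun k => h2 ▸ (h k).memt
  have h12 : (1 : ENNReal) ≤ ENNReal.ofReal 2 := by
    rw [← ENNReal.ofReal_one]
    exact ENNReal.ofReal_le_ofReal (by norm_num)
  constructor
  · intro φ hφ
    have hφc : Continuous φ := hφ.smooth.continuous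
    have hdc : Continuous (dx φ) := (contDiff_dx hφ.smooth).continuous
    have hds : HasCompactSupport (dx φ) :=
      HasCompactSupport.intro hφ.cpt fun y hy => dx_zero_of_notMem y hy
    obtain ⟨B1, hB1⟩ := hdc.bounded_above_of_compact_support hds
    obtain ⟨B2, hB2⟩ := hφc.bounded_above_of_compact_support hφ.cpt
    have hB10 : 0 ≤ B1 := (norm_nonneg _).trans (hB1 0)
    have hB20 : 0 ≤ B2 := (norm_nonneg _).trans (hB2 0)
    have t1 : Tendsto (fun k => ∫ y, z k y • dx φ y) atTop (𝓝 (∫ y, zl y • dx φ y)) := by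
      refine m2_int_tendsto (q := 2) (by norm_num) hz'' hz cz hφ.cpt hB10 (fun k => ?_) ?_ ?_ ?_
      · exact ((hz'' k).locallyIntegrable h12).integrable_smul_right_of_hasCompactSupport hdc hds
      · exact (hz.locallyIntegrable h12).integrable_smul_right_of_hasCompactSupport hdc hds
      · intro k y
        rw [← sub_smul, norm_smul, mul_comm]
        exact mul_le_mul_of_nonneg_right (hB1 y) (norm_nonneg _)
      · intro k y hy
        rw [dx_zero_of_notMem y hy, smul_zero, smul_zero]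
    have t2 : Tendsto (fun k => ∫ y, φ y • G k y) atTop (𝓝 (∫ y, φ y • Gl y)) := by
      refine m2_int_tendsto (q := p) hp.le (fun k => (h k).mem) hG cG hφ.cpt hB20 (fun k => ?_) ?_ ?_ ?_
      · exact ((h k).mem.locallyIntegrable hp1).integrable_smul_left_of_hasCompactSupport hφc hφ.cpt
      · exact (hG.locallyIntegrable hp1).integrable_smul_left_of_hasCompactSupport hφc hφ.cpt
      · intro k y
        rw [← smul_sub, norm_smul]
        exact mul_le_mul_of_nonneg_right (hB2 y) (norm_nonneg _)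
      · intro k y hy
        rw [image_eq_zero_of_notMem_tsupport hy, zero_smul, zero_smul]
    have t3 : (fun k => ∫ y, z k y • dx φ y) = fun k => - ∫ y, φ y • G k y :=
      funext fun k => (h k).wg φ hφ
    rw [t3] at t1
    exact tendsto_nhds_unique t1 t2.neg
  · intro φ hφ
    have hφc : Continuous φ := hφ.smooth.continuous
    have hdc : Continuous (dt φ) := (contDiff_dt hφ.smooth).continuous
    have hds : HasCompactSupport (dt φ) :=
      HasCompactSupport.intro hφ.cpt fun y hy => dt_zero_of_notMem y hy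
    obtain ⟨B1, hB1⟩ := hdc.bounded_above_of_compact_support hds
    obtain ⟨B2, hB2⟩ := hφc.bounded_above_of_compact_support hφ.cpt
    have hB10 : 0 ≤ B1 := (norm_nonneg _).trans (hB1 0)
    have hB20 : 0 ≤ B2 := (norm_nonneg _).trans (hB2 0)
    have t1 : Tendsto (fun k => ∫ y, z k y * dt φ y) atTop (𝓝 (∫ y, zl y * dt φ y)) := by
      refine m2_int_tendsto (q := 2) (by norm_num) hz'' hz cz hφ.cpt hB10 (fun k => ?_) ?_ ?_ ?_
      · exact ((hz'' k).locallyIntegrable h12).integrable_smul_right_of_hasCompactSupport hdc hds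
      · exact (hz.locallyIntegrable h12).integrable_smul_right_of_hasCompactSupport hdc hds
      · intro k y
        rw [← sub_mul, norm_mul, mul_comm]
        exact mul_le_mul_of_nonneg_right (hB1 y) (norm_nonneg _)
      · intro k y hy
        rw [dt_zero_of_notMem y hy, mul_zero, mul_zero]
    have t2 : Tendsto (fun k => ∫ y, φ y * zt k y) atTop (𝓝 (∫ y, φ y * ztl y)) := by
      refine m2_int_tendsto (q := 2) (by norm_num) hzt'' hzt czt hφ.cpt hB20 (fun k => ?_) ?_ ?_ ?_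
      · exact ((hzt'' k).locallyIntegrable h12).integrable_smul_left_of_hasCompactSupport hφc hφ.cpt
      · exact (hzt.locallyIntegrable h12).integrable_smul_left_of_hasCompactSupport hφc hφ.cpt
      · intro k y
        rw [← mul_sub, norm_mul]
        exact mul_le_mul_of_nonneg_right (hB2 y) (norm_nonneg _)
      · intro k y hy
        rw [image_eq_zero_of_notMem_tsupport hy, zero_mul, zero_mul]
    have t3 : (fun k => ∫ y, z k y * dt φ y) = fun k => - ∫ y, φ y * zt k y :=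
      funext fun k => (h k).wt φ hφ
    rw [t3] at t1
    exact tendsto_nhds_unique t1 t2.neg

/-- lower semicontinuity of the functional -/
private theorem m2_fatou (hp : 1 < p) {C : Set (X n)} (hC : IsCompact C) {ε T : ℝ} (hε : 0 < ε)
    {F : X n → ℝ} (hT : ∀ y ∈ C ∪ tsupport F, |y.2| ≤ T) (hF : Tst univ F)
    {z zt : ℕ → X n → ℝ} {G : ℕ → X n → E n} (h : ∀ k, W1 p C (z k) (zt k) (G k))
    {zl ztl : X n → ℝ} {Gl : X n → E n} (hl : W1 p C zl ztl Gl)
    (czt : ∀ᵐ y, Tendsto (fun k => zt k y) atTop (𝓝 (ztl y)))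
    (cG : ∀ᵐ y, Tendsto (fun k => G k y) atTop (𝓝 (Gl y))) {J0 : ℝ} (hJ0 : 0 ≤ J0)
    (hJ : Tendsto (fun k => Jf p ε F (zt k) (G k)) atTop (𝓝 J0)) :
    Jf p ε F ztl Gl ≤ J0 := by
  have hp0 : 0 < p := by linarith
  have hnn : ∀ (ζ : X n → ℝ) (Γ : X n → E n) (y : X n), 0 ≤ Real.exp (-(y.2 / ε)) *
      (ε / 2 * (dt F y + ζ y) ^ 2 + ‖dx F y + Γ y‖ ^ p / p) := fun ζ Γ y => by positivity
  have jk := fun k => m2_int_J hp hC hε hT hF (h k)
  have jl := m2_int_J hp hC hε hT hF hl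
  have e1 : ∀ k, ENNReal.ofReal (Jf p ε F (zt k) (G k)) = ∫⁻ y, ENNReal.ofReal
      (Real.exp (-(y.2 / ε)) * (ε / 2 * (dt F y + zt k y) ^ 2 + ‖dx F y + G k y‖ ^ p / p)) :=
    fun k => ofReal_integral_eq_lintegral_ofReal (jk k) (Eventually.of_forall (hnn _ _))
  have e2 : ENNReal.ofReal (Jf p ε F ztl Gl) = ∫⁻ y, ENNReal.ofReal
      (Real.exp (-(y.2 / ε)) * (ε / 2 * (dt F y + ztl y) ^ 2 + ‖dx F y + Gl y‖ ^ p / p)) :=
    ofReal_integral_eq_lintegral_ofReal jl (Eventually.of_forall (hnn _ _))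
  have e3 : ∫⁻ y, ENNReal.ofReal
      (Real.exp (-(y.2 / ε)) * (ε / 2 * (dt F y + ztl y) ^ 2 + ‖dx F y + Gl y‖ ^ p / p)) ≤
      ∫⁻ y, liminf (fun k => ENNReal.ofReal
      (Real.exp (-(y.2 / ε)) * (ε / 2 * (dt F y + zt k y) ^ 2 + ‖dx F y + G k y‖ ^ p / p))) atTop := by
    refine lintegral_mono_ae ?_
    filter_upwards [czt, cG] with y a b
    refine le_of_eq (Tendsto.liminf_eq ?_).symm
    refine (ENNReal.continuous_ofReal.tendsto _).comp ?_
    refine (Tendsto.add ((((a.const_add (dt F y)).pow 2)).const_mul (ε / 2)) ?_).const_mul _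
    exact (((b.const_add (dx F y)).norm).rpow_const (Or.inr hp0.le)).div_const p
  have e4 := lintegral_liminf_le' (u := atTop) (μ := (volume : Measure (X n))) (f := fun k y => ENNReal.ofReal
      (Real.exp (-(y.2 / ε)) * (ε / 2 * (dt F y + zt k y) ^ 2 + ‖dx F y + G k y‖ ^ p / p)))
      (fun k => (jk k).aestronglyMeasurable.aemeasurable.ennreal_ofReal)
  have e5 : liminf (fun k => ∫⁻ y, ENNReal.ofReal (Real.exp (-(y.2 / ε)) *
      (ε / 2 * (dt F y + zt k y) ^ 2 + ‖dx F y + G k y‖ ^ p / p))) atTop = ENNReal.ofReal J0 := by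
    refine Tendsto.liminf_eq ?_
    have e6 : (fun k => ∫⁻ y, ENNReal.ofReal (Real.exp (-(y.2 / ε)) *
      (ε / 2 * (dt F y + zt k y) ^ 2 + ‖dx F y + G k y‖ ^ p / p))) =
      fun k => ENNReal.ofReal (Jf p ε F (zt k) (G k)) := funext fun k => (e1 k).symm
    rw [e6]
    exact (ENNReal.continuous_ofReal.tendsto _).comp hJ
  have e7 : ENNReal.ofReal (Jf p ε F ztl Gl) ≤ ENNReal.ofReal J0 := by
    rw [e2, ← e5]
    exact e3.trans e4
  exact (ENNReal.ofReal_le_ofReal_iff hJ0).1 e7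

private theorem m2_rate {c δ : ℝ} (hδ : 0 < δ) : ∃ N : ℕ, c * (1 / ((N : ℝ) + 1)) ≤ δ := by
  obtain ⟨N, hN⟩ := exists_nat_gt (c / δ)
  refine ⟨N, ?_⟩
  rw [mul_one_div, div_le_iff₀ (by positivity)]
  rw [div_lt_iff₀ hδ] at hN
  nlinarith

private theorem m2_cau_grad (hp : 1 < p) {F : X n → ℝ} {G : ℕ → X n → E n} {K E0 : ℝ}
    (hE : 0 < E0)
    (hi : ∀ k, Integrable (fun y => ‖dx F y + G k y‖ ^ p) volume)
    (hm : ∀ k l, Integrable (fun y => ‖(1 / 2 : ℝ) • ((dx F y + G k y) + (dx F y + G l y))‖ ^ p)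
      volume)
    (hK : ∀ k, ∫ y, ‖dx F y + G k y‖ ^ p ≤ K)
    (h : ∀ N : ℕ, ∀ k ≥ N, ∀ l ≥ N, ∃ I2 : ℝ,
      ∫ y, (‖dx F y + G k y‖ ^ p / 2 + ‖dx F y + G l y‖ ^ p / 2 -
        ‖(1 / 2 : ℝ) • ((dx F y + G k y) + (dx F y + G l y))‖ ^ p) ≤ E0 * I2 ∧
      I2 / p ≤ 1 / ((N : ℝ) + 1)) :
    ∀ δ > 0, ∃ N, ∀ k ≥ N, ∀ l ≥ N, ∫ y, ‖G k y - G l y‖ ^ p ≤ δ := by
  intro δ hδ
  have hp0 : 0 < p := by linarith
  have hK0 : 0 ≤ K := (integral_nonneg fun y => by positivity).trans (hK 0)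
  set δ' : ℝ := δ / (2 * (2 * K + 1)) with hδ'
  have hδ0 : 0 < δ' := by positivity
  obtain ⟨C', hC', hq⟩ := conv_quant (n := n) hp δ' hδ0
  obtain ⟨N, hN⟩ := m2_rate (c := C' * (E0 * p)) (half_pos hδ)
  refine ⟨N, fun k hk l hl => ?_⟩
  obtain ⟨I2, h1, h2⟩ := h N k hk l hl
  have hgi : Integrable (fun y => ‖dx F y + G k y‖ ^ p / 2 + ‖dx F y + G l y‖ ^ p / 2 -
        ‖(1 / 2 : ℝ) • ((dx F y + G k y) + (dx F y + G l y))‖ ^ p) volume :=
    (((hi k).div_const 2).add ((hi l).div_const 2)).sub (hm k l)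
  have hsi : Integrable (fun y => ‖dx F y + G k y‖ ^ p + ‖dx F y + G l y‖ ^ p) volume :=
    (hi k).add (hi l)
  have e1 : ∫ y, ‖G k y - G l y‖ ^ p ≤
      ∫ y, (C' * (‖dx F y + G k y‖ ^ p / 2 + ‖dx F y + G l y‖ ^ p / 2 -
        ‖(1 / 2 : ℝ) • ((dx F y + G k y) + (dx F y + G l y))‖ ^ p) +
        δ' * (‖dx F y + G k y‖ ^ p + ‖dx F y + G l y‖ ^ p)) := by
    refine integral_mono_of_nonneg (Eventually.of_forall fun y => by positivity)
      ((hgi.const_mul C').add (hsi.const_mul δ')) (Eventually.of_forall fun y => ?_)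
    have := hq (dx F y + G k y) (dx F y + G l y)
    rwa [add_sub_add_left_eq_sub] at this
  have e2 : ∫ y, (C' * (‖dx F y + G k y‖ ^ p / 2 + ‖dx F y + G l y‖ ^ p / 2 -
        ‖(1 / 2 : ℝ) • ((dx F y + G k y) + (dx F y + G l y))‖ ^ p) +
        δ' * (‖dx F y + G k y‖ ^ p + ‖dx F y + G l y‖ ^ p)) =
      C' * (∫ y, (‖dx F y + G k y‖ ^ p / 2 + ‖dx F y + G l y‖ ^ p / 2 -
        ‖(1 / 2 : ℝ) • ((dx F y + G k y) + (dx F y + G l y))‖ ^ p)) +
      δ' * ((∫ y, ‖dx F y + G k y‖ ^ p) + ∫ y, ‖dx F y + G l y‖ ^ p) := by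
    rw [integral_add (hgi.const_mul C') (hsi.const_mul δ'), integral_const_mul,
      integral_const_mul, integral_add (hi k) (hi l)]
  have e3 : δ' * ((∫ y, ‖dx F y + G k y‖ ^ p) + ∫ y, ‖dx F y + G l y‖ ^ p) ≤ δ / 2 := by
    calc δ' * ((∫ y, ‖dx F y + G k y‖ ^ p) + ∫ y, ‖dx F y + G l y‖ ^ p)
        ≤ δ' * (2 * K + 1) := by
          refine mul_le_mul_of_nonneg_left ?_ hδ0.le
          linarith [hK k, hK l]
      _ = δ / 2 := by
          rw [hδ']
          field_simp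
  have e4 : C' * (∫ y, (‖dx F y + G k y‖ ^ p / 2 + ‖dx F y + G l y‖ ^ p / 2 -
        ‖(1 / 2 : ℝ) • ((dx F y + G k y) + (dx F y + G l y))‖ ^ p)) ≤ δ / 2 := by
    have h3 : I2 ≤ p * (1 / ((N : ℝ) + 1)) := by
      rw [div_le_iff₀ hp0] at h2
      linarith
    calc C' * (∫ y, (‖dx F y + G k y‖ ^ p / 2 + ‖dx F y + G l y‖ ^ p / 2 -
        ‖(1 / 2 : ℝ) • ((dx F y + G k y) + (dx F y + G l y))‖ ^ p)) ≤ C' * (E0 * I2) :=
          mul_le_mul_of_nonneg_left h1 hC'.le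
      _ ≤ C' * (E0 * (p * (1 / ((N : ℝ) + 1)))) := by gcongr
      _ = C' * (E0 * p) * (1 / ((N : ℝ) + 1)) := by ring
      _ ≤ δ / 2 := hN
  rw [e2] at e1
  linarith

theorem exists_min (hp : 1 < p) {C : Set (X n)} (hC : IsCompact C) {ε M : ℝ} (hε : 0 < ε)
    {obs F : X n → ℝ} (hobs : ∀ z, 0 ≤ obs z) (hF : Tst univ F) (hM : ∀ z, |F z| ≤ M) :
    ∃ z zt G, W1 p C z zt G ∧ (∀ᵐ y, - obs y ≤ z y) ∧ (∀ᵐ y, |F y + z y| ≤ M) ∧
      ∀ w wt W, W1 p C w wt W → (∀ᵐ y, - obs y ≤ w y) → (∀ᵐ y, |F y + w y| ≤ M) →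
        Jf p ε F zt G ≤ Jf p ε F wt W := by
  have hp0 : 0 < p := by linarith
  obtain ⟨T, hT⟩ : ∃ T : ℝ, ∀ y ∈ C ∪ tsupport F, |y.2| ≤ T := by
    have hb : Bornology.IsBounded (C ∪ tsupport F) :=
      hC.isBounded.union (IsCompact.isBounded hF.cpt)
    obtain ⟨R, hR⟩ := hb.exists_norm_le
    exact ⟨R, fun y hy => (norm_snd_le y).trans (hR y hy)⟩
  have hTC : ∀ y ∈ C, |y.2| ≤ T := fun y hy => hT y (Or.inl hy)
  set S : Set ℝ := {j | ∃ z zt G, M2K p M C obs F z zt G ∧ Jf p ε F zt G = j} with hS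
  have hSne : S.Nonempty := by
    refine ⟨_, fun _ => 0, fun _ => 0, fun _ => 0, ⟨W1.zero_fn hp, ?_, ?_⟩, rfl⟩
    · exact Eventually.of_forall fun y => by
        show - obs y ≤ 0
        linarith [hobs y]
    · exact Eventually.of_forall fun y => by
        show |F y + 0| ≤ M
        rw [add_zero]
        exact hM y
  have hSbd : BddBelow S := ⟨0, by
    rintro j ⟨z, zt, G, -, rfl⟩
    exact m2_J_nonneg hp hε _ _ _⟩
  have hJ0 : 0 ≤ sInf S := le_csInf hSne (by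
    rintro j ⟨z, zt, G, -, rfl⟩
    exact m2_J_nonneg hp hε _ _ _)
  set J0 := sInf S with hJ0def
  have hmin : ∀ k : ℕ, ∃ z zt G, M2K p M C obs F z zt G ∧
      Jf p ε F zt G < J0 + 1 / ((k : ℝ) + 1) := by
    intro k
    obtain ⟨j, ⟨z, zt, G, h, rfl⟩, hj⟩ := exists_lt_of_csInf_lt hSne
      (lt_add_of_pos_right J0 (by positivity : (0 : ℝ) < 1 / ((k : ℝ) + 1)))
    exact ⟨z, zt, G, h, hj⟩
  choose z zt G hK hJ using hmin
  have hge : ∀ {w wt : X n → ℝ} {W : X n → E n}, M2K p M C obs F w wt W → J0 ≤ Jf p ε F wt W :=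
    fun h => csInf_le hSbd ⟨_, _, _, h, rfl⟩
  have hw : ∀ k, W1 p C (z k) (zt k) (G k) := fun k => (hK k).1
  have hle1 : ∀ N k : ℕ, N ≤ k → 1 / ((k : ℝ) + 1) ≤ 1 / ((N : ℝ) + 1) := by
    intro N k hk
    refine one_div_le_one_div_of_le (by positivity) ?_
    have : (N : ℝ) ≤ k := by exact_mod_cast hk
    linarith
  have hsplit : ∀ N : ℕ, ∀ k ≥ N, ∀ l ≥ N, ∃ I1 I2 : ℝ, 0 ≤ I1 ∧ 0 ≤ I2 ∧
      ∫ y, (zt k y - zt l y) ^ 2 ≤ Real.exp (T / ε) * I1 ∧
      ∫ y, (‖dx F y + G k y‖ ^ p / 2 + ‖dx F y + G l y‖ ^ p / 2 -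
        ‖(1 / 2 : ℝ) • ((dx F y + G k y) + (dx F y + G l y))‖ ^ p) ≤ Real.exp (T / ε) * I2 ∧
      ε / 8 * I1 + I2 / p ≤ 1 / ((N : ℝ) + 1) := by
    intro N k hk l hl
    obtain ⟨I1, I2, a1, a2, a3, a4, a5⟩ := m2_split hp hC hε hT hF (hK k) (hK l)
    refine ⟨I1, I2, a1, a2, a3, a4, ?_⟩
    rw [a5]
    have b1 := hge (m2_mid hp hC (hK k) (hK l))
    have b2 := hJ k
    have b3 := hJ l
    have b4 := hle1 N k hk
    have b5 := hle1 N l hl
    linarith
  -- the time derivatives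
  have ct : ∀ δ > 0, ∃ N, ∀ k ≥ N, ∀ l ≥ N, ∫ y, (zt k y - zt l y) ^ 2 ≤ δ := by
    intro δ hδ
    obtain ⟨N, hN⟩ := m2_rate (c := Real.exp (T / ε) * (8 / ε)) hδ
    refine ⟨N, fun k hk l hl => ?_⟩
    obtain ⟨I1, I2, a1, a2, a3, a4, a5⟩ := hsplit N k hk l hl
    have b1 : 0 ≤ I2 / p := by positivity
    have b2 : I1 ≤ 8 / ε * (1 / ((N : ℝ) + 1)) := by
      have b3 : ε / 8 * I1 ≤ 1 / ((N : ℝ) + 1) := by linarith
      calc I1 = 8 / ε * (ε / 8 * I1) := by field_simp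
        _ ≤ 8 / ε * (1 / ((N : ℝ) + 1)) := by gcongr
    calc ∫ y, (zt k y - zt l y) ^ 2 ≤ Real.exp (T / ε) * I1 := a3
      _ ≤ Real.exp (T / ε) * (8 / ε * (1 / ((N : ℝ) + 1))) := by gcongr
      _ = Real.exp (T / ε) * (8 / ε) * (1 / ((N : ℝ) + 1)) := by ring
      _ ≤ δ := hN
  -- the functions
  have cf : ∀ δ > 0, ∃ N, ∀ k ≥ N, ∀ l ≥ N, ∫ y, (z k y - z l y) ^ 2 ≤ δ := by
    intro δ hδ
    obtain ⟨N, hN⟩ := ct (δ / (4 * T ^ 2 + 1)) (by positivity)
    refine ⟨N, fun k hk l hl => ?_⟩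
    have b1 := poincare_t hp hC.isBounded hTC (W1.lin hp hC.isBounded (hw k) (hw l) 1 (-1))
    have b2 : ∀ a b : ℝ, 1 * a + -1 * b = a - b := fun a b => by ring
    simp only [b2] at b1
    have b3 := hN k hk l hl
    have b4 : 0 ≤ ∫ y, (zt k y - zt l y) ^ 2 := integral_nonneg fun y => by positivity
    calc ∫ y, (z k y - z l y) ^ 2 ≤ 4 * T ^ 2 * ∫ y, (zt k y - zt l y) ^ 2 := b1
      _ ≤ (4 * T ^ 2 + 1) * ∫ y, (zt k y - zt l y) ^ 2 := by
          refine mul_le_mul_of_nonneg_right ?_ b4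
          linarith
      _ ≤ (4 * T ^ 2 + 1) * (δ / (4 * T ^ 2 + 1)) := by gcongr
      _ = δ := by field_simp
  -- the gradients
  have cg : ∀ δ > 0, ∃ N, ∀ k ≥ N, ∀ l ≥ N, ∫ y, ‖G k y - G l y‖ ^ p ≤ δ := by
    refine m2_cau_grad (F := F) (K := Real.exp (T / ε) * (p * (J0 + 1))) (E0 := Real.exp (T / ε))
      hp (Real.exp_pos _) (fun k => m2_int_pow hp hF (hw k)) ?_ ?_ ?_
    · intro k l
      refine (m2_int_pow hp hF (m2_mid hp hC (hK k) (hK l)).1).congr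
        (Eventually.of_forall fun y => ?_)
      show ‖dx F y + ((1 / 2 : ℝ) • G k y + (1 / 2 : ℝ) • G l y)‖ ^ p =
        ‖(1 / 2 : ℝ) • ((dx F y + G k y) + (dx F y + G l y))‖ ^ p
      congr 2
      module
    · intro k
      refine (m2_pow_le hp hC hε hT hF (hw k)).trans ?_
      have b1 := hJ k
      have b2 := hle1 0 k (Nat.zero_le k)
      have b3 : Jf p ε F (zt k) (G k) ≤ J0 + 1 := by
        have : 1 / (((0 : ℕ) : ℝ) + 1) = 1 := by norm_num
        linarith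
      gcongr
    · intro N k hk l hl
      obtain ⟨I1, I2, a1, a2, a3, a4, a5⟩ := hsplit N k hk l hl
      refine ⟨I2, a4, ?_⟩
      have : 0 ≤ ε / 8 * I1 := by positivity
      linarith
  -- limits
  have h2 : (2 : ENNReal) = ENNReal.ofReal 2 := by simp
  have hz2 : ∀ k, MemLp (z k) (ENNReal.ofReal 2) volume := fun k =>
    h2 ▸ (hw k).toW0.memLp_fn hC.isBounded 2
  have hzt2 : ∀ k, MemLp (zt k) (ENNReal.ofReal 2) volume := fun k => h2 ▸ (hw k).memt
  have hr2 : ∀ x : ℝ, ‖x‖ ^ (2 : ℝ) = x ^ 2 := fun x => by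
    rw [Real.rpow_two, Real.norm_eq_abs, sq_abs]
  obtain ⟨zl, hzl, czl⟩ := m2_complete (q := 2) (by norm_num) z hz2 (by
    simpa only [hr2] using cf)
  obtain ⟨ztl, hztl, cztl⟩ := m2_complete (q := 2) (by norm_num) zt hzt2 (by
    simpa only [hr2] using ct)
  obtain ⟨Gl, hGl, cGl⟩ := m2_complete (q := p) hp.le G (fun k => (hw k).mem) cg
  obtain ⟨hwg, hwt⟩ := m2_limit hp hC hw hzl hztl hGl czl cztl cGl
  obtain ⟨n1, hn1, an1⟩ := m2_subseq (q := 2) (by norm_num) hz2 hzl czl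
  obtain ⟨n2, hn2, an2⟩ := m2_subseq (q := 2) (by norm_num) (fun k => hzt2 (n1 k)) hztl
    (cztl.comp hn1.tendsto_atTop)
  obtain ⟨n3, hn3, an3⟩ := m2_subseq (q := p) hp.le (fun k => (hw (n1 (n2 k))).mem) hGl
    (cGl.comp (hn1.comp hn2).tendsto_atTop)
  have hmono : StrictMono (fun k => n1 (n2 (n3 k))) := hn1.comp (hn2.comp hn3)
  have az : ∀ᵐ y, Tendsto (fun k => z (n1 (n2 (n3 k))) y) atTop (𝓝 (zl y)) := by
    filter_upwards [an1] with y hy
    exact hy.comp (hn2.comp hn3).tendsto_atTop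
  have azt : ∀ᵐ y, Tendsto (fun k => zt (n1 (n2 (n3 k))) y) atTop (𝓝 (ztl y)) := by
    filter_upwards [an2] with y hy
    exact hy.comp hn3.tendsto_atTop
  have hob : ∀ᵐ y, ∀ k, - obs y ≤ z k y := ae_all_iff.2 fun k => (hK k).2.1
  have hMk : ∀ᵐ y, ∀ k, |F y + z k y| ≤ M := ae_all_iff.2 fun k => (hK k).2.2
  have hzk : ∀ᵐ y, ∀ k, y ∉ C → z k y = 0 := ae_all_iff.2 fun k => (hw k).zero
  have lob : ∀ᵐ y, - obs y ≤ zl y := by
    filter_upwards [az, hob] with y h3 h4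
    exact ge_of_tendsto' h3 fun k => h4 _
  have lM : ∀ᵐ y, |F y + zl y| ≤ M := by
    filter_upwards [az, hMk] with y h3 h4
    exact le_of_tendsto' ((h3.const_add (F y)).abs) fun k => h4 _
  have lz : ∀ᵐ y, y ∉ C → zl y = 0 := by
    filter_upwards [az, hzk] with y h3 h4 hy
    refine tendsto_nhds_unique h3 ?_
    have : (fun k => z (n1 (n2 (n3 k))) y) = fun _ => (0 : ℝ) := funext fun k => h4 _ hy
    rw [this]
    exact tendsto_const_nhds
  have hW : W1 p C zl ztl Gl :=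
    { meas := hzl.aestronglyMeasurable
      bdd := ⟨2 * M, by
        filter_upwards [lM] with y h3
        have h4 := hM y
        rw [abs_le] at h3 h4 ⊢
        constructor <;> linarith [h3.1, h3.2, h4.1, h4.2]⟩
      zero := lz
      mem := hGl
      wg := hwg
      memt := by simpa using hztl
      wt := hwt }
  have hJlim : Tendsto (fun k => Jf p ε F (zt k) (G k)) atTop (𝓝 J0) := by
    have h3 : Tendsto (fun k : ℕ => J0 + 1 / ((k : ℝ) + 1)) atTop (𝓝 (J0 + 0)) :=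
      tendsto_const_nhds.add tendsto_one_div_add_atTop_nhds_zero_nat
    rw [add_zero] at h3
    exact tendsto_of_tendsto_of_tendsto_of_le_of_le tendsto_const_nhds h3
      (fun k => hge (hK k)) (fun k => (hJ k).le)
  have hfin : Jf p ε F ztl Gl ≤ J0 :=
    m2_fatou hp hC hε hT hF (fun k => hw (n1 (n2 (n3 k)))) hW azt an3 hJ0
      (hJlim.comp hmono.tendsto_atTop)
  exact ⟨zl, ztl, Gl, hW, lob, lM, fun w wt W h3 h4 h5 => hfin.trans (hge ⟨h3, h4, h5⟩)⟩

end PP
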