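import Pool.Agent.PP.PW1

open Set Metric Filter Topology MeasureTheory
open scoped ContDiff

noncomputable section

namespace PP

variable {n : ℕ}

theorem pw2_norm_smul_rpow {p t : ℝ} (ht : 0 < t) (a : E n) : ‖t • a‖ ^ p = t ^ p * ‖a‖ ^ p := by
  rw [norm_smul, Real.norm_of_nonneg ht.le, Real.mul_rpow ht.le (norm_nonneg _)]

theorem pw2_A_smul {p t : ℝ} (ht : 0 < t) (a : E n) : A p (t • a) = t ^ (p - 1) • A p a := by
  unfold A
  rw [norm_smul, Real.norm_of_nonneg ht.le, Real.mul_rpow ht.le (norm_nonneg _), smul_smul,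
    smul_smul]
  congr 1
  have e : t ^ (p - 1) = t ^ (p - 2) * t := by
    rw [← Real.rpow_add_one ht.ne']
    congr 1
    ring
  rw [e]
  ring

theorem pw2_main {p : ℝ} (hp : 1 < p) (F : E n × E n → ℝ) (hc : Continuous F)
    (h0 : ∀ x, 0 ≤ F x) (hs : ∀ a b : E n, F (a, b) = 0 → a = b)
    (hh : ∀ (t : ℝ) (a b : E n), 0 < t → F (t • a, t • b) = t ^ p * F (a, b))
    (δ : ℝ) (hδ : 0 < δ) : ∃ C : ℝ, 0 < C ∧ ∀ a b : E n,
    ‖a - b‖ ^ p ≤ C * F (a, b) + δ * (‖a‖ ^ p + ‖b‖ ^ p) := by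
  have hp0 : 0 < p := by linarith
  set S : Set (E n × E n) := {x | ‖x.1‖ ^ p + ‖x.2‖ ^ p = 1 ∧ δ ≤ ‖x.1 - x.2‖ ^ p} with hS
  have hcn : Continuous fun x : E n × E n => ‖x.1‖ ^ p :=
    (Real.continuous_rpow_const hp0.le).comp (continuous_norm.comp continuous_fst)
  have hcn2 : Continuous fun x : E n × E n => ‖x.2‖ ^ p :=
    (Real.continuous_rpow_const hp0.le).comp (continuous_norm.comp continuous_snd)
  have hcn3 : Continuous fun x : E n × E n => ‖x.1 - x.2‖ ^ p :=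
    (Real.continuous_rpow_const hp0.le).comp
      (continuous_norm.comp (continuous_fst.sub continuous_snd))
  have hle1 : ∀ y : ℝ, 0 ≤ y → y ^ p ≤ 1 → y ≤ 1 := by
    intro y hy h
    by_contra hcon
    push Not at hcon
    have := Real.one_lt_rpow hcon hp0
    linarith
  have hSn : ∀ x ∈ S, ‖x.1‖ ≤ 1 ∧ ‖x.2‖ ≤ 1 := by
    intro x hx
    have h1 : 0 ≤ ‖x.1‖ ^ p := Real.rpow_nonneg (norm_nonneg _) _
    have h2 : 0 ≤ ‖x.2‖ ^ p := Real.rpow_nonneg (norm_nonneg _) _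
    have h3 := hx.1
    exact ⟨hle1 _ (norm_nonneg _) (by linarith), hle1 _ (norm_nonneg _) (by linarith)⟩
  have hScl : IsClosed S :=
    (isClosed_eq (hcn.add hcn2) continuous_const).inter (isClosed_le continuous_const hcn3)
  have hSc : IsCompact S := by
    apply Metric.isCompact_of_isClosed_isBounded hScl
    apply (Metric.isBounded_closedBall (x := (0 : E n × E n)) (r := 1)).subset
    intro x hx
    rw [mem_closedBall_zero_iff, Prod.norm_def]
    exact max_le (hSn x hx).1 (hSn x hx).2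
  obtain ⟨c, hc0, hcS⟩ : ∃ c : ℝ, 0 < c ∧ ∀ x ∈ S, c ≤ F x := by
    rcases S.eq_empty_or_nonempty with he | hne
    · exact ⟨1, one_pos, fun x hx => by rw [he] at hx; exact absurd hx (Set.notMem_empty _)⟩
    · obtain ⟨x, hx, hmin⟩ := hSc.exists_isMinOn hne hc.continuousOn
      refine ⟨F x, ?_, fun y hy => hmin hy⟩
      rcases eq_or_lt_of_le (h0 x) with h | h
      · exfalso
        have h1 : x.1 = x.2 := hs x.1 x.2 (by simpa using h.symm)
        have h2 := hx.2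
        rw [h1, sub_self, norm_zero, Real.zero_rpow hp0.ne'] at h2
        linarith
      · exact h
  have h2p : (0 : ℝ) < 2 ^ p := Real.rpow_pos_of_pos two_pos p
  refine ⟨2 ^ p / c, by positivity, ?_⟩
  intro a b
  have ha : 0 ≤ ‖a‖ ^ p := Real.rpow_nonneg (norm_nonneg _) _
  have hb : 0 ≤ ‖b‖ ^ p := Real.rpow_nonneg (norm_nonneg _) _
  have hCF : 0 ≤ 2 ^ p / c * F (a, b) := mul_nonneg (by positivity) (h0 _)
  rcases eq_or_lt_of_le (add_nonneg ha hb) with hN | hN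
  · have ha0 : ‖a‖ ^ p = 0 := by linarith
    have hb0 : ‖b‖ ^ p = 0 := by linarith
    have ha1 : a = 0 := norm_eq_zero.1 ((Real.rpow_eq_zero (norm_nonneg _) hp0.ne').1 ha0)
    have hb1 : b = 0 := norm_eq_zero.1 ((Real.rpow_eq_zero (norm_nonneg _) hp0.ne').1 hb0)
    have : ‖a - b‖ ^ p = 0 := by
      rw [ha1, hb1, sub_self, norm_zero, Real.zero_rpow hp0.ne']
    rw [this, ← hN, mul_zero, add_zero]
    exact hCF
  · set N := ‖a‖ ^ p + ‖b‖ ^ p with hNdef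
    set t : ℝ := N ^ (-(1 / p)) with ht
    have htpos : 0 < t := Real.rpow_pos_of_pos hN _
    have htp : t ^ p = N⁻¹ := by
      rw [ht, ← Real.rpow_mul hN.le]
      have : -(1 / p) * p = -1 := by field_simp
      rw [this, Real.rpow_neg_one]
    have hsc : ‖a - b‖ ^ p = N * ‖t • a - t • b‖ ^ p := by
      rw [← smul_sub, pw2_norm_smul_rpow htpos, htp, ← mul_assoc, mul_inv_cancel₀ hN.ne', one_mul]
    have hone : ‖t • a‖ ^ p + ‖t • b‖ ^ p = 1 := by
      rw [pw2_norm_smul_rpow htpos, pw2_norm_smul_rpow htpos, htp, ← mul_add, ← hNdef,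
        inv_mul_cancel₀ hN.ne']
    by_cases hd : δ ≤ ‖t • a - t • b‖ ^ p
    · have hmem : ((t • a, t • b) : E n × E n) ∈ S := ⟨hone, hd⟩
      have h1 := hcS _ hmem
      have h2 := hSn _ hmem
      rw [hh t a b htpos, htp] at h1
      have h3 : ‖t • a - t • b‖ ^ p ≤ 2 ^ p := by
        apply Real.rpow_le_rpow (norm_nonneg _) _ hp0.le
        calc ‖t • a - t • b‖ ≤ ‖t • a‖ + ‖t • b‖ := norm_sub_le _ _
          _ ≤ 1 + 1 := add_le_add h2.1 h2.2
          _ = 2 := by norm_num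
      have h4 : c * N ≤ F (a, b) := by
        have := mul_le_mul_of_nonneg_left h1 hN.le
        rw [← mul_assoc, mul_inv_cancel₀ hN.ne', one_mul] at this
        linarith
      have h5 : N * 2 ^ p ≤ 2 ^ p / c * F (a, b) := by
        rw [div_mul_eq_mul_div, le_div_iff₀ hc0]
        nlinarith
      rw [hsc]
      have h6 : N * ‖t • a - t • b‖ ^ p ≤ N * 2 ^ p := mul_le_mul_of_nonneg_left h3 hN.le
      have h7 : 0 ≤ δ * N := by positivity
      linarith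
    · push Not at hd
      rw [hsc]
      have h6 : N * ‖t • a - t • b‖ ^ p ≤ N * δ := mul_le_mul_of_nonneg_left hd.le hN.le
      nlinarith

theorem A_quant {p : ℝ} (hp : 1 < p) (δ : ℝ) (hδ : 0 < δ) : ∃ C : ℝ, 0 < C ∧ ∀ a b : E n,
    ‖a - b‖ ^ p ≤ C * inner ℝ (A p a - A p b) (a - b) + δ * (‖a‖ ^ p + ‖b‖ ^ p) := by
  refine pw2_main hp (fun x : E n × E n => inner ℝ (A p x.1 - A p x.2) (x.1 - x.2)) ?_ ?_ ?_ ?_ δ hδ
  · have h1 : Continuous fun x : E n × E n => A p x.1 := (continuous_A hp).comp continuous_fst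
    have h2 : Continuous fun x : E n × E n => A p x.2 := (continuous_A hp).comp continuous_snd
    exact (h1.sub h2).inner (continuous_fst.sub continuous_snd)
  · intro x
    exact A_mono hp _ _
  · intro a b h
    exact A_strict hp a b h
  · intro t a b ht
    simp only
    rw [pw2_A_smul ht, pw2_A_smul ht, ← smul_sub, ← smul_sub, real_inner_smul_left,
      real_inner_smul_right, ← mul_assoc]
    congr 1
    rw [← Real.rpow_add_one ht.ne']
    congr 1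
    ring

theorem conv_quant {p : ℝ} (hp : 1 < p) (δ : ℝ) (hδ : 0 < δ) : ∃ C : ℝ, 0 < C ∧ ∀ a b : E n,
    ‖a - b‖ ^ p ≤ C * (‖a‖ ^ p / 2 + ‖b‖ ^ p / 2 - ‖(1 / 2 : ℝ) • (a + b)‖ ^ p) +
      δ * (‖a‖ ^ p + ‖b‖ ^ p) := by
  have hp0 : 0 < p := by linarith
  have hcx := strictConvexOn_rpow hp
  have hnorm : ∀ a b : E n, ‖(1 / 2 : ℝ) • (a + b)‖ ≤ (1 / 2) * ‖a‖ + (1 / 2) * ‖b‖ := by
    intro a b
    rw [norm_smul, Real.norm_of_nonneg (by norm_num : (0:ℝ) ≤ 1 / 2)]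
    have := norm_add_le a b
    linarith
  have hA : ∀ a b : E n, ‖(1 / 2 : ℝ) • (a + b)‖ ^ p ≤ ((1 / 2) * ‖a‖ + (1 / 2) * ‖b‖) ^ p :=
    fun a b => Real.rpow_le_rpow (norm_nonneg _) (hnorm a b) hp0.le
  have hB : ∀ a b : E n, ((1 / 2) * ‖a‖ + (1 / 2) * ‖b‖) ^ p ≤ ‖a‖ ^ p / 2 + ‖b‖ ^ p / 2 := by
    intro a b
    have := hcx.convexOn.2 (norm_nonneg a : ‖a‖ ∈ Ici (0:ℝ)) (norm_nonneg b : ‖b‖ ∈ Ici (0:ℝ))
      (by norm_num : (0:ℝ) ≤ 1 / 2) (by norm_num : (0:ℝ) ≤ 1 / 2) (by norm_num)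
    simp only [smul_eq_mul] at this
    linarith
  refine pw2_main hp (fun x : E n × E n =>
    ‖x.1‖ ^ p / 2 + ‖x.2‖ ^ p / 2 - ‖(1 / 2 : ℝ) • (x.1 + x.2)‖ ^ p) ?_ ?_ ?_ ?_ δ hδ
  · have hr := Real.continuous_rpow_const hp0.le
    have h1 : Continuous fun x : E n × E n => ‖x.1‖ ^ p :=
      hr.comp (continuous_norm.comp continuous_fst)
    have h2 : Continuous fun x : E n × E n => ‖x.2‖ ^ p :=
      hr.comp (continuous_norm.comp continuous_snd)
    have h4 : Continuous fun x : E n × E n => (1 / 2 : ℝ) • (x.1 + x.2) := by fun_prop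
    have h3 : Continuous fun x : E n × E n => ‖(1 / 2 : ℝ) • (x.1 + x.2)‖ ^ p :=
      hr.comp (continuous_norm.comp h4)
    exact ((h1.div_const 2).add (h2.div_const 2)).sub h3
  · intro x
    have h1 := hA x.1 x.2
    have h2 := hB x.1 x.2
    change 0 ≤ ‖x.1‖ ^ p / 2 + ‖x.2‖ ^ p / 2 - ‖(1 / 2 : ℝ) • (x.1 + x.2)‖ ^ p
    linarith
  · intro a b h
    simp only at h
    have h1 := hA a b
    have h2 := hB a b
    have hab : ‖a‖ = ‖b‖ := by
      by_contra hne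
      have := hcx.2 (norm_nonneg a : ‖a‖ ∈ Ici (0:ℝ)) (norm_nonneg b : ‖b‖ ∈ Ici (0:ℝ)) hne
        (by norm_num : (0:ℝ) < 1 / 2) (by norm_num : (0:ℝ) < 1 / 2) (by norm_num)
      simp only [smul_eq_mul] at this
      linarith
    have h3 : ‖(1 / 2 : ℝ) • (a + b)‖ ^ p = ((1 / 2) * ‖a‖ + (1 / 2) * ‖b‖) ^ p := by linarith
    have h4 : ‖(1 / 2 : ℝ) • (a + b)‖ = (1 / 2) * ‖a‖ + (1 / 2) * ‖b‖ := by
      have hnn : 0 ≤ (1 / 2) * ‖a‖ + (1 / 2) * ‖b‖ := by positivity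
      exact (Real.rpow_left_inj (norm_nonneg _) hnn hp0.ne').1 h3
    rw [norm_smul, Real.norm_of_nonneg (by norm_num : (0:ℝ) ≤ 1 / 2)] at h4
    have h5 : ‖a + b‖ = ‖a‖ + ‖b‖ := by linarith
    exact eq_of_norm_eq_of_norm_add_eq hab h5
  · intro t a b ht
    simp only
    rw [pw2_norm_smul_rpow ht, pw2_norm_smul_rpow ht]
    have e : (1 / 2 : ℝ) • (t • a + t • b) = t • ((1 / 2 : ℝ) • (a + b)) := by
      rw [← smul_add, smul_comm]
    rw [e, pw2_norm_smul_rpow ht]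
    ring

end PP
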