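import Pool.Agent.PP.EXH
import Pool.Agent.PP.CAL2
import Pool.Agent.PP.CAL3
import Pool.Agent.PP.CAL4
import Pool.Agent.PP.POI
import Pool.Agent.PP.LPS

open Set Metric Filter Topology MeasureTheory
open scoped ContDiff

noncomputable section

namespace PP

attribute [local instance] AVG1_haar

variable {n : ℕ}
variable {p : ℝ}

/-! ### Shifts -/

theorem tt_sh_eq {F : Type*} (s : ℝ) (f : X n → F) : sh s f = fun z => f (z + ((0 : E n), s)) := by
  funext z
  unfold sh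
  congr 1
  ext <;> simp

theorem tt_integral_sh {F : Type*} [NormedAddCommGroup F] [NormedSpace ℝ F] (s : ℝ)
    (f : X n → F) : ∫ z, sh s f z = ∫ z, f z := by
  rw [tt_sh_eq]
  exact integral_add_right_eq_self f ((0 : E n), s)

theorem tt_mp (s : ℝ) :
    MeasurePreserving (fun z : X n => z + ((0 : E n), s)) volume volume :=
  measurePreserving_add_right volume _

theorem tt_memLp_sh {F : Type*} [NormedAddCommGroup F] {q : ENNReal} {f : X n → F}
    (hf : MemLp f q volume) (s : ℝ) : MemLp (sh s f) q volume := by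
  rw [tt_sh_eq]
  exact hf.comp_measurePreserving (tt_mp s)

theorem tt_ae_sh {P : X n → Prop} (h : ∀ᵐ z, P z) (s : ℝ) : ∀ᵐ z : X n, P (z.1, z.2 + s) := by
  have h1 := (tt_mp (n := n) s).quasiMeasurePreserving.ae h
  filter_upwards [h1] with z hz
  have h2 : z + ((0 : E n), s) = (z.1, z.2 + s) := by ext <;> simp
  rwa [h2] at hz

/-! ### Averages of bounded functions -/

theorem tt_av_bound {f : X n → ℝ} {m : ℝ} (hm : 0 ≤ m) (h : ∀ z, |f z| ≤ m) (s : ℝ) (z : X n) :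
    |av s f z| ≤ m := by
  unfold av
  rcases eq_or_ne s 0 with rfl | hs
  · simpa using hm
  · have h1 : ‖∫ r in (0 : ℝ)..s, f (z.1, z.2 + r)‖ ≤ m * |s - 0| :=
      intervalIntegral.norm_integral_le_of_norm_le_const fun r _ => h _
    rw [smul_eq_mul, abs_mul, abs_inv]
    rw [sub_zero, Real.norm_eq_abs] at h1
    calc |s|⁻¹ * |∫ r in (0 : ℝ)..s, f (z.1, z.2 + r)| ≤ |s|⁻¹ * (m * |s|) := by
          gcongr
      _ = m := by field_simp

theorem tt_av_zero {F : Type*} [NormedAddCommGroup F] [NormedSpace ℝ F] {f : X n → F} {s : ℝ}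
    {z : X n} (h : ∀ r ∈ uIcc 0 s, f (z.1, z.2 + r) = 0) : av s f z = 0 := by
  unfold av
  have h1 : ∫ r in (0 : ℝ)..s, f (z.1, z.2 + r) = ∫ r in (0 : ℝ)..s, (0 : F) := by
    apply intervalIntegral.integral_congr
    intro r hr
    exact h r hr
  rw [h1]
  simp

/-! ### Integral inequalities -/

theorem tt_int_pow (hp : 1 < p) {G : X n → E n} (hG : MemLp G (ENNReal.ofReal p) volume) :
    Integrable (fun z => ‖G z‖ ^ p) volume :=
  (lps_int_iff (by linarith) hG.1).2 hG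

theorem tt_norm_add_rpow {F : Type*} [SeminormedAddCommGroup F] (hp : 1 < p) (a b : F) :
    ‖a + b‖ ^ p ≤ 2 ^ p * (‖a‖ ^ p + ‖b‖ ^ p) := by
  have hp0 : 0 ≤ p := by linarith
  have h1 : ‖a + b‖ ≤ 2 * max ‖a‖ ‖b‖ := by
    have := norm_add_le a b
    have h2 := le_max_left ‖a‖ ‖b‖
    have h3 := le_max_right ‖a‖ ‖b‖
    linarith
  have h4 : (max ‖a‖ ‖b‖) ^ p ≤ ‖a‖ ^ p + ‖b‖ ^ p := by
    rcases max_cases ‖a‖ ‖b‖ with ⟨h, _⟩ | ⟨h, _⟩
    · rw [h]; linarith [Real.rpow_nonneg (norm_nonneg b) p]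
    · rw [h]; linarith [Real.rpow_nonneg (norm_nonneg a) p]
  calc ‖a + b‖ ^ p ≤ (2 * max ‖a‖ ‖b‖) ^ p := Real.rpow_le_rpow (norm_nonneg _) h1 hp0
    _ = 2 ^ p * (max ‖a‖ ‖b‖) ^ p := by
        rw [Real.mul_rpow (by norm_num) (le_max_of_le_left (norm_nonneg _))]
    _ ≤ _ := by gcongr

theorem tt_int_add (hp : 1 < p) {G H : X n → E n} (hG : MemLp G (ENNReal.ofReal p) volume)
    (hH : MemLp H (ENNReal.ofReal p) volume) :
    ∫ z, ‖G z + H z‖ ^ p ≤ 2 ^ p * ((∫ z, ‖G z‖ ^ p) + ∫ z, ‖H z‖ ^ p) := by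
  rw [← integral_add (tt_int_pow hp hG) (tt_int_pow hp hH), ← integral_const_mul]
  refine integral_mono (tt_int_pow hp (hG.add hH))
    (((tt_int_pow hp hG).add (tt_int_pow hp hH)).const_mul _) fun z => ?_
  exact tt_norm_add_rpow hp _ _

theorem tt_flux_le (hp : 1 < p) {G H : X n → E n} (hG : MemLp G (ENNReal.ofReal p) volume)
    (hH : MemLp H (ENNReal.ofReal p) volume) :
    ∫ z, inner ℝ (A p (G z)) (H z) ≤ (∫ z, ‖G z‖ ^ p) + ∫ z, ‖H z‖ ^ p := by
  rw [← integral_add (tt_int_pow hp hG) (tt_int_pow hp hH)]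
  refine integral_mono (holder_inner hp (memLp_flux hp hG) hH).1
    ((tt_int_pow hp hG).add (tt_int_pow hp hH)) fun z => ?_
  refine (real_inner_le_norm _ _).trans ?_
  rw [norm_A hp]
  have h0 : ∀ x : ℝ, 0 ≤ x → x ^ (p - 1) * x = x ^ p := by
    intro x hx
    rcases hx.eq_or_lt with rfl | hx
    · rw [mul_zero, Real.zero_rpow (by linarith)]
    · rw [← Real.rpow_add_one hx.ne']; congr 1; ring
  change ‖G z‖ ^ (p - 1) * ‖H z‖ ≤ ‖G z‖ ^ p + ‖H z‖ ^ p
  rcases le_total ‖G z‖ ‖H z‖ with h | h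
  · calc ‖G z‖ ^ (p - 1) * ‖H z‖ ≤ ‖H z‖ ^ (p - 1) * ‖H z‖ := by
          gcongr
      _ = ‖H z‖ ^ p := h0 _ (norm_nonneg _)
      _ ≤ _ := by linarith [Real.rpow_nonneg (norm_nonneg (G z)) p]
  · calc ‖G z‖ ^ (p - 1) * ‖H z‖ ≤ ‖G z‖ ^ (p - 1) * ‖G z‖ := by
          gcongr
      _ = ‖G z‖ ^ p := h0 _ (norm_nonneg _)
      _ ≤ _ := by linarith [Real.rpow_nonneg (norm_nonneg (H z)) p]

theorem tt_int_sq {f : X n → ℝ} (hf : MemLp f 2 volume) : Integrable (fun z => f z ^ 2) volume :=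
  hf.integrable_sq

theorem tt_int_mul {f g : X n → ℝ} (hf : MemLp f 2 volume) (hg : MemLp g 2 volume) :
    Integrable (fun z => f z * g z) volume := hf.integrable_mul hg

theorem tt_sq_add {f g : X n → ℝ} (hf : MemLp f 2 volume) (hg : MemLp g 2 volume) :
    ∫ z, (f z + g z) ^ 2 ≤ 2 * ((∫ z, f z ^ 2) + ∫ z, g z ^ 2) := by
  rw [← integral_add (tt_int_sq hf) (tt_int_sq hg), ← integral_const_mul]
  refine integral_mono (tt_int_sq (hf.add hg))
    (((tt_int_sq hf).add (tt_int_sq hg)).const_mul _) fun z => ?_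
  have := sq_nonneg (f z - g z)
  change (f z + g z) ^ 2 ≤ 2 * (f z ^ 2 + g z ^ 2)
  nlinarith

theorem tt_mul_le {f g : X n → ℝ} (hf : MemLp f 2 volume) (hg : MemLp g 2 volume) :
    ∫ z, f z * g z ≤ (∫ z, f z ^ 2) / 2 + (∫ z, g z ^ 2) / 2 := by
  have h1 : (∫ z, f z ^ 2) / 2 + (∫ z, g z ^ 2) / 2 = ∫ z, (f z ^ 2 + g z ^ 2) / 2 := by
    rw [integral_div, integral_add (tt_int_sq hf) (tt_int_sq hg)]; ring
  rw [h1]
  refine integral_mono (tt_int_mul hf hg) (((tt_int_sq hf).add (tt_int_sq hg)).div_const _)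
    fun z => ?_
  have := sq_nonneg (f z - g z)
  change f z * g z ≤ (f z ^ 2 + g z ^ 2) / 2
  nlinarith

theorem tt_split1 {f g h : X n → ℝ} (hf : Integrable f volume) (hg : Integrable g volume)
    (hh : Integrable h volume) (ε : ℝ) :
    ∫ y, (ε * f y + g y + h y) = ε * (∫ y, f y) + (∫ y, g y) + ∫ y, h y := by
  have h1 : Integrable (fun y => ε * f y + g y) volume := (hf.const_mul ε).add hg
  rw [integral_add h1 hh, integral_add (hf.const_mul ε) hg, integral_const_mul]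

theorem tt_split2 {f g h : X n → ℝ} (hf : Integrable f volume) (hg : Integrable g volume)
    (hh : Integrable h volume) (m : ℝ) :
    ∫ y, (f y + (m * g y - h y)) = (∫ y, f y) + (m * (∫ y, g y) - ∫ y, h y) := by
  have h1 : Integrable (fun y => m * g y - h y) volume := (hg.const_mul m).sub hh
  rw [integral_add hf h1, integral_sub (hg.const_mul m) hh, integral_const_mul]

/-! ### The difference quotient in time -/

theorem tt_diff (hp : 1 < p) {C : Set (X n)} (hC : Bornology.IsBounded C) {φ φt : X n → ℝ}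
    {Φ : X n → E n} (h : W1 p C φ φt Φ) {s : ℝ} (hs : s ≠ 0) :
    ∫ z, (s⁻¹ * (sh s φ z - φ z)) ^ 2 ≤ ∫ z, φt z ^ 2 := by
  -- a bounded set containing everything
  obtain ⟨R, hR⟩ := hC.subset_closedBall (0 : X n)
  set B : Set (X n) := closedBall 0 (R + 2 * |s|) with hB
  have hBb : Bornology.IsBounded B := isBounded_closedBall
  have hsub : ∀ z : X n, ∀ r : ℝ, |r| ≤ 2 * |s| → (z.1, z.2 + r) ∈ C → z ∈ B := by
    intro z r hr hz
    have h1 := hR hz
    rw [mem_closedBall_zero_iff] at h1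
    rw [hB, mem_closedBall_zero_iff]
    have h2 : z = ((z.1, z.2 + r) : X n) - ((0 : E n), r) := by ext <;> simp
    have h3 : ‖(((0 : E n), r) : X n)‖ = |r| := by
      rw [Prod.norm_mk]; simp
    calc ‖z‖ = ‖((z.1, z.2 + r) : X n) - ((0 : E n), r)‖ := by rw [← h2]
      _ ≤ ‖((z.1, z.2 + r) : X n)‖ + ‖(((0 : E n), r) : X n)‖ := norm_sub_le _ _
      _ ≤ R + 2 * |s| := by rw [h3]; linarith
  have hCB : C ⊆ B := fun z hz => hsub z 0 (by simp) (by simpa using hz)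
  have hW : W1 p B φ φt Φ := h.mono hCB
  have hWs : W1 p B (sh s φ) (sh s φt) (sh s Φ) :=
    (h.shift s).mono fun z hz => hsub z s (by linarith [abs_nonneg s]) hz
  have hχ := hWs.lin hp hBb hW s⁻¹ (-s⁻¹)
  set χ : X n → ℝ := fun z => s⁻¹ * (sh s φ z - φ z) with hχd
  have hχ' : W0 p {z | z ∈ C ∨ (z.1, z.2 + s) ∈ C} χ
      (fun z => s⁻¹ • sh s Φ z + (-s⁻¹) • Φ z) := by
    refine (hχ.toW0.congr ?_ (ae_of_all _ fun z => rfl)).of_zero ?_
    · refine ae_of_all _ fun z => ?_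
      simp only [hχd]; ring
    · have h1 := tt_ae_sh h.zero s
      filter_upwards [h.zero, h1] with z h2 h3 h4
      simp only [not_or] at h4
      have e1 : φ z = 0 := h2 h4.1
      have e2 : sh s φ z = 0 := h3 h4.2
      simp only [hχd, e1, e2, sub_zero, mul_zero]
  have hC'b : Bornology.IsBounded {z : X n | z ∈ C ∨ (z.1, z.2 + s) ∈ C} := by
    refine hBb.subset ?_
    rintro z (hz | hz)
    · exact hCB hz
    · exact hsub z s (by linarith [abs_nonneg s]) hz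
  have hav : W1 p B (av (-s) χ) (fun z => (-s)⁻¹ * (sh (-s) χ z - χ z))
      (av (-s) (fun z => s⁻¹ • sh s Φ z + (-s⁻¹) • Φ z)) := by
    refine hχ'.avg hp hC'b (neg_ne_zero.2 hs) ?_
    intro z r hr hz
    have hrs : |r| ≤ |s| := by
      have := abs_sub_left_of_mem_uIcc hr
      simpa using this
    rcases hz with hz | hz
    · exact hsub z r (by linarith [abs_nonneg s]) hz
    · refine hsub z (r + s) ?_ ?_
      · have := abs_add_le r s
        linarith
      · have h1 : ((z.1, z.2 + (r + s)) : X n) = (z.1, z.2 + r + s) := by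
          rw [add_assoc]
        rw [h1]; exact hz
  have hipp := int_time hp hBb hW hav
  have hχ2 : MemLp χ 2 volume := hχ'.memLp_fn hC'b 2
  have hφ2 : MemLp φ 2 volume := h.toW0.memLp_fn hC 2
  have hmem2 : MemLp χ (ENNReal.ofReal 2) volume := by
    have : ENNReal.ofReal 2 = 2 := by norm_num
    rw [this]; exact hχ2
  obtain ⟨hav2, havle⟩ := av_memLp (q := 2) (by norm_num) hmem2 (neg_ne_zero.2 hs)
  have hav2' : MemLp (av (-s) χ) 2 volume := by
    have : ENNReal.ofReal 2 = 2 := by norm_num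
    rwa [this] at hav2
  have havle' : ∫ z, av (-s) χ z ^ 2 ≤ ∫ z, χ z ^ 2 := by
    have e : ∀ f : X n → ℝ, ∫ z, ‖f z‖ ^ (2 : ℝ) = ∫ z, f z ^ 2 := by
      intro f
      congr 1; funext z
      rw [Real.rpow_two, Real.norm_eq_abs, sq_abs]
    rwa [e, e] at havle
  -- the main identity
  have hsh : ∫ z, φ z * sh (-s) χ z = ∫ z, sh s φ z * χ z := by
    rw [← tt_integral_sh s (fun z => φ z * sh (-s) χ z)]
    congr 1; funext z
    simp [sh]
  have hmain : ∫ z, χ z ^ 2 = ∫ z, φt z * av (-s) χ z := by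
    have e1 : ∫ z, χ z ^ 2 = s⁻¹ * ((∫ z, sh s φ z * χ z) - ∫ z, φ z * χ z) := by
      rw [← integral_sub (tt_int_mul (tt_memLp_sh hφ2 s) hχ2) (tt_int_mul hφ2 hχ2),
        ← integral_const_mul]
      congr 1; funext z
      simp only [hχd]; ring
    have e2 : ∫ z, φ z * ((-s)⁻¹ * (sh (-s) χ z - χ z)) =
        -(s⁻¹ * ((∫ z, φ z * sh (-s) χ z) - ∫ z, φ z * χ z)) := by
      rw [← integral_sub (tt_int_mul hφ2 (tt_memLp_sh hχ2 (-s))) (tt_int_mul hφ2 hχ2),
        ← integral_const_mul, ← integral_neg]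
      congr 1; funext z
      rw [inv_neg]; ring
    rw [e2, hsh] at hipp
    rw [e1]
    linarith
  have h5 := tt_mul_le h.memt hav2'
  change ∫ z, χ z ^ 2 ≤ _
  linarith

/-! ### The test function `ζ (w(t+s) - w(t))` -/

theorem tt_bdd_shift {B : Set (X n)} {R : ℝ} (hR : B ⊆ closedBall 0 R) (r : ℝ) {z : X n}
    (hz : (z.1, z.2 + r) ∈ B) : z ∈ closedBall (0 : X n) (R + |r|) := by
  have h1 := hR hz
  rw [mem_closedBall_zero_iff] at h1 ⊢
  have h2 : z = ((z.1, z.2 + r) : X n) - ((0 : E n), r) := by ext <;> simp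
  have h3 : ‖(((0 : E n), r) : X n)‖ = |r| := by
    rw [Prod.norm_mk]; simp
  calc ‖z‖ = ‖((z.1, z.2 + r) : X n) - ((0 : E n), r)‖ := by rw [← h2]
    _ ≤ ‖((z.1, z.2 + r) : X n)‖ + ‖(((0 : E n), r) : X n)‖ := norm_sub_le _ _
    _ ≤ R + |r| := by rw [h3]; linarith

theorem tt_psi (hp : 1 < p) {B : Set (X n)} (hB : Bornology.IsBounded B) {w wt : X n → ℝ}
    {W : X n → E n} (hw : W1 p B w wt W) {Ω : Set (X n)} {ζ : X n → ℝ} (hζ : Tst Ω ζ) (s : ℝ) :
    W1 p (tsupport ζ) (fun y => ζ y * (sh s w y - w y))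
      (fun y => ζ y * (sh s wt y - wt y) + (sh s w y - w y) * dt ζ y)
      (fun y => ζ y • (sh s W y - W y) + (sh s w y - w y) • dx ζ y) := by
  obtain ⟨R, hR⟩ := hB.subset_closedBall (0 : X n)
  have hB' : Bornology.IsBounded (closedBall (0 : X n) (R + |s|)) := isBounded_closedBall
  have h1 : W1 p (closedBall (0 : X n) (R + |s|)) w wt W :=
    hw.mono fun z hz => closedBall_subset_closedBall (by linarith [abs_nonneg s]) (hR hz)
  have h2 : W1 p (closedBall (0 : X n) (R + |s|)) (sh s w) (sh s wt) (sh s W) :=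
    (hw.shift s).mono fun z hz => tt_bdd_shift hR s hz
  have h3 := (h2.lin hp hB' h1 1 (-1)).smooth_mul hp hB' hζ.smooth
  refine (h3.congr (ae_of_all _ fun z => ?_) (ae_of_all _ fun z => ?_)
    (ae_of_all _ fun z => ?_)).of_zero (ae_of_all _ fun z hz => ?_)
  · ring
  · ring
  · simp only [one_smul, neg_smul, one_mul, neg_one_mul, sub_eq_add_neg]
  · simp only [image_eq_zero_of_notMem_tsupport hz, zero_mul]

theorem tt_psi0 (hp : 1 < p) {B : Set (X n)} (hB : Bornology.IsBounded B) {w : X n → ℝ}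
    {W : X n → E n} (hw : W0 p B w W) {Ω : Set (X n)} {ζ : X n → ℝ} (hζ : Tst Ω ζ) (s : ℝ) :
    W0 p (tsupport ζ) (fun y => ζ y * (sh s w y - w y))
      (fun y => ζ y • (sh s W y - W y) + (sh s w y - w y) • dx ζ y) := by
  obtain ⟨R, hR⟩ := hB.subset_closedBall (0 : X n)
  have hB' : Bornology.IsBounded (closedBall (0 : X n) (R + |s|)) := isBounded_closedBall
  have h1 : W0 p (closedBall (0 : X n) (R + |s|)) w W :=
    hw.mono fun z hz => closedBall_subset_closedBall (by linarith [abs_nonneg s]) (hR hz)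
  have h2 : W0 p (closedBall (0 : X n) (R + |s|)) (sh s w) (sh s W) :=
    (hw.shift s).mono fun z hz => tt_bdd_shift hR s hz
  have h3 := (h2.lin hp hB' h1 1 (-1)).smooth_mul hp hB' hζ.smooth
  refine (h3.congr (ae_of_all _ fun z => ?_)
    (ae_of_all _ fun z => ?_)).of_zero (ae_of_all _ fun z hz => ?_)
  · ring
  · simp only [one_smul, neg_smul, one_mul, neg_one_mul, sub_eq_add_neg]
  · simp only [image_eq_zero_of_notMem_tsupport hz, zero_mul]

theorem tt_psi_bound (hp : 1 < p) {Ω : Set (X n)} {ζ : X n → ℝ} (hζ : Tst Ω ζ) {Z : ℝ}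
    (hZ : ∀ y, |ζ y| ≤ Z) {M : ℝ} {w : X n → ℝ} {W : X n → E n}
    (hwm : AEStronglyMeasurable w volume) (hM : ∀ᵐ y, |w y| ≤ M)
    (hW : MemLp W (ENNReal.ofReal p) volume) (s : ℝ) :
    ∫ y, ‖ζ y • (sh s W y - W y) + (sh s w y - w y) • dx ζ y‖ ^ p ≤
      2 ^ p * (Z ^ p * (2 ^ p * (2 * ∫ y, ‖W y‖ ^ p)) + (2 * M) ^ p * ∫ y, ‖dx ζ y‖ ^ p) := by
  have hZ0 : 0 ≤ Z := (abs_nonneg _).trans (hZ 0)
  have hp0 : 0 ≤ p := by linarith
  have hWs : MemLp (sh s W) (ENNReal.ofReal p) volume := tt_memLp_sh hW s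
  have hd : MemLp (fun y => sh s W y - W y) (ENNReal.ofReal p) volume := hWs.sub hW
  have hζm : AEStronglyMeasurable ζ volume := hζ.smooth.continuous.aestronglyMeasurable
  have hdx : MemLp (dx ζ) (ENNReal.ofReal p) volume := (tst_W1 hp hζ).mem
  have hwsm : AEStronglyMeasurable (sh s w) volume := by
    rw [tt_sh_eq]
    exact hwm.comp_quasiMeasurePreserving (tt_mp s).quasiMeasurePreserving
  have h1 : MemLp (fun y => ζ y • (sh s W y - W y)) (ENNReal.ofReal p) volume := by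
    refine hd.of_le_mul (c := Z) (hζm.smul hd.1) (ae_of_all _ fun y => ?_)
    rw [norm_smul, Real.norm_eq_abs]
    exact mul_le_mul_of_nonneg_right (hZ y) (norm_nonneg _)
  have hb : ∀ᵐ y, |sh s w y - w y| ≤ 2 * M := by
    filter_upwards [hM, tt_ae_sh hM s] with y h1 h2
    have := abs_sub (sh s w y) (w y)
    have h3 : |sh s w y| ≤ M := h2
    linarith
  have h2 : MemLp (fun y => (sh s w y - w y) • dx ζ y) (ENNReal.ofReal p) volume := by
    refine hdx.of_le_mul (c := 2 * M) ((hwsm.sub hwm).smul hdx.1) ?_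
    filter_upwards [hb] with y hy
    rw [norm_smul, Real.norm_eq_abs]
    exact mul_le_mul_of_nonneg_right hy (norm_nonneg _)
  refine (tt_int_add hp h1 h2).trans ?_
  gcongr
  · rw [← integral_const_mul, ← integral_const_mul, ← integral_const_mul]
    have h3 : ∫ y, ‖ζ y • (sh s W y - W y)‖ ^ p ≤ Z ^ p * ∫ y, ‖sh s W y - W y‖ ^ p := by
      rw [← integral_const_mul]
      refine integral_mono (tt_int_pow hp h1) ((tt_int_pow hp hd).const_mul _) fun y => ?_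
      change ‖ζ y • (sh s W y - W y)‖ ^ p ≤ Z ^ p * ‖sh s W y - W y‖ ^ p
      rw [norm_smul, Real.mul_rpow (norm_nonneg _) (norm_nonneg _)]
      gcongr
      exact hZ y
    have h4 : ∫ y, ‖sh s W y - W y‖ ^ p ≤ 2 ^ p * (2 * ∫ y, ‖W y‖ ^ p) := by
      have h5 := tt_int_add hp hWs hW.neg
      have h6 : ∫ y, ‖sh s W y‖ ^ p = ∫ y, ‖W y‖ ^ p := tt_integral_sh s (fun y => ‖W y‖ ^ p)
      simp only [Pi.neg_apply, norm_neg, ← sub_eq_add_neg] at h5
      rw [h6] at h5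
      linarith
    refine h3.trans ?_
    rw [integral_const_mul, integral_const_mul, integral_const_mul]
    gcongr
  · rw [← integral_const_mul]
    refine integral_mono_ae (tt_int_pow hp h2) ((tt_int_pow hp hdx).const_mul _) ?_
    filter_upwards [hb] with y hy
    rw [norm_smul, Real.mul_rpow (norm_nonneg _) (norm_nonneg _)]
    gcongr
    exact hy

/-! ### The main estimate for one regularised solution -/

/-- The constant of the main estimate. -/
def tt_K (p M K Z : ℝ) (F ζ ζ2 : X n → ℝ) : ℝ :=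
  ((∫ z, dt F z ^ 2) + K) + (2 * M * Z) ^ 2 * (∫ z, dt ζ2 z ^ 2) +
    (8 * Z ^ 2 * K + 8 * M ^ 2 * ∫ z, dt ζ z ^ 2) +
    (2 * (2 * M * Z) * (∫ z, |dt F z|) + (2 * M * Z) * (M * ∫ z, |dt ζ2 z|)) +
    (2 ^ p * ((∫ z, ‖dx F z‖ ^ p) + K) +
      2 ^ p * ((2 * M * Z) ^ p * (∫ z, ‖dx ζ2 z‖ ^ p) +
        2 ^ p * (Z ^ p * (2 ^ p * (2 * K)) + (2 * M) ^ p * ∫ z, ‖dx ζ z‖ ^ p)))

theorem tt_core (hp : 1 < p) {C D : Set (X n)} (hC : IsCompact C) (hDC : D ⊆ C) {F : X n → ℝ}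
    (hF : Tst univ F) {M K ε : ℝ} (hM0 : 0 ≤ M) (hε : 0 < ε) (hε1 : ε ≤ 1)
    {obs w wt : X n → ℝ} {G : X n → E n} (h : RegSol p ε C obs F w wt G)
    (hM : ∀ y, |w y| ≤ M) (hK : ε * (∫ y, wt y ^ 2) + ∫ y, ‖G y‖ ^ p ≤ K)
    {Ω Ω' : Set (X n)} {ζ ζ2 : X n → ℝ} (hζ : Tst Ω ζ) {Z : ℝ} (hZ : ∀ y, |ζ y| ≤ Z)
    (hζ2 : Tst Ω' ζ2) (h2C : tsupport ζ2 ⊆ C) (h20 : ∀ y, 0 ≤ ζ2 y ∧ ζ2 y ≤ 1)
    (h2D : ∀ y ∈ D, ζ2 y = 1) {s : ℝ} (hs : 0 < s)
    (hD : ∀ z : X n, ∀ r ∈ Icc 0 s, (z.1, z.2 + r - s) ∈ tsupport ζ → z ∈ D) :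
    ∫ y, ζ y * (sh s w y - w y) ^ 2 ≤ s * tt_K p M K Z F ζ ζ2 := by
  have hZ0 : 0 ≤ Z := (abs_nonneg _).trans (hZ 0)
  have hCb : Bornology.IsBounded C := hC.isBounded
  have hψ := tt_psi hp hCb h.w hζ s
  set ψ : X n → ℝ := fun y => ζ y * (sh s w y - w y) with hψd
  set ψt : X n → ℝ := fun y => ζ y * (sh s wt y - wt y) + (sh s w y - w y) * dt ζ y with hψtd
  set Ψ : X n → E n := fun y => ζ y • (sh s G y - G y) + (sh s w y - w y) • dx ζ y with hΨd
  have hζb : Bornology.IsBounded (tsupport ζ) := hζ.cpt.isCompact.isBounded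
  have hφ := hψ.shift (-s)
  have hC'b : Bornology.IsBounded {z : X n | (z.1, z.2 + -s) ∈ tsupport ζ} := by
    obtain ⟨R, hR⟩ := hζb.subset_closedBall (0 : X n)
    exact (isBounded_closedBall (x := (0 : X n)) (r := R + |-s|)).subset
      fun z hz => tt_bdd_shift hR (-s) hz
  set m : ℝ := 2 * M * Z with hm
  have hm0 : 0 ≤ m := by positivity
  have hψb : ∀ y, |ψ y| ≤ m := by
    intro y
    simp only [hψd, abs_mul, hm]
    have h1 : |sh s w y - w y| ≤ 2 * M := by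
      have := abs_sub (sh s w y) (w y)
      have h3 : |sh s w y| ≤ M := hM _
      have := hM y
      linarith
    calc |ζ y| * |sh s w y - w y| ≤ Z * (2 * M) := mul_le_mul (hZ y) h1 (abs_nonneg _) hZ0
      _ = 2 * M * Z := by ring
  set φ : X n → ℝ := sh (-s) ψ with hφd
  set Φ : X n → E n := sh (-s) Ψ with hΦd
  have hφb : ∀ y, |φ y| ≤ m := fun y => hψb _
  have hav : W1 p D (av s φ) (fun z => s⁻¹ * (sh s φ z - φ z)) (av s Φ) := by
    refine hφ.toW0.avg hp hC'b hs.ne' ?_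
    intro z r hr hz
    rw [uIcc_of_le hs.le] at hr
    exact hD z r hr (by simpa [sub_eq_add_neg] using hz)
  have havb : ∀ y, |av s φ y| ≤ m := fun y => tt_av_bound hm0 hφb s y
  have hav0 : ∀ y, y ∉ D → av s φ y = 0 := by
    intro y hy
    apply tt_av_zero
    intro r hr
    rw [uIcc_of_le hs.le] at hr
    have h1 : ((y.1, y.2 + r - s) : X n) ∉ tsupport ζ := fun h' => hy (hD y r hr h')
    have h2 : φ (y.1, y.2 + r) = ψ (y.1, y.2 + r - s) := by
      simp only [hφd, sh, sub_eq_add_neg]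
    rw [h2]
    simp only [hψd, image_eq_zero_of_notMem_tsupport h1, zero_mul]
  have hshφ : sh s φ = ψ := by
    funext y
    simp [hφd, sh]
  have hφs := ((tst_W1 hp hζ2).mono h2C).lin hp hCb (hav.mono hDC) m (-1)
  have hfs0 : ∀ y, 0 ≤ m * ζ2 y + (-1) * av s φ y := by
    intro y
    by_cases hy : y ∈ D
    · rw [h2D y hy]
      have := (abs_le.1 (havb y)).2
      linarith
    · rw [hav0 y hy]
      have := mul_nonneg hm0 (h20 y).1
      linarith
  have hfs1 : ∀ y, |m * ζ2 y + (-1) * av s φ y| ≤ 2 * m := by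
    intro y
    rw [abs_of_nonneg (hfs0 y)]
    have h1 := (abs_le.1 (havb y)).1
    have h2 := mul_le_mul_of_nonneg_left (h20 y).2 hm0
    linarith
  have hvi := h.vi _ _ _ hφs ⟨1, one_pos, by
    filter_upwards [h.ob] with y hy
    have := hfs0 y
    linarith⟩
  -- integrability
  have mF := (tst_W1 hp hF).memt
  have mw := h.w.memt
  have mFw : MemLp (fun y => dt F y + wt y) 2 volume := mF.add mw
  have mst := hφs.memt
  have ms := hφs.toW0.memLp_fn hCb 2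
  have mU : MemLp (fun y => dx F y + G y) (ENNReal.ofReal p) volume :=
    (tst_W1 hp hF).mem.add h.w.mem
  have mPs := hφs.mem
  have mav2 := hav.memt
  have hD' : Bornology.IsBounded D := hCb.subset hDC
  have mav := hav.toW0.memLp_fn hD' 2
  have i1 := tt_int_mul mFw mst
  have i2 := tt_int_mul mFw ms
  have i3 := (holder_inner hp (memLp_flux hp mU) mPs).1
  have hsplit : ∫ y, (ε * ((dt F y + wt y) * (m * dt ζ2 y + (-1) * (s⁻¹ * (sh s φ y - φ y)))) +
      (dt F y + wt y) * (m * ζ2 y + (-1) * av s φ y) +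
      inner ℝ (A p (dx F y + G y)) (m • dx ζ2 y + (-1 : ℝ) • av s Φ y)) =
      ε * (∫ y, (dt F y + wt y) * (m * dt ζ2 y + (-1) * (s⁻¹ * (sh s φ y - φ y)))) +
      (∫ y, (dt F y + wt y) * (m * ζ2 y + (-1) * av s φ y)) +
      ∫ y, inner ℝ (A p (dx F y + G y)) (m • dx ζ2 y + (-1 : ℝ) • av s Φ y) :=
    tt_split1 i1 i2 i3 ε
  rw [hsplit] at hvi
  have hwt0 : 0 ≤ ∫ y, wt y ^ 2 := integral_nonneg fun y => sq_nonneg _
  have hG0 : 0 ≤ ∫ y, ‖G y‖ ^ p := integral_nonneg fun y => Real.rpow_nonneg (norm_nonneg _) _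
  have hKw : ε * (∫ y, wt y ^ 2) ≤ K := by linarith
  have hKG : ∫ y, ‖G y‖ ^ p ≤ K := by
    have := mul_nonneg hε.le hwt0
    linarith
  -- first term
  have e1 : ε * (∫ y, (dt F y + wt y) * (m * dt ζ2 y + (-1) * (s⁻¹ * (sh s φ y - φ y)))) ≤
      ((∫ z, dt F z ^ 2) + K) + m ^ 2 * (∫ z, dt ζ2 z ^ 2) +
        (8 * Z ^ 2 * K + 8 * M ^ 2 * ∫ z, dt ζ z ^ 2) := by
    have a1 := tt_mul_le mFw mst
    have a2 := tt_sq_add mF mw
    have mz2 : MemLp (fun y => m * dt ζ2 y) 2 volume := (tst_W1 hp hζ2).memt.const_mul m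
    have mz3 : MemLp (fun y => (-1) * (s⁻¹ * (sh s φ y - φ y))) 2 volume :=
      mav2.const_mul (-1)
    have a3 := tt_sq_add mz2 mz3
    have a4 : ∫ y, (m * dt ζ2 y) ^ 2 = m ^ 2 * ∫ y, dt ζ2 y ^ 2 := by
      rw [← integral_const_mul]; congr 1; funext y; ring
    have a5 : ∫ y, ((-1) * (s⁻¹ * (sh s φ y - φ y))) ^ 2 ≤ ∫ y, ψt y ^ 2 := by
      have b1 := tt_diff hp hC'b hφ hs.ne'
      have b2 : ∫ y, sh (-s) ψt y ^ 2 = ∫ y, ψt y ^ 2 :=
        tt_integral_sh (-s) (fun y => ψt y ^ 2)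
      rw [b2] at b1
      refine le_of_eq_of_le ?_ b1
      congr 1; funext y; ring
    have a6 : ∫ y, ψt y ^ 2 ≤ 8 * Z ^ 2 * (∫ y, wt y ^ 2) + 8 * M ^ 2 * ∫ y, dt ζ y ^ 2 := by
      have mws : MemLp (sh s wt) 2 volume := tt_memLp_sh mw s
      have md : MemLp (fun y => sh s wt y - wt y) 2 volume := mws.sub mw
      have hζm : AEStronglyMeasurable ζ volume := hζ.smooth.continuous.aestronglyMeasurable
      have mζt := (tst_W1 hp hζ).memt
      have hwm : AEStronglyMeasurable w volume := h.w.meas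
      have hwsm : AEStronglyMeasurable (sh s w) volume := by
        rw [tt_sh_eq]
        exact hwm.comp_quasiMeasurePreserving (tt_mp s).quasiMeasurePreserving
      have hdb : ∀ y, |sh s w y - w y| ≤ 2 * M := by
        intro y
        have := abs_sub (sh s w y) (w y)
        have h3 : |sh s w y| ≤ M := hM _
        have := hM y
        linarith
      have m1 : MemLp (fun y => ζ y * (sh s wt y - wt y)) 2 volume := by
        refine md.of_le_mul (c := Z) (hζm.mul md.1) (ae_of_all _ fun y => ?_)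
        rw [norm_mul, Real.norm_eq_abs]
        exact mul_le_mul_of_nonneg_right (hZ y) (norm_nonneg _)
      have m2 : MemLp (fun y => (sh s w y - w y) * dt ζ y) 2 volume := by
        refine mζt.of_le_mul (c := 2 * M) ((hwsm.sub hwm).mul mζt.1) (ae_of_all _ fun y => ?_)
        rw [norm_mul, Real.norm_eq_abs]
        exact mul_le_mul_of_nonneg_right (hdb y) (norm_nonneg _)
      have c1 := tt_sq_add m1 m2
      have c2 : ∫ y, (ζ y * (sh s wt y - wt y)) ^ 2 ≤ Z ^ 2 * ∫ y, (sh s wt y - wt y) ^ 2 := by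
        rw [← integral_const_mul]
        refine integral_mono (tt_int_sq m1) ((tt_int_sq md).const_mul _) fun y => ?_
        change (ζ y * (sh s wt y - wt y)) ^ 2 ≤ Z ^ 2 * (sh s wt y - wt y) ^ 2
        rw [mul_pow, ← sq_abs (ζ y)]
        gcongr
        exact hZ y
      have c3 : ∫ y, (sh s wt y - wt y) ^ 2 ≤ 4 * ∫ y, wt y ^ 2 := by
        have c4 := tt_sq_add mws mw.neg
        have c5 : ∫ y, sh s wt y ^ 2 = ∫ y, wt y ^ 2 := tt_integral_sh s (fun y => wt y ^ 2)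
        simp only [Pi.neg_apply, ← sub_eq_add_neg, neg_sq] at c4
        rw [c5] at c4
        linarith
      have c6 : ∫ y, ((sh s w y - w y) * dt ζ y) ^ 2 ≤ (2 * M) ^ 2 * ∫ y, dt ζ y ^ 2 := by
        rw [← integral_const_mul]
        refine integral_mono (tt_int_sq m2) ((tt_int_sq mζt).const_mul _) fun y => ?_
        change ((sh s w y - w y) * dt ζ y) ^ 2 ≤ (2 * M) ^ 2 * dt ζ y ^ 2
        rw [mul_pow, ← sq_abs (sh s w y - w y)]
        gcongr
        exact hdb y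
      have c7 : Z ^ 2 * ∫ y, (sh s wt y - wt y) ^ 2 ≤ Z ^ 2 * (4 * ∫ y, wt y ^ 2) := by
        gcongr
      change ∫ y, (ζ y * (sh s wt y - wt y) + (sh s w y - w y) * dt ζ y) ^ 2 ≤ _
      nlinarith
    have hI2 : 0 ≤ ∫ y, dt ζ y ^ 2 := integral_nonneg fun y => sq_nonneg _
    have hI3 : 0 ≤ ∫ y, dt F y ^ 2 := integral_nonneg fun y => sq_nonneg _
    have hI6 : 0 ≤ ∫ y, dt ζ2 y ^ 2 := integral_nonneg fun y => sq_nonneg _
    have a7 : ∫ y, (dt F y + wt y) * (m * dt ζ2 y + (-1) * (s⁻¹ * (sh s φ y - φ y))) ≤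
        ((∫ z, dt F z ^ 2) + ∫ y, wt y ^ 2) + (m ^ 2 * (∫ z, dt ζ2 z ^ 2) +
          (8 * Z ^ 2 * (∫ y, wt y ^ 2) + 8 * M ^ 2 * ∫ z, dt ζ z ^ 2)) := by
      linarith
    have a8 := mul_le_mul_of_nonneg_left a7 hε.le
    refine a8.trans ?_
    have f1 : ε * (∫ z, dt F z ^ 2) ≤ ∫ z, dt F z ^ 2 := mul_le_of_le_one_left hI3 hε1
    have f2 : ε * (m ^ 2 * (∫ z, dt ζ2 z ^ 2)) ≤ m ^ 2 * (∫ z, dt ζ2 z ^ 2) :=
      mul_le_of_le_one_left (by positivity) hε1
    have f3 : ε * (8 * M ^ 2 * ∫ z, dt ζ z ^ 2) ≤ 8 * M ^ 2 * ∫ z, dt ζ z ^ 2 :=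
      mul_le_of_le_one_left (by positivity) hε1
    have f4 : 8 * Z ^ 2 * (ε * (∫ y, wt y ^ 2)) ≤ 8 * Z ^ 2 * K := by gcongr
    nlinarith
  -- second term
  have e2 : ∫ y, (dt F y + wt y) * (m * ζ2 y + (-1) * av s φ y) ≤
      2 * m * (∫ z, |dt F z|) + m * (M * ∫ z, |dt ζ2 z|) -
        s⁻¹ * ∫ y, ζ y * (sh s w y - w y) ^ 2 := by
    have iF : Integrable (dt F) volume := by
      refine (contDiff_dt hF.smooth).continuous.integrable_of_hasCompactSupport ?_
      refine hF.cpt.mono' fun z hz => ?_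
      by_contra hn
      exact hz (dt_zero_of_notMem z hn)
    have iζ2 : Integrable (dt ζ2) volume := by
      refine (contDiff_dt hζ2.smooth).continuous.integrable_of_hasCompactSupport ?_
      refine hζ2.cpt.mono' fun z hz => ?_
      by_contra hn
      exact hz (dt_zero_of_notMem z hn)
    have mζ2 : MemLp ζ2 2 volume := (tst_W1 hp hζ2).toW0.memLp_fn hζ2.cpt.isCompact.isBounded 2
    have g1 : ∫ y, (dt F y + wt y) * (m * ζ2 y + (-1) * av s φ y) =
        (∫ y, dt F y * (m * ζ2 y + (-1) * av s φ y)) +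
          (m * (∫ y, ζ2 y * wt y) - ∫ y, wt y * av s φ y) := by
      rw [← tt_split2 (tt_int_mul mF ms) (tt_int_mul mζ2 mw) (tt_int_mul mw mav) m]
      congr 1; funext y; ring
    have g2 : ∫ y, dt F y * (m * ζ2 y + (-1) * av s φ y) ≤ 2 * m * ∫ z, |dt F z| := by
      rw [← integral_const_mul]
      refine integral_mono (tt_int_mul mF ms) (iF.abs.const_mul _) fun y => ?_
      refine (le_abs_self _).trans ?_
      change |dt F y * (m * ζ2 y + (-1) * av s φ y)| ≤ 2 * m * |dt F y|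
      rw [abs_mul, mul_comm]
      exact mul_le_mul_of_nonneg_right (hfs1 y) (abs_nonneg _)
    have g3 : ∫ y, ζ2 y * wt y ≤ M * ∫ z, |dt ζ2 z| := by
      have hwt := h.w.wt ζ2 ⟨hζ2.smooth, hζ2.cpt, subset_univ _⟩
      have g4 : |∫ z, w z * dt ζ2 z| ≤ M * ∫ z, |dt ζ2 z| := by
        rw [← integral_const_mul]
        refine abs_integral_le_integral_abs.trans ?_
        have iw : Integrable (fun z => w z * dt ζ2 z) volume := by
          refine iζ2.bdd_mul h.w.meas (c := M) (ae_of_all _ fun z => ?_)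
          exact hM z
        refine integral_mono iw.abs (iζ2.abs.const_mul _) fun z => ?_
        change |w z * dt ζ2 z| ≤ M * |dt ζ2 z|
        rw [abs_mul]
        exact mul_le_mul_of_nonneg_right (hM z) (abs_nonneg _)
      have := (abs_le.1 g4).1
      linarith
    have g5 : ∫ y, wt y * av s φ y = s⁻¹ * ∫ y, ζ y * (sh s w y - w y) ^ 2 := by
      have hit := int_time hp hCb h.w (hav.mono hDC)
      rw [hshφ] at hit
      have mw2 : MemLp w 2 volume := h.w.toW0.memLp_fn hCb 2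
      have mψ : MemLp ψ 2 volume := hψ.toW0.memLp_fn hζb 2
      have mφ : MemLp φ 2 volume := tt_memLp_sh mψ (-s)
      have k1 : ∫ y, w y * (s⁻¹ * (ψ y - φ y)) =
          s⁻¹ * ((∫ y, w y * ψ y) - ∫ y, w y * φ y) := by
        rw [← integral_sub (tt_int_mul mw2 mψ) (tt_int_mul mw2 mφ), ← integral_const_mul]
        congr 1; funext y; ring
      have k2 : ∫ y, w y * φ y = ∫ y, sh s w y * ψ y := by
        rw [← tt_integral_sh s (fun y => w y * φ y)]
        congr 1; funext y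
        simp [sh, hφd]
      have k3 : ∫ y, ζ y * (sh s w y - w y) ^ 2 = (∫ y, sh s w y * ψ y) - ∫ y, w y * ψ y := by
        rw [← integral_sub (tt_int_mul (tt_memLp_sh mw2 s) mψ) (tt_int_mul mw2 mψ)]
        congr 1; funext y
        simp only [hψd]; ring
      rw [k3, ← k2]
      rw [k1] at hit
      linarith
    rw [g1, g5]
    have g6 := mul_le_mul_of_nonneg_left g3 hm0
    linarith
  -- third term
  have e3 : ∫ y, inner ℝ (A p (dx F y + G y)) (m • dx ζ2 y + (-1 : ℝ) • av s Φ y) ≤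
      2 ^ p * ((∫ z, ‖dx F z‖ ^ p) + K) + 2 ^ p * (m ^ p * (∫ z, ‖dx ζ2 z‖ ^ p) +
        2 ^ p * (Z ^ p * (2 ^ p * (2 * K)) + (2 * M) ^ p * ∫ z, ‖dx ζ z‖ ^ p)) := by
    have l1 := tt_flux_le hp mU mPs
    have l2 := tt_int_add hp (tst_W1 hp hF).mem h.w.mem
    have mz2 : MemLp (fun y => m • dx ζ2 y) (ENNReal.ofReal p) volume :=
      (tst_W1 hp hζ2).mem.const_smul m
    have maΦ : MemLp (fun y => (-1 : ℝ) • av s Φ y) (ENNReal.ofReal p) volume :=
      hav.mem.const_smul (-1 : ℝ)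
    have l3 := tt_int_add hp mz2 maΦ
    have l4 : ∫ y, ‖m • dx ζ2 y‖ ^ p = m ^ p * ∫ y, ‖dx ζ2 y‖ ^ p := by
      rw [← integral_const_mul]
      congr 1; funext y
      rw [norm_smul, Real.mul_rpow (norm_nonneg _) (norm_nonneg _), Real.norm_of_nonneg hm0]
    have l5 : ∫ y, ‖(-1 : ℝ) • av s Φ y‖ ^ p = ∫ y, ‖av s Φ y‖ ^ p := by
      congr 1; funext y
      rw [neg_smul, one_smul, norm_neg]
    have l6 : ∫ y, ‖av s Φ y‖ ^ p ≤ ∫ y, ‖Φ y‖ ^ p := (av_memLp hp.le hφ.mem hs.ne').2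
    have l7 : ∫ y, ‖Φ y‖ ^ p = ∫ y, ‖Ψ y‖ ^ p := tt_integral_sh (-s) (fun y => ‖Ψ y‖ ^ p)
    have l8 : ∫ y, ‖Ψ y‖ ^ p ≤ 2 ^ p * (Z ^ p * (2 ^ p * (2 * K)) +
        (2 * M) ^ p * ∫ z, ‖dx ζ z‖ ^ p) := by
      refine (tt_psi_bound hp hζ hZ h.w.meas (ae_of_all _ hM) h.w.mem s).trans ?_
      gcongr
    refine l1.trans (add_le_add (l2.trans ?_) (l3.trans ?_))
    · gcongr
    · rw [l4, l5]
      gcongr
      rw [← l7] at l8
      exact l6.trans l8
  have hfin : s⁻¹ * (∫ y, ζ y * (sh s w y - w y) ^ 2) ≤ tt_K p M K Z F ζ ζ2 := by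
    unfold tt_K
    linarith
  rwa [inv_mul_le_iff₀ hs] at hfin

/-! ### Time translations -/

theorem tt_dist_time (z : X n) (r : ℝ) : dist z (z.1, z.2 + r) = |r| := by
  rw [Prod.dist_eq]
  simp

/-- the clipped function -/
theorem tt_clip {p ε : ℝ} {C : Set (X n)} {obs F z zt : X n → ℝ} {G : X n → E n}
    (h : RegSol p ε C obs F z zt G) {M : ℝ} (hM : ∀ᵐ y, |z y| ≤ M) :
    RegSol p ε C obs F (fun y => max (-|M|) (min |M| (z y))) zt G ∧
      (∀ᵐ y, max (-|M|) (min |M| (z y)) = z y) ∧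
      ∀ y, |max (-|M|) (min |M| (z y))| ≤ |M| := by
  have h1 : ∀ᵐ y, max (-|M|) (min |M| (z y)) = z y := by
    filter_upwards [hM] with y hy
    have h2 := abs_le.1 (hy.trans (le_abs_self M))
    rw [min_eq_right h2.2, max_eq_right h2.1]
  refine ⟨⟨h.w.congr (h1.mono fun y hy => hy.symm) (ae_of_all _ fun y => rfl)
    (ae_of_all _ fun y => rfl), ?_, ?_⟩, h1, ?_⟩
  · filter_upwards [h.ob, h1] with y h2 h3
    rw [h3]; exact h2
  · rintro φ φt Φ hφ ⟨s, hs, hφs⟩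
    refine h.vi φ φt Φ hφ ⟨s, hs, ?_⟩
    filter_upwards [hφs, h1] with y h2 h3
    rwa [h3] at h2
  · intro y
    have h0 := abs_nonneg M
    rw [abs_le]
    exact ⟨le_max_left _ _, max_le (by linarith) (min_le_left _ _)⟩

theorem tt_time (hp : 1 < p) {Θ : Set (X n)} (hΘ : IsOpen Θ) (hb : Bornology.IsBounded Θ)
    {F : X n → ℝ} (hF : Tst univ F) {M K : ℝ} {ε : ℕ → ℝ} (hε : ∀ k, 0 < ε k ∧ ε k ≤ 1)
    {obs : X n → ℝ} (hobs : ∀ y, 0 ≤ obs y) {z zt : ℕ → X n → ℝ} {G : ℕ → X n → E n}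
    (h : ∀ k, RegSol p (ε k) (Cx Θ k) obs F (z k) (zt k) (G k))
    (hM : ∀ k, ∀ᵐ y, |z k y| ≤ M) (hK : ∀ k, ε k * (∫ y, zt k y ^ 2) + ∫ y, ‖G k y‖ ^ p ≤ K)
    {ζ : X n → ℝ} (hζ : Tst Θ ζ) (hζ0 : ∀ y, 0 ≤ ζ y) :
    ∃ K' s₀ : ℝ, 0 < s₀ ∧ ∀ᶠ k in atTop, ∀ s ∈ Icc 0 s₀,
      ∫ y, ζ y * (sh s (z k) y - z k y) ^ 2 ≤ K' * s := by
  have _ := hobs
  have _ := hζ0
  obtain ⟨δ, hδ, hδΘ⟩ := hζ.cpt.isCompact.exists_cthickening_subset_open hΘ hζ.supp
  set D : Set (X n) := cthickening δ (tsupport ζ) with hDd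
  have hDc : IsCompact D := hζ.cpt.isCompact.cthickening
  obtain ⟨ζ2, hζ2, h01, h1⟩ := exists_cutoff hDc hΘ hδΘ
  have h2D : ∀ y ∈ D, ζ2 y = 1 := fun y hy => h1.self_of_nhdsSet y hy
  have hD2 : D ⊆ tsupport ζ2 := fun y hy => subset_tsupport _ (by
    rw [Function.mem_support, h2D y hy]; exact one_ne_zero)
  obtain ⟨k₀, hk₀⟩ := Cx_exh hΘ hb hζ2.cpt.isCompact hζ2.supp
  obtain ⟨Z, hZ⟩ := hζ.cpt.exists_bound_of_continuous hζ.smooth.continuous
  refine ⟨tt_K p |M| K Z F ζ ζ2, δ, hδ, ?_⟩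
  filter_upwards [eventually_ge_atTop k₀] with k hk s hs
  obtain ⟨hr, hae, hbd⟩ := tt_clip (h k) (hM k)
  rcases hs.1.eq_or_lt with rfl | hs0
  · have h3 : ∀ y, ζ y * (sh 0 (z k) y - z k y) ^ 2 = 0 := by
      intro y; simp [sh]
    simp only [h3, integral_zero, mul_zero, le_refl]
  · have h2C : tsupport ζ2 ⊆ Cx Θ k := (hk₀ k hk).trans interior_subset
    have h4 := tt_core hp (Cx_compact hΘ hb k) (hD2.trans h2C) hF (abs_nonneg M) (hε k).1 (hε k).2
      hr hbd (hK k) hζ hZ hζ2 h2C h01 h2D hs0 (by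
        intro y r hr hy
        have h5 : ((y.1, y.2 + (r - s)) : X n) ∈ tsupport ζ := by
          rw [← add_sub_assoc]; exact hy
        refine mem_cthickening_of_dist_le y _ δ _ h5 ?_
        rw [tt_dist_time, abs_le]
        constructor
        · linarith [hr.1, hs.2]
        · linarith [hr.2])
    rw [mul_comm]
    refine le_of_eq_of_le ?_ h4
    refine integral_congr_ae ?_
    filter_upwards [hae, tt_ae_sh hae s] with y h5 h6
    have h7 : sh s (fun y => max (-|M|) (min |M| (z k y))) y = sh s (z k) y := h6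
    rw [h5, h7]

end PP
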