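import Pool.Agent.PP.LEN
import Pool.Agent.PP.EXT2
import Pool.Agent.PP.CAL4
import Pool.Agent.PP.TT

open Set Metric Filter Topology MeasureTheory
open scoped ContDiff

noncomputable section

namespace PP

attribute [local instance] AVG1_haar

variable {n : ℕ}
variable {p : ℝ}

/-- bound for the localised gradient -/
theorem tts_loc (hp : 1 < p) {Ω : Set (X n)} (hΩ : IsOpen Ω) {M K : ℝ} {η : X n → ℝ}
    (hη : Tst Ω η) (h01 : ∀ z, 0 ≤ η z ∧ η z ≤ 1) {u : X n → ℝ} {G : X n → E n}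
    (h : SupOn p Ω u G) (hM : ∀ᵐ z ∂(volume.restrict Ω), |u z| ≤ M)
    (hK : ∫ z in tsupport η, ‖G z‖ ^ p ≤ K) :
    W0 p (tsupport η) (fun z => η z * u z) (fun z => η z • G z + u z • dx η z) ∧
      (∀ᵐ z, |η z * u z| ≤ |M|) ∧
      ∫ z, ‖η z • G z + u z • dx η z‖ ^ p ≤
        2 ^ p * (K + |M| ^ p * ∫ z, ‖dx η z‖ ^ p) := by
  have hp0 : 0 < p := by linarith
  have hW := wg_localize hp hΩ h.meas h.bdd h.memG h.wg hη
  have hT : IsCompact (tsupport η) := hη.cpt.isCompact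
  refine ⟨hW, ?_, ?_⟩
  · have h1 := (ae_restrict_iff' hΩ.measurableSet).1 hM
    filter_upwards [h1] with z hz
    by_cases hzΩ : z ∈ Ω
    · rw [abs_mul, abs_of_nonneg (h01 z).1]
      calc η z * |u z| ≤ 1 * |u z| := mul_le_mul_of_nonneg_right (h01 z).2 (abs_nonneg _)
        _ ≤ |M| := by rw [one_mul]; exact (hz hzΩ).trans (le_abs_self M)
    · have h2 : z ∉ tsupport η := fun h' => hzΩ (hη.supp h')
      rw [image_eq_zero_of_notMem_tsupport h2]
      simp
  · have hzero : ∀ z, z ∉ tsupport η → ‖η z • G z + u z • dx η z‖ ^ p = 0 := by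
      intro z hz
      rw [image_eq_zero_of_notMem_tsupport hz, dx_zero_of_notMem z hz]
      simp [Real.zero_rpow hp0.ne']
    rw [← setIntegral_eq_integral_of_forall_compl_eq_zero hzero]
    have hG : Integrable (fun z => ‖G z‖ ^ p) (volume.restrict (tsupport η)) :=
      (lps_int_iff hp0 (h.memG _ hT hη.supp).1).2 (h.memG _ hT hη.supp)
    have hdx : Integrable (fun z => ‖dx η z‖ ^ p) volume :=
      tt_int_pow hp (tst_W1 hp hη).mem
    have hint : Integrable (fun z => ‖η z • G z + u z • dx η z‖ ^ p)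
        (volume.restrict (tsupport η)) := (tt_int_pow hp hW.mem).restrict
    have hsum : ∫ z in tsupport η, 2 ^ p * (‖G z‖ ^ p + |M| ^ p * ‖dx η z‖ ^ p) =
        2 ^ p * ((∫ z in tsupport η, ‖G z‖ ^ p) +
          |M| ^ p * ∫ z in tsupport η, ‖dx η z‖ ^ p) := by
      rw [integral_const_mul, integral_add hG (hdx.restrict.const_mul _), integral_const_mul]
    have hle : ∫ z in tsupport η, ‖η z • G z + u z • dx η z‖ ^ p ≤
        ∫ z in tsupport η, 2 ^ p * (‖G z‖ ^ p + |M| ^ p * ‖dx η z‖ ^ p) := by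
      have hMT : ∀ᵐ z ∂(volume.restrict (tsupport η)), |u z| ≤ M :=
        ae_restrict_of_ae_restrict_of_subset hη.supp hM
      refine integral_mono_ae hint ((hG.add (hdx.restrict.const_mul _)).const_mul _) ?_
      filter_upwards [hMT] with z hz
      refine (tt_norm_add_rpow hp _ _).trans ?_
      change 2 ^ p * (‖η z • G z‖ ^ p + ‖u z • dx η z‖ ^ p) ≤
        2 ^ p * (‖G z‖ ^ p + |M| ^ p * ‖dx η z‖ ^ p)
      have e1 : ‖η z • G z‖ ≤ ‖G z‖ := by
        rw [norm_smul, Real.norm_eq_abs, abs_of_nonneg (h01 z).1]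
        exact mul_le_of_le_one_left (norm_nonneg _) (h01 z).2
      have e2 : ‖u z • dx η z‖ ^ p ≤ |M| ^ p * ‖dx η z‖ ^ p := by
        rw [norm_smul, Real.mul_rpow (norm_nonneg _) (norm_nonneg _), Real.norm_eq_abs]
        exact mul_le_mul_of_nonneg_right (Real.rpow_le_rpow (abs_nonneg _)
          (hz.trans (le_abs_self M)) hp0.le) (Real.rpow_nonneg (norm_nonneg _) _)
      gcongr
    refine hle.trans ?_
    rw [hsum]
    have h5 : ∫ z in tsupport η, ‖dx η z‖ ^ p ≤ ∫ z, ‖dx η z‖ ^ p :=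
      setIntegral_le_integral hdx (ae_of_all _ fun z => Real.rpow_nonneg (norm_nonneg _) _)
    exact mul_le_mul_of_nonneg_left (add_le_add hK (mul_le_mul_of_nonneg_left h5
      (Real.rpow_nonneg (abs_nonneg _) _))) (by positivity)

/-- time translation estimate for solutions -/
theorem tt_sol (hp : 1 < p) {Ω : Set (X n)} (hΩ : IsOpen Ω) (M : ℝ) {ζ : X n → ℝ}
    (hζ : Tst Ω ζ) (h0 : ∀ z, 0 ≤ ζ z) : ∃ K s₀ : ℝ, 0 < s₀ ∧
      ∀ (u : X n → ℝ) (G : X n → E n), SolOn p Ω u G →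
      (∀ᵐ z ∂(volume.restrict Ω), |u z| ≤ M) → ∀ s ∈ Icc 0 s₀,
      ∫ z, ζ z * (sh s u z - u z) ^ 2 ≤ K * s := by
  have _ := h0
  have hp0 : 0 < p := by linarith
  obtain ⟨δ, hδ, hδΩ⟩ := hζ.cpt.isCompact.exists_cthickening_subset_open hΩ hζ.supp
  set D : Set (X n) := cthickening δ (tsupport ζ) with hDd
  have hDc : IsCompact D := hζ.cpt.isCompact.cthickening
  have hDm : MeasurableSet D := hDc.measurableSet
  obtain ⟨η, hη, h01, h1⟩ := exists_cutoff hDc hΩ hδΩ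
  have h2D : ∀ y ∈ D, η y = 1 := fun y hy => h1.self_of_nhdsSet y hy
  obtain ⟨Z, hZ⟩ := hζ.cpt.exists_bound_of_continuous hζ.smooth.continuous
  obtain ⟨K₁, hK₁⟩ := len hp hΩ M hη.cpt.isCompact hη.supp
  obtain ⟨K₀, hK₀⟩ := len hp hΩ M hDc hδΩ
  refine ⟨K₀ + 2 ^ p * (Z ^ p * (2 ^ p * (2 * (2 ^ p * (K₁ + |M| ^ p * ∫ z, ‖dx η z‖ ^ p)))) +
    (2 * |M|) ^ p * ∫ y, ‖dx ζ y‖ ^ p), δ, hδ, ?_⟩
  intro u G hu hM s hs
  rcases hs.1.eq_or_lt with rfl | hs0
  · have h3 : ∀ y, ζ y * (sh 0 u y - u y) ^ 2 = 0 := by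
      intro y; simp [sh]
    simp only [h3, integral_zero, mul_zero, le_refl]
  obtain ⟨hW, hWM, hWK⟩ := tts_loc hp hΩ hη h01 hu.toSupOn hM
    (hK₁ u G hu.toSupOn hM)
  set w : X n → ℝ := fun z => η z * u z with hw
  set W : X n → E n := fun z => η z • G z + u z • dx η z with hWd
  have hψ := tt_psi0 hp hη.cpt.isCompact.isBounded hW hζ s
  set ψ : X n → ℝ := fun y => ζ y * (sh s w y - w y) with hψd
  set Ψ : X n → E n := fun y => ζ y • (sh s W y - W y) + (sh s w y - w y) • dx ζ y with hΨd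
  have hφ := hψ.shift (-s)
  have hC' : IsCompact {z : X n | (z.1, z.2 + -s) ∈ tsupport ζ} := by
    have h4 : {z : X n | (z.1, z.2 + -s) ∈ tsupport ζ} =
        (Homeomorph.addRight (((0 : E n), -s) : X n)) ⁻¹' tsupport ζ := by
      ext z
      have h5 : (Homeomorph.addRight (((0 : E n), -s) : X n)) z = (z.1, z.2 + -s) := by
        ext <;> simp
      rw [mem_preimage, h5]
      rfl
    rw [h4]
    exact (Homeomorph.isCompact_preimage _).2 hζ.cpt.isCompact
  have hnear : ∀ z : X n, ∀ r ∈ Icc 0 s, (z.1, z.2 + r + -s) ∈ tsupport ζ → z ∈ D := by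
    intro z r hr hz
    have h5 : ((z.1, z.2 + (r + -s)) : X n) ∈ tsupport ζ := by
      rw [← add_assoc]; exact hz
    refine mem_cthickening_of_dist_le z _ δ _ h5 ?_
    rw [tt_dist_time, abs_le]
    constructor
    · linarith [hr.1, hs.2]
    · linarith [hr.2]
  have hshf := shf_eq hp hΩ hC' hDc hδΩ hs0 (fun z r hr hz => hnear z r hr hz) hu.meas hu.bdd
    (fun K hK hKΩ => memLp_flux hp (hu.memG K hK hKΩ))
    (fun χ hχ => by have := hu.eq χ hχ; linarith) hφ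
  -- the left side
  have hL : ∫ z, sh (-s) ψ z * (u z - sh (-s) u z) = ∫ z, ζ z * (sh s u z - u z) ^ 2 := by
    rw [← tt_integral_sh s (fun z => sh (-s) ψ z * (u z - sh (-s) u z))]
    congr 1; funext z
    have h6 : sh s (fun z => sh (-s) ψ z * (u z - sh (-s) u z)) z =
        ψ z * (sh s u z - u z) := by
      simp [sh]
    rw [h6]
    by_cases hz : z ∈ tsupport ζ
    · have hzD : z ∈ D := self_subset_cthickening _ hz
      have hzD' : ((z.1, z.2 + s) : X n) ∈ D := by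
        refine mem_cthickening_of_dist_le _ z δ _ hz ?_
        rw [dist_comm, tt_dist_time, abs_of_pos hs0]
        exact hs.2
      have h7 : w z = u z := by simp only [hw, h2D z hzD, one_mul]
      have h8 : sh s w z = sh s u z := by
        simp only [hw, sh, h2D _ hzD', one_mul]
      simp only [hψd, h7, h8]; ring
    · have h9 := image_eq_zero_of_notMem_tsupport hz
      simp only [hψd, h9, zero_mul]
  rw [hL] at hshf
  -- the right side
  have hGD : MemLp (D.indicator G) (ENNReal.ofReal p) volume :=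
    (memLp_indicator_iff_restrict hDm).2 (hu.memG D hDc hδΩ)
  have hav0 : ∀ z, z ∉ D → av s (sh (-s) Ψ) z = 0 := by
    intro z hz
    apply tt_av_zero
    intro r hr
    rw [uIcc_of_le hs0.le] at hr
    have h10 : ((z.1, z.2 + r + -s) : X n) ∉ tsupport ζ := fun h' => hz (hnear z r hr h')
    have h11 : sh (-s) Ψ (z.1, z.2 + r) = Ψ (z.1, z.2 + r + -s) := rfl
    rw [h11]
    simp only [hΨd, image_eq_zero_of_notMem_tsupport h10, dx_zero_of_notMem _ h10, zero_smul,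
      smul_zero, add_zero]
  obtain ⟨hav, havle⟩ := av_memLp hp.le hφ.mem hs0.ne'
  have hR : - ∫ z, inner ℝ (A p (G z)) (av s (sh (-s) Ψ) z) =
      ∫ z, inner ℝ (A p (D.indicator G z)) (-(av s (sh (-s) Ψ) z)) := by
    rw [← integral_neg]
    congr 1; funext z
    by_cases hz : z ∈ D
    · rw [indicator_of_mem hz, inner_neg_right]
    · rw [hav0 z hz]; simp
  have hfl := tt_flux_le hp hGD hav.neg
  have hG2 : ∫ z, ‖D.indicator G z‖ ^ p = ∫ z in D, ‖G z‖ ^ p := by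
    rw [← integral_indicator hDm]
    congr 1; funext z
    by_cases hz : z ∈ D
    · rw [indicator_of_mem hz, indicator_of_mem hz]
    · rw [indicator_of_notMem hz, indicator_of_notMem hz, norm_zero, Real.zero_rpow hp0.ne']
  have hb := tt_psi_bound hp hζ hZ hW.meas hWM hW.mem s
  have hsh : ∫ y, ‖sh (-s) Ψ y‖ ^ p = ∫ y, ‖Ψ y‖ ^ p :=
    tt_integral_sh (-s) (fun y => ‖Ψ y‖ ^ p)
  have hb2 : 2 ^ p * (Z ^ p * (2 ^ p * (2 * ∫ y, ‖W y‖ ^ p)) +
      (2 * |M|) ^ p * ∫ y, ‖dx ζ y‖ ^ p) ≤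
      2 ^ p * (Z ^ p * (2 ^ p * (2 * (2 ^ p * (K₁ + |M| ^ p * ∫ z, ‖dx η z‖ ^ p)))) +
      (2 * |M|) ^ p * ∫ y, ‖dx ζ y‖ ^ p) := by
    have hZ0 : 0 ≤ Z := (norm_nonneg _).trans (hZ 0)
    gcongr
  have hfin : s⁻¹ * ∫ z, ζ z * (sh s u z - u z) ^ 2 ≤
      K₀ + 2 ^ p * (Z ^ p * (2 ^ p * (2 * (2 ^ p * (K₁ + |M| ^ p * ∫ z, ‖dx η z‖ ^ p)))) +
      (2 * |M|) ^ p * ∫ y, ‖dx ζ y‖ ^ p) := by
    rw [hshf, hR]
    refine hfl.trans (add_le_add ?_ ?_)
    · rw [hG2]; exact hK₀ u G hu.toSupOn hM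
    · have h12 : ∫ z, ‖(-av s (sh (-s) Ψ)) z‖ ^ p = ∫ z, ‖av s (sh (-s) Ψ) z‖ ^ p := by
        simp only [Pi.neg_apply, norm_neg]
      change ∫ z, ‖(-av s (sh (-s) Ψ)) z‖ ^ p ≤ _
      rw [h12]
      refine havle.trans ?_
      rw [hsh]
      exact hb.trans hb2
  rw [inv_mul_le_iff₀ hs0] at hfin
  rw [mul_comm]
  exact hfin

end PP
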