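import Pool.Agent.PP.LSOL
import Pool.Agent.PP.TTS
import Pool.Agent.PP.CPT
import Pool.Agent.PP.WLIM
import Pool.Agent.PP.EXH
import Pool.Agent.PP.POI
import Pool.Agent.PP.LEN

open Set Metric Filter Topology MeasureTheory
open scoped ContDiff

noncomputable section

namespace PP

variable {n : ℕ}
variable {p : ℝ}

private lemma scpt_pow {q l : ℝ} (hq : 1 < q) (hl : 0 < l) (a : ℝ) :
    |a| ≤ l + l ^ (1 - q) * |a| ^ q := by
  by_cases h : |a| ≤ l
  · have : 0 ≤ l ^ (1 - q) * |a| ^ q := by positivity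
    linarith
  · push Not at h
    have ha : 0 < |a| := hl.trans h
    have h1 : |a| ^ (1 - q) ≤ l ^ (1 - q) :=
      Real.rpow_le_rpow_of_nonpos hl h.le (by linarith)
    have h2 : |a| = |a| ^ (1 - q) * |a| ^ q := by
      rw [← Real.rpow_add ha]
      simp
    have h3 : |a| ^ (1 - q) * |a| ^ q ≤ l ^ (1 - q) * |a| ^ q :=
      mul_le_mul_of_nonneg_right h1 (by positivity)
    linarith

private lemma scpt_L1 {S : Set (X n)} (hSf : volume S ≠ ⊤) {q l : ℝ} (hq : 1 < q) (hl : 0 < l)
    {f : X n → ℝ} (hf : AEStronglyMeasurable f (volume.restrict S))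
    (hi : IntegrableOn (fun z => |f z| ^ q) S volume) :
    ∫ z in S, |f z| ≤ l * (volume S).toReal + l ^ (1 - q) * ∫ z in S, |f z| ^ q := by
  have hfin : IsFiniteMeasure (volume.restrict S : Measure (X n)) :=
    ⟨by rw [Measure.restrict_apply_univ]; exact lt_top_iff_ne_top.2 hSf⟩
  have i1 : Integrable (fun z => l + l ^ (1 - q) * |f z| ^ q) (volume.restrict S) :=
    (integrable_const l).add (hi.const_mul _)
  have i2 : Integrable (fun z => |f z|) (volume.restrict S) := by
    refine i1.mono' hf.norm ?_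
    filter_upwards with z
    rw [Real.norm_eq_abs, abs_abs]
    exact scpt_pow hq hl _
  calc ∫ z in S, |f z| ≤ ∫ z in S, (l + l ^ (1 - q) * |f z| ^ q) :=
        integral_mono i2 i1 fun z => scpt_pow hq hl _
    _ = l * (volume S).toReal + l ^ (1 - q) * ∫ z in S, |f z| ^ q := by
        rw [integral_add (integrable_const l) (hi.const_mul _), integral_const_mul, integral_const,
          Measure.real, Measure.restrict_apply_univ, smul_eq_mul, mul_comm]

private lemma scpt_rpow_add (hp : 1 < p) (a b : E n) :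
    ‖a + b‖ ^ p ≤ 2 ^ (p - 1) * (‖a‖ ^ p + ‖b‖ ^ p) := by
  have h1 : ‖a + b‖ ^ p ≤ (‖a‖ + ‖b‖) ^ p :=
    Real.rpow_le_rpow (norm_nonneg _) (norm_add_le a b) (by linarith)
  have h2 := NNReal.rpow_add_le_mul_rpow_add_rpow ‖a‖₊ ‖b‖₊ hp.le
  have h3 : (‖a‖ + ‖b‖) ^ p ≤ 2 ^ (p - 1) * (‖a‖ ^ p + ‖b‖ ^ p) := by exact_mod_cast h2
  exact h1.trans h3

private lemma scpt_int (hp : 1 < p) {F : Type*} [NormedAddCommGroup F] {μ : Measure (X n)}
    {H : X n → F} (h : MemLp H (ENNReal.ofReal p) μ) : Integrable (fun y => ‖H y‖ ^ p) μ := by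
  have h0 : ENNReal.ofReal p ≠ 0 := by
    rw [Ne, ENNReal.ofReal_eq_zero]; linarith
  have := h.integrable_norm_rpow h0 ENNReal.ofReal_ne_top
  rwa [ENNReal.toReal_ofReal (by linarith)] at this

/-- localised solutions have bounded energy -/
private lemma scpt_energy (hp : 1 < p) {Ω : Set (X n)} (hΩ : IsOpen Ω) (M : ℝ) {ζ : X n → ℝ}
    (hζ : Tst Ω ζ) (h01 : ∀ z, 0 ≤ ζ z ∧ ζ z ≤ 1) : ∃ K₂ : ℝ, ∀ (u : X n → ℝ) (G : X n → E n),
      SolOn p Ω u G → (∀ᵐ z ∂(volume.restrict Ω), |u z| ≤ M) →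
      W0 p (tsupport ζ) (fun z => ζ z * u z) (fun z => ζ z • G z + u z • dx ζ z) ∧
        ∫ z, ‖ζ z • G z + u z • dx ζ z‖ ^ p ≤ K₂ := by
  have hp0 : 0 < p := by linarith
  have hD : IsCompact (tsupport ζ) := hζ.cpt
  obtain ⟨K, hK⟩ := len hp hΩ M hD hζ.supp
  have cdx : Continuous (dx ζ) := (contDiff_dx hζ.smooth).continuous
  obtain ⟨B, hB⟩ := (der_tst_int hζ).2.1.exists_bound_of_continuous cdx
  refine ⟨2 ^ (p - 1) * (K + (|M| * B) ^ p * (volume (tsupport ζ)).toReal), ?_⟩
  intro u G hs hM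
  have hw := wg_localize hp hΩ hs.meas hs.bdd hs.memG hs.wg hζ
  refine ⟨hw, ?_⟩
  have hfin : IsFiniteMeasure (volume.restrict (tsupport ζ) : Measure (X n)) :=
    ⟨by rw [Measure.restrict_apply_univ]; exact hD.measure_lt_top⟩
  have e1 : ∫ z, ‖ζ z • G z + u z • dx ζ z‖ ^ p =
      ∫ z in tsupport ζ, ‖ζ z • G z + u z • dx ζ z‖ ^ p := by
    symm
    apply setIntegral_eq_integral_of_forall_compl_eq_zero
    intro z hz
    rw [image_eq_zero_of_notMem_tsupport hz, dx_zero_of_notMem z hz]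
    simp [Real.zero_rpow hp0.ne']
  have hMG := hs.memG _ hD hζ.supp
  have i1 : Integrable (fun z => ‖G z‖ ^ p) (volume.restrict (tsupport ζ)) := scpt_int hp hMG
  have i2 : Integrable (fun z => 2 ^ (p - 1) * (‖G z‖ ^ p + (|M| * B) ^ p))
      (volume.restrict (tsupport ζ)) := (i1.add (integrable_const _)).const_mul _
  rw [e1]
  calc ∫ z in tsupport ζ, ‖ζ z • G z + u z • dx ζ z‖ ^ p
      ≤ ∫ z in tsupport ζ, 2 ^ (p - 1) * (‖G z‖ ^ p + (|M| * B) ^ p) := by
        apply integral_mono_ae (scpt_int hp hw.mem).integrableOn i2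
        have hM' : ∀ᵐ z ∂(volume.restrict (tsupport ζ)), |u z| ≤ M :=
          ae_mono (Measure.restrict_mono hζ.supp le_rfl) hM
        filter_upwards [hM'] with z hz
        refine (scpt_rpow_add hp _ _).trans ?_
        apply mul_le_mul_of_nonneg_left _ (by positivity)
        apply add_le_add
        · apply Real.rpow_le_rpow (norm_nonneg _) _ hp0.le
          rw [norm_smul, Real.norm_eq_abs, abs_of_nonneg (h01 z).1]
          exact mul_le_of_le_one_left (norm_nonneg _) (h01 z).2
        · apply Real.rpow_le_rpow (norm_nonneg _) _ hp0.le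
          rw [norm_smul, Real.norm_eq_abs]
          exact mul_le_mul (hz.trans (le_abs_self M)) (hB z) (norm_nonneg _) (abs_nonneg _)
    _ = 2 ^ (p - 1) * ((∫ z in tsupport ζ, ‖G z‖ ^ p) +
        (|M| * B) ^ p * (volume (tsupport ζ)).toReal) := by
        rw [integral_const_mul, integral_add i1 (integrable_const _), integral_const,
          Measure.real, Measure.restrict_apply_univ, smul_eq_mul,
          mul_comm (volume (tsupport ζ)).toReal]
    _ ≤ _ := by
        apply mul_le_mul_of_nonneg_left _ (by positivity)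
        have := hK u G hs.toSupOn hM
        linarith

/-- equicontinuity of bounded solutions -/
private lemma scpt_equi (hp : 1 < p) {Ω : Set (X n)} (hΩ : IsOpen Ω) {M : ℝ}
    {u : ℕ → X n → ℝ} {G : ℕ → X n → E n} (h : ∀ k, SolOn p Ω (u k) (G k))
    (hM : ∀ k, ∀ᵐ z ∂(volume.restrict Ω), |u k z| ≤ M) :
    EquiL Ω (fun k => Ω.indicator (u k)) := by
  have hp0 : 0 < p := by linarith
  have hhaar := der_haar (n := n)
  intro K hK hKΩ δ hδ
  obtain ⟨ε, hε, hεΩ⟩ := hK.exists_cthickening_subset_open hΩ hKΩ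
  set K₁ := cthickening ε K with hK₁def
  have hK₁ : IsCompact K₁ := hK.cthickening
  have hKK₁ : K ⊆ K₁ := self_subset_cthickening K
  obtain ⟨ζ, hζ, h01, hζ1⟩ := exists_cutoff hK₁ hΩ hεΩ
  have hζ1' : ∀ z ∈ K₁, ζ z = 1 := fun z hz => hζ1.self_of_nhdsSet z hz
  obtain ⟨ε₂, hε₂, hε₂Ω⟩ := (show IsCompact (tsupport ζ) from hζ.cpt).exists_cthickening_subset_open
    hΩ hζ.supp
  obtain ⟨K₂, hK₂⟩ := scpt_energy hp hΩ M hζ h01
  obtain ⟨K₃, s₀, hs₀, hK₃⟩ := tt_sol hp hΩ M hζ (fun z => (h01 z).1)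
  -- parameters
  set V := (volume K₁).toReal with hV
  have hV0 : 0 ≤ V := ENNReal.toReal_nonneg
  obtain ⟨l, hl, hlV⟩ : ∃ l : ℝ, 0 < l ∧ l * V ≤ δ / 4 := by
    refine ⟨δ / (4 * (V + 1)), by positivity, ?_⟩
    rw [div_mul_eq_mul_div, div_le_div_iff₀ (by positivity) (by norm_num)]
    nlinarith
  obtain ⟨r₁, hr₁, hr₁'⟩ : ∃ r₁ : ℝ, 0 < r₁ ∧ ∀ t : ℝ, 0 ≤ t → t < r₁ →
      l ^ (1 - p) * (t ^ p * |K₂|) ≤ δ / 4 := by
    have hc : Continuous fun t : ℝ => l ^ (1 - p) * (|t| ^ p * |K₂|) := by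
      have h1 : Continuous fun t : ℝ => |t| ^ p := continuous_abs.rpow_const fun _ => Or.inr hp0.le
      exact continuous_const.mul (h1.mul continuous_const)
    have h0 : (fun t : ℝ => l ^ (1 - p) * (|t| ^ p * |K₂|)) 0 < δ / 4 := by
      simp only [abs_zero, Real.zero_rpow hp0.ne', zero_mul, mul_zero]
      positivity
    obtain ⟨r₁, hr₁, hr₁'⟩ := Metric.eventually_nhds_iff.1 (hc.continuousAt.eventually_lt_const h0)
    refine ⟨r₁, hr₁, fun t ht0 ht => ?_⟩
    have := hr₁' (y := t) (by rw [Real.dist_eq, sub_zero, abs_of_nonneg ht0]; exact ht)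
    rw [abs_of_nonneg ht0] at this
    exact this.le
  obtain ⟨r₂, hr₂, hr₂'⟩ : ∃ r₂ : ℝ, 0 < r₂ ∧ ∀ t : ℝ, 0 ≤ t → t < r₂ →
      l⁻¹ * (|K₃| * t) ≤ δ / 4 := by
    refine ⟨δ * l / (4 * (|K₃| + 1)), by positivity, fun t ht0 ht => ?_⟩
    rw [lt_div_iff₀ (by positivity)] at ht
    rw [inv_mul_le_iff₀ hl]
    have : |K₃| * t ≤ (|K₃| + 1) * t := by nlinarith
    nlinarith
  refine ⟨min (min ε ε₂) (min s₀ (min r₁ r₂)), by positivity, Eventually.of_forall fun k y hy => ?_⟩
  have hyε : ‖y‖ < ε := lt_of_lt_of_le hy ((min_le_left _ _).trans (min_le_left _ _))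
  have hyε₂ : ‖y‖ < ε₂ := lt_of_lt_of_le hy ((min_le_left _ _).trans (min_le_right _ _))
  have hys₀ : ‖y‖ < s₀ := lt_of_lt_of_le hy ((min_le_right _ _).trans (min_le_left _ _))
  have hyr₁ : ‖y‖ < r₁ := lt_of_lt_of_le hy ((min_le_right _ _).trans ((min_le_right _ _).trans
    (min_le_left _ _)))
  have hyr₂ : ‖y‖ < r₂ := lt_of_lt_of_le hy ((min_le_right _ _).trans ((min_le_right _ _).trans
    (min_le_right _ _)))
  have hy1 : ‖y.1‖ ≤ ‖y‖ := norm_fst_le y
  have hy2 : |y.2| ≤ ‖y‖ := by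
    rw [← Real.norm_eq_abs]
    exact norm_snd_le y
  -- the extended function
  set U : X n → ℝ := Ω.indicator (u k) with hU
  have hUm : AEStronglyMeasurable U volume :=
    (aestronglyMeasurable_indicator_iff hΩ.measurableSet).2 (h k).meas
  have hUb : ∀ᵐ z, |U z| ≤ |M| := by
    have h1 := (ae_restrict_iff' hΩ.measurableSet).1 (hM k)
    filter_upwards [h1] with z hz
    by_cases hzΩ : z ∈ Ω
    · rw [hU, indicator_of_mem hzΩ]
      exact (hz hzΩ).trans (le_abs_self M)
    · rw [hU, indicator_of_notMem hzΩ, abs_zero]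
      exact abs_nonneg M
  have hUΩ : ∀ z ∈ Ω, U z = u k z := fun z hz => indicator_of_mem hz _
  -- translates
  have mp : ∀ w : X n, MeasurePreserving (fun z : X n => z + w) volume volume := fun w =>
    measurePreserving_add_right (volume : Measure (X n)) w
  have hUt : ∀ w : X n, AEStronglyMeasurable (fun z => U (z + w)) volume := fun w =>
    hUm.comp_measurePreserving (mp w)
  have hUbt : ∀ w : X n, ∀ᵐ z, |U (z + w)| ≤ |M| := fun w =>
    (mp w).quasiMeasurePreserving.ae hUb
  have hintS : ∀ (S : Set (X n)), IsCompact S → ∀ w w' : X n,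
      Integrable (fun z => |U (z + w) - U (z + w')|) (volume.restrict S) := by
    intro S hS w w'
    have hfin : IsFiniteMeasure (volume.restrict S : Measure (X n)) :=
      ⟨by rw [Measure.restrict_apply_univ]; exact hS.measure_lt_top⟩
    apply (integrable_const (2 * |M|)).mono' ((hUt w).sub (hUt w')).norm.restrict
    apply ae_restrict_of_ae
    filter_upwards [hUbt w, hUbt w'] with z h1 h2
    rw [norm_norm, Real.norm_eq_abs]
    have := abs_sub (U (z + w)) (U (z + w'))
    simp only [Pi.sub_apply]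
    linarith
  have hthick : ∀ z ∈ K, ∀ w : X n, ‖w‖ ≤ ‖y‖ → z + w ∈ K₁ := by
    intro z hz w hw
    apply mem_cthickening_of_dist_le _ z ε K hz
    rw [dist_eq_norm, add_sub_cancel_left]
    linarith
  have hn1 : ‖((y.1, 0) : X n)‖ ≤ ‖y‖ := by
    rw [Prod.norm_def]
    simp only [norm_zero]
    exact max_le hy1 (norm_nonneg _)
  have hn2 : ‖((0, y.2) : X n)‖ ≤ ‖y‖ := by
    rw [Prod.norm_def]
    simp only [norm_zero, Real.norm_eq_abs]
    exact max_le (norm_nonneg _) hy2
  -- first part : space translation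
  have part1 : ∫ z in K, |U (z + y) - U (z + (0, y.2))| ≤ δ / 2 := by
    obtain ⟨hw, hwK⟩ := hK₂ (u k) (G k) (h k) (hM k)
    set W : X n → ℝ := fun z => ζ z * u k z with hW
    have hWU : ∀ z ∈ K₁, W z = U z := by
      intro z hz
      simp only [hW]
      rw [hζ1' z hz, one_mul, hUΩ z (hεΩ hz)]
    have hcb : Bornology.IsBounded (tsupport ζ) := (show IsCompact (tsupport ζ) from hζ.cpt).isBounded
    have htr := trx hp hcb hw y.1
    have hWp : MemLp W (ENNReal.ofReal p) volume := hw.memLp_fn hcb _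
    have hWt : ∀ w : X n, MemLp (fun z => W (z + w)) (ENNReal.ofReal p) volume := fun w =>
      hWp.comp_measurePreserving (mp w)
    have hWi : Integrable (fun z => |W (z + y) - W (z + (0, y.2))| ^ p) volume := by
      have := scpt_int hp ((hWt y).sub (hWt (0, y.2)))
      simpa only [Pi.sub_apply, Real.norm_eq_abs] using this
    have e1 : ∫ z in K, |U (z + y) - U (z + (0, y.2))| =
        ∫ z in K, |W (z + y) - W (z + (0, y.2))| := by
      apply setIntegral_congr_fun hK.measurableSet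
      intro z hz
      simp only
      rw [hWU _ (hthick z hz y le_rfl), hWU _ (hthick z hz _ hn2)]
    have e2 : ∫ z, |W (z + y) - W (z + (0, y.2))| ^ p = ∫ z, |W (z.1 + y.1, z.2) - W z| ^ p := by
      have h1 := integral_add_right_eq_self (μ := (volume : Measure (X n)))
        (fun z : X n => |W (z.1 + y.1, z.2) - W z| ^ p) (0, y.2)
      rw [← h1]
      apply integral_congr_ae
      filter_upwards with z
      congr 3
      apply congrArg
      ext1
      · simp
      · simp
    rw [e1]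
    have h1 := scpt_L1 (q := p) hK.measure_lt_top.ne hp hl
      (f := fun z => W (z + y) - W (z + (0, y.2)))
      ((hWt y).aestronglyMeasurable.sub (hWt (0, y.2)).aestronglyMeasurable).restrict
      hWi.integrableOn
    refine h1.trans ?_
    have h2 : ∫ z in K, |W (z + y) - W (z + (0, y.2))| ^ p ≤ ‖y‖ ^ p * |K₂| := by
      calc ∫ z in K, |W (z + y) - W (z + (0, y.2))| ^ p
          ≤ ∫ z, |W (z + y) - W (z + (0, y.2))| ^ p :=
            setIntegral_le_integral hWi (Eventually.of_forall fun z => by positivity)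
        _ = ∫ z, |W (z.1 + y.1, z.2) - W z| ^ p := e2
        _ ≤ ‖y.1‖ ^ p * ∫ z, ‖ζ z • G k z + u k z • dx ζ z‖ ^ p := htr
        _ ≤ ‖y‖ ^ p * |K₂| := by
            apply mul_le_mul
            · exact Real.rpow_le_rpow (norm_nonneg _) hy1 hp0.le
            · exact hwK.trans (le_abs_self _)
            · exact integral_nonneg fun z => by positivity
            · positivity
    have h3 : (volume K).toReal ≤ V :=
      ENNReal.toReal_mono hK₁.measure_lt_top.ne (measure_mono hKK₁)
    have h4 := hr₁' ‖y‖ (norm_nonneg _) hyr₁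
    have h5 : l ^ (1 - p) * ∫ z in K, |W (z + y) - W (z + (0, y.2))| ^ p ≤
        l ^ (1 - p) * (‖y‖ ^ p * |K₂|) := mul_le_mul_of_nonneg_left h2 (by positivity)
    have h6 : l * (volume K).toReal ≤ l * V := mul_le_mul_of_nonneg_left h3 hl.le
    linarith
  -- second part : time translation
  have part2 : ∫ z in K, |U (z + (0, y.2)) - U z| ≤ δ / 2 := by
    set s := |y.2| with hs
    have hs0 : 0 ≤ s := abs_nonneg _
    have hns : ‖((0, s) : X n)‖ ≤ ‖y‖ := by
      rw [Prod.norm_def]
      simp only [norm_zero, Real.norm_eq_abs, abs_of_nonneg hs0]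
      exact max_le (norm_nonneg _) hy2
    have hU0 : ∀ z : X n, U z = U (z + 0) := fun z => by rw [add_zero]
    have i1 : Integrable (fun z => |U (z + (0, s)) - U z|) (volume.restrict K₁) := by
      have := hintS K₁ hK₁ (0, s) 0
      simpa only [add_zero] using this
    have step1 : ∫ z in K, |U (z + (0, y.2)) - U z| ≤ ∫ z in K₁, |U (z + (0, s)) - U z| := by
      rcases le_or_gt 0 y.2 with h0 | h0
      · have : s = y.2 := abs_of_nonneg h0
        rw [← this]
        exact setIntegral_mono_set i1 (Eventually.of_forall fun z => abs_nonneg _)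
          (show K ≤ K₁ from hKK₁).eventuallyLE
      · have hsy : s = - y.2 := abs_of_neg h0
        have i0 : Integrable (fun z => |U (z + (0, y.2)) - U z|) (volume.restrict K) := by
          have := hintS K hK (0, y.2) 0
          simpa only [add_zero] using this
        rw [← integral_indicator hK.measurableSet, ← integral_indicator hK₁.measurableSet]
        rw [← integral_add_right_eq_self (μ := (volume : Measure (X n)))
          (K.indicator fun z => |U (z + (0, y.2)) - U z|) (0, s)]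
        apply integral_mono
        · exact ((integrable_indicator_iff hK.measurableSet).2 i0).comp_add_right (0, s)
        · exact (integrable_indicator_iff hK₁.measurableSet).2 i1
        · intro z
          by_cases hz : z + (0, s) ∈ K
          · have hzK₁ : z ∈ K₁ := by
              have h2 := hthick _ hz (0, y.2) hn2
              have h3 : z + (0, s) + (0, y.2) = z := by
                rw [add_assoc, Prod.mk_add_mk, hsy]
                simp
              rwa [h3] at h2
            simp only [indicator_of_mem hz, indicator_of_mem hzK₁]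
            have h3 : z + (0, s) + (0, y.2) = z := by
              rw [add_assoc, Prod.mk_add_mk, hsy]
              simp
            rw [h3, abs_sub_comm]
          · simp only [indicator_of_notMem hz]
            exact indicator_nonneg (fun _ _ => abs_nonneg _) _
    refine step1.trans ?_
    -- squares
    have hfin : IsFiniteMeasure (volume.restrict K₁ : Measure (X n)) :=
      ⟨by rw [Measure.restrict_apply_univ]; exact hK₁.measure_lt_top⟩
    have hsq : ∀ z, ζ z * (sh s (u k) z - u k z) ^ 2 = ζ z * (U (z + (0, s)) - U z) ^ 2 := by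
      intro z
      by_cases hz : z ∈ tsupport ζ
      · have h2 : z + (0, s) ∈ Ω := by
          apply hε₂Ω
          apply mem_cthickening_of_dist_le _ z ε₂ _ hz
          rw [dist_eq_norm, add_sub_cancel_left]
          linarith
        have h3 : (z.1, z.2 + s) = z + (0, s) := by ext1 <;> simp
        rw [sh, h3, hUΩ _ h2, hUΩ z (hζ.supp hz)]
      · rw [image_eq_zero_of_notMem_tsupport hz, zero_mul, zero_mul]
    have i2 : Integrable (fun z => ζ z * (U (z + (0, s)) - U z) ^ 2) volume := by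
      have hζi : Integrable ζ volume :=
        hζ.smooth.continuous.integrable_of_hasCompactSupport hζ.cpt
      have h2 : Integrable (fun z => (2 * |M|) ^ 2 * ζ z) volume := hζi.const_mul _
      apply h2.mono'
      · exact hζ.smooth.continuous.aestronglyMeasurable.mul (((hUt _).sub hUm).pow 2)
      · filter_upwards [hUbt (0, s), hUb] with z h3 h4
        rw [norm_mul, Real.norm_eq_abs, Real.norm_eq_abs, abs_of_nonneg (h01 z).1,
          abs_of_nonneg (sq_nonneg _), mul_comm]
        apply mul_le_mul_of_nonneg_right _ (h01 z).1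
        rw [← sq_abs]
        apply pow_le_pow_left₀ (abs_nonneg _)
        have := abs_sub (U (z + (0, s))) (U z)
        linarith
    have h2 : ∫ z in K₁, (U (z + (0, s)) - U z) ^ 2 ≤ |K₃| * s := by
      calc ∫ z in K₁, (U (z + (0, s)) - U z) ^ 2
          = ∫ z in K₁, ζ z * (U (z + (0, s)) - U z) ^ 2 := by
            apply setIntegral_congr_fun hK₁.measurableSet
            intro z hz
            simp only
            rw [hζ1' z hz, one_mul]
        _ ≤ ∫ z, ζ z * (U (z + (0, s)) - U z) ^ 2 :=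
            setIntegral_le_integral i2 (Eventually.of_forall fun z =>
              mul_nonneg (h01 z).1 (sq_nonneg _))
        _ = ∫ z, ζ z * (sh s (u k) z - u k z) ^ 2 := by simp only [hsq]
        _ ≤ K₃ * s := hK₃ (u k) (G k) (h k) (hM k) s ⟨hs0, by linarith⟩
        _ ≤ |K₃| * s := mul_le_mul_of_nonneg_right (le_abs_self _) hs0
    have i3 : IntegrableOn (fun z => |U (z + (0, s)) - U z| ^ (2 : ℝ)) K₁ volume := by
      apply (integrable_const ((2 * |M|) ^ 2)).mono'
      · have h3 : AEStronglyMeasurable (fun z => |U (z + (0, s)) - U z| ^ (2 : ℕ)) volume :=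
          (((hUt (0, s)).sub hUm).norm.pow 2)
        refine (h3.congr (Eventually.of_forall fun z => ?_)).restrict
        simp only
        rw [Real.rpow_two]
      · apply ae_restrict_of_ae
        filter_upwards [hUbt (0, s), hUb] with z h3 h4
        rw [Real.rpow_two, Real.norm_eq_abs, abs_of_nonneg (sq_nonneg _)]
        apply pow_le_pow_left₀ (abs_nonneg _)
        have := abs_sub (U (z + (0, s))) (U z)
        linarith
    have h3 := scpt_L1 (q := 2) hK₁.measure_lt_top.ne one_lt_two hl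
      (f := fun z => U (z + (0, s)) - U z) ((hUt (0, s)).sub hUm).restrict i3
    refine h3.trans ?_
    have h4 : ∫ z in K₁, |U (z + (0, s)) - U z| ^ (2 : ℝ) = ∫ z in K₁, (U (z + (0, s)) - U z) ^ 2 := by
      apply integral_congr_ae
      filter_upwards with z
      rw [Real.rpow_two, sq_abs]
    have h5 := hr₂' s hs0 (by linarith)
    have h6 : l ^ ((1 : ℝ) - 2) = l⁻¹ := by
      rw [show (1 : ℝ) - 2 = -1 by norm_num, Real.rpow_neg_one]
    rw [h4, h6]
    have h7 : l⁻¹ * ∫ z in K₁, (U (z + (0, s)) - U z) ^ 2 ≤ l⁻¹ * (|K₃| * s) :=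
      mul_le_mul_of_nonneg_left h2 (by positivity)
    have h8 : l * (volume K₁).toReal = l * V := rfl
    linarith
  -- together
  have i1 := hintS K hK y (0, y.2)
  have i2 : Integrable (fun z => |U (z + (0, y.2)) - U z|) (volume.restrict K) := by
    have := hintS K hK (0, y.2) 0
    simpa only [add_zero] using this
  have i3 : Integrable (fun z => |U (z + y) - U z|) (volume.restrict K) := by
    have := hintS K hK y 0
    simpa only [add_zero] using this
  calc ∫ z in K, |U (z + y) - U z|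
      ≤ ∫ z in K, (|U (z + y) - U (z + (0, y.2))| + |U (z + (0, y.2)) - U z|) := by
        apply integral_mono i3 (i1.add i2)
        intro z
        exact abs_sub_le _ _ _
    _ = (∫ z in K, |U (z + y) - U (z + (0, y.2))|) + ∫ z in K, |U (z + (0, y.2)) - U z| :=
        integral_add i1 i2
    _ ≤ δ := by linarith


/-- change a solution outside a smaller open set -/
private lemma scpt_congr {Ω Ω' : Set (X n)} (hΩ' : IsOpen Ω') (hs : Ω' ⊆ Ω) {u u' : X n → ℝ}
    {G G' : X n → E n} (h : SolOn p Ω u G) (hu : ∀ z ∈ Ω', u' z = u z)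
    (hG : ∀ z ∈ Ω', G' z = G z) : SolOn p Ω' u' G' := by
  have hT : ∀ {φ : X n → ℝ}, Tst Ω' φ → Tst Ω φ := fun hφ => ⟨hφ.smooth, hφ.cpt, hφ.supp.trans hs⟩
  have e1 : ∀ {φ : X n → ℝ}, Tst Ω' φ → ∀ z, u' z • dx φ z = u z • dx φ z := by
    intro φ hφ z
    by_cases hz : z ∈ tsupport φ
    · rw [hu z (hφ.supp hz)]
    · rw [dx_zero_of_notMem z hz, smul_zero, smul_zero]
  have e2 : ∀ {φ : X n → ℝ}, Tst Ω' φ → ∀ z, φ z • G' z = φ z • G z := by
    intro φ hφ z
    by_cases hz : z ∈ tsupport φ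
    · rw [hG z (hφ.supp hz)]
    · rw [image_eq_zero_of_notMem_tsupport hz, zero_smul, zero_smul]
  have e3 : ∀ {φ : X n → ℝ}, Tst Ω' φ → ∀ z, u' z * dt φ z = u z * dt φ z := by
    intro φ hφ z
    by_cases hz : z ∈ tsupport φ
    · rw [hu z (hφ.supp hz)]
    · rw [dt_zero_of_notMem z hz, mul_zero, mul_zero]
  have e4 : ∀ {φ : X n → ℝ}, Tst Ω' φ → ∀ z, inner ℝ (A p (G' z)) (dx φ z) =
      inner ℝ (A p (G z)) (dx φ z) := by
    intro φ hφ z
    by_cases hz : z ∈ tsupport φ
    · rw [hG z (hφ.supp hz)]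
    · rw [dx_zero_of_notMem z hz, inner_zero_right, inner_zero_right]
  have hae : ∀ᵐ z ∂(volume.restrict Ω'), u z = u' z := by
    filter_upwards [ae_restrict_mem hΩ'.measurableSet] with z hz using (hu z hz).symm
  obtain ⟨M, hM⟩ := h.bdd
  exact
    { meas := (h.meas.mono_measure (Measure.restrict_mono hs le_rfl)).congr hae
      bdd := ⟨M, by
        filter_upwards [ae_restrict_of_ae_restrict_of_subset hs hM, hae] with z h1 h2
        rwa [← h2]⟩
      memG := fun K hK hKs => (h.memG K hK (hKs.trans hs)).ae_eq (by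
        filter_upwards [ae_restrict_mem hK.measurableSet] with z hz using (hG z (hKs hz)).symm)
      wg := fun φ hφ => by
        simp only [e1 hφ, e2 hφ]
        exact h.wg φ (hT hφ)
      ineq := fun φ hφ h0 => by
        simp only [e3 hφ, e4 hφ]
        exact h.ineq φ (hT hφ) h0
      eq := fun φ hφ => by
        simp only [e3 hφ, e4 hφ]
        exact h.eq φ (hT hφ) }

/-- strong convergence of the gradients -/
private lemma scpt_strong (hp : 1 < p) {Ω₀ : Set (X n)} (hΩ₀ : IsOpen Ω₀) {C : Set (X n)}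
    {M K : ℝ} {z : ℕ → X n → ℝ}
    {G : ℕ → X n → E n} (hW : ∀ i, W0 p C (z i) (G i)) (hM : ∀ i, ∀ᵐ y, |z i y| ≤ M)
    (hK : ∀ i, ∫ y, ‖G i y‖ ^ p ≤ K)
    (hs : ∀ i, SolOn p Ω₀ (z i) (G i))
    {zl : X n → ℝ} {Gl : X n → E n} (hl : ∀ᵐ y, Tendsto (fun i => z i y) atTop (𝓝 (zl y)))
    (hlW : W0 p C zl Gl) (hw : WkTo p G Gl) {S : Set (X n)} (hS : IsCompact S) (hSΘ : S ⊆ Ω₀) :
    Tendsto (fun i => ∫ y in S, ‖G i y - Gl y‖ ^ p) atTop (𝓝 0) := by
  have hp0 : 0 < p := by linarith
  have hcj : 0 < cj p := by unfold cj; exact div_pos hp0 (by linarith)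
  have memH : ∀ i, MemLp (G i) (ENNReal.ofReal p) volume := fun i => (hW i).mem
  have hK20 : 0 ≤ K := le_trans (integral_nonneg fun y => by positivity) (hK 0)
  obtain ⟨ζ, hζ, hζb, hζ1⟩ := exists_cutoff hS hΩ₀ hSΘ
  have hζc : Continuous ζ := hζ.smooth.continuous
  have hζm : Measurable ζ := hζc.measurable
  have hζ1' : ∀ y ∈ S, ζ y = 1 := fun y hy => hζ1.self_of_nhdsSet y hy
  have cdt : Continuous (dt ζ) := (contDiff_dt hζ.smooth).continuous
  have cdx : Continuous (dx ζ) := (contDiff_dx hζ.smooth).continuous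
  have idt : Integrable (dt ζ) := cdt.integrable_of_hasCompactSupport (der_tst_int hζ).2.2.2
  have hζu : Tst univ ζ := ⟨hζ.smooth, hζ.cpt, subset_univ _⟩
  have mdx : MemLp (dx ζ) (ENNReal.ofReal p) volume := (tst_W1 hp hζu).mem
  have hMall : ∀ᵐ y, ∀ i, |z i y| ≤ M := ae_all_iff.2 hM
  -- the error term
  have T1 : Tendsto (fun ij : ℕ × ℕ => ∫ y, dt ζ y * (z ij.1 y - z ij.2 y) ^ 2)
      (atTop ×ˢ atTop) (𝓝 0) := by
    have h0 : (0 : ℝ) = ∫ _ : X n, (0 : ℝ) := by simp
    rw [h0]
    apply tendsto_integral_filter_of_dominated_convergence (fun y => ‖dt ζ y‖ * (2 * M) ^ 2)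
    · filter_upwards with ij
      exact cdt.aestronglyMeasurable.mul (((hW ij.1).meas.sub (hW ij.2).meas).pow 2)
    · filter_upwards with ij
      filter_upwards [hMall] with y hy
      rw [norm_mul]
      have h1 := abs_le.1 (hy ij.1)
      have h2 := abs_le.1 (hy ij.2)
      have h3 : ‖(z ij.1 y - z ij.2 y) ^ 2‖ ≤ (2 * M) ^ 2 := by
        rw [Real.norm_eq_abs, abs_of_nonneg (sq_nonneg _)]
        apply sq_le_sq'
        · linarith
        · linarith
      exact mul_le_mul_of_nonneg_left h3 (norm_nonneg _)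
    · exact idt.norm.mul_const _
    · filter_upwards [hl] with y hy
      have h1 : Tendsto (fun ij : ℕ × ℕ => dt ζ y * (z ij.1 y - z ij.2 y) ^ 2) (atTop ×ˢ atTop)
          (𝓝 (dt ζ y * (zl y - zl y) ^ 2)) :=
        (((hy.comp tendsto_fst).sub (hy.comp tendsto_snd)).pow 2).const_mul _
      simpa using h1
  have mz : ∀ i j, MemLp (fun y => (z i y - z j y) • dx ζ y) (ENNReal.ofReal p) volume := by
    intro i j
    apply MemLp.of_le_mul (c := 2 * M) mdx
    · exact ((hW i).meas.sub (hW j).meas).smul cdx.aestronglyMeasurable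
    · filter_upwards [hMall] with y hy
      rw [norm_smul]
      have h1 := abs_le.1 (hy i)
      have h2 := abs_le.1 (hy j)
      have h3 : ‖z i y - z j y‖ ≤ 2 * M := by
        rw [Real.norm_eq_abs, abs_le]; constructor <;> linarith
      exact mul_le_mul_of_nonneg_right h3 (norm_nonneg _)
  have T2 : Tendsto (fun ij : ℕ × ℕ => ∫ y, ‖(z ij.1 y - z ij.2 y) • dx ζ y‖ ^ p)
      (atTop ×ˢ atTop) (𝓝 0) := by
    have h0 : (0 : ℝ) = ∫ _ : X n, (0 : ℝ) := by simp
    rw [h0]
    apply tendsto_integral_filter_of_dominated_convergence (fun y => (2 * M) ^ p * ‖dx ζ y‖ ^ p)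
    · filter_upwards with ij
      exact (scpt_int hp (mz ij.1 ij.2)).aestronglyMeasurable
    · filter_upwards with ij
      filter_upwards [hMall] with y hy
      have h1 := abs_le.1 (hy ij.1)
      have h2 := abs_le.1 (hy ij.2)
      have h3 : ‖z ij.1 y - z ij.2 y‖ ≤ 2 * M := by
        rw [Real.norm_eq_abs, abs_le]; constructor <;> linarith
      rw [Real.norm_eq_abs, abs_of_nonneg (by positivity), norm_smul,
        Real.mul_rpow (norm_nonneg _) (norm_nonneg _)]
      exact mul_le_mul_of_nonneg_right (Real.rpow_le_rpow (norm_nonneg _) h3 hp0.le)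
        (by positivity)
    · exact (scpt_int hp mdx).const_mul _
    · filter_upwards [hl] with y hy
      have h1 : Tendsto (fun ij : ℕ × ℕ => ‖(z ij.1 y - z ij.2 y) • dx ζ y‖ ^ p) (atTop ×ˢ atTop)
          (𝓝 (‖(zl y - zl y) • dx ζ y‖ ^ p)) :=
        (((hy.comp tendsto_fst).sub (hy.comp tendsto_snd)).smul_const _).norm.rpow_const
          (Or.inr hp0.le)
      simpa [Real.zero_rpow hp0.ne'] using h1
  have T3 : Tendsto (fun ij : ℕ × ℕ => (1 / 2) * (∫ y, dt ζ y * (z ij.1 y - z ij.2 y) ^ 2) +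
      2 * (K ^ (1 / cj p) * (∫ y, ‖(z ij.1 y - z ij.2 y) • dx ζ y‖ ^ p) ^ (1 / p)))
      (atTop ×ˢ atTop) (𝓝 0) := by
    have h1 := T2.rpow_const (p := 1 / p) (Or.inr (by positivity))
    rw [Real.zero_rpow (by positivity)] at h1
    have h2 := (T1.const_mul (1 / 2)).add ((h1.const_mul (K ^ (1 / cj p))).const_mul 2)
    simpa using h2
  -- the Caccioppoli estimate
  have hcac : ∀ i j,
      ∫ y, ζ y * inner ℝ (A p (G i y) - A p (G j y)) (G i y - G j y) ≤
      (1 / 2) * (∫ y, dt ζ y * (z i y - z j y) ^ 2) +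
      2 * (K ^ (1 / cj p) * (∫ y, ‖(z i y - z j y) • dx ζ y‖ ^ p) ^ (1 / p)) := by
    intro i j
    have h1 := cacc hp hΩ₀ (hs i) (hs j) hζ (fun y => (hζb y).1)
    refine h1.trans ?_
    have hH : ∀ k, Integrable (fun y => inner ℝ (A p (G k y)) ((z i y - z j y) • dx ζ y)) ∧
        |∫ y, inner ℝ (A p (G k y)) ((z i y - z j y) • dx ζ y)| ≤
        K ^ (1 / cj p) * (∫ y, ‖(z i y - z j y) • dx ζ y‖ ^ p) ^ (1 / p) := by
      intro k
      obtain ⟨a1, a2⟩ := holder_inner hp (memLp_flux hp (memH k)) (mz i j)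
      refine ⟨a1, a2.trans ?_⟩
      rw [integral_flux hp]
      apply mul_le_mul_of_nonneg_right _ (Real.rpow_nonneg (integral_nonneg fun y => by positivity) _)
      exact Real.rpow_le_rpow (integral_nonneg fun y => by positivity) (hK k) (by positivity)
    have h2 : ∫ y, (z i y - z j y) * inner ℝ (A p (G i y) - A p (G j y)) (dx ζ y) =
        (∫ y, inner ℝ (A p (G i y)) ((z i y - z j y) • dx ζ y)) -
        ∫ y, inner ℝ (A p (G j y)) ((z i y - z j y) • dx ζ y) := by
      rw [← integral_sub (hH i).1 (hH j).1]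
      apply integral_congr_ae
      filter_upwards with y
      rw [inner_smul_right, inner_smul_right, inner_sub_left]
      ring
    rw [h2]
    have h3 := abs_le.1 (hH i).2
    have h4 := abs_le.1 (hH j).2
    linarith
  have ev : ∀ δ > 0, ∃ N, ∀ i ≥ N, ∀ j ≥ N,
      ∫ y, ζ y * ‖G j y - G i y‖ ^ p ≤ δ := by
    intro δ hδ
    obtain ⟨η, hη, hlps⟩ := lps (n := n) hp K δ hδ
    have e1 : ∀ᶠ ij : ℕ × ℕ in atTop ×ˢ atTop,
        (1 / 2) * (∫ y, dt ζ y * (z ij.1 y - z ij.2 y) ^ 2) +
        2 * (K ^ (1 / cj p) * (∫ y, ‖(z ij.1 y - z ij.2 y) • dx ζ y‖ ^ p) ^ (1 / p)) < η :=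
      T3.eventually_lt_const hη
    rw [prod_atTop_atTop_eq] at e1
    obtain ⟨N1, hN1⟩ := eventually_atTop_prod_self'.1 e1
    refine ⟨N1, fun i hi j hj => ?_⟩
    have h1 := hcac j i
    have h2 := hN1 j hj i hi
    exact hlps ζ (G j) (G i) hζm (fun y => (hζb y).1)
      (fun y => (hζb y).2) (memH j) (memH i) (hK j) (hK i) (h1.trans h2.le)
  have iζ : ∀ i, Integrable (fun y => ζ y * ‖Gl y - G i y‖ ^ p) := by
    intro i
    have h1 : Integrable (fun y => ‖Gl y - G i y‖ ^ p) := scpt_int hp (hlW.mem.sub (hW i).mem)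
    apply h1.bdd_mul (c := 1) hζm.aestronglyMeasurable
    filter_upwards with y
    rw [Real.norm_eq_abs, abs_of_nonneg (hζb y).1]
    exact (hζb y).2
  have main : ∀ δ > 0, ∃ N, ∀ i ≥ N, ∫ y in S, ‖G i y - Gl y‖ ^ p ≤ δ := by
    intro δ hδ
    obtain ⟨N, hN⟩ := ev δ hδ
    refine ⟨N, fun i hi => ?_⟩
    have h1 := wlsc hp hζm (fun y => (hζb y).1) (fun y => (hζb y).2) (fun k => (hW k).mem) hlW.mem
      (hW i).mem hw (δ := δ) (by
        filter_upwards [eventually_ge_atTop N] with j hj using hN i hi j hj)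
    have h2 : ∫ y in S, ‖G i y - Gl y‖ ^ p =
        ∫ y in S, ζ y * ‖Gl y - G i y‖ ^ p := by
      apply setIntegral_congr_fun hS.measurableSet
      intro y hy
      simp only
      rw [hζ1' y hy, one_mul, norm_sub_rev]
    rw [h2]
    refine (setIntegral_le_integral (iζ i) ?_).trans h1
    filter_upwards with y
    exact mul_nonneg (hζb y).1 (by positivity)
  rw [Metric.tendsto_atTop]
  intro δ hδ
  obtain ⟨N, hN⟩ := main (δ / 2) (by linarith)
  refine ⟨N, fun i hi => ?_⟩
  rw [Real.dist_eq, sub_zero, abs_of_nonneg (integral_nonneg fun y => by positivity)]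
  have := hN i hi
  linarith

/-- compactness of bounded solutions -/
theorem sol_cpt (hp : 1 < p) {Ω : Set (X n)} (hΩ : IsOpen Ω) (hb : Bornology.IsBounded Ω) {M : ℝ}
    {u : ℕ → X n → ℝ} {G : ℕ → X n → E n} (h : ∀ k, SolOn p Ω (u k) (G k))
    (hM : ∀ k, ∀ᵐ z ∂(volume.restrict Ω), |u k z| ≤ M) :
    ∃ (κ : ℕ → ℕ) (v : X n → ℝ) (H : X n → E n), StrictMono κ ∧ SolOn p Ω v H ∧
      (∀ᵐ z ∂(volume.restrict Ω), Tendsto (fun k => u (κ k) z) atTop (𝓝 (v z))) ∧
      ∀ D, IsCompact D → D ⊆ Ω →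
        Tendsto (fun k => ∫ z in D, ‖G (κ k) z - H z‖ ^ p) atTop (𝓝 0) := by
  have hp0 : 0 < p := by linarith
  have hcj : 0 < cj p := by unfold cj; exact div_pos hp0 (by linarith)
  have hhaar := der_haar (n := n)
  -- extraction
  have hUm : ∀ k, AEStronglyMeasurable (Ω.indicator (u k)) volume := fun k =>
    (aestronglyMeasurable_indicator_iff hΩ.measurableSet).2 (h k).meas
  have hUb : ∀ k, ∀ᵐ z, |Ω.indicator (u k) z| ≤ |M| := by
    intro k
    have h1 := (ae_restrict_iff' hΩ.measurableSet).1 (hM k)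
    filter_upwards [h1] with z hz
    by_cases hzΩ : z ∈ Ω
    · rw [indicator_of_mem hzΩ]
      exact (hz hzΩ).trans (le_abs_self M)
    · rw [indicator_of_notMem hzΩ, abs_zero]
      exact abs_nonneg M
  obtain ⟨κ, hκ, g, hg⟩ := cpt hΩ (M := |M|) (f := fun _ k => Ω.indicator (u k)) (fun _ k => hUm k)
    (fun _ k => hUb k) (fun _ => scpt_equi hp hΩ h hM)
  set v : X n → ℝ := g 0 with hv
  have hconv : ∀ᵐ z ∂(volume.restrict Ω), Tendsto (fun k => u (κ k) z) atTop (𝓝 (v z)) := by
    filter_upwards [hg 0, ae_restrict_mem hΩ.measurableSet] with z hz hzΩ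
    simpa only [indicator_of_mem hzΩ] using hz
  -- cut offs
  obtain ⟨χ, hχ, hχ01, -, hχ1⟩ := exists_chi hΩ hb
  have hWall : ∀ m, ∃ K₂ : ℝ, ∀ k,
      W0 p (tsupport (χ m)) (fun z => χ m z * u (κ k) z)
        (fun z => χ m z • G (κ k) z + u (κ k) z • dx (χ m) z) ∧
        ∫ z, ‖χ m z • G (κ k) z + u (κ k) z • dx (χ m) z‖ ^ p ≤ K₂ := by
    intro m
    obtain ⟨K₂, hK₂⟩ := scpt_energy hp hΩ M (hχ m) (hχ01 m)
    exact ⟨K₂, fun k => hK₂ _ _ (h (κ k)) (hM (κ k))⟩
  choose K₂ hK₂ using hWall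
  have hcb : ∀ m, Bornology.IsBounded (tsupport (χ m)) := fun m =>
    (show IsCompact (tsupport (χ m)) from (hχ m).cpt).isBounded
  have hzM : ∀ m k, ∀ᵐ z, |χ m z * u (κ k) z| ≤ |M| := by
    intro m k
    filter_upwards [hUb (κ k)] with z hz
    by_cases hzΩ : z ∈ Ω
    · rw [indicator_of_mem hzΩ] at hz
      rw [abs_mul, abs_of_nonneg (hχ01 m z).1]
      exact (mul_le_of_le_one_left (abs_nonneg _) (hχ01 m z).2).trans hz
    · have : z ∉ tsupport (χ m) := fun hc => hzΩ ((hχ m).supp hc)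
      rw [image_eq_zero_of_notMem_tsupport this, zero_mul, abs_zero]
      exact abs_nonneg M
  have hzl : ∀ m, ∀ᵐ z, Tendsto (fun k => χ m z * u (κ k) z) atTop (𝓝 (χ m z * v z)) := by
    intro m
    filter_upwards [(ae_restrict_iff' hΩ.measurableSet).1 hconv] with z hz
    by_cases hzΩ : z ∈ Ω
    · exact (hz hzΩ).const_mul _
    · have : z ∉ tsupport (χ m) := fun hc => hzΩ ((hχ m).supp hc)
      simp only [image_eq_zero_of_notMem_tsupport this, zero_mul]
      exact tendsto_const_nhds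
  have hlim : ∀ m, ∃ Gl, W0 p (tsupport (χ m)) (fun z => χ m z * v z) Gl ∧
      ∫ y, ‖Gl y‖ ^ p ≤ K₂ m ∧
      WkTo p (fun k z => χ m z • G (κ k) z + u (κ k) z • dx (χ m) z) Gl := fun m =>
    wlim hp (hcb m) (fun k => (hK₂ m k).1) (hzM m) (fun k => (hK₂ m k).2) (hzl m)
  choose Gl hGlW _ hGlw using hlim
  -- the open sets
  set O : ℕ → Set (X n) := fun m => interior (Cx Ω m) with hO
  have hOo : ∀ m, IsOpen (O m) := fun m => isOpen_interior
  have hOΩ : ∀ m, O m ⊆ Ω := fun m => interior_subset.trans (Cx_sub Ω m)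
  have hOmono : ∀ {m m'}, m ≤ m' → O m ⊆ O m' := fun hmm => interior_mono (Cx_mono Ω hmm)
  have hOex : ∀ D, IsCompact D → D ⊆ Ω → ∃ m, D ⊆ O m := by
    intro D hD hDΩ
    obtain ⟨k₀, hk₀⟩ := Cx_exh hΩ hb hD hDΩ
    exact ⟨k₀, hk₀ k₀ le_rfl⟩
  have hχO : ∀ m, ∀ z ∈ O m, χ m z = 1 := fun m z hz => hχ1 m z (interior_subset hz)
  have hdχO : ∀ m, ∀ z ∈ O m, dx (χ m) z = 0 := by
    intro m z hz
    have h1 : (fun x : E n => χ m (x, z.2)) =ᶠ[𝓝 z.1] fun _ => (1 : ℝ) := by
      have h2 : ∀ᶠ w : X n in 𝓝 z, χ m w = 1 := by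
        filter_upwards [(hOo m).mem_nhds hz] with w hw using hχO m w hw
      have h3 : Tendsto (fun x : E n => ((x, z.2) : X n)) (𝓝 z.1) (𝓝 z) := by
        have : ContinuousAt (fun x : E n => ((x, z.2) : X n)) z.1 := by fun_prop
        exact this
      exact h3.eventually h2
    have h4 : dx (χ m) z = gradient (fun x : E n => χ m (x, z.2)) z.1 := rfl
    rw [h4, gradient, h1.fderiv_eq]
    simp
  have hsol : ∀ m k, SolOn p (O m) (fun z => χ m z * u (κ k) z)
      (fun z => χ m z • G (κ k) z + u (κ k) z • dx (χ m) z) := by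
    intro m k
    apply scpt_congr (hOo m) (hOΩ m) (h (κ k))
    · intro z hz
      rw [hχO m z hz, one_mul]
    · intro z hz
      rw [hχO m z hz, hdχO m z hz, one_smul, smul_zero, add_zero]
  -- consistency
  have hwgO : ∀ m m', m ≤ m' → WG (O m) v (Gl m') := by
    intro m m' hmm φ hφ
    have h1 := (hGlW m').wg φ ⟨hφ.smooth, hφ.cpt, subset_univ _⟩
    rw [← h1]
    apply integral_congr_ae
    filter_upwards with z
    by_cases hz : z ∈ tsupport φ
    · rw [hχO m' z (hOmono hmm (hφ.supp hz)), one_mul]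
    · rw [dx_zero_of_notMem z hz, smul_zero, smul_zero]
  have hcons : ∀ m m', m ≤ m' → ∀ᵐ z, z ∈ O m → Gl m z = Gl m' z := by
    intro m m' hmm
    rw [← ae_restrict_iff' (hOo m).measurableSet]
    exact wg_unique (hOo m) ((cal1_locInt' hp (hGlW m).mem).locallyIntegrableOn _)
      ((cal1_locInt' hp (hGlW m').mem).locallyIntegrableOn _) (hwgO m m le_rfl) (hwgO m m' hmm)
  classical
  set H : X n → E n := fun z => if hz : ∃ m, z ∈ O m then Gl (Nat.find hz) z else 0 with hH
  have hHeq : ∀ m, ∀ᵐ z, z ∈ O m → H z = Gl m z := by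
    intro m
    have h1 : ∀ᵐ z, ∀ i j : ℕ, i ≤ j → z ∈ O i → Gl i z = Gl j z := by
      rw [ae_all_iff]; intro i
      rw [ae_all_iff]; intro j
      by_cases hij : i ≤ j
      · filter_upwards [hcons i j hij] with z hz _ using hz
      · exact Eventually.of_forall fun z hc => absurd hc hij
    filter_upwards [h1] with z hz hzm
    have hex : ∃ m, z ∈ O m := ⟨m, hzm⟩
    simp only [hH]
    rw [dif_pos hex]
    exact hz _ m (Nat.find_min' hex hzm) (Nat.find_spec hex)
  -- strong convergence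
  have hstrong : ∀ D, IsCompact D → D ⊆ Ω →
      Tendsto (fun k => ∫ z in D, ‖G (κ k) z - H z‖ ^ p) atTop (𝓝 0) := by
    intro D hD hDΩ
    obtain ⟨m, hm⟩ := hOex D hD hDΩ
    have h1 := scpt_strong hp (hOo m) (fun k => (hK₂ m k).1) (hzM m) (fun k => (hK₂ m k).2)
      (hsol m) (hzl m) (hGlW m) (hGlw m) hD hm
    refine h1.congr fun k => ?_
    apply setIntegral_congr_ae hD.measurableSet
    filter_upwards [hHeq m] with z hz hzD
    have hzO := hm hzD
    rw [hz hzO, hχO m z hzO, hdχO m z hzO, one_smul, smul_zero, add_zero]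
  have hmemH : ∀ D, IsCompact D → D ⊆ Ω → MemLp H (ENNReal.ofReal p) (volume.restrict D) := by
    intro D hD hDΩ
    obtain ⟨m, hm⟩ := hOex D hD hDΩ
    refine ((hGlW m).mem.restrict D).ae_eq ?_
    filter_upwards [ae_restrict_of_ae (hHeq m), ae_restrict_mem hD.measurableSet] with z hz hzD
    exact (hz (hm hzD)).symm
  have hvm : AEStronglyMeasurable v (volume.restrict Ω) :=
    aestronglyMeasurable_of_tendsto_ae atTop (fun k => (h (κ k)).meas) hconv
  have hvb : ∀ᵐ z ∂(volume.restrict Ω), |v z| ≤ M := by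
    have h1 : ∀ᵐ z ∂(volume.restrict Ω), ∀ k, |u (κ k) z| ≤ M := ae_all_iff.2 fun k => hM (κ k)
    filter_upwards [h1, hconv] with z hz hc
    exact le_of_tendsto' hc.abs hz
  have hwgH : WG Ω v H := by
    intro φ hφ
    obtain ⟨m, hm⟩ := hOex (tsupport φ) hφ.cpt hφ.supp
    rw [hwgO m m le_rfl φ ⟨hφ.smooth, hφ.cpt, hm⟩]
    congr 1
    apply integral_congr_ae
    filter_upwards [hHeq m] with z hz
    by_cases hzs : z ∈ tsupport φ
    · rw [hz (hm hzs)]
    · rw [image_eq_zero_of_notMem_tsupport hzs, zero_smul, zero_smul]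
  have heq : WEq p Ω v H := by
    intro φ hφ
    have hS : IsCompact (tsupport φ) := hφ.cpt
    have cdt : Continuous (dt φ) := (contDiff_dt hφ.smooth).continuous
    have idt : Integrable (dt φ) := cdt.integrable_of_hasCompactSupport (der_tst_int hφ).2.2.2
    have hfullt : ∀ w : X n → ℝ, ∫ y in Ω, w y * dt φ y = ∫ y, w y * dt φ y := by
      intro w
      apply setIntegral_eq_integral_of_forall_compl_eq_zero
      intro y hy
      rw [dt_zero_of_notMem y (fun hc => hy (hφ.supp hc)), mul_zero]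
    have L1 : Tendsto (fun i => ∫ y, u (κ i) y * dt φ y) atTop (𝓝 (∫ y, v y * dt φ y)) := by
      simp only [← hfullt]
      apply tendsto_integral_of_dominated_convergence (fun y => M * ‖dt φ y‖)
      · intro i
        exact (h (κ i)).meas.mul cdt.aestronglyMeasurable
      · exact (idt.norm.const_mul _).restrict
      · intro i
        filter_upwards [hM (κ i)] with y hy
        rw [norm_mul]
        exact mul_le_mul_of_nonneg_right hy (norm_nonneg _)
      · filter_upwards [hconv] with y hy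
        exact hy.mul_const _
    have memH : ∀ i, MemLp (G (κ i)) (ENNReal.ofReal p)
        (volume.restrict (tsupport φ)) := fun i => (h (κ i)).memG _ hS hφ.supp
    have memHl := hmemH (tsupport φ) hS hφ.supp
    have fl := flux_tendsto hp hS.measurableSet memH memHl (hstrong _ hS hφ.supp)
    have mφ : MemLp (dx φ) (ENNReal.ofReal p) (volume.restrict (tsupport φ)) :=
      (tst_W1 hp (show Tst univ φ from ⟨hφ.smooth, hφ.cpt, subset_univ _⟩)).mem.restrict _
    have hfull : ∀ H : X n → E n, ∫ y in tsupport φ, inner ℝ (H y) (dx φ y) =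
        ∫ y, inner ℝ (H y) (dx φ y) := by
      intro H
      apply setIntegral_eq_integral_of_forall_compl_eq_zero
      intro y hy
      rw [dx_zero_of_notMem y hy, inner_zero_right]
    have L2 : Tendsto (fun i => ∫ y, inner ℝ (A p (G (κ i) y)) (dx φ y)) atTop
        (𝓝 (∫ y, inner ℝ (A p (H y)) (dx φ y))) := by
      rw [tendsto_iff_dist_tendsto_zero]
      have lim : Tendsto (fun i => (∫ y in tsupport φ,
          ‖A p (G (κ i) y) - A p (H y)‖ ^ cj p) ^ (1 / cj p) *
          (∫ y in tsupport φ, ‖dx φ y‖ ^ p) ^ (1 / p)) atTop (𝓝 0) := by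
        have h1 := fl.rpow_const (p := 1 / cj p) (Or.inr (by positivity))
        rw [Real.zero_rpow (by positivity)] at h1
        simpa using h1.mul_const ((∫ y in tsupport φ, ‖dx φ y‖ ^ p) ^ (1 / p))
      apply squeeze_zero (fun _ => dist_nonneg) _ lim
      intro i
      rw [Real.dist_eq, ← hfull, ← hfull]
      have i1 := (holder_inner hp (memLp_flux hp (memH i)) mφ).1
      have i2 := (holder_inner hp (memLp_flux hp memHl) mφ).1
      rw [← integral_sub i1 i2]
      have h3 := (holder_inner hp ((memLp_flux hp (memH i)).sub (memLp_flux hp memHl)) mφ).2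
      simp only [Pi.sub_apply, inner_sub_left] at h3
      exact h3
    have L3 := L2.sub L1
    have L4 : Tendsto (fun i => (∫ y, inner ℝ (A p (G (κ i) y)) (dx φ y)) -
        ∫ y, u (κ i) y * dt φ y) atTop (𝓝 0) :=
      tendsto_const_nhds.congr fun i => ((h (κ i)).eq φ hφ).symm
    exact tendsto_nhds_unique L3 L4
  refine ⟨κ, v, H, hκ, ?_, hconv, hstrong⟩
  exact
    { meas := hvm
      bdd := ⟨M, hvb⟩
      memG := hmemH
      wg := hwgH
      ineq := fun φ hφ _ => by
        have := heq φ hφ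
        linarith
      eq := heq }

end PP
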