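import Pool.Agent.PP.CMPL
import Pool.Agent.PP.LPS

open Set Metric Filter Topology MeasureTheory
open scoped ContDiff

noncomputable section

namespace PP

variable {n : ℕ}
variable {p : ℝ}

/-- closed box -/
def sup_cQ (a b : Fin n → ℝ) : Set (E n) := {x | ∀ i, a i ≤ x i ∧ x i ≤ b i}

theorem sup_cQ_eq (a b : Fin n → ℝ) : sup_cQ a b =
    (EuclideanSpace.equiv (Fin n) ℝ).toHomeomorph ⁻¹' (Set.pi univ fun i => Icc (a i) (b i)) := by
  ext x
  simp only [sup_cQ, mem_ofPred_eq, mem_preimage, Set.mem_pi, mem_univ, true_implies, mem_Icc]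
  rfl

theorem sup_Q_eq (a b : Fin n → ℝ) : Qx a b =
    (EuclideanSpace.equiv (Fin n) ℝ).toHomeomorph ⁻¹' (Set.pi univ fun i => Ioo (a i) (b i)) := by
  ext x
  simp [Qx]

theorem sup_cQ_compact (a b : Fin n → ℝ) : IsCompact (sup_cQ a b) := by
  rw [sup_cQ_eq, Homeomorph.isCompact_preimage]
  exact isCompact_univ_pi fun i => isCompact_Icc

theorem sup_Q_open (a b : Fin n → ℝ) : IsOpen (Qx a b) := by
  rw [sup_Q_eq, Homeomorph.isOpen_preimage]
  exact isOpen_set_pi finite_univ fun i _ => isOpen_Ioo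

theorem sup_Q_sub (a b : Fin n → ℝ) : Qx a b ⊆ sup_cQ a b := fun _ hx i =>
  ⟨(hx i).1.le, (hx i).2.le⟩

theorem sup_closure_Q {a b : Fin n → ℝ} (h : ∀ i, a i < b i) : closure (Qx a b) = sup_cQ a b := by
  rw [sup_cQ_eq, sup_Q_eq, ← Homeomorph.preimage_closure, closure_pi_set]
  congr 1
  refine Set.pi_congr rfl fun i _ => ?_
  exact closure_Ioo (h i).ne

theorem sup_frontier {a b : Fin n → ℝ} (h : ∀ i, a i < b i) {x : E n} (hx : x ∈ sup_cQ a b)
    (hx2 : x ∉ Qx a b) : x ∈ frontier (Qx a b) := by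
  rw [frontier, (sup_Q_open a b).interior_eq, sup_closure_Q h]
  exact ⟨hx, hx2⟩

/-- the points of the closed box near the lateral boundary -/
theorem sup_near {a b : Fin n → ℝ} (h : ∀ i, a i < b i) {δ : ℝ} {x : E n}
    (hx : x ∈ sup_cQ a b) (hx2 : x ∉ Qx (fun i => a i + δ) (fun i => b i - δ)) :
    ∃ y ∈ frontier (Qx a b), dist x y ≤ δ := by
  classical
  simp only [Qx, mem_ofPred_eq, not_forall, not_and_or, not_lt] at hx2
  obtain ⟨i, hi⟩ := hx2
  have key : ∀ c : ℝ, a i ≤ c → c ≤ b i → (c = a i ∨ c = b i) → |x i - c| ≤ δ →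
      ∃ y ∈ frontier (Qx a b), dist x y ≤ δ := by
    intro c h1 h2 h3 h4
    refine ⟨WithLp.toLp 2 (Function.update (fun j => x j) i c), ?_, ?_⟩
    · refine sup_frontier h ?_ ?_
      · intro j
        by_cases hj : j = i
        · subst hj
          simp [h1, h2]
        · simp only [Function.update_of_ne hj]
          exact hx j
      · intro hq
        have := hq i
        simp only [Function.update_self] at this
        rcases h3 with h3 | h3
        · exact lt_irrefl _ (h3 ▸ this.1)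
        · exact lt_irrefl _ (h3 ▸ this.2)
    · rw [EuclideanSpace.dist_eq]
      rw [Finset.sum_eq_single i]
      · simp only [Function.update_self]
        rw [Real.sqrt_sq dist_nonneg, Real.dist_eq]
        exact h4
      · intro j _ hj
        simp only [Function.update_of_ne hj, dist_self]
        norm_num
      · simp
  have hxi := hx i
  rcases hi with hi | hi
  · exact key (a i) le_rfl (h i).le (Or.inl rfl) (by rw [abs_of_nonneg] <;> linarith)
  · exact key (b i) (h i).le le_rfl (Or.inr rfl) (by rw [abs_of_nonpos] <;> linarith)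

theorem sup_pbd_compact {a b : Fin n → ℝ} (h : ∀ i, a i < b i) (t₁ t₂ : ℝ) :
    IsCompact (pbd a b t₁ t₂) := by
  have e : pbd a b t₁ t₂ = (closure (Qx a b) ×ˢ {t₁}) ∪ (frontier (Qx a b) ×ˢ Icc t₁ t₂) := by
    ext z
    simp only [pbd, mem_union, mem_prod, mem_singleton_iff, mem_Ioc, mem_Icc]
    constructor
    · rintro (h1 | h1)
      · exact Or.inl h1
      · exact Or.inr ⟨h1.1, h1.2.1.le, h1.2.2⟩
    · rintro (h1 | h1)
      · exact Or.inl h1
      · rcases eq_or_lt_of_le h1.2.1 with h2 | h2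
        · exact Or.inl ⟨frontier_subset_closure h1.1, h2.symm⟩
        · exact Or.inr ⟨h1.1, h2, h1.2.2⟩
  have hc : IsCompact (closure (Qx a b)) := by
    rw [sup_closure_Q h]
    exact sup_cQ_compact a b
  rw [e]
  exact (hc.prod isCompact_singleton).union
    ((hc.of_isClosed_subset isClosed_frontier frontier_subset_closure).prod isCompact_Icc)

/-- points of the closed box outside the small box are close to the parabolic boundary -/
theorem sup_claim {a b : Fin n → ℝ} (h : ∀ i, a i < b i) {t₁ t₂ : ℝ} {δ ρ : ℝ}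
    (hδ : 0 < δ) (hρ : δ < ρ) {z : X n} (hz : z.1 ∈ sup_cQ a b) (h1 : t₁ ≤ z.2) (h2 : z.2 ≤ t₂)
    (hz2 : ¬ (z.1 ∈ Qx (fun i => a i + δ) (fun i => b i - δ) ∧ t₁ + δ < z.2)) :
    z ∈ thickening ρ (pbd a b t₁ t₂) := by
  rw [mem_thickening_iff]
  by_cases hc : z.2 ≤ t₁ + δ
  · refine ⟨(z.1, t₁), Or.inl ⟨by rw [sup_closure_Q h]; exact hz, rfl⟩, ?_⟩
    rw [Prod.dist_eq, dist_self, Real.dist_eq]
    refine lt_of_le_of_lt (max_le hδ.le ?_) hρ
    rw [abs_of_nonneg] <;> linarith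
  · rw [not_le] at hc
    obtain ⟨y, hy, hy2⟩ := sup_near h hz fun hq => hz2 ⟨hq, hc⟩
    refine ⟨(y, z.2), Or.inr ⟨hy, by linarith, h2⟩, ?_⟩
    rw [Prod.dist_eq, dist_self]
    exact lt_of_le_of_lt (max_le hy2 hδ.le) hρ

/-! ### the semicontinuous representative -/

theorem sup_nebot (z : X n) {r : ℝ} (hr : 0 < r) :
    (ae ((volume : Measure (X n)).restrict (ball z r))).NeBot := by
  have := der_haar (n := n)
  rw [ae_restrict_neBot]
  exact (measure_ball_pos volume z hr).ne'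

theorem sup_bdd {Θ : Set (X n)} (hΘ : IsOpen Θ) {u : X n → ℝ} {M : ℝ}
    (hM : ∀ᵐ z ∂(volume.restrict Θ), |u z| ≤ M) {z : X n} (hz : z ∈ Θ) {a r : ℝ} (hr : 0 < r)
    (h : ∀ᵐ y ∂(volume.restrict (ball z r)), a ≤ u y) : a ≤ M := by
  obtain ⟨s, hs, hsΘ⟩ := Metric.isOpen_iff.1 hΘ z hz
  have hms : 0 < min r s := lt_min hr hs
  have := sup_nebot z hms
  have h1 : ∀ᵐ y ∂(volume.restrict (ball z (min r s))), a ≤ u y :=
    ae_restrict_of_ae_restrict_of_subset (ball_subset_ball (min_le_left _ _)) h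
  have h2 : ∀ᵐ y ∂(volume.restrict (ball z (min r s))), |u y| ≤ M :=
    ae_restrict_of_ae_restrict_of_subset ((ball_subset_ball (min_le_right _ _)).trans hsΘ) hM
  obtain ⟨y, hy1, hy2⟩ := (h1.and h2).exists
  exact hy1.trans ((le_abs_self _).trans hy2)

theorem sup_le_lsr {Θ : Set (X n)} (hΘ : IsOpen Θ) {u : X n → ℝ} {M : ℝ}
    (hM : ∀ᵐ z ∂(volume.restrict Θ), |u z| ≤ M) {z : X n} (hz : z ∈ Θ) {a r : ℝ} (hr : 0 < r)
    (h : ∀ᵐ y ∂(volume.restrict (ball z r)), a ≤ u y) : a ≤ lsr u z := by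
  refine le_csSup ⟨M, ?_⟩ ⟨r, hr, h⟩
  rintro a ⟨r, hr, h⟩
  exact sup_bdd hΘ hM hz hr h

theorem sup_lt_lsr {Θ : Set (X n)} (hΘ : IsOpen Θ) {u : X n → ℝ} {M : ℝ}
    (hM : ∀ᵐ z ∂(volume.restrict Θ), |u z| ≤ M) {z : X n} (hz : z ∈ Θ) {a : ℝ}
    (h : a < lsr u z) : ∃ r > 0, ∀ᵐ y ∂(volume.restrict (ball z r)), a ≤ u y := by
  have hne : {a : ℝ | ∃ r > 0, ∀ᵐ y ∂(volume.restrict (ball z r)), a ≤ u y}.Nonempty := by
    obtain ⟨s, hs, hsΘ⟩ := Metric.isOpen_iff.1 hΘ z hz
    refine ⟨-M, s, hs, ?_⟩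
    filter_upwards [ae_restrict_of_ae_restrict_of_subset hsΘ hM] with y hy
    exact (abs_le.1 hy).1
  obtain ⟨a', ⟨r, hr, hr2⟩, ha'⟩ := exists_lt_of_lt_csSup hne h
  refine ⟨r, hr, ?_⟩
  filter_upwards [hr2] with y hy
  exact ha'.le.trans hy

theorem sup_lsc {Θ : Set (X n)} (hΘ : IsOpen Θ) {u : X n → ℝ} {M : ℝ}
    (hM : ∀ᵐ z ∂(volume.restrict Θ), |u z| ≤ M) : LowerSemicontinuousOn (lsr u) Θ := by
  intro z hz a ha
  obtain ⟨a', h1, h2⟩ := exists_between ha
  obtain ⟨r, hr, hr2⟩ := sup_lt_lsr hΘ hM hz h2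
  filter_upwards [inter_mem_nhdsWithin Θ (ball_mem_nhds z (half_pos hr))] with y hy
  refine h1.trans_le (sup_le_lsr hΘ hM hy.1 (half_pos hr) ?_)
  refine ae_restrict_of_ae_restrict_of_subset ?_ hr2
  refine ball_subset_ball' ?_
  have := hy.2
  rw [mem_ball] at this
  linarith

/-! ### integrals -/

theorem sup_int_fderiv {Ω : Set (X n)} {φ : X n → ℝ} (hφ : Tst Ω φ) (v : X n) :
    ∫ z, fderiv ℝ φ z v = 0 := by
  have := der_haar (n := n)
  have cfφ : Continuous (fun z => fderiv ℝ φ z v) :=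
    ((hφ.smooth.continuous_fderiv (by simp)).clm_apply continuous_const)
  have sfφ : HasCompactSupport (fun z => fderiv ℝ φ z v) :=
    (hφ.cpt.fderiv (𝕜 := ℝ)).comp_left (g := fun L : X n →L[ℝ] ℝ => L v) (by simp)
  have h1 := integral_mul_fderiv_eq_neg_fderiv_mul_of_integrable (μ := (volume : Measure (X n)))
    (f := fun _ : X n => (1 : ℝ)) (g := φ) (v := v) (by simp)
    (by simpa using cfφ.integrable_of_hasCompactSupport sfφ)
    (by simpa using hφ.smooth.continuous.integrable_of_hasCompactSupport hφ.cpt)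
    (fun x _ => differentiableAt_const _)
    (fun x _ => (hφ.smooth.differentiable (by simp)).differentiableAt)
  simpa using h1

theorem sup_int_dt {Ω : Set (X n)} {φ : X n → ℝ} (hφ : Tst Ω φ) : ∫ z, dt φ z = 0 := by
  simp only [dt_eq hφ.smooth]
  exact sup_int_fderiv hφ _

theorem sup_int_dx {Ω : Set (X n)} {φ : X n → ℝ} (hφ : Tst Ω φ) : ∫ z, dx φ z = 0 := by
  have := der_haar (n := n)
  obtain ⟨c1, s1, -, -⟩ := der_tst_int hφ
  refine ext_inner_left ℝ fun v => ?_
  rw [← integral_inner (𝕜 := ℝ) (c1.integrable_of_hasCompactSupport s1), inner_zero_right]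
  have := sup_int_fderiv hφ (v, 0)
  simp only [← dx_eq hφ.smooth, real_inner_comm v] at this
  exact this

theorem sup_int_smul (hp : 1 < p) {K : Set (X n)} (hK : IsCompact K) {H : X n → E n}
    (hH : MemLp H (ENNReal.ofReal p) (volume.restrict K)) {φ : X n → ℝ} (hφ : Continuous φ)
    (hφ0 : ∀ z, z ∉ K → φ z = 0) : Integrable (fun z => φ z • H z) volume := by
  have := der_haar (n := n)
  have hcs : HasCompactSupport φ := HasCompactSupport.intro hK hφ0
  obtain ⟨M, hM⟩ := hcs.exists_bound_of_continuous hφ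
  have hfin : IsFiniteMeasure ((volume : Measure (X n)).restrict K) :=
    ⟨by rw [Measure.restrict_apply_univ]; exact hK.measure_lt_top⟩
  have h1 : IntegrableOn H K volume := hH.integrable (by
    rw [ENNReal.one_le_ofReal]; exact hp.le)
  have h2 : IntegrableOn (fun z => φ z • H z) K volume :=
    Integrable.bdd_smul h1 M hφ.aestronglyMeasurable (Eventually.of_forall fun z => hM z)
  refine (integrableOn_iff_integrable_of_support_subset ?_).1 h2
  intro z hz
  by_contra hzK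
  apply hz
  simp only [hφ0 z hzK, zero_smul]

theorem sup_int_inner (hp : 1 < p) {K : Set (X n)} (hK : IsCompact K) {H : X n → E n}
    (hH : MemLp H (ENNReal.ofReal p) (volume.restrict K)) {ψ : X n → E n} (hψ : Continuous ψ)
    (hψ0 : ∀ z, z ∉ K → ψ z = 0) : Integrable (fun z => inner ℝ (A p (H z)) (ψ z)) volume := by
  have := der_haar (n := n)
  have hcs : HasCompactSupport ψ := HasCompactSupport.intro hK hψ0
  have h1 : MemLp ψ (ENNReal.ofReal p) (volume.restrict K) :=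
    (hψ.memLp_of_hasCompactSupport hcs).restrict K
  have h2 : IntegrableOn (fun z => inner ℝ (A p (H z)) (ψ z)) K volume :=
    (holder_inner hp (memLp_flux hp hH) h1).1
  refine (integrableOn_iff_integrable_of_support_subset ?_).1 h2
  intro z hz
  by_contra hzK
  apply hz
  simp only [hψ0 z hzK, inner_zero_right]

theorem sup_closure_box {a b : Fin n → ℝ} (hab : ∀ i, a i < b i) {t₁ t₂ : ℝ} (ht : t₁ < t₂) :
    closure (box a b t₁ t₂) = sup_cQ a b ×ˢ Icc t₁ t₂ := by
  rw [box, closure_prod_eq, sup_closure_Q hab, closure_Ioo ht.ne]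

/-- comparison on slightly smaller boxes -/
theorem sup_local (hp : 1 < p) {Θ : Set (X n)} {u : X n → ℝ} {G : X n → E n}
    (h : SupOn p Θ u G) {a b : Fin n → ℝ} {t₁ t₂ : ℝ} (hab : ∀ i, a i < b i) (ht : t₁ < t₂)
    (hcl : closure (box a b t₁ t₂) ⊆ Θ) {g : X n → ℝ}
    (hg : ContinuousOn g (closure (box a b t₁ t₂)))
    (hpp : PParabolic p (box a b t₁ t₂) g) {ε ρ : ℝ} (hρ : 0 < ρ)
    (hnear : ∀ᵐ y, y ∈ closure (box a b t₁ t₂) → y ∈ thickening ρ (pbd a b t₁ t₂) →
      g y - ε ≤ u y)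
    {s : ℝ} (hs : s < t₂) (hs1 : t₁ < s) :
    ∀ᵐ y, y ∈ box a b t₁ t₂ → y.2 < s → g y - ε ≤ u y := by
  have := der_haar (n := n)
  have hδ0 : 0 < min (ρ / 2) ((s - t₁) / 2) := lt_min (by linarith) (by linarith)
  obtain ⟨δ, hδ, hδρ, hδs⟩ : ∃ δ : ℝ, 0 < δ ∧ δ < ρ ∧ t₁ + δ < s :=
    ⟨_, hδ0, by linarith [min_le_left (ρ / 2) ((s - t₁) / 2)],
      by linarith [min_le_right (ρ / 2) ((s - t₁) / 2)]⟩
  set a' : Fin n → ℝ := fun i => a i + δ with ha'
  set b' : Fin n → ℝ := fun i => b i - δ with hb'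
  set B := box a b t₁ t₂ with hB
  set Ω : Set (X n) := Qx a' b' ×ˢ Ioo (t₁ + δ) s with hΩdef
  set R : Set (X n) := sup_cQ a' b' ×ˢ Icc (t₁ + δ) s with hR
  have hΩ : IsOpen Ω := (sup_Q_open a' b').prod isOpen_Ioo
  have hRc : IsCompact R := (sup_cQ_compact a' b').prod isCompact_Icc
  have hΩR : Ω ⊆ R := Set.prod_mono (sup_Q_sub a' b') Ioo_subset_Icc_self
  have hclR : closure Ω ⊆ R := closure_minimal hΩR hRc.isClosed
  have hRB : R ⊆ B := by
    rintro ⟨x, t⟩ ⟨h1, h2⟩
    refine ⟨fun i => ?_, ?_, ?_⟩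
    · have := h1 i
      simp only [ha', hb'] at this
      exact ⟨by linarith [this.1], by linarith [this.2]⟩
    · exact lt_of_lt_of_le (by linarith) h2.1
    · exact lt_of_le_of_lt h2.2 hs
  have hBcl : B ⊆ closure B := subset_closure
  have hBΘ : B ⊆ Θ := hBcl.trans hcl
  have hΩB : Ω ⊆ B := hΩR.trans hRB
  have hclc : IsCompact (closure Ω) := hRc.of_isClosed_subset isClosed_closure hclR
  obtain ⟨-, Gh, hGh, hwgh, hweq⟩ := hpp.sol (Qx a' b') (t₁ + δ) s (sup_Q_open a' b') hδs hclc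
    (hclR.trans hRB)
  have hclB : IsCompact (closure B) := by
    rw [hB, sup_closure_box hab ht]
    exact (sup_cQ_compact a b).prod isCompact_Icc
  obtain ⟨Mg, hMg⟩ := hclB.exists_bound_of_continuousOn hg
  obtain ⟨Mu, hMu⟩ := h.bdd
  have gm : AEStronglyMeasurable g (volume.restrict Ω) :=
    (hg.mono (hΩB.trans hBcl)).aestronglyMeasurable hΩ.measurableSet
  have gb : ∀ᵐ z ∂(volume.restrict Ω), |g z| ≤ Mg := by
    rw [ae_restrict_iff' hΩ.measurableSet]
    exact Eventually.of_forall fun z hz => hMg z (hBcl (hΩB hz))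
  have um : AEStronglyMeasurable u (volume.restrict Ω) := h.meas.mono_set (hΩB.trans hBΘ)
  have ub : ∀ᵐ z ∂(volume.restrict Ω), |u z| ≤ Mu :=
    ae_restrict_of_ae_restrict_of_subset (hΩB.trans hBΘ) hMu
  have key := cmpl hp hΩ (b := s) (d := fun y => g y - ε - u y) (Gd := fun y => Gh y - G y)
    (Γ := fun y => A p (Gh y) - A p (G y))
    ((gm.sub aestronglyMeasurable_const).sub um) ?_ ?_ ?_ ?_ ?_ ?_ ?_
  · rw [ae_restrict_iff' hΩ.measurableSet] at key
    filter_upwards [key, hnear] with y hy1 hy2 hyB hys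
    by_cases hyΩ : y ∈ Ω
    · have := hy1 hyΩ hys
      linarith
    · refine hy2 (hBcl hyB) ?_
      refine sup_claim hab hδ hδρ (sup_Q_sub a b hyB.1) hyB.2.1.le hyB.2.2.le ?_
      intro hc
      exact hyΩ ⟨hc.1, hc.2, hys⟩
  · intro D hD hDΩ
    refine ⟨Mg + |ε| + Mu, ?_⟩
    filter_upwards [ae_restrict_of_ae_restrict_of_subset hDΩ gb,
      ae_restrict_of_ae_restrict_of_subset hDΩ ub] with y h1 h2
    calc |g y - ε - u y| ≤ |g y - ε| + |u y| := abs_sub _ _
      _ ≤ |g y| + |ε| + |u y| := by linarith [abs_sub (g y) ε]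
      _ ≤ _ := by linarith
  · intro D hD hDΩ
    exact (hGh.mono_measure (Measure.restrict_mono hDΩ le_rfl)).sub
      (h.memG D hD (hDΩ.trans (hΩB.trans hBΘ)))
  · intro φ hφ
    obtain ⟨c1, s1, c2, s2⟩ := der_tst_int hφ
    have hφΘ : Tst Θ φ := ⟨hφ.smooth, hφ.cpt, hφ.supp.trans (hΩB.trans hBΘ)⟩
    have i1 : Integrable (fun z => g z • dx φ z) volume :=
      memLp_one_iff_integrable.1 (loc_bdd gm gb c1 hφ.cpt hφ.supp
        (fun z hz => dx_zero_of_notMem z hz) 1)
    have i2 : Integrable (fun z => u z • dx φ z) volume :=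
      memLp_one_iff_integrable.1 (loc_bdd um ub c1 hφ.cpt hφ.supp
        (fun z hz => dx_zero_of_notMem z hz) 1)
    have i3 : Integrable (fun z => ε • dx φ z) volume :=
      (c1.integrable_of_hasCompactSupport s1).smul ε
    have j1 : Integrable (fun z => φ z • Gh z) volume :=
      sup_int_smul hp hφ.cpt (hGh.mono_measure (Measure.restrict_mono hφ.supp le_rfl))
        hφ.smooth.continuous (fun z hz => image_eq_zero_of_notMem_tsupport hz)
    have j2 : Integrable (fun z => φ z • G z) volume :=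
      sup_int_smul hp hφ.cpt (h.memG _ hφ.cpt hφΘ.supp)
        hφ.smooth.continuous (fun z hz => image_eq_zero_of_notMem_tsupport hz)
    have e1 := hwgh φ hφ
    have e2 := h.wg φ hφΘ
    simp only [sub_smul, smul_sub]
    have i4 : Integrable (fun z => g z • dx φ z - ε • dx φ z) volume := i1.sub i3
    rw [integral_sub i4 i2, integral_sub i1 i3, integral_sub j1 j2, integral_smul,
      sup_int_dx hφ, e1, e2, smul_zero]
    abel
  · intro D hD hDΩ
    exact (memLp_flux hp (hGh.mono_measure (Measure.restrict_mono hDΩ le_rfl))).sub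
      (memLp_flux hp (h.memG D hD (hDΩ.trans (hΩB.trans hBΘ))))
  · intro φ hφ h0
    obtain ⟨c1, s1, c2, s2⟩ := der_tst_int hφ
    have hφΘ : Tst Θ φ := ⟨hφ.smooth, hφ.cpt, hφ.supp.trans (hΩB.trans hBΘ)⟩
    have i1 : Integrable (fun z => g z * dt φ z) volume :=
      memLp_one_iff_integrable.1 (loc_bdd gm gb c2 hφ.cpt hφ.supp
        (fun z hz => dt_zero_of_notMem z hz) 1)
    have i2 : Integrable (fun z => u z * dt φ z) volume :=
      memLp_one_iff_integrable.1 (loc_bdd um ub c2 hφ.cpt hφ.supp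
        (fun z hz => dt_zero_of_notMem z hz) 1)
    have i3 : Integrable (fun z => ε * dt φ z) volume :=
      (c2.integrable_of_hasCompactSupport s2).const_mul ε
    have j1 : Integrable (fun z => inner ℝ (A p (Gh z)) (dx φ z)) volume :=
      sup_int_inner hp hφ.cpt (hGh.mono_measure (Measure.restrict_mono hφ.supp le_rfl))
        c1 (fun z hz => dx_zero_of_notMem z hz)
    have j2 : Integrable (fun z => inner ℝ (A p (G z)) (dx φ z)) volume :=
      sup_int_inner hp hφ.cpt (h.memG _ hφ.cpt hφΘ.supp)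
        c1 (fun z hz => dx_zero_of_notMem z hz)
    have e1 := hweq φ hφ
    have e2 := h.ineq φ hφΘ h0
    have i4 : Integrable (fun z => g z * dt φ z - ε * dt φ z) volume := i1.sub i3
    have e3 : ∫ z, (g z - ε - u z) * dt φ z =
        ((∫ z, g z * dt φ z) - ε * ∫ z, dt φ z) - ∫ z, u z * dt φ z := by
      simp only [sub_mul]
      rw [integral_sub i4 i2, integral_sub i1 i3, integral_const_mul]
    have e4 : ∫ z, inner ℝ (A p (Gh z) - A p (G z)) (dx φ z) =
        (∫ z, inner ℝ (A p (Gh z)) (dx φ z)) - ∫ z, inner ℝ (A p (G z)) (dx φ z) := by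
      simp only [inner_sub_left]
      rw [integral_sub j1 j2]
    show (- ∫ z, (g z - ε - u z) * dt φ z) + ∫ z, inner ℝ (A p (Gh z) - A p (G z)) (dx φ z) ≤
      ∫ z, 0 * φ z
    rw [e3, e4, sup_int_dt hφ]
    simp only [zero_mul, integral_zero]
    linarith
  · exact Eventually.of_forall fun y => A_mono hp _ _
  · intro τ hτ
    refine ⟨(sup_cQ a' b' ×ˢ Icc (t₁ + δ) (s - τ)) \ thickening ρ (pbd a b t₁ t₂), ?_, ?_, ?_⟩
    · exact ((sup_cQ_compact a' b').prod isCompact_Icc).diff isOpen_thickening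
    · rintro ⟨x, t⟩ ⟨⟨h1, h2⟩, h3⟩
      have hxcQ : x ∈ sup_cQ a b := by
        intro i
        have := h1 i
        simp only [ha', hb'] at this
        exact ⟨by linarith [this.1], by linarith [this.2]⟩
      by_contra hcon
      apply h3
      have h21 : t₁ + δ ≤ t := h2.1
      have h22 : t ≤ s - τ := h2.2
      refine sup_claim hab hδ hδρ hxcQ (show t₁ ≤ t by linarith) (show t ≤ t₂ by linarith) ?_
      intro hc
      exact hcon ⟨hc.1, hc.2, show t < s by linarith⟩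
    · rw [ae_restrict_iff' hΩ.measurableSet]
      filter_upwards [hnear] with y hy hyΩ hd hyb
      refine ⟨⟨sup_Q_sub _ _ hyΩ.1, hyΩ.2.1.le, hyb.le⟩, ?_⟩
      intro hyt
      have := hy (hBcl (hΩB hyΩ)) hyt
      linarith

theorem lsr_superPar (hp : 1 < p) {Θ : Set (X n)} (hΘ : IsOpen Θ) {u : X n → ℝ} {G : X n → E n}
    (h : SupOn p Θ u G) : SuperPar p Θ (fun z => (lsr u z : EReal)) := by
  have := der_haar (n := n)
  obtain ⟨M, hM⟩ := h.bdd
  refine ⟨fun z _ => EReal.coe_ne_bot _, ?_, ?_, ?_⟩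
  · exact continuous_coe_real_ereal.comp_lowerSemicontinuousOn (sup_lsc hΘ hM)
      (fun x y hxy => EReal.coe_le_coe_iff.2 hxy)
  · exact fun z hz => subset_closure ⟨hz, EReal.coe_ne_top _⟩
  · intro a b t₁ t₂ hab ht hcl g hg hpp hbd z hz
    rw [EReal.coe_le_coe_iff]
    refine le_of_forall_pos_le_add fun ε hε => ?_
    have hbd' : ∀ ξ ∈ pbd a b t₁ t₂, g ξ ≤ lsr u ξ := fun ξ hξ =>
      EReal.coe_le_coe_iff.1 (hbd ξ hξ)
    have hpcl : pbd a b t₁ t₂ ⊆ closure (box a b t₁ t₂) := by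
      rw [sup_closure_box hab ht]
      rintro ξ (hξ | hξ)
      · rw [sup_closure_Q hab] at hξ
        refine ⟨hξ.1, ?_⟩
        rw [mem_singleton_iff.1 hξ.2]
        exact ⟨le_rfl, ht.le⟩
      · refine ⟨?_, hξ.2.1.le, hξ.2.2⟩
        rw [← sup_closure_Q hab]
        exact frontier_subset_closure hξ.1
    -- a neighbourhood of the parabolic boundary
    have hloc : ∀ ξ ∈ pbd a b t₁ t₂, ∃ r > 0,
        (∀ᵐ y ∂(volume.restrict (ball ξ r)), g ξ - ε / 4 ≤ u y) ∧
        ∀ y ∈ closure (box a b t₁ t₂), y ∈ ball ξ r → g y < g ξ + ε / 4 := by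
      intro ξ hξ
      obtain ⟨r1, hr1, hr2⟩ := sup_lt_lsr hΘ hM (hcl (hpcl hξ)) (a := g ξ - ε / 4)
        (by linarith [hbd' ξ hξ])
      obtain ⟨r3, hr3, hr4⟩ := Metric.continuousOn_iff.1 hg ξ (hpcl hξ) (ε / 4) (by linarith)
      refine ⟨min r1 r3, lt_min hr1 hr3, ?_, ?_⟩
      · exact ae_restrict_of_ae_restrict_of_subset (ball_subset_ball (min_le_left _ _)) hr2
      · intro y hy hyb
        have h1 := hr4 y hy (lt_of_lt_of_le (mem_ball.1 hyb) (min_le_right _ _))
        rw [Real.dist_eq] at h1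
        linarith [(abs_lt.1 h1).2]
    choose! r hr0 hr1 hr2 using hloc
    obtain ⟨t, htp, htc⟩ := (sup_pbd_compact hab t₁ t₂).elim_nhds_subcover
      (fun ξ => ball ξ (r ξ)) (fun ξ hξ => ball_mem_nhds ξ (hr0 ξ hξ))
    have hUo : IsOpen (⋃ ξ ∈ t, ball ξ (r ξ)) :=
      isOpen_biUnion fun ξ _ => isOpen_ball
    obtain ⟨ρ, hρ, hρU⟩ := (sup_pbd_compact hab t₁ t₂).exists_thickening_subset_open hUo htc
    have hnear : ∀ᵐ y, y ∈ closure (box a b t₁ t₂) → y ∈ thickening ρ (pbd a b t₁ t₂) →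
        g y - ε / 2 ≤ u y := by
      have h1 : ∀ᵐ y, ∀ ξ ∈ t, y ∈ ball ξ (r ξ) → g ξ - ε / 4 ≤ u y := by
        rw [Finset.eventually_all]
        intro ξ hξ
        exact (ae_restrict_iff' measurableSet_ball).1 (hr1 ξ (htp ξ hξ))
      filter_upwards [h1] with y hy hyc hyt
      obtain ⟨ξ, hξ, hyξ⟩ := mem_iUnion₂.1 (hρU hyt)
      have h2 := hy ξ hξ hyξ
      have h3 := hr2 ξ (htp ξ hξ) y hyc hyξ
      linarith
    have hz2 : z.2 < t₂ := hz.2.2
    have hz1 : t₁ < z.2 := hz.2.1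
    have hres := sup_local hp h hab ht hcl hg hpp hρ hnear (s := (z.2 + t₂) / 2)
      (by linarith) (by linarith)
    have hBo : IsOpen (box a b t₁ t₂ ∩ {y : X n | y.2 < (z.2 + t₂) / 2}) :=
      ((sup_Q_open a b).prod isOpen_Ioo).inter (isOpen_lt continuous_snd continuous_const)
    obtain ⟨r1, hr3, hr4⟩ := Metric.isOpen_iff.1 hBo z ⟨hz, show z.2 < _ by linarith⟩
    obtain ⟨r5, hr5, hr6⟩ := Metric.continuousOn_iff.1 hg z (subset_closure hz) (ε / 2)
      (by linarith)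
    have hfin : g z - ε ≤ lsr u z := by
      refine sup_le_lsr hΘ hM (hcl (subset_closure hz)) (lt_min hr3 hr5) ?_
      rw [ae_restrict_iff' measurableSet_ball]
      filter_upwards [hres] with y hy hyb
      have h1 := hr4 (ball_subset_ball (min_le_left _ _) hyb)
      have h2 := hy h1.1 h1.2
      have h3 := hr6 y (subset_closure h1.1)
        (lt_of_lt_of_le (mem_ball.1 hyb) (min_le_right _ _))
      rw [Real.dist_eq] at h3
      linarith [(abs_lt.1 h3).1]
    linarith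

end PP
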