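import Pool.Agent.PP.Defs

open Set Metric Filter Topology MeasureTheory
open scoped ContDiff

noncomputable section

namespace PP

variable {n : ℕ}
variable {p : ℝ}

private lemma tim_prim {ρ : ℝ → ℝ} (hρ : ContDiff ℝ ∞ ρ) :
    ContDiff ℝ ∞ (fun t : ℝ => ∫ s in (0 : ℝ)..t, ρ s) ∧
      ∀ t, HasDerivAt (fun t : ℝ => ∫ s in (0 : ℝ)..t, ρ s) (ρ t) t := by
  have hd : ∀ t, HasDerivAt (fun t : ℝ => ∫ s in (0 : ℝ)..t, ρ s) (ρ t) t := fun t =>
    intervalIntegral.integral_hasDerivAt_right (hρ.continuous.intervalIntegrable _ _)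
      hρ.continuous.stronglyMeasurable.stronglyMeasurableAtFilter hρ.continuous.continuousAt
  refine ⟨?_, hd⟩
  rw [contDiff_infty_iff_deriv]
  refine ⟨fun t => (hd t).differentiableAt, ?_⟩
  have : deriv (fun t : ℝ => ∫ s in (0 : ℝ)..t, ρ s) = ρ := funext fun t => (hd t).deriv
  rw [this]
  exact hρ

/-- the basic estimate for one smooth weight -/
private lemma tim_weight {g f : ℝ → ℝ} (hg : Integrable g volume) (hf : Integrable f volume)
    (h : ∀ θ : ℝ → ℝ, ContDiff ℝ ∞ θ → HasCompactSupport θ → (∀ t, 0 ≤ θ t) →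
      - ∫ t, g t * deriv θ t ≤ ∫ t, f t * θ t) (h0 : ∃ T₀ : ℝ, ∀ᵐ t, t < T₀ → g t = 0)
    {ρ : ℝ → ℝ} (hρ : ContDiff ℝ ∞ ρ) (hc : HasCompactSupport ρ) (hp : ∀ t, 0 ≤ ρ t) :
    ∫ t, ρ t * g t ≤ ∫ s, ρ s * ∫ t in Iio s, f t := by
  obtain ⟨T₀, hT₀⟩ := h0
  obtain ⟨R, hR⟩ : ∃ R : ℝ, ∀ t, R < |t| → ρ t = 0 := by
    obtain ⟨R, hR⟩ := hc.isCompact.isBounded.subset_closedBall (0 : ℝ)
    refine ⟨R, fun t ht => ?_⟩
    by_contra hne
    have h1 : t ∈ tsupport ρ := subset_tsupport _ hne
    have h2 := hR h1
    rw [mem_closedBall_zero_iff, Real.norm_eq_abs] at h2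
    linarith
  obtain ⟨hP, hPd⟩ := tim_prim hρ
  obtain ⟨Bρ, hBρ⟩ : ∃ B : ℝ, ∀ t, |ρ t| ≤ B := by
    obtain ⟨B, hB⟩ := hc.exists_bound_of_continuous hρ.continuous
    exact ⟨B, fun t => by simpa using hB t⟩
  have hρi : Integrable ρ volume := hρ.continuous.integrable_of_hasCompactSupport hc
  -- the inequality for a fixed L
  have hL : ∀ L : ℝ, 0 ≤ L → R - T₀ < L →
      ∫ t, ρ t * g t ≤ ∫ s, ρ s * ∫ t in Ico (s - L) s, f t := by
    intro L hL0 hLT
    set θ : ℝ → ℝ := fun t => (∫ s in (0 : ℝ)..(t + L), ρ s) - ∫ s in (0 : ℝ)..t, ρ s with hθ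
    have hθeq : ∀ t, θ t = ∫ s in t..(t + L), ρ s := fun t => by
      rw [hθ]
      exact intervalIntegral.integral_interval_sub_left
        (hρ.continuous.intervalIntegrable _ _) (hρ.continuous.intervalIntegrable _ _)
    have hθs : ContDiff ℝ ∞ θ :=
      (hP.comp (contDiff_id.add contDiff_const)).sub hP
    have hθd : ∀ t, deriv θ t = ρ (t + L) - ρ t := fun t => by
      have h1 : HasDerivAt (fun t : ℝ => ∫ s in (0 : ℝ)..(t + L), ρ s) (ρ (t + L)) t := by
        exact HasDerivAt.comp_add_const t L (hPd (t + L))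
      exact (h1.sub (hPd t)).deriv
    have hθ0 : ∀ t, 0 ≤ θ t := fun t => by
      rw [hθeq]
      exact intervalIntegral.integral_nonneg (by linarith) fun s _ => hp s
    have hθc : HasCompactSupport θ := by
      refine HasCompactSupport.intro (isCompact_Icc (a := -R - L) (b := R)) fun t ht => ?_
      rw [hθeq]
      have : ∀ s ∈ uIcc t (t + L), ρ s = 0 := by
        intro s hs
        rw [uIcc_of_le (by linarith)] at hs
        apply hR
        rw [mem_Icc, not_and_or, not_le, not_le] at ht
        rcases ht with ht | ht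
        · rw [lt_abs]; right; linarith [hs.2]
        · rw [lt_abs]; left; linarith [hs.1]
      rw [intervalIntegral.integral_congr (g := fun _ => (0 : ℝ)) this]
      simp
    have h1 := h θ hθs hθc hθ0
    -- left side
    have i1 : Integrable (fun t => g t * ρ (t + L)) volume := by
      refine hg.mul_bdd (c := Bρ) (hρ.continuous.comp (by fun_prop)).aestronglyMeasurable ?_
      exact Eventually.of_forall fun t => by simpa using hBρ (t + L)
    have i2 : Integrable (fun t => g t * ρ t) volume := by
      refine hg.mul_bdd (c := Bρ) hρ.continuous.aestronglyMeasurable ?_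
      exact Eventually.of_forall fun t => by simpa using hBρ t
    have hz : ∫ t, g t * ρ (t + L) = 0 := by
      rw [integral_eq_zero_of_ae]
      filter_upwards [hT₀] with t ht
      by_cases hlt : t < T₀
      · simp [ht hlt]
      · have : ρ (t + L) = 0 := hR _ (by rw [lt_abs]; left; linarith)
        simp [this]
    have h2 : - ∫ t, g t * deriv θ t = ∫ t, ρ t * g t := by
      have : (fun t => g t * deriv θ t) = fun t => g t * ρ (t + L) - g t * ρ t := by
        funext t; rw [hθd]; ring
      rw [this, integral_sub i1 i2, hz]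
      simp [mul_comm]
    rw [h2] at h1
    refine h1.trans_eq ?_
    -- Fubini
    set S : Set (ℝ × ℝ) := {z | z.1 < z.2 ∧ z.2 ≤ z.1 + L} with hS
    have hSm : MeasurableSet S :=
      (measurableSet_lt measurable_fst measurable_snd).inter
        (measurableSet_le measurable_snd (measurable_fst.add_const L))
    set H : ℝ × ℝ → ℝ := S.indicator (fun z => f z.1 * ρ z.2) with hH
    have hHi : Integrable H (volume.prod volume) := (hf.mul_prod hρi).indicator hSm
    have e1 : ∀ t, f t * θ t = ∫ s, H (t, s) := by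
      intro t
      rw [hθeq, intervalIntegral.integral_of_le (by linarith), ← integral_const_mul,
        ← integral_indicator measurableSet_Ioc]
      refine integral_congr_ae (Eventually.of_forall fun s => ?_)
      simp only [hH, hS, indicator, mem_Ioc, mem_ofPred_eq]
    have e2 : ∀ s, ρ s * ∫ t in Ico (s - L) s, f t = ∫ t, H (t, s) := by
      intro s
      rw [← integral_const_mul, ← integral_indicator measurableSet_Ico]
      refine integral_congr_ae (Eventually.of_forall fun t => ?_)
      simp only [hH, hS, indicator, mem_Ico, mem_ofPred_eq]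
      by_cases hh : s - L ≤ t ∧ t < s
      · rw [if_pos hh, if_pos ⟨hh.2, by linarith [hh.1]⟩, mul_comm]
      · rw [if_neg hh, if_neg fun hh' => hh ⟨by linarith [hh'.2], hh'.1⟩]
    simp only [e1, e2]
    exact integral_integral_swap (f := fun t s => H (t, s)) hHi
  -- the limit
  have hF : ∀ s : ℝ, Tendsto (fun k : ℕ => ∫ t in Ico (s - (k : ℝ)) s, f t) atTop
      (𝓝 (∫ t in Iio s, f t)) := by
    intro s
    have hU : (⋃ k : ℕ, Ico (s - (k : ℝ)) s) = Iio s := by
      ext t
      simp only [mem_iUnion, mem_Ico, mem_Iio]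
      constructor
      · rintro ⟨k, hk⟩; exact hk.2
      · intro ht
        obtain ⟨k, hk⟩ := exists_nat_ge (s - t)
        exact ⟨k, by linarith, ht⟩
    rw [← hU]
    refine tendsto_setIntegral_of_monotone (fun k => measurableSet_Ico) ?_ hf.integrableOn
    intro k l hkl
    have : (k : ℝ) ≤ l := by exact_mod_cast hkl
    exact Ico_subset_Ico_left (by linarith)
  have hlim : Tendsto (fun k : ℕ => ∫ s, ρ s * ∫ t in Ico (s - (k : ℝ)) s, f t) atTop
      (𝓝 (∫ s, ρ s * ∫ t in Iio s, f t)) := by
    refine tendsto_integral_of_dominated_convergence (fun s => |ρ s| * ∫ t, |f t|) ?_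
      (hρi.abs.mul_const _) ?_ ?_
    · intro k
      -- measurability through the primitive
      have hc1 : Continuous (fun s : ℝ => ∫ t in (0 : ℝ)..s, f t) :=
        intervalIntegral.continuous_primitive (fun a b => hf.intervalIntegrable) 0
      have he : (fun s : ℝ => ∫ t in Ico (s - (k : ℝ)) s, f t) =
          fun s => (∫ t in (0 : ℝ)..s, f t) - ∫ t in (0 : ℝ)..(s - (k : ℝ)), f t := by
        funext s
        rw [intervalIntegral.integral_interval_sub_left hf.intervalIntegrable
          hf.intervalIntegrable, intervalIntegral.integral_of_le (by simp),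
          ← integral_Ico_eq_integral_Ioc]
      have hc2 : Continuous (fun s : ℝ => ∫ t in Ico (s - (k : ℝ)) s, f t) := by
        rw [he]
        exact hc1.sub (hc1.comp (by fun_prop))
      exact (hρ.continuous.mul hc2).aestronglyMeasurable
    · intro k
      refine Eventually.of_forall fun s => ?_
      rw [Real.norm_eq_abs, abs_mul]
      refine mul_le_mul_of_nonneg_left ?_ (abs_nonneg _)
      refine (abs_integral_le_integral_abs).trans ?_
      exact setIntegral_le_integral hf.abs (Eventually.of_forall fun t => abs_nonneg _)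
    · exact Eventually.of_forall fun s => (hF s).const_mul _
  refine ge_of_tendsto hlim ?_
  obtain ⟨k₀, hk₀⟩ := exists_nat_gt (R - T₀)
  filter_upwards [eventually_ge_atTop k₀] with k hk
  have : (k₀ : ℝ) ≤ k := by exact_mod_cast hk
  exact hL k (Nat.cast_nonneg k) (by linarith)

/-- one dimensional lemma: distributional inequality gives a.e. monotonicity -/
theorem tim {g f : ℝ → ℝ} (hg : Integrable g volume) (hf : Integrable f volume)
    (h : ∀ θ : ℝ → ℝ, ContDiff ℝ ∞ θ → HasCompactSupport θ → (∀ t, 0 ≤ θ t) →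
      - ∫ t, g t * deriv θ t ≤ ∫ t, f t * θ t) (h0 : ∃ T₀ : ℝ, ∀ᵐ t, t < T₀ → g t = 0) :
    ∀ᵐ T : ℝ, g T ≤ ∫ t in Iio T, f t := by
  have hFc : Continuous (fun T : ℝ => ∫ t in Iio T, f t) := by
    have hc1 : Continuous (fun s : ℝ => ∫ t in (0 : ℝ)..s, f t) :=
      intervalIntegral.continuous_primitive (fun a b => hf.intervalIntegrable) 0
    have he : (fun T : ℝ => ∫ t in Iio T, f t) =
        fun s => (∫ t in (0 : ℝ)..s, f t) + ∫ t in Iic (0 : ℝ), f t := by
      funext s
      have := intervalIntegral.integral_Iic_sub_Iic (a := 0) (b := s) (f := f) (μ := volume)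
        hf.integrableOn hf.integrableOn
      rw [← this, integral_Iic_eq_integral_Iio (x := s)]
      ring
    rw [he]
    exact hc1.add continuous_const
  set w : ℝ → ℝ := fun T => g T - ∫ t in Iio T, f t with hw
  have hwl : LocallyIntegrable w volume :=
    hg.locallyIntegrable.sub hFc.locallyIntegrable
  let φ : ℕ → ContDiffBump (0 : ℝ) := fun k =>
    ⟨1 / (2 * ((k : ℝ) + 1)), 1 / ((k : ℝ) + 1), by positivity, by
      apply one_div_lt_one_div_of_lt <;> [positivity; linarith [(Nat.cast_nonneg k : (0:ℝ) ≤ k)]]⟩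
  have hφ : Tendsto (fun k => (φ k).rOut) atTop (𝓝 0) := tendsto_one_div_add_atTop_nhds_zero_nat
  have hφ2 : ∀ᶠ k in atTop, (φ k).rOut ≤ 2 * (φ k).rIn := Eventually.of_forall fun k => by
    change 1 / ((k : ℝ) + 1) ≤ 2 * (1 / (2 * ((k : ℝ) + 1)))
    have : (0 : ℝ) < (k : ℝ) + 1 := by positivity
    field_simp
    exact le_refl _
  have hae := ContDiffBump.ae_convolution_tendsto_right_of_locallyIntegrable hφ hφ2 hwl
  filter_upwards [hae] with T hT
  have hle : ∀ k, (MeasureTheory.convolution ((φ k).normed volume) w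
      (ContinuousLinearMap.lsmul ℝ ℝ) volume) T ≤ 0 := by
    intro k
    rw [convolution_lsmul_swap]
    set ρ : ℝ → ℝ := fun t => (φ k).normed volume (T - t) with hρdef
    have hρ : ContDiff ℝ ∞ ρ := (φ k).contDiff_normed.comp (contDiff_const.sub contDiff_id)
    have hρc : HasCompactSupport ρ := by
      have := (φ k).hasCompactSupport_normed (μ := volume)
      exact this.comp_homeomorph (Homeomorph.subLeft T)
    have hρ0 : ∀ t, 0 ≤ ρ t := fun t => (φ k).nonneg_normed _
    have key := tim_weight hg hf h h0 hρ hρc hρ0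
    obtain ⟨Bρ, hBρ⟩ : ∃ B : ℝ, ∀ t, |ρ t| ≤ B := by
      obtain ⟨B, hB⟩ := hρc.exists_bound_of_continuous hρ.continuous
      exact ⟨B, fun t => by simpa using hB t⟩
    have i2 : Integrable (fun t => ρ t * g t) volume := by
      refine hg.bdd_mul (c := Bρ) hρ.continuous.aestronglyMeasurable ?_
      exact Eventually.of_forall fun t => by simpa using hBρ t
    have i3 : Integrable (fun s => ρ s * ∫ t in Iio s, f t) volume :=
      (hρ.continuous.mul hFc).integrable_of_hasCompactSupport hρc.mul_right
    have : ∫ t, ρ t • w t = (∫ t, ρ t * g t) - ∫ s, ρ s * ∫ t in Iio s, f t := by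
      rw [← integral_sub i2 i3]
      refine integral_congr_ae (Eventually.of_forall fun t => ?_)
      simp only [hw, smul_eq_mul]
      ring
    change ∫ t, ρ t • w t ≤ 0
    rw [this]
    linarith
  have := le_of_tendsto' hT hle
  simp only [hw] at this
  linarith

end PP
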