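import Pool.Agent.PP.SCPT

open Set Metric Filter Topology MeasureTheory
open scoped ContDiff

noncomputable section

namespace PP

variable {n : ℕ}
variable {p : ℝ}

private theorem ui_pow {a b : ℝ} (ha : 0 ≤ a) (hb : 0 ≤ b) (hp : 0 ≤ p) :
    (a + b) ^ p ≤ 2 ^ p * (a ^ p + b ^ p) := by
  have h1 : a + b ≤ 2 * max a b := by
    have := le_max_left a b
    have := le_max_right a b
    linarith
  have h2 : (max a b) ^ p ≤ a ^ p + b ^ p := by
    rcases max_choice a b with h | h <;> rw [h]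
    · have := Real.rpow_nonneg hb p
      linarith
    · have := Real.rpow_nonneg ha p
      linarith
  calc (a + b) ^ p ≤ (2 * max a b) ^ p := Real.rpow_le_rpow (add_nonneg ha hb) h1 hp
    _ = 2 ^ p * (max a b) ^ p := Real.mul_rpow (by norm_num) (le_max_of_le_left ha)
    _ ≤ 2 ^ p * (a ^ p + b ^ p) := mul_le_mul_of_nonneg_left h2 (by positivity)

private theorem ui_int {S : Set (X n)} {G : X n → E n} (hp : 1 < p)
    (h : MemLp G (ENNReal.ofReal p) (volume.restrict S)) :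
    IntegrableOn (fun z => ‖G z‖ ^ p) S := by
  have h1 := h.integrable_norm_rpow (by simpa using (by linarith : 0 < p)) (by simp)
  rwa [ENNReal.toReal_ofReal (by linarith)] at h1

private theorem ui_null (t₀ : ℝ) : volume {z : X n | z.2 = t₀} = 0 := by
  have h1 : {z : X n | z.2 = t₀} = (univ : Set (E n)) ×ˢ {t₀} := by
    ext z
    simp
  rw [h1, Measure.volume_eq_prod, Measure.prod_prod]
  simp

/-- uniform integrability of the energy in time -/
theorem unif_int (hp : 1 < p) {Ω : Set (X n)} (hΩ : IsOpen Ω) (hb : Bornology.IsBounded Ω)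
    (M : ℝ) {D : Set (X n)} (hD : IsCompact D) (hDΩ : D ⊆ Ω) (t₀ : ℝ) {η : ℝ} (hη : 0 < η) :
    ∃ s > 0, ∀ (u : X n → ℝ) (G : X n → E n), SolOn p Ω u G →
      (∀ᵐ z ∂(volume.restrict Ω), |u z| ≤ M) →
      ∫ z in {z | z ∈ D ∧ |z.2 - t₀| ≤ s}, ‖G z‖ ^ p ≤ η := by
  by_contra hcon
  push Not at hcon
  have hp0 : (0 : ℝ) ≤ p := by linarith
  have h1 : ∀ j : ℕ, ∃ (u : X n → ℝ) (G : X n → E n), SolOn p Ω u G ∧
      (∀ᵐ z ∂(volume.restrict Ω), |u z| ≤ M) ∧
      η < ∫ z in {z | z ∈ D ∧ |z.2 - t₀| ≤ 1 / ((j : ℝ) + 1)}, ‖G z‖ ^ p := by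
    intro j
    obtain ⟨u, G, h1, h2, h3⟩ := hcon (1 / ((j : ℝ) + 1)) (by positivity)
    exact ⟨u, G, h1, h2, h3⟩
  choose u G hsol hM hbig using h1
  obtain ⟨κ, v, H, hκ, hv, -, hlim⟩ := sol_cpt hp hΩ hb hsol hM
  have hl := hlim D hD hDΩ
  set S : ℕ → Set (X n) := fun j => {z | z ∈ D ∧ |z.2 - t₀| ≤ 1 / ((j : ℝ) + 1)} with hS
  have hSD : ∀ j, S j ⊆ D := fun j z hz => hz.1
  have hSm : ∀ j, MeasurableSet (S j) := by
    intro j
    refine hD.measurableSet.inter ?_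
    exact (isClosed_le ((continuous_snd.sub continuous_const).abs) continuous_const).measurableSet
  have hanti : Antitone S := by
    intro i j hij z hz
    refine ⟨hz.1, hz.2.trans ?_⟩
    have : (i : ℝ) ≤ j := by exact_mod_cast hij
    exact one_div_le_one_div_of_le (by positivity) (by linarith)
  have hHi : IntegrableOn (fun z => ‖H z‖ ^ p) D := ui_int hp (hv.memG D hD hDΩ)
  have hGi : ∀ j, IntegrableOn (fun z => ‖G j z‖ ^ p) D := fun j =>
    ui_int hp ((hsol j).memG D hD hDΩ)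
  have hGHi : ∀ j, IntegrableOn (fun z => ‖G j z - H z‖ ^ p) D := fun j =>
    ui_int hp (((hsol j).memG D hD hDΩ).sub (hv.memG D hD hDΩ))
  have hH0 : Tendsto (fun j => ∫ z in S j, ‖H z‖ ^ p) atTop (𝓝 0) := by
    have h2 := tendsto_setIntegral_of_antitone hSm hanti ⟨0, hHi.mono_set (hSD 0)⟩
    have h3 : ∫ z in ⋂ j, S j, ‖H z‖ ^ p = 0 := by
      refine setIntegral_measure_zero _ (measure_mono_null (fun z hz => ?_) (ui_null t₀))
      have h4 : ∀ j : ℕ, |z.2 - t₀| ≤ 1 / ((j : ℝ) + 1) := fun j => (mem_iInter.mp hz j).2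
      have h5 : |z.2 - t₀| ≤ 0 :=
        ge_of_tendsto' tendsto_one_div_add_atTop_nhds_zero_nat h4
      have h6 : z.2 - t₀ = 0 := abs_eq_zero.mp (le_antisymm h5 (abs_nonneg _))
      show z.2 = t₀
      linarith
    rwa [h3] at h2
  have hup : ∀ k, η ≤ 2 ^ p * (∫ z in D, ‖G (κ k) z - H z‖ ^ p) +
      2 ^ p * ∫ z in S (κ k), ‖H z‖ ^ p := by
    intro k
    have e1 : ∫ z in S (κ k), ‖G (κ k) z‖ ^ p ≤
        ∫ z in S (κ k), (2 ^ p * ‖G (κ k) z - H z‖ ^ p + 2 ^ p * ‖H z‖ ^ p) := by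
      refine setIntegral_mono ((hGi _).mono_set (hSD _))
        ((((hGHi _).mono_set (hSD _)).const_mul _).add ((hHi.mono_set (hSD _)).const_mul _))
        fun z => ?_
      have e2 : ‖G (κ k) z‖ ≤ ‖G (κ k) z - H z‖ + ‖H z‖ := by
        simpa using norm_add_le (G (κ k) z - H z) (H z)
      calc ‖G (κ k) z‖ ^ p ≤ (‖G (κ k) z - H z‖ + ‖H z‖) ^ p :=
            Real.rpow_le_rpow (norm_nonneg _) e2 hp0
        _ ≤ 2 ^ p * (‖G (κ k) z - H z‖ ^ p + ‖H z‖ ^ p) :=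
            ui_pow (norm_nonneg _) (norm_nonneg _) hp0
        _ = 2 ^ p * ‖G (κ k) z - H z‖ ^ p + 2 ^ p * ‖H z‖ ^ p := by ring
    have e3 : ∫ z in S (κ k), (2 ^ p * ‖G (κ k) z - H z‖ ^ p + 2 ^ p * ‖H z‖ ^ p) =
        2 ^ p * (∫ z in S (κ k), ‖G (κ k) z - H z‖ ^ p) +
          2 ^ p * ∫ z in S (κ k), ‖H z‖ ^ p := by
      rw [integral_add (((hGHi _).mono_set (hSD _)).const_mul _)
        ((hHi.mono_set (hSD _)).const_mul _), integral_const_mul, integral_const_mul]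
    have e4 : ∫ z in S (κ k), ‖G (κ k) z - H z‖ ^ p ≤ ∫ z in D, ‖G (κ k) z - H z‖ ^ p :=
      setIntegral_mono_set (hGHi _) (Eventually.of_forall fun z => by positivity)
        (Eventually.of_forall (hSD _))
    have e5 := mul_le_mul_of_nonneg_left e4 (by positivity : (0 : ℝ) ≤ 2 ^ p)
    have e6 := hbig (κ k)
    rw [e3] at e1
    linarith
  have hlimit : Tendsto (fun k => 2 ^ p * (∫ z in D, ‖G (κ k) z - H z‖ ^ p) +
      2 ^ p * ∫ z in S (κ k), ‖H z‖ ^ p) atTop (𝓝 (2 ^ p * 0 + 2 ^ p * 0)) :=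
    (hl.const_mul _).add ((hH0.comp hκ.tendsto_atTop).const_mul _)
  have := ge_of_tendsto' hlimit hup
  simp at this
  linarith

end PP
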