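import Pool.Agent.PP.CLU
import Pool.Agent.PP.DBL
import Pool.Agent.PP.BAR2
import Pool.Agent.PP.SCL

open Set Metric Filter Topology MeasureTheory
open scoped ContDiff

noncomputable section

namespace PP

variable {n : ℕ}
variable {p : ℝ}

theorem unitHaar : (volume : Measure (X n)).IsAddHaarMeasure := by
  rw [Measure.volume_eq_prod]
  infer_instance

/-- affine change of variables -/
def unitAff (r s : ℝ) (x₀ : E n) (t₀ : ℝ) (z : X n) : X n := (x₀ + r • z.1, t₀ + s * z.2)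

theorem unitAff_qmp {r s : ℝ} (hr : r ≠ 0) (hs : s ≠ 0) (x₀ : E n) (t₀ : ℝ) :
    Measure.QuasiMeasurePreserving (unitAff r s x₀ t₀) (volume : Measure (X n)) volume := by
  have := unitHaar (n := n)
  let L : X n ≃ₗ[ℝ] X n :=
    LinearEquiv.prodCongr (LinearEquiv.smulOfNeZero ℝ (E n) r hr)
      (LinearEquiv.smulOfNeZero ℝ ℝ s hs)
  have h1 : Measure.QuasiMeasurePreserving (L : X n →ₗ[ℝ] X n) (volume : Measure (X n)) volume :=
    Measure.LinearMap.quasiMeasurePreserving _ _ (LinearEquiv.isUnit_det' L).ne_zero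
  have h2 : unitAff r s x₀ t₀ = (fun z : X n => (x₀, t₀) + z) ∘ (L : X n →ₗ[ℝ] X n) := by
    funext z
    rfl
  rw [h2]
  exact ((measurePreserving_add_left (volume : Measure (X n))
    ((x₀, t₀) : X n)).quasiMeasurePreserving).comp h1

theorem unitAff_ae {r s : ℝ} (hr : r ≠ 0) (hs : s ≠ 0) (x₀ : E n) (t₀ : ℝ) {S T : Set (X n)}
    (hS : MeasurableSet S) (hT : MeasurableSet T) (hTS : ∀ z ∈ T, unitAff r s x₀ t₀ z ∈ S)
    {P : X n → Prop} (h : ∀ᵐ z ∂(volume.restrict S), P z) :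
    ∀ᵐ z ∂(volume.restrict T), P (unitAff r s x₀ t₀ z) := by
  rw [ae_restrict_iff' hS] at h
  rw [ae_restrict_iff' hT]
  filter_upwards [(unitAff_qmp hr hs x₀ t₀).ae h] with z hz hzT
  exact hz (hTS z hzT)

theorem unitAff_inv {r s : ℝ} (hr : r ≠ 0) (hs : s ≠ 0) (x₀ : E n) (t₀ : ℝ) (w : X n) :
    unitAff r s x₀ t₀ (unitAff r⁻¹ s⁻¹ (-(r⁻¹ • x₀)) (-(s⁻¹ * t₀)) w) = w := by
  obtain ⟨x, t⟩ := w
  unfold unitAff
  simp only [Prod.mk.injEq]
  constructor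
  · rw [smul_add, smul_neg, smul_smul, smul_smul, mul_inv_cancel₀ hr, one_smul, one_smul]
    abel
  · field_simp
    ring

theorem unitAff_inv' {r s : ℝ} (hr : r ≠ 0) (hs : s ≠ 0) (x₀ : E n) (t₀ : ℝ) (w : X n) :
    unitAff r⁻¹ s⁻¹ (-(r⁻¹ • x₀)) (-(s⁻¹ * t₀)) (unitAff r s x₀ t₀ w) = w := by
  obtain ⟨x, t⟩ := w
  unfold unitAff
  simp only [Prod.mk.injEq]
  constructor
  · rw [smul_add, smul_smul, inv_mul_cancel₀ hr, one_smul]
    abel
  · field_simp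
    ring

/-- transport back -/
theorem unitAff_ae' {r s : ℝ} (hr : r ≠ 0) (hs : s ≠ 0) (x₀ : E n) (t₀ : ℝ) {S T : Set (X n)}
    (hS : MeasurableSet S) (hT : MeasurableSet T)
    (hTS : ∀ z ∈ S, unitAff r⁻¹ s⁻¹ (-(r⁻¹ • x₀)) (-(s⁻¹ * t₀)) z ∈ T)
    {P : X n → Prop} (h : ∀ᵐ z ∂(volume.restrict T), P (unitAff r s x₀ t₀ z)) :
    ∀ᵐ z ∂(volume.restrict S), P z := by
  have := unitAff_ae (inv_ne_zero hr) (inv_ne_zero hs) (-(r⁻¹ • x₀)) (-(s⁻¹ * t₀)) hT hS hTS h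
  filter_upwards [this] with z hz
  rwa [unitAff_inv hr hs] at hz

theorem unit_meas (x : E n) (ρ a b : ℝ) : MeasurableSet (ball x ρ ×ˢ Ioo a b : Set (X n)) :=
  isOpen_ball.measurableSet.prod measurableSet_Ioo

theorem unit_open (x : E n) (ρ a b : ℝ) : IsOpen (ball x ρ ×ˢ Ioo a b : Set (X n)) :=
  isOpen_ball.prod isOpen_Ioo

theorem unit_mono {x x' : E n} {ρ ρ' a b a' b' : ℝ} (h : dist x' x + ρ' ≤ ρ) (ha : a ≤ a')
    (hb : b' ≤ b) : (ball x' ρ' ×ˢ Ioo a' b' : Set (X n)) ⊆ ball x ρ ×ˢ Ioo a b := by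
  apply Set.prod_mono
  · apply ball_subset_ball'
    linarith
  · exact Ioo_subset_Ioo ha hb

theorem unit_ae_mono {S T : Set (X n)} (h : S ⊆ T) {P : X n → Prop}
    (hT : ∀ᵐ z ∂(volume.restrict T), P z) : ∀ᵐ z ∂(volume.restrict S), P z :=
  ae_restrict_of_ae_restrict_of_subset h hT

theorem unit_shift (hp : 1 < p) {Ω : Set (X n)} (hΩ : IsOpen Ω) {u : X n → ℝ} {G : X n → E n}
    (h : SolOn p Ω u G) (a tc : ℝ) :
    SolOn p {z | (z.1, tc + z.2) ∈ Ω} (fun z => u (z.1, tc + z.2) + a)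
      (fun z => G (z.1, tc + z.2)) := by
  have := h.scale hp hΩ (a := a) (b := 1) (r := 1) one_pos one_pos 0 tc
  simpa using this

theorem unit_one_sub (hp : 1 < p) {Ω : Set (X n)} (hΩ : IsOpen Ω) {u : X n → ℝ} {G : X n → E n}
    (h : SolOn p Ω u G) : SolOn p Ω (fun z => 1 - u z) (fun z => - G z) := by
  have := unit_shift hp hΩ h.neg 1 0
  have h2 : (fun z : X n => 1 - u z) = fun z => - u (z.1, 0 + z.2) + 1 := by
    funext z
    simp
    ring
  have h3 : (fun z : X n => - G z) = fun z => - G (z.1, 0 + z.2) := by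
    funext z
    simp
  have h4 : {z : X n | (z.1, 0 + z.2) ∈ Ω} = Ω := by
    ext z
    simp
  rw [h4] at this
  rw [h2, h3]
  exact this

/-- the level `δ` for one doubling step -/
theorem unit_delta (hp2 : p < 2) {c C T : ℝ} (hc : 0 < c) (hC : 0 < C) (hT : 0 < T) :
    ∃ δ : ℝ, 0 < δ ∧ δ ≤ c ∧ C * δ ^ (2 - p) ≤ T := by
  have h2 : 0 < 2 - p := by linarith
  refine ⟨min c ((T / C) ^ (1 / (2 - p))), lt_min hc (Real.rpow_pos_of_pos (by positivity) _),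
    min_le_left _ _, ?_⟩
  have h3 : (min c ((T / C) ^ (1 / (2 - p)))) ^ (2 - p) ≤ T / C := by
    calc (min c ((T / C) ^ (1 / (2 - p)))) ^ (2 - p)
        ≤ ((T / C) ^ (1 / (2 - p))) ^ (2 - p) := by
          apply Real.rpow_le_rpow _ (min_le_right _ _) h2.le
          exact (lt_min hc (Real.rpow_pos_of_pos (by positivity) _)).le
      _ = T / C := by
          rw [← Real.rpow_mul (by positivity), one_div, inv_mul_cancel₀ h2.ne', Real.rpow_one]
  calc C * (min c ((T / C) ^ (1 / (2 - p)))) ^ (2 - p) ≤ C * (T / C) := by gcongr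
    _ = T := by field_simp

theorem unit_dbl_iter (hn : 0 < n) (hp : 1 < p) (hp2 : p < 2) {r : ℝ} (hr : 0 < r) (N : ℕ) :
    ∀ (c T : ℝ), 0 < c → 0 < T → ∃ σ : ℝ, 0 < σ ∧
      ∀ (x₁ : E n) (ta tb : ℝ) (v : X n → ℝ) (G : X n → E n),
        SupOn p (ball x₁ (2 ^ (N + 1) * r) ×ˢ Ioo ta tb) v G →
        (∀ᵐ z ∂(volume.restrict (ball x₁ (2 ^ (N + 1) * r) ×ˢ Ioo ta tb)), 0 ≤ v z) →
        (∀ᵐ z ∂(volume.restrict (ball x₁ r ×ˢ Ioo ta tb)), c ≤ v z) →
        ∀ᵐ z ∂(volume.restrict (ball x₁ (2 ^ N * r) ×ˢ Ioo (ta + T) tb)), σ ≤ v z := by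
  induction N with
  | zero =>
    intro c T hc hT
    refine ⟨c, hc, fun x₁ ta tb v G _ _ h3 => ?_⟩
    refine unit_ae_mono (unit_mono ?_ ?_ le_rfl) h3
    · rw [dist_self]
      simp
    · linarith
  | succ N ih =>
    intro c T hc hT
    obtain ⟨σ, hσ, H⟩ := ih c (T / 2) hc (by positivity)
    have hρ : 0 < (2 : ℝ) ^ N * r := by positivity
    obtain ⟨κ, C, hκ, hC, D⟩ := dbl hn hp hρ
    obtain ⟨δ, hδ, hδσ, hδC⟩ := unit_delta hp2 hσ hC (half_pos hT)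
    refine ⟨κ * δ, by positivity, fun x₁ ta tb v G h1 h2 h3 => ?_⟩
    have e1 : (4 : ℝ) * (2 ^ N * r) = 2 ^ (N + 1 + 1) * r := by ring
    have e2 : (2 : ℝ) * (2 ^ N * r) = 2 ^ (N + 1) * r := by ring
    have hsub1 : (ball x₁ (2 ^ (N + 1) * r) ×ˢ Ioo ta tb : Set (X n)) ⊆
        ball x₁ (2 ^ (N + 1 + 1) * r) ×ˢ Ioo ta tb := by
      apply unit_mono _ le_rfl le_rfl
      rw [dist_self, zero_add, ← e1, ← e2]
      linarith
    have hsub2 : (ball x₁ (4 * (2 ^ N * r)) ×ˢ Ioo (ta + T / 2) tb : Set (X n)) ⊆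
        ball x₁ (2 ^ (N + 1 + 1) * r) ×ˢ Ioo ta tb := by
      apply unit_mono _ _ le_rfl
      · rw [dist_self, zero_add, e1]
      · linarith
    have h4 := H x₁ ta tb v G (h1.restrict (unit_open _ _ _ _) (unit_open _ _ _ _) hsub1)
      (unit_ae_mono hsub1 h2) h3
    have h5 := D x₁ (ta + T / 2) tb σ δ (T / 2) v G hδ hδσ hδC
      (h1.restrict (unit_open _ _ _ _) (unit_open _ _ _ _) hsub2) (unit_ae_mono hsub2 h2) h4
    have e3 : ta + T / 2 + T / 2 = ta + T := by ring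
    rw [e2, e3] at h5
    exact h5

/-- positivity at the unit scale from a mass condition -/
theorem unit_pos (hn : 0 < n) (hp : 1 < p) : ∃ R T σ s s₀ tc : ℝ, 0 < R ∧ 0 < T ∧ 0 < σ ∧ σ < 1 ∧
    0 < s ∧ 0 < s₀ ∧ ∀ (v : X n → ℝ) (G : X n → E n),
      SolOn p (ball (0 : E n) R ×ˢ Ioo (-T) T) v G →
      (∀ᵐ z ∂(volume.restrict (ball (0 : E n) R ×ˢ Ioo (-T) T)), 0 ≤ v z ∧ v z ≤ 1) →
      (1 / 2) * (volume (ball (0 : E n) 1 ×ˢ Ioo (tc - s₀) (tc + s₀))).toReal ≤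
        (volume {z | z ∈ ball (0 : E n) 1 ×ˢ Ioo (tc - s₀) (tc + s₀) ∧ 1 / 2 ≤ v z}).toReal →
      ∀ᵐ z ∂(volume.restrict (ball (0 : E n) 1 ×ˢ Ioo (-s) s)), σ ≤ v z := by
  have := unitHaar (n := n)
  obtain ⟨r, s₀, hr, hr1, hs₀, hs₀1, H⟩ := clu (n := n) hn hp
  rcases lt_or_ge p 2 with hp2 | hp2
  · obtain ⟨N, hN⟩ := pow_unbounded_of_one_lt (2 / r) (one_lt_two (α := ℝ))
    have hN2 : 2 ≤ 2 ^ N * r := by
      rw [div_lt_iff₀ hr] at hN
      exact hN.le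
    obtain ⟨σ, hσ, D⟩ := unit_dbl_iter (n := n) hn hp hp2 hr N (1 / 8) (s₀ / 4) (by norm_num)
      (by positivity)
    have hK : 0 < (2 : ℝ) ^ (N + 1) * r := by positivity
    refine ⟨4 + 2 ^ (N + 1) * r, 4, min σ (1 / 2), s₀ / 4, s₀, 0, by positivity, by norm_num,
      lt_min hσ (by norm_num), lt_of_le_of_lt (min_le_right _ _) (by norm_num), by positivity, hs₀,
      fun v G h1 h2 h3 => ?_⟩
    have hsub : (ball (0 : E n) 4 ×ˢ Ioo (-4 : ℝ) 4 : Set (X n)) ⊆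
        ball (0 : E n) (4 + 2 ^ (N + 1) * r) ×ˢ Ioo (-4) 4 := by
      apply unit_mono _ le_rfl le_rfl
      rw [dist_self]
      linarith
    rw [zero_sub, zero_add] at h3
    obtain ⟨x₁, hx₁, h4⟩ := H v G (h1.restrict (unit_open _ _ _ _) (unit_open _ _ _ _) hsub)
      (unit_ae_mono hsub h2) h3
    rw [mem_ball] at hx₁
    have hsub2 : (ball x₁ (2 ^ (N + 1) * r) ×ˢ Ioo (-s₀ / 2) s₀ : Set (X n)) ⊆
        ball (0 : E n) (4 + 2 ^ (N + 1) * r) ×ˢ Ioo (-4) 4 := by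
      apply unit_mono
      · linarith
      · linarith
      · linarith
    have h5 := D x₁ (-s₀ / 2) s₀ v G
      (h1.toSupOn.restrict (unit_open _ _ _ _) (unit_open _ _ _ _) hsub2)
      ((unit_ae_mono hsub2 h2).mono fun z hz => hz.1) h4
    have hsub3 : (ball (0 : E n) 1 ×ˢ Ioo (-(s₀ / 4)) (s₀ / 4) : Set (X n)) ⊆
        ball x₁ (2 ^ N * r) ×ˢ Ioo (-s₀ / 2 + s₀ / 4) s₀ := by
      apply unit_mono
      · rw [dist_comm]
        linarith
      · linarith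
      · linarith
    filter_upwards [unit_ae_mono hsub3 h5] with z hz
    exact (min_le_left _ _).trans hz
  · obtain ⟨R, T, σ, hR, hT, hσ, D⟩ := bar2 (n := n) hn hp2 hr (c := 1 / 8) (by norm_num) hs₀
    refine ⟨R + 1, T + 5, min σ (1 / 2), 1 / 2, s₀, -(T + 1), by linarith, by linarith,
      lt_min hσ (by norm_num), lt_of_le_of_lt (min_le_right _ _) (by norm_num), by norm_num, hs₀,
      fun v G h1 h2 h3 => ?_⟩
    set tc : ℝ := -(T + 1) with htc
    have hopen : IsOpen {z : X n | (z.1, tc + z.2) ∈ ball (0 : E n) (R + 1) ×ˢ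
        Ioo (-(T + 5)) (T + 5)} :=
      (unit_open _ _ _ _).preimage (by fun_prop)
    have hsub : (ball (0 : E n) 4 ×ˢ Ioo (-4 : ℝ) 4 : Set (X n)) ⊆
        {z : X n | (z.1, tc + z.2) ∈ ball (0 : E n) (R + 1) ×ˢ Ioo (-(T + 5)) (T + 5)} := by
      rintro ⟨x, t⟩ ⟨hx, ht⟩
      refine ⟨?_, ?_, ?_⟩
      · exact ball_subset_ball (by linarith) hx
      · have := ht.1
        simp only at this ⊢
        linarith
      · have := ht.2
        simp only at this ⊢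
        linarith
    have h1' := (unit_shift hp (unit_open _ _ _ _) h1 0 tc).restrict hopen (unit_open _ _ _ _) hsub
    have h2' : ∀ᵐ z ∂(volume.restrict (ball (0 : E n) 4 ×ˢ Ioo (-4 : ℝ) 4)),
        0 ≤ v (z.1, tc + z.2) + 0 ∧ v (z.1, tc + z.2) + 0 ≤ 1 := by
      have := unitAff_ae (r := 1) (s := 1) one_ne_zero one_ne_zero (0 : E n) tc
        (unit_meas _ _ _ _) (unit_meas (0 : E n) 4 (-4) 4) (fun z hz => by
          have := hsub hz
          simpa [unitAff] using this) h2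
      simpa [unitAff] using this
    have hvol1 : (volume (ball (0 : E n) 1 ×ˢ Ioo (tc - s₀) (tc + s₀))) =
        volume (ball (0 : E n) 1 ×ˢ Ioo (-s₀) s₀) := by
      rw [← measure_preimage_add (volume : Measure (X n)) ((0, tc) : X n)
        (ball (0 : E n) 1 ×ˢ Ioo (tc - s₀) (tc + s₀))]
      congr 1
      ext z
      simp only [mem_preimage, mem_prod, Prod.fst_add, Prod.snd_add, zero_add, mem_Ioo]
      constructor
      · rintro ⟨h, h', h''⟩
        exact ⟨h, by linarith, by linarith⟩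
      · rintro ⟨h, h', h''⟩
        exact ⟨h, by linarith, by linarith⟩
    have hvol2 : volume {z : X n | z ∈ ball (0 : E n) 1 ×ˢ Ioo (tc - s₀) (tc + s₀) ∧
        1 / 2 ≤ v z} = volume {z : X n | z ∈ ball (0 : E n) 1 ×ˢ Ioo (-s₀) s₀ ∧
        1 / 2 ≤ v (z.1, tc + z.2) + 0} := by
      rw [← measure_preimage_add (volume : Measure (X n)) ((0, tc) : X n)
        {z : X n | z ∈ ball (0 : E n) 1 ×ˢ Ioo (tc - s₀) (tc + s₀) ∧ 1 / 2 ≤ v z}]
      congr 1
      ext z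
      have hz : ((0, tc) : X n) + z = (z.1, tc + z.2) := by
        ext1 <;> simp
      simp only [mem_preimage, mem_ofPred_eq, hz, mem_prod, mem_Ioo, add_zero]
      constructor
      · rintro ⟨⟨h, h', h''⟩, h3⟩
        exact ⟨⟨h, by linarith, by linarith⟩, h3⟩
      · rintro ⟨⟨h, h', h''⟩, h3⟩
        exact ⟨⟨h, by linarith, by linarith⟩, h3⟩
    rw [hvol1, hvol2] at h3
    obtain ⟨x₁, hx₁, h4⟩ := H _ _ h1' h2' h3
    rw [mem_ball] at hx₁
    have h4' : ∀ᵐ z ∂(volume.restrict (ball x₁ r ×ˢ Ioo (tc - s₀ / 2) (tc - s₀ / 2 + s₀))),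
        1 / 8 ≤ v z := by
      refine unitAff_ae' (r := 1) (s := 1) one_ne_zero one_ne_zero (0 : E n) tc
        (unit_meas _ _ _ _) (unit_meas x₁ r (-s₀ / 2) s₀) ?_ ?_
      · rintro ⟨x, t⟩ ⟨hx, ht⟩
        have h5 := ht.1
        have h6 := ht.2
        simp only at h5 h6
        simp only [unitAff, inv_one, smul_zero, neg_zero, zero_add, one_smul, one_mul]
        refine ⟨hx, ?_, ?_⟩
        · show -s₀ / 2 < -tc + t
          linarith
        · show -tc + t < s₀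
          linarith
      · simpa [unitAff] using h4
    have hsub2 : (ball x₁ R ×ˢ Ioo (tc - s₀ / 2) (tc - s₀ / 2 + T + 4) : Set (X n)) ⊆
        ball (0 : E n) (R + 1) ×ˢ Ioo (-(T + 5)) (T + 5) := by
      apply unit_mono
      · linarith
      · linarith
      · linarith
    have h5 := D x₁ (tc - s₀ / 2) v G
      (h1.toSupOn.restrict (unit_open _ _ _ _) (unit_open _ _ _ _) hsub2)
      ((unit_ae_mono hsub2 h2).mono fun z hz => hz.1) h4'
    have hsub3 : (ball (0 : E n) 1 ×ˢ Ioo (-(1 / 2)) (1 / 2) : Set (X n)) ⊆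
        ball x₁ 3 ×ˢ Ioo (tc - s₀ / 2 + T) (tc - s₀ / 2 + T + 4) := by
      apply unit_mono
      · rw [dist_comm]
        linarith
      · linarith
      · linarith
    filter_upwards [unit_ae_mono hsub3 h5] with z hz
    exact (min_le_left _ _).trans hz

/-- unit scale reduction of oscillation -/
theorem unit_osc (hn : 0 < n) (hp : 1 < p) : ∃ R T σ s : ℝ, 0 < R ∧ 0 < T ∧ 0 < σ ∧ σ < 1 ∧
    0 < s ∧ ∀ (v : X n → ℝ) (G : X n → E n), SolOn p (ball (0 : E n) R ×ˢ Ioo (-T) T) v G →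
      (∀ᵐ z ∂(volume.restrict (ball (0 : E n) R ×ˢ Ioo (-T) T)), 0 ≤ v z ∧ v z ≤ 1) →
      (∀ᵐ z ∂(volume.restrict (ball (0 : E n) 1 ×ˢ Ioo (-s) s)), σ ≤ v z) ∨
      (∀ᵐ z ∂(volume.restrict (ball (0 : E n) 1 ×ˢ Ioo (-s) s)), v z ≤ 1 - σ) := by
  obtain ⟨R, T, σ, s, s₀, tc, hR, hT, hσ, hσ1, hs, hs₀, H⟩ := unit_pos (n := n) hn hp
  refine ⟨R, T, σ, s, hR, hT, hσ, hσ1, hs, fun v G h1 h2 => ?_⟩
  set Q : Set (X n) := ball (0 : E n) 1 ×ˢ Ioo (tc - s₀) (tc + s₀) with hQ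
  have hfin : volume Q ≠ ⊤ := by
    apply Bornology.IsBounded.measure_lt_top _ |>.ne
    exact isBounded_ball.prod (isBounded_Ioo _ _)
  by_cases hm : (1 / 2) * (volume Q).toReal ≤ (volume {z | z ∈ Q ∧ 1 / 2 ≤ v z}).toReal
  · exact Or.inl (H v G h1 h2 hm)
  · right
    have h3 := H (fun z => 1 - v z) (fun z => - G z) (unit_one_sub hp (unit_open _ _ _ _) h1)
      (h2.mono fun z hz => ⟨by linarith [hz.2], by linarith [hz.1]⟩) (by
        have hcov : Q ⊆ {z | z ∈ Q ∧ 1 / 2 ≤ v z} ∪ {z | z ∈ Q ∧ 1 / 2 ≤ 1 - v z} := by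
          intro z hz
          rcases le_total (1 / 2) (v z) with h | h
          · exact Or.inl ⟨hz, h⟩
          · exact Or.inr ⟨hz, by linarith⟩
        have h4 : volume Q ≤ volume {z | z ∈ Q ∧ 1 / 2 ≤ v z} +
            volume {z | z ∈ Q ∧ 1 / 2 ≤ 1 - v z} :=
          (measure_mono hcov).trans (measure_union_le _ _)
        have f1 : volume {z | z ∈ Q ∧ 1 / 2 ≤ v z} ≠ ⊤ :=
          ne_top_of_le_ne_top hfin (measure_mono fun z hz => hz.1)
        have f2 : volume {z | z ∈ Q ∧ 1 / 2 ≤ 1 - v z} ≠ ⊤ :=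
          ne_top_of_le_ne_top hfin (measure_mono fun z hz => hz.1)
        have h5 := (ENNReal.toReal_le_toReal hfin (ENNReal.add_ne_top.2 ⟨f1, f2⟩)).2 h4
        rw [ENNReal.toReal_add f1 f2] at h5
        push Not at hm
        linarith)
    filter_upwards [h3] with z hz
    linarith

end PP
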